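import Mathlib

set_option autoImplicit false
set_option linter.unusedSectionVars false
set_option linter.style.haveILetI false
set_option linter.unusedVariables false

namespace Pool.Agent.Lib.MP_df4dfc_nt

open NumberField Finset Module

section Boxes

variable {R : Type*} [CommRing R] [IsDedekindDomain R] [CharZero R]
variable {ι : Type*} [Fintype ι] (b : Basis ι ℤ R)

open Classical in
/-- the box of elements with coordinates in `(c_i, c_i + X]` -/
noncomputable def box (c : ι → ℤ) (X : ℕ) : Finset R :=
  (Fintype.piFinset fun i => Finset.Ioc (c i) (c i + X)).map b.equivFun.symm.toEquiv.toEmbedding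

theorem mem_box {c : ι → ℤ} {X : ℕ} {x : R} :
    x ∈ box b c X ↔ ∀ i, c i < b.repr x i ∧ b.repr x i ≤ c i + X := by
  classical
  unfold box
  simp only [Finset.mem_map, Fintype.mem_piFinset, Finset.mem_Ioc, Equiv.toEmbedding_apply,
    LinearEquiv.coe_toEquiv]
  constructor
  · rintro ⟨y, hy, rfl⟩ i
    have : b.repr (b.equivFun.symm y) i = y i := by
      have := congrFun (b.equivFun.apply_symm_apply y) i
      simpa [Basis.equivFun_apply] using this
    rw [this]
    exact hy i
  · intro h
    refine ⟨b.equivFun x, ?_, b.equivFun.symm_apply_apply x⟩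
    intro i
    simpa [Basis.equivFun_apply] using h i

theorem card_box (c : ι → ℤ) (X : ℕ) : (box b c X).card = X ^ Fintype.card ι := by
  classical
  unfold box
  rw [Finset.card_map, Fintype.card_piFinset]
  simp [Finset.prod_const]

variable [Module.Free ℤ R] [Module.Finite ℤ R]

/-- every class mod a nonzero ideal has a representative with small coordinates. -/
theorem exists_small_rep : ∃ C : ℕ, ∀ I : Ideal R, I ≠ ⊥ → ∀ m : ℕ,
    Ideal.absNorm I < (m + 1) ^ Fintype.card ι →
    ∀ x : R, ∃ y : R, x - y ∈ I ∧ ∀ i, |b.repr y i| ≤ ((C * m : ℕ) : ℤ) := by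
  classical
  refine ⟨∑ i, ∑ j, ∑ k, (b.repr (b k * b i) j).natAbs, ?_⟩
  set C := ∑ i, ∑ j, ∑ k, (b.repr (b k * b i) j).natAbs with hC
  intro I hI m hm x
  have hNI : Ideal.absNorm I ≠ 0 := by
    rwa [Ne, Ideal.absNorm_eq_zero_iff]
  haveI : Finite (R ⧸ I) := (Ideal.absNorm_ne_zero_iff I).1 hNI
  haveI : Fintype (R ⧸ I) := Fintype.ofFinite _
  -- pigeonhole
  obtain ⟨α, hαI, hα0, hαc⟩ : ∃ α ∈ I, α ≠ 0 ∧ ∀ i, |b.repr α i| ≤ (m : ℤ) := by
    let f : (ι → Fin (m + 1)) → R ⧸ I := fun g =>
      Ideal.Quotient.mk I (b.equivFun.symm fun i => ((g i : ℕ) : ℤ))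
    have hcard : Fintype.card (R ⧸ I) < Fintype.card (ι → Fin (m + 1)) := by
      rw [Fintype.card_fun, Fintype.card_fin, ← Nat.card_eq_fintype_card]
      rwa [Ideal.absNorm_apply, Submodule.cardQuot_apply] at hm
    obtain ⟨g, h, hne, heq⟩ := Fintype.exists_ne_map_eq_of_card_lt f hcard
    refine ⟨b.equivFun.symm (fun i => ((g i : ℕ) : ℤ) - ((h i : ℕ) : ℤ)), ?_, ?_, ?_⟩
    · have : b.equivFun.symm (fun i => ((g i : ℕ) : ℤ) - ((h i : ℕ) : ℤ))
          = b.equivFun.symm (fun i => ((g i : ℕ) : ℤ)) - b.equivFun.symm (fun i => ((h i : ℕ) : ℤ)) := by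
        rw [← map_sub]; rfl
      rw [this]
      exact Ideal.Quotient.eq.1 heq
    · intro h0
      apply hne
      have h1 := (LinearEquiv.map_eq_zero_iff b.equivFun.symm).1 h0
      funext i
      have h2 := congrFun h1 i
      simp only [Pi.zero_apply] at h2
      apply Fin.ext
      omega
    · intro i
      have : b.repr (b.equivFun.symm (fun i => ((g i : ℕ) : ℤ) - ((h i : ℕ) : ℤ))) i
          = ((g i : ℕ) : ℤ) - ((h i : ℕ) : ℤ) := by
        have := congrFun (b.equivFun.apply_symm_apply (fun i => ((g i : ℕ) : ℤ) - ((h i : ℕ) : ℤ))) i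
        simpa [Basis.equivFun_apply] using this
      rw [this]
      have h1 := (g i).2
      have h2 := (h i).2
      rw [abs_le]
      omega
  -- division
  set N : ℕ := Ideal.absNorm (Ideal.span {α}) with hN
  have hN0 : N ≠ 0 := by
    rw [hN, Ne, Ideal.absNorm_eq_zero_iff, Ideal.span_singleton_eq_bot]
    exact hα0
  have hNpos : (0:ℤ) < N := by positivity
  obtain ⟨α', hα'⟩ : ∃ α', α' * α = (N : R) := by
    have := Ideal.absNorm_mem (Ideal.span {α})
    exact Ideal.mem_span_singleton'.1 this
  set u : ι → ℤ := fun i => b.repr (x * α') i with hu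
  set q : ι → ℤ := fun i => u i / N with hq
  set r : ι → ℤ := fun i => u i % N with hr
  have hur : ∀ i, u i = N * q i + r i := fun i => (Int.mul_ediv_add_emod (u i) N).symm
  have hr0 : ∀ i, 0 ≤ r i := fun i => Int.emod_nonneg _ hNpos.ne'
  have hrN : ∀ i, r i < N := fun i => Int.emod_lt_of_pos _ hNpos
  set y : R := x - α * b.equivFun.symm q with hy
  refine ⟨y, ?_, ?_⟩
  · rw [hy, sub_sub_cancel]
    exact I.mul_mem_right _ hαI
  · intro j
    -- N * y = α * Σ r_i b_i
    have h1 : (N : R) * y = α * b.equivFun.symm r := by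
      have h2 : x * α' = b.equivFun.symm u := by
        rw [hu]
        have : (fun i => (b.repr (x * α')) i) = b.equivFun (x * α') := by
          funext i; rw [Basis.equivFun_apply]
        rw [this, LinearEquiv.symm_apply_apply]
      have h3 : b.equivFun.symm u = (N : R) * b.equivFun.symm q + b.equivFun.symm r := by
        have : u = (N : ℤ) • q + r := by
          funext i
          simp only [Pi.add_apply, Pi.smul_apply, smul_eq_mul]
          exact hur i
        rw [this, map_add, map_smul]
        simp
      have h4 : (N : R) * y = α * (y * α') := by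
        rw [← hα']; ring
      rw [h4, hy, sub_mul, h2, h3]
      have h5 : α * b.equivFun.symm q * α' = (N : R) * b.equivFun.symm q := by
        rw [← hα']; ring
      rw [h5]
      ring
    have h6 : (N : ℤ) * b.repr y j = ∑ i, r i * b.repr (α * b i) j := by
      have h7 : b.repr ((N : R) * y) j = (N : ℤ) * b.repr y j := by
        have : (N : R) * y = (N : ℤ) • y := by simp
        rw [this, map_smul]
        simp
      rw [← h7, h1, Basis.equivFun_symm_apply, Finset.mul_sum, map_sum, Finsupp.finsetSum_apply]
      apply Finset.sum_congr rfl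
      intro i _
      rw [mul_smul_comm, map_smul, Finsupp.smul_apply, smul_eq_mul]
    have h8 : ∀ i, |b.repr (α * b i) j| ≤ m * ((∑ k, (b.repr (b k * b i) j).natAbs : ℕ) : ℤ) := by
      intro i
      have h9 : b.repr (α * b i) j = ∑ k, b.repr α k * b.repr (b k * b i) j := by
        conv_lhs => rw [← b.sum_repr α, Finset.sum_mul]
        rw [map_sum, Finsupp.finsetSum_apply]
        apply Finset.sum_congr rfl
        intro k _
        rw [smul_mul_assoc, map_smul, Finsupp.smul_apply, smul_eq_mul]
      rw [h9]
      refine (Finset.abs_sum_le_sum_abs _ _).trans ?_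
      push_cast
      rw [Finset.mul_sum]
      apply Finset.sum_le_sum
      intro k _
      rw [abs_mul]
      exact mul_le_mul_of_nonneg_right (hαc k) (abs_nonneg _)
    have h10 : |(N : ℤ) * b.repr y j| ≤ N * ((C * m : ℕ) : ℤ) := by
      rw [h6]
      refine (Finset.abs_sum_le_sum_abs _ _).trans ?_
      have h11 : ∀ i ∈ Finset.univ, |r i * b.repr (α * b i) j|
          ≤ (N : ℤ) * (m * ((∑ k, (b.repr (b k * b i) j).natAbs : ℕ) : ℤ)) := by
        intro i _
        rw [abs_mul, abs_of_nonneg (hr0 i)]
        exact mul_le_mul (hrN i).le (h8 i) (abs_nonneg _) (by positivity)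
      refine (Finset.sum_le_sum h11).trans ?_
      rw [← Finset.mul_sum, ← Finset.mul_sum]
      have h12 : (∑ i, ((∑ k, (b.repr (b k * b i) j).natAbs : ℕ) : ℤ)) ≤ (C : ℤ) := by
        rw [hC]
        push_cast
        apply Finset.sum_le_sum
        intro i _
        exact Finset.single_le_sum (f := fun j => ∑ k, |b.repr (b k * b i) j|)
          (fun _ _ => Finset.sum_nonneg fun _ _ => abs_nonneg _) (Finset.mem_univ j)
      push_cast at h12 ⊢
      have hm0 : (0:ℤ) ≤ m := by positivity
      have : (m : ℤ) * ∑ i, ∑ k, |b.repr (b k * b i) j| ≤ (C : ℤ) * m := by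
        rw [mul_comm (C : ℤ)]
        exact mul_le_mul_of_nonneg_left h12 hm0
      exact mul_le_mul_of_nonneg_left this hNpos.le
    rw [abs_mul, abs_of_pos hNpos] at h10
    exact le_of_mul_le_mul_left h10 hNpos

open Classical in
/-- the elements of the ideal `I` in the box. -/
noncomputable def boxI (c : ι → ℤ) (X : ℕ) (I : Ideal R) : Finset R :=
  (box b c X).filter (· ∈ I)

/-- Counting elements of an ideal in a box. -/
theorem card_boxI : ∃ C : ℕ, ∀ I : Ideal R, I ≠ ⊥ → ∀ m : ℕ,
    Ideal.absNorm I < (m + 1) ^ Fintype.card ι → ∀ (c : ι → ℤ) (X : ℕ),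
    (Ideal.absNorm I * (boxI b c X I).card ≤ (X + 2 * (C * m)) ^ Fintype.card ι) ∧
    ((X - 2 * (C * m)) ^ Fintype.card ι ≤ Ideal.absNorm I * (boxI b c X I).card) := by
  classical
  obtain ⟨C, hC⟩ := exists_small_rep b
  refine ⟨C, ?_⟩
  intro I hI m hm c X
  have hrep := hC I hI m hm
  set D := C * m with hD
  have hNI : Ideal.absNorm I ≠ 0 := by
    rwa [Ne, Ideal.absNorm_eq_zero_iff]
  haveI : Finite (R ⧸ I) := (Ideal.absNorm_ne_zero_iff I).1 hNI
  haveI : Fintype (R ⧸ I) := Fintype.ofFinite _
  have hcardq : Ideal.absNorm I = Fintype.card (R ⧸ I) := by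
    rw [Ideal.absNorm_apply, Submodule.cardQuot_apply, Nat.card_eq_fintype_card]
  -- representatives
  have hrep' : ∀ q : R ⧸ I, ∃ y : R, Ideal.Quotient.mk I y = q ∧ ∀ i, |b.repr y i| ≤ (D : ℤ) := by
    intro q
    obtain ⟨x, rfl⟩ := Ideal.Quotient.mk_surjective q
    obtain ⟨y, hy1, hy2⟩ := hrep x
    refine ⟨y, ?_, hy2⟩
    exact (Ideal.Quotient.eq.2 hy1).symm
  choose y hy1 hy2 using hrep'
  have hmemI : ∀ x : R, x ∈ boxI b c X I ↔ (∀ i, c i < b.repr x i ∧ b.repr x i ≤ c i + X) ∧ x ∈ I := by
    intro x
    unfold boxI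
    rw [Finset.mem_filter, mem_box]
  constructor
  · -- upper bound
    set c' : ι → ℤ := fun i => c i - D with hc'
    have h1 : (box b c' (X + 2 * D)).card = ∑ q : R ⧸ I,
        ((box b c' (X + 2 * D)).filter (fun x => Ideal.Quotient.mk I x = q)).card :=
      Finset.card_eq_sum_card_fiberwise (fun x _ => Finset.mem_univ _)
    have h2 : ∀ q : R ⧸ I, (boxI b c X I).card
        ≤ ((box b c' (X + 2 * D)).filter (fun x => Ideal.Quotient.mk I x = q)).card := by
      intro q
      apply Finset.card_le_card_of_injOn (fun x => x + y q)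
      · intro x hx
        rw [Finset.mem_coe, hmemI] at hx
        rw [Finset.mem_coe, Finset.mem_filter, mem_box]
        refine ⟨?_, ?_⟩
        · intro i
          have h3 := hx.1 i
          have h4 := abs_le.1 (hy2 q i)
          simp only [hc', map_add, Finsupp.add_apply]
          push_cast
          constructor
          · linarith
          · linarith
        · rw [map_add, hy1 q, Ideal.Quotient.eq_zero_iff_mem.2 hx.2, zero_add]
      · intro x _ x' _ h
        exact add_right_cancel h
    calc Ideal.absNorm I * (boxI b c X I).card = ∑ q : R ⧸ I, (boxI b c X I).card := by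
          rw [Finset.sum_const, Finset.card_univ, ← hcardq, smul_eq_mul]
      _ ≤ ∑ q : R ⧸ I, ((box b c' (X + 2 * D)).filter (fun x => Ideal.Quotient.mk I x = q)).card :=
          Finset.sum_le_sum fun q _ => h2 q
      _ = (box b c' (X + 2 * D)).card := h1.symm
      _ = (X + 2 * D) ^ Fintype.card ι := card_box b _ _
  · -- lower bound
    set c' : ι → ℤ := fun i => c i + D with hc'
    have h1 : (box b c' (X - 2 * D)).card = ∑ q : R ⧸ I,
        ((box b c' (X - 2 * D)).filter (fun x => Ideal.Quotient.mk I x = q)).card :=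
      Finset.card_eq_sum_card_fiberwise (fun x _ => Finset.mem_univ _)
    have h2 : ∀ q : R ⧸ I, ((box b c' (X - 2 * D)).filter (fun x => Ideal.Quotient.mk I x = q)).card
        ≤ (boxI b c X I).card := by
      intro q
      apply Finset.card_le_card_of_injOn (fun x => x - y q)
      · intro x hx
        rw [Finset.mem_coe, Finset.mem_filter, mem_box] at hx
        rw [Finset.mem_coe, hmemI]
        refine ⟨?_, ?_⟩
        · intro i
          have h3 := hx.1 i
          have h4 := abs_le.1 (hy2 q i)
          simp only [hc'] at h3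
          simp only [map_sub, Finsupp.sub_apply]
          rcases le_total (2 * D) X with h5 | h5
          · have h6 : ((X - 2 * D : ℕ) : ℤ) = (X : ℤ) - 2 * D := by
              rw [Nat.cast_sub h5]; push_cast; ring
            rw [h6] at h3
            constructor
            · linarith
            · linarith
          · have h6 : X - 2 * D = 0 := Nat.sub_eq_zero_of_le h5
            rw [h6] at h3
            simp only [Nat.cast_zero, add_zero] at h3
            exfalso
            linarith
        · rw [← Ideal.Quotient.eq, hx.2, hy1 q]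
      · intro x _ x' _ h
        exact sub_left_injective h
    calc (X - 2 * D) ^ Fintype.card ι = (box b c' (X - 2 * D)).card := (card_box b _ _).symm
      _ = ∑ q : R ⧸ I, ((box b c' (X - 2 * D)).filter (fun x => Ideal.Quotient.mk I x = q)).card := h1
      _ ≤ ∑ q : R ⧸ I, (boxI b c X I).card := Finset.sum_le_sum fun q _ => h2 q
      _ = Ideal.absNorm I * (boxI b c X I).card := by
          rw [Finset.sum_const, Finset.card_univ, ← hcardq, smul_eq_mul]

end Boxes

end Pool.Agent.Lib.MP_df4dfc_nt
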