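import Mathlib
import Pool.Agent.Lib.MP_df4dfc_nt.Boxes

set_option autoImplicit false
set_option linter.unusedSectionVars false
set_option linter.style.haveILetI false
set_option linter.unusedVariables false

namespace Pool.Agent.Lib.MP_df4dfc_nt

open NumberField Finset Module IsDedekindDomain

/-- Abel summation over a finite set of positive integers. -/
theorem abel (g h : ℕ → ℝ) (n : ℕ) (A : Finset ℕ) (hA : A ⊆ Icc 1 n) :
    ∑ a ∈ A, g a * h a = h n * ∑ a ∈ A, g a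
      - ∑ j ∈ Ico 1 n, (h (j + 1) - h j) * ∑ a ∈ A.filter (· ≤ j), g a := by
  have htel : ∀ a : ℕ, a ≤ n → ∑ j ∈ Ico a n, (h (j + 1) - h j) = h n - h a := by
    intro a han
    clear hA
    induction n, han using Nat.le_induction with
    | base => simp
    | succ n hn ih => rw [Finset.sum_Ico_succ_top hn, ih]; ring
  have h1 : ∀ a ∈ A, g a * h a = h n * g a - ∑ j ∈ Ico 1 n, if a ≤ j then (h (j + 1) - h j) * g a else 0 := by
    intro a ha
    have ha' := Finset.mem_Icc.1 (hA ha)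
    have : ∑ j ∈ Ico 1 n, (if a ≤ j then (h (j + 1) - h j) * g a else 0)
        = ∑ j ∈ Ico a n, (h (j + 1) - h j) * g a := by
      rw [← Finset.sum_filter]
      apply Finset.sum_congr
      · ext j
        simp only [Finset.mem_filter, Finset.mem_Ico]
        omega
      · intros; rfl
    rw [this, ← Finset.sum_mul, htel a ha'.2]
    ring
  rw [Finset.sum_congr rfl h1, Finset.sum_sub_distrib, ← Finset.mul_sum, Finset.sum_comm]
  congr 1
  apply Finset.sum_congr rfl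
  intro j _
  rw [Finset.mul_sum, Finset.sum_filter]

/-- Chebyshev transfer: for `g` nonnegative and antitone on `[1, N]`,
`∑_{p ≤ N} log p g(p) ≤ log 4 ∑_{m ≤ N} g(m)`. -/
theorem sum_primes_log_le (g : ℕ → ℝ) (N : ℕ) (hg0 : ∀ m, 0 ≤ g m)
    (hg : ∀ m, 1 ≤ m → g (m + 1) ≤ g m) :
    ∑ p ∈ (Icc 1 N).filter Nat.Prime, Real.log p * g p ≤ Real.log 4 * ∑ m ∈ Icc 1 N, g m := by
  have hθ : ∀ j : ℕ, ∑ a ∈ (Icc 1 j).filter Nat.Prime, Real.log a ≤ Real.log 4 * j := by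
    intro j
    have h1 := Chebyshev.theta_le_log4_mul_x (x := (j : ℝ)) (by positivity)
    unfold Chebyshev.theta at h1
    rw [Nat.floor_natCast] at h1
    exact h1
  rw [abel (fun a => Real.log a) g N _ (Finset.filter_subset _ _)]
  have h2 : ∑ m ∈ Icc 1 N, g m = ∑ m ∈ Icc 1 N, (1:ℝ) * g m := by simp
  rw [h2, abel (fun _ => (1:ℝ)) g N _ (Finset.Subset.refl _)]
  have h3 : ∀ j ∈ Ico 1 N, ∑ a ∈ ((Icc 1 N).filter Nat.Prime).filter (· ≤ j), Real.log a
      ≤ Real.log 4 * ∑ a ∈ (Icc 1 N).filter (· ≤ j), (1:ℝ) := by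
    intro j hj
    have hj' := Finset.mem_Ico.1 hj
    have e1 : ((Icc 1 N).filter Nat.Prime).filter (· ≤ j) = (Icc 1 j).filter Nat.Prime := by
      ext a
      simp only [Finset.mem_filter, Finset.mem_Icc]
      constructor
      · rintro ⟨⟨⟨h1, h2⟩, h3⟩, h4⟩; exact ⟨⟨h1, h4⟩, h3⟩
      · rintro ⟨⟨h1, h4⟩, h3⟩; exact ⟨⟨⟨h1, by omega⟩, h3⟩, h4⟩
    have e2 : (Icc 1 N).filter (· ≤ j) = Icc 1 j := by
      ext a
      simp only [Finset.mem_filter, Finset.mem_Icc]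
      omega
    rw [e1, e2]
    simpa using hθ j
  have h4 : ∑ j ∈ Ico 1 N, (g (j + 1) - g j) * ∑ a ∈ ((Icc 1 N).filter Nat.Prime).filter (· ≤ j), Real.log a
      ≥ Real.log 4 * ∑ j ∈ Ico 1 N, (g (j + 1) - g j) * ∑ a ∈ (Icc 1 N).filter (· ≤ j), (1:ℝ) := by
    rw [Finset.mul_sum]
    apply Finset.sum_le_sum
    intro j hj
    have hj' := Finset.mem_Ico.1 hj
    have h5 : g (j + 1) - g j ≤ 0 := by linarith [hg j hj'.1]
    have := mul_le_mul_of_nonpos_left (h3 j hj) h5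
    linarith
  have h6 : g N * ∑ a ∈ (Icc 1 N).filter Nat.Prime, Real.log a
      ≤ Real.log 4 * (g N * ∑ a ∈ Icc 1 N, (1:ℝ)) := by
    have := mul_le_mul_of_nonneg_left (hθ N) (hg0 N)
    simpa [mul_comm, mul_assoc, mul_left_comm] using this
  linarith

variable (F : Type*) [Field F] [NumberField F]

/-- The finite set of primes of norm at most `N`. -/
noncomputable def primesLE (N : ℕ) : Finset (HeightOneSpectrum (𝓞 F)) :=
  ((Ideal.finite_setOfPred_absNorm_le (S := 𝓞 F) N).preimage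
    (f := fun P : HeightOneSpectrum (𝓞 F) => P.asIdeal)
    (by
      intro P _ Q _ h
      exact HeightOneSpectrum.ext h)).toFinset

variable {F}

/-- norm of a prime -/
noncomputable def nrm (P : HeightOneSpectrum (𝓞 F)) : ℕ := Ideal.absNorm P.asIdeal

theorem mem_primesLE {N : ℕ} {P : HeightOneSpectrum (𝓞 F)} : P ∈ primesLE F N ↔ nrm P ≤ N := by
  unfold primesLE nrm
  simp

/-- the rational prime below -/
theorem exists_charP (P : HeightOneSpectrum (𝓞 F)) :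
    ∃ p n : ℕ, 0 < n ∧ (p : 𝓞 F) ∈ P.asIdeal ∧ p.Prime ∧ nrm P = p ^ n := by
  haveI := P.isMaximal
  exact Ideal.exists_prime_and_absNorm_eq_pow P.asIdeal

noncomputable def rp (P : HeightOneSpectrum (𝓞 F)) : ℕ := (exists_charP P).choose

theorem rp_spec (P : HeightOneSpectrum (𝓞 F)) :
    ∃ n : ℕ, 0 < n ∧ (rp P : 𝓞 F) ∈ P.asIdeal ∧ (rp P).Prime ∧ nrm P = (rp P) ^ n :=
  (exists_charP P).choose_spec

theorem rp_prime (P : HeightOneSpectrum (𝓞 F)) : (rp P).Prime := (rp_spec P).choose_spec.2.2.1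

theorem rp_mem (P : HeightOneSpectrum (𝓞 F)) : (rp P : 𝓞 F) ∈ P.asIdeal :=
  (rp_spec P).choose_spec.2.1

theorem rp_le_nrm (P : HeightOneSpectrum (𝓞 F)) : rp P ≤ nrm P := by
  obtain ⟨n, hn, _, hp, h⟩ := rp_spec P
  rw [h]
  exact Nat.le_self_pow hn.ne' _

theorem two_le_nrm (P : HeightOneSpectrum (𝓞 F)) : 2 ≤ nrm P :=
  (rp_prime P).two_le.trans (rp_le_nrm P)

theorem nrm_pos (P : HeightOneSpectrum (𝓞 F)) : 0 < nrm P := by
  have := two_le_nrm P; omega

theorem log_nrm_nonneg (P : HeightOneSpectrum (𝓞 F)) : 0 ≤ Real.log (nrm P) := by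
  apply Real.log_nonneg
  exact_mod_cast (by have := two_le_nrm P; omega : 1 ≤ nrm P)

theorem prod_primes_dvd_ideal (s : Finset (HeightOneSpectrum (𝓞 F))) (J : Ideal (𝓞 F))
    (h : ∀ P ∈ s, P.asIdeal ∣ J) : (∏ P ∈ s, P.asIdeal) ∣ J := by
  classical
  have h1 : ∏ P ∈ s, P.asIdeal = ∏ Q ∈ s.image (fun P => P.asIdeal), Q := by
    rw [Finset.prod_image]
    intro P _ Q _ h
    exact HeightOneSpectrum.ext h
  rw [h1]
  apply Finset.prod_primes_dvd
  · intro Q hQ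
    obtain ⟨P, _, rfl⟩ := Finset.mem_image.1 hQ
    exact P.prime
  · intro Q hQ
    obtain ⟨P, hP, rfl⟩ := Finset.mem_image.1 hQ
    exact h P hP

theorem sum_log_nrm_le_of_dvd (s : Finset (HeightOneSpectrum (𝓞 F))) (J : Ideal (𝓞 F))
    (hJ : J ≠ ⊥) (h : ∀ P ∈ s, P.asIdeal ∣ J) :
    ∑ P ∈ s, Real.log (nrm P) ≤ Real.log (Ideal.absNorm J) := by
  have h1 := prod_primes_dvd_ideal s J h
  have h2 : Ideal.absNorm (∏ P ∈ s, P.asIdeal) ∣ Ideal.absNorm J := map_dvd _ h1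
  have hJ0 : Ideal.absNorm J ≠ 0 := by rwa [Ne, Ideal.absNorm_eq_zero_iff]
  have h3 := Nat.le_of_dvd (Nat.pos_of_ne_zero hJ0) h2
  rw [map_prod] at h3
  have h4 : ∑ P ∈ s, Real.log (nrm P) = Real.log (∏ P ∈ s, (nrm P : ℝ)) := by
    rw [Real.log_prod]
    intro P _
    exact_mod_cast (nrm_pos P).ne'
  rw [h4]
  apply Real.log_le_log
  · apply Finset.prod_pos
    intro P _
    exact_mod_cast nrm_pos P
  · unfold nrm
    exact_mod_cast h3

theorem sum_log_over_p (s : Finset (HeightOneSpectrum (𝓞 F))) (p : ℕ) (hp : p.Prime)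
    (h : ∀ P ∈ s, (p : 𝓞 F) ∈ P.asIdeal) :
    ∑ P ∈ s, Real.log (nrm P) ≤ finrank ℤ (𝓞 F) * Real.log p := by
  have h1 := sum_log_nrm_le_of_dvd s (Ideal.span {(p : 𝓞 F)}) (by
    rw [Ne, Ideal.span_singleton_eq_bot]
    exact_mod_cast hp.ne_zero) (by
    intro P hP
    rw [Ideal.dvd_span_singleton]
    exact h P hP)
  rw [Ideal.absNorm_span_natCast] at h1
  push_cast at h1
  rwa [Real.log_pow] at h1

/-- General upper bound for sums over primes of `F`. -/
theorem sum_primesLE_le (g : ℕ → ℝ) (N : ℕ) (hg0 : ∀ m, 0 ≤ g m)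
    (hg : ∀ m, 1 ≤ m → g (m + 1) ≤ g m) :
    ∑ P ∈ primesLE F N, Real.log (nrm P) * g (nrm P)
      ≤ finrank ℤ (𝓞 F) * Real.log 4 * ∑ m ∈ Icc 1 N, g m := by
  classical
  have hanti : ∀ a b : ℕ, 1 ≤ a → a ≤ b → g b ≤ g a := by
    intro a b ha hab
    induction b, hab using Nat.le_induction with
    | base => exact le_refl _
    | succ b hb ih => exact (hg b (by omega)).trans ih
  have h1 : ∑ P ∈ primesLE F N, Real.log (nrm P) * g (nrm P)
      ≤ ∑ P ∈ primesLE F N, Real.log (nrm P) * g (rp P) := by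
    apply Finset.sum_le_sum
    intro P _
    apply mul_le_mul_of_nonneg_left _ (log_nrm_nonneg P)
    exact hanti _ _ (rp_prime P).one_le (rp_le_nrm P)
  have h2 : ∑ P ∈ primesLE F N, Real.log (nrm P) * g (rp P)
      = ∑ p ∈ (Icc 1 N).filter Nat.Prime,
        ∑ P ∈ (primesLE F N).filter (fun P => rp P = p), Real.log (nrm P) * g (rp P) := by
    rw [Finset.sum_fiberwise_of_maps_to]
    intro P hP
    rw [mem_primesLE] at hP
    rw [Finset.mem_filter, Finset.mem_Icc]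
    exact ⟨⟨(rp_prime P).one_le, (rp_le_nrm P).trans hP⟩, rp_prime P⟩
  have h3 : ∀ p ∈ (Icc 1 N).filter Nat.Prime,
      ∑ P ∈ (primesLE F N).filter (fun P => rp P = p), Real.log (nrm P) * g (rp P)
      ≤ finrank ℤ (𝓞 F) * (Real.log p * g p) := by
    intro p hp
    have hp' := (Finset.mem_filter.1 hp).2
    have e : ∑ P ∈ (primesLE F N).filter (fun P => rp P = p), Real.log (nrm P) * g (rp P)
        = (∑ P ∈ (primesLE F N).filter (fun P => rp P = p), Real.log (nrm P)) * g p := by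
      rw [Finset.sum_mul]
      apply Finset.sum_congr rfl
      intro P hP
      rw [(Finset.mem_filter.1 hP).2]
    rw [e]
    have h4 := sum_log_over_p ((primesLE F N).filter (fun P => rp P = p)) p hp' (by
      intro P hP
      rw [← (Finset.mem_filter.1 hP).2]
      exact rp_mem P)
    have := mul_le_mul_of_nonneg_right h4 (hg0 p)
    linarith
  calc _ ≤ _ := h1
    _ = _ := h2
    _ ≤ ∑ p ∈ (Icc 1 N).filter Nat.Prime, finrank ℤ (𝓞 F) * (Real.log p * g p) := Finset.sum_le_sum h3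
    _ = finrank ℤ (𝓞 F) * ∑ p ∈ (Icc 1 N).filter Nat.Prime, (Real.log p * g p) := by
        rw [Finset.mul_sum]
    _ ≤ finrank ℤ (𝓞 F) * (Real.log 4 * ∑ m ∈ Icc 1 N, g m) := by
        apply mul_le_mul_of_nonneg_left (sum_primes_log_le g N hg0 hg)
        positivity
    _ = _ := by ring

/-- Chebyshev bound. -/
theorem theta_le (N : ℕ) :
    ∑ P ∈ primesLE F N, Real.log (nrm P) ≤ finrank ℤ (𝓞 F) * Real.log 4 * N := by
  have := sum_primesLE_le (F := F) (fun _ => (1:ℝ)) N (fun _ => zero_le_one) (fun _ _ => le_refl _)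
  simpa using this

theorem sum_inv_sq_le (N : ℕ) : ∑ m ∈ Icc 1 N, ((m : ℝ) ^ 2)⁻¹ ≤ 2 := by
  rcases Nat.eq_zero_or_pos N with h | h
  · subst h; simp
  have key : ∀ M : ℕ, 1 ≤ M → ∑ m ∈ Icc 1 M, ((m : ℝ) ^ 2)⁻¹ ≤ 2 - 1 / M := by
    intro M hM
    induction M, hM using Nat.le_induction with
    | base => norm_num
    | succ M hM ih =>
      rw [Finset.sum_Icc_succ_top (by omega)]
      have hM' : (0:ℝ) < M := by exact_mod_cast hM
      have : (((M + 1 : ℕ) : ℝ) ^ 2)⁻¹ ≤ 1 / M - 1 / ((M + 1 : ℕ) : ℝ) := by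
        push_cast
        rw [div_sub_div _ _ hM'.ne' (by positivity), inv_eq_one_div, div_le_div_iff₀ (by positivity) (by positivity)]
        ring_nf
        nlinarith
      linarith
  have := key N h
  have h2 : (0:ℝ) ≤ 1 / N := by positivity
  linarith

/-- `∑ log N(P) / N(P)^2` is bounded. -/
theorem sum_log_inv_sq_le (N : ℕ) :
    ∑ P ∈ primesLE F N, Real.log (nrm P) * ((nrm P : ℝ) ^ 2)⁻¹ ≤ finrank ℤ (𝓞 F) * Real.log 4 * 2 := by
  refine (sum_primesLE_le (F := F) (fun m => ((m : ℝ) ^ 2)⁻¹) N (fun _ => by positivity) ?_).trans ?_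
  · intro m hm
    have hm' : (0:ℝ) < m := by exact_mod_cast hm
    apply inv_anti₀ (by positivity)
    push_cast
    nlinarith
  · apply mul_le_mul_of_nonneg_left (sum_inv_sq_le N)
    have : 0 ≤ Real.log 4 := Real.log_nonneg (by norm_num)
    positivity

/-- sum of `m^{-s}` for `0 ≤ s < 1`. -/
theorem sum_rpow_neg_le {s : ℝ} (hs0 : 0 ≤ s) (hs1 : s < 1) (N : ℕ) :
    ∑ m ∈ Icc 1 N, (m : ℝ) ^ (-s) ≤ (N : ℝ) ^ (1 - s) / (1 - s) := by
  have hu : 0 < 1 - s := by linarith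
  have hstep : ∀ m : ℕ, ((m + 1 : ℕ) : ℝ) ^ (-s)
      ≤ (((m + 1 : ℕ) : ℝ) ^ (1 - s) - (m : ℝ) ^ (1 - s)) / (1 - s) := by
    intro m
    have hx : (0:ℝ) < ((m + 1 : ℕ) : ℝ) := by positivity
    rw [le_div_iff₀ hu]
    have e2 : (0:ℝ) ≤ 1 + (-1 / ((m + 1 : ℕ) : ℝ)) := by
      rw [neg_div]
      have : 1 / ((m + 1 : ℕ) : ℝ) ≤ 1 := by
        rw [div_le_one hx]
        exact_mod_cast Nat.succ_le_succ (Nat.zero_le m)
      linarith
    have hb : (1 + (-1 / ((m + 1 : ℕ) : ℝ))) ^ (1 - s) ≤ 1 + (1 - s) * (-1 / ((m + 1 : ℕ) : ℝ)) := by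
      apply rpow_one_add_le_one_add_mul_self
      · linarith
      · exact hu.le
      · linarith
    have e1 : (m : ℝ) = ((m + 1 : ℕ) : ℝ) * (1 + (-1 / ((m + 1 : ℕ) : ℝ))) := by
      field_simp
      push_cast
      ring
    have h1 : (m : ℝ) ^ (1 - s) ≤ ((m + 1 : ℕ) : ℝ) ^ (1 - s) - (1 - s) * ((m + 1 : ℕ) : ℝ) ^ (-s) := by
      calc (m : ℝ) ^ (1 - s) = (((m + 1 : ℕ) : ℝ) * (1 + (-1 / ((m + 1 : ℕ) : ℝ)))) ^ (1 - s) := by rw [← e1]
        _ = ((m + 1 : ℕ) : ℝ) ^ (1 - s) * (1 + (-1 / ((m + 1 : ℕ) : ℝ))) ^ (1 - s) := by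
            rw [Real.mul_rpow hx.le e2]
        _ ≤ ((m + 1 : ℕ) : ℝ) ^ (1 - s) * (1 + (1 - s) * (-1 / ((m + 1 : ℕ) : ℝ))) := by
            gcongr
        _ = ((m + 1 : ℕ) : ℝ) ^ (1 - s) - (1 - s) * (((m + 1 : ℕ) : ℝ) ^ (1 - s) / ((m + 1 : ℕ) : ℝ)) := by
            field_simp
            ring
        _ = ((m + 1 : ℕ) : ℝ) ^ (1 - s) - (1 - s) * ((m + 1 : ℕ) : ℝ) ^ (-s) := by
            congr 2
            rw [show (-s) = (1 - s) - 1 by ring, Real.rpow_sub_one hx.ne']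
    linarith
  induction N with
  | zero => simp [Real.zero_rpow hu.ne']
  | succ N ih =>
    rw [Finset.sum_Icc_succ_top (by omega)]
    have := hstep N
    rw [sub_div] at this
    linarith

/-- `∑_{N(P) ≤ N} log N(P) N(P)^{-s} ≤ C N^{1-s}`. -/
theorem sum_log_rpow_le {s : ℝ} (hs0 : 0 ≤ s) (hs1 : s < 1) (N : ℕ) :
    ∑ P ∈ primesLE F N, Real.log (nrm P) * (nrm P : ℝ) ^ (-s)
      ≤ finrank ℤ (𝓞 F) * Real.log 4 * ((N : ℝ) ^ (1 - s) / (1 - s)) := by
  refine (sum_primesLE_le (F := F) (fun m => (m : ℝ) ^ (-s)) N (fun _ => by positivity) ?_).trans ?_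
  · intro m hm
    have hm' : (0:ℝ) < m := by exact_mod_cast hm
    apply Real.rpow_le_rpow_of_nonpos hm' (by push_cast; linarith) (by linarith)
  · apply mul_le_mul_of_nonneg_left (sum_rpow_neg_le hs0 hs1 N)
    have : 0 ≤ Real.log 4 := Real.log_nonneg (by norm_num)
    positivity

end Pool.Agent.Lib.MP_df4dfc_nt
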