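import Mathlib
import Pool.Agent.Lib.MP_df4dfc_nt.Primes

set_option autoImplicit false
set_option linter.unusedSectionVars false
set_option linter.style.haveILetI false
set_option linter.unusedVariables false

namespace Pool.Agent.Lib.MP_df4dfc_nt

open NumberField Finset Module IsDedekindDomain

/-- Bernoulli type inequality. -/
theorem pow_sub_le {a c : ℝ} (hc : 0 ≤ c) (hca : c ≤ a) (n : ℕ) :
    a ^ n - n * (a - c) * a ^ (n - 1) ≤ c ^ n := by
  rcases eq_or_lt_of_le (hc.trans hca) with h0 | h0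
  · have : c = 0 := by linarith
    rw [← h0, this]
    rcases Nat.eq_zero_or_pos n with h | h
    · subst h; simp
    · simp [h.ne']
  · rcases Nat.eq_zero_or_pos n with h | h
    · subst h; simp
    have h1 := one_add_mul_le_pow (a := -(a - c) / a) (by
      rw [neg_div]
      have : (a - c) / a ≤ 1 := by rw [div_le_one h0]; linarith
      linarith) n
    have h2 : 1 + -(a - c) / a = c / a := by field_simp; ring
    rw [h2, div_pow] at h1
    have h3 : a ^ n * (1 + n * (-(a - c) / a)) ≤ a ^ n * (c ^ n / a ^ n) :=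
      mul_le_mul_of_nonneg_left h1 (by positivity)
    rw [mul_div_cancel₀ _ (by positivity : a ^ n ≠ 0)] at h3
    have h4 : a ^ n = a ^ (n - 1) * a := by
      rw [← pow_succ]; congr 1; omega
    have h5 : a ^ n * (1 + n * (-(a - c) / a)) = a ^ n - n * (a - c) * a ^ (n - 1) := by
      rw [mul_add, mul_one]
      have : a ^ n * (n * (-(a - c) / a)) = - (n * (a - c) * a ^ (n - 1)) := by
        rw [h4]; field_simp
      rw [this]; ring
    linarith

variable (F : Type*) [Field F] [NumberField F]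

/-- number field degree as cardinality of the basis index -/
noncomputable abbrev deg : ℕ := Fintype.card (Free.ChooseBasisIndex ℤ (𝓞 F))

theorem deg_eq : deg F = finrank ℤ (𝓞 F) := (finrank_eq_card_chooseBasisIndex ℤ (𝓞 F)).symm

theorem deg_eq' : deg F = finrank ℚ F := by rw [deg_eq, RingOfIntegers.rank]

theorem deg_pos : 0 < deg F := by
  rw [deg_eq']; exact finrank_pos

/-- real version of the box count -/
theorem boxI_real : ∃ C : ℝ, 0 ≤ C ∧ ∀ I : Ideal (𝓞 F), I ≠ ⊥ →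
    ∀ (c : Free.ChooseBasisIndex ℤ (𝓞 F) → ℤ) (X : ℕ),
    ((Ideal.absNorm I : ℝ) * ((boxI (RingOfIntegers.basis F) c X I).card : ℝ)
      ≤ (X + C * (Ideal.absNorm I : ℝ) ^ (1 / (deg F : ℝ))) ^ deg F) ∧
    ((X : ℝ) ^ deg F - deg F * (C * (Ideal.absNorm I : ℝ) ^ (1 / (deg F : ℝ))) * (X : ℝ) ^ (deg F - 1)
      ≤ (Ideal.absNorm I : ℝ) * ((boxI (RingOfIntegers.basis F) c X I).card : ℝ)) := by
  obtain ⟨C, hC⟩ := card_boxI (RingOfIntegers.basis F)
  refine ⟨2 * C, by positivity, ?_⟩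
  intro I hI c X
  set n := deg F with hn
  have hn0 : 0 < n := deg_pos F
  have hnR : (0:ℝ) < n := by exact_mod_cast hn0
  set N := Ideal.absNorm I with hN
  set m : ℕ := ⌊(N : ℝ) ^ (1 / (n : ℝ))⌋₊ with hm
  have hm1 : (m : ℝ) ≤ (N : ℝ) ^ (1 / (n : ℝ)) := Nat.floor_le (by positivity)
  have hm2 : (N : ℝ) ^ (1 / (n : ℝ)) < m + 1 := Nat.lt_floor_add_one _
  have hm3 : N < (m + 1) ^ n := by
    have h1 : (N : ℝ) < (m + 1) ^ n := by
      calc (N : ℝ) = ((N : ℝ) ^ (1 / (n : ℝ))) ^ n := by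
            rw [← Real.rpow_natCast, ← Real.rpow_mul (by positivity)]
            rw [one_div_mul_cancel hnR.ne', Real.rpow_one]
        _ < (m + 1) ^ n := by
            apply pow_lt_pow_left₀ hm2 (by positivity) hn0.ne'
    exact_mod_cast h1
  obtain ⟨h1, h2⟩ := hC I hI m hm3 c X
  constructor
  · have h3 : ((N * (boxI (RingOfIntegers.basis F) c X I).card : ℕ) : ℝ) ≤ (((X + 2 * (C * m)) ^ n : ℕ) : ℝ) := by
      exact_mod_cast h1
    push_cast at h3
    refine h3.trans ?_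
    apply pow_le_pow_left₀ (by positivity)
    have : 2 * ((C : ℝ) * m) ≤ 2 * C * (N : ℝ) ^ (1 / (n : ℝ)) := by
      rw [mul_assoc]
      gcongr
    linarith
  · have h3 : (((X - 2 * (C * m) : ℕ) : ℝ)) ^ n ≤ (N : ℝ) * ((boxI (RingOfIntegers.basis F) c X I).card : ℝ) := by
      exact_mod_cast h2
    refine le_trans ?_ h3
    set t : ℝ := ((X - 2 * (C * m) : ℕ) : ℝ) with ht
    have ht0 : 0 ≤ t := by positivity
    have htX : t ≤ X := by
      rw [ht]; exact_mod_cast Nat.sub_le _ _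
    have h4 := pow_sub_le ht0 htX n
    have h5 : (X : ℝ) - t ≤ 2 * C * (N : ℝ) ^ (1 / (n : ℝ)) := by
      have h6 : (X : ℝ) ≤ t + 2 * (C * m) := by
        rw [ht]
        have : X ≤ (X - 2 * (C * m)) + 2 * (C * m) := by omega
        exact_mod_cast this
      have h7 : 2 * ((C : ℝ) * m) ≤ 2 * C * (N : ℝ) ^ (1 / (n : ℝ)) := by
        rw [mul_assoc]
        gcongr
      linarith
    have h8 : (n : ℝ) * ((X : ℝ) - t) * (X : ℝ) ^ (n - 1)
        ≤ n * (2 * C * (N : ℝ) ^ (1 / (n : ℝ))) * (X : ℝ) ^ (n - 1) := by gcongr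
    linarith

/-- the absolute norm of an element as product over the complex embeddings -/
theorem absNorm_span_eq (α : 𝓞 F) :
    ((Ideal.absNorm (Ideal.span {α}) : ℕ) : ℝ) = ∏ σ : F →ₐ[ℚ] ℂ, ‖σ (α : F)‖ := by
  rw [Ideal.absNorm_span_singleton]
  have h1 := Algebra.norm_eq_prod_embeddings ℚ ℂ (α : F)
  have h2 : ‖algebraMap ℚ ℂ (Algebra.norm ℚ (α : F))‖ = ∏ σ : F →ₐ[ℚ] ℂ, ‖σ (α : F)‖ := by
    rw [h1, norm_prod]
  rw [← h2, ← Algebra.coe_norm_int]
  simp [Nat.cast_natAbs]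

theorem card_emb : Fintype.card (F →ₐ[ℚ] ℂ) = deg F := by
  rw [AlgHom.card, deg_eq']

/-- A shifted box in which all norms have the right size. -/
theorem exists_good_box : ∃ (K : ℕ), 1 ≤ K ∧ ∀ X : ℕ, 1 ≤ X →
    ∃ c : Free.ChooseBasisIndex ℤ (𝓞 F) → ℤ, ∀ α ∈ box (RingOfIntegers.basis F) c X,
      α ≠ 0 ∧ X ^ deg F ≤ Ideal.absNorm (Ideal.span {α}) ∧
      Ideal.absNorm (Ideal.span {α}) ≤ (K * X) ^ deg F := by
  classical
  set b := RingOfIntegers.basis F with hb
  set B : ℝ := ∑ σ : F →ₐ[ℚ] ℂ, ∑ i, ‖σ ((b i : 𝓞 F) : F)‖ with hB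
  have hB0 : 0 ≤ B := by positivity
  obtain ⟨K0, hK0⟩ := exists_nat_ge (B + 1)
  obtain ⟨K, hK⟩ := exists_nat_ge ((K0 : ℝ) + B + 1)
  have hK1 : 1 ≤ K := by
    have : (1:ℝ) ≤ K := by
      have : (0:ℝ) ≤ K0 := by positivity
      linarith
    exact_mod_cast this
  refine ⟨K, hK1, ?_⟩
  intro X hX
  have hXR : (0:ℝ) < X := by exact_mod_cast hX
  refine ⟨fun i => (K0 * X : ℕ) * b.repr 1 i, ?_⟩
  intro α hα
  rw [mem_box] at hα
  -- each embedding
  have hemb : ∀ σ : F →ₐ[ℚ] ℂ, (X : ℝ) ≤ ‖σ (α : F)‖ ∧ ‖σ (α : F)‖ ≤ K * X := by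
    intro σ
    set β : 𝓞 F := α - (K0 * X : ℕ) • (1 : 𝓞 F) with hβ
    have hβc : ∀ i, 0 ≤ b.repr β i ∧ b.repr β i ≤ X := by
      intro i
      have h1 := hα i
      have h2 : b.repr β i = b.repr α i - (K0 * X : ℕ) * b.repr 1 i := by
        rw [hβ, map_sub, map_nsmul]
        simp
      rw [h2]
      constructor
      · linarith
      · linarith
    have hσβ : ‖σ (β : F)‖ ≤ X * B := by
      have h1 : (β : F) = ∑ i, (b.repr β i : ℤ) • ((b i : 𝓞 F) : F) := by
        conv_lhs => rw [← b.sum_repr β]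
        push_cast
        rfl
      rw [h1, map_sum]
      refine (norm_sum_le _ _).trans ?_
      have h2 : ∀ i ∈ Finset.univ, ‖σ ((b.repr β i : ℤ) • ((b i : 𝓞 F) : F))‖ ≤ X * ‖σ ((b i : 𝓞 F) : F)‖ := by
        intro i _
        rw [map_zsmul, zsmul_eq_mul, norm_mul]
        apply mul_le_mul_of_nonneg_right _ (norm_nonneg _)
        have h3 := hβc i
        rw [Complex.norm_intCast, abs_of_nonneg (by exact_mod_cast h3.1)]
        exact_mod_cast h3.2
      refine (Finset.sum_le_sum h2).trans ?_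
      rw [← Finset.mul_sum]
      apply mul_le_mul_of_nonneg_left _ hXR.le
      rw [hB]
      exact Finset.single_le_sum (f := fun σ : F →ₐ[ℚ] ℂ => ∑ i, ‖σ ((b i : 𝓞 F) : F)‖)
        (fun _ _ => Finset.sum_nonneg fun _ _ => norm_nonneg _) (Finset.mem_univ σ)
    have hα' : σ (α : F) = (K0 * X : ℕ) + σ (β : F) := by
      have : (α : F) = ((K0 * X : ℕ) : F) + (β : F) := by
        rw [hβ]; push_cast; simp
      rw [this, map_add, map_natCast]
    have hn : ‖((K0 * X : ℕ) : ℂ)‖ = K0 * X := by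
      rw [Complex.norm_natCast]; push_cast; ring
    constructor
    · rw [hα']
      have h3 := norm_sub_norm_le ((K0 * X : ℕ) : ℂ) (-(σ (β : F)))
      rw [sub_neg_eq_add, norm_neg, hn] at h3
      nlinarith
    · rw [hα']
      have h3 := norm_add_le ((K0 * X : ℕ) : ℂ) (σ (β : F))
      rw [hn] at h3
      nlinarith
  have hnorm := absNorm_span_eq F α
  have h1 : ((X ^ deg F : ℕ) : ℝ) ≤ ((Ideal.absNorm (Ideal.span {α}) : ℕ) : ℝ) := by
    rw [hnorm, ← card_emb]
    push_cast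
    rw [← Finset.card_univ, ← Finset.prod_const]
    apply Finset.prod_le_prod
    · intros; positivity
    · intro σ _; exact (hemb σ).1
  have h2 : ((Ideal.absNorm (Ideal.span {α}) : ℕ) : ℝ) ≤ (((K * X) ^ deg F : ℕ) : ℝ) := by
    rw [hnorm, ← card_emb]
    push_cast
    rw [← Finset.card_univ, ← Finset.prod_const]
    apply Finset.prod_le_prod
    · intros; positivity
    · intro σ _; exact (hemb σ).2
  refine ⟨?_, by exact_mod_cast h1, by exact_mod_cast h2⟩
  intro h0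
  rw [h0] at h1
  simp at h1
  have : (0:ℝ) < (X : ℝ) ^ deg F := by positivity
  have h3 : (0:ℝ) < ((X : ℝ) ^ Fintype.card (Free.ChooseBasisIndex ℤ (𝓞 F))) := this
  linarith

end Pool.Agent.Lib.MP_df4dfc_nt
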