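import Mathlib
import Pool.Agent.Lib.MP_df4dfc_nt.Mertens

set_option autoImplicit false
set_option linter.unusedSectionVars false
set_option linter.style.haveILetI false
set_option linter.unusedVariables false

namespace Pool.Agent.Lib.MP_df4dfc_nt

open NumberField Finset Module IsDedekindDomain

variable {F : Type*} [Field F] [NumberField F]

open Classical in
/-- upper bound of `log N(J)` by a sum over prime powers dividing `J`. -/
theorem log_absNorm_le (J : Ideal (𝓞 F)) (hJ : J ≠ ⊥) (Y : ℕ) (hY : Ideal.absNorm J ≤ Y) :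
    Real.log (Ideal.absNorm J) ≤ ∑ P ∈ primesLE F Y, Real.log (nrm P) *
      (((Icc 1 Y).filter (fun k => P.asIdeal ^ k ∣ J)).card : ℝ) := by
  have hJ0 : Ideal.absNorm J ≠ 0 := by rwa [Ne, Ideal.absNorm_eq_zero_iff]
  set fs := UniqueFactorizationMonoid.normalizedFactors J with hfs
  have hprod : fs.prod = J := Ideal.prod_normalizedFactors_eq_self hJ
  -- heightone spectrum from a factor
  have hprime : ∀ Q ∈ fs, Prime Q := fun Q hQ => UniqueFactorizationMonoid.prime_of_normalized_factor Q hQ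
  have h1 : Ideal.absNorm J = (fs.map (fun Q => Ideal.absNorm Q)).prod := by
    conv_lhs => rw [← hprod]
    rw [map_multiset_prod]
  have h2 : (Ideal.absNorm J : ℕ) = ∏ Q ∈ fs.toFinset, Ideal.absNorm Q ^ fs.count Q := by
    rw [h1, Finset.prod_multiset_map_count]
  have hQ0 : ∀ Q ∈ fs.toFinset, (Ideal.absNorm Q : ℝ) ≠ 0 := by
    intro Q hQ
    have := (hprime Q (Multiset.mem_toFinset.1 hQ)).ne_zero
    rw [Ne, Nat.cast_eq_zero, Ideal.absNorm_eq_zero_iff]
    exact this
  have h3 : Real.log (Ideal.absNorm J) = ∑ Q ∈ fs.toFinset, (fs.count Q : ℝ) * Real.log (Ideal.absNorm Q) := by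
    rw [h2]
    push_cast
    rw [Real.log_prod]
    · apply Finset.sum_congr rfl
      intro Q _
      rw [Real.log_pow]
    · intro Q hQ
      exact pow_ne_zero _ (hQ0 Q hQ)
  rw [h3]
  have hrhs : ∑ P ∈ primesLE F Y, Real.log (nrm P) *
      (((Icc 1 Y).filter (fun k => P.asIdeal ^ k ∣ J)).card : ℝ)
      = ∑ Q ∈ (primesLE F Y).image (fun P => P.asIdeal), Real.log (Ideal.absNorm Q) *
      (((Icc 1 Y).filter (fun k => Q ^ k ∣ J)).card : ℝ) := by
    rw [Finset.sum_image]
    · rfl
    · intro P _ Q _ h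
      exact HeightOneSpectrum.ext h
  rw [hrhs]
  have hsub : fs.toFinset ⊆ (primesLE F Y).image (fun P => P.asIdeal) := by
    intro Q hQ
    have hQ' := Multiset.mem_toFinset.1 hQ
    have hQp := hprime Q hQ'
    rw [Finset.mem_image]
    refine ⟨⟨Q, Ideal.isPrime_of_prime hQp, hQp.ne_zero⟩, ?_, rfl⟩
    rw [mem_primesLE]
    have hdvd : Q ∣ J := UniqueFactorizationMonoid.dvd_of_mem_normalizedFactors hQ'
    have : Ideal.absNorm Q ∣ Ideal.absNorm J := map_dvd _ hdvd
    exact (Nat.le_of_dvd (Nat.pos_of_ne_zero hJ0) this).trans hY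
  refine le_trans ?_ (Finset.sum_le_sum_of_subset_of_nonneg hsub ?_)
  · apply Finset.sum_le_sum
    intro Q hQ
    have hQ' := Multiset.mem_toFinset.1 hQ
    have hQp := hprime Q hQ'
    have hQpos : 0 < Ideal.absNorm Q := Nat.pos_of_ne_zero (by exact_mod_cast hQ0 Q hQ)
    have hlog : 0 ≤ Real.log (Ideal.absNorm Q) := by
      apply Real.log_nonneg
      exact_mod_cast hQpos
    rw [mul_comm]
    apply mul_le_mul_of_nonneg_left _ hlog
    have hcount : ∀ k ≤ fs.count Q, Q ^ k ∣ J := by
      intro k hk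
      rw [← hprod]
      have : Multiset.replicate k Q ≤ fs := Multiset.le_count_iff_replicate_le.1 hk
      have h5 := Multiset.prod_dvd_prod_of_le this
      rwa [Multiset.prod_replicate] at h5
    have hcY : fs.count Q ≤ Y := by
      have h5 : Ideal.absNorm Q ^ fs.count Q ∣ Ideal.absNorm J := by
        rw [← map_pow]
        exact map_dvd _ (hcount _ le_rfl)
      have h6 := Nat.le_of_dvd (Nat.pos_of_ne_zero hJ0) h5
      have h7 : 2 ≤ Ideal.absNorm Q := by
        have h8 := two_le_nrm (F := F) ⟨Q, Ideal.isPrime_of_prime hQp, hQp.ne_zero⟩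
        exact h8
      have h8 : 2 ^ fs.count Q ≤ Ideal.absNorm Q ^ fs.count Q := Nat.pow_le_pow_left h7 _
      have h9 : fs.count Q < 2 ^ fs.count Q := Nat.lt_two_pow_self
      omega
    have hcard : (Icc 1 (fs.count Q)).card ≤ ((Icc 1 Y).filter (fun k => Q ^ k ∣ J)).card := by
      apply Finset.card_le_card
      intro k hk
      rw [Finset.mem_Icc] at hk
      rw [Finset.mem_filter, Finset.mem_Icc]
      exact ⟨⟨hk.1, hk.2.trans hcY⟩, hcount k hk.2⟩
    rw [Nat.card_Icc] at hcard
    have : fs.count Q ≤ ((Icc 1 Y).filter (fun k => Q ^ k ∣ J)).card := by omega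
    exact_mod_cast this
  · intro Q hQ _
    obtain ⟨P, hP, rfl⟩ := Finset.mem_image.1 hQ
    exact mul_nonneg (log_nrm_nonneg P) (by positivity)

end Pool.Agent.Lib.MP_df4dfc_nt
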