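import Mathlib
import Pool.Agent.Lib.MP_df4dfc_nt.Mertens2

set_option autoImplicit false
set_option linter.unusedSectionVars false
set_option linter.style.haveILetI false
set_option linter.unusedVariables false

namespace Pool.Agent.Lib.MP_df4dfc_nt

open NumberField Finset Module IsDedekindDomain

variable (F : Type*) [Field F] [NumberField F]

/-- the Mertens sum -/
noncomputable def mert (Y : ℕ) : ℝ := ∑ P ∈ primesLE F Y, Real.log (nrm P) / nrm P

theorem mert_nonneg (Y : ℕ) : 0 ≤ mert F Y := by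
  unfold mert
  apply Finset.sum_nonneg
  intro P _
  exact div_nonneg (log_nrm_nonneg P) (by positivity)

theorem primesLE_mono {Y Z : ℕ} (h : Y ≤ Z) : primesLE F Y ⊆ primesLE F Z := by
  intro P hP
  rw [mem_primesLE] at hP ⊢
  exact hP.trans h

theorem mert_mono {Y Z : ℕ} (h : Y ≤ Z) : mert F Y ≤ mert F Z := by
  unfold mert
  apply Finset.sum_le_sum_of_subset_of_nonneg (primesLE_mono F h)
  intro P _ _
  exact div_nonneg (log_nrm_nonneg P) (by positivity)

theorem rpow_inv_pow {n : ℕ} (hn : 0 < n) {x : ℝ} (hx : 0 ≤ x) : (x ^ (1 / (n : ℝ))) ^ n = x := by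
  have hnR : (n : ℝ) ≠ 0 := by exact_mod_cast hn.ne'
  rw [← Real.rpow_natCast, ← Real.rpow_mul hx, one_div_mul_cancel hnR, Real.rpow_one]

theorem pow_rpow_inv {n : ℕ} (hn : 0 < n) {x : ℝ} (hx : 0 ≤ x) : (x ^ n) ^ (1 / (n : ℝ)) = x := by
  have hnR : (n : ℝ) ≠ 0 := by exact_mod_cast hn.ne'
  rw [← Real.rpow_natCast, ← Real.rpow_mul hx, mul_one_div_cancel hnR, Real.rpow_one]

/-- error term -/
theorem sum_log_error (n : ℕ) (hn : 0 < n) : ∃ A : ℝ, 0 ≤ A ∧ ∀ Z : ℕ,
    ∑ P ∈ primesLE F (Z ^ n), Real.log (nrm P) * ((nrm P : ℝ) ^ (1 / (n : ℝ)) / nrm P) ≤ A * Z := by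
  have hnR : (0:ℝ) < n := by exact_mod_cast hn
  have h1n : (1:ℝ) ≤ n := by exact_mod_cast hn
  have hs0 : 0 ≤ 1 - 1 / (n : ℝ) := by
    have : 1 / (n : ℝ) ≤ 1 := by rw [div_le_one hnR]; exact h1n
    linarith
  have hs1 : 1 - 1 / (n : ℝ) < 1 := by
    have : 0 < 1 / (n : ℝ) := by positivity
    linarith
  refine ⟨finrank ℤ (𝓞 F) * Real.log 4 * n, ?_, ?_⟩
  · have : 0 ≤ Real.log 4 := Real.log_nonneg (by norm_num)
    positivity
  intro Z
  have h := sum_log_rpow_le (F := F) hs0 hs1 (Z ^ n)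
  have e1 : (((Z ^ n : ℕ) : ℝ)) ^ (1 - (1 - 1 / (n : ℝ))) / (1 - (1 - 1 / (n : ℝ))) = n * Z := by
    have : 1 - (1 - 1 / (n : ℝ)) = 1 / n := by ring
    rw [this]
    push_cast
    rw [pow_rpow_inv hn (by positivity)]
    field_simp
  rw [e1] at h
  have e2 : ∑ P ∈ primesLE F (Z ^ n), Real.log (nrm P) * ((nrm P : ℝ) ^ (1 / (n : ℝ)) / nrm P)
      = ∑ P ∈ primesLE F (Z ^ n), Real.log (nrm P) * (nrm P : ℝ) ^ (-(1 - 1 / (n : ℝ))) := by
    apply Finset.sum_congr rfl
    intro P _
    have hP : (0:ℝ) < nrm P := by exact_mod_cast nrm_pos P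
    congr 1
    rw [show -(1 - 1 / (n : ℝ)) = 1 / (n : ℝ) - 1 by ring, Real.rpow_sub_one hP.ne']
  rw [e2]
  linarith

/-- Lower bound in Mertens' theorem along a sequence. -/
theorem mert_lower : ∃ (K : ℕ) (A : ℝ), 1 ≤ K ∧ ∀ X : ℕ, 1 ≤ X →
    deg F * Real.log X - A ≤ mert F ((K * X) ^ deg F) := by
  classical
  obtain ⟨K, hK1, hK⟩ := exists_good_box F
  obtain ⟨C, hC0, hC⟩ := boxI_real F
  set n := deg F with hn
  have hn0 : 0 < n := deg_pos F
  have hnR : (0:ℝ) < n := by exact_mod_cast hn0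
  obtain ⟨A1, hA1, hA1'⟩ := sum_log_error F n hn0
  set D : ℝ := 1 + C * K with hD
  have hD1 : 1 ≤ D := by
    rw [hD]
    have : 0 ≤ C * (K : ℝ) := by positivity
    linarith
  set A2 : ℝ := finrank ℤ (𝓞 F) * Real.log 4 * 2 with hA2
  have hA2' : 0 ≤ A2 := by
    have : 0 ≤ Real.log 4 := Real.log_nonneg (by norm_num)
    positivity
  refine ⟨K, n * C * D ^ (n - 1) * (A1 * K) + D ^ n * (2 * A2), hK1, ?_⟩
  intro X hX
  have hXR : (0:ℝ) < X := by exact_mod_cast hX
  obtain ⟨c, hc⟩ := hK X hX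
  set Y : ℕ := (K * X) ^ n with hY
  set bx := box (RingOfIntegers.basis F) c X with hbx
  have hcard : (bx.card : ℝ) = (X : ℝ) ^ n := by
    rw [hbx, card_box]; push_cast; rfl
  -- lower bound for Λ
  have hL1 : (X : ℝ) ^ n * (n * Real.log X) ≤ ∑ α ∈ bx, Real.log (Ideal.absNorm (Ideal.span {α})) := by
    rw [← hcard, ← nsmul_eq_mul, ← Finset.sum_const]
    apply Finset.sum_le_sum
    intro α hα
    obtain ⟨h0, h1, h2⟩ := hc α hα
    rw [← Real.log_pow]
    apply Real.log_le_log (by positivity)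
    exact_mod_cast h1
  -- upper bound for Λ
  have hU1 : ∑ α ∈ bx, Real.log (Ideal.absNorm (Ideal.span {α}))
      ≤ ∑ P ∈ primesLE F Y, Real.log (nrm P) *
        ∑ k ∈ Icc 1 Y, ((boxI (RingOfIntegers.basis F) c X (P.asIdeal ^ k)).card : ℝ) := by
    calc ∑ α ∈ bx, Real.log (Ideal.absNorm (Ideal.span {α}))
        ≤ ∑ α ∈ bx, ∑ P ∈ primesLE F Y, Real.log (nrm P) *
          (((Icc 1 Y).filter (fun k => P.asIdeal ^ k ∣ Ideal.span {α})).card : ℝ) := by
          apply Finset.sum_le_sum
          intro α hα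
          obtain ⟨h0, h1, h2⟩ := hc α hα
          apply log_absNorm_le
          · rwa [Ne, Ideal.span_singleton_eq_bot]
          · exact h2
      _ = ∑ P ∈ primesLE F Y, ∑ α ∈ bx, Real.log (nrm P) *
          (((Icc 1 Y).filter (fun k => P.asIdeal ^ k ∣ Ideal.span {α})).card : ℝ) := Finset.sum_comm
      _ = _ := by
          apply Finset.sum_congr rfl
          intro P _
          rw [← Finset.mul_sum]
          congr 1
          have e1 : ∀ α ∈ bx, (((Icc 1 Y).filter (fun k => P.asIdeal ^ k ∣ Ideal.span {α})).card : ℝ)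
              = ∑ k ∈ Icc 1 Y, if P.asIdeal ^ k ∣ Ideal.span {α} then (1:ℝ) else 0 := by
            intro α _
            rw [Finset.sum_ite]
            simp
          rw [Finset.sum_congr rfl e1, Finset.sum_comm]
          apply Finset.sum_congr rfl
          intro k _
          have e2 : bx.filter (fun α => P.asIdeal ^ k ∣ Ideal.span {α})
              = boxI (RingOfIntegers.basis F) c X (P.asIdeal ^ k) := by
            unfold boxI
            ext α
            simp only [Finset.mem_filter, Ideal.dvd_span_singleton]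
            rfl
          rw [← Finset.sum_filter, Finset.sum_const, nsmul_eq_mul, mul_one, e2]
  -- bound the inner sum
  have hinner : ∀ P ∈ primesLE F Y, ∑ k ∈ Icc 1 Y, ((boxI (RingOfIntegers.basis F) c X (P.asIdeal ^ k)).card : ℝ)
      ≤ (X : ℝ) ^ n / nrm P + n * C * D ^ (n - 1) * (X : ℝ) ^ (n - 1) * ((nrm P : ℝ) ^ (1 / (n : ℝ)) / nrm P)
        + D ^ n * (X : ℝ) ^ n * (2 * ((nrm P : ℝ) ^ 2)⁻¹) := by
    intro P hP
    rw [mem_primesLE] at hP
    have hNP2 : (2:ℝ) ≤ nrm P := by exact_mod_cast two_le_nrm P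
    have hNP : (0:ℝ) < nrm P := by linarith
    have hY1 : 1 ≤ Y := by
      rw [hY]; exact Nat.one_le_pow _ _ (by positivity)
    -- general bound for counts
    have hgen : ∀ k, 1 ≤ k → ((boxI (RingOfIntegers.basis F) c X (P.asIdeal ^ k)).card : ℝ)
        ≤ D ^ n * (X : ℝ) ^ n * ((nrm P : ℝ) ^ k)⁻¹ := by
      intro k hk
      have hPk : P.asIdeal ^ k ≠ ⊥ := pow_ne_zero _ P.ne_bot
      have hNk : Ideal.absNorm (P.asIdeal ^ k) = nrm P ^ k := by rw [map_pow]; rfl
      by_cases hle : nrm P ^ k ≤ Y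
      · obtain ⟨h1, _⟩ := hC _ hPk c X
        rw [hNk] at h1
        have h2 : (((nrm P ^ k : ℕ) : ℝ)) ^ (1 / (n : ℝ)) ≤ K * X := by
          calc (((nrm P ^ k : ℕ) : ℝ)) ^ (1 / (n : ℝ)) ≤ ((Y : ℕ) : ℝ) ^ (1 / (n : ℝ)) := by
                apply Real.rpow_le_rpow (by positivity) (by exact_mod_cast hle) (by positivity)
            _ = K * X := by
                rw [hY]
                push_cast
                rw [pow_rpow_inv hn0 (by positivity)]
        have h3 : (X + C * (((nrm P ^ k : ℕ) : ℝ)) ^ (1 / (n : ℝ))) ^ n ≤ (D * X) ^ n := by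
          apply pow_le_pow_left₀ (by positivity)
          rw [hD]
          have := mul_le_mul_of_nonneg_left h2 hC0
          linarith
        have h4 := h1.trans h3
        rw [mul_pow] at h4
        push_cast at h4
        rw [← div_eq_mul_inv, le_div_iff₀ (by positivity)]
        linarith
      · -- no elements
        have hempty : (boxI (RingOfIntegers.basis F) c X (P.asIdeal ^ k)).card = 0 := by
          rw [Finset.card_eq_zero, Finset.eq_empty_iff_forall_notMem]
          intro α hα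
          unfold boxI at hα
          rw [Finset.mem_filter] at hα
          obtain ⟨h0, h1, h2⟩ := hc α hα.1
          have h3 : Ideal.absNorm (P.asIdeal ^ k) ∣ Ideal.absNorm (Ideal.span {α}) :=
            map_dvd _ (Ideal.dvd_span_singleton.2 hα.2)
          rw [hNk] at h3
          have h4 := Nat.le_of_dvd (by
            apply Nat.pos_of_ne_zero
            rw [Ne, Ideal.absNorm_eq_zero_iff, Ideal.span_singleton_eq_bot]
            exact h0) h3
          exact hle (h4.trans h2)
        rw [hempty]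
        push_cast
        positivity
    -- k = 1
    have hone : ((boxI (RingOfIntegers.basis F) c X (P.asIdeal ^ 1)).card : ℝ)
        ≤ (X : ℝ) ^ n / nrm P + n * C * D ^ (n - 1) * (X : ℝ) ^ (n - 1) * ((nrm P : ℝ) ^ (1 / (n : ℝ)) / nrm P) := by
      rw [pow_one]
      obtain ⟨h1, _⟩ := hC P.asIdeal P.ne_bot c X
      change (nrm P : ℝ) * _ ≤ (X + C * (nrm P : ℝ) ^ (1 / (n : ℝ))) ^ n at h1
      set t : ℝ := (nrm P : ℝ) ^ (1 / (n : ℝ)) with ht
      have ht0 : 0 ≤ t := by positivity
      have htK : t ≤ K * X := by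
        calc t ≤ ((Y : ℕ) : ℝ) ^ (1 / (n : ℝ)) := by
              apply Real.rpow_le_rpow (by positivity) (by exact_mod_cast hP) (by positivity)
          _ = K * X := by
              rw [hY]
              push_cast
              rw [pow_rpow_inv hn0 (by positivity)]
      have h2 := pow_sub_le (a := X + C * t) (c := X) hXR.le (by
        have : 0 ≤ C * t := by positivity
        linarith) n
      have h3 : (X + C * t) ^ (n - 1) ≤ (D * X) ^ (n - 1) := by
        apply pow_le_pow_left₀ (by positivity)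
        rw [hD]
        have := mul_le_mul_of_nonneg_left htK hC0
        linarith
      have h4 : (n : ℝ) * (X + C * t - X) * (X + C * t) ^ (n - 1)
          ≤ n * C * t * (D * X) ^ (n - 1) := by
        have : (n : ℝ) * (X + C * t - X) = n * C * t := by ring
        rw [this]
        apply mul_le_mul_of_nonneg_left h3 (by positivity)
      have h5 : (nrm P : ℝ) * ((boxI (RingOfIntegers.basis F) c X P.asIdeal).card : ℝ)
          ≤ (X : ℝ) ^ n + n * C * t * (D * X) ^ (n - 1) := by linarith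
      have h6 : ((boxI (RingOfIntegers.basis F) c X P.asIdeal).card : ℝ)
          ≤ ((X : ℝ) ^ n + n * C * t * (D * X) ^ (n - 1)) / nrm P := by
        rw [le_div_iff₀ hNP]; linarith
      refine h6.trans (le_of_eq ?_)
      rw [mul_pow]
      ring
    -- assemble
    have hgeo : ∀ M : ℕ, ∑ k ∈ Icc 2 M, ((nrm P : ℝ) ^ k)⁻¹ ≤ 2 * ((nrm P : ℝ) ^ 2)⁻¹ := by
      intro M
      have key : ∀ M : ℕ, 2 ≤ M → ∑ k ∈ Icc 2 M, ((nrm P : ℝ) ^ k)⁻¹ ≤ 2 * ((nrm P : ℝ) ^ 2)⁻¹ - ((nrm P : ℝ) ^ M)⁻¹ := by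
        intro M hM
        induction M, hM using Nat.le_induction with
        | base =>
          simp only [Finset.Icc_self, Finset.sum_singleton]
          linarith
        | succ M hM ih =>
          rw [Finset.sum_Icc_succ_top (by omega)]
          have h7 : 2 * ((nrm P : ℝ) ^ (M + 1))⁻¹ ≤ ((nrm P : ℝ) ^ M)⁻¹ := by
            rw [pow_succ, mul_inv]
            have h8 : 2 * (nrm P : ℝ)⁻¹ ≤ 1 := by
              rw [← div_eq_mul_inv, div_le_one hNP]; exact hNP2
            have h9 : 0 ≤ ((nrm P : ℝ) ^ M)⁻¹ := by positivity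
            calc 2 * (((nrm P : ℝ) ^ M)⁻¹ * (nrm P : ℝ)⁻¹) = ((nrm P : ℝ) ^ M)⁻¹ * (2 * (nrm P : ℝ)⁻¹) := by ring
              _ ≤ ((nrm P : ℝ) ^ M)⁻¹ * 1 := mul_le_mul_of_nonneg_left h8 h9
              _ = _ := mul_one _
          linarith
      by_cases hM : 2 ≤ M
      · have := key M hM
        have h8 : (0:ℝ) ≤ ((nrm P : ℝ) ^ M)⁻¹ := by positivity
        linarith
      · rw [Finset.Icc_eq_empty (by omega)]
        simp
    have hsplit : ∑ k ∈ Icc 1 Y, ((boxI (RingOfIntegers.basis F) c X (P.asIdeal ^ k)).card : ℝ)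
        = ((boxI (RingOfIntegers.basis F) c X (P.asIdeal ^ 1)).card : ℝ)
          + ∑ k ∈ Icc 2 Y, ((boxI (RingOfIntegers.basis F) c X (P.asIdeal ^ k)).card : ℝ) := by
      rw [← Finset.sum_erase_add _ _ (Finset.mem_Icc.2 ⟨le_rfl, hY1⟩), add_comm]
      congr 1
      apply Finset.sum_congr _ (fun _ _ => rfl)
      ext k
      simp only [Finset.mem_erase, Finset.mem_Icc]
      omega
    rw [hsplit]
    have hrest : ∑ k ∈ Icc 2 Y, ((boxI (RingOfIntegers.basis F) c X (P.asIdeal ^ k)).card : ℝ)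
        ≤ D ^ n * (X : ℝ) ^ n * (2 * ((nrm P : ℝ) ^ 2)⁻¹) := by
      calc _ ≤ ∑ k ∈ Icc 2 Y, D ^ n * (X : ℝ) ^ n * ((nrm P : ℝ) ^ k)⁻¹ := by
            apply Finset.sum_le_sum
            intro k hk
            exact hgen k (by have := (Finset.mem_Icc.1 hk).1; omega)
        _ = D ^ n * (X : ℝ) ^ n * ∑ k ∈ Icc 2 Y, ((nrm P : ℝ) ^ k)⁻¹ := by rw [Finset.mul_sum]
        _ ≤ _ := by
            apply mul_le_mul_of_nonneg_left (hgeo Y)
            positivity
    linarith
  have hU2 : ∑ P ∈ primesLE F Y, Real.log (nrm P) *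
        ∑ k ∈ Icc 1 Y, ((boxI (RingOfIntegers.basis F) c X (P.asIdeal ^ k)).card : ℝ)
      ≤ (X : ℝ) ^ n * mert F Y
        + n * C * D ^ (n - 1) * (X : ℝ) ^ (n - 1) * (A1 * (K * X))
        + D ^ n * (X : ℝ) ^ n * (2 * A2) := by
    calc _ ≤ ∑ P ∈ primesLE F Y, Real.log (nrm P) * ((X : ℝ) ^ n / nrm P
          + n * C * D ^ (n - 1) * (X : ℝ) ^ (n - 1) * ((nrm P : ℝ) ^ (1 / (n : ℝ)) / nrm P)
          + D ^ n * (X : ℝ) ^ n * (2 * ((nrm P : ℝ) ^ 2)⁻¹)) := by
          apply Finset.sum_le_sum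
          intro P hP
          exact mul_le_mul_of_nonneg_left (hinner P hP) (log_nrm_nonneg P)
      _ = (X : ℝ) ^ n * mert F Y
          + n * C * D ^ (n - 1) * (X : ℝ) ^ (n - 1) * ∑ P ∈ primesLE F Y, Real.log (nrm P) * ((nrm P : ℝ) ^ (1 / (n : ℝ)) / nrm P)
          + D ^ n * (X : ℝ) ^ n * (2 * ∑ P ∈ primesLE F Y, Real.log (nrm P) * ((nrm P : ℝ) ^ 2)⁻¹) := by
          unfold mert
          rw [Finset.mul_sum, Finset.mul_sum, Finset.mul_sum, Finset.mul_sum, ← Finset.sum_add_distrib,
            ← Finset.sum_add_distrib]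
          apply Finset.sum_congr rfl
          intro P _
          ring
      _ ≤ _ := by
          have h1 := hA1' (K * X)
          push_cast at h1
          have h2 := sum_log_inv_sq_le (F := F) Y
          rw [← hA2] at h2
          have h3 : (n : ℝ) * C * D ^ (n - 1) * (X : ℝ) ^ (n - 1) * ∑ P ∈ primesLE F Y, Real.log (nrm P) * ((nrm P : ℝ) ^ (1 / (n : ℝ)) / nrm P)
              ≤ n * C * D ^ (n - 1) * (X : ℝ) ^ (n - 1) * (A1 * (K * X)) :=
            mul_le_mul_of_nonneg_left h1 (by positivity)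
          have h4 : D ^ n * (X : ℝ) ^ n * (2 * ∑ P ∈ primesLE F Y, Real.log (nrm P) * ((nrm P : ℝ) ^ 2)⁻¹)
              ≤ D ^ n * (X : ℝ) ^ n * (2 * A2) :=
            mul_le_mul_of_nonneg_left (by linarith) (by positivity)
          linarith
  have hXn : (X : ℝ) ^ (n - 1) * X = (X : ℝ) ^ n := by
    rw [← pow_succ]; congr 1; omega
  have hfin : (X : ℝ) ^ n * (n * Real.log X) ≤ (X : ℝ) ^ n * (mert F Y
        + n * C * D ^ (n - 1) * (A1 * K) + D ^ n * (2 * A2)) := by
    calc _ ≤ _ := hL1.trans (hU1.trans hU2)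
      _ = _ := by rw [← hXn]; ring
  have := le_of_mul_le_mul_left hfin (by positivity)
  linarith

/-- Upper bound in Mertens' theorem along a sequence. -/
theorem mert_upper : ∃ (A : ℝ), ∀ X : ℕ, 1 ≤ X →
    mert F (X ^ deg F) ≤ deg F * Real.log X + A := by
  classical
  obtain ⟨K, hK1, hK⟩ := exists_good_box F
  obtain ⟨C, hC0, hC⟩ := boxI_real F
  set n := deg F with hn
  have hn0 : 0 < n := deg_pos F
  have hnR : (0:ℝ) < n := by exact_mod_cast hn0
  obtain ⟨A1, hA1, hA1'⟩ := sum_log_error F n hn0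
  refine ⟨n * Real.log K + n * C * A1, ?_⟩
  intro X hX
  have hXR : (0:ℝ) < X := by exact_mod_cast hX
  have hKR : (0:ℝ) < K := by exact_mod_cast hK1
  obtain ⟨c, hc⟩ := hK X hX
  set Y : ℕ := X ^ n with hY
  set bx := box (RingOfIntegers.basis F) c X with hbx
  have hcard : (bx.card : ℝ) = (X : ℝ) ^ n := by
    rw [hbx, card_box]; push_cast; rfl
  have hU : ∑ P ∈ primesLE F Y, Real.log (nrm P) * ((boxI (RingOfIntegers.basis F) c X P.asIdeal).card : ℝ)
      ≤ (X : ℝ) ^ n * (n * Real.log (K * X)) := by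
    calc _ = ∑ P ∈ primesLE F Y, ∑ α ∈ bx, if P.asIdeal ∣ Ideal.span {α} then Real.log (nrm P) else 0 := by
          apply Finset.sum_congr rfl
          intro P _
          have e2 : bx.filter (fun α => P.asIdeal ∣ Ideal.span {α})
              = boxI (RingOfIntegers.basis F) c X P.asIdeal := by
            unfold boxI
            ext α
            simp only [Finset.mem_filter, Ideal.dvd_span_singleton]
            rfl
          rw [← Finset.sum_filter, Finset.sum_const, nsmul_eq_mul, mul_comm, e2]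
      _ = ∑ α ∈ bx, ∑ P ∈ primesLE F Y, if P.asIdeal ∣ Ideal.span {α} then Real.log (nrm P) else 0 :=
          Finset.sum_comm
      _ ≤ ∑ α ∈ bx, n * Real.log (K * X) := by
          apply Finset.sum_le_sum
          intro α hα
          obtain ⟨h0, h1, h2⟩ := hc α hα
          rw [← Finset.sum_filter]
          have h3 := sum_log_nrm_le_of_dvd ((primesLE F Y).filter (fun P => P.asIdeal ∣ Ideal.span {α}))
            (Ideal.span {α}) (by rwa [Ne, Ideal.span_singleton_eq_bot]) (by
              intro P hP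
              exact (Finset.mem_filter.1 hP).2)
          refine h3.trans ?_
          rw [← Real.log_pow]
          apply Real.log_le_log
          · have : 0 < Ideal.absNorm (Ideal.span {α}) := by
              apply Nat.pos_of_ne_zero
              rwa [Ne, Ideal.absNorm_eq_zero_iff, Ideal.span_singleton_eq_bot]
            exact_mod_cast this
          · exact_mod_cast h2
      _ = _ := by rw [Finset.sum_const, nsmul_eq_mul, hcard]
  have hL : (X : ℝ) ^ n * mert F Y - n * C * (X : ℝ) ^ (n - 1) * (A1 * X)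
      ≤ ∑ P ∈ primesLE F Y, Real.log (nrm P) * ((boxI (RingOfIntegers.basis F) c X P.asIdeal).card : ℝ) := by
    calc _ ≤ (X : ℝ) ^ n * mert F Y - n * C * (X : ℝ) ^ (n - 1) *
          ∑ P ∈ primesLE F Y, Real.log (nrm P) * ((nrm P : ℝ) ^ (1 / (n : ℝ)) / nrm P) := by
          have := hA1' X
          have h4 : (n : ℝ) * C * (X : ℝ) ^ (n - 1) * ∑ P ∈ primesLE F Y, Real.log (nrm P) * ((nrm P : ℝ) ^ (1 / (n : ℝ)) / nrm P)
              ≤ n * C * (X : ℝ) ^ (n - 1) * (A1 * X) := mul_le_mul_of_nonneg_left this (by positivity)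
          linarith
      _ = ∑ P ∈ primesLE F Y, Real.log (nrm P) *
          (((X : ℝ) ^ n - n * (C * (nrm P : ℝ) ^ (1 / (n : ℝ))) * (X : ℝ) ^ (n - 1)) / nrm P) := by
          unfold mert
          rw [Finset.mul_sum, Finset.mul_sum, ← Finset.sum_sub_distrib]
          apply Finset.sum_congr rfl
          intro P _
          ring
      _ ≤ _ := by
          apply Finset.sum_le_sum
          intro P _
          apply mul_le_mul_of_nonneg_left _ (log_nrm_nonneg P)
          have hNP : (0:ℝ) < nrm P := by exact_mod_cast nrm_pos P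
          obtain ⟨_, h2⟩ := hC P.asIdeal P.ne_bot c X
          rw [div_le_iff₀ hNP]
          change (X : ℝ) ^ n - n * (C * (nrm P : ℝ) ^ (1 / (n : ℝ))) * (X : ℝ) ^ (n - 1) ≤ (nrm P : ℝ) * _ at h2
          linarith
  have hXn : (X : ℝ) ^ (n - 1) * X = (X : ℝ) ^ n := by
    rw [← pow_succ]; congr 1; omega
  have hlog : Real.log ((K : ℝ) * X) = Real.log K + Real.log X := Real.log_mul hKR.ne' hXR.ne'
  have hfin : (X : ℝ) ^ n * mert F Y ≤ (X : ℝ) ^ n * (n * Real.log X + (n * Real.log K + n * C * A1)) := by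
    have h1 := hL.trans hU
    rw [hlog] at h1
    have h2 : (n : ℝ) * C * (X : ℝ) ^ (n - 1) * (A1 * X) = (X : ℝ) ^ n * (n * C * A1) := by
      rw [← hXn]; ring
    rw [h2] at h1
    linarith
  exact le_of_mul_le_mul_left hfin (by positivity)

/-- **Mertens' theorem** for number fields: `∑_{N(P) ≤ Y} log N(P)/N(P) = log Y + O(1)`. -/
theorem mertens : ∃ C : ℝ, 0 ≤ C ∧ ∀ Y : ℕ, 1 ≤ Y → |mert F Y - Real.log Y| ≤ C := by
  obtain ⟨K, A, hK1, hA⟩ := mert_lower F
  obtain ⟨B, hB⟩ := mert_upper F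
  set n := deg F with hn
  have hn0 : 0 < n := deg_pos F
  have hnR : (0:ℝ) < n := by exact_mod_cast hn0
  have hKR : (1:ℝ) ≤ K := by exact_mod_cast hK1
  have hlogK : 0 ≤ Real.log K := Real.log_nonneg hKR
  have hlog2 : 0 ≤ Real.log 2 := Real.log_nonneg (by norm_num)
  refine ⟨n * Real.log (2 * K) + |A| + |B|, ?_, ?_⟩
  · have : 0 ≤ Real.log (2 * K) := Real.log_nonneg (by linarith)
    positivity
  intro Y hY
  have hYR : (1:ℝ) ≤ Y := by exact_mod_cast hY
  set t : ℝ := (Y : ℝ) ^ (1 / (n : ℝ)) with ht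
  have ht1 : 1 ≤ t := Real.one_le_rpow hYR (by positivity)
  have htn : t ^ n = Y := rpow_inv_pow hn0 (by positivity)
  have hlogY : Real.log Y = n * Real.log t := by rw [← htn, Real.log_pow]
  have hlog2K : Real.log (2 * K) = Real.log 2 + Real.log K := Real.log_mul (by norm_num) (by linarith)
  rw [abs_le]
  constructor
  · -- lower
    by_cases hX : K ≤ t
    · set X : ℕ := ⌊t / K⌋₊ with hXdef
      have hX1 : 1 ≤ X := by
        rw [hXdef, Nat.one_le_floor_iff, le_div_iff₀ (by linarith)]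
        linarith
      have hXle : (X : ℝ) ≤ t / K := Nat.floor_le (by positivity)
      have hXge : t / K < X + 1 := Nat.lt_floor_add_one _
      have hX1R : (1:ℝ) ≤ X := by exact_mod_cast hX1
      have h1 := hA X hX1
      have h2 : (K * X) ^ n ≤ Y := by
        have : ((K * X : ℕ) : ℝ) ^ n ≤ t ^ n := by
          apply pow_le_pow_left₀ (by positivity)
          push_cast
          rw [le_div_iff₀ (by linarith)] at hXle
          linarith
        rw [htn] at this
        exact_mod_cast this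
      have h3 := mert_mono F h2
      have h4 : Real.log t - Real.log (2 * K) ≤ Real.log X := by
        rw [← Real.log_div (by linarith) (by positivity)]
        apply Real.log_le_log (by positivity)
        have : t / (2 * K) = (t / K) / 2 := by field_simp
        rw [this]
        linarith
      have h5 : (n : ℝ) * (Real.log t - Real.log (2 * K)) ≤ n * Real.log X := mul_le_mul_of_nonneg_left h4 hnR.le
      have h6 := le_abs_self A
      have h7 := abs_nonneg B
      rw [hlogY]
      linarith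
    · have h1 := mert_nonneg F Y
      have h2 : Real.log t ≤ Real.log K := Real.log_le_log (by linarith) (le_of_not_ge hX)
      have h5 : (n : ℝ) * Real.log t ≤ n * Real.log (2 * K) := by
        apply mul_le_mul_of_nonneg_left _ hnR.le
        linarith
      rw [hlogY]
      have := abs_nonneg A
      have := abs_nonneg B
      linarith
  · -- upper
    set X : ℕ := ⌈t⌉₊ with hXdef
    have hX1 : 1 ≤ X := by
      rw [hXdef, Nat.one_le_ceil_iff]; linarith
    have hXge : t ≤ X := Nat.le_ceil _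
    have hXlt : (X : ℝ) < t + 1 := Nat.ceil_lt_add_one (by linarith)
    have h1 := hB X hX1
    have h2 : Y ≤ X ^ n := by
      have : t ^ n ≤ (X : ℝ) ^ n := pow_le_pow_left₀ (by linarith) hXge n
      rw [htn] at this
      exact_mod_cast this
    have h3 := mert_mono F h2
    have h4 : Real.log X ≤ Real.log 2 + Real.log t := by
      rw [← Real.log_mul (by norm_num) (by linarith)]
      apply Real.log_le_log (by linarith)
      linarith
    have h5 : (n : ℝ) * Real.log X ≤ n * (Real.log 2 + Real.log t) := mul_le_mul_of_nonneg_left h4 hnR.le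
    have h6 := le_abs_self B
    have h7 := abs_nonneg A
    have h8 : 0 ≤ (n : ℝ) * Real.log K := by positivity
    rw [hlogY, hlog2K]
    linarith

end Pool.Agent.Lib.MP_df4dfc_nt
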