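import Mathlib
import Pool.Agent.Lib.MP_df4dfc_nt.Mertens3

set_option autoImplicit false
set_option linter.unusedSectionVars false
set_option linter.style.haveILetI false
set_option linter.unusedVariables false

namespace Pool.Agent.Lib.MP_df4dfc_nt

open NumberField Finset Module IsDedekindDomain

section Tower

variable (E F : Type*) [Field E] [NumberField E] [Field F] [NumberField F] [Algebra E F]

/-- the prime below -/
noncomputable abbrev bel (P : HeightOneSpectrum (𝓞 F)) : HeightOneSpectrum (𝓞 E) :=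
  HeightOneSpectrum.under (𝓞 E) P

theorem bel_liesOver (P : HeightOneSpectrum (𝓞 F)) : P.asIdeal.LiesOver (bel E F P).asIdeal := ⟨rfl⟩

theorem nrm_bel (P : HeightOneSpectrum (𝓞 F)) :
    nrm (bel E F P) ^ (P.asIdeal.inertiaDeg (𝓞 E)) = nrm P := by
  haveI := bel_liesOver E F P
  unfold nrm
  exact Ideal.absNorm_pow_inertiaDeg (bel E F P).asIdeal P.asIdeal

theorem inertiaDeg_pos' (P : HeightOneSpectrum (𝓞 F)) : 0 < P.asIdeal.inertiaDeg (𝓞 E) :=
  Ideal.inertiaDeg_pos _ _

theorem nrm_bel_le (P : HeightOneSpectrum (𝓞 F)) : nrm (bel E F P) ≤ nrm P := by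
  rw [← nrm_bel E F P]
  exact Nat.le_self_pow (inertiaDeg_pos' E F P).ne' _

/-- number of primes above -/
noncomputable def npr (Q : HeightOneSpectrum (𝓞 E)) : ℕ := (Q.asIdeal.primesOver (𝓞 F)).ncard

/-- the finset of primes of `F` above `Q`. -/
theorem above_finite (Q : HeightOneSpectrum (𝓞 E)) :
    {P : HeightOneSpectrum (𝓞 F) | bel E F P = Q}.Finite := by
  have h : (Q.asIdeal.primesOver (𝓞 F)).Finite := IsDedekindDomain.primesOver_finite _ _
  apply Set.Finite.of_finite_image (f := fun P : HeightOneSpectrum (𝓞 F) => P.asIdeal)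
  · apply h.subset
    rintro _ ⟨P, hP, rfl⟩
    refine ⟨P.isPrime, ?_⟩
    have := bel_liesOver E F P
    rw [Set.mem_ofPred_eq] at hP
    rwa [hP] at this
  · intro P _ P' _ h
    exact HeightOneSpectrum.ext h

noncomputable def above (Q : HeightOneSpectrum (𝓞 E)) : Finset (HeightOneSpectrum (𝓞 F)) :=
  (above_finite E F Q).toFinset

theorem mem_above {Q : HeightOneSpectrum (𝓞 E)} {P : HeightOneSpectrum (𝓞 F)} :
    P ∈ above E F Q ↔ bel E F P = Q := by
  unfold above; simp

theorem card_above (Q : HeightOneSpectrum (𝓞 E)) : (above E F Q).card = npr E F Q := by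
  unfold npr
  have h : (Q.asIdeal.primesOver (𝓞 F))
      = (fun P : HeightOneSpectrum (𝓞 F) => P.asIdeal) '' (↑(above E F Q) : Set (HeightOneSpectrum (𝓞 F))) := by
    ext I
    simp only [Set.mem_image, Finset.mem_coe, mem_above]
    constructor
    · rintro ⟨h1, h2⟩
      have hne : I ≠ ⊥ := by
        intro h0
        rw [h0] at h2
        have h3 := h2.over
        rw [Ideal.under_bot] at h3
        exact Q.ne_bot h3
      refine ⟨⟨I, h1, hne⟩, ?_, rfl⟩
      apply HeightOneSpectrum.ext
      exact h2.over.symm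
    · rintro ⟨P, hP, rfl⟩
      refine ⟨P.isPrime, ?_⟩
      have := bel_liesOver E F P
      rwa [hP] at this
  rw [h, Set.ncard_image_of_injective]
  · exact (Set.ncard_coe_finset _).symm
  · intro P P' h
    exact HeightOneSpectrum.ext h

/-- weight of a prime -/
noncomputable def wt {F : Type*} [Field F] [NumberField F] (P : HeightOneSpectrum (𝓞 F)) : ℝ :=
  Real.log (nrm P) / nrm P

theorem wt_nonneg {F : Type*} [Field F] [NumberField F] (P : HeightOneSpectrum (𝓞 F)) : 0 ≤ wt P :=
  div_nonneg (log_nrm_nonneg P) (by positivity)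

theorem wt_le_one {F : Type*} [Field F] [NumberField F] (P : HeightOneSpectrum (𝓞 F)) : wt P ≤ 1 := by
  unfold wt
  have h : (0:ℝ) < nrm P := by exact_mod_cast nrm_pos P
  rw [div_le_one h]
  have := Real.log_le_sub_one_of_pos h
  linarith

theorem mert_eq {F : Type*} [Field F] [NumberField F] (Y : ℕ) : mert F Y = ∑ P ∈ primesLE F Y, wt P := rfl

end Tower

section Galois

variable (E F : Type*) [Field E] [NumberField E] [Field F] [NumberField F] [Algebra E F] [IsGalois E F]

theorem efg (Q : HeightOneSpectrum (𝓞 E)) :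
    npr E F Q * (Q.asIdeal.ramificationIdxIn (𝓞 F) * Q.asIdeal.inertiaDegIn (𝓞 F)) = finrank E F := by
  unfold npr
  rw [Ideal.ncard_primesOver_mul_ramificationIdxIn_mul_inertiaDegIn Q.asIdeal (𝓞 F) Gal(F/E)]
  exact IsGaloisGroup.card_eq_finrank Gal(F/E) E F

theorem npr_dvd (Q : HeightOneSpectrum (𝓞 E)) : npr E F Q ∣ finrank E F :=
  ⟨_, (efg E F Q).symm⟩

theorem npr_le (Q : HeightOneSpectrum (𝓞 E)) : npr E F Q ≤ finrank E F :=
  Nat.le_of_dvd finrank_pos (npr_dvd E F Q)

attribute [local instance] FractionRing.liftAlgebra in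
/-- finitely many ramified primes -/
theorem ramified_finite :
    {Q : HeightOneSpectrum (𝓞 E) | Q.asIdeal.ramificationIdxIn (𝓞 F) ≠ 1}.Finite := by
  haveI : Algebra.IsSeparable (FractionRing (𝓞 E)) (FractionRing (𝓞 F)) := by
    haveI : CharZero (FractionRing (𝓞 E)) := inferInstance
    haveI : Algebra.IsAlgebraic (FractionRing (𝓞 E)) (FractionRing (𝓞 F)) := inferInstance
    infer_instance
  have hD : differentIdeal (𝓞 E) (𝓞 F) ≠ ⊥ := differentIdeal_ne_bot
  have hfin := Ideal.finite_factors (R := 𝓞 F) hD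
  have himg := hfin.image (fun P => bel E F P)
  apply himg.subset
  intro Q hQ
  rw [Set.mem_ofPred_eq] at hQ
  -- there is a prime above
  obtain ⟨P, hP⟩ : (above E F Q).Nonempty := by
    rw [← Finset.card_pos, card_above]
    apply Nat.pos_of_ne_zero
    exact IsDedekindDomain.primesOver_ncard_ne_zero _ _
  rw [mem_above] at hP
  refine ⟨P, ?_, hP⟩
  rw [Set.mem_ofPred_eq]
  by_contra hnd
  apply hQ
  haveI := P.isPrime
  have hunr := not_dvd_differentIdeal_iff.1 hnd
  haveI : P.asIdeal.LiesOver Q.asIdeal := by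
    have := bel_liesOver E F P
    rwa [hP] at this
  rw [Ideal.ramificationIdxIn_eq_ramificationIdx Q.asIdeal P.asIdeal Gal(F/E)]
  exact Ideal.ramificationIdx_eq_one_of_isUnramifiedAt

theorem exists_of_nonempty (Q : HeightOneSpectrum (𝓞 E)) : (above E F Q).Nonempty := by
  rw [← Finset.card_pos, card_above]
  apply Nat.pos_of_ne_zero
  exact IsDedekindDomain.primesOver_ncard_ne_zero _ _

/-- **Mertens for completely split primes.** -/
theorem mertens_split : ∃ C : ℝ, 0 ≤ C ∧ ∀ Y : ℕ, 1 ≤ Y →
    |∑ Q ∈ (primesLE E Y).filter (fun Q => npr E F Q = finrank E F), wt Q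
      - Real.log Y / finrank E F| ≤ C := by
  classical
  obtain ⟨C0, hC0, hM⟩ := mertens F
  set m := finrank E F with hm
  have hm0 : 0 < m := finrank_pos
  have hmR : (0:ℝ) < m := by exact_mod_cast hm0
  set R := (ramified_finite E F).toFinset with hR
  set A2 : ℝ := finrank ℤ (𝓞 E) * Real.log 4 * 2 with hA2
  have hA2' : 0 ≤ A2 := by
    have : 0 ≤ Real.log 4 := Real.log_nonneg (by norm_num)
    positivity
  refine ⟨(C0 + (m * R.card + m ^ 2 * A2)) / m, by positivity, ?_⟩
  intro Y hY
  -- decomposition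
  have hdec : mert F Y = ∑ Q ∈ primesLE E Y, ∑ P ∈ (primesLE F Y).filter (fun P => bel E F P = Q), wt P := by
    rw [mert_eq]
    symm
    apply Finset.sum_fiberwise_of_maps_to (g := fun P => bel E F P)
    intro P hP
    rw [mem_primesLE] at hP ⊢
    exact (nrm_bel_le E F P).trans hP
  -- the inner sums
  have hfull : ∀ Q ∈ primesLE E Y, npr E F Q = m →
      ∑ P ∈ (primesLE F Y).filter (fun P => bel E F P = Q), wt P = m * wt Q := by
    intro Q hQ hg
    have h1 := efg E F Q
    rw [hg, ← hm] at h1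
    have h2 : Q.asIdeal.ramificationIdxIn (𝓞 F) * Q.asIdeal.inertiaDegIn (𝓞 F) = 1 :=
      Nat.eq_of_mul_eq_mul_left hm0 (by rw [h1, mul_one])
    have h3 : Q.asIdeal.inertiaDegIn (𝓞 F) = 1 := Nat.eq_one_of_mul_eq_one_left h2
    have h4 : ∀ P : HeightOneSpectrum (𝓞 F), bel E F P = Q → nrm P = nrm Q := by
      intro P hP
      haveI : P.asIdeal.LiesOver Q.asIdeal := by
        have := bel_liesOver E F P
        rwa [hP] at this
      rw [← nrm_bel E F P, ← Ideal.inertiaDegIn_eq_inertiaDeg Q.asIdeal P.asIdeal Gal(F/E), h3, pow_one, hP]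
    have h5 : (primesLE F Y).filter (fun P => bel E F P = Q) = above E F Q := by
      ext P
      rw [Finset.mem_filter, mem_above, mem_primesLE]
      constructor
      · exact fun h => h.2
      · intro h
        refine ⟨?_, h⟩
        rw [h4 P h]
        exact mem_primesLE.1 hQ
    rw [h5]
    have h6 : ∀ P ∈ above E F Q, wt P = wt Q := by
      intro P hP
      unfold wt
      rw [h4 P (mem_above E F |>.1 hP)]
    rw [Finset.sum_congr rfl h6, Finset.sum_const, card_above, hg, nsmul_eq_mul]
  have hcardle : ∀ Q, ((primesLE F Y).filter (fun P => bel E F P = Q)).card ≤ m := by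
    intro Q
    have : (primesLE F Y).filter (fun P => bel E F P = Q) ⊆ above E F Q := by
      intro P hP
      rw [mem_above]
      exact (Finset.mem_filter.1 hP).2
    have h2 := Finset.card_le_card this
    rw [card_above] at h2
    exact h2.trans (npr_le E F Q)
  have hrest : ∀ Q ∈ primesLE E Y, npr E F Q ≠ m → Q ∉ R →
      ∑ P ∈ (primesLE F Y).filter (fun P => bel E F P = Q), wt P ≤ m ^ 2 * (Real.log (nrm Q) * ((nrm Q : ℝ) ^ 2)⁻¹) := by
    intro Q hQ hg hQR
    have h0 : Q.asIdeal.ramificationIdxIn (𝓞 F) = 1 := by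
      by_contra h
      exact hQR ((ramified_finite E F).mem_toFinset.2 h)
    have h1 := efg E F Q
    rw [h0, one_mul] at h1
    have h3 : Q.asIdeal.inertiaDegIn (𝓞 F) ≠ 1 := by
      intro h; rw [h, mul_one] at h1; exact hg h1
    have h3' : Q.asIdeal.inertiaDegIn (𝓞 F) ≠ 0 := by
      intro h; rw [h, mul_zero] at h1; omega
    have hfm : Q.asIdeal.inertiaDegIn (𝓞 F) ≤ m := by
      apply Nat.le_of_dvd hm0
      exact ⟨npr E F Q, by rw [hm, ← h1, mul_comm]⟩
    set f := Q.asIdeal.inertiaDegIn (𝓞 F) with hf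
    have hlogQ := log_nrm_nonneg Q
    have hQ1 : (1:ℝ) ≤ nrm Q := by exact_mod_cast nrm_pos Q
    have h4 : ∀ P : HeightOneSpectrum (𝓞 F), bel E F P = Q → wt P ≤ m * (Real.log (nrm Q) * ((nrm Q : ℝ) ^ 2)⁻¹) := by
      intro P hP
      haveI : P.asIdeal.LiesOver Q.asIdeal := by
        have := bel_liesOver E F P
        rwa [hP] at this
      have h5 : nrm P = nrm Q ^ f := by
        rw [← nrm_bel E F P, ← Ideal.inertiaDegIn_eq_inertiaDeg Q.asIdeal P.asIdeal Gal(F/E), hP]
      unfold wt
      rw [h5]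
      push_cast
      rw [Real.log_pow, div_eq_mul_inv, mul_assoc]
      have h6 : (((nrm Q : ℝ)) ^ f)⁻¹ ≤ ((nrm Q : ℝ) ^ 2)⁻¹ := by
        apply inv_anti₀ (by positivity)
        apply pow_le_pow_right₀ hQ1
        omega
      have h7 : (f : ℝ) ≤ m := by exact_mod_cast hfm
      have h8 : Real.log (nrm Q) * (((nrm Q : ℝ)) ^ f)⁻¹ ≤ Real.log (nrm Q) * ((nrm Q : ℝ) ^ 2)⁻¹ :=
        mul_le_mul_of_nonneg_left h6 hlogQ
      apply mul_le_mul h7 h8 (by positivity) hmR.le
    calc ∑ P ∈ (primesLE F Y).filter (fun P => bel E F P = Q), wt P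
        ≤ ∑ P ∈ (primesLE F Y).filter (fun P => bel E F P = Q), m * (Real.log (nrm Q) * ((nrm Q : ℝ) ^ 2)⁻¹) := by
          apply Finset.sum_le_sum
          intro P hP
          exact h4 P (Finset.mem_filter.1 hP).2
      _ = ((primesLE F Y).filter (fun P => bel E F P = Q)).card * (m * (Real.log (nrm Q) * ((nrm Q : ℝ) ^ 2)⁻¹)) := by
          rw [Finset.sum_const, nsmul_eq_mul]
      _ ≤ m * (m * (Real.log (nrm Q) * ((nrm Q : ℝ) ^ 2)⁻¹)) := by
          apply mul_le_mul_of_nonneg_right
          · exact_mod_cast hcardle Q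
          · positivity
      _ = _ := by ring
  have hram : ∀ Q, ∑ P ∈ (primesLE F Y).filter (fun P => bel E F P = Q), wt P ≤ m := by
    intro Q
    calc ∑ P ∈ (primesLE F Y).filter (fun P => bel E F P = Q), wt P
        ≤ ∑ P ∈ (primesLE F Y).filter (fun P => bel E F P = Q), (1:ℝ) := by
          apply Finset.sum_le_sum
          intro P _
          exact wt_le_one P
      _ ≤ m := by
          rw [Finset.sum_const, nsmul_eq_mul, mul_one]
          exact_mod_cast hcardle Q
  -- combine
  set S := ∑ Q ∈ (primesLE E Y).filter (fun Q => npr E F Q = m), wt Q with hS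
  have hsplit : mert F Y = m * S + ∑ Q ∈ (primesLE E Y).filter (fun Q => ¬ npr E F Q = m),
      ∑ P ∈ (primesLE F Y).filter (fun P => bel E F P = Q), wt P := by
    rw [hdec, ← Finset.sum_filter_add_sum_filter_not (primesLE E Y) (fun Q => npr E F Q = m)]
    congr 1
    rw [hS, Finset.mul_sum]
    apply Finset.sum_congr rfl
    intro Q hQ
    rw [Finset.mem_filter] at hQ
    exact hfull Q hQ.1 hQ.2
  set T := ∑ Q ∈ (primesLE E Y).filter (fun Q => ¬ npr E F Q = m),
      ∑ P ∈ (primesLE F Y).filter (fun P => bel E F P = Q), wt P with hT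
  have hT0 : 0 ≤ T := by
    apply Finset.sum_nonneg
    intro Q _
    apply Finset.sum_nonneg
    intro P _
    exact wt_nonneg P
  have hT1 : T ≤ m * R.card + m ^ 2 * A2 := by
    rw [hT, ← Finset.sum_filter_add_sum_filter_not _ (fun Q => Q ∈ R)]
    apply add_le_add
    · calc _ ≤ ∑ Q ∈ ((primesLE E Y).filter (fun Q => ¬ npr E F Q = m)).filter (fun Q => Q ∈ R), (m : ℝ) := by
            apply Finset.sum_le_sum
            intro Q _
            exact hram Q
        _ ≤ m * R.card := by
            rw [Finset.sum_const, nsmul_eq_mul, mul_comm]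
            apply mul_le_mul_of_nonneg_left _ hmR.le
            have : (((primesLE E Y).filter (fun Q => ¬ npr E F Q = m)).filter (fun Q => Q ∈ R)).card ≤ R.card := by
              apply Finset.card_le_card
              intro Q hQ
              exact (Finset.mem_filter.1 hQ).2
            exact_mod_cast this
    · calc _ ≤ ∑ Q ∈ ((primesLE E Y).filter (fun Q => ¬ npr E F Q = m)).filter (fun Q => Q ∉ R),
              m ^ 2 * (Real.log (nrm Q) * ((nrm Q : ℝ) ^ 2)⁻¹) := by
            apply Finset.sum_le_sum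
            intro Q hQ
            rw [Finset.mem_filter, Finset.mem_filter] at hQ
            exact hrest Q hQ.1.1 hQ.1.2 hQ.2
        _ ≤ ∑ Q ∈ primesLE E Y, m ^ 2 * (Real.log (nrm Q) * ((nrm Q : ℝ) ^ 2)⁻¹) := by
            apply Finset.sum_le_sum_of_subset_of_nonneg
            · exact (Finset.filter_subset _ _).trans (Finset.filter_subset _ _)
            · intro Q _ _
              have := log_nrm_nonneg Q
              positivity
        _ = m ^ 2 * ∑ Q ∈ primesLE E Y, (Real.log (nrm Q) * ((nrm Q : ℝ) ^ 2)⁻¹) := by rw [Finset.mul_sum]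
        _ ≤ m ^ 2 * A2 := by
            apply mul_le_mul_of_nonneg_left _ (by positivity)
            exact sum_log_inv_sq_le (F := E) Y
  have hMY := abs_le.1 (hM Y hY)
  rw [hsplit] at hMY
  have heq : S - Real.log Y / m = (m * S - Real.log Y) / m := by
    field_simp
  rw [heq, abs_div, abs_of_pos hmR]
  apply div_le_div_of_nonneg_right _ hmR.le
  rw [abs_le]
  constructor
  · linarith [hMY.1]
  · have : (0:ℝ) ≤ m * R.card + m ^ 2 * A2 := hT0.trans hT1
    linarith [hMY.2]

end Galois

end Pool.Agent.Lib.MP_df4dfc_nt
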