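import Mathlib
import Pool.Agent.Lib.MP_df4dfc_nt.Split

set_option autoImplicit false
set_option linter.unusedSectionVars false
set_option linter.style.haveILetI false
set_option linter.unusedVariables false

namespace Pool.Agent.Lib.MP_df4dfc_nt

open NumberField Finset Module IsDedekindDomain
open scoped Pointwise

section Group

variable {G : Type*} [Group G] [Finite G] [IsCyclic G]

theorem cyc_le (H D : Subgroup G) (h : Nat.card D ∣ Nat.card H) : D ≤ H := by
  classical
  haveI := Fintype.ofFinite G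
  intro x hx
  have hx1 : x ^ Nat.card H = 1 := by
    obtain ⟨k, hk⟩ := h
    rw [hk, pow_mul]
    have : x ^ Nat.card D = 1 := by
      have h1 : (⟨x, hx⟩ : D) ^ Nat.card D = 1 := pow_card_eq_one'
      exact congrArg Subtype.val h1
    rw [this, one_pow]
  have hle := IsCyclic.card_pow_eq_one_le (α := G) (n := Nat.card H) Nat.card_pos
  have hsub : (H : Set G).toFinset ⊆ Finset.univ.filter (fun a : G => a ^ Nat.card H = 1) := by
    intro a ha
    rw [Set.mem_toFinset] at ha
    rw [Finset.mem_filter]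
    refine ⟨Finset.mem_univ _, ?_⟩
    have h1 : (⟨a, ha⟩ : H) ^ Nat.card H = 1 := pow_card_eq_one'
    exact congrArg Subtype.val h1
  have hcard : (H : Set G).toFinset.card = Nat.card H := by
    rw [Set.toFinset_card, Nat.card_eq_fintype_card]
    rfl
  have heq := Finset.eq_of_subset_of_card_le hsub (by rw [hcard]; exact hle)
  have : x ∈ (H : Set G).toFinset := by
    rw [heq, Finset.mem_filter]
    exact ⟨Finset.mem_univ _, hx1⟩
  rw [Set.mem_toFinset] at this
  exact this

theorem cyc_exists (m : ℕ) (hm : m ∣ Nat.card G) : ∃ H : Subgroup G, H.index = m := by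
  obtain ⟨g, hg⟩ := IsCyclic.exists_ofOrder_eq_natCard (α := G)
  have hG : 0 < Nat.card G := Nat.card_pos
  have hm0 : m ≠ 0 := by
    rintro rfl
    rw [zero_dvd_iff] at hm
    omega
  refine ⟨Subgroup.zpowers (g ^ m), ?_⟩
  have h1 : Nat.card (Subgroup.zpowers (g ^ m)) = Nat.card G / m := by
    rw [Nat.card_zpowers, orderOf_pow_of_dvd hm0 (by rw [hg]; exact hm), hg]
  have h2 := (Subgroup.zpowers (g ^ m)).card_mul_index
  rw [h1] at h2
  obtain ⟨k, hk⟩ := hm
  rw [hk, Nat.mul_div_cancel_left _ (Nat.pos_of_ne_zero hm0)] at h2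
  have hk0 : 0 < k := by
    rcases Nat.eq_zero_or_pos k with h | h
    · subst h; omega
    · exact h
  rw [mul_comm m k] at h2
  exact Nat.eq_of_mul_eq_mul_left hk0 h2

theorem cyc_normal (H : Subgroup G) : H.Normal := by
  letI : CommGroup G := IsCyclic.commGroup
  exact ⟨fun n hn g => by
    have : g * n * g⁻¹ = n := by
      rw [mul_comm g n, mul_assoc, mul_inv_cancel, mul_one]
    rw [this]; exact hn⟩

end Group

section Fields

variable (E L : Type*) [Field E] [NumberField E] [Field L] [NumberField L] [Algebra E L] [IsGalois E L]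
variable [IsCyclic Gal(L/E)]

theorem card_gal : Nat.card Gal(L/E) = finrank E L := IsGaloisGroup.card_eq_finrank Gal(L/E) E L

/-- For a subgroup of index `m` in a cyclic Galois group the prime `Q` splits into `m` primes in
the fixed field iff `m` divides the number of primes above `Q` in `L`. -/
theorem npr_fixed_iff (H : Subgroup Gal(L/E)) (Q : HeightOneSpectrum (𝓞 E)) :
    npr E (IntermediateField.fixedField H) Q = H.index ↔ H.index ∣ npr E L Q := by
  haveI := cyc_normal H
  set F := IntermediateField.fixedField H with hF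
  haveI : IsGalois E F := IsGalois.of_fixedField_normal_subgroup H
  -- a prime of `L` above `Q`
  obtain ⟨P, hP⟩ := exists_of_nonempty E L Q
  rw [mem_above] at hP
  set p := bel F L P with hp
  have hpQ : bel E F p = Q := by
    rw [← hP]
    apply HeightOneSpectrum.ext
    change (P.asIdeal.under (𝓞 F)).under (𝓞 E) = P.asIdeal.under (𝓞 E)
    exact Ideal.under_under _
  haveI l1 : P.asIdeal.LiesOver Q.asIdeal := by
    have := bel_liesOver E L P
    rwa [hP] at this
  haveI l2 : P.asIdeal.LiesOver p.asIdeal := bel_liesOver F L P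
  haveI l3 : p.asIdeal.LiesOver Q.asIdeal := by
    have := bel_liesOver E F p
    rwa [hpQ] at this
  haveI := P.isPrime
  haveI := p.isPrime
  have tower : npr E F Q * npr F L p = npr E L Q :=
    Ideal.ncard_primesOver_mul_ncard_primesOver (p := Q.asIdeal) p.asIdeal Gal(F/E) (𝓞 L) Gal(L/E)
  constructor
  · intro h
    rw [h] at tower
    exact ⟨_, tower.symm⟩
  · intro hdvd
    -- the decomposition group
    set D := MulAction.stabilizer Gal(L/E) P.asIdeal with hD
    have hDindex : D.index = npr E L Q := by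
      rw [hD, MulAction.index_stabilizer]
      unfold npr
      rw [Algebra.IsInvariant.orbit_eq_primesOver (𝓞 E) (𝓞 L) Gal(L/E) Q.asIdeal P.asIdeal]
    have hDH : D ≤ H := by
      apply cyc_le
      -- card D ∣ card H
      have h1 := D.card_mul_index
      have h2 := H.card_mul_index
      rw [hDindex] at h1
      obtain ⟨k, hk⟩ := hdvd
      have hidx : H.index ≠ 0 := Subgroup.index_ne_zero_of_finite
      refine ⟨k, ?_⟩
      have h3 : H.index * Nat.card H = H.index * (Nat.card D * k) := by
        rw [mul_comm, h2, ← h1, hk]; ring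
      exact Nat.eq_of_mul_eq_mul_left (Nat.pos_of_ne_zero hidx) h3
    haveI : IsGaloisGroup H F L := by
      rw [hF]
      exact IsGaloisGroup.subgroup Gal(L/E) E L H
    haveI : IsGaloisGroup H (𝓞 F) (𝓞 L) := IsGaloisGroup.of_isFractionRing H (𝓞 F) (𝓞 L) F L
    have hst : MulAction.stabilizer H P.asIdeal = D.subgroupOf H := by
      ext x
      rw [Subgroup.mem_subgroupOf, hD, MulAction.mem_stabilizer_iff, MulAction.mem_stabilizer_iff]
      exact Iff.rfl
    have hrel : D.relIndex H = npr F L p := by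
      rw [Subgroup.relIndex, ← hst, MulAction.index_stabilizer]
      unfold npr
      exact congrArg Set.ncard
        (Algebra.IsInvariant.orbit_eq_primesOver (𝓞 F) (𝓞 L) H p.asIdeal P.asIdeal)
    have h4 := Subgroup.relIndex_mul_index hDH
    rw [hrel, hDindex, ← tower] at h4
    have hpos : 0 < npr F L p := by
      apply Nat.pos_of_ne_zero
      exact IsDedekindDomain.primesOver_ncard_ne_zero _ _
    rw [mul_comm (npr E F Q)] at h4
    exact (Nat.eq_of_mul_eq_mul_left hpos h4).symm

theorem finrank_fixed (H : Subgroup Gal(L/E)) : finrank E (IntermediateField.fixedField H) = H.index := by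
  have h1 := IntermediateField.finrank_fixedField_eq_card H
  have h2 : finrank E (IntermediateField.fixedField H) * finrank (IntermediateField.fixedField H) L
      = finrank E L := finrank_mul_finrank _ _ _
  have h3 := H.card_mul_index
  rw [card_gal] at h3
  rw [h1, ← h3, mul_comm] at h2
  exact Nat.eq_of_mul_eq_mul_left Nat.card_pos h2

/-- Mertens' sum over the primes for which the number of primes above is divisible by `m`. -/
theorem mertens_dvd (m : ℕ) (hm : m ∣ finrank E L) : ∃ C : ℝ, 0 ≤ C ∧ ∀ Y : ℕ, 1 ≤ Y →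
    |∑ Q ∈ (primesLE E Y).filter (fun Q => m ∣ npr E L Q), wt Q - Real.log Y / m| ≤ C := by
  obtain ⟨H, hH⟩ := cyc_exists (G := Gal(L/E)) m (by rw [card_gal]; exact hm)
  haveI := cyc_normal H
  haveI : IsGalois E (IntermediateField.fixedField H) := IsGalois.of_fixedField_normal_subgroup H
  obtain ⟨C, hC, h⟩ := mertens_split E (IntermediateField.fixedField H)
  refine ⟨C, hC, ?_⟩
  intro Y hY
  have h1 := h Y hY
  rw [finrank_fixed E L H] at h1
  have h2 : (primesLE E Y).filter (fun Q => npr E (IntermediateField.fixedField H) Q = H.index)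
      = (primesLE E Y).filter (fun Q => m ∣ npr E L Q) := by
    apply Finset.filter_congr
    intro Q _
    rw [npr_fixed_iff E L H Q, hH]
  rw [h2, hH] at h1
  exact h1

/-- Möbius inversion for the indicator of `g = 1`. -/
theorem moebius_ind (n g : ℕ) (hn : 0 < n) (hg : g ∣ n) :
    ∑ m ∈ n.divisors, (ArithmeticFunction.moebius m : ℝ) * (if m ∣ g then (1:ℝ) else 0)
      = if g = 1 then 1 else 0 := by
  have hg0 : g ≠ 0 := by rintro rfl; rw [zero_dvd_iff] at hg; omega
  have h1 : ∑ m ∈ n.divisors, (ArithmeticFunction.moebius m : ℝ) * (if m ∣ g then (1:ℝ) else 0)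
      = ∑ m ∈ g.divisors, (ArithmeticFunction.moebius m : ℝ) := by
    have : g.divisors = n.divisors.filter (fun m => m ∣ g) := by
      ext m
      simp only [Nat.mem_divisors, Finset.mem_filter]
      constructor
      · rintro ⟨h1, h2⟩; exact ⟨⟨h1.trans hg, hn.ne'⟩, h1⟩
      · rintro ⟨⟨h1, h2⟩, h3⟩; exact ⟨h3, hg0⟩
    rw [this, Finset.sum_filter]
    apply Finset.sum_congr rfl
    intro m _
    split_ifs <;> simp
  rw [h1]
  have h2 : (∑ m ∈ g.divisors, ArithmeticFunction.moebius m) = if g = 1 then 1 else 0 := by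
    have := ArithmeticFunction.coe_mul_zeta_apply (f := ArithmeticFunction.moebius) (x := g)
    rw [← this, ArithmeticFunction.moebius_mul_coe_zeta, ArithmeticFunction.one_apply]
  have h3 : (((∑ m ∈ g.divisors, ArithmeticFunction.moebius m) : ℤ) : ℝ) = ((if g = 1 then 1 else 0 : ℤ) : ℝ) := by
    rw [h2]
  push_cast at h3
  exact h3

/-- The constant `φ(n)/n` is positive. -/
theorem moebius_const (n : ℕ) (hn : 0 < n) :
    ∑ m ∈ n.divisors, (ArithmeticFunction.moebius m : ℝ) * (1 / m) = (n.totient : ℝ) / n := by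
  have h := (ArithmeticFunction.sum_eq_iff_sum_mul_moebius_eq (R := ℝ) (f := fun k => (k.totient : ℝ)) (g := fun k => (k : ℝ))).1 (by
    intro k hk
    have := Nat.sum_totient k
    exact_mod_cast this) n hn
  rw [← h]
  have hnR : (n : ℝ) ≠ 0 := by exact_mod_cast hn.ne'
  rw [eq_div_iff hnR, Finset.sum_mul, Nat.sum_divisorsAntidiagonal (f := fun a b => ((ArithmeticFunction.moebius a : ℤ) : ℝ) * (b : ℝ))]
  apply Finset.sum_congr rfl
  intro m hm
  have hmn := Nat.dvd_of_mem_divisors hm
  have hm0 : (m : ℝ) ≠ 0 := by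
    have : m ≠ 0 := by rintro rfl; rw [zero_dvd_iff] at hmn; omega
    exact_mod_cast this
  rw [Nat.cast_div hmn hm0]
  field_simp

/-- **Mertens for inert-like primes**: primes of `E` with exactly one prime of `L` above. -/
theorem mertens_one : ∃ (c C : ℝ), 0 < c ∧ 0 ≤ C ∧ ∀ Y : ℕ, 1 ≤ Y →
    |∑ Q ∈ (primesLE E Y).filter (fun Q => npr E L Q = 1), wt Q - c * Real.log Y| ≤ C := by
  classical
  set n := finrank E L with hn
  have hn0 : 0 < n := finrank_pos
  have hnR : (0:ℝ) < n := by exact_mod_cast hn0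
  have hex : ∀ m : ℕ, ∃ C : ℝ, 0 ≤ C ∧ (m ∣ n → ∀ Y : ℕ, 1 ≤ Y →
    |∑ Q ∈ (primesLE E Y).filter (fun Q => m ∣ npr E L Q), wt Q - Real.log Y / m| ≤ C) := by
    intro m
    by_cases hm : m ∣ n
    · obtain ⟨C, h1, h2⟩ := mertens_dvd E L m hm
      exact ⟨C, h1, fun _ => h2⟩
    · exact ⟨0, le_rfl, fun h => absurd h hm⟩
  choose C hC0 hC using hex
  refine ⟨(n.totient : ℝ) / n, ∑ m ∈ n.divisors, |(ArithmeticFunction.moebius m : ℝ)| * C m, ?_, ?_, ?_⟩
  · have : 0 < n.totient := Nat.totient_pos.2 hn0
    have : (0:ℝ) < n.totient := by exact_mod_cast this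
    positivity
  · apply Finset.sum_nonneg
    intro m _
    exact mul_nonneg (abs_nonneg _) (hC0 m)
  intro Y hY
  have h1 : ∑ Q ∈ (primesLE E Y).filter (fun Q => npr E L Q = 1), wt Q
      = ∑ m ∈ n.divisors, (ArithmeticFunction.moebius m : ℝ) *
        ∑ Q ∈ (primesLE E Y).filter (fun Q => m ∣ npr E L Q), wt Q := by
    have e1 : ∀ m ∈ n.divisors, (ArithmeticFunction.moebius m : ℝ) *
        ∑ Q ∈ (primesLE E Y).filter (fun Q => m ∣ npr E L Q), wt Q
        = ∑ Q ∈ primesLE E Y, ((ArithmeticFunction.moebius m : ℝ) * (if m ∣ npr E L Q then (1:ℝ) else 0)) * wt Q := by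
      intro m _
      rw [Finset.sum_filter, Finset.mul_sum]
      apply Finset.sum_congr rfl
      intro Q _
      split_ifs <;> simp
    rw [Finset.sum_congr rfl e1, Finset.sum_comm, Finset.sum_filter]
    apply Finset.sum_congr rfl
    intro Q _
    rw [← Finset.sum_mul, moebius_ind n (npr E L Q) hn0 (npr_dvd E L Q)]
    split_ifs <;> simp
  have h2 : (n.totient : ℝ) / n * Real.log Y = ∑ m ∈ n.divisors, (ArithmeticFunction.moebius m : ℝ) * (Real.log Y / m) := by
    rw [← moebius_const n hn0, Finset.sum_mul]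
    apply Finset.sum_congr rfl
    intro m _
    ring
  rw [h1, h2, ← Finset.sum_sub_distrib]
  refine (Finset.abs_sum_le_sum_abs _ _).trans ?_
  apply Finset.sum_le_sum
  intro m hm
  rw [← mul_sub, abs_mul]
  exact mul_le_mul_of_nonneg_left (hC m (Nat.dvd_of_mem_divisors hm) Y hY) (abs_nonneg _)

end Fields

end Pool.Agent.Lib.MP_df4dfc_nt
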