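import Mathlib
import Pool.Agent.Lib.MP_df4dfc_nt.Cyclic

set_option autoImplicit false
set_option linter.unusedSectionVars false
set_option linter.style.haveILetI false
set_option linter.unusedVariables false

namespace Pool.Agent.Lib.MP_df4dfc_nt

open NumberField Finset Module IsDedekindDomain
open scoped Pointwise

section Big

variable {K : Type*} [Field K] [NumberField K]

/-- the number of members of `S` of norm at most `N` -/
noncomputable def cnt (S : Set (HeightOneSpectrum (𝓞 K))) (N : ℕ) : ℕ :=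
  {P : HeightOneSpectrum (𝓞 K) | P ∈ S ∧ nrm P ≤ N}.ncard

theorem cnt_eq (S : Set (HeightOneSpectrum (𝓞 K))) [DecidablePred (· ∈ S)] (N : ℕ) :
    cnt S N = ((primesLE K N).filter (· ∈ S)).card := by
  unfold cnt
  rw [← Set.ncard_coe_finset]
  congr 1
  ext P
  rw [Finset.mem_coe, Finset.mem_filter, mem_primesLE, Set.mem_ofPred_eq, and_comm]

theorem cnt_finite (S : Set (HeightOneSpectrum (𝓞 K))) (N : ℕ) :
    {P : HeightOneSpectrum (𝓞 K) | P ∈ S ∧ nrm P ≤ N}.Finite := by
  apply (primesLE K N).finite_toSet.subset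
  intro P hP
  rw [Finset.mem_coe, mem_primesLE]
  exact hP.2

theorem cnt_mono {S T : Set (HeightOneSpectrum (𝓞 K))} (h : S ⊆ T) (N : ℕ) : cnt S N ≤ cnt T N := by
  unfold cnt
  apply Set.ncard_le_ncard _ (cnt_finite T N)
  intro P hP
  exact ⟨h hP.1, hP.2⟩

theorem cnt_univ (N : ℕ) : cnt (Set.univ : Set (HeightOneSpectrum (𝓞 K))) N = (primesLE K N).card := by
  classical
  rw [cnt_eq]
  congr 1
  apply Finset.filter_true_of_mem
  intro P _
  exact Set.mem_univ P

/-- A set of primes with at least `c N / log N` members of norm at most `N`. -/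
def BigSet (S : Set (HeightOneSpectrum (𝓞 K))) : Prop :=
  ∃ c : ℝ, 0 < c ∧ ∃ N0 : ℕ, ∀ N : ℕ, N0 ≤ N → c * N ≤ Real.log N * (cnt S N : ℝ)

theorem BigSet.mono {S T : Set (HeightOneSpectrum (𝓞 K))} (hS : BigSet S) (h : S ⊆ T) : BigSet T := by
  obtain ⟨c, hc, N0, hN⟩ := hS
  refine ⟨c, hc, N0, ?_⟩
  intro N hN0
  refine (hN N hN0).trans ?_
  apply mul_le_mul_of_nonneg_left _ (Real.log_natCast_nonneg N)
  exact_mod_cast cnt_mono h N

theorem log_isLittleO (a : ℝ) (c : ℝ) (hc : 0 < c) : ∃ N1 : ℕ, ∀ N : ℕ, N1 ≤ N → a * Real.log N ≤ c * N := by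
  have h := (Real.isLittleO_log_id_atTop).bound (c := c / (|a| + 1)) (by positivity)
  rw [Filter.eventually_atTop] at h
  obtain ⟨x, hx⟩ := h
  obtain ⟨N1, hN1⟩ := exists_nat_ge x
  refine ⟨N1, ?_⟩
  intro N hN
  have h1 := hx N (hN1.trans (by exact_mod_cast hN))
  simp only [Real.norm_eq_abs, id] at h1
  rw [abs_of_nonneg (Real.log_natCast_nonneg N), abs_of_nonneg (by positivity : (0:ℝ) ≤ N)] at h1
  have hlog := Real.log_natCast_nonneg N
  calc a * Real.log N ≤ (|a| + 1) * Real.log N := by
        apply mul_le_mul_of_nonneg_right _ hlog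
        linarith [le_abs_self a]
    _ ≤ (|a| + 1) * (c / (|a| + 1) * N) := by
        apply mul_le_mul_of_nonneg_left h1 (by positivity)
    _ = c * N := by field_simp

theorem BigSet.diff_finite {S T : Set (HeightOneSpectrum (𝓞 K))} (hS : BigSet S) (hT : T.Finite) :
    BigSet (S \ T) := by
  classical
  obtain ⟨c, hc, N0, hN⟩ := hS
  obtain ⟨N1, hN1⟩ := log_isLittleO (hT.toFinset.card) (c / 2) (by positivity)
  refine ⟨c / 2, by positivity, max N0 N1, ?_⟩
  intro N hNN
  have h0 := hN N ((le_max_left _ _).trans hNN)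
  have h1 := hN1 N ((le_max_right _ _).trans hNN)
  have h2 : cnt S N ≤ cnt (S \ T) N + hT.toFinset.card := by
    rw [cnt_eq, cnt_eq]
    calc ((primesLE K N).filter (· ∈ S)).card
        ≤ ((primesLE K N).filter (· ∈ S \ T) ∪ hT.toFinset).card := by
          apply Finset.card_le_card
          intro P hP
          rw [Finset.mem_filter] at hP
          rw [Finset.mem_union, Finset.mem_filter, Set.Finite.mem_toFinset]
          by_cases h : P ∈ T
          · exact Or.inr h
          · exact Or.inl ⟨hP.1, hP.2, h⟩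
      _ ≤ _ := Finset.card_union_le _ _
  have h3 : (cnt S N : ℝ) ≤ (cnt (S \ T) N : ℝ) + hT.toFinset.card := by
    exact_mod_cast h2
  have hlog := Real.log_natCast_nonneg N
  have h4 := mul_le_mul_of_nonneg_left h3 hlog
  rw [mul_add] at h4
  linarith

/-- Chebyshev's upper bound for the number of primes of `K`. -/
theorem card_primesLE_le (K : Type*) [Field K] [NumberField K] : ∃ C : ℝ, 0 < C ∧ ∃ N0 : ℕ, ∀ N : ℕ, N0 ≤ N →
    Real.log N * ((primesLE K N).card : ℝ) ≤ C * N := by
  classical
  set n := finrank ℤ (𝓞 K) with hn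
  have hlog4 : 0 < Real.log 4 := Real.log_pos (by norm_num)
  set A : ℝ := n * Real.log 4 / Real.log 2 with hA
  have hlog2 : 0 < Real.log 2 := Real.log_pos (by norm_num)
  have hA0 : 0 ≤ A := by positivity
  -- trivial bound: card ≤ A * N
  have htriv : ∀ N : ℕ, ((primesLE K N).card : ℝ) ≤ A * N := by
    intro N
    have h1 := theta_le (F := K) N
    have h2 : ((primesLE K N).card : ℝ) * Real.log 2 ≤ ∑ P ∈ primesLE K N, Real.log (nrm P) := by
      rw [← nsmul_eq_mul, ← Finset.sum_const]
      apply Finset.sum_le_sum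
      intro P _
      apply Real.log_le_log (by norm_num)
      exact_mod_cast two_le_nrm P
    rw [hA, div_mul_eq_mul_div, le_div_iff₀ hlog2]
    exact h2.trans h1
  -- split at sqrt
  have hlogsq : ∃ N1 : ℕ, ∀ N : ℕ, N1 ≤ N → Real.log N * (Nat.sqrt N : ℝ) ≤ N := by
    have h := (isLittleO_log_rpow_atTop (r := 1/2) (by norm_num)).bound (c := 1) (by norm_num)
    rw [Filter.eventually_atTop] at h
    obtain ⟨x, hx⟩ := h
    obtain ⟨N1, hN1⟩ := exists_nat_ge x
    refine ⟨N1, ?_⟩
    intro N hN
    have h1 := hx N (hN1.trans (by exact_mod_cast hN))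
    rw [Real.norm_eq_abs, Real.norm_eq_abs, abs_of_nonneg (Real.log_natCast_nonneg N),
      abs_of_nonneg (by positivity), one_mul] at h1
    have h2 : (Nat.sqrt N : ℝ) ≤ (N : ℝ) ^ (1/2 : ℝ) := by
      rw [← Real.sqrt_eq_rpow]
      exact Real.nat_sqrt_le_real_sqrt
    calc Real.log N * (Nat.sqrt N : ℝ) ≤ (N : ℝ) ^ (1/2 : ℝ) * (N : ℝ) ^ (1/2 : ℝ) :=
          mul_le_mul h1 h2 (by positivity) (by positivity)
      _ = N := by
          rw [← Real.sqrt_eq_rpow, Real.mul_self_sqrt (by positivity)]
  obtain ⟨N1, hN1⟩ := hlogsq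
  refine ⟨A + 2 * (n * Real.log 4) + 1, by positivity, max N1 4, ?_⟩
  intro N hN
  have hN4 : 4 ≤ N := (le_max_right _ _).trans hN
  have h1 := hN1 N ((le_max_left _ _).trans hN)
  have hsplit : (primesLE K N).card ≤ (primesLE K (Nat.sqrt N)).card
      + ((primesLE K N).filter (fun P => Nat.sqrt N < nrm P)).card := by
    rw [← Finset.card_filter_add_card_filter_not (s := primesLE K N) (fun P => Nat.sqrt N < nrm P), add_comm]
    apply Nat.add_le_add_right
    apply Finset.card_le_card
    intro P hP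
    rw [Finset.mem_filter] at hP
    rw [mem_primesLE]
    omega
  have hbig : Real.log N * (((primesLE K N).filter (fun P => Nat.sqrt N < nrm P)).card : ℝ) ≤ 2 * (n * Real.log 4) * N := by
    have h3 := theta_le (F := K) N
    have h4 : (((primesLE K N).filter (fun P => Nat.sqrt N < nrm P)).card : ℝ) * (Real.log N / 2)
        ≤ ∑ P ∈ primesLE K N, Real.log (nrm P) := by
      calc _ = ∑ P ∈ (primesLE K N).filter (fun P => Nat.sqrt N < nrm P), Real.log N / 2 := by
            rw [Finset.sum_const, nsmul_eq_mul]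
        _ ≤ ∑ P ∈ (primesLE K N).filter (fun P => Nat.sqrt N < nrm P), Real.log (nrm P) := by
            apply Finset.sum_le_sum
            intro P hP
            have h5 := (Finset.mem_filter.1 hP).2
            have h6 : N < nrm P ^ 2 := by
              have := Nat.sqrt_lt'.1 h5
              exact this
            have h7 : Real.log N ≤ Real.log ((nrm P : ℝ) ^ 2) := by
              apply Real.log_le_log
              · have : 0 < N := by omega
                exact_mod_cast this
              · exact_mod_cast h6.le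
            rw [Real.log_pow] at h7
            push_cast at h7
            linarith
        _ ≤ ∑ P ∈ primesLE K N, Real.log (nrm P) := by
            apply Finset.sum_le_sum_of_subset_of_nonneg (Finset.filter_subset _ _)
            intro P _ _
            exact log_nrm_nonneg P
    have h8 := h4.trans h3
    linarith
  have hlog := Real.log_natCast_nonneg N
  have h9 : ((primesLE K N).card : ℝ) ≤ A * (Nat.sqrt N : ℝ)
      + (((primesLE K N).filter (fun P => Nat.sqrt N < nrm P)).card : ℝ) := by
    have : ((primesLE K N).card : ℝ) ≤ ((primesLE K (Nat.sqrt N)).card : ℝ)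
      + (((primesLE K N).filter (fun P => Nat.sqrt N < nrm P)).card : ℝ) := by exact_mod_cast hsplit
    have := htriv (Nat.sqrt N)
    linarith
  have h10 := mul_le_mul_of_nonneg_left h9 hlog
  have h11 := mul_le_mul_of_nonneg_left h1 hA0
  have hN0 : (0:ℝ) ≤ N := by positivity
  nlinarith

/-- descent of big sets along an extension of number fields. -/
theorem BigSet.image_bel {K₁ : Type*} [Field K₁] [NumberField K₁] [Algebra K K₁]
    {S : Set (HeightOneSpectrum (𝓞 K₁))} (hS : BigSet S) :
    BigSet ((fun P => bel K K₁ P) '' S) := by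
  classical
  obtain ⟨c, hc, N0, hN⟩ := hS
  -- the number of primes above a prime is bounded by the degree
  set m := finrank ℤ (𝓞 K₁) with hm
  have hm0 : 0 < m := by
    rw [hm, RingOfIntegers.rank]; exact finrank_pos
  have hmR : (0:ℝ) < m := by exact_mod_cast hm0
  have habove : ∀ Q : HeightOneSpectrum (𝓞 K), (above K K₁ Q).card ≤ m := by
    intro Q
    have hpQ : ∀ P ∈ above K K₁ Q, (rp Q : 𝓞 K₁) ∈ P.asIdeal := by
      intro P hP
      rw [mem_above] at hP
      have h1 := rp_mem Q
      have h2 : (rp Q : 𝓞 K) ∈ (bel K K₁ P).asIdeal := by rw [hP]; exact h1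
      have h3 : algebraMap (𝓞 K) (𝓞 K₁) (rp Q : 𝓞 K) ∈ P.asIdeal := h2
      rwa [map_natCast] at h3
    have h := prod_primes_dvd_ideal (above K K₁ Q) (Ideal.span {(rp Q : 𝓞 K₁)}) (by
      intro P hP
      rw [Ideal.dvd_span_singleton]
      exact hpQ P hP)
    have h2 : Ideal.absNorm (∏ P ∈ above K K₁ Q, P.asIdeal) ∣ Ideal.absNorm (Ideal.span {(rp Q : 𝓞 K₁)}) :=
      map_dvd _ h
    rw [Ideal.absNorm_span_natCast, map_prod] at h2
    -- each factor is divisible by rp Q
    have h3 : ∀ P ∈ above K K₁ Q, rp Q ∣ Ideal.absNorm P.asIdeal := by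
      intro P hP
      obtain ⟨k, hk0, hk1, hk2, hk3⟩ := rp_spec P
      have hpp : rp P = rp Q := by
        by_contra hne
        have hcop := (Nat.coprime_primes hk2 (rp_prime Q)).2 hne
        have h5 : (1 : 𝓞 K₁) ∈ P.asIdeal := by
          have h6 := Nat.isCoprime_iff_coprime.2 hcop
          obtain ⟨a, b, hab⟩ := h6
          have h7 : (a : 𝓞 K₁) * (rp P : 𝓞 K₁) + (b : 𝓞 K₁) * (rp Q : 𝓞 K₁) = 1 := by
            exact_mod_cast congrArg (Int.cast : ℤ → 𝓞 K₁) hab
          rw [← h7]
          exact P.asIdeal.add_mem (P.asIdeal.mul_mem_left _ hk1) (P.asIdeal.mul_mem_left _ (hpQ P hP))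
        exact P.isPrime.ne_top ((Ideal.eq_top_iff_one _).2 h5)
      have h8 : nrm P = rp Q ^ k := by rw [hk3, hpp]
      change rp Q ∣ nrm P
      rw [h8]
      exact dvd_pow_self _ hk0.ne'
    have h4 : rp Q ^ (above K K₁ Q).card ∣ rp Q ^ m := by
      refine dvd_trans ?_ h2
      rw [← Finset.prod_const]
      exact Finset.prod_dvd_prod_of_dvd _ _ h3
    exact (Nat.pow_dvd_pow_iff_le_right (rp_prime Q).one_lt).1 h4
  refine ⟨c / m, by positivity, N0, ?_⟩
  intro N hN0
  have h1 := hN N hN0
  have h2 : cnt S N ≤ m * cnt ((fun P => bel K K₁ P) '' S) N := by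
    rw [cnt_eq, cnt_eq]
    apply Finset.card_le_mul_card_image_of_maps_to (f := fun P => bel K K₁ P)
    · intro P hP
      rw [Finset.mem_filter] at hP ⊢
      refine ⟨?_, ⟨P, hP.2, rfl⟩⟩
      rw [mem_primesLE] at hP ⊢
      exact (nrm_bel_le K K₁ P).trans hP.1
    · intro Q _
      refine le_trans (Finset.card_le_card ?_) (habove Q)
      intro P hP
      rw [mem_above]
      exact (Finset.mem_filter.1 hP).2
  have h3 : (cnt S N : ℝ) ≤ m * (cnt ((fun P => bel K K₁ P) '' S) N : ℝ) := by exact_mod_cast h2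
  have hlog := Real.log_natCast_nonneg N
  have h4 := mul_le_mul_of_nonneg_left h3 hlog
  rw [div_mul_eq_mul_div, div_le_iff₀ hmR]
  calc c * N ≤ _ := h1
    _ ≤ _ := h4
    _ = _ := by ring

end Big

section Cheb

variable (E : Type*) [Field E] [NumberField E]

/-- A Mertens type estimate for a set of primes implies that it is big. -/
theorem big_of_mertens (A : Set (HeightOneSpectrum (𝓞 E))) [DecidablePred (· ∈ A)] (c C : ℝ) (hc : 0 < c)
    (hC : 0 ≤ C) (h : ∀ Y : ℕ, 1 ≤ Y → |∑ Q ∈ (primesLE E Y).filter (· ∈ A), wt Q - c * Real.log Y| ≤ C) :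
    BigSet A := by
  classical
  -- choose `B`
  obtain ⟨B, hB2, hB⟩ : ∃ B : ℕ, 2 ≤ B ∧ 2 * C + 1 ≤ c * Real.log B := by
    obtain ⟨B, hB⟩ := exists_nat_ge (Real.exp ((2 * C + 1) / c))
    refine ⟨max B 2, le_max_right _ _, ?_⟩
    have h1 : (2 * C + 1) / c ≤ Real.log (max B 2 : ℕ) := by
      rw [Real.le_log_iff_exp_le (by positivity)]
      refine hB.trans ?_
      exact_mod_cast le_max_left _ _
    rw [div_le_iff₀ hc] at h1
    linarith
  have hBR : (0:ℝ) < B := by positivity
  refine ⟨1 / B, by positivity, B, ?_⟩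
  intro Y hY
  have hYR : (0:ℝ) < Y := by
    have : 0 < Y := by omega
    exact_mod_cast this
  set Z := Y / B with hZ
  have hZ1 : 1 ≤ Z := by
    rw [hZ, Nat.one_le_div_iff (by omega)]; exact hY
  have hZR : (0:ℝ) < Z := by exact_mod_cast hZ1
  have hA := abs_le.1 (h Y (by omega))
  have hA' := abs_le.1 (h Z hZ1)
  have hZle : (Z : ℝ) ≤ Y / B := Nat.cast_div_le
  have hlogZ : Real.log Z ≤ Real.log Y - Real.log B := by
    rw [← Real.log_div hYR.ne' hBR.ne']
    exact Real.log_le_log hZR hZle
  have hdiff : 1 ≤ ∑ Q ∈ (primesLE E Y).filter (· ∈ A), wt Q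
      - ∑ Q ∈ (primesLE E Z).filter (· ∈ A), wt Q := by
    have := mul_le_mul_of_nonneg_left hlogZ hc.le
    linarith [hA.1, hA'.2]
  have hZY : Z ≤ Y := Nat.div_le_self _ _
  have hsub : (primesLE E Z).filter (· ∈ A) ⊆ (primesLE E Y).filter (· ∈ A) :=
    Finset.filter_subset_filter _ (primesLE_mono E hZY)
  rw [← Finset.sum_sdiff hsub, add_sub_cancel_right] at hdiff
  have hlogY := Real.log_natCast_nonneg Y
  have hbound : ∑ Q ∈ (primesLE E Y).filter (· ∈ A) \ (primesLE E Z).filter (· ∈ A), wt Q
      ≤ (((primesLE E Y).filter (· ∈ A)).card : ℝ) * (Real.log Y * B / Y) := by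
    calc _ ≤ ∑ Q ∈ (primesLE E Y).filter (· ∈ A) \ (primesLE E Z).filter (· ∈ A), Real.log Y * B / Y := by
          apply Finset.sum_le_sum
          intro Q hQ
          rw [Finset.mem_sdiff, Finset.mem_filter, Finset.mem_filter, mem_primesLE, mem_primesLE] at hQ
          obtain ⟨⟨h1, h2⟩, h3⟩ := hQ
          have h4 : Z < nrm Q := by
            by_contra h5
            exact h3 ⟨not_lt.1 h5, h2⟩
          unfold wt
          have hQpos : (0:ℝ) < nrm Q := by exact_mod_cast nrm_pos Q
          have h5 : (Y : ℝ) / B ≤ nrm Q := by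
            rw [div_le_iff₀ hBR]
            have h6 : Y < nrm Q * B := by
              have := Nat.lt_mul_of_div_lt (a := Y) (b := nrm Q) (c := B) h4 (by omega)
              exact this
            exact_mod_cast h6.le
          rw [div_le_div_iff₀ hQpos hYR]
          have h7 : Real.log (nrm Q) ≤ Real.log Y := by
            apply Real.log_le_log hQpos
            exact_mod_cast h1
          have h8 : (Y : ℝ) ≤ B * nrm Q := by
            rw [div_le_iff₀ hBR] at h5; linarith
          calc Real.log (nrm Q) * Y ≤ Real.log Y * (B * nrm Q) := by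
                apply mul_le_mul h7 h8 hYR.le hlogY
            _ = Real.log Y * B * nrm Q := by ring
      _ = (((primesLE E Y).filter (· ∈ A) \ (primesLE E Z).filter (· ∈ A)).card : ℝ) * (Real.log Y * B / Y) := by
          rw [Finset.sum_const, nsmul_eq_mul]
      _ ≤ _ := by
          apply mul_le_mul_of_nonneg_right
          · exact_mod_cast Finset.card_le_card Finset.sdiff_subset
          · positivity
  have h1 := hdiff.trans hbound
  have h2 : (Y : ℝ) ≤ B * (Real.log Y * (((primesLE E Y).filter (· ∈ A)).card : ℝ)) := by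
    have h3 := mul_le_mul_of_nonneg_right h1 hYR.le
    rw [one_mul] at h3
    refine h3.trans (le_of_eq ?_)
    field_simp
  rw [cnt_eq, one_div, inv_mul_le_iff₀ hBR]
  exact h2


variable (L : Type*) [Field L] [NumberField L] [Algebra E L] [IsGalois E L]

/-- completely split primes -/
theorem big_split : BigSet {Q : HeightOneSpectrum (𝓞 E) | npr E L Q = finrank E L} := by
  classical
  obtain ⟨C, hC, h⟩ := mertens_split E L
  have hpos : (0:ℝ) < finrank E L := by exact_mod_cast (finrank_pos : 0 < finrank E L)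
  refine big_of_mertens E _ (1 / finrank E L) C (by positivity) hC ?_
  intro Y hY
  have h1 := h Y hY
  have e1 : Real.log Y / finrank E L = 1 / finrank E L * Real.log Y := by ring
  rw [e1] at h1
  have e2 : (primesLE E Y).filter (· ∈ {Q : HeightOneSpectrum (𝓞 E) | npr E L Q = finrank E L})
      = (primesLE E Y).filter (fun Q => npr E L Q = finrank E L) := by
    ext Q
    simp only [Finset.mem_filter, Set.mem_ofPred_eq]
  rw [e2]
  exact h1

variable [IsCyclic Gal(L/E)]

theorem big_one : BigSet {Q : HeightOneSpectrum (𝓞 E) | npr E L Q = 1} := by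
  classical
  obtain ⟨c, C, hc, hC, h⟩ := mertens_one E L
  refine big_of_mertens E _ c C hc hC ?_
  intro Y hY
  have e2 : (primesLE E Y).filter (· ∈ {Q : HeightOneSpectrum (𝓞 E) | npr E L Q = 1})
      = (primesLE E Y).filter (fun Q => npr E L Q = 1) := by
    ext Q
    simp only [Finset.mem_filter, Set.mem_ofPred_eq]
  rw [e2]
  exact h Y hY

end Cheb

section Main

variable (K L : Type*) [Field K] [NumberField K] [Field L] [NumberField L] [Algebra K L] [IsGalois K L]

/-- **Weak Chebotarev theorem**: for `σ ∈ Gal(L/K)` the primes of `K` having a prime of `L` above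
them which is stable under `σ` form a set with at least `c x / log x` members of norm `≤ x`. -/
theorem big_stable (σ : Gal(L/K)) :
    BigSet {p : HeightOneSpectrum (𝓞 K) | ∃ P : HeightOneSpectrum (𝓞 L), bel K L P = p ∧
      σ • P.asIdeal = P.asIdeal} := by
  set H := Subgroup.zpowers σ with hH
  set E := IntermediateField.fixedField H with hE
  haveI : IsCyclic Gal(L/E) := by
    have h1 : E.fixingSubgroup = H := IntermediateField.fixingSubgroup_fixedField H
    have e1 : H ≃* Gal(L/E) := (MulEquiv.subgroupCongr h1.symm).trans (IntermediateField.fixingSubgroupEquiv E)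
    exact isCyclic_of_surjective e1 e1.surjective
  have h1 := big_one E L
  have h2 := BigSet.image_bel (K := K) h1
  apply h2.mono
  rintro p ⟨Q, hQ, rfl⟩
  rw [Set.mem_ofPred_eq] at hQ
  obtain ⟨P, hP⟩ := exists_of_nonempty E L Q
  have hP' := hP
  rw [mem_above] at hP'
  rw [Set.mem_ofPred_eq]
  refine ⟨P, ?_, ?_⟩
  · rw [← hP']
    apply HeightOneSpectrum.ext
    change P.asIdeal.under (𝓞 K) = (P.asIdeal.under (𝓞 E)).under (𝓞 K)
    exact (Ideal.under_under _).symm
  · -- uniqueness of the prime above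
    rw [← card_above, Finset.card_eq_one] at hQ
    obtain ⟨P0, hP0⟩ := hQ
    have hσP : (σ • P.asIdeal).IsPrime := by
      haveI := P.isPrime
      infer_instance
    have hne : σ • P.asIdeal ≠ ⊥ := by
      intro h0
      have h3 : σ⁻¹ • (σ • P.asIdeal) = σ⁻¹ • (⊥ : Ideal (𝓞 L)) := by rw [h0]
      rw [inv_smul_smul] at h3
      apply P.ne_bot
      rw [h3]
      exact Ideal.map_bot
    let P' : HeightOneSpectrum (𝓞 L) := ⟨σ • P.asIdeal, hσP, hne⟩
    have hP'mem : P' ∈ above E L Q := by
      rw [mem_above, ← hP']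
      apply HeightOneSpectrum.ext
      ext x
      change algebraMap (𝓞 E) (𝓞 L) x ∈ σ • P.asIdeal ↔ algebraMap (𝓞 E) (𝓞 L) x ∈ P.asIdeal
      rw [Ideal.mem_pointwise_smul_iff_inv_smul_mem]
      have h4 : σ⁻¹ • algebraMap (𝓞 E) (𝓞 L) x = algebraMap (𝓞 E) (𝓞 L) x := by
        apply RingOfIntegers.ext
        change σ⁻¹ ((x : E) : L) = ((x : E) : L)
        have h5 : ∀ g : H, g • ((x : E) : L) = ((x : E) : L) := fun g => (x : E).2 g
        exact h5 ⟨σ⁻¹, H.inv_mem (Subgroup.mem_zpowers σ)⟩
      rw [h4]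
    rw [hP0, Finset.mem_singleton] at hP hP'mem
    have : P' = P := by rw [hP, hP'mem]
    exact congrArg HeightOneSpectrum.asIdeal this

end Main

end Pool.Agent.Lib.MP_df4dfc_nt
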