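import Mathlib

set_option autoImplicit false
set_option linter.unusedSectionVars false
set_option linter.style.haveILetI false
set_option linter.unusedVariables false

namespace Pool.Agent.Lib.MP_df4dfc_nt

open MvPolynomial

section Par

variable {ι : Type*}

/-- proportional vectors: all `2 × 2` minors vanish. -/
def Par {R : Type*} [CommRing R] (u v : ι → R) : Prop := ∀ i j, u i * v j = u j * v i

theorem Par.refl {R : Type*} [CommRing R] (u : ι → R) : Par u u := fun i j => mul_comm _ _

theorem Par.symm {R : Type*} [CommRing R] {u v : ι → R} (h : Par u v) : Par v u := by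
  intro i j
  rw [mul_comm (v i), mul_comm (v j)]
  exact h j i

theorem Par.map {R T : Type*} [CommRing R] [CommRing T] (φ : R →+* T) {u v : ι → R} (h : Par u v) :
    Par (fun i => φ (u i)) (fun i => φ (v i)) := by
  intro i j
  rw [← map_mul, ← map_mul, h i j]

theorem Par.of_map {R T : Type*} [CommRing R] [CommRing T] (φ : R →+* T) (hφ : Function.Injective φ)
    {u v : ι → R} (h : Par (fun i => φ (u i)) (fun i => φ (v i))) : Par u v := by
  intro i j
  apply hφ
  rw [map_mul, map_mul]
  exact h i j

theorem Par.trans {R : Type*} [CommRing R] [IsDomain R] {u v w : ι → R} (h1 : Par u v) (h2 : Par v w)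
    (hv : v ≠ 0) : Par u w := by
  obtain ⟨k, hk⟩ := Function.ne_iff.1 hv
  rw [Pi.zero_apply] at hk
  intro i j
  apply mul_left_cancel₀ hk
  calc v k * (u i * w j) = (u i * v k) * w j := by ring
    _ = (u k * v i) * w j := by rw [h1 i k]
    _ = u k * (v i * w j) := by ring
    _ = u k * (v j * w i) := by rw [h2 i j]
    _ = (u k * v j) * w i := by ring
    _ = (u j * v k) * w i := by rw [h1 j k]
    _ = v k * (u j * w i) := by ring

theorem Par.zero_right {R : Type*} [CommRing R] (u : ι → R) : Par u 0 := by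
  intro i j; simp

theorem Par.smul_left {R : Type*} [CommRing R] {u v : ι → R} (c : R) (h : Par u v) : Par (c • u) v := by
  intro i j
  simp only [Pi.smul_apply, smul_eq_mul]
  rw [mul_assoc, mul_assoc, h i j]

theorem Par.of_eq_smul {R : Type*} [CommRing R] {u v : ι → R} {c : R} (h : u = c • v) : Par u v := by
  subst h
  exact (Par.refl v).smul_left c

theorem Par.exists_smul {k : Type*} [Field k] {u v : ι → k} (h : Par u v) (hv : v ≠ 0) :
    ∃ c : k, u = c • v := by
  obtain ⟨j, hj⟩ := Function.ne_iff.1 hv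
  rw [Pi.zero_apply] at hj
  refine ⟨u j / v j, ?_⟩
  funext i
  simp only [Pi.smul_apply, smul_eq_mul]
  rw [div_mul_eq_mul_div, eq_div_iff hj]
  exact h i j

end Par

section Pev

variable {ι : Type*} {R T : Type*} [CommRing R] [CommRing T]

/-- value of the polynomial map `G` at the vector `x` -/
noncomputable def pev (φ : R →+* T) (G : ι → MvPolynomial ι R) (x : ι → T) : ι → T :=
  fun i => eval₂ φ x (G i)

theorem pev_map {T' : Type*} [CommRing T'] (φ : R →+* T) (ψ : T →+* T') (G : ι → MvPolynomial ι R)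
    (x : ι → T) : (fun i => ψ (pev φ G x i)) = pev (ψ.comp φ) G (fun i => ψ (x i)) := by
  funext i
  unfold pev
  rw [eval₂_comp_left]
  rfl

theorem pev_iter_map {T' : Type*} [CommRing T'] (φ : R →+* T) (ψ : T →+* T') (G : ι → MvPolynomial ι R)
    (n : ℕ) (x : ι → T) : (fun i => ψ ((pev φ G)^[n] x i)) = (pev (ψ.comp φ) G)^[n] (fun i => ψ (x i)) := by
  induction n generalizing x with
  | zero => rfl
  | succ n ih =>
    rw [Function.iterate_succ_apply, Function.iterate_succ_apply, ih, pev_map]

theorem eval₂_smul_of_homog {p : MvPolynomial ι R} {d : ℕ} (hp : p.IsHomogeneous d) (φ : R →+* T)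
    (c : T) (x : ι → T) : eval₂ φ (c • x) p = c ^ d * eval₂ φ x p := by
  rw [eval₂_eq, eval₂_eq, Finset.mul_sum]
  apply Finset.sum_congr rfl
  intro m hm
  have hdeg : ∑ i ∈ m.support, m i = d := by
    have h1 := hp (mem_support_iff.1 hm)
    rw [Finsupp.weight_apply] at h1
    simp only [Pi.one_apply, smul_eq_mul, mul_one] at h1
    exact h1
  have h2 : ∏ i ∈ m.support, (c • x) i ^ m i = c ^ d * ∏ i ∈ m.support, x i ^ m i := by
    simp only [Pi.smul_apply, smul_eq_mul, mul_pow]
    rw [Finset.prod_mul_distrib, Finset.prod_pow_eq_pow_sum, hdeg]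
  rw [h2]
  ring

theorem pev_smul {G : ι → MvPolynomial ι R} {d : ℕ} (hG : ∀ i, (G i).IsHomogeneous d) (φ : R →+* T)
    (c : T) (x : ι → T) : pev φ G (c • x) = c ^ d • pev φ G x := by
  funext i
  simp only [pev, Pi.smul_apply, smul_eq_mul]
  exact eval₂_smul_of_homog (hG i) φ c x

theorem pev_iter_smul {G : ι → MvPolynomial ι R} {d : ℕ} (hG : ∀ i, (G i).IsHomogeneous d) (φ : R →+* T)
    (n : ℕ) (c : T) (x : ι → T) : (pev φ G)^[n] (c • x) = c ^ (d ^ n) • (pev φ G)^[n] x := by
  induction n generalizing c x with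
  | zero => simp
  | succ n ih =>
    rw [Function.iterate_succ_apply, Function.iterate_succ_apply, pev_smul hG, ih, ← pow_mul, pow_succ' d n]

theorem pev_par [IsDomain T] {G : ι → MvPolynomial ι R} {d : ℕ} (hG : ∀ i, (G i).IsHomogeneous d)
    (φ : R →+* T) {x y : ι → T} (h : Par x y) (hy : y ≠ 0) : Par (pev φ G x) (pev φ G y) := by
  obtain ⟨k, hk⟩ := Function.ne_iff.1 hy
  rw [Pi.zero_apply] at hk
  have h1 : y k • x = x k • y := by
    funext i
    simp only [Pi.smul_apply, smul_eq_mul]
    have := h i k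
    linear_combination this
  have h2 : y k ^ d • pev φ G x = x k ^ d • pev φ G y := by
    rw [← pev_smul hG, ← pev_smul hG, h1]
  intro i j
  have hi := congrFun h2 i
  have hj := congrFun h2 j
  simp only [Pi.smul_apply, smul_eq_mul] at hi hj
  apply mul_left_cancel₀ (pow_ne_zero d hk)
  linear_combination (pev φ G y j) * hi - (pev φ G y i) * hj

/-- no nontrivial common zeros -/
def NZ (φ : R →+* T) (G : ι → MvPolynomial ι R) : Prop := ∀ y : ι → T, y ≠ 0 → pev φ G y ≠ 0

theorem NZ.iter {φ : R →+* T} {G : ι → MvPolynomial ι R} (h : NZ φ G) (n : ℕ) {y : ι → T} (hy : y ≠ 0) :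
    (pev φ G)^[n] y ≠ 0 := by
  induction n generalizing y with
  | zero => exact hy
  | succ n ih =>
    rw [Function.iterate_succ_apply]
    exact ih (h y hy)

theorem pev_iter_par [IsDomain T] {G : ι → MvPolynomial ι R} {d : ℕ} (hG : ∀ i, (G i).IsHomogeneous d)
    {φ : R →+* T} (hNZ : NZ φ G) (n : ℕ) {x y : ι → T} (h : Par x y) (hy : y ≠ 0) :
    Par ((pev φ G)^[n] x) ((pev φ G)^[n] y) := by
  induction n generalizing x y with
  | zero => exact h
  | succ n ih =>
    rw [Function.iterate_succ_apply, Function.iterate_succ_apply]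
    exact ih (pev_par hG φ h hy) (hNZ y hy)

/-- the iterated polynomial map as a tuple of polynomials -/
noncomputable def iterPoly (G : ι → MvPolynomial ι R) : ℕ → ι → MvPolynomial ι R
  | 0 => fun i => X i
  | (n + 1) => fun i => bind₁ G (iterPoly G n i)

theorem pev_iterPoly (φ : R →+* T) (G : ι → MvPolynomial ι R) (n : ℕ) (x : ι → T) :
    pev φ (iterPoly G n) x = (pev φ G)^[n] x := by
  induction n generalizing x with
  | zero => funext i; simp [pev, iterPoly]
  | succ n ih =>
    rw [Function.iterate_succ_apply, ← ih]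
    funext i
    change eval₂ φ x (bind₁ G (iterPoly G n i)) = eval₂ φ (fun i => eval₂ φ x (G i)) (iterPoly G n i)
    have := eval₂Hom_bind₁ φ x G (iterPoly G n i)
    simpa [coe_eval₂Hom] using this

end Pev

section Spread

universe v

/-- **Spreading out**: if `g` vanishes on the zero locus of `I` over an algebraically closed field
containing the domain `R`, the same holds over every field to which `R` maps without killing a
certain nonzero `s`. -/
theorem spread {R Ω σ : Type*} [CommRing R] [IsDomain R] [Field Ω] [IsAlgClosed Ω] [Finite σ]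
    (j : R →+* Ω) (hj : Function.Injective j)
    (I : Ideal (MvPolynomial σ R)) (g : MvPolynomial σ R)
    (h : ∀ x : σ → Ω, (∀ f ∈ I, eval₂ j x f = 0) → eval₂ j x g = 0) :
    ∃ s : R, s ≠ 0 ∧ ∀ (κ : Type v) [Field κ] (φ : R →+* κ), φ s ≠ 0 → ∀ y : σ → κ,
      (∀ f ∈ I, eval₂ φ y f = 0) → eval₂ φ y g = 0 := by
  classical
  let k := FractionRing R
  let jk : k →+* Ω := IsFractionRing.lift (A := R) (K := k) hj
  letI : Algebra k Ω := jk.toAlgebra
  have hjk : ∀ r : R, algebraMap k Ω (algebraMap R k r) = j r := fun r =>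
    IsFractionRing.lift_algebraMap hj r
  letI : Algebra (MvPolynomial σ R) (MvPolynomial σ k) := algebraMvPolynomial
  have halg : ∀ f : MvPolynomial σ R, algebraMap (MvPolynomial σ R) (MvPolynomial σ k) f
      = MvPolynomial.map (algebraMap R k) f := fun f => rfl
  set Ik : Ideal (MvPolynomial σ k) := I.map (algebraMap (MvPolynomial σ R) (MvPolynomial σ k)) with hIk
  have hev : ∀ (x : σ → Ω) (f : MvPolynomial σ R), aeval x (MvPolynomial.map (algebraMap R k) f) = eval₂ j x f := by
    intro x f
    rw [aeval_def, eval₂_map]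
    congr 1
    ext r
    exact hjk r
  have hg : MvPolynomial.map (algebraMap R k) g ∈ Ik.radical := by
    rw [← vanishingIdeal_zeroLocus_eq_radical (K := Ω), mem_vanishingIdeal_iff]
    intro x hx
    rw [mem_zeroLocus_iff] at hx
    rw [hev]
    apply h
    intro f hf
    rw [← hev]
    apply hx
    rw [hIk, ← halg]
    exact Ideal.mem_map_of_mem _ hf
  obtain ⟨M, hM⟩ := hg
  haveI : IsLocalization ((nonZeroDivisors R).map (C (σ := σ) : R →+* MvPolynomial σ R)) (MvPolynomial σ k) :=
    MvPolynomial.isLocalization (nonZeroDivisors R) k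
  have hM' : algebraMap (MvPolynomial σ R) (MvPolynomial σ k) (g ^ M) ∈ Ik := by
    rw [halg, map_pow]
    exact hM
  rw [hIk, IsLocalization.algebraMap_mem_map_algebraMap_iff ((nonZeroDivisors R).map (C (σ := σ) : R →+* MvPolynomial σ R))] at hM'
  obtain ⟨m, hm, hmem⟩ := hM'
  obtain ⟨s, hs, rfl⟩ := Submonoid.mem_map.1 hm
  refine ⟨s, nonZeroDivisors.ne_zero hs, ?_⟩
  intro κ _ φ hφ y hy
  have h1 := hy _ hmem
  rw [eval₂_mul, eval₂_C, eval₂_pow] at h1
  rcases mul_eq_zero.1 h1 with h2 | h2
  · exact absurd h2 hφ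
  · have hM0 : M ≠ 0 := by
      rintro rfl
      simp at h2
    exact (pow_eq_zero_iff hM0).1 h2

end Spread

end Pool.Agent.Lib.MP_df4dfc_nt
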