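import Mathlib
import Pool.Agent.Lib.MP_df4dfc_nt.Vec

set_option autoImplicit false
set_option linter.unusedSectionVars false
set_option linter.style.haveILetI false
set_option linter.unusedVariables false

namespace Pool.Agent.Lib.MP_df4dfc_nt

open MvPolynomial

section Fibres

variable {ι : Type*} [Fintype ι] {Ω : Type*} [Field Ω]

attribute [local instance] MvPolynomial.gradedAlgebra in
theorem homogComp_mul_right {a b : MvPolynomial ι Ω} {d M : ℕ} (hb : b.IsHomogeneous d) (h : d ≤ M) :
    homogeneousComponent M (a * b) = homogeneousComponent (M - d) a * b := by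
  classical
  have := DirectSum.coe_decompose_mul_of_right_mem_of_le (homogeneousSubmodule ι Ω) (a := a) (b := b)
    (n := M) (i := d) ((mem_homogeneousSubmodule _ _).2 hb) h
  rw [← decomposition.decompose'_apply, ← decomposition.decompose'_apply]
  exact this

variable [IsAlgClosed Ω]

/-- homogeneous Nullstellensatz representation -/
theorem exists_pow_repr (g : ι → MvPolynomial ι Ω) {d : ℕ} (hg : ∀ i, (g i).IsHomogeneous d)
    (hNZ : ∀ x : ι → Ω, (∀ i, eval x (g i) = 0) → x = 0) :
    ∃ M : ℕ, d ≤ M ∧ 0 < M ∧ ∀ k : ι, ∃ A : ι → MvPolynomial ι Ω, (∀ i, (A i).IsHomogeneous (M - d)) ∧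
      (X k : MvPolynomial ι Ω) ^ M = ∑ i, A i * g i := by
  classical
  set J : Ideal (MvPolynomial ι Ω) := Ideal.span (Set.range g) with hJ
  have h1 : ∀ k : ι, ∃ m : ℕ, (X k : MvPolynomial ι Ω) ^ m ∈ J := by
    intro k
    have : (X k : MvPolynomial ι Ω) ∈ J.radical := by
      rw [← vanishingIdeal_zeroLocus_eq_radical (K := Ω), mem_vanishingIdeal_iff]
      intro x hx
      rw [mem_zeroLocus_iff] at hx
      have hx0 : x = 0 := by
        apply hNZ
        intro i
        have := hx (g i) (Ideal.subset_span ⟨i, rfl⟩)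
        rwa [aeval_def, ← coe_eval₂Hom] at this
      rw [aeval_X, hx0]; rfl
    exact this
  choose m hm using h1
  set M := ∑ k, m k + d + 1 with hM
  have hmM : ∀ k, m k ≤ M := by
    intro k
    have := Finset.single_le_sum (f := m) (fun _ _ => Nat.zero_le _) (Finset.mem_univ k)
    omega
  refine ⟨M, by omega, by omega, ?_⟩
  intro k
  have h2 : (X k : MvPolynomial ι Ω) ^ M ∈ J := by
    have : (X k : MvPolynomial ι Ω) ^ M = X k ^ (M - m k) * X k ^ (m k) := by
      rw [← pow_add, Nat.sub_add_cancel (hmM k)]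
    rw [this]
    exact J.mul_mem_left _ (hm k)
  rw [hJ, Ideal.mem_span_range_iff_exists_fun] at h2
  obtain ⟨c, hc⟩ := h2
  refine ⟨fun i => homogeneousComponent (M - d) (c i), fun i => homogeneousComponent_isHomogeneous _ _, ?_⟩
  have h3 : homogeneousComponent M ((X k : MvPolynomial ι Ω) ^ M) = X k ^ M := by
    rw [homogeneousComponent_of_mem ((mem_homogeneousSubmodule _ _).2 (isHomogeneous_X_pow k M)), if_pos rfl]
  rw [← h3, ← hc, map_sum]
  apply Finset.sum_congr rfl
  intro i _
  exact homogComp_mul_right (hg i) (by omega)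

/-- the quotient `Ω[X]/(g_i - z_i)` is finite dimensional -/
theorem finite_quotient (g : ι → MvPolynomial ι Ω) {d : ℕ} (hd : 1 ≤ d) (hg : ∀ i, (g i).IsHomogeneous d)
    (hNZ : ∀ x : ι → Ω, (∀ i, eval x (g i) = 0) → x = 0) (z : ι → Ω) :
    Module.Finite Ω (MvPolynomial ι Ω ⧸ Ideal.span (Set.range fun i => g i - C (z i))) := by
  classical
  obtain ⟨M, hdM, hM0, hA⟩ := exists_pow_repr g hg hNZ
  choose A hAh hAe using hA
  set I := Ideal.span (Set.range fun i => g i - C (z i)) with hI
  set D := Fintype.card ι * M with hD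
  set S : Set (MvPolynomial ι Ω) := (fun a : ι →₀ ℕ => monomial a (1:Ω)) '' {a | a.degree ≤ D} with hS
  have hSfin : S.Finite := (Finsupp.finite_of_degree_le D).image _
  set W : Submodule Ω (MvPolynomial ι Ω) := Submodule.span Ω S with hW
  set q : MvPolynomial ι Ω →ₗ[Ω] MvPolynomial ι Ω ⧸ I := (Ideal.Quotient.mkₐ Ω I).toLinearMap with hq
  have hqI : ∀ p ∈ I, q p = 0 := fun p hp => Ideal.Quotient.eq_zero_iff_mem.2 hp
  -- claim for monomials
  have key : ∀ n : ℕ, ∀ a : ι →₀ ℕ, a.degree = n → q (monomial a 1) ∈ W.map q := by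
    intro n
    induction n using Nat.strong_induction_on with
    | _ n ih =>
      intro a ha
      by_cases hle : a.degree ≤ D
      · exact Submodule.mem_map_of_mem (Submodule.subset_span ⟨a, hle, rfl⟩)
      · -- there is a large exponent
        obtain ⟨k, hk⟩ : ∃ k, M ≤ a k := by
          by_contra hcon
          push Not at hcon
          apply hle
          rw [Finsupp.degree_eq_sum, hD]
          calc ∑ i, a i ≤ ∑ i : ι, M := Finset.sum_le_sum fun i _ => (hcon i).le
            _ = Fintype.card ι * M := by rw [Finset.sum_const, Finset.card_univ, smul_eq_mul]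
        set a' : ι →₀ ℕ := a - Finsupp.single k M with ha'
        have haa' : a = a' + Finsupp.single k M := by
          rw [ha', tsub_add_cancel_of_le]
          rwa [Finsupp.single_le_iff]
        have hdeg : a'.degree + M = n := by
          rw [← ha]
          conv_rhs => rw [haa']
          rw [map_add, Finsupp.degree_single]
        have h1 : monomial a (1:Ω) = ∑ i, (monomial a' 1 * A k i) * g i := by
          have : monomial a (1:Ω) = monomial a' 1 * X k ^ M := by
            rw [X_pow_eq_monomial, monomial_mul, mul_one, ← haa']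
          rw [this, hAe k, Finset.mul_sum]
          apply Finset.sum_congr rfl
          intro i _
          rw [mul_assoc]
        have h2 : ∀ i, q (monomial a' 1 * A k i) ∈ W.map q := by
          intro i
          have hhom : (monomial a' (1:Ω) * A k i).IsHomogeneous (a'.degree + (M - d)) := by
            apply IsHomogeneous.mul
            · exact isHomogeneous_monomial _ rfl
            · exact hAh k i
          rw [(monomial a' (1:Ω) * A k i).as_sum, map_sum]
          apply Submodule.sum_mem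
          intro b hb
          have hbdeg : b.degree = a'.degree + (M - d) := by
            by_contra hne
            exact (mem_support_iff.1 hb) (hhom.coeff_eq_zero hne)
          have h3 := ih b.degree (by omega) b rfl
          have h4 : monomial b (coeff b (monomial a' (1:Ω) * A k i))
              = coeff b (monomial a' (1:Ω) * A k i) • monomial b (1:Ω) := by
            rw [smul_monomial, smul_eq_mul, mul_one]
          rw [h4, map_smul]
          exact Submodule.smul_mem _ _ h3
        rw [h1, map_sum]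
        apply Submodule.sum_mem
        intro i _
        have h5 : (monomial a' 1 * A k i) * g i = (monomial a' 1 * A k i) * (g i - C (z i))
            + z i • (monomial a' 1 * A k i) := by
          rw [smul_eq_C_mul]; ring
        rw [h5, map_add, map_smul, hqI _ (I.mul_mem_left _ (Ideal.subset_span ⟨i, rfl⟩)), zero_add]
        exact Submodule.smul_mem _ _ (h2 i)
  -- the quotient is the image of W
  have htop : W.map q = ⊤ := by
    rw [eq_top_iff]
    rintro y _
    obtain ⟨p, rfl⟩ := Ideal.Quotient.mk_surjective y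
    change q p ∈ W.map q
    rw [p.as_sum, map_sum]
    apply Submodule.sum_mem
    intro b _
    have h4 : monomial b (coeff b p) = coeff b p • monomial b (1:Ω) := by
      rw [smul_monomial, smul_eq_mul, mul_one]
    rw [h4, map_smul]
    exact Submodule.smul_mem _ _ (key _ b rfl)
  constructor
  rw [← htop]
  apply Submodule.FG.map
  exact ⟨hSfin.toFinset, by rw [Set.Finite.coe_toFinset]⟩

theorem finite_fibre_aux (g : ι → MvPolynomial ι Ω) {d : ℕ} (hd : 1 ≤ d) (hg : ∀ i, (g i).IsHomogeneous d)
    (hNZ : ∀ x : ι → Ω, (∀ i, eval x (g i) = 0) → x = 0) (z : ι → Ω) :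
    {x : ι → Ω | ∀ i, eval x (g i) = z i}.Finite := by
  classical
  haveI := finite_quotient g hd hg hNZ z
  set I := Ideal.span (Set.range fun i => g i - C (z i)) with hI
  have hint : ∀ k : ι, ∃ f : Polynomial Ω, f.Monic ∧ Polynomial.aeval (Ideal.Quotient.mkₐ Ω I (X k)) f = 0 := by
    intro k
    exact Algebra.IsIntegral.isIntegral (R := Ω) (Ideal.Quotient.mkₐ Ω I (X k))
  choose f hf1 hf2 using hint
  apply (Set.Finite.pi (t := fun k => ((f k).roots.toFinset : Set Ω)) (fun k => Finset.finite_toSet _)).subset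
  intro x hx
  rw [Set.mem_ofPred_eq] at hx
  rw [Set.mem_pi]
  intro k _
  rw [Finset.mem_coe, Multiset.mem_toFinset, Polynomial.mem_roots (hf1 k).ne_zero, Polynomial.IsRoot.def]
  have hle : ∀ p ∈ I, eval x p = 0 := by
    intro p hp
    have : I ≤ RingHom.ker (eval x) := by
      rw [hI, Ideal.span_le]
      rintro _ ⟨i, rfl⟩
      rw [SetLike.mem_coe, RingHom.mem_ker, map_sub, eval_C, hx i, sub_self]
    exact this hp
  -- f(X k) ∈ I
  have h1 : Polynomial.aeval (X k : MvPolynomial ι Ω) (f k) ∈ I := by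
    rw [← Ideal.Quotient.eq_zero_iff_mem]
    have := hf2 k
    rw [Polynomial.aeval_algHom_apply] at this
    exact this
  have h2 := hle _ h1
  have h3 : eval x (Polynomial.aeval (X k : MvPolynomial ι Ω) (f k)) = Polynomial.eval (x k) (f k) := by
    rw [Polynomial.aeval_def, Polynomial.hom_eval₂, eval_X]
    have : (eval x).comp (algebraMap Ω (MvPolynomial ι Ω)) = RingHom.id Ω := by
      ext r
      simp [algebraMap_eq]
    rw [this]
    rfl
  rw [← h3]
  exact h2

variable {R : Type*} [CommRing R]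

/-- finite fibres of the polynomial map -/
theorem finite_fibre (φ : R →+* Ω) (G : ι → MvPolynomial ι R) {d : ℕ} (hd : 1 ≤ d)
    (hG : ∀ i, (G i).IsHomogeneous d) (hNZ : NZ φ G) (z : ι → Ω) :
    {x : ι → Ω | pev φ G x = z}.Finite := by
  have h := finite_fibre_aux (fun i => MvPolynomial.map φ (G i)) hd (fun i => (hG i).map φ) (by
    intro x hx
    by_contra hne
    apply hNZ x hne
    funext i
    have := hx i
    rw [eval_map] at this
    exact this) z
  apply h.subset
  intro x hx i
  rw [Set.mem_ofPred_eq] at hx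
  rw [eval_map]
  exact congrFun hx i

theorem finite_iter_fibre (φ : R →+* Ω) (G : ι → MvPolynomial ι R) {d : ℕ} (hd : 1 ≤ d)
    (hG : ∀ i, (G i).IsHomogeneous d) (hNZ : NZ φ G) (n : ℕ) (z : ι → Ω) :
    {x : ι → Ω | (pev φ G)^[n] x = z}.Finite := by
  induction n generalizing z with
  | zero => simp
  | succ n ih =>
    have h : {x : ι → Ω | (pev φ G)^[n + 1] x = z}
        = ⋃ w ∈ {w : ι → Ω | (pev φ G)^[n] w = z}, {x | pev φ G x = w} := by
      ext x
      simp only [Set.mem_ofPred_eq, Set.mem_iUnion, Function.iterate_succ_apply]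
      constructor
      · intro h; exact ⟨_, h, rfl⟩
      · rintro ⟨w, hw, rfl⟩; exact hw
    rw [h]
    exact (ih z).biUnion fun w _ => finite_fibre φ G hd hG hNZ w

end Fibres

section Lift

universe v

variable {ι : Type*} [Fintype ι] {R Ω : Type*} [CommRing R] [IsDomain R] [Field Ω] [IsAlgClosed Ω]

/-- **Good reduction almost everywhere.** -/
theorem good_ae (j : R →+* Ω) (hj : Function.Injective j) (G : ι → MvPolynomial ι R) (hNZ : NZ j G) :
    ∃ s : R, s ≠ 0 ∧ ∀ (κ : Type v) [Field κ] (φ : R →+* κ), φ s ≠ 0 → NZ φ G := by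
  classical
  have h1 : ∀ k : ι, ∃ s : R, s ≠ 0 ∧ ∀ (κ : Type v) [Field κ] (φ : R →+* κ), φ s ≠ 0 → ∀ y : ι → κ,
      (∀ f ∈ Ideal.span (Set.range G), eval₂ φ y f = 0) → eval₂ φ y (X k : MvPolynomial ι R) = 0 := by
    intro k
    apply spread j hj
    intro x hx
    have hx0 : x = 0 := by
      by_contra hne
      apply hNZ x hne
      funext i
      exact hx (G i) (Ideal.subset_span ⟨i, rfl⟩)
    rw [eval₂_X, hx0]; rfl
  choose s hs0 hs using h1
  refine ⟨∏ k, s k, Finset.prod_ne_zero_iff.2 fun k _ => hs0 k, ?_⟩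
  intro κ _ φ hφ y hy hG
  apply hy
  funext k
  have hk : φ (s k) ≠ 0 := by
    intro h0
    apply hφ
    rw [map_prod]
    exact Finset.prod_eq_zero (Finset.mem_univ k) h0
  have := hs k κ φ hk y (by
    intro f hf
    have hle : Ideal.span (Set.range G) ≤ RingHom.ker (eval₂Hom φ y) := by
      rw [Ideal.span_le]
      rintro _ ⟨i, rfl⟩
      rw [SetLike.mem_coe, RingHom.mem_ker, coe_eval₂Hom]
      exact congrFun hG i
    exact hle hf)
  rw [eval₂_X] at this
  exact this

/-- **Lifting lemma**: almost everywhere, the fibre of the polynomial map `H` over `q` consists of the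
reductions of the points of the characteristic zero fibre. -/
theorem lifting (j : R →+* Ω) (hj : Function.Injective j) (H : ι → MvPolynomial ι R) (q : ι → R)
    (X₀ : Finset (ι → R))
    (hyp : ∀ y : ι → Ω, y ≠ 0 → Par (pev j H y) (fun i => j (q i)) → ∃ x ∈ X₀, Par y (fun i => j (x i))) :
    ∃ s : R, s ≠ 0 ∧ ∀ (κ : Type v) [Field κ] (φ : R →+* κ), φ s ≠ 0 → ∀ y : ι → κ, y ≠ 0 →
      Par (pev φ H y) (fun i => φ (q i)) → ∃ x ∈ X₀, Par y (fun i => φ (x i)) := by
  classical
  set I : Ideal (MvPolynomial ι R) := Ideal.span (Set.range fun ab : ι × ι => H ab.1 * C (q ab.2) - H ab.2 * C (q ab.1))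
    with hI
  let gpoly : (X₀ → ι × ι) → ι → MvPolynomial ι R := fun c k =>
    X k * ∏ x : X₀, (X (c x).1 * C (x.1 (c x).2) - X (c x).2 * C (x.1 (c x).1))
  have h1 : ∀ (c : X₀ → ι × ι) (k : ι), ∃ s : R, s ≠ 0 ∧ ∀ (κ : Type v) [Field κ] (φ : R →+* κ),
      φ s ≠ 0 → ∀ y : ι → κ, (∀ f ∈ I, eval₂ φ y f = 0) → eval₂ φ y (gpoly c k) = 0 := by
    intro c k
    apply spread j hj
    intro x hx
    have hpar : Par (pev j H x) (fun i => j (q i)) := by
      intro a b
      have := hx _ (Ideal.subset_span ⟨(a, b), rfl⟩)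
      simp only [eval₂_sub, eval₂_mul, eval₂_C] at this
      exact sub_eq_zero.1 this
    have hval : eval₂ j x (gpoly c k) = x k * ∏ x' : X₀, (x (c x').1 * j (x'.1 (c x').2) - x (c x').2 * j (x'.1 (c x').1)) := by
      change eval₂ j x (X k * ∏ x' : X₀, (X (c x').1 * C (x'.1 (c x').2) - X (c x').2 * C (x'.1 (c x').1))) = _
      rw [eval₂_mul, eval₂_X, ← coe_eval₂Hom, map_prod]
      congr 1
      apply Finset.prod_congr rfl
      intro x' _
      rw [coe_eval₂Hom, eval₂_sub, eval₂_mul, eval₂_mul, eval₂_X, eval₂_X, eval₂_C, eval₂_C]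
    rw [hval]
    by_cases hx0 : x = 0
    · rw [hx0]; simp
    · obtain ⟨x', hx', hp⟩ := hyp x hx0 hpar
      apply mul_eq_zero_of_right
      apply Finset.prod_eq_zero (Finset.mem_univ (⟨x', hx'⟩ : X₀))
      exact sub_eq_zero.2 (hp _ _)
  choose s hs0 hs using h1
  refine ⟨∏ c : X₀ → ι × ι, ∏ k : ι, s c k,
    Finset.prod_ne_zero_iff.2 fun c _ => Finset.prod_ne_zero_iff.2 fun k _ => hs0 c k, ?_⟩
  intro κ _ φ hφ y hy hpar
  have hsk : ∀ c k, φ (s c k) ≠ 0 := by
    intro c k h0
    apply hφ
    rw [map_prod]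
    apply Finset.prod_eq_zero (Finset.mem_univ c)
    rw [map_prod]
    exact Finset.prod_eq_zero (Finset.mem_univ k) h0
  by_contra hcon
  push Not at hcon
  have h2 : ∀ x : X₀, ∃ ab : ι × ι, y ab.1 * φ (x.1 ab.2) - y ab.2 * φ (x.1 ab.1) ≠ 0 := by
    intro x
    have h3 := hcon x.1 x.2
    unfold Par at h3
    push Not at h3
    obtain ⟨a, b, hab⟩ := h3
    exact ⟨(a, b), sub_ne_zero.2 hab⟩
  choose c hc using h2
  obtain ⟨k, hk⟩ := Function.ne_iff.1 hy
  have h4 := hs c k κ φ (hsk c k) y (by
    intro f hf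
    have hle : I ≤ RingHom.ker (eval₂Hom φ y) := by
      rw [hI, Ideal.span_le]
      rintro _ ⟨⟨a, b⟩, rfl⟩
      rw [SetLike.mem_coe, RingHom.mem_ker, coe_eval₂Hom, eval₂_sub, eval₂_mul, eval₂_mul, eval₂_C, eval₂_C]
      exact sub_eq_zero.2 (hpar a b)
    exact hle hf)
  have hval : eval₂ φ y (gpoly c k) = y k * ∏ x' : X₀, (y (c x').1 * φ (x'.1 (c x').2) - y (c x').2 * φ (x'.1 (c x').1)) := by
    change eval₂ φ y (X k * ∏ x' : X₀, (X (c x').1 * C (x'.1 (c x').2) - X (c x').2 * C (x'.1 (c x').1))) = _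
    rw [eval₂_mul, eval₂_X, ← coe_eval₂Hom, map_prod]
    congr 1
    apply Finset.prod_congr rfl
    intro x' _
    rw [coe_eval₂Hom, eval₂_sub, eval₂_mul, eval₂_mul, eval₂_X, eval₂_X, eval₂_C, eval₂_C]
  rw [hval] at h4
  rcases mul_eq_zero.1 h4 with h5 | h5
  · exact hk h5
  · rw [Finset.prod_eq_zero_iff] at h5
    obtain ⟨x', _, hx'⟩ := h5
    exact hc x' hx'

end Lift

end Pool.Agent.Lib.MP_df4dfc_nt
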