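import Mathlib
import Pool.Agent.Lib.MP_df4dfc_nt.Fib

set_option autoImplicit false
set_option linter.unusedSectionVars false
set_option linter.style.haveILetI false
set_option linter.unusedVariables false

namespace Pool.Agent.Lib.MP_df4dfc_nt

open MvPolynomial

section Frob

variable {ι : Type*} [Fintype ι] {R κ : Type*} [CommRing R] [Field κ]

/-- iterate commute bookkeeping -/
theorem iter_periodic {α : Type*} (f : α → α) (w : α) {a b n : ℕ} (hab : a < b) (hbn : b ≤ n)
    (h : f^[a] w = f^[b] w) : f^[b - a] (f^[n] w) = f^[n] w := by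
  have h1 : f^[n] w = f^[n - a] (f^[a] w) := by
    rw [← Function.iterate_add_apply, Nat.sub_add_cancel (by omega)]
  have h2 : f^[b - a] (f^[n] w) = f^[n - a] (f^[b] w) := by
    rw [← Function.iterate_add_apply, ← Function.iterate_add_apply]
    congr 1
    omega
  rw [h2, ← h, ← h1]

/-- The Frobenius argument: a vector whose point is fixed by the `q₀`-Frobenius becomes periodic
after `n ≥ q₀ ^ |ι|` steps. -/
theorem frob_fixed (φ : R →+* κ) (G : ι → MvPolynomial ι R) {d : ℕ} (hG : ∀ i, (G i).IsHomogeneous d)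
    (hNZ : NZ φ G) (p f : ℕ) [hp : Fact p.Prime] [CharP κ p] (hf : f ≠ 0)
    (hφ : ∀ r, φ r ^ (p ^ f) = φ r) (n : ℕ) (hn : (p ^ f) ^ Fintype.card ι ≤ n)
    (u : ι → κ) (hu : u ≠ 0) (hpar : Par (fun i => u i ^ (p ^ f)) u) :
    ∃ r : ℕ, 1 ≤ r ∧ Par ((pev φ G)^[r] ((pev φ G)^[n] u)) ((pev φ G)^[n] u) := by
  classical
  obtain ⟨k, hk⟩ := Function.ne_iff.1 hu
  rw [Pi.zero_apply] at hk
  set q₀ := p ^ f with hq₀
  have hq1 : 1 < q₀ := Nat.one_lt_pow hf hp.out.one_lt
  -- normalise
  set w : ι → κ := (u k)⁻¹ • u with hw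
  have hwk : w k = 1 := by
    simp only [hw, Pi.smul_apply, smul_eq_mul]
    exact inv_mul_cancel₀ hk
  have hw0 : w ≠ 0 := by
    intro h0
    have := congrFun h0 k
    rw [hwk] at this
    exact one_ne_zero this
  have hwq : ∀ i, w i ^ q₀ = w i := by
    intro i
    simp only [hw, Pi.smul_apply, smul_eq_mul]
    have h1 := hpar i k
    simp only at h1
    rw [mul_pow]
    have h2 : (u k) ^ q₀ ≠ 0 := pow_ne_zero _ hk
    rw [inv_pow]
    field_simp
    linear_combination h1
  have huw : u = u k • w := by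
    funext i
    simp only [hw, Pi.smul_apply, smul_eq_mul]
    field_simp
  -- the Frobenius
  let Fr : κ →+* κ := iterateFrobenius κ p f
  have hFr : ∀ x, Fr x = x ^ q₀ := fun x => iterateFrobenius_def (R := κ) p f x
  have hFrφ : Fr.comp φ = φ := by
    ext r
    rw [RingHom.comp_apply, hFr, hφ]
  -- preserved
  have hpres : ∀ v : ι → κ, (∀ i, v i ^ q₀ = v i) → ∀ m i, ((pev φ G)^[m] v i) ^ q₀ = (pev φ G)^[m] v i := by
    intro v hv m i
    have h1 := congrFun (pev_iter_map φ Fr G m v) i
    rw [hFrφ, hFr] at h1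
    rw [h1]
    have h2 : (fun i => Fr (v i)) = v := by
      funext i'
      rw [hFr, hv]
    rw [h2]
  -- finite set
  set rts : Finset κ := (Polynomial.X ^ q₀ - Polynomial.X : Polynomial κ).roots.toFinset with hrts
  have hrts_mem : ∀ x : κ, x ^ q₀ = x → x ∈ rts := by
    intro x hx
    rw [hrts, Multiset.mem_toFinset, Polynomial.mem_roots (FiniteField.X_pow_card_sub_X_ne_zero κ hq1)]
    simp [Polynomial.IsRoot.def, hx]
  have hrts_card : rts.card ≤ q₀ := by
    calc rts.card ≤ (Polynomial.X ^ q₀ - Polynomial.X : Polynomial κ).roots.card := Multiset.toFinset_card_le _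
      _ ≤ (Polynomial.X ^ q₀ - Polynomial.X : Polynomial κ).natDegree := Polynomial.card_roots' _
      _ = q₀ := FiniteField.X_pow_card_sub_X_natDegree_eq κ hq1
  set U : Finset (ι → κ) := Fintype.piFinset (fun _ => rts) with hU
  have hUcard : U.card ≤ q₀ ^ Fintype.card ι := by
    rw [hU, Fintype.card_piFinset, Finset.prod_const, Finset.card_univ]
    exact Nat.pow_le_pow_left hrts_card _
  have hlt : U.card < (Finset.range (n + 1)).card := by
    rw [Finset.card_range]; omega
  obtain ⟨a, ha, b, hb, hne, heq⟩ := Finset.exists_ne_map_eq_of_card_lt_of_maps_to hlt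
    (f := fun m => (pev φ G)^[m] w) (by
      intro m _
      rw [Finset.mem_coe, hU, Fintype.mem_piFinset]
      intro i
      exact hrts_mem _ (hpres w hwq m i))
  rw [Finset.mem_range] at ha hb
  -- periodic
  have hper : ∃ r : ℕ, 1 ≤ r ∧ (pev φ G)^[r] ((pev φ G)^[n] w) = (pev φ G)^[n] w := by
    rcases lt_or_gt_of_ne hne with h | h
    · exact ⟨b - a, by omega, iter_periodic _ _ h (by omega) heq⟩
    · exact ⟨a - b, by omega, iter_periodic _ _ h (by omega) heq.symm⟩
  obtain ⟨r, hr, hr'⟩ := hper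
  refine ⟨r, hr, ?_⟩
  have h1 : (pev φ G)^[n] u = (u k) ^ (d ^ n) • (pev φ G)^[n] w := by
    conv_lhs => rw [huw]
    rw [pev_iter_smul hG]
  rw [h1, pev_iter_smul hG, hr']
  apply Par.smul_left
  apply Par.symm
  exact (Par.refl _).smul_left _

end Frob

section Primitive

variable {ι : Type*} [Fintype ι] {R : Type*} [CommRing R] [IsDedekindDomain R]

/-- existence of primitive representatives at a prime. -/
theorem exists_primitive (P : Ideal R) (hP : P ≠ ⊤) (x : ι → R) (hx : x ≠ 0) :
    ∃ x' : ι → R, Par x' x ∧ ∃ k, x' k ∉ P := by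
  classical
  let L := FractionRing R
  set I : Ideal R := Ideal.span (Set.range x) with hI
  have hI0 : (I : FractionalIdeal (nonZeroDivisors R) L) ≠ 0 := by
    rw [Ne, FractionalIdeal.coeIdeal_eq_zero]
    obtain ⟨k, hk⟩ := Function.ne_iff.1 hx
    intro h0
    apply hk
    have : x k ∈ I := Ideal.subset_span ⟨k, rfl⟩
    rw [h0] at this
    exact this
  have hmul : (I : FractionalIdeal (nonZeroDivisors R) L)⁻¹ * (I : FractionalIdeal (nonZeroDivisors R) L) = 1 :=
    inv_mul_cancel₀ hI0
  have hint : ∀ t ∈ (I : FractionalIdeal (nonZeroDivisors R) L)⁻¹, ∀ i, ∃ r : R, algebraMap R L r = t * algebraMap R L (x i) := by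
    intro t ht i
    have h1 : t * algebraMap R L (x i) ∈ (I : FractionalIdeal (nonZeroDivisors R) L)⁻¹ * (I : FractionalIdeal (nonZeroDivisors R) L) :=
      FractionalIdeal.mul_mem_mul ht (FractionalIdeal.mem_coeIdeal_of_mem _ (Ideal.subset_span ⟨i, rfl⟩))
    rw [hmul, FractionalIdeal.mem_one_iff] at h1
    exact h1
  by_contra hcon
  push Not at hcon
  apply hP
  rw [Ideal.eq_top_iff_one]
  -- `1 ≤ P`
  have hle : (I : FractionalIdeal (nonZeroDivisors R) L)⁻¹ * (I : FractionalIdeal (nonZeroDivisors R) L)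
      ≤ (P : FractionalIdeal (nonZeroDivisors R) L) := by
    rw [FractionalIdeal.mul_le]
    intro t ht y hy
    obtain ⟨y', hy', rfl⟩ := (FractionalIdeal.mem_coeIdeal _).1 hy
    choose r hr using hint t ht
    have hpar : Par r x := by
      intro i j
      apply IsFractionRing.injective R L
      rw [map_mul, map_mul, hr, hr]
      ring
    have hrP := hcon r hpar
    -- y' in span
    rw [hI, Ideal.mem_span_range_iff_exists_fun] at hy'
    obtain ⟨c, hc⟩ := hy'
    rw [FractionalIdeal.mem_coeIdeal]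
    refine ⟨∑ i, c i * r i, ?_, ?_⟩
    · exact P.sum_mem fun i _ => P.mul_mem_left _ (hrP i)
    · rw [← hc, map_sum, map_sum, Finset.mul_sum]
      apply Finset.sum_congr rfl
      intro i _
      rw [map_mul, map_mul, hr]
      ring
  rw [hmul] at hle
  have h1 : (1 : L) ∈ (P : FractionalIdeal (nonZeroDivisors R) L) := hle (FractionalIdeal.one_mem_one _)
  rw [FractionalIdeal.mem_coeIdeal] at h1
  obtain ⟨r, hr, hr1⟩ := h1
  have : r = 1 := by
    apply IsFractionRing.injective R L
    rw [hr1, map_one]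
  rwa [this] at hr

end Primitive

end Pool.Agent.Lib.MP_df4dfc_nt
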