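import Mathlib
import Pool.Agent.Lib.MP_df4dfc_nt.Frob
import Pool.Agent.Lib.MP_df4dfc_nt.Density

set_option autoImplicit false
set_option linter.unusedSectionVars false
set_option linter.style.haveILetI false
set_option linter.unusedVariables false

namespace Pool.Agent.Lib.MP_df4dfc_nt

open MvPolynomial NumberField IsDedekindDomain
open scoped Pointwise

universe u

section Gen

variable {ι : Type*} {R T T' : Type*} [CommRing R] [CommRing T] [CommRing T']

theorem NZ.of_injective {φ : R →+* T} {ψ : T →+* T'} {G : ι → MvPolynomial ι R}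
    (h : NZ (ψ.comp φ) G) (hψ : Function.Injective ψ) : NZ φ G := by
  intro y hy h0
  have hy' : (fun i => ψ (y i)) ≠ 0 := by
    intro h1
    apply hy
    funext i
    apply hψ
    rw [Pi.zero_apply, map_zero]
    exact congrFun h1 i
  apply h _ hy'
  rw [← pev_map, h0]
  funext i
  simp

theorem pev_zero {G : ι → MvPolynomial ι R} {d : ℕ} (hd : 1 ≤ d) (hG : ∀ i, (G i).IsHomogeneous d)
    (φ : R →+* T) : pev φ G 0 = 0 := by
  have h := pev_smul hG φ 0 (0 : ι → T)
  rw [smul_zero, zero_pow (by omega), zero_smul] at h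
  exact h

theorem pev_iter_zero {G : ι → MvPolynomial ι R} {d : ℕ} (hd : 1 ≤ d) (hG : ∀ i, (G i).IsHomogeneous d)
    (φ : R →+* T) (n : ℕ) : (pev φ G)^[n] 0 = 0 := by
  induction n with
  | zero => rfl
  | succ n ih => rw [Function.iterate_succ_apply, pev_zero hd hG, ih]

end Gen

section NF

variable {K : Type u} [Field K] [NumberField K]

/-- reduction modulo a prime -/
noncomputable abbrev redK (p : HeightOneSpectrum (𝓞 K)) : 𝓞 K →+* 𝓞 K ⧸ p.asIdeal :=
  Ideal.Quotient.mk p.asIdeal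

/-- the polynomial map on `𝓞 K`-vectors -/
noncomputable abbrev pevO {ι : Type*} (G : ι → MvPolynomial ι (𝓞 K)) : (ι → 𝓞 K) → (ι → 𝓞 K) :=
  pev (RingHom.id (𝓞 K)) G

/-- finite sets of algebraic numbers lie in a finite Galois extension -/
theorem exists_gal (S : Set (AlgebraicClosure K)) (hS : S.Finite) :
    ∃ L : IntermediateField K (AlgebraicClosure K), FiniteDimensional K L ∧ IsGalois K L ∧ S ⊆ (L : Set (AlgebraicClosure K)) := by
  haveI := hS.to_subtype
  haveI : FiniteDimensional K (IntermediateField.adjoin K S) :=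
    IntermediateField.finiteDimensional_adjoin fun x _ => Algebra.IsIntegral.isIntegral x
  refine ⟨IntermediateField.normalClosure K (IntermediateField.adjoin K S) (AlgebraicClosure K), inferInstance, inferInstance, ?_⟩
  intro x hx
  exact IntermediateField.le_normalClosure _ (IntermediateField.subset_adjoin K S hx)

/-- clearing denominators -/
theorem exists_int {L : Type u} [Field L] [NumberField L] {ι : Type*} [Finite ι] (x : ι → L) :
    ∃ (s : 𝓞 L) (x' : ι → 𝓞 L), s ≠ 0 ∧ ∀ i, (x' i : L) = (s : L) * x i := by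
  obtain ⟨b, hb⟩ := IsLocalization.exist_integer_multiples_of_finite (nonZeroDivisors (𝓞 L)) x
  choose x' hx' using hb
  refine ⟨b, x', nonZeroDivisors.ne_zero b.2, ?_⟩
  intro i
  have := hx' i
  rw [Algebra.smul_def] at this
  exact this

/-- primes above a prime dividing a given nonzero element -/
theorem finite_bad (K L : Type*) [Field K] [NumberField K] [Field L] [NumberField L] [Algebra K L]
    (s : 𝓞 L) (hs : s ≠ 0) :
    {p : HeightOneSpectrum (𝓞 K) | ∃ P : HeightOneSpectrum (𝓞 L), bel K L P = p ∧ s ∈ P.asIdeal}.Finite := by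
  have h : {P : HeightOneSpectrum (𝓞 L) | P.asIdeal ∣ Ideal.span {s}}.Finite :=
    Ideal.finite_factors (by
      rw [Ne, Ideal.zero_eq_bot, Ideal.span_singleton_eq_bot]; exact hs)
  apply (h.image (fun P => bel K L P)).subset
  rintro p ⟨P, hP, hsP⟩
  exact ⟨P, Ideal.dvd_span_singleton.2 hsP, hP⟩

theorem finite_bad' (s : 𝓞 K) (hs : s ≠ 0) :
    {p : HeightOneSpectrum (𝓞 K) | s ∈ p.asIdeal}.Finite := by
  have h : {P : HeightOneSpectrum (𝓞 K) | P.asIdeal ∣ Ideal.span {s}}.Finite :=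
    Ideal.finite_factors (by
      rw [Ne, Ideal.zero_eq_bot, Ideal.span_singleton_eq_bot]; exact hs)
  apply h.subset
  intro p hp
  exact Ideal.dvd_span_singleton.2 hp

end NF

section Contra

variable {K L : Type u} [Field K] [NumberField K] [Field L] [NumberField L] [Algebra K L] [IsGalois K L]
variable {ι : Type*} [Fintype ι]

theorem sigma_ne_zero (σ : Gal(L/K)) {x : ι → 𝓞 L} (hx : x ≠ 0) : (fun i => σ • x i) ≠ 0 := by
  intro h0
  apply hx
  funext i
  have := congrFun h0 i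
  simp only [Pi.zero_apply] at this ⊢
  exact (smul_eq_zero_iff_eq σ).1 this

theorem sigma_par (σ : Gal(L/K)) {x y : ι → 𝓞 L} (h : Par x y) :
    Par (fun i => σ • x i) (fun i => σ • y i) :=
  h.map (MulSemiringAction.toRingHom Gal(L/K) (𝓞 L) σ)

/-- The Frobenius at a good prime where `q` is not periodic does not fix a point of the `n`-th
fibre over `q`. -/
theorem frob_contra (G : ι → MvPolynomial ι (𝓞 K)) {d : ℕ} (hG : ∀ i, (G i).IsHomogeneous d)
    (hNZL : NZ (algebraMap (𝓞 K) (𝓞 L)) G)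
    (p0 : HeightOneSpectrum (𝓞 K))
    (hgood : ∀ (κ : Type u) [Field κ] (φ : 𝓞 K →+* κ), RingHom.ker φ = p0.asIdeal → NZ φ G)
    (P0 : HeightOneSpectrum (𝓞 L)) (hP0 : bel K L P0 = p0)
    (σ : Gal(L/K)) (hσ : IsArithFrobAt (𝓞 K) σ P0.asIdeal)
    (n : ℕ) (hn : (Nat.card (𝓞 K ⧸ p0.asIdeal)) ^ Fintype.card ι ≤ n)
    (x : ι → 𝓞 L) (hx : x ≠ 0) (hfix : Par (fun i => σ • x i) x)
    (q : ι → 𝓞 K) (hq : ∃ i, q i ∉ p0.asIdeal)
    (hxq : Par ((pev (algebraMap (𝓞 K) (𝓞 L)) G)^[n] x) (fun i => algebraMap (𝓞 K) (𝓞 L) (q i))) :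
    ∃ r, 1 ≤ r ∧ Par (fun i => redK p0 ((pevO G)^[r] q i)) (fun i => redK p0 (q i)) := by
  classical
  haveI := P0.isMaximal
  haveI := p0.isMaximal
  letI : Field (𝓞 L ⧸ P0.asIdeal) := Ideal.Quotient.field _
  letI : Field (𝓞 K ⧸ p0.asIdeal) := Ideal.Quotient.field _
  set φ : 𝓞 L →+* 𝓞 L ⧸ P0.asIdeal := Ideal.Quotient.mk P0.asIdeal with hφdef
  set i0 := algebraMap (𝓞 K) (𝓞 L) with hi0
  set ψ : 𝓞 K →+* 𝓞 L ⧸ P0.asIdeal := φ.comp i0 with hψ
  have hunder : P0.asIdeal.under (𝓞 K) = p0.asIdeal := congrArg HeightOneSpectrum.asIdeal hP0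
  have hker : RingHom.ker ψ = p0.asIdeal := by
    rw [← hunder]
    ext r
    rw [RingHom.mem_ker, hψ, RingHom.comp_apply, hφdef, Ideal.Quotient.eq_zero_iff_mem]
    exact Iff.rfl
  have hNZψ := hgood _ ψ hker
  obtain ⟨x', hx'par, k, hk⟩ := exists_primitive P0.asIdeal (Ideal.IsPrime.ne_top P0.isPrime) x hx
  have hx'0 : x' ≠ 0 := by
    rintro rfl
    exact hk (by simp)
  set u : ι → 𝓞 L ⧸ P0.asIdeal := fun i => φ (x' i) with hu
  have hu0 : u ≠ 0 := by
    intro h0
    apply hk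
    have := congrFun h0 k
    exact Ideal.Quotient.eq_zero_iff_mem.1 this
  -- the embedding of residue fields
  set e : 𝓞 K ⧸ p0.asIdeal →+* 𝓞 L ⧸ P0.asIdeal := Ideal.Quotient.lift p0.asIdeal ψ (by
    intro a ha
    rw [← hker] at ha
    exact ha) with he
  have he' : ∀ r, e (redK p0 r) = ψ r := fun r => rfl
  have hinj : Function.Injective e := e.injective
  haveI : Fintype (𝓞 K ⧸ p0.asIdeal) := Fintype.ofFinite _
  obtain ⟨p, hchar, f, hp, hcard⟩ := FiniteField.card' (𝓞 K ⧸ p0.asIdeal)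
  haveI : Fact p.Prime := ⟨hp⟩
  haveI : CharP (𝓞 L ⧸ P0.asIdeal) p := charP_of_injective_ringHom hinj p
  have hcard' : Nat.card (𝓞 K ⧸ p0.asIdeal) = p ^ (f : ℕ) := by
    rw [Nat.card_eq_fintype_card, hcard]
  -- Frobenius
  have hfrob : ∀ y : 𝓞 L, φ (σ • y) = φ y ^ (p ^ (f : ℕ)) := by
    intro y
    have h1 : σ • y - y ^ Nat.card (𝓞 K ⧸ P0.asIdeal.under (𝓞 K)) ∈ P0.asIdeal := hσ y
    rw [hunder, hcard'] at h1
    rw [← map_pow]
    exact Ideal.Quotient.eq.2 h1
  have hfix' : Par (fun i => σ • x' i) x' :=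
    ((sigma_par σ hx'par).trans hfix (sigma_ne_zero σ hx)).trans hx'par.symm hx
  have hpar : Par (fun i => u i ^ (p ^ (f : ℕ))) u := by
    have h1 := hfix'.map φ
    have h2 : (fun i => φ (σ • x' i)) = fun i => u i ^ (p ^ (f : ℕ)) := by
      funext i
      exact hfrob (x' i)
    rwa [h2] at h1
  have hψq : ∀ r, ψ r ^ (p ^ (f : ℕ)) = ψ r := by
    intro r
    rw [← he', ← map_pow, ← hcard, FiniteField.pow_card]
  obtain ⟨r, hr, hr'⟩ := frob_fixed ψ G hG hNZψ p f f.pos.ne' hψq n (by rw [← hcard']; exact hn) u hu0 hpar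
  refine ⟨r, hr, ?_⟩
  -- t
  set t := (pev ψ G)^[n] u with ht
  have ht0 : t ≠ 0 := hNZψ.iter n hu0
  have htq : Par t (fun i => ψ (q i)) := by
    have h1 : Par ((pev i0 G)^[n] x') (fun i => i0 (q i)) :=
      (pev_iter_par hG hNZL n hx'par hx).trans hxq (hNZL.iter n hx)
    have h2 := h1.map φ
    have h3 := pev_iter_map i0 φ G n x'
    rw [h3] at h2
    exact h2
  have hq0 : (fun i => ψ (q i)) ≠ 0 := by
    obtain ⟨i, hi⟩ := hq
    intro h0
    apply hi
    have h1 := congrFun h0 i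
    rw [← hker]
    exact h1
  have h1 : Par ((pev ψ G)^[r] (fun i => ψ (q i))) ((pev ψ G)^[r] t) :=
    pev_iter_par hG hNZψ r htq.symm ht0
  have h2 : Par ((pev ψ G)^[r] (fun i => ψ (q i))) (fun i => ψ (q i)) :=
    (h1.trans hr' (hNZψ.iter r ht0)).trans htq ht0
  have h3 : (pev ψ G)^[r] (fun i => ψ (q i)) = fun i => ψ ((pevO G)^[r] q i) := by
    have := pev_iter_map (RingHom.id (𝓞 K)) ψ G r q
    rw [RingHom.comp_id] at this
    exact this.symm
  rw [h3] at h2
  apply Par.of_map e hinj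
  exact h2

end Contra

end Pool.Agent.Lib.MP_df4dfc_nt
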