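import Mathlib
import Pool.Agent.Lib.MP_df4dfc_nt.Core

/-!
# Valuations, inertia groups and radicals of uniformizers
-/

set_option autoImplicit false
set_option linter.unusedSectionVars false
set_option linter.style.haveILetI false
set_option linter.unusedVariables false

namespace Pool.Agent.Lib.MP_df4dfc_nt

open NumberField IsDedekindDomain WithZero
open scoped Pointwise

universe u

section Od

variable {L : Type u} [Field L] [NumberField L]

/-- the additive valuation -/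
noncomputable def od (P : HeightOneSpectrum (𝓞 L)) (x : L) : ℤ := - log (P.valuation L x)

theorem od_mul (P : HeightOneSpectrum (𝓞 L)) {x y : L} (hx : x ≠ 0) (hy : y ≠ 0) :
    od P (x * y) = od P x + od P y := by
  unfold od
  rw [map_mul, log_mul ((Valuation.ne_zero_iff _).2 hx) ((Valuation.ne_zero_iff _).2 hy)]
  ring

theorem od_pow (P : HeightOneSpectrum (𝓞 L)) (x : L) (n : ℕ) : od P (x ^ n) = n * od P x := by
  unfold od
  rw [map_pow, log_pow, nsmul_eq_mul]
  ring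

theorem od_inv (P : HeightOneSpectrum (𝓞 L)) {x : L} (hx : x ≠ 0) : od P x⁻¹ = - od P x := by
  have h := od_mul P hx (inv_ne_zero hx)
  rw [mul_inv_cancel₀ hx] at h
  have h1 : od P (1 : L) = 0 := by
    unfold od
    rw [map_one, log_one, neg_zero]
  rw [h1] at h
  linarith

theorem od_one (P : HeightOneSpectrum (𝓞 L)) : od P (1 : L) = 0 := by
  unfold od
  rw [map_one, log_one, neg_zero]

theorem od_div (P : HeightOneSpectrum (𝓞 L)) {x y : L} (hx : x ≠ 0) (hy : y ≠ 0) :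
    od P (x / y) = od P x - od P y := by
  rw [div_eq_mul_inv, od_mul P hx (inv_ne_zero hy), od_inv P hy]
  ring

theorem coe_ne_zero'' {x : 𝓞 L} (hx : x ≠ 0) : (x : L) ≠ 0 := by
  intro h
  apply hx
  apply RingOfIntegers.coe_injective
  rw [map_zero]
  exact h

theorem od_nonneg (P : HeightOneSpectrum (𝓞 L)) (x : 𝓞 L) : 0 ≤ od P (x : L) := by
  unfold od
  by_cases hx : x = 0
  · subst hx
    simp
  · have h1 := P.valuation_le_one (K := L) x
    have h2 : P.valuation L (x : L) ≠ 0 := (Valuation.ne_zero_iff _).2 (coe_ne_zero'' hx)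
    have h3 : log (P.valuation L (x : L)) ≤ log (1 : ℤᵐ⁰) := (log_le_log h2 one_ne_zero).2 h1
    rw [log_one] at h3
    linarith

theorem od_eq_zero_iff (P : HeightOneSpectrum (𝓞 L)) {x : 𝓞 L} (hx : x ≠ 0) :
    od P (x : L) = 0 ↔ x ∉ P.asIdeal := by
  rw [← P.valuation_eq_one_iff_notMem (K := L)]
  unfold od
  have h2 : P.valuation L (x : L) ≠ 0 := (Valuation.ne_zero_iff _).2 (coe_ne_zero'' hx)
  constructor
  · intro h
    have h3 : log (P.valuation L (x : L)) = 0 := by linarith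
    have h4 := exp_log h2
    rw [h3] at h4
    rw [← exp_zero]
    exact h4.symm
  · intro h
    have h5 : P.valuation L (x : L) = 1 := h
    rw [h5, log_one, neg_zero]

theorem od_pos_iff (P : HeightOneSpectrum (𝓞 L)) {x : 𝓞 L} (hx : x ≠ 0) :
    0 < od P (x : L) ↔ x ∈ P.asIdeal := by
  have h := od_eq_zero_iff P hx
  have h1 := od_nonneg P x
  constructor
  · intro h2
    by_contra h3
    rw [h.2 h3] at h2
    exact lt_irrefl _ h2
  · intro h2
    rcases h1.lt_or_eq with h3 | h3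
    · exact h3
    · exact absurd h2 (h.1 h3.symm)

/-- an element of valuation zero is a quotient of two integers outside the prime -/
theorem exists_unit_frac (P : HeightOneSpectrum (𝓞 L)) {Y : L} (hY : Y ≠ 0) (h : od P Y = 0) :
    ∃ a b : 𝓞 L, a ∉ P.asIdeal ∧ b ∉ P.asIdeal ∧ Y * (b : L) = a := by
  obtain ⟨n, m, hm, hnm⟩ := IsFractionRing.div_surjective (A := 𝓞 L) Y
  have hm0 : m ≠ 0 := nonZeroDivisors.ne_zero hm
  have hmL : (m : L) ≠ 0 := coe_ne_zero'' hm0
  have hn0 : n ≠ 0 := by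
    rintro rfl
    apply hY
    rw [← hnm, map_zero, zero_div]
  have hv : (![n, m] : Fin 2 → 𝓞 L) ≠ 0 := by
    intro h0
    exact hn0 (congrFun h0 0)
  obtain ⟨w, hw, k, hk⟩ := exists_primitive P.asIdeal (Ideal.IsPrime.ne_top P.isPrime) _ hv
  have h1 : w 0 * m = w 1 * n := by
    have := hw 0 1
    simpa using this
  have hw0 : w 0 ≠ 0 := by
    intro h0
    rw [h0, zero_mul] at h1
    rcases mul_eq_zero.1 h1.symm with h2 | h2
    · apply hk
      have : w k = 0 := by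
        fin_cases k
        · exact h0
        · exact h2
      rw [this]
      exact P.asIdeal.zero_mem
    · exact hn0 h2
  have hw1 : w 1 ≠ 0 := by
    intro h0
    rw [h0, zero_mul] at h1
    rcases mul_eq_zero.1 h1 with h2 | h2
    · exact hw0 h2
    · exact hm0 h2
  have hY' : Y * (w 1 : L) = w 0 := by
    rw [← hnm]
    have h2 : ((w 0 : 𝓞 L) : L) * (m : L) = (w 1 : L) * (n : L) := by
      have := congrArg (fun z : 𝓞 L => (z : L)) h1
      simpa using this
    field_simp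
    linear_combination (-1 : L) * h2
  have h3 : od P (w 0 : L) = od P (w 1 : L) := by
    have h4 : od P (w 0 : L) = od P Y + od P (w 1 : L) := by
      rw [← hY', od_mul P hY (coe_ne_zero'' hw1)]
    rw [h4, h, zero_add]
  have h5 : w 0 ∉ P.asIdeal ∧ w 1 ∉ P.asIdeal := by
    fin_cases k
    · have h6 : od P (w 0 : L) = 0 := (od_eq_zero_iff P hw0).2 hk
      exact ⟨hk, (od_eq_zero_iff P hw1).1 (h3 ▸ h6)⟩
    · have h6 : od P (w 1 : L) = 0 := (od_eq_zero_iff P hw1).2 hk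
      exact ⟨(od_eq_zero_iff P hw0).1 (h3.trans h6), hk⟩
  exact ⟨w 0, w 1, h5.1, h5.2, hY'⟩

end Od

section Inertia

variable {K L : Type u} [Field K] [NumberField K] [Field L] [NumberField L] [Algebra K L] [IsGalois K L]

/-- valuations of elements fixed by a subgroup of the inertia group -/
theorem od_fixed (P : HeightOneSpectrum (𝓞 L)) (H : Subgroup Gal(L/K))
    (hH : H ≤ P.asIdeal.inertia Gal(L/K)) (a : L) (ha : ∀ h ∈ H, h a = a) :
    ∃ t : ℤ, od P a = (Nat.card H : ℤ) * t := by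
  classical
  set F := IntermediateField.fixedField H with hF
  haveI : IsGaloisGroup H F L := by
    rw [hF]
    exact IsGaloisGroup.subgroup Gal(L/K) K L H
  haveI : IsGaloisGroup H (𝓞 F) (𝓞 L) := IsGaloisGroup.of_isFractionRing H (𝓞 F) (𝓞 L) F L
  set p := bel F L P with hp
  haveI l2 : P.asIdeal.LiesOver p.asIdeal := bel_liesOver F L P
  haveI := P.isPrime
  haveI := p.isPrime
  haveI := p.isMaximal
  haveI : Finite (𝓞 F ⧸ p.asIdeal) := Ring.HasFiniteQuotients.finiteQuotient p.ne_bot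
  have hin : P.asIdeal.inertia H = ⊤ := by
    rw [eq_top_iff]
    intro h _
    rw [← Ideal.coe_mem_inertia]
    exact hH h.2
  have hcard : Nat.card H = p.asIdeal.ramificationIdxIn (𝓞 L) := by
    rw [← Ideal.card_inertia_eq_ramificationIdxIn (G := H) p.asIdeal P.asIdeal, hin, Subgroup.card_top]
  have hcard2 : Nat.card H = p.asIdeal.ramificationIdx' P.asIdeal := by
    rw [hcard, Ideal.ramificationIdxIn_eq_ramificationIdx p.asIdeal P.asIdeal H,
      Ideal.ramificationIdx'_eq_ramificationIdx p.asIdeal P.asIdeal p.ne_bot]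
  have haF : a ∈ F := by
    rw [hF, IntermediateField.mem_fixedField_iff]
    exact ha
  have hval := HeightOneSpectrum.valuation_liesOver L p P (⟨a, haF⟩ : F)
  refine ⟨- log (p.valuation F (⟨a, haF⟩ : F)), ?_⟩
  unfold od
  have h2 : P.valuation L a = p.valuation F (⟨a, haF⟩ : F) ^ (Nat.card H) := by
    rw [hcard2]
    exact hval.symm
  rw [h2, log_pow, nsmul_eq_mul]
  ring

/-- valuations of elements of the ground field -/
theorem od_base (P : HeightOneSpectrum (𝓞 L)) (a : K) :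
    od P (algebraMap K L a) = (Nat.card (P.asIdeal.inertia Gal(L/K)) : ℤ) * od (bel K L P) a := by
  classical
  set p := bel K L P with hp
  haveI l2 : P.asIdeal.LiesOver p.asIdeal := bel_liesOver K L P
  haveI := P.isPrime
  haveI := p.isPrime
  haveI := p.isMaximal
  haveI : Finite (𝓞 K ⧸ p.asIdeal) := Ring.HasFiniteQuotients.finiteQuotient p.ne_bot
  have hcard2 : Nat.card (P.asIdeal.inertia Gal(L/K)) = p.asIdeal.ramificationIdx' P.asIdeal := by
    rw [Ideal.card_inertia_eq_ramificationIdxIn (G := Gal(L/K)) p.asIdeal P.asIdeal,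
      Ideal.ramificationIdxIn_eq_ramificationIdx p.asIdeal P.asIdeal Gal(L/K),
      Ideal.ramificationIdx'_eq_ramificationIdx p.asIdeal P.asIdeal p.ne_bot]
  have hval := HeightOneSpectrum.valuation_liesOver L p P a
  unfold od
  rw [← hval, hcard2, log_pow, nsmul_eq_mul]
  ring

/-- an element of the inertia group moves a radical of a uniformizer -/
theorem exists_inertia_move (P : HeightOneSpectrum (𝓞 L)) (π : K) (hπ : od (bel K L P) π = 1)
    (ϖ : L) (ℓ : ℕ) (hℓ : 2 ≤ ℓ) (hϖ : ϖ ^ ℓ = algebraMap K L π) :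
    ∃ σ : Gal(L/K), σ ∈ P.asIdeal.inertia Gal(L/K) ∧ σ ϖ ≠ ϖ := by
  by_contra hcon
  push Not at hcon
  obtain ⟨t, ht⟩ := od_fixed P (P.asIdeal.inertia Gal(L/K)) le_rfl ϖ hcon
  have h1 := od_base P π
  rw [hπ, ← hϖ, od_pow, ht, mul_one] at h1
  have hpos : (0 : ℤ) < Nat.card (P.asIdeal.inertia Gal(L/K)) := by
    exact_mod_cast Nat.card_pos
  have h2 : (Nat.card (P.asIdeal.inertia Gal(L/K)) : ℤ) * ((ℓ : ℤ) * t)
      = (Nat.card (P.asIdeal.inertia Gal(L/K)) : ℤ) * 1 := by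
    linarith
  have h3 : (ℓ : ℤ) * t = 1 := mul_left_cancel₀ hpos.ne' h2
  have h4 : (ℓ : ℤ) ∣ 1 := ⟨t, h3.symm⟩
  have h5 : (ℓ : ℤ) = 1 := by
    have h6 := Int.isUnit_iff.1 (isUnit_of_dvd_one h4)
    rcases h6 with h7 | h7
    · exact h7
    · have : (0 : ℤ) ≤ ℓ := by positivity
      omega
  have : ℓ = 1 := by exact_mod_cast h5
  omega

/-- An element of the inertia group acts trivially on units modulo the prime. -/
theorem inertia_unit (P : HeightOneSpectrum (𝓞 L)) (σ : Gal(L/K)) (hσ : σ ∈ P.asIdeal.inertia Gal(L/K))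
    {Y : L} (hY : Y ≠ 0) (h : od P Y = 0) (z : 𝓞 L) (hz : σ Y = (z : L) * Y) : z - 1 ∈ P.asIdeal := by
  obtain ⟨a, b, ha, hb, hab⟩ := exists_unit_frac P hY h
  have hb0 : (b : L) ≠ 0 := by
    apply coe_ne_zero''
    rintro rfl
    exact hb P.asIdeal.zero_mem
  have h1 : σ • a - a ∈ P.asIdeal := hσ a
  have h2 : σ • b - b ∈ P.asIdeal := hσ b
  have h3 : σ • a * b = z * (a * σ • b) := by
    apply RingOfIntegers.coe_injective
    have e1 : ((σ • a : 𝓞 L) : L) = σ Y * ((σ • b : 𝓞 L) : L) := by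
      have e2 : ((σ • a : 𝓞 L) : L) = σ (a : L) := rfl
      have e3 : ((σ • b : 𝓞 L) : L) = σ (b : L) := rfl
      rw [e2, e3, ← hab, map_mul]
    rw [map_mul, map_mul, map_mul]
    change ((σ • a : 𝓞 L) : L) * (b : L) = (z : L) * ((a : L) * ((σ • b : 𝓞 L) : L))
    rw [e1, hz, ← hab]
    ring
  have h4 : (z - 1) * (a * σ • b) ∈ P.asIdeal := by
    have h5 : (z - 1) * (a * σ • b) = (σ • a - a) * b - a * (σ • b - b) := by
      have : z * (a * σ • b) = σ • a * b := h3.symm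
      linear_combination this
    rw [h5]
    exact P.asIdeal.sub_mem (P.asIdeal.mul_mem_right _ h1) (P.asIdeal.mul_mem_left _ h2)
  haveI := P.isPrime
  rcases P.isPrime.mem_or_mem h4 with h5 | h5
  · exact h5
  · exfalso
    rcases P.isPrime.mem_or_mem h5 with h6 | h6
    · exact ha h6
    · apply hb
      have h7 : b = σ • b - (σ • b - b) := by ring
      rw [h7]
      exact P.asIdeal.sub_mem h6 h2

/-- **Kummer argument.** -/
theorem kummer_contra (P : HeightOneSpectrum (𝓞 L)) (σ : Gal(L/K))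
    (hσ : σ ∈ P.asIdeal.inertia Gal(L/K)) (π : K) (hπ0 : π ≠ 0)
    (ϖ : L) (ℓ : ℕ) (hℓ : ℓ.Prime) (hϖ : ϖ ^ ℓ = algebraMap K L π) (hmove : σ ϖ ≠ ϖ)
    (hℓP : (ℓ : 𝓞 L) ∉ P.asIdeal) (t : L) (ht0 : t ≠ 0) (htσ : σ t = t) (A B : ℕ)
    (hAB : (A : ℤ) * od P t = (B : ℤ) * od P (algebraMap K L π)) (hA : ℓ ∣ A) (hB : ¬ ℓ ∣ B) : False := by
  have hπL : algebraMap K L π ≠ 0 := (map_ne_zero _).2 hπ0
  have hϖ0 : ϖ ≠ 0 := by
    rintro rfl
    rw [zero_pow hℓ.ne_zero] at hϖ
    exact hπL hϖ.symm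
  obtain ⟨A', rfl⟩ := hA
  set Y : L := t ^ A' / ϖ ^ B with hYdef
  have hY0 : Y ≠ 0 := div_ne_zero (pow_ne_zero _ ht0) (pow_ne_zero _ hϖ0)
  have hodϖ : (ℓ : ℤ) * od P ϖ = od P (algebraMap K L π) := by rw [← hϖ, od_pow]
  have hodY : od P Y = 0 := by
    rw [hYdef, od_div P (pow_ne_zero _ ht0) (pow_ne_zero _ hϖ0), od_pow, od_pow]
    have hℓ0 : (ℓ : ℤ) ≠ 0 := by exact_mod_cast hℓ.ne_zero
    apply mul_left_cancel₀ hℓ0
    rw [mul_zero, mul_sub]
    have h1 : (ℓ : ℤ) * ((A' : ℤ) * od P t) = (B : ℤ) * od P (algebraMap K L π) := by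
      rw [← hAB]
      push_cast
      ring
    rw [h1, ← hodϖ]
    ring
  -- the root of unity
  set ζ : L := ϖ / σ ϖ with hζ
  have hσϖ0 : σ ϖ ≠ 0 := (map_ne_zero σ).2 hϖ0
  have hζ1 : ζ ≠ 1 := by
    intro h
    rw [hζ, div_eq_one_iff_eq hσϖ0] at h
    exact hmove h.symm
  have hσϖℓ : (σ ϖ) ^ ℓ = ϖ ^ ℓ := by
    rw [← map_pow, hϖ]
    exact σ.commutes π
  have hζℓ : ζ ^ ℓ = 1 := by
    rw [hζ, div_pow, hσϖℓ, div_self (pow_ne_zero _ hϖ0)]
  have hord : orderOf ζ = ℓ := by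
    haveI : Fact ℓ.Prime := ⟨hℓ⟩
    exact orderOf_eq_prime hζℓ hζ1
  have hζB1 : ζ ^ B ≠ 1 := by
    intro h
    apply hB
    rw [← hord]
    exact orderOf_dvd_of_pow_eq_one h
  have hζBℓ : (ζ ^ B) ^ ℓ = 1 := by
    rw [← pow_mul, mul_comm, pow_mul, hζℓ, one_pow]
  have hσY : σ Y = ζ ^ B * Y := by
    rw [hYdef, map_div₀, map_pow, map_pow, htσ, hζ, div_pow]
    field_simp
  have hint : IsIntegral ℤ (ζ ^ B) := by
    apply IsIntegral.of_pow hℓ.pos
    rw [hζBℓ]
    exact isIntegral_one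
  obtain ⟨z, hz⟩ : ∃ z : 𝓞 L, (z : L) = ζ ^ B := ⟨⟨ζ ^ B, hint⟩, rfl⟩
  rw [← hz] at hσY
  have h1 := inertia_unit P σ hσ hY0 hodY z hσY
  -- geometric sum
  have hz1 : z ≠ 1 := by
    rintro rfl
    apply hζB1
    rw [← hz]
    rfl
  have hzℓ : z ^ ℓ = 1 := by
    apply RingOfIntegers.coe_injective
    rw [map_pow, map_one]
    change (z : L) ^ ℓ = 1
    rw [hz, hζBℓ]
  have hgeom : (∑ i ∈ Finset.range ℓ, z ^ i) = 0 := by
    have h2 := geom_sum_mul z ℓ
    rw [hzℓ, sub_self] at h2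
    rcases mul_eq_zero.1 h2 with h3 | h3
    · exact h3
    · exact absurd (sub_eq_zero.1 h3) hz1
  apply hℓP
  have h4 : (∑ i ∈ Finset.range ℓ, (z ^ i - 1)) = - (ℓ : 𝓞 L) := by
    rw [Finset.sum_sub_distrib, hgeom]
    simp
  have h5 : (∑ i ∈ Finset.range ℓ, (z ^ i - 1)) ∈ P.asIdeal := by
    apply Ideal.sum_mem
    intro i _
    have : (z - 1) ∣ z ^ i - 1 := by
      have := sub_dvd_pow_sub_pow z 1 i
      rwa [one_pow] at this
    exact P.asIdeal.mem_of_dvd this h1
  rw [h4] at h5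
  exact neg_mem_iff.1 h5

end Inertia

end Pool.Agent.Lib.MP_df4dfc_nt
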