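import Mathlib
import Pool.Agent.Lib.MP_df4dfc_nt.Fib

set_option autoImplicit false
set_option linter.unusedSectionVars false
set_option linter.unusedVariables false
set_option linter.style.haveILetI false

/-! The generic fibre of a homogeneous map. -/

namespace Pool.Agent.Lib.MP_df4dfc_nt

open MvPolynomial

section Local

variable {ι : Type*} [Fintype ι] {K Ω : Type*} [Field K] [Field Ω] [IsAlgClosed Ω] [Algebra K Ω]

/-- homogeneous Nullstellensatz over a subfield, with several degrees -/
theorem exists_pow_repr' {τ : Type*} [Fintype τ] (P : τ → MvPolynomial ι K) (e : τ → ℕ)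
    (hP : ∀ t, (P t).IsHomogeneous (e t))
    (h : ∀ y : ι → Ω, (∀ t, aeval y (P t) = 0) → y = 0) :
    ∃ M : ℕ, (∀ t, e t ≤ M) ∧ ∀ k : ι, ∃ A : τ → MvPolynomial ι K, (∀ t, (A t).IsHomogeneous (M - e t)) ∧
      (X k : MvPolynomial ι K) ^ M = ∑ t, A t * P t := by
  classical
  set J : Ideal (MvPolynomial ι K) := Ideal.span (Set.range P) with hJ
  have h1 : ∀ k : ι, ∃ m : ℕ, (X k : MvPolynomial ι K) ^ m ∈ J := by
    intro k
    have : (X k : MvPolynomial ι K) ∈ J.radical := by
      rw [← vanishingIdeal_zeroLocus_eq_radical (K := Ω), mem_vanishingIdeal_iff]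
      intro x hx
      rw [mem_zeroLocus_iff] at hx
      have hx0 : x = 0 := by
        apply h
        intro t
        exact hx (P t) (Ideal.subset_span ⟨t, rfl⟩)
      rw [aeval_X, hx0]; rfl
    exact this
  choose m hm using h1
  set M := ∑ k, m k + ∑ t, e t with hM
  have hmM : ∀ k, m k ≤ M := by
    intro k
    have := Finset.single_le_sum (f := m) (fun _ _ => Nat.zero_le _) (Finset.mem_univ k)
    omega
  have heM : ∀ t, e t ≤ M := by
    intro t
    have := Finset.single_le_sum (f := e) (fun _ _ => Nat.zero_le _) (Finset.mem_univ t)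
    omega
  refine ⟨M, heM, ?_⟩
  intro k
  have h2 : (X k : MvPolynomial ι K) ^ M ∈ J := by
    have : (X k : MvPolynomial ι K) ^ M = X k ^ (M - m k) * X k ^ (m k) := by
      rw [← pow_add, Nat.sub_add_cancel (hmM k)]
    rw [this]
    exact J.mul_mem_left _ (hm k)
  rw [hJ, Ideal.mem_span_range_iff_exists_fun] at h2
  obtain ⟨c, hc⟩ := h2
  refine ⟨fun t => homogeneousComponent (M - e t) (c t), fun t => homogeneousComponent_isHomogeneous _ _, ?_⟩
  have h3 : homogeneousComponent M ((X k : MvPolynomial ι K) ^ M) = X k ^ M := by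
    rw [homogeneousComponent_of_mem ((mem_homogeneousSubmodule _ _).2 (isHomogeneous_X_pow k M)), if_pos rfl]
  rw [← h3, ← hc, map_sum]
  apply Finset.sum_congr rfl
  intro t _
  exact homogComp_mul_right (hP t) (heM t)

end Local

section Finite

variable {ι τ : Type*} [Fintype ι] [Fintype τ] {K : Type*} [Field K]

/-- The polynomial ring is finite over the subalgebra generated by forms without common zero. -/
theorem module_finite_of_repr (F : τ → MvPolynomial ι K) {d M : ℕ} (hd : 1 ≤ d) (hdM : d ≤ M)
    (h : ∀ k : ι, ∃ A : τ → MvPolynomial ι K, (∀ t, (A t).IsHomogeneous (M - d)) ∧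
      (X k : MvPolynomial ι K) ^ M = ∑ t, A t * F t) :
    Module.Finite (Algebra.adjoin K (Set.range F)) (MvPolynomial ι K) := by
  classical
  set S : Set (MvPolynomial ι K) := (fun s : ι →₀ ℕ => monomial s (1 : K)) '' {s | ∀ i, s i < M} with hS
  have hSfin : S.Finite := by
    apply Set.Finite.image
    have h1 : {s : ι →₀ ℕ | ∀ i, s i < M} ⊆ ((Finset.Iic (Finsupp.equivFunOnFinite.symm (fun _ : ι => M)) : Finset (ι →₀ ℕ)) : Set (ι →₀ ℕ)) := by
      intro s hs
      rw [Finset.mem_coe, Finset.mem_Iic]
      intro i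
      exact (hs i).le
    exact (Finset.finite_toSet _).subset h1
  have hmain : ∀ n : ℕ, ∀ p : MvPolynomial ι K, p.totalDegree ≤ n →
      p ∈ Submodule.span (Algebra.adjoin K (Set.range F)) S := by
    intro n
    induction n using Nat.strong_induction_on with
    | _ n ih =>
    intro p hp
    rw [p.as_sum]
    apply Submodule.sum_mem
    intro s hs
    have hsdeg : (s.sum fun _ e => e) ≤ n := le_trans (MvPolynomial.le_totalDegree hs) hp
    by_cases hall : ∀ i, s i < M
    · have h1 : monomial s (coeff s p) = (⟨C (coeff s p), Subalgebra.algebraMap_mem _ _⟩ : Algebra.adjoin K (Set.range F)) • monomial s (1 : K) := by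
        change _ = C (coeff s p) * monomial s (1 : K)
        rw [C_mul_monomial, mul_one]
      rw [h1]
      exact Submodule.smul_mem _ _ (Submodule.subset_span ⟨s, hall, rfl⟩)
    · push Not at hall
      obtain ⟨k, hk⟩ := hall
      obtain ⟨A, hA1, hA2⟩ := h k
      have hle : Finsupp.single k M ≤ s := by
        rw [Finsupp.single_le_iff]
        exact hk
      have h1 : monomial s (coeff s p) = ∑ t, (⟨F t, Algebra.subset_adjoin ⟨t, rfl⟩⟩ : Algebra.adjoin K (Set.range F)) •
          (monomial (s - Finsupp.single k M) (coeff s p) * A t) := by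
        have h2 : monomial s (coeff s p) = monomial (s - Finsupp.single k M) (coeff s p) * (X k : MvPolynomial ι K) ^ M := by
          rw [X_pow_eq_monomial, monomial_mul, mul_one, tsub_add_cancel_of_le hle]
        rw [h2, hA2, Finset.mul_sum]
        apply Finset.sum_congr rfl
        intro t _
        change _ = F t * (monomial (s - Finsupp.single k M) (coeff s p) * A t)
        ring
      rw [h1]
      apply Submodule.sum_mem
      intro t _
      apply Submodule.smul_mem
      have hM1 : M ≤ (s.sum fun _ e => e) := by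
        refine le_trans hk ?_
        rw [Finsupp.sum]
        by_cases hks : k ∈ s.support
        · exact Finset.single_le_sum (f := fun i => s i) (fun _ _ => Nat.zero_le _) hks
        · rw [Finsupp.notMem_support_iff.1 hks]
          exact Nat.zero_le _
      refine ih (n - 1) (by omega) _ ?_
      refine le_trans (totalDegree_mul _ _) ?_
      have h3 : (monomial (s - Finsupp.single k M) (coeff s p)).totalDegree ≤ ((s - Finsupp.single k M).sum fun _ e => e) :=
        totalDegree_monomial_le _ _
      have h4 : (A t).totalDegree ≤ M - d := (hA1 t).totalDegree_le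
      have h5 : ((s - Finsupp.single k M).sum fun _ e => e) + M = (s.sum fun _ e => e) := by
        have h6 : s = (s - Finsupp.single k M) + Finsupp.single k M := (tsub_add_cancel_of_le hle).symm
        conv_rhs => rw [h6]
        rw [Finsupp.sum_add_index' (fun _ => rfl) (fun _ _ _ => rfl), Finsupp.sum_single_index rfl]
      omega
  refine ⟨⟨hSfin.toFinset, ?_⟩⟩
  rw [Set.Finite.coe_toFinset, eq_top_iff]
  intro p _
  exact hmain _ p le_rfl

theorem alg_indep_of_finite (F : ι → MvPolynomial ι K)
    [Module.Finite (Algebra.adjoin K (Set.range F)) (MvPolynomial ι K)] : AlgebraicIndependent K F := by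
  haveI : Algebra.IsIntegral (Algebra.adjoin K (Set.range F)) (MvPolynomial ι K) := Algebra.IsIntegral.of_finite _ _
  haveI : Algebra.IsAlgebraic (Algebra.adjoin K (Set.range F)) (MvPolynomial ι K) := Algebra.IsIntegral.isAlgebraic
  refine (Algebra.IsAlgebraic.isTranscendenceBasis_of_lift_le_trdeg_of_finite K F ?_).1
  rw [MvPolynomial.trdeg_of_isDomain]
  simp

theorem integral_of_finite (F : τ → MvPolynomial ι K)
    [Module.Finite (Algebra.adjoin K (Set.range F)) (MvPolynomial ι K)] (x : MvPolynomial ι K) :
    (aeval F : MvPolynomial τ K →ₐ[K] MvPolynomial ι K).toRingHom.IsIntegralElem x := by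
  haveI : Algebra.IsIntegral (Algebra.adjoin K (Set.range F)) (MvPolynomial ι K) := Algebra.IsIntegral.of_finite _ _
  obtain ⟨p, hp, hpx⟩ := Algebra.IsIntegral.isIntegral (R := Algebra.adjoin K (Set.range F)) x
  have hr : Algebra.adjoin K (Set.range F) = (aeval F : MvPolynomial τ K →ₐ[K] MvPolynomial ι K).range :=
    Algebra.adjoin_range_eq_range_aeval K F
  have hsurj : ∀ y : Algebra.adjoin K (Set.range F), ∃ z : MvPolynomial τ K, aeval F z = (y : MvPolynomial ι K) := by
    rintro ⟨y, hy⟩
    rw [hr] at hy
    exact hy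
  set φ' : MvPolynomial τ K →+* Algebra.adjoin K (Set.range F) :=
    (aeval F : MvPolynomial τ K →ₐ[K] MvPolynomial ι K).toRingHom.codRestrict _ (fun z => by
      change aeval F z ∈ Algebra.adjoin K (Set.range F)
      rw [hr]
      exact ⟨z, rfl⟩) with hφ'
  have hφs : Function.Surjective φ' := by
    intro y
    obtain ⟨z, hz⟩ := hsurj y
    exact ⟨z, Subtype.ext hz⟩
  obtain ⟨q, hq, -, hqm⟩ := Polynomial.lifts_and_degree_eq_and_monic ((Polynomial.mem_lifts _).2 (Polynomial.map_surjective φ' hφs p)) hp
  refine ⟨q, hqm, ?_⟩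
  rw [← hq, Polynomial.eval₂_map] at hpx
  exact hpx

end Finite

end Pool.Agent.Lib.MP_df4dfc_nt
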