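import Mathlib
import Pool.Agent.Lib.MP_df4dfc_nt.Asm1

set_option autoImplicit false
set_option linter.unusedSectionVars false
set_option linter.unusedVariables false
set_option linter.style.haveILetI false

/-! Primitive elements of finite extensions of integrally closed domains. -/

namespace Pool.Agent.Lib.MP_df4dfc_nt

open Polynomial

attribute [local instance] FractionRing.liftAlgebra FractionRing.isScalarTower_liftAlgebra

theorem prim_abs (A B : Type*) [CommRing A] [IsDomain A] [IsIntegrallyClosed A] [CommRing B] [IsDomain B]
    [IsIntegrallyClosed B] [Algebra A B] [FaithfulSMul A B] [Module.Finite A B] [CharZero A] :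
    ∃ h : B, ∀ x : B, ∃ (δ : A) (P : A[X]), δ ≠ 0 ∧ algebraMap A B δ * x = aeval h P := by
  classical
  haveI : Module.IsTorsionFree A B := FaithfulSMul.to_isTorsionFree A B
  haveI : IsIntegralClosure B A (FractionRing B) :=
    IsIntegralClosure.of_isIntegrallyClosed _ _ _
  haveI : Algebra.IsAlgebraic (FractionRing A) (FractionRing B) :=
    isAlgebraic_of_isFractionRing A B ..
  haveI : IsLocalization (Algebra.algebraMapSubmonoid B (nonZeroDivisors A)) (FractionRing B) :=
    IsIntegralClosure.isLocalization _ (FractionRing A) _ _
  haveI : FiniteDimensional (FractionRing A) (FractionRing B) := .of_isLocalization A B (nonZeroDivisors A)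
  haveI : CharZero (FractionRing A) := charZero_of_injective_algebraMap (IsFractionRing.injective A (FractionRing A))
  obtain ⟨α, hα⟩ := Field.exists_primitive_element (FractionRing A) (FractionRing B)
  have halgα : IsAlgebraic A α := (IsFractionRing.isAlgebraic_iff A (FractionRing A) (FractionRing B)).2
    (Algebra.IsAlgebraic.isAlgebraic α)
  obtain ⟨a, ha0, ha⟩ := halgα.exists_integral_multiple
  obtain ⟨h, hh⟩ := (IsIntegralClosure.isIntegral_iff (A := B)).1 ha
  have haK : algebraMap A (FractionRing A) a ≠ 0 := by
    intro h0
    apply ha0
    exact (IsFractionRing.injective A (FractionRing A)) (by rw [h0, map_zero])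
  have hβ : IntermediateField.adjoin (FractionRing A) {algebraMap B (FractionRing B) h} = ⊤ := by
    rw [← hα]
    apply le_antisymm
    · rw [IntermediateField.adjoin_simple_le_iff, hh, Algebra.smul_def,
        IsScalarTower.algebraMap_apply A (FractionRing A) (FractionRing B)]
      exact mul_mem (IntermediateField.algebraMap_mem _ _) (IntermediateField.mem_adjoin_simple_self _ _)
    · rw [IntermediateField.adjoin_simple_le_iff]
      have h1 : α = algebraMap (FractionRing A) (FractionRing B) (algebraMap A (FractionRing A) a)⁻¹ *
          algebraMap B (FractionRing B) h := by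
        rw [hh, Algebra.smul_def, IsScalarTower.algebraMap_apply A (FractionRing A) (FractionRing B), map_inv₀,
          inv_mul_cancel_left₀]
        exact (_root_.map_ne_zero _).2 haK
      rw [h1]
      exact mul_mem (IntermediateField.algebraMap_mem _ _) (IntermediateField.mem_adjoin_simple_self _ _)
  refine ⟨h, fun x => ?_⟩
  have hx : algebraMap B (FractionRing B) x ∈
      (IntermediateField.adjoin (FractionRing A) {algebraMap B (FractionRing B) h}).toSubalgebra := by
    rw [hβ]
    trivial
  rw [IntermediateField.adjoin_simple_toSubalgebra_of_isAlgebraic (Algebra.IsAlgebraic.isAlgebraic _),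
    Algebra.adjoin_singleton_eq_range_aeval] at hx
  obtain ⟨q, hq⟩ := hx
  obtain ⟨b, hb, hbq⟩ := IsLocalization.integerNormalization_spec (nonZeroDivisors A) q
  refine ⟨b, IsLocalization.integerNormalization (nonZeroDivisors A) q, nonZeroDivisors.ne_zero hb, ?_⟩
  apply IsFractionRing.injective B (FractionRing B)
  rw [map_mul, ← IsScalarTower.algebraMap_apply A B (FractionRing B), ← hq, ← Polynomial.aeval_algebraMap_apply]
  have h2 : aeval (algebraMap B (FractionRing B) h) (IsLocalization.integerNormalization (nonZeroDivisors A) q)
      = aeval (algebraMap B (FractionRing B) h) ((IsLocalization.integerNormalization (nonZeroDivisors A) q).map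
        (algebraMap A (FractionRing A))) := by
    rw [Polynomial.aeval_map_algebraMap]
  rw [h2, hbq]
  have h3 : b • q = (algebraMap A (FractionRing A) b) • q := by
    rw [algebraMap_smul]
  rw [h3, map_smul, Algebra.smul_def, ← IsScalarTower.algebraMap_apply A (FractionRing A) (FractionRing B)]
  rfl

end Pool.Agent.Lib.MP_df4dfc_nt
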