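import Mathlib
import Pool.Agent.Lib.MP_df4dfc_nt.Vec

/-!
# Values of random forms over a finite field
-/

set_option autoImplicit false
set_option linter.unusedSectionVars false
set_option linter.style.haveILetI false
set_option linter.unusedVariables false

namespace Pool.Agent.Lib.MP_df4dfc_nt

open MvPolynomial

section Frm

variable {ι : Type*} [Fintype ι] [DecidableEq ι]

/-- monomials (exponent vectors) of degree `d` -/
abbrev Mon (ι : Type*) (d : ℕ) : Type _ := {m : ι →₀ ℕ // m.degree = d}

instance monFinite (d : ℕ) : Finite (Mon ι d) := (Finsupp.finite_of_degree_eq (σ := ι) d).to_subtype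

noncomputable instance monFintype (d : ℕ) : Fintype (Mon ι d) := Fintype.ofFinite _

/-- the form with given coefficients -/
noncomputable def frm1 {R : Type*} [CommRing R] {d : ℕ} (c : Mon ι d → R) : MvPolynomial ι R :=
  ∑ m : Mon ι d, monomial m.1 (c m)

theorem frm1_coeff {R : Type*} [CommRing R] {d : ℕ} (c : Mon ι d → R) (m : Mon ι d) :
    coeff m.1 (frm1 c) = c m := by
  unfold frm1
  rw [coeff_sum]
  simp only [coeff_monomial]
  rw [Finset.sum_eq_single m]
  · rw [if_pos rfl]
  · intro b _ hb
    rw [if_neg]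
    intro h
    exact hb (Subtype.ext h)
  · intro h
    exact absurd (Finset.mem_univ _) h

theorem frm1_homog {R : Type*} [CommRing R] {d : ℕ} (c : Mon ι d → R) : (frm1 c).IsHomogeneous d := by
  unfold frm1
  apply IsHomogeneous.sum
  intro m _
  exact isHomogeneous_monomial _ m.2

theorem frm1_eq {R : Type*} [CommRing R] {d : ℕ} {P : MvPolynomial ι R} (hP : P.IsHomogeneous d) :
    frm1 (fun m : Mon ι d => coeff m.1 P) = P := by
  ext m
  by_cases hm : m.degree = d
  · exact frm1_coeff (fun m : Mon ι d => coeff m.1 P) ⟨m, hm⟩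
  · rw [(frm1_homog _).coeff_eq_zero hm, hP.coeff_eq_zero hm]

/-- the value of the form with given coefficients -/
noncomputable def evf {F : Type*} [CommRing F] {d : ℕ} (x : ι → F) : (Mon ι d → F) →ₗ[F] F where
  toFun c := eval x (frm1 c)
  map_add' c c' := by
    unfold frm1
    rw [← map_add, ← Finset.sum_add_distrib]
    congr 1
    apply Finset.sum_congr rfl
    intro m _
    rw [Pi.add_apply, map_add]
  map_smul' r c := by
    unfold frm1
    rw [map_sum, map_sum, RingHom.id_apply, smul_eq_mul, Finset.mul_sum]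
    apply Finset.sum_congr rfl
    intro m _
    rw [Pi.smul_apply, smul_eq_mul, eval_monomial, eval_monomial]
    ring

theorem evf_apply {F : Type*} [CommRing F] {d : ℕ} (x : ι → F) (c : Mon ι d → F) :
    evf x c = eval x (frm1 c) := rfl

/-- the tuple of forms -/
noncomputable def frm {R : Type*} [CommRing R] {d : ℕ} (a : ι → Mon ι d → R) : ι → MvPolynomial ι R :=
  fun i => frm1 (a i)

theorem frm_homog {R : Type*} [CommRing R] {d : ℕ} (a : ι → Mon ι d → R) (i : ι) :
    (frm a i).IsHomogeneous d := frm1_homog _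

theorem frm1_map {R T : Type*} [CommRing R] [CommRing T] {d : ℕ} (φ : R →+* T) (c : Mon ι d → R) :
    map φ (frm1 c) = frm1 (fun m => φ (c m)) := by
  unfold frm1
  rw [map_sum]
  apply Finset.sum_congr rfl
  intro m _
  rw [map_monomial]

theorem pev_frm {R T : Type*} [CommRing R] [CommRing T] {d : ℕ} (φ : R →+* T) (a : ι → Mon ι d → R) (x : ι → T) :
    pev φ (frm a) x = fun i => evf x (fun m => φ (a i m)) := by
  funext i
  change eval₂ φ x (frm1 (a i)) = eval x (frm1 _)
  rw [← frm1_map, eval_map]

end Frm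

section Interp

variable {ι : Type*} [Fintype ι] [DecidableEq ι] {F : Type*} [Field F]

/-- a linear form vanishing at `y` but not at `x` -/
theorem exists_linear {x y : ι → F} (h : ¬ Par x y) :
    ∃ l : MvPolynomial ι F, l.IsHomogeneous 1 ∧ eval y l = 0 ∧ eval x l ≠ 0 := by
  unfold Par at h
  push Not at h
  obtain ⟨a, b, hab⟩ := h
  refine ⟨C (y b) * X a - C (y a) * X b, ?_, ?_, ?_⟩
  · have h1 : (C (y b) * X a : MvPolynomial ι F).IsHomogeneous 1 := by
      have := (isHomogeneous_C ι (y b)).mul (isHomogeneous_X F a)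
      simpa using this
    have h2 : (C (y a) * X b : MvPolynomial ι F).IsHomogeneous 1 := by
      have := (isHomogeneous_C ι (y a)).mul (isHomogeneous_X F b)
      simpa using this
    exact h1.sub h2
  · rw [map_sub, map_mul, map_mul, eval_C, eval_C, eval_X, eval_X]
    ring
  · rw [map_sub, map_mul, map_mul, eval_C, eval_C, eval_X, eval_X]
    intro h0
    apply hab
    linear_combination h0

/-- interpolation: the values of forms of degree `d` at at most `d + 1` distinct points of projective
space are arbitrary -/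
theorem interp {k d : ℕ} (hk : k ≤ d + 1) (z : Fin k → ι → F) (hz : ∀ i, z i ≠ 0)
    (hzz : ∀ i j, i ≠ j → ¬ Par (z i) (z j)) (i : Fin k) :
    ∃ P : MvPolynomial ι F, P.IsHomogeneous d ∧ eval (z i) P = 1 ∧ ∀ j, j ≠ i → eval (z j) P = 0 := by
  classical
  have h1 : ∀ j : Fin k, ∃ l : MvPolynomial ι F, l.IsHomogeneous 1 ∧ (j ≠ i → eval (z j) l = 0) ∧ eval (z i) l ≠ 0 := by
    intro j
    by_cases hj : j = i
    · obtain ⟨a, ha⟩ := Function.ne_iff.1 (hz i)
      exact ⟨X a, isHomogeneous_X F a, fun h => absurd hj h, by rw [eval_X]; exact ha⟩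
    · obtain ⟨l, hl1, hl2, hl3⟩ := exists_linear (hzz i j (Ne.symm hj))
      exact ⟨l, hl1, fun _ => hl2, hl3⟩
  choose l hl1 hl2 hl3 using h1
  obtain ⟨a, ha⟩ := Function.ne_iff.1 (hz i)
  rw [Pi.zero_apply] at ha
  have hk0 : 0 < k := i.pos
  set Q : MvPolynomial ι F := (∏ j ∈ Finset.univ.erase i, l j) * X a ^ (d - (k - 1)) with hQ
  have hQhom : Q.IsHomogeneous d := by
    have h2 : (∏ j ∈ Finset.univ.erase i, l j).IsHomogeneous (∑ j ∈ (Finset.univ.erase i : Finset (Fin k)), 1) :=
      IsHomogeneous.prod _ _ _ fun j _ => hl1 j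
    have h3 : (X a ^ (d - (k - 1)) : MvPolynomial ι F).IsHomogeneous (1 * (d - (k - 1))) := (isHomogeneous_X F a).pow _
    have h4 := h2.mul h3
    have h5 : ∑ j ∈ (Finset.univ.erase i : Finset (Fin k)), 1 + 1 * (d - (k - 1)) = d := by
      rw [Finset.sum_const, Finset.card_erase_of_mem (Finset.mem_univ _), Finset.card_univ, Fintype.card_fin]
      simp only [smul_eq_mul]
      omega
    rw [h5] at h4
    exact h4
  have hQi : eval (z i) Q ≠ 0 := by
    rw [hQ, map_mul, map_prod, map_pow, eval_X]
    exact mul_ne_zero (Finset.prod_ne_zero_iff.2 fun j _ => hl3 j) (pow_ne_zero _ ha)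
  refine ⟨C (eval (z i) Q)⁻¹ * Q, ?_, ?_, ?_⟩
  · have := (isHomogeneous_C ι (eval (z i) Q)⁻¹).mul hQhom
    rwa [zero_add] at this
  · rw [map_mul, eval_C, inv_mul_cancel₀ hQi]
  · intro j hj
    have h6 : eval (z j) Q = 0 := by
      rw [hQ, map_mul, map_prod]
      have : ∏ j' ∈ Finset.univ.erase i, eval (z j) (l j') = 0 :=
        Finset.prod_eq_zero (Finset.mem_erase.2 ⟨hj, Finset.mem_univ _⟩) (hl2 j hj)
      rw [this, zero_mul]
    rw [map_mul, h6, mul_zero]

/-- the joint evaluation map is surjective -/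
theorem evf_surj {k d : ℕ} (hk : k ≤ d + 1) (z : Fin k → ι → F) (hz : ∀ i, z i ≠ 0)
    (hzz : ∀ i j, i ≠ j → ¬ Par (z i) (z j)) (t : Fin k → ι → F) :
    ∃ a : ι → Mon ι d → F, ∀ i j, evf (z i) (a j) = t i j := by
  classical
  choose P hP1 hP2 hP3 using fun i => interp hk z hz hzz i
  refine ⟨fun j m => ∑ i, t i j * coeff m.1 (P i), ?_⟩
  intro i j
  have h1 : (fun m : Mon ι d => ∑ i, t i j * coeff m.1 (P i)) = ∑ i, t i j • fun m : Mon ι d => coeff m.1 (P i) := by
    funext m
    simp [Finset.sum_apply]
  change evf (z i) (fun m : Mon ι d => ∑ i, t i j * coeff m.1 (P i)) = t i j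
  rw [h1, map_sum]
  simp only [map_smul, smul_eq_mul, evf_apply, frm1_eq (hP1 _)]
  rw [Finset.sum_eq_single i]
  · rw [hP2, mul_one]
  · intro b _ hb
    rw [hP3 b i (Ne.symm hb), mul_zero]
  · intro h
    exact absurd (Finset.mem_univ _) h

end Interp

section Count

/-- a surjective homomorphism between finite groups has equal fibres -/
theorem card_preimage {A B : Type*} [AddCommGroup A] [AddCommGroup B] [Fintype A] [Fintype B] [DecidableEq B]
    (f : A →+ B) (hf : Function.Surjective f) (S : Finset B) :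
    (Finset.univ.filter fun a => f a ∈ S).card * Fintype.card B = S.card * Fintype.card A := by
  classical
  have hfib : ∀ b : B, (Finset.univ.filter fun a => f a = b).card = (Finset.univ.filter fun a => f a = 0).card := by
    intro b
    exact AddMonoidHom.card_fiber_eq_of_mem_range f (hf b) (hf 0)
  set c := (Finset.univ.filter fun a => f a = 0).card with hc
  have h1 : (Finset.univ.filter fun a => f a ∈ S).card = S.card * c := by
    rw [Finset.card_eq_sum_card_fiberwise (f := f) (t := S) (by
      intro a ha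
      exact (Finset.mem_filter.1 ha).2)]
    rw [Finset.sum_congr rfl (g := fun _ => c), Finset.sum_const, smul_eq_mul]
    intro b hb
    rw [← hfib b]
    congr 1
    ext a
    simp only [Finset.mem_filter, Finset.mem_univ, true_and]
    constructor
    · rintro ⟨_, h⟩; exact h
    · intro h; exact ⟨by rw [h]; exact hb, h⟩
  have h2 : Fintype.card A = Fintype.card B * c := by
    have h3 := Finset.card_eq_sum_card_fiberwise (s := (Finset.univ : Finset A)) (f := f) (t := Finset.univ) (by
      intro a _; exact Finset.mem_coe.2 (Finset.mem_univ _))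
    rw [Finset.card_univ] at h3
    rw [h3, Finset.sum_congr rfl (g := fun _ => c) (fun b _ => hfib b), Finset.sum_const, smul_eq_mul, Finset.card_univ]
  rw [h1, h2]
  ring

end Count

end Pool.Agent.Lib.MP_df4dfc_nt
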