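import Mathlib
import Pool.Agent.Lib.MP_df4dfc_nt.Generic1

/-!
# A positive proportion of the tuples of forms over a finite field misses a given point
-/

set_option autoImplicit false
set_option linter.unusedSectionVars false
set_option linter.style.haveILetI false
set_option linter.unusedVariables false

namespace Pool.Agent.Lib.MP_df4dfc_nt

open MvPolynomial Finset

open scoped LinearAlgebra.Projectivization

variable {ι : Type*} [Fintype ι] [DecidableEq ι] {F : Type*} [Field F] [Fintype F] [DecidableEq F]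

open Classical in
theorem card_par (y : ι → F) (hy : y ≠ 0) :
    (univ.filter fun v : ι → F => Par v y).card = Fintype.card F := by
  rw [← Finset.card_univ (α := F)]
  symm
  apply Finset.card_bij (fun (c : F) _ => c • y)
  · intro c _
    rw [Finset.mem_filter]
    exact ⟨Finset.mem_univ _, (Par.refl y).smul_left c⟩
  · intro c _ c' _ h
    obtain ⟨k, hk⟩ := Function.ne_iff.1 hy
    have := congrFun h k
    simp only [Pi.smul_apply, smul_eq_mul] at this
    exact mul_right_cancel₀ hk this
  · intro v hv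
    rw [Finset.mem_filter] at hv
    obtain ⟨c, hc⟩ := hv.2.exists_smul hy
    exact ⟨c, Finset.mem_univ _, hc.symm⟩

open Classical in
theorem card_pi_par (k : ℕ) (y : ι → F) (hy : y ≠ 0) :
    (univ.filter fun t : Fin k → ι → F => ∀ i, Par (t i) y).card = Fintype.card F ^ k := by
  have h : (univ.filter fun t : Fin k → ι → F => ∀ i, Par (t i) y)
      = Fintype.piFinset (fun _ : Fin k => univ.filter fun v : ι → F => Par v y) := by
    ext t
    simp only [Finset.mem_filter, Finset.mem_univ, true_and, Fintype.mem_piFinset]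
  rw [h, Fintype.card_piFinset]
  simp only [card_par y hy]
  rw [Finset.prod_const, Finset.card_univ, Fintype.card_fin]

theorem rep_not_par {p p' : ℙ F (ι → F)} (h : p ≠ p') : ¬ Par p.rep p'.rep := by
  intro hp
  apply h
  obtain ⟨c, hc⟩ := hp.exists_smul p'.rep_nonzero
  rw [← p.mk_rep, ← p'.mk_rep, Projectivization.mk_eq_mk_iff']
  exact ⟨c, hc.symm⟩

/-- the joint evaluation homomorphism -/
noncomputable def evHom {k d : ℕ} (z : Fin k → ι → F) : (ι → Mon ι d → F) →+ (Fin k → ι → F) where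
  toFun a := fun i j => evf (z i) (a j)
  map_zero' := by
    funext i j
    simp
  map_add' a b := by
    funext i j
    simp

open Classical in
theorem card_hits_one {k d : ℕ} (hk : k ≤ d + 1) (y : ι → F) (hy : y ≠ 0) (e : Fin k ↪ ℙ F (ι → F)) :
    (univ.filter fun a : ι → Mon ι d → F => ∀ i, Par (fun j => evf (e i).rep (a j)) y).card *
      (Fintype.card F ^ Fintype.card ι) ^ k = Fintype.card F ^ k * Fintype.card (ι → Mon ι d → F) := by
  have hsurj : Function.Surjective (evHom (d := d) fun i => (e i).rep) := by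
    intro t
    obtain ⟨a, ha⟩ := evf_surj (d := d) hk (fun i => (e i).rep) (fun i => (e i).rep_nonzero) (by
      intro i j hij
      apply rep_not_par
      intro h
      exact hij (e.injective h)) t
    exact ⟨a, funext fun i => funext fun j => ha i j⟩
  have h1 := card_preimage (evHom (d := d) fun i => (e i).rep) hsurj
    (univ.filter fun t : Fin k → ι → F => ∀ i, Par (t i) y)
  rw [card_pi_par k y hy] at h1
  have h2 : Fintype.card (Fin k → ι → F) = (Fintype.card F ^ Fintype.card ι) ^ k := by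
    rw [Fintype.card_fun, Fintype.card_fun, Fintype.card_fin]
  rw [h2] at h1
  rw [← h1]
  congr 2
  ext a
  simp only [Finset.mem_filter, Finset.mem_univ, true_and]
  rfl

/-- embeddings into a subtype -/
theorem card_embs {α : Type*} [Fintype α] [DecidableEq α] (k : ℕ) (P : α → Prop) [DecidablePred P] :
    (univ.filter fun e : Fin k ↪ α => ∀ i, P (e i)).card = (univ.filter P).card.descFactorial k := by
  have h1 : Fintype.card (Fin k ↪ {a // P a}) = (univ.filter P).card.descFactorial k := by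
    rw [Fintype.card_embedding_eq, Fintype.card_fin, Fintype.card_subtype]
  rw [← h1, ← Fintype.card_subtype]
  apply Fintype.card_congr
  refine ⟨fun g => ⟨fun i => ⟨g.1 i, g.2 i⟩, ?_⟩, fun f => ⟨f.trans (Function.Embedding.subtype P), fun i => (f i).2⟩, ?_, ?_⟩
  · intro i j h
    exact g.1.injective (congrArg Subtype.val h)
  · intro g
    ext i
    rfl
  · intro f
    ext i
    rfl

noncomputable instance projFintype : Fintype (ℙ F (ι → F)) := Fintype.ofFinite _

open Classical in
/-- the number of points of projective space mapped to `y` (or to zero) -/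
noncomputable def nhit {d : ℕ} (y : ι → F) (a : ι → Mon ι d → F) : ℕ :=
  (univ.filter fun p : ℙ F (ι → F) => Par (fun j => evf p.rep (a j)) y).card

theorem moment {k d : ℕ} (hk : k ≤ d + 1) (y : ι → F) (hy : y ≠ 0) :
    (∑ a : ι → Mon ι d → F, (nhit y a).descFactorial k) * (Fintype.card F ^ Fintype.card ι) ^ k
      = (Fintype.card (ℙ F (ι → F))).descFactorial k * (Fintype.card F ^ k * Fintype.card (ι → Mon ι d → F)) := by
  classical
  have h1 : ∑ a : ι → Mon ι d → F, (nhit y a).descFactorial k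
      = ∑ e : Fin k ↪ ℙ F (ι → F), (univ.filter fun a : ι → Mon ι d → F => ∀ i, Par (fun j => evf (e i).rep (a j)) y).card := by
    have h2 : ∀ a : ι → Mon ι d → F, (nhit y a).descFactorial k
        = ∑ e : Fin k ↪ ℙ F (ι → F), if (∀ i, Par (fun j => evf (e i).rep (a j)) y) then 1 else 0 := by
      intro a
      rw [← Finset.card_filter]
      unfold nhit
      rw [← card_embs k (fun p : ℙ F (ι → F) => Par (fun j => evf p.rep (a j)) y)]
    rw [Finset.sum_congr rfl fun a _ => h2 a, Finset.sum_comm]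
    apply Finset.sum_congr rfl
    intro e _
    rw [← Finset.card_filter]
  rw [h1, Finset.sum_mul, Finset.sum_congr rfl fun e _ => card_hits_one hk y hy e, Finset.sum_const, smul_eq_mul,
    Finset.card_univ, Fintype.card_embedding_eq, Fintype.card_fin]

theorem bonf (n : ℕ) : (6:ℝ) - 6 * (n.descFactorial 1 : ℕ) + 3 * (n.descFactorial 2 : ℕ) - (n.descFactorial 3 : ℕ)
    ≤ 6 * (if n = 0 then 1 else 0) := by
  rcases n with _ | _ | _ | n
  · norm_num
  · norm_num
  · norm_num [Nat.descFactorial]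
  · have e1 : ((n + 1 + 1 + 1).descFactorial 1 : ℕ) = n + 3 := by simp [Nat.descFactorial]
    have e2 : ((n + 1 + 1 + 1).descFactorial 2 : ℕ) = (n + 2) * (n + 3) := by simp [Nat.descFactorial]
    have e3 : ((n + 1 + 1 + 1).descFactorial 3 : ℕ) = (n + 1) * ((n + 2) * (n + 3)) := by simp [Nat.descFactorial]
    rw [e1, e2, e3, if_neg (by omega)]
    push_cast
    have hn : (0:ℝ) ≤ n := Nat.cast_nonneg n
    nlinarith [mul_nonneg hn hn, mul_nonneg (mul_nonneg hn hn) hn]

/-- a positive proportion of tuples misses the point `y` -/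
theorem many_miss {d : ℕ} (hd : 2 ≤ d) (hι : 2 ≤ Fintype.card ι) (hq : 11 ≤ Fintype.card F) (y : ι → F) (hy : y ≠ 0) :
    Fintype.card (ι → Mon ι d → F) ≤ 6 * (univ.filter fun a : ι → Mon ι d → F => nhit y a = 0).card := by
  classical
  set q := Fintype.card F with hqd
  set A := Fintype.card (ι → Mon ι d → F) with hA
  set M := Fintype.card (ℙ F (ι → F)) with hM
  obtain ⟨N, hN⟩ : ∃ N, Fintype.card ι = N + 1 := ⟨Fintype.card ι - 1, by omega⟩
  have hN1 : 1 ≤ N := by omega
  set Q := q ^ N with hQ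
  have hQq : q ≤ Q := by
    rw [hQ]
    exact Nat.le_self_pow (by omega) q
  have hMq : q * Q = M * (q - 1) + 1 := by
    have h := Projectivization.card' F (ι → F)
    rw [Nat.card_eq_fintype_card, Nat.card_eq_fintype_card, Nat.card_eq_fintype_card, Fintype.card_fun, hN, pow_succ] at h
    rw [← h, hQ]
    ring
  have hqR : (11:ℝ) ≤ q := by exact_mod_cast hq
  have hQR : (q:ℝ) ≤ Q := by exact_mod_cast hQq
  have hQpos : (0:ℝ) < Q := by linarith
  have hqpos : (0:ℝ) < q := by linarith
  have hMqR : (q:ℝ) * Q = M * (q - 1) + 1 := by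
    have : (q - 1 : ℕ) = (q:ℝ) - 1 := by
      rw [Nat.cast_sub (by omega)]; simp
    rw [← this]
    exact_mod_cast hMq
  -- moments
  have hS : ∀ k : ℕ, k ≤ 3 → (∑ a : ι → Mon ι d → F, (((nhit y a).descFactorial k : ℕ) : ℝ)) * (Q:ℝ) ^ k
      = ((M.descFactorial k : ℕ) : ℝ) * A := by
    intro k hk
    have h := moment (d := d) (k := k) (by omega) y hy
    rw [hN, ← hqd, pow_succ, ← hQ] at h
    have h2 : (∑ a : ι → Mon ι d → F, (((nhit y a).descFactorial k : ℕ) : ℝ)) * ((Q:ℝ) * q) ^ k
        = ((M.descFactorial k : ℕ) : ℝ) * ((q:ℝ) ^ k * A) := by exact_mod_cast h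
    have h3 : (0:ℝ) < (q:ℝ) ^ k := by positivity
    apply mul_right_cancel₀ h3.ne'
    rw [mul_pow] at h2
    linear_combination h2
  have hS1 := hS 1 (by omega)
  have hS2 := hS 2 (by omega)
  have hS3 := hS 3 (by omega)
  set S1 := ∑ a : ι → Mon ι d → F, (((nhit y a).descFactorial 1 : ℕ) : ℝ) with hS1d
  set S2 := ∑ a : ι → Mon ι d → F, (((nhit y a).descFactorial 2 : ℕ) : ℝ) with hS2d
  set S3 := ∑ a : ι → Mon ι d → F, (((nhit y a).descFactorial 3 : ℕ) : ℝ) with hS3d
  have hsum : (6:ℝ) * A - 6 * S1 + 3 * S2 - S3 ≤ 6 * (univ.filter fun a : ι → Mon ι d → F => nhit y a = 0).card := by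
    have h1 : ∑ a : ι → Mon ι d → F, ((6:ℝ) - 6 * ((nhit y a).descFactorial 1 : ℕ) + 3 * ((nhit y a).descFactorial 2 : ℕ)
        - ((nhit y a).descFactorial 3 : ℕ)) ≤ ∑ a : ι → Mon ι d → F, 6 * (if nhit y a = 0 then 1 else 0) :=
      Finset.sum_le_sum fun a _ => bonf (nhit y a)
    rw [Finset.sum_sub_distrib, Finset.sum_add_distrib, Finset.sum_sub_distrib, ← Finset.mul_sum, ← Finset.mul_sum,
      ← Finset.mul_sum, Finset.sum_const, Finset.card_univ, nsmul_eq_mul] at h1
    have h2 : ∑ a : ι → Mon ι d → F, (if nhit y a = 0 then (1:ℝ) else 0)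
        = ((univ.filter fun a : ι → Mon ι d → F => nhit y a = 0).card : ℝ) := by
      rw [Finset.card_filter]; push_cast; rfl
    rw [h2] at h1
    linarith
  -- the numerical inequality
  have hM1 : (1:ℝ) ≤ M := by
    have : 0 < M := by
      by_contra hcon
      have h0 : M = 0 := by omega
      rw [h0] at hMq
      nlinarith
    exact_mod_cast this
  set μ : ℝ := M / Q with hμ
  have hMμ : (M:ℝ) = μ * Q := by rw [hμ]; field_simp
  have hμ1 : 1 ≤ μ := by
    rw [hμ, le_div_iff₀ hQpos]
    nlinarith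
  have hμ2 : μ ≤ 1 + 1 / 10 := by
    rw [hμ, div_le_iff₀ hQpos]
    nlinarith
  have hQinv : 1 / (Q:ℝ) ≤ 1 / 11 := one_div_le_one_div_of_le (by norm_num) (by linarith)
  have hQinv0 : 0 < 1 / (Q:ℝ) := by positivity
  set w : ℝ := 1 / Q with hw
  have hwQ : w * Q = 1 := by rw [hw]; field_simp
  have e1 : S1 = μ * A := by
    have : ((M.descFactorial 1 : ℕ) : ℝ) = M := by simp [Nat.descFactorial]
    rw [this, hMμ, pow_one] at hS1
    apply mul_right_cancel₀ hQpos.ne'
    linear_combination hS1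
  have e2 : S2 = μ * (μ - w) * A := by
    have : ((M.descFactorial 2 : ℕ) : ℝ) = M * (M - 1) := by
      have h1 : 1 ≤ M := by exact_mod_cast hM1
      rw [Nat.descFactorial_succ, Nat.descFactorial_one]
      push_cast [Nat.cast_sub h1]
      ring
    rw [this, hMμ] at hS2
    apply mul_right_cancel₀ (pow_ne_zero 2 hQpos.ne')
    rw [hS2]
    have : μ * Q * (μ * Q - 1) = μ * (μ - w) * (Q:ℝ) ^ 2 + μ * Q * (w * Q - 1) := by ring
    rw [this, hwQ]
    ring
  have e3 : S3 = μ * (μ - w) * (μ - 2 * w) * A := by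
    have : ((M.descFactorial 3 : ℕ) : ℝ) = M * (M - 1) * (M - 2) := by
      have h1 : 2 ≤ M := by
        have : (Q:ℝ) ≤ M := by rw [hMμ]; nlinarith
        have : (2:ℝ) ≤ M := by linarith
        exact_mod_cast this
      rw [Nat.descFactorial_succ, Nat.descFactorial_succ, Nat.descFactorial_one]
      have h1' : 1 ≤ M := by omega
      push_cast [Nat.cast_sub h1, Nat.cast_sub h1']
      ring
    rw [this, hMμ] at hS3
    apply mul_right_cancel₀ (pow_ne_zero 3 hQpos.ne')
    rw [hS3]
    have : μ * Q * (μ * Q - 1) * (μ * Q - 2) = μ * (μ - w) * (μ - 2 * w) * (Q:ℝ) ^ 3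
        + (w * Q - 1) * (μ * Q * (3 * μ * Q - 2 * (w * Q) - 2)) := by ring
    rw [this, hwQ]
    ring
  have hApos : (0:ℝ) ≤ A := Nat.cast_nonneg A
  have key : (1:ℝ) ≤ 6 - 6 * μ + 3 * (μ * (μ - w)) - μ * (μ - w) * (μ - 2 * w) := by
    have h1 : 6 - 6 * μ + 3 * (μ * (μ - w)) - μ * (μ - w) * (μ - 2 * w)
        = (6 - 6 * μ + 3 * μ ^ 2 - μ ^ 3) - 3 * μ * w + (3 * μ - 2 * w) * (μ * w) := by ring
    rw [h1]
    have h2 : 0 ≤ (3 * μ - 2 * w) * (μ * w) := by
      apply mul_nonneg
      · nlinarith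
      · positivity
    have h3 : 3 * μ * w ≤ 3 * (1 + 1 / 10) * (1 / 11) := by
      apply mul_le_mul _ hQinv hQinv0.le (by norm_num)
      linarith
    obtain ⟨t, ht⟩ : ∃ t, μ = 1 + t := ⟨μ - 1, by ring⟩
    have ht0 : 0 ≤ t := by linarith
    have ht1 : t ≤ 1 / 10 := by linarith
    have h4 : 6 - 6 * μ + 3 * μ ^ 2 - μ ^ 3 = 2 - 3 * t - t ^ 3 := by rw [ht]; ring
    have h5 : t ^ 3 ≤ (1 / 10) ^ 3 := pow_le_pow_left₀ ht0 ht1 3
    rw [h4]
    linarith
  have hfin : (A:ℝ) ≤ 6 * (univ.filter fun a : ι → Mon ι d → F => nhit y a = 0).card := by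
    refine le_trans ?_ hsum
    rw [e1, e2, e3]
    nlinarith [mul_le_mul_of_nonneg_right key hApos]
  exact_mod_cast hfin

end Pool.Agent.Lib.MP_df4dfc_nt
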