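import Mathlib
import Pool.Agent.Lib.MP_df4dfc_nt.Generic2

/-!
# Counting in boxes with congruence conditions
-/

set_option autoImplicit false
set_option linter.unusedSectionVars false
set_option linter.style.haveILetI false
set_option linter.unusedVariables false

namespace Pool.Agent.Lib.MP_df4dfc_nt

open NumberField IsDedekindDomain Finset Module

section Abstract

variable {I : Type*} [Fintype I] [DecidableEq I] {A : Type*} [AddCommGroup A] [Fintype A] [DecidableEq A]

theorem box_count (ρ : (I → ℤ) →+ A) (hρ : Function.Surjective ρ) (m : ℕ) (hm : 0 < m)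
    (hkill : ∀ x : I → ℤ, ρ (fun i => (m : ℤ) * x i) = 0) (S : Finset A) (B : ℕ) :
    ({x : I → ℤ | (∀ i, |x i| ≤ B) ∧ ρ x ∈ S}.ncard) * Fintype.card A
      ≤ S.card * (2 * B + 1 + m) ^ Fintype.card I := by
  classical
  set t := (2 * B + 1) / m + 1 with ht
  set M := t * m with hM
  have hM1 : 2 * B + 1 < M := by
    have := Nat.lt_div_mul_add (a := 2 * B + 1) hm
    rw [hM, ht, add_mul, one_mul]
    exact this
  have hM2 : M ≤ 2 * B + 1 + m := by
    have := Nat.div_mul_le_self (2 * B + 1) m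
    rw [hM, ht, add_mul, one_mul]
    omega
  haveI : NeZero M := ⟨by omega⟩
  let π : (I → ℤ) →+ (I → ZMod M) :=
    { toFun := fun x i => (x i : ZMod M)
      map_zero' := by funext i; simp
      map_add' := by intro x y; funext i; simp }
  have hπ : Function.Surjective π := by
    intro v
    refine ⟨fun i => ((v i).val : ℤ), ?_⟩
    funext i
    change (((v i).val : ℤ) : ZMod M) = v i
    push_cast
    exact ZMod.natCast_zmod_val (v i)
  have hker : π.ker ≤ ρ.ker := by
    intro x hx
    rw [AddMonoidHom.mem_ker] at hx ⊢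
    have h1 : ∀ i, ∃ c : ℤ, x i = (m : ℤ) * c := by
      intro i
      have h2 : ((x i : ℤ) : ZMod M) = 0 := congrFun hx i
      rw [ZMod.intCast_zmod_eq_zero_iff_dvd] at h2
      obtain ⟨c, hc⟩ := h2
      refine ⟨t * c, ?_⟩
      rw [hc, hM]
      push_cast
      ring
    choose c hc using h1
    have : x = fun i => (m : ℤ) * c i := funext hc
    rw [this]
    exact hkill c
  let ρ' : (I → ZMod M) →+ A := AddMonoidHom.liftOfSurjective π hπ ⟨ρ, hker⟩
  have hρ' : ∀ x, ρ' (π x) = ρ x := fun x =>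
    AddMonoidHom.liftOfRightInverse_comp_apply π _ (Function.rightInverse_surjInv hπ) ⟨ρ, hker⟩ x
  have hρ's : Function.Surjective ρ' := by
    intro a
    obtain ⟨x, hx⟩ := hρ a
    exact ⟨π x, by rw [hρ', hx]⟩
  have h1 := card_preimage ρ' hρ's S
  have h2 : {x : I → ℤ | (∀ i, |x i| ≤ B) ∧ ρ x ∈ S}.ncard ≤ (Finset.univ.filter fun v => ρ' v ∈ S).card := by
    rw [← Set.ncard_coe_finset]
    apply Set.ncard_le_ncard_of_injOn π
    · intro x hx
      rw [Finset.mem_coe, Finset.mem_filter]
      exact ⟨Finset.mem_univ _, by rw [hρ']; exact hx.2⟩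
    · intro x hx y hy hxy
      funext i
      have h3 : ((x i : ℤ) : ZMod M) = ((y i : ℤ) : ZMod M) := congrFun hxy i
      rw [ZMod.intCast_eq_intCast_iff_dvd_sub] at h3
      have h4 := abs_le.1 (hx.1 i)
      have h5 := abs_le.1 (hy.1 i)
      obtain ⟨c, hc⟩ := h3
      have h6 : c = 0 := by
        by_contra hne
        have h7 : 1 ≤ |c| := Int.one_le_abs hne
        have h8 : |y i - x i| ≤ 2 * B := abs_le.2 ⟨by linarith, by linarith⟩
        rw [hc, abs_mul] at h8
        have h9 : (2 * B + 1 : ℤ) < |(M : ℤ)| := by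
          rw [abs_of_nonneg (by positivity)]
          exact_mod_cast hM1
        nlinarith
      rw [h6, mul_zero] at hc
      linarith
  have h3 : Fintype.card (I → ZMod M) = M ^ Fintype.card I := by
    rw [Fintype.card_fun, ZMod.card]
  rw [h3] at h1
  calc _ ≤ (Finset.univ.filter fun v => ρ' v ∈ S).card * Fintype.card A := Nat.mul_le_mul_right _ h2
    _ = S.card * M ^ Fintype.card I := h1
    _ ≤ _ := Nat.mul_le_mul_left _ (Nat.pow_le_pow_left hM2 _)

end Abstract

section NFcount

variable {K : Type*} [Field K] [NumberField K] {κ : Type*} [Fintype κ] [DecidableEq κ] (b : Basis κ ℤ (𝓞 K))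
variable {J : Type*} [Fintype J] [DecidableEq J]

noncomputable instance quotFintype (p : HeightOneSpectrum (𝓞 K)) : Fintype (𝓞 K ⧸ p.asIdeal) :=
  haveI : Finite (𝓞 K ⧸ p.asIdeal) := Ideal.finiteQuotientOfFreeOfNeBot _ p.ne_bot
  Fintype.ofFinite _

open Classical in
theorem box_count_primes (T : Finset (HeightOneSpectrum (𝓞 K)))
    (Bad : ∀ p : T, Finset (J → 𝓞 K ⧸ p.1.asIdeal)) (B : ℕ) :
    ({a : J → 𝓞 K | (∀ j k, |b.repr (a j) k| ≤ B) ∧ ∀ p : T, (fun j => Ideal.Quotient.mk p.1.asIdeal (a j)) ∈ Bad p}.ncard)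
      * (∏ p : T, Fintype.card (J → 𝓞 K ⧸ p.1.asIdeal))
      ≤ (∏ p : T, (Bad p).card) * (2 * B + 1 + ∏ p ∈ T, Ideal.absNorm p.asIdeal) ^ (Fintype.card J * Fintype.card κ) := by
  set m := ∏ p ∈ T, Ideal.absNorm p.asIdeal with hm
  have hmpos : 0 < m := by
    rw [hm]
    apply Finset.prod_pos
    intro p _
    exact Nat.pos_of_ne_zero (by rw [Ne, Ideal.absNorm_eq_zero_iff]; exact p.ne_bot)
  let ρ : (J × κ → ℤ) →+ (∀ p : T, J → 𝓞 K ⧸ p.1.asIdeal) :=
    { toFun := fun x p j => Ideal.Quotient.mk p.1.asIdeal (∑ k, x (j, k) • b k)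
      map_zero' := by funext p j; simp
      map_add' := by
        intro x y
        funext p j
        simp only [Pi.add_apply, add_smul, Finset.sum_add_distrib, map_add] }
  have hrepr : ∀ (a : J → 𝓞 K) (p : T) (j : J), ρ (fun jk => b.repr (a jk.1) jk.2) p j = Ideal.Quotient.mk p.1.asIdeal (a j) := by
    intro a p j
    change Ideal.Quotient.mk p.1.asIdeal (∑ k, b.repr (a j) k • b k) = _
    rw [b.sum_repr]
  have hρ : Function.Surjective ρ := by
    intro y
    have h1 : ∀ j, ∃ r : 𝓞 K, ∀ p : T, Ideal.Quotient.mk p.1.asIdeal r = y p j := by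
      intro j
      apply Ideal.pi_quotient_surjective (I := fun p : T => p.1.asIdeal)
      intro p q hpq
      exact HeightOneSpectrum.isCoprime_of_ne _ _ (fun h => hpq (Subtype.ext h))
    choose r hr using h1
    refine ⟨fun jk => b.repr (r jk.1) jk.2, ?_⟩
    funext p j
    rw [hrepr, hr]
  have hkill : ∀ x : J × κ → ℤ, ρ (fun i => (m : ℤ) * x i) = 0 := by
    intro x
    funext p j
    change Ideal.Quotient.mk p.1.asIdeal (∑ k, ((m : ℤ) * x (j, k)) • b k) = 0
    apply Ideal.Quotient.eq_zero_iff_mem.2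
    have h1 : ∑ k, ((m : ℤ) * x (j, k)) • b k = (m : 𝓞 K) * ∑ k, x (j, k) • b k := by
      rw [Finset.mul_sum]
      apply Finset.sum_congr rfl
      intro k _
      rw [mul_smul]
      simp [zsmul_eq_mul]
    rw [h1]
    apply Ideal.mul_mem_right
    have h2 : (Ideal.absNorm p.1.asIdeal : 𝓞 K) ∣ (m : 𝓞 K) := by
      have : Ideal.absNorm p.1.asIdeal ∣ m := Finset.dvd_prod_of_mem _ p.2
      exact_mod_cast Nat.cast_dvd_cast this
    obtain ⟨c, hc⟩ := h2
    rw [hc]
    exact Ideal.mul_mem_right _ _ (Ideal.absNorm_mem _)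
  have h1 := box_count ρ hρ m hmpos hkill (Fintype.piFinset Bad) B
  rw [Fintype.card_piFinset, Fintype.card_pi, Fintype.card_prod] at h1
  refine le_trans (Nat.mul_le_mul_right _ ?_) h1
  have hfin : {x : J × κ → ℤ | (∀ i, |x i| ≤ B) ∧ ρ x ∈ Fintype.piFinset Bad}.Finite := by
    apply Set.Finite.subset (Set.Finite.pi (t := fun _ : J × κ => Set.Icc (-(B : ℤ)) B) fun _ => Set.finite_Icc _ _)
    rintro x ⟨hx, _⟩ i _
    exact abs_le.1 (hx i)
  refine Set.ncard_le_ncard_of_injOn (fun a : J → 𝓞 K => fun jk : J × κ => b.repr (a jk.1) jk.2) ?_ ?_ hfin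
  · rintro a ⟨ha1, ha2⟩
    refine ⟨fun i => ha1 i.1 i.2, ?_⟩
    rw [Fintype.mem_piFinset]
    intro p
    have : ρ (fun jk => b.repr (a jk.1) jk.2) p = fun j => Ideal.Quotient.mk p.1.asIdeal (a j) := by
      funext j
      exact hrepr a p j
    rw [this]
    exact ha2 p
  · intro a _ a' _ h
    funext j
    apply b.repr.injective
    ext k
    exact congrFun h (j, k)

/-- the number of integral vectors in a box -/
theorem box_card (B : ℕ) : ({a : J → 𝓞 K | ∀ j k, |b.repr (a j) k| ≤ B}.ncard)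
    = (2 * B + 1) ^ (Fintype.card J * Fintype.card κ) := by
  have h1 : {a : J → 𝓞 K | ∀ j k, |b.repr (a j) k| ≤ B}.ncard
      = (Fintype.piFinset fun _ : J × κ => Finset.Icc (-(B : ℤ)) B).card := by
    rw [← Set.ncard_coe_finset]
    apply Set.ncard_congr (fun (a : J → 𝓞 K) _ => fun jk : J × κ => b.repr (a jk.1) jk.2)
    · intro a ha
      rw [Finset.mem_coe, Fintype.mem_piFinset]
      intro i
      rw [Finset.mem_Icc]
      exact abs_le.1 (ha i.1 i.2)
    · intro a a' _ _ h
      funext j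
      apply b.repr.injective
      ext k
      exact congrFun h (j, k)
    · intro x hx
      rw [Finset.mem_coe, Fintype.mem_piFinset] at hx
      refine ⟨fun j => ∑ k, x (j, k) • b k, ?_, ?_⟩
      · intro j k
        have := hx (j, k)
        rw [Finset.mem_Icc] at this
        rw [b.repr_sum_self]
        exact abs_le.2 this
      · funext jk
        obtain ⟨j, k⟩ := jk
        change b.repr (∑ k, x (j, k) • b k) k = x (j, k)
        rw [b.repr_sum_self]
  rw [h1, Fintype.card_piFinset]
  simp only [Int.card_Icc]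
  rw [Finset.prod_const, Finset.card_univ, Fintype.card_prod]
  congr 1
  omega

end NFcount

end Pool.Agent.Lib.MP_df4dfc_nt
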