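import Mathlib
import Pool.Agent.Lib.MP_df4dfc_nt.Generic3

/-!
# Most tuples of forms have no common zero
-/

set_option autoImplicit false
set_option linter.unusedSectionVars false
set_option linter.style.haveILetI false
set_option linter.unusedVariables false

namespace Pool.Agent.Lib.MP_df4dfc_nt

open MvPolynomial NumberField Finset Module

section Mac

variable {ι : Type*} [Fintype ι] [DecidableEq ι]

theorem exists_big_exp {d D : ℕ} (hD : Fintype.card ι * (d - 1) + 1 ≤ D) (μ : Mon ι D) : ∃ i, d ≤ μ.1 i := by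
  by_contra hcon
  push Not at hcon
  have h1 := μ.2
  rw [Finsupp.degree_eq_sum] at h1
  have h2 : ∑ i, μ.1 i ≤ ∑ i : ι, (d - 1) := Finset.sum_le_sum fun i _ => by
    have := hcon i
    omega
  rw [Finset.sum_const, Finset.card_univ, smul_eq_mul] at h2
  omega

/-- a chosen index with a large exponent -/
noncomputable def pick {d D : ℕ} (hD : Fintype.card ι * (d - 1) + 1 ≤ D) (μ : Mon ι D) : ι :=
  (exists_big_exp hD μ).choose

theorem pick_spec {d D : ℕ} (hD : Fintype.card ι * (d - 1) + 1 ≤ D) (μ : Mon ι D) : d ≤ μ.1 (pick hD μ) :=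
  (exists_big_exp hD μ).choose_spec

/-- the shifted exponent -/
noncomputable def shiftExp {d D : ℕ} (hD : Fintype.card ι * (d - 1) + 1 ≤ D) (μ : Mon ι D) : ι →₀ ℕ :=
  μ.1 - Finsupp.single (pick hD μ) d

theorem single_add_shift {d D : ℕ} (hD : Fintype.card ι * (d - 1) + 1 ≤ D) (μ : Mon ι D) :
    Finsupp.single (pick hD μ) d + shiftExp hD μ = μ.1 := by
  unfold shiftExp
  apply add_tsub_cancel_of_le
  rw [Finsupp.single_le_iff]
  exact pick_spec hD μ

/-- the column polynomials -/
noncomputable def colPoly {S : Type*} [CommRing S] {d D : ℕ} (hD : Fintype.card ι * (d - 1) + 1 ≤ D)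
    (a : ι → Mon ι d → S) (μ : Mon ι D) : MvPolynomial ι S :=
  frm1 (a (pick hD μ)) * monomial (shiftExp hD μ) 1

theorem colPoly_homog {S : Type*} [CommRing S] {d D : ℕ} (hD : Fintype.card ι * (d - 1) + 1 ≤ D)
    (a : ι → Mon ι d → S) (μ : Mon ι D) : (colPoly hD a μ).IsHomogeneous D := by
  have h1 := (frm1_homog (a (pick hD μ))).mul (isHomogeneous_monomial (1 : S) (rfl : (shiftExp hD μ).degree = _))
  have h2 : d + (shiftExp hD μ).degree = D := by
    have h3 := congrArg Finsupp.degree (single_add_shift hD μ)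
    rw [map_add, Finsupp.degree_single, μ.2] at h3
    exact h3
  rw [h2] at h1
  exact h1

/-- the Macaulay type matrix -/
noncomputable def mac {S : Type*} [CommRing S] {d D : ℕ} (hD : Fintype.card ι * (d - 1) + 1 ≤ D)
    (a : ι → Mon ι d → S) : Matrix (Mon ι D) (Mon ι D) S :=
  Matrix.of fun ν μ => coeff ν.1 (colPoly hD a μ)

theorem mac_map {S T : Type*} [CommRing S] [CommRing T] {d D : ℕ} (hD : Fintype.card ι * (d - 1) + 1 ≤ D)
    (φ : S →+* T) (a : ι → Mon ι d → S) : (mac hD a).map φ = mac hD (fun i m => φ (a i m)) := by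
  ext ν μ
  simp only [mac, Matrix.map_apply, Matrix.of_apply, colPoly]
  rw [← coeff_map, map_mul, frm1_map, map_monomial, map_one]

open Classical in
theorem mac_pow {S : Type*} [CommRing S] {d D : ℕ} (hD : Fintype.card ι * (d - 1) + 1 ≤ D) :
    mac (S := S) hD (fun i m => if m.1 = Finsupp.single i d then 1 else 0) = 1 := by
  ext ν μ
  simp only [mac, Matrix.of_apply, colPoly]
  have h1 : frm1 (fun m : Mon ι d => if m.1 = Finsupp.single (pick hD μ) d then (1 : S) else 0)
      = monomial (Finsupp.single (pick hD μ) d) 1 := by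
    unfold frm1
    rw [Finset.sum_eq_single (⟨Finsupp.single (pick hD μ) d, by rw [Finsupp.degree_single]⟩ : Mon ι d)]
    · simp only [if_true]
    · intro m _ hm
      have hne : m.1 ≠ Finsupp.single (pick hD μ) d := fun h => hm (Subtype.ext h)
      simp only [if_neg hne, monomial_zero]
    · intro h
      exact absurd (Finset.mem_univ _) h
  rw [h1, monomial_mul, single_add_shift, coeff_monomial, Matrix.one_apply, mul_one]
  by_cases h : ν = μ
  · rw [if_pos (by rw [h]), if_pos h]
  · rw [if_neg (fun h' => h (Subtype.ext h'.symm)), if_neg h]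

/-- value of a homogeneous polynomial as a sum over monomials -/
theorem eval_homog {S : Type*} [CommRing S] {D : ℕ} {P : MvPolynomial ι S} (hP : P.IsHomogeneous D) (y : ι → S) :
    eval y P = ∑ ν : Mon ι D, (∏ i, y i ^ ν.1 i) * coeff ν.1 P := by
  conv_lhs => rw [← frm1_eq hP]
  unfold frm1
  rw [map_sum]
  apply Finset.sum_congr rfl
  intro ν _
  rw [eval_monomial, Finsupp.prod_fintype _ _ (fun i => pow_zero _)]
  ring

theorem nz_of_mac {R Ω : Type*} [CommRing R] [Field Ω] (j : R →+* Ω) {d D : ℕ}
    (hD : Fintype.card ι * (d - 1) + 1 ≤ D) (a : ι → Mon ι d → R) (h : j (mac hD a).det ≠ 0) : NZ j (frm a) := by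
  intro y hy h0
  rw [pev_frm] at h0
  have hdet : (mac hD (fun i m => j (a i m))).det ≠ 0 := by
    rw [← mac_map, ← RingHom.mapMatrix_apply, ← RingHom.map_det]
    exact h
  set r : Mon ι D → Ω := fun ν => ∏ i, y i ^ ν.1 i with hr
  have h1 : Matrix.vecMul r (mac hD (fun i m => j (a i m))) = 0 := by
    funext μ
    rw [Matrix.vecMul, dotProduct, Pi.zero_apply]
    simp only [mac, Matrix.of_apply]
    rw [← eval_homog (colPoly_homog hD _ μ) y]
    unfold colPoly
    rw [map_mul]
    have h2 := congrFun h0 (pick hD μ)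
    simp only [Pi.zero_apply] at h2
    rw [evf_apply] at h2
    rw [h2, zero_mul]
  have h2 := Matrix.eq_zero_of_vecMul_eq_zero hdet h1
  obtain ⟨k, hk⟩ := Function.ne_iff.1 hy
  have h3 := congrFun h2 ⟨Finsupp.single k D, by rw [Finsupp.degree_single]⟩
  rw [hr] at h3
  simp only [Pi.zero_apply] at h3
  rw [Finset.prod_eq_single k] at h3
  · rw [Finsupp.single_eq_same] at h3
    exact hk ((pow_eq_zero_iff (by omega)).1 h3)
  · intro i _ hi
    rw [Finsupp.single_eq_of_ne hi, pow_zero]
  · intro h
    exact absurd (Finset.mem_univ _) h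

/-- the generic determinant -/
noncomputable def genDet (R : Type*) [CommRing R] {d D : ℕ} (hD : Fintype.card ι * (d - 1) + 1 ≤ D) :
    MvPolynomial (ι × Mon ι d) R :=
  (mac hD (fun i m => (X (i, m) : MvPolynomial (ι × Mon ι d) R))).det

theorem genDet_eval (R : Type*) [CommRing R] {d D : ℕ} (hD : Fintype.card ι * (d - 1) + 1 ≤ D)
    (a : ι × Mon ι d → R) : eval a (genDet R hD) = (mac hD (fun i m => a (i, m))).det := by
  unfold genDet
  rw [RingHom.map_det, RingHom.mapMatrix_apply, mac_map]
  simp only [eval_X]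

theorem genDet_ne_zero (R : Type*) [CommRing R] [Nontrivial R] {d D : ℕ} (hD : Fintype.card ι * (d - 1) + 1 ≤ D) :
    genDet (ι := ι) R hD ≠ 0 := by
  classical
  intro h
  have h1 := genDet_eval R hD (fun im : ι × Mon ι d => if im.2.1 = Finsupp.single im.1 d then (1 : R) else 0)
  rw [h, map_zero] at h1
  have h2 := mac_pow (S := R) hD
  rw [h2, Matrix.det_one] at h1
  exact zero_ne_one h1

end Mac

section SZ

/-- Schwartz-Zippel for an arbitrary finite index type -/
theorem sz {R : Type*} [CommRing R] [IsDomain R] [DecidableEq R] {J : Type*} [Fintype J] [DecidableEq J]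
    (p : MvPolynomial J R) (hp : p ≠ 0) (S : Finset R) :
    ((Fintype.piFinset fun _ : J => S).filter fun f => eval f p = 0).card * S.card
      ≤ p.totalDegree * S.card ^ Fintype.card J := by
  classical
  set n := Fintype.card J with hn
  let e : J ≃ Fin n := Fintype.equivFin J
  have hp' : rename e p ≠ 0 := by
    intro h
    exact hp (rename_injective e e.injective (by rw [h, map_zero]))
  rcases S.eq_empty_or_nonempty with hS | hS
  · rw [hS]; simp
  have hScard : 0 < S.card := hS.card_pos
  have h1 := schwartz_zippel_totalDegree hp' S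
  have h2 : (rename e p).totalDegree ≤ p.totalDegree := totalDegree_rename_le e p
  have h3 : ((Fintype.piFinset fun _ : J => S).filter fun f => eval f p = 0).card
      = ((Fintype.piFinset fun _ : Fin n => S).filter fun f => eval f (rename e p) = 0).card := by
    apply Finset.card_bij (fun (f : J → R) _ => fun i => f (e.symm i))
    · intro f hf
      rw [Finset.mem_filter, Fintype.mem_piFinset] at hf ⊢
      refine ⟨fun i => hf.1 _, ?_⟩
      rw [eval_rename]
      have : (fun i => f (e.symm i)) ∘ e = f := by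
        funext i
        simp
      rw [this]
      exact hf.2
    · intro f _ f' _ h
      funext i
      have := congrFun h (e i)
      simpa using this
    · intro g hg
      rw [Finset.mem_filter, Fintype.mem_piFinset] at hg
      refine ⟨fun i => g (e i), ?_, ?_⟩
      · rw [Finset.mem_filter, Fintype.mem_piFinset]
        refine ⟨fun i => hg.1 _, ?_⟩
        have h5 := hg.2
        rw [eval_rename] at h5
        exact h5
      · funext i
        simp
  rw [h3]
  rw [div_le_div_iff₀ (by positivity) (by positivity)] at h1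
  have h4 : (((Fintype.piFinset fun _ : Fin n => S).filter fun f => eval f (rename e p) = 0).card) * S.card
      ≤ (rename e p).totalDegree * S.card ^ n := by exact_mod_cast h1
  exact le_trans h4 (Nat.mul_le_mul_right _ h2)

variable {K : Type*} [Field K] [NumberField K] {κ : Type*} [Fintype κ] [DecidableEq κ] (b : Basis κ ℤ (𝓞 K))
variable {J : Type*} [Fintype J] [DecidableEq J]

theorem zero_count (p : MvPolynomial J (𝓞 K)) (hp : p ≠ 0) (B : ℕ) :
    ({a : J → 𝓞 K | (∀ j k, |b.repr (a j) k| ≤ B) ∧ eval a p = 0}.ncard) * (2 * B + 1)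
      ≤ p.totalDegree * (2 * B + 1) ^ (Fintype.card J * Fintype.card κ) := by
  classical
  haveI : Nonempty κ := b.index_nonempty
  have hfin : {x : 𝓞 K | ∀ k, |b.repr x k| ≤ B}.Finite := by
    apply Set.Finite.of_finite_image (f := fun x : 𝓞 K => fun k => b.repr x k)
    · apply Set.Finite.subset (Set.Finite.pi (t := fun _ : κ => Set.Icc (-(B : ℤ)) B) fun _ => Set.finite_Icc _ _)
      rintro _ ⟨x, hx, rfl⟩ k _
      exact abs_le.1 (hx k)
    · intro x _ y _ h
      apply b.repr.injective
      ext k
      exact congrFun h k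
  set S := hfin.toFinset with hS
  have hScard : S.card = (2 * B + 1) ^ Fintype.card κ := by
    have h1 := box_card b (J := Unit) B
    rw [Fintype.card_unit, one_mul] at h1
    rw [← h1, ← Set.ncard_coe_finset]
    apply Set.ncard_congr (fun (x : 𝓞 K) _ => fun _ : Unit => x)
    · intro x hx j k
      rw [hS, Set.Finite.coe_toFinset] at hx
      exact hx k
    · intro x y _ _ h
      exact congrFun h ()
    · intro f hf
      refine ⟨f (), ?_, ?_⟩
      · rw [hS, Set.Finite.coe_toFinset]
        exact fun k => hf () k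
      · funext u
        rfl
  have h1 := sz p hp S
  have h2 : {a : J → 𝓞 K | (∀ j k, |b.repr (a j) k| ≤ B) ∧ eval a p = 0}
      = (((Fintype.piFinset fun _ : J => S).filter fun f => eval f p = 0 : Finset (J → 𝓞 K)) : Set (J → 𝓞 K)) := by
    ext a
    rw [Finset.mem_coe, Finset.mem_filter, Fintype.mem_piFinset, Set.mem_ofPred_eq, hS]
    simp only [Set.Finite.mem_toFinset, Set.mem_ofPred_eq]
  rw [h2, Set.ncard_coe_finset]
  rw [hScard] at h1
  -- (2B+1) ≤ (2B+1)^κ : divide
  set c := ((Fintype.piFinset fun _ : J => S).filter fun f => eval f p = 0).card with hc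
  calc c * (2 * B + 1) ≤ c * (2 * B + 1) ^ Fintype.card κ :=
        Nat.mul_le_mul_left _ (Nat.le_self_pow Fintype.card_ne_zero _)
    _ ≤ p.totalDegree * ((2 * B + 1) ^ Fintype.card κ) ^ Fintype.card J := h1
    _ = _ := by rw [← pow_mul, mul_comm (Fintype.card κ)]

end SZ

end Pool.Agent.Lib.MP_df4dfc_nt
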