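import Mathlib

set_option autoImplicit false
set_option linter.unusedSectionVars false
set_option linter.unusedVariables false
set_option linter.style.haveILetI false

/-! Determinant-method ingredients for a quantitative Hilbert irreducibility theorem:
nilpotent Hensel lemma along a residue class, and a bound for the number of roots modulo nilpotents. -/

namespace Pool.Agent.Lib.MP_df4dfc_nt

open Polynomial Ideal

/-- specialisation of the inner variable -/
noncomputable abbrev spz {O : Type*} [CommRing O] (F : O[X][X]) (a : O) : O[X] := F.map (evalRingHom a)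

section Hensel

variable {O : Type*} [CommRing O]

theorem isNilpotent_mk_pow {I : Ideal O} {L : ℕ} {a : O} (ha : a ∈ I) :
    IsNilpotent (Ideal.Quotient.mk (I ^ L) a) := by
  refine ⟨L, ?_⟩
  rw [← map_pow, Ideal.Quotient.eq_zero_iff_mem]
  exact Ideal.pow_mem_pow ha L

theorem hensel_class (F : O[X][X]) (p : ℕ) (L : ℕ) (s₀ y₀ u : O)
    (h0 : (spz F s₀).eval y₀ = 0)
    (hu : (p : O) ∣ u * (spz F s₀).derivative.eval y₀ - 1) :
    ∃ H : O[X], ∀ s y : O, (p : O) ∣ s - s₀ → (spz F s).eval y = 0 →
      (∃ k : ℕ, (p : O) ∣ (y - y₀) ^ k) → (p : O) ^ L ∣ y - H.eval (s - s₀) := by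
  classical
  set I : Ideal O[X] := Ideal.span {C (p : O), X} with hI
  have hXI : (X : O[X]) ∈ I := Ideal.subset_span (by simp)
  have hpI : C (p : O) ∈ I := Ideal.subset_span (by simp)
  set sh : O[X] →+* O[X] := eval₂RingHom C (X + C s₀) with hsh
  set π : O[X] →+* O[X] ⧸ (I ^ L) := Ideal.Quotient.mk (I ^ L) with hπ
  set P : (O[X] ⧸ (I ^ L))[X] := F.map (π.comp sh) with hP
  -- evaluation of a specialised polynomial at a constant
  have key : ∀ G : O[X][X], (G.map (π.comp sh)).eval (π (C y₀)) = π ((G.map sh).eval (C y₀)) := by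
    intro G
    rw [← Polynomial.map_map, Polynomial.eval_map, Polynomial.eval₂_at_apply]
  have key2 : ∀ (G : O[X][X]) (s : O), ((G.map sh).eval (C y₀)).eval (s - s₀) = (spz G s).eval y₀ := by
    intro G s
    have h1 : ((G.map sh).eval (C y₀)).eval (s - s₀) =
        ((G.map sh).map (evalRingHom (s - s₀))).eval y₀ := by
      have h2 := Polynomial.eval₂_at_apply (p := G.map sh) (evalRingHom (s - s₀)) (C y₀)
      rw [← Polynomial.eval_map] at h2
      simp only [coe_evalRingHom, eval_C] at h2
      exact h2.symm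
    rw [h1, Polynomial.map_map]
    congr 2
    ext a
    · simp [hsh]
    · simp [hsh]
  have hkey2' : ∀ G : O[X][X], ((G.map sh).eval (C y₀)).eval 0 = (spz G s₀).eval y₀ := by
    intro G
    have := key2 G s₀
    rwa [sub_self] at this
  -- nilpotence
  have hn : IsNilpotent (P.eval (π (C y₀))) := by
    rw [hP, key]
    apply isNilpotent_mk_pow
    have h3 : X ∣ (F.map sh).eval (C y₀) := by
      rw [Polynomial.X_dvd_iff, Polynomial.coeff_zero_eq_eval_zero, hkey2', h0]
    exact Ideal.mem_of_dvd _ h3 hXI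
  have hd : IsUnit (P.derivative.eval (π (C y₀))) := by
    rw [hP, Polynomial.derivative_map, key]
    have h4 : C u * (F.derivative.map sh).eval (C y₀) - 1 ∈ I := by
      have h5 : X ∣ C u * (F.derivative.map sh).eval (C y₀) - C (u * (spz F s₀).derivative.eval y₀) := by
        rw [Polynomial.X_dvd_iff, Polynomial.coeff_zero_eq_eval_zero]
        simp only [eval_sub, eval_mul, eval_C]
        rw [hkey2', spz, spz, Polynomial.derivative_map, sub_self]
      have h6 : C (u * (spz F s₀).derivative.eval y₀) - 1 ∈ I := by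
        obtain ⟨c, hc⟩ := hu
        have : C (u * (spz F s₀).derivative.eval y₀) - 1 = C (p : O) * C c := by
          rw [← C_mul, ← hc, C_sub, C_1]
        rw [this]
        exact I.mul_mem_right _ hpI
      have := I.add_mem (Ideal.mem_of_dvd _ h5 hXI) h6
      convert this using 1
      ring
    have h7 : IsNilpotent (π (C u * (F.derivative.map sh).eval (C y₀) - 1)) := isNilpotent_mk_pow h4
    have h8 : IsUnit (π (C u * (F.derivative.map sh).eval (C y₀))) := by
      have := h7.isUnit_one_add
      rw [← map_one π, ← map_add] at this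
      convert this using 2
      ring
    rw [map_mul] at h8
    exact isUnit_of_mul_isUnit_right h8
  obtain ⟨r, ⟨hr1, hr2⟩, -⟩ := Polynomial.existsUnique_nilpotent_sub_and_aeval_eq_zero
    (R := O[X] ⧸ (I ^ L)) (S := O[X] ⧸ (I ^ L)) (P := P) (x := π (C y₀)) (by simpa [Polynomial.coe_aeval_eq_eval] using hn)
    (by simpa [Polynomial.coe_aeval_eq_eval] using hd)
  obtain ⟨H, rfl⟩ := Ideal.Quotient.mk_surjective r
  refine ⟨H, ?_⟩
  intro s y hs hy hk
  set J : Ideal O := Ideal.span {(p : O)} with hJ
  set π' : O →+* O ⧸ (J ^ L) := Ideal.Quotient.mk (J ^ L) with hπ'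
  have hle : ∀ a ∈ I ^ L, (π'.comp (evalRingHom (s - s₀))) a = 0 := by
    intro a ha
    have h1 : I ≤ J.comap (evalRingHom (s - s₀)) := by
      rw [hI, Ideal.span_le]
      rintro z (rfl | rfl)
      · simp only [SetLike.mem_coe, Ideal.mem_comap, coe_evalRingHom, eval_C]
        exact Ideal.mem_span_singleton_self _
      · simp only [SetLike.mem_coe, Ideal.mem_comap, coe_evalRingHom, eval_X]
        exact Ideal.mem_span_singleton.2 hs
    have h2 : I ^ L ≤ (J ^ L).comap (evalRingHom (s - s₀)) :=
      (Ideal.pow_right_mono h1 L).trans (Ideal.le_comap_pow _ _)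
    have h3 := h2 ha
    rw [Ideal.mem_comap] at h3
    rw [RingHom.comp_apply]
    exact Ideal.Quotient.eq_zero_iff_mem.2 h3
  set ψ : O[X] ⧸ (I ^ L) →+* O ⧸ (J ^ L) := Ideal.Quotient.lift (I ^ L) (π'.comp (evalRingHom (s - s₀))) hle with hψ
  have hψπ : ψ.comp π = π'.comp (evalRingHom (s - s₀)) := by
    ext a
    · simp [hψ, hπ]
    · simp [hψ, hπ]
  have hψH : ∀ a : O[X], ψ (π a) = π' (a.eval (s - s₀)) := by
    intro a
    have := congrArg (fun f => f a) hψπ
    simpa using this
  have hPψ : P.map ψ = (spz F s).map π' := by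
    rw [hP, spz, Polynomial.map_map, Polynomial.map_map]
    congr 1
    ext a
    · simp [hψH, hsh]
    · simp [hψH, hsh]
  have hx : ψ (π (C y₀)) = π' y₀ := by rw [hψH, eval_C]
  have hev : ∀ z, ψ (P.eval z) = ((spz F s).map π').eval (ψ z) := by
    intro z
    rw [← hPψ, Polynomial.eval_map (f := ψ), Polynomial.eval₂_at_apply]
  have hev' : ∀ z, ψ (P.derivative.eval z) = ((spz F s).map π').derivative.eval (ψ z) := by
    intro z
    rw [← hPψ, Polynomial.derivative_map (f := ψ), Polynomial.eval_map (f := ψ), Polynomial.eval₂_at_apply]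
  have e1 : IsNilpotent (((spz F s).map π').eval (π' y₀)) := by
    rw [← hx, ← hev]
    exact hn.map ψ
  have e2 : IsUnit (((spz F s).map π').derivative.eval (π' y₀)) := by
    rw [← hx, ← hev']
    exact hd.map ψ
  obtain ⟨r', -, hr'⟩ := Polynomial.existsUnique_nilpotent_sub_and_aeval_eq_zero
    (R := O ⧸ (J ^ L)) (S := O ⧸ (J ^ L)) (P := (spz F s).map π') (x := π' y₀)
    (by simpa [Polynomial.coe_aeval_eq_eval] using e1)
    (by simpa [Polynomial.coe_aeval_eq_eval] using e2)
  have f1 : π' y = r' := by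
    apply hr'
    refine ⟨?_, ?_⟩
    · obtain ⟨k, hk⟩ := hk
      rw [← map_sub]
      refine ⟨k * L, ?_⟩
      rw [← map_pow, Ideal.Quotient.eq_zero_iff_mem, pow_mul]
      apply Ideal.pow_mem_pow
      rw [Ideal.mem_span_singleton]
      have : (y₀ - y) ^ k = (-1) ^ k * (y - y₀) ^ k := by rw [← mul_pow]; ring
      rw [this]
      exact Dvd.dvd.mul_left hk _
    · rw [Polynomial.coe_aeval_eq_eval, Polynomial.eval_map, Polynomial.eval₂_at_apply, hy, map_zero]
  have f2 : π' (H.eval (s - s₀)) = r' := by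
    apply hr'
    refine ⟨?_, ?_⟩
    · have := hr1.map ψ
      rwa [map_sub, hx, hψH] at this
    · rw [Polynomial.coe_aeval_eq_eval, ← hψH, ← hev]
      rw [Polynomial.coe_aeval_eq_eval] at hr2
      rw [hr2, map_zero]
  have f3 : π' (y - H.eval (s - s₀)) = 0 := by rw [map_sub, f1, f2, sub_self]
  rw [Ideal.Quotient.eq_zero_iff_mem, hJ, Ideal.span_singleton_pow, Ideal.mem_span_singleton] at f3
  exact f3

end Hensel

section Labels

variable {A : Type*} [CommRing A]

/-- the residues of an element at all maximal ideals -/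
noncomputable def lab (a : A) : ∀ m : MaximalSpectrum A, A ⧸ m.asIdeal := fun m => Ideal.Quotient.mk m.asIdeal a

theorem nilp_of_lab [Finite A] {a b : A} (h : lab a = lab b) : IsNilpotent (a - b) := by
  rw [← mem_nilradical, IsArtinianRing.nilradical_eq_iInf, Ideal.mem_iInf]
  intro m
  have := congrFun h m
  unfold lab at this
  exact (Ideal.Quotient.eq).1 this

theorem card_max_le [Finite A] (p κ : ℕ) (hp : p.Prime) (hchar : (p : A) = 0) (hcard : Nat.card A = p ^ κ) :
    Nat.card (MaximalSpectrum A) ≤ κ := by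
  classical
  haveI : Finite (MaximalSpectrum A) := inferInstance
  haveI := Fintype.ofFinite (MaximalSpectrum A)
  have h1 : ∀ m : MaximalSpectrum A, p ≤ Nat.card (A ⧸ m.asIdeal) := by
    intro m
    have hnt := Ideal.Quotient.nontrivial_iff.2 m.isMaximal.ne_top
    have h1 : addOrderOf (1 : A ⧸ m.asIdeal) ∣ p := by
      apply addOrderOf_dvd_of_nsmul_eq_zero
      rw [nsmul_eq_mul, mul_one]
      have : ((p : A) : A ⧸ m.asIdeal) = 0 := by rw [hchar]; exact map_zero (Ideal.Quotient.mk m.asIdeal)
      rw [← this]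
      exact (map_natCast (Ideal.Quotient.mk m.asIdeal) p).symm
    have h2 : addOrderOf (1 : A ⧸ m.asIdeal) = p := by
      rcases (Nat.dvd_prime hp).1 h1 with h | h
      · exact absurd (AddMonoid.addOrderOf_eq_one_iff.1 h) one_ne_zero
      · exact h
    rw [← h2]
    have hfin : Finite (A ⧸ m.asIdeal) := Finite.of_surjective _ (Ideal.Quotient.mk_surjective (I := m.asIdeal))
    exact Nat.le_of_dvd Nat.card_pos (addOrderOf_dvd_natCard _)
  have h2 : ∏ m : MaximalSpectrum A, Nat.card (A ⧸ m.asIdeal) ≤ p ^ κ := by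
    rw [← Nat.card_pi, ← hcard]
    apply Nat.card_le_card_of_surjective (f := (IsArtinianRing.quotNilradicalEquivPi A) ∘ (Ideal.Quotient.mk (nilradical A)))
    exact (IsArtinianRing.quotNilradicalEquivPi A).surjective.comp Ideal.Quotient.mk_surjective
  have h3 : p ^ (Nat.card (MaximalSpectrum A)) ≤ p ^ κ := by
    refine le_trans ?_ h2
    rw [Nat.card_eq_fintype_card, ← Finset.card_univ, ← Finset.prod_const]
    exact Finset.prod_le_prod' (fun m _ => h1 m)
  exact (Nat.pow_le_pow_iff_right hp.one_lt).1 h3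

theorem card_lab_roots [Finite A] (p κ n : ℕ) (hp : p.Prime) (hchar : (p : A) = 0) (hcard : Nat.card A = p ^ κ)
    (Q : A[X]) (hQ : Q.Monic) (hn : 1 ≤ n) (hQn : Q.natDegree ≤ n) :
    ((lab : A → _) '' {a : A | Q.eval a = 0}).ncard ≤ n ^ κ := by
  classical
  haveI := Fintype.ofFinite (MaximalSpectrum A)
  haveI : ∀ m : MaximalSpectrum A, Fact (m.asIdeal.IsMaximal) := fun m => ⟨m.isMaximal⟩
  letI : ∀ m : MaximalSpectrum A, Field (A ⧸ m.asIdeal) := fun m => Ideal.Quotient.field m.asIdeal
  set T : Finset (∀ m : MaximalSpectrum A, A ⧸ m.asIdeal) :=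
    Fintype.piFinset (fun m => (Q.map (Ideal.Quotient.mk m.asIdeal)).roots.toFinset) with hT
  have h1 : ((lab : A → _) '' {a : A | Q.eval a = 0}) ⊆ (T : Set _) := by
    rintro _ ⟨a, ha, rfl⟩
    rw [Finset.mem_coe, hT, Fintype.mem_piFinset]
    intro m
    rw [Multiset.mem_toFinset, Polynomial.mem_roots (hQ.map _).ne_zero, Polynomial.IsRoot.def]
    unfold lab
    rw [Polynomial.eval_map, Polynomial.eval₂_at_apply, ha, map_zero]
  have h2 : ((lab : A → _) '' {a : A | Q.eval a = 0}).ncard ≤ T.card := by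
    rw [← Set.ncard_coe_finset]
    exact Set.ncard_le_ncard h1 (Finset.finite_toSet T)
  refine h2.trans ?_
  rw [hT, Fintype.card_piFinset]
  calc ∏ m : MaximalSpectrum A, (Q.map (Ideal.Quotient.mk m.asIdeal)).roots.toFinset.card
      ≤ ∏ m : MaximalSpectrum A, n := by
        apply Finset.prod_le_prod'
        intro m _
        refine (Multiset.toFinset_card_le _).trans ((Polynomial.card_roots' _).trans ?_)
        exact (Polynomial.natDegree_map_le).trans hQn
    _ = n ^ (Nat.card (MaximalSpectrum A)) := by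
        rw [Finset.prod_const, Finset.card_univ, Nat.card_eq_fintype_card]
    _ ≤ n ^ κ := Nat.pow_le_pow_right hn (card_max_le p κ hp hchar hcard)

end Labels

end Pool.Agent.Lib.MP_df4dfc_nt
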