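import Mathlib
import Pool.Agent.Lib.MP_df4dfc_nt.Hit1

set_option autoImplicit false
set_option linter.unusedSectionVars false
set_option linter.unusedVariables false
set_option linter.style.haveILetI false

/-! Determinant method, pigeonhole step: small linear relations modulo powers of a prime. -/

namespace Pool.Agent.Lib.MP_df4dfc_nt

open Polynomial Finset

section Pigeon

variable {O : Type*} [CommRing O] {κ : Type*} [Fintype κ] (b : Module.Basis κ ℤ O)

/-- polynomial with coefficients given by integer vectors -/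
noncomputable def pol (M : ℕ) (c : Fin (M + 1) × κ → ℤ) : O[X] :=
  ∑ i : Fin (M + 1), monomial (i : ℕ) (∑ k : κ, c (i, k) • b k)

theorem pol_sub (M : ℕ) (c c' : Fin (M + 1) × κ → ℤ) : pol b M (c - c') = pol b M c - pol b M c' := by
  unfold pol
  rw [← Finset.sum_sub_distrib]
  refine Finset.sum_congr rfl fun i _ => ?_
  rw [← map_sub, ← Finset.sum_sub_distrib]
  congr 1
  refine Finset.sum_congr rfl fun k _ => ?_
  rw [Pi.sub_apply, sub_smul]

theorem pol_natDegree (M : ℕ) (c : Fin (M + 1) × κ → ℤ) : (pol b M c).natDegree ≤ M := by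
  unfold pol
  apply Polynomial.natDegree_sum_le_of_forall_le
  intro i _
  exact (natDegree_monomial_le _).trans (Nat.lt_succ_iff.1 i.2)

theorem pol_coeff (M : ℕ) (c : Fin (M + 1) × κ → ℤ) (i : Fin (M + 1)) :
    (pol b M c).coeff i = ∑ k : κ, c (i, k) • b k := by
  classical
  unfold pol
  rw [Polynomial.finsetSum_coeff]
  rw [Finset.sum_eq_single i]
  · simp
  · intro j _ hj
    rw [Polynomial.coeff_monomial, if_neg (fun h => hj (Fin.ext h))]
  · simp

theorem pol_eq_zero (M : ℕ) (c : Fin (M + 1) × κ → ℤ) (h : pol b M c = 0) : c = 0 := by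
  funext ⟨i, k⟩
  have h1 := pol_coeff b M c i
  rw [h, coeff_zero] at h1
  have h2 := b.repr_sum_self (fun k => c (i, k))
  rw [← h1, map_zero] at h2
  have h3 := congrFun h2 k
  simpa using h3.symm

theorem pol_eval (M : ℕ) (c : Fin (M + 1) × κ → ℤ) (a : O) :
    (pol b M c).eval a = ∑ i : Fin (M + 1), (∑ k : κ, c (i, k) • b k) * a ^ (i : ℕ) := by
  unfold pol
  rw [Polynomial.eval_finsetSum]
  refine Finset.sum_congr rfl fun i _ => ?_
  rw [Polynomial.eval_monomial]

theorem dvd_of_repr {a : O} {m : ℤ} (h : ∀ k, m ∣ b.repr a k) : (m : O) ∣ a := by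
  rw [← b.sum_repr a]
  apply Finset.dvd_sum
  intro k _
  obtain ⟨c, hc⟩ := h k
  rw [hc, mul_smul]
  exact ⟨c • b k, by rw [zsmul_eq_mul]⟩

theorem sum_refl (L : ℕ) : 2 * ∑ j ∈ Finset.range L, (L - j) = L * (L + 1) := by
  induction L with
  | zero => simp
  | succ L ih =>
    rw [Finset.sum_range_succ']
    have : ∑ k ∈ Finset.range L, (L + 1 - (k + 1)) = ∑ k ∈ Finset.range L, (L - k) :=
      Finset.sum_congr rfl fun k _ => by omega
    rw [this, mul_add, ih]
    simp only [Nat.sub_zero]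
    ring

theorem box_big (M A Xb B : ℕ) (hX : 1 ≤ Xb) (q : ℕ) (hB : q ^ (2 * M + 3) * Xb ^ (M + A) < B ^ 2) :
    q ^ ((M + 1) * (2 * M + 3)) < ∏ i : Fin (M + 1), ((B / Xb ^ (i : ℕ) + 1) * (B / Xb ^ ((i : ℕ) + A) + 1)) := by
  have h1 : B ^ (2 * (M + 1)) ≤ (∏ i : Fin (M + 1), ((B / Xb ^ (i : ℕ) + 1) * (B / Xb ^ ((i : ℕ) + A) + 1))) *
      Xb ^ ((M + 1) * (M + A)) := by
    have h2 : Xb ^ ((M + 1) * (M + A)) = ∏ i : Fin (M + 1), (Xb ^ (i : ℕ) * Xb ^ ((i : ℕ) + A)) := by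
      have h3 : ∀ i : Fin (M + 1), Xb ^ (i : ℕ) * Xb ^ ((i : ℕ) + A) = Xb ^ (2 * (i : ℕ) + A) := by
        intro i; rw [← pow_add]; congr 1; ring
      rw [Finset.prod_congr rfl (fun i _ => h3 i), Finset.prod_pow_eq_pow_sum]
      congr 1
      rw [Finset.sum_add_distrib, ← Finset.mul_sum, Fin.sum_univ_eq_sum_range (fun j => j) (M + 1),
        mul_comm 2, Finset.sum_range_id_mul_two]
      simp
      ring
    rw [h2, ← Finset.prod_mul_distrib]
    calc B ^ (2 * (M + 1)) = ∏ i : Fin (M + 1), (B * B) := by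
          rw [Finset.prod_const, Finset.card_univ, Fintype.card_fin, ← sq, ← pow_mul]
      _ ≤ _ := by
          apply Finset.prod_le_prod'
          intro i _
          have e1 := (Nat.lt_mul_div_succ B (show 0 < Xb ^ (i : ℕ) by positivity)).le
          have e2 := (Nat.lt_mul_div_succ B (show 0 < Xb ^ ((i : ℕ) + A) by positivity)).le
          calc B * B ≤ (Xb ^ (i : ℕ) * (B / Xb ^ (i : ℕ) + 1)) * (Xb ^ ((i : ℕ) + A) * (B / Xb ^ ((i : ℕ) + A) + 1)) :=
                Nat.mul_le_mul e1 e2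
            _ = _ := by ring
  have h4 : q ^ ((M + 1) * (2 * M + 3)) * Xb ^ ((M + 1) * (M + A)) < B ^ (2 * (M + 1)) := by
    have := Nat.pow_lt_pow_left hB (Nat.succ_ne_zero M)
    calc q ^ ((M + 1) * (2 * M + 3)) * Xb ^ ((M + 1) * (M + A)) = (q ^ (2 * M + 3) * Xb ^ (M + A)) ^ (M + 1) := by
          rw [mul_pow, ← pow_mul, ← pow_mul, mul_comm (2 * M + 3), mul_comm (M + A)]
      _ < (B ^ 2) ^ (M + 1) := this
      _ = B ^ (2 * (M + 1)) := by rw [← pow_mul]
  exact lt_of_mul_lt_mul_right (h4.trans_le h1) (Nat.zero_le _)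

/-- The pigeonhole step. -/
theorem pigeon (p : ℕ) (hp : 2 ≤ p) (M A Xb B : ℕ) (hX : 1 ≤ Xb)
    (hB : p ^ (2 * M + 3) * Xb ^ (M + A) < B ^ 2) [Nonempty κ]
    (H : O[X]) (s₀ : O) :
    ∃ c₀ c₁ : Fin (M + 1) × κ → ℤ, ¬ (c₀ = 0 ∧ c₁ = 0) ∧
      (∀ i k, |c₀ (i, k)| ≤ (B / Xb ^ (i : ℕ) : ℕ)) ∧ (∀ i k, |c₁ (i, k)| ≤ (B / Xb ^ ((i : ℕ) + A) : ℕ)) ∧
      ∀ j < 2 * (M + 1), (p : O) ^ (2 * (M + 1) - j) ∣
        ((pol b M c₀).comp (X + C s₀) + (pol b M c₁).comp (X + C s₀) * H).coeff j := by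
  classical
  set L := 2 * (M + 1) with hL
  -- the linear map
  set Λ : (Fin (M + 1) × κ → ℤ) → (Fin (M + 1) × κ → ℤ) → O[X] := fun c c' =>
    (pol b M c).comp (X + C s₀) + (pol b M c').comp (X + C s₀) * H with hΛ
  have hΛsub : ∀ c₀ c₁ d₀ d₁, Λ (c₀ - d₀) (c₁ - d₁) = Λ c₀ c₁ - Λ d₀ d₁ := by
    intro c₀ c₁ d₀ d₁
    simp only [hΛ, pol_sub, sub_comp]
    ring
  -- box and target
  set β : Bool × (Fin (M + 1) × κ) → ℕ := fun q => if q.1 then B / Xb ^ ((q.2.1 : ℕ) + A) else B / Xb ^ (q.2.1 : ℕ) with hβ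
  set S : Finset (Bool × (Fin (M + 1) × κ) → ℤ) := Fintype.piFinset (fun q => Finset.Icc (0 : ℤ) (β q)) with hS
  set T : Finset (Fin L × κ → ℤ) := Fintype.piFinset (fun q => Finset.Ico (0 : ℤ) ((p : ℤ) ^ (L - (q.1 : ℕ)))) with hT
  set f : (Bool × (Fin (M + 1) × κ) → ℤ) → (Fin L × κ → ℤ) := fun c q =>
    (b.repr ((Λ (fun r => c (false, r)) (fun r => c (true, r))).coeff q.1) q.2) % ((p : ℤ) ^ (L - (q.1 : ℕ))) with hf
  have hmaps : ∀ c ∈ S, f c ∈ T := by
    intro c _
    rw [hT, Fintype.mem_piFinset]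
    intro q
    rw [Finset.mem_Ico]
    have hpos : (0 : ℤ) < (p : ℤ) ^ (L - (q.1 : ℕ)) := by positivity
    exact ⟨Int.emod_nonneg _ hpos.ne', Int.emod_lt_of_pos _ hpos⟩
  have hcardS : S.card = ∏ q : Bool × (Fin (M + 1) × κ), (β q + 1) := by
    rw [hS, Fintype.card_piFinset]
    refine Finset.prod_congr rfl fun q _ => ?_
    simp
  have hcardT : T.card = p ^ ((M + 1) * (2 * M + 3) * Fintype.card κ) := by
    rw [hT, Fintype.card_piFinset]
    have h1 : ∀ q : Fin L × κ, (Finset.Ico (0 : ℤ) ((p : ℤ) ^ (L - (q.1 : ℕ)))).card = p ^ (L - (q.1 : ℕ)) := by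
      intro q
      rw [Int.card_Ico, sub_zero]
      have : ((p : ℤ) ^ (L - (q.1 : ℕ))) = ((p ^ (L - (q.1 : ℕ)) : ℕ) : ℤ) := by push_cast; rfl
      rw [this, Int.toNat_natCast]
    rw [Finset.prod_congr rfl (fun q _ => h1 q), Fintype.prod_prod_type]
    simp only [Finset.prod_const, Finset.card_univ]
    rw [Finset.prod_pow, Finset.prod_pow_eq_pow_sum, ← pow_mul]
    congr 2
    rw [Fin.sum_univ_eq_sum_range (fun j => L - j) L]
    have := sum_refl L
    rw [hL] at this ⊢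
    nlinarith
  have hlt : T.card < S.card := by
    have h1 := box_big M A Xb B hX p hB
    have h2 : S.card = (∏ i : Fin (M + 1), ((B / Xb ^ (i : ℕ) + 1) * (B / Xb ^ ((i : ℕ) + A) + 1))) ^ Fintype.card κ := by
      rw [hcardS, Fintype.prod_prod_type, Fintype.prod_bool, Fintype.prod_prod_type, Fintype.prod_prod_type,
        Finset.prod_mul_distrib, mul_pow, mul_comm]
      simp only [hβ, Bool.false_eq_true, if_false, if_true, Finset.prod_const, Finset.card_univ, Finset.prod_pow]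
    rw [hcardT, h2, pow_mul]
    exact Nat.pow_lt_pow_left h1 Fintype.card_ne_zero
  obtain ⟨c, hc, d, hd, hne, hcd⟩ := Finset.exists_ne_map_eq_of_card_lt_of_maps_to hlt hmaps
  refine ⟨(fun r => c (false, r)) - (fun r => d (false, r)), (fun r => c (true, r)) - (fun r => d (true, r)), ?_, ?_, ?_, ?_⟩
  · rintro ⟨h1, h2⟩
    apply hne
    funext ⟨q, r⟩
    cases q
    · have := congrFun h1 r
      simp only [Pi.sub_apply, Pi.zero_apply] at this
      exact sub_eq_zero.1 this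
    · have := congrFun h2 r
      simp only [Pi.sub_apply, Pi.zero_apply] at this
      exact sub_eq_zero.1 this
  · intro i k
    rw [hS, Fintype.mem_piFinset] at hc hd
    have h1 := hc (false, (i, k))
    have h2 := hd (false, (i, k))
    rw [Finset.mem_Icc] at h1 h2
    simp only [hβ, Bool.false_eq_true, if_false] at h1 h2
    simp only [Pi.sub_apply]
    rw [abs_le]
    constructor <;> linarith [h1.1, h1.2, h2.1, h2.2]
  · intro i k
    rw [hS, Fintype.mem_piFinset] at hc hd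
    have h1 := hc (true, (i, k))
    have h2 := hd (true, (i, k))
    rw [Finset.mem_Icc] at h1 h2
    simp only [hβ, if_true] at h1 h2
    simp only [Pi.sub_apply]
    rw [abs_le]
    constructor <;> linarith [h1.1, h1.2, h2.1, h2.2]
  · intro j hj
    have h1 : ∀ k, ((p : ℤ) ^ (L - j)) ∣ b.repr ((Λ ((fun r => c (false, r)) - (fun r => d (false, r)))
        ((fun r => c (true, r)) - (fun r => d (true, r)))).coeff j) k := by
      intro k
      have h2 := congrFun hcd (⟨j, hj⟩, k)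
      simp only [hf] at h2
      rw [hΛsub, coeff_sub, map_sub, Finsupp.sub_apply]
      exact (show Int.ModEq _ _ _ from h2).symm.dvd
    have h3 := dvd_of_repr b h1
    push_cast at h3
    exact h3

end Pigeon

end Pool.Agent.Lib.MP_df4dfc_nt
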