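import Mathlib
import Pool.Agent.Lib.MP_df4dfc_nt.Hit2

set_option autoImplicit false
set_option linter.unusedSectionVars false
set_option linter.unusedVariables false
set_option linter.style.haveILetI false

/-! Determinant method over the ring of integers of a number field. -/

namespace Pool.Agent.Lib.MP_df4dfc_nt

open Polynomial Finset NumberField

variable {K : Type*} [Field K] [NumberField K]

/-- house of an integer -/
noncomputable abbrev hs (a : 𝓞 K) : ℝ := house (algebraMap (𝓞 K) K a)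

theorem hs_dvd {p L : ℕ} {a : 𝓞 K} (ha : a ≠ 0) (h : (p : 𝓞 K) ^ L ∣ a) : (p : ℝ) ^ L ≤ hs a := by
  obtain ⟨c, rfl⟩ := h
  have hc : c ≠ 0 := fun h => ha (by rw [h, mul_zero])
  have h1 : hs ((p : 𝓞 K) ^ L * c) = (p : ℝ) ^ L * hs c := by
    unfold hs
    have : algebraMap (𝓞 K) K ((p : 𝓞 K) ^ L * c) = ((p ^ L : ℕ) : K) * algebraMap (𝓞 K) K c := by
      rw [map_mul, map_pow, map_natCast]; push_cast; rfl
    rw [this, house_nat_mul]
    push_cast
    rfl
  rw [h1]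
  have h2 : 1 ≤ hs c := one_le_house_of_isIntegral (RingOfIntegers.isIntegral_coe c)
    (fun h => hc (RingOfIntegers.coe_injective (h.trans (map_zero _).symm)))
  have h3 : (0 : ℝ) ≤ (p : ℝ) ^ L := by positivity
  nlinarith

section Bound

variable {κ : Type*} [Fintype κ] (b : Module.Basis κ ℤ (𝓞 K))

theorem hs_sum_smul (c : κ → ℤ) (m : ℝ) (hm : ∀ k, (|c k| : ℝ) ≤ m) :
    hs (∑ k, c k • b k) ≤ m * ∑ k, hs (b k) := by
  unfold hs
  have : algebraMap (𝓞 K) K (∑ k, c k • b k) = ∑ k, ((c k : K) * algebraMap (𝓞 K) K (b k)) := by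
    rw [map_sum]
    refine Finset.sum_congr rfl fun k _ => ?_
    rw [zsmul_eq_mul, map_mul, map_intCast]
  rw [this, Finset.mul_sum]
  refine (house_sum_le_sum_house _ _).trans (Finset.sum_le_sum fun k _ => ?_)
  refine (house_mul_le _ _).trans ?_
  rw [house_intCast]
  have h1 := hm k
  exact mul_le_mul_of_nonneg_right (by exact_mod_cast h1) (house_nonneg _)

theorem hs_pol_eval (M : ℕ) (c : Fin (M + 1) × κ → ℤ) (B Xb e : ℕ) (hX : 1 ≤ Xb)
    (hc : ∀ i k, |c (i, k)| ≤ (B / Xb ^ ((i : ℕ) + e) : ℕ)) (s : ℤ) (hsx : |s| ≤ Xb) :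
    hs ((pol b M c).eval (s : 𝓞 K)) * (Xb : ℝ) ^ e ≤ (M + 1) * (∑ k, hs (b k)) * B := by
  rw [pol_eval]
  set Cb := ∑ k, hs (b k) with hCb
  have hCb0 : 0 ≤ Cb := Finset.sum_nonneg fun k _ => house_nonneg _
  have h1 : hs (∑ i : Fin (M + 1), (∑ k : κ, c (i, k) • b k) * (s : 𝓞 K) ^ (i : ℕ)) ≤
      ∑ i : Fin (M + 1), ((B / Xb ^ ((i : ℕ) + e) : ℕ) : ℝ) * Cb * (Xb : ℝ) ^ (i : ℕ) := by
    unfold hs
    rw [map_sum]
    refine (house_sum_le_sum_house _ _).trans (Finset.sum_le_sum fun i _ => ?_)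
    rw [map_mul]
    refine (house_mul_le _ _).trans ?_
    have h2 := hs_sum_smul b (fun k => c (i, k)) ((B / Xb ^ ((i : ℕ) + e) : ℕ) : ℝ) (fun k => by
      have := (Int.cast_le (R := ℝ)).2 (hc i k)
      rwa [Int.cast_natCast, Int.cast_abs] at this)
    have h3 : house (algebraMap (𝓞 K) K ((s : 𝓞 K) ^ (i : ℕ))) ≤ (Xb : ℝ) ^ (i : ℕ) := by
      rw [map_pow]
      refine (house_pow_le _ _).trans ?_
      have : house (algebraMap (𝓞 K) K (s : 𝓞 K)) ≤ Xb := by
        rw [map_intCast, house_intCast]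
        exact_mod_cast hsx
      exact pow_le_pow_left₀ (house_nonneg _) this _
    exact mul_le_mul h2 h3 (house_nonneg _) (by positivity)
  calc hs (∑ i : Fin (M + 1), (∑ k : κ, c (i, k) • b k) * (s : 𝓞 K) ^ (i : ℕ)) * (Xb : ℝ) ^ e
      ≤ (∑ i : Fin (M + 1), ((B / Xb ^ ((i : ℕ) + e) : ℕ) : ℝ) * Cb * (Xb : ℝ) ^ (i : ℕ)) * (Xb : ℝ) ^ e :=
        mul_le_mul_of_nonneg_right h1 (by positivity)
    _ = ∑ i : Fin (M + 1), (((B / Xb ^ ((i : ℕ) + e) : ℕ) : ℝ) * (Xb : ℝ) ^ ((i : ℕ) + e)) * Cb := by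
        rw [Finset.sum_mul]
        refine Finset.sum_congr rfl fun i _ => ?_
        rw [pow_add]; ring
    _ ≤ ∑ i : Fin (M + 1), (B : ℝ) * Cb := by
        refine Finset.sum_le_sum fun i _ => mul_le_mul_of_nonneg_right ?_ hCb0
        have := Nat.div_mul_le_self B (Xb ^ ((i : ℕ) + e))
        exact_mod_cast this
    _ = (M + 1) * Cb * B := by
        rw [Finset.sum_const, Finset.card_univ, Fintype.card_fin]
        simp
        ring

end Bound

section Class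

variable {κ : Type*} [Fintype κ] [Nonempty κ] (b : Module.Basis κ ℤ (𝓞 K))

theorem class_relation (F : (𝓞 K)[X][X]) (p : ℕ) (hp : 2 ≤ p) (M A Xb B : ℕ) (hX : 1 ≤ Xb) (Cy : ℝ) (hCy : 0 ≤ Cy)
    (hB : p ^ (2 * M + 3) * Xb ^ (M + A) < B ^ 2)
    (hval : (M + 1) * (∑ k, hs (b k)) * B * (1 + Cy) < (p : ℝ) ^ (2 * (M + 1)))
    (s₀ : ℤ) (y₀ u : 𝓞 K) (h0 : (spz F (s₀ : 𝓞 K)).eval y₀ = 0)
    (hu : (p : 𝓞 K) ∣ u * (spz F (s₀ : 𝓞 K)).derivative.eval y₀ - 1) :
    ∃ g₀ g₁ : (𝓞 K)[X], ¬ (g₀ = 0 ∧ g₁ = 0) ∧ g₀.natDegree ≤ M ∧ g₁.natDegree ≤ M ∧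
      ∀ (s : ℤ) (y : 𝓞 K), |s| ≤ Xb → (spz F (s : 𝓞 K)).eval y = 0 → hs y ≤ Cy * (Xb : ℝ) ^ A →
        (p : ℤ) ∣ s - s₀ → (∃ k : ℕ, (p : 𝓞 K) ∣ (y - y₀) ^ k) →
        g₀.eval (s : 𝓞 K) + g₁.eval (s : 𝓞 K) * y = 0 := by
  obtain ⟨H, hH⟩ := hensel_class F p (2 * (M + 1)) (s₀ : 𝓞 K) y₀ u h0 hu
  obtain ⟨c₀, c₁, hne, hb0, hb1, hdiv⟩ := pigeon b p hp M A Xb B hX hB H (s₀ : 𝓞 K)
  refine ⟨pol b M c₀, pol b M c₁, ?_, pol_natDegree b M c₀, pol_natDegree b M c₁, ?_⟩
  · rintro ⟨h1, h2⟩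
    exact hne ⟨pol_eq_zero b M c₀ h1, pol_eq_zero b M c₁ h2⟩
  intro s y hsX hy hyb hps hk
  have hps' : (p : 𝓞 K) ∣ (s : 𝓞 K) - (s₀ : 𝓞 K) := by
    have := map_dvd (Int.castRingHom (𝓞 K)) hps
    simpa using this
  by_contra hcon
  -- divisibility
  have d1 : (p : 𝓞 K) ^ (2 * (M + 1)) ∣ y - H.eval ((s : 𝓞 K) - (s₀ : 𝓞 K)) := hH _ _ hps' hy hk
  have d2 : (p : 𝓞 K) ^ (2 * (M + 1)) ∣ (pol b M c₀).eval (s : 𝓞 K) +
      (pol b M c₁).eval (s : 𝓞 K) * H.eval ((s : 𝓞 K) - (s₀ : 𝓞 K)) := by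
    set Q := (pol b M c₀).comp (X + C (s₀ : 𝓞 K)) + (pol b M c₁).comp (X + C (s₀ : 𝓞 K)) * H with hQ
    have e1 : Q.eval ((s : 𝓞 K) - (s₀ : 𝓞 K)) = (pol b M c₀).eval (s : 𝓞 K) +
        (pol b M c₁).eval (s : 𝓞 K) * H.eval ((s : 𝓞 K) - (s₀ : 𝓞 K)) := by
      rw [hQ]
      simp [eval_comp]
    rw [← e1, Polynomial.eval_eq_sum_range]
    apply Finset.dvd_sum
    intro j _
    rcases lt_or_ge j (2 * (M + 1)) with hj | hj
    · have := mul_dvd_mul (hdiv j hj) (pow_dvd_pow_of_dvd hps' j)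
      rwa [← pow_add, Nat.sub_add_cancel hj.le] at this
    · exact Dvd.dvd.mul_left ((pow_dvd_pow _ hj).trans (pow_dvd_pow_of_dvd hps' j)) _
  have d3 : (p : 𝓞 K) ^ (2 * (M + 1)) ∣ (pol b M c₀).eval (s : 𝓞 K) + (pol b M c₁).eval (s : 𝓞 K) * y := by
    have := dvd_add d2 (Dvd.dvd.mul_left d1 ((pol b M c₁).eval (s : 𝓞 K)))
    convert this using 1
    ring
  have h5 := hs_dvd hcon d3
  have h6 : hs ((pol b M c₀).eval (s : 𝓞 K) + (pol b M c₁).eval (s : 𝓞 K) * y) ≤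
      (M + 1) * (∑ k, hs (b k)) * B * (1 + Cy) := by
    have e0 := hs_pol_eval b M c₀ B Xb 0 hX (by simpa using hb0) s hsX
    have e1 := hs_pol_eval b M c₁ B Xb A hX hb1 s hsX
    rw [pow_zero, mul_one] at e0
    have e2 : hs ((pol b M c₀).eval (s : 𝓞 K) + (pol b M c₁).eval (s : 𝓞 K) * y) ≤
        hs ((pol b M c₀).eval (s : 𝓞 K)) + hs ((pol b M c₁).eval (s : 𝓞 K)) * hs y := by
      unfold hs
      rw [map_add, map_mul]
      exact (house_add_le _ _).trans (add_le_add le_rfl (house_mul_le _ _))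
    have e3 : hs ((pol b M c₁).eval (s : 𝓞 K)) * hs y ≤
        Cy * ((M + 1) * (∑ k, hs (b k)) * B) := by
      calc hs ((pol b M c₁).eval (s : 𝓞 K)) * hs y ≤ hs ((pol b M c₁).eval (s : 𝓞 K)) * (Cy * (Xb : ℝ) ^ A) :=
            mul_le_mul_of_nonneg_left hyb (house_nonneg _)
        _ = Cy * (hs ((pol b M c₁).eval (s : 𝓞 K)) * (Xb : ℝ) ^ A) := by ring
        _ ≤ _ := mul_le_mul_of_nonneg_left e1 hCy
    linarith
  linarith

/-- `y` is the value at `s` of a polynomial root. -/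
def PolyTypeLine (F : (𝓞 K)[X][X]) (s : ℤ) (y : 𝓞 K) : Prop :=
  ∃ r : K[X], (F.map (mapRingHom (algebraMap (𝓞 K) K))).eval r = 0 ∧ r.eval (s : K) = algebraMap (𝓞 K) K y

theorem class_count (F : (𝓞 K)[X][X]) (hF : F.Monic) (δ M : ℕ) (hδ : ∀ i, (F.coeff i).natDegree ≤ δ)
    (g₀ g₁ : (𝓞 K)[X]) (hg : ¬ (g₀ = 0 ∧ g₁ = 0)) (hd0 : g₀.natDegree ≤ M) (hd1 : g₁.natDegree ≤ M)
    (S : Finset ℤ) (hS : ∀ s ∈ S, ∃ y : 𝓞 K, (spz F (s : 𝓞 K)).eval y = 0 ∧
      g₀.eval (s : 𝓞 K) + g₁.eval (s : 𝓞 K) * y = 0 ∧ ¬ PolyTypeLine F s y) :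
    S.card ≤ δ + (F.natDegree + 1) * M := by
  classical
  have hroots : ∀ (Q : (𝓞 K)[X]), Q ≠ 0 → (∀ s ∈ S, Q.eval (s : 𝓞 K) = 0) → S.card ≤ Q.natDegree := by
    intro Q hQ h
    have h1 : (S.image (fun s : ℤ => (s : 𝓞 K))).card = S.card :=
      Finset.card_image_of_injective _ Int.cast_injective
    rw [← h1]
    refine le_trans (Finset.card_le_card ?_) ((Multiset.toFinset_card_le Q.roots).trans (Polynomial.card_roots' Q))
    intro a ha
    obtain ⟨s, hs, rfl⟩ := Finset.mem_image.1 ha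
    rw [Multiset.mem_toFinset, Polynomial.mem_roots hQ]
    exact h s hs
  set n := F.natDegree with hn
  set R : (𝓞 K)[X] := (scaleRoots F g₁).eval (-g₀) with hR
  have hRs : ∀ s ∈ S, R.eval (s : 𝓞 K) = 0 := by
    intro s hs
    obtain ⟨y, hy, hgy, -⟩ := hS s hs
    have e1 : R.eval (s : 𝓞 K) = (scaleRoots (spz F (s : 𝓞 K)) (g₁.eval (s : 𝓞 K))).eval ((-g₀).eval (s : 𝓞 K)) := by
      have h2 := Polynomial.map_scaleRoots F g₁ (evalRingHom (s : 𝓞 K)) (by rw [hF.leadingCoeff, map_one]; exact one_ne_zero)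
      have h3 := Polynomial.eval₂_at_apply (p := scaleRoots F g₁) (evalRingHom (s : 𝓞 K)) (-g₀)
      rw [← Polynomial.eval_map, h2] at h3
      simp only [coe_evalRingHom] at h3
      rw [hR]
      exact h3.symm
    have e2 : (-g₀).eval (s : 𝓞 K) = g₁.eval (s : 𝓞 K) * y := by
      rw [eval_neg]
      linear_combination -hgy
    rw [e1, e2]
    have e3 := Polynomial.scaleRoots_eval₂_mul (p := spz F (s : 𝓞 K)) (RingHom.id _) y (g₁.eval (s : 𝓞 K))
    simp only [RingHom.id_apply] at e3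
    rw [Polynomial.eval₂_id, Polynomial.eval₂_id, hy, mul_zero] at e3
    exact e3
  by_cases hR0 : R = 0
  · -- polynomial root
    have hg1 : g₁ ≠ 0 := by
      intro h
      rw [hR, h] at hR0
      have h1 : (scaleRoots F (0 : (𝓞 K)[X])).eval (-g₀) = (-g₀) ^ n := by
        rw [Polynomial.eval_eq_sum_range, Polynomial.natDegree_scaleRoots, Finset.sum_range_succ,
          Finset.sum_eq_zero, zero_add, Polynomial.coeff_scaleRoots]
        · rw [← hn, Nat.sub_self, pow_zero, mul_one, hF.coeff_natDegree, one_mul]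
        · intro i hi
          rw [Polynomial.coeff_scaleRoots, zero_pow, mul_zero, zero_mul]
          rw [Finset.mem_range] at hi
          omega
      rw [h1] at hR0
      have h2 : g₀ = 0 := by
        by_cases hn0 : n = 0
        · rw [hn0, pow_zero] at hR0
          exact absurd hR0 one_ne_zero
        · have := (pow_eq_zero_iff hn0).1 hR0
          exact neg_eq_zero.1 this
      exact hg ⟨h2, h⟩
    set j : (𝓞 K)[X] →+* K[X] := mapRingHom (algebraMap (𝓞 K) K) with hj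
    have hjinj : Function.Injective j := Polynomial.map_injective _ RingOfIntegers.coe_injective
    set ι : K[X] →+* FractionRing K[X] := algebraMap K[X] (FractionRing K[X]) with hι
    have hιinj : Function.Injective ι := IsFractionRing.injective _ _
    have hne : ι (j g₁) ≠ 0 := by
      intro h
      apply hg1
      apply hjinj
      rw [map_zero]
      apply hιinj
      rw [h, map_zero]
    have hroot : eval₂ (ι.comp j) (ι (j (-g₀)) / ι (j g₁)) F = 0 := by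
      have e1 := Polynomial.scaleRoots_eval₂_mul (p := F) (ι.comp j) (ι (j (-g₀)) / ι (j g₁)) g₁
      rw [RingHom.comp_apply, mul_div_cancel₀ _ hne] at e1
      have e2 : eval₂ (ι.comp j) (ι (j (-g₀))) (scaleRoots F g₁) = ι (j R) := by
        rw [hR]
        exact Polynomial.eval₂_at_apply (ι.comp j) (-g₀)
      rw [e2, hR0, map_zero, map_zero] at e1
      exact (mul_eq_zero.1 e1.symm).resolve_left (pow_ne_zero _ hne)
    have hroot' : aeval (ι (j (-g₀)) / ι (j g₁)) (F.map j) = 0 := by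
      rw [Polynomial.aeval_def, Polynomial.eval₂_map]
      exact hroot
    obtain ⟨q, hq⟩ := isInteger_of_is_root_of_monic (hF.map j) hroot'
    have hq0 : (F.map j).eval q = 0 := by
      apply hιinj
      rw [map_zero, ← hroot', ← hq, Polynomial.aeval_algebraMap_apply, Polynomial.coe_aeval_eq_eval]
    have hqg : j (-g₀) = j g₁ * q := by
      apply hιinj
      rw [map_mul]
      have : ι q = ι (j (-g₀)) / ι (j g₁) := hq
      rw [this, mul_div_cancel₀ _ hne]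
    have h4 : S.card ≤ g₁.natDegree := by
      apply hroots g₁ hg1
      intro s hs
      by_contra hgs
      obtain ⟨y, hy, hgy, hnp⟩ := hS s hs
      apply hnp
      refine ⟨q, hq0, ?_⟩
      have e1 := congrArg (fun z => z.eval (s : K)) hqg
      simp only [eval_mul] at e1
      have e2 : ∀ g : (𝓞 K)[X], (j g).eval (s : K) = algebraMap (𝓞 K) K (g.eval (s : 𝓞 K)) := by
        intro g
        rw [hj, coe_mapRingHom, Polynomial.eval_map, ← map_intCast (algebraMap (𝓞 K) K) s,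
          Polynomial.eval₂_at_apply]
      rw [e2, e2] at e1
      have e3 : algebraMap (𝓞 K) K ((-g₀).eval (s : 𝓞 K)) =
          algebraMap (𝓞 K) K (g₁.eval (s : 𝓞 K)) * algebraMap (𝓞 K) K y := by
        rw [← map_mul, eval_neg]
        congr 1
        linear_combination -hgy
      rw [e3] at e1
      have e4 : algebraMap (𝓞 K) K (g₁.eval (s : 𝓞 K)) ≠ 0 := fun h => hgs (RingOfIntegers.coe_injective (h.trans (map_zero _).symm))
      exact (mul_left_cancel₀ e4 e1).symm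
    nlinarith
  · have h5 := hroots R hR0 hRs
    refine h5.trans ?_
    rw [hR, Polynomial.eval_eq_sum_range, Polynomial.natDegree_scaleRoots]
    apply Polynomial.natDegree_sum_le_of_forall_le
    intro i hi
    rw [Finset.mem_range] at hi
    rw [Polynomial.coeff_scaleRoots]
    refine (Polynomial.natDegree_mul_le).trans ?_
    have e1 : (F.coeff i * g₁ ^ (F.natDegree - i)).natDegree ≤ δ + (F.natDegree - i) * M :=
      (Polynomial.natDegree_mul_le).trans (add_le_add (hδ i) ((Polynomial.natDegree_pow_le).trans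
        (Nat.mul_le_mul_left _ hd1)))
    have e2 : ((-g₀) ^ i).natDegree ≤ i * M := by
      refine (Polynomial.natDegree_pow_le).trans ?_
      rw [natDegree_neg]
      exact Nat.mul_le_mul_left _ hd0
    have e3 : (F.natDegree - i) * M + i * M = F.natDegree * M := by
      rw [← add_mul]; congr 1; omega
    rw [← hn] at *
    nlinarith

end Class

end Pool.Agent.Lib.MP_df4dfc_nt
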