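import Mathlib
import Pool.Agent.Lib.MP_df4dfc_nt.Hit3

set_option autoImplicit false
set_option linter.unusedSectionVars false
set_option linter.unusedVariables false
set_option linter.style.haveILetI false

/-! Determinant method: counting over all residue classes. -/

namespace Pool.Agent.Lib.MP_df4dfc_nt

open Polynomial Finset NumberField

variable {K : Type*} [Field K] [NumberField K]

theorem card_quot_natCast (p : ℕ) :
    Nat.card (𝓞 K ⧸ Ideal.span {(p : 𝓞 K)}) = p ^ (Module.finrank ℚ K) := by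
  rw [← RingOfIntegers.rank K, ← Ideal.absNorm_span_natCast (S := 𝓞 K) p, Ideal.absNorm_apply, Submodule.cardQuot_apply]

theorem finite_quot_natCast (p : ℕ) (hp : p ≠ 0) : Finite (𝓞 K ⧸ Ideal.span {(p : 𝓞 K)}) := by
  apply Nat.finite_of_card_ne_zero
  rw [card_quot_natCast]
  exact pow_ne_zero _ hp

theorem dm_count {κ : Type*} [Fintype κ] [Nonempty κ] (b : Module.Basis κ ℤ (𝓞 K))
    (F : (𝓞 K)[X][X]) (hF : F.Monic) (n δ : ℕ) (hn1 : 1 ≤ n) (hn : F.natDegree ≤ n)
    (hδ : ∀ i, (F.coeff i).natDegree ≤ δ)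
    (p : ℕ) (hp : p.Prime) (M A Xb B : ℕ) (hX : 1 ≤ Xb) (Cy : ℝ) (hCy : 0 ≤ Cy)
    (hB : p ^ (2 * M + 3) * Xb ^ (M + A) < B ^ 2)
    (hval : (M + 1) * (∑ k, hs (b k)) * B * (1 + Cy) < (p : ℝ) ^ (2 * (M + 1)))
    (S : Finset ℤ) (hS : ∀ s ∈ S, |s| ≤ Xb ∧ ∃ y : 𝓞 K, (spz F (s : 𝓞 K)).eval y = 0 ∧
      (∃ u : 𝓞 K, (p : 𝓞 K) ∣ u * (spz F (s : 𝓞 K)).derivative.eval y - 1) ∧
      hs y ≤ Cy * (Xb : ℝ) ^ A ∧ ¬ PolyTypeLine F s y) :
    S.card ≤ p * n ^ (Module.finrank ℚ K) * (δ + (n + 1) * M) := by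
  classical
  haveI hfin : Finite (𝓞 K ⧸ Ideal.span {(p : 𝓞 K)}) := finite_quot_natCast p hp.ne_zero
  set π : 𝓞 K →+* 𝓞 K ⧸ Ideal.span {(p : 𝓞 K)} := Ideal.Quotient.mk _ with hπ
  have hp0 : (p : 𝓞 K ⧸ Ideal.span {(p : 𝓞 K)}) = 0 := by
    rw [← map_natCast π p]
    exact Ideal.Quotient.eq_zero_iff_mem.2 (Ideal.mem_span_singleton_self _)
  have hS' : ∀ s : ℤ, ∃ y : 𝓞 K, s ∈ S → ((spz F (s : 𝓞 K)).eval y = 0 ∧
      (∃ u : 𝓞 K, (p : 𝓞 K) ∣ u * (spz F (s : 𝓞 K)).derivative.eval y - 1) ∧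
      hs y ≤ Cy * (Xb : ℝ) ^ A ∧ ¬ PolyTypeLine F s y) := by
    intro s
    by_cases h : s ∈ S
    · obtain ⟨y, hy⟩ := (hS s h).2
      exact ⟨y, fun _ => hy⟩
    · exact ⟨0, fun h' => absurd h' h⟩
  choose Y hY using hS'
  -- one residue class of `s`
  have hcl : ∀ r ∈ Finset.range p, (S.filter (fun s : ℤ => s % (p : ℤ) = (r : ℤ))).card ≤ n ^ (Module.finrank ℚ K) * (δ + (n + 1) * M) := by
    intro r _
    set T := S.filter (fun s : ℤ => s % (p : ℤ) = (r : ℤ)) with hT
    rw [mul_comm]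
    have hfib : ∀ a ∈ T.image (fun s => lab (π (Y s))), (T.filter (fun s => lab (π (Y s)) = a)).card ≤ δ + (n + 1) * M := by
      intro a ha
      obtain ⟨s₀, hs₀, rfl⟩ := Finset.mem_image.1 ha
      have hs₀S : s₀ ∈ S := (Finset.mem_filter.1 hs₀).1
      obtain ⟨h0, ⟨u, hu⟩, -, -⟩ := hY s₀ hs₀S
      obtain ⟨g₀, g₁, hg, hd0, hd1, hrel⟩ := class_relation b F p hp.two_le M A Xb B hX Cy hCy hB hval s₀ (Y s₀) u h0 hu
      refine (class_count F hF δ M hδ g₀ g₁ hg hd0 hd1 _ ?_).trans ?_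
      · intro s hs
        rw [Finset.mem_filter] at hs
        obtain ⟨hsT, hslab⟩ := hs
        have hsS : s ∈ S := (Finset.mem_filter.1 hsT).1
        obtain ⟨hy, -, hyb, hnp⟩ := hY s hsS
        refine ⟨Y s, hy, ?_, hnp⟩
        apply hrel s (Y s) (hS s hsS).1 hy hyb
        · have e1 := (Finset.mem_filter.1 hsT).2
          have e2 := (Finset.mem_filter.1 hs₀).2
          exact (show Int.ModEq _ _ _ from (e2.trans e1.symm)).dvd
        · obtain ⟨k, hk⟩ := nilp_of_lab hslab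
          refine ⟨k, ?_⟩
          rw [← map_sub, ← map_pow] at hk
          exact Ideal.mem_span_singleton.1 (Ideal.Quotient.eq_zero_iff_mem.1 hk)
      · exact Nat.add_le_add_left (Nat.mul_le_mul_right _ (by omega)) _
    refine (Finset.card_le_mul_card_image T _ hfib).trans ?_
    apply Nat.mul_le_mul_left
    have himg : ((T.image (fun s => lab (π (Y s)))) : Set _) ⊆
        (lab '' {a | ((spz F (r : 𝓞 K)).map π).eval a = 0}) := by
      intro a ha
      rw [Finset.mem_coe, Finset.mem_image] at ha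
      obtain ⟨s, hs, rfl⟩ := ha
      refine ⟨π (Y s), ?_, rfl⟩
      have hsS : s ∈ S := (Finset.mem_filter.1 hs).1
      have hsr : s % (p : ℤ) = (r : ℤ) := (Finset.mem_filter.1 hs).2
      have e1 : (spz F (r : 𝓞 K)).map π = (spz F (s : 𝓞 K)).map π := by
        unfold spz
        rw [Polynomial.map_map, Polynomial.map_map]
        congr 1
        ext a
        · simp
        · simp only [RingHom.comp_apply, coe_evalRingHom, eval_X]
          have e2 : (s : 𝓞 K) = (r : 𝓞 K) + (p : 𝓞 K) * ((s / p : ℤ) : 𝓞 K) := by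
            have := Int.emod_add_mul_ediv s p
            rw [hsr] at this
            have h3 := congrArg (fun z : ℤ => (z : 𝓞 K)) this
            push_cast at h3
            exact h3.symm
          rw [e2, map_add, map_mul, map_natCast π p, hp0, zero_mul, add_zero]
      rw [Set.mem_ofPred_eq, e1, Polynomial.eval_map, Polynomial.eval₂_at_apply, (hY s hsS).1, map_zero]
    have hcardroots := card_lab_roots (A := 𝓞 K ⧸ Ideal.span {(p : 𝓞 K)}) p (Module.finrank ℚ K) n hp hp0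
      (card_quot_natCast p) ((spz F (r : 𝓞 K)).map π) ((hF.map _).map _) hn1
      ((Polynomial.natDegree_map_le).trans ((Polynomial.natDegree_map_le).trans hn))
    rw [← Set.ncard_coe_finset]
    refine le_trans (Set.ncard_le_ncard himg ?_) hcardroots
    exact (Set.toFinite _).image _
  have hcover : S.card = ∑ r ∈ Finset.range p, (S.filter (fun s : ℤ => s % (p : ℤ) = (r : ℤ))).card := by
    rw [Finset.card_eq_sum_card_fiberwise (f := fun s : ℤ => (s % p).toNat) (t := Finset.range p)]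
    · refine Finset.sum_congr rfl fun r hr => ?_
      congr 1
      ext s
      simp only [Finset.mem_filter]
      have hpp : (0 : ℤ) < p := by exact_mod_cast hp.pos
      have h1 := Int.emod_nonneg s hpp.ne'
      constructor
      · rintro ⟨h2, h3⟩
        exact ⟨h2, by omega⟩
      · rintro ⟨h2, h3⟩
        exact ⟨h2, by omega⟩
    · intro s _
      have hpp : (0 : ℤ) < p := by exact_mod_cast hp.pos
      have h1 := Int.emod_nonneg s hpp.ne'
      have h2 := Int.emod_lt_of_pos s hpp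
      simp only [Finset.coe_range, Set.mem_Iio]
      omega
  rw [hcover]
  calc ∑ r ∈ Finset.range p, (S.filter (fun s : ℤ => s % (p : ℤ) = (r : ℤ))).card
      ≤ ∑ r ∈ Finset.range p, n ^ (Module.finrank ℚ K) * (δ + (n + 1) * M) := Finset.sum_le_sum hcl
    _ = p * n ^ (Module.finrank ℚ K) * (δ + (n + 1) * M) := by
        rw [Finset.sum_const, Finset.card_range, smul_eq_mul, mul_assoc]

end Pool.Agent.Lib.MP_df4dfc_nt
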