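import Mathlib
import Pool.Agent.Lib.MP_df4dfc_nt.Generic4
import Pool.Agent.Lib.MP_df4dfc_nt.Hit4

set_option autoImplicit false
set_option linter.unusedSectionVars false
set_option linter.unusedVariables false
set_option linter.style.haveILetI false

/-! Negligible (density zero) sets of integer points. -/

namespace Pool.Agent.Lib.MP_df4dfc_nt

open Finset NumberField

/-- the box -/
def bx (m X : ℕ) : Set (Fin m → ℤ) := {t | ∀ i, |t i| ≤ X}

theorem bx_eq (m X : ℕ) : bx m X = (Fintype.piFinset fun _ : Fin m => Finset.Icc (-(X : ℤ)) X : Finset (Fin m → ℤ)) := by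
  ext t
  rw [Finset.mem_coe, Fintype.mem_piFinset]
  unfold bx
  rw [Set.mem_ofPred_eq]
  refine forall_congr' fun i => ?_
  rw [Finset.mem_Icc, abs_le]

theorem bx_finite (m X : ℕ) : (bx m X).Finite := by
  rw [bx_eq]; exact Finset.finite_toSet _

theorem bx_card (m X : ℕ) : (bx m X).ncard = (2 * X + 1) ^ m := by
  rw [bx_eq, Set.ncard_coe_finset, Fintype.card_piFinset]
  simp only [Int.card_Icc]
  rw [Finset.prod_const, Finset.card_univ, Fintype.card_fin]
  congr 1
  omega

/-- density zero -/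
def Negl {m : ℕ} (S : Set (Fin m → ℤ)) : Prop :=
  ∀ ε : ℝ, 0 < ε → ∃ X₀ : ℕ, ∀ X : ℕ, X₀ ≤ X → ((S ∩ bx m X).ncard : ℝ) ≤ ε * (2 * X + 1) ^ m

theorem Negl.mono {m : ℕ} {S T : Set (Fin m → ℤ)} (hT : Negl T) (h : S ⊆ T) : Negl S := by
  intro ε hε
  obtain ⟨X₀, hX⟩ := hT ε hε
  refine ⟨X₀, fun X hX' => le_trans ?_ (hX X hX')⟩
  exact_mod_cast Set.ncard_le_ncard (Set.inter_subset_inter_left _ h) ((bx_finite m X).subset Set.inter_subset_right)

theorem Negl.empty {m : ℕ} : Negl (∅ : Set (Fin m → ℤ)) := by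
  intro ε hε
  refine ⟨0, fun X _ => ?_⟩
  rw [Set.empty_inter, Set.ncard_empty, Nat.cast_zero]
  positivity

theorem Negl.union {m : ℕ} {S T : Set (Fin m → ℤ)} (hS : Negl S) (hT : Negl T) : Negl (S ∪ T) := by
  intro ε hε
  obtain ⟨X₁, h1⟩ := hS (ε / 2) (by positivity)
  obtain ⟨X₂, h2⟩ := hT (ε / 2) (by positivity)
  refine ⟨max X₁ X₂, fun X hX => ?_⟩
  have e1 := h1 X ((le_max_left _ _).trans hX)
  have e2 := h2 X ((le_max_right _ _).trans hX)
  rw [Set.union_inter_distrib_right]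
  have e3 : (((S ∩ bx m X) ∪ (T ∩ bx m X)).ncard : ℝ) ≤ (S ∩ bx m X).ncard + (T ∩ bx m X).ncard := by
    exact_mod_cast Set.ncard_union_le _ _
  linarith

theorem Negl.biUnion {m : ℕ} {α : Type*} (s : Finset α) (f : α → Set (Fin m → ℤ)) (h : ∀ a ∈ s, Negl (f a)) :
    Negl (⋃ a ∈ s, f a) := by
  classical
  induction s using Finset.induction_on with
  | empty => simpa using Negl.empty
  | insert a s ha ih =>
    rw [Finset.set_biUnion_insert]
    exact (h a (Finset.mem_insert_self _ _)).union (ih fun b hb => h b (Finset.mem_insert_of_mem hb))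

theorem Negl.biUnion_finite {m : ℕ} {α : Type*} (s : Set α) (hs : s.Finite) (f : α → Set (Fin m → ℤ))
    (h : ∀ a ∈ s, Negl (f a)) : Negl (⋃ a ∈ s, f a) := by
  have := Negl.biUnion hs.toFinset f (fun a ha => h a (hs.mem_toFinset.1 ha))
  simpa using this

/-- cylinders over negligible sets -/
theorem Negl.tail {m : ℕ} {S : Set (Fin m → ℤ)} (hS : Negl S) :
    Negl {t : Fin (m + 1) → ℤ | Fin.tail t ∈ S} := by
  intro ε hε
  obtain ⟨X₀, hX⟩ := hS ε hε
  refine ⟨X₀, fun X hX' => ?_⟩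
  have h1 := hX X hX'
  have h2 : ({t : Fin (m + 1) → ℤ | Fin.tail t ∈ S} ∩ bx (m + 1) X).ncard ≤
      ((Set.Icc (-(X : ℤ)) X) ×ˢ (S ∩ bx m X)).ncard := by
    refine Set.ncard_le_ncard_of_injOn (fun t => (t 0, Fin.tail t)) ?_ ?_
      ((Set.finite_Icc _ _).prod ((bx_finite m X).subset Set.inter_subset_right))
    · rintro t ⟨ht, htb⟩
      refine ⟨abs_le.1 (htb 0), ht, fun i => htb i.succ⟩
    · intro t _ t' _ h
      have h3 := congrArg Prod.fst h
      have h4 := congrArg Prod.snd h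
      funext i
      refine Fin.cases h3 (fun j => congrFun h4 j) i
  rw [Set.ncard_prod] at h2
  have h3 : (Set.Icc (-(X : ℤ)) X).ncard = 2 * X + 1 := by
    rw [← Finset.coe_Icc, Set.ncard_coe_finset, Int.card_Icc]
    omega
  rw [h3] at h2
  have h4 : (({t : Fin (m + 1) → ℤ | Fin.tail t ∈ S} ∩ bx (m + 1) X).ncard : ℝ) ≤
      (2 * X + 1) * (S ∩ bx m X).ncard := by exact_mod_cast h2
  rw [pow_succ]
  have h5 : (0 : ℝ) < 2 * X + 1 := by positivity
  nlinarith

theorem Negl.of_bound {m : ℕ} {S : Set (Fin m → ℤ)} (C : ℝ)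
    (h : ∀ X : ℕ, ((S ∩ bx m X).ncard : ℝ) * (2 * X + 1) ≤ C * (2 * X + 1) ^ m) : Negl S := by
  intro ε hε
  obtain ⟨X₀, hX₀⟩ := exists_nat_gt (C / ε)
  refine ⟨X₀, fun X hX => ?_⟩
  have h1 := h X
  have h2 : C ≤ ε * (2 * X + 1) := by
    rw [div_lt_iff₀ hε] at hX₀
    have : (X₀ : ℝ) ≤ X := by exact_mod_cast hX
    nlinarith
  have h3 : (0 : ℝ) < 2 * X + 1 := by positivity
  have h4 : (0 : ℝ) < (2 * X + 1) ^ m := by positivity
  have h5 : ((S ∩ bx m X).ncard : ℝ) * (2 * X + 1) ≤ (ε * (2 * X + 1) ^ m) * (2 * X + 1) := by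
    nlinarith
  exact le_of_mul_le_mul_right h5 h3

/-- zero sets of nonzero polynomials are negligible -/
theorem negl_zeros {R : Type*} [CommRing R] [IsDomain R] [CharZero R] {m : ℕ} (q : MvPolynomial (Fin m) R) (hq : q ≠ 0) :
    Negl {t : Fin m → ℤ | MvPolynomial.eval (fun i => (t i : R)) q = 0} := by
  classical
  apply Negl.of_bound (q.totalDegree : ℝ)
  intro X
  set S : Finset R := (Finset.Icc (-(X : ℤ)) X).image (fun z : ℤ => (z : R)) with hS
  have hScard : S.card = 2 * X + 1 := by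
    rw [hS, Finset.card_image_of_injective _ Int.cast_injective, Int.card_Icc]
    omega
  have h1 := sz q hq S
  rw [hScard, Fintype.card_fin] at h1
  have h2 : ({t : Fin m → ℤ | MvPolynomial.eval (fun i => (t i : R)) q = 0} ∩ bx m X).ncard ≤
      ((Fintype.piFinset fun _ : Fin m => S).filter fun f => MvPolynomial.eval f q = 0).card := by
    rw [← Set.ncard_coe_finset]
    refine Set.ncard_le_ncard_of_injOn (fun (t : Fin m → ℤ) i => (t i : R)) ?_ ?_ (Finset.finite_toSet _)
    · rintro t ⟨ht, htb⟩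
      rw [Finset.mem_coe, Finset.mem_filter, Fintype.mem_piFinset]
      refine ⟨fun i => ?_, ht⟩
      rw [hS, Finset.mem_image]
      exact ⟨t i, Finset.mem_Icc.2 (abs_le.1 (htb i)), rfl⟩
    · intro t _ t' _ h
      funext i
      exact Int.cast_injective (congrFun h i)
  have h3 := (Nat.mul_le_mul_right (2 * X + 1) h2).trans h1
  exact_mod_cast h3

/-- points where an integer polynomial is divisible by a prime -/
theorem count_mod (m : ℕ) (q : MvPolynomial (Fin m) ℤ) (p : ℕ) (hp : p.Prime)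
    (hq : MvPolynomial.map (Int.castRingHom (ZMod p)) q ≠ 0) (X : ℕ) :
    ({t : Fin m → ℤ | (p : ℤ) ∣ MvPolynomial.eval t q} ∩ bx m X).ncard * p ≤
      q.totalDegree * (2 * X + 1 + p) ^ m := by
  classical
  haveI : Fact p.Prime := ⟨hp⟩
  set q' := MvPolynomial.map (Int.castRingHom (ZMod p)) q with hq'
  let ρ : (Fin m → ℤ) →+ (Fin m → ZMod p) :=
    { toFun := fun x i => (x i : ZMod p)
      map_zero' := by funext i; simp
      map_add' := by intro x y; funext i; simp }
  have hρ : Function.Surjective ρ := by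
    intro v
    refine ⟨fun i => ((v i).val : ℤ), ?_⟩
    funext i
    change (((v i).val : ℤ) : ZMod p) = v i
    push_cast
    exact ZMod.natCast_zmod_val (v i)
  have hkill : ∀ x : Fin m → ℤ, ρ (fun i => (p : ℤ) * x i) = 0 := by
    intro x
    funext i
    change (((p : ℤ) * x i : ℤ) : ZMod p) = 0
    push_cast
    simp
  set Z : Finset (Fin m → ZMod p) := Finset.univ.filter fun f => MvPolynomial.eval f q' = 0 with hZ
  have h1 := box_count ρ hρ p hp.pos hkill Z X
  have h2 := sz q' hq (Finset.univ : Finset (ZMod p))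
  rw [Fintype.piFinset_univ, Finset.card_univ, ZMod.card, Fintype.card_fin] at h2
  rw [Fintype.card_pi_const, ZMod.card, Fintype.card_fin] at h1
  have h3 : {t : Fin m → ℤ | (p : ℤ) ∣ MvPolynomial.eval t q} ∩ bx m X =
      {x : Fin m → ℤ | (∀ i, |x i| ≤ X) ∧ ρ x ∈ Z} := by
    ext t
    constructor
    · rintro ⟨h, hb⟩
      refine ⟨hb, ?_⟩
      rw [hZ, Finset.mem_filter]
      refine ⟨Finset.mem_univ _, ?_⟩
      rw [hq', MvPolynomial.eval_map]
      have e1 := MvPolynomial.eval₂_comp_left (Int.castRingHom (ZMod p)) (RingHom.id ℤ) t q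
      have e2 : (p : ℤ) ∣ MvPolynomial.eval t q := h
      rw [← ZMod.intCast_zmod_eq_zero_iff_dvd] at e2
      have e3 : (Int.castRingHom (ZMod p)) (MvPolynomial.eval₂ (RingHom.id ℤ) t q) = 0 := by
        rw [MvPolynomial.eval₂_id]
        exact e2
      rw [e3] at e1
      exact e1.symm
    · rintro ⟨hb, h⟩
      refine ⟨?_, hb⟩
      rw [hZ, Finset.mem_filter] at h
      have h4 := h.2
      rw [hq', MvPolynomial.eval_map] at h4
      have e1 := MvPolynomial.eval₂_comp_left (Int.castRingHom (ZMod p)) (RingHom.id ℤ) t q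
      have e3 : (Int.castRingHom (ZMod p)) (MvPolynomial.eval₂ (RingHom.id ℤ) t q) = 0 := by
        rw [e1]
        exact h4
      rw [MvPolynomial.eval₂_id] at e3
      rw [Set.mem_ofPred_eq, ← ZMod.intCast_zmod_eq_zero_iff_dvd]
      exact e3
  rw [h3]
  have hdeg : q'.totalDegree ≤ q.totalDegree := by
    rw [hq']
    exact Finset.sup_mono (MvPolynomial.support_map_subset _ _)
  -- combine
  set c := {x : Fin m → ℤ | (∀ i, |x i| ≤ X) ∧ ρ x ∈ Z}.ncard with hc
  have h5 : c * p ^ m * p ≤ (q.totalDegree * (2 * X + 1 + p) ^ m) * p ^ m := by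
    calc c * p ^ m * p ≤ (Z.card * (2 * X + 1 + p) ^ m) * p := Nat.mul_le_mul_right _ h1
      _ = (Z.card * p) * (2 * X + 1 + p) ^ m := by ring
      _ ≤ (q'.totalDegree * p ^ m) * (2 * X + 1 + p) ^ m := Nat.mul_le_mul_right _ h2
      _ ≤ (q.totalDegree * p ^ m) * (2 * X + 1 + p) ^ m :=
          Nat.mul_le_mul_right _ (Nat.mul_le_mul_right _ hdeg)
      _ = _ := by ring
  have h6 : (c * p) * p ^ m ≤ (q.totalDegree * (2 * X + 1 + p) ^ m) * p ^ m := by
    calc (c * p) * p ^ m = c * p ^ m * p := by ring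
      _ ≤ _ := h5
  exact Nat.le_of_mul_le_mul_right h6 (pow_pos hp.pos m)

end Pool.Agent.Lib.MP_df4dfc_nt
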