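import Mathlib
import Pool.Agent.Lib.MP_df4dfc_nt.Hit5

set_option autoImplicit false
set_option linter.unusedSectionVars false
set_option linter.unusedVariables false
set_option linter.style.haveILetI false

/-! Specialisation homomorphisms and the interpolation step of the induction. -/

namespace Pool.Agent.Lib.MP_df4dfc_nt

open Finset NumberField Polynomial

/-- value at an integer point -/
noncomputable abbrev spc {m : ℕ} (R : Type*) [CommRing R] (t : Fin m → ℤ) : MvPolynomial (Fin m) R →+* R :=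
  MvPolynomial.eval (fun i => (t i : R))

/-- restriction to a line in the direction of the first coordinate -/
noncomputable def lineHom {m : ℕ} (R : Type*) [CommRing R] (t : Fin m → ℤ) : MvPolynomial (Fin (m + 1)) R →+* R[X] :=
  (Polynomial.mapRingHom (spc R t)).comp ((MvPolynomial.finSuccEquiv R m : MvPolynomial (Fin (m + 1)) R ≃ₐ[R] (MvPolynomial (Fin m) R)[X]) : MvPolynomial (Fin (m + 1)) R →+* (MvPolynomial (Fin m) R)[X])

/-- fixing the first coordinate -/
noncomputable def nodeHom {m : ℕ} (R : Type*) [CommRing R] (a : ℤ) : MvPolynomial (Fin (m + 1)) R →+* MvPolynomial (Fin m) R :=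
  (Polynomial.evalRingHom (a : MvPolynomial (Fin m) R)).comp ((MvPolynomial.finSuccEquiv R m : MvPolynomial (Fin (m + 1)) R ≃ₐ[R] (MvPolynomial (Fin m) R)[X]) : MvPolynomial (Fin (m + 1)) R →+* (MvPolynomial (Fin m) R)[X])

section Homs

variable {m : ℕ} {R : Type*} [CommRing R]

theorem lineHom_C (t : Fin m → ℤ) (c : R) : lineHom R t (MvPolynomial.C c) = C c := by
  simp [lineHom, MvPolynomial.finSuccEquiv_apply]

theorem lineHom_zero (t : Fin m → ℤ) : lineHom R t (MvPolynomial.X 0) = X := by
  simp [lineHom, MvPolynomial.finSuccEquiv_X_zero]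

theorem lineHom_succ (t : Fin m → ℤ) (i : Fin m) : lineHom R t (MvPolynomial.X i.succ) = C (t i : R) := by
  simp [lineHom, MvPolynomial.finSuccEquiv_X_succ]

theorem nodeHom_C (a : ℤ) (c : R) : nodeHom (m := m) R a (MvPolynomial.C c) = MvPolynomial.C c := by
  simp [nodeHom, MvPolynomial.finSuccEquiv_apply]

theorem nodeHom_zero (a : ℤ) : nodeHom (m := m) R a (MvPolynomial.X 0) = (a : MvPolynomial (Fin m) R) := by
  simp [nodeHom, MvPolynomial.finSuccEquiv_X_zero]

theorem nodeHom_succ (a : ℤ) (i : Fin m) : nodeHom R a (MvPolynomial.X i.succ) = MvPolynomial.X i := by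
  simp [nodeHom, MvPolynomial.finSuccEquiv_X_succ]

theorem eval_lineHom (t : Fin m → ℤ) (s : ℤ) :
    (evalRingHom (s : R)).comp (lineHom R t) = spc R (Fin.cons s t : Fin (m + 1) → ℤ) := by
  apply MvPolynomial.ringHom_ext
  · intro c
    rw [RingHom.comp_apply, lineHom_C]
    simp
  · intro i
    refine Fin.cases ?_ (fun j => ?_) i
    · rw [RingHom.comp_apply, lineHom_zero]
      simp
    · rw [RingHom.comp_apply, lineHom_succ]
      simp

theorem spc_nodeHom (t : Fin m → ℤ) (a : ℤ) :
    (spc R t).comp (nodeHom R a) = spc R (Fin.cons a t : Fin (m + 1) → ℤ) := by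
  apply MvPolynomial.ringHom_ext
  · intro c
    rw [RingHom.comp_apply, nodeHom_C]
    simp
  · intro i
    refine Fin.cases ?_ (fun j => ?_) i
    · rw [RingHom.comp_apply, nodeHom_zero]
      simp
    · rw [RingHom.comp_apply, nodeHom_succ]
      simp

theorem lineHom_map {R' : Type*} [CommRing R'] (φ : R →+* R') (t : Fin m → ℤ) :
    (lineHom R' t).comp (MvPolynomial.map φ) = (mapRingHom φ).comp (lineHom R t) := by
  apply MvPolynomial.ringHom_ext
  · intro c
    simp only [RingHom.comp_apply, MvPolynomial.map_C, lineHom_C]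
    simp
  · intro i
    refine Fin.cases ?_ (fun j => ?_) i
    · simp only [RingHom.comp_apply, MvPolynomial.map_X, lineHom_zero]
      simp
    · simp only [RingHom.comp_apply, MvPolynomial.map_X, lineHom_succ]
      simp

theorem spc_map {R' : Type*} [CommRing R'] (φ : R →+* R') (t : Fin m → ℤ) :
    (spc R' t).comp (MvPolynomial.map φ) = φ.comp (spc R t) := by
  apply MvPolynomial.ringHom_ext
  · intro c; simp
  · intro i; simp

theorem natDegree_lineHom (t : Fin m → ℤ) (a : MvPolynomial (Fin (m + 1)) R) :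
    (lineHom R t a).natDegree ≤ a.totalDegree := by
  unfold lineHom
  rw [RingHom.comp_apply]
  refine (Polynomial.natDegree_map_le).trans ?_
  have h1 := MvPolynomial.natDegree_finSuccEquiv a
  refine le_trans (le_of_eq h1) ?_
  exact MvPolynomial.degreeOf_le_totalDegree a 0

/-- a monic polynomial over `K[X]` with coefficients of degree `≤ δ` has roots of degree `≤ δ` -/
theorem root_degree {k : Type*} [Field k] (g : k[X][X]) (hg : g.Monic) (δ : ℕ) (hδ : ∀ i, (g.coeff i).natDegree ≤ δ)
    (r : k[X]) (hr : g.eval r = 0) : r.natDegree ≤ δ := by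
  by_contra hcon
  push Not at hcon
  set e := r.natDegree with he
  have hr0 : r ≠ 0 := by
    rintro rfl
    simp at he
    omega
  rw [Polynomial.eval_eq_sum_range, Finset.sum_range_succ, hg.coeff_natDegree, one_mul] at hr
  set n := g.natDegree with hn
  rcases Nat.eq_zero_or_pos n with h0 | hpos
  · rw [h0] at hr
    simp at hr
  have h1 : r ^ n = - ∑ i ∈ Finset.range n, g.coeff i * r ^ i := by linear_combination hr
  have h2 : (r ^ n).natDegree = n * e := Polynomial.natDegree_pow r n
  have h3 : (- ∑ i ∈ Finset.range n, g.coeff i * r ^ i).natDegree ≤ δ + (n - 1) * e := by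
    rw [natDegree_neg]
    apply Polynomial.natDegree_sum_le_of_forall_le
    intro i hi
    rw [Finset.mem_range] at hi
    refine (Polynomial.natDegree_mul_le).trans (add_le_add (hδ i) ?_)
    refine (Polynomial.natDegree_pow_le).trans (Nat.mul_le_mul_right _ (by omega))
  rw [← h1, h2] at h3
  have h4 : n * e = (n - 1) * e + e := by
    obtain ⟨k, hk⟩ := Nat.exists_eq_add_of_le hpos
    rw [hk]
    simp only [Nat.succ_eq_add_one, Nat.zero_add, Nat.add_sub_cancel_left]
    ring
  omega

end Homs

section Interp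

variable {K : Type*} [Field K] [CharZero K]

/-- exceptional set for roots -/
def rootExc {m : ℕ} (f : (MvPolynomial (Fin m) K)[X]) : Set (Fin m → ℤ) :=
  {t | ∃ y : K, (f.map (spc K t)).eval y = 0 ∧ ∀ ρ : MvPolynomial (Fin m) K, f.eval ρ = 0 → spc K t ρ ≠ y}

/-- the interpolating polynomial -/
noncomputable def lagr {m : ℕ} (δ : ℕ) (ρ : Fin (δ + 1) → MvPolynomial (Fin m) K) : MvPolynomial (Fin (m + 1)) K :=
  ∑ i : Fin (δ + 1), (Polynomial.aeval (MvPolynomial.X 0 : MvPolynomial (Fin (m + 1)) K)
    (Lagrange.basis Finset.univ (fun j : Fin (δ + 1) => ((j : ℕ) : K)) i)) * MvPolynomial.rename Fin.succ (ρ i)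

theorem lineHom_aeval_X {m : ℕ} (t : Fin m → ℤ) (q : K[X]) :
    lineHom K t (Polynomial.aeval (MvPolynomial.X 0 : MvPolynomial (Fin (m + 1)) K) q) = q := by
  have h : (lineHom K t).comp ((Polynomial.aeval (MvPolynomial.X 0 : MvPolynomial (Fin (m + 1)) K) : K[X] →ₐ[K] MvPolynomial (Fin (m + 1)) K) : K[X] →+* MvPolynomial (Fin (m + 1)) K) =
      RingHom.id _ := by
    ext a
    · simp only [RingHom.comp_apply, RingHom.coe_coe, aeval_C, RingHom.id_apply]
      rw [MvPolynomial.algebraMap_eq, lineHom_C]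
    · simp only [RingHom.comp_apply, RingHom.coe_coe, aeval_X, RingHom.id_apply]
      rw [lineHom_zero]
  exact congrArg (fun g => g q) h

theorem lineHom_rename {m : ℕ} (t : Fin m → ℤ) (q : MvPolynomial (Fin m) K) :
    lineHom K t (MvPolynomial.rename Fin.succ q) = C (spc K t q) := by
  have h : (lineHom K t).comp ((MvPolynomial.rename Fin.succ : MvPolynomial (Fin m) K →ₐ[K] _) : _ →+* _) =
      C.comp (spc K t) := by
    apply MvPolynomial.ringHom_ext
    · intro c
      simp only [RingHom.comp_apply, RingHom.coe_coe, MvPolynomial.rename_C, lineHom_C]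
      simp
    · intro i
      simp only [RingHom.comp_apply, RingHom.coe_coe, MvPolynomial.rename_X, lineHom_succ]
      simp
  exact congrArg (fun g => g q) h

theorem lineHom_lagr {m : ℕ} (δ : ℕ) (ρ : Fin (δ + 1) → MvPolynomial (Fin m) K) (t : Fin m → ℤ) (r : K[X])
    (hr : r.natDegree ≤ δ) (h : ∀ i : Fin (δ + 1), r.eval ((i : ℕ) : K) = spc K t (ρ i)) :
    lineHom K t (lagr δ ρ) = r := by
  have hinj : Set.InjOn (fun j : Fin (δ + 1) => ((j : ℕ) : K)) (Finset.univ : Finset (Fin (δ + 1))) := by
    intro i _ j _ hij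
    exact Fin.ext (Nat.cast_injective hij)
  have h1 := Lagrange.eq_interpolate (f := r) hinj (by
    rw [Finset.card_univ, Fintype.card_fin]
    refine lt_of_le_of_lt Polynomial.degree_le_natDegree ?_
    exact_mod_cast Nat.lt_succ_of_le hr)
  rw [h1, Lagrange.interpolate_apply]
  unfold lagr
  rw [map_sum]
  refine Finset.sum_congr rfl fun i _ => ?_
  rw [map_mul, lineHom_aeval_X, lineHom_rename, h i, mul_comm]

theorem negl_lineHom_zero {m : ℕ} (E : MvPolynomial (Fin (m + 1)) K) (hE : E ≠ 0) :
    Negl {t : Fin m → ℤ | lineHom K t E = 0} := by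
  have h1 : MvPolynomial.finSuccEquiv K m E ≠ 0 := by
    intro h
    apply hE
    exact (MvPolynomial.finSuccEquiv K m).injective (by rw [h, map_zero])
  obtain ⟨j, hj⟩ : ∃ j, (MvPolynomial.finSuccEquiv K m E).coeff j ≠ 0 := by
    by_contra hcon
    push Not at hcon
    exact h1 (Polynomial.ext (by simpa using hcon))
  refine (negl_zeros _ hj).mono ?_
  intro t ht
  have h2 := congrArg (fun q => q.coeff j) (show lineHom K t E = 0 from ht)
  simp only [coeff_zero] at h2
  unfold lineHom at h2
  rw [RingHom.comp_apply, coe_mapRingHom, coeff_map] at h2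
  exact h2

theorem interp_step {m : ℕ} (IH : ∀ g : (MvPolynomial (Fin m) K)[X], g.Monic → Negl (rootExc g))
    (f : (MvPolynomial (Fin (m + 1)) K)[X]) (hf : f.Monic) :
    Negl {t : Fin m → ℤ | ∃ r : K[X], (f.map (lineHom K t)).eval r = 0 ∧
      ∀ ρ : MvPolynomial (Fin (m + 1)) K, f.eval ρ = 0 → lineHom K t ρ ≠ r} := by
  classical
  -- degree bound
  obtain ⟨δ, hδ⟩ : ∃ δ : ℕ, ∀ i, (f.coeff i).totalDegree ≤ δ := by
    refine ⟨(Finset.range (f.natDegree + 1)).sup fun i => (f.coeff i).totalDegree, fun i => ?_⟩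
    rcases le_or_gt i f.natDegree with h | h
    · exact Finset.le_sup (f := fun i => (f.coeff i).totalDegree) (Finset.mem_range.2 (Nat.lt_succ_of_le h))
    · rw [coeff_eq_zero_of_natDegree_lt h]
      simp
  set G : Fin (δ + 1) → (MvPolynomial (Fin m) K)[X] := fun i => f.map (nodeHom K (i : ℕ)) with hG
  have hGm : ∀ i, (G i).Monic := fun i => hf.map _
  set P : Finset (Fin (δ + 1) → MvPolynomial (Fin m) K) := Fintype.piFinset fun i => (G i).roots.toFinset with hP
  have hN1 : Negl (⋃ i ∈ (Finset.univ : Finset (Fin (δ + 1))), rootExc (G i)) :=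
    Negl.biUnion _ _ fun i _ => IH _ (hGm i)
  have hN2 : Negl (⋃ ρ ∈ P.filter (fun ρ => f.eval (lagr δ ρ) ≠ 0), {t : Fin m → ℤ | lineHom K t (f.eval (lagr δ ρ)) = 0}) := by
    apply Negl.biUnion
    intro ρ hρ
    exact negl_lineHom_zero _ (Finset.mem_filter.1 hρ).2
  refine (hN1.union hN2).mono ?_
  rintro t ⟨r, hr, hcon⟩
  by_contra hnot
  rw [Set.mem_union, not_or] at hnot
  obtain ⟨hn1, hn2⟩ := hnot
  have hrδ : r.natDegree ≤ δ := by
    refine root_degree (f.map (lineHom K t)) (hf.map _) δ (fun i => ?_) r hr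
    rw [coeff_map]
    exact (natDegree_lineHom t _).trans (hδ i)
  have hnode : ∀ i : Fin (δ + 1), ∃ ρ : MvPolynomial (Fin m) K, (G i).eval ρ = 0 ∧ spc K t ρ = r.eval ((i : ℕ) : K) := by
    intro i
    by_contra hc
    push Not at hc
    apply hn1
    rw [Set.mem_iUnion₂]
    refine ⟨i, Finset.mem_univ _, r.eval ((i : ℕ) : K), ?_, fun ρ hρ => hc ρ hρ⟩
    have e1 : (G i).map (spc K t) = (f.map (lineHom K t)).map (evalRingHom ((i : ℕ) : K)) := by
      rw [hG]
      simp only
      rw [Polynomial.map_map, Polynomial.map_map, spc_nodeHom]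
      have := eval_lineHom (R := K) t ((i : ℕ) : ℤ)
      rw [Int.cast_natCast] at this
      rw [this]
    rw [e1, Polynomial.eval_map]
    have := Polynomial.eval₂_at_apply (p := f.map (lineHom K t)) (evalRingHom ((i : ℕ) : K)) r
    rw [coe_evalRingHom] at this
    rw [this, hr, eval_zero]
  choose ρ hρ1 hρ2 using hnode
  have hline : lineHom K t (lagr δ ρ) = r := lineHom_lagr δ ρ t r hrδ (fun i => (hρ2 i).symm)
  apply hcon (lagr δ ρ) _ hline
  by_contra hE
  apply hn2
  rw [Set.mem_iUnion₂]
  refine ⟨ρ, ?_, ?_⟩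
  · rw [Finset.mem_filter]
    refine ⟨?_, hE⟩
    rw [hP, Fintype.mem_piFinset]
    intro i
    rw [Multiset.mem_toFinset, Polynomial.mem_roots (hGm i).ne_zero]
    exact hρ1 i
  · rw [Set.mem_ofPred_eq]
    have := Polynomial.eval₂_at_apply (p := f) (lineHom K t) (lagr δ ρ)
    rw [← this, ← Polynomial.eval_map, hline, hr]

end Interp

end Pool.Agent.Lib.MP_df4dfc_nt
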