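import Mathlib
import Pool.Agent.Lib.MP_df4dfc_nt.Hit6

set_option autoImplicit false
set_option linter.unusedSectionVars false
set_option linter.unusedVariables false
set_option linter.style.haveILetI false

/-! Quantitative Hilbert irreducibility, root version: the main induction step. -/

namespace Pool.Agent.Lib.MP_df4dfc_nt

open Finset NumberField Polynomial

section Heights

variable {K : Type*} [Field K] [NumberField K]

theorem hs_eval_le {m : ℕ} (q : MvPolynomial (Fin m) (𝓞 K)) :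
    ∃ C : ℝ, 0 ≤ C ∧ ∀ (X : ℕ) (t : Fin m → ℤ), 1 ≤ X → t ∈ bx m X → hs (spc (𝓞 K) t q) ≤ C * (X : ℝ) ^ q.totalDegree := by
  refine ⟨∑ d ∈ q.support, hs (q.coeff d), Finset.sum_nonneg fun _ _ => house_nonneg _, ?_⟩
  intro X t hX ht
  have hX' : (1 : ℝ) ≤ X := by exact_mod_cast hX
  unfold hs spc
  rw [MvPolynomial.eval_eq', map_sum, Finset.sum_mul]
  refine (house_sum_le_sum_house _ _).trans (Finset.sum_le_sum fun d hd => ?_)
  rw [map_mul]
  refine (house_mul_le _ _).trans (mul_le_mul_of_nonneg_left ?_ (house_nonneg _))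
  have h1 : house (algebraMap (𝓞 K) K (∏ i, (t i : 𝓞 K) ^ d i)) = ∏ i, |(t i : ℝ)| ^ d i := by
    have : algebraMap (𝓞 K) K (∏ i, (t i : 𝓞 K) ^ d i) = ((∏ i, t i ^ d i : ℤ) : K) := by
      rw [map_prod]
      push_cast
      refine Finset.prod_congr rfl fun i _ => ?_
      simp
    rw [this, house_intCast, Finset.abs_prod]
    push_cast
    refine Finset.prod_congr rfl fun i _ => ?_
    rw [abs_pow]
  rw [h1]
  calc ∏ i, |(t i : ℝ)| ^ d i ≤ ∏ i, (X : ℝ) ^ d i := by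
        refine Finset.prod_le_prod (fun i _ => by positivity) fun i _ => ?_
        refine pow_le_pow_left₀ (abs_nonneg _) ?_ _
        have := ht i
        exact_mod_cast this
    _ = (X : ℝ) ^ (∑ i, d i) := by rw [Finset.prod_pow_eq_pow_sum]
    _ ≤ (X : ℝ) ^ q.totalDegree := by
        apply pow_le_pow_right₀ hX'
        have := MvPolynomial.le_totalDegree hd
        rwa [Finsupp.sum_fintype _ _ (fun _ => rfl)] at this

theorem root_house (g : (𝓞 K)[X]) (hg : g.Monic) (y : 𝓞 K) (hy : g.eval y = 0) :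
    hs y ≤ 1 + ∑ i ∈ Finset.range g.natDegree, hs (g.coeff i) := by
  by_contra hcon
  push Not at hcon
  set n := g.natDegree with hn
  have hS0 : 0 ≤ ∑ i ∈ Finset.range n, hs (g.coeff i) := Finset.sum_nonneg fun _ _ => house_nonneg _
  obtain ⟨σ, hσ⟩ : ∃ σ : K →+* ℂ, ‖σ (algebraMap (𝓞 K) K y)‖ = hs y := by
    have h1 := house_eq_sup' (K := K) (algebraMap (𝓞 K) K y)
    obtain ⟨σ, -, hσ⟩ := Finset.exists_mem_eq_sup' (Finset.univ_nonempty (α := K →+* ℂ)) (fun φ : K →+* ℂ ↦ ‖φ (algebraMap (𝓞 K) K y)‖₊)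
    refine ⟨σ, ?_⟩
    unfold hs
    rw [h1, hσ]
    rfl
  set z : ℂ := σ (algebraMap (𝓞 K) K y) with hz
  have hz1 : 1 < ‖z‖ := by rw [hσ]; linarith
  have hz2 : ∑ i ∈ Finset.range n, hs (g.coeff i) < ‖z‖ := by rw [hσ]; linarith
  rcases Nat.eq_zero_or_pos n with h0 | hpos
  · have : g = 1 := hg.natDegree_eq_zero.1 (by rw [← hn, h0])
    rw [this] at hy
    simp at hy
  rw [Polynomial.eval_eq_sum_range, Finset.sum_range_succ, hg.coeff_natDegree, one_mul, ← hn] at hy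
  have h2 : z ^ n = - ∑ i ∈ Finset.range n, σ (algebraMap (𝓞 K) K (g.coeff i)) * z ^ i := by
    have h3 := congrArg (fun w => σ (algebraMap (𝓞 K) K w)) hy
    simp only [map_add, map_sum, map_mul, map_pow, map_zero] at h3
    linear_combination h3
  have h4 : ‖z‖ ^ n ≤ (∑ i ∈ Finset.range n, hs (g.coeff i)) * ‖z‖ ^ (n - 1) := by
    rw [← norm_pow, h2, norm_neg, Finset.sum_mul]
    refine (norm_sum_le _ _).trans (Finset.sum_le_sum fun i hi => ?_)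
    rw [norm_mul, norm_pow]
    rw [Finset.mem_range] at hi
    exact mul_le_mul (norm_embedding_le_house _ _) (pow_le_pow_right₀ hz1.le (by omega)) (by positivity) (house_nonneg _)
  have h5 : ‖z‖ ^ n = ‖z‖ * ‖z‖ ^ (n - 1) := by
    rw [← pow_succ']
    congr 1
    omega
  rw [h5] at h4
  have h6 : 0 < ‖z‖ ^ (n - 1) := by positivity
  have := le_of_mul_le_mul_right h4 h6
  linarith

theorem roots_bounded {m : ℕ} (F : (MvPolynomial (Fin m) (𝓞 K))[X]) (hF : F.Monic) :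
    ∃ (C : ℝ) (A : ℕ), 0 ≤ C ∧ ∀ (X : ℕ) (t : Fin m → ℤ), 1 ≤ X → t ∈ bx m X → ∀ y : 𝓞 K,
      (F.map (spc (𝓞 K) t)).eval y = 0 → hs y ≤ C * (X : ℝ) ^ A := by
  classical
  choose C hC0 hC using fun i => hs_eval_le (F.coeff i)
  set A := (Finset.range F.natDegree).sup fun i => (F.coeff i).totalDegree with hA
  refine ⟨1 + ∑ i ∈ Finset.range F.natDegree, C i, A, by
    have := Finset.sum_nonneg (s := Finset.range F.natDegree) fun i _ => hC0 i
    linarith, ?_⟩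
  intro X t hX ht y hy
  have hX' : (1 : ℝ) ≤ X := by exact_mod_cast hX
  have h1 := root_house _ (hF.map (spc (𝓞 K) t)) y hy
  rw [hF.natDegree_map] at h1
  refine h1.trans ?_
  rw [add_mul, Finset.sum_mul, one_mul]
  refine add_le_add (one_le_pow₀ hX') (Finset.sum_le_sum fun i hi => ?_)
  rw [coeff_map]
  refine (hC i X t hX ht).trans (mul_le_mul_of_nonneg_left ?_ (hC0 i))
  exact pow_le_pow_right₀ hX' (Finset.le_sup (f := fun i => (F.coeff i).totalDegree) hi)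

end Heights

section Params

theorem params (A C₁ p X : ℕ) (hC : 1 ≤ C₁) (hp : 4 * C₁ ^ 2 * 16 ^ (3 * A) ≤ p) (hX : X ^ 3 ≤ 16 ^ 3 * p ^ 4) :
    ∃ B : ℕ, p ^ (2 * (2 * A) + 3) * X ^ (2 * A + A) < B ^ 2 ∧ C₁ * B ≤ p ^ (2 * (2 * A + 1)) := by
  have h16 : 1 ≤ 16 ^ (3 * A) := Nat.one_le_pow _ _ (by norm_num)
  have hp1 : 4 * C₁ ^ 2 ≤ p := le_trans (Nat.le_mul_of_pos_right _ (by positivity)) hp
  have hp2 : 2 * C₁ ≤ p := by nlinarith
  have hp0 : 1 ≤ p := by omega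
  set P := p ^ (2 * (2 * A + 1)) with hP
  have hPp : p ≤ P := by
    rw [hP]
    exact Nat.le_self_pow (by omega) p
  refine ⟨P / C₁, ?_, Nat.mul_div_le _ _⟩
  set B := P / C₁ with hB
  have h1 : P < C₁ * (B + 1) := Nat.lt_mul_div_succ P (by omega)
  have h2 : 2 ≤ B + 1 := by
    by_contra h
    have : B + 1 ≤ 1 := by omega
    nlinarith
  have h3 : P < 2 * B * C₁ := by nlinarith
  have h4 : P ^ 2 < 4 * C₁ ^ 2 * B ^ 2 := by
    calc P ^ 2 < (2 * B * C₁) ^ 2 := Nat.pow_lt_pow_left h3 (by norm_num)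
      _ = _ := by ring
  have h5 : 4 * C₁ ^ 2 * (16 ^ (3 * A) * p ^ (8 * A + 3)) ≤ P ^ 2 := by
    calc 4 * C₁ ^ 2 * (16 ^ (3 * A) * p ^ (8 * A + 3)) = (4 * C₁ ^ 2 * 16 ^ (3 * A)) * p ^ (8 * A + 3) := by ring
      _ ≤ p * p ^ (8 * A + 3) := Nat.mul_le_mul_right _ hp
      _ = P ^ 2 := by rw [hP]; ring
  have h6 : 16 ^ (3 * A) * p ^ (8 * A + 3) < B ^ 2 := by
    have : 4 * C₁ ^ 2 * (16 ^ (3 * A) * p ^ (8 * A + 3)) < 4 * C₁ ^ 2 * B ^ 2 := lt_of_le_of_lt h5 h4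
    exact lt_of_mul_lt_mul_left this (Nat.zero_le _)
  refine lt_of_le_of_lt ?_ h6
  calc p ^ (2 * (2 * A) + 3) * X ^ (2 * A + A) = p ^ (4 * A + 3) * (X ^ 3) ^ A := by
        rw [← pow_mul]; congr 2 <;> ring
    _ ≤ p ^ (4 * A + 3) * (16 ^ 3 * p ^ 4) ^ A := Nat.mul_le_mul_left _ (Nat.pow_le_pow_left hX A)
    _ = 16 ^ (3 * A) * p ^ (8 * A + 3) := by
        rw [mul_pow, ← pow_mul, ← pow_mul]
        ring

theorem choose_p (Z X : ℕ) (hZ : 1 ≤ Z) (hX : Z ^ 4 ≤ X) :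
    ∃ (p Z' : ℕ), p.Prime ∧ Z ≤ Z' ∧ Z' ≤ p ∧ X ^ 3 ≤ 16 ^ 3 * p ^ 4 ∧ p * Z' ≤ 2 * X := by
  set Z' := Nat.sqrt (Nat.sqrt X) with hZ'
  have h1 : Z' ^ 4 ≤ X := by
    have e1 := Nat.sqrt_le' (Nat.sqrt X)
    have e2 := Nat.sqrt_le' X
    calc Z' ^ 4 = (Z' ^ 2) ^ 2 := by ring
      _ ≤ (Nat.sqrt X) ^ 2 := Nat.pow_le_pow_left e1 2
      _ ≤ X := e2
  have h2 : X < (Z' + 1) ^ 4 := by
    have e1 := Nat.lt_succ_sqrt' (Nat.sqrt X)
    have e2 := Nat.lt_succ_sqrt' X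
    have e3 : (Nat.sqrt X).succ ≤ (Z' + 1) ^ 2 := e1
    calc X < ((Nat.sqrt X).succ) ^ 2 := e2
      _ ≤ ((Z' + 1) ^ 2) ^ 2 := Nat.pow_le_pow_left e3 2
      _ = _ := by ring
  have h3 : Z ≤ Z' := by
    by_contra h
    have : (Z' + 1) ^ 4 ≤ Z ^ 4 := Nat.pow_le_pow_left (by omega) 4
    omega
  have hZ1 : 1 ≤ Z' := hZ.trans h3
  obtain ⟨p, hp, hp1, hp2⟩ := Nat.exists_prime_lt_and_le_two_mul (Z' ^ 3) (by positivity)
  refine ⟨p, Z', hp, h3, ?_, ?_, ?_⟩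
  · exact (Nat.le_self_pow (by norm_num) Z').trans hp1.le
  · have e1 : X ≤ 16 * Z' ^ 4 := by
      have : (Z' + 1) ^ 4 ≤ (2 * Z') ^ 4 := Nat.pow_le_pow_left (by omega) 4
      calc X ≤ (Z' + 1) ^ 4 := h2.le
        _ ≤ (2 * Z') ^ 4 := this
        _ = _ := by ring
    calc X ^ 3 ≤ (16 * Z' ^ 4) ^ 3 := Nat.pow_le_pow_left e1 3
      _ = 16 ^ 3 * (Z' ^ 3) ^ 4 := by ring
      _ ≤ 16 ^ 3 * p ^ 4 := Nat.mul_le_mul_left _ (Nat.pow_le_pow_left hp1.le 4)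
  · calc p * Z' ≤ (2 * Z' ^ 3) * Z' := Nat.mul_le_mul_right _ hp2
      _ = 2 * Z' ^ 4 := by ring
      _ ≤ 2 * X := Nat.mul_le_mul_left _ h1

end Params

section Core

variable {K : Type*} [Field K] [NumberField K]

/-- the bad points on lines for the determinant method -/
def DMset {m : ℕ} (F : (MvPolynomial (Fin (m + 1)) (𝓞 K))[X]) (p : ℕ) (H : ℝ) (t : Fin m → ℤ) : Set ℤ :=
  {s | ∃ y : 𝓞 K, (spz (F.map (lineHom (𝓞 K) t)) (s : 𝓞 K)).eval y = 0 ∧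
      (∃ u : 𝓞 K, (p : 𝓞 K) ∣ u * (spz (F.map (lineHom (𝓞 K) t)) (s : 𝓞 K)).derivative.eval y - 1) ∧
      hs y ≤ H ∧ ¬ PolyTypeLine (F.map (lineHom (𝓞 K) t)) s y}

theorem spz_line {m : ℕ} (F : (MvPolynomial (Fin (m + 1)) (𝓞 K))[X]) (t : Fin (m + 1) → ℤ) :
    spz (F.map (lineHom (𝓞 K) (Fin.tail t))) ((t 0 : ℤ) : 𝓞 K) = F.map (spc (𝓞 K) t) := by
  unfold spz
  rw [Polynomial.map_map, eval_lineHom, Fin.cons_self_tail]

theorem exc_sub {m : ℕ} (F : (MvPolynomial (Fin (m + 1)) (𝓞 K))[X]) (hF : F.Monic)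
    (a b : (MvPolynomial (Fin (m + 1)) (𝓞 K))[X]) (q : MvPolynomial (Fin (m + 1)) ℤ)
    (hab : a * F + b * derivative F = C (MvPolynomial.map (Int.castRingHom (𝓞 K)) q))
    (T : Set (Fin m → ℤ))
    (hT : ∀ t, t ∉ T → ∀ r : K[X], ((F.map (MvPolynomial.map (algebraMap (𝓞 K) K))).map (lineHom K t)).eval r = 0 →
      ∃ ρ : MvPolynomial (Fin (m + 1)) K, (F.map (MvPolynomial.map (algebraMap (𝓞 K) K))).eval ρ = 0 ∧ lineHom K t ρ = r)
    (p : ℕ) (hp : p.Prime) (X : ℕ) (H : ℝ)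
    (hH : ∀ t ∈ bx (m + 1) X, ∀ y : 𝓞 K, (F.map (spc (𝓞 K) t)).eval y = 0 → hs y ≤ H)
    (t : Fin (m + 1) → ℤ) (ht : t ∈ bx (m + 1) X) (htT : Fin.tail t ∉ T) (htp : ¬ (p : ℤ) ∣ MvPolynomial.eval t q)
    (hte : t ∈ rootExc (F.map (MvPolynomial.map (algebraMap (𝓞 K) K)))) :
    t 0 ∈ DMset F p H (Fin.tail t) := by
  obtain ⟨y, hy, hρ⟩ := hte
  set f := F.map (MvPolynomial.map (algebraMap (𝓞 K) K)) with hf
  have hft : f.map (spc K t) = (F.map (spc (𝓞 K) t)).map (algebraMap (𝓞 K) K) := by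
    rw [hf, Polynomial.map_map, Polynomial.map_map, spc_map]
  have hyint : IsIntegral (𝓞 K) y := by
    refine ⟨F.map (spc (𝓞 K) t), hF.map _, ?_⟩
    rw [← Polynomial.eval_map, ← hft]
    exact hy
  obtain ⟨y', rfl⟩ := IsIntegrallyClosed.isIntegral_iff.1 hyint
  have hy' : (F.map (spc (𝓞 K) t)).eval y' = 0 := by
    rw [hft, Polynomial.eval_map, Polynomial.eval₂_at_apply] at hy
    exact RingOfIntegers.coe_injective (hy.trans (map_zero _).symm)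
  refine ⟨y', ?_, ?_, hH t ht y' hy', ?_⟩
  · rw [spz_line]; exact hy'
  · rw [spz_line]
    have h1 := congrArg (fun g : (MvPolynomial (Fin (m + 1)) (𝓞 K))[X] => (g.map (spc (𝓞 K) t)).eval y') hab
    simp only [Polynomial.map_add, Polynomial.map_mul, eval_add, eval_mul, hy', mul_zero, zero_add,
      Polynomial.map_C, eval_C] at h1
    have h2 : spc (𝓞 K) t (MvPolynomial.map (Int.castRingHom (𝓞 K)) q) = ((MvPolynomial.eval t q : ℤ) : 𝓞 K) := by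
      have e1 := congrArg (fun g => g q) (spc_map (m := m + 1) (Int.castRingHom (𝓞 K)) t)
      have e2 : spc ℤ t = MvPolynomial.eval t := by
        unfold spc
        simp
      simp only [RingHom.comp_apply] at e1
      rw [e1, e2]
      rfl
    rw [h2] at h1
    have hcop : IsCoprime (MvPolynomial.eval t q) (p : ℤ) := by
      exact ((Nat.prime_iff_prime_int.1 hp).irreducible.coprime_iff_not_dvd.2 htp).symm
    obtain ⟨c, d, hcd⟩ := hcop
    refine ⟨(c : 𝓞 K) * (b.map (spc (𝓞 K) t)).eval y', -(d : 𝓞 K), ?_⟩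
    rw [← Polynomial.derivative_map] at h1
    have h3 := congrArg (fun z : ℤ => (z : 𝓞 K)) hcd
    push_cast at h3
    rw [mul_assoc, h1]
    linear_combination h3
  · rintro ⟨r, hr, hry⟩
    have e1 : (F.map (lineHom (𝓞 K) (Fin.tail t))).map (mapRingHom (algebraMap (𝓞 K) K)) =
        f.map (lineHom K (Fin.tail t)) := by
      rw [hf, Polynomial.map_map, Polynomial.map_map, lineHom_map]
    rw [e1] at hr
    obtain ⟨ρ, hρ1, hρ2⟩ := hT _ htT r hr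
    apply hρ ρ hρ1
    have e2 := congrArg (fun g => g ρ) (eval_lineHom (R := K) (Fin.tail t) (t 0))
    rw [Fin.cons_self_tail] at e2
    simp only [RingHom.comp_apply, coe_evalRingHom] at e2
    rw [← e2, hρ2, hry]

end Core

end Pool.Agent.Lib.MP_df4dfc_nt
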