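import Mathlib
import Pool.Agent.Lib.MP_df4dfc_nt.Hit7

set_option autoImplicit false
set_option linter.unusedSectionVars false
set_option linter.unusedVariables false
set_option linter.style.haveILetI false

/-! Quantitative Hilbert irreducibility, root version: conclusion. -/

namespace Pool.Agent.Lib.MP_df4dfc_nt

open Finset NumberField Polynomial

variable {K : Type*} [Field K] [NumberField K]

theorem dm_union_count {m : ℕ} (F : (MvPolynomial (Fin (m + 1)) (𝓞 K))[X]) (p : ℕ) (H : ℝ) (X N0 : ℕ)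
    (h : ∀ t ∈ bx m X, ∀ S : Finset ℤ, (∀ s ∈ S, |s| ≤ (X : ℤ) ∧ s ∈ DMset F p H t) → S.card ≤ N0) :
    ({t : Fin (m + 1) → ℤ | t 0 ∈ DMset F p H (Fin.tail t)} ∩ bx (m + 1) X).ncard ≤ N0 * (2 * X + 1) ^ m := by
  classical
  have hfin : ({t : Fin (m + 1) → ℤ | t 0 ∈ DMset F p H (Fin.tail t)} ∩ bx (m + 1) X).Finite :=
    (bx_finite _ _).subset Set.inter_subset_right
  rw [Set.ncard_eq_toFinset_card _ hfin]
  refine (Finset.card_le_mul_card_image (f := fun t : Fin (m + 1) → ℤ => Fin.tail t) hfin.toFinset N0 ?_).trans ?_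
  · intro t' ht'
    obtain ⟨t₀, ht₀, rfl⟩ := Finset.mem_image.1 ht'
    rw [Set.Finite.mem_toFinset] at ht₀
    have hb : Fin.tail t₀ ∈ bx m X := fun i => ht₀.2 i.succ
    rw [← Finset.card_image_of_injOn (f := fun t : Fin (m + 1) → ℤ => t 0)]
    · apply h _ hb
      intro s hs
      obtain ⟨t, ht, rfl⟩ := Finset.mem_image.1 hs
      rw [Finset.mem_filter, Set.Finite.mem_toFinset] at ht
      refine ⟨ht.1.2 0, ?_⟩
      rw [← ht.2]
      exact ht.1.1
    · intro t ht t' ht' heq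
      rw [Finset.mem_coe, Finset.mem_filter] at ht ht'
      have h2 : Fin.tail t = Fin.tail t' := ht.2.trans ht'.2.symm
      funext i
      refine Fin.cases heq (fun j => congrFun h2 j) i
  · apply Nat.mul_le_mul_left
    rw [← bx_card m X, ← Set.ncard_coe_finset]
    apply Set.ncard_le_ncard _ (bx_finite _ _)
    intro t' ht'
    rw [Finset.mem_coe, Finset.mem_image] at ht'
    obtain ⟨t, ht, rfl⟩ := ht'
    rw [Set.Finite.mem_toFinset] at ht
    exact fun i => ht.2 i.succ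

theorem core_step {m : ℕ} (IH : ∀ g : (MvPolynomial (Fin m) K)[X], g.Monic → Negl (rootExc g))
    (F : (MvPolynomial (Fin (m + 1)) (𝓞 K))[X]) (hF : F.Monic)
    (a b : (MvPolynomial (Fin (m + 1)) (𝓞 K))[X]) (q : MvPolynomial (Fin (m + 1)) ℤ) (hq : q ≠ 0)
    (hab : a * F + b * derivative F = C (MvPolynomial.map (Int.castRingHom (𝓞 K)) q)) :
    Negl (rootExc (F.map (MvPolynomial.map (algebraMap (𝓞 K) K)))) := by
  classical
  set f := F.map (MvPolynomial.map (algebraMap (𝓞 K) K)) with hf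
  have hfm : f.Monic := hF.map _
  -- the exceptional lines
  set T : Set (Fin m → ℤ) := {t | ∃ r : K[X], (f.map (lineHom K t)).eval r = 0 ∧
      ∀ ρ : MvPolynomial (Fin (m + 1)) K, f.eval ρ = 0 → lineHom K t ρ ≠ r} with hT
  have hTn : Negl T := interp_step IH f hfm
  have hTail := hTn.tail
  -- constants
  obtain ⟨Cy, A, hCy, hroots⟩ := roots_bounded F hF
  obtain ⟨δ, hδ⟩ : ∃ δ : ℕ, ∀ i, (F.coeff i).totalDegree ≤ δ := by
    refine ⟨(Finset.range (F.natDegree + 1)).sup fun i => (F.coeff i).totalDegree, fun i => ?_⟩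
    rcases le_or_gt i F.natDegree with h | h
    · exact Finset.le_sup (f := fun i => (F.coeff i).totalDegree) (Finset.mem_range.2 (Nat.lt_succ_of_le h))
    · rw [coeff_eq_zero_of_natDegree_lt h]
      simp
  set bs := RingOfIntegers.basis K with hbs
  haveI : Nonempty (Module.Free.ChooseBasisIndex ℤ (𝓞 K)) := bs.index_nonempty
  set Cb : ℝ := ∑ k, hs (bs k) with hCb
  have hCb0 : 0 ≤ Cb := Finset.sum_nonneg fun k _ => house_nonneg _
  obtain ⟨C₁, hC₁⟩ := exists_nat_gt (((2 * A : ℕ) + 1 : ℝ) * Cb * (1 + Cy))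
  have hC₁1 : 1 ≤ C₁ := by
    have h0 : (0 : ℝ) ≤ ((2 * A : ℕ) + 1 : ℝ) * Cb * (1 + Cy) := by positivity
    have : (0 : ℝ) < C₁ := lt_of_le_of_lt h0 hC₁
    exact_mod_cast this
  set n := max 1 F.natDegree with hn
  set D : ℕ := n ^ (Module.finrank ℚ K) * (δ + (n + 1) * (2 * A)) with hD
  obtain ⟨d, hd⟩ : ∃ d, q.coeff d ≠ 0 := by
    by_contra hcon
    push Not at hcon
    exact hq (MvPolynomial.ext _ _ (by simpa using hcon))
  intro ε hε
  obtain ⟨X₁, hX₁⟩ := hTail (ε / 3) (by positivity)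
  obtain ⟨Z₁, hZ₁⟩ := exists_nat_gt (3 * (q.totalDegree : ℝ) * 2 ^ (m + 1) / ε)
  obtain ⟨Z₂, hZ₂⟩ := exists_nat_gt (3 * (D : ℝ) / ε)
  set Z : ℕ := 1 + 4 * C₁ ^ 2 * 16 ^ (3 * A) + (q.coeff d).natAbs + Z₁ + Z₂ with hZ
  refine ⟨max X₁ (Z ^ 4), fun X hX => ?_⟩
  have hXX₁ : X₁ ≤ X := (le_max_left _ _).trans hX
  have hXZ : Z ^ 4 ≤ X := (le_max_right _ _).trans hX
  obtain ⟨p, Z', hp, hZZ', hZ'p, hX3, hpZ'⟩ := choose_p Z X (by omega) hXZ
  have hX1 : 1 ≤ X := le_trans (Nat.one_le_pow _ _ (by omega)) hXZ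
  have hpX : p ≤ 2 * X + 1 := by
    have : p * 1 ≤ p * Z' := Nat.mul_le_mul_left _ (by omega)
    omega
  obtain ⟨B, hB1, hB2⟩ := params A C₁ p X hC₁1 (by omega) hX3
  set H : ℝ := Cy * (X : ℝ) ^ A with hH
  -- three parts
  have hsub : rootExc f ∩ bx (m + 1) X ⊆
      ({t : Fin (m + 1) → ℤ | Fin.tail t ∈ T} ∩ bx (m + 1) X) ∪
      (({t : Fin (m + 1) → ℤ | (p : ℤ) ∣ MvPolynomial.eval t q} ∩ bx (m + 1) X) ∪
      ({t : Fin (m + 1) → ℤ | t 0 ∈ DMset F p H (Fin.tail t)} ∩ bx (m + 1) X)) := by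
    rintro t ⟨hte, htb⟩
    by_cases h1 : Fin.tail t ∈ T
    · exact Or.inl ⟨h1, htb⟩
    by_cases h2 : (p : ℤ) ∣ MvPolynomial.eval t q
    · exact Or.inr (Or.inl ⟨h2, htb⟩)
    refine Or.inr (Or.inr ⟨?_, htb⟩)
    refine exc_sub F hF a b q hab T ?_ p hp X H ?_ t htb h1 h2 hte
    · intro t' ht' r hr
      by_contra hc
      push Not at hc
      exact ht' ⟨r, hr, hc⟩
    · intro t' ht' y hy
      exact hroots X t' hX1 ht' y hy
  have hc1 := hX₁ X hXX₁
  have hc2 : (({t : Fin (m + 1) → ℤ | (p : ℤ) ∣ MvPolynomial.eval t q} ∩ bx (m + 1) X).ncard : ℝ) ≤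
      ε / 3 * (2 * X + 1) ^ (m + 1) := by
    have hmap : MvPolynomial.map (Int.castRingHom (ZMod p)) q ≠ 0 := by
      intro h
      have h1 := congrArg (fun g => MvPolynomial.coeff d g) h
      simp only [MvPolynomial.coeff_map, MvPolynomial.coeff_zero] at h1
      have h2 : (p : ℤ) ∣ q.coeff d := (ZMod.intCast_zmod_eq_zero_iff_dvd _ _).1 h1
      have h3 := Int.le_of_dvd (by positivity) ((Int.dvd_natAbs).2 h2)
      have h4 : (q.coeff d).natAbs < p := by omega
      omega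
    have h1 := count_mod (m + 1) q p hp hmap X
    set c := ({t : Fin (m + 1) → ℤ | (p : ℤ) ∣ MvPolynomial.eval t q} ∩ bx (m + 1) X).ncard with hc
    have h2 : (2 * X + 1 + p) ^ (m + 1) ≤ 2 ^ (m + 1) * (2 * X + 1) ^ (m + 1) := by
      rw [← mul_pow]
      exact Nat.pow_le_pow_left (by omega) _
    have h3 : c * p ≤ q.totalDegree * (2 ^ (m + 1) * (2 * X + 1) ^ (m + 1)) := h1.trans (Nat.mul_le_mul_left _ h2)
    have h4 : (c : ℝ) * p ≤ q.totalDegree * (2 ^ (m + 1) * (2 * X + 1) ^ (m + 1)) := by exact_mod_cast h3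
    have h5 : (3 * (q.totalDegree : ℝ) * 2 ^ (m + 1)) < p * ε := by
      rw [div_lt_iff₀ hε] at hZ₁
      have : (Z₁ : ℝ) ≤ p := by
        have : Z₁ ≤ p := by omega
        exact_mod_cast this
      nlinarith
    have hp0 : (0 : ℝ) < p := by exact_mod_cast hp.pos
    have h6 : (0 : ℝ) < (2 * X + 1) ^ (m + 1) := by positivity
    have h7 : (c : ℝ) * p ≤ (ε / 3 * (2 * X + 1) ^ (m + 1)) * p := by
      refine h4.trans ?_
      have : (q.totalDegree : ℝ) * 2 ^ (m + 1) ≤ ε / 3 * p := by linarith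
      nlinarith
    exact le_of_mul_le_mul_right h7 hp0
  have hc3 : (({t : Fin (m + 1) → ℤ | t 0 ∈ DMset F p H (Fin.tail t)} ∩ bx (m + 1) X).ncard : ℝ) ≤
      ε / 3 * (2 * X + 1) ^ (m + 1) := by
    have h1 := dm_union_count F p H X (p * D) (by
      intro t ht S hS
      have := dm_count bs (F.map (lineHom (𝓞 K) t)) (hF.map _) n δ (le_max_left _ _)
        ((Polynomial.natDegree_map_le).trans (le_max_right _ _)) (fun i => by
          rw [coeff_map]
          exact (natDegree_lineHom t _).trans (hδ i)) p hp (2 * A) A X B hX1 Cy hCy hB1 (by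
          have hval : ((2 * A : ℕ) + 1 : ℝ) * Cb * (1 + Cy) * B ≤ C₁ * B :=
            mul_le_mul_of_nonneg_right hC₁.le (by positivity)
          have hB2' : (C₁ : ℝ) * B ≤ (p : ℝ) ^ (2 * (2 * A + 1)) := by exact_mod_cast hB2
          rcases Nat.eq_zero_or_pos B with hB0 | hB0
          · rw [hB0]
            have : (0 : ℝ) < (p : ℝ) ^ (2 * (2 * A + 1)) := by
              have : (0 : ℝ) < p := by exact_mod_cast hp.pos
              positivity
            simpa using this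
          · have hB0' : (0 : ℝ) < B := by exact_mod_cast hB0
            have : ((2 * A : ℕ) + 1 : ℝ) * Cb * (1 + Cy) * B < C₁ * B := mul_lt_mul_of_pos_right hC₁ hB0'
            calc ((2 * A : ℕ) + 1 : ℝ) * Cb * B * (1 + Cy) = ((2 * A : ℕ) + 1 : ℝ) * Cb * (1 + Cy) * B := by ring
              _ < C₁ * B := this
              _ ≤ _ := hB2') S (by
          intro s hs
          obtain ⟨h1, y, h2, h3, h4, h5⟩ := hS s hs
          exact ⟨h1, y, h2, h3, h4, h5⟩)
      rw [mul_assoc] at this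
      exact this)
    have h2 : (({t : Fin (m + 1) → ℤ | t 0 ∈ DMset F p H (Fin.tail t)} ∩ bx (m + 1) X).ncard : ℝ) ≤
        (p * D) * (2 * X + 1) ^ m := by exact_mod_cast h1
    refine h2.trans ?_
    have h3 : (p : ℝ) * D ≤ ε / 3 * (2 * X + 1) := by
      have hZ'0 : (0 : ℝ) < Z' := by
        have : 0 < Z' := by omega
        exact_mod_cast this
      have e1 : (p : ℝ) * Z' ≤ 2 * X := by exact_mod_cast hpZ'
      have e2 : 3 * (D : ℝ) ≤ Z' * ε := by
        rw [div_lt_iff₀ hε] at hZ₂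
        have : (Z₂ : ℝ) ≤ Z' := by
          have : Z₂ ≤ Z' := by omega
          exact_mod_cast this
        nlinarith
      have hp0 : (0 : ℝ) ≤ p := by positivity
      have e3 : (p : ℝ) * D * 3 ≤ p * Z' * ε := by nlinarith
      have e4 : (p : ℝ) * Z' * ε ≤ 2 * X * ε := mul_le_mul_of_nonneg_right e1 hε.le
      nlinarith
    rw [pow_succ]
    have h4 : (0 : ℝ) < (2 * X + 1) ^ m := by positivity
    calc (p : ℝ) * D * (2 * X + 1) ^ m ≤ (ε / 3 * (2 * X + 1)) * (2 * X + 1) ^ m :=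
          mul_le_mul_of_nonneg_right h3 h4.le
      _ = _ := by ring
  have hfinU : (({t : Fin (m + 1) → ℤ | Fin.tail t ∈ T} ∩ bx (m + 1) X) ∪
      (({t : Fin (m + 1) → ℤ | (p : ℤ) ∣ MvPolynomial.eval t q} ∩ bx (m + 1) X) ∪
      ({t : Fin (m + 1) → ℤ | t 0 ∈ DMset F p H (Fin.tail t)} ∩ bx (m + 1) X))).Finite :=
    ((bx_finite _ _).subset Set.inter_subset_right).union
      (((bx_finite _ _).subset Set.inter_subset_right).union ((bx_finite _ _).subset Set.inter_subset_right))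
  have h0 := Set.ncard_le_ncard hsub hfinU
  have h1 := h0.trans ((Set.ncard_union_le _ _).trans (Nat.add_le_add_left (Set.ncard_union_le _ _) _))
  have h2 : ((rootExc f ∩ bx (m + 1) X).ncard : ℝ) ≤
      (({t : Fin (m + 1) → ℤ | Fin.tail t ∈ T} ∩ bx (m + 1) X).ncard : ℝ) +
      ((({t : Fin (m + 1) → ℤ | (p : ℤ) ∣ MvPolynomial.eval t q} ∩ bx (m + 1) X).ncard : ℝ) +
      (({t : Fin (m + 1) → ℤ | t 0 ∈ DMset F p H (Fin.tail t)} ∩ bx (m + 1) X).ncard : ℝ)) := by
    exact_mod_cast h1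
  linarith

end Pool.Agent.Lib.MP_df4dfc_nt
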