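import Mathlib
import Pool.Agent.Lib.MP_df4dfc_nt.Hit8

set_option autoImplicit false
set_option linter.unusedSectionVars false
set_option linter.unusedVariables false
set_option linter.style.haveILetI false

/-! Quantitative Hilbert irreducibility, root version, for all monic polynomials. -/

namespace Pool.Agent.Lib.MP_df4dfc_nt

open Finset NumberField Polynomial

variable {K : Type*} [Field K] [NumberField K]

section Clear

theorem clear_K (x : K) : ∃ c : 𝓞 K, c ≠ 0 ∧ ∃ x' : 𝓞 K, algebraMap (𝓞 K) K x' = algebraMap (𝓞 K) K c * x := by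
  obtain ⟨⟨a, b⟩, h⟩ := IsLocalization.surj (nonZeroDivisors (𝓞 K)) x
  exact ⟨b, nonZeroDivisors.ne_zero b.2, a, by rw [← h, mul_comm]⟩

theorem clear_Mv {σ : Type*} (x : MvPolynomial σ K) : ∃ c : 𝓞 K, c ≠ 0 ∧ ∃ x' : MvPolynomial σ (𝓞 K),
    MvPolynomial.map (algebraMap (𝓞 K) K) x' = MvPolynomial.C (algebraMap (𝓞 K) K c) * x := by
  classical
  induction x using MvPolynomial.induction_on' with
  | monomial u a =>
    obtain ⟨c, hc, a', ha'⟩ := clear_K a
    refine ⟨c, hc, MvPolynomial.monomial u a', ?_⟩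
    rw [MvPolynomial.map_monomial, ha', MvPolynomial.C_mul_monomial]
  | add x y hx hy =>
    obtain ⟨c, hc, x', hx'⟩ := hx
    obtain ⟨d, hd, y', hy'⟩ := hy
    refine ⟨c * d, mul_ne_zero hc hd, MvPolynomial.C d * x' + MvPolynomial.C c * y', ?_⟩
    rw [map_add, map_mul, map_mul, MvPolynomial.map_C, MvPolynomial.map_C, hx', hy', map_mul, map_mul]
    ring

theorem clear_poly {σ : Type*} (x : (MvPolynomial σ K)[X]) : ∃ c : 𝓞 K, c ≠ 0 ∧ ∃ x' : (MvPolynomial σ (𝓞 K))[X],
    x'.map (MvPolynomial.map (algebraMap (𝓞 K) K)) = C (MvPolynomial.C (algebraMap (𝓞 K) K c)) * x := by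
  classical
  induction x using Polynomial.induction_on' with
  | monomial n a =>
    obtain ⟨c, hc, a', ha'⟩ := clear_Mv a
    refine ⟨c, hc, monomial n a', ?_⟩
    rw [Polynomial.map_monomial, ha', Polynomial.C_mul_monomial]
  | add x y hx hy =>
    obtain ⟨c, hc, x', hx'⟩ := hx
    obtain ⟨d, hd, y', hy'⟩ := hy
    refine ⟨c * d, mul_ne_zero hc hd, C (MvPolynomial.C d) * x' + C (MvPolynomial.C c) * y', ?_⟩
    rw [Polynomial.map_add, Polynomial.map_mul, Polynomial.map_mul, Polynomial.map_C, Polynomial.map_C, hx', hy',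
      MvPolynomial.map_C, MvPolynomial.map_C, map_mul, map_mul, map_mul]
    ring

attribute [local instance] MvPolynomial.algebraMvPolynomial in
theorem exists_int_multiple {σ : Type*} (D : MvPolynomial σ (𝓞 K)) (hD : D ≠ 0) :
    ∃ (w : MvPolynomial σ (𝓞 K)) (q : MvPolynomial σ ℤ), q ≠ 0 ∧ w * D = MvPolynomial.map (Int.castRingHom (𝓞 K)) q := by
  classical
  have hint : IsIntegral (MvPolynomial σ ℤ) D := Algebra.IsIntegral.isIntegral D
  have h1 := Ideal.comap_ne_bot_of_integral_mem (R := MvPolynomial σ ℤ) (I := Ideal.span {D}) hD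
    (Ideal.mem_span_singleton_self D) hint
  obtain ⟨q, hq, hq0⟩ := Submodule.exists_mem_ne_zero_of_ne_bot h1
  rw [Ideal.mem_comap, Ideal.mem_span_singleton'] at hq
  obtain ⟨w, hw⟩ := hq
  exact ⟨w, q, hq0, hw⟩

end Clear

section Induct

theorem exc_mul {m : ℕ} (g h : (MvPolynomial (Fin m) K)[X]) : rootExc (g * h) ⊆ rootExc g ∪ rootExc h := by
  rintro t ⟨y, hy, hρ⟩
  rw [Polynomial.map_mul, eval_mul, mul_eq_zero] at hy
  rcases hy with hy | hy
  · exact Or.inl ⟨y, hy, fun ρ h' => hρ ρ (by rw [eval_mul, h', zero_mul])⟩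
  · exact Or.inr ⟨y, hy, fun ρ h' => hρ ρ (by rw [eval_mul, h', mul_zero])⟩

theorem exc_scale {m : ℕ} (f : (MvPolynomial (Fin m) K)[X]) (hf : f.Monic) (c : K) (hc : c ≠ 0) :
    rootExc f ⊆ rootExc (f.scaleRoots (MvPolynomial.C c)) := by
  rintro t ⟨y, hy, hρ⟩
  have e1 : (f.scaleRoots (MvPolynomial.C c)).map (spc K t) = (f.map (spc K t)).scaleRoots c := by
    rw [Polynomial.map_scaleRoots _ _ _ (by rw [hf.leadingCoeff, map_one]; exact one_ne_zero)]
    simp
  refine ⟨c * y, ?_, ?_⟩
  · rw [e1]
    have := Polynomial.scaleRoots_eval₂_mul (p := f.map (spc K t)) (RingHom.id K) y c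
    rw [Polynomial.eval₂_id, Polynomial.eval₂_id, hy, mul_zero] at this
    exact this
  · intro ρ hρ0 hty
    apply hρ (MvPolynomial.C c⁻¹ * ρ)
    · have := Polynomial.scaleRoots_eval₂_mul (p := f) (RingHom.id _) (MvPolynomial.C c⁻¹ * ρ) (MvPolynomial.C c)
      rw [Polynomial.eval₂_id, Polynomial.eval₂_id] at this
      have e2 : (RingHom.id (MvPolynomial (Fin m) K)) (MvPolynomial.C c) * (MvPolynomial.C c⁻¹ * ρ) = ρ := by
        rw [RingHom.id_apply, ← mul_assoc, ← map_mul, mul_inv_cancel₀ hc, map_one, one_mul]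
      rw [e2, hρ0] at this
      rcases mul_eq_zero.1 this.symm with h | h
      · exfalso
        exact absurd (pow_eq_zero_iff (n := f.natDegree) (by
          intro h0
          rw [h0, pow_zero] at h
          exact one_ne_zero h) |>.1 h) (by
            rw [RingHom.id_apply]
            exact fun h' => hc (MvPolynomial.C_injective _ _ (by rw [h', map_zero])))
      · exact h
    · rw [map_mul, hty]
      simp [hc]

theorem exc_fin_zero (f : (MvPolynomial (Fin 0) K)[X]) : rootExc f = ∅ := by
  rw [Set.eq_empty_iff_forall_notMem]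
  rintro t ⟨y, hy, hρ⟩
  have hinj : Function.Injective (spc K t) := by
    intro a b hab
    rw [MvPolynomial.eq_C_of_isEmpty a, MvPolynomial.eq_C_of_isEmpty b] at hab ⊢
    simp only [MvPolynomial.eval_C] at hab
    rw [hab]
  apply hρ (MvPolynomial.C y)
  · apply hinj
    have := Polynomial.eval₂_at_apply (p := f) (spc K t) (MvPolynomial.C y)
    rw [← this, ← Polynomial.eval_map, map_zero]
    simpa using hy
  · simp

theorem irr_scale {A : Type*} [CommRing A] [IsDomain A] (f : A[X]) (hf : f.Monic) (hirr : Irreducible f) (c : A) (hc : IsUnit c) :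
    Irreducible (f.scaleRoots c) := by
  have hm : (f.scaleRoots c).Monic := by
    rw [Polynomial.monic_scaleRoots_iff]; exact hf
  rw [hm.irreducible_iff_natDegree]
  rw [hf.irreducible_iff_natDegree] at hirr
  refine ⟨?_, ?_⟩
  · intro h
    apply hirr.1
    have h1 := hf.natDegree_eq_zero.1 (by
      rw [← Polynomial.natDegree_scaleRoots f c, h, natDegree_one])
    exact h1
  · intro g h hg hh hgh
    obtain ⟨d, hd⟩ := hc.exists_right_inv
    have h1 : (g.scaleRoots d) * (h.scaleRoots d) = f := by
      rw [← Polynomial.mul_scaleRoots_of_noZeroDivisors, hgh, ← Polynomial.scaleRoots_mul, hd, Polynomial.scaleRoots_one]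
    have h2 := hirr.2 (g.scaleRoots d) (h.scaleRoots d) ((Polynomial.monic_scaleRoots_iff _).2 hg)
      ((Polynomial.monic_scaleRoots_iff _).2 hh) h1
    rwa [Polynomial.natDegree_scaleRoots, Polynomial.natDegree_scaleRoots] at h2

theorem bezout_irr {A : Type*} [CommRing A] [IsDomain A] [IsIntegrallyClosed A] [CharZero A] (g : A[X]) (hg : g.Monic)
    (hirr : Irreducible g) : ∃ (a b : A[X]) (D : A), D ≠ 0 ∧ a * g + b * derivative g = C D := by
  classical
  set Q := FractionRing A
  haveI : CharZero Q := charZero_of_injective_algebraMap (IsFractionRing.injective A Q)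
  have h1 : Irreducible (g.map (algebraMap A Q)) := (hg.irreducible_iff_irreducible_map_fraction_map).1 hirr
  have h2 : (g.map (algebraMap A Q)).Separable := h1.separable
  obtain ⟨u, v, huv⟩ := h2
  obtain ⟨b₁, hb₁', hb₁⟩ := IsLocalization.integerNormalization_spec (nonZeroDivisors A) u
  obtain ⟨b₂, hb₂', hb₂⟩ := IsLocalization.integerNormalization_spec (nonZeroDivisors A) v
  set U := IsLocalization.integerNormalization (nonZeroDivisors A) u
  set V := IsLocalization.integerNormalization (nonZeroDivisors A) v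
  refine ⟨C b₂ * U, C b₁ * V, b₁ * b₂, mul_ne_zero (nonZeroDivisors.ne_zero hb₁') (nonZeroDivisors.ne_zero hb₂'), ?_⟩
  apply Polynomial.map_injective (algebraMap A Q) (IsFractionRing.injective A Q)
  rw [Polynomial.map_add, Polynomial.map_mul, Polynomial.map_mul, Polynomial.map_mul, Polynomial.map_mul, hb₁, hb₂,
    ← Polynomial.derivative_map, Polynomial.map_C, Polynomial.map_C, Polynomial.map_C, Algebra.smul_def, Algebra.smul_def,
    Polynomial.algebraMap_apply, Polynomial.algebraMap_apply, map_mul, map_mul]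
  linear_combination (C (algebraMap A Q b₁) * C (algebraMap A Q b₂)) * huv

theorem root_negl_irr {m : ℕ} (IH : ∀ g : (MvPolynomial (Fin m) K)[X], g.Monic → Negl (rootExc g))
    (f : (MvPolynomial (Fin (m + 1)) K)[X]) (hf : f.Monic) (hirr : Irreducible f) : Negl (rootExc f) := by
  classical
  set φ : MvPolynomial (Fin (m + 1)) (𝓞 K) →+* MvPolynomial (Fin (m + 1)) K := MvPolynomial.map (algebraMap (𝓞 K) K) with hφ
  have hφinj : Function.Injective φ := MvPolynomial.map_injective _ RingOfIntegers.coe_injective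
  obtain ⟨c, hc, f', hf'⟩ := clear_poly f
  have hcK : algebraMap (𝓞 K) K c ≠ 0 := fun h => hc (RingOfIntegers.coe_injective (h.trans (map_zero _).symm))
  set cc : MvPolynomial (Fin (m + 1)) K := MvPolynomial.C (algebraMap (𝓞 K) K c) with hcc
  have hccu : IsUnit cc := (isUnit_iff_ne_zero.2 hcK).map MvPolynomial.C
  set g := f.scaleRoots cc with hg
  have hgm : g.Monic := (Polynomial.monic_scaleRoots_iff _).2 hf
  have hgirr : Irreducible g := irr_scale f hf hirr cc hccu
  have hlift : g ∈ Polynomial.lifts φ := by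
    rw [Polynomial.lifts_iff_coeff_lifts]
    intro i
    rw [hg, Polynomial.coeff_scaleRoots]
    rcases lt_trichotomy i f.natDegree with hi | hi | hi
    · have e1 : φ (f'.coeff i) = cc * f.coeff i := by
        have := congrArg (fun p => p.coeff i) hf'
        simp only [coeff_map, coeff_C_mul] at this
        exact this
      refine ⟨f'.coeff i * MvPolynomial.C c ^ (f.natDegree - i - 1), ?_⟩
      rw [map_mul, e1, map_pow, hφ, MvPolynomial.map_C, ← hcc]
      have e2 : f.natDegree - i = (f.natDegree - i - 1) + 1 := by omega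
      conv_rhs => rw [e2, pow_succ]
      ring
    · rw [hi, Nat.sub_self, pow_zero, mul_one, hf.coeff_natDegree]
      exact ⟨1, map_one _⟩
    · rw [coeff_eq_zero_of_natDegree_lt hi, zero_mul]
      exact ⟨0, map_zero _⟩
  obtain ⟨F, hFg, -, hFm⟩ := Polynomial.lifts_and_natDegree_eq_and_monic hlift hgm
  obtain ⟨a, b, D, hD, hab⟩ := bezout_irr g hgm hgirr
  obtain ⟨ca, hca, a', ha'⟩ := clear_poly a
  obtain ⟨cb, hcb, b', hb'⟩ := clear_poly b
  obtain ⟨cd, hcd, D', hD'⟩ := clear_Mv D
  have hD'0 : D' ≠ 0 := by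
    rintro rfl
    rw [map_zero] at hD'
    rcases mul_eq_zero.1 hD'.symm with h | h
    · have := MvPolynomial.C_injective _ _ (h.trans (map_zero MvPolynomial.C).symm)
      exact hcd (RingOfIntegers.coe_injective (this.trans (map_zero _).symm))
    · exact hD h
  set D'' := MvPolynomial.C (ca * cb) * D' with hD''
  have hD''0 : D'' ≠ 0 := by
    refine mul_ne_zero ?_ hD'0
    intro h
    exact mul_ne_zero hca hcb (MvPolynomial.C_injective _ _ (h.trans (map_zero MvPolynomial.C).symm))
  obtain ⟨w, q, hq, hw⟩ := exists_int_multiple D'' hD''0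
  have hbez : (C (MvPolynomial.C (cb * cd)) * a') * F + (C (MvPolynomial.C (ca * cd)) * b') * derivative F = C D'' := by
    apply Polynomial.map_injective φ hφinj
    have hder : (derivative F).map φ = derivative g := by rw [← Polynomial.derivative_map, hFg]
    have hφC : ∀ x, φ (MvPolynomial.C x) = MvPolynomial.C (algebraMap (𝓞 K) K x) := fun x => MvPolynomial.map_C _ _
    have hD2 : φ D' = MvPolynomial.C (algebraMap (𝓞 K) K cd) * D := hD'
    have ha2 : a'.map φ = C (MvPolynomial.C (algebraMap (𝓞 K) K ca)) * a := ha'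
    have hb2 : b'.map φ = C (MvPolynomial.C (algebraMap (𝓞 K) K cb)) * b := hb'
    simp only [Polynomial.map_add, Polynomial.map_mul, Polynomial.map_C, hder, hFg, ha2, hb2, hD'', map_mul, hφC, hD2]
    linear_combination (C (MvPolynomial.C (algebraMap (𝓞 K) K ca)) * C (MvPolynomial.C (algebraMap (𝓞 K) K cb)) *
      C (MvPolynomial.C (algebraMap (𝓞 K) K cd))) * hab
  have hbez2 : (C w * (C (MvPolynomial.C (cb * cd)) * a')) * F + (C w * (C (MvPolynomial.C (ca * cd)) * b')) * derivative F =
      C (MvPolynomial.map (Int.castRingHom (𝓞 K)) q) := by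
    rw [← hw, Polynomial.C_mul (a := w), ← hbez]
    ring
  have hcore := core_step IH F hFm _ _ q hq hbez2
  rw [← hφ, hFg] at hcore
  exact hcore.mono (exc_scale f hf _ hcK)

/-- **Quantitative Hilbert irreducibility, root version.** For a monic polynomial `f` over `K[t₁,…,t_m]`,
for 100% of integer points `t` all `K`-rational roots of `f_t` are values of polynomial roots of `f`. -/
theorem root_negl : ∀ (m : ℕ) (f : (MvPolynomial (Fin m) K)[X]), f.Monic → Negl (rootExc f) := by
  intro m
  induction m with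
  | zero =>
    intro f _
    rw [exc_fin_zero]
    exact Negl.empty
  | succ m IH =>
    intro f
    induction hn : f.natDegree using Nat.strong_induction_on generalizing f with
    | _ n ih =>
      intro hf
      by_cases h1 : f = 1
      · rw [h1]
        refine Negl.empty.mono ?_
        rintro t ⟨y, hy, -⟩
        simp at hy
      by_cases hirr : Irreducible f
      · exact root_negl_irr IH f hf hirr
      rw [hf.irreducible_iff_natDegree] at hirr
      push Not at hirr
      obtain ⟨g, h, hg, hh, hgh, hg0, hh0⟩ := hirr h1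
      have hdeg : g.natDegree + h.natDegree = n := by rw [← hn, ← hgh, hg.natDegree_mul hh]
      rw [← hgh]
      exact ((ih g.natDegree (by omega) g rfl hg).union (ih h.natDegree (by omega) h rfl hh)).mono (exc_mul g h)

end Induct

end Pool.Agent.Lib.MP_df4dfc_nt
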