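import Mathlib
import Pool.Agent.Lib.MP_df4dfc_nt.Hit9

set_option autoImplicit false
set_option linter.unusedSectionVars false
set_option linter.unusedVariables false
set_option linter.style.haveILetI false

/-! Quantitative Hilbert irreducibility theorem. -/

namespace Pool.Agent.Lib.MP_df4dfc_nt

open Finset NumberField Polynomial

section Ext

theorem ext_hom {A A' k : Type*} [CommRing A] [CommRing A'] [Algebra A A'] [Algebra.IsIntegral A A']
    (hinj : Function.Injective (algebraMap A A')) [Field k] [IsAlgClosed k] (φ : A →+* k) :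
    ∃ ψ : A' →+* k, ψ.comp (algebraMap A A') = φ := by
  classical
  set P : Ideal A := RingHom.ker φ with hP
  haveI hPp : P.IsPrime := RingHom.ker_isPrime φ
  obtain ⟨Q, -, hQ, hQP⟩ := Ideal.exists_ideal_over_prime_of_isIntegral P (⊥ : Ideal A') (by
    rw [← RingHom.ker_eq_comap_bot, (RingHom.injective_iff_ker_eq_bot _).1 hinj]
    exact bot_le)
  haveI : Q.LiesOver P := ⟨hQP.symm⟩
  letI : Algebra (A ⧸ P) k := (Ideal.Quotient.lift P φ (fun a ha => ha)).toAlgebra
  have hinjk : Function.Injective (algebraMap (A ⧸ P) k) := by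
    rw [RingHom.algebraMap_toAlgebra]
    exact RingHom.kerLift_injective φ
  haveI : FaithfulSMul (A ⧸ P) k := (faithfulSMul_iff_algebraMap_injective _ _).2 hinjk
  haveI : Algebra.IsAlgebraic (A ⧸ P) (A' ⧸ Q) := Algebra.IsIntegral.isAlgebraic
  let l : (A' ⧸ Q) →ₐ[A ⧸ P] k := IsAlgClosed.lift
  refine ⟨l.toRingHom.comp (Ideal.Quotient.mk Q), ?_⟩
  ext a
  have h1 : (Ideal.Quotient.mk Q) (algebraMap A A' a) = algebraMap (A ⧸ P) (A' ⧸ Q) (Ideal.Quotient.mk P a) := rfl
  rw [RingHom.comp_apply, RingHom.comp_apply, h1]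
  have h2 := l.commutes (Ideal.Quotient.mk P a)
  exact h2

end Ext

section Resolvent

variable {A : Type*} [CommRing A] [IsDomain A]

theorem exists_resolvent (f : A[X]) (hf : f.Monic) (c : A) :
    ∃ R : A[X], R.Monic ∧ ∀ (k : Type*) [Field k] (φ : A →+* k) (g : k[X]), g.Monic → g ∣ f.map φ →
      (R.map φ).eval (g.eval (φ c)) = 0 := by
  classical
  set Ω := AlgebraicClosure (FractionRing A) with hΩ
  have hAΩ : Function.Injective (algebraMap A Ω) := by
    rw [IsScalarTower.algebraMap_eq A (FractionRing A) Ω]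
    exact (algebraMap (FractionRing A) Ω).injective.comp (IsFractionRing.injective A _)
  set A' := integralClosure A Ω with hA'
  haveI : Algebra.IsIntegral A A' := integralClosure.AlgebraIsIntegral
  have hAA' : Function.Injective (algebraMap A A') := by
    intro x y h
    apply hAΩ
    exact congrArg Subtype.val h
  set r : Multiset Ω := (f.map (algebraMap A Ω)).roots with hr
  have hrint : ∀ x ∈ r, x ∈ A' := by
    intro x hx
    rw [hr, Polynomial.mem_roots (hf.map _).ne_zero, Polynomial.IsRoot.def] at hx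
    exact ⟨f, hf, by rw [← Polynomial.eval_map]; exact hx⟩
  set r' : Multiset A' := r.pmap (fun x hx => ⟨x, hx⟩) hrint with hr'
  have hr'r : r'.map Subtype.val = r := by
    rw [hr', Multiset.map_pmap]
    simp [Multiset.pmap_eq_map]
  have hprod : f.map (algebraMap A A') = (r'.map (fun x => X - C x)).prod := by
    apply Polynomial.map_injective (algebraMap A' Ω) Subtype.val_injective
    rw [Polynomial.map_map, Polynomial.map_multiset_prod, Multiset.map_map]
    have e1 : (algebraMap A' Ω).comp (algebraMap A A') = algebraMap A Ω := rfl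
    rw [e1, (IsAlgClosed.splits (f.map (algebraMap A Ω))).eq_prod_roots_of_monic (hf.map _), ← hr, ← hr'r, Multiset.map_map]
    congr 1
    refine Multiset.map_congr rfl fun x _ => ?_
    simp
  -- the integral elements
  set z : Multiset A' → A' := fun u => (u.map (fun x => algebraMap A A' c - x)).prod with hz
  choose Ru hRum hRu using fun u : Multiset A' => (Algebra.IsIntegral.isIntegral (R := A) (z u))
  refine ⟨((Multiset.powerset r').map Ru).prod, Polynomial.monic_multiset_prod_of_monic _ _ (fun u _ => hRum u), ?_⟩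
  intro k _ φ g hg hgf
  set kb := AlgebraicClosure k
  obtain ⟨ψ, hψ⟩ := ext_hom (A' := A') hAA' ((algebraMap k kb).comp φ)
  have hfk : (f.map φ).map (algebraMap k kb) = ((r'.map ψ).map (fun x => X - C x)).prod := by
    rw [Polynomial.map_map, ← hψ, ← Polynomial.map_map, hprod, Polynomial.map_multiset_prod, Multiset.map_map, Multiset.map_map]
    congr 1
    refine Multiset.map_congr rfl fun x _ => ?_
    simp
  set s := (g.map (algebraMap k kb)).roots with hs
  have hgs : g.map (algebraMap k kb) = (s.map (fun x => X - C x)).prod :=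
    (IsAlgClosed.splits _).eq_prod_roots_of_monic (hg.map _)
  have hsle : s ≤ r'.map ψ := by
    have h1 : (g.map (algebraMap k kb)) ∣ ((r'.map ψ).map (fun x => X - C x)).prod := by
      rw [← hfk]
      exact Polynomial.map_dvd _ hgf
    have h2 := Polynomial.roots.le_of_dvd (by
      rw [← hfk]
      exact ((hf.map _).map _).ne_zero) h1
    rwa [Polynomial.roots_multiset_prod_X_sub_C] at h2
  obtain ⟨u, hu, hus⟩ : ∃ u ∈ Multiset.powerset r', u.map ψ = s := by
    have h1 : s ∈ Multiset.powersetCard (Multiset.card s) (r'.map ψ) := Multiset.mem_powersetCard.2 ⟨hsle, rfl⟩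
    rw [Multiset.powersetCard_map, Multiset.mem_map] at h1
    obtain ⟨u, hu, hus⟩ := h1
    exact ⟨u, Multiset.mem_powerset.2 (Multiset.mem_powersetCard.1 hu).1, hus⟩
  have hval : algebraMap k kb (g.eval (φ c)) = ψ (z u) := by
    have e1 : algebraMap k kb (g.eval (φ c)) = (g.map (algebraMap k kb)).eval (algebraMap k kb (φ c)) := by
      rw [Polynomial.eval_map, Polynomial.eval₂_at_apply]
    have e2 : algebraMap k kb (φ c) = ψ (algebraMap A A' c) := by
      have := congrArg (fun h => h c) hψ
      exact this.symm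
    rw [e1, hgs, hz, ← hus, Multiset.map_map, Polynomial.eval_multiset_prod, Multiset.map_map, map_multiset_prod,
      Multiset.map_map, e2]
    congr 1
    refine Multiset.map_congr rfl fun x _ => ?_
    simp
  apply (algebraMap k kb).injective
  rw [map_zero]
  have e3 : algebraMap k kb (((((Multiset.powerset r').map Ru).prod).map φ).eval (g.eval (φ c))) =
      ψ ((((((Multiset.powerset r').map Ru).prod).map (algebraMap A A'))).eval (z u)) := by
    have h1 : algebraMap k kb (((((Multiset.powerset r').map Ru).prod).map φ).eval (g.eval (φ c))) =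
        (((((Multiset.powerset r').map Ru).prod).map φ).map (algebraMap k kb)).eval (algebraMap k kb (g.eval (φ c))) := by
      rw [Polynomial.eval_map (f := algebraMap k kb), Polynomial.eval₂_at_apply]
    rw [h1, Polynomial.map_map, ← hψ, ← Polynomial.map_map, hval, Polynomial.eval_map (f := ψ), Polynomial.eval₂_at_apply]
  rw [e3]
  have e4 : ((((Multiset.powerset r').map Ru).prod).map (algebraMap A A')).eval (z u) = 0 := by
    rw [Polynomial.map_multiset_prod, Multiset.map_map, Polynomial.eval_multiset_prod, Multiset.map_map]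
    apply Multiset.prod_eq_zero
    rw [Multiset.mem_map]
    refine ⟨u, hu, ?_⟩
    simp only [Function.comp_apply]
    rw [Polynomial.eval_map]
    exact hRu u
  rw [e4, map_zero]

end Resolvent

section Hilbert

variable {K : Type*} [Field K] [NumberField K]

/-- monic interpolation -/
noncomputable def mlagr {m : ℕ} (k : ℕ) (ρ : Fin k → MvPolynomial (Fin m) K) : (MvPolynomial (Fin m) K)[X] :=
  (∏ i : Fin k, (X - C (MvPolynomial.C ((i : ℕ) : K)))) + ∑ i : Fin k, C (ρ i) *
    ((Lagrange.basis Finset.univ (fun j : Fin k => ((j : ℕ) : K)) i).map MvPolynomial.C)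

theorem inj_nodes (k : ℕ) : Set.InjOn (fun j : Fin k => ((j : ℕ) : K)) (Finset.univ : Finset (Fin k)) := by
  intro i _ j _ hij
  exact Fin.ext (Nat.cast_injective hij)

theorem mlagr_low {m : ℕ} (k : ℕ) (hk : 0 < k) (ρ : Fin k → MvPolynomial (Fin m) K) :
    (∑ i : Fin k, C (ρ i) * ((Lagrange.basis Finset.univ (fun j : Fin k => ((j : ℕ) : K)) i).map MvPolynomial.C)).degree < (k : WithBot ℕ) := by
  refine (Polynomial.degree_sum_le _ _).trans_lt ?_
  rw [Finset.sup_lt_iff (by exact WithBot.bot_lt_coe k)]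
  intro i _
  refine lt_of_le_of_lt (Polynomial.degree_mul_le _ _) ?_
  have h1 : (C (ρ i)).degree ≤ 0 := Polynomial.degree_C_le
  have h2 : ((Lagrange.basis Finset.univ (fun j : Fin k => ((j : ℕ) : K)) i).map
      (MvPolynomial.C : K →+* MvPolynomial (Fin m) K)).degree ≤ ((k - 1 : ℕ) : WithBot ℕ) := by
    refine (Polynomial.degree_map_le).trans ?_
    rw [Lagrange.degree_basis (inj_nodes k) (Finset.mem_univ i), Finset.card_univ, Fintype.card_fin]
  calc (C (ρ i)).degree + _ ≤ 0 + ((k - 1 : ℕ) : WithBot ℕ) := add_le_add h1 h2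
    _ = ((k - 1 : ℕ) : WithBot ℕ) := zero_add _
    _ < k := by exact_mod_cast Nat.sub_lt hk one_pos

theorem prod_nodes_monic {R : Type*} [CommRing R] [Nontrivial R] (k : ℕ) (a : Fin k → R) :
    (∏ i : Fin k, (X - C (a i))).Monic ∧ (∏ i : Fin k, (X - C (a i))).degree = (k : WithBot ℕ) := by
  refine ⟨Polynomial.monic_prod_of_monic _ _ fun i _ => monic_X_sub_C _, ?_⟩
  have := Polynomial.degree_prod_of_monic (Finset.univ : Finset (Fin k)) (fun i => (X - C (a i) : R[X])) (fun i _ => monic_X_sub_C _)
  rw [this]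
  simp

theorem mlagr_monic {m : ℕ} (k : ℕ) (hk : 0 < k) (ρ : Fin k → MvPolynomial (Fin m) K) :
    (mlagr k ρ).Monic ∧ (mlagr k ρ).natDegree = k := by
  obtain ⟨h1, h2⟩ := prod_nodes_monic k (fun i : Fin k => (MvPolynomial.C ((i : ℕ) : K) : MvPolynomial (Fin m) K))
  have h3 := mlagr_low k hk ρ
  rw [← h2] at h3
  refine ⟨h1.add_of_left h3, ?_⟩
  unfold mlagr
  rw [Polynomial.natDegree_add_eq_left_of_degree_lt h3]
  exact Polynomial.natDegree_eq_of_degree_eq_some h2

theorem mlagr_map {m : ℕ} (k : ℕ) (hk : 0 < k) (ρ : Fin k → MvPolynomial (Fin m) K) (t : Fin m → ℤ) (g : K[X]) (hg : g.Monic)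
    (hgk : g.natDegree = k) (h : ∀ i : Fin k, g.eval ((i : ℕ) : K) = spc K t (ρ i)) :
    (mlagr k ρ).map (spc K t) = g := by
  obtain ⟨h1, h2⟩ := prod_nodes_monic k (fun i : Fin k => ((i : ℕ) : K))
  have hdeg : (g - ∏ i : Fin k, (X - C ((i : ℕ) : K))).degree < (k : WithBot ℕ) := by
    have hgd : g.degree = (k : WithBot ℕ) := by
      rw [Polynomial.degree_eq_natDegree hg.ne_zero, hgk]
    have := Polynomial.degree_sub_lt (p := g) (q := ∏ i : Fin k, (X - C ((i : ℕ) : K))) (by rw [hgd, h2]) hg.ne_zero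
      (by rw [hg.leadingCoeff, h1.leadingCoeff])
    rwa [hgd] at this
  have h3 := Lagrange.eq_interpolate (f := g - ∏ i : Fin k, (X - C ((i : ℕ) : K))) (inj_nodes k) (by
    rw [Finset.card_univ, Fintype.card_fin]
    exact hdeg)
  have h4 : g = (∏ i : Fin k, (X - C ((i : ℕ) : K))) + (g - ∏ i : Fin k, (X - C ((i : ℕ) : K))) := by ring
  rw [h4, h3, Lagrange.interpolate_apply]
  unfold mlagr
  rw [Polynomial.map_add, Polynomial.map_prod, Polynomial.map_sum]
  congr 1
  · refine Finset.prod_congr rfl fun i _ => ?_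
    simp
  · refine Finset.sum_congr rfl fun i _ => ?_
    rw [Polynomial.map_mul, Polynomial.map_C, Polynomial.map_map]
    congr 1
    · rw [← h i, Polynomial.eval_sub, Polynomial.eval_prod, Finset.prod_eq_zero (Finset.mem_univ i)]
      · rw [sub_zero]
      · simp
    · have : (spc K t).comp MvPolynomial.C = RingHom.id K := by
        ext x; simp
      rw [this, Polynomial.map_id]

/-- **Quantitative Hilbert irreducibility theorem** for number fields: if `f ∈ K[t₁,…,t_m][Y]` is monic in `Y` and
irreducible, then `f_t ∈ K[Y]` is irreducible for 100% of the integer points `t`. -/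
theorem hilbert_irreducibility {m : ℕ} (f : (MvPolynomial (Fin m) K)[X]) (hf : f.Monic) (hirr : Irreducible f) :
    Negl {t : Fin m → ℤ | ¬ Irreducible (f.map (spc K t))} := by
  classical
  set n := f.natDegree with hn
  choose R hRm hR using fun c : ℕ => exists_resolvent f hf ((c : ℕ) : MvPolynomial (Fin m) K)
  set P : (k : ℕ) → Finset (Fin k → MvPolynomial (Fin m) K) := fun k => Fintype.piFinset fun i => (R i).roots.toFinset with hP
  have hN1 : Negl (⋃ c ∈ Finset.range n, rootExc (R c)) := Negl.biUnion _ _ fun c _ => root_negl m _ (hRm c)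
  have hrem : ∀ k ∈ Finset.Ico 1 n, ∀ ρ : Fin k → MvPolynomial (Fin m) K, ∃ j, (f %ₘ (mlagr k ρ)).coeff j ≠ 0 := by
    intro k hk ρ
    rw [Finset.mem_Ico] at hk
    obtain ⟨hm, hd⟩ := mlagr_monic k (by omega) ρ
    by_contra hcon
    push Not at hcon
    have h0 : f %ₘ (mlagr k ρ) = 0 := Polynomial.ext (by simpa using hcon)
    rw [Polynomial.modByMonic_eq_zero_iff_dvd hm] at h0
    obtain ⟨q, hq⟩ := h0
    have hqm : q.Monic := hm.of_mul_monic_left (by rw [← hq]; exact hf)
    have h1 := (hf.irreducible_iff_natDegree.1 hirr).2 _ _ hm hqm hq.symm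
    have h2 : (mlagr k ρ).natDegree + q.natDegree = n := by rw [hn, hq, hm.natDegree_mul hqm]
    omega
  have hN2 : Negl (⋃ k ∈ Finset.Ico 1 n, ⋃ ρ ∈ P k, {t : Fin m → ℤ | (f %ₘ (mlagr k ρ)).map (spc K t) = 0}) := by
    apply Negl.biUnion
    intro k hk
    apply Negl.biUnion
    intro ρ _
    obtain ⟨j, hj⟩ := hrem k hk ρ
    refine (negl_zeros _ hj).mono ?_
    intro t ht
    have := congrArg (fun q => q.coeff j) (show (f %ₘ (mlagr k ρ)).map (spc K t) = 0 from ht)
    change spc K t ((f %ₘ mlagr k ρ).coeff j) = 0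
    simpa only [coeff_map, coeff_zero] using this
  refine (hN1.union hN2).mono ?_
  intro t ht
  have ht' : ¬ Irreducible (f.map (spc K t)) := ht
  have hftm : (f.map (spc K t)).Monic := hf.map _
  have hft1 : f.map (spc K t) ≠ 1 := by
    intro h
    have h1 : f.natDegree = 0 := by rw [← hf.natDegree_map (spc K t), h, natDegree_one]
    exact hirr.1 (by rw [hf.natDegree_eq_zero.1 h1]; exact isUnit_one)
  rw [hftm.irreducible_iff_natDegree] at ht'
  push Not at ht'
  obtain ⟨g, g', hg, hg', hgg', hg0, hg'0⟩ := ht' hft1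
  set k := g.natDegree with hk
  have hkn : k + g'.natDegree = n := by rw [hn, ← hf.natDegree_map (spc K t), ← hgg', hg.natDegree_mul hg']
  by_contra hnot
  rw [Set.mem_union, not_or] at hnot
  obtain ⟨hn1, hn2⟩ := hnot
  have hroot : ∀ i : Fin k, ∃ ρ : MvPolynomial (Fin m) K, (R i).eval ρ = 0 ∧ spc K t ρ = g.eval ((i : ℕ) : K) := by
    intro i
    by_contra hc
    push Not at hc
    apply hn1
    rw [Set.mem_iUnion₂]
    refine ⟨i, Finset.mem_range.2 (by omega), g.eval ((i : ℕ) : K), ?_, hc⟩
    have := hR i K (spc K t) g hg ⟨g', hgg'.symm⟩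
    rwa [map_natCast] at this
  choose ρ hρ1 hρ2 using hroot
  have hmap : (mlagr k ρ).map (spc K t) = g := mlagr_map k (by omega) ρ t g hg rfl (fun i => (hρ2 i).symm)
  apply hn2
  rw [Set.mem_iUnion₂]
  refine ⟨k, Finset.mem_Ico.2 ⟨by omega, by omega⟩, ?_⟩
  rw [Set.mem_iUnion₂]
  refine ⟨ρ, ?_, ?_⟩
  · rw [hP]
    simp only
    rw [Fintype.mem_piFinset]
    intro i
    rw [Multiset.mem_toFinset, Polynomial.mem_roots (hRm i).ne_zero]
    exact hρ1 i
  · rw [Set.mem_ofPred_eq, Polynomial.map_modByMonic _ (mlagr_monic k (by omega) ρ).1, hmap,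
      Polynomial.modByMonic_eq_zero_iff_dvd hg]
    exact ⟨g', hgg'.symm⟩

end Hilbert

end Pool.Agent.Lib.MP_df4dfc_nt
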