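import Mathlib
import Pool.Agent.Lib.MP_df4dfc_nt.Asm2
import Pool.Agent.Lib.MP_df4dfc_nt.Hit10

set_option autoImplicit false
set_option linter.unusedSectionVars false
set_option linter.unusedVariables false
set_option linter.style.haveILetI false

/-! The polynomial describing the fibres of a finite map of affine space. -/

namespace Pool.Agent.Lib.MP_df4dfc_nt

open Polynomial

theorem ext_root {A B : Type*} [CommRing A] [CommRing B] (φ : A →+* B)
    (hint : φ.IsIntegral) (h : B) (m : A[X]) (hm0 : m.eval₂ φ h = 0)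
    (hmd : ∀ q : A[X], q.eval₂ φ h = 0 → m ∣ q)
    {k : Type*} [Field k] [IsAlgClosed k] (γ : A →+* k) (r : k) (hr : m.eval₂ γ r = 0) :
    ∃ ψ : B →+* k, ψ.comp φ = γ ∧ ψ h = r := by
  let θ : AdjoinRoot m →+* B := AdjoinRoot.lift φ h hm0
  letI : Algebra (AdjoinRoot m) B := θ.toAlgebra
  have hθ : ∀ x, algebraMap (AdjoinRoot m) B x = θ x := fun x => rfl
  have hinj : Function.Injective (algebraMap (AdjoinRoot m) B) := by
    rw [injective_iff_map_eq_zero]
    intro x hx
    obtain ⟨q, rfl⟩ := AdjoinRoot.mk_surjective x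
    rw [hθ, AdjoinRoot.lift_mk] at hx
    exact AdjoinRoot.mk_eq_zero.2 (hmd q hx)
  haveI : Algebra.IsIntegral (AdjoinRoot m) B := by
    refine ⟨fun x => ?_⟩
    obtain ⟨p, hp, hpx⟩ := hint x
    refine ⟨p.map (AdjoinRoot.of m), hp.map _, ?_⟩
    rw [Polynomial.eval₂_map]
    have : (algebraMap (AdjoinRoot m) B).comp (AdjoinRoot.of m) = φ := by
      ext a
      rw [RingHom.comp_apply, hθ, AdjoinRoot.lift_of]
    rw [this]
    exact hpx
  obtain ⟨ψ, hψ⟩ := ext_hom (A := AdjoinRoot m) (A' := B) hinj (AdjoinRoot.lift γ r hr)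
  refine ⟨ψ, ?_, ?_⟩
  · ext a
    have h1 := congrArg (fun f => f (AdjoinRoot.of m a)) hψ
    simp only [RingHom.comp_apply, hθ] at h1
    rw [AdjoinRoot.lift_of, AdjoinRoot.lift_of] at h1
    exact h1
  · have h1 := congrArg (fun f => f (AdjoinRoot.root m)) hψ
    simp only [RingHom.comp_apply, hθ] at h1
    rw [AdjoinRoot.lift_root, AdjoinRoot.lift_root] at h1
    exact h1

section

variable {ι τ : Type*} [Fintype ι] [Fintype τ] {K : Type*} [Field K] [CharZero K]

theorem generic_poly (F : τ → MvPolynomial ι K) (hind : AlgebraicIndependent K F)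
    (hfin : Module.Finite (Algebra.adjoin K (Set.range F)) (MvPolynomial ι K)) :
    ∃ (h : MvPolynomial ι K) (m : (MvPolynomial τ K)[X]) (δ : MvPolynomial τ K) (P : ι → (MvPolynomial τ K)[X]),
      m.Monic ∧ Irreducible m ∧ δ ≠ 0 ∧
      m.eval₂ (MvPolynomial.aeval F : MvPolynomial τ K →ₐ[K] MvPolynomial ι K).toRingHom h = 0 ∧
      (∀ q : (MvPolynomial τ K)[X], q.eval₂ (MvPolynomial.aeval F : MvPolynomial τ K →ₐ[K] MvPolynomial ι K).toRingHom h = 0 → m ∣ q) ∧
      (∀ i, MvPolynomial.aeval F δ * MvPolynomial.X i =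
        (P i).eval₂ (MvPolynomial.aeval F : MvPolynomial τ K →ₐ[K] MvPolynomial ι K).toRingHom h) := by
  classical
  set φ : MvPolynomial τ K →+* MvPolynomial ι K := (MvPolynomial.aeval F : MvPolynomial τ K →ₐ[K] MvPolynomial ι K).toRingHom with hφ
  letI : Algebra (MvPolynomial τ K) (MvPolynomial ι K) := φ.toAlgebra
  haveI : FaithfulSMul (MvPolynomial τ K) (MvPolynomial ι K) := (faithfulSMul_iff_algebraMap_injective _ _).2 hind
  have hint : φ.IsIntegral := fun x => integral_of_finite F x
  haveI : Algebra.IsIntegral (MvPolynomial τ K) (MvPolynomial ι K) := ⟨hint⟩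
  haveI : IsScalarTower K (MvPolynomial τ K) (MvPolynomial ι K) := IsScalarTower.of_algebraMap_eq (fun x => by
    change MvPolynomial.C x = MvPolynomial.aeval F (MvPolynomial.C x)
    rw [MvPolynomial.aeval_C]
    rfl)
  haveI : Algebra.FiniteType (MvPolynomial τ K) (MvPolynomial ι K) := Algebra.FiniteType.of_restrictScalars_finiteType K (MvPolynomial τ K) (MvPolynomial ι K)
  haveI : Module.Finite (MvPolynomial τ K) (MvPolynomial ι K) := Algebra.IsIntegral.finite
  haveI : CharZero (MvPolynomial τ K) := charZero_of_injective_algebraMap (MvPolynomial.C_injective τ K : Function.Injective (algebraMap K (MvPolynomial τ K)))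
  haveI : Module.IsTorsionFree (MvPolynomial τ K) (MvPolynomial ι K) := FaithfulSMul.to_isTorsionFree (MvPolynomial τ K) (MvPolynomial ι K)
  obtain ⟨h, hh⟩ := prim_abs (MvPolynomial τ K) (MvPolynomial ι K)
  choose δ' P' hδ' hP' using fun i : ι => hh (MvPolynomial.X i)
  have hi : IsIntegral (MvPolynomial τ K) h := Algebra.IsIntegral.isIntegral h
  refine ⟨h, minpoly (MvPolynomial τ K) h, ∏ i, δ' i, fun i => C (∏ j ∈ Finset.univ.erase i, δ' j) * P' i, minpoly.monic hi, minpoly.irreducible hi,
    Finset.prod_ne_zero_iff.2 (fun i _ => hδ' i), minpoly.aeval (MvPolynomial τ K) h, ?_, ?_⟩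
  · intro q hq
    exact minpoly.isIntegrallyClosed_dvd hi hq
  · intro i
    rw [Polynomial.eval₂_mul, Polynomial.eval₂_C]
    have h1 := hP' i
    have h2 : (P' i).eval₂ φ h = aeval h (P' i) := rfl
    rw [h2, ← h1]
    rw [← Finset.mul_prod_erase Finset.univ δ' (Finset.mem_univ i), map_mul]
    change MvPolynomial.aeval F (δ' i) * MvPolynomial.aeval F (∏ j ∈ Finset.univ.erase i, δ' j) * MvPolynomial.X i
      = MvPolynomial.aeval F (∏ j ∈ Finset.univ.erase i, δ' j) * (MvPolynomial.aeval F (δ' i) * MvPolynomial.X i)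
    ring

/-- The polynomial `m` describes the fibres of the map given by `F`. -/
theorem fibre_poly (F : τ → MvPolynomial ι K) (hind : AlgebraicIndependent K F)
    (hfin : Module.Finite (Algebra.adjoin K (Set.range F)) (MvPolynomial ι K)) :
    ∃ (h : MvPolynomial ι K) (m : (MvPolynomial τ K)[X]) (δ : MvPolynomial τ K) (P : ι → (MvPolynomial τ K)[X]),
      m.Monic ∧ Irreducible m ∧ δ ≠ 0 ∧
      ∀ (k : Type _) [Field k] [IsAlgClosed k] [Algebra K k] (γ : τ → K),
        (∀ x : ι → k, (∀ t, MvPolynomial.aeval x (F t) = algebraMap K k (γ t)) →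
          aeval (MvPolynomial.aeval x h) (m.map (MvPolynomial.eval γ)) = 0 ∧
          ∀ i, algebraMap K k (MvPolynomial.eval γ δ) * x i = aeval (MvPolynomial.aeval x h) ((P i).map (MvPolynomial.eval γ))) ∧
        (∀ r : k, aeval r (m.map (MvPolynomial.eval γ)) = 0 →
          ∃ x : ι → k, (∀ t, MvPolynomial.aeval x (F t) = algebraMap K k (γ t)) ∧ MvPolynomial.aeval x h = r) := by
  classical
  obtain ⟨h, m, δ, P, h1, h2, h3, h4, h5, h6⟩ := generic_poly F hind hfin
  refine ⟨h, m, δ, P, h1, h2, h3, ?_⟩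
  intro k _ _ _ γ
  set φ : MvPolynomial τ K →+* MvPolynomial ι K := (MvPolynomial.aeval F : MvPolynomial τ K →ₐ[K] MvPolynomial ι K).toRingHom with hφ
  constructor
  · intro x hx
    have e1 : (MvPolynomial.aeval x : MvPolynomial ι K →ₐ[K] k).toRingHom.comp φ = (algebraMap K k).comp (MvPolynomial.eval γ) := by
      apply MvPolynomial.ringHom_ext
      · intro c
        change MvPolynomial.aeval x (MvPolynomial.aeval F (MvPolynomial.C c)) = algebraMap K k (MvPolynomial.eval γ (MvPolynomial.C c))
        rw [MvPolynomial.aeval_C, MvPolynomial.eval_C, AlgHom.commutes]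
      · intro t
        change MvPolynomial.aeval x (MvPolynomial.aeval F (MvPolynomial.X t)) = algebraMap K k (MvPolynomial.eval γ (MvPolynomial.X t))
        rw [MvPolynomial.aeval_X, MvPolynomial.eval_X, hx]
    have e2 : ∀ q : (MvPolynomial τ K)[X], MvPolynomial.aeval x (q.eval₂ φ h) = aeval (MvPolynomial.aeval x h) (q.map (MvPolynomial.eval γ)) := by
      intro q
      have e3 : MvPolynomial.aeval x (q.eval₂ φ h) = q.eval₂ ((MvPolynomial.aeval x : MvPolynomial ι K →ₐ[K] k).toRingHom.comp φ) (MvPolynomial.aeval x h) :=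
        Polynomial.hom_eval₂ q φ (MvPolynomial.aeval x : MvPolynomial ι K →ₐ[K] k).toRingHom h
      rw [e3, e1, Polynomial.aeval_def, Polynomial.eval₂_map]
    refine ⟨?_, ?_⟩
    · rw [← e2, h4, map_zero]
    · intro i
      rw [← e2, ← h6 i, map_mul, MvPolynomial.aeval_X]
      congr 1
      exact (congrArg (fun f => f δ) e1).symm
  · intro r hr
    obtain ⟨ψ, hψ1, hψ2⟩ := ext_root φ (fun x => integral_of_finite F x) h m h4 h5 ((algebraMap K k).comp (MvPolynomial.eval γ)) r (by
      rw [← Polynomial.eval₂_map]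
      exact hr)
    refine ⟨fun i => ψ (MvPolynomial.X i), ?_, ?_⟩
    all_goals
      have e4 : (MvPolynomial.aeval (fun i => ψ (MvPolynomial.X i)) : MvPolynomial ι K →ₐ[K] k).toRingHom = ψ := by
        apply MvPolynomial.ringHom_ext
        · intro c
          have e5 := congrArg (fun f => f (MvPolynomial.C c)) hψ1
          simp only [RingHom.comp_apply, MvPolynomial.eval_C] at e5
          have e6 : φ (MvPolynomial.C c) = MvPolynomial.C c := MvPolynomial.aeval_C F c
          rw [e6] at e5
          change MvPolynomial.aeval (fun i => ψ (MvPolynomial.X i)) (MvPolynomial.C c) = _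
          rw [MvPolynomial.aeval_C, e5]
        · intro i
          change MvPolynomial.aeval (fun i => ψ (MvPolynomial.X i)) (MvPolynomial.X i) = _
          rw [MvPolynomial.aeval_X]
    · intro t
      have e5 := congrArg (fun f => f (F t)) e4
      change MvPolynomial.aeval (fun i => ψ (MvPolynomial.X i)) (F t) = ψ (F t) at e5
      rw [e5]
      have e6 := congrArg (fun f => f (MvPolynomial.X t)) hψ1
      simp only [RingHom.comp_apply, MvPolynomial.eval_X] at e6
      have e7 : φ (MvPolynomial.X t) = F t := MvPolynomial.aeval_X F t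
      rw [e7] at e6
      exact e6
    · have e5 := congrArg (fun f => f h) e4
      change MvPolynomial.aeval (fun i => ψ (MvPolynomial.X i)) h = ψ h at e5
      rw [e5, hψ2]

end

end Pool.Agent.Lib.MP_df4dfc_nt
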