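import Mathlib
import Pool.Agent.Lib.MP_df4dfc_nt.Asm3

set_option autoImplicit false
set_option linter.unusedSectionVars false
set_option linter.unusedVariables false
set_option linter.style.haveILetI false

/-! Integral parameters: the irreducible specialisations have density one. -/

namespace Pool.Agent.Lib.MP_df4dfc_nt

open Polynomial NumberField

section

variable {K : Type*} [Field K] [NumberField K] {τ κ : Type*} [Fintype τ] [Fintype κ]

/-- the vector with given coordinates with respect to an integral basis -/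
noncomputable def vecOf (b : Module.Basis κ ℤ (𝓞 K)) {M : ℕ} (e : τ × κ ≃ Fin M) (s : Fin M → ℤ) : τ → 𝓞 K :=
  fun t => ∑ k, s (e (t, k)) • b k

theorem vecOf_repr (b : Module.Basis κ ℤ (𝓞 K)) {M : ℕ} (e : τ × κ ≃ Fin M) (s : Fin M → ℤ) (t : τ) (k : κ) :
    b.repr (vecOf b e s t) k = s (e (t, k)) := by
  unfold vecOf
  rw [b.repr_sum_self]

theorem vecOf_inj (b : Module.Basis κ ℤ (𝓞 K)) {M : ℕ} (e : τ × κ ≃ Fin M) :
    Function.Injective (vecOf (K := K) b e) := by
  intro s s' h
  funext j
  obtain ⟨⟨t, k⟩, rfl⟩ := e.surjective j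
  rw [← vecOf_repr b e s t k, h, vecOf_repr]

theorem vecOf_image (b : Module.Basis κ ℤ (𝓞 K)) {M : ℕ} (e : τ × κ ≃ Fin M) (B : ℕ) :
    vecOf b e '' bx M B = {a : τ → 𝓞 K | ∀ t k, |b.repr (a t) k| ≤ B} := by
  ext a
  constructor
  · rintro ⟨s, hs, rfl⟩ t k
    rw [vecOf_repr]
    exact hs _
  · intro ha
    refine ⟨fun j => b.repr (a (e.symm j).1) (e.symm j).2, fun j => ha _ _, ?_⟩
    funext t
    unfold vecOf
    simp only [Equiv.symm_apply_apply]
    exact b.sum_repr (a t)

theorem negl_param (b : Module.Basis κ ℤ (𝓞 K)) {M : ℕ} (e : τ × κ ≃ Fin M)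
    (m : (MvPolynomial τ K)[X]) (hm : m.Monic) (hirr : Irreducible m) (δ : MvPolynomial τ K) (hδ : δ ≠ 0) :
    Negl {s : Fin M → ℤ | ¬ (Irreducible (m.map (MvPolynomial.eval (fun t => (vecOf b e s t : K)))) ∧
      MvPolynomial.eval (fun t => (vecOf b e s t : K)) δ ≠ 0)} := by
  classical
  haveI : Nonempty κ := by
    by_contra hcon
    rw [not_nonempty_iff] at hcon
    have h1 : (1 : 𝓞 K) = 0 := b.repr.injective (by ext k; exact hcon.elim k)
    exact one_ne_zero h1
  obtain ⟨k₀⟩ := (inferInstance : Nonempty κ)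
  have hb0 : ((b k₀ : 𝓞 K) : K) ≠ 0 := by
    intro h0
    exact b.ne_zero k₀ (RingOfIntegers.ext (by rw [h0]; rfl))
  set lam : MvPolynomial τ K →+* MvPolynomial (Fin M) K :=
    (MvPolynomial.aeval (fun t => ∑ k, MvPolynomial.C ((b k : 𝓞 K) : K) * MvPolynomial.X (e (t, k))) :
      MvPolynomial τ K →ₐ[K] MvPolynomial (Fin M) K).toRingHom with hlam
  set rho : MvPolynomial (Fin M) K →+* MvPolynomial τ K :=
    (MvPolynomial.aeval (fun j => if (e.symm j).2 = k₀ then MvPolynomial.C (((b k₀ : 𝓞 K) : K)⁻¹) * MvPolynomial.X (e.symm j).1 else 0) :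
      MvPolynomial (Fin M) K →ₐ[K] MvPolynomial τ K).toRingHom with hrho
  have hlamC : ∀ c, lam (MvPolynomial.C c) = MvPolynomial.C c := fun c => MvPolynomial.aeval_C _ c
  have hlamX : ∀ t, lam (MvPolynomial.X t) = ∑ k, MvPolynomial.C ((b k : 𝓞 K) : K) * MvPolynomial.X (e (t, k)) :=
    fun t => MvPolynomial.aeval_X _ t
  have hrhoC : ∀ c, rho (MvPolynomial.C c) = MvPolynomial.C c := fun c => MvPolynomial.aeval_C _ c
  have hrhoX : ∀ j, rho (MvPolynomial.X j) = if (e.symm j).2 = k₀ then MvPolynomial.C (((b k₀ : 𝓞 K) : K)⁻¹) * MvPolynomial.X (e.symm j).1 else 0 :=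
    fun j => MvPolynomial.aeval_X _ j
  have hret : rho.comp lam = RingHom.id _ := by
    apply MvPolynomial.ringHom_ext
    · intro c
      rw [RingHom.comp_apply, hlamC, hrhoC, RingHom.id_apply]
    · intro t
      rw [RingHom.comp_apply, hlamX, map_sum, RingHom.id_apply]
      rw [Finset.sum_eq_single k₀]
      · rw [map_mul, hrhoC, hrhoX, Equiv.symm_apply_apply, if_pos rfl, ← mul_assoc, ← map_mul, mul_inv_cancel₀ hb0, map_one, one_mul]
      · intro k _ hk
        rw [map_mul, hrhoX, Equiv.symm_apply_apply, if_neg hk, mul_zero]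
      · intro h; exact absurd (Finset.mem_univ _) h
  have hspec : ∀ s : Fin M → ℤ, (spc K s).comp lam = MvPolynomial.eval (fun t => (vecOf b e s t : K)) := by
    intro s
    apply MvPolynomial.ringHom_ext
    · intro c
      rw [RingHom.comp_apply, hlamC]
      simp
    · intro t
      rw [RingHom.comp_apply, hlamX, MvPolynomial.eval_X, map_sum]
      change _ = algebraMap (𝓞 K) K (∑ k, s (e (t, k)) • b k)
      rw [map_sum]
      apply Finset.sum_congr rfl
      intro k _
      simp [mul_comm]
  have hirr' : Irreducible (m.map lam) := by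
    apply Polynomial.Monic.irreducible_of_irreducible_map rho _ (hm.map _)
    rw [Polynomial.map_map, hret, Polynomial.map_id]
    exact hirr
  have hδ' : lam δ ≠ 0 := by
    intro h0
    apply hδ
    have h1 := congrArg (fun f => f δ) hret
    simp only [RingHom.comp_apply, RingHom.id_apply, h0, map_zero] at h1
    exact h1.symm
  refine ((hilbert_irreducibility (m.map lam) (hm.map _) hirr').union (negl_zeros (lam δ) hδ')).mono ?_
  intro s hs
  rw [Set.mem_ofPred_eq, not_and_or] at hs
  rcases hs with h1 | h1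
  · left
    rw [Set.mem_ofPred_eq, Polynomial.map_map, hspec]
    exact h1
  · right
    rw [not_not] at h1
    change (spc K s) (lam δ) = 0
    rw [← RingHom.comp_apply, hspec]
    exact h1

end

end Pool.Agent.Lib.MP_df4dfc_nt
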