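import Mathlib
import Pool.Agent.Lib.MP_df4dfc_nt.Asm4
import Pool.Agent.Lib.MP_df4dfc_nt.Vec

set_option autoImplicit false
set_option linter.unusedSectionVars false
set_option linter.unusedVariables false
set_option linter.style.haveILetI false

/-! Galois action on the fibres. -/

namespace Pool.Agent.Lib.MP_df4dfc_nt

open Polynomial

universe u

section Jordan

/-- Jordan's lemma: a transitive action on a finite set with at least two elements has an element
without fixed points. -/
theorem exists_no_fixed {G α : Type*} [Group G] [MulAction G α] (W : Set α) (hW : W.Finite)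
    (hst : ∀ g : G, ∀ w ∈ W, g • w ∈ W) (htr : ∀ w ∈ W, ∀ w' ∈ W, ∃ g : G, g • w = w')
    (h2 : W.Nontrivial) : ∃ g : G, ∀ w ∈ W, g • w ≠ w := by
  classical
  obtain ⟨w₀, hw₀, w₁, hw₁, hne⟩ := h2
  have hWo : W = MulAction.orbit G w₀ := by
    ext w
    constructor
    · intro hw
      obtain ⟨g, hg⟩ := htr w₀ hw₀ w hw
      exact ⟨g, hg⟩
    · rintro ⟨g, rfl⟩
      exact hst g w₀ hw₀
  haveI : Finite (MulAction.orbit G w₀) := by
    rw [← hWo]; exact hW
  haveI : Fintype (MulAction.orbit G w₀) := Fintype.ofFinite _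
  set H : Subgroup (Equiv.Perm (MulAction.orbit G w₀)) := (MulAction.toPermHom G (MulAction.orbit G w₀)).range with hH
  haveI : Fintype H := Fintype.ofFinite _
  have hact : ∀ g : G, ∃ h : H, ∀ w : MulAction.orbit G w₀, h • w = g • w := by
    intro g
    exact ⟨⟨MulAction.toPermHom G (MulAction.orbit G w₀) g, ⟨g, rfl⟩⟩, fun w => rfl⟩
  have hact' : ∀ h : H, ∃ g : G, ∀ w : MulAction.orbit G w₀, h • w = g • w := by
    rintro ⟨h, ⟨g, rfl⟩⟩
    exact ⟨g, fun w => rfl⟩
  haveI hpre : MulAction.IsPretransitive H (MulAction.orbit G w₀) := by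
    constructor
    intro x y
    obtain ⟨g, hg⟩ := MulAction.exists_smul_eq G x y
    obtain ⟨h, hh⟩ := hact g
    exact ⟨h, by rw [hh, hg]⟩
  by_contra hcon
  push Not at hcon
  have hfix : ∀ h : H, 1 ≤ Fintype.card (MulAction.fixedBy (MulAction.orbit G w₀) h) := by
    intro h
    obtain ⟨g, hg⟩ := hact' h
    obtain ⟨w, hw, hgw⟩ := hcon g
    rw [hWo] at hw
    rw [Nat.succ_le_iff, Fintype.card_pos_iff]
    refine ⟨⟨⟨w, hw⟩, ?_⟩⟩
    rw [MulAction.mem_fixedBy, hg]
    exact Subtype.ext hgw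
  have hone : 2 ≤ Fintype.card (MulAction.fixedBy (MulAction.orbit G w₀) (1 : H)) := by
    rw [hWo] at hw₀ hw₁
    refine Nat.succ_le_iff.2 (Fintype.one_lt_card_iff.2 ?_)
    refine ⟨⟨⟨w₀, hw₀⟩, ?_⟩, ⟨⟨w₁, hw₁⟩, ?_⟩, ?_⟩
    · rw [MulAction.mem_fixedBy, one_smul]
    · rw [MulAction.mem_fixedBy, one_smul]
    · intro h
      apply hne
      have h1 := congrArg Subtype.val h
      exact congrArg Subtype.val h1
  haveI : Fintype (Quotient (MulAction.orbitRel H (MulAction.orbit G w₀))) := Fintype.ofFinite _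
  have hb := MulAction.sum_card_fixedBy_eq_card_orbits_mul_card_group H (MulAction.orbit G w₀)
  have horb : Fintype.card (Quotient (MulAction.orbitRel H (MulAction.orbit G w₀))) ≤ 1 := by
    rw [Fintype.card_le_one_iff_subsingleton]
    constructor
    intro x y
    induction x using Quotient.inductionOn' with
    | h x =>
    induction y using Quotient.inductionOn' with
    | h y =>
    apply Quotient.sound'
    obtain ⟨h, hh⟩ := MulAction.exists_smul_eq H y x
    exact ⟨h, hh⟩
  have hsum : Fintype.card H + 1 ≤ ∑ h : H, Fintype.card (MulAction.fixedBy (MulAction.orbit G w₀) h) := by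
    rw [← Finset.add_sum_erase Finset.univ _ (Finset.mem_univ (1 : H))]
    have h1 : (Finset.univ.erase (1 : H)).card ≤ ∑ h ∈ Finset.univ.erase (1 : H), Fintype.card (MulAction.fixedBy (MulAction.orbit G w₀) h) := by
      rw [Finset.card_eq_sum_ones]
      exact Finset.sum_le_sum fun h _ => hfix h
    have h2 : (Finset.univ.erase (1 : H)).card + 1 = Fintype.card H := by
      rw [Finset.card_erase_add_one (Finset.mem_univ _), Finset.card_univ]
    omega
  rw [hb] at hsum
  have h3 : Fintype.card (Quotient (MulAction.orbitRel H (MulAction.orbit G w₀))) * Fintype.card H ≤ 1 * Fintype.card H :=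
    Nat.mul_le_mul_right _ horb
  omega

end Jordan

section Fibre

variable {K : Type u} [Field K] [CharZero K] {ι τ : Type*}

/-- the affine fibre -/
def Yf (F : τ → MvPolynomial ι K) (γ : τ → K) : Set (ι → AlgebraicClosure K) :=
  {x | ∀ t, MvPolynomial.aeval x (F t) = algebraMap K (AlgebraicClosure K) (γ t)}

/-- `m`, `h`, `δ`, `P` describe the fibre over `γ` -/
def Desc (F : τ → MvPolynomial ι K) (h : MvPolynomial ι K) (m : (MvPolynomial τ K)[X]) (δ : MvPolynomial τ K)
    (P : ι → (MvPolynomial τ K)[X]) (γ : τ → K) : Prop :=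
  (∀ x ∈ Yf F γ, aeval (MvPolynomial.aeval x h) (m.map (MvPolynomial.eval γ)) = 0 ∧
    ∀ i, algebraMap K (AlgebraicClosure K) (MvPolynomial.eval γ δ) * x i
      = aeval (MvPolynomial.aeval x h) ((P i).map (MvPolynomial.eval γ))) ∧
  (∀ r : AlgebraicClosure K, aeval r (m.map (MvPolynomial.eval γ)) = 0 → ∃ x ∈ Yf F γ, MvPolynomial.aeval x h = r)

variable {F : τ → MvPolynomial ι K} {h : MvPolynomial ι K} {m : (MvPolynomial τ K)[X]} {δ : MvPolynomial τ K}
    {P : ι → (MvPolynomial τ K)[X]} {γ : τ → K}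

theorem Desc.inj (H : Desc F h m δ P γ) (hδ : MvPolynomial.eval γ δ ≠ 0) :
    Set.InjOn (fun x : ι → AlgebraicClosure K => MvPolynomial.aeval x h) (Yf F γ) := by
  intro x hx x' hx' hxx
  funext i
  have h1 := (H.1 x hx).2 i
  have h2 := (H.1 x' hx').2 i
  simp only at hxx
  rw [hxx, ← h2] at h1
  exact mul_left_cancel₀ ((_root_.map_ne_zero _).2 hδ) h1

theorem Desc.finite (H : Desc F h m δ P γ) (hm : m.Monic) (hδ : MvPolynomial.eval γ δ ≠ 0) :
    (Yf F γ).Finite ∧ (Yf F γ).ncard ≤ m.natDegree := by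
  classical
  set R : Finset (AlgebraicClosure K) := ((m.map (MvPolynomial.eval γ)).aroots (AlgebraicClosure K)).toFinset with hR
  have hmaps : Set.MapsTo (fun x : ι → AlgebraicClosure K => MvPolynomial.aeval x h) (Yf F γ) (R : Set (AlgebraicClosure K)) := by
    intro x hx
    rw [hR, Finset.mem_coe, Multiset.mem_toFinset, Polynomial.mem_aroots]
    exact ⟨(hm.map _).ne_zero, (H.1 x hx).1⟩
  have hcard : R.card ≤ m.natDegree := by
    refine le_trans (Multiset.toFinset_card_le _) ?_
    refine le_trans (Polynomial.card_roots' _) ?_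
    refine le_trans (Polynomial.natDegree_map_le) ?_
    exact Polynomial.natDegree_map_le
  have hfin : (Yf F γ).Finite := Set.Finite.of_injOn hmaps (H.inj hδ) (Finset.finite_toSet R)
  refine ⟨hfin, ?_⟩
  have h1 := Set.ncard_le_ncard_of_injOn _ hmaps (H.inj hδ) (Finset.finite_toSet R)
  rw [Set.ncard_coe_finset] at h1
  exact h1.trans hcard

theorem Desc.card_ge (H : Desc F h m δ P γ) (hm : m.Monic) (hirr : Irreducible (m.map (MvPolynomial.eval γ)))
    (hfin : (Yf F γ).Finite) : m.natDegree ≤ (Yf F γ).ncard := by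
  classical
  have h1 := Polynomial.card_rootSet_eq_natDegree (K := AlgebraicClosure K) (Irreducible.separable hirr)
    (IsAlgClosed.splits _)
  have h2 : (m.map (MvPolynomial.eval γ)).natDegree = m.natDegree := hm.natDegree_map _
  rw [← h2, ← h1, ← Nat.card_eq_fintype_card]
  change ((m.map (MvPolynomial.eval γ)).rootSet (AlgebraicClosure K)).ncard ≤ _
  have h3 : (m.map (MvPolynomial.eval γ)).rootSet (AlgebraicClosure K) ⊆
      (fun x : ι → AlgebraicClosure K => MvPolynomial.aeval x h) '' (Yf F γ) := by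
    intro r hr
    rw [Polynomial.mem_rootSet] at hr
    obtain ⟨x, hx, hxr⟩ := H.2 r hr.2
    exact ⟨x, hx, hxr⟩
  exact le_trans (Set.ncard_le_ncard h3 (hfin.image _)) (Set.ncard_image_le hfin)

theorem Yf_gal (σ : Gal(AlgebraicClosure K/K)) {x : ι → AlgebraicClosure K} (hx : x ∈ Yf F γ) :
    (fun i => σ (x i)) ∈ Yf F γ := by
  intro t
  have h1 := hx t
  have h2 : MvPolynomial.aeval (fun i => σ (x i)) (F t) = σ (MvPolynomial.aeval x (F t)) := by
    have := MvPolynomial.map_aeval x (σ : AlgebraicClosure K →+* AlgebraicClosure K) (F t)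
    have h3 : σ (MvPolynomial.aeval x (F t)) = (σ : AlgebraicClosure K →ₐ[K] AlgebraicClosure K) (MvPolynomial.aeval x (F t)) := rfl
    rw [h3, ← AlgHom.comp_apply, MvPolynomial.comp_aeval]
    rfl
  rw [h2, h1, AlgEquiv.commutes]

theorem aeval_gal (σ : Gal(AlgebraicClosure K/K)) (x : ι → AlgebraicClosure K) (p : MvPolynomial ι K) :
    MvPolynomial.aeval (fun i => σ (x i)) p = σ (MvPolynomial.aeval x p) := by
  have h3 : σ (MvPolynomial.aeval x p) = (σ : AlgebraicClosure K →ₐ[K] AlgebraicClosure K) (MvPolynomial.aeval x p) := rfl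
  rw [h3, ← AlgHom.comp_apply, MvPolynomial.comp_aeval]
  rfl

theorem Desc.trans (H : Desc F h m δ P γ) (hm : m.Monic) (hirr : Irreducible (m.map (MvPolynomial.eval γ)))
    (hδ : MvPolynomial.eval γ δ ≠ 0) {x x' : ι → AlgebraicClosure K} (hx : x ∈ Yf F γ) (hx' : x' ∈ Yf F γ) :
    ∃ σ : Gal(AlgebraicClosure K/K), (fun i => σ (x i)) = x' := by
  have h1 := minpoly.eq_of_irreducible_of_monic hirr (H.1 x hx).1 (hm.map _)
  have h2 := minpoly.eq_of_irreducible_of_monic hirr (H.1 x' hx').1 (hm.map _)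
  have h3 : IsConjRoot K (MvPolynomial.aeval x' h) (MvPolynomial.aeval x h) := by
    unfold IsConjRoot
    rw [← h1, ← h2]
  obtain ⟨σ, hσ⟩ := isConjRoot_iff_exists_algEquiv.1 h3
  refine ⟨σ, ?_⟩
  apply H.inj hδ (Yf_gal σ hx) hx'
  simp only
  rw [aeval_gal, hσ]

end Fibre

end Pool.Agent.Lib.MP_df4dfc_nt
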