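import Mathlib
import Pool.Agent.Lib.MP_df4dfc_nt.Asm5

set_option autoImplicit false
set_option linter.unusedSectionVars false
set_option linter.unusedVariables false
set_option linter.style.haveILetI false

/-! Counting points of the fibres; fixed-point-free automorphisms. -/

namespace Pool.Agent.Lib.MP_df4dfc_nt

open Polynomial

universe u

section Count

variable {K : Type u} [Field K] [CharZero K] {ι τ : Type*} {F : τ → MvPolynomial ι K} {γ : τ → K} {d : ℕ}

theorem aeval_smul_homog {p : MvPolynomial ι K} (hp : p.IsHomogeneous d) (c : AlgebraicClosure K)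
    (x : ι → AlgebraicClosure K) : MvPolynomial.aeval (c • x) p = c ^ d * MvPolynomial.aeval x p :=
  eval₂_smul_of_homog hp (algebraMap K (AlgebraicClosure K)) c x

theorem Yf_smul (hF : ∀ t, (F t).IsHomogeneous d) {c : AlgebraicClosure K} (hc : c ^ d = 1)
    {x : ι → AlgebraicClosure K} (hx : x ∈ Yf F γ) : c • x ∈ Yf F γ := by
  intro t
  rw [aeval_smul_homog (hF t), hc, one_mul, hx t]

theorem two_points_bound (hd : 1 ≤ d) (hF : ∀ t, (F t).IsHomogeneous d) (hfin : (Yf F γ).Finite)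
    {x x' : ι → AlgebraicClosure K} (hx : x ∈ Yf F γ) (hx' : x' ∈ Yf F γ) (hnp : ¬ Par x x') :
    2 * d ≤ (Yf F γ).ncard := by
  classical
  haveI : NeZero d := ⟨by omega⟩
  haveI : CharZero (AlgebraicClosure K) := charZero_of_injective_algebraMap (algebraMap K _).injective
  obtain ⟨ζ, hζ⟩ := HasEnoughRootsOfUnity.exists_primitiveRoot (AlgebraicClosure K) d
  have key : ∀ z : ι → AlgebraicClosure K, z ≠ 0 → z ∈ Yf F γ →
      ((Finset.range d).image (fun j => ζ ^ j • z)).card = d ∧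
      ((((Finset.range d).image (fun j => ζ ^ j • z)) : Finset (ι → AlgebraicClosure K)) : Set (ι → AlgebraicClosure K)) ⊆ Yf F γ := by
    intro z hz hzY
    constructor
    · rw [Finset.card_image_of_injOn, Finset.card_range]
      intro i hi j hj hij
      rw [Finset.coe_range, Set.mem_Iio] at hi hj
      obtain ⟨k, hk⟩ := Function.ne_iff.1 hz
      have h1 := congrFun hij k
      simp only [Pi.smul_apply, smul_eq_mul] at h1
      exact hζ.pow_inj hi hj (mul_right_cancel₀ hk h1)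
    · intro y hy
      rw [Finset.coe_image] at hy
      obtain ⟨j, hj, rfl⟩ := hy
      apply Yf_smul hF _ hzY
      rw [← pow_mul, mul_comm, pow_mul, hζ.pow_eq_one, one_pow]
  have hx0 : x ≠ 0 := by
    rintro rfl
    exact hnp (Par.zero_right x').symm
  have hx'0 : x' ≠ 0 := by
    rintro rfl
    exact hnp (Par.zero_right x)
  obtain ⟨h1, h2⟩ := key x hx0 hx
  obtain ⟨h3, h4⟩ := key x' hx'0 hx'
  have hdisj : Disjoint ((Finset.range d).image (fun j => ζ ^ j • x)) ((Finset.range d).image (fun j => ζ ^ j • x')) := by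
    rw [Finset.disjoint_left]
    intro y hy hy'
    rw [Finset.mem_image] at hy hy'
    obtain ⟨i, hi, rfl⟩ := hy
    obtain ⟨j, hj, hij⟩ := hy'
    apply hnp
    have hζ0 : ζ ≠ 0 := hζ.ne_zero (by omega)
    have h5 : x = (ζ ^ i)⁻¹ • (ζ ^ j • x') := by
      rw [hij, smul_smul, inv_mul_cancel₀ (pow_ne_zero _ hζ0), one_smul]
    rw [smul_smul] at h5
    exact Par.of_eq_smul h5
  have h6 : (((Finset.range d).image (fun j => ζ ^ j • x) ∪ (Finset.range d).image (fun j => ζ ^ j • x') : Finset (ι → AlgebraicClosure K)) : Set (ι → AlgebraicClosure K)) ⊆ Yf F γ := by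
    rw [Finset.coe_union]
    exact Set.union_subset h2 h4
  have h7 := Set.ncard_le_ncard h6 hfin
  rw [Set.ncard_coe_finset, Finset.card_union_of_disjoint hdisj, h1, h3] at h7
  omega

theorem Yf_ne_zero (hd : 1 ≤ d) (hF : ∀ t, (F t).IsHomogeneous d) (hγ : γ ≠ 0) {x : ι → AlgebraicClosure K}
    (hx : x ∈ Yf F γ) : x ≠ 0 := by
  rintro rfl
  apply hγ
  funext t
  apply (algebraMap K (AlgebraicClosure K)).injective
  rw [← hx t]
  have := aeval_smul_homog (hF t) 0 (0 : ι → AlgebraicClosure K)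
  rw [smul_zero, zero_pow (by omega), zero_mul] at this
  rw [this, Pi.zero_apply, map_zero]

theorem par_points_bound (hd : 1 ≤ d) (hF : ∀ t, (F t).IsHomogeneous d) (hγ : γ ≠ 0)
    {x : ι → AlgebraicClosure K} (hx : x ∈ Yf F γ) (hpar : ∀ x' ∈ Yf F γ, Par x' x) :
    (Yf F γ).ncard ≤ d := by
  classical
  have hx0 := Yf_ne_zero hd hF hγ hx
  obtain ⟨t, ht⟩ := Function.ne_iff.1 hγ
  rw [Pi.zero_apply] at ht
  set R : Finset (AlgebraicClosure K) := (Polynomial.nthRoots d (1 : AlgebraicClosure K)).toFinset with hR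
  have h1 : Yf F γ ⊆ ((R.image (fun c => c • x) : Finset (ι → AlgebraicClosure K)) : Set (ι → AlgebraicClosure K)) := by
    intro x' hx'
    obtain ⟨c, rfl⟩ := (hpar x' hx').exists_smul hx0
    rw [Finset.coe_image]
    refine ⟨c, ?_, rfl⟩
    rw [hR, Finset.mem_coe, Multiset.mem_toFinset, Polynomial.mem_nthRoots (by omega)]
    have h2 := hx' t
    rw [aeval_smul_homog (hF t), hx t] at h2
    have h3 : algebraMap K (AlgebraicClosure K) (γ t) ≠ 0 := (_root_.map_ne_zero _).2 ht
    exact mul_right_cancel₀ h3 (by rw [h2, one_mul])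
  refine le_trans (Set.ncard_le_ncard h1 (Finset.finite_toSet _)) ?_
  rw [Set.ncard_coe_finset]
  refine le_trans Finset.card_image_le ?_
  refine le_trans (Multiset.toFinset_card_le _) ?_
  exact Polynomial.card_nthRoots _ _

variable {h : MvPolynomial ι K} {m : (MvPolynomial τ K)[X]} {δ : MvPolynomial τ K} {P : ι → (MvPolynomial τ K)[X]}

theorem sigma_exists (H : Desc F h m δ P γ) (hm : m.Monic) (hirr : Irreducible (m.map (MvPolynomial.eval γ)))
    (hδ : MvPolynomial.eval γ δ ≠ 0) (hd : 1 ≤ d) (hF : ∀ t, (F t).IsHomogeneous d) (hγ : γ ≠ 0)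
    (h2d : 2 * d ≤ m.natDegree) :
    ∃ σ : Gal(AlgebraicClosure K/K), ∀ x ∈ Yf F γ, ¬ Par (fun i => σ (x i)) x := by
  classical
  obtain ⟨hfin, -⟩ := H.finite hm hδ
  have hge := H.card_ge hm hirr hfin
  have hne : (Yf F γ).Nonempty := by
    rw [← Set.ncard_pos hfin]
    omega
  obtain ⟨x, hx⟩ := hne
  obtain ⟨x', hx', hnp⟩ : ∃ x' ∈ Yf F γ, ¬ Par x' x := by
    by_contra hcon
    push Not at hcon
    have := par_points_bound hd hF hγ hx hcon
    omega
  have hx0 := Yf_ne_zero hd hF hγ hx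
  obtain ⟨k, hk⟩ := Function.ne_iff.1 hx0
  rw [Pi.zero_apply] at hk
  have hall : ∀ y ∈ Yf F γ, y k ≠ 0 := by
    intro y hy h0
    obtain ⟨σ, hσ⟩ := H.trans hm hirr hδ hy hx
    have h1 : σ (y k) = x k := congrFun hσ k
    rw [h0, map_zero] at h1
    exact hk h1.symm
  set nrm' : (ι → AlgebraicClosure K) → (ι → AlgebraicClosure K) := fun y i => y i / y k with hn
  have hsm : ∀ (σ : Gal(AlgebraicClosure K/K)) (y : ι → AlgebraicClosure K), σ • nrm' y = nrm' (fun i => σ (y i)) := by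
    intro σ y
    funext i
    rw [Pi.smul_apply, hn]
    simp only [AlgEquiv.smul_def, map_div₀]
  obtain ⟨σ, hσ⟩ := exists_no_fixed (G := Gal(AlgebraicClosure K/K)) (nrm' '' Yf F γ) (hfin.image _) (by
    rintro σ _ ⟨y, hy, rfl⟩
    rw [hsm]
    exact ⟨_, Yf_gal σ hy, rfl⟩) (by
    rintro _ ⟨y, hy, rfl⟩ _ ⟨y', hy', rfl⟩
    obtain ⟨σ, hσ⟩ := H.trans hm hirr hδ hy hy'
    refine ⟨σ, ?_⟩
    rw [hsm, hσ]) (by
    refine ⟨nrm' x', ⟨x', hx', rfl⟩, nrm' x, ⟨x, hx, rfl⟩, ?_⟩
    intro h0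
    apply hnp
    intro i j
    have h1 := congrFun h0 i
    have h2 := congrFun h0 j
    have hk' := hall x' hx'
    simp only [hn] at h1 h2
    rw [div_eq_div_iff hk' hk] at h1 h2
    apply mul_right_cancel₀ (mul_ne_zero hk hk')
    calc x' i * x j * (x k * x' k) = (x' i * x k) * (x j * x' k) := by ring
      _ = (x i * x' k) * (x' j * x k) := by rw [h1, h2]
      _ = x' j * x i * (x k * x' k) := by ring)
  refine ⟨σ, ?_⟩
  intro y hy hpar
  apply hσ (nrm' y) ⟨y, hy, rfl⟩
  rw [hsm]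
  funext i
  simp only [hn]
  have h1 : σ (y i) * y k = σ (y k) * y i := hpar i k
  have hky := hall y hy
  have hky' : σ (y k) ≠ 0 := by
    intro h0
    exact hky ((map_eq_zero σ).1 h0)
  rw [div_eq_div_iff hky' hky, h1]
  ring

end Count

end Pool.Agent.Lib.MP_df4dfc_nt
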