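import Mathlib

/-!
# Definitions for the statement of `MP_df4dfc_nt` (orbits avoiding a point modulo primes)

`K` is a number field, `𝓞 K` its ring of integers; the primes of `K` are the terms of
`IsDedekindDomain.HeightOneSpectrum (𝓞 K)`, i.e. the nonzero prime ideals of `𝓞 K`.
-/

set_option autoImplicit false

namespace Pool.Agent.Lib.MP_df4dfc_nt

open NumberField IsDedekindDomain

universe u

/-- The set `ℙ^N(K)` of `K`-rational points of projective `N`-space. -/
abbrev PN (K : Type u) [Field K] (N : ℕ) : Type u := Projectivization K (Fin (N + 1) → K)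

/-- A morphism `Φ = (F₀ : … : F_N) : ℙ^N → ℙ^N` of degree `d` over `K`: the `F_i` are homogeneous
polynomials of degree `d` over `K` without a common nontrivial zero over the algebraic closure. -/
structure Morph (K : Type u) [Field K] (N d : ℕ) where
  /-- the defining forms -/
  F : Fin (N + 1) → MvPolynomial (Fin (N + 1)) K
  /-- they are homogeneous of degree `d` -/
  homog : ∀ i, (F i).IsHomogeneous d
  /-- they have no common zero in `ℙ^N` over the algebraic closure -/
  noZero : ∀ x : Fin (N + 1) → AlgebraicClosure K, (∀ i, MvPolynomial.aeval x (F i) = 0) → x = 0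

/-- The values of the forms at a nonzero `K`-vector do not all vanish. -/
theorem Morph.eval_ne_zero {K : Type u} [Field K] {N d : ℕ} (Φ : Morph K N d) (v : Fin (N + 1) → K)
    (hv : v ≠ 0) : (fun i => MvPolynomial.eval v (Φ.F i)) ≠ 0 := by
  intro h
  apply hv
  have h1 := Φ.noZero (fun i => algebraMap K (AlgebraicClosure K) (v i)) (by
    intro i
    have h2 := congrFun h i
    simp only [Pi.zero_apply] at h2
    have h3 := MvPolynomial.aeval_algebraMap_apply (AlgebraicClosure K) v (Φ.F i)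
    have h4 : MvPolynomial.aeval v (Φ.F i) = MvPolynomial.eval v (Φ.F i) := rfl
    rw [h4, h2, map_zero] at h3
    exact h3)
  funext i
  have h3 := congrFun h1 i
  exact (map_eq_zero _).1 h3

/-- The self-map of `ℙ^N(K)` induced by a morphism: evaluate the forms at homogeneous coordinates
of the point (see `Morph.map_mk` for the independence of the choice of coordinates). -/
noncomputable def Morph.map {K : Type u} [Field K] {N d : ℕ} (Φ : Morph K N d) (P : PN K N) : PN K N :=
  Projectivization.mk K (fun i => MvPolynomial.eval P.rep (Φ.F i)) (Φ.eval_ne_zero P.rep P.rep_nonzero)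

variable {K : Type u} [Field K] [NumberField K] {N d : ℕ}

/-- `x` is a system of homogeneous coordinates of `P` consisting of elements of `𝓞 K`, not all of
them in the prime `𝔭`. -/
def IsCoord (𝔭 : HeightOneSpectrum (𝓞 K)) (P : PN K N) (x : Fin (N + 1) → 𝓞 K) : Prop :=
  (∃ i, x i ∉ 𝔭.asIdeal) ∧
    ∃ h : (fun i => (x i : K)) ≠ 0, Projectivization.mk K (fun i => (x i : K)) h = P

/-- `P ≡ Q (mod 𝔭)`: the two points have systems of coordinates as in `IsCoord` that agree
modulo `𝔭`, i.e. they have the same reduction in `ℙ^N(k_𝔭)`. -/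
def Cong (𝔭 : HeightOneSpectrum (𝓞 K)) (P Q : PN K N) : Prop :=
  ∃ x y : Fin (N + 1) → 𝓞 K, IsCoord 𝔭 P x ∧ IsCoord 𝔭 Q y ∧ ∀ i, x i - y i ∈ 𝔭.asIdeal

/-- The set `S(Φ, γ₁, γ₂)` of primes `𝔭` with `Φ^m(γ₁) ≢ γ₂ (mod 𝔭)` for every `m ≥ 0`. -/
def avoidSet (Φ : Morph K N d) (γ₁ γ₂ : PN K N) : Set (HeightOneSpectrum (𝓞 K)) :=
  {𝔭 | ∀ m : ℕ, ¬ Cong 𝔭 (Φ.map^[m] γ₁) γ₂}

/-- A set `S` of primes has positive density if
`liminf_{x → ∞} #{𝔭 ∈ S : N𝔭 ≤ x} / #{𝔭 : N𝔭 ≤ x} > 0`. -/
def PosDensity (S : Set (HeightOneSpectrum (𝓞 K))) : Prop :=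
  0 < Filter.liminf (fun x : ℝ =>
    (({𝔭 : HeightOneSpectrum (𝓞 K) | 𝔭 ∈ S ∧ (Ideal.absNorm 𝔭.asIdeal : ℝ) ≤ x}.ncard : ℕ) : ℝ) /
    (({𝔭 : HeightOneSpectrum (𝓞 K) | (Ideal.absNorm 𝔭.asIdeal : ℝ) ≤ x}.ncard : ℕ) : ℝ)) Filter.atTop

/-- `Φ` has good reduction at `𝔭`: after multiplication by a common constant `c ≠ 0` the forms have
coefficients in `𝓞 K` and their reductions modulo `𝔭` have no common nontrivial zero over an
algebraic closure of the residue field. -/
def GoodReduction (Φ : Morph K N d) (𝔭 : HeightOneSpectrum (𝓞 K)) : Prop :=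
  ∃ (c : K) (G : Fin (N + 1) → MvPolynomial (Fin (N + 1)) (𝓞 K)), c ≠ 0 ∧
    (∀ i, MvPolynomial.map (algebraMap (𝓞 K) K) (G i) = MvPolynomial.C c * Φ.F i) ∧
    ∀ y : Fin (N + 1) → AlgebraicClosure 𝔭.asIdeal.ResidueField,
      (∀ i, MvPolynomial.aeval y (G i) = 0) → y = 0

end Pool.Agent.Lib.MP_df4dfc_nt
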