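import Mathlib
import Pool.Agent.Lib.MP_df4dfc_nt.Defs

/-!
# Definitions for the statement about almost all targets
-/

set_option autoImplicit false

namespace Pool.Agent.Lib.MP_df4dfc_nt

open NumberField

universe u

variable {K : Type u} [Field K] [NumberField K]

/-- The set of all vectors `(a₀, …, a_N)` over `𝓞 K` all of whose entries have coordinates in
`{-B, …, B}` with respect to the integral basis `b`. -/
def VecBox {κ : Type*} (b : Module.Basis κ ℤ (𝓞 K)) (N B : ℕ) : Set (Fin (N + 1) → 𝓞 K) :=
  {a | ∀ i k, |b.repr (a i) k| ≤ B}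

/-- The vector `a` is nonzero, and for the point `γ₂ = (a₀ : … : a_N)` and every starting point `γ₁`
whose forward orbit does not contain `γ₂` the set `S(Φ, γ₁, γ₂)` has positive density. -/
def GoodTarget {N d : ℕ} (Φ : Morph K N d) (a : Fin (N + 1) → 𝓞 K) : Prop :=
  ∃ h : (fun i => (a i : K)) ≠ 0, ∀ γ₁ : PN K N,
    (∀ m : ℕ, Φ.map^[m] γ₁ ≠ Projectivization.mk K (fun i => (a i : K)) h) →
      PosDensity (avoidSet Φ γ₁ (Projectivization.mk K (fun i => (a i : K)) h))

end Pool.Agent.Lib.MP_df4dfc_nt
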