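import Mathlib
import Pool.Agent.Lib.MP_df4dfc_nt.Core

set_option autoImplicit false
set_option linter.unusedSectionVars false
set_option linter.style.haveILetI false
set_option linter.unusedVariables false

namespace Pool.Agent.Lib.MP_df4dfc_nt

open MvPolynomial NumberField IsDedekindDomain
open scoped Pointwise

universe u

variable {K : Type u} [Field K] [NumberField K] {ι : Type*} [Fintype ι]

/-- The field and the finite set of representatives of the `n`-th fibres. -/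
theorem exists_reps (G : ι → MvPolynomial ι (𝓞 K)) {d : ℕ} (hd : 1 ≤ d) (hG : ∀ i, (G i).IsHomogeneous d)
    (hNZ : NZ (algebraMap (𝓞 K) (AlgebraicClosure K)) G) (Qs : Finset (ι → 𝓞 K)) (hQ0 : ∀ q ∈ Qs, q ≠ 0)
    (n : ℕ) :
    ∃ (L : IntermediateField K (AlgebraicClosure K)) (_ : NumberField L) (_ : IsGalois K L),
      ∃ X₀ : Finset (ι → 𝓞 L),
      (∀ x ∈ X₀, x ≠ 0 ∧ ∃ q ∈ Qs, Par ((pev (algebraMap (𝓞 K) (𝓞 L)) G)^[n] x)
        (fun i => algebraMap (𝓞 K) (𝓞 L) (q i))) ∧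
      (∀ q ∈ Qs, ∀ y : ι → AlgebraicClosure K, y ≠ 0 →
        Par ((pev (algebraMap (𝓞 K) (AlgebraicClosure K)) G)^[n] y) (fun i => algebraMap (𝓞 K) (AlgebraicClosure K) (q i)) →
        ∃ x ∈ X₀, Par y (fun i => algebraMap (𝓞 L) (AlgebraicClosure K) (x i))) := by
  classical
  set Ω := AlgebraicClosure K with hΩ
  set j := algebraMap (𝓞 K) Ω with hj
  have hjinj : Function.Injective j := by
    rw [hj]
    exact FaithfulSMul.algebraMap_injective (𝓞 K) Ω
  -- the finite set of vectors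
  set Z : Set (ι → Ω) := ⋃ q ∈ Qs, {x : ι → Ω | (pev j G)^[n] x = fun i => j (q i)} with hZ
  have hZfin : Z.Finite := by
    rw [hZ]
    exact Set.Finite.biUnion (Finset.finite_toSet Qs) fun q _ => finite_iter_fibre j G hd hG hNZ n _
  set S : Set Ω := ⋃ x ∈ Z, Set.range x with hS
  have hSfin : S.Finite := hZfin.biUnion fun x _ => Set.finite_range x
  obtain ⟨L, hL1, hL2, hL3⟩ := exists_gal S hSfin
  haveI hNF : NumberField L := NumberField.of_module_finite K L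
  set jL := algebraMap (𝓞 L) Ω with hjL
  set iL := algebraMap (𝓞 K) (𝓞 L) with hiL
  have hcomp : jL.comp iL = j := by
    ext r
    rfl
  have hjLinj : Function.Injective jL := by
    rw [hjL]
    exact FaithfulSMul.algebraMap_injective (𝓞 L) Ω
  have hjq0 : ∀ q ∈ Qs, (fun i => j (q i)) ≠ 0 := by
    intro q hq h0
    apply hQ0 q hq
    funext i
    apply hjinj
    rw [Pi.zero_apply, map_zero]
    exact congrFun h0 i
  have hZ0 : ∀ x ∈ Z, x ≠ 0 := by
    rintro x hx rfl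
    rw [hZ] at hx
    simp only [Set.mem_iUnion, Set.mem_ofPred_eq] at hx
    obtain ⟨q, hq, hx⟩ := hx
    rw [pev_iter_zero hd hG] at hx
    exact hjq0 q hq hx.symm
  -- representatives
  have hrep : ∀ x ∈ Z, ∃ x' : ι → 𝓞 L, x' ≠ 0 ∧ Par (fun i => jL (x' i)) x := by
    intro x hx
    have hxL : ∀ i, x i ∈ L := by
      intro i
      apply hL3
      rw [hS]
      simp only [Set.mem_iUnion]
      exact ⟨x, hx, i, rfl⟩
    obtain ⟨s, x', hs, hx'⟩ := exists_int (L := L) (fun i => (⟨x i, hxL i⟩ : L))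
    have h1 : ∀ i, jL (x' i) = jL s * x i := by
      intro i
      have h2 := congrArg (fun z : L => (z : Ω)) (hx' i)
      exact h2
    have hs0 : jL s ≠ 0 := by
      intro h0
      apply hs
      apply hjLinj
      rw [h0, map_zero]
    refine ⟨x', ?_, ?_⟩
    · intro h0
      obtain ⟨k, hk⟩ := Function.ne_iff.1 (hZ0 x hx)
      have h2 := h1 k
      rw [h0] at h2
      simp only [Pi.zero_apply, map_zero] at h2
      exact (mul_ne_zero hs0 hk) h2.symm
    · intro a b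
      change jL (x' a) * x b = jL (x' b) * x a
      rw [h1, h1]
      ring
  let rep : (ι → Ω) → (ι → 𝓞 L) := fun x => if h : x ∈ Z then (hrep x h).choose else 0
  have hrep1 : ∀ x ∈ Z, rep x ≠ 0 ∧ Par (fun i => jL (rep x i)) x := by
    intro x hx
    have : rep x = (hrep x hx).choose := dif_pos hx
    rw [this]
    exact (hrep x hx).choose_spec
  refine ⟨L, hNF, hL2, hZfin.toFinset.image rep, ?_, ?_⟩
  · intro x' hx'
    rw [Finset.mem_image] at hx'
    obtain ⟨x, hx, rfl⟩ := hx'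
    rw [Set.Finite.mem_toFinset] at hx
    obtain ⟨h0, hpar⟩ := hrep1 x hx
    refine ⟨h0, ?_⟩
    have hx2 := hx
    rw [hZ] at hx2
    simp only [Set.mem_iUnion, Set.mem_ofPred_eq] at hx2
    obtain ⟨q, hq, hx2⟩ := hx2
    refine ⟨q, hq, ?_⟩
    apply Par.of_map jL hjLinj
    have h3 : (fun i => jL ((pev iL G)^[n] (rep x) i)) = (pev j G)^[n] (fun i => jL (rep x i)) := by
      rw [pev_iter_map, hcomp]
    have h4 := pev_iter_par hG hNZ n hpar (hZ0 x hx)
    rw [← h3, hx2] at h4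
    exact h4
  · intro q hq y hy hpar
    have hjq := hjq0 q hq
    obtain ⟨c, hc⟩ := hpar.exists_smul hjq
    have hc0 : c ≠ 0 := by
      rintro rfl
      rw [zero_smul] at hc
      exact hNZ.iter n hy hc
    obtain ⟨l, hl⟩ := IsAlgClosed.exists_pow_nat_eq (c⁻¹) (n := d ^ n) (Nat.pow_pos (by omega))
    have hl0 : l ≠ 0 := by
      rintro rfl
      rw [zero_pow (Nat.pow_pos (by omega : 0 < d)).ne'] at hl
      exact (inv_ne_zero hc0) hl.symm
    have hZmem : l • y ∈ Z := by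
      rw [hZ]
      simp only [Set.mem_iUnion]
      refine ⟨q, hq, ?_⟩
      change (pev j G)^[n] (l • y) = fun i => j (q i)
      rw [pev_iter_smul hG, hl, hc, smul_smul, inv_mul_cancel₀ hc0, one_smul]
    obtain ⟨h0, hp⟩ := hrep1 _ hZmem
    refine ⟨rep (l • y), ?_, ?_⟩
    · rw [Finset.mem_image]
      exact ⟨l • y, hZfin.mem_toFinset.2 hZmem, rfl⟩
    · have h5 : Par y (l • y) := ((Par.refl y).smul_left l).symm
      exact h5.trans hp.symm (by
        intro h6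
        rcases smul_eq_zero.1 h6 with h7 | h7
        · exact hl0 h7
        · exact hy h7)

/-- If some `σ ∈ Gal(L/K)` fixes no point of the `n`-th fibres over the points `q ∈ Qs`, the orbit of
`g1` avoids all `q ∈ Qs` modulo a positive proportion of the primes. -/
theorem coreB_of_nofix (G : ι → MvPolynomial ι (𝓞 K)) (hNZ : NZ (algebraMap (𝓞 K) (AlgebraicClosure K)) G)
    (g1 : ι → 𝓞 K) (hg1 : g1 ≠ 0) (Qs : Finset (ι → 𝓞 K))
    (hav : ∀ m, ∀ q ∈ Qs, ¬ Par ((pevO G)^[m] g1) q) (n : ℕ)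
    (L : IntermediateField K (AlgebraicClosure K)) [NumberField L] [IsGalois K L] (X₀ : Finset (ι → 𝓞 L))
    (hX2 : ∀ q ∈ Qs, ∀ y : ι → AlgebraicClosure K, y ≠ 0 →
        Par ((pev (algebraMap (𝓞 K) (AlgebraicClosure K)) G)^[n] y) (fun i => algebraMap (𝓞 K) (AlgebraicClosure K) (q i)) →
        ∃ x ∈ X₀, Par y (fun i => algebraMap (𝓞 L) (AlgebraicClosure K) (x i)))
    (σ : Gal(L/K)) (hnofix : ∀ x ∈ X₀, ¬ Par (fun i => σ • x i) x) :
    BigSet {p : HeightOneSpectrum (𝓞 K) | ∀ m, ∀ q ∈ Qs,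
      ¬ Par (fun i => redK p ((pevO G)^[m] g1 i)) (fun i => redK p (q i))} := by
  classical
  set Ω := AlgebraicClosure K with hΩ
  set j := algebraMap (𝓞 K) Ω with hj
  have hjinj : Function.Injective j := FaithfulSMul.algebraMap_injective (𝓞 K) Ω
  set jL := algebraMap (𝓞 L) Ω with hjL
  set iL := algebraMap (𝓞 K) (𝓞 L) with hiL
  have hcomp : jL.comp iL = j := by
    ext r
    rfl
  have hjLinj : Function.Injective jL := FaithfulSMul.algebraMap_injective (𝓞 L) Ω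
  have hiLinj : Function.Injective iL := by
    intro a b hab
    apply hjinj
    rw [← hcomp, RingHom.comp_apply, RingHom.comp_apply, hab]
  -- the exceptional elements
  -- s1: lifting
  set H : ι → MvPolynomial ι (𝓞 L) := fun i => MvPolynomial.map iL (iterPoly G n i) with hH
  have hHev : ∀ {T : Type u} [CommRing T] (φ : 𝓞 L →+* T) (y : ι → T), pev φ H y = (pev (φ.comp iL) G)^[n] y := by
    intro T _ φ y
    rw [← pev_iterPoly]
    funext i
    simp only [hH, pev]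
    rw [eval₂_map]
  have hs1 : ∀ q : ι → 𝓞 K, ∃ s : 𝓞 L, s ≠ 0 ∧ (q ∈ Qs → ∀ (κ : Type u) [Field κ] (φ : 𝓞 L →+* κ), φ s ≠ 0 →
      ∀ y : ι → κ, y ≠ 0 → Par (pev φ H y) (fun i => φ (iL (q i))) → ∃ x ∈ X₀, Par y (fun i => φ (x i))) := by
    intro q
    by_cases hq : q ∈ Qs
    · obtain ⟨s, hs, h⟩ := lifting.{u} jL hjLinj H (fun i => iL (q i)) X₀ (by
        intro y hy hpar
        rw [hHev, hcomp] at hpar
        exact hX2 q hq y hy hpar)
      exact ⟨s, hs, fun _ => h⟩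
    · exact ⟨1, one_ne_zero, fun h => absurd h hq⟩
  choose s1 hs1a hs1b using hs1
  -- s2: good reduction
  obtain ⟨s2, hs2a, hs2b⟩ := good_ae.{u} j hjinj G hNZ
  -- s3: minors
  have hs3 : ∀ x : ι → 𝓞 L, ∃ s : 𝓞 L, s ≠ 0 ∧ (x ∈ X₀ → ∃ a b, s = σ • x a * x b - σ • x b * x a) := by
    intro x
    by_cases hx : x ∈ X₀
    · have h := hnofix x hx
      unfold Par at h
      push Not at h
      obtain ⟨a, b, hab⟩ := h
      exact ⟨_, sub_ne_zero.2 hab, fun _ => ⟨a, b, rfl⟩⟩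
    · exact ⟨1, one_ne_zero, fun h => absurd h hx⟩
  choose s3 hs3a hs3b using hs3
  -- s4: minors for small m
  have hs4 : ∀ (m : ℕ) (q : ι → 𝓞 K), ∃ s : 𝓞 K, s ≠ 0 ∧ (q ∈ Qs → ∃ a b,
      s = (pevO G)^[m] g1 a * q b - (pevO G)^[m] g1 b * q a) := by
    intro m q
    by_cases hq : q ∈ Qs
    · have h := hav m q hq
      unfold Par at h
      push Not at h
      obtain ⟨a, b, hab⟩ := h
      exact ⟨_, sub_ne_zero.2 hab, fun _ => ⟨a, b, rfl⟩⟩
    · exact ⟨1, one_ne_zero, fun h => absurd h hq⟩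
  choose s4 hs4a hs4b using hs4
  obtain ⟨k1, hk1⟩ := Function.ne_iff.1 hg1
  rw [Pi.zero_apply] at hk1
  set s : 𝓞 L := (∏ q ∈ Qs, s1 q) * iL s2 * (∏ x ∈ X₀, s3 x) *
    (∏ m ∈ Finset.range n, ∏ q ∈ Qs, iL (s4 m q)) * iL (g1 k1) with hs
  have hiL0 : ∀ a : 𝓞 K, a ≠ 0 → iL a ≠ 0 := by
    intro a ha h0
    apply ha
    apply hiLinj
    rw [h0, map_zero]
  have hs0 : s ≠ 0 := by
    rw [hs]
    refine mul_ne_zero (mul_ne_zero (mul_ne_zero (mul_ne_zero ?_ ?_) ?_) ?_) ?_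
    · exact Finset.prod_ne_zero_iff.2 fun q _ => hs1a q
    · exact hiL0 _ hs2a
    · exact Finset.prod_ne_zero_iff.2 fun x _ => hs3a x
    · exact Finset.prod_ne_zero_iff.2 fun m _ => Finset.prod_ne_zero_iff.2 fun q _ => hiL0 _ (hs4a m q)
    · exact hiL0 _ hk1
  have hbig := (big_stable K L σ).diff_finite (finite_bad K L s hs0)
  apply hbig.mono
  rintro p ⟨⟨P, hP, hσP⟩, hpbad⟩
  rw [Set.mem_ofPred_eq] at hpbad
  push Not at hpbad
  have hsP : s ∉ P.asIdeal := hpbad P hP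
  haveI := P.isPrime
  haveI := P.isMaximal
  letI : Field (𝓞 L ⧸ P.asIdeal) := Ideal.Quotient.field _
  set φ : 𝓞 L →+* 𝓞 L ⧸ P.asIdeal := Ideal.Quotient.mk P.asIdeal with hφ
  have hφs : φ s ≠ 0 := by
    intro h0
    exact hsP (Ideal.Quotient.eq_zero_iff_mem.1 h0)
  rw [hs, map_mul, map_mul, map_mul, map_mul] at hφs
  have e5 : φ (iL (g1 k1)) ≠ 0 := right_ne_zero_of_mul hφs
  have hφs' := left_ne_zero_of_mul hφs
  have e4 := right_ne_zero_of_mul hφs'
  have hφs'' := left_ne_zero_of_mul hφs'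
  have e3 := right_ne_zero_of_mul hφs''
  have hφs''' := left_ne_zero_of_mul hφs''
  have e2 : φ (iL s2) ≠ 0 := right_ne_zero_of_mul hφs'''
  have e1 := left_ne_zero_of_mul hφs'''
  rw [map_prod] at e1 e3 e4
  rw [Finset.prod_ne_zero_iff] at e1 e3 e4
  set ψ : 𝓞 K →+* 𝓞 L ⧸ P.asIdeal := φ.comp iL with hψ
  have hNZψ : NZ ψ G := hs2b _ ψ e2
  have hg1ψ : (fun i => ψ (g1 i)) ≠ 0 := by
    intro h0
    exact e5 (congrFun h0 k1)
  -- transfer of congruences mod p to P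
  have hunder : P.asIdeal.under (𝓞 K) = p.asIdeal := congrArg HeightOneSpectrum.asIdeal hP
  have htrans : ∀ u v : ι → 𝓞 K, Par (fun i => redK p (u i)) (fun i => redK p (v i)) →
      Par (fun i => ψ (u i)) (fun i => ψ (v i)) := by
    intro u v h a b
    have h1 := h a b
    rw [← map_mul, ← map_mul, Ideal.Quotient.eq, ← hunder] at h1
    rw [← map_mul, ← map_mul, hψ, RingHom.comp_apply, RingHom.comp_apply]
    apply Ideal.Quotient.eq.2
    rw [← map_sub]
    exact h1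
  rw [Set.mem_ofPred_eq]
  intro m q hq hpar
  have hpar' := htrans _ _ hpar
  by_cases hmn : m < n
  · -- small m
    have h4 := e4 m (Finset.mem_range.2 hmn)
    rw [map_prod, Finset.prod_ne_zero_iff] at h4
    have h5 := h4 q hq
    obtain ⟨a, b, hab⟩ := hs4b m q hq
    apply h5
    have h6 := hpar' a b
    change ψ (s4 m q) = 0
    rw [hab, map_sub, map_mul, map_mul]
    exact sub_eq_zero.2 h6
  · -- large m
    push Not at hmn
    set y : ι → 𝓞 K := (pevO G)^[m - n] g1 with hy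
    set yb : ι → 𝓞 L ⧸ P.asIdeal := fun i => ψ (y i) with hyb
    have hyb_eq : yb = (pev ψ G)^[m - n] (fun i => ψ (g1 i)) := by
      rw [hyb, hy, pev_iter_map, RingHom.comp_id]
    have hyb0 : yb ≠ 0 := by
      rw [hyb_eq]
      exact hNZψ.iter _ hg1ψ
    have h7 : (pev ψ G)^[n] yb = fun i => ψ ((pevO G)^[m] g1 i) := by
      rw [pev_iter_map, RingHom.comp_id, hyb_eq, ← Function.iterate_add_apply]
      congr 2
      omega
    have h8 : Par (pev φ H yb) (fun i => φ (iL (q i))) := by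
      rw [hHev]
      rw [← hψ, h7]
      exact hpar'
    obtain ⟨x, hx, hxpar⟩ := hs1b q hq _ φ (e1 q hq) yb hyb0 h8
    -- apply σ
    have hxpar2 : Par yb (fun i => φ (σ • x i)) := by
      intro a b
      have h9 := hxpar a b
      change φ (iL (y a)) * φ (x b) = φ (iL (y b)) * φ (x a) at h9
      rw [← map_mul, ← map_mul, Ideal.Quotient.eq] at h9
      have h10 : σ • (iL (y a) * x b - iL (y b) * x a) ∈ P.asIdeal := by
        rw [← hσP]
        exact Ideal.smul_mem_pointwise_smul σ _ _ h9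
      rw [smul_sub, smul_mul', smul_mul', smul_algebraMap, smul_algebraMap] at h10
      change φ (iL (y a)) * φ (σ • x b) = φ (iL (y b)) * φ (σ • x a)
      rw [← map_mul, ← map_mul]
      exact Ideal.Quotient.eq.2 h10
    have h11 : Par (fun i => φ (σ • x i)) (fun i => φ (x i)) := hxpar2.symm.trans hxpar hyb0
    obtain ⟨a, b, hab⟩ := hs3b x hx
    apply e3 x hx
    rw [hab, map_sub, map_mul, map_mul]
    exact sub_eq_zero.2 (h11 a b)

/-- At a prime of good reduction where no `q` is periodic, a Frobenius element fixes no point of the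
`n`-th fibres for `n` large. -/
theorem exists_nofix (G : ι → MvPolynomial ι (𝓞 K)) {d : ℕ} (hd : 1 ≤ d) (hG : ∀ i, (G i).IsHomogeneous d)
    (hNZ : NZ (algebraMap (𝓞 K) (AlgebraicClosure K)) G)
    (Qs : Finset (ι → 𝓞 K)) (hQ0 : ∀ q ∈ Qs, q ≠ 0)
    (p0 : HeightOneSpectrum (𝓞 K))
    (hgood : ∀ (κ : Type u) [Field κ] (φ : 𝓞 K →+* κ), RingHom.ker φ = p0.asIdeal → NZ φ G)
    (hprim : ∀ q ∈ Qs, ∃ i, q i ∉ p0.asIdeal)
    (hnp : ∀ q ∈ Qs, ∀ r, 1 ≤ r → ¬ Par (fun i => redK p0 ((pevO G)^[r] q i)) (fun i => redK p0 (q i))) :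
    ∃ (n : ℕ) (L : IntermediateField K (AlgebraicClosure K)) (_ : NumberField L) (_ : IsGalois K L),
      ∃ X₀ : Finset (ι → 𝓞 L),
      (∀ x ∈ X₀, x ≠ 0 ∧ ∃ q ∈ Qs, Par ((pev (algebraMap (𝓞 K) (𝓞 L)) G)^[n] x)
        (fun i => algebraMap (𝓞 K) (𝓞 L) (q i))) ∧
      (∀ q ∈ Qs, ∀ y : ι → AlgebraicClosure K, y ≠ 0 →
        Par ((pev (algebraMap (𝓞 K) (AlgebraicClosure K)) G)^[n] y) (fun i => algebraMap (𝓞 K) (AlgebraicClosure K) (q i)) →
        ∃ x ∈ X₀, Par y (fun i => algebraMap (𝓞 L) (AlgebraicClosure K) (x i))) ∧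
      ∃ σ : Gal(L/K), ∀ x ∈ X₀, ¬ Par (fun i => σ • x i) x := by
  classical
  set n := (Nat.card (𝓞 K ⧸ p0.asIdeal)) ^ Fintype.card ι with hn
  obtain ⟨L, hNF, hGal, X₀, hX1, hX2⟩ := exists_reps G hd hG hNZ Qs hQ0 n
  set Ω := AlgebraicClosure K with hΩ
  set j := algebraMap (𝓞 K) Ω with hj
  set jL := algebraMap (𝓞 L) Ω with hjL
  set iL := algebraMap (𝓞 K) (𝓞 L) with hiL
  have hcomp : jL.comp iL = j := by
    ext r
    rfl
  have hjLinj : Function.Injective jL := FaithfulSMul.algebraMap_injective (𝓞 L) Ω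
  have hNZL : NZ iL G := NZ.of_injective (ψ := jL) (by rw [hcomp]; exact hNZ) hjLinj
  obtain ⟨P0, hP0⟩ := exists_of_nonempty K L p0
  rw [mem_above] at hP0
  haveI := P0.isPrime
  haveI := P0.isMaximal
  obtain ⟨σ, hσ⟩ := IsArithFrobAt.exists_of_isInvariant (𝓞 K) Gal(L/K) P0.asIdeal
  refine ⟨n, L, hNF, hGal, X₀, hX1, hX2, σ, ?_⟩
  intro x hx hfix
  obtain ⟨hx0, q, hq, hxq⟩ := hX1 x hx
  obtain ⟨r, hr, hr'⟩ := frob_contra G hG hNZL p0 hgood P0 hP0 σ hσ n (by rw [hn]) x hx0 hfix q (hprim q hq) hxq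
  exact hnp q hq r hr hr'

/-- **Theorem B**: the orbit of `g1` avoids all `q ∈ Qs` modulo a positive proportion of the primes,
provided there is one prime of good reduction at which no `q` is periodic. -/
theorem coreB (G : ι → MvPolynomial ι (𝓞 K)) {d : ℕ} (hd : 1 ≤ d) (hG : ∀ i, (G i).IsHomogeneous d)
    (hNZ : NZ (algebraMap (𝓞 K) (AlgebraicClosure K)) G)
    (g1 : ι → 𝓞 K) (hg1 : g1 ≠ 0) (Qs : Finset (ι → 𝓞 K)) (hQ0 : ∀ q ∈ Qs, q ≠ 0)
    (hav : ∀ m, ∀ q ∈ Qs, ¬ Par ((pevO G)^[m] g1) q)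
    (p0 : HeightOneSpectrum (𝓞 K))
    (hgood : ∀ (κ : Type u) [Field κ] (φ : 𝓞 K →+* κ), RingHom.ker φ = p0.asIdeal → NZ φ G)
    (hprim : ∀ q ∈ Qs, ∃ i, q i ∉ p0.asIdeal)
    (hnp : ∀ q ∈ Qs, ∀ r, 1 ≤ r → ¬ Par (fun i => redK p0 ((pevO G)^[r] q i)) (fun i => redK p0 (q i))) :
    BigSet {p : HeightOneSpectrum (𝓞 K) | ∀ m, ∀ q ∈ Qs,
      ¬ Par (fun i => redK p ((pevO G)^[m] g1 i)) (fun i => redK p (q i))} := by
  obtain ⟨n, L, hNF, hGal, X₀, hX1, hX2, σ, hσ⟩ := exists_nofix G hd hG hNZ Qs hQ0 p0 hgood hprim hnp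
  exact coreB_of_nofix G hNZ g1 hg1 Qs hav n L X₀ hX2 σ hσ

end Pool.Agent.Lib.MP_df4dfc_nt
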