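import Mathlib
import Pool.Agent.Lib.MP_df4dfc_nt.CoreB

set_option autoImplicit false
set_option linter.unusedSectionVars false
set_option linter.style.haveILetI false
set_option linter.unusedVariables false

namespace Pool.Agent.Lib.MP_df4dfc_nt

open MvPolynomial NumberField IsDedekindDomain
open scoped Pointwise

universe u

section Basic

variable {K : Type u} [Field K] [NumberField K]

theorem not_big_empty : ¬ BigSet (∅ : Set (HeightOneSpectrum (𝓞 K))) := by
  rintro ⟨c, hc, N0, h⟩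
  have h1 := h (N0 + 1) (by omega)
  have h2 : cnt (∅ : Set (HeightOneSpectrum (𝓞 K))) (N0 + 1) = 0 := by
    unfold cnt
    simp
  rw [h2] at h1
  push_cast at h1
  rw [mul_zero] at h1
  have : (0:ℝ) < c * (N0 + 1) := by positivity
  linarith

theorem BigSet.infinite {S : Set (HeightOneSpectrum (𝓞 K))} (h : BigSet S) : S.Infinite := by
  intro hfin
  have := h.diff_finite hfin
  rw [Set.sdiff_self] at this
  exact not_big_empty this

theorem big_univ (K : Type u) [Field K] [NumberField K] :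
    BigSet (Set.univ : Set (HeightOneSpectrum (𝓞 K))) :=
  (big_stable K K (1 : Gal(K/K))).mono (Set.subset_univ _)

/-- outside the primes dividing a given nonzero element there are primes. -/
theorem exists_prime_not_mem (s : 𝓞 K) (hs : s ≠ 0) : ∃ p : HeightOneSpectrum (𝓞 K), s ∉ p.asIdeal := by
  have h := ((big_univ K).diff_finite (finite_bad' s hs)).infinite.nonempty
  obtain ⟨p, hp⟩ := h
  exact ⟨p, hp.2⟩

end Basic

theorem mem_of_dvd'' {R : Type*} [CommRing R] {I : Ideal R} {a b : R} (h : a ∣ b) (ha : a ∈ I) : b ∈ I := by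
  obtain ⟨c, rfl⟩ := h
  exact I.mul_mem_right c ha

section Iter

variable {ι : Type*} {R T : Type*} [CommRing R] [CommRing T] [IsDomain T]

/-- iterates of a vector with `c_{a+ℓ} ∥ c_a`. -/
theorem iter_add_par {G : ι → MvPolynomial ι R} {d : ℕ} (hG : ∀ i, (G i).IsHomogeneous d)
    {φ : R →+* T} (hNZ : NZ φ G) (x : ι → T) (hx : x ≠ 0) (a l : ℕ)
    (h : Par ((pev φ G)^[a + l] x) ((pev φ G)^[a] x)) (m k : ℕ) (hm : a ≤ m) :
    Par ((pev φ G)^[m + k * l] x) ((pev φ G)^[m] x) := by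
  induction k with
  | zero => simp; exact Par.refl _
  | succ k ih =>
    have h1 : (pev φ G)^[m + (k + 1) * l] x = (pev φ G)^[(m - a) + k * l] ((pev φ G)^[a + l] x) := by
      rw [← Function.iterate_add_apply]
      congr 1
      have : m = (m - a) + a := by omega
      conv_lhs => rw [this]
      ring
    have h2 : (pev φ G)^[m + k * l] x = (pev φ G)^[(m - a) + k * l] ((pev φ G)^[a] x) := by
      rw [← Function.iterate_add_apply]
      congr 1
      have : m = (m - a) + a := by omega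
      conv_lhs => rw [this]
      ring
    have h3 : Par ((pev φ G)^[m + (k + 1) * l] x) ((pev φ G)^[m + k * l] x) := by
      rw [h1, h2]
      exact pev_iter_par hG hNZ _ h (hNZ.iter a hx)
    exact h3.trans ih (hNZ.iter _ hx)

theorem pev_mapG {R' : Type*} [CommRing R'] (i : R →+* R') (φ : R' →+* T) (G : ι → MvPolynomial ι R)
    (y : ι → T) : pev φ (fun k => MvPolynomial.map i (G k)) y = pev (φ.comp i) G y := by
  funext k
  unfold pev
  rw [eval₂_map]

theorem pev_mapG' {R' : Type*} [CommRing R'] (i : R →+* R') (φ : R' →+* T) (G : ι → MvPolynomial ι R) :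
    pev φ (fun k => MvPolynomial.map i (G k)) = pev (φ.comp i) G := by
  funext y
  exact pev_mapG i φ G y

end Iter

section Main

variable {K : Type u} [Field K] [NumberField K] {ι : Type*} [Fintype ι]

/-- a nonvanishing minor -/
theorem exists_minor {R : Type*} [CommRing R] {x y : ι → R} (h : ¬ Par x y) :
    ∃ s : R, s ≠ 0 ∧ ∀ {T : Type*} [CommRing T] (φ : R →+* T),
      Par (fun i => φ (x i)) (fun i => φ (y i)) → φ s = 0 := by
  unfold Par at h
  push Not at h
  obtain ⟨a, b, hab⟩ := h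
  refine ⟨x a * y b - x b * y a, sub_ne_zero.2 hab, ?_⟩
  intro T _ φ hp
  rw [map_sub, map_mul, map_mul]
  exact sub_eq_zero.2 (hp a b)

/-- **Strictly preperiodic target.** -/
theorem core_strict (G : ι → MvPolynomial ι (𝓞 K)) {d : ℕ} (hd : 1 ≤ d) (hG : ∀ i, (G i).IsHomogeneous d)
    (hNZ : NZ (algebraMap (𝓞 K) (AlgebraicClosure K)) G)
    (g1 g2 : ι → 𝓞 K) (hg1 : g1 ≠ 0) (hg2 : g2 ≠ 0)
    (hav : ∀ m, ¬ Par ((pevO G)^[m] g1) g2)
    (hnper : ∀ r, 1 ≤ r → ¬ Par ((pevO G)^[r] g2) g2)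
    (a l : ℕ) (hl : 1 ≤ l) (hpre : Par ((pevO G)^[a + l] g2) ((pevO G)^[a] g2)) :
    BigSet {p : HeightOneSpectrum (𝓞 K) | ∀ m,
      ¬ Par (fun i => redK p ((pevO G)^[m] g1 i)) (fun i => redK p (g2 i))} := by
  classical
  set j := algebraMap (𝓞 K) (AlgebraicClosure K) with hj
  have hjinj : Function.Injective j := FaithfulSMul.algebraMap_injective (𝓞 K) (AlgebraicClosure K)
  obtain ⟨s2, hs2a, hs2b⟩ := good_ae.{u} j hjinj G hNZ
  obtain ⟨k1, hk1⟩ := Function.ne_iff.1 hg2
  rw [Pi.zero_apply] at hk1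
  have hmin : ∀ r : ℕ, ∃ s : 𝓞 K, s ≠ 0 ∧ (1 ≤ r → ∀ {T : Type u} [CommRing T] (φ : 𝓞 K →+* T),
      Par (fun i => φ ((pevO G)^[r] g2 i)) (fun i => φ (g2 i)) → φ s = 0) := by
    intro r
    by_cases hr : 1 ≤ r
    · obtain ⟨s, h1, h2⟩ := exists_minor (hnper r hr)
      exact ⟨s, h1, fun _ => h2⟩
    · exact ⟨1, one_ne_zero, fun h => absurd h hr⟩
  choose sm hsm1 hsm2 using hmin
  obtain ⟨p0, hp0⟩ := exists_prime_not_mem (s2 * g2 k1 * ∏ r ∈ Finset.range (a + l), sm r) (by
    refine mul_ne_zero (mul_ne_zero hs2a hk1) ?_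
    exact Finset.prod_ne_zero_iff.2 fun r _ => hsm1 r)
  have hp0p := p0.isPrime
  have e1 : s2 ∉ p0.asIdeal := fun h => hp0 (Ideal.mul_mem_right _ _ (Ideal.mul_mem_right _ _ h))
  have e2 : g2 k1 ∉ p0.asIdeal := fun h => hp0 (Ideal.mul_mem_right _ _ (Ideal.mul_mem_left _ _ h))
  have e3 : ∀ r ∈ Finset.range (a + l), sm r ∉ p0.asIdeal := by
    intro r hr h
    exact hp0 (Ideal.mul_mem_left _ _ (mem_of_dvd'' (Finset.dvd_prod_of_mem _ hr) h))
  have hgood : ∀ (κ : Type u) [Field κ] (φ : 𝓞 K →+* κ), RingHom.ker φ = p0.asIdeal → NZ φ G := by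
    intro κ _ φ hφ
    apply hs2b
    intro h0
    apply e1
    rw [← hφ]
    exact h0
  haveI := p0.isMaximal
  letI : Field (𝓞 K ⧸ p0.asIdeal) := Ideal.Quotient.field _
  have hNZ0 : NZ (redK p0) G := hgood _ (redK p0) (Ideal.mk_ker)
  have hg2b : (fun i => redK p0 (g2 i)) ≠ 0 := by
    intro h0
    exact e2 (Ideal.Quotient.eq_zero_iff_mem.1 (congrFun h0 k1))
  have hit : ∀ r, (fun i => redK p0 ((pevO G)^[r] g2 i)) = (pev (redK p0) G)^[r] (fun i => redK p0 (g2 i)) := by
    intro r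
    rw [pev_iter_map, RingHom.comp_id]
  have hmain := coreB G hd hG hNZ g1 hg1 {g2} (by simpa using hg2) (by simpa using hav) p0 hgood
    (by
      intro q hq
      rw [Finset.mem_singleton] at hq
      subst hq
      exact ⟨k1, e2⟩)
    (by
      intro q hq r hr hpar
      rw [Finset.mem_singleton] at hq
      subst hq
      -- reduce r to a number < a + l
      obtain ⟨r', hr'1, hr'2, hr'3⟩ : ∃ r', 1 ≤ r' ∧ r' < a + l ∧
          Par (fun i => redK p0 ((pevO G)^[r'] q i)) (fun i => redK p0 (q i)) := by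
        by_cases hlt : r < a + l
        · exact ⟨r, hr, hlt, hpar⟩
        · push Not at hlt
          -- r ≥ a + l
          by_cases ha : a = 0
          · -- then q would be periodic
            exfalso
            subst ha
            apply hnper l hl
            simpa using hpre
          · have ha1 : 1 ≤ a := Nat.one_le_iff_ne_zero.2 ha
            set m := a + (r - a) % l with hm
            have hmr : r = m + ((r - a) / l) * l := by
              have := Nat.mod_add_div (r - a) l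
              rw [mul_comm l] at this
              omega
            have hprebar : Par ((pev (redK p0) G)^[a + l] (fun i => redK p0 (q i)))
                ((pev (redK p0) G)^[a] (fun i => redK p0 (q i))) := by
              rw [← hit, ← hit]
              exact hpre.map (redK p0)
            have h5 := iter_add_par hG hNZ0 _ hg2b a l hprebar m ((r - a) / l) (by omega)
            rw [← hmr] at h5
            refine ⟨m, by omega, ?_, ?_⟩
            · have := Nat.mod_lt (r - a) (by omega : l > 0)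
              omega
            · rw [hit]
              rw [hit] at hpar
              exact h5.symm.trans hpar (hNZ0.iter _ hg2b)
      apply e3 r' (Finset.mem_range.2 hr'2)
      exact Ideal.Quotient.eq_zero_iff_mem.1 (hsm2 r' hr'1 (redK p0) hr'3))
  apply hmain.mono
  intro p hp m
  exact hp m g2 (Finset.mem_singleton_self _)

/-- **Periodic target.** -/
theorem core_periodic (G : ι → MvPolynomial ι (𝓞 K)) {d : ℕ} (hd : 1 ≤ d) (hG : ∀ i, (G i).IsHomogeneous d)
    (hNZ : NZ (algebraMap (𝓞 K) (AlgebraicClosure K)) G)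
    (g1 g2 : ι → 𝓞 K) (hg1 : g1 ≠ 0) (hg2 : g2 ≠ 0)
    (hav : ∀ m, ¬ Par ((pevO G)^[m] g1) g2)
    (l : ℕ) (hl : 1 ≤ l) (hper : Par ((pevO G)^[l] g2) g2) :
    BigSet {p : HeightOneSpectrum (𝓞 K) | ∀ m,
      ¬ Par (fun i => redK p ((pevO G)^[m] g1 i)) (fun i => redK p (g2 i))} := by
  classical
  set Ω := AlgebraicClosure K with hΩ
  set j := algebraMap (𝓞 K) Ω with hj
  have hjinj : Function.Injective j := FaithfulSMul.algebraMap_injective (𝓞 K) Ω
  -- the cycle
  set c : ℕ → (ι → 𝓞 K) := fun m => (pevO G)^[m] g2 with hc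
  have hNZ1 : NZ (RingHom.id (𝓞 K)) G := NZ.of_injective (ψ := j) (by rw [RingHom.comp_id]; exact hNZ) hjinj
  have hc0 : ∀ m, c m ≠ 0 := fun m => hNZ1.iter m hg2
  set Qs : Finset (ι → 𝓞 K) := (Finset.range l).image (fun m => c (m + 1)) with hQs
  have hQs0 : ∀ q ∈ Qs, q ≠ 0 := by
    intro q hq
    rw [hQs, Finset.mem_image] at hq
    obtain ⟨m, _, rfl⟩ := hq
    exact hc0 _
  obtain ⟨L, hNF, hGal, X₀, hX1, hX2⟩ := exists_reps G hd hG hNZ Qs hQs0 1
  set jL := algebraMap (𝓞 L) Ω with hjL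
  set iL := algebraMap (𝓞 K) (𝓞 L) with hiL
  have hcomp : jL.comp iL = j := by
    ext r
    rfl
  have hjLinj : Function.Injective jL := FaithfulSMul.algebraMap_injective (𝓞 L) Ω
  have hNZL : NZ iL G := NZ.of_injective (ψ := jL) (by rw [hcomp]; exact hNZ) hjLinj
  have hiLinj : Function.Injective iL := by
    intro a b hab
    apply hjinj
    rw [← hcomp, RingHom.comp_apply, RingHom.comp_apply, hab]
  have hiL0 : ∀ x : ι → 𝓞 K, x ≠ 0 → (fun i => iL (x i)) ≠ 0 := by
    intro x hx h0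
    apply hx
    funext i
    apply hiLinj
    rw [Pi.zero_apply, map_zero]
    exact congrFun h0 i
  -- the new map
  set G₁ : ι → MvPolynomial ι (𝓞 L) := fun k => MvPolynomial.map iL (G k) with hG₁
  have hG₁h : ∀ i, (G₁ i).IsHomogeneous d := fun i => (hG i).map iL
  have hpevO : pevO G₁ = pev iL G := by
    rw [hG₁]
    have := pev_mapG' iL (RingHom.id (𝓞 L)) G
    rw [RingHom.id_comp] at this
    exact this
  -- nonvanishing over the algebraic closure of L
  have hNZ₁ : NZ (algebraMap (𝓞 L) (AlgebraicClosure L)) G₁ := by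
    let f : AlgebraicClosure L →ₐ[L] Ω := IsAlgClosed.lift
    have h1 : NZ ((f.toRingHom.comp (algebraMap (𝓞 L) (AlgebraicClosure L))).comp iL) G := by
      have : (f.toRingHom.comp (algebraMap (𝓞 L) (AlgebraicClosure L))).comp iL = j := by
        rw [← hcomp]
        congr 1
        ext r
        exact f.commutes (r : L)
      rw [this]
      exact hNZ
    intro y hy h0
    have h2 : NZ ((algebraMap (𝓞 L) (AlgebraicClosure L)).comp iL) G :=
      NZ.of_injective (ψ := f.toRingHom) h1 f.toRingHom.injective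
    apply h2 y hy
    rw [← pev_mapG]
    exact h0
  -- the set of noncycle points
  set Q' : Finset (ι → 𝓞 L) := X₀.filter (fun x => ∀ m < l, ¬ Par x (fun i => iL (c m i))) with hQ'
  have hcyc_per : ∀ m k, Par (c (m + k * l)) (c m) := by
    intro m k
    exact iter_add_par hG hNZ1 g2 hg2 0 l (by simpa using hper) m k (Nat.zero_le _)
  have hcyc_mod : ∀ m, Par (c m) (c (m % l)) := by
    intro m
    have := hcyc_per (m % l) (m / l)
    have h2 : m % l + m / l * l = m := by rw [mul_comm]; exact Nat.mod_add_div m l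
    rw [h2] at this
    exact this
  -- iterates over L
  have hitL : ∀ (m : ℕ) (x : ι → 𝓞 K), (pev iL G)^[m] (fun i => iL (x i)) = fun i => iL ((pevO G)^[m] x i) := by
    intro m x
    rw [pev_iter_map, RingHom.comp_id]
  -- the orbit of g1 avoids Q'
  have hav' : ∀ m, ∀ q ∈ Q', ¬ Par ((pevO G₁)^[m] (fun i => iL (g1 i))) q := by
    intro m q hq hpar
    rw [hQ', Finset.mem_filter] at hq
    obtain ⟨hq0, q', hq', hqq⟩ := hX1 q hq.1
    rw [hQs, Finset.mem_image] at hq'
    obtain ⟨i, hi, rfl⟩ := hq'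
    rw [Finset.mem_range] at hi
    rw [Function.iterate_one] at hqq
    rw [hpevO] at hpar
    -- the next iterate is in the cycle
    have h1 : Par ((pev iL G)^[m + 1] (fun i => iL (g1 i))) (fun k => iL (c (i + 1) k)) := by
      rw [Function.iterate_succ_apply']
      exact (pev_par hG iL hpar hq0).trans hqq (hNZL q hq0)
    have h2 : Par ((pev iL G)^[l - (i + 1)] ((pev iL G)^[m + 1] (fun i => iL (g1 i))))
        ((pev iL G)^[l - (i + 1)] (fun k => iL (c (i + 1) k))) :=
      pev_iter_par hG hNZL _ h1 (hiL0 _ (hc0 _))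
    rw [← Function.iterate_add_apply, hitL, hitL] at h2
    have h3 := Par.of_map iL hiLinj h2
    have h4 : (pevO G)^[l - (i + 1)] (c (i + 1)) = c l := by
      rw [hc]
      simp only
      rw [← Function.iterate_add_apply]
      congr 1
      omega
    rw [h4] at h3
    exact hav _ (h3.trans hper (hc0 l))
  -- choose the prime
  obtain ⟨s2, hs2a, hs2b⟩ := good_ae.{u} j hjinj G hNZ
  have hQ'0 : ∀ q ∈ Q', q ≠ 0 := fun q hq => (hX1 q (Finset.mem_filter.1 hq).1).1
  have hprimk : ∀ q : ι → 𝓞 L, ∃ s : 𝓞 L, s ≠ 0 ∧ (q ∈ Q' → ∃ k, s = q k) := by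
    intro q
    by_cases hq : q ∈ Q'
    · obtain ⟨k, hk⟩ := Function.ne_iff.1 (hQ'0 q hq)
      exact ⟨q k, hk, fun _ => ⟨k, rfl⟩⟩
    · exact ⟨1, one_ne_zero, fun h => absurd h hq⟩
  choose sp hsp1 hsp2 using hprimk
  have hmin : ∀ (q : ι → 𝓞 L) (m : ℕ), ∃ s : 𝓞 L, s ≠ 0 ∧ (q ∈ Q' → m < l → ∀ {T : Type u} [CommRing T] (φ : 𝓞 L →+* T),
      Par (fun i => φ (q i)) (fun i => φ (iL (c m i))) → φ s = 0) := by
    intro q m
    by_cases hq : q ∈ Q' ∧ m < l
    · obtain ⟨s, h1, h2⟩ := exists_minor ((Finset.mem_filter.1 hq.1).2 m hq.2)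
      exact ⟨s, h1, fun _ _ => h2⟩
    · exact ⟨1, one_ne_zero, fun h h' => absurd ⟨h, h'⟩ hq⟩
  choose sm hsm1 hsm2 using hmin
  have hs2L : iL s2 ≠ 0 := by
    intro h0
    apply hs2a
    apply hiLinj
    rw [h0, map_zero]
  obtain ⟨p1, hp1⟩ := exists_prime_not_mem (K := L) (iL s2 * (∏ q ∈ Q', sp q) * ∏ q ∈ Q', ∏ m ∈ Finset.range l, sm q m) (by
    refine mul_ne_zero (mul_ne_zero hs2L ?_) ?_
    · exact Finset.prod_ne_zero_iff.2 fun q _ => hsp1 q
    · exact Finset.prod_ne_zero_iff.2 fun q _ => Finset.prod_ne_zero_iff.2 fun m _ => hsm1 q m)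
  have e1 : iL s2 ∉ p1.asIdeal := fun h => hp1 (Ideal.mul_mem_right _ _ (Ideal.mul_mem_right _ _ h))
  have e2 : ∀ q ∈ Q', sp q ∉ p1.asIdeal := by
    intro q hq h
    exact hp1 (Ideal.mul_mem_right _ _ (Ideal.mul_mem_left _ _ (mem_of_dvd'' (Finset.dvd_prod_of_mem _ hq) h)))
  have e3 : ∀ q ∈ Q', ∀ m ∈ Finset.range l, sm q m ∉ p1.asIdeal := by
    intro q hq m hm h
    apply hp1
    apply Ideal.mul_mem_left
    exact mem_of_dvd'' (Finset.dvd_prod_of_mem (fun q => ∏ m ∈ Finset.range l, sm q m) hq)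
      (mem_of_dvd'' (Finset.dvd_prod_of_mem (fun m => sm q m) hm) h)
  have hgood₁ : ∀ (κ : Type u) [Field κ] (φ : 𝓞 L →+* κ), RingHom.ker φ = p1.asIdeal → NZ φ G₁ := by
    intro κ _ φ hφ y hy h0
    have h1 : NZ (φ.comp iL) G := by
      apply hs2b
      intro h2
      apply e1
      rw [← hφ]
      exact h2
    apply h1 y hy
    rw [← pev_mapG]
    exact h0
  haveI := p1.isMaximal
  letI : Field (𝓞 L ⧸ p1.asIdeal) := Ideal.Quotient.field _
  have hNZp1 : NZ ((redK p1).comp iL) G := by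
    apply hs2b
    intro h2
    exact e1 (Ideal.Quotient.eq_zero_iff_mem.1 h2)
  have hbig := coreB G₁ hd hG₁h hNZ₁ (fun i => iL (g1 i)) (hiL0 g1 hg1) Q' hQ'0 hav' p1 hgood₁
    (by
      intro q hq
      obtain ⟨k, hk⟩ := hsp2 q hq
      exact ⟨k, by rw [← hk]; exact e2 q hq⟩)
    (by
      intro q hq r hr hpar
      obtain ⟨hq0, q', hq', hqq⟩ := hX1 q (Finset.mem_filter.1 hq).1
      rw [hQs, Finset.mem_image] at hq'
      obtain ⟨i, hi, rfl⟩ := hq'
      rw [Function.iterate_one] at hqq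
      -- q mod p1 nonzero
      have hqb : (fun k => redK p1 (q k)) ≠ 0 := by
        intro h0
        obtain ⟨k, hk⟩ := hsp2 q hq
        apply e2 q hq
        rw [hk]
        exact Ideal.Quotient.eq_zero_iff_mem.1 (congrFun h0 k)
      -- the r-th iterate is in the cycle
      have h1 : Par ((pev iL G)^[r] q) (fun k => iL (c (i + r) k)) := by
        obtain ⟨r', rfl⟩ : ∃ r', r = r' + 1 := ⟨r - 1, by omega⟩
        rw [Function.iterate_succ_apply]
        have h2 := pev_iter_par hG hNZL r' hqq (hiL0 _ (hc0 _))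
        rw [hitL] at h2
        have h3 : (pevO G)^[r'] (c (i + 1)) = c (i + (r' + 1)) := by
          rw [hc]
          simp only
          rw [← Function.iterate_add_apply]
          congr 1
          omega
        rw [h3] at h2
        exact h2
      have h2 : Par (fun k => iL (c (i + r) k)) (fun k => iL (c ((i + r) % l) k)) := (hcyc_mod (i + r)).map iL
      have h3 := (h1.trans h2 (hiL0 _ (hc0 _))).map (redK p1)
      rw [hpevO] at hpar
      have hne : (fun k => redK p1 ((pev iL G)^[r] q k)) ≠ 0 := by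
        rw [pev_iter_map]
        exact hNZp1.iter r hqb
      have h4 := hpar.symm.trans h3 hne
      have h5 := hsm2 q ((i + r) % l) hq (Nat.mod_lt _ (by omega)) (redK p1) h4
      exact e3 q hq _ (Finset.mem_range.2 (Nat.mod_lt _ (by omega))) (Ideal.Quotient.eq_zero_iff_mem.1 h5))
  -- lifting at level one
  have hs1 : ∀ q : ι → 𝓞 K, ∃ s : 𝓞 L, s ≠ 0 ∧ (q ∈ Qs → ∀ (κ : Type u) [Field κ] (φ : 𝓞 L →+* κ), φ s ≠ 0 →
      ∀ y : ι → κ, y ≠ 0 → Par (pev φ G₁ y) (fun i => φ (iL (q i))) → ∃ x ∈ X₀, Par y (fun i => φ (x i))) := by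
    intro q
    by_cases hq : q ∈ Qs
    · obtain ⟨s, hs, h⟩ := lifting.{u} jL hjLinj G₁ (fun i => iL (q i)) X₀ (by
        intro y hy hpar
        have h1 : pev jL G₁ y = (pev j G)^[1] y := by
          rw [Function.iterate_one, hG₁, pev_mapG, hcomp]
        rw [h1] at hpar
        exact hX2 q hq y hy hpar)
      exact ⟨s, hs, fun _ => h⟩
    · exact ⟨1, one_ne_zero, fun h => absurd h hq⟩
  choose s1 hs1a hs1b using hs1
  -- minors of g1 against the cycle
  have hg1c : ∀ m, ¬ Par g1 (c m) := by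
    intro m hpar
    have h1 : Par ((pevO G)^[l - m % l] g1) ((pevO G)^[l - m % l] (c (m % l))) :=
      pev_iter_par hG hNZ1 _ (hpar.trans (hcyc_mod m) (hc0 m)) (hc0 _)
    have h2 : (pevO G)^[l - m % l] (c (m % l)) = c l := by
      rw [hc]
      simp only
      rw [← Function.iterate_add_apply]
      congr 1
      have := Nat.mod_lt m (by omega : l > 0)
      omega
    rw [h2] at h1
    exact hav _ (h1.trans hper (hc0 l))
  have hsg : ∀ m : ℕ, ∃ s : 𝓞 K, s ≠ 0 ∧ (∀ {T : Type u} [CommRing T] (φ : 𝓞 K →+* T),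
      Par (fun i => φ (g1 i)) (fun i => φ (c m i)) → φ s = 0) := fun m => exists_minor (hg1c m)
  choose sg hsg1 hsg2 using hsg
  obtain ⟨k1, hk1⟩ := Function.ne_iff.1 hg1
  rw [Pi.zero_apply] at hk1
  obtain ⟨k2, hk2⟩ := Function.ne_iff.1 hg2
  rw [Pi.zero_apply] at hk2
  have hX0k : ∀ x : ι → 𝓞 L, ∃ s : 𝓞 L, s ≠ 0 ∧ (x ∈ X₀ → ∃ k, s = x k) := by
    intro x
    by_cases hx : x ∈ X₀
    · obtain ⟨k, hk⟩ := Function.ne_iff.1 (hX1 x hx).1
      exact ⟨x k, hk, fun _ => ⟨k, rfl⟩⟩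
    · exact ⟨1, one_ne_zero, fun h => absurd h hx⟩
  choose sx hsx1 hsx2 using hX0k
  have hbadne : (∏ q ∈ Qs, s1 q) * iL s2 * (∏ m ∈ Finset.range l, iL (sg m)) * iL (g1 k1) * iL (g2 k2)
      * (∏ x ∈ X₀, sx x) ≠ 0 := by
    have hz : ∀ a : 𝓞 K, a ≠ 0 → iL a ≠ 0 := by
      intro a ha h0
      apply ha
      apply hiLinj
      rw [h0, map_zero]
    refine mul_ne_zero (mul_ne_zero (mul_ne_zero (mul_ne_zero (mul_ne_zero ?_ hs2L) ?_) (hz _ hk1)) (hz _ hk2)) ?_
    · exact Finset.prod_ne_zero_iff.2 fun q _ => hs1a q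
    · exact Finset.prod_ne_zero_iff.2 fun m _ => hz _ (hsg1 m)
    · exact Finset.prod_ne_zero_iff.2 fun x _ => hsx1 x
  have hbig2 := (hbig.diff_finite (finite_bad' _ hbadne)).image_bel (K := K)
  apply hbig2.mono
  rintro p ⟨P, ⟨hP1, hP2⟩, rfl⟩
  rw [Set.mem_ofPred_eq] at hP1 hP2
  have f1 : ∀ q ∈ Qs, s1 q ∉ P.asIdeal := by
    intro q hq h
    exact hP2 (Ideal.mul_mem_right _ _ (Ideal.mul_mem_right _ _ (Ideal.mul_mem_right _ _ (Ideal.mul_mem_right _ _ (Ideal.mul_mem_right _ _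
      (mem_of_dvd'' (Finset.dvd_prod_of_mem _ hq) h))))))
  have f2 : iL s2 ∉ P.asIdeal := fun h =>
    hP2 (Ideal.mul_mem_right _ _ (Ideal.mul_mem_right _ _ (Ideal.mul_mem_right _ _ (Ideal.mul_mem_right _ _ (Ideal.mul_mem_left _ _ h)))))
  have f3 : ∀ m ∈ Finset.range l, iL (sg m) ∉ P.asIdeal := by
    intro m hm h
    exact hP2 (Ideal.mul_mem_right _ _ (Ideal.mul_mem_right _ _ (Ideal.mul_mem_right _ _ (Ideal.mul_mem_left _ _
      (mem_of_dvd'' (Finset.dvd_prod_of_mem (fun m => iL (sg m)) hm) h)))))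
  have f4 : iL (g1 k1) ∉ P.asIdeal := fun h => hP2 (Ideal.mul_mem_right _ _ (Ideal.mul_mem_right _ _ (Ideal.mul_mem_left _ _ h)))
  have f5 : iL (g2 k2) ∉ P.asIdeal := fun h => hP2 (Ideal.mul_mem_right _ _ (Ideal.mul_mem_left _ _ h))
  have f6 : ∀ x ∈ X₀, sx x ∉ P.asIdeal := by
    intro x hx h
    exact hP2 (Ideal.mul_mem_left _ _ (mem_of_dvd'' (Finset.dvd_prod_of_mem _ hx) h))
  haveI := P.isMaximal
  letI : Field (𝓞 L ⧸ P.asIdeal) := Ideal.Quotient.field _
  set φ : 𝓞 L →+* 𝓞 L ⧸ P.asIdeal := Ideal.Quotient.mk P.asIdeal with hφ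
  have hφ0 : ∀ a, a ∉ P.asIdeal → φ a ≠ 0 := fun a ha h0 => ha (Ideal.Quotient.eq_zero_iff_mem.1 h0)
  set ψ : 𝓞 K →+* 𝓞 L ⧸ P.asIdeal := φ.comp iL with hψ
  have hNZψ : NZ ψ G := hs2b _ ψ (hφ0 _ f2)
  have hg1ψ : (fun i => ψ (g1 i)) ≠ 0 := fun h0 => hφ0 _ f4 (congrFun h0 k1)
  have hg2ψ : (fun i => ψ (g2 i)) ≠ 0 := fun h0 => hφ0 _ f5 (congrFun h0 k2)
  have hitψ : ∀ m (x : ι → 𝓞 K), (fun i => ψ ((pevO G)^[m] x i)) = (pev ψ G)^[m] (fun i => ψ (x i)) := by
    intro m x
    rw [pev_iter_map, RingHom.comp_id]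
  have hcψ : ∀ i, (fun k => ψ (c i k)) ≠ 0 := by
    intro i
    rw [hc]
    simp only
    rw [hitψ]
    exact hNZψ.iter i hg2ψ
  have hX0ψ : ∀ x ∈ X₀, (fun k => φ (x k)) ≠ 0 := by
    intro x hx h0
    obtain ⟨k, hk⟩ := hsx2 x hx
    apply hφ0 _ (f6 x hx)
    rw [hk]
    exact congrFun h0 k
  have htrans : ∀ u v : ι → 𝓞 K, Par (fun i => redK (bel K L P) (u i)) (fun i => redK (bel K L P) (v i)) →
      Par (fun i => ψ (u i)) (fun i => ψ (v i)) := by
    intro u v h a b
    have h1 := h a b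
    rw [← map_mul, ← map_mul, Ideal.Quotient.eq] at h1
    rw [← map_mul, ← map_mul, hψ, RingHom.comp_apply, RingHom.comp_apply]
    apply Ideal.Quotient.eq.2
    rw [← map_sub]
    exact h1
  rw [Set.mem_ofPred_eq]
  intro m hpar
  have hpar' := htrans _ _ hpar
  -- backward induction along the orbit
  have hback : ∀ t, t ≤ m → ∃ i, i < l ∧ Par (fun k => ψ ((pevO G)^[m - t] g1 k)) (fun k => ψ (c i k)) := by
    intro t
    induction t with
    | zero =>
      intro _
      exact ⟨0, by omega, hpar'⟩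
    | succ t ih =>
      intro ht
      obtain ⟨i, hi, hpi⟩ := ih (by omega)
      -- replace i = 0 by l
      obtain ⟨i', hi'l, hpi'⟩ : ∃ i', i' < l ∧
          Par (fun k => ψ ((pevO G)^[m - t] g1 k)) (fun k => ψ (c (i' + 1) k)) := by
        by_cases h0 : i = 0
        · subst h0
          refine ⟨l - 1, by omega, ?_⟩
          rw [Nat.sub_add_cancel hl]
          have h5 : Par (fun k => ψ (c 0 k)) (fun k => ψ (c l k)) := (Par.symm hper).map ψ
          exact hpi.trans h5 (hcψ 0)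
        · refine ⟨i - 1, by omega, ?_⟩
          rw [Nat.sub_add_cancel (by omega)]
          exact hpi
      set yb : ι → 𝓞 L ⧸ P.asIdeal := fun k => ψ ((pevO G)^[m - (t + 1)] g1 k) with hyb
      have hyb0 : yb ≠ 0 := by
        rw [hyb, hitψ]
        exact hNZψ.iter _ hg1ψ
      have hmem : c (i' + 1) ∈ Qs := by
        rw [hQs, Finset.mem_image]
        exact ⟨i', Finset.mem_range.2 hi'l, rfl⟩
      have h6 : Par (pev φ G₁ yb) (fun k => φ (iL (c (i' + 1) k))) := by
        have h7 : pev φ G₁ yb = fun k => ψ ((pevO G)^[m - t] g1 k) := by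
          rw [hG₁, pev_mapG, ← hψ, hyb, hitψ, hitψ, ← Function.iterate_succ_apply' (pev ψ G)]
          congr 2
          omega
        rw [h7]
        exact hpi'
      obtain ⟨x, hx, hxpar⟩ := hs1b _ hmem _ φ (hφ0 _ (f1 _ hmem)) yb hyb0 h6
      by_cases hxQ : x ∈ Q'
      · exfalso
        apply hP1 (m - (t + 1)) x hxQ
        have h8 : (fun k => redK P ((pevO G₁)^[m - (t + 1)] (fun i => iL (g1 i)) k)) = yb := by
          rw [hpevO, hitL]
          rfl
        rw [h8]
        exact hxpar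
      · rw [hQ', Finset.mem_filter] at hxQ
        push Not at hxQ
        obtain ⟨i'', hi'', hpx⟩ := hxQ hx
        exact ⟨i'', hi'', hxpar.trans (hpx.map φ) (hX0ψ x hx)⟩
  obtain ⟨i, hi, hpi⟩ := hback m le_rfl
  rw [Nat.sub_self] at hpi
  have h9 := hsg2 i ψ hpi
  exact hφ0 _ (f3 i (Finset.mem_range.2 hi)) h9

end Main

end Pool.Agent.Lib.MP_df4dfc_nt
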