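import Mathlib
import Pool.Agent.Lib.MP_df4dfc_nt.Defs
import Pool.Agent.Lib.MP_df4dfc_nt.Periodic

set_option autoImplicit false
set_option linter.unusedSectionVars false
set_option linter.style.haveILetI false
set_option linter.unusedVariables false

namespace Pool.Agent.Lib.MP_df4dfc_nt

open NumberField IsDedekindDomain

universe u

section Proj

variable {K : Type u} [Field K] {N d : ℕ}

theorem mk_eq_iff_par (v w : Fin (N + 1) → K) (hv : v ≠ 0) (hw : w ≠ 0) :
    Projectivization.mk K v hv = Projectivization.mk K w hw ↔ Par v w := by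
  rw [Projectivization.mk_eq_mk_iff']
  constructor
  · rintro ⟨a, rfl⟩
    exact (Par.refl w).smul_left a
  · intro h
    obtain ⟨c, hc⟩ := h.exists_smul hw
    exact ⟨c, hc.symm⟩

theorem pev_id_eval (Φ : Morph K N d) (v : Fin (N + 1) → K) :
    pev (RingHom.id K) Φ.F v = fun i => MvPolynomial.eval v (Φ.F i) := rfl

/-- The induced map can be computed with any homogeneous coordinates. -/
theorem Morph.map_mk (Φ : Morph K N d) (v : Fin (N + 1) → K) (hv : v ≠ 0) :
    Φ.map (Projectivization.mk K v hv)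
      = Projectivization.mk K (fun i => MvPolynomial.eval v (Φ.F i)) (Φ.eval_ne_zero v hv) := by
  unfold Morph.map
  rw [mk_eq_iff_par]
  have h1 : Par (Projectivization.mk K v hv).rep v := by
    rw [← mk_eq_iff_par _ _ (Projectivization.rep_nonzero _) hv, Projectivization.mk_rep]
  have h2 := pev_par Φ.homog (RingHom.id K) h1 hv
  exact h2

end Proj

section NFd

variable {K : Type u} [Field K] [NumberField K] {N d : ℕ}

/-- integral representatives -/
def Rp (P : PN K N) (x : Fin (N + 1) → 𝓞 K) : Prop :=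
  ∃ h : (fun i => (x i : K)) ≠ 0, Projectivization.mk K (fun i => (x i : K)) h = P

theorem inj_O : Function.Injective (algebraMap (𝓞 K) K) := RingOfIntegers.coe_injective

theorem coe_ne_zero_of {x : Fin (N + 1) → 𝓞 K} (hx : x ≠ 0) : (fun i => (x i : K)) ≠ 0 := by
  intro h
  apply hx
  funext i
  apply inj_O
  rw [Pi.zero_apply, map_zero]
  exact congrFun h i

theorem Rp.ne_zero {P : PN K N} {x : Fin (N + 1) → 𝓞 K} (h : Rp P x) : x ≠ 0 := by
  obtain ⟨h0, _⟩ := h
  rintro rfl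
  apply h0
  funext i
  simp

theorem Rp.par {P : PN K N} {x y : Fin (N + 1) → 𝓞 K} (hx : Rp P x) (hy : Rp P y) : Par x y := by
  obtain ⟨h0, h1⟩ := hx
  obtain ⟨h2, h3⟩ := hy
  apply Par.of_map (algebraMap (𝓞 K) K) inj_O
  rw [← h3] at h1
  exact (mk_eq_iff_par _ _ h0 h2).1 h1

theorem Rp.eq_of_par {P Q : PN K N} {x y : Fin (N + 1) → 𝓞 K} (hx : Rp P x) (hy : Rp Q y)
    (h : Par x y) : P = Q := by
  obtain ⟨h0, h1⟩ := hx
  obtain ⟨h2, h3⟩ := hy
  rw [← h1, ← h3, mk_eq_iff_par]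
  exact h.map (algebraMap (𝓞 K) K)

theorem Rp.of_par {P : PN K N} {x y : Fin (N + 1) → 𝓞 K} (hx : Rp P x) (h : Par y x) (hy : y ≠ 0) :
    Rp P y := by
  obtain ⟨h0, h1⟩ := hx
  refine ⟨coe_ne_zero_of hy, ?_⟩
  rw [← h1, mk_eq_iff_par]
  exact h.map (algebraMap (𝓞 K) K)

theorem exists_Rp (P : PN K N) : ∃ x, Rp P x := by
  obtain ⟨s, x, hs, hx⟩ := exists_int P.rep
  have hsK : (s : K) ≠ 0 := by
    intro h0
    apply hs
    apply inj_O
    rw [map_zero]
    exact h0
  have hpar : Par (fun i => (x i : K)) P.rep := by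
    intro a b
    simp only
    rw [hx, hx]
    ring
  have hne : (fun i => (x i : K)) ≠ 0 := by
    intro h0
    apply P.rep_nonzero
    funext i
    have h1 := congrFun h0 i
    simp only [Pi.zero_apply] at h1 ⊢
    rw [hx] at h1
    exact (mul_eq_zero.1 h1).resolve_left hsK
  refine ⟨x, hne, ?_⟩
  conv_rhs => rw [← P.mk_rep]
  rw [mk_eq_iff_par]
  exact hpar

theorem exists_Rp_prim (p : HeightOneSpectrum (𝓞 K)) (P : PN K N) :
    ∃ x, Rp P x ∧ ∃ i, x i ∉ p.asIdeal := by
  obtain ⟨x, hx⟩ := exists_Rp P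
  obtain ⟨y, hy, k, hk⟩ := exists_primitive p.asIdeal (Ideal.IsPrime.ne_top p.isPrime) x hx.ne_zero
  refine ⟨y, hx.of_par hy ?_, k, hk⟩
  rintro rfl
  exact hk (by simp)

/-- `G` is an integral model of `Φ`. -/
def Model (Φ : Morph K N d) (c : K) (G : Fin (N + 1) → MvPolynomial (Fin (N + 1)) (𝓞 K)) : Prop :=
  c ≠ 0 ∧ ∀ i, MvPolynomial.map (algebraMap (𝓞 K) K) (G i) = MvPolynomial.C c * Φ.F i

theorem exists_model (Φ : Morph K N d) : ∃ c G, Model Φ c G := by
  letI : Algebra (MvPolynomial (Fin (N + 1)) (𝓞 K)) (MvPolynomial (Fin (N + 1)) K) :=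
    MvPolynomial.algebraMvPolynomial
  haveI : IsLocalization ((nonZeroDivisors (𝓞 K)).map (MvPolynomial.C (σ := Fin (N + 1)) : 𝓞 K →+* _))
      (MvPolynomial (Fin (N + 1)) K) := MvPolynomial.isLocalization (nonZeroDivisors (𝓞 K)) K
  obtain ⟨b, hb⟩ := IsLocalization.exist_integer_multiples_of_finite
    ((nonZeroDivisors (𝓞 K)).map (MvPolynomial.C (σ := Fin (N + 1)) : 𝓞 K →+* _)) Φ.F
  obtain ⟨b0, hb0, hb1⟩ := Submonoid.mem_map.1 b.2
  choose G hG using hb
  refine ⟨(b0 : K), G, ?_, ?_⟩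
  · intro h0
    apply nonZeroDivisors.ne_zero hb0
    apply inj_O
    rw [map_zero]
    exact h0
  · intro i
    have h1 := hG i
    rw [Algebra.smul_def, ← hb1] at h1
    have h2 : algebraMap (MvPolynomial (Fin (N + 1)) (𝓞 K)) (MvPolynomial (Fin (N + 1)) K) (MvPolynomial.C b0)
        = MvPolynomial.C (b0 : K) := by
      change MvPolynomial.map (algebraMap (𝓞 K) K) (MvPolynomial.C b0) = _
      rw [MvPolynomial.map_C]
    rw [h2] at h1
    exact h1

theorem Model.homog {Φ : Morph K N d} {c : K} {G : Fin (N + 1) → MvPolynomial (Fin (N + 1)) (𝓞 K)}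
    (h : Model Φ c G) (i : Fin (N + 1)) : (G i).IsHomogeneous d := by
  apply MvPolynomial.IsHomogeneous.of_map (f := algebraMap (𝓞 K) K) inj_O
  rw [h.2 i]
  exact (Φ.homog i).C_mul c

theorem Model.nz {Φ : Morph K N d} {c : K} {G : Fin (N + 1) → MvPolynomial (Fin (N + 1)) (𝓞 K)}
    (h : Model Φ c G) : NZ (algebraMap (𝓞 K) (AlgebraicClosure K)) G := by
  intro y hy h0
  apply hy
  apply Φ.noZero
  intro i
  have h1 : MvPolynomial.eval₂ (algebraMap (𝓞 K) (AlgebraicClosure K)) y (G i) = 0 := congrFun h0 i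
  have h2 : MvPolynomial.aeval y (MvPolynomial.map (algebraMap (𝓞 K) K) (G i))
      = MvPolynomial.eval₂ (algebraMap (𝓞 K) (AlgebraicClosure K)) y (G i) := by
    rw [MvPolynomial.aeval_def, MvPolynomial.eval₂_map]
    rfl
  rw [← h2, h.2 i, map_mul, MvPolynomial.aeval_C] at h1
  rcases mul_eq_zero.1 h1 with h3 | h3
  · exact absurd ((map_eq_zero _).1 h3) h.1
  · exact h3

theorem Model.rp {Φ : Morph K N d} {c : K} {G : Fin (N + 1) → MvPolynomial (Fin (N + 1)) (𝓞 K)}
    (h : Model Φ c G) {P : PN K N} {x : Fin (N + 1) → 𝓞 K} (hx : Rp P x) :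
    Rp (Φ.map P) (pevO G x) := by
  obtain ⟨h0, rfl⟩ := hx
  have h1 : (fun i => (pevO G x i : K)) = c • (fun i => MvPolynomial.eval (fun i => (x i : K)) (Φ.F i)) := by
    funext i
    have h2 : ((pevO G x i : 𝓞 K) : K) = MvPolynomial.eval (fun i => (x i : K)) (MvPolynomial.map (algebraMap (𝓞 K) K) (G i)) := by
      rw [MvPolynomial.eval_map]
      have := congrFun (pev_map (RingHom.id (𝓞 K)) (algebraMap (𝓞 K) K) G x) i
      rw [RingHom.comp_id] at this
      exact this
    rw [h2, h.2 i, map_mul, MvPolynomial.eval_C]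
    rfl
  have hne : (fun i => (pevO G x i : K)) ≠ 0 := by
    rw [h1]
    intro h2
    rcases smul_eq_zero.1 h2 with h3 | h3
    · exact h.1 h3
    · exact Φ.eval_ne_zero _ h0 h3
  refine ⟨hne, ?_⟩
  rw [Morph.map_mk, mk_eq_iff_par, h1]
  exact (Par.refl _).smul_left c

theorem Model.rp_iter {Φ : Morph K N d} {c : K} {G : Fin (N + 1) → MvPolynomial (Fin (N + 1)) (𝓞 K)}
    (h : Model Φ c G) {P : PN K N} {x : Fin (N + 1) → 𝓞 K} (hx : Rp P x) (m : ℕ) :
    Rp (Φ.map^[m] P) ((pevO G)^[m] x) := by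
  induction m with
  | zero => exact hx
  | succ m ih =>
    rw [Function.iterate_succ_apply', Function.iterate_succ_apply']
    exact h.rp ih

theorem IsCoord.rp {p : HeightOneSpectrum (𝓞 K)} {P : PN K N} {x : Fin (N + 1) → 𝓞 K}
    (h : IsCoord p P x) : Rp P x := h.2

/-- congruence implies proportionality of arbitrary integral representatives modulo `p`. -/
theorem Cong.par {p : HeightOneSpectrum (𝓞 K)} {P Q : PN K N} (h : Cong p P Q)
    {x y : Fin (N + 1) → 𝓞 K} (hx : Rp P x) (hy : Rp Q y) :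
    Par (fun i => redK p (x i)) (fun i => redK p (y i)) := by
  obtain ⟨x', y', hx', hy', hxy⟩ := h
  haveI := p.isMaximal
  letI : Field (𝓞 K ⧸ p.asIdeal) := Ideal.Quotient.field _
  have h1 : Par (fun i => redK p (x i)) (fun i => redK p (x' i)) := (hx.par hx'.rp).map (redK p)
  have h2 : Par (fun i => redK p (y' i)) (fun i => redK p (y i)) := (hy'.rp.par hy).map (redK p)
  have h3 : (fun i => redK p (x' i)) = fun i => redK p (y' i) := by
    funext i
    exact Ideal.Quotient.eq.2 (hxy i)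
  rw [← h3] at h2
  apply h1.trans h2
  obtain ⟨k, hk⟩ := hx'.1
  intro h0
  exact hk (Ideal.Quotient.eq_zero_iff_mem.1 (congrFun h0 k))

/-- the converse for primitive representatives. -/
theorem cong_of_par {p : HeightOneSpectrum (𝓞 K)} {P Q : PN K N}
    {x y : Fin (N + 1) → 𝓞 K} (hx : Rp P x) (hy : Rp Q y) (hxp : ∃ i, x i ∉ p.asIdeal)
    (hyp : ∃ i, y i ∉ p.asIdeal) (h : Par (fun i => redK p (x i)) (fun i => redK p (y i))) :
    Cong p P Q := by
  haveI := p.isMaximal
  letI : Field (𝓞 K ⧸ p.asIdeal) := Ideal.Quotient.field _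
  have hx0 : (fun i => redK p (x i)) ≠ 0 := by
    obtain ⟨k, hk⟩ := hxp
    intro h0
    exact hk (Ideal.Quotient.eq_zero_iff_mem.1 (congrFun h0 k))
  have hy0 : (fun i => redK p (y i)) ≠ 0 := by
    obtain ⟨k, hk⟩ := hyp
    intro h0
    exact hk (Ideal.Quotient.eq_zero_iff_mem.1 (congrFun h0 k))
  obtain ⟨c, hc⟩ := h.exists_smul hy0
  obtain ⟨c', rfl⟩ := Ideal.Quotient.mk_surjective c
  have hc' : c' ∉ p.asIdeal := by
    intro h1
    apply hx0
    rw [hc, Ideal.Quotient.eq_zero_iff_mem.2 h1, zero_smul]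
  have hc'0 : c' ≠ 0 := by
    rintro rfl
    exact hc' (by simp)
  refine ⟨x, c' • y, ⟨hxp, hx⟩, ⟨?_, ?_⟩, ?_⟩
  · obtain ⟨k, hk⟩ := hyp
    refine ⟨k, ?_⟩
    intro h1
    rcases p.isPrime.mem_or_mem h1 with h2 | h2
    · exact hc' h2
    · exact hk h2
  · apply hy.of_par ((Par.refl y).smul_left c')
    intro h1
    rcases smul_eq_zero.1 h1 with h2 | h2
    · exact hc'0 h2
    · exact hy.ne_zero h2
  · intro i
    have h1 := congrFun hc i
    exact Ideal.Quotient.eq.1 h1

/-- residue field version of nonvanishing -/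
theorem nz_of_good {p : HeightOneSpectrum (𝓞 K)} {G : Fin (N + 1) → MvPolynomial (Fin (N + 1)) (𝓞 K)}
    (h : ∀ y : Fin (N + 1) → AlgebraicClosure p.asIdeal.ResidueField,
      (∀ i, MvPolynomial.aeval y (G i) = 0) → y = 0)
    (κ : Type u) [Field κ] (φ : 𝓞 K →+* κ) (hφ : RingHom.ker φ = p.asIdeal) : NZ φ G := by
  set k₀ := p.asIdeal.ResidueField with hk₀
  set G₀ : Fin (N + 1) → MvPolynomial (Fin (N + 1)) k₀ := fun i => MvPolynomial.map (algebraMap (𝓞 K) k₀) (G i) with hG₀
  have hNZ : NZ (algebraMap k₀ (AlgebraicClosure k₀)) G₀ := by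
    intro y hy h0
    apply hy
    apply h
    intro i
    have h1 := congrFun h0 i
    simp only [pev, hG₀, Pi.zero_apply] at h1
    rw [MvPolynomial.eval₂_map] at h1
    rw [MvPolynomial.aeval_def]
    exact h1
  obtain ⟨s, hs, hs'⟩ := good_ae.{u} (algebraMap k₀ (AlgebraicClosure k₀))
    (algebraMap k₀ (AlgebraicClosure k₀)).injective G₀ hNZ
  have hf₂ : p.asIdeal.primeCompl ≤ Submonoid.comap φ (IsUnit.submonoid κ) := by
    intro a ha
    rw [Submonoid.mem_comap, IsUnit.mem_submonoid_iff, isUnit_iff_ne_zero]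
    intro h1
    apply ha
    rw [SetLike.mem_coe, ← hφ]
    exact h1
  let f : k₀ →+* κ := Ideal.ResidueField.lift p.asIdeal φ hφ.ge hf₂
  have h1 := hs' κ f ((map_ne_zero f).2 hs)
  intro y hy h0
  apply h1 y hy
  rw [hG₀, pev_mapG]
  have h2 : f.comp (algebraMap (𝓞 K) k₀) = φ := by
    ext a
    exact Ideal.ResidueField.lift_algebraMap p.asIdeal φ hφ.ge hf₂ a
  rw [h2]
  exact h0

/-- almost all primes are primes of good reduction. -/
theorem bad_finite (Φ : Morph K N d) : {p : HeightOneSpectrum (𝓞 K) | ¬ GoodReduction Φ p}.Finite := by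
  obtain ⟨c, G, hG⟩ := exists_model Φ
  obtain ⟨s, hs, hs'⟩ := good_ae.{u} (algebraMap (𝓞 K) (AlgebraicClosure K))
    (FaithfulSMul.algebraMap_injective (𝓞 K) (AlgebraicClosure K)) G hG.nz
  apply (finite_bad' s hs).subset
  intro p hp
  by_contra hsp
  apply hp
  refine ⟨c, G, hG.1, hG.2, ?_⟩
  intro y hy
  by_contra hne
  have hker : algebraMap (𝓞 K) (AlgebraicClosure p.asIdeal.ResidueField) s ≠ 0 := by
    rw [IsScalarTower.algebraMap_apply (𝓞 K) p.asIdeal.ResidueField (AlgebraicClosure p.asIdeal.ResidueField)]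
    rw [Ne, map_eq_zero]
    intro h1
    apply hsp
    have h2 : s ∈ RingHom.ker (algebraMap (𝓞 K) p.asIdeal.ResidueField) := h1
    rw [Ideal.ker_algebraMap_residueField] at h2
    exact h2
  apply hs' _ _ hker y hne
  funext i
  exact hy i

end NFd

section Dens

variable {K : Type u} [Field K] [NumberField K]

theorem ncard_real (S : Set (HeightOneSpectrum (𝓞 K))) (x : ℝ) (hx : 0 ≤ x) :
    {P : HeightOneSpectrum (𝓞 K) | P ∈ S ∧ (Ideal.absNorm P.asIdeal : ℝ) ≤ x}.ncard = cnt S ⌊x⌋₊ := by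
  unfold cnt
  congr 1
  ext P
  simp only [Set.mem_ofPred_eq]
  rw [Nat.le_floor_iff hx]
  rfl

theorem ncard_real' (x : ℝ) (hx : 0 ≤ x) :
    {P : HeightOneSpectrum (𝓞 K) | (Ideal.absNorm P.asIdeal : ℝ) ≤ x}.ncard
      = cnt (Set.univ : Set (HeightOneSpectrum (𝓞 K))) ⌊x⌋₊ := by
  rw [← ncard_real Set.univ x hx]
  congr 1
  ext P
  simp

theorem BigSet.posDensity {S : Set (HeightOneSpectrum (𝓞 K))} (h : BigSet S) : PosDensity S := by
  obtain ⟨c, hc, N0, hN⟩ := h
  obtain ⟨C, hC, N1, hN1⟩ := card_primesLE_le K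
  unfold PosDensity
  have hpos : 0 < c / C := by positivity
  refine lt_of_lt_of_le hpos ?_
  apply Filter.le_liminf_of_le
  · -- bounded above by one
    refine Filter.IsBoundedUnder.isCoboundedUnder_ge ?_
    refine ⟨1, ?_⟩
    rw [Filter.eventually_map, Filter.eventually_atTop]
    refine ⟨0, ?_⟩
    intro x hx
    rw [ncard_real S x hx, ncard_real' x hx]
    apply div_le_one_of_le₀ _ (by positivity)
    exact_mod_cast cnt_mono (Set.subset_univ S) _
  · rw [Filter.eventually_atTop]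
    refine ⟨(max (max N0 N1) 2 : ℕ), ?_⟩
    intro x hx
    have hx0 : 0 ≤ x := le_trans (by positivity) hx
    rw [ncard_real S x hx0, ncard_real' x hx0, cnt_univ]
    set M := ⌊x⌋₊ with hM
    have hMge : max (max N0 N1) 2 ≤ M := Nat.le_floor hx
    have h0 := hN M (le_trans (le_trans (le_max_left _ _) (le_max_left _ _)) hMge)
    have h1 := hN1 M (le_trans (le_trans (le_max_right _ _) (le_max_left _ _)) hMge)
    have hM2 : 2 ≤ M := le_trans (le_max_right _ _) hMge
    have hlog : 0 < Real.log M := Real.log_pos (by exact_mod_cast (by omega : 1 < M))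
    have hMR : (0:ℝ) < M := by
      have : 0 < M := by omega
      exact_mod_cast this
    have hcnt : (0:ℝ) < cnt S M := by
      by_contra hcon
      push Not at hcon
      have : Real.log M * (cnt S M : ℝ) ≤ 0 := mul_nonpos_of_nonneg_of_nonpos hlog.le hcon
      have h3 : 0 < c * M := by positivity
      linarith
    have hle : (cnt S M : ℝ) ≤ (primesLE K M).card := by
      have := cnt_mono (Set.subset_univ S) M
      rw [cnt_univ] at this
      exact_mod_cast this
    have hden : (0:ℝ) < (primesLE K M).card := lt_of_lt_of_le hcnt hle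
    rw [div_le_div_iff₀ hC hden]
    -- c * card ≤ cnt * C
    have h3 : c * (Real.log M * ((primesLE K M).card : ℝ)) ≤ c * (C * M) := mul_le_mul_of_nonneg_left h1 hc.le
    have h4 : C * (c * M) ≤ C * (Real.log M * (cnt S M : ℝ)) := mul_le_mul_of_nonneg_left h0 hC.le
    have h5 : Real.log M * (c * ((primesLE K M).card : ℝ)) ≤ Real.log M * ((cnt S M : ℝ) * C) := by
      linarith
    exact le_of_mul_le_mul_left h5 hlog

theorem PosDensity.infinite {S : Set (HeightOneSpectrum (𝓞 K))} (h : PosDensity S) : S.Infinite := by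
  intro hfin
  unfold PosDensity at h
  have htend : Filter.Tendsto (fun x : ℝ =>
    (({𝔭 : HeightOneSpectrum (𝓞 K) | 𝔭 ∈ S ∧ (Ideal.absNorm 𝔭.asIdeal : ℝ) ≤ x}.ncard : ℕ) : ℝ) /
    (({𝔭 : HeightOneSpectrum (𝓞 K) | (Ideal.absNorm 𝔭.asIdeal : ℝ) ≤ x}.ncard : ℕ) : ℝ)) Filter.atTop (nhds 0) := by
    -- denominators tend to infinity
    have hden : Filter.Tendsto (fun x : ℝ => (cnt (Set.univ : Set (HeightOneSpectrum (𝓞 K))) ⌊x⌋₊ : ℝ)) Filter.atTop Filter.atTop := by
      rw [Filter.tendsto_atTop_atTop]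
      intro b
      obtain ⟨B, hB⟩ := exists_nat_ge b
      have hinf : (Set.univ : Set (HeightOneSpectrum (𝓞 K))).Infinite := (big_univ K).infinite
      obtain ⟨t, _, ht⟩ := hinf.exists_subset_card_eq B
      -- maximal norm
      obtain ⟨M, hM⟩ : ∃ M : ℕ, ∀ P ∈ t, nrm P ≤ M :=
        ⟨t.sup nrm, fun P hP => Finset.le_sup hP⟩
      refine ⟨M, ?_⟩
      intro x hx
      have h1 : M ≤ ⌊x⌋₊ := Nat.le_floor hx
      refine hB.trans ?_
      rw [← ht, cnt_univ]
      have : t ⊆ primesLE K ⌊x⌋₊ := by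
        intro P hP
        rw [mem_primesLE]
        exact (hM P hP).trans h1
      exact_mod_cast Finset.card_le_card this
    have hbound : Filter.Tendsto (fun x : ℝ => (S.ncard : ℝ) / (cnt (Set.univ : Set (HeightOneSpectrum (𝓞 K))) ⌊x⌋₊ : ℝ)) Filter.atTop (nhds 0) :=
      Filter.Tendsto.const_div_atTop hden _
    refine tendsto_of_tendsto_of_tendsto_of_le_of_le' tendsto_const_nhds hbound ?_ ?_
    · exact Filter.Eventually.of_forall fun x => by positivity
    · rw [Filter.eventually_atTop]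
      refine ⟨0, ?_⟩
      intro x hx
      rw [ncard_real' x hx]
      apply div_le_div_of_nonneg_right _ (by positivity)
      have : {𝔭 : HeightOneSpectrum (𝓞 K) | 𝔭 ∈ S ∧ (Ideal.absNorm 𝔭.asIdeal : ℝ) ≤ x}.ncard ≤ S.ncard :=
        Set.ncard_le_ncard (fun P hP => hP.1) hfin
      exact_mod_cast this
  rw [htend.liminf_eq] at h
  exact lt_irrefl _ h

end Dens

end Pool.Agent.Lib.MP_df4dfc_nt
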