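import Mathlib
import Pool.Agent.Lib.MP_df4dfc_nt.Glue

set_option autoImplicit false
set_option linter.unusedSectionVars false
set_option linter.style.haveILetI false
set_option linter.unusedVariables false

namespace Pool.Agent.Lib.MP_df4dfc_nt

open NumberField IsDedekindDomain

universe u

variable {K : Type u} [Field K] [NumberField K] {N d : ℕ}

/-- Preperiodic targets. -/
theorem posDensity_of_preperiodic (hd : 1 ≤ d) (Φ : Morph K N d) (γ₁ γ₂ : PN K N)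
    (H : ∀ m : ℕ, Φ.map^[m] γ₁ ≠ γ₂) (a b : ℕ) (hab : a < b) (h : Φ.map^[a] γ₂ = Φ.map^[b] γ₂) :
    PosDensity (avoidSet Φ γ₁ γ₂) := by
  obtain ⟨c, G, hG⟩ := exists_model Φ
  obtain ⟨g1, hg1⟩ := exists_Rp γ₁
  obtain ⟨g2, hg2⟩ := exists_Rp γ₂
  have hav : ∀ m, ¬ Par ((pevO G)^[m] g1) g2 := by
    intro m hp
    exact H m ((hG.rp_iter hg1 m).eq_of_par hg2 hp)
  have hsub : {p : HeightOneSpectrum (𝓞 K) | ∀ m,
      ¬ Par (fun i => redK p ((pevO G)^[m] g1 i)) (fun i => redK p (g2 i))} ⊆ avoidSet Φ γ₁ γ₂ := by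
    intro p hp m hc
    exact hp m (hc.par (hG.rp_iter hg1 m) hg2)
  by_cases hper : ∃ l, 1 ≤ l ∧ Φ.map^[l] γ₂ = γ₂
  · obtain ⟨l, hl, hl'⟩ := hper
    have hp : Par ((pevO G)^[l] g2) g2 := by
      have h1 := hG.rp_iter hg2 l
      rw [hl'] at h1
      exact h1.par hg2
    exact ((core_periodic G hd hG.homog hG.nz g1 g2 hg1.ne_zero hg2.ne_zero hav l hl hp).mono hsub).posDensity
  · push Not at hper
    have hnper : ∀ r, 1 ≤ r → ¬ Par ((pevO G)^[r] g2) g2 := by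
      intro r hr hp
      exact hper r hr ((hG.rp_iter hg2 r).eq_of_par hg2 hp)
    have hpre : Par ((pevO G)^[a + (b - a)] g2) ((pevO G)^[a] g2) := by
      have e : a + (b - a) = b := by omega
      rw [e]
      have h1 := hG.rp_iter hg2 b
      have h2 := hG.rp_iter hg2 a
      rw [h] at h2
      exact h1.par h2
    exact ((core_strict G hd hG.homog hG.nz g1 g2 hg1.ne_zero hg2.ne_zero hav hnper a (b - a) (by omega) hpre).mono
      hsub).posDensity

/-- The one-prime criterion. -/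
theorem posDensity_of_good (hd : 1 ≤ d) (Φ : Morph K N d) (γ₁ γ₂ : PN K N)
    (H : ∀ m : ℕ, Φ.map^[m] γ₁ ≠ γ₂) (𝔭 : HeightOneSpectrum (𝓞 K)) (hgood : GoodReduction Φ 𝔭)
    (hnp : ∀ m : ℕ, 1 ≤ m → ¬ Cong 𝔭 (Φ.map^[m] γ₂) γ₂) :
    PosDensity (avoidSet Φ γ₁ γ₂) := by
  obtain ⟨c, G, hc, hGc, hGood⟩ := hgood
  have hG : Model Φ c G := ⟨hc, hGc⟩
  obtain ⟨g1, hg1⟩ := exists_Rp γ₁
  obtain ⟨g2, hg2, k, hk⟩ := exists_Rp_prim 𝔭 γ₂
  have hav : ∀ m, ¬ Par ((pevO G)^[m] g1) g2 := by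
    intro m hp
    exact H m ((hG.rp_iter hg1 m).eq_of_par hg2 hp)
  have hsub : {p : HeightOneSpectrum (𝓞 K) | ∀ m, ∀ q ∈ ({g2} : Finset (Fin (N + 1) → 𝓞 K)),
      ¬ Par (fun i => redK p ((pevO G)^[m] g1 i)) (fun i => redK p (q i))} ⊆ avoidSet Φ γ₁ γ₂ := by
    intro p hp m hc
    exact hp m g2 (Finset.mem_singleton_self _) (hc.par (hG.rp_iter hg1 m) hg2)
  have hnz := nz_of_good hGood
  haveI := 𝔭.isMaximal
  letI : Field (𝓞 K ⧸ 𝔭.asIdeal) := Ideal.Quotient.field _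
  have hNZ0 : NZ (redK 𝔭) G := hnz _ (redK 𝔭) Ideal.mk_ker
  have hg2b : (fun i => redK 𝔭 (g2 i)) ≠ 0 := by
    intro h0
    exact hk (Ideal.Quotient.eq_zero_iff_mem.1 (congrFun h0 k))
  refine ((coreB G hd hG.homog hG.nz g1 hg1.ne_zero {g2} (by simpa using hg2.ne_zero) (by simpa using hav) 𝔭 hnz
    ?_ ?_).mono hsub).posDensity
  · intro q hq
    rw [Finset.mem_singleton] at hq
    subst hq
    exact ⟨k, hk⟩
  · intro q hq r hr hpar
    rw [Finset.mem_singleton] at hq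
    subst hq
    apply hnp r hr
    apply cong_of_par (hG.rp_iter hg2 r) hg2 _ ⟨k, hk⟩ hpar
    by_contra hcon
    push Not at hcon
    have h1 : (fun i => redK 𝔭 ((pevO G)^[r] q i)) = 0 := by
      funext i
      exact Ideal.Quotient.eq_zero_iff_mem.2 (hcon i)
    rw [pev_iter_map, RingHom.comp_id] at h1
    exact hNZ0.iter r hg2b h1

/-- membership in the avoiding set of the pair `(Φ(γ), γ)` -/
theorem mem_avoidSet_map (Φ : Morph K N d) (γ : PN K N) (𝔭 : HeightOneSpectrum (𝓞 K)) :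
    𝔭 ∈ avoidSet Φ (Φ.map γ) γ ↔ ∀ m : ℕ, 1 ≤ m → ¬ Cong 𝔭 (Φ.map^[m] γ) γ := by
  constructor
  · intro h m hm
    obtain ⟨m', rfl⟩ : ∃ m', m = m' + 1 := ⟨m - 1, by omega⟩
    rw [Function.iterate_succ_apply]
    exact h m'
  · intro h m
    have := h (m + 1) (by omega)
    rw [Function.iterate_succ_apply] at this
    exact this

/-- For a fixed map and a fixed non-periodic target the density statement for all starting points
is equivalent to the existence of a single prime of good reduction at which the target is not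
periodic, and to the infinitude for all starting points. -/
theorem criterion (hd : 1 ≤ d) (Φ : Morph K N d) (γ : PN K N) (hγ : ∀ m : ℕ, 1 ≤ m → Φ.map^[m] γ ≠ γ) :
    List.TFAE [
      ∀ γ₁ : PN K N, (∀ m : ℕ, Φ.map^[m] γ₁ ≠ γ) → PosDensity (avoidSet Φ γ₁ γ),
      ∀ γ₁ : PN K N, (∀ m : ℕ, Φ.map^[m] γ₁ ≠ γ) → (avoidSet Φ γ₁ γ).Infinite,
      (avoidSet Φ (Φ.map γ) γ).Infinite,
      ∃ 𝔭 : HeightOneSpectrum (𝓞 K), GoodReduction Φ 𝔭 ∧ ∀ m : ℕ, 1 ≤ m → ¬ Cong 𝔭 (Φ.map^[m] γ) γ] := by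
  tfae_have 1 → 2 := fun h γ₁ H => (h γ₁ H).infinite
  tfae_have 2 → 3 := by
    intro h
    apply h
    intro m
    have := hγ (m + 1) (by omega)
    rwa [Function.iterate_succ_apply] at this
  tfae_have 3 → 4 := by
    intro h
    obtain ⟨p, hp1, hp2⟩ := (h.sdiff (bad_finite Φ)).nonempty
    refine ⟨p, ?_, (mem_avoidSet_map Φ γ p).1 hp1⟩
    by_contra hbad
    exact hp2 hbad
  tfae_have 4 → 1 := by
    rintro ⟨p, hp1, hp2⟩ γ₁ H
    exact posDensity_of_good hd Φ γ₁ γ H p hp1 hp2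
  tfae_finish

end Pool.Agent.Lib.MP_df4dfc_nt
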