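import Mathlib
import Pool.Agent.Lib.MP_df4dfc_nt.Defs

/-!
# Galois action on the iterated preimages of a point

Definitions for the Galois-theoretic item of the criterion.
-/

set_option autoImplicit false

namespace Pool.Agent.Lib.MP_df4dfc_nt

open NumberField IsDedekindDomain

universe u

variable {K : Type u} [Field K] {N d : ℕ}

/-- The self-map of the space of vectors over the algebraic closure given by the forms of `Φ`. -/
noncomputable def Morph.bar (Φ : Morph K N d) (y : Fin (N + 1) → AlgebraicClosure K) :
    Fin (N + 1) → AlgebraicClosure K :=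
  fun i => MvPolynomial.aeval y (Φ.F i)

/-- `y` is a system of homogeneous coordinates (over the algebraic closure of `K`) of a point
that `Φ^n` maps to `γ`. -/
def InFibre (Φ : Morph K N d) (n : ℕ) (γ : PN K N) (y : Fin (N + 1) → AlgebraicClosure K) : Prop :=
  y ≠ 0 ∧ ∃ c : AlgebraicClosure K, ∀ i, Φ.bar^[n] y i = c * algebraMap K (AlgebraicClosure K) (γ.rep i)

/-- The automorphism `σ` of the algebraic closure over `K` fixes the point with homogeneous
coordinates `y`. -/
def FixesPoint (σ : Gal(AlgebraicClosure K/K)) (y : Fin (N + 1) → AlgebraicClosure K) : Prop :=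
  ∃ c : AlgebraicClosure K, ∀ i, σ (y i) = c * y i

end Pool.Agent.Lib.MP_df4dfc_nt
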