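import Mathlib
import Pool.Agent.Lib.MP_df4dfc_nt.DefsGal
import Pool.Agent.Lib.MP_df4dfc_nt.Criterion

set_option autoImplicit false
set_option linter.unusedSectionVars false
set_option linter.style.haveILetI false
set_option linter.unusedVariables false

namespace Pool.Agent.Lib.MP_df4dfc_nt

open NumberField IsDedekindDomain
open scoped Pointwise

universe u

variable {K : Type u} [Field K] [NumberField K] {N d : ℕ}

theorem Model.bar {Φ : Morph K N d} {c : K} {G : Fin (N + 1) → MvPolynomial (Fin (N + 1)) (𝓞 K)}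
    (h : Model Φ c G) (y : Fin (N + 1) → AlgebraicClosure K) :
    pev (algebraMap (𝓞 K) (AlgebraicClosure K)) G y = (algebraMap K (AlgebraicClosure K) c) • Φ.bar y := by
  funext i
  have h2 : MvPolynomial.aeval y (MvPolynomial.map (algebraMap (𝓞 K) K) (G i))
      = MvPolynomial.eval₂ (algebraMap (𝓞 K) (AlgebraicClosure K)) y (G i) := by
    rw [MvPolynomial.aeval_def, MvPolynomial.eval₂_map]
    rfl
  rw [h.2 i, map_mul, MvPolynomial.aeval_C] at h2
  exact h2.symm

theorem bar_smul (Φ : Morph K N d) (c : AlgebraicClosure K) (y : Fin (N + 1) → AlgebraicClosure K) :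
    Φ.bar (c • y) = c ^ d • Φ.bar y :=
  pev_smul Φ.homog (algebraMap K (AlgebraicClosure K)) c y

theorem bar_iter_smul (Φ : Morph K N d) (n : ℕ) (c : AlgebraicClosure K) (y : Fin (N + 1) → AlgebraicClosure K) :
    Φ.bar^[n] (c • y) = c ^ (d ^ n) • Φ.bar^[n] y :=
  pev_iter_smul Φ.homog (algebraMap K (AlgebraicClosure K)) n c y

theorem Model.bar_iter {Φ : Morph K N d} {c : K} {G : Fin (N + 1) → MvPolynomial (Fin (N + 1)) (𝓞 K)}
    (h : Model Φ c G) (n : ℕ) (y : Fin (N + 1) → AlgebraicClosure K) :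
    ∃ e : AlgebraicClosure K, e ≠ 0 ∧
      (pev (algebraMap (𝓞 K) (AlgebraicClosure K)) G)^[n] y = e • Φ.bar^[n] y := by
  induction n with
  | zero => exact ⟨1, one_ne_zero, by simp⟩
  | succ n ih =>
    obtain ⟨e, he, hn⟩ := ih
    refine ⟨algebraMap K (AlgebraicClosure K) c * e ^ d, ?_, ?_⟩
    · exact mul_ne_zero ((map_ne_zero _).2 h.1) (pow_ne_zero _ he)
    · rw [Function.iterate_succ_apply', Function.iterate_succ_apply', hn, h.bar, bar_smul, smul_smul]

theorem inFibre_iff {Φ : Morph K N d} {c : K} {G : Fin (N + 1) → MvPolynomial (Fin (N + 1)) (𝓞 K)}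
    (h : Model Φ c G) (n : ℕ) {γ : PN K N} {g : Fin (N + 1) → 𝓞 K} (hg : Rp γ g)
    (y : Fin (N + 1) → AlgebraicClosure K) :
    InFibre Φ n γ y ↔ y ≠ 0 ∧ Par ((pev (algebraMap (𝓞 K) (AlgebraicClosure K)) G)^[n] y)
      (fun i => algebraMap (𝓞 K) (AlgebraicClosure K) (g i)) := by
  obtain ⟨e, he, hn⟩ := h.bar_iter n y
  have hrep : Par (fun i => (g i : K)) γ.rep := by
    obtain ⟨h0, h1⟩ := hg
    rw [← mk_eq_iff_par _ _ h0 γ.rep_nonzero, h1, Projectivization.mk_rep]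
  have hrepΩ : Par (fun i => algebraMap (𝓞 K) (AlgebraicClosure K) (g i))
      (fun i => algebraMap K (AlgebraicClosure K) (γ.rep i)) := hrep.map (algebraMap K (AlgebraicClosure K))
  have hne : (fun i => algebraMap K (AlgebraicClosure K) (γ.rep i)) ≠ 0 := by
    intro h0
    apply γ.rep_nonzero
    funext i
    exact (map_eq_zero _).1 (congrFun h0 i)
  have hneg : (fun i => algebraMap (𝓞 K) (AlgebraicClosure K) (g i)) ≠ 0 := by
    intro h0
    apply hg.ne_zero
    funext i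
    apply FaithfulSMul.algebraMap_injective (𝓞 K) (AlgebraicClosure K)
    rw [Pi.zero_apply, map_zero]
    exact congrFun h0 i
  unfold InFibre
  constructor
  · rintro ⟨hy, c', hc'⟩
    refine ⟨hy, ?_⟩
    rw [hn]
    apply Par.smul_left
    have h1 : Par (Φ.bar^[n] y) (fun i => algebraMap K (AlgebraicClosure K) (γ.rep i)) :=
      Par.of_eq_smul (c := c') (by funext i; exact hc' i)
    exact h1.trans hrepΩ.symm hne
  · rintro ⟨hy, hpar⟩
    refine ⟨hy, ?_⟩
    rw [hn] at hpar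
    have h1 : Par (Φ.bar^[n] y) (e • Φ.bar^[n] y) := ((Par.refl _).smul_left e).symm
    have hne2 : e • Φ.bar^[n] y ≠ 0 := by
      rw [← hn]
      exact h.nz.iter n hy
    have h2 := (h1.trans hpar hne2).trans hrepΩ hneg
    obtain ⟨c', hc'⟩ := h2.exists_smul hne
    exact ⟨c', fun i => congrFun hc' i⟩

theorem fixesPoint_iff (σ : Gal(AlgebraicClosure K/K)) (y : Fin (N + 1) → AlgebraicClosure K) (hy : y ≠ 0) :
    FixesPoint σ y ↔ Par (fun i => σ (y i)) y := by
  constructor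
  · rintro ⟨c, hc⟩
    exact Par.of_eq_smul (c := c) (by funext i; exact hc i)
  · intro h
    obtain ⟨c, hc⟩ := h.exists_smul hy
    exact ⟨c, fun i => congrFun hc i⟩

/-- compatibility of the action on `𝓞 L` with the one on the algebraic closure -/
theorem restrict_compat (L : IntermediateField K (AlgebraicClosure K)) [NumberField L] [IsGalois K L]
    (σ : Gal(AlgebraicClosure K/K)) (x : 𝓞 L) :
    algebraMap (𝓞 L) (AlgebraicClosure K) ((AlgEquiv.restrictNormalHom L σ) • x)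
      = σ (algebraMap (𝓞 L) (AlgebraicClosure K) x) := by
  have h := AlgEquiv.restrictNormal_commutes σ L (x : L)
  exact h

/-- a fixed-point-free element gives positive density -/
theorem posDensity_of_nofix (hd : 1 ≤ d) (Φ : Morph K N d) (γ₁ γ₂ : PN K N)
    (H : ∀ m : ℕ, Φ.map^[m] γ₁ ≠ γ₂) (n : ℕ) (σ : Gal(AlgebraicClosure K/K))
    (hσ : ∀ y, InFibre Φ n γ₂ y → ¬ FixesPoint σ y) :
    PosDensity (avoidSet Φ γ₁ γ₂) := by
  classical
  obtain ⟨c, G, hG⟩ := exists_model Φ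
  obtain ⟨g1, hg1⟩ := exists_Rp γ₁
  obtain ⟨g2, hg2⟩ := exists_Rp γ₂
  have hav : ∀ m, ∀ q ∈ ({g2} : Finset (Fin (N + 1) → 𝓞 K)), ¬ Par ((pevO G)^[m] g1) q := by
    intro m q hq hp
    rw [Finset.mem_singleton] at hq
    subst hq
    exact H m ((hG.rp_iter hg1 m).eq_of_par hg2 hp)
  have hsub : {p : HeightOneSpectrum (𝓞 K) | ∀ m, ∀ q ∈ ({g2} : Finset (Fin (N + 1) → 𝓞 K)),
      ¬ Par (fun i => redK p ((pevO G)^[m] g1 i)) (fun i => redK p (q i))} ⊆ avoidSet Φ γ₁ γ₂ := by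
    intro p hp m hc
    exact hp m g2 (Finset.mem_singleton_self _) (hc.par (hG.rp_iter hg1 m) hg2)
  obtain ⟨L, hNF, hGal, X₀, hX1, hX2⟩ := exists_reps G hd hG.homog hG.nz {g2} (by simpa using hg2.ne_zero) n
  set jL := algebraMap (𝓞 L) (AlgebraicClosure K) with hjL
  set iL := algebraMap (𝓞 K) (𝓞 L) with hiL
  have hcomp : jL.comp iL = algebraMap (𝓞 K) (AlgebraicClosure K) := by
    ext r
    rfl
  have hjLinj : Function.Injective jL := FaithfulSMul.algebraMap_injective (𝓞 L) (AlgebraicClosure K)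
  refine ((coreB_of_nofix G hG.nz g1 hg1.ne_zero {g2} hav n L X₀ hX2 (AlgEquiv.restrictNormalHom L σ) ?_).mono
    hsub).posDensity
  intro x hx hpar
  obtain ⟨hx0, q, hq, hxq⟩ := hX1 x hx
  rw [Finset.mem_singleton] at hq
  subst hq
  have hy0 : (fun i => jL (x i)) ≠ 0 := by
    intro h0
    apply hx0
    funext i
    apply hjLinj
    rw [Pi.zero_apply, map_zero]
    exact congrFun h0 i
  apply hσ (fun i => jL (x i))
  · rw [inFibre_iff hG n hg2]
    refine ⟨hy0, ?_⟩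
    have h1 := hxq.map jL
    rw [pev_iter_map, hcomp] at h1
    exact h1
  · rw [fixesPoint_iff σ _ hy0]
    have h1 := hpar.map jL
    have h2 : (fun i => jL ((AlgEquiv.restrictNormalHom L σ) • x i)) = fun i => σ (jL (x i)) := by
      funext i
      exact restrict_compat L σ (x i)
    rw [h2] at h1
    exact h1

/-- a good prime at which the target is not periodic gives a fixed-point-free element -/
theorem nofix_of_good (hd : 1 ≤ d) (Φ : Morph K N d) (γ : PN K N)
    (𝔭 : HeightOneSpectrum (𝓞 K)) (hgood : GoodReduction Φ 𝔭)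
    (hnp : ∀ m : ℕ, 1 ≤ m → ¬ Cong 𝔭 (Φ.map^[m] γ) γ) :
    ∃ (n : ℕ) (σ : Gal(AlgebraicClosure K/K)), ∀ y, InFibre Φ n γ y → ¬ FixesPoint σ y := by
  classical
  obtain ⟨c, G, hc, hGc, hGood⟩ := hgood
  have hG : Model Φ c G := ⟨hc, hGc⟩
  obtain ⟨g2, hg2, k, hk⟩ := exists_Rp_prim 𝔭 γ
  have hnz := nz_of_good hGood
  haveI := 𝔭.isMaximal
  letI : Field (𝓞 K ⧸ 𝔭.asIdeal) := Ideal.Quotient.field _
  have hNZ0 : NZ (redK 𝔭) G := hnz _ (redK 𝔭) Ideal.mk_ker
  have hg2b : (fun i => redK 𝔭 (g2 i)) ≠ 0 := by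
    intro h0
    exact hk (Ideal.Quotient.eq_zero_iff_mem.1 (congrFun h0 k))
  obtain ⟨n, L, hNF, hGal, X₀, hX1, hX2, σL, hσL⟩ := exists_nofix G hd hG.homog hG.nz {g2}
    (by simpa using hg2.ne_zero) 𝔭 hnz (by
      intro q hq
      rw [Finset.mem_singleton] at hq
      subst hq
      exact ⟨k, hk⟩) (by
      intro q hq r hr hpar
      rw [Finset.mem_singleton] at hq
      subst hq
      apply hnp r hr
      apply cong_of_par (hG.rp_iter hg2 r) hg2 _ ⟨k, hk⟩ hpar
      by_contra hcon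
      push Not at hcon
      have h1 : (fun i => redK 𝔭 ((pevO G)^[r] q i)) = 0 := by
        funext i
        exact Ideal.Quotient.eq_zero_iff_mem.2 (hcon i)
      rw [pev_iter_map, RingHom.comp_id] at h1
      exact hNZ0.iter r hg2b h1)
  obtain ⟨σ, rfl⟩ := AlgEquiv.restrictNormalHom_surjective (E := AlgebraicClosure K) (F := K) (K₁ := L) σL
  refine ⟨n, σ, ?_⟩
  intro y hy hfix
  rw [inFibre_iff hG n hg2] at hy
  obtain ⟨hy0, hypar⟩ := hy
  rw [fixesPoint_iff σ y hy0] at hfix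
  obtain ⟨x, hx, hxy⟩ := hX2 g2 (Finset.mem_singleton_self _) y hy0 hypar
  apply hσL x hx
  set jL := algebraMap (𝓞 L) (AlgebraicClosure K) with hjL
  have hjLinj : Function.Injective jL := FaithfulSMul.algebraMap_injective (𝓞 L) (AlgebraicClosure K)
  apply Par.of_map jL hjLinj
  have h2 : (fun i => jL ((AlgEquiv.restrictNormalHom L σ) • x i)) = fun i => σ (jL (x i)) := by
    funext i
    exact restrict_compat L σ (x i)
  rw [h2]
  have h3 : Par (fun i => σ (y i)) (fun i => σ (jL (x i))) := hxy.map (σ : AlgebraicClosure K →+* AlgebraicClosure K)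
  have h4 : (fun i => σ (y i)) ≠ 0 := by
    intro h0
    apply hy0
    funext i
    have := congrFun h0 i
    exact (map_eq_zero σ).1 this
  exact (h3.symm.trans hfix h4).trans hxy hy0

/-- The criterion for a fixed map and a fixed non-periodic target. -/
theorem criterion' (hd : 1 ≤ d) (Φ : Morph K N d) (γ : PN K N) (hγ : ∀ m : ℕ, 1 ≤ m → Φ.map^[m] γ ≠ γ) :
    List.TFAE [
      ∀ γ₁ : PN K N, (∀ m : ℕ, Φ.map^[m] γ₁ ≠ γ) → PosDensity (avoidSet Φ γ₁ γ),
      ∀ γ₁ : PN K N, (∀ m : ℕ, Φ.map^[m] γ₁ ≠ γ) → (avoidSet Φ γ₁ γ).Infinite,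
      (avoidSet Φ (Φ.map γ) γ).Infinite,
      ∃ 𝔭 : HeightOneSpectrum (𝓞 K), GoodReduction Φ 𝔭 ∧ ∀ m : ℕ, 1 ≤ m → ¬ Cong 𝔭 (Φ.map^[m] γ) γ,
      ∃ (n : ℕ) (σ : Gal(AlgebraicClosure K/K)), ∀ y, InFibre Φ n γ y → ¬ FixesPoint σ y] := by
  tfae_have 1 → 2 := fun h γ₁ H => (h γ₁ H).infinite
  tfae_have 2 → 3 := by
    intro h
    apply h
    intro m
    have := hγ (m + 1) (by omega)
    rwa [Function.iterate_succ_apply] at this
  tfae_have 3 → 4 := by
    intro h
    obtain ⟨p, hp1, hp2⟩ := (h.sdiff (bad_finite Φ)).nonempty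
    refine ⟨p, ?_, (mem_avoidSet_map Φ γ p).1 hp1⟩
    by_contra hbad
    exact hp2 hbad
  tfae_have 4 → 5 := by
    rintro ⟨p, hp1, hp2⟩
    exact nofix_of_good hd Φ γ p hp1 hp2
  tfae_have 5 → 1 := by
    rintro ⟨n, σ, hσ⟩ γ₁ H
    exact posDensity_of_nofix hd Φ γ₁ γ H n σ hσ
  tfae_finish

end Pool.Agent.Lib.MP_df4dfc_nt
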