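import Mathlib
import Pool.Agent.Lib.MP_df4dfc_nt.Periodic

set_option autoImplicit false
set_option linter.unusedSectionVars false
set_option linter.style.haveILetI false
set_option linter.unusedVariables false

namespace Pool.Agent.Lib.MP_df4dfc_nt

open MvPolynomial NumberField IsDedekindDomain
open scoped Pointwise

universe u

section Ring

variable {ι : Type*} {R A : Type*} [CommRing R] [CommRing A]

/-- vectors with a unit coordinate -/
def UnitVec (u : ι → A) : Prop := ∃ k, IsUnit (u k)

theorem Par.trans_unit {u v w : ι → A} (h1 : Par u v) (h2 : Par v w) (hv : UnitVec v) : Par u w := by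
  obtain ⟨k, hk⟩ := hv
  intro i j
  apply hk.mul_left_cancel
  calc v k * (u i * w j) = (u i * v k) * w j := by ring
    _ = (u k * v i) * w j := by rw [h1 i k]
    _ = u k * (v i * w j) := by ring
    _ = u k * (v j * w i) := by rw [h2 i j]
    _ = (u k * v j) * w i := by ring
    _ = (u j * v k) * w i := by rw [h1 j k]
    _ = v k * (u j * w i) := by ring

theorem Par.exists_smul_unit {u v : ι → A} (h : Par u v) (hv : UnitVec v) : ∃ c : A, u = c • v := by
  obtain ⟨k, hk⟩ := hv
  obtain ⟨b, hb⟩ := hk.exists_right_inv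
  refine ⟨u k * b, ?_⟩
  funext i
  simp only [Pi.smul_apply, smul_eq_mul]
  have h1 := h i k
  calc u i = u i * (v k * b) := by rw [hb, mul_one]
    _ = (u i * v k) * b := by ring
    _ = (u k * v i) * b := by rw [h1]
    _ = u k * b * v i := by ring

theorem pev_par_unit {G : ι → MvPolynomial ι R} {d : ℕ} (hG : ∀ i, (G i).IsHomogeneous d)
    (φ : R →+* A) {u v : ι → A} (h : Par u v) (hv : UnitVec v) : Par (pev φ G u) (pev φ G v) := by
  obtain ⟨c, rfl⟩ := h.exists_smul_unit hv
  rw [pev_smul hG]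
  exact (Par.refl _).smul_left _

/-- On a finite set of projective classes, not injective implies not surjective. -/
theorem not_surj_of_not_inj [Finite A] [Finite ι] (φ : R →+* A) {G : ι → MvPolynomial ι R} {d : ℕ}
    (hG : ∀ i, (G i).IsHomogeneous d) (hpres : ∀ u : ι → A, UnitVec u → UnitVec (pev φ G u))
    (u u' : ι → A) (hu : UnitVec u) (hu' : UnitVec u') (hne : ¬ Par u u')
    (heq : Par (pev φ G u) (pev φ G u')) :
    ∃ z : ι → A, UnitVec z ∧ ∀ w : ι → A, UnitVec w → ¬ Par (pev φ G w) z := by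
  let S : Setoid {w : ι → A // UnitVec w} :=
    { r := fun a b => Par a.1 b.1
      iseqv := ⟨fun a => Par.refl _, fun h => h.symm, fun {a b c} h1 h2 => h1.trans_unit h2 b.2⟩ }
  let f : Quotient S → Quotient S := Quotient.map
    (fun a : {w : ι → A // UnitVec w} => (⟨pev φ G a.1, hpres a.1 a.2⟩ : {w : ι → A // UnitVec w}))
    (fun a b h => pev_par_unit hG φ h b.2)
  have hfm : ∀ a : {w : ι → A // UnitVec w}, f (Quotient.mk S a) = Quotient.mk S ⟨pev φ G a.1, hpres a.1 a.2⟩ :=
    fun a => rfl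
  have hinj : ¬ Function.Injective f := by
    intro h
    apply hne
    have h1 : f (Quotient.mk S ⟨u, hu⟩) = f (Quotient.mk S ⟨u', hu'⟩) := by
      rw [hfm, hfm]
      exact Quotient.sound heq
    exact Quotient.exact (h h1)
  have hsurj : ¬ Function.Surjective f := fun h => hinj (Finite.injective_iff_surjective.2 h)
  unfold Function.Surjective at hsurj
  push Not at hsurj
  obtain ⟨q, hq⟩ := hsurj
  obtain ⟨z, rfl⟩ := Quotient.exists_rep q
  refine ⟨z.1, z.2, ?_⟩
  intro w hw hpar
  apply hq (Quotient.mk S ⟨w, hw⟩)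
  rw [hfm]
  exact Quotient.sound hpar

/-- first order Taylor expansion at a square zero element -/
theorem taylor [Fintype ι] (φ : R →+* A) (x v : ι → A) (t : A) (ht : t * t = 0) (p : MvPolynomial ι R) :
    eval₂ φ (x + t • v) p = eval₂ φ x p + t * ∑ j, v j * eval₂ φ x (pderiv j p) := by
  classical
  induction p using MvPolynomial.induction_on with
  | C a => simp
  | add p q hp hq =>
    simp only [eval₂_add, map_add, hp, hq, mul_add, Finset.sum_add_distrib]
    ring
  | mul_X p i hp =>
    have h1 : ∑ j, v j * eval₂ φ x (pderiv j (p * X i))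
        = (∑ j, v j * eval₂ φ x (pderiv j p)) * x i + eval₂ φ x p * v i := by
      have h2 : ∀ j ∈ Finset.univ, v j * eval₂ φ x (pderiv j (p * X i))
          = v j * eval₂ φ x (pderiv j p) * x i + (if j = i then v j * eval₂ φ x p else 0) := by
        intro j _
        rw [pderiv_mul, eval₂_add, eval₂_mul, eval₂_mul, eval₂_X]
        by_cases hji : j = i
        · subst hji
          rw [pderiv_X_self, eval₂_one, if_pos rfl]
          ring
        · rw [pderiv_X_of_ne (Ne.symm hji), eval₂_zero, if_neg hji]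
          ring
      rw [Finset.sum_congr rfl h2, Finset.sum_add_distrib, ← Finset.sum_mul, Finset.sum_ite_eq' Finset.univ i]
      simp only [Finset.mem_univ, if_true]
      ring
    rw [eval₂_mul, eval₂_mul, eval₂_X, eval₂_X, hp, h1]
    simp only [Pi.add_apply, Pi.smul_apply, smul_eq_mul]
    have : (t * ∑ j, v j * eval₂ φ x (pderiv j p)) * (t * v i) = 0 := by
      calc _ = (t * t) * ((∑ j, v j * eval₂ φ x (pderiv j p)) * v i) := by ring
        _ = 0 := by rw [ht, zero_mul]
    linear_combination this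

end Ring

section Crit

variable {ι : Type*} [Fintype ι] [DecidableEq ι] {R Ω : Type*} [CommRing R] [Field Ω] [IsAlgClosed Ω] [CharZero Ω]

/-- Existence of a critical point: a nonzero vector `y` and a nonzero `w` killed by the derivative. -/
theorem exists_critical (φ : R →+* Ω) (G : ι → MvPolynomial ι R) {d : ℕ} (hd : 2 ≤ d)
    (hG : ∀ i, (G i).IsHomogeneous d) (a b : ι) (hab : a ≠ b) :
    ∃ y w : ι → Ω, y ≠ 0 ∧ w ≠ 0 ∧ ∀ i, ∑ j, w j * eval₂ φ y (pderiv j (G i)) = 0 := by
  -- the Jacobian matrix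
  let M : (ι → Ω) → Matrix ι ι Ω := fun y => Matrix.of fun i j => eval₂ φ y (pderiv j (G i))
  suffices h : ∃ y : ι → Ω, y ≠ 0 ∧ (M y).det = 0 by
    obtain ⟨y, hy, hdet⟩ := h
    obtain ⟨w, hw, hMw⟩ := Matrix.exists_mulVec_eq_zero_iff.2 hdet
    refine ⟨y, w, hy, hw, ?_⟩
    intro i
    have h1 := congrFun hMw i
    rw [Matrix.mulVec, dotProduct] at h1
    rw [← h1.trans (Pi.zero_apply i)]
    apply Finset.sum_congr rfl
    intro j _
    simp only [M, Matrix.of_apply]
    ring
  have hMsmul : ∀ (c : Ω) (y : ι → Ω), (M (c • y)).det = c ^ ((d - 1) * Fintype.card ι) * (M y).det := by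
    intro c y
    have h1 : M (c • y) = c ^ (d - 1) • M y := by
      ext i j
      simp only [M, Matrix.of_apply, Matrix.smul_apply, smul_eq_mul]
      exact eval₂_smul_of_homog (hG i).pderiv φ c y
    rw [h1, Matrix.det_smul, ← pow_mul]
  -- polynomial families
  let MP : (ι → Polynomial Ω) → Matrix ι ι (Polynomial Ω) := fun Y => Matrix.of fun i j =>
    eval₂ (Polynomial.C.comp φ) Y (pderiv j (G i))
  have hMP : ∀ (Y : ι → Polynomial Ω) (t : Ω), Polynomial.eval t (MP Y).det = (M fun i => Polynomial.eval t (Y i)).det := by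
    intro Y t
    rw [← Polynomial.coe_evalRingHom, RingHom.map_det]
    congr 1
    ext i j
    simp only [MP, M, RingHom.mapMatrix_apply, Matrix.map_apply, Matrix.of_apply]
    rw [eval₂_comp_left]
    congr 1
    ext r
    simp
  let Y₁ : ι → Polynomial Ω := fun i => Polynomial.C (if i = a then 1 else 0) + Polynomial.X * Polynomial.C (if i = b then 1 else 0)
  let Y₂ : ι → Polynomial Ω := fun i => Polynomial.X * Polynomial.C (if i = a then 1 else 0) + Polynomial.C (if i = b then 1 else 0)
  have hY₁ : ∀ t : Ω, (fun i => Polynomial.eval t (Y₁ i)) = fun i => (if i = a then 1 else 0) + t * (if i = b then 1 else 0) := by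
    intro t; funext i; simp only [Y₁, Polynomial.eval_add, Polynomial.eval_mul, Polynomial.eval_C, Polynomial.eval_X]
  have hY₂ : ∀ t : Ω, (fun i => Polynomial.eval t (Y₂ i)) = fun i => t * (if i = a then 1 else 0) + (if i = b then 1 else 0) := by
    intro t; funext i; simp only [Y₂, Polynomial.eval_add, Polynomial.eval_mul, Polynomial.eval_C, Polynomial.eval_X]
  by_contra hcon
  push Not at hcon
  -- no roots
  have hr₁ : ∀ t, Polynomial.eval t (MP Y₁).det ≠ 0 := by
    intro t
    rw [hMP, hY₁]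
    apply hcon
    intro h0
    have := congrFun h0 a
    simp [hab] at this
  have hr₂ : ∀ t, Polynomial.eval t (MP Y₂).det ≠ 0 := by
    intro t
    rw [hMP, hY₂]
    apply hcon
    intro h0
    have := congrFun h0 b
    simp [hab.symm] at this
  have hc₁ : ∃ c, (MP Y₁).det = Polynomial.C c := by
    have hdeg : (MP Y₁).det.degree = 0 := by
      by_contra hne
      obtain ⟨t, ht⟩ := IsAlgClosed.exists_root (MP Y₁).det hne
      exact hr₁ t ht
    exact ⟨_, Polynomial.eq_C_of_degree_eq_zero hdeg⟩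
  have hc₂ : ∃ c, (MP Y₂).det = Polynomial.C c := by
    have hdeg : (MP Y₂).det.degree = 0 := by
      by_contra hne
      obtain ⟨t, ht⟩ := IsAlgClosed.exists_root (MP Y₂).det hne
      exact hr₂ t ht
    exact ⟨_, Polynomial.eq_C_of_degree_eq_zero hdeg⟩
  obtain ⟨c₁, hc₁⟩ := hc₁
  obtain ⟨c₂, hc₂⟩ := hc₂
  have hrel : ∀ s : Ω, s ≠ 0 → c₂ = s ^ ((d - 1) * Fintype.card ι) * c₁ := by
    intro s hs
    have h1 : Polynomial.eval s (MP Y₂).det = c₂ := by rw [hc₂, Polynomial.eval_C]
    have h2 : Polynomial.eval (s⁻¹) (MP Y₁).det = c₁ := by rw [hc₁, Polynomial.eval_C]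
    rw [← h1, ← h2, hMP, hMP, hY₁, hY₂, ← hMsmul]
    congr 2
    funext i
    simp only [Pi.smul_apply, smul_eq_mul]
    field_simp
  have hc₁0 : c₁ ≠ 0 := by
    intro h0
    apply hr₁ 0
    rw [hc₁, h0]; simp
  have h1 := hrel 1 one_ne_zero
  have h2 := hrel 2 two_ne_zero
  rw [one_pow, one_mul] at h1
  rw [h1] at h2
  have h3 : (2:Ω) ^ ((d - 1) * Fintype.card ι) = 1 := by
    apply mul_right_cancel₀ hc₁0
    rw [one_mul]; exact h2.symm
  have h4 : ((2 ^ ((d - 1) * Fintype.card ι) : ℕ) : Ω) = ((1 : ℕ) : Ω) := by push_cast; exact h3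
  have h5 : 2 ^ ((d - 1) * Fintype.card ι) = 1 := by exact_mod_cast h4
  have h6 : 0 < (d - 1) * Fintype.card ι := by
    apply Nat.mul_pos (by omega)
    exact Fintype.card_pos_iff.2 ⟨a⟩
  have h7 := Nat.one_lt_two_pow h6.ne'
  omega

/-- the critical direction is not radial -/
theorem critical_not_par (φ : R →+* Ω) (G : ι → MvPolynomial ι R) {d : ℕ} (hd : 1 ≤ d)
    (hG : ∀ i, (G i).IsHomogeneous d) (hNZ : NZ φ G) (y w : ι → Ω) (hy : y ≠ 0) (hw : w ≠ 0)
    (h : ∀ i, ∑ j, w j * eval₂ φ y (pderiv j (G i)) = 0) : ¬ Par y w := by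
  intro hpar
  obtain ⟨c, hc⟩ := hpar.symm.exists_smul hy
  have hc0 : c ≠ 0 := by
    rintro rfl
    apply hw
    rw [hc, zero_smul]
  apply hNZ y hy
  funext i
  have h1 := (hG i).sum_X_mul_pderiv
  have h2 := congrArg (eval₂ φ y) h1
  rw [← coe_eval₂Hom, map_sum] at h2
  simp only [map_mul, coe_eval₂Hom, eval₂_X, nsmul_eq_mul, eval₂_mul] at h2
  have h3 : eval₂ φ y ((d : MvPolynomial ι R)) = (d : Ω) := by
    rw [← coe_eval₂Hom, map_natCast]
  rw [h3] at h2
  have h4 := h i
  rw [hc] at h4
  have h5 : ∑ j, (c • y) j * eval₂ φ y (pderiv j (G i)) = c * ∑ j, y j * eval₂ φ y (pderiv j (G i)) := by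
    rw [Finset.mul_sum]
    apply Finset.sum_congr rfl
    intro j _
    simp only [Pi.smul_apply, smul_eq_mul]
    ring
  rw [h5, h2] at h4
  have hd0 : (d : Ω) ≠ 0 := by
    have : d ≠ 0 := by omega
    exact_mod_cast this
  rcases mul_eq_zero.1 h4 with h6 | h6
  · exact absurd h6 hc0
  · rcases mul_eq_zero.1 h6 with h7 | h7
    · exact absurd h7 hd0
    · exact h7

end Crit

end Pool.Agent.Lib.MP_df4dfc_nt
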