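import Mathlib
import Pool.Agent.Lib.MP_df4dfc_nt.Residue

set_option autoImplicit false
set_option linter.unusedSectionVars false
set_option linter.style.haveILetI false
set_option linter.unusedVariables false

namespace Pool.Agent.Lib.MP_df4dfc_nt

open MvPolynomial NumberField IsDedekindDomain Module
open scoped Pointwise

universe u

section Split

/-- at a completely split prime the residue fields agree -/
theorem split_approx (E L : Type*) [Field E] [NumberField E] [Field L] [NumberField L] [Algebra E L] [IsGalois E L]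
    (Q : HeightOneSpectrum (𝓞 E)) (hQ : npr E L Q = finrank E L) (P : HeightOneSpectrum (𝓞 L))
    (hP : bel E L P = Q) (a : 𝓞 L) : ∃ b : 𝓞 E, a - algebraMap (𝓞 E) (𝓞 L) b ∈ P.asIdeal := by
  have h1 := efg E L Q
  rw [hQ] at h1
  have hpos : 0 < finrank E L := finrank_pos
  have h2 : Q.asIdeal.ramificationIdxIn (𝓞 L) * Q.asIdeal.inertiaDegIn (𝓞 L) = 1 :=
    Nat.eq_of_mul_eq_mul_left hpos (by rw [h1, mul_one])
  have h3 : Q.asIdeal.inertiaDegIn (𝓞 L) = 1 := Nat.eq_one_of_mul_eq_one_left h2
  haveI := P.isPrime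
  haveI := P.isMaximal
  haveI := Q.isMaximal
  haveI hl : P.asIdeal.LiesOver Q.asIdeal := by
    have := bel_liesOver E L P
    rwa [hP] at this
  rw [Ideal.inertiaDegIn_eq_inertiaDeg Q.asIdeal P.asIdeal Gal(L/E)] at h3
  have h4 := nrm_bel E L P
  rw [h3, pow_one, hP] at h4
  have hunder : P.asIdeal.comap (algebraMap (𝓞 E) (𝓞 L)) = Q.asIdeal := congrArg HeightOneSpectrum.asIdeal hP
  set e : 𝓞 E ⧸ Q.asIdeal →+* 𝓞 L ⧸ P.asIdeal :=
    Ideal.quotientMap P.asIdeal (algebraMap (𝓞 E) (𝓞 L)) (by rw [hunder]) with he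
  have hinj : Function.Injective e := Ideal.quotientMap_injective' (by rw [hunder])
  have hcard : Nat.card (𝓞 L ⧸ P.asIdeal) = Nat.card (𝓞 E ⧸ Q.asIdeal) := by
    unfold nrm at h4
    rw [Ideal.absNorm_apply, Ideal.absNorm_apply, Submodule.cardQuot_apply, Submodule.cardQuot_apply] at h4
    exact h4.symm
  have hbij : Function.Bijective e := Function.Injective.bijective_of_nat_card_le hinj (by rw [hcard])
  obtain ⟨b', hb'⟩ := hbij.2 (Ideal.Quotient.mk P.asIdeal a)
  obtain ⟨b, rfl⟩ := Ideal.Quotient.mk_surjective b'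
  refine ⟨b, ?_⟩
  rw [he, Ideal.quotientMap_mk] at hb'
  exact Ideal.Quotient.eq.1 hb'.symm

end Split

section Sq

variable {R : Type*} [CommRing R]

theorem isUnit_mk_sq (p : Ideal R) [p.IsMaximal] {a : R} (ha : a ∉ p) : IsUnit (Ideal.Quotient.mk (p ^ 2) a) := by
  obtain ⟨b, hb⟩ := Ideal.Quotient.exists_inv (I := p) (a := Ideal.Quotient.mk p a) (by
    intro h0
    exact ha (Ideal.Quotient.eq_zero_iff_mem.1 h0))
  obtain ⟨b, rfl⟩ := Ideal.Quotient.mk_surjective b
  rw [← map_mul, ← map_one (Ideal.Quotient.mk p), Ideal.Quotient.eq] at hb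
  refine IsUnit.of_mul_eq_one (Ideal.Quotient.mk (p ^ 2) (b * (2 - a * b))) ?_
  rw [← map_mul, ← map_one (Ideal.Quotient.mk (p ^ 2)), Ideal.Quotient.eq]
  have : a * (b * (2 - a * b)) - 1 = - ((a * b - 1) * (a * b - 1)) := by ring
  rw [this, pow_two]
  exact (Ideal.neg_mem_iff _).2 (Ideal.mul_mem_mul hb hb)

theorem not_mem_of_isUnit_mk_sq (p : Ideal R) (hp : p ≠ ⊤) {a : R} (ha : IsUnit (Ideal.Quotient.mk (p ^ 2) a)) : a ∉ p := by
  intro hmem
  obtain ⟨b, hb⟩ := ha.exists_right_inv
  obtain ⟨b, rfl⟩ := Ideal.Quotient.mk_surjective b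
  rw [← map_mul, ← map_one (Ideal.Quotient.mk (p ^ 2)), Ideal.Quotient.eq] at hb
  apply hp
  rw [Ideal.eq_top_iff_one]
  have h1 : a * b - 1 ∈ p := Ideal.pow_le_self (by norm_num) hb
  have h2 : a * b ∈ p := p.mul_mem_right _ hmem
  have : (1 : R) = a * b - (a * b - 1) := by ring
  rw [this]
  exact p.sub_mem h2 h1

end Sq

section Local

variable {K : Type u} [Field K] [NumberField K] {ι : Type*} [Fintype ι] [DecidableEq ι]

/-- There is a `K`-rational point without a `K`-rational preimage. -/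
theorem exists_no_preimage (G : ι → MvPolynomial ι (𝓞 K)) {d : ℕ} (hd : 2 ≤ d) (hG : ∀ i, (G i).IsHomogeneous d)
    (hNZ : NZ (algebraMap (𝓞 K) (AlgebraicClosure K)) G) (a b : ι) (hab : a ≠ b) :
    ∃ z : ι → 𝓞 K, z ≠ 0 ∧ ∀ u : ι → 𝓞 K, u ≠ 0 → ¬ Par (pevO G u) z := by
  classical
  set Ω := AlgebraicClosure K with hΩ
  set j := algebraMap (𝓞 K) Ω with hj
  have hjinj : Function.Injective j := FaithfulSMul.algebraMap_injective (𝓞 K) Ω
  haveI : CharZero Ω := charZero_of_injective_algebraMap (algebraMap K Ω).injective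
  obtain ⟨y, w, hy, hw, hyw⟩ := exists_critical j G hd hG a b hab
  have hnpar := critical_not_par j G (by omega) hG hNZ y w hy hw hyw
  obtain ⟨L, hL1, hL2, hL3⟩ := exists_gal (K := K) (Set.range y ∪ Set.range w)
    ((Set.finite_range y).union (Set.finite_range w))
  haveI hNF : NumberField L := NumberField.of_module_finite K L
  set jL := algebraMap (𝓞 L) Ω with hjL
  set iL := algebraMap (𝓞 K) (𝓞 L) with hiL
  have hcomp : jL.comp iL = j := by
    ext r
    rfl
  have hjLinj : Function.Injective jL := FaithfulSMul.algebraMap_injective (𝓞 L) Ω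
  have hyL : ∀ i, y i ∈ L := fun i => hL3 (Or.inl ⟨i, rfl⟩)
  have hwL : ∀ i, w i ∈ L := fun i => hL3 (Or.inr ⟨i, rfl⟩)
  obtain ⟨s, y', hs, hy'⟩ := exists_int (L := L) (fun i => (⟨y i, hyL i⟩ : L))
  obtain ⟨t, w', ht, hw'⟩ := exists_int (L := L) (fun i => (⟨w i, hwL i⟩ : L))
  have hy1 : (fun i => jL (y' i)) = jL s • y := by
    funext i
    exact congrArg (fun z : L => (z : Ω)) (hy' i)
  have hw1 : (fun i => jL (w' i)) = jL t • w := by
    funext i
    exact congrArg (fun z : L => (z : Ω)) (hw' i)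
  have hs0 : jL s ≠ 0 := fun h0 => hs (hjLinj (by rw [h0, map_zero]))
  have ht0 : jL t ≠ 0 := fun h0 => ht (hjLinj (by rw [h0, map_zero]))
  -- derivative vanishes
  have hder : ∀ i, ∑ k, w' k * eval₂ iL y' (pderiv k (G i)) = 0 := by
    intro i
    apply hjLinj
    rw [map_zero, map_sum]
    have h1 : ∀ k ∈ Finset.univ, jL (w' k * eval₂ iL y' (pderiv k (G i)))
        = jL t * (jL s) ^ (d - 1) * (w k * eval₂ j y (pderiv k (G i))) := by
      intro k _
      rw [map_mul]
      have h2 : jL (eval₂ iL y' (pderiv k (G i))) = eval₂ j (fun i => jL (y' i)) (pderiv k (G i)) := by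
        rw [eval₂_comp_left, hcomp]
        rfl
      rw [h2, hy1, eval₂_smul_of_homog (hG i).pderiv j (jL s) y]
      have h3 : jL (w' k) = jL t * w k := congrFun hw1 k
      rw [h3]
      ring
    rw [Finset.sum_congr rfl h1, ← Finset.mul_sum, hyw i, mul_zero]
  have hnpar' : ¬ Par y' w' := by
    intro hp
    apply hnpar
    have h1 := hp.map jL
    rw [hy1, hw1] at h1
    intro a b
    have h2 := h1 a b
    simp only [Pi.smul_apply, smul_eq_mul] at h2
    have h3 : jL s * jL t * (y a * w b - y b * w a) = 0 := by linear_combination h2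
    rcases mul_eq_zero.1 h3 with h4 | h4
    · exact absurd h4 (mul_ne_zero hs0 ht0)
    · exact sub_eq_zero.1 h4
  unfold Par at hnpar'
  push Not at hnpar'
  obtain ⟨a', b', hab'⟩ := hnpar'
  set δ := y' a' * w' b' - y' b' * w' a' with hδ
  have hδ0 : δ ≠ 0 := sub_ne_zero.2 hab'
  obtain ⟨s2, hs2a, hs2b⟩ := good_ae.{u} j hjinj G hNZ
  -- the prime
  have hbig := (((big_split K L).diff_finite (finite_bad K L δ hδ0)).diff_finite (finite_bad' s2 hs2a)).infinite.nonempty
  obtain ⟨p, ⟨hp1, hp2⟩, hp3⟩ := hbig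
  rw [Set.mem_ofPred_eq] at hp1 hp2 hp3
  push Not at hp2
  obtain ⟨P, hP⟩ := exists_of_nonempty K L p
  rw [mem_above] at hP
  have hδP := hp2 P hP
  haveI := p.isPrime
  haveI := p.isMaximal
  haveI := P.isPrime
  letI : Field (𝓞 K ⧸ p.asIdeal) := Ideal.Quotient.field _
  have hunder : ∀ r : 𝓞 K, iL r ∈ P.asIdeal ↔ r ∈ p.asIdeal := by
    intro r
    have h1 : P.asIdeal.under (𝓞 K) = p.asIdeal := congrArg HeightOneSpectrum.asIdeal hP
    rw [← h1]
    exact Iff.rfl
  choose x hx using fun i => split_approx K L p hp1 P hP (y' i)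
  choose v hv using fun i => split_approx K L p hp1 P hP (w' i)
  set φP : 𝓞 L →+* 𝓞 L ⧸ P.asIdeal := Ideal.Quotient.mk P.asIdeal with hφP
  have hxP : ∀ i, φP (iL (x i)) = φP (y' i) := fun i => (Ideal.Quotient.eq.2 (hx i)).symm
  have hvP : ∀ i, φP (iL (v i)) = φP (w' i) := fun i => (Ideal.Quotient.eq.2 (hv i)).symm
  -- nonparallel
  have hδp : x a' * v b' - x b' * v a' ∉ p.asIdeal := by
    rw [← hunder]
    intro h0
    apply hδP
    apply Ideal.Quotient.eq_zero_iff_mem.1
    have h1 : φP (iL (x a' * v b' - x b' * v a')) = 0 := Ideal.Quotient.eq_zero_iff_mem.2 h0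
    rw [map_sub, map_mul, map_mul, map_sub, map_mul, map_mul, hxP, hxP, hvP, hvP] at h1
    rw [hδ]
    change φP _ = 0
    rw [map_sub, map_mul, map_mul]
    exact h1
  -- derivative in p
  have hderp : ∀ i, ∑ k, v k * eval₂ (RingHom.id (𝓞 K)) x (pderiv k (G i)) ∈ p.asIdeal := by
    intro i
    rw [← hunder]
    apply Ideal.Quotient.eq_zero_iff_mem.1
    change φP _ = 0
    rw [map_sum, map_sum]
    have h2 : ∀ k ∈ Finset.univ, φP (iL (v k * eval₂ (RingHom.id (𝓞 K)) x (pderiv k (G i))))
        = φP (w' k * eval₂ iL y' (pderiv k (G i))) := by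
      intro k _
      rw [map_mul, map_mul, map_mul, hvP]
      congr 1
      rw [← RingHom.comp_apply, eval₂_comp_left, eval₂_comp_left, RingHom.comp_id]
      congr 1
      funext i
      exact hxP i
    rw [Finset.sum_congr rfl h2, ← map_sum, hder i, map_zero]
  -- the uniformizer
  obtain ⟨π, hπ1, hπ2⟩ : ∃ π ∈ p.asIdeal, π ∉ p.asIdeal ^ 2 := by
    by_contra hcon
    push Not at hcon
    have h1 : p.asIdeal ≤ p.asIdeal ^ 2 := hcon
    have h2 : p.asIdeal ^ 2 < p.asIdeal := by
      have h3 := Ideal.pow_right_strictAnti p.asIdeal p.ne_bot (Ideal.IsPrime.ne_top p.isPrime) (by norm_num : 1 < 2)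
      simpa only [pow_one] using h3
    exact absurd h1 (not_le_of_gt h2)
  set A := 𝓞 K ⧸ p.asIdeal ^ 2 with hA
  set φ : 𝓞 K →+* A := Ideal.Quotient.mk (p.asIdeal ^ 2) with hφ
  haveI : Finite A := Ideal.finiteQuotientOfFreeOfNeBot _ (pow_ne_zero 2 p.ne_bot)
  have hNZp : NZ (redK p) G := hs2b _ (redK p) (by
    intro h0
    exact hp3 (Ideal.Quotient.eq_zero_iff_mem.1 h0))
  have hptop : p.asIdeal ≠ ⊤ := Ideal.IsPrime.ne_top p.isPrime
  have hunit : ∀ u : ι → 𝓞 K, UnitVec (fun i => φ (u i)) ↔ ∃ k, u k ∉ p.asIdeal := by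
    intro u
    constructor
    · rintro ⟨k, hk⟩
      exact ⟨k, not_mem_of_isUnit_mk_sq _ hptop hk⟩
    · rintro ⟨k, hk⟩
      exact ⟨k, isUnit_mk_sq _ hk⟩
  have hpev : ∀ u : ι → 𝓞 K, pev φ G (fun i => φ (u i)) = fun i => φ (pevO G u i) := by
    intro u
    have := pev_map (RingHom.id (𝓞 K)) φ G u
    rw [RingHom.comp_id] at this
    exact this.symm
  have hpres : ∀ u : ι → A, UnitVec u → UnitVec (pev φ G u) := by
    intro u hu
    choose u' hu' using fun i => Ideal.Quotient.mk_surjective (u i)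
    have e : u = fun i => φ (u' i) := by
      funext i; exact (hu' i).symm
    rw [e] at hu ⊢
    rw [hpev, hunit]
    rw [hunit] at hu
    obtain ⟨k, hk⟩ := hu
    have h1 : (fun i => redK p (u' i)) ≠ 0 := by
      intro h0
      exact hk (Ideal.Quotient.eq_zero_iff_mem.1 (congrFun h0 k))
    have h2 := hNZp _ h1
    have h3 := pev_map (RingHom.id (𝓞 K)) (redK p) G u'
    rw [RingHom.comp_id] at h3
    rw [← h3] at h2
    obtain ⟨k', hk'⟩ := Function.ne_iff.1 h2
    refine ⟨k', ?_⟩
    intro h0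
    exact hk' (Ideal.Quotient.eq_zero_iff_mem.2 h0)
  have hxu : ∃ k, x k ∉ p.asIdeal := by
    by_contra hcon
    push Not at hcon
    apply hδp
    exact p.asIdeal.sub_mem (p.asIdeal.mul_mem_right _ (hcon _)) (p.asIdeal.mul_mem_right _ (hcon _))
  have hπsq : φ π * φ π = 0 := by
    rw [← map_mul]
    apply Ideal.Quotient.eq_zero_iff_mem.2
    rw [pow_two]
    exact Ideal.mul_mem_mul hπ1 hπ1
  obtain ⟨zb, hzb1, hzb2⟩ := not_surj_of_not_inj φ hG hpres (fun i => φ (x i)) (fun i => φ (x i + π * v i))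
    ((hunit x).2 hxu) (by
      refine (hunit (fun i => x i + π * v i)).2 ?_
      obtain ⟨k, hk⟩ := hxu
      refine ⟨k, ?_⟩
      intro h0
      apply hk
      have : x k = x k + π * v k - π * v k := by ring
      rw [this]
      exact p.asIdeal.sub_mem h0 (p.asIdeal.mul_mem_right _ hπ1)) (by
      intro hp
      have h1 := hp a' b'
      simp only at h1
      rw [← map_mul, ← map_mul, Ideal.Quotient.eq] at h1
      have h2 : (x a' * v b' - x b' * v a') * π ∈ p.asIdeal ^ 2 := by
        have : (x a' * v b' - x b' * v a') * π = x a' * (x b' + π * v b') - x b' * (x a' + π * v a') := by ring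
        rw [this]; exact h1
      rcases Ideal.IsPrime.mul_mem_pow p.asIdeal h2 with h3 | h3
      · exact hδp h3
      · exact hπ2 h3) (by
      have h1 : pev φ G (fun i => φ (x i + π * v i)) = pev φ G (fun i => φ (x i)) := by
        funext i
        have h2 : (fun i => φ (x i + π * v i)) = (fun i => φ (x i)) + φ π • (fun i => φ (v i)) := by
          funext i
          simp only [Pi.add_apply, Pi.smul_apply, smul_eq_mul, map_add, map_mul]
        change eval₂ φ (fun i => φ (x i + π * v i)) (G i) = eval₂ φ (fun i => φ (x i)) (G i)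
        rw [h2, taylor φ _ _ _ hπsq]
        have h3 : ∑ k, φ (v k) * eval₂ φ (fun i => φ (x i)) (pderiv k (G i))
            = φ (∑ k, v k * eval₂ (RingHom.id (𝓞 K)) x (pderiv k (G i))) := by
          rw [map_sum]
          apply Finset.sum_congr rfl
          intro k _
          rw [map_mul, eval₂_comp_left, RingHom.comp_id]
          rfl
        rw [h3, ← map_mul]
        have h4 : φ (π * ∑ k, v k * eval₂ (RingHom.id (𝓞 K)) x (pderiv k (G i))) = 0 := by
          apply Ideal.Quotient.eq_zero_iff_mem.2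
          rw [pow_two]
          exact Ideal.mul_mem_mul hπ1 (hderp i)
        rw [h4, add_zero]
      rw [h1]
      exact Par.refl _)
  choose z hz using fun i => Ideal.Quotient.mk_surjective (zb i)
  have ez : zb = fun i => φ (z i) := by
    funext i; exact (hz i).symm
  refine ⟨z, ?_, ?_⟩
  · rintro rfl
    rw [ez] at hzb1
    obtain ⟨k, hk⟩ := (hunit 0).1 hzb1
    exact hk (by simp)
  · intro u hu hpar
    obtain ⟨u', hu'par, k, hk⟩ := exists_primitive p.asIdeal hptop u hu
    have hu'0 : u' ≠ 0 := by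
      rintro rfl
      exact hk (by simp)
    have hNZK : NZ (RingHom.id (𝓞 K)) G := by
      apply NZ.of_injective (ψ := j) _ hjinj
      rw [RingHom.comp_id]
      exact hNZ
    have h1 : Par (pevO G u') z := by
      have h2 := pev_par hG (RingHom.id (𝓞 K)) hu'par hu
      exact h2.trans hpar (hNZK _ hu)
    apply hzb2 (fun i => φ (u' i)) ((hunit u').2 ⟨k, hk⟩)
    rw [hpev, ez]
    exact h1.map φ

end Local

section Descent

variable {K : Type u} [Field K] [NumberField K] {ι : Type*} [Fintype ι]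

/-- a Galois invariant point is rational -/
theorem descent {L : Type u} [Field L] [NumberField L] [Algebra K L] [IsGalois K L] (x : ι → 𝓞 L) (hx : x ≠ 0)
    (h : ∀ σ : Gal(L/K), Par (fun i => σ • x i) x) :
    ∃ u : ι → 𝓞 K, u ≠ 0 ∧ Par (fun i => algebraMap (𝓞 K) (𝓞 L) (u i)) x := by
  obtain ⟨k, hk⟩ := Function.ne_iff.1 hx
  rw [Pi.zero_apply] at hk
  have hkL : (x k : L) ≠ 0 := by
    intro h0
    apply hk
    exact RingOfIntegers.ext (by rw [h0]; rfl)
  have h1 : ∀ i, ∃ r : K, algebraMap K L r = (x i : L) / (x k : L) := by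
    intro i
    have h2 := (IsGalois.mem_range_algebraMap_iff_fixed (F := K) ((x i : L) / (x k : L))).2 (by
      intro σ
      have h3 := h σ i k
      have h4 : (σ (x i : L)) * (x k : L) = (σ (x k : L)) * (x i : L) := congrArg (fun z : 𝓞 L => (z : L)) h3
      have h5 : σ (x k : L) ≠ 0 := by
        intro h0
        exact hkL ((map_eq_zero σ).1 h0)
      rw [map_div₀, div_eq_div_iff h5 hkL, h4]
      ring)
    exact h2
  choose r hr using h1
  obtain ⟨s, u, hs, hu⟩ := exists_int (L := K) r
  refine ⟨u, ?_, ?_⟩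
  · intro h0
    have h2 := hu k
    rw [h0] at h2
    have h3 : r k = 1 := by
      apply (algebraMap K L).injective
      rw [hr, div_self hkL, map_one]
    rw [h3, mul_one] at h2
    apply hs
    exact RingOfIntegers.ext (h2.symm.trans rfl)
  · intro a b
    apply RingOfIntegers.coe_injective
    change algebraMap K L (u a : K) * (x b : L) = algebraMap K L (u b : K) * (x a : L)
    rw [hu, hu, map_mul, map_mul, hr, hr]
    field_simp

/-- Modulo a positive proportion of the primes the map is not surjective on points. -/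
theorem core_residue [DecidableEq ι] (G : ι → MvPolynomial ι (𝓞 K)) {d : ℕ} (hd : 2 ≤ d)
    (hG : ∀ i, (G i).IsHomogeneous d) (hNZ : NZ (algebraMap (𝓞 K) (AlgebraicClosure K)) G) (a b : ι) (hab : a ≠ b) :
    BigSet {p : HeightOneSpectrum (𝓞 K) | ∃ β : ι → 𝓞 K, (∃ k, β k ∉ p.asIdeal) ∧
      ∀ u : ι → 𝓞 K, (∃ k, u k ∉ p.asIdeal) →
        ¬ Par (fun i => redK p (pevO G u i)) (fun i => redK p (β i))} := by
  classical
  set Ω := AlgebraicClosure K with hΩ
  set j := algebraMap (𝓞 K) Ω with hj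
  have hjinj : Function.Injective j := FaithfulSMul.algebraMap_injective (𝓞 K) Ω
  obtain ⟨z, hz0, hz⟩ := exists_no_preimage G hd hG hNZ a b hab
  obtain ⟨kz, hkz⟩ := Function.ne_iff.1 hz0
  rw [Pi.zero_apply] at hkz
  obtain ⟨L, hNF, hGal, X₀, hX1, hX2⟩ := exists_reps G (by omega) hG hNZ {z} (by simpa using hz0) 1
  set jL := algebraMap (𝓞 L) Ω with hjL
  set iL := algebraMap (𝓞 K) (𝓞 L) with hiL
  have hcomp : jL.comp iL = j := by
    ext r
    rfl
  have hjLinj : Function.Injective jL := FaithfulSMul.algebraMap_injective (𝓞 L) Ω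
  have hiLinj : Function.Injective iL := by
    intro a b hab
    apply hjinj
    rw [← hcomp, RingHom.comp_apply, RingHom.comp_apply, hab]
  have hNZL : NZ iL G := NZ.of_injective (ψ := jL) (by rw [hcomp]; exact hNZ) hjLinj
  by_cases hX : ∃ x ∈ X₀, ∃ σ : Gal(L/K), ¬ Par x (fun i => σ • x i)
  · obtain ⟨x, hx, σ, hσ⟩ := hX
    obtain ⟨hx0, q, hq, hxq⟩ := hX1 x hx
    rw [Finset.mem_singleton] at hq
    subst hq
    rw [Function.iterate_one] at hxq
    set x' : ι → 𝓞 L := fun i => σ • x i with hx'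
    have hx'q : Par (pev iL G x') (fun i => iL (q i)) := by
      have h1 := sigma_par σ hxq
      have h2 : (fun i => σ • iL (q i)) = fun i => iL (q i) := by
        funext i
        exact smul_algebraMap σ (q i)
      rw [h2] at h1
      have h3 : (fun i => σ • pev iL G x i) = pev iL G x' := by
        have h4 := pev_map iL (MulSemiringAction.toRingHom Gal(L/K) (𝓞 L) σ) G x
        have h5 : (MulSemiringAction.toRingHom Gal(L/K) (𝓞 L) σ).comp iL = iL := by
          exact RingHom.ext fun r => smul_algebraMap σ r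
        rw [h5] at h4
        exact h4
      rw [h3] at h1
      exact h1
    unfold Par at hσ
    push Not at hσ
    obtain ⟨a', b', hab'⟩ := hσ
    set δ := x a' * x' b' - x b' * x' a' with hδ
    have hδ0 : δ ≠ 0 := sub_ne_zero.2 hab'
    obtain ⟨s2, hs2a, hs2b⟩ := good_ae.{u} j hjinj G hNZ
    have hbig := ((big_split K L).diff_finite (finite_bad K L δ hδ0)).diff_finite
      (finite_bad' (s2 * q kz) (mul_ne_zero hs2a hkz))
    apply hbig.mono
    rintro p ⟨⟨hp1, hp2⟩, hp3⟩
    rw [Set.mem_ofPred_eq] at hp1 hp2 hp3 ⊢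
    push Not at hp2
    obtain ⟨P, hP⟩ := exists_of_nonempty K L p
    rw [mem_above] at hP
    have hδP := hp2 P hP
    haveI := p.isPrime
    haveI := p.isMaximal
    haveI := P.isPrime
    haveI := P.isMaximal
    letI : Field (𝓞 K ⧸ p.asIdeal) := Ideal.Quotient.field _
    letI : Field (𝓞 L ⧸ P.asIdeal) := Ideal.Quotient.field _
    have hs2p : s2 ∉ p.asIdeal := fun h0 => hp3 (p.asIdeal.mul_mem_right _ h0)
    have hqp : q kz ∉ p.asIdeal := fun h0 => hp3 (p.asIdeal.mul_mem_left _ h0)
    have hunder : ∀ r : 𝓞 K, iL r ∈ P.asIdeal ↔ r ∈ p.asIdeal := by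
      intro r
      have h1 : P.asIdeal.under (𝓞 K) = p.asIdeal := congrArg HeightOneSpectrum.asIdeal hP
      rw [← h1]
      exact Iff.rfl
    choose u hu using fun i => split_approx K L p hp1 P hP (x i)
    choose u' hu' using fun i => split_approx K L p hp1 P hP (x' i)
    set φP : 𝓞 L →+* 𝓞 L ⧸ P.asIdeal := Ideal.Quotient.mk P.asIdeal with hφP
    have huP : ∀ i, φP (iL (u i)) = φP (x i) := fun i => (Ideal.Quotient.eq.2 (hu i)).symm
    have huP' : ∀ i, φP (iL (u' i)) = φP (x' i) := fun i => (Ideal.Quotient.eq.2 (hu' i)).symm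
    have htr : ∀ v w : ι → 𝓞 K, Par (fun i => φP (iL (v i))) (fun i => φP (iL (w i))) →
        Par (fun i => redK p (v i)) (fun i => redK p (w i)) := by
      intro v w h a b
      have h1 := h a b
      rw [← map_mul, ← map_mul, ← map_mul, ← map_mul, Ideal.Quotient.eq, ← map_sub, hunder] at h1
      rw [← map_mul, ← map_mul]
      exact Ideal.Quotient.eq.2 h1
    have hminor : u a' * u' b' - u b' * u' a' ∉ p.asIdeal := by
      rw [← hunder]
      intro h0
      apply hδP
      apply Ideal.Quotient.eq_zero_iff_mem.1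
      have h1 : φP (iL (u a' * u' b' - u b' * u' a')) = 0 := Ideal.Quotient.eq_zero_iff_mem.2 h0
      rw [map_sub, map_mul, map_mul, map_sub, map_mul, map_mul, huP, huP, huP', huP'] at h1
      rw [hδ]
      change φP _ = 0
      rw [map_sub, map_mul, map_mul]
      exact h1
    have hNZp : NZ (redK p) G := hs2b _ (redK p) (by
      intro h0
      exact hs2p (Ideal.Quotient.eq_zero_iff_mem.1 h0))
    have hunit : ∀ v : ι → 𝓞 K ⧸ p.asIdeal, UnitVec v ↔ v ≠ 0 := by
      intro v
      constructor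
      · rintro ⟨k, hk⟩ h0
        exact hk.ne_zero (congrFun h0 k)
      · intro hv
        obtain ⟨k, hk⟩ := Function.ne_iff.1 hv
        exact ⟨k, isUnit_iff_ne_zero.2 hk⟩
    have hpev : ∀ v : ι → 𝓞 K, pev (redK p) G (fun i => redK p (v i)) = fun i => redK p (pevO G v i) := by
      intro v
      have := pev_map (RingHom.id (𝓞 K)) (redK p) G v
      rw [RingHom.comp_id] at this
      exact this.symm
    have hu0 : (fun i => redK p (u i)) ≠ 0 := by
      intro h0
      apply hminor
      have h1 : ∀ i, u i ∈ p.asIdeal := fun i => Ideal.Quotient.eq_zero_iff_mem.1 (congrFun h0 i)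
      exact p.asIdeal.sub_mem (p.asIdeal.mul_mem_right _ (h1 _)) (p.asIdeal.mul_mem_right _ (h1 _))
    have hu'0 : (fun i => redK p (u' i)) ≠ 0 := by
      intro h0
      apply hminor
      have h1 : ∀ i, u' i ∈ p.asIdeal := fun i => Ideal.Quotient.eq_zero_iff_mem.1 (congrFun h0 i)
      exact p.asIdeal.sub_mem (p.asIdeal.mul_mem_left _ (h1 _)) (p.asIdeal.mul_mem_left _ (h1 _))
    have himg : ∀ (v : ι → 𝓞 K) (y : ι → 𝓞 L), (∀ i, φP (iL (v i)) = φP (y i)) →
        Par (pev iL G y) (fun i => iL (q i)) →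
        Par (pev (redK p) G (fun i => redK p (v i))) (fun i => redK p (q i)) := by
      intro v y hvy hy
      rw [hpev]
      apply htr
      have h1 := hy.map φP
      have h2 : (fun i => φP (pev iL G y i)) = fun i => φP (iL (pevO G v i)) := by
        have h3 := pev_map iL φP G y
        rw [h3]
        have h4 := pev_map (RingHom.id (𝓞 K)) (φP.comp iL) G v
        rw [RingHom.comp_id] at h4
        have h5 : (fun i => φP (iL (pevO G v i))) = fun i => (φP.comp iL) (pev (RingHom.id (𝓞 K)) G v i) := rfl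
        rw [h5, h4]
        congr 1
        funext i
        exact (hvy i).symm
      rw [h2] at h1
      exact h1
    have hq0 : (fun i => redK p (q i)) ≠ 0 := by
      intro h0
      exact hqp (Ideal.Quotient.eq_zero_iff_mem.1 (congrFun h0 kz))
    haveI : Finite (𝓞 K ⧸ p.asIdeal) := Ideal.finiteQuotientOfFreeOfNeBot _ p.ne_bot
    obtain ⟨zb, hzb1, hzb2⟩ := not_surj_of_not_inj (redK p) hG
      (fun v hv => (hunit _).2 (hNZp v ((hunit v).1 hv))) (fun i => redK p (u i)) (fun i => redK p (u' i))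
      ((hunit _).2 hu0) ((hunit _).2 hu'0) (by
        intro hp
        have h1 := hp a' b'
        simp only at h1
        rw [← map_mul, ← map_mul, Ideal.Quotient.eq] at h1
        exact hminor h1)
      ((himg u x huP hxq).trans (himg u' x' huP' hx'q).symm hq0)
    choose β hβ using fun i => Ideal.Quotient.mk_surjective (zb i)
    have ez : zb = fun i => redK p (β i) := by
      funext i; exact (hβ i).symm
    refine ⟨β, ?_, ?_⟩
    · rw [hunit, ez] at hzb1
      obtain ⟨k, hk⟩ := Function.ne_iff.1 hzb1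
      refine ⟨k, ?_⟩
      intro h0
      exact hk (Ideal.Quotient.eq_zero_iff_mem.2 h0)
    · rintro v ⟨k, hk⟩ hpar
      apply hzb2 (fun i => redK p (v i))
      · rw [hunit]
        intro h0
        exact hk (Ideal.Quotient.eq_zero_iff_mem.1 (congrFun h0 k))
      · rw [hpev, ez]
        exact hpar
  · push Not at hX
    have hempty : X₀ = ∅ := by
      rw [Finset.eq_empty_iff_forall_notMem]
      intro x hx
      obtain ⟨hx0, q, hq, hxq⟩ := hX1 x hx
      rw [Finset.mem_singleton] at hq
      subst hq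
      rw [Function.iterate_one] at hxq
      obtain ⟨u, hu0, hux⟩ := descent x hx0 (fun σ => (hX x hx σ).symm)
      apply hz u hu0
      apply Par.of_map iL hiLinj
      have h1 : Par (pev iL G (fun i => iL (u i))) (pev iL G x) := pev_par hG iL hux hx0
      have h2 := pev_map (RingHom.id (𝓞 K)) iL G u
      rw [RingHom.comp_id] at h2
      rw [h2]
      exact h1.trans hxq (hNZL x hx0)
    obtain ⟨s, hs, hs'⟩ := lifting.{u} j hjinj G z ∅ (by
      intro y hy hpar
      obtain ⟨x, hx, _⟩ := hX2 z (Finset.mem_singleton_self _) y hy (by rw [Function.iterate_one]; exact hpar)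
      rw [hempty] at hx
      exact absurd hx (Finset.notMem_empty _))
    have hbig := (big_univ K).diff_finite (finite_bad' (s * z kz) (mul_ne_zero hs hkz))
    apply hbig.mono
    rintro p ⟨_, hp⟩
    rw [Set.mem_ofPred_eq] at hp ⊢
    haveI := p.isPrime
    haveI := p.isMaximal
    letI : Field (𝓞 K ⧸ p.asIdeal) := Ideal.Quotient.field _
    have hsp : s ∉ p.asIdeal := fun h0 => hp (p.asIdeal.mul_mem_right _ h0)
    have hzp : z kz ∉ p.asIdeal := fun h0 => hp (p.asIdeal.mul_mem_left _ h0)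
    refine ⟨z, ⟨kz, hzp⟩, ?_⟩
    rintro u ⟨k, hk⟩ hpar
    have h1 := pev_map (RingHom.id (𝓞 K)) (redK p) G u
    rw [RingHom.comp_id] at h1
    obtain ⟨x, hx, _⟩ := hs' _ (redK p) (by
      intro h0
      exact hsp (Ideal.Quotient.eq_zero_iff_mem.1 h0)) (fun i => redK p (u i)) (by
      intro h0
      exact hk (Ideal.Quotient.eq_zero_iff_mem.1 (congrFun h0 k))) (by
      rw [← h1]
      exact hpar)
    exact absurd hx (Finset.notMem_empty _)

end Descent

end Pool.Agent.Lib.MP_df4dfc_nt
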