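import Mathlib
import Pool.Agent.Lib.MP_df4dfc_nt.Residue2
import Pool.Agent.Lib.MP_df4dfc_nt.Criterion

set_option autoImplicit false
set_option linter.unusedSectionVars false
set_option linter.style.haveILetI false
set_option linter.unusedVariables false

namespace Pool.Agent.Lib.MP_df4dfc_nt

open NumberField IsDedekindDomain

universe u

variable {K : Type u} [Field K] [NumberField K] {N d : ℕ}

/-- For every morphism of degree at least two: modulo a positive proportion of the primes there is a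
residue class all of whose points are good targets. -/
theorem residue_class (hN : 1 ≤ N) (hd : 2 ≤ d) (Φ : Morph K N d) :
    PosDensity {𝔭 : HeightOneSpectrum (𝓞 K) | ∃ β : PN K N, ∀ γ₂ : PN K N, Cong 𝔭 γ₂ β →
      ∀ γ₁ : PN K N, (∀ m : ℕ, Φ.map^[m] γ₁ ≠ γ₂) → PosDensity (avoidSet Φ γ₁ γ₂)} := by
  classical
  obtain ⟨c, G, hG⟩ := exists_model Φ
  have h01 : (⟨0, by omega⟩ : Fin (N + 1)) ≠ ⟨1, by omega⟩ := by
    intro h
    have := congrArg Fin.val h
    simp at this
  have hcore := core_residue G hd hG.homog hG.nz _ _ h01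
  obtain ⟨s2, hs2a, hs2b⟩ := good_ae.{u} (algebraMap (𝓞 K) (AlgebraicClosure K))
    (FaithfulSMul.algebraMap_injective (𝓞 K) (AlgebraicClosure K)) G hG.nz
  refine (((hcore.diff_finite (bad_finite Φ)).diff_finite (finite_bad' s2 hs2a)).mono ?_).posDensity
  rintro p ⟨⟨⟨β, ⟨k, hk⟩, hβ⟩, hp2⟩, hp3⟩
  rw [Set.mem_ofPred_eq] at hp2 hp3 ⊢
  rw [not_not] at hp2
  haveI := p.isMaximal
  letI : Field (𝓞 K ⧸ p.asIdeal) := Ideal.Quotient.field _
  have hβ0 : β ≠ 0 := by
    rintro rfl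
    exact hk (by simp)
  have hβb : (fun i => redK p (β i)) ≠ 0 := by
    intro h0
    exact hk (Ideal.Quotient.eq_zero_iff_mem.1 (congrFun h0 k))
  have hNZp : NZ (redK p) G := hs2b _ (redK p) (by
    intro h0
    exact hp3 (Ideal.Quotient.eq_zero_iff_mem.1 h0))
  refine ⟨Projectivization.mk K (fun i => (β i : K)) (coe_ne_zero_of hβ0), ?_⟩
  intro γ₂ hγ₂ γ₁ H
  have hRβ : Rp (Projectivization.mk K (fun i => (β i : K)) (coe_ne_zero_of hβ0)) β := ⟨coe_ne_zero_of hβ0, rfl⟩
  apply posDensity_of_good (by omega) Φ γ₁ γ₂ H p hp2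
  intro m hm hcong
  obtain ⟨g2, hg2, k2, hk2⟩ := exists_Rp_prim p γ₂
  have h1 : Par (fun i => redK p ((pevO G)^[m] g2 i)) (fun i => redK p (g2 i)) :=
    hcong.par (hG.rp_iter hg2 m) hg2
  have h2 : Par (fun i => redK p (g2 i)) (fun i => redK p (β i)) := hγ₂.par hg2 hRβ
  have hg2b : (fun i => redK p (g2 i)) ≠ 0 := by
    intro h0
    exact hk2 (Ideal.Quotient.eq_zero_iff_mem.1 (congrFun h0 k2))
  have h3 := h1.trans h2 hg2b
  obtain ⟨m', rfl⟩ : ∃ m', m = m' + 1 := ⟨m - 1, by omega⟩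
  rw [Function.iterate_succ_apply'] at h3
  apply hβ ((pevO G)^[m'] g2) _ h3
  by_contra hcon
  push Not at hcon
  have h4 : (fun i => redK p ((pevO G)^[m'] g2 i)) = 0 := by
    funext i
    exact Ideal.Quotient.eq_zero_iff_mem.2 (hcon i)
  rw [pev_iter_map, RingHom.comp_id] at h4
  exact hNZp.iter m' hg2b h4

end Pool.Agent.Lib.MP_df4dfc_nt
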