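import Mathlib
import Pool.Agent.Lib.MP_df4dfc_nt.Asm6
import Pool.Agent.Lib.MP_df4dfc_nt.DefsTarget
import Pool.Agent.Lib.MP_df4dfc_nt.GaloisCrit
import Pool.Agent.Lib.MP_df4dfc_nt.Residue3
import Pool.Agent.Lib.MP_df4dfc_nt.Generic3

set_option autoImplicit false
set_option linter.unusedSectionVars false
set_option linter.unusedVariables false
set_option linter.style.haveILetI false

/-! For every morphism almost all targets are good. -/

namespace Pool.Agent.Lib.MP_df4dfc_nt

open Polynomial NumberField IsDedekindDomain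

universe u

variable {K : Type u} [Field K] [NumberField K]

/-- a Galois invariant point over the algebraic closure is rational -/
theorem descent' {ι : Type*} [Fintype ι] (x : ι → AlgebraicClosure K) (hx : x ≠ 0)
    (hpar : ∀ σ : Gal(AlgebraicClosure K/K), Par (fun i => σ (x i)) x) :
    ∃ u : ι → 𝓞 K, u ≠ 0 ∧ Par (fun i => algebraMap (𝓞 K) (AlgebraicClosure K) (u i)) x := by
  classical
  obtain ⟨k, hk⟩ := Function.ne_iff.1 hx
  rw [Pi.zero_apply] at hk
  haveI : CharZero (AlgebraicClosure K) := charZero_of_injective_algebraMap (algebraMap K _).injective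
  haveI : IsGalois K (AlgebraicClosure K) := inferInstance
  have h1 : ∀ i, ∃ r : K, algebraMap K (AlgebraicClosure K) r = x i / x k := by
    intro i
    refine (InfiniteGalois.mem_range_algebraMap_iff_fixed (x i / x k)).2 ?_
    intro σ
    have h4 : σ (x i) * x k = σ (x k) * x i := hpar σ i k
    have h5 : σ (x k) ≠ 0 := by
      intro h0
      exact hk ((map_eq_zero σ).1 h0)
    rw [map_div₀, div_eq_div_iff h5 hk, h4]
    ring
  choose r hr using h1
  obtain ⟨s, u, hs, hu⟩ := exists_int (L := K) r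
  have hus : ∀ i, algebraMap (𝓞 K) (AlgebraicClosure K) (u i) = algebraMap (𝓞 K) (AlgebraicClosure K) s * (x i / x k) := by
    intro i
    have h2 : algebraMap (𝓞 K) (AlgebraicClosure K) (u i) = algebraMap K (AlgebraicClosure K) (u i : K) := rfl
    rw [h2, hu, map_mul, hr]
    rfl
  have hs0 : algebraMap (𝓞 K) (AlgebraicClosure K) s ≠ 0 := by
    intro h0
    apply hs
    apply FaithfulSMul.algebraMap_injective (𝓞 K) (AlgebraicClosure K)
    rw [h0, map_zero]
  refine ⟨u, ?_, ?_⟩
  · intro h0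
    have h2 := hus k
    rw [h0, div_self hk, mul_one, Pi.zero_apply, map_zero] at h2
    exact hs0 h2.symm
  · intro a b
    simp only
    rw [hus, hus]
    field_simp

theorem degree_bound {N d : ℕ} (hN : 1 ≤ N) (hd : 2 ≤ d) (Φ : Morph K N d)
    {h : MvPolynomial (Fin (N + 1)) K} {m : (MvPolynomial (Fin (N + 1)) K)[X]}
    {δ : MvPolynomial (Fin (N + 1)) K} {P : Fin (N + 1) → (MvPolynomial (Fin (N + 1)) K)[X]}
    (hD : ∀ γ, Desc Φ.F h m δ P γ) (hm : m.Monic) (hirr : Irreducible m) (hδ : δ ≠ 0) :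
    2 * d ≤ m.natDegree := by
  classical
  obtain ⟨c, G, hG⟩ := exists_model Φ
  have h01 : (⟨0, by omega⟩ : Fin (N + 1)) ≠ ⟨1, by omega⟩ := by
    intro h
    have := congrArg Fin.val h
    simp at this
  obtain ⟨p, β, ⟨kβ, hkβ⟩, hβ⟩ := (core_residue G hd hG.homog hG.nz _ _ h01).infinite.nonempty
  -- a vector congruent to `β` outside the zero set of `δ`
  set q : ℕ := Ideal.absNorm p.asIdeal with hq
  have hq0 : q ≠ 0 := by
    rw [hq, Ne, Ideal.absNorm_eq_zero_iff]
    exact p.ne_bot
  have hqp : ((q : ℕ) : 𝓞 K) ∈ p.asIdeal := Ideal.absNorm_mem p.asIdeal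
  obtain ⟨n, hn⟩ : ∃ n : Fin (N + 1) → ℤ,
      MvPolynomial.eval (fun i => ((β i + (q : 𝓞 K) * (n i : 𝓞 K) : 𝓞 K) : K)) δ ≠ 0 := by
    by_contra hcon
    push Not at hcon
    apply hδ
    apply MvPolynomial.funext_set (fun i => Set.range (fun n : ℤ => ((β i + (q : 𝓞 K) * (n : 𝓞 K) : 𝓞 K) : K)))
    · intro i
      apply Set.infinite_range_of_injective
      intro n n' hnn
      have h1 := RingOfIntegers.coe_injective hnn
      have h2 := mul_left_cancel₀ (by exact_mod_cast hq0) (add_left_cancel h1)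
      exact_mod_cast h2
    · intro x hx
      rw [map_zero]
      choose n hn using fun i => hx i (Set.mem_univ i)
      have : x = fun i => ((β i + (q : 𝓞 K) * (n i : 𝓞 K) : 𝓞 K) : K) := by
        funext i; exact (hn i).symm
      rw [this]
      exact hcon n
  set g : Fin (N + 1) → 𝓞 K := fun i => β i + (q : 𝓞 K) * (n i : 𝓞 K) with hg
  set γ : Fin (N + 1) → K := fun i => (g i : K) with hγ
  have hgβ : ∀ i, redK p (g i) = redK p (β i) := by
    intro i
    apply Ideal.Quotient.eq.2
    have : g i - β i = (q : 𝓞 K) * (n i : 𝓞 K) := by rw [hg]; ring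
    rw [this]
    exact p.asIdeal.mul_mem_right _ hqp
  have hγ0 : γ ≠ 0 := by
    intro h0
    apply hkβ
    have h1 : (g kβ : K) = 0 := congrFun h0 kβ
    have h2 : g kβ = 0 := RingOfIntegers.ext (by rw [h1]; rfl)
    have h3 := hgβ kβ
    rw [h2, map_zero] at h3
    exact Ideal.Quotient.eq_zero_iff_mem.1 h3.symm
  -- the fibre is nonempty
  have hdeg : (m.map (MvPolynomial.eval γ)).natDegree ≠ 0 := by
    rw [hm.natDegree_map]
    exact (hm.natDegree_pos_of_not_isUnit hirr.not_isUnit).ne'
  obtain ⟨r, hr⟩ := IsAlgClosed.exists_aeval_eq_zero (AlgebraicClosure K) (m.map (MvPolynomial.eval γ)) (by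
    intro h0
    exact hdeg (natDegree_eq_of_degree_eq_some h0))
  obtain ⟨x, hx, -⟩ := (hD γ).2 r hr
  obtain ⟨hfin, hle⟩ := (hD γ).finite hm hn
  have hx0 := Yf_ne_zero (by omega : 1 ≤ d) Φ.homog hγ0 hx
  obtain ⟨x', hx', hnp⟩ : ∃ x' ∈ Yf Φ.F γ, ¬ Par x' x := by
    by_contra hcon
    push Not at hcon
    obtain ⟨u, hu0, hux⟩ := descent' x hx0 (fun σ => hcon _ (Yf_gal σ hx))
    haveI := p.isMaximal
    haveI := p.isPrime
    obtain ⟨u', hu', k, hk⟩ := exists_primitive p.asIdeal (Ideal.IsPrime.ne_top p.isPrime) u hu0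
    set j := algebraMap (𝓞 K) (AlgebraicClosure K) with hj
    have hjinj : Function.Injective j := FaithfulSMul.algebraMap_injective (𝓞 K) (AlgebraicClosure K)
    apply hβ u' ⟨k, hk⟩
    have hju0 : (fun i => j (u i)) ≠ 0 := by
      intro h0
      apply hu0
      funext i
      apply hjinj
      rw [Pi.zero_apply, map_zero]
      exact congrFun h0 i
    have h1 : Par (fun i => j (u' i)) x := (hu'.map j).trans hux hju0
    have h2 : Par (pev j G (fun i => j (u' i))) (pev j G x) := pev_par hG.homog j h1 hx0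
    have h3 : pev j G x = (algebraMap K (AlgebraicClosure K) c) • Φ.bar x := hG.bar x
    have h4 : Φ.bar x = fun i => j (g i) := by
      funext i
      exact hx i
    have h5 := pev_map (RingHom.id (𝓞 K)) j G u'
    rw [RingHom.comp_id] at h5
    rw [h3, h4, ← h5] at h2
    have hc : algebraMap K (AlgebraicClosure K) c ≠ 0 := (_root_.map_ne_zero _).2 hG.1
    have h6 : Par (pev (RingHom.id (𝓞 K)) G u') g := by
      apply Par.of_map j hjinj
      intro a b
      have h7 := h2 a b
      simp only [Pi.smul_apply, smul_eq_mul] at h7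
      apply mul_left_cancel₀ hc
      linear_combination h7
    have h8 := h6.map (redK p)
    have h9 : (fun i => redK p (g i)) = fun i => redK p (β i) := by
      funext i; exact hgβ i
    rw [h9] at h8
    exact h8
  exact (two_points_bound (by omega) Φ.homog hfin hx' hx hnp).trans hle

theorem good_of_irreducible {N d : ℕ} (hd : 1 ≤ d) (Φ : Morph K N d)
    {h : MvPolynomial (Fin (N + 1)) K} {m : (MvPolynomial (Fin (N + 1)) K)[X]}
    {δ : MvPolynomial (Fin (N + 1)) K} {P : Fin (N + 1) → (MvPolynomial (Fin (N + 1)) K)[X]}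
    (hD : ∀ γ, Desc Φ.F h m δ P γ) (hm : m.Monic) (h2d : 2 * d ≤ m.natDegree) (a : Fin (N + 1) → 𝓞 K)
    (ha : Irreducible (m.map (MvPolynomial.eval (fun i => (a i : K)))))
    (haδ : MvPolynomial.eval (fun i => (a i : K)) δ ≠ 0) : GoodTarget Φ a := by
  classical
  set γ : Fin (N + 1) → K := fun i => (a i : K) with hγ
  have hγ0 : γ ≠ 0 := by
    intro h0
    obtain ⟨hfin, -⟩ := (hD γ).finite hm haδ
    have hge := (hD γ).card_ge hm ha hfin
    have hsub : Yf Φ.F γ ⊆ {0} := by
      intro x hx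
      apply Φ.noZero x
      intro i
      rw [hx i, h0, Pi.zero_apply, map_zero]
    have h1 := Set.ncard_le_ncard hsub
    rw [Set.ncard_singleton] at h1
    omega
  refine ⟨hγ0, ?_⟩
  intro γ₁ H
  obtain ⟨σ, hσ⟩ := sigma_exists (hD γ) hm ha haδ hd Φ.homog hγ0 h2d
  apply posDensity_of_nofix hd Φ γ₁ _ H 1 σ
  rintro y ⟨hy0, c, hc⟩ hfix
  rw [fixesPoint_iff σ y hy0] at hfix
  -- representative
  obtain ⟨e, he⟩ := (Projectivization.mk_eq_mk_iff' K _ _ (Projectivization.mk K γ hγ0).rep_nonzero hγ0).1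
    (Projectivization.mk_rep (Projectivization.mk K γ hγ0))
  rw [Function.iterate_one] at hc
  have hc2 : ∀ i, Φ.bar y i = (c * algebraMap K (AlgebraicClosure K) e) * algebraMap K (AlgebraicClosure K) (γ i) := by
    intro i
    rw [hc i, ← he, Pi.smul_apply, smul_eq_mul, map_mul]
    ring
  set c' := c * algebraMap K (AlgebraicClosure K) e with hc'
  have hc'0 : c' ≠ 0 := by
    intro h0
    apply hy0
    apply Φ.noZero y
    intro i
    have := hc2 i
    rw [h0, zero_mul] at this
    exact this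
  obtain ⟨t, ht⟩ := IsAlgClosed.exists_pow_nat_eq c'⁻¹ (by omega : 0 < d)
  have ht0 : t ≠ 0 := by
    rintro rfl
    rw [zero_pow (by omega)] at ht
    exact inv_ne_zero hc'0 ht.symm
  apply hσ (t • y)
  · intro i
    rw [aeval_smul_homog (Φ.homog i), ht]
    have h1 : MvPolynomial.aeval y (Φ.F i) = c' * algebraMap K (AlgebraicClosure K) (γ i) := hc2 i
    rw [h1, ← mul_assoc, inv_mul_cancel₀ hc'0, one_mul]
  · intro i j
    have h1 : σ (y i) * y j = σ (y j) * y i := hfix i j
    simp only [Pi.smul_apply, smul_eq_mul, map_mul]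
    linear_combination (σ t * t) * h1

end Pool.Agent.Lib.MP_df4dfc_nt
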