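import Mathlib
import Pool.Agent.Lib.MP_df4dfc_nt.Asm7

set_option autoImplicit false
set_option linter.unusedSectionVars false
set_option linter.unusedVariables false
set_option linter.style.haveILetI false

/-! For every morphism almost all targets are good. -/

namespace Pool.Agent.Lib.MP_df4dfc_nt

open Polynomial NumberField IsDedekindDomain

universe u

variable {K : Type u} [Field K] [NumberField K]

theorem almost_all_targets {κ : Type*} [Fintype κ] (b : Module.Basis κ ℤ (𝓞 K)) {N d : ℕ} (hN : 1 ≤ N) (hd : 2 ≤ d)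
    (Φ : Morph K N d) (ε : ℝ) (hε : 0 < ε) :
    ∃ B₀ : ℕ, ∀ B : ℕ, B₀ ≤ B →
      (1 - ε) * ((VecBox b N B).ncard : ℝ) ≤ (({a ∈ VecBox b N B | GoodTarget Φ a}.ncard : ℕ) : ℝ) := by
  classical
  obtain ⟨M, hM, hrep⟩ := exists_pow_repr' (Ω := AlgebraicClosure K) Φ.F (fun _ => d) Φ.homog (by
    intro y hy
    exact Φ.noZero y hy)
  have hfin := module_finite_of_repr Φ.F (by omega : 1 ≤ d) (hM 0) hrep
  have hind := alg_indep_of_finite Φ.F
  obtain ⟨h, m, δ, P, hm, hirr, hδ, hfib⟩ := fibre_poly Φ.F hind hfin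
  have hD : ∀ γ, Desc Φ.F h m δ P γ := fun γ => hfib (AlgebraicClosure K) γ
  have h2d := degree_bound hN hd Φ hD hm hirr hδ
  set n := Fintype.card (Fin (N + 1) × κ) with hn
  let e : Fin (N + 1) × κ ≃ Fin n := Fintype.equivFin _
  have hneg := negl_param b e m hm hirr δ hδ
  obtain ⟨B₀, hB₀⟩ := hneg ε hε
  refine ⟨B₀, fun B hB => ?_⟩
  have h1 := hB₀ B hB
  set Bad : Set (Fin n → ℤ) := {s : Fin n → ℤ | ¬ (Irreducible (m.map (MvPolynomial.eval (fun t => (vecOf b e s t : K)))) ∧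
      MvPolynomial.eval (fun t => (vecOf b e s t : K)) δ ≠ 0)} with hBad
  have himg : VecBox b N B = vecOf b e '' bx n B := (vecOf_image b e B).symm
  have hcard : (VecBox b N B).ncard = (2 * B + 1) ^ n := by
    rw [himg, Set.ncard_image_of_injective _ (vecOf_inj b e), bx_card]
  have hsub : vecOf b e '' (bx n B \ (Bad ∩ bx n B)) ⊆ {a ∈ VecBox b N B | GoodTarget Φ a} := by
    rintro _ ⟨s, ⟨hs1, hs2⟩, rfl⟩
    refine ⟨by rw [himg]; exact ⟨s, hs1, rfl⟩, ?_⟩
    have hs3 : s ∉ Bad := fun h0 => hs2 ⟨h0, hs1⟩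
    rw [hBad, Set.mem_ofPred_eq, not_not] at hs3
    exact good_of_irreducible (by omega) Φ hD hm h2d _ hs3.1 hs3.2
  have hfinbox : (VecBox b N B).Finite := by
    rw [himg]; exact (bx_finite n B).image _
  have h2 := Set.ncard_le_ncard hsub (hfinbox.subset (Set.sep_subset _ _))
  rw [Set.ncard_image_of_injective _ (vecOf_inj b e)] at h2
  have h3 : (bx n B \ (Bad ∩ bx n B)).ncard + (Bad ∩ bx n B).ncard = (bx n B).ncard :=
    Set.ncard_sdiff_add_ncard_of_subset Set.inter_subset_right (bx_finite n B)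
  rw [bx_card] at h3
  rw [hcard]
  have h4 : ((bx n B \ (Bad ∩ bx n B)).ncard : ℝ) ≤ (({a ∈ VecBox b N B | GoodTarget Φ a}.ncard : ℕ) : ℝ) := by
    exact_mod_cast h2
  have h5 : ((bx n B \ (Bad ∩ bx n B)).ncard : ℝ) + ((Bad ∩ bx n B).ncard : ℝ) = (2 * B + 1) ^ n := by
    exact_mod_cast h3
  push_cast
  linarith

end Pool.Agent.Lib.MP_df4dfc_nt
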