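import Mathlib
import Pool.Agent.Lib.MP_df4dfc_nt.Core

/-!
# Forms whose rational points all flow to one superattracting point
-/

set_option autoImplicit false
set_option linter.unusedSectionVars false
set_option linter.style.haveILetI false
set_option linter.unusedVariables false

namespace Pool.Agent.Lib.MP_df4dfc_nt

open MvPolynomial

section AA

variable {R : Type*} [CommRing R]

/-- The forms `A₀, …, A_{n+1}` of degree `e + q' + r` in `n + 2` variables (`q' + 1` is the number of
elements of the residue field). -/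
noncomputable def ccA (π : R) (q' e r n : ℕ) : Fin (n + 2) → MvPolynomial (Fin (n + 2)) R :=
  Fin.lastCases (motive := fun _ => MvPolynomial (Fin (n + 2)) R)
    (X (Fin.last (n + 1)) ^ (e + q' + r) + X (Fin.castSucc (0 : Fin (n + 1))) ^ (e + q' + r)
      - X (Fin.castSucc (0 : Fin (n + 1))) ^ (e + r) * X (Fin.last (n + 1)) ^ q')
    (fun i : Fin (n + 1) => C π * X (Fin.last (n + 1)) ^ (e + q' + r)
      + X (Fin.castSucc (i + 1)) ^ e * (X (Fin.castSucc (i + 1)) ^ q' - X (Fin.last (n + 1)) ^ q')
        * (X (Fin.castSucc (i + 1)) - X (Fin.last (n + 1))) ^ r)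

theorem ccA_last (π : R) (q' e r n : ℕ) : ccA π q' e r n (Fin.last (n + 1)) =
    X (Fin.last (n + 1)) ^ (e + q' + r) + X (Fin.castSucc (0 : Fin (n + 1))) ^ (e + q' + r)
      - X (Fin.castSucc (0 : Fin (n + 1))) ^ (e + r) * X (Fin.last (n + 1)) ^ q' := by
  unfold ccA
  rw [Fin.lastCases_last]

theorem ccA_castSucc (π : R) (q' e r n : ℕ) (i : Fin (n + 1)) : ccA π q' e r n (Fin.castSucc i) =
    C π * X (Fin.last (n + 1)) ^ (e + q' + r)
      + X (Fin.castSucc (i + 1)) ^ e * (X (Fin.castSucc (i + 1)) ^ q' - X (Fin.last (n + 1)) ^ q')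
        * (X (Fin.castSucc (i + 1)) - X (Fin.last (n + 1))) ^ r := by
  unfold ccA
  rw [Fin.lastCases_castSucc]

theorem ccA_homog (π : R) (q' e r n : ℕ) (i : Fin (n + 2)) :
    (ccA π q' e r n i).IsHomogeneous (e + q' + r) := by
  induction i using Fin.lastCases with
  | last =>
    rw [ccA_last]
    apply IsHomogeneous.sub
    · exact (isHomogeneous_X_pow _ _).add (isHomogeneous_X_pow _ _)
    · have h := (isHomogeneous_X_pow (R := R) (Fin.castSucc (0 : Fin (n + 1))) (e + r)).mul
        (isHomogeneous_X_pow (R := R) (Fin.last (n + 1)) q')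
      have e1 : e + r + q' = e + q' + r := by ring
      rwa [e1] at h
  | cast i =>
    rw [ccA_castSucc]
    apply IsHomogeneous.add
    · exact (isHomogeneous_X_pow _ _).C_mul π
    · have h1 := isHomogeneous_X_pow (R := R) (Fin.castSucc (i + 1)) e
      have h2 : (X (Fin.castSucc (i + 1)) ^ q' - X (Fin.last (n + 1)) ^ q' : MvPolynomial (Fin (n + 2)) R).IsHomogeneous q' :=
        (isHomogeneous_X_pow _ _).sub (isHomogeneous_X_pow _ _)
      have h3 : (X (Fin.castSucc (i + 1)) - X (Fin.last (n + 1)) : MvPolynomial (Fin (n + 2)) R).IsHomogeneous 1 :=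
        (isHomogeneous_X _ _).sub (isHomogeneous_X _ _)
      have h4 := (h1.mul h2).mul (h3.pow r)
      rwa [one_mul] at h4

variable {T : Type*} [CommRing T]

theorem pev_ccA_last (φ : R →+* T) (π : R) (q' e r n : ℕ) (y : Fin (n + 2) → T) :
    pev φ (ccA π q' e r n) y (Fin.last (n + 1)) =
      y (Fin.last (n + 1)) ^ (e + q' + r) + y (Fin.castSucc (0 : Fin (n + 1))) ^ (e + q' + r)
      - y (Fin.castSucc (0 : Fin (n + 1))) ^ (e + r) * y (Fin.last (n + 1)) ^ q' := by
  unfold pev
  rw [ccA_last]
  simp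

theorem pev_ccA_castSucc (φ : R →+* T) (π : R) (q' e r n : ℕ) (y : Fin (n + 2) → T) (i : Fin (n + 1)) :
    pev φ (ccA π q' e r n) y (Fin.castSucc i) =
      φ π * y (Fin.last (n + 1)) ^ (e + q' + r)
      + y (Fin.castSucc (i + 1)) ^ e * (y (Fin.castSucc (i + 1)) ^ q' - y (Fin.last (n + 1)) ^ q')
        * (y (Fin.castSucc (i + 1)) - y (Fin.last (n + 1))) ^ r := by
  unfold pev
  rw [ccA_castSucc]
  simp


end AA

section Field

variable {R κ : Type*} [CommRing R] [Field κ]

theorem ccA_NZ (φ : R →+* κ) (π : R) (hπ : φ π = 0) (q' e r n : ℕ) (hq : 1 ≤ q') (he : 1 ≤ e) :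
    NZ φ (ccA π q' e r n) := by
  intro y hy h0
  apply hy
  have hL := congrFun h0 (Fin.last (n + 1))
  have hi := fun i : Fin (n + 1) => congrFun h0 (Fin.castSucc i)
  rw [Pi.zero_apply, pev_ccA_last] at hL
  simp only [Pi.zero_apply, pev_ccA_castSucc, hπ, zero_mul, zero_add] at hi
  have hlast : y (Fin.last (n + 1)) = 0 := by
    by_contra hne
    have h1 : ∃ i : Fin (n + 1), i + 1 = 0 := ⟨-1, by simp⟩
    obtain ⟨i, hi1⟩ := h1
    have h2 := hi i
    rw [hi1] at h2
    have h3 : y (Fin.castSucc (0 : Fin (n + 1))) = 0 ∨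
        y (Fin.castSucc (0 : Fin (n + 1))) ^ q' = y (Fin.last (n + 1)) ^ q' := by
      rcases mul_eq_zero.1 h2 with h3 | h3
      · rcases mul_eq_zero.1 h3 with h4 | h4
        · exact Or.inl (pow_eq_zero_iff (by omega) |>.1 h4)
        · exact Or.inr (sub_eq_zero.1 h4)
      · right
        have h4 : y (Fin.castSucc (0 : Fin (n + 1))) - y (Fin.last (n + 1)) = 0 := by
          by_contra h5
          exact (pow_ne_zero _ h5) h3
        rw [sub_eq_zero.1 h4]
    have h4 : y (Fin.castSucc (0 : Fin (n + 1))) ^ (e + q' + r)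
        - y (Fin.castSucc (0 : Fin (n + 1))) ^ (e + r) * y (Fin.last (n + 1)) ^ q' = 0 := by
      rcases h3 with h3 | h3
      · rw [h3, zero_pow (by omega), zero_pow (by omega)]
        ring
      · rw [← h3]
        ring
    have h5 : y (Fin.last (n + 1)) ^ (e + q' + r) = 0 := by
      linear_combination hL - h4
    exact hne (pow_eq_zero_iff (by omega) |>.1 h5)
  have hall : ∀ j : Fin (n + 1), y (Fin.castSucc j) = 0 := by
    intro j
    have h2 := hi (j - 1)
    rw [sub_add_cancel, hlast, zero_pow (by omega), sub_zero, sub_zero] at h2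
    by_contra hne
    exact (mul_ne_zero (mul_ne_zero (pow_ne_zero _ hne) (pow_ne_zero _ hne)) (pow_ne_zero _ hne)) h2
  funext j
  induction j using Fin.lastCases with
  | last => exact hlast
  | cast j => exact hall j

/-- the image of `(0, …, 0, c)` -/
theorem ccA_O (φ : R →+* κ) (π : R) (hπ : φ π = 0) (q' e r n : ℕ) (he : 1 ≤ e)
    (y : Fin (n + 2) → κ) (hy : ∀ i : Fin (n + 1), y (Fin.castSucc i) = 0) (i : Fin (n + 1)) :
    pev φ (ccA π q' e r n) y (Fin.castSucc i) = 0 := by
  rw [pev_ccA_castSucc, hπ, hy, zero_pow (by omega)]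
  ring

theorem ccA_O_iter (φ : R →+* κ) (π : R) (hπ : φ π = 0) (q' e r n : ℕ) (he : 1 ≤ e) (m : ℕ)
    (y : Fin (n + 2) → κ) (hy : ∀ i : Fin (n + 1), y (Fin.castSucc i) = 0) (i : Fin (n + 1)) :
    (pev φ (ccA π q' e r n))^[m] y (Fin.castSucc i) = 0 := by
  induction m generalizing y i with
  | zero => exact hy i
  | succ m ih =>
    rw [Function.iterate_succ_apply]
    exact ih _ (fun i => ccA_O φ π hπ q' e r n he y hy i) i

/-- an affine rational point is mapped to the point `(0 : … : 0 : 1)` -/
theorem ccA_affine (φ : R →+* κ) (π : R) (hπ : φ π = 0) (q' e r n : ℕ) (he : 1 ≤ e)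
    (y : Fin (n + 2) → κ) (hy : ∀ i, y i = 0 ∨ y i ^ q' = 1) (hL : y (Fin.last (n + 1)) ≠ 0)
    (i : Fin (n + 1)) : pev φ (ccA π q' e r n) y (Fin.castSucc i) = 0 := by
  rw [pev_ccA_castSucc, hπ, zero_mul, zero_add]
  have hL' : y (Fin.last (n + 1)) ^ q' = 1 := (hy _).resolve_left hL
  rcases hy (Fin.castSucc (i + 1)) with h | h
  · rw [h, zero_pow (by omega)]
    ring
  · rw [h, hL']
    ring

/-- all rational points reach the point `(0 : … : 0 : 1)` -/
theorem ccA_flow (φ : R →+* κ) (π : R) (hπ : φ π = 0) (q' e r n : ℕ) (hq : 1 ≤ q') (he : 1 ≤ e) (k : ℕ) :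
    ∀ (y : Fin (n + 2) → κ), (∀ i, y i = 0 ∨ y i ^ q' = 1) →
      (y (Fin.last (n + 1)) ≠ 0 ∨ ∃ j : Fin (n + 1), j.val ≤ k ∧ y (Fin.castSucc j) ≠ 0) →
      ∀ m, k + 2 ≤ m → ∀ i : Fin (n + 1), (pev φ (ccA π q' e r n))^[m] y (Fin.castSucc i) = 0 := by
  induction k with
  | zero =>
    intro y hy h m hm i
    by_cases hL : y (Fin.last (n + 1)) = 0
    · obtain ⟨j, hj, hyj⟩ := h.resolve_left (fun h => h hL)
      have hj0 : j = 0 := by
        apply Fin.ext
        simpa using hj
      subst hj0
      obtain ⟨m', rfl⟩ : ∃ m', m = m' + 1 + 1 := ⟨m - 2, by omega⟩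
      rw [Function.iterate_succ_apply, Function.iterate_succ_apply]
      apply ccA_O_iter φ π hπ q' e r n he
      intro i'
      apply ccA_affine φ π hπ q' e r n he
      · intro i''
        induction i'' using Fin.lastCases with
        | last =>
          right
          rw [pev_ccA_last, hL, zero_pow (by omega), zero_pow (by omega : q' ≠ 0), mul_zero, sub_zero, zero_add, ← pow_mul,
            mul_comm, pow_mul, (hy _).resolve_left hyj, one_pow]
        | cast i'' =>
          rw [pev_ccA_castSucc, hπ, hL, zero_mul, zero_add, zero_pow (by omega : q' ≠ 0), sub_zero, sub_zero, ← pow_add,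
            ← pow_add]
          rcases hy (Fin.castSucc (i'' + 1)) with h1 | h1
          · left
            rw [h1, zero_pow (by omega)]
          · right
            rw [← pow_mul, mul_comm, pow_mul, h1, one_pow]
      · rw [pev_ccA_last, hL, zero_pow (by omega), zero_pow (by omega : q' ≠ 0), mul_zero, sub_zero, zero_add]
        exact pow_ne_zero _ hyj
    · obtain ⟨m', rfl⟩ : ∃ m', m = m' + 1 := ⟨m - 1, by omega⟩
      rw [Function.iterate_succ_apply]
      apply ccA_O_iter φ π hπ q' e r n he
      exact ccA_affine φ π hπ q' e r n he y hy hL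
  | succ k ih =>
    intro y hy h m hm i
    by_cases hL : y (Fin.last (n + 1)) = 0
    · obtain ⟨j, hj, hyj⟩ := h.resolve_left (fun h => h hL)
      obtain ⟨m', rfl⟩ : ∃ m', m = m' + 1 := ⟨m - 1, by omega⟩
      rw [Function.iterate_succ_apply]
      apply ih _ _ _ m' (by omega)
      · intro i''
        induction i'' using Fin.lastCases with
        | last =>
          rw [pev_ccA_last, hL, zero_pow (by omega), zero_pow (by omega : q' ≠ 0), mul_zero, sub_zero, zero_add]
          rcases hy (Fin.castSucc 0) with h1 | h1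
          · left
            rw [h1, zero_pow (by omega)]
          · right
            rw [← pow_mul, mul_comm, pow_mul, h1, one_pow]
        | cast i'' =>
          rw [pev_ccA_castSucc, hπ, hL, zero_mul, zero_add, zero_pow (by omega : q' ≠ 0), sub_zero, sub_zero, ← pow_add,
            ← pow_add]
          rcases hy (Fin.castSucc (i'' + 1)) with h1 | h1
          · left
            rw [h1, zero_pow (by omega)]
          · right
            rw [← pow_mul, mul_comm, pow_mul, h1, one_pow]
      · by_cases h0 : y (Fin.castSucc (0 : Fin (n + 1))) = 0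
        · right
          have hj0 : j ≠ 0 := by
            rintro rfl
            exact hyj h0
          refine ⟨j - 1, ?_, ?_⟩
          · have h1 : (j - 1).val = j.val - 1 := by
              rw [Fin.val_sub_one_of_ne_zero hj0]
            omega
          · rw [pev_ccA_castSucc, sub_add_cancel, hπ, hL, zero_mul, zero_add, zero_pow (by omega : q' ≠ 0), sub_zero,
              sub_zero, ← pow_add, ← pow_add]
            exact pow_ne_zero _ hyj
        · left
          rw [pev_ccA_last, hL, zero_pow (by omega), zero_pow (by omega : q' ≠ 0), mul_zero, sub_zero, zero_add]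
          exact pow_ne_zero _ h0
    · obtain ⟨m', rfl⟩ : ∃ m', m = m' + 1 := ⟨m - 1, by omega⟩
      rw [Function.iterate_succ_apply]
      apply ccA_O_iter φ π hπ q' e r n he
      exact ccA_affine φ π hπ q' e r n he y hy hL

/-- all nonzero rational vectors reach the line of `(0, …, 0, 1)` -/
theorem ccA_flow' (φ : R →+* κ) (π : R) (hπ : φ π = 0) (q' e r n : ℕ) (hq : 1 ≤ q') (he : 1 ≤ e)
    (y : Fin (n + 2) → κ) (hy : ∀ i, y i = 0 ∨ y i ^ q' = 1) (hy0 : y ≠ 0) (m : ℕ) (hm : n + 2 ≤ m)
    (i : Fin (n + 1)) : (pev φ (ccA π q' e r n))^[m] y (Fin.castSucc i) = 0 := by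
  apply ccA_flow φ π hπ q' e r n hq he n y hy _ m hm i
  by_cases hL : y (Fin.last (n + 1)) = 0
  · right
    obtain ⟨j, hj⟩ := Function.ne_iff.1 hy0
    rw [Pi.zero_apply] at hj
    induction j using Fin.lastCases with
    | last => exact absurd hL hj
    | cast j => exact ⟨j, by omega, hj⟩
  · exact Or.inl hL

end Field

end Pool.Agent.Lib.MP_df4dfc_nt
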