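import Mathlib

/-!
# A local map with a superattracting point: valuations of preimages, uniqueness, contraction
-/

set_option autoImplicit false
set_option linter.unusedSectionVars false
set_option linter.style.haveILetI false
set_option linter.unusedVariables false

namespace Pool.Agent.Lib.MP_df4dfc_nt

section Val

variable {L Γ : Type*} [Field L] [LinearOrderedCommGroupWithZero Γ] (v : Valuation L Γ)

theorem v_eval₂_le {ι R : Type*} [CommRing R] (φ : R →+* L) (p : MvPolynomial ι R) (C : Γ)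
    (hC : ∀ m, v (φ (MvPolynomial.coeff m p)) ≤ C) (x : ι → L) (hx : ∀ i, v (x i) ≤ 1) :
    v (MvPolynomial.eval₂ φ x p) ≤ C := by
  rw [MvPolynomial.eval₂_eq]
  apply v.map_sum_le
  intro m hm
  rw [map_mul]
  have h1 : v (∏ i ∈ m.support, x i ^ m i) ≤ 1 := by
    rw [map_prod]
    apply Finset.prod_le_one'
    intro i _
    rw [map_pow]
    exact pow_le_one' (hx i) _
  calc v (φ (MvPolynomial.coeff m p)) * v (∏ i ∈ m.support, x i ^ m i) ≤ C * 1 := mul_le_mul' (hC m) h1
    _ = C := mul_one C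

theorem v_mul_sub {a b a' b' : L} {A B δ : Γ} (ha : v a ≤ A) (hb : v b' ≤ B) (h1 : v (a - a') ≤ δ)
    {δ' : Γ} (h2 : v (b - b') ≤ δ') {C : Γ} (hC1 : A * δ' ≤ C) (hC2 : δ * B ≤ C) :
    v (a * b - a' * b') ≤ C := by
  have h3 : a * b - a' * b' = a * (b - b') + (a - a') * b' := by ring
  rw [h3]
  apply v.map_add_le
  · rw [map_mul]
    exact (mul_le_mul' ha h2).trans hC1
  · rw [map_mul]
    exact (mul_le_mul' h1 hb).trans hC2

theorem v_pow_sub {a b : L} {A δ : Γ} (ha : v a ≤ A) (hb : v b ≤ A) (h : v (a - b) ≤ δ) (k : ℕ) :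
    v (a ^ (k + 1) - b ^ (k + 1)) ≤ A ^ k * δ := by
  induction k with
  | zero => simpa using h
  | succ k ih =>
    have h3 : a ^ (k + 1 + 1) - b ^ (k + 1 + 1) = a * (a ^ (k + 1) - b ^ (k + 1)) + (a - b) * b ^ (k + 1) := by ring
    rw [h3]
    apply v.map_add_le
    · rw [map_mul]
      calc v a * v (a ^ (k + 1) - b ^ (k + 1)) ≤ A * (A ^ k * δ) := mul_le_mul' ha ih
        _ = A ^ (k + 1) * δ := by rw [← mul_assoc, pow_succ']
    · rw [map_mul, map_pow]
      calc v (a - b) * v b ^ (k + 1) ≤ δ * A ^ (k + 1) := mul_le_mul' h (pow_le_pow_left' hb _)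
        _ = A ^ (k + 1) * δ := mul_comm _ _

theorem v_pow_sub' {a b : L} {A δ : Γ} (hA : A ≤ 1) (ha : v a ≤ A) (hb : v b ≤ A) (h : v (a - b) ≤ δ) (k j : ℕ)
    (hk : j < k) : v (a ^ k - b ^ k) ≤ A ^ j * δ := by
  obtain ⟨k', rfl⟩ : ∃ k', k = k' + 1 := ⟨k - 1, by omega⟩
  refine (v_pow_sub v ha hb h k').trans ?_
  apply mul_le_mul_left
  exact pow_le_pow_right_of_le_one' hA (by omega)

theorem v_pow_sub_one {a b : L} {δ : Γ} (ha : v a ≤ 1) (hb : v b ≤ 1) (h : v (a - b) ≤ δ) (k : ℕ) :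
    v (a ^ k - b ^ k) ≤ δ := by
  rcases Nat.eq_zero_or_pos k with rfl | hk
  · simp
  · have := v_pow_sub' v le_rfl ha hb h k 0 hk
    simpa using this

theorem v_prod_sub {ι : Type*} [DecidableEq ι] (s : Finset ι) (a b : ι → L) {δ : Γ} (ha : ∀ i, v (a i) ≤ 1) (hb : ∀ i, v (b i) ≤ 1)
    (h : ∀ i, v (a i - b i) ≤ δ) : v (∏ i ∈ s, a i - ∏ i ∈ s, b i) ≤ δ := by
  induction s using Finset.induction_on with
  | empty => simp
  | insert i s hi ih =>
    rw [Finset.prod_insert hi, Finset.prod_insert hi]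
    have h1 : v (∏ i ∈ s, b i) ≤ 1 := by
      rw [map_prod]
      exact Finset.prod_le_one' fun i _ => hb i
    exact v_mul_sub v (ha i) h1 (h i) ih (by rw [one_mul]) (by rw [mul_one])

theorem v_eval₂_sub_le {ι R : Type*} [CommRing R] (φ : R →+* L) (p : MvPolynomial ι R) (C δ : Γ)
    (hC : ∀ m, v (φ (MvPolynomial.coeff m p)) ≤ C) (x y : ι → L) (hx : ∀ i, v (x i) ≤ 1) (hy : ∀ i, v (y i) ≤ 1)
    (h : ∀ i, v (x i - y i) ≤ δ) :
    v (MvPolynomial.eval₂ φ x p - MvPolynomial.eval₂ φ y p) ≤ C * δ := by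
  classical
  rw [MvPolynomial.eval₂_eq, MvPolynomial.eval₂_eq, ← Finset.sum_sub_distrib]
  apply v.map_sum_le
  intro m hm
  rw [← mul_sub, map_mul]
  apply mul_le_mul' (hC m)
  apply v_prod_sub v
  · intro i
    rw [map_pow]
    exact pow_le_one' (hx i) _
  · intro i
    rw [map_pow]
    exact pow_le_one' (hy i) _
  · intro i
    exact v_pow_sub_one v (hx i) (hy i) (h i) _

theorem v_one_of {a : L} (h : v (a - 1) < 1) : v a = 1 := by
  have h1 : v (1 + (a - 1)) = v 1 := by
    apply v.map_add_eq_of_lt_left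
    rw [map_one]
    exact h
  rw [add_sub_cancel, map_one] at h1
  exact h1

theorem v_mul_one_of {a b : L} (ha : v (a - 1) < 1) (hb : v (b - 1) < 1) : v (a * b - 1) < 1 := by
  have h1 : a * b - 1 = (a - 1) * b + (b - 1) := by ring
  rw [h1]
  apply v.map_add_lt
  · rw [map_mul, v_one_of v hb, mul_one]
    exact ha
  · exact hb

theorem v_pow_one_of {a : L} (ha : v (a - 1) < 1) (k : ℕ) : v (a ^ k - 1) < 1 := by
  induction k with
  | zero => simp
  | succ k ih =>
    rw [pow_succ]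
    exact v_mul_one_of v ih ha

/-- the exact valuation of the difference of two powers -/
theorem v_pow_sub_eq {a b π : L} (hπ : π ≠ 0) (ha : v (a - π) < v π) (hb : v (b - π) < v π) (k : ℕ)
    (hk : v ((k + 1 : ℕ) : L) = 1) : v (a ^ (k + 1) - b ^ (k + 1)) = v π ^ k * v (a - b) := by
  have hθ : v π ≠ 0 := (Valuation.ne_zero_iff v).2 hπ
  have key : ∀ c : L, v (c - π) < v π → v (c / π - 1) < 1 := by
    intro c hc
    have h1 : c / π - 1 = (c - π) / π := by
      field_simp
    rw [h1, map_div₀]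
    rw [div_lt_one₀ (zero_lt_iff.2 hθ)]
    exact hc
  have ha' := key a ha
  have hb' := key b hb
  have h1 : a ^ (k + 1) - b ^ (k + 1) = π ^ k * (∑ i ∈ Finset.range (k + 1), (a / π) ^ i * (b / π) ^ (k - i)) * (a - b) := by
    have h2 := (Commute.all a b).geom_sum₂_mul (k + 1)
    rw [← h2]
    congr 1
    rw [Finset.mul_sum]
    apply Finset.sum_congr rfl
    intro i hi
    rw [Finset.mem_range] at hi
    have h3 : k + 1 - 1 - i = k - i := by omega
    rw [h3, div_pow, div_pow]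
    have h4 : π ^ k = π ^ i * π ^ (k - i) := by
      rw [← pow_add]
      congr 1
      omega
    rw [h4]
    field_simp
  have h5 : v (∑ i ∈ Finset.range (k + 1), (a / π) ^ i * (b / π) ^ (k - i)) = 1 := by
    have h6 : v ((∑ i ∈ Finset.range (k + 1), (a / π) ^ i * (b / π) ^ (k - i)) - ((k + 1 : ℕ) : L)) < 1 := by
      have h7 : ((k + 1 : ℕ) : L) = ∑ i ∈ Finset.range (k + 1), (1 : L) := by simp
      rw [h7, ← Finset.sum_sub_distrib]
      apply v.map_sum_lt one_ne_zero
      intro i _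
      exact v_mul_one_of v (v_pow_one_of v ha' i) (v_pow_one_of v hb' _)
    have h8 := v.map_add_eq_of_lt_left (x := ((k + 1 : ℕ) : L)) (y := (∑ i ∈ Finset.range (k + 1), (a / π) ^ i * (b / π) ^ (k - i)) - ((k + 1 : ℕ) : L))
      (by rw [hk]; exact h6)
    rw [add_sub_cancel, hk] at h8
    exact h8
  rw [h1, map_mul, map_mul, map_pow, h5, mul_one]

end Val

section Local

variable {L Γ : Type*} [Field L] [LinearOrderedCommGroupWithZero Γ] (v : Valuation L Γ)
variable (π : L) (q' e r n : ℕ) (HH : Fin (n + 2) → (Fin (n + 1) → L) → L)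

/-- numerators of the local map -/
def lnum (x : Fin (n + 1) → L) (i : Fin (n + 1)) : L :=
  π + x (i + 1) ^ e * ((x (i + 1) ^ q' - 1) * (x (i + 1) - 1) ^ r) + HH (Fin.castSucc i) x

/-- denominator of the local map -/
def lden (x : Fin (n + 1) → L) : L :=
  1 + (x 0 ^ (e + q' + r) - x 0 ^ (e + r)) + HH (Fin.last (n + 1)) x

/-- the local map -/
def lmap (x : Fin (n + 1) → L) (i : Fin (n + 1)) : L := lnum π q' e r n HH x i / lden q' e r n HH x

/-- the error terms are small and contracting -/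
structure SmallErr : Prop where
  pos : v π ≠ 0
  lt : v π < 1
  val : ∀ i x, (∀ j, v (x j) ≤ 1) → v (HH i x) ≤ v π ^ (e + 1)
  lip : ∀ i x x' (δ : Γ), (∀ j, v (x j) ≤ 1) → (∀ j, v (x' j) ≤ 1) → (∀ j, v (x j - x' j) ≤ δ) →
    v (HH i x - HH i x') ≤ v π ^ (e + 1) * δ

variable {v π q' e r n HH}

theorem SmallErr.ne (h : SmallErr v π e n HH) : π ≠ 0 := (Valuation.ne_zero_iff v).1 h.pos

theorem SmallErr.pow_lt_one (h : SmallErr v π e n HH) {k : ℕ} (hk : k ≠ 0) : v π ^ k < 1 :=
  pow_lt_one' h.lt hk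

/-- the unit factor -/
theorem v_R {t : L} (ht : v t < 1) (hq : 1 ≤ q') (r : ℕ) : v ((t ^ q' - 1) * (t - 1) ^ r) = 1 := by
  have h1 : v (t ^ q' - 1) = 1 := by
    rw [v.map_sub_swap]
    have : v (1 - t ^ q') = v (1 : L) := by
      apply v.map_sub_eq_of_lt_left
      rw [map_one, map_pow]
      exact pow_lt_one' ht (by omega)
    rw [this, map_one]
  have h2 : v (t - 1) = 1 := by
    rw [v.map_sub_swap]
    have : v (1 - t) = v (1 : L) := by
      apply v.map_sub_eq_of_lt_left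
      rw [map_one]
      exact ht
    rw [this, map_one]
  rw [map_mul, map_pow, h1, h2, one_pow, mul_one]

theorem v_g {t : L} (ht : v t ≤ 1) (q' e r : ℕ) : v (t ^ (e + q' + r) - t ^ (e + r)) ≤ v t ^ e := by
  have h1 : t ^ (e + q' + r) - t ^ (e + r) = t ^ e * (t ^ (q' + r) - t ^ r) := by
    rw [mul_sub, ← pow_add, ← pow_add]
    congr 2
    ring
  rw [h1, map_mul, map_pow]
  calc v t ^ e * v (t ^ (q' + r) - t ^ r) ≤ v t ^ e * 1 := by
        apply mul_le_mul_right
        apply v.map_sub_le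
        · rw [map_pow]; exact pow_le_one' ht _
        · rw [map_pow]; exact pow_le_one' ht _
    _ = v t ^ e := mul_one _

/-- the denominator is a unit -/
theorem v_lden (h : SmallErr v π e n HH) (he : 1 ≤ e) (x : Fin (n + 1) → L) (hx : ∀ j, v (x j) < 1) :
    v (lden q' e r n HH x) = 1 := by
  apply v_one_of
  unfold lden
  have h1 : 1 + (x 0 ^ (e + q' + r) - x 0 ^ (e + r)) + HH (Fin.last (n + 1)) x - 1
      = (x 0 ^ (e + q' + r) - x 0 ^ (e + r)) + HH (Fin.last (n + 1)) x := by ring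
  rw [h1]
  apply v.map_add_lt
  · exact (v_g (hx 0).le q' e r).trans_lt (pow_lt_one' (hx 0) (by omega))
  · exact (h.val _ x (fun j => (hx j).le)).trans_lt (h.pow_lt_one (by omega))

/-- the fundamental identity -/
theorem lmap_identity (h : SmallErr v π e n HH) (he : 1 ≤ e) (x : Fin (n + 1) → L) (hx : ∀ j, v (x j) < 1)
    (i : Fin (n + 1)) :
    x (i + 1) ^ e * ((x (i + 1) ^ q' - 1) * (x (i + 1) - 1) ^ r)
      = (lmap π q' e r n HH x i - π) * lden q' e r n HH x
        - (HH (Fin.castSucc i) x - π * (x 0 ^ (e + q' + r) - x 0 ^ (e + r)) - π * HH (Fin.last (n + 1)) x) := by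
  have h0 : lden q' e r n HH x ≠ 0 := by
    intro h0
    have h1 := v_lden (q' := q') (r := r) h he x hx
    rw [h0, map_zero] at h1
    exact zero_ne_one h1
  have h2 : (lmap π q' e r n HH x i - π) * lden q' e r n HH x = lnum π q' e r n HH x i - π * lden q' e r n HH x := by
    unfold lmap
    rw [sub_mul, div_mul_cancel₀ _ h0]
  rw [h2]
  unfold lnum lden
  ring

/-- the error in the fundamental identity -/
theorem v_err (h : SmallErr v π e n HH) (x : Fin (n + 1) → L) (hx : ∀ j, v (x j) < 1) (i : Fin (n + 1))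
    (c : Γ) (h1 : v π ^ (e + 1) ≤ c) (h2 : v π * v (x 0) ^ e ≤ c) :
    v (HH (Fin.castSucc i) x - π * (x 0 ^ (e + q' + r) - x 0 ^ (e + r)) - π * HH (Fin.last (n + 1)) x) ≤ c := by
  apply v.map_sub_le
  · apply v.map_sub_le
    · exact (h.val _ x (fun j => (hx j).le)).trans h1
    · rw [map_mul]
      exact (mul_le_mul_right (v_g (hx 0).le q' e r) _).trans h2
  · rw [map_mul]
    calc v π * v (HH (Fin.last (n + 1)) x) ≤ 1 * v π ^ (e + 1) := mul_le_mul' h.lt.le (h.val _ x (fun j => (hx j).le))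
      _ = v π ^ (e + 1) := one_mul _
      _ ≤ c := h1

theorem exists_shift (n : ℕ) (j : Fin (n + 1)) : ∃ i : Fin (n + 1), i + 1 = j := ⟨j - 1, sub_add_cancel j 1⟩

/-- **preimages, upper bound** -/
theorem lmap_bound (h : SmallErr v π e n HH) (hq : 1 ≤ q') (he : 1 ≤ e) (x : Fin (n + 1) → L) (hx : ∀ j, v (x j) < 1)
    (c : Γ) (hc : v π ^ (e + 1) ≤ c) (hy : ∀ i, v (lmap π q' e r n HH x i - π) ≤ c) (j : Fin (n + 1)) :
    v (x j) ^ e ≤ c := by
  obtain ⟨j1, hj1⟩ := Finite.exists_max (fun j => v (x j))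
  obtain ⟨i1, rfl⟩ := exists_shift n j1
  refine (pow_le_pow_left' (hj1 j) e).trans ?_
  by_contra hcon
  push Not at hcon
  have hm0 : v (x (i1 + 1)) ^ e ≠ 0 := (lt_of_le_of_lt zero_le hcon).ne'
  have h1 := congrArg v (lmap_identity (q' := q') (r := r) h he x hx i1)
  rw [map_mul v (x (i1 + 1) ^ e), v_R (hx _) hq r, mul_one, map_pow] at h1
  have h2 : v π * v (x (i1 + 1)) ^ e < v (x (i1 + 1)) ^ e := by
    calc v π * v (x (i1 + 1)) ^ e < 1 * v (x (i1 + 1)) ^ e := by
          apply mul_lt_mul_of_pos_right h.lt (zero_lt_iff.2 hm0)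
      _ = v (x (i1 + 1)) ^ e := one_mul _
  have h3 : v ((lmap π q' e r n HH x i1 - π) * lden q' e r n HH x
        - (HH (Fin.castSucc i1) x - π * (x 0 ^ (e + q' + r) - x 0 ^ (e + r)) - π * HH (Fin.last (n + 1)) x))
        < v (x (i1 + 1)) ^ e := by
    apply v.map_sub_lt
    · rw [map_mul, v_lden h he x hx, mul_one]
      exact (hy i1).trans_lt hcon
    · have h4 := v_err (q' := q') (r := r) h x hx i1 (max c (v π * v (x (i1 + 1)) ^ e)) (hc.trans (le_max_left _ _))
        ((mul_le_mul_right (pow_le_pow_left' (hj1 0) e) _).trans (le_max_right _ _))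
      exact h4.trans_lt (max_lt hcon h2)
  rw [← h1] at h3
  exact lt_irrefl _ h3

/-- **preimages, exact value** -/
theorem lmap_exact (h : SmallErr v π e n HH) (hq : 1 ≤ q') (he : 1 ≤ e) (x : Fin (n + 1) → L) (hx : ∀ j, v (x j) < 1)
    (c : Γ) (hc : v π ^ (e + 1) < c) (hy : ∀ i, v (lmap π q' e r n HH x i - π) ≤ c) (i : Fin (n + 1))
    (hi : v (lmap π q' e r n HH x i - π) = c) : v (x (i + 1)) ^ e = c := by
  have hc0 : c ≠ 0 := (lt_of_le_of_lt zero_le hc).ne'
  have h0 := lmap_bound (r := r) h hq he x hx c hc.le hy 0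
  have h1 := congrArg v (lmap_identity (q' := q') (r := r) h he x hx i)
  rw [map_mul v (x (i + 1) ^ e), v_R (hx _) hq r, mul_one, map_pow] at h1
  rw [h1]
  have h2 : v ((lmap π q' e r n HH x i - π) * lden q' e r n HH x) = c := by
    rw [map_mul, v_lden h he x hx, mul_one, hi]
  have h5 : v π * c < c := by
    calc v π * c < 1 * c := mul_lt_mul_of_pos_right h.lt (zero_lt_iff.2 hc0)
      _ = c := one_mul _
  have h4 := v_err (q' := q') (r := r) h x hx i (max (v π ^ (e + 1)) (v π * c)) (le_max_left _ _)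
        ((mul_le_mul_right h0 _).trans (le_max_right _ _))
  have h6 := h4.trans_lt (max_lt hc h5)
  conv_rhs => rw [← h2]
  apply v.map_sub_eq_of_lt_left
  rw [h2]
  exact h6

/-- difference of the unit factors -/
theorem v_R_sub {t t' : L} {δ : Γ} (ht : v t ≤ 1) (ht' : v t' ≤ 1) (h : v (t - t') ≤ δ) (q' r : ℕ) :
    v ((t ^ q' - 1) * (t - 1) ^ r - (t' ^ q' - 1) * (t' - 1) ^ r) ≤ δ := by
  have e1 : ∀ {s : L}, v s ≤ 1 → v (s - 1) ≤ 1 := fun hs => v.map_sub_le hs (map_one v).le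
  refine v_mul_sub v (A := 1) (B := 1) (δ := δ) (δ' := δ) ?_ ?_ ?_ ?_ (by rw [one_mul]) (by rw [mul_one])
  · exact e1 (by rw [map_pow]; exact pow_le_one' ht _)
  · rw [map_pow]
    exact pow_le_one' (e1 ht') _
  · rw [sub_sub_sub_cancel_right]
    exact v_pow_sub_one v ht ht' h _
  · apply v_pow_sub_one v (e1 ht) (e1 ht')
    rw [sub_sub_sub_cancel_right]
    exact h

/-- numerators, size -/
theorem v_lnum (h : SmallErr v π e n HH) (he : 1 ≤ e) (x : Fin (n + 1) → L) (hx : ∀ j, v (x j) ≤ v π) (i : Fin (n + 1)) :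
    v (lnum π q' e r n HH x i) ≤ v π := by
  have hx1 : ∀ j, v (x j) ≤ 1 := fun j => (hx j).trans h.lt.le
  unfold lnum
  apply v.map_add_le
  · apply v.map_add_le le_rfl
    rw [map_mul, map_mul, map_pow, map_pow]
    have e1 : ∀ {s : L}, v s ≤ 1 → v (s - 1) ≤ 1 := fun hs => v.map_sub_le hs (map_one v).le
    calc v (x (i + 1)) ^ e * (v (x (i + 1) ^ q' - 1) * v (x (i + 1) - 1) ^ r) ≤ v π ^ 1 * (1 * 1) := by
          apply mul_le_mul'
          · refine (pow_le_pow_left' (hx _) e).trans ?_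
            exact pow_le_pow_right_of_le_one' h.lt.le he
          · apply mul_le_mul'
            · exact e1 (by rw [map_pow]; exact pow_le_one' (hx1 _) _)
            · exact pow_le_one' (e1 (hx1 _)) _
      _ = v π := by rw [pow_one, mul_one, mul_one]
  · refine (h.val _ x hx1).trans ?_
    calc v π ^ (e + 1) ≤ v π ^ 1 := pow_le_pow_right_of_le_one' h.lt.le (by omega)
      _ = v π := pow_one _

/-- differences of denominators -/
theorem v_lden_sub (h : SmallErr v π e n HH) (e' : ℕ) (he : e = e' + 1) (x x' : Fin (n + 1) → L) (hx : ∀ j, v (x j) ≤ v π)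
    (hx' : ∀ j, v (x' j) ≤ v π) (δ : Γ) (hδ : ∀ j, v (x j - x' j) ≤ δ) :
    v (lden q' e r n HH x - lden q' e r n HH x') ≤ v π ^ e' * δ := by
  have hx1 : ∀ j, v (x j) ≤ 1 := fun j => (hx j).trans h.lt.le
  have hx1' : ∀ j, v (x' j) ≤ 1 := fun j => (hx' j).trans h.lt.le
  unfold lden
  have h1 : 1 + (x 0 ^ (e + q' + r) - x 0 ^ (e + r)) + HH (Fin.last (n + 1)) x
      - (1 + (x' 0 ^ (e + q' + r) - x' 0 ^ (e + r)) + HH (Fin.last (n + 1)) x')
      = (x 0 ^ (e + q' + r) - x' 0 ^ (e + q' + r)) - (x 0 ^ (e + r) - x' 0 ^ (e + r))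
        + (HH (Fin.last (n + 1)) x - HH (Fin.last (n + 1)) x') := by ring
  rw [h1]
  apply v.map_add_le
  · apply v.map_sub_le
    · exact v_pow_sub' v h.lt.le (hx 0) (hx' 0) (hδ 0) _ _ (by omega)
    · exact v_pow_sub' v h.lt.le (hx 0) (hx' 0) (hδ 0) _ _ (by omega)
  · refine (h.lip _ x x' δ hx1 hx1' hδ).trans ?_
    apply mul_le_mul_left
    exact pow_le_pow_right_of_le_one' h.lt.le (by omega)

/-- differences of numerators -/
theorem v_lnum_sub (h : SmallErr v π e n HH) (e' : ℕ) (he : e = e' + 1) (x x' : Fin (n + 1) → L) (hx : ∀ j, v (x j) ≤ v π)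
    (hx' : ∀ j, v (x' j) ≤ v π) (δ : Γ) (hδ : ∀ j, v (x j - x' j) ≤ δ) (i : Fin (n + 1)) :
    v (lnum π q' e r n HH x i - lnum π q' e r n HH x' i) ≤ v π ^ e' * δ := by
  have hx1 : ∀ j, v (x j) ≤ 1 := fun j => (hx j).trans h.lt.le
  have hx1' : ∀ j, v (x' j) ≤ 1 := fun j => (hx' j).trans h.lt.le
  unfold lnum
  have h1 : ∀ a b c d f g : L, a + b + c - (a + f + g) = (b - f) + (c - g) := by intros; ring
  rw [h1 π _ _ 0]
  apply v.map_add_le
  · refine v_mul_sub v (A := v π ^ e) (B := 1) (δ := v π ^ e' * δ) (δ' := δ) ?_ ?_ ?_ ?_ ?_ (by rw [mul_one])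
    · rw [map_pow]
      exact pow_le_pow_left' (hx _) e
    · have e1 : ∀ {s : L}, v s ≤ 1 → v (s - 1) ≤ 1 := fun hs => v.map_sub_le hs (map_one v).le
      rw [map_mul, map_pow]
      calc v (x' (i + 1) ^ q' - 1) * v (x' (i + 1) - 1) ^ r ≤ 1 * 1 := by
            apply mul_le_mul'
            · exact e1 (by rw [map_pow]; exact pow_le_one' (hx1' _) _)
            · exact pow_le_one' (e1 (hx1' _)) _
        _ = 1 := mul_one _
    · exact v_pow_sub' v h.lt.le (hx _) (hx' _) (hδ _) _ _ (by omega)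
    · exact v_R_sub (hx1 _) (hx1' _) (hδ _) q' r
    · apply mul_le_mul_left
      exact pow_le_pow_right_of_le_one' h.lt.le (by omega)
  · refine (h.lip _ x x' δ hx1 hx1' hδ).trans ?_
    apply mul_le_mul_left
    exact pow_le_pow_right_of_le_one' h.lt.le (by omega)

/-- **the ball is mapped to itself** -/
theorem lmap_ball (h : SmallErr v π e n HH) (he : 1 ≤ e) (x : Fin (n + 1) → L) (hx : ∀ j, v (x j) ≤ v π) (i : Fin (n + 1)) :
    v (lmap π q' e r n HH x i) ≤ v π := by
  unfold lmap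
  rw [map_div₀, v_lden h he x (fun j => (hx j).trans_lt h.lt), div_one]
  exact v_lnum h he x hx i

/-- **contraction on the ball** -/
theorem lmap_contract (h : SmallErr v π e n HH) (e' : ℕ) (he : e = e' + 1) (he' : 1 ≤ e') (x x' : Fin (n + 1) → L)
    (hx : ∀ j, v (x j) ≤ v π) (hx' : ∀ j, v (x' j) ≤ v π) (δ : Γ) (hδ : ∀ j, v (x j - x' j) ≤ δ) (i : Fin (n + 1)) :
    v (lmap π q' e r n HH x i - lmap π q' e r n HH x' i) ≤ v π * δ := by
  have hd := v_lden (q' := q') (r := r) h (by omega) x (fun j => (hx j).trans_lt h.lt)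
  have hd' := v_lden (q' := q') (r := r) h (by omega) x' (fun j => (hx' j).trans_lt h.lt)
  have hd0 : lden q' e r n HH x ≠ 0 := by
    intro h0
    rw [h0, map_zero] at hd
    exact zero_ne_one hd
  have hd0' : lden q' e r n HH x' ≠ 0 := by
    intro h0
    rw [h0, map_zero] at hd'
    exact zero_ne_one hd'
  unfold lmap
  rw [div_sub_div _ _ hd0 hd0', map_div₀, map_mul v (lden q' e r n HH x), hd, hd', mul_one, div_one]
  have h1 : lnum π q' e r n HH x i * lden q' e r n HH x' - lden q' e r n HH x * lnum π q' e r n HH x' i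
      = (lnum π q' e r n HH x i - lnum π q' e r n HH x' i) * lden q' e r n HH x'
        - (lden q' e r n HH x - lden q' e r n HH x') * lnum π q' e r n HH x' i := by ring
  rw [h1]
  have hle : v π ^ e' ≤ v π := by
    calc v π ^ e' ≤ v π ^ 1 := pow_le_pow_right_of_le_one' h.lt.le he'
      _ = v π := pow_one _
  apply v.map_sub_le
  · rw [map_mul, hd', mul_one]
    exact (v_lnum_sub h e' he x x' hx hx' δ hδ i).trans (mul_le_mul_left hle δ)
  · rw [map_mul]
    calc v (lden q' e r n HH x - lden q' e r n HH x') * v (lnum π q' e r n HH x' i)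
        ≤ (v π * δ) * 1 := by
          apply mul_le_mul'
          · exact (v_lden_sub h e' he x x' hx hx' δ hδ).trans (mul_le_mul_left hle δ)
          · exact (v_lnum h (by omega) x' hx' i).trans h.lt.le
      _ = v π * δ := mul_one _

/-- **uniqueness of the preimage near `(π, …, π)`** -/
theorem lmap_unique (h : SmallErr v π e n HH) (hq : 1 ≤ q') (e' : ℕ) (he : e = e' + 1) (hev : v ((e : ℕ) : L) = 1)
    (x x' : Fin (n + 1) → L)
    (hx : ∀ j, v (x j - π) < v π) (hx' : ∀ j, v (x' j - π) < v π)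
    (heq : lmap π q' e r n HH x = lmap π q' e r n HH x') : x = x' := by
  have hball : ∀ z : Fin (n + 1) → L, (∀ j, v (z j - π) < v π) → ∀ j, v (z j) = v π := by
    intro z hz j
    have h1 := v.map_add_eq_of_lt_left (x := π) (y := z j - π) (hz j)
    rwa [add_sub_cancel] at h1
  have hxb := hball x hx
  have hxb' := hball x' hx'
  obtain ⟨j1, hj1⟩ := Finite.exists_max (fun j => v (x j - x' j))
  obtain ⟨i, rfl⟩ := exists_shift n j1
  set δ := v (x (i + 1) - x' (i + 1)) with hδ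
  by_cases hδ0 : δ = 0
  · funext j
    have h1 : v (x j - x' j) ≤ 0 := by
      rw [← hδ0]
      exact hj1 j
    have h2 : v (x j - x' j) = 0 := le_antisymm h1 zero_le
    exact sub_eq_zero.1 ((Valuation.zero_iff v).1 h2)
  exfalso
  have hlt : ∀ j, v (x j) < 1 := fun j => by rw [hxb]; exact h.lt
  have hlt' : ∀ j, v (x' j) < 1 := fun j => by rw [hxb']; exact h.lt
  have hd0 : ∀ z : Fin (n + 1) → L, (∀ j, v (z j) < 1) → lden q' e r n HH z ≠ 0 := by
    intro z hz h0
    have hd := v_lden (q' := q') (r := r) h (by omega) z hz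
    rw [h0, map_zero] at hd
    exact zero_ne_one hd
  set y := lmap π q' e r n HH x i with hy
  have h1 : lnum π q' e r n HH x i = y * lden q' e r n HH x := by
    rw [hy]
    unfold lmap
    rw [div_mul_cancel₀ _ (hd0 x hlt)]
  have h1' : lnum π q' e r n HH x' i = y * lden q' e r n HH x' := by
    rw [hy, heq]
    unfold lmap
    rw [div_mul_cancel₀ _ (hd0 x' hlt')]
  have hyv : v y ≤ v π := lmap_ball h (by omega) x (fun j => (hxb j).le) i
  have h2 : (x (i + 1) ^ e - x' (i + 1) ^ e) * ((x (i + 1) ^ q' - 1) * (x (i + 1) - 1) ^ r)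
      = y * (lden q' e r n HH x - lden q' e r n HH x')
        - x' (i + 1) ^ e * ((x (i + 1) ^ q' - 1) * (x (i + 1) - 1) ^ r - (x' (i + 1) ^ q' - 1) * (x' (i + 1) - 1) ^ r)
        - (HH (Fin.castSucc i) x - HH (Fin.castSucc i) x') := by
    rw [mul_sub y, ← h1, ← h1']
    unfold lnum
    ring
  have h3 := congrArg v h2
  rw [map_mul, v_R (hlt _) hq r, mul_one] at h3
  have h4 : v (x (i + 1) ^ e - x' (i + 1) ^ e) = v π ^ e' * δ := by
    subst he
    exact v_pow_sub_eq v h.ne (hx _) (hx' _) e' hev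
  rw [h4] at h3
  have hpos : 0 < v π ^ e' * δ := zero_lt_iff.2 (mul_ne_zero (pow_ne_zero _ h.pos) hδ0)
  have hlt3 : v π * (v π ^ e' * δ) < v π ^ e' * δ := by
    calc v π * (v π ^ e' * δ) < 1 * (v π ^ e' * δ) := mul_lt_mul_of_pos_right h.lt hpos
      _ = v π ^ e' * δ := one_mul _
  have h5 : v (y * (lden q' e r n HH x - lden q' e r n HH x')
        - x' (i + 1) ^ e * ((x (i + 1) ^ q' - 1) * (x (i + 1) - 1) ^ r - (x' (i + 1) ^ q' - 1) * (x' (i + 1) - 1) ^ r)
        - (HH (Fin.castSucc i) x - HH (Fin.castSucc i) x')) ≤ v π * (v π ^ e' * δ) := by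
    apply v.map_sub_le
    · apply v.map_sub_le
      · rw [map_mul]
        exact mul_le_mul' hyv (v_lden_sub h e' he x x' (fun j => (hxb j).le) (fun j => (hxb' j).le) δ hj1)
      · rw [map_mul, map_pow, hxb']
        have h6 := v_R_sub (hlt (i + 1)).le (hlt' (i + 1)).le (le_refl δ) q' r
        calc v π ^ e * _ ≤ v π ^ e * δ := mul_le_mul_right h6 _
          _ = v π * (v π ^ e' * δ) := by rw [he, pow_succ', mul_assoc]
    · refine (h.lip _ x x' δ (fun j => (hlt j).le) (fun j => (hlt' j).le) hj1).trans ?_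
      calc v π ^ (e + 1) * δ ≤ v π ^ e * δ := by
            apply mul_le_mul_left
            exact pow_le_pow_right_of_le_one' h.lt.le (by omega)
        _ = v π * (v π ^ e' * δ) := by rw [he, pow_succ', mul_assoc]
  rw [← h3] at h5
  exact absurd h5 (not_le.2 hlt3)

end Local

end Pool.Agent.Lib.MP_df4dfc_nt
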