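import Mathlib
import Pool.Agent.Lib.MP_df4dfc_nt.Cc2

/-!
# Backward orbits fixed by a tame inertia element
-/

set_option autoImplicit false
set_option linter.unusedSectionVars false
set_option linter.style.haveILetI false
set_option linter.unusedVariables false

namespace Pool.Agent.Lib.MP_df4dfc_nt

section Dyn

variable {L Γ : Type*} [Field L] [LinearOrderedCommGroupWithZero Γ] {v : Valuation L Γ}
variable {π : L} {q' e r n : ℕ} {HH : Fin (n + 2) → (Fin (n + 1) → L) → L}

/-- the open ball is mapped to itself -/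
theorem lmap_open (h : SmallErr v π e n HH) (he : 1 ≤ e) (x : Fin (n + 1) → L) (hx : ∀ j, v (x j) < 1)
    (i : Fin (n + 1)) : v (lmap π q' e r n HH x i) < 1 := by
  unfold lmap
  rw [map_div₀, v_lden h he x hx, div_one]
  unfold lnum
  apply v.map_add_lt
  · apply v.map_add_lt h.lt
    rw [map_mul, map_pow]
    have e1 : ∀ {s : L}, v s ≤ 1 → v (s - 1) ≤ 1 := fun hs => v.map_sub_le hs (map_one v).le
    have h1 : v ((x (i + 1) ^ q' - 1) * (x (i + 1) - 1) ^ r) ≤ 1 := by
      rw [map_mul, map_pow]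
      calc v (x (i + 1) ^ q' - 1) * v (x (i + 1) - 1) ^ r ≤ 1 * 1 := by
            apply mul_le_mul'
            · exact e1 (by rw [map_pow]; exact pow_le_one' (hx _).le _)
            · exact pow_le_one' (e1 (hx _).le) _
        _ = 1 := mul_one _
    calc v (x (i + 1)) ^ e * v ((x (i + 1) ^ q' - 1) * (x (i + 1) - 1) ^ r) ≤ v (x (i + 1)) ^ e * 1 :=
          mul_le_mul_right h1 _
      _ = v (x (i + 1)) ^ e := mul_one _
      _ < 1 := pow_lt_one' (hx _) (by omega)
  · exact (h.val _ x (fun j => (hx j).le)).trans_lt (h.pow_lt_one (by omega))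

theorem lmap_open_iter (h : SmallErr v π e n HH) (he : 1 ≤ e) (m : ℕ) (x : Fin (n + 1) → L) (hx : ∀ j, v (x j) < 1)
    (i : Fin (n + 1)) : v ((lmap π q' e r n HH)^[m] x i) < 1 := by
  induction m generalizing x i with
  | zero => exact hx i
  | succ m ih =>
    rw [Function.iterate_succ_apply]
    exact ih _ (fun j => lmap_open h he x hx j) i

/-- compatibility of the group with the local map -/
structure Compat (v : Valuation L Γ) (π : L) (n : ℕ) (HH : Fin (n + 2) → (Fin (n + 1) → L) → L)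
    (I : Set (L →+* L)) : Prop where
  isom : ∀ τ ∈ I, ∀ a, v (τ a) = v a
  base : ∀ τ ∈ I, τ π = π
  err : ∀ τ ∈ I, ∀ i x, τ (HH i x) = HH i (fun j => τ (x j))

theorem Compat.lmap {I : Set (L →+* L)} (hI : Compat v π n HH I) {τ : L →+* L} (hτ : τ ∈ I) (x : Fin (n + 1) → L) :
    (fun i => τ (lmap π q' e r n HH x i)) = Pool.Agent.Lib.MP_df4dfc_nt.lmap π q' e r n HH (fun j => τ (x j)) := by
  funext i
  unfold Pool.Agent.Lib.MP_df4dfc_nt.lmap lnum lden
  rw [map_div₀]
  simp only [map_add, map_sub, map_mul, map_pow, map_one, hI.base τ hτ, hI.err τ hτ]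

theorem pow_le_imp {Γ : Type*} [LinearOrderedCommGroupWithZero Γ] {a b : Γ} {e : ℕ} (he : e ≠ 0) (h : a ^ e ≤ b ^ e) : a ≤ b := by
  by_contra hcon
  push Not at hcon
  exact absurd h (not_le.2 (pow_lt_pow_left₀ hcon zero_le he))

/-- **the inductive step** -/
theorem dyn_step (h : SmallErr v π e n HH) (hq : 1 ≤ q') (he : 2 ≤ e) (hev : v ((e : ℕ) : L) = 1)
    {I : Set (L →+* L)} (hI : Compat v π n HH I) {ρ : L →+* L} (hρ : ρ ∈ I)
    (hK : ∀ t, ρ t = t → ∀ k : ℕ, ¬ e ∣ k → v t ^ e ≠ v π ^ k)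
    (hV : ∀ a, a ≠ 0 → (∀ τ ∈ I, τ a = a) → v a < 1 → ∃ k : ℕ, 1 ≤ k ∧ v a = v π ^ k)
    (w : Fin (n + 1) → L) (hw : ∀ j, v (w j) < 1) (hwρ : ∀ j, ρ (w j) = w j)
    (hyI : ∀ τ ∈ I, ∀ j, τ (lmap π q' e r n HH (lmap π q' e r n HH w) j) = lmap π q' e r n HH (lmap π q' e r n HH w) j) :
    (∀ j, v (lmap π q' e r n HH w j) ≤ v π) ∧ ∀ τ ∈ I, ∀ j, τ (lmap π q' e r n HH w j) = lmap π q' e r n HH w j := by
  set x := lmap π q' e r n HH w with hx
  have hx1 : ∀ j, v (x j) < 1 := fun j => lmap_open h (by omega) w hw j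
  have hxρ : ∀ j, ρ (x j) = x j := by
    intro j
    have h1 := congrFun (hI.lmap (q' := q') (e := e) (r := r) hρ w) j
    have h2 : (fun j => ρ (w j)) = w := funext hwρ
    rw [h2] at h1
    exact h1
  set y := lmap π q' e r n HH x with hy
  have hy1 : ∀ j, v (y j) < 1 := fun j => lmap_open h (by omega) x hx1 j
  -- (b)
  have hball : ∀ j, v (x j) ≤ v π := by
    obtain ⟨i0, hi0⟩ := Finite.exists_max (fun i => v (y i - π))
    by_cases hc : v (y i0 - π) ≤ v π ^ (e + 1)
    · intro j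
      have h1 := lmap_bound (r := r) h hq (by omega) x hx1 (v π ^ (e + 1)) le_rfl (fun i => (hi0 i).trans hc) j
      apply pow_le_imp (e := e) (by omega)
      exact h1.trans (pow_le_pow_right_of_le_one' h.lt.le (by omega))
    · push Not at hc
      have hne : y i0 - π ≠ 0 := by
        intro h0
        rw [h0, map_zero] at hc
        exact not_lt.2 zero_le hc
      have hlt : v (y i0 - π) < 1 := v.map_sub_lt (hy1 i0) h.lt
      obtain ⟨k, hk1, hk⟩ := hV (y i0 - π) hne (by
        intro τ hτ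
        rw [map_sub, hyI τ hτ, hI.base τ hτ]) hlt
      have hke : k ≤ e := by
        by_contra hcon
        rw [hk] at hc
        exact absurd (pow_le_pow_right_of_le_one' h.lt.le (by omega : e + 1 ≤ k)) (not_le.2 hc)
      have h1 := lmap_exact (r := r) h hq (by omega) x hx1 (v (y i0 - π)) hc hi0 i0 rfl
      have hdvd : e ∣ k := by
        by_contra hcon
        exact hK (x (i0 + 1)) (hxρ _) k hcon (h1.trans hk)
      have hkeq : k = e := le_antisymm hke (Nat.le_of_dvd (by omega) hdvd)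
      intro j
      have h2 := lmap_bound (r := r) h hq (by omega) x hx1 (v (y i0 - π)) hc.le hi0 j
      rw [hk, hkeq] at h2
      exact pow_le_imp (e := e) (by omega) h2
  -- (c)
  have hclose : ∀ i, v (x i - π) < v π := by
    intro i0
    by_contra hcon
    push Not at hcon
    have hle : ∀ i, v (x i - π) ≤ v π := fun i => v.map_sub_le (hball i) le_rfl
    have heq : v (x i0 - π) = v π := le_antisymm (hle i0) hcon
    have h1 := lmap_exact (r := r) h hq (by omega) w hw (v π) (by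
      calc v π ^ (e + 1) < v π ^ 1 := pow_lt_pow_right_of_lt_one₀ (zero_lt_iff.2 h.pos) h.lt (by omega)
        _ = v π := pow_one _) hle i0 heq
    apply hK (w (i0 + 1)) (hwρ _) 1
    · intro hd
      have := Nat.le_of_dvd one_pos hd
      omega
    · rw [h1, pow_one]
  refine ⟨hball, ?_⟩
  -- (d)
  intro τ hτ
  have h1 : (fun j => τ (x j)) = x := by
    apply lmap_unique (q' := q') (r := r) h hq (e - 1) (by omega) hev _ _ _ hclose
    · rw [← hI.lmap (q' := q') (e := e) (r := r) hτ x]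
      funext j
      exact hyI τ hτ j
    · intro j
      have h2 : τ (x j) - π = τ (x j - π) := by rw [map_sub, hI.base τ hτ]
      rw [h2, hI.isom τ hτ]
      exact hclose j
  intro j
  exact congrFun h1 j

/-- **descent along the backward orbit** -/
theorem dyn_descend (h : SmallErr v π e n HH) (hq : 1 ≤ q') (he : 2 ≤ e) (hev : v ((e : ℕ) : L) = 1)
    {I : Set (L →+* L)} (hI : Compat v π n HH I) {ρ : L →+* L} (hρ : ρ ∈ I)
    (hK : ∀ t, ρ t = t → ∀ k : ℕ, ¬ e ∣ k → v t ^ e ≠ v π ^ k)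
    (hV : ∀ a, a ≠ 0 → (∀ τ ∈ I, τ a = a) → v a < 1 → ∃ k : ℕ, 1 ≤ k ∧ v a = v π ^ k) (m : ℕ) :
    ∀ (w : Fin (n + 1) → L), (∀ j, v (w j) < 1) → (∀ j, ρ (w j) = w j) →
    (∀ τ ∈ I, ∀ j, τ ((lmap π q' e r n HH)^[m + 1] w j) = (lmap π q' e r n HH)^[m + 1] w j) →
    (∀ j, v (lmap π q' e r n HH w j) ≤ v π) ∧ ∀ τ ∈ I, ∀ j, τ (lmap π q' e r n HH w j) = lmap π q' e r n HH w j := by
  induction m with
  | zero =>
    intro w hw hwρ hfix
    refine ⟨?_, hfix⟩
    intro j
    by_cases h0 : lmap π q' e r n HH w j = 0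
    · rw [h0, map_zero]
      exact zero_le
    · obtain ⟨k, hk1, hk⟩ := hV _ h0 (fun τ hτ => hfix τ hτ j) (lmap_open h (by omega) w hw j)
      rw [hk]
      calc v π ^ k ≤ v π ^ 1 := pow_le_pow_right_of_le_one' h.lt.le hk1
        _ = v π := pow_one _
  | succ m ih =>
    intro w hw hwρ hfix
    have hx1 : ∀ j, v (lmap π q' e r n HH w j) < 1 := fun j => lmap_open h (by omega) w hw j
    have hxρ : ∀ j, ρ (lmap π q' e r n HH w j) = lmap π q' e r n HH w j := by
      intro j
      have h1 := congrFun (hI.lmap (q' := q') (e := e) (r := r) hρ w) j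
      have h2 : (fun j => ρ (w j)) = w := funext hwρ
      rw [h2] at h1
      exact h1
    have h1 := ih (lmap π q' e r n HH w) hx1 hxρ (by
      intro τ hτ j
      have := hfix τ hτ j
      rw [Function.iterate_succ_apply] at this
      exact this)
    exact dyn_step h hq he hev hI hρ hK hV w hw hwρ h1.2

/-- **contraction of the forward orbit** -/
theorem dyn_contract (h : SmallErr v π e n HH) (he : 2 ≤ e) (x : Fin (n + 1) → L) (hx : ∀ j, v (x j) ≤ v π) (m : ℕ) :
    (∀ j, v ((lmap π q' e r n HH)^[m] x j) ≤ v π) ∧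
    ∀ j, v ((lmap π q' e r n HH)^[m] x j - (lmap π q' e r n HH)^[m + 1] x j) ≤ v π ^ (m + 1) := by
  induction m with
  | zero =>
    refine ⟨hx, ?_⟩
    intro j
    rw [zero_add, pow_one]
    exact v.map_sub_le (hx j) (lmap_ball h (by omega) x hx j)
  | succ m ih =>
    have h1 : ∀ j, v ((lmap π q' e r n HH)^[m + 1] x j) ≤ v π := by
      intro j
      rw [Function.iterate_succ_apply']
      exact lmap_ball h (by omega) _ ih.1 j
    refine ⟨h1, ?_⟩
    intro j
    have h2 := lmap_contract (q' := q') (r := r) h (e - 1) (by omega) (by omega) _ _ ih.1 h1 _ ih.2 j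
    rw [← pow_succ'] at h2
    rw [Function.iterate_succ_apply' _ (m + 1), Function.iterate_succ_apply' _ m]
    rw [Function.iterate_succ_apply' _ m] at h2
    exact h2

/-- **The local theorem.** -/
theorem dyn_main (h : SmallErr v π e n HH) (hq : 1 ≤ q') (he : 2 ≤ e) (hev : v ((e : ℕ) : L) = 1)
    {I : Set (L →+* L)} (hI : Compat v π n HH I) {ρ : L →+* L} (hρ : ρ ∈ I)
    (hK : ∀ t, ρ t = t → ∀ k : ℕ, ¬ e ∣ k → v t ^ e ≠ v π ^ k)
    (hV : ∀ a, a ≠ 0 → (∀ τ ∈ I, τ a = a) → v a < 1 → ∃ k : ℕ, 1 ≤ k ∧ v a = v π ^ k) (m : ℕ)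
    (w : Fin (n + 1) → L) (hw : ∀ j, v (w j) < 1) (hwρ : ∀ j, ρ (w j) = w j)
    (hfix : ∀ τ ∈ I, ∀ j, τ ((lmap π q' e r n HH)^[m + 1] w j) = (lmap π q' e r n HH)^[m + 1] w j) (j : Fin (n + 1)) :
    v ((lmap π q' e r n HH)^[m + 1] w j - (lmap π q' e r n HH)^[m + 2] w j) ≤ v π ^ (m + 1) := by
  have h1 := (dyn_descend h hq he hev hI hρ hK hV m w hw hwρ hfix).1
  have h2 := (dyn_contract (q' := q') (r := r) h he _ h1 m).2 j
  rw [← Function.iterate_succ_apply, ← Function.iterate_succ_apply] at h2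
  exact h2

end Dyn

end Pool.Agent.Lib.MP_df4dfc_nt
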