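import Mathlib
import Pool.Agent.Lib.MP_df4dfc_nt.Ram1
import Pool.Agent.Lib.MP_df4dfc_nt.GaloisCrit

/-!
# Totally invariant hypersurfaces: inertia moves all iterated preimages
-/

set_option autoImplicit false
set_option linter.unusedSectionVars false
set_option linter.style.haveILetI false
set_option linter.unusedVariables false

namespace Pool.Agent.Lib.MP_df4dfc_nt

open NumberField IsDedekindDomain MvPolynomial
open scoped Pointwise

universe u

/-- the geometric sum -/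
def geo (d : ℕ) : ℕ → ℕ
  | 0 => 0
  | M + 1 => d * geo d M + 1

theorem le_geo {d : ℕ} (hd : 1 ≤ d) (M : ℕ) : M ≤ geo d M := by
  induction M with
  | zero => exact le_rfl
  | succ M ih =>
    change M + 1 ≤ d * geo d M + 1
    have : geo d M ≤ d * geo d M := Nat.le_mul_of_pos_left _ (by omega)
    omega

theorem arith_aux (ℓ d M α : ℕ) (hℓ : ℓ.Prime) (hd : ℓ ∣ d) (hα : 0 < α) (hM : α < M) :
    ℓ ∣ d ^ M / Nat.gcd (d ^ M) α ∧ ¬ ℓ ∣ α / Nat.gcd (d ^ M) α := by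
  set g := Nat.gcd (d ^ M) α with hg
  have hgpos : 0 < g := Nat.gcd_pos_of_pos_right _ hα
  obtain ⟨A, hA⟩ : g ∣ d ^ M := Nat.gcd_dvd_left _ _
  obtain ⟨B, hB⟩ : g ∣ α := Nat.gcd_dvd_right _ _
  have hA' : d ^ M / g = A := by rw [hA]; exact Nat.mul_div_cancel_left _ hgpos
  have hB' : α / g = B := by
    conv_lhs => rw [hB]
    exact Nat.mul_div_cancel_left _ hgpos
  have hcop : Nat.Coprime A B := by
    have := Nat.coprime_div_gcd_div_gcd (m := d ^ M) (n := α) hgpos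
    rw [← hg, hA', hB'] at this
    exact this
  rw [hA', hB']
  have h1 : ℓ ∣ A := by
    by_contra hcon
    have h2 : ℓ ^ M ∣ g * A := by
      rw [← hA]
      exact pow_dvd_pow_of_dvd hd M
    have h3 : Nat.Coprime (ℓ ^ M) A := Nat.Coprime.pow_left M ((Nat.Prime.coprime_iff_not_dvd hℓ).2 hcon)
    have h4 : ℓ ^ M ∣ g := h3.dvd_of_dvd_mul_right h2
    have h5 : ℓ ^ M ∣ α := h4.trans ⟨B, hB⟩
    have h6 : ℓ ^ M ≤ α := Nat.le_of_dvd hα h5
    have h7 : M < ℓ ^ M := Nat.lt_pow_self hℓ.one_lt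
    omega
  refine ⟨h1, ?_⟩
  intro h2
  have h3 : ℓ ∣ Nat.gcd A B := Nat.dvd_gcd h1 h2
  rw [hcop] at h3
  exact hℓ.one_lt.ne' (Nat.dvd_one.1 h3)

section Poly

variable {ι : Type*} [Fintype ι]
variable {K L : Type u} [Field K] [NumberField K] [Field L] [NumberField L] [Algebra K L] [IsGalois K L]

theorem od_base' (P : HeightOneSpectrum (𝓞 L)) (a : 𝓞 K) :
    od P ((algebraMap (𝓞 K) (𝓞 L) a : 𝓞 L) : L)
      = (Nat.card (P.asIdeal.inertia Gal(L/K)) : ℤ) * od (bel K L P) (a : K) :=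
  od_base P (a : K)

theorem eval_totally (G : ι → MvPolynomial ι (𝓞 K)) {d : ℕ} (w : MvPolynomial ι (𝓞 K)) (u : L)
    (h : ∀ x : ι → 𝓞 L, ((eval₂ (algebraMap (𝓞 K) (𝓞 L)) (pev (algebraMap (𝓞 K) (𝓞 L)) G x) w : 𝓞 L) : L)
      = u * ((eval₂ (algebraMap (𝓞 K) (𝓞 L)) x w : 𝓞 L) : L) ^ d) (M : ℕ) (x : ι → 𝓞 L) :
    ((eval₂ (algebraMap (𝓞 K) (𝓞 L)) ((pev (algebraMap (𝓞 K) (𝓞 L)) G)^[M] x) w : 𝓞 L) : L)
      = u ^ (geo d M) * ((eval₂ (algebraMap (𝓞 K) (𝓞 L)) x w : 𝓞 L) : L) ^ (d ^ M) := by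
  induction M with
  | zero => simp [geo]
  | succ M ih =>
    rw [Function.iterate_succ_apply', h, ih]
    change _ = u ^ (d * geo d M + 1) * _ ^ (d ^ (M + 1))
    rw [mul_pow, ← pow_mul, ← pow_mul, pow_succ, pow_succ]
    ring

theorem poly_nofix (P : HeightOneSpectrum (𝓞 L)) (σ : Gal(L/K))
    (hσ : σ ∈ P.asIdeal.inertia Gal(L/K)) (π : K) (hπ : od (bel K L P) π = 1)
    (ϖ : L) (ℓ : ℕ) (hℓ : ℓ.Prime) (hϖ : ϖ ^ ℓ = algebraMap K L π) (hmove : σ ϖ ≠ ϖ)
    (hℓP : (ℓ : 𝓞 L) ∉ P.asIdeal)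
    (G : ι → MvPolynomial ι (𝓞 K)) {d : ℕ} (hd : 1 ≤ d) (hG : ∀ i, (G i).IsHomogeneous d)
    (hℓd : ℓ ∣ d) (w : MvPolynomial ι (𝓞 K)) (δ : ℕ) (hw : w.IsHomogeneous δ) (u : K)
    (hu : 0 ≤ od (bel K L P) u)
    (hwG : ∀ x : ι → 𝓞 L, ((eval₂ (algebraMap (𝓞 K) (𝓞 L)) (pev (algebraMap (𝓞 K) (𝓞 L)) G x) w : 𝓞 L) : L)
      = algebraMap K L u * ((eval₂ (algebraMap (𝓞 K) (𝓞 L)) x w : 𝓞 L) : L) ^ d)
    (hNZP : ∀ (κ : Type u) [Field κ] (φ : 𝓞 K →+* κ), RingHom.ker φ = (bel K L P).asIdeal → NZ φ G)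
    (hNZL : NZ (algebraMap (𝓞 K) (𝓞 L)) G)
    (g : ι → 𝓞 K) (hgprim : ∃ k, g k ∉ (bel K L P).asIdeal) (hg0 : eval g w ≠ 0)
    (hgP : eval g w ∈ (bel K L P).asIdeal) (M : ℕ) (hM : od (bel K L P) (eval g w : K) < M)
    (x : ι → 𝓞 L) (hx : x ≠ 0)
    (hxg : Par ((pev (algebraMap (𝓞 K) (𝓞 L)) G)^[M] x) (fun i => algebraMap (𝓞 K) (𝓞 L) (g i))) :
    ¬ Par (fun i => σ • x i) x := by
  classical
  intro hfix
  haveI := P.isPrime
  haveI := P.isMaximal
  letI : Field (𝓞 L ⧸ P.asIdeal) := Ideal.Quotient.field _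
  set iL := algebraMap (𝓞 K) (𝓞 L) with hiL
  have hiLinj : Function.Injective iL := FaithfulSMul.algebraMap_injective (𝓞 K) (𝓞 L)
  set p := bel K L P with hp
  set e := Nat.card (P.asIdeal.inertia Gal(L/K)) with he
  have hepos : (0 : ℤ) < e := by exact_mod_cast Nat.card_pos
  -- primitive representative
  obtain ⟨x', hx'par, k, hk⟩ := exists_primitive P.asIdeal (Ideal.IsPrime.ne_top P.isPrime) x hx
  have hx'0 : x' ≠ 0 := by
    rintro rfl
    exact hk (by simp)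
  have hfix' : Par (fun i => σ • x' i) x' :=
    ((sigma_par σ hx'par).trans hfix (sigma_ne_zero σ hx)).trans hx'par.symm hx
  set z := (pev iL G)^[M] x' with hz
  have hzg : Par z (fun i => iL (g i)) := (pev_iter_par hG hNZL M hx'par hx).trans hxg (hNZL.iter M hx)
  -- z is primitive
  set φ : 𝓞 L →+* 𝓞 L ⧸ P.asIdeal := Ideal.Quotient.mk P.asIdeal with hφ
  have hker : RingHom.ker (φ.comp iL) = p.asIdeal := by
    ext r
    rw [RingHom.mem_ker, RingHom.comp_apply, hφ, Ideal.Quotient.eq_zero_iff_mem]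
    exact Iff.rfl
  have hNZφ : NZ (φ.comp iL) G := hNZP _ (φ.comp iL) hker
  obtain ⟨j, hj⟩ : ∃ j, z j ∉ P.asIdeal := by
    by_contra hcon
    push Not at hcon
    have h1 : (fun i => φ (z i)) = 0 := by
      funext i
      exact Ideal.Quotient.eq_zero_iff_mem.2 (hcon i)
    rw [hz, pev_iter_map] at h1
    refine hNZφ.iter M ?_ h1
    intro h0
    exact hk (Ideal.Quotient.eq_zero_iff_mem.1 (congrFun h0 k))
  have hzj0 : z j ≠ 0 := by
    intro h0
    rw [h0] at hj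
    exact hj P.asIdeal.zero_mem
  obtain ⟨k1, hk1⟩ := hgprim
  have hgk1 : iL (g k1) ∉ P.asIdeal := hk1
  have hgk10 : iL (g k1) ≠ 0 := by
    intro h0
    rw [h0] at hgk1
    exact hgk1 P.asIdeal.zero_mem
  set W : (ι → 𝓞 L) → 𝓞 L := fun y => eval₂ iL y w with hW
  have hWsmul : ∀ (c : 𝓞 L) (y : ι → 𝓞 L), W (c • y) = c ^ δ * W y := fun c y =>
    eval₂_smul_of_homog hw iL c y
  have hWg : W (fun i => iL (g i)) = iL (eval g w) := by
    have h1 := eval₂_comp_left iL (RingHom.id (𝓞 K)) g w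
    rw [RingHom.comp_id] at h1
    exact h1.symm
  have hgi0 : iL (eval g w) ≠ 0 := by
    intro h0
    exact hg0 ((map_eq_zero_iff iL hiLinj).1 h0)
  have E : ∀ l, W z * iL (g l) ^ δ = z l ^ δ * iL (eval g w) := by
    intro l
    have h1 : (iL (g l)) • z = (z l) • (fun i => iL (g i)) := by
      funext i
      have := hzg i l
      simp only [Pi.smul_apply, smul_eq_mul]
      rw [mul_comm, this]
    have h2 := congrArg W h1
    rw [hWsmul, hWsmul, hWg] at h2
    rw [mul_comm, h2]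
  have hzi0 : W z ≠ 0 := by
    intro h0
    have := E j
    rw [h0, zero_mul] at this
    exact (mul_ne_zero (pow_ne_zero _ hzj0) hgi0) this.symm
  have hgj0 : iL (g j) ^ δ ≠ 0 := by
    intro h0
    have := E j
    rw [h0, mul_zero] at this
    exact (mul_ne_zero (pow_ne_zero _ hzj0) hgi0) this.symm
  have hzk10 : z k1 ^ δ ≠ 0 := by
    intro h0
    have := E k1
    rw [h0, zero_mul] at this
    exact (mul_ne_zero hzi0 (pow_ne_zero _ hgk10)) this
  have cast : ∀ {a b c d' : 𝓞 L}, a ≠ 0 → b ≠ 0 → c ≠ 0 → d' ≠ 0 → a * b = c * d' →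
      od P (a : L) + od P (b : L) = od P (c : L) + od P (d' : L) := by
    intro a b c d' ha hb hc hd' h
    rw [← od_mul P (coe_ne_zero'' ha) (coe_ne_zero'' hb), ← od_mul P (coe_ne_zero'' hc) (coe_ne_zero'' hd')]
    have := congrArg (fun w : 𝓞 L => (w : L)) h
    simp only [map_mul] at this
    rw [this]
  have h1 := cast hzi0 (pow_ne_zero δ hgk10) hzk10 hgi0 (E k1)
  have h2 := cast hzi0 hgj0 (pow_ne_zero δ hzj0) hgi0 (E j)
  have h3 : od P ((z j ^ δ : 𝓞 L) : L) = 0 := by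
    have e1 : ((z j ^ δ : 𝓞 L) : L) = (z j : L) ^ δ := map_pow (algebraMap (𝓞 L) L) (z j) δ
    rw [e1, od_pow, (od_eq_zero_iff P hzj0).2 hj, mul_zero]
  have h4 : od P ((iL (g k1) ^ δ : 𝓞 L) : L) = 0 := by
    have e1 : ((iL (g k1) ^ δ : 𝓞 L) : L) = (iL (g k1) : L) ^ δ := map_pow (algebraMap (𝓞 L) L) (iL (g k1)) δ
    rw [e1, od_pow, (od_eq_zero_iff P hgk10).2 hgk1, mul_zero]
  have h5 := od_nonneg P (z k1 ^ δ)
  have h6 := od_nonneg P (iL (g j) ^ δ)
  have hod : od P (W z : L) = od P (iL (eval g w) : L) := by linarith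
  rw [od_base' (K := K) P (eval g w)] at hod
  -- the formula for the coordinate
  have hform : (W z : L) = algebraMap K L u ^ (geo d M) * (W x' : L) ^ (d ^ M) :=
    eval_totally G w (algebraMap K L u) hwG M x'
  have hMpos : 0 < M := by
    have h7 : 0 < od p (eval g w : K) := (od_pos_iff p hg0).2 hgP
    by_contra hcon
    have : M = 0 := by omega
    rw [this] at hM
    have : od p (eval g w : K) < 0 := by exact_mod_cast hM
    linarith
  have hgeo : M ≤ geo d M := le_geo hd M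
  have hWzL : (W z : L) ≠ 0 := coe_ne_zero'' hzi0
  have hu0 : algebraMap K L u ≠ 0 := by
    intro h0
    apply hWzL
    rw [hform, h0, zero_pow (by omega), zero_mul]
  have hxi0 : W x' ≠ 0 := by
    intro h0
    apply hWzL
    have h00 : ((0 : 𝓞 L) : L) = 0 := map_zero (algebraMap (𝓞 L) L)
    rw [hform, h0, h00, zero_pow (Nat.pow_pos (by omega)).ne', mul_zero]
  have hod2 : od P (W z : L) = (geo d M : ℤ) * ((e : ℤ) * od p u) + ((d ^ M : ℕ) : ℤ) * od P (W x' : L) := by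
    rw [hform, od_mul P (pow_ne_zero _ hu0) (pow_ne_zero _ (coe_ne_zero'' hxi0)), od_pow, od_pow,
      od_base P u]
  rw [hod] at hod2
  have h8 := od_nonneg P (W x')
  have h10 : od p u = 0 := by
    by_contra hne
    have h11 : 1 ≤ od p u := by
      rcases hu.lt_or_eq with h12 | h12
      · exact h12
      · exact absurd h12.symm hne
    have h12 : (M : ℤ) ≤ geo d M := by exact_mod_cast hgeo
    have h13 : (M : ℤ) * (e : ℤ) ≤ (geo d M : ℤ) * ((e : ℤ) * od p u) := by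
      have h14 : (e : ℤ) ≤ (e : ℤ) * od p u := by nlinarith
      have h15 : (0 : ℤ) ≤ geo d M := by positivity
      nlinarith [mul_le_mul h12 h14 hepos.le h15]
    have h16 : (0 : ℤ) ≤ ((d ^ M : ℕ) : ℤ) * od P (W x' : L) := by positivity
    have h17 : (e : ℤ) * od p (eval g w : K) < (e : ℤ) * M := mul_lt_mul_of_pos_left hM hepos
    linarith
  rw [h10, mul_zero, mul_zero, zero_add] at hod2
  -- the fixed element
  have hk0 : x' k ≠ 0 := by
    intro h0
    rw [h0] at hk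
    exact hk P.asIdeal.zero_mem
  have hkL : (x' k : L) ≠ 0 := coe_ne_zero'' hk0
  set t : L := (W x' : L) / (x' k : L) ^ δ with ht
  have ht0 : t ≠ 0 := div_ne_zero (coe_ne_zero'' hxi0) (pow_ne_zero _ hkL)
  have hodt : od P t = od P (W x' : L) := by
    rw [ht, od_div P (coe_ne_zero'' hxi0) (pow_ne_zero _ hkL), od_pow, (od_eq_zero_iff P hk0).2 hk, mul_zero,
      sub_zero]
  have htσ : σ t = t := by
    rw [ht, map_div₀, map_pow]
    have hσW : σ (W x' : L) = (W (fun i => σ • x' i) : L) := by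
      have h11 : σ • (W x') = W (fun i => σ • x' i) := by
        change MulSemiringAction.toRingHom Gal(L/K) (𝓞 L) σ (eval₂ iL x' w) = _
        rw [eval₂_comp_left]
        have h12 : (MulSemiringAction.toRingHom Gal(L/K) (𝓞 L) σ).comp iL = iL := by
          ext r
          exact congrArg _ (smul_algebraMap σ r)
        rw [h12]
        rfl
      rw [← h11]
      rfl
    have h13 : (x' k) • (fun i => σ • x' i) = (σ • x' k) • x' := by
      funext i
      have := hfix' i k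
      simp only [Pi.smul_apply, smul_eq_mul]
      rw [mul_comm, this]
    have h14 := congrArg W h13
    rw [hWsmul, hWsmul] at h14
    have h15 := congrArg (fun w : 𝓞 L => (w : L)) h14
    simp only [map_mul, map_pow] at h15
    have h16 : ((σ • x' k : 𝓞 L) : L) = σ (x' k : L) := rfl
    have h17 : σ (x' k : L) ≠ 0 := (map_ne_zero σ).2 hkL
    rw [hσW, div_eq_div_iff (pow_ne_zero _ h17) (pow_ne_zero _ hkL)]
    rw [← h16]
    linear_combination h15
  -- the exponents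
  set α := (od p (eval g w : K)).toNat with hα
  have hαpos' : 0 < od p (eval g w : K) := (od_pos_iff p hg0).2 hgP
  have hαcast : (α : ℤ) = od p (eval g w : K) := Int.toNat_of_nonneg hαpos'.le
  have hαpos : 0 < α := by
    have : (0 : ℤ) < α := by rw [hαcast]; exact hαpos'
    exact_mod_cast this
  have hαM : α < M := by
    have : (α : ℤ) < M := by rw [hαcast]; exact hM
    exact_mod_cast this
  obtain ⟨hA, hB⟩ := arith_aux ℓ d M α hℓ hℓd hαpos hαM
  have hπ0 : π ≠ 0 := by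
    rintro rfl
    unfold od at hπ
    simp at hπ
  refine kummer_contra P σ hσ π hπ0 ϖ ℓ hℓ hϖ hmove hℓP t ht0 htσ _ _ ?_ hA hB
  rw [od_base P π, ← hp, hπ, mul_one, hodt]
  set gg := Nat.gcd (d ^ M) α with hgg
  have hggpos : 0 < gg := Nat.gcd_pos_of_pos_right _ hαpos
  have hA2 : ((d ^ M / gg : ℕ) : ℤ) * gg = ((d ^ M : ℕ) : ℤ) := by
    exact_mod_cast Nat.div_mul_cancel (Nat.gcd_dvd_left _ _)
  have hB2 : ((α / gg : ℕ) : ℤ) * gg = (α : ℤ) := by
    exact_mod_cast Nat.div_mul_cancel (Nat.gcd_dvd_right _ _)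
  have hgg0 : (gg : ℤ) ≠ 0 := by exact_mod_cast hggpos.ne'
  apply mul_right_cancel₀ hgg0
  calc ((d ^ M / gg : ℕ) : ℤ) * od P (W x' : L) * gg
      = (((d ^ M / gg : ℕ) : ℤ) * gg) * od P (W x' : L) := by ring
    _ = ((d ^ M : ℕ) : ℤ) * od P (W x' : L) := by rw [hA2]
    _ = (e : ℤ) * α := by rw [← hod2, hαcast]
    _ = (((α / gg : ℕ) : ℤ) * gg) * (e : ℤ) := by rw [hB2]; ring
    _ = ((α / gg : ℕ) : ℤ) * (e : ℤ) * gg := by ring

end Poly

end Pool.Agent.Lib.MP_df4dfc_nt
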