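import Mathlib
import Pool.Agent.Lib.MP_df4dfc_nt.Ram2

/-!
# Totally invariant hypersurfaces: the density theorem
-/

set_option autoImplicit false
set_option linter.unusedSectionVars false
set_option linter.style.haveILetI false
set_option linter.unusedVariables false

namespace Pool.Agent.Lib.MP_df4dfc_nt

open NumberField IsDedekindDomain MvPolynomial
open scoped Pointwise

universe u

variable {K : Type u} [Field K] [NumberField K]

section Field

variable {ι : Type*} [Fintype ι]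

/-- a Galois field containing given numbers over which the points of the fibre are defined -/
theorem exists_field (G : ι → MvPolynomial ι (𝓞 K)) {d : ℕ} (hd : 1 ≤ d) (hG : ∀ i, (G i).IsHomogeneous d)
    (hNZ : NZ (algebraMap (𝓞 K) (AlgebraicClosure K)) G) (q : ι → 𝓞 K) (hq0 : q ≠ 0)
    (n : ℕ) (S : Set (AlgebraicClosure K)) (hS : S.Finite) :
    ∃ (L : IntermediateField K (AlgebraicClosure K)) (_ : NumberField L) (_ : IsGalois K L),
      S ⊆ (L : Set (AlgebraicClosure K)) ∧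
      (∀ y : ι → AlgebraicClosure K, y ≠ 0 →
        Par ((pev (algebraMap (𝓞 K) (AlgebraicClosure K)) G)^[n] y) (fun i => algebraMap (𝓞 K) (AlgebraicClosure K) (q i)) →
        ∃ x : ι → 𝓞 L, x ≠ 0 ∧ Par ((pev (algebraMap (𝓞 K) (𝓞 L)) G)^[n] x)
          (fun i => algebraMap (𝓞 K) (𝓞 L) (q i)) ∧ Par y (fun i => algebraMap (𝓞 L) (AlgebraicClosure K) (x i))) := by
  classical
  obtain ⟨L₁, hNF, hGal, X₀, hX1, hX2⟩ := exists_reps G hd hG hNZ {q} (by simpa using hq0) n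
  set T : Set (AlgebraicClosure K) := S ∪ ⋃ x ∈ X₀, Set.range (fun i => algebraMap (𝓞 L₁) (AlgebraicClosure K) (x i)) with hT
  have hTfin : T.Finite := hS.union (Set.Finite.biUnion (Finset.finite_toSet X₀) fun x _ => Set.finite_range _)
  obtain ⟨L, hL1, hL2, hL3⟩ := exists_gal T hTfin
  haveI hNFL : NumberField L := NumberField.of_module_finite K L
  refine ⟨L, hNFL, hL2, fun s hs => hL3 (Or.inl hs), ?_⟩
  intro y hy hpar
  obtain ⟨x, hx, hxy⟩ := hX2 q (Finset.mem_singleton_self _) y hy hpar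
  obtain ⟨hx0, q', hq', hxq⟩ := hX1 x hx
  rw [Finset.mem_singleton] at hq'
  subst hq'
  have hmem : ∀ i, algebraMap (𝓞 L₁) (AlgebraicClosure K) (x i) ∈ L := by
    intro i
    apply hL3
    right
    simp only [Set.mem_iUnion]
    exact ⟨x, hx, i, rfl⟩
  have hint : ∀ i, IsIntegral ℤ (⟨algebraMap (𝓞 L₁) (AlgebraicClosure K) (x i), hmem i⟩ : L) := by
    intro i
    have h1 : IsIntegral ℤ (algebraMap (𝓞 L₁) (AlgebraicClosure K) (x i)) :=
      map_isIntegral_int (algebraMap (𝓞 L₁) (AlgebraicClosure K)) (RingOfIntegers.isIntegral (x i))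
    have h2 : IsIntegral ℤ (algebraMap L (AlgebraicClosure K) (⟨algebraMap (𝓞 L₁) (AlgebraicClosure K) (x i), hmem i⟩ : L)) := h1
    exact (isIntegral_algebraMap_iff (algebraMap L (AlgebraicClosure K)).injective).1 h2
  let x' : ι → 𝓞 L := fun i => ⟨⟨algebraMap (𝓞 L₁) (AlgebraicClosure K) (x i), hmem i⟩, hint i⟩
  have hx' : ∀ i, algebraMap (𝓞 L) (AlgebraicClosure K) (x' i) = algebraMap (𝓞 L₁) (AlgebraicClosure K) (x i) := fun i => rfl
  set jL := algebraMap (𝓞 L) (AlgebraicClosure K) with hjL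
  have hjLinj : Function.Injective jL := FaithfulSMul.algebraMap_injective (𝓞 L) (AlgebraicClosure K)
  have hjL₁inj : Function.Injective (algebraMap (𝓞 L₁) (AlgebraicClosure K)) := FaithfulSMul.algebraMap_injective (𝓞 L₁) (AlgebraicClosure K)
  refine ⟨x', ?_, ?_, ?_⟩
  · intro h0
    apply hx0
    funext i
    apply hjL₁inj
    rw [← hx', h0]
    simp
  · apply Par.of_map jL hjLinj
    have h1 := hxq.map (algebraMap (𝓞 L₁) (AlgebraicClosure K))
    rw [pev_iter_map] at h1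
    rw [pev_iter_map]
    have h2 : (algebraMap (𝓞 L₁) (AlgebraicClosure K)).comp (algebraMap (𝓞 K) (𝓞 L₁)) = jL.comp (algebraMap (𝓞 K) (𝓞 L)) := by
      ext r
      rfl
    rw [h2] at h1
    exact h1
  · exact hxy

end Field

variable {N d : ℕ}

/-- Gauss' lemma for powers -/
theorem primitive_pow {σ : Type*} (𝔭 : HeightOneSpectrum (𝓞 K)) (w : MvPolynomial σ (𝓞 K))
    (hw : ∃ m, coeff m w ∉ 𝔭.asIdeal) (n : ℕ) : ∃ m, coeff m (w ^ n) ∉ 𝔭.asIdeal := by
  haveI := 𝔭.isMaximal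
  letI : Field (𝓞 K ⧸ 𝔭.asIdeal) := Ideal.Quotient.field _
  have h1 : MvPolynomial.map (redK 𝔭) w ≠ 0 := by
    obtain ⟨m, hm⟩ := hw
    intro h0
    apply hm
    have := congrArg (coeff m) h0
    rw [coeff_map, coeff_zero] at this
    exact Ideal.Quotient.eq_zero_iff_mem.1 this
  have h2 : MvPolynomial.map (redK 𝔭) (w ^ n) ≠ 0 := by
    rw [map_pow]
    exact pow_ne_zero n h1
  obtain ⟨m, hm⟩ := MvPolynomial.ne_zero_iff.1 h2
  refine ⟨m, ?_⟩
  intro h
  apply hm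
  rw [coeff_map]
  exact Ideal.Quotient.eq_zero_iff_mem.2 h

theorem coe_eval₂ {L : Type u} [Field L] [NumberField L] [Algebra K L] {ι : Type*} (x : ι → 𝓞 L)
    (p : MvPolynomial ι (𝓞 K)) :
    ((eval₂ (algebraMap (𝓞 K) (𝓞 L)) x p : 𝓞 L) : L)
      = eval₂ (algebraMap K L) (fun i => (x i : L)) (MvPolynomial.map (algebraMap (𝓞 K) K) p) := by
  rw [eval₂_map]
  have h1 := eval₂_comp_left (algebraMap (𝓞 L) L) (algebraMap (𝓞 K) (𝓞 L)) x p
  have h2 : (algebraMap (𝓞 L) L).comp (algebraMap (𝓞 K) (𝓞 L)) = (algebraMap K L).comp (algebraMap (𝓞 K) K) := by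
    ext r
    rfl
  rw [h2] at h1
  exact h1

/-- Targets that meet a totally invariant hypersurface modulo a prime. -/
theorem posDensity_of_invariant (hd : 1 ≤ d) (Φ : Morph K N d)
    (w : MvPolynomial (Fin (N + 1)) (𝓞 K)) (δ : ℕ) (hw : w.IsHomogeneous δ) (c : K)
    (hΦ : bind₁ Φ.F (MvPolynomial.map (algebraMap (𝓞 K) K) w) = C c * (MvPolynomial.map (algebraMap (𝓞 K) K) w) ^ d)
    (γ₁ γ₂ : PN K N) (H : ∀ m : ℕ, Φ.map^[m] γ₁ ≠ γ₂)
    (𝔭 : HeightOneSpectrum (𝓞 K)) (hgood : GoodReduction Φ 𝔭) (hwp : ∃ m, coeff m w ∉ 𝔭.asIdeal)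
    (ℓ : ℕ) (hℓ : ℓ.Prime) (hℓd : ℓ ∣ d) (hℓp : (ℓ : 𝓞 K) ∉ 𝔭.asIdeal)
    (x : Fin (N + 1) → 𝓞 K) (hx : IsCoord 𝔭 γ₂ x) (hx0 : eval x w ≠ 0) (hx1 : eval x w ∈ 𝔭.asIdeal) :
    PosDensity (avoidSet Φ γ₁ γ₂) := by
  classical
  obtain ⟨c', G, hc', hGc, hGood⟩ := hgood
  have hG : Model Φ c' G := ⟨hc', hGc⟩
  have hnz := nz_of_good hGood
  set wK := MvPolynomial.map (algebraMap (𝓞 K) K) w with hwK
  have hwKhom : wK.IsHomogeneous δ := hw.map _
  set u : K := c' ^ δ * c with hu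
  -- the functional equation for the model
  have hfun : MvPolynomial.map (algebraMap (𝓞 K) K) (bind₁ G w) = C u * wK ^ d := by
    have h1 : MvPolynomial.map (algebraMap (𝓞 K) K) (bind₁ G w)
        = bind₁ (fun i => MvPolynomial.map (algebraMap (𝓞 K) K) (G i)) wK := by
      rw [MvPolynomial.map_bind₁]
    have h2 : (fun i => MvPolynomial.map (algebraMap (𝓞 K) K) (G i)) = (C c' : MvPolynomial (Fin (N + 1)) K) • Φ.F := by
      funext i
      rw [hGc i]
      rfl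
    rw [h1, h2]
    have h3 : bind₁ ((C c' : MvPolynomial (Fin (N + 1)) K) • Φ.F) wK
        = (C c') ^ δ * bind₁ Φ.F wK := by
      have := eval₂_smul_of_homog hwKhom (C : K →+* MvPolynomial (Fin (N + 1)) K) (C c') Φ.F
      exact this
    rw [h3, hΦ, hu, map_mul, map_pow]
    ring
  have hwG : ∀ (L : Type u) [Field L] [NumberField L] [Algebra K L] (x : Fin (N + 1) → 𝓞 L),
      ((eval₂ (algebraMap (𝓞 K) (𝓞 L)) (pev (algebraMap (𝓞 K) (𝓞 L)) G x) w : 𝓞 L) : L)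
      = algebraMap K L u * ((eval₂ (algebraMap (𝓞 K) (𝓞 L)) x w : 𝓞 L) : L) ^ d := by
    intro L _ _ _ x
    have h1 : eval₂ (algebraMap (𝓞 K) (𝓞 L)) (pev (algebraMap (𝓞 K) (𝓞 L)) G x) w
        = eval₂ (algebraMap (𝓞 K) (𝓞 L)) x (bind₁ G w) := by
      have := eval₂Hom_bind₁ (algebraMap (𝓞 K) (𝓞 L)) x G w
      exact this.symm
    rw [h1, coe_eval₂, hfun, coe_eval₂, eval₂_mul, eval₂_C, eval₂_pow]
  have hu0 : 0 ≤ od 𝔭 u := by
    by_cases hu1 : u = 0
    · rw [hu1]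
      unfold od
      simp
    · obtain ⟨m, hm⟩ := primitive_pow 𝔭 w hwp d
      have h1 := congrArg (coeff m) hfun
      rw [coeff_map, coeff_C_mul] at h1
      have h2 : coeff m (wK ^ d) = ((coeff m (w ^ d) : 𝓞 K) : K) := by
        rw [hwK, ← map_pow, coeff_map]
      rw [h2] at h1
      have hm0 : coeff m (w ^ d) ≠ 0 := by
        intro h0
        rw [h0] at hm
        exact hm 𝔭.asIdeal.zero_mem
      have h3 := od_mul 𝔭 hu1 (coe_ne_zero'' hm0)
      rw [← h1, (od_eq_zero_iff 𝔭 hm0).2 hm, add_zero] at h3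
      rw [← h3]
      exact od_nonneg 𝔭 _
  -- uniformizer
  obtain ⟨π, hπ⟩ := 𝔭.valuation_exists_uniformizer K
  have hπ1 : od 𝔭 π = 1 := by
    unfold od
    rw [hπ]
    simp
  set M := (od 𝔭 ((eval x w : 𝓞 K) : K)).toNat + 1 with hM
  have hM' : od 𝔭 ((eval x w : 𝓞 K) : K) < M := by
    have h1 := Int.toNat_of_nonneg (od_nonneg 𝔭 (eval x w))
    rw [hM]
    push_cast
    rw [h1]
    linarith
  set Ω := AlgebraicClosure K with hΩ
  obtain ⟨ϖ, hϖ⟩ := IsAlgClosed.exists_pow_nat_eq (algebraMap K Ω π) hℓ.pos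
  have hx2 : Rp γ₂ x := hx.rp
  obtain ⟨L, hNF, hGal, hSL, hL⟩ := exists_field G hd hG.homog hG.nz x hx2.ne_zero M {ϖ} (Set.finite_singleton _)
  have hϖL : ϖ ∈ L := hSL rfl
  obtain ⟨P, hP⟩ := exists_of_nonempty K L 𝔭
  rw [mem_above] at hP
  have hϖ' : (⟨ϖ, hϖL⟩ : L) ^ ℓ = algebraMap K L π := by
    apply Subtype.ext
    exact hϖ
  obtain ⟨σL, hσ1, hσ2⟩ := exists_inertia_move P π (by rw [hP]; exact hπ1) (⟨ϖ, hϖL⟩ : L) ℓ hℓ.two_le hϖ'
  obtain ⟨σ, rfl⟩ := AlgEquiv.restrictNormalHom_surjective (E := AlgebraicClosure K) (F := K) (K₁ := L) σL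
  apply posDensity_of_nofix hd Φ γ₁ γ₂ H M σ
  intro y hy hfix
  rw [inFibre_iff hG M hx2] at hy
  obtain ⟨hy0, hypar⟩ := hy
  rw [fixesPoint_iff σ y hy0] at hfix
  obtain ⟨x', hx'0, hx'g, hyx'⟩ := hL y hy0 hypar
  set jL := algebraMap (𝓞 L) Ω with hjL
  have hjLinj : Function.Injective jL := FaithfulSMul.algebraMap_injective (𝓞 L) Ω
  have hNZL : NZ (algebraMap (𝓞 K) (𝓞 L)) G := by
    have hcomp : jL.comp (algebraMap (𝓞 K) (𝓞 L)) = algebraMap (𝓞 K) Ω := by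
      ext r
      rfl
    apply NZ.of_injective (ψ := jL) _ hjLinj
    rw [hcomp]
    exact hG.nz
  have hℓP : ((ℓ : ℕ) : 𝓞 L) ∉ P.asIdeal := by
    intro h
    apply hℓp
    rw [← hP]
    change algebraMap (𝓞 K) (𝓞 L) ((ℓ : ℕ) : 𝓞 K) ∈ P.asIdeal
    rw [map_natCast]
    exact h
  refine poly_nofix P _ hσ1 π (by rw [hP]; exact hπ1) (⟨ϖ, hϖL⟩ : L) ℓ hℓ hϖ' hσ2 hℓP G hd hG.homog hℓd w δ hw u
    (by rw [hP]; exact hu0) (hwG L) ?_ hNZL x ?_ hx0 ?_ M ?_ x' hx'0 hx'g ?_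
  · intro κ _ φ hφ
    exact hnz κ φ (by rw [hφ, hP])
  · rw [hP]; exact hx.1
  · rw [hP]; exact hx1
  · rw [hP]; exact hM'
  · apply Par.of_map jL hjLinj
    have h2 : (fun i => jL ((AlgEquiv.restrictNormalHom L σ) • x' i)) = fun i => σ (jL (x' i)) := by
      funext i
      exact restrict_compat L σ (x' i)
    rw [h2]
    have h3 : Par (fun i => σ (y i)) (fun i => σ (jL (x' i))) := hyx'.map (σ : AlgebraicClosure K →+* AlgebraicClosure K)
    have h4 : (fun i => σ (y i)) ≠ 0 := by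
      intro h0
      apply hy0
      funext i
      have := congrFun h0 i
      exact (map_eq_zero σ).1 this
    exact (h3.symm.trans hfix h4).trans hyx' hy0

end Pool.Agent.Lib.MP_df4dfc_nt
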