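import Mathlib
import Pool.Agent.Lib.MP_df4dfc_nt.Cc1
import Pool.Agent.Lib.MP_df4dfc_nt.Ram3

/-!
# Galois part: backward orbits fixed by a product of a power of Frobenius and an inertia element
-/

set_option autoImplicit false
set_option linter.unusedSectionVars false
set_option linter.style.haveILetI false
set_option linter.unusedVariables false

namespace Pool.Agent.Lib.MP_df4dfc_nt

open NumberField IsDedekindDomain MvPolynomial
open scoped Pointwise

universe u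

variable {K : Type u} [Field K] [NumberField K]

section NZ

variable {ι : Type*} [Fintype ι]

/-- no common zeros modulo a prime implies no common zeros in characteristic zero -/
theorem nz_of_red (G : ι → MvPolynomial ι (𝓞 K)) {d : ℕ} (hd : 1 ≤ d) (hG : ∀ i, (G i).IsHomogeneous d)
    (𝔭 : HeightOneSpectrum (𝓞 K))
    (hgood : ∀ (κ : Type u) [Field κ] (φ : 𝓞 K →+* κ), RingHom.ker φ = 𝔭.asIdeal → NZ φ G) :
    NZ (algebraMap (𝓞 K) (AlgebraicClosure K)) G := by
  classical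
  set Ω := AlgebraicClosure K with hΩ
  set j := algebraMap (𝓞 K) Ω with hj
  intro y hy h0
  obtain ⟨L, hL1, hL2, hL3⟩ := exists_gal (K := K) (Set.range y) (Set.finite_range y)
  haveI hNF : NumberField L := NumberField.of_module_finite K L
  set jL := algebraMap (𝓞 L) Ω with hjL
  set iL := algebraMap (𝓞 K) (𝓞 L) with hiL
  have hcomp : jL.comp iL = j := by
    ext r
    rfl
  have hjLinj : Function.Injective jL := FaithfulSMul.algebraMap_injective (𝓞 L) Ω
  have hyL : ∀ i, y i ∈ L := fun i => hL3 ⟨i, rfl⟩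
  obtain ⟨s, x, hs, hx⟩ := exists_int (L := L) (fun i => (⟨y i, hyL i⟩ : L))
  have h1 : ∀ i, jL (x i) = jL s * y i := by
    intro i
    have h2 := congrArg (fun z : L => (z : Ω)) (hx i)
    exact h2
  have hs0 : jL s ≠ 0 := by
    intro h0
    apply hs
    apply hjLinj
    rw [h0, map_zero]
  have hx0 : x ≠ 0 := by
    intro h2
    obtain ⟨k, hk⟩ := Function.ne_iff.1 hy
    have h3 := h1 k
    rw [h2] at h3
    simp only [Pi.zero_apply, map_zero] at h3
    exact (mul_ne_zero hs0 hk) h3.symm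
  have hpx : pev iL G x = 0 := by
    funext i
    apply hjLinj
    rw [Pi.zero_apply, map_zero]
    have h2 := congrFun (pev_map iL jL G x) i
    rw [hcomp] at h2
    rw [h2]
    have h3 : (fun i => jL (x i)) = jL s • y := by
      funext i
      exact h1 i
    rw [h3, pev_smul hG, h0, smul_zero]
    rfl
  obtain ⟨P, hP⟩ := exists_of_nonempty K L 𝔭
  rw [mem_above] at hP
  obtain ⟨x', hx'par, k, hk⟩ := exists_primitive P.asIdeal (Ideal.IsPrime.ne_top P.isPrime) x hx0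
  have hpx' : pev iL G x' = 0 := by
    obtain ⟨l, hl⟩ := Function.ne_iff.1 hx0
    rw [Pi.zero_apply] at hl
    have h2 : x l • x' = x' l • x := by
      funext i
      simp only [Pi.smul_apply, smul_eq_mul]
      have := hx'par i l
      linear_combination this
    have h3 : x l ^ d • pev iL G x' = 0 := by
      rw [← pev_smul hG, h2, pev_smul hG, hpx, smul_zero]
    rcases smul_eq_zero.1 h3 with h4 | h4
    · exact absurd h4 (pow_ne_zero _ hl)
    · exact h4
  haveI := P.isPrime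
  haveI := P.isMaximal
  letI : Field (𝓞 L ⧸ P.asIdeal) := Ideal.Quotient.field _
  set φ : 𝓞 L →+* 𝓞 L ⧸ P.asIdeal := Ideal.Quotient.mk P.asIdeal with hφ
  have hker : RingHom.ker (φ.comp iL) = 𝔭.asIdeal := by
    rw [← hP]
    ext r
    rw [RingHom.mem_ker, RingHom.comp_apply, hφ, Ideal.Quotient.eq_zero_iff_mem]
    exact Iff.rfl
  apply hgood _ (φ.comp iL) hker (fun i => φ (x' i))
  · intro h2
    exact hk (Ideal.Quotient.eq_zero_iff_mem.1 (congrFun h2 k))
  · rw [← pev_map, hpx']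
    funext i
    simp

end NZ

section Frob

variable {L : Type u} [Field L] [NumberField L] [Algebra K L] [IsGalois K L]

theorem frob_pow_mod (P : HeightOneSpectrum (𝓞 L)) (σ : Gal(L/K)) (q : ℕ)
    (hσ : ∀ a : 𝓞 L, Ideal.Quotient.mk P.asIdeal (σ • a) = Ideal.Quotient.mk P.asIdeal a ^ q) (s : ℕ) (a : 𝓞 L) :
    Ideal.Quotient.mk P.asIdeal (σ ^ s • a) = Ideal.Quotient.mk P.asIdeal a ^ (q ^ s) := by
  induction s generalizing a with
  | zero => simp
  | succ s ih =>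
    rw [pow_succ, mul_smul, ih, hσ, ← pow_mul, ← pow_succ']

end Frob

theorem par_iter_period {ι R T : Type*} [CommRing R] [CommRing T] [IsDomain T] {G : ι → MvPolynomial ι R} {d : ℕ}
    (hG : ∀ i, (G i).IsHomogeneous d) {φ : R →+* T} (hNZ : NZ φ G) (u : ι → T) (hu : u ≠ 0) (r : ℕ)
    (h : Par ((pev φ G)^[r] u) u) (k : ℕ) : Par ((pev φ G)^[r * k] u) u := by
  induction k with
  | zero => simpa using Par.refl u
  | succ k ih =>
    have h1 : r * (k + 1) = r + r * k := by ring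
    rw [h1, Function.iterate_add_apply]
    exact (pev_iter_par hG hNZ r ih hu).trans h (hNZ.iter r hu)

/-- **The Galois construction.** -/
theorem cc_level (n : ℕ) (𝔭 : HeightOneSpectrum (𝓞 K)) (π : 𝓞 K) (hπ : od 𝔭 (π : K) = 1)
    (q' r ℓ : ℕ) (hq : q' + 1 = Nat.card (𝓞 K ⧸ 𝔭.asIdeal)) (hq1 : 1 ≤ q') (hℓ : ℓ.Prime)
    (F : Fin (n + 2) → MvPolynomial (Fin (n + 2)) (𝓞 K))
    (hF : ∀ i, (F i).IsHomogeneous (ℓ + q' + r))
    (hFA : ∀ (κ : Type u) [Field κ] (φ : 𝓞 K →+* κ), RingHom.ker φ = 𝔭.asIdeal →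
      pev φ F = pev φ (ccA π q' ℓ r n))
    (g : Fin (n + 2) → 𝓞 K) (hg : ∃ i, g i ∉ 𝔭.asIdeal) (m : ℕ)
    (hfix : ∀ (N0 : ℕ) (σ : Gal(AlgebraicClosure K/K)), ∃ y : Fin (n + 2) → AlgebraicClosure K, y ≠ 0 ∧
      Par ((pev (algebraMap (𝓞 K) (AlgebraicClosure K)) F)^[N0] y)
        (fun i => algebraMap (𝓞 K) (AlgebraicClosure K) (g i)) ∧ Par (fun i => σ (y i)) y) :
    ∃ (L : IntermediateField K (AlgebraicClosure K)) (_ : NumberField L) (_ : IsGalois K L)
      (P : HeightOneSpectrum (𝓞 L)) (ρ : Gal(L/K)) (ϖ : L) (z : Fin (n + 2) → 𝓞 L),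
      bel K L P = 𝔭 ∧ ρ ∈ P.asIdeal.inertia Gal(L/K) ∧ ϖ ^ ℓ = algebraMap K L (π : K) ∧ ρ ϖ ≠ ϖ ∧
      z (Fin.last (n + 1)) ∉ P.asIdeal ∧ (∀ i : Fin (n + 1), z (Fin.castSucc i) ∈ P.asIdeal) ∧
      Par ((pev (algebraMap (𝓞 K) (𝓞 L)) F)^[m] z) (fun i => algebraMap (𝓞 K) (𝓞 L) (g i)) ∧
      ∀ i, ρ ((z i : L) / (z (Fin.last (n + 1)) : L)) = (z i : L) / (z (Fin.last (n + 1)) : L) := by
  classical
  set Ω := AlgebraicClosure K with hΩ
  set j := algebraMap (𝓞 K) Ω with hj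
  have hd : 1 ≤ ℓ + q' + r := by
    have := hℓ.two_le
    omega
  have hπ𝔭 : π ∈ 𝔭.asIdeal := by
    have hπ0 : π ≠ 0 := by
      rintro rfl
      unfold od at hπ
      simp at hπ
    rw [← od_pos_iff 𝔭 hπ0, hπ]
    exact one_pos
  have hgood : ∀ (κ : Type u) [Field κ] (φ : 𝓞 K →+* κ), RingHom.ker φ = 𝔭.asIdeal → NZ φ F := by
    intro κ _ φ hφ y hy
    rw [hFA κ φ hφ]
    apply ccA_NZ φ π _ q' ℓ r n hq1 hℓ.one_lt.le y hy
    have : π ∈ RingHom.ker φ := by rw [hφ]; exact hπ𝔭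
    exact this
  have hNZ : NZ j F := nz_of_red F hd hF 𝔭 hgood
  have hg0 : g ≠ 0 := by
    rintro rfl
    obtain ⟨i, hi⟩ := hg
    exact hi (by simp)
  obtain ⟨L₁, hNF₁, hGal₁, X₀, hX1, hX2⟩ := exists_reps F hd hF hNZ {g} (by simpa using hg0) m
  set s := Nat.card Gal(L₁/K) with hs
  have hs0 : s ≠ 0 := Nat.card_pos.ne'
  set q := Nat.card (𝓞 K ⧸ 𝔭.asIdeal) with hqdef
  set W := (q ^ s) ^ Fintype.card (Fin (n + 2)) with hW
  obtain ⟨ϖ, hϖ⟩ := IsAlgClosed.exists_pow_nat_eq (algebraMap K Ω (π : K)) hℓ.pos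
  obtain ⟨L, hNF, hGal, hSL, hL⟩ := exists_field F hd hF hNZ g hg0 (m + W) {ϖ} (Set.finite_singleton _)
  have hϖL : ϖ ∈ L := hSL rfl
  set jL := algebraMap (𝓞 L) Ω with hjL
  set iL := algebraMap (𝓞 K) (𝓞 L) with hiL
  have hcomp : jL.comp iL = j := by
    ext r
    rfl
  have hjLinj : Function.Injective jL := FaithfulSMul.algebraMap_injective (𝓞 L) Ω
  have hNZL : NZ iL F := by
    apply NZ.of_injective (ψ := jL) _ hjLinj
    rw [hcomp]
    exact hNZ
  obtain ⟨P, hP⟩ := exists_of_nonempty K L 𝔭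
  rw [mem_above] at hP
  haveI := P.isPrime
  haveI := P.isMaximal
  haveI := 𝔭.isMaximal
  letI : Field (𝓞 L ⧸ P.asIdeal) := Ideal.Quotient.field _
  letI : Field (𝓞 K ⧸ 𝔭.asIdeal) := Ideal.Quotient.field _
  have hϖ' : (⟨ϖ, hϖL⟩ : L) ^ ℓ = algebraMap K L (π : K) := by
    apply Subtype.ext
    exact hϖ
  obtain ⟨ρL, hρ1, hρ2⟩ := exists_inertia_move P (π : K) (by rw [hP]; exact hπ) (⟨ϖ, hϖL⟩ : L) ℓ hℓ.two_le hϖ'
  obtain ⟨φL, hφL⟩ := IsArithFrobAt.exists_of_isInvariant (𝓞 K) Gal(L/K) P.asIdeal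
  obtain ⟨ρ, hρL⟩ := AlgEquiv.restrictNormalHom_surjective (E := Ω) (F := K) (K₁ := L) ρL
  obtain ⟨φ₀, hφ₀L⟩ := AlgEquiv.restrictNormalHom_surjective (E := Ω) (F := K) (K₁ := L) φL
  obtain ⟨y, hy0, hypar, hyfix⟩ := hfix (m + W) (φ₀ ^ s * ρ)
  obtain ⟨x, hx0, hxg, hyx⟩ := hL y hy0 hypar
  obtain ⟨x', hx'par, k, hk⟩ := exists_primitive P.asIdeal (Ideal.IsPrime.ne_top P.isPrime) x hx0
  have hx'0 : x' ≠ 0 := by
    rintro rfl
    exact hk (by simp)
  -- the fixed vector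
  have hyx' : Par y (fun i => jL (x' i)) := hyx.trans (hx'par.map jL).symm (by
    intro h0
    apply hx0
    funext i
    apply hjLinj
    rw [Pi.zero_apply, map_zero]
    exact congrFun h0 i)
  have hjx'0 : (fun i => jL (x' i)) ≠ 0 := by
    intro h0
    apply hx'0
    funext i
    apply hjLinj
    rw [Pi.zero_apply, map_zero]
    exact congrFun h0 i
  set h₀ : Gal(Ω/K) := φ₀ ^ s * ρ with hh₀
  have hfixΩ : Par (fun i => h₀ (jL (x' i))) (fun i => jL (x' i)) := by
    have h3 : Par (fun i => h₀ (y i)) (fun i => h₀ (jL (x' i))) := hyx'.map (h₀ : Ω →+* Ω)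
    have h4 : (fun i => h₀ (y i)) ≠ 0 := by
      intro h0
      apply hy0
      funext i
      have := congrFun h0 i
      exact (map_eq_zero h₀).1 this
    exact (h3.symm.trans hyfix h4).trans hyx' hy0
  have hres : AlgEquiv.restrictNormalHom L h₀ = φL ^ s * ρL := by
    rw [hh₀, map_mul, map_pow, hφ₀L, hρL]
  have hfixL : Par (fun i => (φL ^ s * ρL) • x' i) x' := by
    apply Par.of_map jL hjLinj
    have h2 : (fun i => jL ((φL ^ s * ρL) • x' i)) = fun i => h₀ (jL (x' i)) := by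
      funext i
      rw [← hres]
      exact restrict_compat L h₀ (x' i)
    rw [h2]
    exact hfixΩ
  -- reduction modulo `P`
  set φ : 𝓞 L →+* 𝓞 L ⧸ P.asIdeal := Ideal.Quotient.mk P.asIdeal with hφdef
  set ψ : 𝓞 K →+* 𝓞 L ⧸ P.asIdeal := φ.comp iL with hψ
  have hunder : P.asIdeal.under (𝓞 K) = 𝔭.asIdeal := congrArg HeightOneSpectrum.asIdeal hP
  have hker : RingHom.ker ψ = 𝔭.asIdeal := by
    rw [← hunder]
    ext r
    rw [RingHom.mem_ker, hψ, RingHom.comp_apply, hφdef, Ideal.Quotient.eq_zero_iff_mem]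
    exact Iff.rfl
  have hNZψ := hgood _ ψ hker
  have hψπ : ψ π = 0 := by
    have : π ∈ RingHom.ker ψ := by rw [hker]; exact hπ𝔭
    exact this
  set u : Fin (n + 2) → 𝓞 L ⧸ P.asIdeal := fun i => φ (x' i) with hu
  have hu0 : u ≠ 0 := by
    intro h0
    apply hk
    have := congrFun h0 k
    exact Ideal.Quotient.eq_zero_iff_mem.1 this
  set e : 𝓞 K ⧸ 𝔭.asIdeal →+* 𝓞 L ⧸ P.asIdeal := Ideal.Quotient.lift 𝔭.asIdeal ψ (by
    intro a ha
    rw [← hker] at ha
    exact ha) with he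
  have he' : ∀ r, e (redK 𝔭 r) = ψ r := fun r => rfl
  have hinj : Function.Injective e := e.injective
  haveI : Finite (𝓞 K ⧸ 𝔭.asIdeal) := Ring.HasFiniteQuotients.finiteQuotient 𝔭.ne_bot
  haveI : Fintype (𝓞 K ⧸ 𝔭.asIdeal) := Fintype.ofFinite _
  obtain ⟨p, hchar, f, hp, hcard⟩ := FiniteField.card' (𝓞 K ⧸ 𝔭.asIdeal)
  haveI : Fact p.Prime := ⟨hp⟩
  haveI : CharP (𝓞 L ⧸ P.asIdeal) p := charP_of_injective_ringHom hinj p
  have hcard' : q = p ^ (f : ℕ) := by
    rw [hqdef, Nat.card_eq_fintype_card, hcard]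
  have hfrob : ∀ y : 𝓞 L, φ (φL • y) = φ y ^ q := by
    intro y
    have h1 : φL • y - y ^ Nat.card (𝓞 K ⧸ P.asIdeal.under (𝓞 K)) ∈ P.asIdeal := hφL y
    rw [hunder] at h1
    rw [← map_pow]
    exact Ideal.Quotient.eq.2 h1
  have hmod : ∀ y : 𝓞 L, φ ((φL ^ s * ρL) • y) = φ y ^ (q ^ s) := by
    intro y
    rw [mul_smul, hφdef, frob_pow_mod P φL q hfrob s]
    congr 1
    exact Ideal.Quotient.eq.2 (hρ1 y)
  have hψq : ∀ r, ψ r ^ q = ψ r := by
    intro r
    rw [← he', ← map_pow, hcard', ← hcard, FiniteField.pow_card]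
  have hqs : q ^ s = p ^ ((f : ℕ) * s) := by rw [hcard', pow_mul]
  have hψqs : ∀ r, ψ r ^ (q ^ s) = ψ r := by
    intro r
    clear_value s
    clear hs
    induction s with
    | zero => exact absurd rfl hs0
    | succ s ih =>
      rw [pow_succ, pow_mul]
      rcases Nat.eq_zero_or_pos s with h0 | h0
      · rw [h0, pow_zero, pow_one]
        exact hψq r
      · have h5 : ∀ t : ℕ, ψ r ^ (q ^ t) = ψ r := by
          intro t
          induction t with
          | zero => simp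
          | succ t iht => rw [pow_succ, pow_mul, iht, hψq]
        rw [h5, hψq]
  have hpar : Par (fun i => u i ^ (p ^ ((f : ℕ) * s))) u := by
    have h1 := hfixL.map φ
    have h2 : (fun i => φ ((φL ^ s * ρL) • x' i)) = fun i => u i ^ (p ^ ((f : ℕ) * s)) := by
      funext i
      rw [← hqs]
      exact hmod (x' i)
    rwa [h2] at h1
  obtain ⟨t, ht, ht'⟩ := frob_fixed ψ F hF hNZψ p ((f : ℕ) * s) (Nat.mul_ne_zero f.pos.ne' hs0)
    (by rw [← hqs]; exact hψqs) W (by rw [← hqs]) u hu0 hpar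
  set z := (pev iL F)^[W] x' with hz
  set ub := (pev ψ F)^[W] u with hub
  have hzub : (fun i => φ (z i)) = ub := by
    rw [hz, pev_iter_map]
  have hub0 : ub ≠ 0 := hNZψ.iter W hu0
  have hzg : Par ((pev iL F)^[m] z) (fun i => iL (g i)) := by
    rw [hz, ← Function.iterate_add_apply]
    exact (pev_iter_par hF hNZL (m + W) hx'par hx0).trans hxg (hNZL.iter _ hx0)
  have hgψ0 : (fun i => ψ (g i)) ≠ 0 := by
    obtain ⟨i, hi⟩ := hg
    intro h0
    apply hi
    have h1 := congrFun h0 i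
    rw [← hker]
    exact h1
  have hubg : Par ((pev ψ F)^[m] ub) (fun i => ψ (g i)) := by
    have h1 := hzg.map φ
    rw [pev_iter_map] at h1
    have h2 : (fun i => φ (z i)) = ub := hzub
    rw [h2] at h1
    exact h1
  -- the reduction is the point `(0 : … : 0 : 1)`
  have hO : ∀ i : Fin (n + 1), ub (Fin.castSucc i) = 0 := by
    have h1 := par_iter_period hF hNZψ ub hub0 t ht' (m + (n + 2))
    have h2 : t * (m + (n + 2)) = (t * (m + (n + 2)) - m) + m := by
      have : m + (n + 2) ≤ t * (m + (n + 2)) := Nat.le_mul_of_pos_left _ (by omega)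
      omega
    rw [h2, Function.iterate_add_apply] at h1
    have h3 := pev_iter_par hF hNZψ (t * (m + (n + 2)) - m) hubg hgψ0
    have h4 : Par ub ((pev ψ F)^[t * (m + (n + 2)) - m] (fun i => ψ (g i))) :=
      h1.symm.trans h3 (hNZψ.iter _ (hNZψ.iter _ hub0))
    have h5 : ∀ i : Fin (n + 1), (pev ψ F)^[t * (m + (n + 2)) - m] (fun i => ψ (g i)) (Fin.castSucc i) = 0 := by
      intro i
      rw [hFA _ ψ hker]
      apply ccA_flow' ψ π hψπ q' ℓ r n hq1 hℓ.one_lt.le _ _ hgψ0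
      · have : m + (n + 2) ≤ t * (m + (n + 2)) := Nat.le_mul_of_pos_left _ (by omega)
        omega
      · intro i
        by_cases h0 : ψ (g i) = 0
        · exact Or.inl h0
        · right
          have h6 := hψq (g i)
          rw [← hq, pow_succ] at h6
          exact mul_right_cancel₀ h0 (by rw [one_mul]; exact h6)
    have h6 : (pev ψ F)^[t * (m + (n + 2)) - m] (fun i => ψ (g i)) (Fin.last (n + 1)) ≠ 0 := by
      intro h0
      apply hNZψ.iter (t * (m + (n + 2)) - m) hgψ0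
      funext i
      induction i using Fin.lastCases with
      | last => exact h0
      | cast i => exact h5 i
    intro i
    have h7 := h4 (Fin.castSucc i) (Fin.last (n + 1))
    rw [h5, mul_zero] at h7
    exact (mul_eq_zero.1 h7).resolve_right h6
  have hzP : ∀ i : Fin (n + 1), z (Fin.castSucc i) ∈ P.asIdeal := by
    intro i
    have h1 := hO i
    rw [← hzub] at h1
    exact Ideal.Quotient.eq_zero_iff_mem.1 h1
  have hzL : z (Fin.last (n + 1)) ∉ P.asIdeal := by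
    intro h0
    apply hub0
    funext i
    induction i using Fin.lastCases with
    | last =>
      rw [← hzub]
      exact Ideal.Quotient.eq_zero_iff_mem.2 h0
    | cast i => exact hO i
  have hzL0 : z (Fin.last (n + 1)) ≠ 0 := by
    intro h0
    rw [h0] at hzL
    exact hzL P.asIdeal.zero_mem
  refine ⟨L, hNF, hGal, P, ρL, ⟨ϖ, hϖL⟩, z, hP, hρ1, hϖ', hρ2, hzL, hzP, hzg, ?_⟩
  -- the affine coordinates
  set y0 : Fin (n + 2) → Ω := fun i => jL (z i) with hy0def
  have hy0L : y0 (Fin.last (n + 1)) ≠ 0 := by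
    intro h0
    apply hzL0
    apply hjLinj
    rw [map_zero]
    exact h0
  have hy00 : y0 ≠ 0 := fun h0 => hy0L (congrFun h0 _)
  have hy0g : Par ((pev j F)^[m] y0) (fun i => j (g i)) := by
    have h1 := hzg.map jL
    rw [pev_iter_map, hcomp] at h1
    exact h1
  obtain ⟨x1, hx1, hx1par⟩ := hX2 g (Finset.mem_singleton_self _) y0 hy00 hy0g
  have hx10 : x1 ≠ 0 := (hX1 x1 hx1).1
  have hj1inj : Function.Injective (algebraMap (𝓞 L₁) Ω) := FaithfulSMul.algebraMap_injective (𝓞 L₁) Ω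
  have hx1L : algebraMap (𝓞 L₁) Ω (x1 (Fin.last (n + 1))) ≠ 0 := by
    intro h0
    apply hx10
    funext i
    apply hj1inj
    rw [Pi.zero_apply, map_zero]
    have h1 := hx1par i (Fin.last (n + 1))
    dsimp only at h1
    rw [h0, mul_zero] at h1
    exact (mul_eq_zero.1 h1.symm).resolve_left hy0L
  have hquot : ∀ i, y0 i / y0 (Fin.last (n + 1))
      = algebraMap (𝓞 L₁) Ω (x1 i) / algebraMap (𝓞 L₁) Ω (x1 (Fin.last (n + 1))) := by
    intro i
    rw [div_eq_div_iff hy0L hx1L]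
    have h1 := hx1par i (Fin.last (n + 1))
    linear_combination h1
  have hmemL₁ : ∀ i, y0 i / y0 (Fin.last (n + 1)) ∈ L₁ := by
    intro i
    rw [hquot]
    exact div_mem (SetLike.coe_mem ((x1 i : 𝓞 L₁) : L₁)) (SetLike.coe_mem ((x1 (Fin.last (n + 1)) : 𝓞 L₁) : L₁))
  -- `φ₀ ^ s` is trivial on `L₁`
  have htriv : ∀ a ∈ L₁, (φ₀ ^ s) a = a := by
    intro a ha
    have h1 : AlgEquiv.restrictNormalHom L₁ (φ₀ ^ s) = 1 := by
      rw [map_pow, hs, pow_card_eq_one']
    have h2 := AlgEquiv.restrictNormal_commutes (φ₀ ^ s) L₁ (⟨a, ha⟩ : L₁)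
    have h3 : (φ₀ ^ s).restrictNormal L₁ = 1 := h1
    rw [h3] at h2
    exact h2.symm
  have hstab : ∀ a ∈ L₁, ρ a ∈ L₁ := by
    intro a ha
    have h2 := AlgEquiv.restrictNormal_commutes ρ L₁ (⟨a, ha⟩ : L₁)
    have h3 : ρ a = ((ρ.restrictNormal L₁ (⟨a, ha⟩ : L₁) : L₁) : Ω) := h2.symm
    rw [h3]
    exact SetLike.coe_mem _
  -- `h₀` fixes the affine coordinates
  have hh₀j : (h₀ : Ω →+* Ω).comp j = j := by
    ext r
    exact h₀.commutes (r : K)
  have hfixy0 : Par (fun i => h₀ (y0 i)) y0 := by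
    have h1 : y0 = (pev j F)^[W] (fun i => jL (x' i)) := by
      rw [hy0def, hz, pev_iter_map, hcomp]
    have h2 : (fun i => h₀ (y0 i)) = (pev j F)^[W] (fun i => h₀ (jL (x' i))) := by
      have h3 := pev_iter_map j (h₀ : Ω →+* Ω) F W (fun i => jL (x' i))
      rw [hh₀j] at h3
      rw [h1]
      exact h3
    rw [h2, h1]
    exact pev_iter_par hF hNZ W hfixΩ hjx'0
  have hfixq : ∀ i, h₀ (y0 i / y0 (Fin.last (n + 1))) = y0 i / y0 (Fin.last (n + 1)) := by
    intro i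
    have h1 := hfixy0 i (Fin.last (n + 1))
    have h2 : h₀ (y0 (Fin.last (n + 1))) ≠ 0 := by
      intro h0
      exact hy0L ((map_eq_zero h₀).1 h0)
    rw [map_div₀, div_eq_div_iff h2 hy0L]
    linear_combination h1
  have hρq : ∀ i, ρ (y0 i / y0 (Fin.last (n + 1))) = y0 i / y0 (Fin.last (n + 1)) := by
    intro i
    have h1 := hfixq i
    rw [hh₀] at h1
    have h2 : (φ₀ ^ s * ρ) (y0 i / y0 (Fin.last (n + 1))) = (φ₀ ^ s) (ρ (y0 i / y0 (Fin.last (n + 1)))) := rfl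
    rw [h2, htriv _ (hstab _ (hmemL₁ i))] at h1
    exact h1
  intro i
  apply (algebraMap L Ω).injective
  have h2 := AlgEquiv.restrictNormal_commutes ρ L ((z i : L) / (z (Fin.last (n + 1)) : L))
  have h3 : ρ.restrictNormal L = ρL := hρL
  rw [h3] at h2
  rw [h2]
  have h4 : algebraMap L Ω ((z i : L) / (z (Fin.last (n + 1)) : L)) = y0 i / y0 (Fin.last (n + 1)) := by
    rw [map_div₀]
    rfl
  rw [h4]
  exact hρq i

end Pool.Agent.Lib.MP_df4dfc_nt
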