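import Mathlib
import Pool.Agent.Lib.MP_df4dfc_nt.Cc3
import Pool.Agent.Lib.MP_df4dfc_nt.Cc4

/-!
# From the Galois construction to the local theorem
-/

set_option autoImplicit false
set_option linter.unusedSectionVars false
set_option linter.style.haveILetI false
set_option linter.unusedVariables false

namespace Pool.Agent.Lib.MP_df4dfc_nt

open NumberField IsDedekindDomain MvPolynomial WithZero
open scoped Pointwise

universe u

section Base

variable {K : Type u} [Field K] [NumberField K]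

theorem val_pi (𝔭 : HeightOneSpectrum (𝓞 K)) (π : K) (hπ : od 𝔭 π = 1) : 𝔭.valuation K π = exp (-1 : ℤ) := by
  unfold od at hπ
  have h0 : 𝔭.valuation K π ≠ 0 := by
    intro h0
    rw [h0] at hπ
    simp at hπ
  have h1 : log (𝔭.valuation K π) = -1 := by linarith
  rw [← exp_log h0, h1]

theorem val_pi_pow (𝔭 : HeightOneSpectrum (𝓞 K)) (π : K) (hπ : od 𝔭 π = 1) (k : ℕ) :
    𝔭.valuation K π ^ k = exp (-(k : ℤ)) := by
  rw [val_pi 𝔭 π hπ, ← exp_nsmul]
  congr 1
  simp

theorem val_of_mem_pow (𝔭 : HeightOneSpectrum (𝓞 K)) (π : K) (hπ : od 𝔭 π = 1) (k : ℕ) (c : 𝓞 K)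
    (hc : c ∈ 𝔭.asIdeal ^ k) : 𝔭.valuation K (c : K) ≤ 𝔭.valuation K π ^ k := by
  rw [val_pi_pow 𝔭 π hπ]
  have h1 := (𝔭.intValuation_le_pow_iff_mem c k).2 hc
  have h2 : 𝔭.valuation K (c : K) = 𝔭.intValuation c := 𝔭.valuation_of_algebraMap c
  rw [h2]
  exact h1

theorem eq_zero_of_val (𝔭 : HeightOneSpectrum (𝓞 K)) (π : K) (hπ : od 𝔭 π = 1) (c : 𝓞 K)
    (h : ∀ k : ℕ, 𝔭.valuation K (c : K) ≤ 𝔭.valuation K π ^ (k + 1)) : c = 0 := by
  by_contra hne
  have h0 : 𝔭.valuation K (c : K) ≠ 0 := (Valuation.ne_zero_iff _).2 (coe_ne_zero'' hne)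
  have h1 := h (log (𝔭.valuation K (c : K))).natAbs
  rw [val_pi_pow 𝔭 π hπ, ← exp_log h0, exp_le_exp, log_exp] at h1
  push_cast at h1
  have h3 := neg_abs_le (log (𝔭.valuation K (c : K)))
  linarith

end Base

section Ext

variable {K L : Type u} [Field K] [NumberField K] [Field L] [NumberField L] [Algebra K L]

theorem val_base (P : HeightOneSpectrum (𝓞 L)) : ∃ E : ℕ, E ≠ 0 ∧ ∀ a : K,
    P.valuation L (algebraMap K L a) = (bel K L P).valuation K a ^ E := by
  haveI l2 : P.asIdeal.LiesOver (bel K L P).asIdeal := bel_liesOver K L P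
  haveI := P.isPrime
  haveI := (bel K L P).isPrime
  refine ⟨(bel K L P).asIdeal.ramificationIdx' P.asIdeal,
    Ideal.IsDedekindDomain.ramificationIdx'_ne_zero_of_liesOver P.asIdeal (bel K L P).ne_bot, ?_⟩
  intro a
  exact (HeightOneSpectrum.valuation_liesOver L (bel K L P) P a).symm

variable [IsGalois K L]

theorem inertia_mem_pow (P : HeightOneSpectrum (𝓞 L)) (σ : Gal(L/K)) (hσ : σ ∈ P.asIdeal.inertia Gal(L/K)) (k : ℕ)
    (x : 𝓞 L) (hx : x ∈ P.asIdeal ^ k) : σ • x ∈ P.asIdeal ^ k := by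
  set T : 𝓞 L →+* 𝓞 L := MulSemiringAction.toRingHom Gal(L/K) (𝓞 L) σ with hT
  have h1 : Ideal.map T P.asIdeal ≤ P.asIdeal := by
    rw [Ideal.map_le_iff_le_comap]
    intro y hy
    rw [Ideal.mem_comap]
    have h2 : σ • y - y ∈ P.asIdeal := hσ y
    have h3 : σ • y = (σ • y - y) + y := by ring
    change σ • y ∈ P.asIdeal
    rw [h3]
    exact P.asIdeal.add_mem h2 hy
  have h4 : Ideal.map T (P.asIdeal ^ k) ≤ P.asIdeal ^ k := by
    rw [Ideal.map_pow]
    exact Ideal.pow_right_mono h1 k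
  exact h4 (Ideal.mem_map_of_mem T hx)

theorem val_inertia_le (P : HeightOneSpectrum (𝓞 L)) (σ : Gal(L/K)) (hσ : σ ∈ P.asIdeal.inertia Gal(L/K))
    (x : 𝓞 L) : P.intValuation (σ • x) ≤ P.intValuation x := by
  by_cases hx : x = 0
  · rw [hx, smul_zero]
  · obtain ⟨k, hk⟩ : ∃ k : ℕ, P.intValuation x = exp (-(k : ℤ)) :=
      ⟨_, P.intValuation_if_neg hx⟩
    rw [hk, P.intValuation_le_pow_iff_mem]
    apply inertia_mem_pow P σ hσ
    rw [← P.intValuation_le_pow_iff_mem, hk]

theorem val_inertia_int (P : HeightOneSpectrum (𝓞 L)) (σ : Gal(L/K)) (hσ : σ ∈ P.asIdeal.inertia Gal(L/K))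
    (x : 𝓞 L) : P.intValuation (σ • x) = P.intValuation x := by
  apply le_antisymm (val_inertia_le P σ hσ x)
  have h1 := val_inertia_le P σ⁻¹ (inv_mem hσ) (σ • x)
  rwa [inv_smul_smul] at h1

/-- inertia elements preserve the valuation -/
theorem val_inertia (P : HeightOneSpectrum (𝓞 L)) (σ : Gal(L/K)) (hσ : σ ∈ P.asIdeal.inertia Gal(L/K))
    (a : L) : P.valuation L (σ a) = P.valuation L a := by
  obtain ⟨x, y, hy, rfl⟩ := IsFractionRing.div_surjective (A := 𝓞 L) a
  have h1 : ∀ x : 𝓞 L, P.valuation L (σ (algebraMap (𝓞 L) L x)) = P.valuation L (algebraMap (𝓞 L) L x) := by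
    intro x
    have h2 : σ (algebraMap (𝓞 L) L x) = algebraMap (𝓞 L) L (σ • x) := rfl
    rw [h2, P.valuation_of_algebraMap, P.valuation_of_algebraMap, val_inertia_int P σ hσ]
  rw [map_div₀, map_div₀, map_div₀, h1, h1]

end Ext

section Aff

variable {K L : Type u} [Field K] [NumberField K] [Field L] [NumberField L] [Algebra K L]

/-- the error functions of `F` relative to the model forms -/
noncomputable def ccH (L : Type u) [Field L] [Algebra K L] (π : 𝓞 K) (q' e r n : ℕ)
    (F : Fin (n + 2) → MvPolynomial (Fin (n + 2)) (𝓞 K)) :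
    Fin (n + 2) → (Fin (n + 1) → L) → L :=
  fun i x => eval₂ ((algebraMap K L).comp (algebraMap (𝓞 K) K)) (Fin.snoc (α := fun _ => L) x 1) (F i - ccA π q' e r n i)

theorem pev_snoc_cast (π : 𝓞 K) (q' e r n : ℕ) (F : Fin (n + 2) → MvPolynomial (Fin (n + 2)) (𝓞 K))
    (x : Fin (n + 1) → L) (i : Fin (n + 1)) :
    pev ((algebraMap K L).comp (algebraMap (𝓞 K) K)) F (Fin.snoc (α := fun _ => L) x 1) (Fin.castSucc i)
      = lnum (algebraMap K L (π : K)) q' e r n (ccH L π q' e r n F) x i := by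
  unfold lnum ccH
  have h1 := pev_ccA_castSucc ((algebraMap K L).comp (algebraMap (𝓞 K) K)) π q' e r n (Fin.snoc (α := fun _ => L) x 1) i
  unfold pev at h1 ⊢
  rw [eval₂_sub, h1, Fin.snoc_last, Fin.snoc_castSucc, one_pow, one_pow, RingHom.comp_apply]
  ring

theorem pev_snoc_last (π : 𝓞 K) (q' e r n : ℕ) (F : Fin (n + 2) → MvPolynomial (Fin (n + 2)) (𝓞 K))
    (x : Fin (n + 1) → L) :
    pev ((algebraMap K L).comp (algebraMap (𝓞 K) K)) F (Fin.snoc (α := fun _ => L) x 1) (Fin.last (n + 1))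
      = lden q' e r n (ccH L π q' e r n F) x := by
  unfold lden ccH
  have h1 := pev_ccA_last ((algebraMap K L).comp (algebraMap (𝓞 K) K)) π q' e r n (Fin.snoc (α := fun _ => L) x 1)
  unfold pev at h1 ⊢
  rw [eval₂_sub, h1, Fin.snoc_last, Fin.snoc_castSucc, one_pow, one_pow]
  ring

/-- affine coordinates -/
def aff {n : ℕ} (y : Fin (n + 2) → L) : Fin (n + 1) → L := fun i => y (Fin.castSucc i) / y (Fin.last (n + 1))

theorem snoc_aff {n : ℕ} (y : Fin (n + 2) → L) (hy : y (Fin.last (n + 1)) ≠ 0) :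
    (Fin.snoc (α := fun _ => L) (aff y) 1 : Fin (n + 2) → L) = (y (Fin.last (n + 1)))⁻¹ • y := by
  funext i
  induction i using Fin.lastCases with
  | last =>
    rw [Fin.snoc_last]
    simp only [Pi.smul_apply, smul_eq_mul]
    rw [inv_mul_cancel₀ hy]
  | cast i =>
    rw [Fin.snoc_castSucc]
    simp only [Pi.smul_apply, smul_eq_mul, aff]
    rw [div_eq_inv_mul]

theorem aff_pev (π : 𝓞 K) (q' e r n : ℕ) (F : Fin (n + 2) → MvPolynomial (Fin (n + 2)) (𝓞 K)) {d : ℕ}
    (hF : ∀ i, (F i).IsHomogeneous d) (y : Fin (n + 2) → L) (hy : y (Fin.last (n + 1)) ≠ 0) :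
    aff (pev ((algebraMap K L).comp (algebraMap (𝓞 K) K)) F y)
      = lmap (algebraMap K L (π : K)) q' e r n (ccH L π q' e r n F) (aff y) ∧
    pev ((algebraMap K L).comp (algebraMap (𝓞 K) K)) F y (Fin.last (n + 1))
      = y (Fin.last (n + 1)) ^ d * lden q' e r n (ccH L π q' e r n F) (aff y) := by
  have h1 := pev_smul hF ((algebraMap K L).comp (algebraMap (𝓞 K) K)) ((y (Fin.last (n + 1)))⁻¹) y
  rw [← snoc_aff y hy] at h1
  have hc : (y (Fin.last (n + 1)))⁻¹ ^ d ≠ 0 := pow_ne_zero _ (inv_ne_zero hy)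
  constructor
  · funext i
    unfold lmap
    rw [← pev_snoc_cast, ← pev_snoc_last, h1]
    simp only [Pi.smul_apply, smul_eq_mul, aff]
    rw [mul_div_mul_left _ _ hc]
  · rw [← pev_snoc_last, h1]
    simp only [Pi.smul_apply, smul_eq_mul]
    rw [← mul_assoc, ← mul_pow, mul_inv_cancel₀ hy, one_pow, one_mul]

theorem aff_iter (π : 𝓞 K) (q' e r n : ℕ) (F : Fin (n + 2) → MvPolynomial (Fin (n + 2)) (𝓞 K)) {d : ℕ}
    (hF : ∀ i, (F i).IsHomogeneous d) {Γ : Type*} [LinearOrderedCommGroupWithZero Γ] (v : Valuation L Γ) (he : 1 ≤ e)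
    (h : SmallErr v (algebraMap K L (π : K)) e n (ccH L π q' e r n F)) (k : ℕ)
    (y : Fin (n + 2) → L) (hy : y (Fin.last (n + 1)) ≠ 0) (hv : ∀ j, v (aff y j) < 1) :
    (pev ((algebraMap K L).comp (algebraMap (𝓞 K) K)) F)^[k] y (Fin.last (n + 1)) ≠ 0 ∧
    aff ((pev ((algebraMap K L).comp (algebraMap (𝓞 K) K)) F)^[k] y)
      = (lmap (algebraMap K L (π : K)) q' e r n (ccH L π q' e r n F))^[k] (aff y) := by
  induction k with
  | zero => exact ⟨hy, rfl⟩
  | succ k ih =>
    rw [Function.iterate_succ_apply', Function.iterate_succ_apply', ← ih.2]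
    have h1 := aff_pev π q' e r n F hF _ ih.1
    refine ⟨?_, h1.1⟩
    rw [h1.2]
    apply mul_ne_zero (pow_ne_zero _ ih.1)
    intro h0
    have h2 := v_lden (q' := q') (r := r) h he
      (aff ((pev ((algebraMap K L).comp (algebraMap (𝓞 K) K)) F)^[k] y)) (by
        intro j
        rw [ih.2]
        exact lmap_open_iter h he k _ hv j)
    rw [h0, map_zero] at h2
    exact zero_ne_one h2

end Aff

section Main

variable {K : Type u} [Field K] [NumberField K]

/-- the error functions are small -/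
theorem ccH_small {L : Type u} [Field L] [NumberField L] [Algebra K L]
    (P : HeightOneSpectrum (𝓞 L)) (π : 𝓞 K) (hπ : od (bel K L P) (π : K) = 1) (q' e r n : ℕ)
    (F : Fin (n + 2) → MvPolynomial (Fin (n + 2)) (𝓞 K))
    (hFA : ∀ i m, coeff m (F i - ccA π q' e r n i) ∈ (bel K L P).asIdeal ^ (e + 1)) :
    SmallErr (P.valuation L) (algebraMap K L (π : K)) e n (ccH L π q' e r n F) := by
  obtain ⟨E, hE0, hE⟩ := val_base (K := K) P
  have hpi := val_pi (bel K L P) (π : K) hπ
  have hcoef : ∀ i m, P.valuation L (((algebraMap K L).comp (algebraMap (𝓞 K) K)) (coeff m (F i - ccA π q' e r n i)))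
      ≤ P.valuation L (algebraMap K L (π : K)) ^ (e + 1) := by
    intro i m
    have h1 : ((algebraMap K L).comp (algebraMap (𝓞 K) K)) (coeff m (F i - ccA π q' e r n i))
        = algebraMap K L ((coeff m (F i - ccA π q' e r n i) : 𝓞 K) : K) := rfl
    rw [h1, hE, hE, ← pow_mul, mul_comm, pow_mul]
    exact pow_le_pow_left' (val_of_mem_pow _ _ hπ _ _ (hFA i m)) E
  have hsn : ∀ x : Fin (n + 1) → L, (∀ j, P.valuation L (x j) ≤ 1) →
      ∀ i, P.valuation L ((Fin.snoc (α := fun _ => L) x 1 : Fin (n + 2) → L) i) ≤ 1 := by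
    intro x hx i
    induction i using Fin.lastCases with
    | last => rw [Fin.snoc_last, map_one]
    | cast i => rw [Fin.snoc_castSucc]; exact hx i
  constructor
  · rw [hE, hpi]
    exact pow_ne_zero _ (by simp)
  · rw [hE, hpi]
    apply pow_lt_one' _ hE0
    rw [← exp_zero, exp_lt_exp]
    norm_num
  · intro i x hx
    exact v_eval₂_le _ _ _ _ (hcoef i) _ (hsn x hx)
  · intro i x x' δ hx hx' hδ
    apply v_eval₂_sub_le _ _ _ _ _ (hcoef i) _ _ (hsn x hx) (hsn x' hx')
    intro i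
    induction i using Fin.lastCases with
    | last => rw [Fin.snoc_last, Fin.snoc_last, sub_self, map_zero]; exact zero_le
    | cast i => rw [Fin.snoc_castSucc, Fin.snoc_castSucc]; exact hδ i

/-- compatibility with inertia -/
theorem ccH_compat {L : Type u} [Field L] [NumberField L] [Algebra K L] [IsGalois K L]
    (P : HeightOneSpectrum (𝓞 L)) (π : 𝓞 K) (q' e r n : ℕ)
    (F : Fin (n + 2) → MvPolynomial (Fin (n + 2)) (𝓞 K)) :
    Compat (P.valuation L) (algebraMap K L (π : K)) n (ccH L π q' e r n F)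
      {τ : L →+* L | ∃ σ : Gal(L/K), σ ∈ P.asIdeal.inertia Gal(L/K) ∧ τ = (σ : L →+* L)} := by
  constructor
  · rintro τ ⟨σ, hσ, rfl⟩ a
    exact val_inertia P σ hσ a
  · rintro τ ⟨σ, hσ, rfl⟩
    exact σ.commutes (π : K)
  · rintro τ ⟨σ, hσ, rfl⟩ i x
    unfold ccH
    rw [eval₂_comp_left]
    have h1 : ((σ : L →+* L)).comp ((algebraMap K L).comp (algebraMap (𝓞 K) K)) = (algebraMap K L).comp (algebraMap (𝓞 K) K) := by
      ext a
      exact σ.commutes (a : K)
    have h2 : ((σ : L →+* L) : L → L) ∘ (Fin.snoc (α := fun _ => L) x 1 : Fin (n + 2) → L)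
        = Fin.snoc (α := fun _ => L) (fun j => (σ : L →+* L) (x j)) 1 := by
      funext i
      induction i using Fin.lastCases with
      | last => rw [Function.comp_apply, Fin.snoc_last, Fin.snoc_last, map_one]
      | cast i => rw [Function.comp_apply, Fin.snoc_castSucc, Fin.snoc_castSucc]
    rw [h1, h2]

/-- a target all of whose iterated preimages have points fixed by each Galois element is a fixed point -/
theorem cc_fixed (n : ℕ) (𝔭 : HeightOneSpectrum (𝓞 K)) (π : 𝓞 K) (hπ : od 𝔭 (π : K) = 1)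
    (q' r ℓ : ℕ) (hq : q' + 1 = Nat.card (𝓞 K ⧸ 𝔭.asIdeal)) (hq1 : 1 ≤ q') (hℓ : ℓ.Prime)
    (hℓ𝔭 : (ℓ : 𝓞 K) ∉ 𝔭.asIdeal)
    (F : Fin (n + 2) → MvPolynomial (Fin (n + 2)) (𝓞 K))
    (hF : ∀ i, (F i).IsHomogeneous (ℓ + q' + r))
    (hFA : ∀ i m, coeff m (F i - ccA π q' ℓ r n i) ∈ 𝔭.asIdeal ^ (ℓ + 1))
    (g : Fin (n + 2) → 𝓞 K) (hg : ∃ i, g i ∉ 𝔭.asIdeal)
    (hfix : ∀ (N0 : ℕ) (σ : Gal(AlgebraicClosure K/K)), ∃ y : Fin (n + 2) → AlgebraicClosure K, y ≠ 0 ∧
      Par ((pev (algebraMap (𝓞 K) (AlgebraicClosure K)) F)^[N0] y)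
        (fun i => algebraMap (𝓞 K) (AlgebraicClosure K) (g i)) ∧ Par (fun i => σ (y i)) y) :
    Par (pevO F g) g := by
  classical
  have hFA' : ∀ (κ : Type u) [Field κ] (φ : 𝓞 K →+* κ), RingHom.ker φ = 𝔭.asIdeal →
      pev φ F = pev φ (ccA π q' ℓ r n) := by
    intro κ _ φ hφ
    funext y i
    unfold pev
    rw [← sub_eq_zero, ← eval₂_sub]
    have h1 : MvPolynomial.map φ (F i - ccA π q' ℓ r n i) = 0 := by
      ext m
      rw [coeff_map, coeff_zero]
      have h2 : coeff m (F i - ccA π q' ℓ r n i) ∈ RingHom.ker φ := by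
        rw [hφ]
        exact Ideal.pow_le_self (by omega) (hFA i m)
      exact h2
    rw [eval₂_eq_eval_map, h1, map_zero]
  have key : ∀ (m : ℕ) (j : Fin (n + 1)), g (Fin.last (n + 1)) ≠ 0 ∧ 𝔭.valuation K ((g (Fin.castSucc j) * pevO F g (Fin.last (n + 1))
      - pevO F g (Fin.castSucc j) * g (Fin.last (n + 1)) : 𝓞 K) : K) ≤ 𝔭.valuation K (π : K) ^ (m + 1) := by
    intro m j
    obtain ⟨L, hNF, hGal, P, ρ, ϖ, z, hP, hρ, hϖ, hmove, hzL, hzP, hzg, hzρ⟩ :=
      cc_level n 𝔭 π hπ q' r ℓ hq hq1 hℓ F hF hFA' g hg (m + 1) hfix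
    subst hP
    set v := P.valuation L with hv
    have hsm : SmallErr v (algebraMap K L (π : K)) ℓ n (ccH L π q' ℓ r n F) := ccH_small P π hπ q' ℓ r n F hFA
    have hco := ccH_compat P π q' ℓ r n F
    set I : Set (L →+* L) := {τ : L →+* L | ∃ σ : Gal(L/K), σ ∈ P.asIdeal.inertia Gal(L/K) ∧ τ = (σ : L →+* L)} with hI
    have hρI : ((ρ : Gal(L/K)) : L →+* L) ∈ I := ⟨ρ, hρ, rfl⟩
    have hℓP : ((ℓ : ℕ) : 𝓞 L) ∉ P.asIdeal := by
      intro h
      apply hℓ𝔭
      change algebraMap (𝓞 K) (𝓞 L) ((ℓ : ℕ) : 𝓞 K) ∈ P.asIdeal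
      rw [map_natCast]
      exact h
    have hev : v ((ℓ : ℕ) : L) = 1 := by
      have h1 := (P.valuation_eq_one_iff_notMem (K := L)).2 hℓP
      rw [map_natCast] at h1
      exact h1
    have hπ0 : (π : K) ≠ 0 := by
      intro h0
      rw [h0] at hπ
      unfold od at hπ
      simp at hπ
    have hK : ∀ t, ((ρ : Gal(L/K)) : L →+* L) t = t → ∀ k : ℕ, ¬ ℓ ∣ k → v t ^ ℓ ≠ v (algebraMap K L (π : K)) ^ k := by
      intro t ht k hk heq
      have ht0 : t ≠ 0 := by
        rintro rfl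
        rw [map_zero, zero_pow hℓ.ne_zero] at heq
        exact (pow_ne_zero k hsm.pos) heq.symm
      apply kummer_contra P ρ hρ (π : K) hπ0 ϖ ℓ hℓ hϖ hmove hℓP t ht0 ht ℓ k _ dvd_rfl hk
      unfold od
      have h1 := congrArg log heq
      rw [log_pow, log_pow, nsmul_eq_mul, nsmul_eq_mul] at h1
      linarith
    have hV : ∀ a, a ≠ 0 → (∀ τ ∈ I, τ a = a) → v a < 1 → ∃ k : ℕ, 1 ≤ k ∧ v a = v (algebraMap K L (π : K)) ^ k := by
      intro a ha hfixa hlt
      obtain ⟨t, ht⟩ := od_fixed P (P.asIdeal.inertia Gal(L/K)) le_rfl a (by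
        intro h hh
        exact hfixa _ ⟨h, hh, rfl⟩)
      have h1 := od_base P (π : K)
      rw [hπ, mul_one] at h1
      have hva : v a ≠ 0 := (Valuation.ne_zero_iff v).2 ha
      have hpos : (0 : ℤ) < Nat.card (P.asIdeal.inertia Gal(L/K)) := by
        exact_mod_cast Nat.card_pos
      have hoda : 0 < od P a := by
        unfold od
        have h2 : log (v a) < log (1 : ℤᵐ⁰) := (log_lt_log hva one_ne_zero).2 hlt
        rw [log_one] at h2
        have h3 : log (P.valuation L a) < 0 := h2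
        linarith
      have ht1 : 0 < t := by
        rw [ht] at hoda
        exact (mul_pos_iff_of_pos_left hpos).1 hoda
      refine ⟨t.toNat, by omega, ?_⟩
      have h4 : (t.toNat : ℤ) = t := Int.toNat_of_nonneg ht1.le
      rw [← exp_log hva, ← exp_log (pow_ne_zero _ hsm.pos), log_pow, nsmul_eq_mul]
      congr 1
      have h5 : od P a = (t.toNat : ℤ) * od P (algebraMap K L (π : K)) := by
        rw [ht, h1, h4]
        ring
      unfold od at h5
      have h6 : log (v a) = log (P.valuation L a) := rfl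
      have h7 : log (v (algebraMap K L (π : K))) = log (P.valuation L (algebraMap K L (π : K))) := rfl
      rw [h6, h7]
      linarith
    -- the affine coordinates
    set ψ := (algebraMap K L).comp (algebraMap (𝓞 K) K) with hψ
    set zL : Fin (n + 2) → L := fun i => (z i : L) with hzLdef
    have hzL0 : z (Fin.last (n + 1)) ≠ 0 := by
      intro h0
      rw [h0] at hzL
      exact hzL P.asIdeal.zero_mem
    have hzL0' : zL (Fin.last (n + 1)) ≠ 0 := coe_ne_zero'' hzL0
    have hvz : ∀ j, v (aff zL j) < 1 := by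
      intro j
      unfold aff
      rw [map_div₀]
      have h1 : v (zL (Fin.last (n + 1))) = 1 := (P.valuation_eq_one_iff_notMem (K := L)).2 hzL
      rw [h1, div_one]
      exact (P.valuation_lt_one_iff_mem (K := L) _).2 (hzP j)
    have hzLρ : ∀ j, ((ρ : Gal(L/K)) : L →+* L) (aff zL j) = aff zL j := fun j => hzρ (Fin.castSucc j)
    have hiter := aff_iter π q' ℓ r n F hF v hℓ.one_lt.le hsm (m + 1) zL hzL0' hvz
    have hzg' : Par ((pev ψ F)^[m + 1] zL) (fun i => ψ (g i)) := by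
      have h1 := hzg.map (algebraMap (𝓞 L) L)
      rw [pev_iter_map] at h1
      exact h1
    set gL : Fin (n + 2) → L := fun i => ψ (g i) with hgL
    have hψinj : Function.Injective ψ := (algebraMap K L).injective.comp inj_O
    have hgL0 : gL (Fin.last (n + 1)) ≠ 0 := by
      intro h0
      obtain ⟨i, hi⟩ := hg
      have h1 := hzg' i (Fin.last (n + 1))
      change _ * gL (Fin.last (n + 1)) = _ * gL i at h1
      rw [h0, mul_zero] at h1
      have h2 : gL i = 0 := (mul_eq_zero.1 h1.symm).resolve_left hiter.1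
      have h3 : g i = 0 := hψinj (by rw [map_zero]; exact h2)
      rw [h3] at hi
      exact hi (Submodule.zero_mem _)
    have haffg : (lmap (algebraMap K L (π : K)) q' ℓ r n (ccH L π q' ℓ r n F))^[m + 1] (aff zL) = aff gL := by
      rw [← hiter.2]
      funext i
      unfold aff
      rw [div_eq_div_iff hiter.1 hgL0]
      have h1 := hzg' (Fin.castSucc i) (Fin.last (n + 1))
      change _ * gL (Fin.last (n + 1)) = _ * gL (Fin.castSucc i) at h1
      linear_combination h1
    have hmain := dyn_main (q' := q') (r := r) hsm hq1 hℓ.two_le hev hco hρI hK hV m (aff zL) hvz hzLρ (by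
      rintro τ ⟨σ, hσ, rfl⟩ i
      rw [haffg]
      unfold aff
      rw [map_div₀]
      have h1 : ∀ a : 𝓞 K, (σ : L →+* L) (ψ a) = ψ a := fun a => σ.commutes (a : K)
      rw [hgL]
      simp only [h1]) j
    have hgaff := aff_pev π q' ℓ r n F hF gL hgL0
    rw [haffg, Function.iterate_succ_apply', haffg, ← hgaff.1] at hmain
    set hL := pev ψ F gL with hhL
    have hhL' : ∀ i, hL i = ψ (pevO F g i) := by
      intro i
      have h1 := congrFun (pev_map (RingHom.id (𝓞 K)) ψ F g) i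
      rw [RingHom.comp_id] at h1
      exact h1.symm
    have hgv : v (lden q' ℓ r n (ccH L π q' ℓ r n F) (aff gL)) = 1 := by
      apply v_lden hsm hℓ.one_lt.le
      intro i
      rw [← haffg]
      exact lmap_open_iter hsm hℓ.one_lt.le (m + 1) _ hvz i
    have hhL0 : hL (Fin.last (n + 1)) ≠ 0 := by
      rw [hgaff.2]
      apply mul_ne_zero (pow_ne_zero _ hgL0)
      intro h0
      rw [h0, map_zero] at hgv
      exact zero_ne_one hgv
    refine ⟨?_, ?_⟩
    · intro h0
      apply hgL0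
      rw [hgL]
      simp only [h0, map_zero]
    obtain ⟨E, hE0, hE⟩ := val_base (K := K) P
    have hc : v (ψ (g (Fin.castSucc j) * pevO F g (Fin.last (n + 1))
      - pevO F g (Fin.castSucc j) * g (Fin.last (n + 1)))) ≤ v (algebraMap K L (π : K)) ^ (m + 1) := by
      have h1 : ψ (g (Fin.castSucc j) * pevO F g (Fin.last (n + 1))
          - pevO F g (Fin.castSucc j) * g (Fin.last (n + 1)))
          = (aff gL j - aff hL j) * (gL (Fin.last (n + 1)) * hL (Fin.last (n + 1))) := by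
        rw [map_sub, map_mul, map_mul, ← hhL', ← hhL']
        unfold aff
        have h2 : ψ (g (Fin.castSucc j)) = gL (Fin.castSucc j) := rfl
        have h3 : ψ (g (Fin.last (n + 1))) = gL (Fin.last (n + 1)) := rfl
        rw [h2, h3]
        field_simp
      rw [h1, map_mul]
      have hint : ∀ a : 𝓞 K, v (ψ a) ≤ 1 := fun a => P.valuation_le_one (K := L) (algebraMap (𝓞 K) (𝓞 L) a)
      calc v (aff gL j - aff hL j) * v (gL (Fin.last (n + 1)) * hL (Fin.last (n + 1)))
          ≤ v (algebraMap K L (π : K)) ^ (m + 1) * 1 := by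
            apply mul_le_mul' hmain
            rw [hhL', map_mul]
            exact mul_le_one' (hint _) (hint _)
        _ = v (algebraMap K L (π : K)) ^ (m + 1) := mul_one _
    have hc' : ψ (g (Fin.castSucc j) * pevO F g (Fin.last (n + 1))
      - pevO F g (Fin.castSucc j) * g (Fin.last (n + 1))) = algebraMap K L ((g (Fin.castSucc j) * pevO F g (Fin.last (n + 1))
      - pevO F g (Fin.castSucc j) * g (Fin.last (n + 1)) : 𝓞 K) : K) := rfl
    rw [hc', hv, hE, hE, ← pow_mul, mul_comm E, pow_mul] at hc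
    exact pow_le_imp hE0 hc
  have hzero : ∀ j : Fin (n + 1), g (Fin.castSucc j) * pevO F g (Fin.last (n + 1))
      - pevO F g (Fin.castSucc j) * g (Fin.last (n + 1)) = 0 := fun j =>
    eq_zero_of_val 𝔭 (π : K) hπ _ (fun k => (key k j).2)
  have hgl := (key 0 0).1
  have hrow : ∀ i, pevO F g i * g (Fin.last (n + 1)) = pevO F g (Fin.last (n + 1)) * g i := by
    intro i
    induction i using Fin.lastCases with
    | last => rfl
    | cast i =>
      have := hzero i
      linear_combination (-1 : 𝓞 K) * this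
  intro i j
  apply mul_right_cancel₀ hgl
  have h1 := hrow i
  have h2 := hrow j
  linear_combination (g j) * h1 - (g i) * h2

end Main

end Pool.Agent.Lib.MP_df4dfc_nt
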