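import Mathlib
import Pool.Agent.Lib.MP_df4dfc_nt.Defs

/-!
# Definitions for forward invariant hypersurfaces

Points of `ℙ^N` over the algebraic closure `K̄` are represented by nonzero vectors.
-/

set_option autoImplicit false

namespace Pool.Agent.Lib.MP_df4dfc_nt

universe u

variable {K : Type u} [Field K] {N d : ℕ}

/-- The map `K̄^(N+1) → K̄^(N+1)` given by the forms of `Φ`; on nonzero vectors it induces `Φ` on
`ℙ^N(K̄)`. -/
noncomputable def Morph.lift (Φ : Morph K N d) (z : Fin (N + 1) → AlgebraicClosure K) :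
    Fin (N + 1) → AlgebraicClosure K :=
  fun i => MvPolynomial.aeval z (Φ.F i)

/-- `Y` is the set of nonzero vectors representing the points of a Zariski closed subset of
`ℙ^N(K̄)`: the nonzero common zeros of a set of homogeneous polynomials over `K̄`. -/
def ProjClosed (Y : Set (Fin (N + 1) → AlgebraicClosure K)) : Prop :=
  ∃ S : Set (MvPolynomial (Fin (N + 1)) (AlgebraicClosure K)), (∀ f ∈ S, ∃ e : ℕ, f.IsHomogeneous e) ∧
    Y = {z | z ≠ 0 ∧ ∀ f ∈ S, MvPolynomial.eval z f = 0}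

/-- No nonempty Zariski closed set `Y ⊆ ℙ^N(K̄)` contained in the hypersurface `v = 0` satisfies
`Φ^k(Y) ⊆ Y` for some `k ≥ 1`. -/
def NoPeriodicIn (Φ : Morph K N d) (v : MvPolynomial (Fin (N + 1)) K) : Prop :=
  ∀ Y : Set (Fin (N + 1) → AlgebraicClosure K), ProjClosed Y → Y.Nonempty →
    (∀ z ∈ Y, MvPolynomial.aeval z v = 0) → ∀ k : ℕ, 1 ≤ k → ¬ Set.MapsTo (Φ.lift^[k]) Y Y

end Pool.Agent.Lib.MP_df4dfc_nt
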