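import Mathlib
import Pool.Agent.Lib.MP_df4dfc_nt.DefsInv

/-!
# Parametrized subvarieties and restrictions
-/

set_option autoImplicit false

namespace Pool.Agent.Lib.MP_df4dfc_nt

universe u

/-- `p` is a tuple of forms of degree `q ≥ 1` without a common nontrivial zero over the algebraic
closure, `h` is a form, and the morphism `π : ℙ^m → ℙ^N` it defines is injective outside `h = 0`: if `h` does not
vanish at a point `u'` over the algebraic closure and `π(u) = π(u')`, then `u = u'`. -/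
def Parametrizes {K : Type u} [Field K] {m N : ℕ} (p : Fin (N + 1) → MvPolynomial (Fin (m + 1)) K) (q : ℕ)
    (h : MvPolynomial (Fin (m + 1)) K) : Prop :=
  1 ≤ q ∧ (∀ i, (p i).IsHomogeneous q) ∧ (∃ e : ℕ, h.IsHomogeneous e) ∧
    (∀ u : Fin (m + 1) → AlgebraicClosure K, (∀ i, MvPolynomial.aeval u (p i) = 0) → u = 0) ∧
    ∀ (u u' : Fin (m + 1) → AlgebraicClosure K) (c : AlgebraicClosure K), u ≠ 0 → u' ≠ 0 →
      MvPolynomial.aeval u' h ≠ 0 →
      (fun i => MvPolynomial.aeval u (p i)) = c • (fun i => MvPolynomial.aeval u' (p i)) →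
      ∃ c' : AlgebraicClosure K, u = c' • u'

/-- The forms `p` define a morphism `π : ℙ^m → ℙ^N`, injective outside `h = 0` (`Parametrizes`), and `R`
is the restriction of `Φ^l` to its image: `π ∘ R = Φ^l ∘ π`, where `l ≥ 1`. -/
def Morph.Restricts {K : Type u} [Field K] {N m d l : ℕ} (Φ : Morph K N d) (R : Morph K m (d ^ l))
    (p : Fin (N + 1) → MvPolynomial (Fin (m + 1)) K) (q : ℕ) (h : MvPolynomial (Fin (m + 1)) K) : Prop :=
  1 ≤ l ∧ Parametrizes p q h ∧ ∃ b : K, b ≠ 0 ∧ ∀ u : Fin (m + 1) → AlgebraicClosure K,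
    (fun i => MvPolynomial.aeval (R.lift u) (p i)) =
      algebraMap K (AlgebraicClosure K) b • Φ.lift^[l] (fun i => MvPolynomial.aeval u (p i))

end Pool.Agent.Lib.MP_df4dfc_nt
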