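import Mathlib

/-!
# Joining vectors
-/

set_option autoImplicit false

namespace Pool.Agent.Lib.MP_df4dfc_nt

/-- The vector `(x, y) = (x₀, …, x_m, y₀, …, y_n)`. -/
def joinV {m n : ℕ} {T : Type*} (x : Fin (m + 1) → T) (y : Fin (n + 1) → T) : Fin (m + 1 + n + 1) → T :=
  (Fin.append x y : Fin (m + 1 + (n + 1)) → T)

end Pool.Agent.Lib.MP_df4dfc_nt
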