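import Mathlib
import Pool.Agent.Lib.MP_df4dfc_nt.DefsInv

/-!
# Definitions for maps of the plane preserving a line

Here `Φ = (X₀ A : F₁ : F₂)`, so that `Φ` maps the line `X₀ = 0` into itself.
-/

set_option autoImplicit false

namespace Pool.Agent.Lib.MP_df4dfc_nt

open MvPolynomial

universe u

section

variable {K : Type*} [Field K]

/-- `∂₁F₁ ∂₂F₂ - ∂₂F₁ ∂₁F₂`; on the line `X₀ = 0` it vanishes exactly where the restriction of
`(F₁ : F₂)` to the line is ramified (in characteristic zero) -/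
noncomputable def wr (F : Fin 3 → MvPolynomial (Fin 3) K) : MvPolynomial (Fin 3) K :=
  pderiv 1 (F 1) * pderiv 2 (F 2) - pderiv 2 (F 1) * pderiv 1 (F 2)

/-- the Jacobian determinant of `A, F₁, F₂` with respect to `X₀, X₁, X₂` -/
noncomputable def jac (A : MvPolynomial (Fin 3) K) (F : Fin 3 → MvPolynomial (Fin 3) K) : MvPolynomial (Fin 3) K :=
  pderiv 0 A * (pderiv 1 (F 1) * pderiv 2 (F 2) - pderiv 2 (F 1) * pderiv 1 (F 2))
    - pderiv 1 A * (pderiv 0 (F 1) * pderiv 2 (F 2) - pderiv 2 (F 1) * pderiv 0 (F 2))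
    + pderiv 2 A * (pderiv 0 (F 1) * pderiv 1 (F 2) - pderiv 1 (F 1) * pderiv 0 (F 2))

end

/-- The genericity condition for `Φ = (X₀ A : F₁ : F₂)`: at every point `y` of the line `X₀ = 0` with
`A(y) = 0` the polynomials `jac` and `wr` do not vanish and, if the degree is two, `A` and `wr` do not
vanish at `Φ(y)`. -/
def Morph.LineGeneric {K : Type u} [Field K] {d : ℕ} (Φ : Morph K 2 d) (A : MvPolynomial (Fin 3) K) : Prop :=
  ∀ y : Fin 3 → AlgebraicClosure K, y ≠ 0 → y 0 = 0 → aeval y A = 0 →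
    aeval y (jac A Φ.F) ≠ 0 ∧ aeval y (wr Φ.F) ≠ 0 ∧
      (3 ≤ d ∨ (aeval (Φ.lift y) A ≠ 0 ∧ aeval (Φ.lift y) (wr Φ.F) ≠ 0))

end Pool.Agent.Lib.MP_df4dfc_nt
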