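import Mathlib
import Pool.Agent.Lib.MP_df4dfc_nt.DefsInv

/-!
# Definitions for maximal attraction

Closed irreducible subsets `Y` of `ℙ^N` over `K` are given by their homogeneous prime ideals in
`K[X₀, …, X_N]`.
-/

set_option autoImplicit false

namespace Pool.Agent.Lib.MP_df4dfc_nt

open MvPolynomial

universe u

variable {K : Type u} [Field K] {N d : ℕ}

/-- The polynomial `f ∘ Φ^t`. -/
noncomputable def Morph.pull (Φ : Morph K N d) (t : ℕ) (f : MvPolynomial (Fin (N + 1)) K) :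
    MvPolynomial (Fin (N + 1)) K :=
  (bind₁ Φ.F)^[t] f

/-- `I` is the homogeneous ideal of a nonempty closed irreducible subset `Y` of `ℙ^N` over `K`: a
prime ideal which is generated by forms and does not contain all the variables. -/
def IsIrrIdeal (I : Ideal (MvPolynomial (Fin (N + 1)) K)) : Prop :=
  I.IsPrime ∧ (∃ S : Set (MvPolynomial (Fin (N + 1)) K), (∀ f ∈ S, ∃ m : ℕ, f.IsHomogeneous m) ∧ I = Ideal.span S) ∧
    ∃ i, (X i : MvPolynomial (Fin (N + 1)) K) ∉ I

/-- `Φ^t(Y) = Y`: a form `f` vanishes on `Y` if and only if `f ∘ Φ^t` does. -/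
def Morph.Fixes (Φ : Morph K N d) (t : ℕ) (I : Ideal (MvPolynomial (Fin (N + 1)) K)) : Prop :=
  ∀ (f : MvPolynomial (Fin (N + 1)) K) (m : ℕ), f.IsHomogeneous m → (f ∈ I ↔ Φ.pull t f ∈ I)

/-- Attraction to `Y` of order less than the degree: there are `t` with `Φ^t(Y) ⊆ Y` and `e < d^t`
such that `I_Y^e` is contained in the ideal generated by `(Φ^t)^* I_Y` and `Z` at the generic point of
`Y`, i.e. after multiplication by some `s ∉ I_Y`. -/
def Morph.Mild (Φ : Morph K N d) (Z : Set (MvPolynomial (Fin (N + 1)) K)) (I : Ideal (MvPolynomial (Fin (N + 1)) K)) :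
    Prop :=
  ∃ t e : ℕ, e < d ^ t ∧ (∀ f ∈ I, Φ.pull t f ∈ I) ∧
    ∃ s : MvPolynomial (Fin (N + 1)) K, s ∉ I ∧ ∀ f ∈ I ^ e, s * f ∈ Ideal.span (Φ.pull t '' I ∪ Z)

/-- No periodic closed irreducible `Y` contained in the closed set `Z = 0` and in the hypersurface
`v = 0` is of maximal attraction. -/
def Morph.NoMaxIn (Φ : Morph K N d) (Z : Set (MvPolynomial (Fin (N + 1)) K)) (v : MvPolynomial (Fin (N + 1)) K) : Prop :=
  ∀ I : Ideal (MvPolynomial (Fin (N + 1)) K), IsIrrIdeal I → Z ⊆ I → v ∈ I → (∃ t : ℕ, 1 ≤ t ∧ Φ.Fixes t I) →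
    Φ.Mild Z I

end Pool.Agent.Lib.MP_df4dfc_nt
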