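import Mathlib

/-!
# Symmetric products of points of the projective line
-/

set_option autoImplicit false

namespace Pool.Agent.Lib.MP_df4dfc_nt

/-- The coefficients of the polynomial `∏_j (u_{j0} + u_{j1} T)` of degree at most `N`. For nonzero
vectors `u_1, …, u_N` these are homogeneous coordinates of the unordered `N`-tuple of the points
`u_j` of `ℙ¹`, considered as a point of `ℙ^N`, the `N`-th symmetric product of `ℙ¹`. -/
noncomputable def symV {N : ℕ} {T : Type*} [CommRing T] (u : Fin N → Fin 2 → T) : Fin (N + 1) → T :=
  fun i => (∏ j, (Polynomial.C (u j 0) + Polynomial.C (u j 1) * Polynomial.X)).coeff i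

end Pool.Agent.Lib.MP_df4dfc_nt
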