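import Mathlib
import Pool.Agent.Lib.MP_df4dfc_nt.DefsMax
import Pool.Agent.Lib.MP_df4dfc_nt.DefsLine
import Pool.Agent.Lib.MP_df4dfc_nt.DefsJoin
import Pool.Agent.Lib.MP_df4dfc_nt.DefsSym
import Pool.Agent.Lib.MP_df4dfc_nt.DefsEmb

/-!
# Towers

`Tower Φ` means that the morphism `Φ` belongs to the class of towers: the least class of morphisms of
degree at least two of projective spaces over fields that contains

* all morphisms of `ℙ⁰` and `ℙ¹`,
* the symmetric products of all morphisms of `ℙ¹`,
* the morphisms `(X₀ A : F₁ : F₂)` of `ℙ²` preserving the line `X₀ = 0` which satisfy the open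
  condition `Morph.LineGeneric`,

and is closed under

* fibrations over a linear projection (the centre `Y = 0` of the projection is fixed, the map on the
  centre, the map on the base and all return maps on the fibres over rational periodic points of the
  base are towers),
* extension from a forward invariant hypersurface `W` all of whose points are preperiodic or mapped by
  iterates into finitely many birationally parametrized subvarieties `π(ℙ^m)` on which iterates of `Φ`
  restrict to towers (for instance, an invariant hyperplane, or rational curves in the plane), if some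
  hypersurface that an iterate of `Φ` maps into `W` contains no periodic closed irreducible set of
  maximal attraction,
* semiconjugacies by morphisms (if an iterate of `Φ` is semiconjugate by a morphism of projective
  spaces to a tower, then `Φ` is a tower; this includes changes of coordinates and roots),
* iterates, and descent of the base field.
-/

set_option autoImplicit false

namespace Pool.Agent.Lib.MP_df4dfc_nt

universe u

/-- The class of towers, see the header of this file. -/
inductive Tower : ∀ {K : Type u} [Field K] {N d : ℕ}, Morph K N d → Prop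
  /-- every morphism of degree at least two of `ℙ⁰` or `ℙ¹` -/
  | base {K : Type u} [Field K] {N d : ℕ} (Φ : Morph K N d) : N ≤ 1 → 2 ≤ d → Tower Φ
  /-- the `N`-th symmetric product of a morphism `f` of `ℙ¹`: unordered `N`-tuples of points of `ℙ¹`
  are mapped by `f` -/
  | sym {K : Type u} [Field K] {N d : ℕ} (Φ : Morph K N d) (f : Morph K 1 d) : 2 ≤ d →
      (∀ u : Fin N → Fin 2 → AlgebraicClosure K, Φ.lift (symV u) = symV (fun j => f.lift (u j))) → Tower Φ
  /-- generic morphisms of the plane preserving a line -/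
  | line {K : Type u} [Field K] {d : ℕ} (Φ : Morph K 2 d) (A : MvPolynomial (Fin 3) K) : 2 ≤ d →
      A.IsHomogeneous (d - 1) → Φ.F 0 = MvPolynomial.X 0 * A → Φ.LineGeneric A → Tower Φ
  /-- fibrations: `Φ(x, y) = (…, Ψ(y))`, `Φ(x, 0) = (Λ(x), 0)` and, if `b` is a `K`-rational point with
  `Ψ^l(b) = b`, then `R` is the restriction of `Φ^l` to the linear space of the points `(x, t b)` with
  the coordinates `w = (t, x)` -/
  | fib {K : Type u} [Field K] {m n d : ℕ} (Φ : Morph K (m + 1 + n) d) (Λ : Morph K m d) (Ψ : Morph K n d) :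
      (∀ (x : Fin (m + 1) → AlgebraicClosure K) (y : Fin (n + 1) → AlgebraicClosure K),
        ∃ x' : Fin (m + 1) → AlgebraicClosure K, Φ.lift (joinV x y) = joinV x' (Ψ.lift y)) →
      (∀ x : Fin (m + 1) → AlgebraicClosure K, Φ.lift (joinV x 0) = joinV (Λ.lift x) 0) →
      Tower Λ → Tower Ψ →
      (∀ (l : ℕ) (b : Fin (n + 1) → K) (R : Morph K (m + 1) (d ^ l)), 1 ≤ l → b ≠ 0 →
        (∀ w : Fin (m + 1 + 1) → AlgebraicClosure K,
          Φ.lift^[l] (joinV (Fin.tail w) (fun i => w 0 * algebraMap K (AlgebraicClosure K) (b i))) =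
            joinV (Fin.tail (R.lift w)) (fun i => R.lift w 0 * algebraMap K (AlgebraicClosure K) (b i))) →
        Tower R) →
      Tower Φ
  /-- extension from a forward invariant hypersurface `w = 0`: `v` is a form of positive degree whose
  zeros are mapped into `w = 0` by the `a`-th iterate, `v = 0` contains no periodic closed irreducible
  set of maximal attraction (`Morph.NoMaxIn`), and every point of `w = 0` is preperiodic or mapped by an
  iterate of `Φ` to a point `π_t(u)`, `h_t(u) ≠ 0`, where `π_t : ℙ^{m_t} → ℙ^N`, `t < r`, are finitely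
  many morphisms, injective outside `h_t = 0`, such that iterates of `Φ` restrict to towers `R_t` on
  their images -/
  | ext {K : Type u} [Field K] {N d r : ℕ} (Φ : Morph K N d) (w v : MvPolynomial (Fin (N + 1)) K)
      (Dw D a : ℕ) (m l q : Fin r → ℕ) (R : ∀ t, Morph K (m t) (d ^ l t))
      (p : ∀ t, Fin (N + 1) → MvPolynomial (Fin (m t + 1)) K) (h : ∀ t, MvPolynomial (Fin (m t + 1)) K) :
      2 ≤ d → w.IsHomogeneous Dw → v.IsHomogeneous D → 1 ≤ D →
      (∀ z : Fin (N + 1) → AlgebraicClosure K, MvPolynomial.aeval z w = 0 → MvPolynomial.aeval (Φ.lift z) w = 0) →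
      (∀ z : Fin (N + 1) → AlgebraicClosure K, MvPolynomial.aeval z v = 0 → MvPolynomial.aeval (Φ.lift^[a] z) w = 0) →
      Φ.NoMaxIn ∅ v →
      (∀ t, Φ.Restricts (R t) (p t) (q t) (h t)) →
      (∀ z : Fin (N + 1) → AlgebraicClosure K, z ≠ 0 → MvPolynomial.aeval z w = 0 →
        (∃ (i j : ℕ) (c : AlgebraicClosure K), i < j ∧ Φ.lift^[j] z = c • Φ.lift^[i] z) ∨
        ∃ (j : ℕ) (t : Fin r) (u : Fin (m t + 1) → AlgebraicClosure K), MvPolynomial.aeval u (h t) ≠ 0 ∧
          Φ.lift^[j] z = fun i => MvPolynomial.aeval u (p t i)) →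
      (∀ t, Tower (R t)) → Tower Φ
  /-- semiconjugacies: the forms `p` of degree `q` define a morphism `π` with `π ∘ Φ^k = Ψ ∘ π` -/
  | semi {K : Type u} [Field K] {N M d k q : ℕ} (Φ : Morph K N d) (Ψ : Morph K M (d ^ k))
      (p : Fin (M + 1) → MvPolynomial (Fin (N + 1)) K) (c : K) :
      1 ≤ k → 1 ≤ q → (∀ i, (p i).IsHomogeneous q) →
      (∀ z : Fin (N + 1) → AlgebraicClosure K, (∀ i, MvPolynomial.aeval z (p i) = 0) → z = 0) → c ≠ 0 →
      (∀ z : Fin (N + 1) → AlgebraicClosure K,
        (fun i => MvPolynomial.aeval (Φ.lift^[k] z) (p i)) =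
          algebraMap K (AlgebraicClosure K) c • Ψ.lift (fun i => MvPolynomial.aeval z (p i))) →
      Tower Ψ → Tower Φ
  /-- iterates: `Ψ = Φ^k` -/
  | iter {K : Type u} [Field K] {N d : ℕ} (k : ℕ) (Φ : Morph K N d) (Ψ : Morph K N (d ^ k)) :
      1 ≤ k → (∀ z : Fin (N + 1) → AlgebraicClosure K, Ψ.lift z = Φ.lift^[k] z) →
      Tower Φ → Tower Ψ
  /-- the map `Φ` over `K` is a tower if it is a tower over a finite extension of `K` -/
  | descent {K K' : Type u} [Field K] [Field K'] [Algebra K K'] [FiniteDimensional K K'] {N d : ℕ}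
      (Φ : Morph K N d) (Ψ : Morph K' N d) :
      (∀ i, Ψ.F i = MvPolynomial.map (algebraMap K K') (Φ.F i)) →
      Tower Ψ → Tower Φ

end Pool.Agent.Lib.MP_df4dfc_nt
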