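import Mathlib

set_option autoImplicit false
set_option linter.unusedSectionVars false
set_option linter.style.haveILetI false
set_option linter.unusedVariables false

/-! Homogeneous multipliers. -/

namespace Pool.Agent.Lib.MP_df4dfc_nt

open MvPolynomial

attribute [local instance] MvPolynomial.gradedAlgebra

variable {K : Type*} [Field K] {ι : Type*}

theorem hc_mul (s f : MvPolynomial ι K) {k : ℕ} (hf : f.IsHomogeneous k) (m : ℕ) :
    homogeneousComponent (m + k) (s * f) = homogeneousComponent m s * f := by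
  conv_lhs => rw [← sum_homogeneousComponent s, Finset.sum_mul, map_sum]
  have h1 : ∀ i, homogeneousComponent (m + k) (homogeneousComponent i s * f)
      = if m = i then homogeneousComponent i s * f else 0 := by
    intro i
    have h2 : (homogeneousComponent i s * f).IsHomogeneous (i + k) := (homogeneousComponent_isHomogeneous i s).mul hf
    rw [homogeneousComponent_of_mem ((mem_homogeneousSubmodule _ _).2 h2)]
    by_cases h : m = i
    · rw [if_pos h, if_pos (by omega)]
    · rw [if_neg h, if_neg (by omega)]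
  rw [Finset.sum_congr rfl (fun i _ => h1 i)]
  rw [Finset.sum_ite_eq]
  split_ifs with h
  · rfl
  · rw [Finset.mem_range, not_lt] at h
    rw [homogeneousComponent_eq_zero m s (by omega), zero_mul]

theorem span_homog {T : Set (MvPolynomial ι K)} (hT : ∀ f ∈ T, ∃ m : ℕ, f.IsHomogeneous m) :
    (Ideal.span T).IsHomogeneous (homogeneousSubmodule ι K) := by
  apply Ideal.homogeneous_span
  intro f hf
  obtain ⟨m, hm⟩ := hT f hf
  exact ⟨m, (mem_homogeneousSubmodule m f).2 hm⟩

theorem pow_homog {I : Ideal (MvPolynomial ι K)} (hI : I.IsHomogeneous (homogeneousSubmodule ι K)) (e : ℕ) :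
    (I ^ e).IsHomogeneous (homogeneousSubmodule ι K) := by
  induction e with
  | zero =>
    rw [pow_zero, Ideal.one_eq_top]
    exact Ideal.IsHomogeneous.top _
  | succ e ih =>
    rw [pow_succ]
    exact ih.mul hI

/-- a multiplier outside a homogeneous ideal can be replaced by a homogeneous one -/
theorem exists_homog_mult {T T' : Set (MvPolynomial ι K)} (hT : ∀ f ∈ T, ∃ m : ℕ, f.IsHomogeneous m)
    (hT' : ∀ f ∈ T', ∃ m : ℕ, f.IsHomogeneous m) {e : ℕ} {s : MvPolynomial ι K} (hs : s ∉ Ideal.span T)
    (h : ∀ f ∈ (Ideal.span T) ^ e, s * f ∈ Ideal.span T') :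
    ∃ s' : MvPolynomial ι K, (∃ m : ℕ, s'.IsHomogeneous m) ∧ s' ∉ Ideal.span T ∧
      ∀ f ∈ (Ideal.span T) ^ e, s' * f ∈ Ideal.span T' := by
  have h1 := span_homog hT
  have h2 := span_homog hT'
  have h3 := pow_homog h1 e
  rw [mem_iff_homogeneousComponent_mem h1] at hs
  push Not at hs
  obtain ⟨m, hm⟩ := hs
  refine ⟨homogeneousComponent m s, ⟨m, homogeneousComponent_isHomogeneous m s⟩, hm, ?_⟩
  intro f hf
  rw [← sum_homogeneousComponent f, Finset.mul_sum]
  apply Ideal.sum_mem
  intro k _
  have hfk := homogeneousComponent_mem_of_mem h3 hf k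
  have h4 := homogeneousComponent_mem_of_mem h2 (h _ hfk) (m + k)
  rw [hc_mul _ _ (homogeneousComponent_isHomogeneous k f)] at h4
  exact h4

end Pool.Agent.Lib.MP_df4dfc_nt
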