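import Mathlib
import Pool.Agent.Lib.MP_df4dfc_nt.Glue

set_option autoImplicit false
set_option linter.unusedSectionVars false
set_option linter.style.haveILetI false
set_option linter.unusedVariables false

namespace Pool.Agent.Lib.MP_df4dfc_nt

open MvPolynomial NumberField IsDedekindDomain Height

universe u

section Abv

variable {K : Type*} [Field K] {ι : Type*}

/-- sum of the absolute values of the coefficients -/
noncomputable def cb (v : AbsoluteValue K ℝ) (p : MvPolynomial ι K) : ℝ :=
  ∑ m ∈ p.support, v (p.coeff m)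

theorem cb_nonneg (v : AbsoluteValue K ℝ) (p : MvPolynomial ι K) : 0 ≤ cb v p :=
  Finset.sum_nonneg fun m _ => v.nonneg _

theorem eval_le_cb (v : AbsoluteValue K ℝ) (p : MvPolynomial ι K) (y : ι → K) (hy : ∀ i, v (y i) ≤ 1) :
    v (eval y p) ≤ cb v p := by
  rw [eval_eq]
  refine (v.sum_le _ _).trans (Finset.sum_le_sum ?_)
  intro m hm
  rw [map_mul, map_prod]
  apply mul_le_of_le_one_right (v.nonneg _)
  apply Finset.prod_le_one
  · intro i _
    exact v.nonneg _
  · intro i _
    rw [map_pow]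
    exact pow_le_one₀ (v.nonneg _) (hy i)

/-- A lower bound from the Nullstellensatz. -/
theorem local_bound [Finite ι] {Ω : Type*} [Field Ω] [Algebra K Ω] [IsAlgClosed Ω]
    (v : AbsoluteValue K ℝ) (k : ι) (Rr : Set (MvPolynomial ι K)) {τ : Type*} (J : Finset τ)
    (q : τ → MvPolynomial ι K)
    (h : ∀ z : ι → Ω, z k = 1 → (∀ r ∈ Rr, aeval z r = 0) → ∃ t ∈ J, aeval z (q t) ≠ 0) :
    ∃ δ : ℝ, 0 < δ ∧ ∀ y : ι → K, y k = 1 → (∀ i, v (y i) ≤ 1) → (∀ r ∈ Rr, eval y r = 0) →
      ∃ t ∈ J, δ ≤ v (eval y (q t)) := by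
  classical
  set I : Ideal (MvPolynomial ι K) := Ideal.span (insert (X k - 1) Rr) with hI
  have hone : (1 : MvPolynomial ι K) ∈ I ⊔ Ideal.span (q '' (J : Set τ)) := by
    have h1 : (1 : MvPolynomial ι K) ∈ (I ⊔ Ideal.span (q '' (J : Set τ))).radical := by
      rw [← vanishingIdeal_zeroLocus_eq_radical (K := Ω), mem_vanishingIdeal_iff]
      intro z hz
      rw [mem_zeroLocus_iff] at hz
      exfalso
      obtain ⟨t, ht, ht'⟩ := h z (by
        have := hz (X k - 1) (Ideal.mem_sup_left (Ideal.subset_span (Set.mem_insert _ _)))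
        rw [map_sub, aeval_X, map_one, sub_eq_zero] at this
        exact this) (by
        intro r hr
        exact hz r (Ideal.mem_sup_left (Ideal.subset_span (Set.mem_insert_of_mem _ hr))))
      exact ht' (hz _ (Ideal.mem_sup_right (Ideal.subset_span ⟨t, ht, rfl⟩)))
    rw [← Ideal.eq_top_iff_one, Ideal.radical_eq_top] at h1
    rw [h1]
    exact Submodule.mem_top
  obtain ⟨b, hb, c, hc, hbc⟩ := Submodule.mem_sup.1 hone
  obtain ⟨a0, ha0⟩ := (Submodule.mem_span_image_finset_iff_exists_fun _).1 hc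
  set a : τ → MvPolynomial ι K := fun t => if h : t ∈ J then a0 ⟨t, h⟩ else 0 with hadef
  have ha : ∑ t ∈ J, a t • q t = c := by
    rw [← ha0, ← Finset.sum_coe_sort J]
    apply Finset.sum_congr rfl
    intro t _
    simp only [hadef, t.2, dif_pos, Subtype.coe_eta]
  set M : ℝ := ∑ t ∈ J, cb v (a t) with hM
  have hM0 : 0 ≤ M := Finset.sum_nonneg fun t _ => cb_nonneg v _
  refine ⟨1 / (M + 1), by positivity, ?_⟩
  intro y hyk hy hr
  by_contra hcon
  push Not at hcon
  have hb0 : eval y b = 0 := by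
    have : I ≤ RingHom.ker (eval y) := by
      rw [hI, Ideal.span_le]
      intro r hr'
      rw [SetLike.mem_coe, RingHom.mem_ker]
      rcases hr' with rfl | hr'
      · simp [hyk]
      · exact hr r hr'
    exact this hb
  have h1 : (1 : K) = ∑ t ∈ J, eval y (a t) * eval y (q t) := by
    have := congrArg (eval y) hbc
    rw [map_add, hb0, zero_add, map_one, ← ha, map_sum] at this
    rw [← this]
    apply Finset.sum_congr rfl
    intro t _
    rw [smul_eq_mul, map_mul]
  have h2 : (1 : ℝ) ≤ ∑ t ∈ J, cb v (a t) * v (eval y (q t)) := by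
    calc (1 : ℝ) = v 1 := (map_one v).symm
      _ = v (∑ t ∈ J, eval y (a t) * eval y (q t)) := by rw [← h1]
      _ ≤ ∑ t ∈ J, v (eval y (a t) * eval y (q t)) := v.sum_le _ _
      _ ≤ ∑ t ∈ J, cb v (a t) * v (eval y (q t)) := by
        apply Finset.sum_le_sum
        intro t _
        rw [map_mul]
        exact mul_le_mul_of_nonneg_right (eval_le_cb v _ y hy) (v.nonneg _)
  have h3 : ∑ t ∈ J, cb v (a t) * v (eval y (q t)) ≤ M * (1 / (M + 1)) := by
    rw [hM, Finset.sum_mul]
    apply Finset.sum_le_sum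
    intro t ht
    exact mul_le_mul_of_nonneg_left (hcon t ht).le (cb_nonneg v _)
  have h4 : M * (1 / (M + 1)) < 1 := by
    rw [mul_one_div, div_lt_one (by positivity)]
    linarith
  linarith

end Abv

section Northcott

variable {K : Type u} [Field K] [NumberField K] {ι : Type*} [Finite ι]

/-- a sequence of pairwise distinct points has heights tending to infinity -/
theorem northcott_seq (x : ℕ → ι → K) (hx : ∀ n, x n ≠ 0) (hpar : ∀ m n, m < n → ¬ Par (x m) (x n))
    (B : ℝ) : ∃ n₀, ∀ n, n₀ ≤ n → B < mulHeight (x n) := by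
  have hk : ∀ n, ∃ k, x n k ≠ 0 := fun n => Function.ne_iff.1 (hx n)
  choose k hk using hk
  set y : ℕ → ι → K := fun n i => x n i / x n (k n) with hy
  have hyb : ∀ n i, mulHeight₁ (y n i) ≤ mulHeight (x n) := by
    intro n i
    rw [hy]
    simp only
    rw [mulHeight₁_div_eq_mulHeight]
    have h1 := mulHeight_comp_le (![i, k n]) (x n)
    have h2 : x n ∘ ![i, k n] = ![x n i, x n (k n)] := by
      funext a
      fin_cases a <;> rfl
    rw [h2] at h1
    exact h1
  have hinj : Function.Injective y := by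
    intro m n hmn
    by_contra hne
    have hpar' : Par (x m) (x n) := by
      intro i j
      have h1 := congrFun hmn i
      have h2 := congrFun hmn j
      simp only [hy] at h1 h2
      have e1 : x m i = x m (k m) * (x n i / x n (k n)) := by
        rw [← h1]; field_simp [hk m]
      have e2 : x m j = x m (k m) * (x n j / x n (k n)) := by
        rw [← h2]; field_simp [hk m]
      rw [e1, e2]
      ring
    rcases lt_or_gt_of_ne hne with h | h
    · exact hpar m n h hpar'
    · exact hpar n m h hpar'.symm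
  have hfin : {n | mulHeight (x n) ≤ B}.Finite := by
    apply Set.Finite.of_finite_image (f := y) _ hinj.injOn
    apply (Set.Finite.pi' (fun i : ι => NumberField.finite_setOfPred_mulHeight₁_le K B)).subset
    rintro _ ⟨n, hn, rfl⟩ i
    exact (hyb n i).trans hn
  obtain ⟨n₀, hn₀⟩ := hfin.bddAbove
  refine ⟨n₀ + 1, ?_⟩
  intro n hn
  by_contra hcon
  push Not at hcon
  have := hn₀ hcon
  omega

end Northcott

section Heavy

variable {K : Type u} [Field K] [NumberField K] {ι : Type*} [Finite ι]

open scoped Classical in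
/-- **Product formula**: an integral value prime to all primes outside `S` at a point of large
height is small at some place of `S` or at some infinite place. -/
theorem heavy_place (S : Finset (HeightOneSpectrum (𝓞 K))) (D : ℕ) (hD : 1 ≤ D) (ε : ℝ) (hε : 0 < ε) :
    ∃ B : ℝ, ∀ (x : ι → 𝓞 K) (b : 𝓞 K), x ≠ 0 → b ≠ 0 →
      (∀ p : HeightOneSpectrum (𝓞 K), p ∉ S → (∃ i, x i ∉ p.asIdeal) ∧ b ∉ p.asIdeal) →
      B < mulHeight (fun i => (x i : K)) →
      (∃ v : InfinitePlace K, v.1 (b : K) ≤ ε * (⨆ i, v.1 (x i : K)) ^ D) ∨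
      (∃ p ∈ S, (FinitePlace.mk p).1 (b : K) ≤ ε * (⨆ i, (FinitePlace.mk p).1 (x i : K)) ^ D) := by
  set s : ℕ := (∑ v : InfinitePlace K, v.mult) + S.card with hs
  refine ⟨(ε ^ s)⁻¹, ?_⟩
  intro x b hx hb hout hB
  by_contra hcon
  push Not at hcon
  obtain ⟨hinf, hfin⟩ := hcon
  have hxK : (fun i => (x i : K)) ≠ 0 := by
    intro h
    apply hx
    funext i
    apply inj_O
    rw [Pi.zero_apply, map_zero]
    exact congrFun h i
  have hbK : (b : K) ≠ 0 := by
    intro h
    apply hb
    apply inj_O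
    rw [map_zero]
    exact h
  obtain ⟨i0, hi0⟩ := Function.ne_iff.1 hxK
  haveI : Nonempty ι := ⟨i0⟩
  -- the finite places
  set T : Finset (FinitePlace K) := S.map ⟨FinitePlace.mk, fun a b h => FinitePlace.mk_eq_iff.1 h⟩ with hT
  have hTmem : ∀ w : FinitePlace K, w ∉ T → w.maximalIdeal ∉ S := by
    intro w hw hmem
    apply hw
    rw [hT, Finset.mem_map]
    exact ⟨w.maximalIdeal, hmem, FinitePlace.mk_maximalIdeal w⟩
  have hw1 : ∀ w : FinitePlace K, ∀ a : 𝓞 K, w (a : K) ≤ 1 := by
    intro w a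
    rw [← FinitePlace.norm_embedding_eq]
    exact FinitePlace.norm_le_one K w.maximalIdeal a
  have hwe : ∀ w : FinitePlace K, ∀ a : 𝓞 K, a ∉ w.maximalIdeal.asIdeal → w (a : K) = 1 := by
    intro w a ha
    rw [← FinitePlace.norm_embedding_eq]
    exact (FinitePlace.norm_eq_one_iff_notMem K w.maximalIdeal a).2 ha
  have hprodb : ∏ᶠ w : FinitePlace K, w (b : K) = ∏ w ∈ T, w (b : K) := by
    apply finprod_eq_prod_of_mulSupport_subset
    intro w hw
    by_contra hwT
    apply hw
    exact hwe w b (hout _ (hTmem w hwT)).2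
  have hprodx : ∏ᶠ w : FinitePlace K, ⨆ i, w (x i : K) = ∏ w ∈ T, ⨆ i, w (x i : K) := by
    apply finprod_eq_prod_of_mulSupport_subset
    intro w hw
    by_contra hwT
    apply hw
    obtain ⟨i, hi⟩ := (hout _ (hTmem w hwT)).1
    apply le_antisymm
    · exact ciSup_le fun j => hw1 w (x j)
    · rw [← hwe w (x i) hi]
      exact Finite.le_ciSup_of_le i le_rfl
  have hpf := prod_abs_eq_one hbK
  rw [hprodb] at hpf
  have hH := NumberField.mulHeight_eq hxK
  rw [hprodx] at hH
  -- lower bound
  have hsupnn : ∀ (w : K → ℝ), (∀ a, 0 ≤ w a) → 0 ≤ ⨆ i, w (x i : K) := by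
    intro w hw
    exact Real.iSup_nonneg fun i => hw _
  have h1 : (∏ v : InfinitePlace K, (ε * (⨆ i, v (x i : K)) ^ D) ^ v.mult) * ∏ w ∈ T, (ε * (⨆ i, w (x i : K)) ^ D)
      ≤ 1 := by
    rw [← hpf]
    apply mul_le_mul
    · apply Finset.prod_le_prod
      · intro v _
        have := hsupnn v (fun a => apply_nonneg v a)
        positivity
      · intro v _
        have := hsupnn v (fun a => apply_nonneg v a)
        apply pow_le_pow_left₀ (by positivity)
        exact (hinf v).le
    · apply Finset.prod_le_prod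
      · intro w _
        have := hsupnn w (fun a => apply_nonneg w a)
        positivity
      · intro w hw
        rw [hT, Finset.mem_map] at hw
        obtain ⟨p, hp, rfl⟩ := hw
        exact (hfin p hp).le
    · apply Finset.prod_nonneg
      intro w _
      have := hsupnn w (fun a => apply_nonneg w a)
      positivity
    · apply Finset.prod_nonneg
      intro v _
      exact pow_nonneg (apply_nonneg v _) _
  have h2 : (∏ v : InfinitePlace K, (ε * (⨆ i, v (x i : K)) ^ D) ^ v.mult) * ∏ w ∈ T, (ε * (⨆ i, w (x i : K)) ^ D)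
      = ε ^ s * (mulHeight (fun i => (x i : K))) ^ D := by
    rw [hH]
    have e1 : ∏ v : InfinitePlace K, (ε * (⨆ i, v (x i : K)) ^ D) ^ v.mult
        = ε ^ (∑ v : InfinitePlace K, v.mult) * (∏ v : InfinitePlace K, (⨆ i, v (x i : K)) ^ v.mult) ^ D := by
      rw [← Finset.prod_pow_eq_pow_sum, ← Finset.prod_pow, ← Finset.prod_mul_distrib]
      apply Finset.prod_congr rfl
      intro v _
      rw [mul_pow, ← pow_mul, ← pow_mul, mul_comm D]
    have e2 : ∏ w ∈ T, (ε * (⨆ i, w (x i : K)) ^ D) = ε ^ S.card * (∏ w ∈ T, ⨆ i, w (x i : K)) ^ D := by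
      rw [Finset.prod_mul_distrib, Finset.prod_const, Finset.prod_pow, hT, Finset.card_map]
    rw [e1, e2, hs, pow_add, mul_pow]
    ring
  rw [h2] at h1
  have hge := one_le_mulHeight (fun i => (x i : K))
  have h3 : mulHeight (fun i => (x i : K)) ≤ (mulHeight (fun i => (x i : K))) ^ D :=
    le_self_pow₀ hge (by omega)
  have h4 : ε ^ s * mulHeight (fun i => (x i : K)) ≤ 1 :=
    (mul_le_mul_of_nonneg_left h3 (by positivity)).trans h1
  have h5 : mulHeight (fun i => (x i : K)) ≤ (ε ^ s)⁻¹ := by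
    rw [inv_eq_one_div, le_div_iff₀ (by positivity)]
    linarith
  linarith

end Heavy

end Pool.Agent.Lib.MP_df4dfc_nt
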