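import Mathlib
import Pool.Agent.Lib.MP_df4dfc_nt.Iv1

set_option autoImplicit false
set_option linter.unusedSectionVars false
set_option linter.style.haveILetI false
set_option linter.unusedVariables false

namespace Pool.Agent.Lib.MP_df4dfc_nt

open MvPolynomial NumberField IsDedekindDomain Height

universe u

section Intg

variable {K : Type u} [Field K] [NumberField K] {ι : Type*} [Fintype ι]

/-- the orbit of `g` is periodic modulo almost all primes -/
def PerAE (G : ι → MvPolynomial ι (𝓞 K)) (g : ι → 𝓞 K) : Prop :=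
  {p : HeightOneSpectrum (𝓞 K) | ¬ ∃ m : ℕ, 1 ≤ m ∧
    Par (fun i => redK p ((pevO G)^[m] g i)) (fun i => redK p (g i))}.Finite

theorem eval₂_bind₁' {R T : Type*} [CommRing R] [CommRing T] (φ : R →+* T) (G : ι → MvPolynomial ι R)
    (x : ι → T) (p : MvPolynomial ι R) : eval₂ φ x (bind₁ G p) = eval₂ φ (pev φ G x) p := by
  change eval₂ φ x (bind₁ G p) = eval₂ φ (fun i => eval₂ φ x (G i)) p
  have := eval₂Hom_bind₁ φ x G p
  simpa [coe_eval₂Hom] using this

theorem eval₂_eval {R T : Type*} [CommRing R] [CommRing T] (φ : R →+* T) (x : ι → R) (p : MvPolynomial ι R) :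
    φ (eval x p) = eval₂ φ (fun i => φ (x i)) p := by
  have := eval₂_comp_left φ (RingHom.id R) x p
  rw [RingHom.comp_id] at this
  exact this

/-- orbits that are periodic modulo almost all primes avoid, modulo almost all primes, the
hypersurfaces that are mapped into a forward invariant hypersurface. -/
theorem integral_orbit (G : ι → MvPolynomial ι (𝓞 K)) {d : ℕ} (hG : ∀ i, (G i).IsHomogeneous d)
    (hNZ : NZ (algebraMap (𝓞 K) (AlgebraicClosure K)) G) (g : ι → 𝓞 K) (hg : g ≠ 0) (hper : PerAE G g)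
    (Rr : Set (MvPolynomial ι (𝓞 K))) (hR : ∀ n, ∀ r ∈ Rr, eval ((pevO G)^[n] g) r = 0)
    (w v : MvPolynomial ι (𝓞 K)) {Dw : ℕ} (hw : w.IsHomogeneous Dw)
    (hinv : ∀ z : ι → AlgebraicClosure K, (∀ r ∈ Rr, eval₂ (algebraMap (𝓞 K) (AlgebraicClosure K)) z r = 0) →
      eval₂ (algebraMap (𝓞 K) (AlgebraicClosure K)) z w = 0 →
      eval₂ (algebraMap (𝓞 K) (AlgebraicClosure K)) (pev (algebraMap (𝓞 K) (AlgebraicClosure K)) G z) w = 0)
    (a : ℕ)
    (hpre : ∀ z : ι → AlgebraicClosure K, (∀ r ∈ Rr, eval₂ (algebraMap (𝓞 K) (AlgebraicClosure K)) z r = 0) →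
      eval₂ (algebraMap (𝓞 K) (AlgebraicClosure K)) z v = 0 →
      eval₂ (algebraMap (𝓞 K) (AlgebraicClosure K)) ((pev (algebraMap (𝓞 K) (AlgebraicClosure K)) G)^[a] z) w = 0)
    (hwg : eval g w ≠ 0) :
    ∃ S : Finset (HeightOneSpectrum (𝓞 K)), ∀ p : HeightOneSpectrum (𝓞 K), p ∉ S → ∀ n,
      (∃ i, (pevO G)^[n] g i ∉ p.asIdeal) ∧ eval ((pevO G)^[n] g) v ∉ p.asIdeal := by
  classical
  set j := algebraMap (𝓞 K) (AlgebraicClosure K) with hj
  have hjinj : Function.Injective j := FaithfulSMul.algebraMap_injective (𝓞 K) (AlgebraicClosure K)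
  obtain ⟨s0, hs0, hs0'⟩ := good_ae.{u} j hjinj G hNZ
  obtain ⟨s1, hs1, hs1'⟩ := spread.{u} j hjinj (Ideal.span (insert w Rr)) (bind₁ G w) (by
    intro x hx
    rw [eval₂_bind₁']
    apply hinv x
    · intro r hr
      exact hx r (Ideal.subset_span (Set.mem_insert_of_mem _ hr))
    · exact hx w (Ideal.subset_span (Set.mem_insert _ _)))
  obtain ⟨s2, hs2, hs2'⟩ := spread.{u} j hjinj (Ideal.span (insert v Rr)) (bind₁ (iterPoly G a) w) (by
    intro x hx
    rw [eval₂_bind₁', pev_iterPoly]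
    apply hpre x
    · intro r hr
      exact hx r (Ideal.subset_span (Set.mem_insert_of_mem _ hr))
    · exact hx v (Ideal.subset_span (Set.mem_insert _ _)))
  obtain ⟨k, hk⟩ := Function.ne_iff.1 hg
  rw [Pi.zero_apply] at hk
  have hfin := finite_bad' (s0 * s1 * s2 * g k * eval g w)
    (mul_ne_zero (mul_ne_zero (mul_ne_zero (mul_ne_zero hs0 hs1) hs2) hk) hwg)
  refine ⟨(hfin.union hper).toFinset, ?_⟩
  intro p hp n
  rw [Set.Finite.mem_toFinset, Set.mem_union, not_or] at hp
  obtain ⟨hp1, hp2⟩ := hp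
  simp only [Set.mem_ofPred_eq, not_not] at hp1 hp2
  haveI := p.isMaximal
  letI : Field (𝓞 K ⧸ p.asIdeal) := Ideal.Quotient.field _
  have e0 : redK p s0 ≠ 0 := by
    intro h
    exact hp1 (Ideal.mul_mem_right _ _ (Ideal.mul_mem_right _ _ (Ideal.mul_mem_right _ _ (Ideal.mul_mem_right _ _ (Ideal.Quotient.eq_zero_iff_mem.1 h)))))
  have e1 : redK p s1 ≠ 0 := by
    intro h
    exact hp1 (Ideal.mul_mem_right _ _ (Ideal.mul_mem_right _ _ (Ideal.mul_mem_right _ _ (Ideal.mul_mem_left _ _ (Ideal.Quotient.eq_zero_iff_mem.1 h)))))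
  have e2 : redK p s2 ≠ 0 := by
    intro h
    exact hp1 (Ideal.mul_mem_right _ _ (Ideal.mul_mem_right _ _ (Ideal.mul_mem_left _ _ (Ideal.Quotient.eq_zero_iff_mem.1 h))))
  have ek : redK p (g k) ≠ 0 := by
    intro h
    exact hp1 (Ideal.mul_mem_right _ _ (Ideal.mul_mem_left _ _ (Ideal.Quotient.eq_zero_iff_mem.1 h)))
  have ew : redK p (eval g w) ≠ 0 := by
    intro h
    exact hp1 (Ideal.mul_mem_left _ _ (Ideal.Quotient.eq_zero_iff_mem.1 h))
  set φ := redK p with hφ
  have hNZ0 : NZ φ G := hs0' _ φ e0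
  set y : ι → (𝓞 K ⧸ p.asIdeal) := fun i => φ (g i) with hy
  have hy0 : y ≠ 0 := fun h => ek (congrFun h k)
  have hit : ∀ r, (fun i => φ ((pevO G)^[r] g i)) = (pev φ G)^[r] y := by
    intro r
    rw [pev_iter_map, RingHom.comp_id]
  have hev : ∀ r (f : MvPolynomial ι (𝓞 K)), φ (eval ((pevO G)^[r] g) f) = eval₂ φ ((pev φ G)^[r] y) f := by
    intro r f
    rw [eval₂_eval, hit]
  constructor
  · have h1 := hNZ0.iter n hy0
    obtain ⟨i, hi⟩ := Function.ne_iff.1 h1
    refine ⟨i, ?_⟩
    intro h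
    apply hi
    rw [← hit, Pi.zero_apply]
    exact Ideal.Quotient.eq_zero_iff_mem.2 h
  · intro hv
    have hv0 : eval₂ φ ((pev φ G)^[n] y) v = 0 := by
      rw [← hev]
      exact Ideal.Quotient.eq_zero_iff_mem.2 hv
    have hRr : ∀ t, ∀ r ∈ Rr, eval₂ φ ((pev φ G)^[t] y) r = 0 := by
      intro t r hr
      rw [← hev, hR t r hr, map_zero]
    have hbase : eval₂ φ ((pev φ G)^[n + a] y) w = 0 := by
      have h1 := hs2' _ φ e2 ((pev φ G)^[n] y) (by
        intro f hf
        have hle : Ideal.span (insert v Rr) ≤ RingHom.ker (eval₂Hom φ ((pev φ G)^[n] y)) := by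
          rw [Ideal.span_le]
          intro f hf
          rw [SetLike.mem_coe, RingHom.mem_ker]
          rcases hf with rfl | hf
          · exact hv0
          · exact hRr n f hf
        exact hle hf)
      rw [eval₂_bind₁', pev_iterPoly, ← Function.iterate_add_apply, add_comm a n] at h1
      exact h1
    have hall : ∀ t, n + a ≤ t → eval₂ φ ((pev φ G)^[t] y) w = 0 := by
      intro t ht
      induction t, ht using Nat.le_induction with
      | base => exact hbase
      | succ t ht ih =>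
        have h1 := hs1' _ φ e1 ((pev φ G)^[t] y) (by
          intro f hf
          have hle : Ideal.span (insert w Rr) ≤ RingHom.ker (eval₂Hom φ ((pev φ G)^[t] y)) := by
            rw [Ideal.span_le]
            intro f hf
            rw [SetLike.mem_coe, RingHom.mem_ker]
            rcases hf with rfl | hf
            · exact ih
            · exact hRr t f hf
          exact hle hf)
        rw [eval₂_bind₁', ← Function.iterate_succ_apply' (pev φ G)] at h1
        exact h1
    obtain ⟨m, hm, hpar⟩ := hp2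
    have hpar0 : Par ((pev φ G)^[0 + m] y) ((pev φ G)^[0] y) := by
      rw [zero_add, Function.iterate_zero, id, ← hit]
      exact hpar
    have hpar1 := iter_add_par hG hNZ0 y hy0 0 m hpar0 0 (n + a) le_rfl
    rw [zero_add, Function.iterate_zero, id] at hpar1
    have hw0 := hall ((n + a) * m) (Nat.le_mul_of_pos_right _ hm)
    obtain ⟨c, hc⟩ := hpar1.symm.exists_smul (hNZ0.iter _ hy0)
    apply ew
    have := hev 0 w
    rw [Function.iterate_zero, Function.iterate_zero, id, id] at this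
    rw [this, hc, eval₂_smul_of_homog hw, hw0, mul_zero]

end Intg

end Pool.Agent.Lib.MP_df4dfc_nt
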