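import Mathlib
import Pool.Agent.Lib.MP_df4dfc_nt.Iv2

set_option autoImplicit false
set_option linter.unusedSectionVars false
set_option linter.style.haveILetI false
set_option linter.unusedVariables false

namespace Pool.Agent.Lib.MP_df4dfc_nt

open MvPolynomial NumberField IsDedekindDomain Height

universe u

/-- pigeonhole -/
theorem pigeonI {P : Type*} [Fintype P] [DecidableEq P] [Nonempty P] (R : ℕ) (f : ℕ → P) :
    ∃ i : P, R ≤ Fintype.card P * ((Finset.range R).filter (fun t => f t = i)).card := by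
  by_contra hcon
  push Not at hcon
  have h1 : ∑ i : P, ((Finset.range R).filter (fun t => f t = i)).card = R := by
    rw [← Finset.card_eq_sum_card_fiberwise (fun t _ => Finset.mem_coe.2 (Finset.mem_univ (f t))), Finset.card_range]
  have h2 : ∑ i : P, Fintype.card P * ((Finset.range R).filter (fun t => f t = i)).card < ∑ i : P, R :=
    Finset.sum_lt_sum_of_nonempty Finset.univ_nonempty (fun i _ => hcon i)
  rw [← Finset.mul_sum, h1, Finset.sum_const, Finset.card_univ, smul_eq_mul] at h2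
  exact lt_irrefl _ h2

section Main

variable {K : Type u} [Field K] [NumberField K] {ι : Type*} [Fintype ι]

open scoped Classical in
/-- **Core theorem.** A target which is periodic modulo almost all primes is preperiodic, if there
is a forward invariant hypersurface not containing it and a hypersurface mapped into the former
which is visited rarely. -/
theorem core_inv (G : ι → MvPolynomial ι (𝓞 K)) {d : ℕ} (hG : ∀ i, (G i).IsHomogeneous d)
    (hNZ : NZ (algebraMap (𝓞 K) (AlgebraicClosure K)) G) (g : ι → 𝓞 K) (hg : g ≠ 0) (hper : PerAE G g)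
    (Rr : Set (MvPolynomial ι (𝓞 K))) (hRh : ∀ r ∈ Rr, ∃ e : ℕ, r.IsHomogeneous e)
    (hR : ∀ n, ∀ r ∈ Rr, eval ((pevO G)^[n] g) r = 0)
    (w v : MvPolynomial ι (𝓞 K)) {Dw D : ℕ} (hw : w.IsHomogeneous Dw) (hv : v.IsHomogeneous D) (hD : 1 ≤ D)
    (hinv : ∀ z : ι → AlgebraicClosure K, (∀ r ∈ Rr, eval₂ (algebraMap (𝓞 K) (AlgebraicClosure K)) z r = 0) →
      eval₂ (algebraMap (𝓞 K) (AlgebraicClosure K)) z w = 0 →
      eval₂ (algebraMap (𝓞 K) (AlgebraicClosure K)) (pev (algebraMap (𝓞 K) (AlgebraicClosure K)) G z) w = 0)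
    (a : ℕ)
    (hpre : ∀ z : ι → AlgebraicClosure K, (∀ r ∈ Rr, eval₂ (algebraMap (𝓞 K) (AlgebraicClosure K)) z r = 0) →
      eval₂ (algebraMap (𝓞 K) (AlgebraicClosure K)) z v = 0 →
      eval₂ (algebraMap (𝓞 K) (AlgebraicClosure K)) ((pev (algebraMap (𝓞 K) (AlgebraicClosure K)) G)^[a] z) w = 0)
    (hrare : ∀ s : ℕ, ∃ R : ℕ, ∀ z : ι → AlgebraicClosure K, z ≠ 0 →
      (∀ r ∈ Rr, eval₂ (algebraMap (𝓞 K) (AlgebraicClosure K)) z r = 0) →
      s * ((Finset.range R).filter (fun t =>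
        eval₂ (algebraMap (𝓞 K) (AlgebraicClosure K)) ((pev (algebraMap (𝓞 K) (AlgebraicClosure K)) G)^[t] z) v = 0)).card < R)
    (hwg : eval g w ≠ 0) :
    ∃ m n : ℕ, m < n ∧ Par ((pevO G)^[m] g) ((pevO G)^[n] g) := by
  set Ω := AlgebraicClosure K with hΩ
  set j := algebraMap (𝓞 K) Ω with hj
  have hjinj : Function.Injective j := FaithfulSMul.algebraMap_injective (𝓞 K) Ω
  set jK := algebraMap (𝓞 K) K with hjK
  have hcomp : (algebraMap K Ω).comp jK = j := (IsScalarTower.algebraMap_eq (𝓞 K) K Ω).symm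
  by_contra hcon
  push Not at hcon
  obtain ⟨S, hS⟩ := integral_orbit G hG hNZ g hg hper Rr hR w v hw hinv a hpre hwg
  have hNZ1 : NZ (RingHom.id (𝓞 K)) G := NZ.of_injective (ψ := j) (by rw [RingHom.comp_id]; exact hNZ) hjinj
  set X : ℕ → ι → 𝓞 K := fun n => (pevO G)^[n] g with hX
  have hX0 : ∀ n, X n ≠ 0 := fun n => hNZ1.iter n hg
  -- values of v do not vanish
  have hv0 : ∀ n, eval (X n) v ≠ 0 := by
    intro n h0
    obtain ⟨p, _, hp⟩ := ((big_univ K).diff_finite S.finite_toSet).infinite.nonempty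
    apply (hS p (by simpa using hp) n).2
    rw [h0]
    exact p.asIdeal.zero_mem
  set XK : ℕ → ι → K := fun n i => jK (X n i) with hXK
  have hXK0 : ∀ n, XK n ≠ 0 := by
    intro n h
    apply hX0 n
    funext i
    apply inj_O
    rw [Pi.zero_apply, map_zero]
    exact congrFun h i
  have hXKit : ∀ n t, XK (n + t) = (pev jK G)^[t] (XK n) := by
    intro n t
    have h1 := pev_iter_map (RingHom.id (𝓞 K)) jK G t (X n)
    rw [RingHom.comp_id] at h1
    rw [hXK]
    simp only
    rw [← h1]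
    funext i
    rw [hX]
    simp only
    rw [add_comm n t, Function.iterate_add_apply]
  -- places
  let P := InfinitePlace K ⊕ {p : HeightOneSpectrum (𝓞 K) // p ∈ S}
  let abv : P → AbsoluteValue K ℝ := Sum.elim (fun v => v.1) (fun p => (FinitePlace.mk p.1).1)
  haveI : Nonempty (InfinitePlace K) := inferInstance
  haveI : Nonempty P := ⟨Sum.inl (Classical.arbitrary _)⟩
  obtain ⟨R, hRr⟩ := hrare (Fintype.card P)
  -- the polynomials v ∘ G^t over K
  set q : ℕ → MvPolynomial ι K := fun t => MvPolynomial.map jK (bind₁ (iterPoly G t) v) with hq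
  have hqev : ∀ t (y : ι → K), eval y (q t) = eval₂ jK ((pev jK G)^[t] y) v := by
    intro t y
    rw [hq]
    simp only
    rw [eval_map, eval₂_bind₁', pev_iterPoly]
  have hqae : ∀ t (z : ι → Ω), aeval z (q t) = eval₂ j ((pev j G)^[t] z) v := by
    intro t z
    rw [hq]
    simp only
    rw [aeval_def, eval₂_map, hcomp, eval₂_bind₁', pev_iterPoly]
  -- local bounds
  have hloc : ∀ (i : P) (J : Finset ℕ) (k : ι), ∃ δ : ℝ, 0 < δ ∧ (J ⊆ Finset.range R → R ≤ Fintype.card P * J.card →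
      ∀ y : ι → K, y k = 1 → (∀ l, abv i (y l) ≤ 1) → (∀ r ∈ Rr, eval₂ jK y r = 0) →
        ∃ t ∈ J, δ ≤ abv i (eval y (q t))) := by
    intro i J k
    by_cases hJ : J ⊆ Finset.range R ∧ R ≤ Fintype.card P * J.card
    · obtain ⟨δ, hδ, h⟩ := local_bound (Ω := Ω) (abv i) k (MvPolynomial.map jK '' Rr) J q (by
        intro z hzk hz
        by_contra hcon2
        push Not at hcon2
        have hz0 : z ≠ 0 := by
          rintro rfl
          simp at hzk
        have hzr : ∀ r ∈ Rr, eval₂ j z r = 0 := by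
          intro r hr
          have := hz _ ⟨r, hr, rfl⟩
          rw [aeval_def, eval₂_map, hcomp] at this
          exact this
        have h1 := hRr z hz0 hzr
        have h2 : J ⊆ (Finset.range R).filter (fun t => eval₂ j ((pev j G)^[t] z) v = 0) := by
          intro t ht
          rw [Finset.mem_filter]
          refine ⟨hJ.1 ht, ?_⟩
          rw [← hqae]
          exact hcon2 t ht
        have h3 := Nat.mul_le_mul_left (Fintype.card P) (Finset.card_le_card h2)
        have h4 := hJ.2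
        omega)
      refine ⟨δ, hδ, fun _ _ y hy1 hy2 hy3 => h y hy1 hy2 ?_⟩
      rintro _ ⟨r, hr, rfl⟩
      rw [eval_map]
      exact hy3 r hr
    · refine ⟨1, one_pos, fun h1 h2 => ?_⟩
      exact absurd ⟨h1, h2⟩ hJ
  choose δ hδ0 hδ using hloc
  -- a common lower bound
  obtain ⟨δ0, hδ00, hδ01⟩ : ∃ δ0 : ℝ, 0 < δ0 ∧ ∀ (i : P) (J : Finset ℕ) (k : ι), J ⊆ Finset.range R → δ0 ≤ δ i J k := by
    set F : Finset (P × Finset ℕ × ι) := Finset.univ ×ˢ ((Finset.range R).powerset ×ˢ Finset.univ) with hF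
    by_cases hne : F.Nonempty
    · obtain ⟨x0, hx0, hx0'⟩ := F.exists_min_image (fun x => δ x.1 x.2.1 x.2.2) hne
      refine ⟨δ x0.1 x0.2.1 x0.2.2, hδ0 _ _ _, ?_⟩
      intro i J k hJ
      refine hx0' (i, J, k) ?_
      rw [hF, Finset.mem_product, Finset.mem_product, Finset.mem_powerset]
      exact ⟨Finset.mem_univ _, hJ, Finset.mem_univ _⟩
    · refine ⟨1, one_pos, ?_⟩
      intro i J k hJ
      exfalso
      apply hne
      refine ⟨(i, J, k), ?_⟩
      rw [hF, Finset.mem_product, Finset.mem_product, Finset.mem_powerset]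
      exact ⟨Finset.mem_univ _, hJ, Finset.mem_univ _⟩
  -- a common upper bound
  set C : ℝ := 1 + ∑ i : P, ∑ t ∈ Finset.range R, ∑ l : ι, cb (abv i) (MvPolynomial.map jK (iterPoly G t l)) with hC
  have hCnn : ∀ (i : P) (t : ℕ) (l : ι), 0 ≤ cb (abv i) (MvPolynomial.map jK (iterPoly G t l)) := fun i t l => cb_nonneg _ _
  have hC1 : 1 ≤ C := by
    rw [hC]
    have : 0 ≤ ∑ i : P, ∑ t ∈ Finset.range R, ∑ l : ι, cb (abv i) (MvPolynomial.map jK (iterPoly G t l)) :=
      Finset.sum_nonneg fun i _ => Finset.sum_nonneg fun t _ => Finset.sum_nonneg fun l _ => hCnn i t l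
    linarith
  have hCle : ∀ (i : P) (t : ℕ) (l : ι), t < R → cb (abv i) (MvPolynomial.map jK (iterPoly G t l)) ≤ C := by
    intro i t l ht
    have h1 : cb (abv i) (MvPolynomial.map jK (iterPoly G t l)) ≤ ∑ l : ι, cb (abv i) (MvPolynomial.map jK (iterPoly G t l)) :=
      Finset.single_le_sum (fun l _ => hCnn i t l) (Finset.mem_univ l)
    have h2 : ∑ l : ι, cb (abv i) (MvPolynomial.map jK (iterPoly G t l)) ≤
        ∑ t ∈ Finset.range R, ∑ l : ι, cb (abv i) (MvPolynomial.map jK (iterPoly G t l)) :=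
      Finset.single_le_sum (f := fun t => ∑ l : ι, cb (abv i) (MvPolynomial.map jK (iterPoly G t l)))
        (fun t _ => Finset.sum_nonneg fun l _ => hCnn i t l) (Finset.mem_range.2 ht)
    have h3 : ∑ t ∈ Finset.range R, ∑ l : ι, cb (abv i) (MvPolynomial.map jK (iterPoly G t l)) ≤
        ∑ i : P, ∑ t ∈ Finset.range R, ∑ l : ι, cb (abv i) (MvPolynomial.map jK (iterPoly G t l)) :=
      Finset.single_le_sum (f := fun i => ∑ t ∈ Finset.range R, ∑ l : ι, cb (abv i) (MvPolynomial.map jK (iterPoly G t l)))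
        (fun i _ => Finset.sum_nonneg fun t _ => Finset.sum_nonneg fun l _ => hCnn i t l) (Finset.mem_univ i)
    rw [hC]
    linarith
  set ε : ℝ := δ0 / (2 * C ^ D) with hε
  have hCD : 0 < C ^ D := by positivity
  have hε0 : 0 < ε := by positivity
  obtain ⟨B, hB⟩ := heavy_place (ι := ι) S D hD ε hε0
  obtain ⟨n0, hn0⟩ := northcott_seq XK hXK0 (by
    intro m n hmn hpar
    exact hcon m n hmn (Par.of_map jK inj_O hpar)) B
  -- each time has a heavy place
  have hheavy : ∀ t, ∃ i : P, abv i (jK (eval (X (n0 + t)) v)) ≤ ε * (⨆ l, abv i (XK (n0 + t) l)) ^ D := by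
    intro t
    rcases hB (X (n0 + t)) (eval (X (n0 + t)) v) (hX0 _) (hv0 _) (fun p hp => hS p hp _) (hn0 _ (by omega)) with h | h
    · obtain ⟨u, hu⟩ := h
      exact ⟨Sum.inl u, hu⟩
    · obtain ⟨p, hp, hu⟩ := h
      exact ⟨Sum.inr ⟨p, hp⟩, hu⟩
  choose f hf using hheavy
  obtain ⟨i, hi⟩ := pigeonI R f
  set J := (Finset.range R).filter (fun t => f t = i) with hJ
  have hJR : J ⊆ Finset.range R := Finset.filter_subset _ _
  -- the largest coordinate
  obtain ⟨k1, hk1⟩ := Function.ne_iff.1 (hXK0 n0)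
  rw [Pi.zero_apply] at hk1
  obtain ⟨k, _, hk⟩ := Finset.exists_max_image Finset.univ (fun l => abv i (XK n0 l)) ⟨k1, Finset.mem_univ _⟩
  have hkpos : 0 < abv i (XK n0 k) := lt_of_lt_of_le ((abv i).pos hk1) (hk k1 (Finset.mem_univ _))
  set c : K := XK n0 k with hc
  have hc0 : c ≠ 0 := (abv i).pos_iff.1 hkpos
  set y : ι → K := fun l => XK n0 l / c with hy
  have hcy : XK n0 = c • y := by
    funext l
    simp only [hy, Pi.smul_apply, smul_eq_mul]
    rw [mul_div_cancel₀ _ hc0]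
  have hy1 : y k = 1 := by
    simp only [hy]
    rw [← hc]
    exact div_self hc0
  have hy2 : ∀ l, abv i (y l) ≤ 1 := by
    intro l
    simp only [hy]
    rw [map_div₀, div_le_one hkpos]
    exact hk l (Finset.mem_univ _)
  have hXr : ∀ r ∈ Rr, eval₂ jK (XK n0) r = 0 := by
    intro r hr
    have h1 := eval₂_eval jK (X n0) r
    rw [hR n0 r hr, map_zero] at h1
    exact h1.symm
  have hy3 : ∀ r ∈ Rr, eval₂ jK y r = 0 := by
    intro r hr
    obtain ⟨e, he⟩ := hRh r hr
    have h1 := hXr r hr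
    rw [hcy, eval₂_smul_of_homog he] at h1
    exact (mul_eq_zero.1 h1).resolve_left (pow_ne_zero _ hc0)
  obtain ⟨t, htJ, ht⟩ := hδ i J k hJR hi y hy1 hy2 hy3
  have htR : t < R := Finset.mem_range.1 (hJR htJ)
  have hft : f t = i := (Finset.mem_filter.1 htJ).2
  have h1 := hf t
  rw [hft] at h1
  -- compare
  set z : ι → K := (pev jK G)^[t] y with hz
  have hXz : XK (n0 + t) = c ^ (d ^ t) • z := by
    rw [hXKit, hcy, pev_iter_smul hG]
  have hvz : jK (eval (X (n0 + t)) v) = (c ^ (d ^ t)) ^ D * eval₂ jK z v := by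
    rw [eval₂_eval]
    change eval₂ jK (XK (n0 + t)) v = _
    rw [hXz, eval₂_smul_of_homog hv]
  set cc : ℝ := abv i (c ^ (d ^ t)) with hcc
  have hccpos : 0 < cc := (abv i).pos (pow_ne_zero _ hc0)
  have hzC : ∀ l, abv i (z l) ≤ C := by
    intro l
    have h2 : z l = eval y (MvPolynomial.map jK (iterPoly G t l)) := by
      rw [hz, ← pev_iterPoly, eval_map]
      rfl
    rw [h2]
    exact (eval_le_cb _ _ y hy2).trans (hCle i t l htR)
  haveI : Nonempty ι := ⟨k⟩
  have hsup : ⨆ l, abv i (XK (n0 + t) l) ≤ cc * C := by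
    apply ciSup_le
    intro l
    rw [hXz, Pi.smul_apply, smul_eq_mul, map_mul]
    exact mul_le_mul_of_nonneg_left (hzC l) hccpos.le
  have hsup0 : 0 ≤ ⨆ l, abv i (XK (n0 + t) l) := Real.iSup_nonneg fun l => (abv i).nonneg _
  rw [hvz, map_mul, map_pow, ← hcc] at h1
  have h2 : cc ^ D * abv i (eval₂ jK z v) ≤ cc ^ D * (ε * C ^ D) := by
    refine h1.trans ?_
    calc ε * (⨆ l, abv i (XK (n0 + t) l)) ^ D ≤ ε * (cc * C) ^ D :=
          mul_le_mul_of_nonneg_left (pow_le_pow_left₀ hsup0 hsup D) hε0.le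
      _ = cc ^ D * (ε * C ^ D) := by rw [mul_pow]; ring
  have h3 : abv i (eval₂ jK z v) ≤ ε * C ^ D := le_of_mul_le_mul_left h2 (by positivity)
  have h4 : ε * C ^ D = δ0 / 2 := by
    rw [hε]
    field_simp
  rw [hqev, ← hz] at ht
  have h5 := hδ01 i J k hJR
  have : δ0 ≤ δ0 / 2 := by
    calc δ0 ≤ δ i J k := h5
      _ ≤ abv i (eval₂ jK z v) := ht
      _ ≤ ε * C ^ D := h3
      _ = δ0 / 2 := h4
  linarith

end Main

end Pool.Agent.Lib.MP_df4dfc_nt
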