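import Mathlib
import Pool.Agent.Lib.MP_df4dfc_nt.Iv3

set_option autoImplicit false
set_option linter.unusedSectionVars false
set_option linter.style.haveILetI false
set_option linter.unusedVariables false

/-! A strictly preperiodic point of every map of the projective line. -/

namespace Pool.Agent.Lib.MP_df4dfc_nt

open MvPolynomial

section P1

variable {R Ω : Type*} [CommRing R] [Field Ω] [IsAlgClosed Ω] [CharZero Ω]

/-- determinant of two plane vectors -/
def det2 (u v : Fin 2 → Ω) : Ω := u 0 * v 1 - u 1 * v 0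

theorem par_iff_det2 (u v : Fin 2 → Ω) : Par u v ↔ det2 u v = 0 := by
  unfold det2
  constructor
  · intro h
    rw [h 0 1]
    ring
  · intro h i j
    have h' : u 0 * v 1 = u 1 * v 0 := sub_eq_zero.1 h
    fin_cases i <;> fin_cases j
    · rfl
    · exact h'
    · exact h'.symm
    · rfl

theorem det2_eq_zero_of {α β u : Fin 2 → Ω} (hαβ : det2 α β ≠ 0) (h1 : det2 α u = 0) (h2 : det2 β u = 0) : u = 0 := by
  unfold det2 at *
  have e1 : (α 0 * β 1 - α 1 * β 0) * u 0 = 0 := by linear_combination (β 0) * h1 - (α 0) * h2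
  have e2 : (α 0 * β 1 - α 1 * β 0) * u 1 = 0 := by linear_combination (β 1) * h1 - (α 1) * h2
  funext i
  fin_cases i
  · exact (mul_eq_zero.1 e1).resolve_left hαβ
  · exact (mul_eq_zero.1 e2).resolve_left hαβ

/-- a polynomial without roots is constant -/
theorem const_of_no_root (p : Polynomial Ω) (h : ∀ x, p.eval x ≠ 0) : ∀ x, p.eval x = p.eval 0 := by
  have hdeg : p.degree = 0 := by
    by_contra hd
    obtain ⟨x, hx⟩ := IsAlgClosed.exists_root p hd
    exact h x hx
  intro x
  rw [Polynomial.eq_C_of_degree_eq_zero hdeg, Polynomial.eval_C, Polynomial.eval_C]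

theorem agree_at_zero (p q : Polynomial Ω) (h : ∀ x, x ≠ 0 → p.eval x = q.eval x) : p.eval 0 = q.eval 0 := by
  have : p = q := by
    apply Polynomial.eq_of_infinite_eval_eq
    apply (Set.infinite_univ.sdiff (Set.finite_singleton (0 : Ω))).mono
    intro x hx
    exact h x hx.2
  rw [this]

variable (j : R →+* Ω) (G : Fin 2 → MvPolynomial (Fin 2) R)

/-- the values of the map on the line `x ↦ x α + β` as polynomials in `x` -/
noncomputable def linP (α β : Fin 2 → Ω) (i : Fin 2) : Polynomial Ω :=
  pev ((Polynomial.C).comp j) G (fun k => Polynomial.C (α k) * Polynomial.X + Polynomial.C (β k)) i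

theorem linP_eval (α β : Fin 2 → Ω) (i : Fin 2) (x : Ω) :
    (linP j G α β i).eval x = pev j G (fun k => x * α k + β k) i := by
  have h := pev_map ((Polynomial.C).comp j) (Polynomial.evalRingHom x) G
    (fun k => Polynomial.C (α k) * Polynomial.X + Polynomial.C (β k))
  have h1 := congrFun h i
  have h2 : (Polynomial.evalRingHom x).comp ((Polynomial.C).comp j) = j := by
    ext r
    simp
  rw [h2] at h1
  unfold linP
  rw [Polynomial.coe_evalRingHom] at h1
  rw [h1]
  congr 1
  funext k
  simp
  ring

/-- determinant against a fixed vector, as a polynomial -/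
noncomputable def detP (γ α β : Fin 2 → Ω) : Polynomial Ω :=
  Polynomial.C (γ 0) * linP j G α β 1 - Polynomial.C (γ 1) * linP j G α β 0

theorem detP_eval (γ α β : Fin 2 → Ω) (x : Ω) :
    (detP j G γ α β).eval x = det2 γ (pev j G (fun k => x * α k + β k)) := by
  unfold detP det2
  simp [linP_eval]

variable {j G}

theorem exists_strict {d : ℕ} (hd : 2 ≤ d) (hG : ∀ i, (G i).IsHomogeneous d) (hNZ : NZ j G) :
    ∃ y : Fin 2 → Ω, y ≠ 0 ∧ ¬ Par y (pev j G y) ∧ Par (pev j G y) (pev j G (pev j G y)) := by
  by_contra hcon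
  push Not at hcon
  set T := pev j G with hT
  have hTs : ∀ (c : Ω) (x : Fin 2 → Ω), T (c • x) = c ^ d • T x := fun c x => pev_smul hG j c x
  -- fixed points are totally ramified
  have hA : ∀ α : Fin 2 → Ω, α ≠ 0 → Par α (T α) → ∀ y : Fin 2 → Ω, y ≠ 0 → Par (T y) α → Par y α := by
    intro α hα hfix y hy hpar
    have h1 : Par (T (T y)) (T α) := pev_par hG j hpar hα
    have h2 : Par (T (T y)) α := h1.trans hfix.symm (hNZ α hα)
    have h3 : Par (T y) (T (T y)) := hpar.trans h2.symm hα
    by_contra hne
    have h4 : ¬ Par y (T y) := by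
      intro h5
      exact hne (h5.trans hpar (hNZ y hy))
    exact hcon y hy h4 h3
  have hz0 : ∀ (α β : Fin 2 → Ω) (x : Ω), det2 α β ≠ 0 → (fun k => x * α k + β k) ≠ 0 := by
    intro α β x hdet h0
    apply hdet
    have e0 := congrFun h0 0
    have e1 := congrFun h0 1
    simp only [Pi.zero_apply] at e0 e1
    unfold det2
    linear_combination α 0 * e1 - α 1 * e0
  have hdz : ∀ (α β : Fin 2 → Ω) (x : Ω), det2 α (fun k => x * α k + β k) = det2 α β := by
    intro α β x
    unfold det2
    ring
  -- the first component is constant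
  have hC : ∀ α β : Fin 2 → Ω, α ≠ 0 → Par α (T α) → det2 α β ≠ 0 →
      ∀ x, det2 α (T (fun k => x * α k + β k)) = det2 α (T β) := by
    intro α β hα hfix hdet x
    have h1 : ∀ x, (detP j G α α β).eval x ≠ 0 := by
      intro x h0
      rw [detP_eval] at h0
      have h2 : Par (T (fun k => x * α k + β k)) α := ((par_iff_det2 _ _).2 h0).symm
      have h3 := hA α hα hfix _ (hz0 α β x hdet) h2
      rw [par_iff_det2] at h3
      apply hdet
      rw [← hdz α β x]
      unfold det2 at h3 ⊢
      linear_combination -h3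
    have h2 := const_of_no_root _ h1 x
    rw [detP_eval, detP_eval] at h2
    have h3 : (fun k => (0 : Ω) * α k + β k) = β := by funext k; ring
    rw [h3] at h2
    exact h2
  -- scaling the line parameter
  have hswap : ∀ (α β : Fin 2 → Ω) (x : Ω), x ≠ 0 →
      T (fun k => x * β k + α k) = x ^ d • T (fun k => x⁻¹ * α k + β k) := by
    intro α β x hx
    rw [← hTs]
    congr 1
    funext k
    simp only [Pi.smul_apply, smul_eq_mul]
    field_simp
    ring
  -- a first fixed point
  obtain ⟨α, hα, hαf⟩ : ∃ α : Fin 2 → Ω, α ≠ 0 ∧ Par α (T α) := by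
    by_contra hno
    push Not at hno
    set e : Fin 2 → Ω := ![1, 0] with he
    set f : Fin 2 → Ω := ![0, 1] with hf
    have hef : det2 e f ≠ 0 := by
      unfold det2
      simp [he, hf]
    have he0 : e ≠ 0 := by
      intro h
      have := congrFun h 0
      simp [he] at this
    -- F(x) = det(x e + f, T(x e + f))
    set F : Polynomial Ω := Polynomial.X * detP j G e e f + detP j G f e f with hF
    have hFe : ∀ x, F.eval x = det2 (fun k => x * e k + f k) (T (fun k => x * e k + f k)) := by
      intro x
      rw [hF, Polynomial.eval_add, Polynomial.eval_mul, Polynomial.eval_X, detP_eval, detP_eval]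
      unfold det2
      ring
    have hFnz : ∀ x, F.eval x ≠ 0 := by
      intro x h0
      rw [hFe] at h0
      exact hno _ (hz0 e f x hef) ((par_iff_det2 _ _).2 h0)
    have hFc := const_of_no_root F hFnz
    -- the other chart
    set F' : Polynomial Ω := Polynomial.X * detP j G f f e + detP j G e f e with hF'
    have hFe' : ∀ x, F'.eval x = det2 (fun k => x * f k + e k) (T (fun k => x * f k + e k)) := by
      intro x
      rw [hF', Polynomial.eval_add, Polynomial.eval_mul, Polynomial.eval_X, detP_eval, detP_eval]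
      unfold det2
      ring
    have hag := agree_at_zero F' (Polynomial.C (F.eval 0) * Polynomial.X ^ (d + 1)) (by
      intro x hx
      rw [hFe', hswap e f x hx, ← hFc x⁻¹, Polynomial.eval_mul, Polynomial.eval_pow, Polynomial.eval_X,
        Polynomial.eval_C, hFe]
      have hsc : (fun k => x * f k + e k) = x • (fun k => x⁻¹ * e k + f k) := by
        funext k
        simp only [Pi.smul_apply, smul_eq_mul]
        field_simp
        ring
      rw [hsc]
      unfold det2
      simp only [Pi.smul_apply, smul_eq_mul]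
      ring)
    rw [hFe'] at hag
    have h3 : (fun k => (0 : Ω) * f k + e k) = e := by funext k; ring
    rw [h3] at hag
    apply hno e he0
    rw [par_iff_det2, hag]
    simp
  -- a vector independent of α
  obtain ⟨β0, hβ0⟩ : ∃ β : Fin 2 → Ω, det2 α β ≠ 0 := by
    obtain ⟨k, hk⟩ := Function.ne_iff.1 hα
    rw [Pi.zero_apply] at hk
    fin_cases k
    · exact ⟨![0, 1], by unfold det2; simpa using hk⟩
    · exact ⟨![1, 0], by unfold det2; simpa using hk⟩
  -- a second fixed point
  obtain ⟨β, hβf, hαβ⟩ : ∃ β : Fin 2 → Ω, Par β (T β) ∧ det2 α β ≠ 0 := by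
    by_contra hno
    push Not at hno
    set F : Polynomial Ω := Polynomial.X * detP j G α α β0 + detP j G β0 α β0 with hF
    have hFe : ∀ x, F.eval x = det2 (fun k => x * α k + β0 k) (T (fun k => x * α k + β0 k)) := by
      intro x
      rw [hF, Polynomial.eval_add, Polynomial.eval_mul, Polynomial.eval_X, detP_eval, detP_eval]
      unfold det2
      ring
    have hFnz : ∀ x, F.eval x ≠ 0 := by
      intro x h0
      rw [hFe] at h0
      have h1 := hno _ ((par_iff_det2 _ _).2 h0)
      rw [hdz] at h1
      exact hβ0 h1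
    have hFc := const_of_no_root F hFnz
    set c := F.eval 0 with hc
    set b := det2 α (T β0) with hb
    have hlin : ∀ x, det2 β0 (T (fun k => x * α k + β0 k)) = c - x * b := by
      intro x
      have h1 := hFc x
      rw [hFe] at h1
      have h2 := hC α β0 hα hαf hβ0 x
      have h3 : det2 (fun k => x * α k + β0 k) (T (fun k => x * α k + β0 k))
          = x * det2 α (T (fun k => x * α k + β0 k)) + det2 β0 (T (fun k => x * α k + β0 k)) := by
        unfold det2
        ring
      rw [h3, h2] at h1
      linear_combination h1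
    have hag := agree_at_zero (detP j G β0 β0 α)
      (Polynomial.C c * Polynomial.X ^ d - Polynomial.C b * Polynomial.X ^ (d - 1)) (by
      intro x hx
      rw [detP_eval]
      change det2 β0 (T _) = _
      rw [hswap α β0 x hx]
      have h1 := hlin x⁻¹
      have h2 : det2 β0 (x ^ d • T (fun k => x⁻¹ * α k + β0 k)) = x ^ d * det2 β0 (T (fun k => x⁻¹ * α k + β0 k)) := by
        unfold det2
        simp only [Pi.smul_apply, smul_eq_mul]
        ring
      rw [h2, h1]
      simp only [Polynomial.eval_sub, Polynomial.eval_mul, Polynomial.eval_pow, Polynomial.eval_X, Polynomial.eval_C]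
      have h3 : x ^ d = x ^ (d - 1) * x := by
        rw [← pow_succ]
        congr 1
        omega
      rw [h3]
      field_simp)
    rw [detP_eval] at hag
    have h3 : (fun k => (0 : Ω) * β0 k + α k) = α := by funext k; ring
    rw [h3] at hag
    have h4 : det2 β0 (T α) = 0 := by
      rw [hT, hag]
      have : d - 1 ≠ 0 := by omega
      have : d ≠ 0 := by omega
      simp [*]
    have h5 := det2_eq_zero_of hβ0 ((par_iff_det2 _ _).1 hαf) h4
    exact hNZ α hα h5
  have hβ : β ≠ 0 := by
    rintro rfl
    apply hαβ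
    unfold det2
    simp
  have hβα : det2 β α ≠ 0 := by
    intro h
    apply hαβ
    unfold det2 at *
    linear_combination -h
  set a := det2 β (T α) with ha
  set b := det2 α (T β) with hb
  have ha0 : a ≠ 0 := by
    intro h
    exact hNZ α hα (det2_eq_zero_of hαβ ((par_iff_det2 _ _).1 hαf) h)
  have hb0 : b ≠ 0 := by
    intro h
    exact hNZ β hβ (det2_eq_zero_of hβα ((par_iff_det2 _ _).1 hβf) h)
  have h1 : ∀ x, det2 α (T (fun k => x * α k + β k)) = b := hC α β hα hαf hαβ
  have h2 : ∀ x, x ≠ 0 → det2 β (T (fun k => x * α k + β k)) = x ^ d * a := by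
    intro x hx
    rw [hswap β α x hx]
    have h3 := hC β α hβ hβf hβα x⁻¹
    have h4 : det2 β (x ^ d • T (fun k => x⁻¹ * β k + α k)) = x ^ d * det2 β (T (fun k => x⁻¹ * β k + α k)) := by
      unfold det2
      simp only [Pi.smul_apply, smul_eq_mul]
      ring
    rw [h4, h3]
  -- a third fixed point
  obtain ⟨x2, hx2⟩ := IsAlgClosed.exists_pow_nat_eq (-b / a) (n := d - 1) (by omega)
  have hx20 : x2 ≠ 0 := by
    rintro rfl
    rw [zero_pow (by omega)] at hx2
    have := div_ne_zero (neg_ne_zero.2 hb0) ha0
    exact this hx2.symm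
  have hx2' : x2 * b + x2 ^ d * a = 0 := by
    have h3 : x2 ^ d = x2 ^ (d - 1) * x2 := by
      rw [← pow_succ]
      congr 1
      omega
    rw [h3, hx2]
    field_simp
    ring
  set δ : Fin 2 → Ω := fun k => x2 * α k + β k with hδ
  have hδ0 : δ ≠ 0 := hz0 α β x2 hαβ
  have hcomb : ∀ u, det2 δ u = x2 * det2 α u + det2 β u := by
    intro u
    unfold det2
    simp only [hδ]
    ring
  have hδf : Par δ (T δ) := by
    rw [par_iff_det2, hcomb, hδ, h1, h2 x2 hx20]
    exact hx2'
  -- a root of unity
  haveI : NeZero (d : Ω) := ⟨by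
    have : d ≠ 0 := by omega
    exact_mod_cast this⟩
  obtain ⟨ζ, hζ⟩ := HasEnoughRootsOfUnity.exists_primitiveRoot Ω d
  have hζ1 : ζ ≠ 1 := hζ.ne_one (by omega)
  have hζd : ζ ^ d = 1 := hζ.pow_eq_one
  have hζ0 : ζ ≠ 0 := by
    rintro rfl
    rw [zero_pow (by omega)] at hζd
    exact zero_ne_one hζd
  have hx3 : ζ * x2 ≠ 0 := mul_ne_zero hζ0 hx20
  have h3 : Par (T (fun k => ζ * x2 * α k + β k)) δ := by
    apply Par.symm
    rw [par_iff_det2, hcomb, h1, h2 _ hx3, mul_pow, hζd, one_mul]
    exact hx2'
  have h4 := hA δ hδ0 hδf _ (hz0 α β _ hαβ) h3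
  rw [par_iff_det2] at h4
  have h5 : (ζ - 1) * x2 * det2 α β = 0 := by
    unfold det2 at h4 ⊢
    simp only [hδ] at h4
    linear_combination h4
  rcases mul_eq_zero.1 h5 with h6 | h6
  · rcases mul_eq_zero.1 h6 with h7 | h7
    · exact hζ1 (sub_eq_zero.1 h7)
    · exact hx20 h7
  · exact hαβ h6

end P1

end Pool.Agent.Lib.MP_df4dfc_nt
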