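import Mathlib
import Pool.Agent.Lib.MP_df4dfc_nt.Iv4

set_option autoImplicit false
set_option linter.unusedSectionVars false
set_option linter.style.haveILetI false
set_option linter.unusedVariables false

/-! Targets on the projective line that are periodic modulo almost all primes are preperiodic. -/

namespace Pool.Agent.Lib.MP_df4dfc_nt

open MvPolynomial NumberField IsDedekindDomain Height

universe u

section P1

variable {K : Type u} [Field K] [NumberField K]

/-- the form of fixed points -/
noncomputable def fixF {R : Type*} [CommRing R] (G : Fin 2 → MvPolynomial (Fin 2) R) : MvPolynomial (Fin 2) R :=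
  X 1 * G 0 - X 0 * G 1

theorem fixF_eval {R T : Type*} [CommRing R] [CommRing T] (φ : R →+* T) (G : Fin 2 → MvPolynomial (Fin 2) R) (z : Fin 2 → T) :
    eval₂ φ z (fixF G) = z 1 * pev φ G z 0 - z 0 * pev φ G z 1 := by
  unfold fixF pev
  rw [eval₂_sub, eval₂_mul, eval₂_mul, eval₂_X, eval₂_X]

theorem fixF_iff {R T : Type*} [CommRing R] [CommRing T] (φ : R →+* T) (G : Fin 2 → MvPolynomial (Fin 2) R) (z : Fin 2 → T) :
    eval₂ φ z (fixF G) = 0 ↔ Par z (pev φ G z) := by
  rw [fixF_eval]
  constructor
  · intro h i j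
    have h' : z 1 * pev φ G z 0 = z 0 * pev φ G z 1 := sub_eq_zero.1 h
    fin_cases i <;> fin_cases j
    · rfl
    · exact h'.symm
    · exact h'
    · rfl
  · intro h
    rw [sub_eq_zero]
    exact h 1 0

theorem fixF_homog {R : Type*} [CommRing R] {G : Fin 2 → MvPolynomial (Fin 2) R} {d : ℕ}
    (hG : ∀ i, (G i).IsHomogeneous d) : (fixF G).IsHomogeneous (1 + d) :=
  ((isHomogeneous_X _ _).mul (hG 0)).sub ((isHomogeneous_X _ _).mul (hG 1))

/-- the auxiliary form whose zeros are strictly preperiodic -/
theorem exists_aux (G : Fin 2 → MvPolynomial (Fin 2) (𝓞 K)) {d : ℕ} (hd : 2 ≤ d) (hG : ∀ i, (G i).IsHomogeneous d)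
    (hNZ : NZ (algebraMap (𝓞 K) (AlgebraicClosure K)) G) :
    ∃ (D : ℕ) (v : MvPolynomial (Fin 2) (𝓞 K)), 1 ≤ D ∧ v.IsHomogeneous D ∧
      ∀ z : Fin 2 → AlgebraicClosure K, z ≠ 0 → eval₂ (algebraMap (𝓞 K) (AlgebraicClosure K)) z v = 0 →
        ¬ Par z (pev (algebraMap (𝓞 K) (AlgebraicClosure K)) G z) ∧
        Par (pev (algebraMap (𝓞 K) (AlgebraicClosure K)) G z)
          (pev (algebraMap (𝓞 K) (AlgebraicClosure K)) G (pev (algebraMap (𝓞 K) (AlgebraicClosure K)) G z)) := by
  set Ω := AlgebraicClosure K with hΩ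
  set j := algebraMap (𝓞 K) Ω with hj
  set jK := algebraMap (𝓞 K) K with hjK
  have hcomp : (algebraMap K Ω).comp jK = j := (IsScalarTower.algebraMap_eq (𝓞 K) K Ω).symm
  obtain ⟨y, hy, hy1, hy2⟩ := exists_strict hd hG hNZ
  have htr : ∀ z : Fin 2 → Ω, z ≠ 0 → Par z y → ¬ Par z (pev j G z) ∧ Par (pev j G z) (pev j G (pev j G z)) := by
    intro z hz hzy
    have h1 : Par (pev j G z) (pev j G y) := pev_par hG j hzy hy
    have h2 : Par (pev j G (pev j G z)) (pev j G (pev j G y)) := pev_par hG j h1 (hNZ y hy)
    constructor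
    · intro h3
      apply hy1
      exact (hzy.symm.trans h3 hz).trans h1 (hNZ z hz)
    · exact (h1.trans hy2 (hNZ y hy)).trans h2.symm (hNZ _ (hNZ y hy))
  by_cases hy0 : y 1 = 0
  · refine ⟨1, X 1, le_rfl, isHomogeneous_X _ _, ?_⟩
    intro z hz hz1
    rw [eval₂_X] at hz1
    apply htr z hz
    intro a b
    fin_cases a <;> fin_cases b
    · rfl
    · simp [hy0, hz1]
    · simp [hy0, hz1]
    · rfl
  · set t : Ω := y 0 / y 1 with ht
    have halg : IsIntegral K t := Algebra.IsIntegral.isIntegral t
    set m := minpoly K t with hm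
    set D := m.natDegree with hD
    have hmirr : Irreducible m := minpoly.irreducible halg
    have hmmon : m.Monic := minpoly.monic halg
    have hD1 : 1 ≤ D := minpoly.natDegree_pos halg
    obtain ⟨s, b, hs, hb⟩ := exists_int (fun i : Fin (D + 1) => m.coeff i)
    have hsK : (algebraMap (𝓞 K) Ω) s ≠ 0 := by
      intro h
      apply hs
      exact (FaithfulSMul.algebraMap_injective (𝓞 K) Ω) (by rw [h, map_zero])
    set v : MvPolynomial (Fin 2) (𝓞 K) := ∑ i : Fin (D + 1), C (b i) * (X 0 ^ (i : ℕ) * X 1 ^ (D - (i : ℕ))) with hv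
    have hjb : ∀ i : Fin (D + 1), j (b i) = j s * algebraMap K Ω (m.coeff i) := by
      intro i
      have h1 : j (b i) = algebraMap K Ω (jK (b i)) := by rw [← hcomp]; rfl
      have h2 : j s = algebraMap K Ω (jK s) := by rw [← hcomp]; rfl
      rw [h1, h2, ← map_mul]
      congr 1
      exact hb i
    have hvev : ∀ z : Fin 2 → Ω, eval₂ j z v = j s * ∑ i : Fin (D + 1), algebraMap K Ω (m.coeff i) * (z 0 ^ (i : ℕ) * z 1 ^ (D - (i : ℕ))) := by
      intro z
      rw [hv, eval₂_sum, Finset.mul_sum]
      apply Finset.sum_congr rfl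
      intro i _
      rw [eval₂_mul, eval₂_mul, eval₂_pow, eval₂_pow, eval₂_C, eval₂_X, eval₂_X, hjb]
      ring
    refine ⟨D, v, hD1, ?_, ?_⟩
    · rw [hv]
      apply IsHomogeneous.sum
      intro i _
      have h1 : ((X 0 ^ (i : ℕ) * X 1 ^ (D - (i : ℕ)) : MvPolynomial (Fin 2) (𝓞 K))).IsHomogeneous D := by
        have h2 := (isHomogeneous_X_pow (R := 𝓞 K) (0 : Fin 2) (i : ℕ)).mul (isHomogeneous_X_pow (R := 𝓞 K) (1 : Fin 2) (D - (i : ℕ)))
        have h3 : (i : ℕ) + (D - (i : ℕ)) = D := by omega
        rw [h3] at h2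
        exact h2
      exact h1.C_mul _
    · intro z hz hvz
      rw [hvev] at hvz
      have hsum := (mul_eq_zero.1 hvz).resolve_left hsK
      have hz1 : z 1 ≠ 0 := by
        intro h0
        rw [Fin.sum_univ_castSucc, Finset.sum_eq_zero (by
          intro i _
          have : D - ((Fin.castSucc i : Fin (D + 1)) : ℕ) ≠ 0 := by
            rw [Fin.val_castSucc]
            omega
          rw [h0, zero_pow this, mul_zero, mul_zero])] at hsum
        rw [zero_add, Fin.val_last, Nat.sub_self, pow_zero, mul_one] at hsum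
        have h1 : m.coeff D = 1 := hmmon
        rw [h1, map_one, one_mul] at hsum
        have h2 : z 0 = 0 := (pow_eq_zero_iff (by omega)).1 hsum
        apply hz
        funext k
        fin_cases k
        · exact h2
        · exact h0
      set τ : Ω := z 0 / z 1 with hτ
      have hz0τ : z 0 = τ * z 1 := by rw [hτ]; field_simp
      have hy0t : y 0 = t * y 1 := by rw [ht]; field_simp
      have hτm : Polynomial.aeval τ m = 0 := by
        have h1 : ∑ i : Fin (D + 1), algebraMap K Ω (m.coeff i) * (z 0 ^ (i : ℕ) * z 1 ^ (D - (i : ℕ)))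
            = z 1 ^ D * Polynomial.aeval τ m := by
          rw [Polynomial.aeval_eq_sum_range, Finset.mul_sum, ← hD, Finset.sum_range]
          apply Finset.sum_congr rfl
          intro i _
          rw [hz0τ, mul_pow, Algebra.smul_def]
          have h2 : z 1 ^ D = z 1 ^ (i : ℕ) * z 1 ^ (D - (i : ℕ)) := by
            rw [← pow_add]
            congr 1
            omega
          rw [h2]
          ring
        rw [h1] at hsum
        exact (mul_eq_zero.1 hsum).resolve_left (pow_ne_zero _ hz1)
      have hmτ : m = minpoly K τ := minpoly.eq_of_irreducible_of_monic hmirr hτm hmmon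
      -- transfer of homogeneous conditions between the conjugates
      have htransfer : ∀ (f : MvPolynomial (Fin 2) (𝓞 K)) {e : ℕ}, f.IsHomogeneous e →
          (eval₂ j z f = 0 ↔ eval₂ j y f = 0) := by
        intro f e hf
        set P : Polynomial K := eval₂ (Polynomial.C.comp jK) ![Polynomial.X, 1] f with hP
        have hPe : ∀ a : Ω, Polynomial.aeval a P = eval₂ j ![a, 1] f := by
          intro a
          rw [hP]
          have h1 := eval₂_comp_left ((Polynomial.aeval a : Polynomial K →ₐ[K] Ω) : Polynomial K →+* Ω) (Polynomial.C.comp jK) ![Polynomial.X, 1] f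
          have h2 : ((Polynomial.aeval a : Polynomial K →ₐ[K] Ω) : Polynomial K →+* Ω).comp (Polynomial.C.comp jK) = j := by
            rw [← hcomp]
            ext r
            simp
          rw [h2] at h1
          refine h1.trans ?_
          congr 1
          funext k
          fin_cases k
          · simp
          · simp
        have hze : eval₂ j z f = z 1 ^ e * eval₂ j ![τ, 1] f := by
          rw [← eval₂_smul_of_homog hf]
          congr 1
          funext k
          fin_cases k
          · simp [hz0τ, mul_comm]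
          · simp
        have hye : eval₂ j y f = y 1 ^ e * eval₂ j ![t, 1] f := by
          rw [← eval₂_smul_of_homog hf]
          congr 1
          funext k
          fin_cases k
          · simp [hy0t, mul_comm]
          · simp
        rw [hze, hye, ← hPe, ← hPe]
        constructor
        · intro h
          have h1 := (mul_eq_zero.1 h).resolve_left (pow_ne_zero _ hz1)
          have h2 : minpoly K τ ∣ P := minpoly.dvd K τ h1
          rw [← hmτ] at h2
          obtain ⟨q, hq⟩ := h2
          rw [hq, map_mul, hm, minpoly.aeval, zero_mul, mul_zero]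
        · intro h
          have h1 := (mul_eq_zero.1 h).resolve_left (pow_ne_zero _ hy0)
          have h2 : minpoly K t ∣ P := minpoly.dvd K t h1
          obtain ⟨q, hq⟩ := h2
          rw [hq, map_mul, ← hm, hτm, zero_mul, mul_zero]
      constructor
      · intro h
        apply hy1
        rw [← fixF_iff] at h ⊢
        exact (htransfer _ (fixF_homog hG)).1 h
      · rw [← fixF_iff, ← eval₂_bind₁'] at hy2 ⊢
        have hbh : (bind₁ G (fixF G)).IsHomogeneous (d * (1 + d)) :=
          (fixF_homog hG).aeval _ hG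
        exact (htransfer _ hbh).2 hy2

/-- **Maps of the projective line.** -/
theorem good_P1 (G : Fin 2 → MvPolynomial (Fin 2) (𝓞 K)) {d : ℕ} (hd : 2 ≤ d) (hG : ∀ i, (G i).IsHomogeneous d)
    (hNZ : NZ (algebraMap (𝓞 K) (AlgebraicClosure K)) G) (g : Fin 2 → 𝓞 K) (hg : g ≠ 0) (hper : PerAE G g) :
    ∃ m n : ℕ, m < n ∧ Par ((pevO G)^[m] g) ((pevO G)^[n] g) := by
  classical
  by_cases hfix : Par g (pevO G g)
  · exact ⟨0, 1, one_pos, hfix⟩
  set j := algebraMap (𝓞 K) (AlgebraicClosure K) with hj
  set T := pev j G with hT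
  obtain ⟨D, v, hD, hv, hvp⟩ := exists_aux G hd hG hNZ
  have hT0 : T 0 = 0 := pev_zero (by omega) hG j
  have hw0 : eval₂ j (0 : Fin 2 → AlgebraicClosure K) (fixF G) = 0 := by
    rw [fixF_eval]
    simp
  refine core_inv G hG hNZ g hg hper ∅ (by simp) (by simp) (fixF G) v (fixF_homog hG) hv hD ?_ 1 ?_ ?_ ?_
  · intro z _ hz
    by_cases hz0 : z = 0
    · subst hz0
      change eval₂ j (T 0) (fixF G) = 0
      rw [hT0]
      exact hw0
    · rw [fixF_iff] at hz ⊢
      exact pev_par hG j hz (hNZ z hz0)
  · intro z _ hz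
    rw [Function.iterate_one]
    by_cases hz0 : z = 0
    · subst hz0
      change eval₂ j (T 0) (fixF G) = 0
      rw [hT0]
      exact hw0
    · rw [fixF_iff]
      exact (hvp z hz0 hz).2
  · intro s
    refine ⟨s + 1, ?_⟩
    intro z hz0 _
    have hcard : ((Finset.range (s + 1)).filter (fun t => eval₂ j (T^[t] z) v = 0)).card ≤ 1 := by
      have key : ∀ t1 t2, t1 < t2 → eval₂ j (T^[t1] z) v = 0 → eval₂ j (T^[t2] z) v = 0 → False := by
        intro t1 t2 h12 h1 h2
        have hb := (hvp _ (hNZ.iter t1 hz0) h1).2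
        have hall : ∀ t, t1 + 1 ≤ t → Par (T^[t] z) (T (T^[t] z)) := by
          intro t ht
          induction t, ht using Nat.le_induction with
          | base =>
            rw [Function.iterate_succ_apply']
            exact hb
          | succ t ht ih =>
            rw [Function.iterate_succ_apply']
            exact pev_par hG j ih (hNZ _ (hNZ.iter t hz0))
        exact (hvp _ (hNZ.iter t2 hz0) h2).1 (hall t2 h12)
      rw [Finset.card_le_one]
      intro t1 h1 t2 h2
      rw [Finset.mem_filter] at h1 h2
      by_contra hne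
      rcases lt_or_gt_of_ne hne with h | h
      · exact key t1 t2 h h1.2 h2.2
      · exact key t2 t1 h h2.2 h1.2
    have := Nat.mul_le_mul_left s hcard
    rw [mul_one] at this
    exact Nat.lt_succ_of_le this
  · intro h
    apply hfix
    have h1 := (fixF_iff (RingHom.id (𝓞 K)) G g).1
    exact h1 h

end P1

end Pool.Agent.Lib.MP_df4dfc_nt
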