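import Mathlib
import Pool.Agent.Lib.MP_df4dfc_nt.Iv5
import Pool.Agent.Lib.MP_df4dfc_nt.Asm1

set_option autoImplicit false
set_option linter.unusedSectionVars false
set_option linter.style.haveILetI false
set_option linter.unusedVariables false

/-! Skew products over maps of a lower dimensional space. -/

namespace Pool.Agent.Lib.MP_df4dfc_nt

open MvPolynomial NumberField IsDedekindDomain

universe u

section CZ

variable {ι : Type*} [Fintype ι] {Ω : Type*} [Field Ω] [IsAlgClosed Ω]

/-- fewer forms than variables have a common zero. -/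
theorem exists_common_zero (F : ι → MvPolynomial ι Ω) {d : ℕ} (hd : 1 ≤ d) (hF : ∀ i, (F i).IsHomogeneous d)
    (i0 : ι) (h0 : F i0 = 0) : ∃ z : ι → Ω, z ≠ 0 ∧ ∀ i, eval z (F i) = 0 := by
  by_contra hcon
  push Not at hcon
  obtain ⟨M, hM1, hM2⟩ := exists_pow_repr' (Ω := Ω) F (fun _ => d) hF (by
    intro y hy
    by_contra hne
    obtain ⟨i, hi⟩ := hcon y hne
    apply hi
    have := hy i
    rw [aeval_def] at this
    exact this)
  haveI := module_finite_of_repr F hd (hM1 i0) hM2
  have halg := alg_indep_of_finite F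
  exact halg.ne_zero i0 h0

end CZ

section Tail

variable {R T : Type*} [CommRing R] [CommRing T] {N : ℕ}

/-- restriction of the last forms to `X₀ = 0` -/
noncomputable def tailG (G : Fin (N + 2) → MvPolynomial (Fin (N + 2)) R) : Fin (N + 1) → MvPolynomial (Fin (N + 1)) R :=
  fun i => bind₁ (Fin.cons 0 (fun k => X k) : Fin (N + 2) → MvPolynomial (Fin (N + 1)) R) (G i.succ)

theorem pev_tailG (φ : R →+* T) (G : Fin (N + 2) → MvPolynomial (Fin (N + 2)) R) (y : Fin (N + 1) → T) (i : Fin (N + 1)) :
    pev φ (tailG G) y i = pev φ G (Fin.cons 0 y) i.succ := by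
  unfold pev tailG
  have h := eval₂Hom_bind₁ φ y (Fin.cons 0 (fun k => X k) : Fin (N + 2) → MvPolynomial (Fin (N + 1)) R) (G i.succ)
  simp only [coe_eval₂Hom] at h
  rw [h]
  congr 1
  funext k
  refine Fin.cases ?_ (fun k => ?_) k
  · simp
  · simp

theorem tailG_homog {G : Fin (N + 2) → MvPolynomial (Fin (N + 2)) R} {d : ℕ} (hG : ∀ i, (G i).IsHomogeneous d)
    (i : Fin (N + 1)) : (tailG G i).IsHomogeneous d := by
  unfold tailG
  have := (hG i.succ).aeval (Fin.cons 0 (fun k => X k) : Fin (N + 2) → MvPolynomial (Fin (N + 1)) R) (n := 1) (by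
    intro k
    refine Fin.cases ?_ (fun k => ?_) k
    · exact isHomogeneous_zero _ _ _
    · exact isHomogeneous_X _ _)
  rw [one_mul] at this
  exact this

/-- the last forms do not involve the first variable -/
def Skew (G : Fin (N + 2) → MvPolynomial (Fin (N + 2)) R) : Prop := ∀ i : Fin (N + 1), (0 : Fin (N + 2)) ∉ (G i.succ).vars

theorem Skew.pv {G : Fin (N + 2) → MvPolynomial (Fin (N + 2)) R} (h : Skew G) (φ : R →+* T) (x : Fin (N + 2) → T)
    (i : Fin (N + 1)) : pev φ G x i.succ = pev φ (tailG G) (Fin.tail x) i := by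
  rw [pev_tailG]
  have := eval₂Hom_congr' (f₁ := φ) (f₂ := φ) (g₁ := x) (g₂ := Fin.cons 0 (Fin.tail x)) (p₁ := G i.succ) (p₂ := G i.succ) rfl
    (by
      intro k hk _
      revert hk
      refine Fin.cases ?_ (fun k => ?_) k
      · intro hk
        exact absurd hk (h i)
      · intro _
        rfl) rfl
  exact this

theorem Skew.pv_tail {G : Fin (N + 2) → MvPolynomial (Fin (N + 2)) R} (h : Skew G) (φ : R →+* T) (x : Fin (N + 2) → T) :
    Fin.tail (pev φ G x) = pev φ (tailG G) (Fin.tail x) := by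
  funext i
  exact h.pv φ x i

theorem Skew.pv_tail_iter {G : Fin (N + 2) → MvPolynomial (Fin (N + 2)) R} (h : Skew G) (φ : R →+* T) (n : ℕ)
    (x : Fin (N + 2) → T) :
    Fin.tail ((pev φ G)^[n] x) = (pev φ (tailG G))^[n] (Fin.tail x) := by
  induction n generalizing x with
  | zero => rfl
  | succ n ih =>
    rw [Function.iterate_succ_apply, Function.iterate_succ_apply, ih, h.pv_tail]

theorem par_tail {x y : Fin (N + 2) → T} (h : Par x y) : Par (Fin.tail x) (Fin.tail y) :=
  fun i j => h i.succ j.succ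

end Tail

section NZtail

variable {R : Type*} [CommRing R] {Ω : Type*} [Field Ω] [IsAlgClosed Ω] {N : ℕ}

theorem Skew.nz {G : Fin (N + 2) → MvPolynomial (Fin (N + 2)) R} (h : Skew G) {d : ℕ} (hd : 1 ≤ d)
    (hG : ∀ i, (G i).IsHomogeneous d) {j : R →+* Ω} (hNZ : NZ j G) : NZ j (tailG G) := by
  intro y hy h0
  -- the binary form G₀(s, t y)
  set ψ : Fin (N + 2) → MvPolynomial (Fin 2) Ω := Fin.cons (X 0) (fun k => C (y k) * X 1) with hψ
  set F : Fin 2 → MvPolynomial (Fin 2) Ω := ![bind₁ ψ (MvPolynomial.map j (G 0)), 0] with hF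
  obtain ⟨z, hz, hz'⟩ := exists_common_zero F hd (by
    intro i
    fin_cases i
    · simp only [hF]
      have := ((hG 0).map j).aeval ψ (n := 1) (by
        intro k
        refine Fin.cases ?_ (fun k => ?_) k
        · exact isHomogeneous_X _ _
        · exact (isHomogeneous_X _ _).C_mul _)
      rw [one_mul] at this
      exact this
    · exact isHomogeneous_zero _ _ _) 1 (by simp [hF])
  set x : Fin (N + 2) → Ω := Fin.cons (z 0) (z 1 • y) with hx
  have hx0 : x ≠ 0 := by
    intro hx0
    apply hz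
    have h1 : z 0 = 0 := congrFun hx0 0
    have h2 : z 1 • y = 0 := by
      funext k
      exact congrFun hx0 k.succ
    have h3 : z 1 = 0 := (smul_eq_zero.1 h2).resolve_right hy
    funext k
    fin_cases k
    · exact h1
    · exact h3
  apply hNZ x hx0
  funext i
  refine Fin.cases ?_ (fun i => ?_) i
  · have h1 := hz' 0
    have h2 : eval z (F 0) = pev j G x 0 := by
      simp only [hF, Matrix.cons_val_zero]
      unfold pev
      have h3 := eval₂Hom_bind₁ (RingHom.id Ω) z ψ (MvPolynomial.map j (G 0))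
      simp only [coe_eval₂Hom] at h3
      change eval₂ (RingHom.id Ω) z (bind₁ ψ (MvPolynomial.map j (G 0))) = _
      rw [h3, eval₂_map, RingHom.id_comp]
      congr 1
      funext k
      refine Fin.cases ?_ (fun k => ?_) k
      · simp [hψ, hx]
      · simp [hψ, hx, mul_comm]
    rw [← h2]
    exact h1
  · rw [h.pv j x i]
    have h1 : Fin.tail x = z 1 • y := rfl
    rw [h1, pev_smul (tailG_homog hG) j]
    have h2 := congrFun h0 i
    simp only [Pi.smul_apply, smul_eq_mul, Pi.zero_apply] at h2 ⊢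
    rw [h2, mul_zero]

end NZtail

section Per

variable {K : Type u} [Field K] [NumberField K] {ι : Type*} [Fintype ι]

/-- A preperiodic vector which is periodic modulo almost all primes is periodic. -/
theorem per_of_preper (G : ι → MvPolynomial ι (𝓞 K)) {d : ℕ} (hd : 1 ≤ d) (hG : ∀ i, (G i).IsHomogeneous d)
    (hNZ : NZ (algebraMap (𝓞 K) (AlgebraicClosure K)) G) (g : ι → 𝓞 K) (hg : g ≠ 0) (hper : PerAE G g)
    (m n : ℕ) (hmn : m < n) (h : Par ((pevO G)^[m] g) ((pevO G)^[n] g)) :
    ∃ l : ℕ, 1 ≤ l ∧ Par ((pevO G)^[l] g) g := by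
  by_contra hcon
  push Not at hcon
  have hNZ1 : NZ (RingHom.id (𝓞 K)) G := NZ.of_injective (ψ := algebraMap (𝓞 K) (AlgebraicClosure K))
    (by rw [RingHom.comp_id]; exact hNZ) (FaithfulSMul.algebraMap_injective (𝓞 K) (AlgebraicClosure K))
  have hbig := core_strict G hd hG hNZ (pevO G g) g (hNZ1 g hg) hg (by
    intro k hk
    rw [← Function.iterate_succ_apply (pevO G)] at hk
    exact hcon (k + 1) (by omega) hk) hcon m (n - m) (by omega) (by
    have e : m + (n - m) = n := by omega
    rw [e]
    exact h.symm)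
  apply hbig.infinite
  apply hper.subset
  intro p hp
  simp only [Set.mem_ofPred_eq] at hp ⊢
  rintro ⟨k, hk, hpar⟩
  apply hp (k - 1)
  rw [← Function.iterate_succ_apply (pevO G)]
  have e : (k - 1).succ = k := by omega
  rw [e]
  exact hpar

end Per

end Pool.Agent.Lib.MP_df4dfc_nt
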