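import Mathlib
import Pool.Agent.Lib.MP_df4dfc_nt.Iv6

set_option autoImplicit false
set_option linter.unusedSectionVars false
set_option linter.style.haveILetI false
set_option linter.unusedVariables false

/-! The return map on a periodic fibre of a skew product. -/

namespace Pool.Agent.Lib.MP_df4dfc_nt

open MvPolynomial NumberField IsDedekindDomain

universe u

theorem iterPoly_homog {ι R : Type*} [CommRing R] {G : ι → MvPolynomial ι R} {d : ℕ} (hG : ∀ i, (G i).IsHomogeneous d)
    (n : ℕ) (i : ι) : (iterPoly G n i).IsHomogeneous (d ^ n) := by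
  induction n generalizing i with
  | zero =>
    rw [pow_zero]
    exact isHomogeneous_X _ _
  | succ n ih =>
    have := (ih i).aeval G hG
    rw [← pow_succ'] at this
    exact this

section Fibre

variable {R : Type*} [CommRing R] {N : ℕ}

/-- parametrization of the line through `(1:0:…:0)` and `g` -/
def lineV {T : Type*} [CommRing T] (g : Fin (N + 2) → T) (u : Fin 2 → T) : Fin (N + 2) → T :=
  Fin.cons (u 0 + g 0 * u 1) (fun k => g k.succ * u 1)

theorem lineV_smul {T : Type*} [CommRing T] (g : Fin (N + 2) → T) (c : T) (u : Fin 2 → T) :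
    lineV g (c • u) = c • lineV g u := by
  funext k
  refine Fin.cases ?_ (fun k => ?_) k
  · simp [lineV]
    ring
  · simp [lineV]
    ring

theorem lineV_par {T : Type*} [CommRing T] (g : Fin (N + 2) → T) {u u' : Fin 2 → T} (h : Par u u') :
    Par (lineV g u) (lineV g u') := by
  have h01 := h 0 1
  intro a b
  refine Fin.cases ?_ (fun a => ?_) a
  · refine Fin.cases ?_ (fun b => ?_) b
    · ring
    · simp only [lineV, Fin.cons_zero, Fin.cons_succ]
      linear_combination (g b.succ) * h01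
  · refine Fin.cases ?_ (fun b => ?_) b
    · simp only [lineV, Fin.cons_zero, Fin.cons_succ]
      linear_combination (-g a.succ) * h01
    · simp only [lineV, Fin.cons_succ]
      ring

theorem par_of_lineV {T : Type*} [CommRing T] [IsDomain T] (g : Fin (N + 2) → T) (k : Fin (N + 1)) (hk : g k.succ ≠ 0)
    {u u' : Fin 2 → T} (h : Par (lineV g u) (lineV g u')) : Par u u' := by
  have h0 := h 0 k.succ
  simp only [lineV, Fin.cons_zero, Fin.cons_succ] at h0
  have h1 : u 0 * u' 1 = u 1 * u' 0 := by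
    apply mul_left_cancel₀ hk
    linear_combination h0
  intro a b
  fin_cases a <;> fin_cases b
  · rfl
  · exact h1
  · exact h1.symm
  · rfl

theorem lineV_ne_zero {T : Type*} [CommRing T] [IsDomain T] (g : Fin (N + 2) → T) (k : Fin (N + 1)) (hk : g k.succ ≠ 0)
    {u : Fin 2 → T} (h : lineV g u = 0) : u = 0 := by
  have h1 := congrFun h k.succ
  have h0 := congrFun h 0
  simp only [lineV, Fin.cons_zero, Fin.cons_succ, Pi.zero_apply] at h0 h1
  have h2 : u 1 = 0 := (mul_eq_zero.1 h1).resolve_left hk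
  funext i
  fin_cases i
  · simpa [h2] using h0
  · exact h2

/-- the parametrization as linear forms -/
noncomputable def lineP (g : Fin (N + 2) → R) : Fin (N + 2) → MvPolynomial (Fin 2) R :=
  Fin.cons (X 0 + C (g 0) * X 1) (fun k => C (g k.succ) * X 1)

theorem lineP_eval {T : Type*} [CommRing T] (φ : R →+* T) (g : Fin (N + 2) → R) (u : Fin 2 → T) :
    (fun k => eval₂ φ u (lineP g k)) = lineV (fun k => φ (g k)) u := by
  funext k
  refine Fin.cases ?_ (fun k => ?_) k
  · simp [lineP, lineV]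
  · simp [lineP, lineV]

theorem lineP_homog (g : Fin (N + 2) → R) (k : Fin (N + 2)) : (lineP g k).IsHomogeneous 1 := by
  refine Fin.cases ?_ (fun k => ?_) k
  · exact (isHomogeneous_X _ _).add ((isHomogeneous_X _ _).C_mul _)
  · exact (isHomogeneous_X _ _).C_mul _

/-- the return map -/
noncomputable def retG (G : Fin (N + 2) → MvPolynomial (Fin (N + 2)) R) (d l : ℕ) (a b : R) (g : Fin (N + 2) → R) :
    Fin 2 → MvPolynomial (Fin 2) R :=
  ![C b * bind₁ (lineP g) (iterPoly G l 0) - C (a * g 0) * X 1 ^ (d ^ l), C a * X 1 ^ (d ^ l)]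

theorem retG_homog {G : Fin (N + 2) → MvPolynomial (Fin (N + 2)) R} {d : ℕ} (hG : ∀ i, (G i).IsHomogeneous d)
    (l : ℕ) (a b : R) (g : Fin (N + 2) → R) (i : Fin 2) : (retG G d l a b g i).IsHomogeneous (d ^ l) := by
  fin_cases i
  · change (C b * bind₁ (lineP g) (iterPoly G l 0) - C (a * g 0) * X 1 ^ (d ^ l)).IsHomogeneous _
    apply IsHomogeneous.sub
    · have := (iterPoly_homog hG l 0).aeval (lineP g) (lineP_homog g)
      rw [one_mul] at this
      exact this.C_mul _
    · exact (isHomogeneous_X_pow _ _).C_mul _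
  · exact (isHomogeneous_X_pow _ _).C_mul _

theorem retG_spec {T : Type*} [CommRing T] {G : Fin (N + 2) → MvPolynomial (Fin (N + 2)) R} (hsk : Skew G) {d : ℕ}
    (hG : ∀ i, (G i).IsHomogeneous d) (φ : R →+* T) (l : ℕ) (a b : R) (g : Fin (N + 2) → R)
    (hab : ∀ i : Fin (N + 1), b * (pev (RingHom.id R) G)^[l] g i.succ = a * g i.succ) (u : Fin 2 → T) :
    lineV (fun k => φ (g k)) (pev φ (retG G d l a b g) u) = φ b • (pev φ G)^[l] (lineV (fun k => φ (g k)) u) := by
  have e0 : pev φ (retG G d l a b g) u 0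
      = φ b * (pev φ G)^[l] (lineV (fun k => φ (g k)) u) 0 - φ a * φ (g 0) * u 1 ^ (d ^ l) := by
    change eval₂ φ u (C b * bind₁ (lineP g) (iterPoly G l 0) - C (a * g 0) * X 1 ^ (d ^ l)) = _
    rw [eval₂_sub, eval₂_mul, eval₂_mul, eval₂_C, eval₂_C, eval₂_pow, eval₂_X, map_mul]
    have h1 : eval₂ φ u (bind₁ (lineP g) (iterPoly G l 0)) = (pev φ G)^[l] (lineV (fun k => φ (g k)) u) 0 := by
      have h2 := eval₂Hom_bind₁ φ u (lineP g) (iterPoly G l 0)
      simp only [coe_eval₂Hom] at h2
      rw [h2, lineP_eval, ← pev_iterPoly]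
      rfl
    rw [h1]
  have e1 : pev φ (retG G d l a b g) u 1 = φ a * u 1 ^ (d ^ l) := by
    change eval₂ φ u (C a * X 1 ^ (d ^ l)) = _
    rw [eval₂_mul, eval₂_C, eval₂_pow, eval₂_X]
  funext k
  refine Fin.cases ?_ (fun k => ?_) k
  · change pev φ (retG G d l a b g) u 0 + φ (g 0) * pev φ (retG G d l a b g) u 1
      = φ b * (pev φ G)^[l] (lineV (fun k => φ (g k)) u) 0
    rw [e0, e1]
    ring
  · change φ (g k.succ) * pev φ (retG G d l a b g) u 1
      = φ b * (pev φ G)^[l] (lineV (fun k => φ (g k)) u) k.succ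
    rw [e1]
    have h1 : (pev φ G)^[l] (lineV (fun k => φ (g k)) u) k.succ = u 1 ^ (d ^ l) * φ ((pev (RingHom.id R) G)^[l] g k.succ) := by
      have h2 := congrFun (hsk.pv_tail_iter φ l (lineV (fun k => φ (g k)) u)) k
      change (pev φ G)^[l] (lineV (fun k => φ (g k)) u) k.succ = _ at h2
      rw [h2]
      have h3 : Fin.tail (lineV (fun k => φ (g k)) u) = u 1 • (fun k : Fin (N + 1) => φ (g k.succ)) := by
        funext k
        simp [lineV, Fin.tail, mul_comm]
      rw [h3, pev_iter_smul (tailG_homog hG)]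
      simp only [Pi.smul_apply, smul_eq_mul]
      congr 1
      have h4 := congrFun (hsk.pv_tail_iter (RingHom.id R) l g) k
      change (pev (RingHom.id R) G)^[l] g k.succ = _ at h4
      rw [h4]
      have h5 := congrFun (pev_iter_map (RingHom.id R) φ (tailG G) l (Fin.tail g)) k
      rw [RingHom.comp_id] at h5
      rw [h5]
      rfl
    rw [h1]
    have h6 := congrArg φ (hab k)
    rw [map_mul, map_mul] at h6
    linear_combination (-(u 1 ^ (d ^ l))) * h6

theorem retG_iter {T : Type*} [CommRing T] {G : Fin (N + 2) → MvPolynomial (Fin (N + 2)) R} (hsk : Skew G) {d : ℕ}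
    (hG : ∀ i, (G i).IsHomogeneous d) (φ : R →+* T) (l : ℕ) (a b : R) (g : Fin (N + 2) → R)
    (hab : ∀ i : Fin (N + 1), b * (pev (RingHom.id R) G)^[l] g i.succ = a * g i.succ) (m : ℕ) (u : Fin 2 → T) :
    ∃ e : ℕ, lineV (fun k => φ (g k)) ((pev φ (retG G d l a b g))^[m] u)
      = (φ b) ^ e • (pev φ G)^[l * m] (lineV (fun k => φ (g k)) u) := by
  induction m with
  | zero => exact ⟨0, by simp⟩
  | succ m ih =>
    obtain ⟨e, he⟩ := ih
    refine ⟨1 + e * d ^ l, ?_⟩
    rw [Function.iterate_succ_apply', retG_spec hsk hG φ l a b g hab, he, pev_iter_smul hG]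
    have h1 : l * (m + 1) = l + l * m := by ring
    rw [h1, Function.iterate_add_apply, smul_smul, pow_add, pow_one, pow_mul]

end Fibre

section Step

variable {K : Type u} [Field K] [NumberField K] {N : ℕ}

theorem skew_step (G : Fin (N + 2) → MvPolynomial (Fin (N + 2)) (𝓞 K)) (hsk : Skew G) {d : ℕ} (hd : 2 ≤ d)
    (hG : ∀ i, (G i).IsHomogeneous d)
    (hNZ : NZ (algebraMap (𝓞 K) (AlgebraicClosure K)) G) (g : Fin (N + 2) → 𝓞 K) (hg : Fin.tail g ≠ 0)
    (hper : PerAE G g) (l : ℕ) (hl : 1 ≤ l) (hpl : Par ((pevO (tailG G))^[l] (Fin.tail g)) (Fin.tail g)) :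
    ∃ m n : ℕ, m < n ∧ Par ((pevO G)^[m] g) ((pevO G)^[n] g) := by
  set j := algebraMap (𝓞 K) (AlgebraicClosure K) with hj
  have hjinj : Function.Injective j := FaithfulSMul.algebraMap_injective (𝓞 K) (AlgebraicClosure K)
  obtain ⟨k, hk⟩ := Function.ne_iff.1 hg
  rw [Pi.zero_apply] at hk
  change g k.succ ≠ 0 at hk
  set b := g k.succ with hb
  set a := (pevO G)^[l] g k.succ with ha
  have hab : ∀ i : Fin (N + 1), b * (pevO G)^[l] g i.succ = a * g i.succ := by
    intro i
    have h1 := hsk.pv_tail_iter (RingHom.id (𝓞 K)) l g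
    rw [← h1] at hpl
    have h2 := hpl k i
    change (pevO G)^[l] g k.succ * g i.succ = (pevO G)^[l] g i.succ * g k.succ at h2
    rw [ha, hb]
    linear_combination -h2
  have hNZt := hsk.nz (by omega) hG hNZ
  have hNZt1 : NZ (RingHom.id (𝓞 K)) (tailG G) := NZ.of_injective (ψ := j) (by rw [RingHom.comp_id]; exact hNZt) hjinj
  have hNZ1 : NZ (RingHom.id (𝓞 K)) G := NZ.of_injective (ψ := j) (by rw [RingHom.comp_id]; exact hNZ) hjinj
  have hg0 : g ≠ 0 := by
    rintro rfl
    exact hk rfl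
  have ha0 : a ≠ 0 := by
    intro h0
    apply hNZt1.iter l hg
    funext i
    rw [← hsk.pv_tail_iter (RingHom.id (𝓞 K)) l g]
    have h1 := hab i
    rw [h0, zero_mul] at h1
    exact (mul_eq_zero.1 h1).resolve_left hk
  set H := retG G d l a b g with hH
  have hHh : ∀ i, (H i).IsHomogeneous (d ^ l) := fun i => retG_homog hG l a b g i
  have hD : 2 ≤ d ^ l := le_trans hd (Nat.le_self_pow (by omega) d)
  have hNZH : NZ j H := by
    intro u hu h0
    apply hu
    have h1 := retG_spec hsk hG j l a b g hab u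
    rw [← hH, h0] at h1
    have h2 : lineV (fun k => j (g k)) (0 : Fin 2 → AlgebraicClosure K) = 0 := by
      have := lineV_smul (fun k => j (g k)) (0 : AlgebraicClosure K) (0 : Fin 2 → AlgebraicClosure K)
      simpa using this
    rw [h2] at h1
    have hjb : j b ≠ 0 := fun h => hk (hjinj (by rw [h, map_zero]))
    have h3 : (pev j G)^[l] (lineV (fun k => j (g k)) u) = 0 := (smul_eq_zero.1 h1.symm).resolve_left hjb
    have h4 : lineV (fun k => j (g k)) u = 0 := by
      by_contra hne
      exact hNZ.iter l hne h3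
    exact lineV_ne_zero (fun k => j (g k)) k hjb h4
  set u0 : Fin 2 → 𝓞 K := ![0, 1] with hu0
  have hu00 : u0 ≠ 0 := by
    intro h
    have := congrFun h 1
    simp [hu0] at this
  have hline : ∀ {T : Type u} [CommRing T] (φ : 𝓞 K →+* T), lineV (fun k => φ (g k)) (fun i => φ (u0 i)) = fun k => φ (g k) := by
    intro T _ φ
    funext k
    refine Fin.cases ?_ (fun k => ?_) k
    · simp [lineV, hu0]
    · simp [lineV, hu0]
  -- periodicity modulo primes
  obtain ⟨s0, hs0, hs0'⟩ := good_ae.{u} j hjinj G hNZ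
  have hperH : PerAE H u0 := by
    apply ((finite_bad' (s0 * b) (mul_ne_zero hs0 hk)).union hper).subset
    intro p hp
    by_contra hcon
    rw [Set.mem_union, not_or] at hcon
    obtain ⟨hc1, hc2⟩ := hcon
    simp only [Set.mem_ofPred_eq, not_not] at hc1 hc2
    apply hp
    haveI := p.isMaximal
    letI : Field (𝓞 K ⧸ p.asIdeal) := Ideal.Quotient.field _
    have e0 : redK p s0 ≠ 0 := fun h => hc1 (Ideal.mul_mem_right _ _ (Ideal.Quotient.eq_zero_iff_mem.1 h))
    have eb : redK p b ≠ 0 := fun h => hc1 (Ideal.mul_mem_left _ _ (Ideal.Quotient.eq_zero_iff_mem.1 h))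
    have hNZ0 : NZ (redK p) G := hs0' _ (redK p) e0
    have hgb : (fun i => redK p (g i)) ≠ 0 := fun h => eb (congrFun h k.succ)
    obtain ⟨m, hm, hpar⟩ := hc2
    refine ⟨m, hm, ?_⟩
    have hit : ∀ r, (fun i => redK p ((pevO G)^[r] g i)) = (pev (redK p) G)^[r] (fun i => redK p (g i)) := by
      intro r
      rw [pev_iter_map, RingHom.comp_id]
    have hitH : ∀ r, (fun i => redK p ((pevO H)^[r] u0 i)) = (pev (redK p) H)^[r] (fun i => redK p (u0 i)) := by
      intro r
      rw [pev_iter_map, RingHom.comp_id]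
    have hpar0 : Par ((pev (redK p) G)^[0 + m] (fun i => redK p (g i))) ((pev (redK p) G)^[0] (fun i => redK p (g i))) := by
      rw [zero_add, Function.iterate_zero, id, ← hit]
      exact hpar
    have hpar1 := iter_add_par hG hNZ0 _ hgb 0 m hpar0 0 l le_rfl
    rw [zero_add, Function.iterate_zero, id] at hpar1
    obtain ⟨e, he⟩ := retG_iter hsk hG (redK p) l a b g hab m (fun i => redK p (u0 i))
    rw [hline (redK p)] at he
    apply par_of_lineV (fun k => redK p (g k)) k eb
    rw [hitH, ← hH] at *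
    rw [he, hline (redK p)]
    exact hpar1.smul_left _
  obtain ⟨m, n, hmn, hpar⟩ := good_P1 H hD hHh hNZH u0 hu00 hperH
  refine ⟨l * m, l * n, Nat.mul_lt_mul_of_pos_left hmn (by omega), ?_⟩
  obtain ⟨e1, he1⟩ := retG_iter hsk hG (RingHom.id (𝓞 K)) l a b g hab m u0
  obtain ⟨e2, he2⟩ := retG_iter hsk hG (RingHom.id (𝓞 K)) l a b g hab n u0
  have hl0 := hline (RingHom.id (𝓞 K))
  simp only [RingHom.id_apply] at he1 he2 hl0
  rw [hl0] at he1 he2
  have h1 := lineV_par g hpar
  rw [hH] at h1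
  rw [he1, he2] at h1
  have hbe1 : b ^ e1 ≠ 0 := pow_ne_zero _ hk
  have hbe2 : b ^ e2 ≠ 0 := pow_ne_zero _ hk
  intro x y
  have h2 := h1 x y
  simp only [Pi.smul_apply, smul_eq_mul] at h2
  apply mul_left_cancel₀ (mul_ne_zero hbe1 hbe2)
  linear_combination h2

/-- **Skew products**: if every vector that is periodic modulo almost all primes is preperiodic for
the base, the same holds for the skew product. -/
theorem good_skew (G : Fin (N + 2) → MvPolynomial (Fin (N + 2)) (𝓞 K)) (hsk : Skew G) {d : ℕ} (hd : 2 ≤ d)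
    (hG : ∀ i, (G i).IsHomogeneous d)
    (hNZ : NZ (algebraMap (𝓞 K) (AlgebraicClosure K)) G)
    (hbase : ∀ g : Fin (N + 1) → 𝓞 K, g ≠ 0 → PerAE (tailG G) g →
      ∃ m n : ℕ, m < n ∧ Par ((pevO (tailG G))^[m] g) ((pevO (tailG G))^[n] g))
    (g : Fin (N + 2) → 𝓞 K) (hg : g ≠ 0) (hper : PerAE G g) :
    ∃ m n : ℕ, m < n ∧ Par ((pevO G)^[m] g) ((pevO G)^[n] g) := by
  by_cases ht : Fin.tail g = 0
  · refine ⟨0, 1, one_pos, ?_⟩
    have h1 : ∀ i : Fin (N + 1), g i.succ = 0 := fun i => congrFun ht i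
    have h2 : ∀ i : Fin (N + 1), pevO G g i.succ = 0 := by
      intro i
      have h3 := hsk.pv (RingHom.id (𝓞 K)) g i
      rw [ht] at h3
      exact h3.trans (congrFun (pev_zero (by omega) (tailG_homog hG) (RingHom.id (𝓞 K))) i)
    intro x y
    rw [Function.iterate_zero, Function.iterate_one, id]
    refine Fin.cases ?_ (fun x => ?_) x
    · refine Fin.cases ?_ (fun y => ?_) y
      · rfl
      · rw [h1, h2]
        ring
    · rw [h1, h2]
      ring
  · have hNZt := hsk.nz (by omega) hG hNZ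
    have hpert : PerAE (tailG G) (Fin.tail g) := by
      apply hper.subset
      intro p hp hcon
      apply hp
      obtain ⟨m, hm, hpar⟩ := hcon
      refine ⟨m, hm, ?_⟩
      rw [← hsk.pv_tail_iter (RingHom.id (𝓞 K)) m g]
      exact par_tail hpar
    obtain ⟨m, n, hmn, hpar⟩ := hbase _ ht hpert
    obtain ⟨l, hl, hpl⟩ := per_of_preper (tailG G) (by omega) (tailG_homog hG) hNZt _ ht hpert m n hmn hpar
    exact skew_step G hsk hd hG hNZ g ht hper l hl hpl

end Step

end Pool.Agent.Lib.MP_df4dfc_nt
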