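import Mathlib
import Pool.Agent.Lib.MP_df4dfc_nt.Iv7
import Pool.Agent.Lib.MP_df4dfc_nt.Criterion

set_option autoImplicit false
set_option linter.unusedSectionVars false
set_option linter.style.haveILetI false
set_option linter.unusedVariables false

/-! Triangular morphisms. -/

namespace Pool.Agent.Lib.MP_df4dfc_nt

open MvPolynomial NumberField IsDedekindDomain

universe u

section Tri

variable {R : Type*} [CommRing R] {N : ℕ}

theorem vars_tailG (G : Fin (N + 2) → MvPolynomial (Fin (N + 2)) R) (i j : Fin (N + 1)) (h : j ∈ (tailG G i).vars) :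
    j.succ ∈ (G i.succ).vars := by
  classical
  unfold tailG at h
  have h1 := vars_bind₁ (Fin.cons 0 (fun k => X k) : Fin (N + 2) → MvPolynomial (Fin (N + 1)) R) (G i.succ) h
  rw [Finset.mem_biUnion] at h1
  obtain ⟨k, hk, hk'⟩ := h1
  revert hk hk'
  refine Fin.cases ?_ (fun k => ?_) k
  · intro _ h2
    simp at h2
  · intro h2 h3
    rw [Fin.cons_succ] at h3
    by_cases hR : Nontrivial R
    · rw [vars_X, Finset.mem_singleton] at h3
      subst h3
      exact h2
    · rw [not_nontrivial_iff_subsingleton] at hR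
      haveI : Subsingleton (MvPolynomial (Fin (N + 1)) R) := inferInstance
      have : (X k : MvPolynomial (Fin (N + 1)) R) = 0 := Subsingleton.elim _ _
      rw [this] at h3
      simp at h3

end Tri

section Main

variable {K : Type u} [Field K] [NumberField K]

/-- every target that is periodic modulo almost all primes is preperiodic -/
def Rigid {ι : Type*} (G : ι → MvPolynomial ι (𝓞 K)) : Prop :=
  ∀ g : ι → 𝓞 K, g ≠ 0 → PerAE G g → ∃ m n : ℕ, m < n ∧ Par ((pevO G)^[m] g) ((pevO G)^[n] g)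

theorem rigid_tri {d : ℕ} (hd : 2 ≤ d) : ∀ (N : ℕ) (G : Fin (N + 1) → MvPolynomial (Fin (N + 1)) (𝓞 K)),
    (∀ i, (G i).IsHomogeneous d) → NZ (algebraMap (𝓞 K) (AlgebraicClosure K)) G →
    (∀ i j : Fin (N + 1), j ∈ (G i).vars → min (i : ℕ) (N - 1) ≤ (j : ℕ)) → Rigid G := by
  intro N
  induction N with
  | zero =>
    intro G _ _ _ g hg _
    refine ⟨0, 1, one_pos, ?_⟩
    intro a b
    fin_cases a
    fin_cases b
    rfl
  | succ N ih =>
    intro G hG hNZ htri
    cases N with
    | zero => exact fun g hg hper => good_P1 G hd hG hNZ g hg hper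
    | succ N =>
      have hsk : Skew G := by
        intro i h0
        have h1 := htri i.succ 0 h0
        simp only [Fin.val_succ, Fin.val_zero] at h1
        omega
      intro g hg hper
      refine good_skew G hsk hd hG hNZ ?_ g hg hper
      refine ih (tailG G) (tailG_homog hG) (hsk.nz (by omega) hG hNZ) ?_
      intro i j hj
      have h1 := htri i.succ j.succ (vars_tailG G i j hj)
      simp only [Fin.val_succ] at h1
      omega

variable {N d : ℕ}

/-- a rigid model gives the density statement for all pairs -/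
theorem posDensity_of_rigid (hd : 1 ≤ d) (Φ : Morph K N d) {c : K}
    {G : Fin (N + 1) → MvPolynomial (Fin (N + 1)) (𝓞 K)} (hG : Model Φ c G) (γ₂ : PN K N)
    (hrig : ∀ g : Fin (N + 1) → 𝓞 K, Rp γ₂ g → PerAE G g → ∃ m n : ℕ, m < n ∧ Par ((pevO G)^[m] g) ((pevO G)^[n] g))
    (γ₁ : PN K N) (H : ∀ m : ℕ, Φ.map^[m] γ₁ ≠ γ₂) : PosDensity (avoidSet Φ γ₁ γ₂) := by
  obtain ⟨g, hg⟩ := exists_Rp γ₂
  by_cases hper : PerAE G g
  · obtain ⟨m, n, hmn, hpar⟩ := hrig g hg hper
    exact posDensity_of_preperiodic hd Φ γ₁ γ₂ H m n hmn ((hG.rp_iter hg m).eq_of_par (hG.rp_iter hg n) hpar)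
  · by_cases hp : ∃ l, 1 ≤ l ∧ Φ.map^[l] γ₂ = γ₂
    · obtain ⟨l, hl, hl'⟩ := hp
      exact posDensity_of_preperiodic hd Φ γ₁ γ₂ H 0 l (by omega) (by rw [hl']; rfl)
    · push Not at hp
      have htf := criterion hd Φ γ₂ hp
      have h31 : (avoidSet Φ (Φ.map γ₂) γ₂).Infinite →
          ∀ γ₁ : PN K N, (∀ m : ℕ, Φ.map^[m] γ₁ ≠ γ₂) → PosDensity (avoidSet Φ γ₁ γ₂) := by
        intro h
        exact (htf.out 2 0).1 h
      apply h31 _ γ₁ H
      unfold PerAE at hper
      apply Set.Infinite.mono _ hper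
      intro p hp2 m hc
      apply hp2
      refine ⟨m + 1, by omega, ?_⟩
      have h1 := hc.par (hG.rp_iter (hG.rp hg) m) hg
      rw [← Function.iterate_succ_apply (pevO G)] at h1
      exact h1

theorem model_vars {Φ : Morph K N d} {c : K} {G : Fin (N + 1) → MvPolynomial (Fin (N + 1)) (𝓞 K)}
    (h : Model Φ c G) (i : Fin (N + 1)) : (G i).vars ⊆ (Φ.F i).vars := by
  classical
  have h1 : (MvPolynomial.map (algebraMap (𝓞 K) K) (G i)).vars = (G i).vars := vars_map_of_injective (p := G i) inj_O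
  rw [← h1, h.2 i]
  intro x hx
  have h2 := vars_C_mul (σ := Fin (N + 1)) c h.1 (Φ.F i)
  rw [h2] at hx
  exact hx

/-- **Triangular morphisms.** -/
theorem posDensity_tri (hd : 2 ≤ d) (Φ : Morph K N d)
    (htri : ∀ i j : Fin (N + 1), j ∈ (Φ.F i).vars → min (i : ℕ) (N - 1) ≤ (j : ℕ)) (γ₁ γ₂ : PN K N)
    (H : ∀ m : ℕ, Φ.map^[m] γ₁ ≠ γ₂) : PosDensity (avoidSet Φ γ₁ γ₂) := by
  obtain ⟨c, G, hG⟩ := exists_model Φ
  have hrig := rigid_tri hd N G hG.homog hG.nz (fun i j hj => htri i j (model_vars hG i hj))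
  exact posDensity_of_rigid (by omega) Φ hG γ₂ (fun g hg hper => hrig g hg.ne_zero hper) γ₁ H

end Main

end Pool.Agent.Lib.MP_df4dfc_nt
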