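import Mathlib
import Pool.Agent.Lib.MP_df4dfc_nt.Iv3

set_option autoImplicit false
set_option linter.unusedSectionVars false
set_option linter.style.haveILetI false
set_option linter.unusedVariables false

/-! Visits to a closed set without periodic subsets have frequency zero, uniformly. -/

namespace Pool.Agent.Lib.MP_df4dfc_nt

open MvPolynomial

section Comb

open scoped Classical in
/-- visits are either isolated or come in pairs with a small gap -/
theorem gap_count (A : Set ℕ) (R k0 : ℕ) (hk0 : 1 ≤ k0) :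
    ((Finset.range R).filter (fun t => t ∈ A)).card ≤ (R / k0 + 1) +
      ∑ k ∈ Finset.Icc 1 k0, ((Finset.range R).filter (fun t => t ∈ A ∧ t + k ∈ A)).card := by
  set F := (Finset.range R).filter (fun t => t ∈ A) with hF
  set I := F.filter (fun t => ∀ k ∈ Finset.Icc 1 k0, t + k ∉ A) with hI
  set J := F.filter (fun t => ¬ ∀ k ∈ Finset.Icc 1 k0, t + k ∉ A) with hJ
  have h1 : F.card = I.card + J.card := by
    rw [hI, hJ]
    exact (Finset.card_filter_add_card_filter_not (s := F) (fun t => ∀ k ∈ Finset.Icc 1 k0, t + k ∉ A)).symm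
  have h2 : I.card ≤ R / k0 + 1 := by
    have h3 : (I.image (fun t => t / k0)).card = I.card := by
      apply Finset.card_image_of_injOn
      have key : ∀ a ∈ I, ∀ b ∈ I, a < b → a / k0 ≠ b / k0 := by
        intro a ha b hb hab heq
        rw [hI, Finset.mem_filter] at ha hb
        have hbA : b ∈ A := (Finset.mem_filter.1 hb.1).2
        by_cases hle : b - a ≤ k0
        · apply ha.2 (b - a) (Finset.mem_Icc.2 ⟨by omega, hle⟩)
          have : a + (b - a) = b := by omega
          rw [this]
          exact hbA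
        · have h4 : a / k0 + 1 ≤ b / k0 := by
            have h5 : (a + k0) / k0 = a / k0 + 1 := Nat.add_div_right a (by omega)
            rw [← h5]
            exact Nat.div_le_div_right (by omega)
          omega
      intro a ha b hb heq
      by_contra hne
      rcases lt_or_gt_of_ne hne with h | h
      · exact key a ha b hb h heq
      · exact key b hb a ha h heq.symm
    rw [← h3]
    have h4 : I.image (fun t => t / k0) ⊆ Finset.range (R / k0 + 1) := by
      intro x hx
      rw [Finset.mem_image] at hx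
      obtain ⟨t, ht, rfl⟩ := hx
      rw [Finset.mem_range]
      have ht' : t < R := Finset.mem_range.1 (Finset.mem_filter.1 (Finset.mem_filter.1 ht).1).1
      have := Nat.div_le_div_right (c := k0) ht'.le
      omega
    have := Finset.card_le_card h4
    rw [Finset.card_range] at this
    exact this
  have h5 : J.card ≤ ∑ k ∈ Finset.Icc 1 k0, ((Finset.range R).filter (fun t => t ∈ A ∧ t + k ∈ A)).card := by
    refine le_trans (Finset.card_le_card ?_) Finset.card_biUnion_le
    intro t ht
    rw [hJ, Finset.mem_filter] at ht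
    obtain ⟨ht1, ht2⟩ := ht
    push Not at ht2
    obtain ⟨k, hk, hk'⟩ := ht2
    rw [Finset.mem_biUnion]
    refine ⟨k, hk, ?_⟩
    rw [Finset.mem_filter]
    exact ⟨(Finset.mem_filter.1 ht1).1, (Finset.mem_filter.1 ht1).2, hk'⟩
  omega

variable {X : Type*}

open scoped Classical in
/-- number of visits to `C` among the first `R` iterates -/
noncomputable def visits (T : X → X) (C : Set X) (R : ℕ) (x : X) : ℕ :=
  ((Finset.range R).filter (fun t => T^[t] x ∈ C)).card

theorem visits_add (T : X → X) (C : Set X) (R S : ℕ) (x : X) :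
    visits T C (R + S) x = visits T C R x + visits T C S (T^[R] x) := by
  classical
  unfold visits
  have h1 : (Finset.range (R + S)).filter (fun t => T^[t] x ∈ C) =
      (Finset.range R).filter (fun t => T^[t] x ∈ C) ∪
      ((Finset.range S).filter (fun t => T^[t] (T^[R] x) ∈ C)).map ⟨fun t => t + R, fun a b h => by simpa using h⟩ := by
    ext t
    simp only [Finset.mem_filter, Finset.mem_range, Finset.mem_union, Finset.mem_map, Function.Embedding.coeFn_mk]
    constructor
    · rintro ⟨h1, h2⟩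
      by_cases ht : t < R
      · exact Or.inl ⟨ht, h2⟩
      · right
        refine ⟨t - R, ⟨by omega, ?_⟩, by omega⟩
        rw [← Function.iterate_add_apply]
        have : t - R + R = t := by omega
        rw [this]
        exact h2
    · rintro (⟨h1, h2⟩ | ⟨s, ⟨h1, h2⟩, rfl⟩)
      · exact ⟨by omega, h2⟩
      · refine ⟨by omega, ?_⟩
        rw [← Function.iterate_add_apply] at h2
        exact h2
  rw [h1, Finset.card_union_of_disjoint, Finset.card_map]
  rw [Finset.disjoint_left]
  intro t ht1 ht2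
  simp only [Finset.mem_filter, Finset.mem_range, Finset.mem_map, Function.Embedding.coeFn_mk] at ht1 ht2
  obtain ⟨s, _, rfl⟩ := ht2
  omega

/-- uniform bound on a window passes to multiples of the window -/
theorem visits_mul (T : X → X) (C : Set X) (s R : ℕ) (P : X → Prop) (hP : ∀ x, P x → P (T x))
    (h : ∀ x, P x → s * visits T C R x < R) (m : ℕ) (hm : 1 ≤ m) :
    ∀ x, P x → s * visits T C (m * R) x < m * R := by
  induction m, hm using Nat.le_induction with
  | base =>
    intro x hx
    rw [one_mul]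
    exact h x hx
  | succ m hm ih =>
    intro x hx
    have h1 : (m + 1) * R = m * R + R := by ring
    rw [h1, visits_add]
    have h2 := ih x hx
    have hPit : ∀ n, P (T^[n] x) := by
      intro n
      induction n with
      | zero => exact hx
      | succ n ihn =>
        rw [Function.iterate_succ_apply']
        exact hP _ ihn
    have h3 := h _ (hPit (m * R))
    rw [mul_add]
    omega

/-- rare visits -/
def RareOn (T : X → X) (P : X → Prop) (C : Set X) : Prop :=
  ∀ s : ℕ, ∃ R : ℕ, ∀ x, P x → s * visits T C R x < R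

open scoped Classical in
theorem rare_of_gaps (T : X → X) (P : X → Prop) (hP : ∀ x, P x → P (T x)) (C : Set X) (hne : ∃ x, P x)
    (h : ∀ k, 1 ≤ k → RareOn T P {x | x ∈ C ∧ T^[k] x ∈ C}) : RareOn T P C := by
  intro s
  by_cases hs : s = 0
  · subst hs
    exact ⟨1, fun x _ => by simp⟩
  have hs1 : 1 ≤ s := Nat.one_le_iff_ne_zero.2 hs
  set k0 := 4 * s with hk0
  set s' := 4 * s * k0 with hs'
  -- windows for each gap
  have hR : ∀ k, ∃ R : ℕ, 1 ≤ R ∧ (1 ≤ k → ∀ x, P x → s' * visits T {x | x ∈ C ∧ T^[k] x ∈ C} R x < R) := by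
    intro k
    by_cases hk : 1 ≤ k
    · obtain ⟨R, hR⟩ := h k hk s'
      obtain ⟨x0, hx0⟩ := hne
      have := hR x0 hx0
      exact ⟨R, by omega, fun _ => hR⟩
    · exact ⟨1, le_rfl, fun h => absurd h hk⟩
  choose W hW1 hW using hR
  set R := (4 * s) * ∏ k ∈ Finset.Icc 1 k0, W k with hRdef
  have hprod : 1 ≤ ∏ k ∈ Finset.Icc 1 k0, W k := Finset.one_le_prod' fun k _ => hW1 k
  have hR4 : 4 * s ≤ R := by
    rw [hRdef]
    exact Nat.le_mul_of_pos_right _ hprod
  refine ⟨R, ?_⟩
  intro x hx
  -- each gap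
  have hgap : ∀ k ∈ Finset.Icc 1 k0, s' * visits T {x | x ∈ C ∧ T^[k] x ∈ C} R x < R := by
    intro k hk
    have hk1 := (Finset.mem_Icc.1 hk).1
    have h1 : R = ((4 * s) * ∏ k' ∈ (Finset.Icc 1 k0).erase k, W k') * W k := by
      rw [hRdef, ← Finset.prod_erase_mul _ _ hk]
      ring
    have h2 : 1 ≤ (4 * s) * ∏ k' ∈ (Finset.Icc 1 k0).erase k, W k' := by
      have h3 : 1 ≤ ∏ k' ∈ (Finset.Icc 1 k0).erase k, W k' := Finset.one_le_prod' fun k _ => hW1 k
      have : 1 ≤ 4 * s := by omega
      exact Nat.one_le_iff_ne_zero.2 (by positivity)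
    have h3 := visits_mul T {x | x ∈ C ∧ T^[k] x ∈ C} s' (W k) P hP (hW k hk1) _ h2 x hx
    rw [← h1] at h3
    exact h3
  have hcount := gap_count {t | T^[t] x ∈ C} R k0 (by omega)
  have e1 : visits T C R x = ((Finset.range R).filter (fun t => t ∈ {t | T^[t] x ∈ C})).card := rfl
  have e2 : ∀ k, visits T {x | x ∈ C ∧ T^[k] x ∈ C} R x
      = ((Finset.range R).filter (fun t => t ∈ {t | T^[t] x ∈ C} ∧ t + k ∈ {t | T^[t] x ∈ C})).card := by
    intro k
    unfold visits
    apply congrArg Finset.card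
    ext t
    rw [@Finset.mem_filter, @Finset.mem_filter]
    simp only [Set.mem_ofPred_eq]
    rw [← Function.iterate_add_apply, add_comm k t]
  rw [← e1] at hcount
  set V := visits T C R x with hV
  set Sg := ∑ k ∈ Finset.Icc 1 k0, ((Finset.range R).filter
    (fun t => t ∈ {t | T^[t] x ∈ C} ∧ t + k ∈ {t | T^[t] x ∈ C})).card with hSg
  have hsum : s' * Sg ≤ k0 * R := by
    rw [hSg, Finset.mul_sum]
    have h1 : ∀ k ∈ Finset.Icc 1 k0, s' * ((Finset.range R).filter
        (fun t => t ∈ {t | T^[t] x ∈ C} ∧ t + k ∈ {t | T^[t] x ∈ C})).card ≤ R := by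
      intro k hk
      rw [← e2 k]
      exact (hgap k hk).le
    have h2 := Finset.sum_le_sum h1
    rw [Finset.sum_const, Nat.card_Icc, smul_eq_mul] at h2
    simpa using h2
  have hsum' : 4 * s * Sg ≤ R := by
    have hk0pos : 0 < k0 := by omega
    apply Nat.le_of_mul_le_mul_left _ hk0pos
    calc k0 * (4 * s * Sg) = s' * Sg := by rw [hs']; ring
      _ ≤ k0 * R := hsum
  have hdiv : 4 * s * (R / k0) ≤ R := by
    rw [hk0]
    exact Nat.mul_div_le R (4 * s)
  -- sum up: 4 s V ≤ 4 s (R/k0) + 4 s + 4 s Σ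
  have hV4 : 4 * s * V ≤ 4 * s * (R / k0 + 1 + Sg) := Nat.mul_le_mul_left _ hcount
  have hexp : 4 * s * (R / k0 + 1 + Sg) = 4 * s * (R / k0) + 4 * s + 4 * s * Sg := by ring
  have hfin : 4 * (s * V) ≤ 3 * R := by
    calc 4 * (s * V) = 4 * s * V := by ring
      _ ≤ 4 * s * (R / k0) + 4 * s + 4 * s * Sg := by rw [← hexp]; exact hV4
      _ ≤ 3 * R := by omega
  have hRpos : 0 < R := by omega
  omega

end Comb

theorem iterPoly_homog' {ι R : Type*} [CommRing R] {G : ι → MvPolynomial ι R} {d : ℕ} (hG : ∀ i, (G i).IsHomogeneous d)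
    (n : ℕ) (i : ι) : (iterPoly G n i).IsHomogeneous (d ^ n) := by
  induction n generalizing i with
  | zero =>
    rw [pow_zero]
    exact isHomogeneous_X _ _
  | succ n ih =>
    have := (ih i).aeval G hG
    rw [← pow_succ'] at this
    exact this

section Noeth

variable {Ω : Type*} [Field Ω] {ι : Type*} [Fintype ι]

/-- zero set of a set of polynomials away from the origin -/
def ZS (S : Set (MvPolynomial ι Ω)) : Set (ι → Ω) := {z | z ≠ 0 ∧ ∀ f ∈ S, eval z f = 0}

theorem ZS_span (S : Set (MvPolynomial ι Ω)) : ZS (Ideal.span S : Set (MvPolynomial ι Ω)) = ZS S := by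
  ext z
  constructor
  · rintro ⟨h1, h2⟩
    exact ⟨h1, fun f hf => h2 f (Ideal.subset_span hf)⟩
  · rintro ⟨h1, h2⟩
    refine ⟨h1, ?_⟩
    have : Ideal.span S ≤ RingHom.ker (eval z) := by
      rw [Ideal.span_le]
      intro f hf
      exact h2 f hf
    intro f hf
    exact this hf

/-- **Uniformly rare visits**: if no nonempty closed subset (of the projective space) of the closed
set `S₀ = 0` is mapped into itself by an iterate, all orbits visit `S₀ = 0` with frequency zero,
uniformly. -/
theorem rare_of_noeth [Nonempty ι] (G : ι → MvPolynomial ι Ω) {d : ℕ} (hG : ∀ i, (G i).IsHomogeneous d)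
    (hNZ : NZ (RingHom.id Ω) G) (S₀ : Set (MvPolynomial ι Ω)) (hS₀ : ∀ f ∈ S₀, ∃ e : ℕ, f.IsHomogeneous e)
    (hno : ∀ S : Set (MvPolynomial ι Ω), S₀ ⊆ S → (∀ f ∈ S, ∃ e : ℕ, f.IsHomogeneous e) → ∀ k : ℕ, 1 ≤ k →
      (∀ z ∈ ZS S, (pev (RingHom.id Ω) G)^[k] z ∈ ZS S) → ZS S = ∅) :
    RareOn (pev (RingHom.id Ω) G) (fun z => z ≠ 0) (ZS S₀) := by
  by_contra hcon
  set T := pev (RingHom.id Ω) G with hT
  set Fam : Set (Ideal (MvPolynomial ι Ω)) := {I | ∃ S : Set (MvPolynomial ι Ω), S₀ ⊆ S ∧
    (∀ f ∈ S, ∃ e : ℕ, f.IsHomogeneous e) ∧ I = Ideal.span S ∧ ¬ RareOn T (fun z => z ≠ 0) (ZS S)} with hFam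
  have hne : Fam.Nonempty := ⟨Ideal.span S₀, S₀, subset_rfl, hS₀, rfl, hcon⟩
  obtain ⟨I, hI, hmax⟩ := set_has_maximal_iff_noetherian.2 (inferInstance : IsNoetherian (MvPolynomial ι Ω) (MvPolynomial ι Ω)) Fam hne
  obtain ⟨S, hS1, hS2, hS3, hS4⟩ := hI
  apply hS4
  apply rare_of_gaps T (fun z => z ≠ 0) (fun z hz => hNZ z hz) (ZS S) ⟨fun _ => 1, by
    intro h
    have := congrFun h (Classical.arbitrary ι)
    simp at this⟩
  intro k hk
  set S' : Set (MvPolynomial ι Ω) := S ∪ (fun f => bind₁ (iterPoly G k) f) '' S with hS'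
  have hZ : {z | z ∈ ZS S ∧ T^[k] z ∈ ZS S} = ZS S' := by
    ext z
    have hev : ∀ f : MvPolynomial ι Ω, eval z (bind₁ (iterPoly G k) f) = eval (T^[k] z) f := by
      intro f
      have h1 := eval₂_bind₁' (RingHom.id Ω) (iterPoly G k) z f
      rw [pev_iterPoly] at h1
      exact h1
    constructor
    · rintro ⟨⟨h1, h2⟩, ⟨h3, h4⟩⟩
      refine ⟨h1, ?_⟩
      rintro f (hf | ⟨f, hf, rfl⟩)
      · exact h2 f hf
      · change eval z (bind₁ (iterPoly G k) f) = 0
        rw [hev]
        exact h4 f hf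
    · rintro ⟨h1, h2⟩
      refine ⟨⟨h1, fun f hf => h2 f (Or.inl hf)⟩, ⟨hNZ.iter k h1, ?_⟩⟩
      intro f hf
      have := h2 _ (Or.inr ⟨f, hf, rfl⟩)
      change eval z (bind₁ (iterPoly G k) f) = 0 at this
      rw [hev] at this
      exact this
  rw [hZ]
  have hS'h : ∀ f ∈ S', ∃ e : ℕ, f.IsHomogeneous e := by
    rintro f (hf | ⟨f, hf, rfl⟩)
    · exact hS2 f hf
    · obtain ⟨e, he⟩ := hS2 f hf
      exact ⟨_, he.aeval (iterPoly G k) (fun i => iterPoly_homog' hG k i)⟩
  by_cases heq : Ideal.span S' = I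
  · -- then the zero set is invariant, hence empty
    exfalso
    have hZS : ZS S' = ZS S := by
      rw [← ZS_span S', heq, hS3, ZS_span]
    have hemp := hno S hS1 hS2 k hk (by
      intro z hz
      rw [← hZS, ← hZ] at hz
      exact hz.2)
    apply hS4
    intro s
    refine ⟨1, ?_⟩
    intro x hx
    unfold visits
    rw [hemp]
    simp
  · by_contra hrare
    have hmem : Ideal.span S' ∈ Fam := ⟨S', hS1.trans Set.subset_union_left, hS'h, rfl, hrare⟩
    have hle : I ≤ Ideal.span S' := by
      rw [hS3]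
      exact Ideal.span_mono Set.subset_union_left
    exact hmax _ hmem (lt_of_le_of_ne hle (Ne.symm heq))

end Noeth

end Pool.Agent.Lib.MP_df4dfc_nt
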