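import Mathlib
import Pool.Agent.Lib.MP_df4dfc_nt.DefsInv
import Pool.Agent.Lib.MP_df4dfc_nt.Iv8
import Pool.Agent.Lib.MP_df4dfc_nt.Iv9

set_option autoImplicit false
set_option linter.unusedSectionVars false
set_option linter.style.haveILetI false
set_option linter.unusedVariables false

/-! Forward invariant hypersurfaces: the density statement. -/

namespace Pool.Agent.Lib.MP_df4dfc_nt

open MvPolynomial NumberField IsDedekindDomain

universe u

section Scale

variable {ι R R' T : Type*} [CommRing R] [CommRing R'] [CommRing T]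

/-- proportional polynomial maps have proportional iterates -/
theorem iter_scale {G : ι → MvPolynomial ι R} {F : ι → MvPolynomial ι R'} {φ : R →+* T} {ψ : R' →+* T} {d : ℕ}
    (hF : ∀ i, (F i).IsHomogeneous d) (c : T) (h : ∀ z, pev φ G z = c • pev ψ F z) (n : ℕ) :
    ∃ e : ℕ, ∀ z, (pev φ G)^[n] z = c ^ e • (pev ψ F)^[n] z := by
  induction n with
  | zero => exact ⟨0, fun z => by simp⟩
  | succ n ih =>
    obtain ⟨e, he⟩ := ih
    refine ⟨1 + e * d, ?_⟩
    intro z
    rw [Function.iterate_succ_apply', he, h, pev_smul hF, Function.iterate_succ_apply', smul_smul, pow_add, pow_one, pow_mul]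

end Scale

section Main

variable {K : Type u} [Field K] [NumberField K] {N d : ℕ}

theorem exists_int_poly {σ : Type} [Finite σ] (p : MvPolynomial σ K) :
    ∃ (s : 𝓞 K) (q : MvPolynomial σ (𝓞 K)), s ≠ 0 ∧ MvPolynomial.map (algebraMap (𝓞 K) K) q = C (s : K) * p := by
  letI : Algebra (MvPolynomial σ (𝓞 K)) (MvPolynomial σ K) := MvPolynomial.algebraMvPolynomial
  haveI : IsLocalization ((nonZeroDivisors (𝓞 K)).map (MvPolynomial.C (σ := σ) : 𝓞 K →+* _))
      (MvPolynomial σ K) := MvPolynomial.isLocalization (nonZeroDivisors (𝓞 K)) K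
  obtain ⟨b, hb⟩ := IsLocalization.exist_integer_multiples_of_finite
    ((nonZeroDivisors (𝓞 K)).map (MvPolynomial.C (σ := σ) : 𝓞 K →+* _)) (fun _ : Unit => p)
  obtain ⟨b0, hb0, hb1⟩ := Submonoid.mem_map.1 b.2
  obtain ⟨q, hq⟩ := hb ()
  refine ⟨b0, q, nonZeroDivisors.ne_zero hb0, ?_⟩
  rw [Algebra.smul_def, ← hb1] at hq
  have h2 : algebraMap (MvPolynomial σ (𝓞 K)) (MvPolynomial σ K) (MvPolynomial.C b0) = MvPolynomial.C (b0 : K) := by
    change MvPolynomial.map (algebraMap (𝓞 K) K) (MvPolynomial.C b0) = _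
    rw [MvPolynomial.map_C]
  rw [h2] at hq
  exact hq

/-- values of an integral multiple -/
theorem eval_int_poly {σ : Type} {p : MvPolynomial σ K} {s : 𝓞 K} {q : MvPolynomial σ (𝓞 K)}
    (h : MvPolynomial.map (algebraMap (𝓞 K) K) q = C (s : K) * p) (z : σ → AlgebraicClosure K) :
    eval₂ (algebraMap (𝓞 K) (AlgebraicClosure K)) z q = algebraMap (𝓞 K) (AlgebraicClosure K) s * aeval z p := by
  have h1 : aeval z (MvPolynomial.map (algebraMap (𝓞 K) K) q) = eval₂ (algebraMap (𝓞 K) (AlgebraicClosure K)) z q := by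
    rw [aeval_def, eval₂_map]
    rfl
  rw [← h1, h, map_mul, aeval_C]
  rfl

/-- targets periodic modulo almost all primes, off a forward invariant hypersurface -/
theorem preper_inv (Φ : Morph K N d) {c : K} {G : Fin (N + 1) → MvPolynomial (Fin (N + 1)) (𝓞 K)} (hG : Model Φ c G)
    (w v : MvPolynomial (Fin (N + 1)) K) {Dw D : ℕ}
    (hw : w.IsHomogeneous Dw) (hv : v.IsHomogeneous D) (hD : 1 ≤ D)
    (hinv : ∀ z : Fin (N + 1) → AlgebraicClosure K, aeval z w = 0 → aeval (Φ.lift z) w = 0)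
    (a : ℕ) (hpre : ∀ z : Fin (N + 1) → AlgebraicClosure K, aeval z v = 0 → aeval (Φ.lift^[a] z) w = 0)
    (hno : NoPeriodicIn Φ v) (g : Fin (N + 1) → 𝓞 K) (hg0 : g ≠ 0) (hper : PerAE G g)
    (hgw : eval (fun i => (g i : K)) w ≠ 0) :
    ∃ m n : ℕ, m < n ∧ Par ((pevO G)^[m] g) ((pevO G)^[n] g) := by
  classical
  set Ω := AlgebraicClosure K with hΩ
  set j := algebraMap (𝓞 K) Ω with hj
  have hjinj : Function.Injective j := FaithfulSMul.algebraMap_injective (𝓞 K) Ω
  obtain ⟨sw, w', hsw, hw'⟩ := exists_int_poly w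
  obtain ⟨sv, v', hsv, hv'⟩ := exists_int_poly v
  have hw'h : w'.IsHomogeneous Dw := by
    apply IsHomogeneous.of_map (f := algebraMap (𝓞 K) K) inj_O
    rw [hw']
    exact hw.C_mul _
  have hv'h : v'.IsHomogeneous D := by
    apply IsHomogeneous.of_map (f := algebraMap (𝓞 K) K) inj_O
    rw [hv']
    exact hv.C_mul _
  have hsw' : j sw ≠ 0 := fun h => hsw (hjinj (by rw [h, map_zero]))
  have hsv' : j sv ≠ 0 := fun h => hsv (hjinj (by rw [h, map_zero]))
  have hwz : ∀ z : Fin (N + 1) → Ω, eval₂ j z w' = 0 ↔ aeval z w = 0 := by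
    intro z
    rw [eval_int_poly hw']
    exact ⟨fun h => (mul_eq_zero.1 h).resolve_left hsw', fun h => by rw [h, mul_zero]⟩
  have hvz : ∀ z : Fin (N + 1) → Ω, eval₂ j z v' = 0 ↔ aeval z v = 0 := by
    intro z
    rw [eval_int_poly hv']
    exact ⟨fun h => (mul_eq_zero.1 h).resolve_left hsv', fun h => by rw [h, mul_zero]⟩
  set cΩ : Ω := algebraMap K Ω c with hcΩ
  have hcΩ0 : cΩ ≠ 0 := (map_ne_zero _).2 hG.1
  have hlift : Φ.lift = pev (algebraMap K Ω) Φ.F := rfl
  have hTG : ∀ z : Fin (N + 1) → Ω, pev j G z = cΩ • pev (algebraMap K Ω) Φ.F z := by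
    intro z
    funext i
    have h1 : aeval z (MvPolynomial.map (algebraMap (𝓞 K) K) (G i)) = eval₂ j z (G i) := by
      rw [aeval_def, eval₂_map]
      rfl
    change eval₂ j z (G i) = _
    rw [← h1, hG.2 i, map_mul, aeval_C]
    rfl
  have hit : ∀ n, ∃ e : ℕ, ∀ z, (pev j G)^[n] z = cΩ ^ e • Φ.lift^[n] z := by
    intro n
    rw [hlift]
    exact iter_scale Φ.homog cΩ hTG n
  have hscale : ∀ (p : MvPolynomial (Fin (N + 1)) K) {e : ℕ} (_ : p.IsHomogeneous e) (b : Ω) (_ : b ≠ 0) (z : Fin (N + 1) → Ω),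
      aeval (b • z) p = 0 ↔ aeval z p = 0 := by
    intro p e hp b hb z
    rw [aeval_def, aeval_def, eval₂_smul_of_homog hp]
    exact ⟨fun h => (mul_eq_zero.1 h).resolve_left (pow_ne_zero _ hb), fun h => by rw [h, mul_zero]⟩
  refine core_inv G hG.homog hG.nz g hg0 hper ∅ (by simp) (by simp) w' v' hw'h hv'h hD ?_ a ?_ ?_ ?_
  · intro z _ hz
    rw [hwz] at hz ⊢
    rw [hTG, hscale w hw _ hcΩ0]
    exact hinv z hz
  · intro z _ hz
    rw [hvz] at hz
    rw [hwz]
    obtain ⟨e, he⟩ := hit a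
    rw [he, hscale w hw _ (pow_ne_zero _ hcΩ0)]
    exact hpre z hz
  · -- rare visits
    set GΩ : Fin (N + 1) → MvPolynomial (Fin (N + 1)) Ω := fun i => MvPolynomial.map j (G i) with hGΩ
    have hpevΩ : pev (RingHom.id Ω) GΩ = pev j G := by
      have := pev_mapG' j (RingHom.id Ω) G
      rw [RingHom.id_comp] at this
      exact this
    have hGΩh : ∀ i, (GΩ i).IsHomogeneous d := fun i => (hG.homog i).map j
    have hNZΩ : NZ (RingHom.id Ω) GΩ := by
      intro z hz
      rw [hpevΩ]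
      exact hG.nz z hz
    have hrare := rare_of_noeth GΩ hGΩh hNZΩ {MvPolynomial.map j v'} (by
      intro f hf
      rw [Set.mem_singleton_iff] at hf
      subst hf
      exact ⟨D, hv'h.map j⟩) (by
      intro S hS0 hSh k hk hmap
      by_contra hne
      have hne' : (ZS S).Nonempty := Set.nonempty_iff_ne_empty.2 hne
      refine hno (ZS S) ⟨S, hSh, rfl⟩ hne' ?_ k hk ?_
      · intro z hz
        rw [← hvz]
        have h1 := hz.2 _ (hS0 (Set.mem_singleton _))
        rw [eval_map] at h1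
        exact h1
      · intro z hz
        have h1 := hmap z hz
        rw [hpevΩ] at h1
        obtain ⟨e, he⟩ := hit k
        rw [he] at h1
        have hce := pow_ne_zero e hcΩ0
        refine ⟨?_, ?_⟩
        · intro h0
          apply h1.1
          rw [h0, smul_zero]
        · intro f hf
          obtain ⟨e', he'⟩ := hSh f hf
          have h2 := h1.2 f hf
          have h3 : eval (cΩ ^ e • Φ.lift^[k] z) f = (cΩ ^ e) ^ e' * eval (Φ.lift^[k] z) f :=
            eval₂_smul_of_homog he' (RingHom.id Ω) (cΩ ^ e) (Φ.lift^[k] z)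
          rw [h3] at h2
          exact (mul_eq_zero.1 h2).resolve_left (pow_ne_zero _ hce))
    intro s
    obtain ⟨R, hR⟩ := hrare s
    refine ⟨R, ?_⟩
    intro z hz _
    have h1 := hR z hz
    rw [hpevΩ] at h1
    refine lt_of_eq_of_lt ?_ h1
    unfold visits
    congr 1
    apply congrArg Finset.card
    ext t
    rw [@Finset.mem_filter, @Finset.mem_filter]
    constructor
    · rintro ⟨h2, h3⟩
      refine ⟨h2, hG.nz.iter t hz, ?_⟩
      intro f hf
      rw [Set.mem_singleton_iff] at hf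
      subst hf
      rw [eval_map]
      exact h3
    · rintro ⟨h2, h3⟩
      refine ⟨h2, ?_⟩
      have h4 := h3.2 _ (Set.mem_singleton _)
      rw [eval_map] at h4
      exact h4
  · -- the target is not on the hypersurface
    intro h0
    apply hgw
    have h4 : algebraMap (𝓞 K) K (eval g w') = eval (fun i => (g i : K)) (MvPolynomial.map (algebraMap (𝓞 K) K) w') := by
      rw [eval_map]
      exact eval₂_eval (algebraMap (𝓞 K) K) g w'
    rw [h0, map_zero, hw', map_mul, eval_C] at h4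
    have hswK : (sw : K) ≠ 0 := fun h => hsw (inj_O (by rw [map_zero]; exact h))
    exact (mul_eq_zero.1 h4.symm).resolve_left hswK

/-- **Forward invariant hypersurfaces.** -/
theorem posDensity_inv (hd : 1 ≤ d) (Φ : Morph K N d) (w v : MvPolynomial (Fin (N + 1)) K) {Dw D : ℕ}
    (hw : w.IsHomogeneous Dw) (hv : v.IsHomogeneous D) (hD : 1 ≤ D)
    (hinv : ∀ z : Fin (N + 1) → AlgebraicClosure K, aeval z w = 0 → aeval (Φ.lift z) w = 0)
    (a : ℕ) (hpre : ∀ z : Fin (N + 1) → AlgebraicClosure K, aeval z v = 0 → aeval (Φ.lift^[a] z) w = 0)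
    (hno : NoPeriodicIn Φ v) (γ₁ γ₂ : PN K N) (hγ : eval γ₂.rep w ≠ 0)
    (H : ∀ m : ℕ, Φ.map^[m] γ₁ ≠ γ₂) : PosDensity (avoidSet Φ γ₁ γ₂) := by
  obtain ⟨c, G, hG⟩ := exists_model Φ
  apply posDensity_of_rigid hd Φ hG γ₂ _ γ₁ H
  intro g hg hper
  refine preper_inv Φ hG w v hw hv hD hinv a hpre hno g hg.ne_zero hper ?_
  intro h3
  apply hγ
  obtain ⟨h1, h2⟩ := hg
  have hpar : Par γ₂.rep (fun i => (g i : K)) := by
    rw [← mk_eq_iff_par _ _ γ₂.rep_nonzero h1, Projectivization.mk_rep]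
    exact h2.symm
  obtain ⟨b, hb⟩ := hpar.exists_smul h1
  rw [hb]
  have h5 : eval (b • (fun i => (g i : K))) w = b ^ Dw * eval (fun i => (g i : K)) w :=
    eval₂_smul_of_homog hw (RingHom.id K) b _
  rw [h5, h3, mul_zero]

end Main

end Pool.Agent.Lib.MP_df4dfc_nt
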