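import Mathlib
import Pool.Agent.Lib.MP_df4dfc_nt.Iv10

set_option autoImplicit false
set_option linter.unusedSectionVars false
set_option linter.style.haveILetI false
set_option linter.unusedVariables false

/-! Lifts of models. -/

namespace Pool.Agent.Lib.MP_df4dfc_nt

open MvPolynomial NumberField IsDedekindDomain

universe u

section Models

variable {K : Type u} [Field K] [NumberField K] {N d : ℕ}

/-- two integral polynomials with the same values over the algebraic closure are equal -/
theorem eq_of_values {σ : Type} (p q : MvPolynomial σ (𝓞 K))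
    (h : ∀ z : σ → AlgebraicClosure K, eval₂ (algebraMap (𝓞 K) (AlgebraicClosure K)) z p
      = eval₂ (algebraMap (𝓞 K) (AlgebraicClosure K)) z q) : p = q := by
  apply MvPolynomial.map_injective (algebraMap (𝓞 K) (AlgebraicClosure K))
    (FaithfulSMul.algebraMap_injective (𝓞 K) (AlgebraicClosure K))
  apply MvPolynomial.funext
  intro z
  rw [eval_map, eval_map]
  exact h z

theorem Model.lift {Φ : Morph K N d} {c : K} {G : Fin (N + 1) → MvPolynomial (Fin (N + 1)) (𝓞 K)}
    (h : Model Φ c G) (z : Fin (N + 1) → AlgebraicClosure K) :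
    pev (algebraMap (𝓞 K) (AlgebraicClosure K)) G z = algebraMap K (AlgebraicClosure K) c • Φ.lift z := by
  funext i
  have h1 : aeval z (MvPolynomial.map (algebraMap (𝓞 K) K) (G i))
      = eval₂ (algebraMap (𝓞 K) (AlgebraicClosure K)) z (G i) := by
    rw [aeval_def, eval₂_map]
    rfl
  change eval₂ (algebraMap (𝓞 K) (AlgebraicClosure K)) z (G i) = _
  rw [← h1, h.2 i, map_mul, aeval_C]
  rfl

theorem model_of_lift {Φ : Morph K N d} {c : K} (hc : c ≠ 0) {G : Fin (N + 1) → MvPolynomial (Fin (N + 1)) (𝓞 K)}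
    (h : ∀ z : Fin (N + 1) → AlgebraicClosure K,
      pev (algebraMap (𝓞 K) (AlgebraicClosure K)) G z = algebraMap K (AlgebraicClosure K) c • Φ.lift z) :
    Model Φ c G := by
  refine ⟨hc, ?_⟩
  intro i
  apply MvPolynomial.map_injective (algebraMap K (AlgebraicClosure K)) (algebraMap K (AlgebraicClosure K)).injective
  apply MvPolynomial.funext
  intro z
  rw [eval_map, eval_map, eval₂_map, eval₂_mul, eval₂_C]
  exact congrFun (h z) i

theorem Model.lift_iter {Φ : Morph K N d} {c : K} {G : Fin (N + 1) → MvPolynomial (Fin (N + 1)) (𝓞 K)}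
    (h : Model Φ c G) (n : ℕ) : ∃ e : ℕ, ∀ z : Fin (N + 1) → AlgebraicClosure K,
    (pev (algebraMap (𝓞 K) (AlgebraicClosure K)) G)^[n] z = (algebraMap K (AlgebraicClosure K) c) ^ e • Φ.lift^[n] z :=
  iter_scale Φ.homog _ h.lift n

end Models

end Pool.Agent.Lib.MP_df4dfc_nt
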