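import Mathlib
import Pool.Agent.Lib.MP_df4dfc_nt.Iv9

set_option autoImplicit false
set_option linter.unusedSectionVars false
set_option linter.style.haveILetI false
set_option linter.unusedVariables false

/-! A shift invariant mean on bounded real sequences. -/

namespace Pool.Agent.Lib.MP_df4dfc_nt

open Filter Topology

/-- bounded sequences -/
def BddS (f : ℕ → ℝ) : Prop := ∃ M : ℝ, ∀ n, |f n| ≤ M

/-- averages -/
noncomputable def cavg (f : ℕ → ℝ) (R : ℕ) : ℝ := (∑ n ∈ Finset.range R, f n) / R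

/-- the mean of a bounded sequence -/
noncomputable def mean (f : ℕ → ℝ) : ℝ := limUnder (hyperfilter ℕ : Filter ℕ) (cavg f)

theorem cavg_bound {f : ℕ → ℝ} {M : ℝ} (hM : ∀ n, |f n| ≤ M) (R : ℕ) : |cavg f R| ≤ M := by
  have hM0 : 0 ≤ M := (abs_nonneg _).trans (hM 0)
  unfold cavg
  rcases Nat.eq_zero_or_pos R with rfl | hR
  · simpa using hM0
  · have hR' : (0 : ℝ) < R := by exact_mod_cast hR
    rw [abs_div, abs_of_pos hR', div_le_iff₀ hR']
    calc |∑ n ∈ Finset.range R, f n| ≤ ∑ n ∈ Finset.range R, |f n| := Finset.abs_sum_le_sum_abs _ _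
      _ ≤ ∑ n ∈ Finset.range R, M := Finset.sum_le_sum fun n _ => hM n
      _ = M * R := by rw [Finset.sum_const, Finset.card_range, nsmul_eq_mul]; ring

theorem tendsto_mean {f : ℕ → ℝ} (hf : BddS f) : Tendsto (cavg f) (hyperfilter ℕ : Filter ℕ) (𝓝 (mean f)) := by
  obtain ⟨M, hM⟩ := hf
  have h1 : ((hyperfilter ℕ).map (cavg f) : Filter ℝ) ≤ 𝓟 (Set.Icc (-M) M) := by
    rw [le_principal_iff]
    apply Filter.mem_of_superset (x := Set.range (cavg f))
    · rw [Ultrafilter.coe_map, Filter.mem_map]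
      apply Filter.mem_of_superset Filter.univ_mem
      intro n _
      exact ⟨n, rfl⟩
    · rintro _ ⟨n, rfl⟩
      exact abs_le.1 (cavg_bound hM n)
  obtain ⟨x, _, hx⟩ := (isCompact_Icc (a := -M) (b := M)).ultrafilter_le_nhds ((hyperfilter ℕ).map (cavg f)) h1
  exact tendsto_nhds_limUnder ⟨x, hx⟩

theorem hyper_le : (hyperfilter ℕ : Filter ℕ) ≤ atTop := Nat.hyperfilter_le_atTop

theorem mean_eq {f : ℕ → ℝ} {l : ℝ} (h : Tendsto (cavg f) (hyperfilter ℕ : Filter ℕ) (𝓝 l)) : mean f = l :=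
  h.limUnder_eq

theorem BddS.add {f g : ℕ → ℝ} (hf : BddS f) (hg : BddS g) : BddS (fun n => f n + g n) := by
  obtain ⟨M, hM⟩ := hf
  obtain ⟨M', hM'⟩ := hg
  exact ⟨M + M', fun n => (abs_add_le _ _).trans (add_le_add (hM n) (hM' n))⟩

theorem BddS.mul {f : ℕ → ℝ} (hf : BddS f) (c : ℝ) : BddS (fun n => c * f n) := by
  obtain ⟨M, hM⟩ := hf
  exact ⟨|c| * M, fun n => by rw [abs_mul]; exact mul_le_mul_of_nonneg_left (hM n) (abs_nonneg _)⟩

theorem BddS.shift {f : ℕ → ℝ} (hf : BddS f) (t : ℕ) : BddS (fun n => f (n + t)) := by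
  obtain ⟨M, hM⟩ := hf
  exact ⟨M, fun n => hM _⟩

theorem BddS.const (c : ℝ) : BddS (fun _ => c) := ⟨|c|, fun _ => le_rfl⟩

theorem mean_add {f g : ℕ → ℝ} (hf : BddS f) (hg : BddS g) : mean (fun n => f n + g n) = mean f + mean g := by
  apply mean_eq
  have h1 : cavg (fun n => f n + g n) = fun R => cavg f R + cavg g R := by
    funext R
    unfold cavg
    rw [Finset.sum_add_distrib, add_div]
  rw [h1]
  exact (tendsto_mean hf).add (tendsto_mean hg)

theorem mean_mul {f : ℕ → ℝ} (hf : BddS f) (c : ℝ) : mean (fun n => c * f n) = c * mean f := by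
  apply mean_eq
  have h1 : cavg (fun n => c * f n) = fun R => c * cavg f R := by
    funext R
    unfold cavg
    rw [← Finset.mul_sum, mul_div_assoc]
  rw [h1]
  exact (tendsto_mean hf).const_mul c

theorem mean_zero_of_tendsto {f : ℕ → ℝ} (h : Tendsto f atTop (𝓝 0)) : mean f = 0 := by
  apply mean_eq
  have h1 := h.cesaro
  apply Tendsto.mono_left _ hyper_le
  have h2 : cavg f = fun n : ℕ => (n : ℝ)⁻¹ * ∑ i ∈ Finset.range n, f i := by
    funext n
    unfold cavg
    rw [div_eq_inv_mul]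
  rw [h2]
  exact h1

theorem mean_const (c : ℝ) : mean (fun _ => c) = c := by
  apply mean_eq
  have h1 : Tendsto (fun _ : ℕ => c) atTop (𝓝 c) := tendsto_const_nhds
  have h2 := h1.cesaro
  apply Tendsto.mono_left _ hyper_le
  have h3 : cavg (fun _ => c) = fun n : ℕ => (n : ℝ)⁻¹ * ∑ i ∈ Finset.range n, c := by
    funext n
    unfold cavg
    rw [div_eq_inv_mul]
  rw [h3]
  exact h2

theorem mean_nonneg {f : ℕ → ℝ} (hf : BddS f) (h : ∀ n, 0 ≤ f n) : 0 ≤ mean f := by
  apply ge_of_tendsto' (tendsto_mean hf)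
  intro R
  unfold cavg
  exact div_nonneg (Finset.sum_nonneg fun n _ => h n) (Nat.cast_nonneg _)

theorem mean_mono {f g : ℕ → ℝ} (hf : BddS f) (hg : BddS g) (h : ∀ n, f n ≤ g n) : mean f ≤ mean g := by
  apply le_of_tendsto_of_tendsto' (tendsto_mean hf) (tendsto_mean hg)
  intro R
  unfold cavg
  exact div_le_div_of_nonneg_right (Finset.sum_le_sum fun n _ => h n) (Nat.cast_nonneg _)

/-- bounded sequences that agree eventually have the same mean -/
theorem mean_congr_ae {f g : ℕ → ℝ} (hf : BddS f) (hg : BddS g) (h : ∀ᶠ n in atTop, f n = g n) : mean f = mean g := by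
  have h1 : Tendsto (fun n => g n + (-1) * f n) atTop (𝓝 0) := by
    apply Tendsto.congr' _ tendsto_const_nhds
    filter_upwards [h] with n hn
    rw [hn]
    ring
  have h2 := mean_zero_of_tendsto h1
  rw [mean_add hg (hf.mul _), mean_mul hf] at h2
  linarith

theorem mean_mono_ae {f g : ℕ → ℝ} (hf : BddS f) (hg : BddS g) (h : ∀ᶠ n in atTop, f n ≤ g n) : mean f ≤ mean g := by
  have hm : BddS (fun n => min (f n) (g n)) := by
    obtain ⟨M, hM⟩ := hf
    obtain ⟨M', hM'⟩ := hg
    refine ⟨max M M', fun n => ?_⟩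
    change |min (f n) (g n)| ≤ max M M'
    rcases min_choice (f n) (g n) with h | h
    · rw [h]; exact (hM n).trans (le_max_left _ _)
    · rw [h]; exact (hM' n).trans (le_max_right _ _)
  rw [mean_congr_ae hf hm (by
    filter_upwards [h] with n hn
    exact (min_eq_left hn).symm)]
  exact mean_mono hm hg fun n => min_le_right _ _

theorem mean_shift_one {f : ℕ → ℝ} (hf : BddS f) : mean (fun n => f (n + 1)) = mean f := by
  obtain ⟨M, hM⟩ := id hf
  have h1 : Tendsto (fun R : ℕ => cavg (fun n => f (n + 1)) R - cavg f R) atTop (𝓝 0) := by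
    have h2 : ∀ R : ℕ, cavg (fun n => f (n + 1)) R - cavg f R = (f R - f 0) / R := by
      intro R
      unfold cavg
      rw [← sub_div, ← Finset.sum_sub_distrib, Finset.sum_range_sub]
    have h3 : Tendsto (fun R : ℕ => (2 * M) / (R : ℝ)) atTop (𝓝 0) := tendsto_const_div_atTop_nhds_zero_nat _
    apply squeeze_zero_norm _ h3
    intro R
    rw [h2, Real.norm_eq_abs, abs_div, Nat.abs_cast]
    apply div_le_div_of_nonneg_right _ (Nat.cast_nonneg _)
    have h4 := hM R
    have h5 := hM 0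
    calc |f R - f 0| ≤ |f R| + |f 0| := abs_sub _ _
      _ ≤ 2 * M := by linarith
  have h2 := (tendsto_mean (hf.shift 1)).sub (tendsto_mean hf)
  have h3 := tendsto_nhds_unique h2 (h1.mono_left hyper_le)
  linarith

theorem mean_shift {f : ℕ → ℝ} (hf : BddS f) (t : ℕ) : mean (fun n => f (n + t)) = mean f := by
  induction t with
  | zero => rfl
  | succ t ih =>
    rw [← ih, ← mean_shift_one (hf.shift t)]
    congr 1
    funext n
    congr 1
    omega

/-! ### sets -/

open scoped Classical in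
/-- indicator sequence -/
noncomputable def ind (A : Set ℕ) (n : ℕ) : ℝ := if n ∈ A then 1 else 0

theorem ind_bdd (A : Set ℕ) : BddS (ind A) := by
  classical
  refine ⟨1, fun n => ?_⟩
  unfold ind
  split_ifs <;> simp

theorem ind_nonneg (A : Set ℕ) (n : ℕ) : 0 ≤ ind A n := by
  classical
  unfold ind
  split_ifs <;> simp

/-- the mean of a set -/
noncomputable def mA (A : Set ℕ) : ℝ := mean (ind A)

theorem mA_nonneg (A : Set ℕ) : 0 ≤ mA A := mean_nonneg (ind_bdd A) (ind_nonneg A)

theorem mA_le_one (A : Set ℕ) : mA A ≤ 1 := by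
  classical
  rw [← mean_const 1]
  apply mean_mono (ind_bdd A) (BddS.const 1)
  intro n
  unfold ind
  split_ifs <;> simp

theorem mA_mono_ae {A B : Set ℕ} (h : ∀ᶠ n in atTop, n ∈ A → n ∈ B) : mA A ≤ mA B := by
  classical
  apply mean_mono_ae (ind_bdd A) (ind_bdd B)
  filter_upwards [h] with n hn
  unfold ind
  split_ifs with h1 h2
  · exact le_rfl
  · exact absurd (hn h1) h2
  · exact zero_le_one
  · exact le_rfl

theorem mA_zero_of_ae {A : Set ℕ} (h : ∀ᶠ n in atTop, n ∉ A) : mA A = 0 := by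
  classical
  have h1 : mA A ≤ mA ∅ := mA_mono_ae (by filter_upwards [h] with n hn h2 using absurd h2 hn)
  have h2 : mA (∅ : Set ℕ) = 0 := by
    unfold mA
    have : ind (∅ : Set ℕ) = fun _ => 0 := by
      funext n
      unfold ind
      simp
    rw [this, mean_const]
  have := mA_nonneg A
  linarith

theorem mA_union {A B C : Set ℕ} (h : ∀ᶠ n in atTop, n ∈ A → n ∈ B ∨ n ∈ C) : mA A ≤ mA B + mA C := by
  classical
  unfold mA
  rw [← mean_add (ind_bdd B) (ind_bdd C)]
  apply mean_mono_ae (ind_bdd A) ((ind_bdd B).add (ind_bdd C))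
  filter_upwards [h] with n hn
  unfold ind
  by_cases hA : n ∈ A
  · rcases hn hA with h | h
    · simp only [hA, h, if_true]
      split_ifs <;> norm_num
    · simp only [hA, h, if_true]
      split_ifs <;> norm_num
  · simp only [hA, if_false]
    split_ifs <;> norm_num

theorem mA_shift (A : Set ℕ) (t : ℕ) : mA {n | n + t ∈ A} = mA A := by
  classical
  unfold mA
  rw [← mean_shift (ind_bdd A) t]
  rfl

theorem mA_sdiff {A B : Set ℕ} (h : ∀ᶠ n in atTop, n ∈ B → n ∈ A) : mA {n | n ∈ A ∧ n ∉ B} ≤ mA A - mA B := by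
  classical
  have h1 : mA {n | n ∈ A ∧ n ∉ B} + mA B ≤ mA A := by
    unfold mA
    rw [← mean_add (ind_bdd _) (ind_bdd _)]
    apply mean_mono_ae ((ind_bdd _).add (ind_bdd _)) (ind_bdd _)
    filter_upwards [h] with n hn
    unfold ind
    simp only [Set.mem_ofPred_eq]
    by_cases hA : n ∈ A <;> by_cases hB : n ∈ B
    · simp [hA, hB]
    · simp [hA, hB]
    · exact absurd (hn hB) hA
    · simp [hA, hB]
  linarith

/-- if finitely many sets cover all times, one of them has positive mean -/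
theorem mA_cover {P : Type*} [Fintype P] (A : P → Set ℕ) (h : ∀ᶠ n in atTop, ∃ i, n ∈ A i) : ∃ i, 0 < mA (A i) := by
  classical
  by_contra hcon
  push Not at hcon
  have h0 : ∀ i, mA (A i) = 0 := fun i => le_antisymm (hcon i) (mA_nonneg _)
  have key : ∀ (s : Finset P), mA {n | ∃ i ∈ s, n ∈ A i} = 0 := by
    intro s
    induction s using Finset.induction_on with
    | empty =>
      apply mA_zero_of_ae
      filter_upwards with n
      simp
    | insert a s ha ih =>
      apply le_antisymm _ (mA_nonneg _)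
      calc mA {n | ∃ i ∈ insert a s, n ∈ A i} ≤ mA (A a) + mA {n | ∃ i ∈ s, n ∈ A i} := by
            apply mA_union
            filter_upwards with n
            rintro ⟨i, hi, hn⟩
            rcases Finset.mem_insert.1 hi with rfl | hi
            · exact Or.inl hn
            · exact Or.inr ⟨i, hi, hn⟩
        _ = 0 := by rw [h0, ih, add_zero]
  have h1 : mA (Set.univ : Set ℕ) ≤ mA {n | ∃ i ∈ (Finset.univ : Finset P), n ∈ A i} := by
    apply mA_mono_ae
    filter_upwards [h] with n hn _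
    obtain ⟨i, hi⟩ := hn
    exact ⟨i, Finset.mem_univ i, hi⟩
  have h2 : mA (Set.univ : Set ℕ) = 1 := by
    unfold mA
    have : ind (Set.univ : Set ℕ) = fun _ => 1 := by
      funext n
      unfold ind
      simp
    rw [this, mean_const]
  rw [key, h2] at h1
  linarith

/-- a set of positive mean recurs -/
theorem mA_recur {A : Set ℕ} (h : 0 < mA A) : ∃ t : ℕ, 1 ≤ t ∧ 0 < mA {n | n ∈ A ∧ n + t ∈ A} := by
  classical
  by_contra hcon
  push Not at hcon
  have h0 : ∀ t, 1 ≤ t → mA {n | n ∈ A ∧ n + t ∈ A} = 0 := fun t ht => le_antisymm (hcon t ht) (mA_nonneg _)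
  have hk : ∀ k0 : ℕ, 1 ≤ k0 → mA A ≤ 1 / k0 := by
    intro k0 hk0
    -- the count
    have hc : ∀ R : ℕ, cavg (ind A) R ≤ (1 / k0 + 1 / R) + ∑ k ∈ Finset.Icc 1 k0, cavg (ind {n | n ∈ A ∧ n + k ∈ A}) R := by
      intro R
      have h1 := gap_count A R k0 hk0
      have e : ∀ B : Set ℕ, ∑ n ∈ Finset.range R, ind B n = (((Finset.range R).filter (fun t => t ∈ B)).card : ℝ) := by
        intro B
        unfold ind
        rw [Finset.sum_ite, Finset.sum_const, Finset.sum_const_zero, add_zero, nsmul_eq_mul, mul_one]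
      unfold cavg
      rw [← Finset.sum_div]
      rcases Nat.eq_zero_or_pos R with rfl | hR
      · simp
      have hR' : (0 : ℝ) < R := by exact_mod_cast hR
      rw [div_le_iff₀ hR', add_mul, div_mul_cancel₀ _ hR'.ne', e]
      have h2 : (((Finset.range R).filter (fun t => t ∈ A)).card : ℝ) ≤ ((R / k0 + 1 : ℕ) : ℝ) +
          ∑ k ∈ Finset.Icc 1 k0, (((Finset.range R).filter (fun t => t ∈ A ∧ t + k ∈ A)).card : ℝ) := by
        exact_mod_cast h1
      have h3 : ((R / k0 + 1 : ℕ) : ℝ) ≤ (1 / k0 + 1 / R) * R := by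
        push_cast
        have h4 : ((R / k0 : ℕ) : ℝ) ≤ (R : ℝ) / k0 := Nat.cast_div_le
        have h5 : (1 / (k0 : ℝ) + 1 / R) * R = (R : ℝ) / k0 + 1 := by
          field_simp
        rw [h5]
        linarith
      refine h2.trans (add_le_add h3 (le_of_eq ?_))
      apply Finset.sum_congr rfl
      intro k _
      rw [e]
      apply congrArg
      apply congrArg Finset.card
      ext t
      rw [@Finset.mem_filter, @Finset.mem_filter]
      rfl
    have h1 : Tendsto (fun R : ℕ => (1 / (k0 : ℝ) + 1 / (R : ℝ)) + ∑ k ∈ Finset.Icc 1 k0, cavg (ind {n | n ∈ A ∧ n + k ∈ A}) R)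
        (hyperfilter ℕ : Filter ℕ) (𝓝 ((1 / k0 + 0) + ∑ k ∈ Finset.Icc 1 k0, mA {n | n ∈ A ∧ n + k ∈ A})) := by
      apply Tendsto.add
      · apply Tendsto.add tendsto_const_nhds
        exact (tendsto_const_div_atTop_nhds_zero_nat 1).mono_left hyper_le
      · apply tendsto_finsetSum
        intro k _
        exact tendsto_mean (ind_bdd _)
    have h2 := le_of_tendsto_of_tendsto' (tendsto_mean (ind_bdd A)) h1 hc
    rw [Finset.sum_eq_zero (fun k hk => h0 k (Finset.mem_Icc.1 hk).1), add_zero, add_zero] at h2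
    exact h2
  obtain ⟨k0, hk0⟩ := exists_nat_one_div_lt h
  have h3 := hk (k0 + 1) (by omega)
  push_cast at h3
  linarith

end Pool.Agent.Lib.MP_df4dfc_nt
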