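import Mathlib
import Pool.Agent.Lib.MP_df4dfc_nt.Mn1

set_option autoImplicit false
set_option linter.unusedSectionVars false
set_option linter.style.haveILetI false
set_option linter.unusedVariables false

/-! Orbits at one place: basic estimates. -/

namespace Pool.Agent.Lib.MP_df4dfc_nt

open MvPolynomial Filter Topology

/-- an orbit at one place, normalised, with its heights -/
structure OrbitData (K : Type*) [Field K] (ι : Type*) [Fintype ι] where
  abv : AbsoluteValue K ℝ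
  F : ι → MvPolynomial ι K
  d : ℕ
  hd : 2 ≤ d
  hF : ∀ i, (F i).IsHomogeneous d
  y : ℕ → ι → K
  one : ∀ n, ∃ k, y n k = 1
  le : ∀ n l, abv (y n l) ≤ 1
  κ : ℕ → K
  step : ∀ n, y (n + 1) = κ n • pev (RingHom.id K) F (y n)
  C : ℝ
  hC : 1 ≤ C
  κle : ∀ n, abv (κ n) ≤ C
  κge : ∀ n, 1 ≤ C * abv (κ n)
  h : ℕ → ℝ
  h1 : ∀ n, 1 ≤ h n
  hlim : Tendsto h atTop atTop
  Ch : ℝ
  hstep : ∀ n, |h (n + 1) - d * h n| ≤ Ch

section Pull

variable {K : Type*} [Field K] {ι : Type*}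

/-- `f ∘ F^t` as an algebra map -/
noncomputable def pullA (F : ι → MvPolynomial ι K) (t : ℕ) : MvPolynomial ι K →ₐ[K] MvPolynomial ι K :=
  bind₁ (iterPoly F t)

theorem pullA_eq (F : ι → MvPolynomial ι K) (t : ℕ) (f : MvPolynomial ι K) : pullA F t f = (bind₁ F)^[t] f := by
  induction t with
  | zero =>
    unfold pullA
    change bind₁ (fun i => X i) f = f
    exact aeval_X_left_apply f
  | succ t ih =>
    rw [Function.iterate_succ_apply', ← ih]
    unfold pullA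
    rw [bind₁_bind₁]
    rfl

theorem eval_pullA (F : ι → MvPolynomial ι K) (t : ℕ) (f : MvPolynomial ι K) (z : ι → K) :
    eval z (pullA F t f) = eval ((pev (RingHom.id K) F)^[t] z) f := by
  unfold pullA
  have h1 := eval₂Hom_bind₁ (RingHom.id K) z (iterPoly F t) f
  have h2 : pev (RingHom.id K) (iterPoly F t) z = (pev (RingHom.id K) F)^[t] z := pev_iterPoly _ _ _ _
  rw [← h2]
  exact h1

theorem pullA_homog {F : ι → MvPolynomial ι K} {d : ℕ} (hF : ∀ i, (F i).IsHomogeneous d) (t : ℕ)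
    {f : MvPolynomial ι K} {m : ℕ} (hf : f.IsHomogeneous m) : (pullA F t f).IsHomogeneous (d ^ t * m) :=
  hf.aeval (iterPoly F t) (fun i => iterPoly_homog' hF t i)

end Pull

namespace OrbitData

variable {K : Type*} [Field K] {ι : Type*} [Fintype ι] (O : OrbitData K ι)

theorem steps (t : ℕ) : ∃ Ct : ℝ, 1 ≤ Ct ∧ ∀ n, ∃ c : K, O.abv c ≤ Ct ∧ 1 ≤ Ct * O.abv c ∧
    O.y (n + t) = c • (pev (RingHom.id K) O.F)^[t] (O.y n) := by
  induction t with
  | zero =>
    refine ⟨1, le_rfl, fun n => ⟨1, ?_, ?_, ?_⟩⟩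
    · rw [map_one]
    · rw [map_one, mul_one]
    · rw [one_smul]
      rfl
  | succ t ih =>
    obtain ⟨Ct, hCt, h⟩ := ih
    refine ⟨O.C * Ct ^ O.d, one_le_mul_of_one_le_of_one_le O.hC (one_le_pow₀ hCt), fun n => ?_⟩
    obtain ⟨c, hc1, hc2, hc3⟩ := h n
    refine ⟨O.κ (n + t) * c ^ O.d, ?_, ?_, ?_⟩
    · rw [map_mul, map_pow]
      exact mul_le_mul (O.κle _) (pow_le_pow_left₀ (O.abv.nonneg _) hc1 _) (pow_nonneg (O.abv.nonneg _) _)
        (zero_le_one.trans O.hC)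
    · rw [map_mul, map_pow]
      have h1 := O.κge (n + t)
      have h2 : 1 ≤ (Ct * O.abv c) ^ O.d := one_le_pow₀ hc2
      calc (1 : ℝ) ≤ (O.C * O.abv (O.κ (n + t))) * (Ct * O.abv c) ^ O.d := one_le_mul_of_one_le_of_one_le h1 h2
        _ = _ := by rw [mul_pow]; ring
    · rw [show n + (t + 1) = (n + t) + 1 by omega, O.step, hc3, pev_smul O.hF, smul_smul, Function.iterate_succ_apply']

/-- comparison of the value of a form at time `n + t` and of its pullback at time `n` -/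
theorem eval_steps (t : ℕ) {f : MvPolynomial ι K} {m : ℕ} (hf : f.IsHomogeneous m) : ∃ C : ℝ, 1 ≤ C ∧ ∀ n,
    O.abv (eval (O.y (n + t)) f) ≤ C * O.abv (eval (O.y n) (pullA O.F t f)) ∧
    O.abv (eval (O.y n) (pullA O.F t f)) ≤ C * O.abv (eval (O.y (n + t)) f) := by
  obtain ⟨Ct, hCt, h⟩ := O.steps t
  refine ⟨Ct ^ m, one_le_pow₀ hCt, fun n => ?_⟩
  obtain ⟨c, hc1, hc2, hc3⟩ := h n
  have h1 : eval (O.y (n + t)) f = c ^ m * eval (O.y n) (pullA O.F t f) := by
    rw [hc3, eval_pullA]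
    exact eval₂_smul_of_homog hf (RingHom.id K) c _
  have h2 := O.abv.nonneg (eval (O.y n) (pullA O.F t f))
  rw [h1, map_mul, map_pow]
  constructor
  · exact mul_le_mul_of_nonneg_right (pow_le_pow_left₀ (O.abv.nonneg _) hc1 _) h2
  · calc O.abv (eval (O.y n) (pullA O.F t f)) ≤ (Ct * O.abv c) ^ m * O.abv (eval (O.y n) (pullA O.F t f)) :=
          le_mul_of_one_le_left h2 (one_le_pow₀ hc2)
      _ = _ := by rw [mul_pow]; ring

theorem hpos (n : ℕ) : 0 < O.h n := lt_of_lt_of_le one_pos (O.h1 n)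

theorem hsteps (t : ℕ) : ∃ C : ℝ, 0 ≤ C ∧ ∀ n, |O.h (n + t) - (O.d : ℝ) ^ t * O.h n| ≤ C := by
  induction t with
  | zero => exact ⟨0, le_rfl, fun n => by simp⟩
  | succ t ih =>
    obtain ⟨C, hC, h⟩ := ih
    have hCh : 0 ≤ O.Ch := (abs_nonneg _).trans (O.hstep 0)
    refine ⟨O.Ch + O.d * C, by positivity, fun n => ?_⟩
    have h1 := O.hstep (n + t)
    have h2 := h n
    have e : O.h (n + (t + 1)) - (O.d : ℝ) ^ (t + 1) * O.h n
        = (O.h (n + t + 1) - O.d * O.h (n + t)) + O.d * (O.h (n + t) - (O.d : ℝ) ^ t * O.h n) := by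
      rw [show n + (t + 1) = n + t + 1 by omega]
      ring
    rw [e]
    refine (abs_add_le _ _).trans (add_le_add h1 ?_)
    rw [abs_mul, Nat.abs_cast]
    exact mul_le_mul_of_nonneg_left h2 (Nat.cast_nonneg _)

/-- `h (n + t) ≤ B h n` -/
theorem hle (t : ℕ) : ∃ B : ℝ, 0 < B ∧ ∀ n, O.h (n + t) ≤ B * O.h n := by
  obtain ⟨C, hC, h⟩ := O.hsteps t
  refine ⟨(O.d : ℝ) ^ t + C, ?_, fun n => ?_⟩
  · have h1 : (0 : ℝ) < (O.d : ℝ) ^ t := by
      have := O.hd
      positivity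
    linarith
  · have h1 := (abs_le.1 (h n)).2
    have h2 := O.h1 n
    nlinarith

/-- eventually `h n ≤ h (n + t)` -/
theorem hge (t : ℕ) : ∀ᶠ n in atTop, O.h n ≤ O.h (n + t) := by
  rcases Nat.eq_zero_or_pos t with rfl | ht
  · exact Eventually.of_forall fun n => le_rfl
  obtain ⟨C, hC, h⟩ := O.hsteps t
  filter_upwards [O.hlim.eventually_ge_atTop C] with n hn
  have h1 := (abs_le.1 (h n)).1
  have h2 : (2 : ℝ) ≤ (O.d : ℝ) ^ t := by
    have h3 : (2 : ℝ) ≤ O.d := by exact_mod_cast O.hd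
    calc (2 : ℝ) ≤ O.d := h3
      _ = (O.d : ℝ) ^ 1 := (pow_one _).symm
      _ ≤ (O.d : ℝ) ^ t := pow_le_pow_right₀ (by linarith) ht
  have h3 := O.hpos n
  nlinarith

/-- eventually `C exp(-c h n) ≤ exp(-c' h n)` if `c' < c` -/
theorem exp_absorb {C c c' : ℝ} (hcc : c' < c) : ∀ᶠ n in atTop, C * Real.exp (-(c * O.h n)) ≤ Real.exp (-(c' * O.h n)) := by
  have h1 : Tendsto (fun n => Real.exp ((c - c') * O.h n)) atTop atTop :=
    Real.tendsto_exp_atTop.comp (O.hlim.const_mul_atTop (by linarith))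
  filter_upwards [h1.eventually_ge_atTop C] with n hn
  have h2 : Real.exp (-(c' * O.h n)) = Real.exp ((c - c') * O.h n) * Real.exp (-(c * O.h n)) := by
    rw [← Real.exp_add]
    congr 1
    ring
  rw [h2]
  exact mul_le_mul_of_nonneg_right hn (Real.exp_pos _).le

/-- times at which all forms of `S` are small -/
def near (S : Set (MvPolynomial ι K)) (c : ℝ) : Set ℕ :=
  {n | ∀ f ∈ S, O.abv (eval (O.y n) f) ≤ Real.exp (-(c * O.h n))}

theorem near_mono {S : Set (MvPolynomial ι K)} {c c' : ℝ} (h : c' ≤ c) : O.near S c ⊆ O.near S c' := by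
  intro n hn f hf
  refine (hn f hf).trans (Real.exp_le_exp.2 ?_)
  have := O.hpos n
  nlinarith

theorem near_anti {S S' : Set (MvPolynomial ι K)} (c : ℝ) (h : S ⊆ S') : O.near S' c ⊆ O.near S c :=
  fun n hn f hf => hn f (h hf)

/-- values of elements of the ideal -/
theorem span_bound (S : Set (MvPolynomial ι K)) {g : MvPolynomial ι K} (hg : g ∈ Ideal.span S) :
    ∃ C : ℝ, 0 ≤ C ∧ ∀ n, ∀ ε : ℝ, 0 ≤ ε → (∀ f ∈ S, O.abv (eval (O.y n) f) ≤ ε) → O.abv (eval (O.y n) g) ≤ C * ε := by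
  induction hg using Submodule.span_induction with
  | mem x hx => exact ⟨1, zero_le_one, fun n ε _ h => by rw [one_mul]; exact h x hx⟩
  | zero => exact ⟨0, le_rfl, fun n ε _ h => by simp⟩
  | add a b _ _ iha ihb =>
    obtain ⟨C, hC, h⟩ := iha
    obtain ⟨C', hC', h'⟩ := ihb
    refine ⟨C + C', by positivity, fun n ε hε hf => ?_⟩
    rw [map_add]
    refine (O.abv.add_le _ _).trans ?_
    rw [add_mul]
    exact add_le_add (h n ε hε hf) (h' n ε hε hf)
  | smul a b _ ih =>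
    obtain ⟨C, hC, h⟩ := ih
    refine ⟨cb O.abv a * C, mul_nonneg (cb_nonneg _ _) hC, fun n ε hε hf => ?_⟩
    rw [smul_eq_mul, map_mul, map_mul, mul_assoc]
    exact mul_le_mul (eval_le_cb _ _ _ (O.le n)) (h n ε hε hf) (O.abv.nonneg _) (cb_nonneg _ _)

theorem span_near (S : Set (MvPolynomial ι K)) {g : MvPolynomial ι K} (hg : g ∈ Ideal.span S) {c c' : ℝ} (hcc : c' < c) :
    ∀ᶠ n in atTop, n ∈ O.near S c → O.abv (eval (O.y n) g) ≤ Real.exp (-(c' * O.h n)) := by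
  obtain ⟨C, hC, h⟩ := O.span_bound S hg
  filter_upwards [O.exp_absorb (C := C) hcc] with n hn hnS
  exact (h n _ (Real.exp_pos _).le hnS).trans hn

/-- a finite set of homogeneous polynomials -/
def FH (S : Set (MvPolynomial ι K)) : Prop := S.Finite ∧ ∀ f ∈ S, ∃ m : ℕ, f.IsHomogeneous m

/-- heavy sets of forms -/
def Heavy (S : Set (MvPolynomial ι K)) : Prop := ∃ c : ℝ, 0 < c ∧ 0 < mA (O.near S c)

/-- a maximal heavy ideal containing a given heavy form -/
theorem exists_max_heavy (v : MvPolynomial ι K) {D : ℕ} (hv : v.IsHomogeneous D) (hh : O.Heavy {v}) :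
    ∃ S : Set (MvPolynomial ι K), FH S ∧ v ∈ S ∧ O.Heavy S ∧
      ∀ g : MvPolynomial ι K, (∃ m : ℕ, g.IsHomogeneous m) → O.Heavy (insert g S) → g ∈ Ideal.span S := by
  set Fam : Set (Ideal (MvPolynomial ι K)) := {I | ∃ S : Set (MvPolynomial ι K), FH S ∧ v ∈ S ∧ O.Heavy S ∧ I = Ideal.span S} with hFam
  have hne : Fam.Nonempty := by
    refine ⟨Ideal.span {v}, {v}, ⟨Set.finite_singleton _, ?_⟩, Set.mem_singleton _, hh, rfl⟩
    intro f hf
    rw [Set.mem_singleton_iff] at hf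
    subst hf
    exact ⟨D, hv⟩
  obtain ⟨I, hI, hmax⟩ := set_has_maximal_iff_noetherian.2 (inferInstance : IsNoetherian (MvPolynomial ι K) (MvPolynomial ι K)) Fam hne
  obtain ⟨S, hS1, hS2, hS3, hS4⟩ := hI
  refine ⟨S, hS1, hS2, hS3, ?_⟩
  intro g hg hgh
  by_contra hcon
  have hmem : Ideal.span (insert g S) ∈ Fam := by
    refine ⟨insert g S, ⟨hS1.1.insert g, ?_⟩, Set.mem_insert_of_mem _ hS2, hgh, rfl⟩
    intro f hf
    rcases hf with rfl | hf
    · exact hg
    · exact hS1.2 f hf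
  apply hmax _ hmem
  rw [hS4]
  refine lt_of_le_of_ne (Ideal.span_mono (Set.subset_insert _ _)) ?_
  intro heq
  apply hcon
  rw [heq]
  exact Ideal.subset_span (Set.mem_insert _ _)

end OrbitData

end Pool.Agent.Lib.MP_df4dfc_nt
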