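import Mathlib
import Pool.Agent.Lib.MP_df4dfc_nt.Mn2

set_option autoImplicit false
set_option linter.unusedSectionVars false
set_option linter.style.haveILetI false
set_option linter.unusedVariables false

/-! Properties of maximal heavy ideals. -/

namespace Pool.Agent.Lib.MP_df4dfc_nt

open MvPolynomial Filter Topology

attribute [local instance] MvPolynomial.gradedAlgebra

namespace OrbitData

variable {K : Type*} [Field K] {ι : Type*} [Fintype ι] (O : OrbitData K ι)

/-- the data of a maximal heavy set of forms -/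
structure MaxHeavy (S : Set (MvPolynomial ι K)) : Prop where
  fh : FH S
  heavy : O.Heavy S
  mx : ∀ g : MvPolynomial ι K, (∃ m : ℕ, g.IsHomogeneous m) → O.Heavy (insert g S) → g ∈ Ideal.span S

variable {O}

theorem MaxHeavy.hom {S : Set (MvPolynomial ι K)} (h : O.MaxHeavy S) :
    (Ideal.span S).IsHomogeneous (homogeneousSubmodule ι K) := by
  apply Ideal.homogeneous_span
  intro f hf
  obtain ⟨m, hm⟩ := h.fh.2 f hf
  exact ⟨m, (mem_homogeneousSubmodule m f).2 hm⟩

theorem MaxHeavy.vanish {S : Set (MvPolynomial ι K)} (h : O.MaxHeavy S) {r : MvPolynomial ι K} {m : ℕ}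
    (hr : r.IsHomogeneous m) (h0 : ∀ n, eval (O.y n) r = 0) : r ∈ Ideal.span S := by
  apply h.mx r ⟨m, hr⟩
  obtain ⟨c, hc, hm⟩ := h.heavy
  refine ⟨c, hc, lt_of_lt_of_le hm (mA_mono_ae ?_)⟩
  filter_upwards with n hn f hf
  rcases hf with rfl | hf
  · rw [h0, map_zero]
    exact (Real.exp_pos _).le
  · exact hn f hf

theorem MaxHeavy.notirr {S : Set (MvPolynomial ι K)} (h : O.MaxHeavy S) : ∃ i, (X i : MvPolynomial ι K) ∉ Ideal.span S := by
  by_contra hcon
  push Not at hcon
  obtain ⟨c, hc, hm⟩ := h.heavy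
  have h1 : ∀ᶠ n in atTop, ∀ i, n ∈ O.near S c → O.abv (eval (O.y n) (X i)) ≤ Real.exp (-(c / 2 * O.h n)) :=
    eventually_all.2 fun i => O.span_near S (hcon i) (by linarith)
  have h2 : mA (O.near S c) = 0 := by
    apply mA_zero_of_ae
    filter_upwards [h1] with n hn hnS
    obtain ⟨k, hk⟩ := O.one n
    have h3 := hn k hnS
    rw [eval_X, hk, map_one] at h3
    have h4 : Real.exp (-(c / 2 * O.h n)) < 1 := by
      rw [Real.exp_lt_one_iff]
      have := O.hpos n
      nlinarith
    linarith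
  rw [h2] at hm
  exact lt_irrefl _ hm

theorem MaxHeavy.prime {S : Set (MvPolynomial ι K)} (h : O.MaxHeavy S) : (Ideal.span S).IsPrime := by
  apply h.hom.isPrime_of_homogeneous_mem_or_mem
  · intro htop
    obtain ⟨i, hi⟩ := h.notirr
    apply hi
    rw [htop]
    exact Submodule.mem_top
  · rintro f g ⟨a, ha⟩ ⟨b, hb⟩ hfg
    rw [mem_homogeneousSubmodule] at ha hb
    obtain ⟨c, hc, hm⟩ := h.heavy
    have h1 : mA (O.near S c) ≤ mA (O.near (insert f S) (c / 4)) + mA (O.near (insert g S) (c / 4)) := by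
      apply mA_union
      filter_upwards [O.span_near S hfg (show c / 2 < c by linarith)] with n hn hnS
      have h2 := hn hnS
      rw [map_mul, map_mul] at h2
      have h3 : Real.exp (-(c / 2 * O.h n)) = Real.exp (-(c / 4 * O.h n)) * Real.exp (-(c / 4 * O.h n)) := by
        rw [← Real.exp_add]
        congr 1
        ring
      have h4 := O.near_mono (S := S) (show c / 4 ≤ c by linarith) hnS
      by_cases h5 : O.abv (eval (O.y n) f) ≤ Real.exp (-(c / 4 * O.h n))
      · left
        rintro p (rfl | hp)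
        · exact h5
        · exact h4 p hp
      · right
        rintro p (rfl | hp)
        · by_contra h6
          push Not at h5 h6
          have h7 := mul_lt_mul'' h5 h6 (Real.exp_pos _).le (Real.exp_pos _).le
          linarith
        · exact h4 p hp
    by_cases hf : 0 < mA (O.near (insert f S) (c / 4))
    · exact Or.inl (h.mx f ⟨a, ha⟩ ⟨c / 4, by linarith, hf⟩)
    · refine Or.inr (h.mx g ⟨b, hb⟩ ⟨c / 4, by linarith, ?_⟩)
      linarith

/-- adding finitely many forms -/
theorem heavy_union_mem {S S' : Set (MvPolynomial ι K)} (h : O.MaxHeavy S) (hS' : ∀ f ∈ S', ∃ m : ℕ, f.IsHomogeneous m)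
    (hh : O.Heavy (S ∪ S')) : S' ⊆ Ideal.span S := by
  intro f hf
  apply h.mx f (hS' f hf)
  obtain ⟨c, hc, hm⟩ := hh
  refine ⟨c, hc, lt_of_lt_of_le hm (mA_mono_ae ?_)⟩
  filter_upwards with n hn p hp
  rcases hp with rfl | hp
  · exact hn _ (Or.inr hf)
  · exact hn p (Or.inl hp)

theorem MaxHeavy.period {S : Set (MvPolynomial ι K)} (h : O.MaxHeavy S) :
    ∃ t : ℕ, 1 ≤ t ∧ ∀ f ∈ Ideal.span S, pullA O.F t f ∈ Ideal.span S := by
  obtain ⟨c, hc, hm⟩ := h.heavy
  obtain ⟨t, ht, hmt⟩ := mA_recur hm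
  refine ⟨t, ht, ?_⟩
  have hsub : (pullA O.F t) '' S ⊆ Ideal.span S := by
    apply heavy_union_mem h
    · rintro _ ⟨f, hf, rfl⟩
      obtain ⟨m, hm⟩ := h.fh.2 f hf
      exact ⟨_, pullA_homog O.hF t hm⟩
    · refine ⟨c / 2, by linarith, lt_of_lt_of_le hmt (mA_mono_ae ?_)⟩
      -- constants
      have h1 : ∀ f ∈ S, ∀ᶠ n in atTop, n + t ∈ O.near S c → O.abv (eval (O.y n) (pullA O.F t f)) ≤ Real.exp (-(c / 2 * O.h n)) := by
        intro f hf
        obtain ⟨m, hm⟩ := h.fh.2 f hf
        obtain ⟨C, hC, hC'⟩ := O.eval_steps t hm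
        filter_upwards [O.exp_absorb (C := C) (show c / 2 < c by linarith), O.hge t] with n hn hn2 hnt
        have h2 := (hC' n).2
        have h3 := hnt f hf
        calc O.abv (eval (O.y n) (pullA O.F t f)) ≤ C * O.abv (eval (O.y (n + t)) f) := h2
          _ ≤ C * Real.exp (-(c * O.h (n + t))) := mul_le_mul_of_nonneg_left h3 (by linarith)
          _ ≤ C * Real.exp (-(c * O.h n)) := by
            apply mul_le_mul_of_nonneg_left _ (by linarith)
            apply Real.exp_le_exp.2
            nlinarith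
          _ ≤ _ := hn
      have h2 := (eventually_all_finite h.fh.1).2 h1
      filter_upwards [h2] with n hn hnn p hp
      rcases hp with hp | ⟨f, hf, rfl⟩
      · exact O.near_mono (by linarith) hnn.1 p hp
      · exact hn f hf hnn.2
  intro f hf
  have h3 : Ideal.span S ≤ (Ideal.span S).comap (pullA O.F t) := by
    rw [Ideal.span_le]
    intro p hp
    exact hsub ⟨p, hp, rfl⟩
  exact h3 hf

/-- if the pullbacks lie in the ideal, times near `S` are followed by times near the form -/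
theorem follow {S : Set (MvPolynomial ι K)} (t : ℕ) {f : MvPolynomial ι K} {m : ℕ} (hf : f.IsHomogeneous m)
    (hmem : pullA O.F t f ∈ Ideal.span S) {c : ℝ} (hc : 0 < c) : ∃ B : ℝ, 0 < B ∧
    ∀ᶠ n in atTop, n ∈ O.near S c → O.abv (eval (O.y (n + t)) f) ≤ Real.exp (-(c / B * O.h (n + t))) := by
  obtain ⟨C, hC, hC'⟩ := O.eval_steps t hf
  obtain ⟨B, hB, hB'⟩ := O.hle t
  refine ⟨4 * B, by positivity, ?_⟩
  filter_upwards [O.exp_absorb (C := C) (show c / 4 < c / 2 by linarith), O.span_near S hmem (show c / 2 < c by linarith)]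
    with n hn hn2 hnS
  calc O.abv (eval (O.y (n + t)) f) ≤ C * O.abv (eval (O.y n) (pullA O.F t f)) := (hC' n).1
    _ ≤ C * Real.exp (-(c / 2 * O.h n)) := mul_le_mul_of_nonneg_left (hn2 hnS) (by linarith)
    _ ≤ Real.exp (-(c / 4 * O.h n)) := hn
    _ ≤ _ := by
      apply Real.exp_le_exp.2
      have h1 := hB' n
      have h2 : c / (4 * B) * O.h (n + t) ≤ c / (4 * B) * (B * O.h n) :=
        mul_le_mul_of_nonneg_left h1 (by positivity)
      have h3 : c / (4 * B) * (B * O.h n) = c / 4 * O.h n := by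
        field_simp
      linarith

/-- uniform version for all forms of `S` -/
theorem follow_all {S : Set (MvPolynomial ι K)} (hS : FH S) (t : ℕ) (hmem : ∀ f ∈ S, pullA O.F t f ∈ Ideal.span S)
    {c : ℝ} (hc : 0 < c) : ∃ c' : ℝ, 0 < c' ∧ ∀ᶠ n in atTop, n ∈ O.near S c → n + t ∈ O.near S c' := by
  have h1 : ∀ f ∈ S, ∃ B : ℝ, 0 < B ∧
      ∀ᶠ n in atTop, n ∈ O.near S c → O.abv (eval (O.y (n + t)) f) ≤ Real.exp (-(c / B * O.h (n + t))) := by
    intro f hf
    obtain ⟨m, hm⟩ := hS.2 f hf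
    exact follow t hm (hmem f hf) hc
  choose! B hB hB' using h1
  by_cases hne : S.Nonempty
  · obtain ⟨f0, hf0, hf0'⟩ := Set.exists_max_image S B hS.1 hne
    refine ⟨c / B f0, div_pos hc (hB f0 hf0), ?_⟩
    have h2 := (eventually_all_finite hS.1).2 hB'
    filter_upwards [h2] with n hn hnS f hf
    refine (hn f hf hnS).trans (Real.exp_le_exp.2 ?_)
    have h3 : c / B f0 ≤ c / B f := div_le_div_of_nonneg_left hc.le (hB f hf) (hf0' f hf)
    have := O.hpos (n + t)
    nlinarith
  · refine ⟨1, one_pos, ?_⟩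
    filter_upwards with n hn f hf
    exact absurd ⟨f, hf⟩ hne

theorem MaxHeavy.inv {S : Set (MvPolynomial ι K)} (h : O.MaxHeavy S) (t : ℕ)
    (hmem : ∀ f ∈ Ideal.span S, pullA O.F t f ∈ Ideal.span S) {f : MvPolynomial ι K} {m : ℕ} (hf : f.IsHomogeneous m)
    (hpf : pullA O.F t f ∈ Ideal.span S) : f ∈ Ideal.span S := by
  apply h.mx f ⟨m, hf⟩
  obtain ⟨c, hc, hm⟩ := h.heavy
  obtain ⟨B, hB, hB'⟩ := follow t hf hpf hc
  obtain ⟨c', hc', hc''⟩ := follow_all h.fh t (fun f hf => hmem f (Ideal.subset_span hf)) hc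
  refine ⟨min (c / B) c', lt_min (div_pos hc hB) hc', ?_⟩
  rw [← mA_shift _ t]
  refine lt_of_lt_of_le hm (mA_mono_ae ?_)
  filter_upwards [hB', hc''] with n hn hn2 hnS
  rintro p (rfl | hp)
  · refine (hn hnS).trans (Real.exp_le_exp.2 ?_)
    have := O.hpos (n + t)
    have h3 := min_le_left (c / B) c'
    nlinarith
  · exact O.near_mono (min_le_right _ _) (hn2 hnS) p hp

end OrbitData

end Pool.Agent.Lib.MP_df4dfc_nt
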