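import Mathlib
import Pool.Agent.Lib.MP_df4dfc_nt.Mn3

set_option autoImplicit false
set_option linter.unusedSectionVars false
set_option linter.style.haveILetI false
set_option linter.unusedVariables false

/-! The local theorem: an orbit can stay near a hypersurface only through maximal attraction. -/

namespace Pool.Agent.Lib.MP_df4dfc_nt

open MvPolynomial Filter Topology

namespace OrbitData

variable {K : Type*} [Field K] {ι : Type*} [Fintype ι] {O : OrbitData K ι}

/-- the final estimate at one step -/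
theorem potential {S : Set (MvPolynomial ι K)} (hM : O.MaxHeavy S) (Rr : Set (MvPolynomial ι K))
    (hRy : ∀ n, ∀ r ∈ Rr, eval (O.y n) r = 0) {t e : ℕ} {s : MvPolynomial ι K}
    (hs : ∀ f ∈ (Ideal.span S) ^ e, s * f ∈ Ideal.span ((pullA O.F t) '' (Ideal.span S : Set (MvPolynomial ι K)) ∪ Rr)) :
    ∃ C : ℝ, 1 ≤ C ∧ ∀ n, ∀ ε : ℝ, 0 ≤ ε → (∀ f ∈ S, O.abv (eval (O.y (n + t)) f) ≤ ε) →
      ∀ f ∈ S, O.abv (eval (O.y n) s) * O.abv (eval (O.y n) f) ^ e ≤ C * ε := by
  have hJ : Ideal.span ((pullA O.F t) '' (Ideal.span S : Set (MvPolynomial ι K)) ∪ Rr) ≤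
      Ideal.span ((pullA O.F t) '' S ∪ Rr) := by
    rw [Ideal.span_le]
    rintro _ (⟨f, hf, rfl⟩ | hr)
    · have h1 : Ideal.span S ≤ (Ideal.span ((pullA O.F t) '' S ∪ Rr)).comap (pullA O.F t) := by
        rw [Ideal.span_le]
        intro p hp
        exact Ideal.subset_span (Or.inl ⟨p, hp, rfl⟩)
      exact h1 hf
    · exact Ideal.subset_span (Or.inr hr)
  -- comparison constants for the forms
  have h1 : ∀ f ∈ S, ∃ C : ℝ, 1 ≤ C ∧ ∀ n, O.abv (eval (O.y n) (pullA O.F t f)) ≤ C * O.abv (eval (O.y (n + t)) f) := by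
    intro f hf
    obtain ⟨m, hm⟩ := hM.fh.2 f hf
    obtain ⟨C, hC, hC'⟩ := O.eval_steps t hm
    exact ⟨C, hC, fun n => (hC' n).2⟩
  choose! C1 hC1 hC1' using h1
  have h2 : ∀ f ∈ S, ∃ C : ℝ, 0 ≤ C ∧ ∀ n, ∀ ε : ℝ, 0 ≤ ε → (∀ p ∈ (pullA O.F t) '' S ∪ Rr, O.abv (eval (O.y n) p) ≤ ε) →
      O.abv (eval (O.y n) s) * O.abv (eval (O.y n) f) ^ e ≤ C * ε := by
    intro f hf
    have h3 := hJ (hs (f ^ e) (Ideal.pow_mem_pow (Ideal.subset_span hf) e))
    obtain ⟨C, hC, hC'⟩ := O.span_bound _ h3
    refine ⟨C, hC, fun n ε hε h => ?_⟩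
    have h4 := hC' n ε hε h
    rw [map_mul, map_mul, map_pow, map_pow] at h4
    exact h4
  choose! C2 hC2 hC2' using h2
  by_cases hne : S.Nonempty
  · obtain ⟨f1, hf1, hf1'⟩ := Set.exists_max_image S C1 hM.fh.1 hne
    obtain ⟨f2, hf2, hf2'⟩ := Set.exists_max_image S C2 hM.fh.1 hne
    refine ⟨1 + C2 f2 * C1 f1, ?_, ?_⟩
    · have := mul_nonneg (hC2 f2 hf2) (zero_le_one.trans (hC1 f1 hf1))
      linarith
    · intro n ε hε h f hf
      have h3 : ∀ p ∈ (pullA O.F t) '' S ∪ Rr, O.abv (eval (O.y n) p) ≤ C1 f1 * ε := by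
        rintro _ (⟨p, hp, rfl⟩ | hr)
        · calc O.abv (eval (O.y n) (pullA O.F t p)) ≤ C1 p * O.abv (eval (O.y (n + t)) p) := hC1' p hp n
            _ ≤ C1 f1 * ε := mul_le_mul (hf1' p hp) (h p hp) (O.abv.nonneg _) (zero_le_one.trans (hC1 f1 hf1))
        · rw [hRy n _ hr, map_zero]
          exact mul_nonneg (zero_le_one.trans (hC1 f1 hf1)) hε
      have hC10 := zero_le_one.trans (hC1 f1 hf1)
      calc O.abv (eval (O.y n) s) * O.abv (eval (O.y n) f) ^ e ≤ C2 f * (C1 f1 * ε) :=
            hC2' f hf n _ (mul_nonneg hC10 hε) h3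
        _ ≤ C2 f2 * (C1 f1 * ε) := mul_le_mul_of_nonneg_right (hf2' f hf) (mul_nonneg hC10 hε)
        _ ≤ (1 + C2 f2 * C1 f1) * ε := by nlinarith
  · refine ⟨1, le_rfl, fun n ε hε h f hf => absurd ⟨f, hf⟩ hne⟩

/-- **The local theorem.** -/
theorem local_max (v : MvPolynomial ι K) {D : ℕ} (hv : v.IsHomogeneous D) (Cv : ℝ)
    (hv1 : ∀ n, Real.exp (-(Cv * O.h n)) ≤ O.abv (eval (O.y n) v)) (hheavy : O.Heavy {v})
    (Rr : Set (MvPolynomial ι K)) (hRh : ∀ r ∈ Rr, ∃ m : ℕ, r.IsHomogeneous m) (hRy : ∀ n, ∀ r ∈ Rr, eval (O.y n) r = 0)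
    (hyp : ∀ S : Set (MvPolynomial ι K), (∀ f ∈ S, ∃ m : ℕ, f.IsHomogeneous m) → (Ideal.span S).IsPrime →
      Rr ⊆ Ideal.span S → v ∈ Ideal.span S → (∃ i, (X i : MvPolynomial ι K) ∉ Ideal.span S) →
      (∃ t : ℕ, 1 ≤ t ∧ ∀ (f : MvPolynomial ι K) (m : ℕ), f.IsHomogeneous m →
        (f ∈ Ideal.span S ↔ pullA O.F t f ∈ Ideal.span S)) →
      ∃ t e : ℕ, e < O.d ^ t ∧ (∀ f ∈ Ideal.span S, pullA O.F t f ∈ Ideal.span S) ∧
        ∃ s : MvPolynomial ι K, s ∉ Ideal.span S ∧ (∃ m : ℕ, s.IsHomogeneous m) ∧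
          ∀ f ∈ (Ideal.span S) ^ e, s * f ∈ Ideal.span ((pullA O.F t) '' (Ideal.span S : Set (MvPolynomial ι K)) ∪ Rr)) :
    False := by
  obtain ⟨S, hS1, hvS, hS3, hS4⟩ := O.exists_max_heavy v hv hheavy
  have hM : O.MaxHeavy S := ⟨hS1, hS3, hS4⟩
  obtain ⟨t, e, he, hmem, s, hsI, hsh, hs⟩ := hyp S hS1.2 hM.prime
    (fun r hr => by
      obtain ⟨m, hm⟩ := hRh r hr
      exact hM.vanish hm (fun n => hRy n r hr))
    (Ideal.subset_span hvS) hM.notirr (by
      obtain ⟨t, ht, hmem⟩ := hM.period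
      exact ⟨t, ht, fun f m hf => ⟨hmem f, hM.inv t hmem hf⟩⟩)
  obtain ⟨C1, hC1, hpot⟩ := potential hM Rr hRy hs
  -- the largest form
  have h0 : ∀ n, ∃ f ∈ S, ∀ p ∈ S, O.abv (eval (O.y n) p) ≤ O.abv (eval (O.y n) f) := fun n =>
    Set.exists_max_image S _ hS1.1 ⟨v, hvS⟩
  choose fm hfm hfm' using h0
  set δ : ℕ → ℝ := fun n => O.abv (eval (O.y n) (fm n)) with hδ
  have hδpos : ∀ n, 0 < δ n := fun n => lt_of_lt_of_le (Real.exp_pos _) ((hv1 n).trans (hfm' n v hvS))
  set ψ : ℕ → ℝ := fun n => -Real.log (δ n) with hψ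
  have hψle : ∀ n, ψ n ≤ Cv * O.h n := by
    intro n
    have h1 := Real.log_le_log (Real.exp_pos _) ((hv1 n).trans (hfm' n v hvS))
    rw [Real.log_exp] at h1
    simp only [hψ, hδ]
    linarith
  set Cv' : ℝ := max Cv 0 with hCv'
  have hCv'0 : 0 ≤ Cv' := le_max_right _ _
  set u : ℕ → ℝ := fun n => max (ψ n) 0 / O.h n with hu
  have hu0 : ∀ n, 0 ≤ u n := fun n => div_nonneg (le_max_right _ _) (O.hpos n).le
  have huC : ∀ n, u n ≤ Cv' := by
    intro n
    simp only [hu]
    rw [div_le_iff₀ (O.hpos n)]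
    apply max_le
    · exact (hψle n).trans (mul_le_mul_of_nonneg_right (le_max_left _ _) (O.hpos n).le)
    · exact mul_nonneg hCv'0 (O.hpos n).le
  have hub : BddS u := ⟨Cv', fun n => by rw [abs_of_nonneg (hu0 n)]; exact huC n⟩
  -- near in terms of ψ
  have hnear : ∀ (c : ℝ) n, n ∈ O.near S c ↔ c * O.h n ≤ ψ n := by
    intro c n
    constructor
    · intro hn
      have h1 := hn (fm n) (hfm n)
      have h2 := Real.log_le_log (hδpos n) h1
      rw [Real.log_exp] at h2
      simp only [hψ]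
      linarith
    · intro hn f hf
      refine (hfm' n f hf).trans ?_
      change δ n ≤ _
      rw [← Real.exp_log (hδpos n)]
      apply Real.exp_le_exp.2
      simp only [hψ] at hn
      linarith
  -- the mean of u is positive
  have hmean : 0 < mean u := by
    obtain ⟨c, hc, hm⟩ := hM.heavy
    have h1 : mean (fun n => c * ind (O.near S c) n) ≤ mean u := by
      apply mean_mono ((ind_bdd _).mul c) hub
      intro n
      by_cases hn : n ∈ O.near S c
      · have h2 := (hnear c n).1 hn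
        have h3 : c ≤ u n := by
          simp only [hu]
          rw [le_div_iff₀ (O.hpos n)]
          exact h2.trans (le_max_left _ _)
        simp only [ind, hn, if_true, mul_one]
        exact h3
      · simp only [ind, hn, if_false, mul_zero]
        exact hu0 n
    rw [mean_mul (ind_bdd _)] at h1
    have h2 : 0 < c * mean (ind (O.near S c)) := mul_pos hc hm
    linarith
  -- the contraction
  have hdpos : (0 : ℝ) < (O.d : ℝ) ^ t := by
    have h1 := O.hd
    have : (0 : ℝ) < O.d := by exact_mod_cast (by omega : 0 < O.d)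
    positivity
  have hd1 : (1 : ℝ) ≤ (O.d : ℝ) ^ t := by
    have h1 := O.hd
    have : (1 : ℝ) ≤ O.d := by exact_mod_cast (by omega : 1 ≤ O.d)
    exact one_le_pow₀ this
  set q : ℝ := (e : ℝ) / (O.d : ℝ) ^ t with hq
  have hq0 : 0 ≤ q := by positivity
  have hq1 : q < 1 := by
    rw [hq, div_lt_one hdpos]
    exact_mod_cast he
  have key : ∀ η : ℝ, 0 < η → mean u ≤ q * mean u + η := by
    intro η hη
    set η1 : ℝ := η / (4 * (Cv' + 1)) with hη1
    have hη10 : 0 < η1 := by positivity
    -- almost maximal level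
    obtain ⟨c1, hc1, hsup⟩ : ∃ c1 : ℝ, 0 < c1 ∧ ∀ c : ℝ, 0 < c → mA (O.near S c) ≤ mA (O.near S c1) + η1 := by
      set T : Set ℝ := {x | ∃ c : ℝ, 0 < c ∧ x = mA (O.near S c)} with hT
      have hne : T.Nonempty := ⟨_, 1, one_pos, rfl⟩
      have hbd : BddAbove T := ⟨1, by rintro _ ⟨c, _, rfl⟩; exact mA_le_one _⟩
      obtain ⟨x, hx, hx'⟩ := exists_lt_of_lt_csSup hne (show sSup T - η1 < sSup T by linarith)
      obtain ⟨c1, hc1, rfl⟩ := hx
      refine ⟨c1, hc1, fun c hc => ?_⟩
      have := le_csSup hbd (show mA (O.near S c) ∈ T from ⟨c, hc, rfl⟩)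
      linarith
    obtain ⟨c2', hc2', hfol⟩ := follow_all (O := O) hS1 t (fun f hf => hmem f (Ideal.subset_span hf)) hc1
    set c2 : ℝ := min c2' (η / 4) with hc2
    have hc20 : 0 < c2 := lt_min hc2' (by positivity)
    set bad1 : Set ℕ := {n | n ∈ {n | n + t ∈ O.near S c2} ∧ n ∉ O.near S c1} with hbad1
    have hbad1m : mA bad1 ≤ η1 := by
      have h1 : mA bad1 ≤ mA {n | n + t ∈ O.near S c2} - mA (O.near S c1) := by
        apply mA_sdiff
        filter_upwards [hfol] with n hn hnS
        exact O.near_mono (min_le_left _ _) (hn hnS)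
      rw [mA_shift] at h1
      have h2 := hsup c2 hc20
      linarith
    set ε : ℝ := η / 4 with hε
    have hε0 : 0 < ε := by positivity
    set bad2 : Set ℕ := {n | n ∈ O.near S c1 ∧ O.abv (eval (O.y n) s) ≤ Real.exp (-(ε * O.h n))} with hbad2
    have hbad2m : mA bad2 = 0 := by
      apply le_antisymm _ (mA_nonneg _)
      by_contra hcon
      push Not at hcon
      apply hsI
      apply hM.mx s hsh
      refine ⟨min c1 ε, lt_min hc1 hε0, lt_of_lt_of_le hcon (mA_mono_ae ?_)⟩
      filter_upwards with n hn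
      rintro p (rfl | hp)
      · refine hn.2.trans (Real.exp_le_exp.2 ?_)
        have h1 := min_le_right c1 ε
        have h2 := O.hpos n
        nlinarith
      · exact O.near_mono (min_le_left _ _) hn.1 p hp
    obtain ⟨Ct, hCt, hht⟩ := O.hsteps t
    -- the pointwise estimate
    have hpt : ∀ᶠ n in atTop, u (n + t) ≤ (q * u n + (ε + η / 4 + c2)) + (Cv' * ind bad1 n + Cv' * ind bad2 n) := by
      filter_upwards [O.hlim.eventually_ge_atTop ((Ct * (q * Cv' + ε + η / 4) + Real.log C1) / (η / 4))] with n hn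
      have hi1 := ind_nonneg bad1 n
      have hi2 := ind_nonneg bad2 n
      have hrest : 0 ≤ Cv' * ind bad1 n + Cv' * ind bad2 n := by positivity
      have hmain0 : 0 ≤ q * u n := mul_nonneg hq0 (hu0 n)
      by_cases hb2 : n ∈ bad2
      · have h1 : ind bad2 n = 1 := by simp only [ind, hb2, if_true]
        rw [h1]
        have h2 := huC (n + t)
        have h3 : 0 ≤ Cv' * ind bad1 n := by positivity
        linarith
      by_cases hb1 : n ∈ bad1
      · have h1 : ind bad1 n = 1 := by simp only [ind, hb1, if_true]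
        rw [h1]
        have h2 := huC (n + t)
        have h3 : 0 ≤ Cv' * ind bad2 n := by positivity
        linarith
      by_cases hn1 : n ∈ O.near S c1
      · -- the main case
        have hsbig : Real.exp (-(ε * O.h n)) < O.abv (eval (O.y n) s) := by
          by_contra hcon
          push Not at hcon
          exact hb2 ⟨hn1, hcon⟩
        have hspos : 0 < O.abv (eval (O.y n) s) := (Real.exp_pos _).trans hsbig
        have h1 := hpot n (δ (n + t)) (hδpos _).le (fun f hf => hfm' (n + t) f hf) (fm n) (hfm n)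
        change O.abv (eval (O.y n) s) * (δ n) ^ e ≤ C1 * δ (n + t) at h1
        have h2 := Real.log_le_log (mul_pos hspos (pow_pos (hδpos n) e)) h1
        rw [Real.log_mul hspos.ne' (pow_pos (hδpos n) e).ne', Real.log_pow,
          Real.log_mul (by linarith) (hδpos _).ne'] at h2
        have h3 := Real.log_lt_log (Real.exp_pos _) hsbig
        rw [Real.log_exp] at h3
        have hlogC : 0 ≤ Real.log C1 := Real.log_nonneg hC1
        have h4 : ψ (n + t) ≤ Real.log C1 + e * ψ n + ε * O.h n := by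
          simp only [hψ]
          linarith
        set p : ℝ := max (ψ n) 0 with hp
        have hp0 : 0 ≤ p := le_max_right _ _
        have hpn : ψ n ≤ p := le_max_left _ _
        have he0 : (0 : ℝ) ≤ e := Nat.cast_nonneg _
        have hhn := O.hpos n
        have h5 : max (ψ (n + t)) 0 ≤ Real.log C1 + e * p + ε * O.h n := by
          apply max_le
          · have := mul_le_mul_of_nonneg_left hpn he0
            linarith
          · positivity
        have hun : u n = p / O.h n := rfl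
        have h6 : u (n + t) ≤ q * u n + (ε + η / 4) := by
          simp only [hu]
          rw [div_le_iff₀ (O.hpos _)]
          refine h5.trans ?_
          have h7 := (abs_le.1 (hht n)).1
          have h8 : (q * u n + (ε + η / 4)) * ((O.d : ℝ) ^ t * O.h n - Ct) ≤ (q * u n + (ε + η / 4)) * O.h (n + t) := by
            apply mul_le_mul_of_nonneg_left _ (by positivity)
            linarith
          refine le_trans ?_ h8
          have h9 : q * u n * ((O.d : ℝ) ^ t * O.h n) = e * p := by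
            rw [hun, hq]
            field_simp
          have h10 : (Ct * (q * Cv' + ε + η / 4) + Real.log C1) ≤ η / 4 * O.h n := by
            rw [div_le_iff₀ (by positivity)] at hn
            linarith
          have h11 : Ct * (q * u n) ≤ Ct * (q * Cv') :=
            mul_le_mul_of_nonneg_left (mul_le_mul_of_nonneg_left (huC n) hq0) hCt
          have h12 : (ε + η / 4) * O.h n ≤ (ε + η / 4) * ((O.d : ℝ) ^ t * O.h n) := by
            apply mul_le_mul_of_nonneg_left _ (by positivity)
            nlinarith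
          nlinarith
        linarith
      · -- far from S now
        have hn2 : n + t ∉ O.near S c2 := fun h => hb1 ⟨h, hn1⟩
        have h1 : u (n + t) ≤ c2 := by
          simp only [hu]
          rw [div_le_iff₀ (O.hpos _)]
          apply max_le
          · by_contra hcon
            push Not at hcon
            exact hn2 ((hnear c2 (n + t)).2 hcon.le)
          · exact mul_nonneg hc20.le (O.hpos _).le
        linarith
    have hb : BddS (fun n => (q * u n + (ε + η / 4 + c2)) + (Cv' * ind bad1 n + Cv' * ind bad2 n)) :=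
      ((hub.mul q).add (BddS.const _)).add (((ind_bdd _).mul _).add ((ind_bdd _).mul _))
    have h1 := mean_mono_ae (hub.shift t) hb hpt
    rw [mean_shift hub, mean_add ((hub.mul q).add (BddS.const _)) (((ind_bdd _).mul _).add ((ind_bdd _).mul _)),
      mean_add (hub.mul q) (BddS.const _), mean_add ((ind_bdd _).mul _) ((ind_bdd _).mul _), mean_mul hub, mean_const,
      mean_mul (ind_bdd _), mean_mul (ind_bdd _)] at h1
    change mean u ≤ q * mean u + (ε + η / 4 + c2) + (Cv' * mA bad1 + Cv' * mA bad2) at h1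
    rw [hbad2m, mul_zero, add_zero] at h1
    have h2 : Cv' * mA bad1 ≤ η / 4 := by
      calc Cv' * mA bad1 ≤ (Cv' + 1) * η1 := mul_le_mul (by linarith) hbad1m (mA_nonneg _) (by linarith)
        _ = η / 4 := by rw [hη1]; field_simp
    have h3 : c2 ≤ η / 4 := min_le_right _ _
    rw [hε] at h1
    linarith
  have h1 := key ((1 - q) * mean u / 2) (by
    have : 0 < (1 - q) * mean u := mul_pos (by linarith) hmean
    linarith)
  nlinarith [mul_pos (show 0 < 1 - q by linarith) hmean]

end OrbitData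

end Pool.Agent.Lib.MP_df4dfc_nt
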