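import Mathlib
import Pool.Agent.Lib.MP_df4dfc_nt.Mn4
import Pool.Agent.Lib.MP_df4dfc_nt.Iv3

set_option autoImplicit false
set_option linter.unusedSectionVars false
set_option linter.style.haveILetI false
set_option linter.unusedVariables false

/-! Places of a number field and orbits. -/

namespace Pool.Agent.Lib.MP_df4dfc_nt

open MvPolynomial NumberField IsDedekindDomain Height Filter Topology

universe u

section Places

variable {K : Type u} [Field K] [NumberField K]

/-- the infinite places and the places of `S` -/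
abbrev Pl (S : Finset (HeightOneSpectrum (𝓞 K))) : Type u := InfinitePlace K ⊕ {p : HeightOneSpectrum (𝓞 K) // p ∈ S}

/-- their absolute values -/
noncomputable def pabv (S : Finset (HeightOneSpectrum (𝓞 K))) : Pl S → AbsoluteValue K ℝ :=
  Sum.elim (fun v => v.1) (fun p => (FinitePlace.mk p.1).1)

/-- their multiplicities -/
noncomputable def pmu (S : Finset (HeightOneSpectrum (𝓞 K))) : Pl S → ℕ :=
  Sum.elim (fun v => v.mult) (fun _ => 1)

theorem pmu_pos (S : Finset (HeightOneSpectrum (𝓞 K))) (i : Pl S) : 1 ≤ pmu S i := by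
  rcases i with v | p
  · exact InfinitePlace.mult_pos
  · exact le_rfl

variable {ι : Type*} [Finite ι]

open scoped Classical in
theorem places_fact (S : Finset (HeightOneSpectrum (𝓞 K))) (x : ι → 𝓞 K) (b : 𝓞 K) (hx : x ≠ 0) (hb : b ≠ 0)
    (hout : ∀ p : HeightOneSpectrum (𝓞 K), p ∉ S → (∃ i, x i ∉ p.asIdeal) ∧ b ∉ p.asIdeal) :
    ∏ i : Pl S, (pabv S i (b : K)) ^ pmu S i = 1 ∧
    mulHeight (fun i => (x i : K)) = ∏ i : Pl S, (⨆ l, pabv S i (x l : K)) ^ pmu S i := by
  have hxK : (fun i => (x i : K)) ≠ 0 := by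
    intro h
    apply hx
    funext i
    apply inj_O
    rw [Pi.zero_apply, map_zero]
    exact congrFun h i
  have hbK : (b : K) ≠ 0 := by
    intro h
    apply hb
    apply inj_O
    rw [map_zero]
    exact h
  obtain ⟨i0, hi0⟩ := Function.ne_iff.1 hxK
  haveI : Nonempty ι := ⟨i0⟩
  -- the finite places
  set T : Finset (FinitePlace K) := S.map ⟨FinitePlace.mk, fun a b h => FinitePlace.mk_eq_iff.1 h⟩ with hT
  have hTmem : ∀ w : FinitePlace K, w ∉ T → w.maximalIdeal ∉ S := by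
    intro w hw hmem
    apply hw
    rw [hT, Finset.mem_map]
    exact ⟨w.maximalIdeal, hmem, FinitePlace.mk_maximalIdeal w⟩
  have hw1 : ∀ w : FinitePlace K, ∀ a : 𝓞 K, w (a : K) ≤ 1 := by
    intro w a
    rw [← FinitePlace.norm_embedding_eq]
    exact FinitePlace.norm_le_one K w.maximalIdeal a
  have hwe : ∀ w : FinitePlace K, ∀ a : 𝓞 K, a ∉ w.maximalIdeal.asIdeal → w (a : K) = 1 := by
    intro w a ha
    rw [← FinitePlace.norm_embedding_eq]
    exact (FinitePlace.norm_eq_one_iff_notMem K w.maximalIdeal a).2 ha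
  have hprodb : ∏ᶠ w : FinitePlace K, w (b : K) = ∏ w ∈ T, w (b : K) := by
    apply finprod_eq_prod_of_mulSupport_subset
    intro w hw
    by_contra hwT
    apply hw
    exact hwe w b (hout _ (hTmem w hwT)).2
  have hprodx : ∏ᶠ w : FinitePlace K, ⨆ i, w (x i : K) = ∏ w ∈ T, ⨆ i, w (x i : K) := by
    apply finprod_eq_prod_of_mulSupport_subset
    intro w hw
    by_contra hwT
    apply hw
    obtain ⟨i, hi⟩ := (hout _ (hTmem w hwT)).1
    apply le_antisymm
    · exact ciSup_le fun j => hw1 w (x j)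
    · rw [← hwe w (x i) hi]
      exact Finite.le_ciSup_of_le i le_rfl
  have hpf := prod_abs_eq_one hbK
  rw [hprodb] at hpf
  have hH := NumberField.mulHeight_eq hxK
  rw [hprodx] at hH
  have hsplit : ∀ f : AbsoluteValue K ℝ → ℝ, ∏ i : Pl S, (f (pabv S i)) ^ pmu S i
      = (∏ v : InfinitePlace K, (f v.1) ^ v.mult) * ∏ w ∈ T, f w.1 := by
    intro f
    rw [Fintype.prod_sum_type]
    congr 1
    rw [hT, Finset.prod_map]
    simp only [pabv, pmu, Sum.elim_inr, pow_one]
    exact Finset.prod_coe_sort S (fun p => f (FinitePlace.mk p).1)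
  constructor
  · rw [hsplit (fun a => a (b : K))]
    exact hpf
  · rw [hsplit (fun a => ⨆ l, a (x l : K))]
    exact hH

end Places

section Norm

variable {K : Type*} [Field K] {ι : Type*} [Fintype ι]

/-- the sup norm -/
noncomputable def nr (abv : AbsoluteValue K ℝ) (x : ι → K) : ℝ := ⨆ l, abv (x l)

/-- a nonzero vector is a multiple of a normalised vector -/
theorem exists_normal (abv : AbsoluteValue K ℝ) (x : ι → K) (hx : x ≠ 0) :
    ∃ (b : K) (y : ι → K), b ≠ 0 ∧ x = b • y ∧ (∃ k, y k = 1) ∧ (∀ l, abv (y l) ≤ 1) ∧ abv b = nr abv x := by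
  obtain ⟨k1, hk1⟩ := Function.ne_iff.1 hx
  rw [Pi.zero_apply] at hk1
  obtain ⟨k, _, hk⟩ := Finset.exists_max_image Finset.univ (fun l => abv (x l)) ⟨k1, Finset.mem_univ _⟩
  have hkpos : 0 < abv (x k) := lt_of_lt_of_le (abv.pos hk1) (hk k1 (Finset.mem_univ _))
  have hc0 : x k ≠ 0 := abv.pos_iff.1 hkpos
  haveI : Nonempty ι := ⟨k⟩
  refine ⟨x k, fun l => x l / x k, hc0, ?_, ⟨k, div_self hc0⟩, ?_, ?_⟩
  · funext l
    simp only [Pi.smul_apply, smul_eq_mul]
    rw [mul_div_cancel₀ _ hc0]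
  · intro l
    simp only
    rw [map_div₀, div_le_one hkpos]
    exact hk l (Finset.mem_univ _)
  · apply le_antisymm
    · exact Finite.le_ciSup_of_le k le_rfl
    · exact ciSup_le fun l => hk l (Finset.mem_univ _)

theorem nr_smul (abv : AbsoluteValue K ℝ) (b : K) (x : ι → K) : nr abv (b • x) = abv b * nr abv x := by
  unfold nr
  rw [Real.mul_iSup_of_nonneg (abv.nonneg _)]
  congr 1
  funext l
  rw [Pi.smul_apply, smul_eq_mul, map_mul]

theorem nr_pos (abv : AbsoluteValue K ℝ) {x : ι → K} (hx : x ≠ 0) : 0 < nr abv x := by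
  obtain ⟨b, y, hb, _, _, _, h⟩ := exists_normal abv x hx
  rw [← h]
  exact abv.pos hb

/-- two-sided comparison of norms under a morphism -/
theorem nr_step {Ω : Type*} [Field Ω] [Algebra K Ω] [IsAlgClosed Ω] (abv : AbsoluteValue K ℝ) (F : ι → MvPolynomial ι K) {d : ℕ}
    (hF : ∀ i, (F i).IsHomogeneous d) (hNZ : NZ (algebraMap K Ω) F) :
    ∃ B : ℝ, 0 ≤ B ∧ ∀ x : ι → K, x ≠ 0 → pev (RingHom.id K) F x ≠ 0 ∧
      |Real.log (nr abv (pev (RingHom.id K) F x)) - d * Real.log (nr abv x)| ≤ B := by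
  classical
  have hloc : ∀ k : ι, ∃ δ : ℝ, 0 < δ ∧ ∀ y : ι → K, y k = 1 → (∀ i, abv (y i) ≤ 1) →
      ∃ t ∈ (Finset.univ : Finset ι), δ ≤ abv (eval y (F t)) := by
    intro k
    obtain ⟨δ, hδ, h⟩ := local_bound (Ω := Ω) abv k ∅ Finset.univ F (by
      intro z hzk _
      have hz0 : z ≠ 0 := by
        rintro rfl
        simp at hzk
      obtain ⟨t, ht⟩ := Function.ne_iff.1 (hNZ z hz0)
      exact ⟨t, Finset.mem_univ _, ht⟩)
    exact ⟨δ, hδ, fun y hy1 hy2 => h y hy1 hy2 (by simp)⟩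
  choose δ hδ0 hδ using hloc
  obtain ⟨δ0, hδ00, hδ01⟩ : ∃ δ0 : ℝ, 0 < δ0 ∧ ∀ k, δ0 ≤ δ k := by
    rcases isEmpty_or_nonempty ι with hι | hι
    · exact ⟨1, one_pos, fun k => isEmptyElim k⟩
    · obtain ⟨k0, _, hk0⟩ := Finset.exists_min_image Finset.univ δ Finset.univ_nonempty
      exact ⟨δ k0, hδ0 _, fun k => hk0 k (Finset.mem_univ _)⟩
  set C : ℝ := 1 + ∑ l : ι, cb abv (F l) with hC
  have hC1 : 1 ≤ C := by
    have : 0 ≤ ∑ l : ι, cb abv (F l) := Finset.sum_nonneg fun l _ => cb_nonneg _ _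
    linarith
  have hCle : ∀ l, cb abv (F l) ≤ C := by
    intro l
    have := Finset.single_le_sum (f := fun l => cb abv (F l)) (fun l _ => cb_nonneg _ _) (Finset.mem_univ l)
    linarith
  refine ⟨|Real.log δ0| + |Real.log C|, by positivity, ?_⟩
  intro x hx
  obtain ⟨b, y, hb, hxy, ⟨k, hk⟩, hy, hbn⟩ := exists_normal abv x hx
  haveI : Nonempty ι := ⟨k⟩
  obtain ⟨t, _, ht⟩ := hδ k y hk hy
  have hFx : pev (RingHom.id K) F x = b ^ d • pev (RingHom.id K) F y := by
    rw [hxy, pev_smul hF]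
  have hlow : δ0 ≤ nr abv (pev (RingHom.id K) F y) :=
    ((hδ01 k).trans ht).trans (Finite.le_ciSup_of_le t le_rfl)
  have hup : nr abv (pev (RingHom.id K) F y) ≤ C :=
    ciSup_le fun l => (eval_le_cb abv (F l) y hy).trans (hCle l)
  have hpos : 0 < nr abv (pev (RingHom.id K) F y) := hδ00.trans_le hlow
  have hbpos : 0 < abv b := abv.pos hb
  constructor
  · intro h0
    rw [hFx] at h0
    have h1 : pev (RingHom.id K) F y = 0 := by
      rcases smul_eq_zero.1 h0 with h | h
      · exact absurd h (pow_ne_zero _ hb)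
      · exact h
    rw [h1] at hpos
    have : nr abv (0 : ι → K) = 0 := by
      unfold nr
      simp
    linarith
  · rw [hFx, nr_smul, map_pow, Real.log_mul (pow_pos hbpos d).ne' hpos.ne', Real.log_pow, ← hbn]
    have h1 := Real.log_le_log hδ00 hlow
    have h2 := Real.log_le_log hpos hup
    have h3 : d * Real.log (abv b) + Real.log (nr abv (pev (RingHom.id K) F y)) - d * Real.log (abv b)
        = Real.log (nr abv (pev (RingHom.id K) F y)) := by ring
    rw [h3, abs_le]
    have h4 := neg_abs_le (Real.log δ0)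
    have h5 := le_abs_self (Real.log C)
    have h6 := abs_nonneg (Real.log C)
    have h7 := abs_nonneg (Real.log δ0)
    constructor <;> linarith

/-- the orbit data at one place -/
theorem exists_orbit {Ω : Type*} [Field Ω] [Algebra K Ω] [IsAlgClosed Ω] (abv : AbsoluteValue K ℝ) (F : ι → MvPolynomial ι K)
    {d : ℕ} (hd : 2 ≤ d) (hF : ∀ i, (F i).IsHomogeneous d) (hNZ : NZ (algebraMap K Ω) F) (x : ℕ → ι → K) (hx : ∀ n, x n ≠ 0)
    (c : K) (hc : c ≠ 0) (hstep : ∀ n, x (n + 1) = c • pev (RingHom.id K) F (x n))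
    (h : ℕ → ℝ) (h1 : ∀ n, 1 ≤ h n) (hlim : Tendsto h atTop atTop) (Ch : ℝ) (hCh : ∀ n, |h (n + 1) - d * h n| ≤ Ch) :
    ∃ O : OrbitData K ι, O.abv = abv ∧ O.F = F ∧ O.d = d ∧ O.h = h ∧
      ∀ n, ∃ b : K, b ≠ 0 ∧ x n = b • O.y n ∧ abv b = nr abv (x n) := by
  have hn : ∀ n, ∃ (b : K) (y : ι → K), b ≠ 0 ∧ x n = b • y ∧ (∃ k, y k = 1) ∧ (∀ l, abv (y l) ≤ 1) ∧ abv b = nr abv (x n) :=
    fun n => exists_normal abv (x n) (hx n)
  choose b y hb hxy hone hle hbn using hn
  obtain ⟨B, hB, hB'⟩ := nr_step (Ω := Ω) abv F hF hNZ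
  have hcpos : 0 < abv c := abv.pos hc
  set κ : ℕ → K := fun n => c * b n ^ d / b (n + 1) with hκ
  have hκstep : ∀ n, y (n + 1) = κ n • pev (RingHom.id K) F (y n) := by
    intro n
    have e1 : x (n + 1) = (c * b n ^ d) • pev (RingHom.id K) F (y n) := by
      rw [hstep, hxy n, pev_smul hF, smul_smul]
    have e2 := hxy (n + 1)
    rw [e1] at e2
    simp only [hκ]
    rw [div_eq_inv_mul, mul_smul, e2, smul_smul, inv_mul_cancel₀ (hb _), one_smul]
  -- bounds for κ
  have hlogκ : ∀ n, |Real.log (abv (κ n))| ≤ B + 2 * |Real.log (abv c)| := by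
    intro n
    have e1 : Real.log (abv (κ n)) = Real.log (abv c) + d * Real.log (nr abv (x n)) - Real.log (nr abv (x (n + 1))) := by
      simp only [hκ]
      rw [map_div₀, map_mul, map_pow, hbn, hbn, Real.log_div, Real.log_mul, Real.log_pow]
      · exact hcpos.ne'
      · exact (pow_pos (nr_pos abv (hx n)) d).ne'
      · exact (mul_pos hcpos (pow_pos (nr_pos abv (hx n)) d)).ne'
      · exact (nr_pos abv (hx _)).ne'
    have e2 : Real.log (nr abv (x (n + 1))) = Real.log (abv c) + Real.log (nr abv (pev (RingHom.id K) F (x n))) := by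
      rw [hstep, nr_smul, Real.log_mul hcpos.ne' (nr_pos abv (hB' _ (hx n)).1).ne']
    have e3 := (hB' _ (hx n)).2
    rw [e1, e2]
    have e4 : Real.log (abv c) + d * Real.log (nr abv (x n)) - (Real.log (abv c) + Real.log (nr abv (pev (RingHom.id K) F (x n))))
        = -(Real.log (nr abv (pev (RingHom.id K) F (x n))) - d * Real.log (nr abv (x n))) := by ring
    rw [e4, abs_neg]
    have := abs_nonneg (Real.log (abv c))
    linarith
  set E : ℝ := B + 2 * |Real.log (abv c)| with hE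
  have hE0 : 0 ≤ E := by positivity
  have hκ0 : ∀ n, κ n ≠ 0 := fun n => div_ne_zero (mul_ne_zero hc (pow_ne_zero _ (hb n))) (hb _)
  refine ⟨{ abv := abv, F := F, d := d, hd := hd, hF := hF, y := y, one := hone, le := hle, κ := κ, step := hκstep,
            C := Real.exp E, hC := Real.one_le_exp hE0, κle := ?_, κge := ?_, h := h, h1 := h1, hlim := hlim, Ch := Ch,
            hstep := hCh }, rfl, rfl, rfl, rfl, fun n => ⟨b n, hb n, hxy n, hbn n⟩⟩
  · intro n
    rw [← Real.exp_log (abv.pos (hκ0 n))]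
    exact Real.exp_le_exp.2 ((le_abs_self _).trans (hlogκ n))
  · intro n
    have h2 : Real.exp (-E) ≤ abv (κ n) := by
      rw [← Real.exp_log (abv.pos (hκ0 n))]
      apply Real.exp_le_exp.2
      have := neg_abs_le (Real.log (abv (κ n)))
      have := hlogκ n
      linarith
    calc (1 : ℝ) = Real.exp E * Real.exp (-E) := by rw [← Real.exp_add, add_neg_cancel, Real.exp_zero]
      _ ≤ Real.exp E * abv (κ n) := mul_le_mul_of_nonneg_left h2 (Real.exp_pos _).le

end Norm

end Pool.Agent.Lib.MP_df4dfc_nt
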