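import Mathlib
import Pool.Agent.Lib.MP_df4dfc_nt.Mn5
import Pool.Agent.Lib.MP_df4dfc_nt.DefsMax
import Pool.Agent.Lib.MP_df4dfc_nt.Md
import Pool.Agent.Lib.MP_df4dfc_nt.Hc

set_option autoImplicit false
set_option linter.unusedSectionVars false
set_option linter.style.haveILetI false
set_option linter.unusedVariables false

/-! Maximal attraction: the global theorem. -/

namespace Pool.Agent.Lib.MP_df4dfc_nt

open MvPolynomial NumberField IsDedekindDomain Height Filter Topology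

universe u

variable {K : Type u} [Field K] [NumberField K] {N d : ℕ}

/-- targets periodic modulo almost all primes, off a forward invariant hypersurface -/
theorem preper_max (hd : 2 ≤ d) (Φ : Morph K N d) {c : K} {G : Fin (N + 1) → MvPolynomial (Fin (N + 1)) (𝓞 K)} (hG : Model Φ c G)
    (Z : Set (MvPolynomial (Fin (N + 1)) K)) (hZh : ∀ r ∈ Z, ∃ m : ℕ, r.IsHomogeneous m)
    (hZinv : ∀ z : Fin (N + 1) → AlgebraicClosure K, (∀ r ∈ Z, aeval z r = 0) → ∀ r ∈ Z, aeval (Φ.lift z) r = 0)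
    (w v : MvPolynomial (Fin (N + 1)) K) {Dw D : ℕ}
    (hw : w.IsHomogeneous Dw) (hv : v.IsHomogeneous D) (hD : 1 ≤ D)
    (hinv : ∀ z : Fin (N + 1) → AlgebraicClosure K, (∀ r ∈ Z, aeval z r = 0) → aeval z w = 0 → aeval (Φ.lift z) w = 0)
    (a : ℕ) (hpre : ∀ z : Fin (N + 1) → AlgebraicClosure K, (∀ r ∈ Z, aeval z r = 0) → aeval z v = 0 →
      aeval (Φ.lift^[a] z) w = 0)
    (hmax : Φ.NoMaxIn Z v) (g : Fin (N + 1) → 𝓞 K) (hg0 : g ≠ 0) (hper : PerAE G g)
    (hgZ : ∀ r ∈ Z, eval (fun i => (g i : K)) r = 0)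
    (hgw : eval (fun i => (g i : K)) w ≠ 0) :
    ∃ m n : ℕ, m < n ∧ Par ((pevO G)^[m] g) ((pevO G)^[n] g) := by
  classical
  by_contra hcon
  push Not at hcon
  set Ω := AlgebraicClosure K with hΩ
  set j := algebraMap (𝓞 K) Ω with hj
  set jK := algebraMap (𝓞 K) K with hjK
  have hjinj : Function.Injective j := FaithfulSMul.algebraMap_injective (𝓞 K) Ω
  obtain ⟨sw, w', hsw, hw'⟩ := exists_int_poly w
  obtain ⟨sv, v', hsv, hv'⟩ := exists_int_poly v
  have hw'h : w'.IsHomogeneous Dw := by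
    apply IsHomogeneous.of_map (f := algebraMap (𝓞 K) K) inj_O
    rw [hw']
    exact hw.C_mul _
  have hv'h : v'.IsHomogeneous D := by
    apply IsHomogeneous.of_map (f := algebraMap (𝓞 K) K) inj_O
    rw [hv']
    exact hv.C_mul _
  have hjne : ∀ s : 𝓞 K, s ≠ 0 → j s ≠ 0 := fun s hs h => hs (hjinj (by rw [h, map_zero]))
  have hval : ∀ {p : MvPolynomial (Fin (N + 1)) K} {s : 𝓞 K} {q : MvPolynomial (Fin (N + 1)) (𝓞 K)},
      s ≠ 0 → MvPolynomial.map (algebraMap (𝓞 K) K) q = C (s : K) * p → ∀ z : Fin (N + 1) → Ω,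
      (eval₂ j z q = 0 ↔ aeval z p = 0) := by
    intro p s q hs h z
    rw [eval_int_poly h]
    exact ⟨fun h => (mul_eq_zero.1 h).resolve_left (hjne s hs), fun h => by rw [h, mul_zero]⟩
  have hwz := hval hsw hw'
  have hvz := hval hsv hv'
  set Rr : Set (MvPolynomial (Fin (N + 1)) (𝓞 K)) := {q | ∃ r ∈ Z, ∃ s : 𝓞 K, s ≠ 0 ∧
    MvPolynomial.map (algebraMap (𝓞 K) K) q = C (s : K) * r} with hRr
  have hRz : ∀ z : Fin (N + 1) → Ω, (∀ q ∈ Rr, eval₂ j z q = 0) ↔ (∀ r ∈ Z, aeval z r = 0) := by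
    intro z
    constructor
    · intro h r hr
      obtain ⟨s, q, hs, hq⟩ := exists_int_poly r
      exact (hval hs hq z).1 (h q ⟨r, hr, s, hs, hq⟩)
    · rintro h q ⟨r, hr, s, hs, hq⟩
      exact (hval hs hq z).2 (h r hr)
  set cΩ : Ω := algebraMap K Ω c with hcΩ
  have hcΩ0 : cΩ ≠ 0 := (map_ne_zero _).2 hG.1
  have hscale : ∀ (p : MvPolynomial (Fin (N + 1)) K) {e : ℕ} (_ : p.IsHomogeneous e) (b : Ω) (_ : b ≠ 0) (z : Fin (N + 1) → Ω),
      aeval (b • z) p = 0 ↔ aeval z p = 0 := by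
    intro p e hp b hb z
    rw [aeval_def, aeval_def, eval₂_smul_of_homog hp]
    exact ⟨fun h => (mul_eq_zero.1 h).resolve_left (pow_ne_zero _ hb), fun h => by rw [h, mul_zero]⟩
  set X : ℕ → Fin (N + 1) → 𝓞 K := fun n => (pevO G)^[n] g with hX
  have hXs : ∀ n, X (n + 1) = pevO G (X n) := fun n => Function.iterate_succ_apply' _ _ _
  have hXΩ : ∀ n, (fun i => j (X (n + 1) i)) = cΩ • Φ.lift (fun i => j (X n i)) := by
    intro n
    rw [← hG.lift, hXs]
    have h1 := pev_map (RingHom.id (𝓞 K)) j G (X n)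
    rw [RingHom.comp_id] at h1
    exact h1
  -- the orbit stays in Z
  have hXZ : ∀ n, ∀ r ∈ Z, aeval (fun i => j (X n i)) r = 0 := by
    intro n
    induction n with
    | zero =>
      intro r hr
      have h1 := hgZ r hr
      have h2 : aeval (fun i => j (g i)) r = algebraMap K Ω (eval (fun i => (g i : K)) r) := by
        rw [← aeval_eq_eval, ← aeval_algebraMap_apply]
        rfl
      change aeval (fun i => j (g i)) r = 0
      rw [h2, h1, map_zero]
    | succ n ih =>
      intro r hr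
      obtain ⟨m, hm⟩ := hZh r hr
      rw [hXΩ, hscale r hm _ hcΩ0]
      exact hZinv _ ih r hr
  have hXR : ∀ n, ∀ q ∈ Rr, eval (X n) q = 0 := by
    intro n q hq
    apply hjinj
    rw [map_zero, eval₂_eval]
    exact (hRz _).2 (hXZ n) q hq
  have hit : ∀ n, ∃ e : ℕ, ∀ z, (pev j G)^[n] z = cΩ ^ e • Φ.lift^[n] z := fun n => hG.lift_iter n
  have hevK : ∀ (q : MvPolynomial (Fin (N + 1)) (𝓞 K)) (s : 𝓞 K) (p : MvPolynomial (Fin (N + 1)) K),
      MvPolynomial.map (algebraMap (𝓞 K) K) q = C (s : K) * p → ∀ x : Fin (N + 1) → 𝓞 K,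
      ((eval x q : 𝓞 K) : K) = (s : K) * eval (fun i => (x i : K)) p := by
    intro q s p h x
    have h4 : algebraMap (𝓞 K) K (eval x q) = eval (fun i => (x i : K)) (MvPolynomial.map (algebraMap (𝓞 K) K) q) := by
      rw [eval_map]
      exact eval₂_eval (algebraMap (𝓞 K) K) x q
    change algebraMap (𝓞 K) K (eval x q) = _
    rw [h4, h, map_mul, eval_C]
  obtain ⟨S, hS⟩ := integral_orbit G hG.homog hG.nz g hg0 hper Rr hXR w' v' hw'h (by
      intro z hz1 hz2
      rw [hwz] at hz2 ⊢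
      rw [hG.lift, hscale w hw _ hcΩ0]
      exact hinv z ((hRz z).1 hz1) hz2) a (by
      intro z hz1 hz2
      rw [hvz] at hz2
      rw [hwz]
      obtain ⟨e, he⟩ := hit a
      rw [he, hscale w hw _ (pow_ne_zero _ hcΩ0)]
      exact hpre z ((hRz z).1 hz1) hz2) (by
      intro h0
      apply hgw
      have h1 := hevK w' sw w hw' g
      have h2 : ((eval g w' : 𝓞 K) : K) = 0 := by
        rw [h0]
        exact map_zero (algebraMap (𝓞 K) K)
      rw [h2] at h1
      have hswK : (sw : K) ≠ 0 := fun h => hsw (inj_O (by rw [map_zero]; exact h))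
      exact (mul_eq_zero.1 h1.symm).resolve_left hswK)
  have hNZ1 : NZ (RingHom.id (𝓞 K)) G := NZ.of_injective (ψ := j) (by rw [RingHom.comp_id]; exact hG.nz) hjinj
  have hX0 : ∀ n, X n ≠ 0 := fun n => hNZ1.iter n hg0
  have hv0 : ∀ n, eval (X n) v' ≠ 0 := by
    intro n h0
    obtain ⟨p, _, hp⟩ := ((big_univ K).diff_finite S.finite_toSet).infinite.nonempty
    apply (hS p (by simpa using hp) n).2
    rw [h0]
    exact p.asIdeal.zero_mem
  set XK : ℕ → Fin (N + 1) → K := fun n i => (X n i : K) with hXK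
  have hXK0 : ∀ n, XK n ≠ 0 := by
    intro n h
    apply hX0 n
    funext i
    apply inj_O
    rw [Pi.zero_apply, map_zero]
    exact congrFun h i
  have hXKs : ∀ n, XK (n + 1) = c • pev (RingHom.id K) Φ.F (XK n) := by
    intro n
    funext i
    have h1 : XK (n + 1) i = algebraMap (𝓞 K) K (pevO G (X n) i) := by
      rw [← hXs]
    rw [h1]
    have h2 := congrFun (pev_map (RingHom.id (𝓞 K)) (algebraMap (𝓞 K) K) G (X n)) i
    rw [RingHom.comp_id] at h2
    refine h2.trans ?_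
    change eval₂ (algebraMap (𝓞 K) K) (XK n) (G i) = c * eval₂ (RingHom.id K) (XK n) (Φ.F i)
    have h3 : eval₂ (algebraMap (𝓞 K) K) (XK n) (G i) = eval (XK n) (MvPolynomial.map (algebraMap (𝓞 K) K) (G i)) := by
      rw [eval_map]
    rw [h3, hG.2 i, map_mul, eval_C]
    rfl
  -- heights
  have hNor : ∀ B : ℝ, ∃ n₀, ∀ n, n₀ ≤ n → B < mulHeight (XK n) := northcott_seq XK hXK0 (by
      intro m n hmn hpar
      exact hcon m n hmn (Par.of_map (algebraMap (𝓞 K) K) inj_O hpar))
  obtain ⟨n0, hn0⟩ := hNor (Real.exp 1)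
  set x : ℕ → Fin (N + 1) → K := fun n => XK (n0 + n) with hx
  have hx0 : ∀ n, x n ≠ 0 := fun n => hXK0 _
  have hxs : ∀ n, x (n + 1) = c • pev (RingHom.id K) Φ.F (x n) := fun n => hXKs (n0 + n)
  set h : ℕ → ℝ := fun n => Real.log (mulHeight (x n)) with hh
  have hh1 : ∀ n, 1 ≤ h n := by
    intro n
    simp only [hh]
    rw [Real.le_log_iff_exp_le (lt_of_lt_of_le one_pos (one_le_mulHeight _))]
    exact (hn0 _ (by omega)).le
  have hhlim : Tendsto h atTop atTop := by
    rw [tendsto_atTop]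
    intro b
    obtain ⟨n1, hn1⟩ := hNor (Real.exp b)
    filter_upwards [eventually_ge_atTop n1] with n hn
    simp only [hh]
    rw [Real.le_log_iff_exp_le (lt_of_lt_of_le one_pos (one_le_mulHeight _))]
    exact (hn1 _ (by omega)).le
  -- places
  have hfact := fun n => places_fact S (X (n0 + n)) (eval (X (n0 + n)) v') (hX0 _) (hv0 _) (fun p hp => hS p hp _)
  have hnrpos : ∀ (i : Pl S) n, 0 < nr (pabv S i) (x n) := fun i n => nr_pos _ (hx0 n)
  have hhsum : ∀ n, h n = ∑ i : Pl S, (pmu S i : ℝ) * Real.log (nr (pabv S i) (x n)) := by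
    intro n
    simp only [hh]
    rw [show mulHeight (x n) = ∏ i : Pl S, (nr (pabv S i) (x n)) ^ pmu S i from (hfact n).2, Real.log_prod]
    · apply Finset.sum_congr rfl
      intro i _
      rw [Real.log_pow]
    · intro i _
      exact (pow_pos (hnrpos i n) _).ne'
  have hNZK : NZ (algebraMap K Ω) Φ.F := by
    intro z hz h0
    apply hz
    apply Φ.noZero
    intro i
    exact congrFun h0 i
  have hcpos : ∀ i : Pl S, 0 < pabv S i c := fun i => (pabv S i).pos hG.1
  choose B hB hB' using fun i : Pl S => nr_step (Ω := Ω) (pabv S i) Φ.F Φ.homog hNZK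
  set Ch : ℝ := ∑ i : Pl S, (pmu S i : ℝ) * (|Real.log (pabv S i c)| + B i) with hCh
  have hhstep : ∀ n, |h (n + 1) - d * h n| ≤ Ch := by
    intro n
    rw [hhsum, hhsum, Finset.mul_sum, ← Finset.sum_sub_distrib]
    refine (Finset.abs_sum_le_sum_abs _ _).trans (Finset.sum_le_sum ?_)
    intro i _
    have e1 : Real.log (nr (pabv S i) (x (n + 1))) = Real.log (pabv S i c) + Real.log (nr (pabv S i) (pev (RingHom.id K) Φ.F (x n))) := by
      rw [hxs, nr_smul, Real.log_mul (hcpos i).ne' (nr_pos _ (hB' i _ (hx0 n)).1).ne']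
    have e2 := (hB' i _ (hx0 n)).2
    have e3 : (pmu S i : ℝ) * Real.log (nr (pabv S i) (x (n + 1))) - d * ((pmu S i : ℝ) * Real.log (nr (pabv S i) (x n)))
        = (pmu S i : ℝ) * (Real.log (pabv S i c) + (Real.log (nr (pabv S i) (pev (RingHom.id K) Φ.F (x n))) - d * Real.log (nr (pabv S i) (x n)))) := by
      rw [e1]
      ring
    rw [e3, abs_mul, Nat.abs_cast]
    apply mul_le_mul_of_nonneg_left _ (Nat.cast_nonneg _)
    exact (abs_add_le _ _).trans (add_le_add le_rfl e2)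
  -- the orbit data
  have horb : ∀ i : Pl S, ∃ O : OrbitData K (Fin (N + 1)), O.abv = pabv S i ∧ O.F = Φ.F ∧ O.d = d ∧ O.h = h ∧
      ∀ n, ∃ b : K, b ≠ 0 ∧ x n = b • O.y n ∧ pabv S i b = nr (pabv S i) (x n) := fun i =>
    exists_orbit (Ω := Ω) (pabv S i) Φ.F hd Φ.homog hNZK x hx0 c hG.1 hxs h hh1 hhlim Ch hhstep
  choose O hOabv hOF hOd hOh hOb using horb
  -- values of v
  have hsvK : (sv : K) ≠ 0 := fun h => hsv (inj_O (by rw [map_zero]; exact h))
  have hvx : ∀ n, eval (x n) v ≠ 0 := by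
    intro n h0
    have h1 := hevK v' sv v hv' (X (n0 + n))
    apply hv0 (n0 + n)
    apply inj_O
    rw [map_zero]
    refine h1.trans ?_
    rw [show eval (fun i => (X (n0 + n) i : K)) v = eval (x n) v from rfl, h0, mul_zero]
  have hvy : ∀ (i : Pl S) n, pabv S i (eval (x n) v) = (nr (pabv S i) (x n)) ^ D * (O i).abv (eval ((O i).y n) v) := by
    intro i n
    obtain ⟨b, hb, hb1, hb2⟩ := hOb i n
    have h1 : eval (x n) v = b ^ D * eval ((O i).y n) v := by
      conv_lhs => rw [hb1]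
      exact eval₂_smul_of_homog hv (RingHom.id K) b _
    rw [h1, map_mul, map_pow, hb2, hOabv]
  have hvypos : ∀ (i : Pl S) n, 0 < (O i).abv (eval ((O i).y n) v) := by
    intro i n
    have h1 := (pabv S i).pos (hvx n)
    rw [hvy] at h1
    exact (pos_iff_pos_of_mul_pos h1).1 (pow_pos (hnrpos i n) D)
  set ρ : Pl S → ℕ → ℝ := fun i n => Real.log ((O i).abv (eval ((O i).y n) v)) with hρ
  set A : ℝ := ∑ i : Pl S, (pmu S i : ℝ) * Real.log (pabv S i (sv : K)) with hA
  have hρsum : ∀ n, ∑ i : Pl S, (pmu S i : ℝ) * ρ i n = -A - D * h n := by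
    intro n
    have h1 := (hfact n).1
    have h2 : ∀ i : Pl S, pabv S i ((eval (X (n0 + n)) v' : 𝓞 K) : K) = pabv S i (sv : K) * ((nr (pabv S i) (x n)) ^ D * (O i).abv (eval ((O i).y n) v)) := by
      intro i
      rw [hevK v' sv v hv', map_mul, ← hvy]
    have h3 := congrArg Real.log h1
    rw [Real.log_one, Real.log_prod (fun i _ => by
      have := (pabv S i).pos (show ((eval (X (n0 + n)) v' : 𝓞 K) : K) ≠ 0 from fun h => hv0 _ (inj_O (by rw [map_zero]; exact h)))
      positivity)] at h3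
    have h4 : ∑ i : Pl S, Real.log (pabv S i ((eval (X (n0 + n)) v' : 𝓞 K) : K) ^ pmu S i)
        = A + D * h n + ∑ i : Pl S, (pmu S i : ℝ) * ρ i n := by
      rw [hA, hhsum, Finset.mul_sum, ← Finset.sum_add_distrib, ← Finset.sum_add_distrib]
      apply Finset.sum_congr rfl
      intro i _
      have hs1 : pabv S i (sv : K) ≠ 0 := ((pabv S i).pos hsvK).ne'
      rw [Real.log_pow, h2, Real.log_mul hs1 (mul_pos (pow_pos (hnrpos i n) D) (hvypos i n)).ne',
        Real.log_mul (pow_pos (hnrpos i n) D).ne' (hvypos i n).ne', Real.log_pow]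
      simp only [hρ]
      ring
    rw [h4] at h3
    linarith
  set bb : Pl S → ℝ := fun i => Real.log (cb (O i).abv v + 1) with hbb
  have hbb0 : ∀ i, 0 ≤ bb i := fun i => Real.log_nonneg (by have := cb_nonneg (O i).abv v; linarith)
  have hρle : ∀ i n, ρ i n ≤ bb i := by
    intro i n
    apply Real.log_le_log (hvypos i n)
    have := eval_le_cb (O i).abv v _ ((O i).le n)
    linarith
  have hDR : (1 : ℝ) ≤ D := by exact_mod_cast hD
  set M : ℝ := ∑ i : Pl S, (pmu S i : ℝ) with hM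
  haveI : Nonempty (InfinitePlace K) := inferInstance
  have hM1 : 1 ≤ M := by
    have h1 : (1 : ℝ) ≤ (pmu S (Sum.inl (Classical.arbitrary (InfinitePlace K))) : ℝ) := by exact_mod_cast pmu_pos S _
    have h2 := Finset.single_le_sum (f := fun i : Pl S => (pmu S i : ℝ)) (fun i _ => Nat.cast_nonneg _)
      (Finset.mem_univ (Sum.inl (Classical.arbitrary (InfinitePlace K))))
    exact h1.trans h2
  -- some place is heavy
  set c1 : ℝ := D / (2 * M) with hc1
  have hc10 : 0 < c1 := by positivity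
  obtain ⟨i, hi⟩ := mA_cover (fun i : Pl S => (O i).near {v} c1) (by
    filter_upwards [hhlim.eventually_gt_atTop (2 * |A|)] with n hn
    by_contra hcon2
    push Not at hcon2
    have h1 : ∀ i : Pl S, -(c1 * h n) < ρ i n := by
      intro i
      have h2 := hcon2 i
      by_contra h3
      push Not at h3
      apply h2
      intro f hf
      rw [Set.mem_singleton_iff] at hf
      subst hf
      rw [← Real.exp_log (hvypos i n), hOh]
      exact Real.exp_le_exp.2 h3
    have h2 : ∑ i : Pl S, (pmu S i : ℝ) * (-(c1 * h n)) < ∑ i : Pl S, (pmu S i : ℝ) * ρ i n := by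
      apply Finset.sum_lt_sum_of_nonempty ⟨Sum.inl (Classical.arbitrary (InfinitePlace K)), Finset.mem_univ _⟩
      intro i _
      apply mul_lt_mul_of_pos_left (h1 i)
      exact_mod_cast pmu_pos S i
    rw [← Finset.sum_mul, hρsum] at h2
    have h3 : M * (-(c1 * h n)) = -(D / 2 * h n) := by
      rw [hc1]
      field_simp
    change M * (-(c1 * h n)) < _ at h2
    rw [h3] at h2
    have h4 := neg_abs_le A
    have h5 := hh1 n
    nlinarith)
  -- apply the local theorem
  have hCv : ∀ n, Real.exp (-((D + |A| + ∑ i : Pl S, (pmu S i : ℝ) * bb i) * (O i).h n)) ≤ (O i).abv (eval ((O i).y n) v) := by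
    intro n
    rw [← Real.exp_log (hvypos i n), hOh]
    apply Real.exp_le_exp.2
    change _ ≤ ρ i n
    have h1 := hρsum n
    have h2 : ∑ k : Pl S, (pmu S k : ℝ) * ρ k n ≤ (pmu S i : ℝ) * ρ i n + ∑ k : Pl S, (pmu S k : ℝ) * bb k := by
      rw [← Finset.add_sum_erase _ _ (Finset.mem_univ i)]
      have h3 : ∑ k ∈ Finset.univ.erase i, (pmu S k : ℝ) * ρ k n ≤ ∑ k ∈ Finset.univ.erase i, (pmu S k : ℝ) * bb k :=
        Finset.sum_le_sum fun k _ => mul_le_mul_of_nonneg_left (hρle k n) (Nat.cast_nonneg _)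
      have h4 : ∑ k ∈ Finset.univ.erase i, (pmu S k : ℝ) * bb k ≤ ∑ k : Pl S, (pmu S k : ℝ) * bb k :=
        Finset.sum_le_sum_of_subset_of_nonneg (Finset.erase_subset _ _)
          (fun k _ _ => mul_nonneg (Nat.cast_nonneg _) (hbb0 k))
      linarith
    set Sb : ℝ := ∑ k : Pl S, (pmu S k : ℝ) * bb k with hSb
    have hSb0 : 0 ≤ Sb := Finset.sum_nonneg fun k _ => mul_nonneg (Nat.cast_nonneg _) (hbb0 k)
    have h5 := hh1 n
    have h6 := le_abs_self A
    have h7 : -((D + |A| + Sb) * h n) ≤ -A - D * h n - Sb := by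
      have : 0 ≤ |A| := abs_nonneg A
      nlinarith
    by_cases hneg : 0 ≤ ρ i n
    · have : 0 ≤ (D + |A| + Sb) * h n := by
        have := abs_nonneg A
        have := hh1 n
        positivity
      linarith
    · push Not at hneg
      have hmu1 : (1 : ℝ) ≤ pmu S i := by exact_mod_cast pmu_pos S i
      have h8 : (pmu S i : ℝ) * ρ i n ≤ ρ i n := by nlinarith
      linarith
  have hxZ : ∀ n, ∀ r ∈ Z, eval (x n) r = 0 := by
    intro n r hr
    have h1 := hXZ (n0 + n) r hr
    apply (algebraMap K Ω).injective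
    rw [map_zero, ← h1, ← aeval_eq_eval, ← aeval_algebraMap_apply]
    rfl
  refine OrbitData.local_max (O := O i) v hv _ hCv ⟨c1, hc10, hi⟩ Z hZh ?_ ?_
  · intro n r hr
    obtain ⟨m, hm⟩ := hZh r hr
    obtain ⟨b, hb, hb1, _⟩ := hOb i n
    have h1 := hxZ n r hr
    rw [hb1] at h1
    have h2 : eval (b • (O i).y n) r = b ^ m * eval ((O i).y n) r := eval₂_smul_of_homog hm (RingHom.id K) b _
    rw [h2] at h1
    exact (mul_eq_zero.1 h1).resolve_left (pow_ne_zero _ hb)
  · intro T hTh hTp hTZ hTv hTX hTper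
    have hp : ∀ (t : ℕ) (f : MvPolynomial (Fin (N + 1)) K), pullA (O i).F t f = Φ.pull t f := by
      intro t f
      rw [pullA_eq, hOF]
      rfl
    obtain ⟨t, ht, htf⟩ := hTper
    obtain ⟨t', e, he, hf, s0, hs0, hs0'⟩ := hmax (Ideal.span T) ⟨hTp, ⟨T, hTh, rfl⟩, hTX⟩ hTZ hTv ⟨t, ht, by
      intro f m hfm
      rw [← hp]
      exact htf f m hfm⟩
    -- the target ideal is generated by forms
    have hgen : Ideal.span (Φ.pull t' '' (Ideal.span T : Set (MvPolynomial (Fin (N + 1)) K)) ∪ Z)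
        = Ideal.span (Φ.pull t' '' T ∪ Z) := by
      apply le_antisymm
      · rw [Ideal.span_le]
        rintro _ (⟨f, hf', rfl⟩ | hr)
        · have h1 : Ideal.span T ≤ (Ideal.span (Φ.pull t' '' T ∪ Z)).comap (pullA (O i).F t') := by
            rw [Ideal.span_le]
            intro p hpT
            change pullA (O i).F t' p ∈ Ideal.span (Φ.pull t' '' T ∪ Z)
            rw [hp]
            exact Ideal.subset_span (Or.inl ⟨p, hpT, rfl⟩)
          have h2 := h1 hf'
          rw [Ideal.mem_comap, hp] at h2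
          exact h2
        · exact Ideal.subset_span (Or.inr hr)
      · apply Ideal.span_mono
        apply Set.union_subset_union_left
        exact Set.image_mono Ideal.subset_span
    obtain ⟨s, hs2, hs1, hs3⟩ := exists_homog_mult (T' := Φ.pull t' '' T ∪ Z) hTh (by
      rintro _ (⟨f, hf', rfl⟩ | hr)
      · obtain ⟨m, hm⟩ := hTh f hf'
        rw [← hp, hOF]
        exact ⟨_, pullA_homog Φ.homog t' hm⟩
      · exact hZh _ hr) hs0 (by
      intro f hf'
      rw [← hgen]
      exact hs0' f hf')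
    refine ⟨t', e, ?_, ?_, s, hs1, hs2, ?_⟩
    · rw [hOd]
      exact he
    · intro f hf'
      rw [hp]
      exact hf f hf'
    · intro f hf'
      have h1 := hs3 f hf'
      rw [← hgen] at h1
      have h2 : (pullA (O i).F t') '' (Ideal.span T : Set (MvPolynomial (Fin (N + 1)) K)) = Φ.pull t' '' (Ideal.span T : Set (MvPolynomial (Fin (N + 1)) K)) := by
        apply Set.image_congr
        intro f _
        exact hp t' f
      rw [h2]
      exact h1

/-- **Maximal attraction is the only obstruction off a forward invariant hypersurface.** -/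
theorem posDensity_max (hd : 2 ≤ d) (Φ : Morph K N d)
    (Z : Set (MvPolynomial (Fin (N + 1)) K)) (hZh : ∀ r ∈ Z, ∃ m : ℕ, r.IsHomogeneous m)
    (hZinv : ∀ z : Fin (N + 1) → AlgebraicClosure K, (∀ r ∈ Z, aeval z r = 0) → ∀ r ∈ Z, aeval (Φ.lift z) r = 0)
    (w v : MvPolynomial (Fin (N + 1)) K) {Dw D : ℕ}
    (hw : w.IsHomogeneous Dw) (hv : v.IsHomogeneous D) (hD : 1 ≤ D)
    (hinv : ∀ z : Fin (N + 1) → AlgebraicClosure K, (∀ r ∈ Z, aeval z r = 0) → aeval z w = 0 → aeval (Φ.lift z) w = 0)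
    (a : ℕ) (hpre : ∀ z : Fin (N + 1) → AlgebraicClosure K, (∀ r ∈ Z, aeval z r = 0) → aeval z v = 0 →
      aeval (Φ.lift^[a] z) w = 0)
    (hmax : Φ.NoMaxIn Z v) (γ₁ γ₂ : PN K N) (hγZ : ∀ r ∈ Z, eval γ₂.rep r = 0) (hγ : eval γ₂.rep w ≠ 0)
    (H : ∀ m : ℕ, Φ.map^[m] γ₁ ≠ γ₂) : PosDensity (avoidSet Φ γ₁ γ₂) := by
  obtain ⟨c, G, hG⟩ := exists_model Φ
  apply posDensity_of_rigid (by omega) Φ hG γ₂ _ γ₁ H
  intro g hg hper
  obtain ⟨h1, h2⟩ := id hg
  have hpar : Par γ₂.rep (fun i => (g i : K)) := by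
    rw [← mk_eq_iff_par _ _ γ₂.rep_nonzero h1, Projectivization.mk_rep]
    exact h2.symm
  obtain ⟨b, hb⟩ := hpar.exists_smul h1
  have hb0 : b ≠ 0 := by
    rintro rfl
    rw [zero_smul] at hb
    exact γ₂.rep_nonzero hb
  have hsc : ∀ {f : MvPolynomial (Fin (N + 1)) K} {m : ℕ}, f.IsHomogeneous m →
      eval γ₂.rep f = b ^ m * eval (fun i => (g i : K)) f := by
    intro f m hf
    rw [hb]
    exact eval₂_smul_of_homog hf (RingHom.id K) b _
  refine preper_max hd Φ hG Z hZh hZinv w v hw hv hD hinv a hpre hmax g hg.ne_zero hper ?_ ?_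
  · intro r hr
    obtain ⟨m, hm⟩ := hZh r hr
    have h3 := hγZ r hr
    rw [hsc hm] at h3
    exact (mul_eq_zero.1 h3).resolve_left (pow_ne_zero _ hb0)
  · intro h3
    apply hγ
    rw [hsc hw, h3, mul_zero]

end Pool.Agent.Lib.MP_df4dfc_nt
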