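import Mathlib
import Pool.Agent.Lib.MP_df4dfc_nt.DefsTower
import Pool.Agent.Lib.MP_df4dfc_nt.Mn6

set_option autoImplicit false
set_option linter.unusedSectionVars false
set_option linter.style.haveILetI false
set_option linter.unusedVariables false

/-! Towers: reductions for models. -/

namespace Pool.Agent.Lib.MP_df4dfc_nt

open MvPolynomial NumberField IsDedekindDomain

universe u

section Models

variable {K : Type u} [Field K] [NumberField K] {N d : ℕ}

/-- all models are rigid -/
def RigM (Φ : Morph K N d) : Prop :=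
  ∀ (c : K) (G : Fin (N + 1) → MvPolynomial (Fin (N + 1)) (𝓞 K)), Model Φ c G → Rigid G

theorem rigM_base (Φ : Morph K N d) (hN : N ≤ 1) (hd : 2 ≤ d) : RigM Φ := by
  intro c G hG
  rcases Nat.le_one_iff_eq_zero_or_eq_one.1 hN with rfl | rfl
  · intro g hg _
    refine ⟨0, 1, one_pos, ?_⟩
    intro a b
    fin_cases a
    fin_cases b
    rfl
  · exact fun g hg hper => good_P1 G hd hG.homog hG.nz g hg hper

theorem rigM_skew (Φ : Morph K (N + 1) d) (Ψ : Morph K N d) (hd : 2 ≤ d)
    (h : ∀ z : Fin (N + 2) → AlgebraicClosure K, Fin.tail (Φ.lift z) = Ψ.lift (Fin.tail z))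
    (hΨ : RigM Ψ) : RigM Φ := by
  intro c G hG
  set j := algebraMap (𝓞 K) (AlgebraicClosure K) with hj
  have h1 : ∀ z : Fin (N + 2) → AlgebraicClosure K, ∀ i : Fin (N + 1),
      pev j G z i.succ = algebraMap K (AlgebraicClosure K) c * Ψ.lift (Fin.tail z) i := by
    intro z i
    rw [hG.lift, ← h]
    rfl
  have hmod : Model Ψ c (tailG G) := by
    apply model_of_lift hG.1
    intro y
    funext i
    rw [pev_tailG, h1]
    rfl
  have hsk : Skew G := by
    intro i h0
    have h2 : G i.succ = rename Fin.succ (tailG G i) := by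
      apply eq_of_values
      intro z
      rw [eval₂_rename]
      change pev j G z i.succ = pev j (tailG G) (z ∘ Fin.succ) i
      rw [pev_tailG, h1, h1]
      rfl
    rw [h2] at h0
    classical
    have h3 := vars_rename (Fin.succ : Fin (N + 1) → Fin (N + 2)) (tailG G i) h0
    rw [Finset.mem_image] at h3
    obtain ⟨a, _, ha⟩ := h3
    exact Fin.succ_ne_zero a ha
  exact fun g hg hper => good_skew G hsk hd hG.homog hG.nz (hΨ c _ hmod) g hg hper

theorem rigM_hyper (hd : 2 ≤ d) (Φ : Morph K (N + 1) d) (Ψ : Morph K N d) (v : MvPolynomial (Fin (N + 2)) K) {D : ℕ} (a : ℕ)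
    (h : ∀ y : Fin (N + 1) → AlgebraicClosure K,
        Φ.lift (Fin.cons 0 y : Fin (N + 2) → AlgebraicClosure K) = Fin.cons 0 (Ψ.lift y))
    (hv : v.IsHomogeneous D) (hD : 1 ≤ D)
    (hpre : ∀ z : Fin (N + 2) → AlgebraicClosure K, MvPolynomial.aeval z v = 0 → (Φ.lift^[a] z) 0 = 0)
    (hno : Φ.NoMaxIn ∅ v) (hΨ : RigM Ψ) : RigM Φ := by
  intro c G hG g hg hper
  set j := algebraMap (𝓞 K) (AlgebraicClosure K) with hj
  by_cases hg0 : g 0 = 0
  · -- inside the hyperplane
    have hmod : Model Ψ c (tailG G) := by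
      apply model_of_lift hG.1
      intro y
      funext i
      rw [pev_tailG, hG.lift, h]
      rfl
    -- the first form vanishes on the hyperplane
    have hG0 : bind₁ (Fin.cons 0 (fun k => X k) : Fin (N + 2) → MvPolynomial (Fin (N + 1)) (𝓞 K)) (G 0) = 0 := by
      apply eq_of_values
      intro y
      rw [eval₂_zero]
      have h1 := eval₂Hom_bind₁ j y (Fin.cons 0 (fun k => X k) : Fin (N + 2) → MvPolynomial (Fin (N + 1)) (𝓞 K)) (G 0)
      simp only [coe_eval₂Hom] at h1
      rw [h1]
      have h2 : (fun i => eval₂ j y ((Fin.cons 0 (fun k => X k) : Fin (N + 2) → MvPolynomial (Fin (N + 1)) (𝓞 K)) i))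
          = (Fin.cons 0 y : Fin (N + 2) → AlgebraicClosure K) := by
        funext k
        refine Fin.cases ?_ (fun k => ?_) k
        · simp
        · simp
      rw [h2]
      have h3 := congrFun (hG.lift (Fin.cons 0 y)) 0
      rw [h] at h3
      change eval₂ j (Fin.cons 0 y) (G 0) = _ at h3
      rw [h3]
      simp
    have hcons : ∀ y : Fin (N + 1) → 𝓞 K, pevO G (Fin.cons 0 y : Fin (N + 2) → 𝓞 K) = Fin.cons 0 (pevO (tailG G) y) := by
      intro y
      funext k
      refine Fin.cases ?_ (fun k => ?_) k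
      · have h1 := eval₂Hom_bind₁ (RingHom.id (𝓞 K)) y (Fin.cons 0 (fun k => X k) : Fin (N + 2) → MvPolynomial (Fin (N + 1)) (𝓞 K)) (G 0)
        rw [hG0, map_zero] at h1
        simp only [coe_eval₂Hom] at h1
        have h2 : (fun i => eval₂ (RingHom.id (𝓞 K)) y ((Fin.cons 0 (fun k => X k) : Fin (N + 2) → MvPolynomial (Fin (N + 1)) (𝓞 K)) i))
            = (Fin.cons 0 y : Fin (N + 2) → 𝓞 K) := by
          funext k
          refine Fin.cases ?_ (fun k => ?_) k
          · simp
          · simp
        rw [h2] at h1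
        exact h1.symm
      · exact (pev_tailG (RingHom.id (𝓞 K)) G y k).symm
    have hit : ∀ n (y : Fin (N + 1) → 𝓞 K), (pevO G)^[n] (Fin.cons 0 y : Fin (N + 2) → 𝓞 K)
        = Fin.cons 0 ((pevO (tailG G))^[n] y) := by
      intro n
      induction n with
      | zero => intro y; rfl
      | succ n ih =>
        intro y
        rw [Function.iterate_succ_apply, hcons, ih, Function.iterate_succ_apply]
    have hgt : g = Fin.cons 0 (Fin.tail g) := by
      rw [← hg0]
      exact (Fin.cons_self_tail g).symm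
    have ht0 : Fin.tail g ≠ 0 := by
      intro h0
      apply hg
      rw [hgt, h0]
      funext k
      refine Fin.cases ?_ (fun k => ?_) k <;> rfl
    have hpert : PerAE (tailG G) (Fin.tail g) := by
      apply hper.subset
      intro p hp hcon
      apply hp
      obtain ⟨m, hm, hpar⟩ := hcon
      refine ⟨m, hm, ?_⟩
      rw [hgt, hit] at hpar
      exact par_tail hpar
    obtain ⟨m, n, hmn, hpar⟩ := hΨ c _ hmod _ ht0 hpert
    refine ⟨m, n, hmn, ?_⟩
    rw [hgt, hit, hit]
    intro x y
    refine Fin.cases ?_ (fun x => ?_) x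
    · refine Fin.cases ?_ (fun y => ?_) y
      · ring
      · simp
    · refine Fin.cases ?_ (fun y => ?_) y
      · simp
      · simp only [Fin.cons_succ]
        exact hpar x y
  · refine preper_max hd Φ hG ∅ (by simp) (by simp) (X 0) v (isHomogeneous_X K 0) hv hD ?_ a ?_ hno g hg hper (by simp) ?_
    · intro z _ hz
      rw [aeval_X] at hz ⊢
      have hzt : z = Fin.cons 0 (Fin.tail z) := by
        rw [← hz]
        exact (Fin.cons_self_tail z).symm
      rw [hzt, h]
      rfl
    · intro z _ hz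
      rw [aeval_X]
      exact hpre z hz
    · rw [eval_X]
      intro h0
      apply hg0
      apply inj_O
      rw [map_zero]
      exact h0

theorem rigM_root (k : ℕ) (hk : 1 ≤ k) (Φ : Morph K N d) (Ψ : Morph K N (d ^ k))
    (h : ∀ z : Fin (N + 1) → AlgebraicClosure K, Ψ.lift z = Φ.lift^[k] z) (hΨ : RigM Ψ) : RigM Φ := by
  intro c G hG g hg hper
  set j := algebraMap (𝓞 K) (AlgebraicClosure K) with hj
  have hjinj : Function.Injective j := FaithfulSMul.algebraMap_injective (𝓞 K) (AlgebraicClosure K)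
  obtain ⟨e, he⟩ := hG.lift_iter k
  have hmod : Model Ψ (c ^ e) (iterPoly G k) := by
    apply model_of_lift (pow_ne_zero _ hG.1)
    intro z
    rw [pev_iterPoly, he, h, map_pow]
  have hpevO : ∀ (T : Type u) [CommRing T] (φ : 𝓞 K →+* T), pev φ (iterPoly G k) = (pev φ G)^[k] := by
    intro T _ φ
    funext z
    exact pev_iterPoly φ G k z
  have hpO : pevO (iterPoly G k) = (pevO G)^[k] := hpevO _ _
  obtain ⟨s0, hs0, hs0'⟩ := good_ae.{u} j hjinj G hG.nz
  obtain ⟨k1, hk1⟩ := Function.ne_iff.1 hg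
  rw [Pi.zero_apply] at hk1
  have hperk : PerAE (iterPoly G k) g := by
    apply ((finite_bad' (s0 * g k1) (mul_ne_zero hs0 hk1)).union hper).subset
    intro p hp
    by_contra hcon
    rw [Set.mem_union, not_or] at hcon
    obtain ⟨hc1, hc2⟩ := hcon
    simp only [Set.mem_ofPred_eq, not_not] at hc1 hc2
    apply hp
    haveI := p.isMaximal
    letI : Field (𝓞 K ⧸ p.asIdeal) := Ideal.Quotient.field _
    have e0 : redK p s0 ≠ 0 := fun h => hc1 (Ideal.mul_mem_right _ _ (Ideal.Quotient.eq_zero_iff_mem.1 h))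
    have eb : redK p (g k1) ≠ 0 := fun h => hc1 (Ideal.mul_mem_left _ _ (Ideal.Quotient.eq_zero_iff_mem.1 h))
    have hNZ0 : NZ (redK p) G := hs0' _ (redK p) e0
    have hgb : (fun i => redK p (g i)) ≠ 0 := fun h => eb (congrFun h k1)
    obtain ⟨m, hm, hpar⟩ := hc2
    refine ⟨m, hm, ?_⟩
    have hit : ∀ r, (fun i => redK p ((pevO G)^[r] g i)) = (pev (redK p) G)^[r] (fun i => redK p (g i)) := by
      intro r
      rw [pev_iter_map, RingHom.comp_id]
    have hpar0 : Par ((pev (redK p) G)^[0 + m] (fun i => redK p (g i))) ((pev (redK p) G)^[0] (fun i => redK p (g i))) := by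
      rw [zero_add, Function.iterate_zero, id, ← hit]
      exact hpar
    have hpar1 := iter_add_par hG.homog hNZ0 _ hgb 0 m hpar0 0 k le_rfl
    rw [zero_add, Function.iterate_zero, id] at hpar1
    rw [hpO, ← Function.iterate_mul, hit]
    exact hpar1
  obtain ⟨m, n, hmn, hpar⟩ := hΨ _ _ hmod g hg hperk
  rw [hpO, ← Function.iterate_mul, ← Function.iterate_mul] at hpar
  exact ⟨k * m, k * n, Nat.mul_lt_mul_of_pos_left hmn (by omega), hpar⟩

end Models

end Pool.Agent.Lib.MP_df4dfc_nt
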