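import Mathlib
import Pool.Agent.Lib.MP_df4dfc_nt.Iv11

set_option autoImplicit false
set_option linter.unusedSectionVars false
set_option linter.style.haveILetI false
set_option linter.unusedVariables false

/-! Towers: changes of coordinates. -/

namespace Pool.Agent.Lib.MP_df4dfc_nt

open MvPolynomial NumberField IsDedekindDomain Matrix

universe u

section Lin

variable {ι : Type} [Fintype ι] [DecidableEq ι] {R T : Type*} [CommRing R] [CommRing T]

/-- the polynomial map `x ↦ P G(Q x)` -/
noncomputable def conjG (P Q : Matrix ι ι R) (G : ι → MvPolynomial ι R) : ι → MvPolynomial ι R :=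
  fun i => ∑ k, C (P i k) * bind₁ (fun j => ∑ l, C (Q j l) * X l) (G k)

theorem pev_conjG (P Q : Matrix ι ι R) (G : ι → MvPolynomial ι R) (φ : R →+* T) (x : ι → T) :
    pev φ (conjG P Q G) x = (P.map φ).mulVec (pev φ G ((Q.map φ).mulVec x)) := by
  funext i
  change eval₂ φ x (∑ k, C (P i k) * bind₁ (fun j => ∑ l, C (Q j l) * X l) (G k)) = _
  rw [eval₂_sum]
  change _ = ∑ k, (P.map φ) i k * (pev φ G ((Q.map φ).mulVec x)) k
  apply Finset.sum_congr rfl
  intro k _
  rw [eval₂_mul, eval₂_C, eval₂_bind₁', Matrix.map_apply]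
  congr 2
  funext j
  change eval₂ φ x (∑ l, C (Q j l) * X l) = ∑ l, (Q.map φ) j l * x l
  rw [eval₂_sum]
  apply Finset.sum_congr rfl
  intro l _
  rw [eval₂_mul, eval₂_C, eval₂_X, Matrix.map_apply]

theorem Par.mulVec {P : Matrix ι ι T} {u v : ι → T} (h : Par u v) : Par (P.mulVec u) (P.mulVec v) := by
  intro a b
  change (∑ k, P a k * u k) * (∑ l, P b l * v l) = (∑ l, P b l * u l) * (∑ k, P a k * v k)
  rw [Finset.sum_mul_sum, Finset.sum_mul_sum, Finset.sum_comm]
  apply Finset.sum_congr rfl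
  intro l _
  apply Finset.sum_congr rfl
  intro k _
  linear_combination (P a k * P b l) * h k l

theorem Par.smul_cancel {T : Type*} [CommRing T] [IsDomain T] {u v : ι → T} {a b : T} (ha : a ≠ 0) (hb : b ≠ 0)
    (h : Par (a • u) (b • v)) : Par u v := by
  intro x y
  have h1 := h x y
  simp only [Pi.smul_apply, smul_eq_mul] at h1
  apply mul_left_cancel₀ (mul_ne_zero ha hb)
  linear_combination h1

theorem conj_iter {G : ι → MvPolynomial ι R} {d : ℕ} (hG : ∀ i, (G i).IsHomogeneous d) {P Q : Matrix ι ι R} {s : R}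
    (hQP : Q * P = Matrix.scalar ι s) (φ : R →+* T) (n : ℕ) :
    ∃ e : ℕ, ∀ y : ι → T, (pev φ (conjG P Q G))^[n] ((P.map φ).mulVec y)
      = (φ s) ^ e • (P.map φ).mulVec ((pev φ G)^[n] y) := by
  induction n with
  | zero => exact ⟨0, fun y => by simp⟩
  | succ n ih =>
    obtain ⟨e, he⟩ := ih
    refine ⟨(e + 1) * d, ?_⟩
    intro y
    rw [Function.iterate_succ_apply', he, pev_conjG, Matrix.mulVec_smul, Matrix.mulVec_mulVec,
      ← RingHom.mapMatrix_apply, ← RingHom.mapMatrix_apply, ← map_mul, hQP]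
    have h1 : (φ.mapMatrix (Matrix.scalar ι s)) = Matrix.scalar ι (φ s) := by
      ext a b
      rw [RingHom.mapMatrix_apply, Matrix.map_apply, Matrix.scalar_apply, Matrix.scalar_apply,
        Matrix.diagonal_apply, Matrix.diagonal_apply]
      split_ifs
      · rfl
      · exact map_zero φ
    rw [h1]
    have h2 : ∀ z : ι → T, (Matrix.scalar ι (φ s)).mulVec z = φ s • z := by
      intro z
      funext a
      rw [Matrix.scalar_apply, Matrix.mulVec_diagonal]
      rfl
    rw [h2, smul_smul, ← pow_succ, pev_smul hG, Matrix.mulVec_smul, Function.iterate_succ_apply', ← pow_mul]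

end Lin

section Main

variable {K : Type u} [Field K] [NumberField K] {N d : ℕ}

/-- an integral multiple of a matrix -/
theorem exists_int_matrix {ι : Type} [Fintype ι] (M : Matrix ι ι K) :
    ∃ (s : 𝓞 K) (Q : Matrix ι ι (𝓞 K)), s ≠ 0 ∧ Q.map (algebraMap (𝓞 K) K) = (s : K) • M := by
  obtain ⟨b, hb⟩ := IsLocalization.exist_integer_multiples_of_finite (nonZeroDivisors (𝓞 K))
    (fun x : ι × ι => M x.1 x.2)
  choose Q hQ using hb
  refine ⟨b, fun i j => Q (i, j), nonZeroDivisors.ne_zero b.2, ?_⟩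
  ext i j
  have h1 := hQ (i, j)
  rw [Algebra.smul_def] at h1
  exact h1

theorem rigM_conj (Φ Ψ : Morph K N d) (M : Matrix (Fin (N + 1)) (Fin (N + 1)) K) (c : K) (hM : M.det ≠ 0) (hc : c ≠ 0)
    (h : ∀ z : Fin (N + 1) → AlgebraicClosure K,
        Φ.lift ((M.map (algebraMap K (AlgebraicClosure K))).mulVec z)
          = c • (M.map (algebraMap K (AlgebraicClosure K))).mulVec (Ψ.lift z))
    (hΨ : RigM Ψ) : RigM Φ := by
  intro cG G hG g hg hper
  set Ω := AlgebraicClosure K with hΩ
  set j := algebraMap (𝓞 K) Ω with hj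
  set jK := algebraMap K Ω with hjK
  have hjinj : Function.Injective j := FaithfulSMul.algebraMap_injective (𝓞 K) Ω
  have hjcomp : j = jK.comp (algebraMap (𝓞 K) K) := rfl
  obtain ⟨t, Q, ht, hQ⟩ := exists_int_matrix M
  obtain ⟨s, P, hs, hP⟩ := exists_int_matrix M⁻¹
  have hMu : IsUnit M.det := isUnit_iff_ne_zero.2 hM
  have hQP : Q * P = Matrix.scalar (Fin (N + 1)) (t * s) := by
    have h1 : (algebraMap (𝓞 K) K).mapMatrix (Q * P) = (algebraMap (𝓞 K) K).mapMatrix (Matrix.scalar (Fin (N + 1)) (t * s)) := by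
      rw [map_mul, RingHom.mapMatrix_apply, RingHom.mapMatrix_apply, hQ, hP, Matrix.smul_mul, Matrix.mul_smul,
        Matrix.mul_nonsing_inv _ hMu, smul_smul]
      ext a b
      rw [RingHom.mapMatrix_apply, Matrix.map_apply, Matrix.scalar_apply, Matrix.diagonal_apply, Matrix.smul_apply,
        Matrix.one_apply]
      split_ifs
      · simp
      · simp
    refine Matrix.ext fun a b => ?_
    have h2 := congrFun (congrFun h1 a) b
    rw [RingHom.mapMatrix_apply, RingHom.mapMatrix_apply, Matrix.map_apply, Matrix.map_apply] at h2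
    exact inj_O h2
  have hts : t * s ≠ 0 := mul_ne_zero ht hs
  -- the conjugated model
  have hQΩ : Q.map j = (j t) • M.map jK := by
    ext a b
    have h1 := congrFun (congrFun hQ a) b
    change j (Q a b) = j t * jK (M a b)
    change (algebraMap (𝓞 K) K) (Q a b) = (algebraMap (𝓞 K) K t) * M a b at h1
    rw [hjcomp, RingHom.comp_apply, RingHom.comp_apply, h1, map_mul]
  have hPMΩ : ∀ y : Fin (N + 1) → Ω, (P.map j).mulVec ((M.map jK).mulVec y) = (j s) • y := by
    intro y
    have h1 : P.map j = (j s) • (M⁻¹).map jK := by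
      ext a b
      have h1 := congrFun (congrFun hP a) b
      change j (P a b) = j s * jK (M⁻¹ a b)
      change (algebraMap (𝓞 K) K) (P a b) = (algebraMap (𝓞 K) K s) * M⁻¹ a b at h1
      rw [hjcomp, RingHom.comp_apply, RingHom.comp_apply, h1, map_mul]
    rw [h1, Matrix.smul_mulVec, Matrix.mulVec_mulVec, ← RingHom.mapMatrix_apply, ← RingHom.mapMatrix_apply,
      ← map_mul, Matrix.nonsing_inv_mul _ hMu, map_one, Matrix.one_mulVec]
  have hmod : Model Ψ ((s : K) * (cG * ((t : K) ^ d * c))) (conjG P Q G) := by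
    apply model_of_lift
    · have h1 : (s : K) ≠ 0 := fun h0 => hs (RingOfIntegers.coe_injective (by rw [map_zero]; exact h0))
      have h2 : (t : K) ≠ 0 := fun h0 => ht (RingOfIntegers.coe_injective (by rw [map_zero]; exact h0))
      exact mul_ne_zero h1 (mul_ne_zero hG.1 (mul_ne_zero (pow_ne_zero _ h2) hc))
    · intro z
      rw [pev_conjG, hQΩ, Matrix.smul_mulVec, pev_smul hG.homog, hG.lift, h, Matrix.mulVec_smul, Matrix.mulVec_smul]
      rw [show c • (M.map jK).mulVec (Ψ.lift z) = (jK c) • (M.map jK).mulVec (Ψ.lift z) from by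
        funext a
        exact Algebra.smul_def c (((M.map jK).mulVec (Ψ.lift z)) a)]
      rw [Matrix.mulVec_smul, hPMΩ, smul_smul, smul_smul, smul_smul]
      congr 1
      have e1 : jK (s : K) = j s := rfl
      have e2 : jK (t : K) = j t := rfl
      rw [map_mul, map_mul, map_mul, map_pow, e1, e2]
      ring
  -- the target
  set g' : Fin (N + 1) → 𝓞 K := P.mulVec g with hg'
  have hQg : Q.mulVec g' = (t * s) • g := by
    rw [hg', Matrix.mulVec_mulVec, hQP]
    funext a
    rw [Matrix.scalar_apply, Matrix.mulVec_diagonal]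
    rfl
  have hg'0 : g' ≠ 0 := by
    intro h0
    rw [h0, Matrix.mulVec_zero] at hQg
    apply hg
    funext a
    have h1 := congrFun hQg a
    simp only [Pi.zero_apply, Pi.smul_apply, smul_eq_mul] at h1
    exact (mul_eq_zero.1 h1.symm).resolve_left hts
  have hidP : P.map (RingHom.id (𝓞 K)) = P := by
    ext a b
    rfl
  have hiter : ∀ n, ∃ e : ℕ, (pevO (conjG P Q G))^[n] g' = (t * s) ^ e • P.mulVec ((pevO G)^[n] g) := by
    intro n
    obtain ⟨e, he⟩ := conj_iter hG.homog hQP (RingHom.id (𝓞 K)) n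
    refine ⟨e, ?_⟩
    have h1 := he g
    rw [hidP] at h1
    exact h1
  have hper' : PerAE (conjG P Q G) g' := by
    apply hper.subset
    intro p hp hcon
    apply hp
    obtain ⟨m, hm, hpar⟩ := hcon
    refine ⟨m, hm, ?_⟩
    obtain ⟨e, he⟩ := hiter m
    rw [he]
    have h1 : (fun i => redK p (((t * s) ^ e • P.mulVec ((pevO G)^[m] g)) i))
        = (redK p ((t * s) ^ e)) • (P.map (redK p)).mulVec (fun i => redK p ((pevO G)^[m] g i)) := by
      funext i
      rw [Pi.smul_apply, smul_eq_mul, map_mul, Pi.smul_apply, smul_eq_mul]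
      congr 1
      change redK p (∑ k, P i k * ((pevO G)^[m] g) k) = ∑ k, (P.map (redK p)) i k * redK p ((pevO G)^[m] g k)
      rw [map_sum]
      apply Finset.sum_congr rfl
      intro k _
      rw [map_mul, Matrix.map_apply]
    have h2 : (fun i => redK p (g' i)) = (P.map (redK p)).mulVec (fun i => redK p (g i)) := by
      funext i
      change redK p (∑ k, P i k * g k) = ∑ k, (P.map (redK p)) i k * redK p (g k)
      rw [map_sum]
      apply Finset.sum_congr rfl
      intro k _
      rw [map_mul, Matrix.map_apply]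
    rw [h1, h2]
    exact Par.smul_left _ (Par.mulVec hpar)
  obtain ⟨m, n, hmn, hpar⟩ := hΨ _ _ hmod g' hg'0 hper'
  refine ⟨m, n, hmn, ?_⟩
  obtain ⟨e1, he1⟩ := hiter m
  obtain ⟨e2, he2⟩ := hiter n
  rw [he1, he2] at hpar
  have h3 := Par.smul_cancel (pow_ne_zero _ hts) (pow_ne_zero _ hts) hpar
  have h4 := Par.mulVec (P := Q) h3
  rw [Matrix.mulVec_mulVec, Matrix.mulVec_mulVec, hQP] at h4
  have h5 : ∀ z : Fin (N + 1) → 𝓞 K, (Matrix.scalar (Fin (N + 1)) (t * s)).mulVec z = (t * s) • z := by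
    intro z
    funext a
    rw [Matrix.scalar_apply, Matrix.mulVec_diagonal]
    rfl
  rw [h5, h5] at h4
  exact Par.smul_cancel hts hts h4

end Main

end Pool.Agent.Lib.MP_df4dfc_nt
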