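import Mathlib
import Pool.Agent.Lib.MP_df4dfc_nt.Iv12

set_option autoImplicit false
set_option linter.unusedSectionVars false
set_option linter.style.haveILetI false
set_option linter.unusedVariables false

/-! Periodicity modulo almost all primes and semiconjugacies. -/

namespace Pool.Agent.Lib.MP_df4dfc_nt

open MvPolynomial NumberField IsDedekindDomain

universe u

section Sc

variable {R T : Type*} [CommRing R] [CommRing T] {ι κ : Type}

/-- values of forms of one degree at multiples of a vector -/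
theorem val_smul {p : κ → MvPolynomial ι R} {q : ℕ} (hp : ∀ k, (p k).IsHomogeneous q) (φ : R →+* T) (c : T) (x : ι → T) :
    (fun k => eval₂ φ (c • x) (p k)) = c ^ q • (fun k => eval₂ φ x (p k)) := by
  funext k
  simp only [Pi.smul_apply, smul_eq_mul]
  exact eval₂_smul_of_homog (hp k) φ c x

/-- iterating a semiconjugacy with scalars -/
theorem sc_iter {G : ι → MvPolynomial ι R} {H : κ → MvPolynomial κ R} {d : ℕ} (hH : ∀ i, (H i).IsHomogeneous d)
    {p : κ → MvPolynomial ι R} {q : ℕ} (hp : ∀ k, (p k).IsHomogeneous q) {b1 b2 : R}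
    (hrel : ∀ (T : Type u) [CommRing T] (φ : R →+* T) (z : ι → T) (k : κ),
      φ b1 * eval₂ φ (pev φ G z) (p k) = φ b2 * pev φ H (fun k => eval₂ φ z (p k)) k)
    {T : Type u} [CommRing T] (φ : R →+* T) (n : ℕ) (z : ι → T) :
    ∃ e1 e2 : ℕ, φ b1 ^ e1 • (fun k => eval₂ φ ((pev φ G)^[n] z) (p k))
      = φ b2 ^ e2 • (pev φ H)^[n] (fun k => eval₂ φ z (p k)) := by
  induction n with
  | zero => exact ⟨0, 0, by simp⟩
  | succ n ih =>
    obtain ⟨e1, e2, he⟩ := ih
    refine ⟨1 + e1 * d, 1 + e2 * d, ?_⟩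
    rw [Function.iterate_succ_apply', Function.iterate_succ_apply']
    have h1 : (fun k => φ b1 * eval₂ φ (pev φ G ((pev φ G)^[n] z)) (p k))
        = φ b2 • pev φ H (fun k => eval₂ φ ((pev φ G)^[n] z) (p k)) := by
      funext k
      rw [hrel T φ ((pev φ G)^[n] z) k]
      rfl
    have h2 : pev φ H (φ b1 ^ e1 • (fun k => eval₂ φ ((pev φ G)^[n] z) (p k)))
        = pev φ H (φ b2 ^ e2 • (pev φ H)^[n] (fun k => eval₂ φ z (p k))) := by rw [he]
    rw [pev_smul hH, pev_smul hH, ← pow_mul, ← pow_mul] at h2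
    calc φ b1 ^ (1 + e1 * d) • (fun k => eval₂ φ (pev φ G ((pev φ G)^[n] z)) (p k))
        = φ b1 ^ (e1 * d) • (fun k => φ b1 * eval₂ φ (pev φ G ((pev φ G)^[n] z)) (p k)) := by
          funext k
          simp only [Pi.smul_apply, smul_eq_mul, pow_add, pow_one]
          ring
      _ = φ b1 ^ (e1 * d) • φ b2 • pev φ H (fun k => eval₂ φ ((pev φ G)^[n] z) (p k)) := by rw [h1]
      _ = φ b2 • (φ b1 ^ (e1 * d) • pev φ H (fun k => eval₂ φ ((pev φ G)^[n] z) (p k))) := smul_comm _ _ _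
      _ = φ b2 • (φ b2 ^ (e2 * d) • pev φ H ((pev φ H)^[n] (fun k => eval₂ φ z (p k)))) := by rw [h2]
      _ = _ := by rw [smul_smul, pow_add, pow_one]

end Sc

section PerAE

variable {K : Type u} [Field K] [NumberField K] {ι κ : Type} [Fintype ι] [Fintype κ]

/-- **Pushing forward.** If `p ∘ G ~ H ∘ p` and `g` is periodic for `G` modulo almost all primes, then
so is `p(g)` for `H`. -/
theorem PerAE.push {G : ι → MvPolynomial ι (𝓞 K)} {H : κ → MvPolynomial κ (𝓞 K)} {d' : ℕ}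
    (hH : ∀ i, (H i).IsHomogeneous d') {p : κ → MvPolynomial ι (𝓞 K)} {q : ℕ} (hq : 1 ≤ q) (hp : ∀ k, (p k).IsHomogeneous q)
    {b1 b2 : 𝓞 K} (hb1 : b1 ≠ 0) (hb2 : b2 ≠ 0)
    (hrel : ∀ (T : Type u) [CommRing T] (φ : 𝓞 K →+* T) (z : ι → T) (k : κ),
      φ b1 * eval₂ φ (pev φ G z) (p k) = φ b2 * pev φ H (fun k => eval₂ φ z (p k)) k)
    {g : ι → 𝓞 K} (hg : (fun k => eval g (p k)) ≠ 0) (hper : PerAE G g) : PerAE H (fun k => eval g (p k)) := by
  obtain ⟨k0, hk0⟩ := Function.ne_iff.1 hg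
  rw [Pi.zero_apply] at hk0
  apply ((finite_bad' (b1 * b2 * eval g (p k0)) (mul_ne_zero (mul_ne_zero hb1 hb2) hk0)).union hper).subset
  intro P hP
  by_contra hcon
  rw [Set.mem_union, not_or] at hcon
  obtain ⟨hc1, hc2⟩ := hcon
  simp only [Set.mem_ofPred_eq, not_not] at hc1 hc2
  apply hP
  haveI := P.isMaximal
  letI : Field (𝓞 K ⧸ P.asIdeal) := Ideal.Quotient.field _
  have e1 : redK P b1 ≠ 0 := fun h => hc1 (Ideal.mul_mem_right _ _ (Ideal.mul_mem_right _ _ (Ideal.Quotient.eq_zero_iff_mem.1 h)))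
  have e2 : redK P b2 ≠ 0 := fun h => hc1 (Ideal.mul_mem_right _ _ (Ideal.mul_mem_left _ _ (Ideal.Quotient.eq_zero_iff_mem.1 h)))
  have e3 : redK P (eval g (p k0)) ≠ 0 := fun h => hc1 (Ideal.mul_mem_left _ _ (Ideal.Quotient.eq_zero_iff_mem.1 h))
  have hpg : (fun k => redK P (eval g (p k))) = (fun k => eval₂ (redK P) (fun i => redK P (g i)) (p k)) := by
    funext k
    exact eval₂_eval _ _ _
  have hgb : (fun i => redK P (g i)) ≠ 0 := by
    intro h0
    apply e3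
    have h1 := congrFun hpg k0
    rw [h1, h0]
    have h2 := congrFun (val_smul hp (redK P) 0 (0 : ι → 𝓞 K ⧸ P.asIdeal)) k0
    rw [smul_zero, zero_pow (by omega), zero_smul] at h2
    exact h2
  obtain ⟨m, hm, hpar⟩ := hc2
  refine ⟨m, hm, ?_⟩
  have hitG : (fun i => redK P ((pevO G)^[m] g i)) = (pev (redK P) G)^[m] (fun i => redK P (g i)) := by
    rw [pev_iter_map, RingHom.comp_id]
  have hitH : (fun i => redK P ((pevO H)^[m] (fun k => eval g (p k)) i)) = (pev (redK P) H)^[m] (fun k => redK P (eval g (p k))) := by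
    rw [pev_iter_map, RingHom.comp_id]
  obtain ⟨f1, f2, hf⟩ := sc_iter hH hp hrel (redK P) m (fun i => redK P (g i))
  rw [hitG] at hpar
  rw [hitH, hpg]
  -- the value at the iterate is a multiple of the value at the point
  have h1 : Par (fun k => eval₂ (redK P) ((pev (redK P) G)^[m] (fun i => redK P (g i))) (p k))
      (fun k => eval₂ (redK P) (fun i => redK P (g i)) (p k)) := by
    obtain ⟨c, hc⟩ := hpar.exists_smul hgb
    rw [hc, val_smul hp]
    exact (Par.refl _).smul_left _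
  have h2 : (pev (redK P) H)^[m] (fun k => eval₂ (redK P) (fun i => redK P (g i)) (p k))
      = ((redK P b2 ^ f2)⁻¹ * redK P b1 ^ f1) • (fun k => eval₂ (redK P) ((pev (redK P) G)^[m] (fun i => redK P (g i))) (p k)) := by
    rw [mul_smul, hf, smul_smul, inv_mul_cancel₀ (pow_ne_zero _ e2), one_smul]
  rw [h2]
  exact h1.smul_left _

/-- **Pulling back along an injective parametrization.** -/
theorem PerAE.pull {G : ι → MvPolynomial ι (𝓞 K)} {H : κ → MvPolynomial κ (𝓞 K)} {d l : ℕ} (hd : 1 ≤ d)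
    (hG : ∀ i, (G i).IsHomogeneous d) (hGNZ : NZ (algebraMap (𝓞 K) (AlgebraicClosure K)) G)
    (hHNZ : NZ (algebraMap (𝓞 K) (AlgebraicClosure K)) H)
    {p : ι → MvPolynomial κ (𝓞 K)} {q : ℕ} (hq : 1 ≤ q) (hp : ∀ k, (p k).IsHomogeneous q) {b1 b2 : 𝓞 K} (hb1 : b1 ≠ 0) (hb2 : b2 ≠ 0)
    (hrel : ∀ (T : Type u) [CommRing T] (φ : 𝓞 K →+* T) (u : κ → T) (i : ι),
      φ b1 * eval₂ φ (pev φ H u) (p i) = φ b2 * (pev φ G)^[l] (fun i => eval₂ φ u (p i)) i)
    {u0 : κ → 𝓞 K} {s : 𝓞 K} (hs : s ≠ 0) (hpu : (fun i => eval u0 (p i)) ≠ 0)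
    (hinj : ∀ (k : Type u) [Field k] (φ : 𝓞 K →+* k), φ s ≠ 0 → ∀ u : κ → k, u ≠ 0 →
      Par (fun i => eval₂ φ u (p i)) (fun i => eval₂ φ (fun a => φ (u0 a)) (p i)) → Par u (fun a => φ (u0 a)))
    (hper : PerAE G (fun i => eval u0 (p i))) : PerAE H u0 := by
  have hjinj : Function.Injective (algebraMap (𝓞 K) (AlgebraicClosure K)) := FaithfulSMul.algebraMap_injective (𝓞 K) (AlgebraicClosure K)
  obtain ⟨s0, hs0, hs0'⟩ := good_ae.{u} (algebraMap (𝓞 K) (AlgebraicClosure K)) hjinj G hGNZ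
  obtain ⟨s1, hs1, hs1'⟩ := good_ae.{u} (algebraMap (𝓞 K) (AlgebraicClosure K)) hjinj H hHNZ
  obtain ⟨i0, hi0⟩ := Function.ne_iff.1 hpu
  rw [Pi.zero_apply] at hi0
  apply ((finite_bad' (b1 * b2 * eval u0 (p i0) * s * s0 * s1) (mul_ne_zero (mul_ne_zero (mul_ne_zero
    (mul_ne_zero (mul_ne_zero hb1 hb2) hi0) hs) hs0) hs1)).union hper).subset
  intro P hP
  by_contra hcon
  rw [Set.mem_union, not_or] at hcon
  obtain ⟨hc1, hc2⟩ := hcon
  simp only [Set.mem_ofPred_eq, not_not] at hc1 hc2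
  apply hP
  haveI := P.isMaximal
  letI : Field (𝓞 K ⧸ P.asIdeal) := Ideal.Quotient.field _
  have hc3 : redK P (b1 * b2 * eval u0 (p i0) * s * s0 * s1) ≠ 0 := fun h => hc1 (Ideal.Quotient.eq_zero_iff_mem.1 h)
  simp only [map_mul, mul_ne_zero_iff] at hc3
  obtain ⟨⟨⟨⟨⟨e1, e2⟩, e3⟩, e4⟩, e5⟩, e6⟩ := hc3
  have hNZG := hs0' _ (redK P) e5
  have hNZH := hs1' _ (redK P) e6
  have hpu' : (fun i => redK P (eval u0 (p i))) = (fun i => eval₂ (redK P) (fun a => redK P (u0 a)) (p i)) := by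
    funext i
    exact eval₂_eval _ _ _
  have hx0 : (fun i => eval₂ (redK P) (fun a => redK P (u0 a)) (p i)) ≠ 0 := by
    intro h0
    apply e3
    have h1 := congrFun hpu' i0
    rw [h1]
    exact congrFun h0 i0
  have hu0 : (fun a => redK P (u0 a)) ≠ 0 := by
    intro h0
    apply hx0
    funext i
    rw [h0]
    have h2 := congrFun (val_smul hp (redK P) 0 (0 : κ → 𝓞 K ⧸ P.asIdeal)) i
    rw [smul_zero, zero_pow (by omega), zero_smul] at h2
    exact h2
  obtain ⟨m, hm, hpar⟩ := hc2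
  refine ⟨m, hm, ?_⟩
  have hitG : (fun i => redK P ((pevO G)^[m] (fun i => eval u0 (p i)) i)) = (pev (redK P) G)^[m] (fun i => redK P (eval u0 (p i))) := by
    rw [pev_iter_map, RingHom.comp_id]
  have hitH : (fun i => redK P ((pevO H)^[m] u0 i)) = (pev (redK P) H)^[m] (fun k => redK P (u0 k)) := by
    rw [pev_iter_map, RingHom.comp_id]
  rw [hitG, hpu'] at hpar
  rw [hitH]
  have hpar0 : Par ((pev (redK P) G)^[0 + m] (fun i => eval₂ (redK P) (fun a => redK P (u0 a)) (p i)))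
      ((pev (redK P) G)^[0] (fun i => eval₂ (redK P) (fun a => redK P (u0 a)) (p i))) := by
    rw [zero_add, Function.iterate_zero, id]
    exact hpar
  have hpar1 := iter_add_par hG hNZG _ hx0 0 m hpar0 0 l le_rfl
  rw [zero_add, Function.iterate_zero, id] at hpar1
  obtain ⟨f1, f2, hf⟩ := sc_iter (G := H) (H := iterPoly G l) (d := d ^ l) (iterPoly_homog hG l) hp (b1 := b1) (b2 := b2) (by
    intro T _ φ z k
    rw [pev_iterPoly]
    exact hrel T φ z k) (redK P) m (fun a => redK P (u0 a))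
  have hfun : pev (redK P) (iterPoly G l) = (pev (redK P) G)^[l] := by
    funext z
    exact pev_iterPoly _ _ _ _
  rw [hfun, ← Function.iterate_mul] at hf
  apply hinj _ (redK P) e4 _ (hNZH.iter m hu0)
  have h3 : Par (fun i => eval₂ (redK P) ((pev (redK P) H)^[m] (fun a => redK P (u0 a))) (p i))
      ((pev (redK P) G)^[l * m] (fun i => eval₂ (redK P) (fun a => redK P (u0 a)) (p i))) := by
    have h4 : (fun i => eval₂ (redK P) ((pev (redK P) H)^[m] (fun a => redK P (u0 a))) (p i))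
        = ((redK P b1 ^ f1)⁻¹ * redK P b2 ^ f2) • ((pev (redK P) G)^[l * m] (fun i => eval₂ (redK P) (fun a => redK P (u0 a)) (p i))) := by
      rw [mul_smul, ← hf, smul_smul, inv_mul_cancel₀ (pow_ne_zero _ e1), one_smul]
    rw [h4]
    exact (Par.refl _).smul_left _
  exact h3.trans hpar1 (hNZG.iter _ hx0)

/-- preperiodicity of the parameter gives preperiodicity of the point -/
theorem preper_of_param {G : ι → MvPolynomial ι (𝓞 K)} {H : κ → MvPolynomial κ (𝓞 K)} {d D l : ℕ} (hl : 1 ≤ l)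
    (hG : ∀ i, (G i).IsHomogeneous d) (hHNZ : NZ (algebraMap (𝓞 K) (AlgebraicClosure K)) H)
    {p : ι → MvPolynomial κ (𝓞 K)} {q : ℕ} (hp : ∀ k, (p k).IsHomogeneous q) {b1 b2 : 𝓞 K} (hb1 : b1 ≠ 0) (hb2 : b2 ≠ 0)
    (hrel : ∀ (T : Type u) [CommRing T] (φ : 𝓞 K →+* T) (u : κ → T) (i : ι),
      φ b1 * eval₂ φ (pev φ H u) (p i) = φ b2 * (pev φ G)^[l] (fun i => eval₂ φ u (p i)) i)
    {u0 : κ → 𝓞 K} (hu0 : u0 ≠ 0) {m n : ℕ} (hmn : m < n) (h : Par ((pevO H)^[m] u0) ((pevO H)^[n] u0)) :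
    ∃ m n : ℕ, m < n ∧ Par ((pevO G)^[m] (fun i => eval u0 (p i))) ((pevO G)^[n] (fun i => eval u0 (p i))) := by
  refine ⟨l * m, l * n, Nat.mul_lt_mul_of_pos_left hmn (by omega), ?_⟩
  have hNZ1 : NZ (RingHom.id (𝓞 K)) H := NZ.of_injective (ψ := algebraMap (𝓞 K) (AlgebraicClosure K))
    (by rw [RingHom.comp_id]; exact hHNZ) (FaithfulSMul.algebraMap_injective (𝓞 K) (AlgebraicClosure K))
  have key : ∀ r, ∃ f1 f2 : ℕ, b1 ^ f1 • (fun i => eval ((pevO H)^[r] u0) (p i))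
      = b2 ^ f2 • (pevO G)^[l * r] (fun i => eval u0 (p i)) := by
    intro r
    obtain ⟨f1, f2, hf⟩ := sc_iter (G := H) (H := iterPoly G l) (d := d ^ l) (iterPoly_homog hG l) hp (b1 := b1) (b2 := b2) (by
      intro T _ φ z k
      rw [pev_iterPoly]
      exact hrel T φ z k) (RingHom.id (𝓞 K)) r u0
    have hfun : pev (RingHom.id (𝓞 K)) (iterPoly G l) = (pev (RingHom.id (𝓞 K)) G)^[l] := by
      funext z
      exact pev_iterPoly _ _ _ _
    rw [hfun, ← Function.iterate_mul] at hf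
    exact ⟨f1, f2, hf⟩
  obtain ⟨f1, f2, hf⟩ := key m
  obtain ⟨g1, g2, hg⟩ := key n
  -- the values at parallel vectors are parallel
  have hpp : Par (fun i => eval ((pevO H)^[m] u0) (p i)) (fun i => eval ((pevO H)^[n] u0) (p i)) := by
    have hne := hNZ1.iter n hu0
    obtain ⟨k, hk⟩ := Function.ne_iff.1 hne
    rw [Pi.zero_apply] at hk
    have h1 : (pevO H)^[n] u0 k • (pevO H)^[m] u0 = (pevO H)^[m] u0 k • (pevO H)^[n] u0 := by
      funext i
      simp only [Pi.smul_apply, smul_eq_mul]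
      have := h k i
      linear_combination -this
    have h2 := val_smul hp (RingHom.id (𝓞 K)) ((pevO H)^[n] u0 k) ((pevO H)^[m] u0)
    have h3 := val_smul hp (RingHom.id (𝓞 K)) ((pevO H)^[m] u0 k) ((pevO H)^[n] u0)
    rw [h1, h3] at h2
    intro a b
    have h4 := congrFun h2 a
    have h5 := congrFun h2 b
    simp only [Pi.smul_apply, smul_eq_mul] at h4 h5
    change (eval ((pevO H)^[m] u0) (p a)) * (eval ((pevO H)^[n] u0) (p b)) = (eval ((pevO H)^[m] u0) (p b)) * (eval ((pevO H)^[n] u0) (p a))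
    apply mul_left_cancel₀ (pow_ne_zero q hk)
    change _ * eval ((pevO H)^[n] u0) (p a) = _ * eval ((pevO H)^[m] u0) (p a) at h4
    change _ * eval ((pevO H)^[n] u0) (p b) = _ * eval ((pevO H)^[m] u0) (p b) at h5
    linear_combination (-(eval ((pevO H)^[n] u0) (p b))) * h4 + (eval ((pevO H)^[n] u0) (p a)) * h5
  intro a b
  have h1 := hpp a b
  have h2 := congrFun hf a
  have h3 := congrFun hf b
  have h4 := congrFun hg a
  have h5 := congrFun hg b
  simp only [Pi.smul_apply, smul_eq_mul] at h2 h3 h4 h5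
  apply mul_left_cancel₀ (mul_ne_zero (pow_ne_zero f2 hb2) (pow_ne_zero g2 hb2))
  calc b2 ^ f2 * b2 ^ g2 * ((pevO G)^[l * m] (fun i => eval u0 (p i)) a * (pevO G)^[l * n] (fun i => eval u0 (p i)) b)
      = (b2 ^ f2 * (pevO G)^[l * m] (fun i => eval u0 (p i)) a) * (b2 ^ g2 * (pevO G)^[l * n] (fun i => eval u0 (p i)) b) := by ring
    _ = (b1 ^ f1 * eval ((pevO H)^[m] u0) (p a)) * (b1 ^ g1 * eval ((pevO H)^[n] u0) (p b)) := by rw [h2, h5]
    _ = (b1 ^ f1 * b1 ^ g1) * (eval ((pevO H)^[m] u0) (p a) * eval ((pevO H)^[n] u0) (p b)) := by ring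
    _ = (b1 ^ f1 * b1 ^ g1) * (eval ((pevO H)^[m] u0) (p b) * eval ((pevO H)^[n] u0) (p a)) := by rw [h1]
    _ = (b1 ^ f1 * eval ((pevO H)^[m] u0) (p b)) * (b1 ^ g1 * eval ((pevO H)^[n] u0) (p a)) := by ring
    _ = (b2 ^ f2 * (pevO G)^[l * m] (fun i => eval u0 (p i)) b) * (b2 ^ g2 * (pevO G)^[l * n] (fun i => eval u0 (p i)) a) := by rw [h3, h4]
    _ = _ := by ring

end PerAE

end Pool.Agent.Lib.MP_df4dfc_nt
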