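import Mathlib
import Pool.Agent.Lib.MP_df4dfc_nt.Fb1

set_option autoImplicit false
set_option linter.unusedSectionVars false
set_option linter.style.haveILetI false
set_option linter.unusedVariables false

/-! Semiconjugacies of morphisms and of their models. -/

namespace Pool.Agent.Lib.MP_df4dfc_nt

open MvPolynomial NumberField IsDedekindDomain

universe u

section Rel

variable {K : Type u} [Field K] [NumberField K]

theorem clear_scalars {σ κ : Type} (A B : κ → MvPolynomial σ (𝓞 K)) {α β : K} (hα : α ≠ 0) (hβ : β ≠ 0)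
    (h : ∀ (u : σ → AlgebraicClosure K) (i : κ),
      algebraMap K (AlgebraicClosure K) α * eval₂ (algebraMap (𝓞 K) (AlgebraicClosure K)) u (A i)
        = algebraMap K (AlgebraicClosure K) β * eval₂ (algebraMap (𝓞 K) (AlgebraicClosure K)) u (B i)) :
    ∃ b1 b2 : 𝓞 K, b1 ≠ 0 ∧ b2 ≠ 0 ∧ ∀ i, C b1 * A i = C b2 * B i := by
  obtain ⟨y, hy⟩ := IsLocalization.exist_integer_multiples_of_finite (nonZeroDivisors (𝓞 K)) (![α, β] : Fin 2 → K)
  obtain ⟨b1, hb1⟩ := hy 0
  obtain ⟨b2, hb2⟩ := hy 1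
  have hy0 : (algebraMap (𝓞 K) K (y : 𝓞 K)) ≠ 0 := by
    intro h0
    exact nonZeroDivisors.coe_ne_zero y (inj_O (by rw [h0, map_zero]))
  have e1 : algebraMap (𝓞 K) K b1 = algebraMap (𝓞 K) K y * α := by
    rw [hb1, Algebra.smul_def]
    rfl
  have e2 : algebraMap (𝓞 K) K b2 = algebraMap (𝓞 K) K y * β := by
    rw [hb2, Algebra.smul_def]
    rfl
  refine ⟨b1, b2, ?_, ?_, ?_⟩
  · rintro rfl
    rw [map_zero] at e1
    exact mul_ne_zero hy0 hα e1.symm
  · rintro rfl
    rw [map_zero] at e2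
    exact mul_ne_zero hy0 hβ e2.symm
  · intro i
    apply eq_of_values
    intro u
    rw [eval₂_mul, eval₂_mul, eval₂_C, eval₂_C]
    have f1 : algebraMap (𝓞 K) (AlgebraicClosure K) b1 = algebraMap K (AlgebraicClosure K) (algebraMap (𝓞 K) K y) * algebraMap K (AlgebraicClosure K) α := by
      rw [← map_mul, ← e1]
      rfl
    have f2 : algebraMap (𝓞 K) (AlgebraicClosure K) b2 = algebraMap K (AlgebraicClosure K) (algebraMap (𝓞 K) K y) * algebraMap K (AlgebraicClosure K) β := by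
      rw [← map_mul, ← e2]
      rfl
    rw [f1, f2, mul_assoc, mul_assoc, h u i]

/-- integral relation for a parametrization -/
theorem rel_pull {m n d D l : ℕ} {Φ : Morph K n d} {R : Morph K m D} {c c' : K}
    {G : Fin (n + 1) → MvPolynomial (Fin (n + 1)) (𝓞 K)} {H : Fin (m + 1) → MvPolynomial (Fin (m + 1)) (𝓞 K)}
    (hG : Model Φ c G) (hH : Model R c' H) {p : Fin (n + 1) → MvPolynomial (Fin (m + 1)) (𝓞 K)} {q : ℕ}
    (hp : ∀ k, (p k).IsHomogeneous q)
    (h : ∀ u : Fin (m + 1) → AlgebraicClosure K,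
      (fun i => eval₂ (algebraMap (𝓞 K) (AlgebraicClosure K)) (R.lift u) (p i))
        = Φ.lift^[l] (fun i => eval₂ (algebraMap (𝓞 K) (AlgebraicClosure K)) u (p i))) :
    ∃ b1 b2 : 𝓞 K, b1 ≠ 0 ∧ b2 ≠ 0 ∧ ∀ (T : Type u) [CommRing T] (φ : 𝓞 K →+* T) (u : Fin (m + 1) → T) (i : Fin (n + 1)),
      φ b1 * eval₂ φ (pev φ H u) (p i) = φ b2 * (pev φ G)^[l] (fun i => eval₂ φ u (p i)) i := by
  set j := algebraMap (𝓞 K) (AlgebraicClosure K) with hj
  obtain ⟨e, he⟩ := hG.lift_iter l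
  obtain ⟨b1, b2, hb1, hb2, hrel⟩ := clear_scalars (fun i => bind₁ H (p i)) (fun i => bind₁ p (iterPoly G l i))
    (pow_ne_zero e hG.1) (pow_ne_zero q hH.1) (by
      intro u i
      have e1 : eval₂ j u (bind₁ H (p i)) = algebraMap K (AlgebraicClosure K) c' ^ q * eval₂ j (R.lift u) (p i) := by
        have := eval₂Hom_bind₁ j u H (p i)
        simp only [coe_eval₂Hom] at this
        rw [this]
        change eval₂ j (pev j H u) (p i) = _
        rw [hH.lift]
        exact eval₂_smul_of_homog (hp i) j _ _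
      have e2 : eval₂ j u (bind₁ p (iterPoly G l i)) = algebraMap K (AlgebraicClosure K) c ^ e * Φ.lift^[l] (fun i => eval₂ j u (p i)) i := by
        have := eval₂Hom_bind₁ j u p (iterPoly G l i)
        simp only [coe_eval₂Hom] at this
        rw [this]
        change pev j (iterPoly G l) (fun i => eval₂ j u (p i)) i = _
        rw [pev_iterPoly, he]
        rfl
      rw [e1, e2, map_pow, map_pow, congrFun (h u) i]
      ring)
  refine ⟨b1, b2, hb1, hb2, ?_⟩
  intro T _ φ u i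
  have h1 := congrArg (eval₂ φ u) (hrel i)
  rw [eval₂_mul, eval₂_mul, eval₂_C, eval₂_C] at h1
  have h2 := eval₂Hom_bind₁ φ u H (p i)
  have h3 := eval₂Hom_bind₁ φ u p (iterPoly G l i)
  simp only [coe_eval₂Hom] at h2 h3
  rw [h2, h3] at h1
  have h4 : (pev φ G)^[l] (fun i => eval₂ φ u (p i)) i = eval₂ φ (fun i => eval₂ φ u (p i)) (iterPoly G l i) := by
    rw [← pev_iterPoly]
    rfl
  rw [h4]
  exact h1

/-- integral relation for a projection -/
theorem rel_push {m n d : ℕ} {Φ : Morph K n d} {Ψ : Morph K m d} {c c' a : K} (ha : a ≠ 0)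
    {G : Fin (n + 1) → MvPolynomial (Fin (n + 1)) (𝓞 K)} {H : Fin (m + 1) → MvPolynomial (Fin (m + 1)) (𝓞 K)}
    (hG : Model Φ c G) (hH : Model Ψ c' H) {p : Fin (m + 1) → MvPolynomial (Fin (n + 1)) (𝓞 K)} {q : ℕ}
    (hp : ∀ k, (p k).IsHomogeneous q)
    (h : ∀ z : Fin (n + 1) → AlgebraicClosure K,
      (fun i => eval₂ (algebraMap (𝓞 K) (AlgebraicClosure K)) (Φ.lift z) (p i))
        = algebraMap K (AlgebraicClosure K) a • Ψ.lift (fun i => eval₂ (algebraMap (𝓞 K) (AlgebraicClosure K)) z (p i))) :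
    ∃ b1 b2 : 𝓞 K, b1 ≠ 0 ∧ b2 ≠ 0 ∧ ∀ (T : Type u) [CommRing T] (φ : 𝓞 K →+* T) (z : Fin (n + 1) → T) (k : Fin (m + 1)),
      φ b1 * eval₂ φ (pev φ G z) (p k) = φ b2 * pev φ H (fun k => eval₂ φ z (p k)) k := by
  set j := algebraMap (𝓞 K) (AlgebraicClosure K) with hj
  obtain ⟨b1, b2, hb1, hb2, hrel⟩ := clear_scalars (fun i => bind₁ G (p i)) (fun i => bind₁ p (H i))
    (α := c') (β := c ^ q * a) hH.1 (mul_ne_zero (pow_ne_zero q hG.1) ha) (by
      intro u i
      have e1 : eval₂ j u (bind₁ G (p i)) = algebraMap K (AlgebraicClosure K) c ^ q * eval₂ j (Φ.lift u) (p i) := by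
        have := eval₂Hom_bind₁ j u G (p i)
        simp only [coe_eval₂Hom] at this
        rw [this]
        change eval₂ j (pev j G u) (p i) = _
        rw [hG.lift]
        exact eval₂_smul_of_homog (hp i) j _ _
      have e2 : eval₂ j u (bind₁ p (H i)) = algebraMap K (AlgebraicClosure K) c' * Ψ.lift (fun i => eval₂ j u (p i)) i := by
        have := eval₂Hom_bind₁ j u p (H i)
        simp only [coe_eval₂Hom] at this
        rw [this]
        change pev j H (fun i => eval₂ j u (p i)) i = _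
        rw [hH.lift]
        rfl
      rw [e1, e2, map_mul, map_pow, congrFun (h u) i]
      simp only [Pi.smul_apply, smul_eq_mul]
      ring)
  refine ⟨b1, b2, hb1, hb2, ?_⟩
  intro T _ φ u i
  have h1 := congrArg (eval₂ φ u) (hrel i)
  rw [eval₂_mul, eval₂_mul, eval₂_C, eval₂_C] at h1
  have h2 := eval₂Hom_bind₁ φ u G (p i)
  have h3 := eval₂Hom_bind₁ φ u p (H i)
  simp only [coe_eval₂Hom] at h2 h3
  rw [h2, h3] at h1
  exact h1

/-- **Rigidity on a parametrized invariant set.** -/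
theorem rigid_of_param {m n d D l : ℕ} (hd : 1 ≤ d) (hl : 1 ≤ l) {Φ : Morph K n d} {R : Morph K m D} {c : K}
    {G : Fin (n + 1) → MvPolynomial (Fin (n + 1)) (𝓞 K)} (hG : Model Φ c G) (hR : RigM R)
    {p : Fin (n + 1) → MvPolynomial (Fin (m + 1)) (𝓞 K)} {q : ℕ} (hq : 1 ≤ q) (hp : ∀ k, (p k).IsHomogeneous q)
    (h : ∀ u : Fin (m + 1) → AlgebraicClosure K,
      (fun i => eval₂ (algebraMap (𝓞 K) (AlgebraicClosure K)) (R.lift u) (p i))
        = Φ.lift^[l] (fun i => eval₂ (algebraMap (𝓞 K) (AlgebraicClosure K)) u (p i)))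
    {u0 : Fin (m + 1) → 𝓞 K} {s : 𝓞 K} (hs : s ≠ 0) (hpu : (fun i => eval u0 (p i)) ≠ 0)
    (hinj : ∀ (k : Type u) [Field k] (φ : 𝓞 K →+* k), φ s ≠ 0 → ∀ u : Fin (m + 1) → k, u ≠ 0 →
      Par (fun i => eval₂ φ u (p i)) (fun i => eval₂ φ (fun a => φ (u0 a)) (p i)) → Par u (fun a => φ (u0 a)))
    (hper : PerAE G (fun i => eval u0 (p i))) :
    ∃ m n : ℕ, m < n ∧ Par ((pevO G)^[m] (fun i => eval u0 (p i))) ((pevO G)^[n] (fun i => eval u0 (p i))) := by
  obtain ⟨c', H, hH⟩ := exists_model R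
  obtain ⟨b1, b2, hb1, hb2, hrel⟩ := rel_pull hG hH hp h
  have hu0 : u0 ≠ 0 := by
    rintro rfl
    apply hpu
    funext i
    have h2 := congrFun (val_smul hp (RingHom.id (𝓞 K)) 0 (0 : Fin (m + 1) → 𝓞 K)) i
    rw [smul_zero, zero_pow (by omega), zero_smul] at h2
    exact h2
  have hperH := PerAE.pull hd hG.homog hG.nz hH.nz hq hp hb1 hb2 hrel hs hpu hinj hper
  obtain ⟨m', n', hmn, hpar⟩ := hR c' H hH u0 hu0 hperH
  exact preper_of_param (D := D) hl hG.homog hH.nz hp hb1 hb2 hrel hu0 hmn hpar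

end Rel

end Pool.Agent.Lib.MP_df4dfc_nt
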