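import Mathlib
import Pool.Agent.Lib.MP_df4dfc_nt.Hc
import Pool.Agent.Lib.MP_df4dfc_nt.Fb2

set_option autoImplicit false
set_option linter.unusedSectionVars false
set_option linter.style.haveILetI false
set_option linter.unusedVariables false

/-! Morphisms between projective spaces have finite fibres: preperiodicity of the image. -/

namespace Pool.Agent.Lib.MP_df4dfc_nt

open MvPolynomial NumberField IsDedekindDomain Height

universe u

section Nst

variable {K : Type*} [Field K] {ι κ : Type} [Finite ι] [Fintype κ] {Ω : Type*} [Field Ω] [Algebra K Ω] [IsAlgClosed Ω]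

/-- homogeneous Nullstellensatz for forms without a common zero -/
theorem nullst_forms (p : κ → MvPolynomial ι K) {q : ℕ} (hp : ∀ k, (p k).IsHomogeneous q)
    (hNZ : ∀ z : ι → Ω, (∀ k, aeval z (p k) = 0) → z = 0) :
    ∃ (M : ℕ) (a : ι × κ → MvPolynomial ι K), (∀ x, (a x).IsHomogeneous M) ∧
      ∀ k, ∑ j, a (k, j) * p j = X k ^ (M + q) := by
  classical
  haveI := Fintype.ofFinite ι
  have h1 : ∀ k : ι, ∃ e : ℕ, (X k : MvPolynomial ι K) ^ e ∈ Ideal.span (Set.range p) := by
    intro k
    have h2 : (X k : MvPolynomial ι K) ∈ (Ideal.span (Set.range p)).radical := by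
      rw [← vanishingIdeal_zeroLocus_eq_radical (K := Ω), mem_vanishingIdeal_iff]
      intro z hz
      rw [mem_zeroLocus_iff] at hz
      have h3 : z = 0 := hNZ z fun j => hz _ (Ideal.subset_span ⟨j, rfl⟩)
      rw [aeval_X, h3]
      rfl
    exact h2
  choose e he using h1
  have h2 : ∀ k : ι, ∃ c : κ → MvPolynomial ι K, ∑ j, c j * p j = X k ^ (∑ k, e k + q) := by
    intro k
    have h3 : (X k : MvPolynomial ι K) ^ (∑ k, e k + q) ∈ Ideal.span (Set.range p) := by
      have h4 : e k ≤ ∑ k, e k + q := le_trans (Finset.single_le_sum (fun i _ => Nat.zero_le _) (Finset.mem_univ k)) (Nat.le_add_right _ _)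
      exact Ideal.pow_mem_of_pow_mem _ (he k) h4
    exact Ideal.mem_span_range_iff_exists_fun.1 h3
  choose c hc using h2
  refine ⟨∑ k, e k, fun x => homogeneousComponent (∑ k, e k) (c x.1 x.2), fun x => homogeneousComponent_isHomogeneous _ _, ?_⟩
  intro k
  have h3 := congrArg (homogeneousComponent (∑ k, e k + q)) (hc k)
  rw [map_sum, homogeneousComponent_eq_self (isHomogeneous_X_pow k _)] at h3
  rw [← h3]
  apply Finset.sum_congr rfl
  intro j _
  exact (hc_mul _ _ (hp j) _).symm

end Nst

section Push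

variable {K : Type u} [Field K] [NumberField K] {ι κ : Type} [Fintype ι] [Fintype κ]

/-- **Finite fibres.** If the image is preperiodic then so is the point. -/
theorem preper_of_push {G : ι → MvPolynomial ι (𝓞 K)} {H : κ → MvPolynomial κ (𝓞 K)} {d d' : ℕ}
    (hG : ∀ i, (G i).IsHomogeneous d) (hGNZ : NZ (algebraMap (𝓞 K) (AlgebraicClosure K)) G)
    (hH : ∀ i, (H i).IsHomogeneous d') (hHNZ : NZ (algebraMap (𝓞 K) (AlgebraicClosure K)) H)
    {p : κ → MvPolynomial ι (𝓞 K)} {q : ℕ} (hq : 1 ≤ q) (hp : ∀ k, (p k).IsHomogeneous q)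
    (hpNZ : ∀ z : ι → AlgebraicClosure K, (∀ k, eval₂ (algebraMap (𝓞 K) (AlgebraicClosure K)) z (p k) = 0) → z = 0)
    {b1 b2 : 𝓞 K} (hb1 : b1 ≠ 0) (hb2 : b2 ≠ 0)
    (hrel : ∀ (T : Type u) [CommRing T] (φ : 𝓞 K →+* T) (z : ι → T) (k : κ),
      φ b1 * eval₂ φ (pev φ G z) (p k) = φ b2 * pev φ H (fun k => eval₂ φ z (p k)) k)
    {g : ι → 𝓞 K} (hg : g ≠ 0) {m n : ℕ} (hmn : m < n)
    (h : Par ((pevO H)^[m] (fun k => eval g (p k))) ((pevO H)^[n] (fun k => eval g (p k)))) :
    ∃ m n : ℕ, m < n ∧ Par ((pevO G)^[m] g) ((pevO G)^[n] g) := by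
  classical
  set jK := algebraMap (𝓞 K) K with hjK
  have hNZ1 : NZ (RingHom.id (𝓞 K)) G := NZ.of_injective (ψ := algebraMap (𝓞 K) (AlgebraicClosure K))
    (by rw [RingHom.comp_id]; exact hGNZ) (FaithfulSMul.algebraMap_injective (𝓞 K) (AlgebraicClosure K))
  have hNZ2 : NZ (RingHom.id (𝓞 K)) H := NZ.of_injective (ψ := algebraMap (𝓞 K) (AlgebraicClosure K))
    (by rw [RingHom.comp_id]; exact hHNZ) (FaithfulSMul.algebraMap_injective (𝓞 K) (AlgebraicClosure K))
  by_contra hcon
  push Not at hcon
  -- forms over K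
  set pK : κ → MvPolynomial ι K := fun k => MvPolynomial.map jK (p k) with hpK
  have hpKh : ∀ k, (pK k).IsHomogeneous q := fun k => (hp k).map _
  have hpKev : ∀ (x : ι → 𝓞 K) k, eval (fun i => jK (x i)) (pK k) = jK (eval x (p k)) := by
    intro x k
    rw [eval_map]
    exact (eval₂_eval jK x (p k)).symm
  obtain ⟨M, a, ha, ha'⟩ := nullst_forms (Ω := AlgebraicClosure K) pK hpKh (by
    intro z hz
    apply hpNZ
    intro k
    have h1 := hz k
    rw [aeval_def, eval₂_map] at h1
    exact h1)
  obtain ⟨C, hC, hC'⟩ := mulHeight_eval_ge' (K := K) (N := q) ha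
  -- the values
  have hpg : (fun k => eval g (p k)) ≠ 0 := by
    intro h0
    have h1 : (fun i => algebraMap (𝓞 K) (AlgebraicClosure K) (g i)) = 0 := by
      apply hpNZ
      intro k
      rw [← eval₂_eval]
      have := congrFun h0 k
      rw [this]
      exact map_zero _
    apply hg
    funext i
    apply FaithfulSMul.algebraMap_injective (𝓞 K) (AlgebraicClosure K)
    rw [Pi.zero_apply, map_zero]
    exact congrFun h1 i
  set x : ℕ → ι → 𝓞 K := fun r => (pevO G)^[r] g with hx
  set y : ℕ → κ → 𝓞 K := fun r => (pevO H)^[r] (fun k => eval g (p k)) with hy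
  have hx0 : ∀ r, x r ≠ 0 := fun r => hNZ1.iter r hg
  have hy0 : ∀ r, y r ≠ 0 := fun r => hNZ2.iter r hpg
  have hKne : ∀ {σ : Type} {z : σ → 𝓞 K}, z ≠ 0 → (fun i => jK (z i)) ≠ 0 := by
    intro σ z hz h0
    apply hz
    funext i
    apply inj_O
    rw [Pi.zero_apply, map_zero]
    exact congrFun h0 i
  have hht : ∀ {σ : Type} [Finite σ] {z z' : σ → K}, z ≠ 0 → z' ≠ 0 → Par z z' → mulHeight z = mulHeight z' := by
    intro σ _ z z' hz hz' hpar
    obtain ⟨c, hc⟩ := hpar.exists_smul hz'
    have hc0 : c ≠ 0 := by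
      rintro rfl
      rw [zero_smul] at hc
      exact hz hc
    rw [hc, mulHeight_smul_eq_mulHeight z' hc0]
  -- bounded heights
  set B : ℝ := ∑ s ∈ Finset.range n, mulHeight (fun k => jK (y s k)) with hB
  have hbound : ∀ r, mulHeight (fun k => eval (fun i => jK (x r i)) (pK k)) ≤ B := by
    intro r
    have h1 : ∃ s, s < n ∧ Par (y r) (y s) := by
      by_cases hr : r < n
      · exact ⟨r, hr, Par.refl _⟩
      · refine ⟨m + (r - m) % (n - m), ?_, ?_⟩
        · have := Nat.mod_lt (r - m) (show 0 < n - m by omega)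
          omega
        · have h2 := iter_add_par hH hNZ2 (fun k => eval g (p k)) hpg m (n - m) (by
            rw [show m + (n - m) = n by omega]
            exact h.symm) (m + (r - m) % (n - m)) ((r - m) / (n - m)) (by omega)
          have h3 : m + (r - m) % (n - m) + (r - m) / (n - m) * (n - m) = r := by
            have h4 := Nat.div_add_mod (r - m) (n - m)
            have h5 : (r - m) / (n - m) * (n - m) = (n - m) * ((r - m) / (n - m)) := Nat.mul_comm _ _
            omega
          rw [h3] at h2
          exact h2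
    obtain ⟨s, hs, hps⟩ := h1
    have h2 : Par (fun k => eval (fun i => jK (x r i)) (pK k)) (fun k => jK (y s k)) := by
      obtain ⟨e1, e2, he⟩ := sc_iter hH hp hrel (RingHom.id (𝓞 K)) r g
      have h3 : Par (fun k => eval (x r) (p k)) (y r) := by
        intro i k
        have h4 := congrFun he i
        have h5 := congrFun he k
        simp only [Pi.smul_apply, smul_eq_mul, RingHom.id_apply] at h4 h5
        change b1 ^ e1 * eval (x r) (p i) = b2 ^ e2 * y r i at h4
        change b1 ^ e1 * eval (x r) (p k) = b2 ^ e2 * y r k at h5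
        apply mul_left_cancel₀ (pow_ne_zero e1 hb1)
        linear_combination (y r k) * h4 - (y r i) * h5
      have h6 := (h3.trans hps (hy0 r)).map jK
      have h7 : (fun k => eval (fun i => jK (x r i)) (pK k)) = fun k => jK (eval (x r) (p k)) := by
        funext k
        exact hpKev (x r) k
      rw [h7]
      exact h6
    have hne1 : (fun k => eval (fun i => jK (x r i)) (pK k)) ≠ 0 := by
      have h7 : (fun k => eval (fun i => jK (x r i)) (pK k)) = fun k => jK (eval (x r) (p k)) := by
        funext k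
        exact hpKev (x r) k
      rw [h7]
      apply hKne
      intro h0
      have h1 : (fun i => algebraMap (𝓞 K) (AlgebraicClosure K) (x r i)) = 0 := by
        apply hpNZ
        intro k
        rw [← eval₂_eval]
        have := congrFun h0 k
        rw [this]
        exact map_zero _
      apply hx0 r
      funext i
      apply FaithfulSMul.algebraMap_injective (𝓞 K) (AlgebraicClosure K)
      rw [Pi.zero_apply, map_zero]
      exact congrFun h1 i
    rw [hht hne1 (hKne (hy0 s)) h2]
    exact Finset.single_le_sum (f := fun s => mulHeight (fun k => jK (y s k))) (fun i _ => (zero_le_one.trans (one_le_mulHeight _)))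
      (Finset.mem_range.2 hs)
  -- unbounded heights
  obtain ⟨n₀, hn₀⟩ := northcott_seq (fun r i => jK (x r i)) (fun r => hKne (hx0 r)) (by
    intro r s hrs hpar
    exact hcon r s hrs (Par.of_map jK inj_O hpar)) (B / C)
  have h1 := hn₀ n₀ le_rfl
  have h2 := hC' pK (x := fun i => jK (x n₀ i)) (by
    intro k
    have := congrArg (eval (fun i => jK (x n₀ i))) (ha' k)
    rw [map_sum, map_pow, eval_X] at this
    rw [← this]
    apply Finset.sum_congr rfl
    intro j _
    rw [map_mul])
  have h3 := hbound n₀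
  have h4 : mulHeight (fun i => jK (x n₀ i)) ≤ mulHeight (fun i => jK (x n₀ i)) ^ q :=
    le_self_pow₀ (one_le_mulHeight _) (by omega)
  have h5 : C * mulHeight (fun i => jK (x n₀ i)) ≤ B := (mul_le_mul_of_nonneg_left h4 hC.le).trans (h2.trans h3)
  rw [div_lt_iff₀ hC] at h1
  linarith

end Push

end Pool.Agent.Lib.MP_df4dfc_nt
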