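import Mathlib
import Pool.Agent.Lib.MP_df4dfc_nt.Fb2
import Pool.Agent.Lib.MP_df4dfc_nt.DefsJoin

set_option autoImplicit false
set_option linter.unusedSectionVars false
set_option linter.style.haveILetI false
set_option linter.unusedVariables false

/-! Fibrations by linear subspaces through a fixed centre. -/

namespace Pool.Agent.Lib.MP_df4dfc_nt

open MvPolynomial NumberField IsDedekindDomain

universe u

section App

variable {R T : Type*} [CommRing R] [CommRing T] {m n : ℕ} {κ : Type}

/-- the first indices -/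
def iL (m n : ℕ) (i : Fin (m + 1)) : Fin (m + 1 + n + 1) := (Fin.castAdd (n + 1) i : Fin (m + 1 + (n + 1)))

/-- the last indices -/
def iR (m n : ℕ) (i : Fin (n + 1)) : Fin (m + 1 + n + 1) := (Fin.natAdd (m + 1) i : Fin (m + 1 + (n + 1)))

theorem joinV_left {α : Type*} (x : Fin (m + 1) → α) (y : Fin (n + 1) → α) (i : Fin (m + 1)) : joinV x y (iL m n i) = x i :=
  Fin.append_left x y i

theorem joinV_right {α : Type*} (x : Fin (m + 1) → α) (y : Fin (n + 1) → α) (i : Fin (n + 1)) : joinV x y (iR m n i) = y i :=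
  Fin.append_right x y i

theorem join_ext {α : Type*} {f g : Fin (m + 1 + n + 1) → α} (h1 : ∀ i, f (iL m n i) = g (iL m n i))
    (h2 : ∀ i, f (iR m n i) = g (iR m n i)) : f = g := by
  funext i
  have : ∀ i : Fin (m + 1 + (n + 1)), f i = g i := fun i => Fin.addCases (fun i => h1 i) (fun i => h2 i) i
  exact this i

theorem join_ind {P : Fin (m + 1 + n + 1) → Prop} (h1 : ∀ i, P (iL m n i)) (h2 : ∀ i, P (iR m n i)) (i : Fin (m + 1 + n + 1)) : P i := by
  have : ∀ i : Fin (m + 1 + (n + 1)), P i := fun i => Fin.addCases (fun i => h1 i) (fun i => h2 i) i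
  exact this i

theorem eval₂_join (φ : R →+* T) (u : κ → T) (A : Fin (m + 1) → MvPolynomial κ R) (B : Fin (n + 1) → MvPolynomial κ R) :
    (fun i => eval₂ φ u (joinV A B i)) = joinV (fun k => eval₂ φ u (A k)) (fun k => eval₂ φ u (B k)) := by
  apply join_ext
  · intro i
    rw [joinV_left, joinV_left]
  · intro i
    rw [joinV_right, joinV_right]

theorem join_homog {A : Fin (m + 1) → MvPolynomial κ R} {B : Fin (n + 1) → MvPolynomial κ R} {q : ℕ} (hA : ∀ i, (A i).IsHomogeneous q)
    (hB : ∀ i, (B i).IsHomogeneous q) (i : Fin (m + 1 + n + 1)) : (joinV A B i).IsHomogeneous q := by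
  refine join_ind (P := fun i => (joinV A B i).IsHomogeneous q) (fun i => ?_) (fun i => ?_) i
  · rw [joinV_left]
    exact hA i
  · rw [joinV_right]
    exact hB i

theorem join_split {α : Type*} (z : Fin (m + 1 + n + 1) → α) :
    z = joinV (fun i => z (iL m n i)) (fun i => z (iR m n i)) := by
  apply join_ext
  · intro i
    rw [joinV_left]
  · intro i
    rw [joinV_right]

end App

section Fib

variable {K : Type u} [Field K] {m n d : ℕ}

/-- the forms of the return map -/
noncomputable def fibF (Φ : Morph K (m + 1 + n) d) (l : ℕ) (b : Fin (n + 1) → K) (α : K) :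
    Fin (m + 1 + 1) → MvPolynomial (Fin (m + 1 + 1)) K :=
  Fin.cons (C α * X 0 ^ (d ^ l)) (fun i : Fin (m + 1) =>
    bind₁ (joinV (fun k => X k.succ) (fun k => C (b k) * X 0))
      (iterPoly Φ.F l (iL m n i)))

theorem fibF_homog (Φ : Morph K (m + 1 + n) d) (l : ℕ) (b : Fin (n + 1) → K) (α : K) (i : Fin (m + 1 + 1)) :
    (fibF Φ l b α i).IsHomogeneous (d ^ l) := by
  refine Fin.cases ?_ (fun i => ?_) i
  · exact (isHomogeneous_X_pow _ _).C_mul _
  · have := (iterPoly_homog Φ.homog l (iL m n i)).aeval
      (joinV (fun k => X k.succ) (fun k => C (b k) * X 0))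
      (n := 1) (join_homog (fun i => isHomogeneous_X _ _) (fun i => (isHomogeneous_X _ _).C_mul _))
    rw [one_mul] at this
    exact this

theorem lift_eq_pev {N : ℕ} (Φ : Morph K N d) : Φ.lift = pev (algebraMap K (AlgebraicClosure K)) Φ.F := rfl

theorem fibF_rel (Φ : Morph K (m + 1 + n) d) (Ψ : Morph K n d)
    (hΨ : ∀ (x : Fin (m + 1) → AlgebraicClosure K) (y : Fin (n + 1) → AlgebraicClosure K) (i : Fin (n + 1)),
      Φ.lift (joinV x y) (iR m n i) = Ψ.lift y i) (l : ℕ) (b : Fin (n + 1) → K) (α : K)
    (hb : (pev (RingHom.id K) Ψ.F)^[l] b = α • b) (w : Fin (m + 1 + 1) → AlgebraicClosure K) :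
    Φ.lift^[l] (joinV (Fin.tail w) (fun i => w 0 * algebraMap K (AlgebraicClosure K) (b i))) =
      joinV (Fin.tail (pev (algebraMap K (AlgebraicClosure K)) (fibF Φ l b α) w))
        (fun i => pev (algebraMap K (AlgebraicClosure K)) (fibF Φ l b α) w 0 * algebraMap K (AlgebraicClosure K) (b i)) := by
  set j := algebraMap K (AlgebraicClosure K) with hj
  have hit : ∀ (k : ℕ) (z : Fin (m + 1 + n + 1) → AlgebraicClosure K),
      (fun i => Φ.lift^[k] z (iR m n i)) = Ψ.lift^[k] (fun i => z (iR m n i)) := by
    intro k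
    induction k with
    | zero => intro z; rfl
    | succ k ih =>
      intro z
      rw [Function.iterate_succ_apply, ih, Function.iterate_succ_apply]
      congr 1
      funext i
      have h1 := join_split (m := m) (n := n) z
      conv_lhs => rw [h1]
      exact hΨ _ _ i
  have e0 : pev j (fibF Φ l b α) w 0 = j α * w 0 ^ (d ^ l) := by
    change eval₂ j w (C α * X 0 ^ (d ^ l)) = _
    rw [eval₂_mul, eval₂_C, eval₂_pow, eval₂_X]
  have e1 : ∀ i : Fin (m + 1), pev j (fibF Φ l b α) w i.succ
      = Φ.lift^[l] (joinV (Fin.tail w) (fun i => w 0 * j (b i))) (iL m n i) := by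
    intro i
    change eval₂ j w (bind₁ _ (iterPoly Φ.F l (iL m n i))) = _
    have h1 := eval₂Hom_bind₁ j w (joinV (fun k => X k.succ) (fun k => C (b k) * X 0)) (iterPoly Φ.F l (iL m n i))
    simp only [coe_eval₂Hom] at h1
    rw [h1, eval₂_join, lift_eq_pev, ← pev_iterPoly]
    change eval₂ j _ _ = eval₂ j _ _
    congr 2
    · funext k
      rw [eval₂_X]
      rfl
    · funext k
      rw [eval₂_mul, eval₂_C, eval₂_X, mul_comm]
  rw [join_split (m := m) (n := n) (Φ.lift^[l] (joinV (Fin.tail w) (fun i => w 0 * j (b i))))]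
  congr 1
  · funext i
    exact (e1 i).symm
  · rw [hit]
    funext i
    have h1 : (fun i => (joinV (Fin.tail w) (fun i => w 0 * j (b i))) (iR m n i))
        = w 0 • (fun i => j (b i)) := by
      funext i
      rw [joinV_right]
      rfl
    rw [h1, lift_eq_pev, pev_iter_smul Ψ.homog, e0]
    have h2 := pev_iter_map (RingHom.id K) j Ψ.F l b
    rw [RingHom.comp_id, hb] at h2
    rw [← h2]
    simp only [Pi.smul_apply, smul_eq_mul, map_mul]
    ring

/-- the return map as a morphism -/
noncomputable def fibM (Φ : Morph K (m + 1 + n) d) (Ψ : Morph K n d)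
    (hΨ : ∀ (x : Fin (m + 1) → AlgebraicClosure K) (y : Fin (n + 1) → AlgebraicClosure K) (i : Fin (n + 1)),
      Φ.lift (joinV x y) (iR m n i) = Ψ.lift y i) (l : ℕ) (b : Fin (n + 1) → K) (α : K)
    (hb : (pev (RingHom.id K) Ψ.F)^[l] b = α • b) (hb0 : b ≠ 0) : Morph K (m + 1) (d ^ l) where
  F := fibF Φ l b α
  homog := fibF_homog Φ l b α
  noZero := by
    intro w hw
    have h1 := fibF_rel Φ Ψ hΨ l b α hb w
    have h2 : pev (algebraMap K (AlgebraicClosure K)) (fibF Φ l b α) w = 0 := by
      funext i
      exact hw i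
    have hNZ : NZ (algebraMap K (AlgebraicClosure K)) Φ.F := by
      intro z hz h0
      apply hz
      apply Φ.noZero
      intro i
      exact congrFun h0 i
    have h3 : (joinV (Fin.tail w) (fun i => w 0 * algebraMap K (AlgebraicClosure K) (b i))) = 0 := by
      by_contra hne
      apply hNZ.iter l hne
      rw [← lift_eq_pev, h1, h2]
      apply join_ext
      · intro i
        rw [joinV_left]
        rfl
      · intro i
        rw [joinV_right]
        simp
    obtain ⟨k, hk⟩ := Function.ne_iff.1 hb0
    rw [Pi.zero_apply] at hk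
    have h4 := congrFun h3 (iR m n k)
    rw [joinV_right] at h4
    have h5 : w 0 = 0 := (mul_eq_zero.1 h4).resolve_right ((map_ne_zero _).2 hk)
    funext i
    refine Fin.cases ?_ (fun i => ?_) i
    · exact h5
    · have h6 := congrFun h3 (iL m n i)
      rw [joinV_left] at h6
      exact h6

end Fib

section Rig

variable {K : Type u} [Field K] [NumberField K] {m n d : ℕ}

/-- **Fibrations.** -/
theorem rigM_fib (hd : 1 ≤ d) (Φ : Morph K (m + 1 + n) d) (Λ : Morph K m d) (Ψ : Morph K n d)
    (hΛ : ∀ x : Fin (m + 1) → AlgebraicClosure K,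
      Φ.lift (joinV x 0) = (joinV (Λ.lift x) 0))
    (hΨ : ∀ (x : Fin (m + 1) → AlgebraicClosure K) (y : Fin (n + 1) → AlgebraicClosure K) (i : Fin (n + 1)),
      Φ.lift (joinV x y) (iR m n i) = Ψ.lift y i)
    (hrΛ : RigM Λ) (hrΨ : RigM Ψ)
    (hfib : ∀ (l : ℕ) (b : Fin (n + 1) → K) (R : Morph K (m + 1) (d ^ l)), 1 ≤ l → b ≠ 0 →
      (∀ w : Fin (m + 1 + 1) → AlgebraicClosure K,
        Φ.lift^[l] (joinV (Fin.tail w) (fun i => w 0 * algebraMap K (AlgebraicClosure K) (b i))) =
          (joinV (Fin.tail (R.lift w)) (fun i => R.lift w 0 * algebraMap K (AlgebraicClosure K) (b i)))) → RigM R) : RigM Φ := by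
  intro c G hG g hg hper
  set j := algebraMap (𝓞 K) (AlgebraicClosure K) with hj
  have hgs := join_split (m := m) (n := n) g
  set gx : Fin (m + 1) → 𝓞 K := fun i => g (iL m n i) with hgx
  set gy : Fin (n + 1) → 𝓞 K := fun i => g (iR m n i) with hgy
  by_cases hy : gy = 0
  · -- the centre
    set p : Fin (m + 1 + n + 1) → MvPolynomial (Fin (m + 1)) (𝓞 K) := joinV (fun k => X k) 0 with hp
    have hpv : ∀ {T : Type u} [CommRing T] (φ : 𝓞 K →+* T) (u : Fin (m + 1) → T),
        (fun i => eval₂ φ u (p i)) = (joinV u 0) := by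
      intro T _ φ u
      rw [hp, eval₂_join]
      congr 1
      funext k
      rw [eval₂_X]
    have hpg : (fun i => eval gx (p i)) = g := by
      have := hpv (RingHom.id (𝓞 K)) gx
      rw [hgs, hy]
      exact this
    have := rigid_of_param (l := 1) hd le_rfl hG hrΛ (p := p) (q := 1) le_rfl
      (join_homog (fun k => isHomogeneous_X _ _) (fun k => isHomogeneous_zero _ _ _)) (by
        intro u
        rw [hpv, hpv, Function.iterate_one, hΛ]) (u0 := gx) (s := 1) one_ne_zero (by rw [hpg]; exact hg) (by
        intro k _ φ _ u _ hpar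
        rw [hpv, hpv] at hpar
        intro a b
        have := hpar (iL m n a) (iL m n b)
        rwa [joinV_left, joinV_left, joinV_left, joinV_left] at this) (by rw [hpg]; exact hper)
    rw [hpg] at this
    exact this
  · -- the base
    obtain ⟨c', H, hH⟩ := exists_model Ψ
    have hone : (1 : K) ≠ 0 := one_ne_zero
    obtain ⟨b1, b2, hb1, hb2, hrel⟩ := rel_push (a := 1) hone hG hH (p := fun k => X (iR m n k)) (q := 1)
      (fun k => isHomogeneous_X _ _) (by
        intro z
        rw [map_one, one_smul]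
        funext i
        simp only [eval₂_X]
        have h1 := join_split (m := m) (n := n) z
        conv_lhs => rw [h1]
        exact hΨ _ _ i)
    have hpv : (fun k => eval g ((fun k => X (iR m n k) : Fin (n + 1) → MvPolynomial (Fin (m + 1 + n + 1)) (𝓞 K)) k)) = gy := by
      funext k
      exact eval_X _
    have hperH : PerAE H gy := by
      have := PerAE.push hH.homog le_rfl (fun k => isHomogeneous_X _ _) hb1 hb2 hrel (g := g) (by rw [hpv]; exact hy) hper
      rwa [hpv] at this
    obtain ⟨m', n', hmn, hpar⟩ := hrΨ c' H hH gy hy hperH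
    obtain ⟨l, hl, hpl⟩ := per_of_preper H hd hH.homog hH.nz gy hy hperH m' n' hmn hpar
    -- the eigenvalue
    set b : Fin (n + 1) → K := fun i => algebraMap (𝓞 K) K (gy i) with hb
    have hb0 : b ≠ 0 := by
      intro h0
      apply hy
      funext i
      exact inj_O (by rw [Pi.zero_apply, map_zero]; exact congrFun h0 i)
    have hbper : ∃ α : K, (pev (RingHom.id K) Ψ.F)^[l] b = α • b := by
      have h1 : Par ((pev (algebraMap (𝓞 K) K) H)^[l] b) b := by
        have := hpl.map (algebraMap (𝓞 K) K)
        have e := pev_iter_map (RingHom.id (𝓞 K)) (algebraMap (𝓞 K) K) H l gy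
        rw [RingHom.comp_id] at e
        rw [← e]
        exact this
      obtain ⟨α', hα'⟩ := h1.exists_smul hb0
      -- compare the model and the morphism
      have h2 : ∀ z : Fin (n + 1) → K, pev (algebraMap (𝓞 K) K) H z = c' • pev (RingHom.id K) Ψ.F z := by
        intro z
        funext i
        have h3 := congrArg (eval₂ (RingHom.id K) z) (hH.2 i)
        rw [eval₂_map, RingHom.id_comp, eval₂_mul, eval₂_C] at h3
        exact h3
      have h4 : ∀ r (z : Fin (n + 1) → K), ∃ e : ℕ, (pev (algebraMap (𝓞 K) K) H)^[r] z = c' ^ e • (pev (RingHom.id K) Ψ.F)^[r] z := by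
        intro r
        induction r with
        | zero => intro z; exact ⟨0, by simp⟩
        | succ r ih =>
          intro z
          obtain ⟨e, he⟩ := ih z
          refine ⟨1 + e * d, ?_⟩
          rw [Function.iterate_succ_apply', he, h2, pev_smul Ψ.homog, smul_smul, Function.iterate_succ_apply', pow_add, pow_one, pow_mul]
      obtain ⟨e, he⟩ := h4 l b
      refine ⟨(c' ^ e)⁻¹ * α', ?_⟩
      rw [mul_smul, ← hα', he, smul_smul, inv_mul_cancel₀ (pow_ne_zero _ hH.1), one_smul]
    obtain ⟨α, hα⟩ := hbper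
    set Rm := fibM Φ Ψ hΨ l b α hα hb0 with hRm
    have hrel' : ∀ w : Fin (m + 1 + 1) → AlgebraicClosure K,
        Φ.lift^[l] (joinV (Fin.tail w) (fun i => w 0 * algebraMap K (AlgebraicClosure K) (b i))) =
          (joinV (Fin.tail (Rm.lift w)) (fun i => Rm.lift w 0 * algebraMap K (AlgebraicClosure K) (b i))) := fibF_rel Φ Ψ hΨ l b α hα
    have hrR := hfib l b Rm hl hb0 hrel'
    obtain ⟨k0, hk0⟩ := Function.ne_iff.1 hy
    rw [Pi.zero_apply] at hk0
    set p : Fin (m + 1 + n + 1) → MvPolynomial (Fin (m + 1 + 1)) (𝓞 K) :=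
      joinV (fun k => X k.succ) (fun k => C (gy k) * X 0) with hp
    have hpv : ∀ {T : Type u} [CommRing T] (φ : 𝓞 K →+* T) (u : Fin (m + 1 + 1) → T),
        (fun i => eval₂ φ u (p i)) = (joinV (Fin.tail u) (fun k => u 0 * φ (gy k))) := by
      intro T _ φ u
      rw [hp, eval₂_join]
      congr 1
      · funext k
        rw [eval₂_X]
        rfl
      · funext k
        rw [eval₂_mul, eval₂_C, eval₂_X, mul_comm]
    set u0 : Fin (m + 1 + 1) → 𝓞 K := Fin.cons 1 gx with hu0
    have hpg : (fun i => eval u0 (p i)) = g := by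
      have := hpv (RingHom.id (𝓞 K)) u0
      rw [hgs]
      refine Eq.trans this ?_
      congr 1
      funext k
      rw [hu0, Fin.cons_zero, one_mul]
      rfl
    have := rigid_of_param (l := l) hd hl hG hrR (p := p) (q := 1) le_rfl
      (join_homog (fun k => isHomogeneous_X _ _) (fun k => (isHomogeneous_X _ _).C_mul _)) (by
        intro u
        rw [hpv, hpv]
        exact (hrel' u).symm) (u0 := u0) (s := gy k0) hk0 (by rw [hpg]; exact hg) (by
        intro k _ φ hφ u _ hpar
        rw [hpv, hpv] at hpar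
        have key : ∀ a : Fin (m + 1), u a.succ = u 0 * φ (gx a) := by
          intro a
          have h1 := hpar (iL m n a) (iR m n k0)
          rw [joinV_left, joinV_right, joinV_right, joinV_left] at h1
          have e1 : Fin.tail (fun a => φ (u0 a)) a = φ (gx a) := by
            rw [hu0]
            rfl
          rw [e1, hu0, Fin.cons_zero, map_one, one_mul] at h1
          change u a.succ * φ (gy k0) = _ at h1
          apply mul_right_cancel₀ hφ
          rw [h1]
          ring
        have z0 : φ (u0 0) = 1 := by rw [hu0, Fin.cons_zero, map_one]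
        have z1 : ∀ a : Fin (m + 1), φ (u0 a.succ) = φ (gx a) := fun a => by rw [hu0, Fin.cons_succ]
        intro a b
        change u a * φ (u0 b) = u b * φ (u0 a)
        refine Fin.cases ?_ (fun a => ?_) a
        · refine Fin.cases ?_ (fun b => ?_) b
          · rfl
          · rw [key b, z0, z1]
            ring
        · refine Fin.cases ?_ (fun b => ?_) b
          · rw [key a, z0, z1]
            ring
          · rw [key a, key b, z1, z1]
            ring) (by rw [hpg]; exact hper)
    rw [hpg] at this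
    exact this

end Rig

end Pool.Agent.Lib.MP_df4dfc_nt
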