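import Mathlib
import Pool.Agent.Lib.MP_df4dfc_nt.Cv1
import Pool.Agent.Lib.MP_df4dfc_nt.Fb3

set_option autoImplicit false
set_option linter.unusedSectionVars false
set_option linter.style.haveILetI false
set_option linter.unusedVariables false

/-! Rigidity and semiconjugacies by morphisms, iterates. -/

namespace Pool.Agent.Lib.MP_df4dfc_nt

open MvPolynomial NumberField IsDedekindDomain

universe u

section Iter

variable {K : Type u} [Field K] {N d : ℕ}

/-- the iterate as a morphism -/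
noncomputable def Morph.itM (Φ : Morph K N d) (k : ℕ) : Morph K N (d ^ k) where
  F := iterPoly Φ.F k
  homog := iterPoly_homog Φ.homog k
  noZero := by
    intro z hz
    have hNZ : NZ (algebraMap K (AlgebraicClosure K)) Φ.F := by
      intro z hz h0
      apply hz
      apply Φ.noZero
      intro i
      exact congrFun h0 i
    by_contra hne
    apply hNZ.iter k hne
    rw [← pev_iterPoly]
    funext i
    exact hz i

theorem Morph.itM_lift (Φ : Morph K N d) (k : ℕ) (z : Fin (N + 1) → AlgebraicClosure K) : (Φ.itM k).lift z = Φ.lift^[k] z :=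
  pev_iterPoly (algebraMap K (AlgebraicClosure K)) Φ.F k z

end Iter

section Semi

variable {K : Type u} [Field K] [NumberField K] {N M d q : ℕ}

theorem exists_int_family {κ σ : Type} [Fintype κ] [Finite σ] (p : κ → MvPolynomial σ K) :
    ∃ (s : 𝓞 K) (p' : κ → MvPolynomial σ (𝓞 K)), s ≠ 0 ∧
      ∀ k, MvPolynomial.map (algebraMap (𝓞 K) K) (p' k) = C (algebraMap (𝓞 K) K s) * p k := by
  classical
  have h1 := fun k => exists_int_poly (p k)
  choose s q hs hq using h1
  refine ⟨∏ k, s k, fun k => C (∏ l ∈ Finset.univ.erase k, s l) * q k, Finset.prod_ne_zero_iff.2 fun k _ => hs k, ?_⟩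
  intro k
  rw [map_mul, map_C, hq, ← mul_assoc, ← C_mul, ← map_mul, mul_comm _ (s k), Finset.mul_prod_erase _ _ (Finset.mem_univ k)]

theorem rigM_semi1 (hq : 1 ≤ q) (Φ : Morph K N d) (Ψ : Morph K M d)
    (p : Fin (M + 1) → MvPolynomial (Fin (N + 1)) K) (hp : ∀ i, (p i).IsHomogeneous q)
    (hpNZ : ∀ z : Fin (N + 1) → AlgebraicClosure K, (∀ i, aeval z (p i) = 0) → z = 0) (c : K) (hc : c ≠ 0)
    (h : ∀ z : Fin (N + 1) → AlgebraicClosure K,
      (fun i => aeval (Φ.lift z) (p i)) = algebraMap K (AlgebraicClosure K) c • Ψ.lift (fun i => aeval z (p i)))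
    (hΨ : RigM Ψ) : RigM Φ := by
  intro cG G hG g hg hper
  set j := algebraMap (𝓞 K) (AlgebraicClosure K) with hj
  obtain ⟨s, p', hs, hp'⟩ := exists_int_family p
  set sK : K := algebraMap (𝓞 K) K s with hsK
  have hsK0 : sK ≠ 0 := fun h0 => hs (inj_O (by rw [map_zero]; exact h0))
  have hp'h : ∀ i, (p' i).IsHomogeneous q := by
    intro i
    have h1 : (MvPolynomial.map (algebraMap (𝓞 K) K) (p' i)).IsHomogeneous q := by
      rw [hp' i]
      exact (hp i).C_mul _
    exact IsHomogeneous.of_map (f := algebraMap (𝓞 K) K) inj_O h1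
  have hev : ∀ (z : Fin (N + 1) → AlgebraicClosure K) i, eval₂ j z (p' i) = algebraMap K (AlgebraicClosure K) sK * aeval z (p i) := by
    intro z i
    have h1 : aeval z (MvPolynomial.map (algebraMap (𝓞 K) K) (p' i)) = eval₂ j z (p' i) := by
      rw [aeval_def, eval₂_map]
      rfl
    rw [← h1, hp', map_mul, aeval_C]
  have hsj : algebraMap K (AlgebraicClosure K) sK ≠ 0 := (map_ne_zero _).2 hsK0
  obtain ⟨c', H, hH⟩ := exists_model Ψ
  obtain ⟨b1, b2, hb1, hb2, hrel⟩ := rel_push (a := c * sK * (sK ^ d)⁻¹) (mul_ne_zero (mul_ne_zero hc hsK0) (inv_ne_zero (pow_ne_zero _ hsK0)))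
    hG hH hp'h (by
      intro z
      have h1 : (fun i => eval₂ j z (p' i)) = algebraMap K (AlgebraicClosure K) sK • (fun i => aeval z (p i)) := by
        funext i
        exact hev z i
      have h2 : (fun i => eval₂ j (Φ.lift z) (p' i)) = algebraMap K (AlgebraicClosure K) sK • (fun i => aeval (Φ.lift z) (p i)) := by
        funext i
        exact hev (Φ.lift z) i
      rw [h1, h2, h z, lift_eq_pev, pev_smul Ψ.homog, smul_smul, smul_smul, map_mul, map_mul, map_inv₀, map_pow]
      congr 1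
      field_simp)
  have hpNZ' : ∀ z : Fin (N + 1) → AlgebraicClosure K, (∀ k, eval₂ j z (p' k) = 0) → z = 0 := by
    intro z hz
    apply hpNZ
    intro i
    have h1 := hz i
    rw [hev] at h1
    exact (mul_eq_zero.1 h1).resolve_left hsj
  have hpg : (fun k => eval g (p' k)) ≠ 0 := by
    intro h0
    have h1 : (fun i => j (g i)) = 0 := by
      apply hpNZ'
      intro k
      rw [← eval₂_eval]
      have := congrFun h0 k
      rw [this]
      exact map_zero _
    apply hg
    funext i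
    apply FaithfulSMul.algebraMap_injective (𝓞 K) (AlgebraicClosure K)
    rw [Pi.zero_apply, map_zero]
    exact congrFun h1 i
  have hperH := PerAE.push hH.homog hq hp'h hb1 hb2 hrel hpg hper
  obtain ⟨m, n, hmn, hpar⟩ := hΨ c' H hH _ hpg hperH
  exact preper_of_push hG.homog hG.nz hH.homog hH.nz hq hp'h hpNZ' hb1 hb2 hrel hg hmn hpar

/-- **Semiconjugacies by morphisms.** -/
theorem rigM_semi {k : ℕ} (hk : 1 ≤ k) (hq : 1 ≤ q) (Φ : Morph K N d) (Ψ : Morph K M (d ^ k))
    (p : Fin (M + 1) → MvPolynomial (Fin (N + 1)) K) (hp : ∀ i, (p i).IsHomogeneous q)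
    (hpNZ : ∀ z : Fin (N + 1) → AlgebraicClosure K, (∀ i, aeval z (p i) = 0) → z = 0) (c : K) (hc : c ≠ 0)
    (h : ∀ z : Fin (N + 1) → AlgebraicClosure K,
      (fun i => aeval (Φ.lift^[k] z) (p i)) = algebraMap K (AlgebraicClosure K) c • Ψ.lift (fun i => aeval z (p i)))
    (hΨ : RigM Ψ) : RigM Φ := by
  apply rigM_root k hk Φ (Φ.itM k) (Φ.itM_lift k)
  apply rigM_semi1 hq (Φ.itM k) Ψ p hp hpNZ c hc _ hΨ
  intro z
  rw [Φ.itM_lift k]
  exact h z

/-- **Iterates.** -/
theorem rigM_iter (k : ℕ) (hk : 1 ≤ k) (hd : 1 ≤ d) (Φ : Morph K N d) (Ψ : Morph K N (d ^ k))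
    (h : ∀ z : Fin (N + 1) → AlgebraicClosure K, Ψ.lift z = Φ.lift^[k] z) (hΦ : RigM Φ) : RigM Ψ := by
  intro c' H hH g hg hper
  obtain ⟨c, G, hG⟩ := exists_model Φ
  have hXv : ∀ {T : Type u} [CommRing T] (φ : 𝓞 K →+* T) (u : Fin (N + 1) → T),
      (fun i => eval₂ φ u ((fun i => X i : Fin (N + 1) → MvPolynomial (Fin (N + 1)) (𝓞 K)) i)) = u := by
    intro T _ φ u
    funext i
    exact eval₂_X _ _ _
  obtain ⟨b1, b2, hb1, hb2, hrel⟩ := rel_pull (l := k) hG hH (p := fun i => X i) (q := 1) (fun i => isHomogeneous_X _ _) (by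
    intro u
    rw [hXv, hXv, h])
  have hrel' : ∀ (T : Type u) [CommRing T] (φ : 𝓞 K →+* T) (z : Fin (N + 1) → T) (i : Fin (N + 1)),
      φ b1 * eval₂ φ (pev φ H z) (X i) = φ b2 * pev φ (iterPoly G k) (fun i => eval₂ φ z (X i)) i := by
    intro T _ φ z i
    rw [pev_iterPoly]
    exact hrel T φ z i
  have hitO : pevO (iterPoly G k) = (pevO G)^[k] := by
    funext z
    exact pev_iterPoly _ _ _ _
  have hgX : (fun i => eval g ((fun i => X i : Fin (N + 1) → MvPolynomial (Fin (N + 1)) (𝓞 K)) i)) = g := by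
    funext i
    exact eval_X _
  have hper1 : PerAE (iterPoly G k) g := by
    have := PerAE.push (H := iterPoly G k) (iterPoly_homog hG.homog k) le_rfl (p := fun i => X i) (fun i => isHomogeneous_X _ _)
      hb1 hb2 hrel' (g := g) (by rw [hgX]; exact hg) hper
    rwa [hgX] at this
  have hperG : PerAE G g := by
    apply hper1.subset
    intro p hp hcon
    apply hp
    obtain ⟨m, hm, hpar⟩ := hcon
    rw [hitO, ← Function.iterate_mul] at hpar
    exact ⟨k * m, Nat.mul_pos hk hm, hpar⟩
  obtain ⟨a, b, hab, hpar⟩ := hΦ c G hG g hg hperG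
  have hNZ1 : NZ (RingHom.id (𝓞 K)) G := NZ.of_injective (ψ := algebraMap (𝓞 K) (AlgebraicClosure K))
    (by rw [RingHom.comp_id]; exact hG.nz) (FaithfulSMul.algebraMap_injective (𝓞 K) (AlgebraicClosure K))
  have h1 := iter_add_par hG.homog hNZ1 g hg a (b - a) (by
    rw [show a + (b - a) = b by omega]
    exact hpar.symm) (k * a) k (Nat.le_mul_of_pos_left a hk)
  have h2 : Par ((pevO (iterPoly G k))^[a] g) ((pevO (iterPoly G k))^[b] g) := by
    rw [hitO, ← Function.iterate_mul, ← Function.iterate_mul]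
    have e : k * b = k * a + k * (b - a) := by
      rw [← Nat.mul_add]
      congr 1
      omega
    rw [e]
    exact h1.symm
  have hnzI : NZ (algebraMap (𝓞 K) (AlgebraicClosure K)) (iterPoly G k) := by
    intro z hz
    rw [pev_iterPoly]
    exact hG.nz.iter k hz
  have := preper_of_push (H := iterPoly G k) hH.homog hH.nz (iterPoly_homog hG.homog k) hnzI le_rfl (p := fun i => X i)
    (fun i => isHomogeneous_X _ _) (by
      intro z hz
      funext i
      have := hz i
      rwa [eval₂_X] at this) hb1 hb2 hrel' hg hab (by rw [hgX]; exact h2)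
  exact this

end Semi

end Pool.Agent.Lib.MP_df4dfc_nt
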