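import Mathlib
import Pool.Agent.Lib.MP_df4dfc_nt.Defs

/-!
# Definitions for the statement about almost all morphisms
-/

set_option autoImplicit false

namespace Pool.Agent.Lib.MP_df4dfc_nt

open NumberField

universe u

variable {K : Type u} [Field K] [NumberField K]

/-- The set of all tuples `(G₀, …, G_N)` of forms of degree `d` in `N + 1` variables over `𝓞 K` all
of whose coefficients have coordinates in `{-B, …, B}` with respect to the integral basis `b`. -/
def FormBox {κ : Type*} (b : Module.Basis κ ℤ (𝓞 K)) (N d B : ℕ) :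
    Set (Fin (N + 1) → MvPolynomial (Fin (N + 1)) (𝓞 K)) :=
  {G | (∀ i, (G i).IsHomogeneous d) ∧ ∀ i m k, |b.repr ((G i).coeff m) k| ≤ B}

/-- The tuple `G` defines a morphism `Φ` of degree `d`, and for every starting point `γ₁` whose
forward orbit does not contain `γ₂` the set `S(Φ, γ₁, γ₂)` has positive density. -/
def GoodMap {N : ℕ} (d : ℕ) (G : Fin (N + 1) → MvPolynomial (Fin (N + 1)) (𝓞 K)) (γ₂ : PN K N) : Prop :=
  ∃ Φ : Morph K N d, (∀ i, Φ.F i = MvPolynomial.map (algebraMap (𝓞 K) K) (G i)) ∧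
    ∀ γ₁ : PN K N, (∀ m : ℕ, Φ.map^[m] γ₁ ≠ γ₂) → PosDensity (avoidSet Φ γ₁ γ₂)

end Pool.Agent.Lib.MP_df4dfc_nt
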