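import Mathlib
import Pool.Agent.Lib.MP_df4dfc_nt.DefsGeneric

/-!
# Definitions for the statement about a positive proportion of all morphisms
-/

set_option autoImplicit false

namespace Pool.Agent.Lib.MP_df4dfc_nt

open NumberField

universe u

variable {K : Type u} [Field K] [NumberField K]

/-- The tuple `G` defines a morphism `Φ` of degree `d`, and for all points `γ₁, γ₂` such that the
forward orbit of `γ₁` does not contain `γ₂` the set `S(Φ, γ₁, γ₂)` has positive density. -/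
def GoodForAll {N : ℕ} (d : ℕ) (G : Fin (N + 1) → MvPolynomial (Fin (N + 1)) (𝓞 K)) : Prop :=
  ∃ Φ : Morph K N d, (∀ i, Φ.F i = MvPolynomial.map (algebraMap (𝓞 K) K) (G i)) ∧
    ∀ γ₁ γ₂ : PN K N, (∀ m : ℕ, Φ.map^[m] γ₁ ≠ γ₂) → PosDensity (avoidSet Φ γ₁ γ₂)

/-- The forms `(π X_N ^ d, X_0 ^ d, …, X_{N-1} ^ d)`: the `k`-th form is `X_{k-1} ^ d` for `k ≥ 1`
and the `0`-th form is `π X_N ^ d` (indices of `Fin (N + 1)` are taken modulo `N + 1`). -/
noncomputable def shiftForms (π : 𝓞 K) (d N : ℕ) : Fin (N + 1) → MvPolynomial (Fin (N + 1)) (𝓞 K) :=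
  fun k => MvPolynomial.C (if k = 0 then π else 1) * MvPolynomial.X (k - 1) ^ d

end Pool.Agent.Lib.MP_df4dfc_nt
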