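import Mathlib
import Pool.Agent.Lib.MP_df4dfc_nt.DefsGeneric

/-!
# Definitions for the statement about almost all polynomial endomorphisms
-/

set_option autoImplicit false

namespace Pool.Agent.Lib.MP_df4dfc_nt

open NumberField

universe u

variable {K : Type u} [Field K] [NumberField K]

/-- The tuples `(a X₀ ^ d, G₁, …, G_N)` of `FormBox`, with `a ∈ 𝓞 K` and `G₁, …, G_N` forms of
degree `d`: on the affine space `X₀ ≠ 0` such a tuple gives the polynomial map
`(G₁(1, x) / a, …, G_N(1, x) / a)`. -/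
def PolyBox {κ : Type*} (b : Module.Basis κ ℤ (𝓞 K)) (N d B : ℕ) :
    Set (Fin (N + 1) → MvPolynomial (Fin (N + 1)) (𝓞 K)) :=
  {G | G ∈ FormBox b N d B ∧ ∃ a : 𝓞 K, G 0 = MvPolynomial.C a * MvPolynomial.X 0 ^ d}

/-- The tuple `G` defines a morphism `Φ` of degree `d`, and for every starting point `γ₁` and every
target `γ₂` outside the hyperplane `X₀ = 0` such that the forward orbit of `γ₁` does not contain `γ₂`
the set `S(Φ, γ₁, γ₂)` has positive density. -/
def GoodForAffine {N : ℕ} (d : ℕ) (G : Fin (N + 1) → MvPolynomial (Fin (N + 1)) (𝓞 K)) : Prop :=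
  ∃ Φ : Morph K N d, (∀ i, Φ.F i = MvPolynomial.map (algebraMap (𝓞 K) K) (G i)) ∧
    ∀ γ₁ γ₂ : PN K N, γ₂.rep 0 ≠ 0 → (∀ m : ℕ, Φ.map^[m] γ₁ ≠ γ₂) → PosDensity (avoidSet Φ γ₁ γ₂)

end Pool.Agent.Lib.MP_df4dfc_nt
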