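import Mathlib
import Pool.Agent.Lib.MP_df4dfc_nt.DefsPoly

/-!
# Definitions for the statement about almost all polynomial endomorphisms
-/

set_option autoImplicit false

namespace Pool.Agent.Lib.MP_df4dfc_nt

open NumberField

universe u

variable {K : Type u} [Field K] [NumberField K]

/-- The tuple `G` defines a morphism `Φ : ℙ^N → ℙ^N` of degree `d`, and the set `S(Φ, γ₁, γ₂)` has
positive density for every starting point `γ₁` and every target `γ₂` such that the forward orbit of `γ₁`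
does not contain `γ₂`; if `N ≥ 3`, this is only required for the targets `γ₂` outside the hyperplane
`X₀ = 0`. -/
def GoodForPoly {N : ℕ} (d : ℕ) (G : Fin (N + 1) → MvPolynomial (Fin (N + 1)) (𝓞 K)) : Prop :=
  ∃ Φ : Morph K N d, (∀ i, Φ.F i = MvPolynomial.map (algebraMap (𝓞 K) K) (G i)) ∧
    ∀ γ₁ γ₂ : PN K N, (N ≤ 2 ∨ γ₂.rep 0 ≠ 0) → (∀ m : ℕ, Φ.map^[m] γ₁ ≠ γ₂) → PosDensity (avoidSet Φ γ₁ γ₂)

end Pool.Agent.Lib.MP_df4dfc_nt
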