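import Mathlib
import Pool.Agent.Lib.MP_df4dfc_nt.DefsEmb
import Pool.Agent.Lib.MP_df4dfc_nt.Cv2
import Pool.Agent.Lib.MP_df4dfc_nt.Asm7

set_option autoImplicit false
set_option linter.unusedSectionVars false
set_option linter.style.haveILetI false
set_option linter.unusedVariables false

/-! Embedded invariant subvarieties. -/

namespace Pool.Agent.Lib.MP_df4dfc_nt

open MvPolynomial NumberField IsDedekindDomain

universe u

section Per

variable {K : Type u} [Field K] [NumberField K] {ι : Type} [Fintype ι]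

theorem PerAE.of_par {G : ι → MvPolynomial ι (𝓞 K)} {d : ℕ} (hG : ∀ i, (G i).IsHomogeneous d)
    (hGNZ : NZ (algebraMap (𝓞 K) (AlgebraicClosure K)) G) {g g' : ι → 𝓞 K} (hg : g ≠ 0) (hg' : g' ≠ 0)
    (h : Par g g') (hper : PerAE G g) : PerAE G g' := by
  obtain ⟨s0, hs0, hs0'⟩ := good_ae.{u} (algebraMap (𝓞 K) (AlgebraicClosure K))
    (FaithfulSMul.algebraMap_injective (𝓞 K) (AlgebraicClosure K)) G hGNZ
  obtain ⟨k, hk⟩ := Function.ne_iff.1 hg
  obtain ⟨k', hk'⟩ := Function.ne_iff.1 hg'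
  rw [Pi.zero_apply] at hk hk'
  apply ((finite_bad' (s0 * g k * g' k') (mul_ne_zero (mul_ne_zero hs0 hk) hk')).union hper).subset
  intro P hP
  by_contra hcon
  rw [Set.mem_union, not_or] at hcon
  obtain ⟨hc1, hc2⟩ := hcon
  simp only [Set.mem_ofPred_eq, not_not] at hc1 hc2
  apply hP
  haveI := P.isMaximal
  letI : Field (𝓞 K ⧸ P.asIdeal) := Ideal.Quotient.field _
  have hc3 : redK P (s0 * g k * g' k') ≠ 0 := fun h => hc1 (Ideal.Quotient.eq_zero_iff_mem.1 h)
  simp only [map_mul, mul_ne_zero_iff] at hc3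
  obtain ⟨⟨e1, e2⟩, e3⟩ := hc3
  have hNZ := hs0' _ (redK P) e1
  obtain ⟨m, hm, hpar⟩ := hc2
  refine ⟨m, hm, ?_⟩
  have hit : ∀ z : ι → 𝓞 K, (fun i => redK P ((pevO G)^[m] z i)) = (pev (redK P) G)^[m] (fun i => redK P (z i)) := by
    intro z
    rw [pev_iter_map, RingHom.comp_id]
  rw [hit] at hpar ⊢
  have h1 : (fun i => redK P (g i)) ≠ 0 := fun h0 => e2 (congrFun h0 k)
  have h2 : (fun i => redK P (g' i)) ≠ 0 := fun h0 => e3 (congrFun h0 k')
  have h3 := h.map (redK P)
  have h4 := pev_iter_par hG hNZ m h3.symm h1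
  exact (h4.trans hpar (hNZ.iter m h1)).trans h3 h1

theorem PerAE.iterate {G : ι → MvPolynomial ι (𝓞 K)} {d : ℕ} (hG : ∀ i, (G i).IsHomogeneous d)
    (hGNZ : NZ (algebraMap (𝓞 K) (AlgebraicClosure K)) G) {g : ι → 𝓞 K} (hg : g ≠ 0) (hper : PerAE G g) (j : ℕ) :
    PerAE G ((pevO G)^[j] g) := by
  obtain ⟨s0, hs0, hs0'⟩ := good_ae.{u} (algebraMap (𝓞 K) (AlgebraicClosure K))
    (FaithfulSMul.algebraMap_injective (𝓞 K) (AlgebraicClosure K)) G hGNZ
  obtain ⟨k, hk⟩ := Function.ne_iff.1 hg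
  rw [Pi.zero_apply] at hk
  apply ((finite_bad' (s0 * g k) (mul_ne_zero hs0 hk)).union hper).subset
  intro P hP
  by_contra hcon
  rw [Set.mem_union, not_or] at hcon
  obtain ⟨hc1, hc2⟩ := hcon
  simp only [Set.mem_ofPred_eq, not_not] at hc1 hc2
  apply hP
  haveI := P.isMaximal
  letI : Field (𝓞 K ⧸ P.asIdeal) := Ideal.Quotient.field _
  have hc3 : redK P (s0 * g k) ≠ 0 := fun h => hc1 (Ideal.Quotient.eq_zero_iff_mem.1 h)
  simp only [map_mul, mul_ne_zero_iff] at hc3
  obtain ⟨e1, e2⟩ := hc3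
  have hNZ := hs0' _ (redK P) e1
  obtain ⟨m, hm, hpar⟩ := hc2
  refine ⟨m, hm, ?_⟩
  have hit : ∀ (r : ℕ) (z : ι → 𝓞 K), (fun i => redK P ((pevO G)^[r] z i)) = (pev (redK P) G)^[r] (fun i => redK P (z i)) := by
    intro r z
    rw [pev_iter_map, RingHom.comp_id]
  rw [hit] at hpar
  rw [hit, hit]
  have h1 : (fun i => redK P (g i)) ≠ 0 := fun h0 => e2 (congrFun h0 k)
  have h4 := pev_iter_par hG hNZ j hpar h1
  rw [← Function.iterate_add_apply] at h4 ⊢
  rw [Nat.add_comm m j]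
  exact h4

end Per

section Param

variable {K : Type u} [Field K] [NumberField K]

/-- integral relation for a parametrization, with a scalar -/
theorem rel_pull' {m n d D l : ℕ} {Φ : Morph K n d} {R : Morph K m D} {c c' : K}
    {G : Fin (n + 1) → MvPolynomial (Fin (n + 1)) (𝓞 K)} {H : Fin (m + 1) → MvPolynomial (Fin (m + 1)) (𝓞 K)}
    (hG : Model Φ c G) (hH : Model R c' H) {p : Fin (n + 1) → MvPolynomial (Fin (m + 1)) (𝓞 K)} {q : ℕ}
    (hp : ∀ k, (p k).IsHomogeneous q) {a : K} (ha : a ≠ 0)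
    (h : ∀ u : Fin (m + 1) → AlgebraicClosure K,
      (fun i => eval₂ (algebraMap (𝓞 K) (AlgebraicClosure K)) (R.lift u) (p i))
        = algebraMap K (AlgebraicClosure K) a • Φ.lift^[l] (fun i => eval₂ (algebraMap (𝓞 K) (AlgebraicClosure K)) u (p i))) :
    ∃ b1 b2 : 𝓞 K, b1 ≠ 0 ∧ b2 ≠ 0 ∧ ∀ (T : Type u) [CommRing T] (φ : 𝓞 K →+* T) (u : Fin (m + 1) → T) (i : Fin (n + 1)),
      φ b1 * eval₂ φ (pev φ H u) (p i) = φ b2 * (pev φ G)^[l] (fun i => eval₂ φ u (p i)) i := by
  set j := algebraMap (𝓞 K) (AlgebraicClosure K) with hj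
  obtain ⟨e, he⟩ := hG.lift_iter l
  obtain ⟨b1, b2, hb1, hb2, hrel⟩ := clear_scalars (fun i => bind₁ H (p i)) (fun i => bind₁ p (iterPoly G l i))
    (α := c ^ e) (β := c' ^ q * a) (pow_ne_zero e hG.1) (mul_ne_zero (pow_ne_zero q hH.1) ha) (by
      intro u i
      have e1 : eval₂ j u (bind₁ H (p i)) = algebraMap K (AlgebraicClosure K) c' ^ q * eval₂ j (R.lift u) (p i) := by
        have := eval₂Hom_bind₁ j u H (p i)
        simp only [coe_eval₂Hom] at this
        rw [this]
        change eval₂ j (pev j H u) (p i) = _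
        rw [hH.lift]
        exact eval₂_smul_of_homog (hp i) j _ _
      have e2 : eval₂ j u (bind₁ p (iterPoly G l i)) = algebraMap K (AlgebraicClosure K) c ^ e * Φ.lift^[l] (fun i => eval₂ j u (p i)) i := by
        have := eval₂Hom_bind₁ j u p (iterPoly G l i)
        simp only [coe_eval₂Hom] at this
        rw [this]
        change pev j (iterPoly G l) (fun i => eval₂ j u (p i)) i = _
        rw [pev_iterPoly, he]
        rfl
      rw [e1, e2, map_pow, map_mul, map_pow, congrFun (h u) i]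
      simp only [Pi.smul_apply, smul_eq_mul]
      ring)
  refine ⟨b1, b2, hb1, hb2, ?_⟩
  intro T _ φ u i
  have h1 := congrArg (eval₂ φ u) (hrel i)
  rw [eval₂_mul, eval₂_mul, eval₂_C, eval₂_C] at h1
  have h2 := eval₂Hom_bind₁ φ u H (p i)
  have h3 := eval₂Hom_bind₁ φ u p (iterPoly G l i)
  simp only [coe_eval₂Hom] at h2 h3
  rw [h2, h3] at h1
  have h4 : (pev φ G)^[l] (fun i => eval₂ φ u (p i)) i = eval₂ φ (fun i => eval₂ φ u (p i)) (iterPoly G l i) := by
    rw [← pev_iterPoly]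
    rfl
  rw [h4]
  exact h1

/-- injectivity modulo almost all primes -/
theorem emb_spread {m n q : ℕ} {p : Fin (n + 1) → MvPolynomial (Fin (m + 1)) K} {h : MvPolynomial (Fin (m + 1)) K}
    (hp : Parametrizes p q h) {s : 𝓞 K} (hs : s ≠ 0)
    {p' : Fin (n + 1) → MvPolynomial (Fin (m + 1)) (𝓞 K)}
    (hp' : ∀ k, MvPolynomial.map (algebraMap (𝓞 K) K) (p' k) = C (algebraMap (𝓞 K) K s) * p k)
    {sh : 𝓞 K} (hsh : sh ≠ 0) {h' : MvPolynomial (Fin (m + 1)) (𝓞 K)}
    (hh' : MvPolynomial.map (algebraMap (𝓞 K) K) h' = C (algebraMap (𝓞 K) K sh) * h) :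
    ∃ s1 : 𝓞 K, s1 ≠ 0 ∧ ∀ (k : Type u) [Field k] (φ : 𝓞 K →+* k), φ s1 ≠ 0 → ∀ u u' : Fin (m + 1) → k,
      eval₂ φ u' h' ≠ 0 → Par (fun i => eval₂ φ u (p' i)) (fun i => eval₂ φ u' (p' i)) → Par u u' := by
  classical
  set j := algebraMap (𝓞 K) (AlgebraicClosure K) with hj
  have hjinj : Function.Injective j := FaithfulSMul.algebraMap_injective (𝓞 K) (AlgebraicClosure K)
  have hev : ∀ (z : Fin (m + 1) → AlgebraicClosure K) i, eval₂ j z (p' i) = j s * aeval z (p i) := by
    intro z i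
    exact eval_int_poly (hp' i) z
  have hjs : j s ≠ 0 := fun h0 => hs (hjinj (by rw [h0, map_zero]))
  have hevh : ∀ z : Fin (m + 1) → AlgebraicClosure K, eval₂ j z h' = j sh * aeval z h := fun z => eval_int_poly hh' z
  have hΩ : ∀ u u' : Fin (m + 1) → AlgebraicClosure K, eval₂ j u' h' ≠ 0 →
      Par (fun i => eval₂ j u (p' i)) (fun i => eval₂ j u' (p' i)) → Par u u' := by
    intro u u' hh0 hpar
    have hh1 : aeval u' h ≠ 0 := by
      intro h0
      rw [hevh, h0, mul_zero] at hh0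
      exact hh0 rfl
    by_cases hu : u = 0
    · rw [hu]
      exact (Par.zero_right u').symm
    by_cases hu' : u' = 0
    · rw [hu']
      exact Par.zero_right u
    have hne : (fun i => eval₂ j u' (p' i)) ≠ 0 := by
      intro h0
      apply hu'
      apply hp.2.2.2.1
      intro i
      have := congrFun h0 i
      rw [Pi.zero_apply, hev] at this
      exact (mul_eq_zero.1 this).resolve_left hjs
    obtain ⟨c, hc⟩ := hpar.exists_smul hne
    obtain ⟨c', hc'⟩ := hp.2.2.2.2 u u' c hu hu' hh1 (by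
      funext i
      have h1 := congrFun hc i
      simp only [Pi.smul_apply, smul_eq_mul, hev] at h1 ⊢
      apply mul_left_cancel₀ hjs
      rw [h1]
      ring)
    exact Par.of_eq_smul hc'
  -- spread out
  set A : Fin (n + 1) → MvPolynomial (Fin (m + 1) × Bool) (𝓞 K) := fun i => rename (fun a => (a, true)) (p' i) with hA
  set B : Fin (n + 1) → MvPolynomial (Fin (m + 1) × Bool) (𝓞 K) := fun i => rename (fun a => (a, false)) (p' i) with hB
  set I : Ideal (MvPolynomial (Fin (m + 1) × Bool) (𝓞 K)) :=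
    Ideal.span (Set.range fun x : Fin (n + 1) × Fin (n + 1) => A x.1 * B x.2 - A x.2 * B x.1) with hI
  have hAv : ∀ {T : Type u} [CommRing T] (φ : 𝓞 K →+* T) (y : Fin (m + 1) × Bool → T) i,
      eval₂ φ y (A i) = eval₂ φ (fun a => y (a, true)) (p' i) := by
    intro T _ φ y i
    rw [hA, eval₂_rename]
    rfl
  have hBv : ∀ {T : Type u} [CommRing T] (φ : 𝓞 K →+* T) (y : Fin (m + 1) × Bool → T) i,
      eval₂ φ y (B i) = eval₂ φ (fun a => y (a, false)) (p' i) := by
    intro T _ φ y i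
    rw [hB, eval₂_rename]
    rfl
  have hIv : ∀ {T : Type u} [CommRing T] (φ : 𝓞 K →+* T) (y : Fin (m + 1) × Bool → T),
      (∀ f ∈ I, eval₂ φ y f = 0) ↔ Par (fun i => eval₂ φ (fun a => y (a, true)) (p' i)) (fun i => eval₂ φ (fun a => y (a, false)) (p' i)) := by
    intro T _ φ y
    constructor
    · intro h a b
      have := h _ (Ideal.subset_span ⟨(a, b), rfl⟩)
      rw [eval₂_sub, eval₂_mul, eval₂_mul, hAv, hAv, hBv, hBv, sub_eq_zero] at this
      exact this
    · intro h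
      have hle : I ≤ RingHom.ker (eval₂Hom φ y) := by
        rw [hI, Ideal.span_le]
        rintro _ ⟨⟨a, b⟩, rfl⟩
        rw [SetLike.mem_coe, RingHom.mem_ker, coe_eval₂Hom, eval₂_sub, eval₂_mul, eval₂_mul, hAv, hAv, hBv, hBv, sub_eq_zero]
        exact h a b
      intro f hf
      exact hle hf
  have hsp : ∀ x : Fin (m + 1) × Fin (m + 1), ∃ s : 𝓞 K, s ≠ 0 ∧ ∀ (k : Type u) [Field k] (φ : 𝓞 K →+* k), φ s ≠ 0 →
      ∀ y : Fin (m + 1) × Bool → k, (∀ f ∈ I, eval₂ φ y f = 0) →
        eval₂ φ y ((X (x.1, true) * X (x.2, false) - X (x.2, true) * X (x.1, false)) * rename (fun a => (a, false)) h') = 0 := by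
    intro x
    apply spread j hjinj
    intro y hy
    rw [hIv] at hy
    rw [eval₂_mul, eval₂_rename]
    by_cases h0 : eval₂ j (y ∘ fun a => (a, false)) h' = 0
    · rw [h0, mul_zero]
    · have h1 := hΩ _ _ h0 hy x.1 x.2
      rw [eval₂_sub, eval₂_mul, eval₂_mul, eval₂_X, eval₂_X, eval₂_X, eval₂_X]
      have h2 : y (x.1, true) * y (x.2, false) - y (x.2, true) * y (x.1, false) = 0 := by
        rw [sub_eq_zero]
        exact h1
      rw [h2, zero_mul]
  choose t ht ht' using hsp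
  refine ⟨∏ x, t x, Finset.prod_ne_zero_iff.2 fun x _ => ht x, ?_⟩
  intro k _ φ hφ u u' hhu hpar a b
  rw [map_prod, Finset.prod_ne_zero_iff] at hφ
  have h1 := ht' (a, b) k φ (hφ (a, b) (Finset.mem_univ _)) (fun x => if x.2 then u x.1 else u' x.1) (by
    rw [hIv]
    exact hpar)
  rw [eval₂_mul, eval₂_rename] at h1
  have h2 := (mul_eq_zero.1 h1).resolve_right hhu
  rw [eval₂_sub, eval₂_mul, eval₂_mul, eval₂_X, eval₂_X, eval₂_X, eval₂_X, sub_eq_zero] at h2
  exact h2

/-- **Rigidity on an embedded projective space.** -/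
theorem rigid_on_emb {m n d l q : ℕ} (hd : 1 ≤ d) (hl : 1 ≤ l) {Φ : Morph K n d} {R : Morph K m (d ^ l)} {c : K}
    {G : Fin (n + 1) → MvPolynomial (Fin (n + 1)) (𝓞 K)} (hG : Model Φ c G) (hR : RigM R)
    {p : Fin (n + 1) → MvPolynomial (Fin (m + 1)) K} {hf : MvPolynomial (Fin (m + 1)) K} (hp : Parametrizes p q hf) {a : K} (ha : a ≠ 0)
    (h : ∀ u : Fin (m + 1) → AlgebraicClosure K,
      (fun i => aeval (R.lift u) (p i)) = algebraMap K (AlgebraicClosure K) a • Φ.lift^[l] (fun i => aeval u (p i)))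
    {y : Fin (n + 1) → 𝓞 K} (hy : y ≠ 0) (hper : PerAE G y) {u : Fin (m + 1) → AlgebraicClosure K} (hfu : aeval u hf ≠ 0)
    (hu : (fun i => algebraMap (𝓞 K) (AlgebraicClosure K) (y i)) = fun i => aeval u (p i)) :
    ∃ m n : ℕ, m < n ∧ Par ((pevO G)^[m] y) ((pevO G)^[n] y) := by
  set j := algebraMap (𝓞 K) (AlgebraicClosure K) with hj
  have hjinj : Function.Injective j := FaithfulSMul.algebraMap_injective (𝓞 K) (AlgebraicClosure K)
  obtain ⟨s, p', hs, hp'⟩ := exists_int_family p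
  have hjs : j s ≠ 0 := fun h0 => hs (hjinj (by rw [h0, map_zero]))
  have hev : ∀ (z : Fin (m + 1) → AlgebraicClosure K) i, eval₂ j z (p' i) = j s * aeval z (p i) := by
    intro z i
    exact eval_int_poly (hp' i) z
  have hp'h : ∀ i, (p' i).IsHomogeneous q := by
    intro i
    have h1 : (MvPolynomial.map (algebraMap (𝓞 K) K) (p' i)).IsHomogeneous q := by
      rw [hp' i]
      exact (hp.2.1 i).C_mul _
    exact IsHomogeneous.of_map (f := algebraMap (𝓞 K) K) inj_O h1
  have hyΩ : (fun i => j (y i)) ≠ 0 := by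
    intro h0
    apply hy
    funext i
    apply hjinj
    rw [Pi.zero_apply, map_zero]
    exact congrFun h0 i
  have hu0 : u ≠ 0 := by
    rintro rfl
    apply hyΩ
    rw [hu]
    funext i
    have h1 := eval₂_smul_of_homog (hp.2.1 i) (algebraMap K (AlgebraicClosure K)) 0 (0 : Fin (m + 1) → AlgebraicClosure K)
    rw [smul_zero, zero_pow (by have := hp.1; omega), zero_mul] at h1
    exact h1
  -- rationality of the parameter
  have hgal : ∀ σ : Gal(AlgebraicClosure K/K), Par (fun i => σ (u i)) u := by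
    intro σ
    have hσ0 : (fun i => σ (u i)) ≠ 0 := by
      intro h0
      apply hu0
      funext i
      have := congrFun h0 i
      exact (map_eq_zero σ).1 this
    have h1 : (fun i => aeval (fun a => σ (u a)) (p i)) = (1 : AlgebraicClosure K) • (fun i => aeval u (p i)) := by
      rw [one_smul]
      funext i
      have h2 : aeval (fun a => σ (u a)) (p i) = σ (aeval u (p i)) := by
        have := MvPolynomial.comp_aeval_apply (σ : AlgebraicClosure K →ₐ[K] AlgebraicClosure K) (f := u) (p i)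
        exact this.symm
      have h3 := congrFun hu i
      rw [h2, ← h3]
      exact σ.commutes (algebraMap (𝓞 K) K (y i))
    obtain ⟨c', hc'⟩ := hp.2.2.2.2 _ u 1 hσ0 hu0 hfu h1
    exact Par.of_eq_smul hc'
  obtain ⟨u0, hu00, hpu0⟩ := descent' u hu0 hgal
  have hpu : Par (fun i => eval u0 (p' i)) y := by
    apply Par.of_map j hjinj
    have h1 : (fun i => j (eval u0 (p' i))) = (fun i => eval₂ j (fun a => j (u0 a)) (p' i)) := by
      funext i
      exact eval₂_eval _ _ _
    obtain ⟨b, hb⟩ := hpu0.exists_smul hu0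
    rw [h1, hb, val_smul hp'h]
    have h2 : (fun i => eval₂ j u (p' i)) = j s • (fun i => j (y i)) := by
      funext i
      rw [hev]
      have h3 := congrFun hu i
      rw [← h3]
      rfl
    rw [h2]
    exact ((Par.refl _).smul_left _).smul_left _
  have hpne : (fun i => eval u0 (p' i)) ≠ 0 := by
    intro h0
    have h1 : (fun i => j (u0 i)) = 0 := by
      apply hp.2.2.2.1
      intro i
      have h2 := congrArg j (congrFun h0 i)
      rw [Pi.zero_apply, map_zero, eval₂_eval j u0 (p' i), hev] at h2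
      exact (mul_eq_zero.1 h2).resolve_left hjs
    apply hu00
    funext i
    apply hjinj
    rw [Pi.zero_apply, map_zero]
    exact congrFun h1 i
  -- the parametrization
  obtain ⟨c', H, hH⟩ := exists_model R
  have hsK : algebraMap (𝓞 K) K s ≠ 0 := fun h0 => hs (inj_O (by rw [h0, map_zero]))
  obtain ⟨b1, b2, hb1, hb2, hrel⟩ := rel_pull' (l := l) (a := a * algebraMap (𝓞 K) K s * ((algebraMap (𝓞 K) K s) ^ (d ^ l))⁻¹) hG hH hp'h
    (mul_ne_zero (mul_ne_zero ha hsK) (inv_ne_zero (pow_ne_zero _ hsK))) (by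
      intro u
      have hsj : algebraMap K (AlgebraicClosure K) (algebraMap (𝓞 K) K s) = j s := rfl
      have h1 : (fun i => eval₂ j u (p' i)) = j s • (fun i => aeval u (p i)) := by
        funext i
        exact hev u i
      have h2 : (fun i => eval₂ j (R.lift u) (p' i)) = j s • (fun i => aeval (R.lift u) (p i)) := by
        funext i
        exact hev (R.lift u) i
      rw [h1, h2, h u, lift_eq_pev, pev_iter_smul Φ.homog, smul_smul, smul_smul, map_mul, map_mul, map_inv₀, map_pow, hsj]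
      congr 1
      field_simp)
  obtain ⟨sh, h', hsh, hh'⟩ := exists_int_poly hf
  obtain ⟨s1, hs1, hs1'⟩ := emb_spread hp hs hp' hsh hh'
  have hhu0 : eval u0 h' ≠ 0 := by
    intro h0
    obtain ⟨e, he⟩ := hp.2.2.1
    obtain ⟨b, hb⟩ := hpu0.exists_smul hu0
    have hb0 : b ≠ 0 := by
      rintro rfl
      rw [zero_smul] at hb
      apply hu00
      funext i
      apply hjinj
      rw [Pi.zero_apply, map_zero]
      exact congrFun hb i
    have h1 := congrArg j h0
    rw [map_zero, eval₂_eval j u0 h', eval_int_poly hh', hb] at h1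
    have h2 := (mul_eq_zero.1 h1).resolve_left (fun h3 => hsh (hjinj (by rw [h3, map_zero])))
    rw [aeval_def, eval₂_smul_of_homog he] at h2
    exact hfu ((mul_eq_zero.1 h2).resolve_left (pow_ne_zero _ hb0))
  have hperp : PerAE G (fun i => eval u0 (p' i)) := hper.of_par hG.homog hG.nz hy hpne hpu.symm
  have hperH := PerAE.pull hd hG.homog hG.nz hH.nz hp.1 hp'h hb1 hb2 hrel (mul_ne_zero hs1 hhu0) hpne
    (fun k _ φ hφ u _ hpar => hs1' k φ (fun h0 => hφ (by rw [map_mul, h0, zero_mul])) u (fun a => φ (u0 a))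
      (fun h0 => hφ (by rw [map_mul, eval₂_eval φ u0 h', h0, mul_zero])) hpar) hperp
  obtain ⟨a', b', hab, hpar⟩ := hR c' H hH u0 hu00 hperH
  obtain ⟨a'', b'', hab', hpar'⟩ := preper_of_param (D := d) hl hG.homog hH.nz hp'h hb1 hb2 hrel hu00 hab hpar
  have hNZ1 : NZ (RingHom.id (𝓞 K)) G := NZ.of_injective (ψ := algebraMap (𝓞 K) (AlgebraicClosure K))
    (by rw [RingHom.comp_id]; exact hG.nz) (FaithfulSMul.algebraMap_injective (𝓞 K) (AlgebraicClosure K))
  refine ⟨a'', b'', hab', ?_⟩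
  have h5 := pev_iter_par hG.homog hNZ1 a'' hpu.symm hpne
  have h6 := pev_iter_par hG.homog hNZ1 b'' hpu hy
  exact (h5.trans hpar' (hNZ1.iter _ hpne)).trans h6 (hNZ1.iter _ hpne)

end Param

end Pool.Agent.Lib.MP_df4dfc_nt
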