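import Mathlib
import Pool.Agent.Lib.MP_df4dfc_nt.Em1

set_option autoImplicit false
set_option linter.unusedSectionVars false
set_option linter.style.haveILetI false
set_option linter.unusedVariables false

/-! Extension from an invariant hypersurface covered by embedded projective spaces. -/

namespace Pool.Agent.Lib.MP_df4dfc_nt

open MvPolynomial NumberField IsDedekindDomain

universe u

section Ext

variable {K : Type u} [Field K] [NumberField K] {N d r : ℕ}

/-- points that are mapped by an iterate into an embedded invariant space are rigid -/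
theorem rigid_of_covered (hd : 1 ≤ d) (Φ : Morph K N d) {m l q : Fin r → ℕ}
    (R : ∀ t, Morph K (m t) (d ^ l t)) (p : ∀ t, Fin (N + 1) → MvPolynomial (Fin (m t + 1)) K)
    (h : ∀ t, MvPolynomial (Fin (m t + 1)) K) (a : Fin r → K)
    (hl : ∀ t, 1 ≤ l t) (hp : ∀ t, Parametrizes (p t) (q t) (h t)) (ha : ∀ t, a t ≠ 0)
    (hrel : ∀ t (u : Fin (m t + 1) → AlgebraicClosure K),
      (fun i => aeval ((R t).lift u) (p t i)) =
        algebraMap K (AlgebraicClosure K) (a t) • Φ.lift^[l t] (fun i => aeval u (p t i)))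
    (hR : ∀ t, RigM (R t)) {c : K} {G : Fin (N + 1) → MvPolynomial (Fin (N + 1)) (𝓞 K)} (hG : Model Φ c G)
    {g : Fin (N + 1) → 𝓞 K} (hg : g ≠ 0) (hper : PerAE G g)
    (hcov : ∃ (j : ℕ) (t : Fin r) (u : Fin (m t + 1) → AlgebraicClosure K), aeval u (h t) ≠ 0 ∧
      Φ.lift^[j] (fun i => algebraMap (𝓞 K) (AlgebraicClosure K) (g i)) = fun i => aeval u (p t i)) :
    ∃ m n : ℕ, m < n ∧ Par ((pevO G)^[m] g) ((pevO G)^[n] g) := by
  set j := algebraMap (𝓞 K) (AlgebraicClosure K) with hj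
  obtain ⟨i, t, u, hhu, hu⟩ := hcov
  have hNZ1 : NZ (RingHom.id (𝓞 K)) G := NZ.of_injective (ψ := j)
    (by rw [RingHom.comp_id]; exact hG.nz) (FaithfulSMul.algebraMap_injective (𝓞 K) (AlgebraicClosure K))
  obtain ⟨e, he⟩ := hG.lift_iter i
  set y := (pevO G)^[i] g with hy
  have hy0 : y ≠ 0 := hNZ1.iter i hg
  have hyΩ : (fun k => j (y k)) = (algebraMap K (AlgebraicClosure K) c) ^ e • (fun k => aeval u (p t k)) := by
    rw [hy]
    have h1 := pev_iter_map (RingHom.id (𝓞 K)) j G i g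
    rw [RingHom.comp_id] at h1
    rw [h1, he, hu]
  obtain ⟨μ, hμ⟩ := IsAlgClosed.exists_pow_nat_eq ((algebraMap K (AlgebraicClosure K) c) ^ e) (n := q t) (by have := (hp t).1; omega)
  have hyu : (fun k => j (y k)) = fun k => aeval (μ • u) (p t k) := by
    rw [hyΩ, ← hμ]
    funext k
    have h1 := eval₂_smul_of_homog ((hp t).2.1 k) (algebraMap K (AlgebraicClosure K)) μ u
    rw [aeval_def, h1]
    rfl
  have hμ0 : μ ≠ 0 := by
    rintro rfl
    rw [zero_pow (by have := (hp t).1; omega)] at hμ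
    exact pow_ne_zero e ((map_ne_zero _).2 hG.1) hμ.symm
  have hhu' : aeval (μ • u) (h t) ≠ 0 := by
    obtain ⟨e', he'⟩ := (hp t).2.2.1
    rw [aeval_def, eval₂_smul_of_homog he']
    exact mul_ne_zero (pow_ne_zero _ hμ0) hhu
  obtain ⟨m', n', hmn, hpar⟩ := rigid_on_emb hd (hl t) hG (hR t) (hp t) (ha t) (hrel t) hy0
    (hper.iterate hG.homog hG.nz hg i) hhu' hyu
  refine ⟨m' + i, n' + i, by omega, ?_⟩
  rw [Function.iterate_add_apply, Function.iterate_add_apply]
  exact hpar

/-- **Extension from an invariant hypersurface.** -/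
theorem rigM_emb (hd : 2 ≤ d) (Φ : Morph K N d) (w v : MvPolynomial (Fin (N + 1)) K) {Dw D : ℕ}
    (hw : w.IsHomogeneous Dw) (hv : v.IsHomogeneous D) (hD : 1 ≤ D)
    (hinv : ∀ z : Fin (N + 1) → AlgebraicClosure K, aeval z w = 0 → aeval (Φ.lift z) w = 0)
    (a : ℕ) (hpre : ∀ z : Fin (N + 1) → AlgebraicClosure K, aeval z v = 0 → aeval (Φ.lift^[a] z) w = 0)
    (hno : Φ.NoMaxIn ∅ v) {m l q : Fin r → ℕ}
    (R : ∀ t, Morph K (m t) (d ^ l t)) (p : ∀ t, Fin (N + 1) → MvPolynomial (Fin (m t + 1)) K)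
    (h : ∀ t, MvPolynomial (Fin (m t + 1)) K) (b : Fin r → K)
    (hl : ∀ t, 1 ≤ l t) (hp : ∀ t, Parametrizes (p t) (q t) (h t)) (hb : ∀ t, b t ≠ 0)
    (hrel : ∀ t (u : Fin (m t + 1) → AlgebraicClosure K),
      (fun i => aeval ((R t).lift u) (p t i)) =
        algebraMap K (AlgebraicClosure K) (b t) • Φ.lift^[l t] (fun i => aeval u (p t i)))
    (hcov : ∀ z : Fin (N + 1) → AlgebraicClosure K, z ≠ 0 → aeval z w = 0 →
      (∃ (i j : ℕ) (c : AlgebraicClosure K), i < j ∧ Φ.lift^[j] z = c • Φ.lift^[i] z) ∨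
      ∃ (j : ℕ) (t : Fin r) (u : Fin (m t + 1) → AlgebraicClosure K), aeval u (h t) ≠ 0 ∧
        Φ.lift^[j] z = fun i => aeval u (p t i))
    (hR : ∀ t, RigM (R t)) : RigM Φ := by
  intro c G hG g hg hper
  set j := algebraMap (𝓞 K) (AlgebraicClosure K) with hj
  have hjinj : Function.Injective j := FaithfulSMul.algebraMap_injective (𝓞 K) (AlgebraicClosure K)
  by_cases hgw : eval (fun i => (g i : K)) w = 0
  · have hg1 : (fun i => j (g i)) ≠ 0 := by
      intro h0
      apply hg
      funext i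
      apply hjinj
      rw [Pi.zero_apply, map_zero]
      exact congrFun h0 i
    have hg2 : aeval (fun i => j (g i)) w = 0 := by
      have h1 := aeval_algebraMap_apply (AlgebraicClosure K) (fun i => (g i : K)) w
      have h2 : aeval (fun i => (g i : K)) w = eval (fun i => (g i : K)) w := by
        rw [aeval_eq_eval]
      rw [h2, hgw, map_zero] at h1
      exact h1
    rcases hcov _ hg1 hg2 with ⟨i1, i2, c', hi, hc'⟩ | hcov'
    · refine ⟨i1, i2, hi, ?_⟩
      apply Par.of_map j hjinj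
      have h3 : ∀ n, (fun i => j ((pevO G)^[n] g i)) = (pev j G)^[n] (fun i => j (g i)) := by
        intro n
        have h1 := pev_iter_map (RingHom.id (𝓞 K)) j G n g
        rw [RingHom.comp_id] at h1
        exact h1
      obtain ⟨e1, he1⟩ := hG.lift_iter i1
      obtain ⟨e2, he2⟩ := hG.lift_iter i2
      rw [h3, h3, he1, he2, hc']
      exact (((Par.refl _).smul_left _).smul_left _).symm.smul_left _
    · exact rigid_of_covered (by omega) Φ R p h b hl hp hb hrel hR hG hg hper hcov'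
  · exact preper_max hd Φ hG ∅ (by simp) (by simp) w v hw hv hD (fun z _ hz => hinv z hz) a (fun z _ hz => hpre z hz) hno g hg hper
      (by simp) hgw

end Ext

end Pool.Agent.Lib.MP_df4dfc_nt
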