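import Mathlib
import Pool.Agent.Lib.MP_df4dfc_nt.Iv12

set_option autoImplicit false
set_option linter.unusedSectionVars false
set_option linter.style.haveILetI false
set_option linter.unusedVariables false

/-! Extension of the base field. -/

namespace Pool.Agent.Lib.MP_df4dfc_nt

open MvPolynomial NumberField IsDedekindDomain

universe u

theorem numberField_of_finite (K K' : Type u) [Field K] [NumberField K] [Field K'] [Algebra K K'] [FiniteDimensional K K'] :
    NumberField K' := by
  haveI : CharZero K' := charZero_of_injective_algebraMap (algebraMap K K').injective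
  haveI : IsScalarTower ℚ K K' := IsScalarTower.of_algebraMap_eq fun x => by
    rw [eq_ratCast, eq_ratCast, map_ratCast]
  haveI : FiniteDimensional ℚ K' := Module.Finite.trans K K'
  exact { to_charZero := inferInstance, to_finiteDimensional := inferInstance }

variable {K K' : Type u} [Field K] [NumberField K] [Field K'] [NumberField K'] [Algebra K K'] {N d : ℕ}

/-- the prime below -/
theorem exists_below (P : HeightOneSpectrum (𝓞 K')) : ∃ p : HeightOneSpectrum (𝓞 K),
    p.asIdeal = P.asIdeal.comap (algebraMap (𝓞 K) (𝓞 K')) := by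
  have hprime : (P.asIdeal.comap (algebraMap (𝓞 K) (𝓞 K'))).IsPrime := by
    haveI := P.isPrime
    exact Ideal.IsPrime.comap _
  have hne : P.asIdeal.comap (algebraMap (𝓞 K) (𝓞 K')) ≠ ⊥ := by
    obtain ⟨x, hx, hx0⟩ := Submodule.exists_mem_ne_zero_of_ne_bot P.ne_bot
    have hint : IsIntegral (𝓞 K) x := by
      have h1 : IsIntegral ℤ x := by
        have := RingOfIntegers.isIntegral x
        exact this
      exact h1.tower_top
    exact Ideal.comap_ne_bot_of_integral_mem hx0 hx hint
  exact ⟨⟨_, hprime, hne⟩, rfl⟩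

/-- a common nonzero element of finitely many primes -/
theorem exists_common (B : Set (HeightOneSpectrum (𝓞 K))) (hB : B.Finite) :
    ∃ s : 𝓞 K, s ≠ 0 ∧ ∀ p ∈ B, s ∈ p.asIdeal := by
  classical
  have h1 : ∀ p : HeightOneSpectrum (𝓞 K), ∃ x ∈ p.asIdeal, x ≠ 0 := fun p =>
    Submodule.exists_mem_ne_zero_of_ne_bot p.ne_bot
  choose x hx hx0 using h1
  refine ⟨∏ p ∈ hB.toFinset, x p, Finset.prod_ne_zero_iff.2 fun p _ => hx0 p, ?_⟩
  intro p hp
  exact Ideal.mem_of_dvd _ (Finset.dvd_prod_of_mem x (hB.mem_toFinset.2 hp)) (hx p)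

theorem rigM_ext (Φ : Morph K N d) (Ψ : Morph K' N d) (h : ∀ i, Ψ.F i = MvPolynomial.map (algebraMap K K') (Φ.F i))
    (hΨ : RigM Ψ) : RigM Φ := by
  intro c G hG g hg hper
  set φ := algebraMap (𝓞 K) (𝓞 K') with hφ
  have hφinj : Function.Injective φ := by
    intro a b hab
    apply inj_O (K := K)
    apply (algebraMap K K').injective
    exact congrArg (algebraMap (𝓞 K') K') hab
  set G' : Fin (N + 1) → MvPolynomial (Fin (N + 1)) (𝓞 K') := fun i => MvPolynomial.map φ (G i) with hG'
  have hmod : Model Ψ (algebraMap K K' c) G' := by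
    refine ⟨(map_ne_zero _).2 hG.1, fun i => ?_⟩
    have h1 : MvPolynomial.map (algebraMap (𝓞 K') K') (G' i) = MvPolynomial.map (algebraMap K K') (MvPolynomial.map (algebraMap (𝓞 K) K) (G i)) := by
      simp only [hG']
      rw [MvPolynomial.map_map, MvPolynomial.map_map]
      rfl
    rw [h1, hG.2 i, map_mul, map_C, h]
  have hit : ∀ n, (pevO G')^[n] (fun i => φ (g i)) = fun i => φ ((pevO G)^[n] g i) := by
    intro n
    have h1 : pevO G' = pev φ G := by
      have h2 := pev_mapG' φ (RingHom.id (𝓞 K')) G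
      rw [RingHom.id_comp] at h2
      exact h2
    have h2 := pev_iter_map (RingHom.id (𝓞 K)) φ G n g
    rw [RingHom.comp_id] at h2
    rw [h1]
    exact h2.symm
  have hg' : (fun i => φ (g i)) ≠ 0 := by
    intro h0
    apply hg
    funext i
    apply hφinj
    rw [Pi.zero_apply, map_zero]
    exact congrFun h0 i
  have hper' : PerAE G' (fun i => φ (g i)) := by
    obtain ⟨s, hs, hs'⟩ := exists_common _ hper
    have hs0 : φ s ≠ 0 := fun h0 => hs (hφinj (by rw [h0, map_zero]))
    apply (finite_bad' (φ s) hs0).subset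
    intro P hP
    obtain ⟨p, hp⟩ := exists_below (K := K) P
    have hpbad : p ∈ {p : HeightOneSpectrum (𝓞 K) | ¬ ∃ m : ℕ, 1 ≤ m ∧
        Par (fun i => redK p ((pevO G)^[m] g i)) (fun i => redK p (g i))} := by
      intro hcon
      apply hP
      obtain ⟨m, hm, hpar⟩ := hcon
      refine ⟨m, hm, ?_⟩
      rw [hit]
      intro i k
      have h1 := hpar i k
      have h2 : (pevO G)^[m] g i * g k - (pevO G)^[m] g k * g i ∈ p.asIdeal := by
        rw [← Ideal.Quotient.eq_zero_iff_mem, map_sub, map_mul, map_mul, sub_eq_zero]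
        exact h1
      rw [hp, Ideal.mem_comap] at h2
      change redK P (φ ((pevO G)^[m] g i)) * redK P (φ (g k)) = redK P (φ ((pevO G)^[m] g k)) * redK P (φ (g i))
      rw [map_sub, map_mul, map_mul] at h2
      have h3 := Ideal.Quotient.eq_zero_iff_mem.2 h2
      rw [map_sub, map_mul, map_mul, sub_eq_zero] at h3
      exact h3
    have h3 := hs' p hpbad
    rw [hp] at h3
    exact h3
  obtain ⟨m, n, hmn, hpar⟩ := hΨ _ _ hmod _ hg' hper'
  refine ⟨m, n, hmn, ?_⟩
  rw [hit, hit] at hpar
  exact Par.of_map φ hφinj hpar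

end Pool.Agent.Lib.MP_df4dfc_nt
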