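import Mathlib
import Pool.Agent.Lib.MP_df4dfc_nt.Residue2
import Pool.Agent.Lib.MP_df4dfc_nt.Criterion

/-!
# A point that is missed modulo one prime
-/

set_option autoImplicit false
set_option linter.unusedSectionVars false
set_option linter.style.haveILetI false
set_option linter.unusedVariables false

namespace Pool.Agent.Lib.MP_df4dfc_nt

open MvPolynomial NumberField IsDedekindDomain
open scoped Pointwise

universe u

section Sub

/-- elements fixed by the `q`-power map come from the field with `q` elements -/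
theorem mem_range_of_pow {k k' : Type*} [Field k] [Finite k] [Field k'] (e : k →+* k') (w : k')
    (hw : w ^ Nat.card k = w) : ∃ r : k, e r = w := by
  classical
  haveI : Fintype k := Fintype.ofFinite k
  rw [Nat.card_eq_fintype_card] at hw
  set q := Fintype.card k with hq
  have hq1 : 1 < q := Fintype.one_lt_card
  set P : Polynomial k' := Polynomial.X ^ q - Polynomial.X with hP
  have hP0 : P ≠ 0 := FiniteField.X_pow_card_sub_X_ne_zero k' hq1
  have hsub : (Finset.univ.image e) ⊆ P.roots.toFinset := by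
    intro x hx
    rw [Finset.mem_image] at hx
    obtain ⟨r, _, rfl⟩ := hx
    rw [Multiset.mem_toFinset, Polynomial.mem_roots hP0, Polynomial.IsRoot.def, hP, Polynomial.eval_sub,
      Polynomial.eval_pow, Polynomial.eval_X, ← map_pow, FiniteField.pow_card, sub_self]
  have hcard : P.roots.toFinset.card ≤ (Finset.univ.image e).card := by
    rw [Finset.card_image_of_injective _ e.injective, Finset.card_univ]
    calc P.roots.toFinset.card ≤ Multiset.card P.roots := Multiset.toFinset_card_le _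
      _ ≤ P.natDegree := Polynomial.card_roots' P
      _ = q := FiniteField.X_pow_card_sub_X_natDegree_eq k' hq1
  have heq := Finset.eq_of_subset_of_card_le hsub hcard
  have hwmem : w ∈ P.roots.toFinset := by
    rw [Multiset.mem_toFinset, Polynomial.mem_roots hP0, Polynomial.IsRoot.def, hP, Polynomial.eval_sub,
      Polynomial.eval_pow, Polynomial.eval_X, hw, sub_self]
  rw [← heq, Finset.mem_image] at hwmem
  obtain ⟨r, _, hr⟩ := hwmem
  exact ⟨r, hr⟩

end Sub

section Missed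

variable {K : Type u} [Field K] [NumberField K] {ι : Type*} [Fintype ι]

/-- If the reduction of `q` modulo one prime has no preimage, a Frobenius element fixes no point of
the fibre over `q`. -/
theorem exists_nofix_missed (G : ι → MvPolynomial ι (𝓞 K)) {d : ℕ} (hd : 1 ≤ d) (hG : ∀ i, (G i).IsHomogeneous d)
    (hNZ : NZ (algebraMap (𝓞 K) (AlgebraicClosure K)) G) (q : ι → 𝓞 K) (hq0 : q ≠ 0)
    (p0 : HeightOneSpectrum (𝓞 K))
    (hmiss : ∀ u : ι → 𝓞 K ⧸ p0.asIdeal, u ≠ 0 → ¬ Par (pev (redK p0) G u) (fun i => redK p0 (q i))) :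
    ∃ (L : IntermediateField K (AlgebraicClosure K)) (_ : NumberField L) (_ : IsGalois K L),
      ∃ X₀ : Finset (ι → 𝓞 L),
      (∀ q' ∈ ({q} : Finset (ι → 𝓞 K)), ∀ y : ι → AlgebraicClosure K, y ≠ 0 →
        Par ((pev (algebraMap (𝓞 K) (AlgebraicClosure K)) G)^[1] y) (fun i => algebraMap (𝓞 K) (AlgebraicClosure K) (q' i)) →
        ∃ x ∈ X₀, Par y (fun i => algebraMap (𝓞 L) (AlgebraicClosure K) (x i))) ∧
      ∃ σ : Gal(L/K), ∀ x ∈ X₀, ¬ Par (fun i => σ • x i) x := by
  classical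
  obtain ⟨L, hNF, hGal, X₀, hX1, hX2⟩ := exists_reps G hd hG hNZ {q} (by simpa using hq0) 1
  set Ω := AlgebraicClosure K with hΩ
  set j := algebraMap (𝓞 K) Ω with hj
  set jL := algebraMap (𝓞 L) Ω with hjL
  set iL := algebraMap (𝓞 K) (𝓞 L) with hiL
  have hcomp : jL.comp iL = j := by
    ext r
    rfl
  have hjLinj : Function.Injective jL := FaithfulSMul.algebraMap_injective (𝓞 L) Ω
  have hNZL : NZ iL G := NZ.of_injective (ψ := jL) (by rw [hcomp]; exact hNZ) hjLinj
  obtain ⟨P0, hP0⟩ := exists_of_nonempty K L p0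
  rw [mem_above] at hP0
  haveI := P0.isPrime
  haveI := P0.isMaximal
  haveI := p0.isMaximal
  obtain ⟨σ, hσ⟩ := IsArithFrobAt.exists_of_isInvariant (𝓞 K) Gal(L/K) P0.asIdeal
  refine ⟨L, hNF, hGal, X₀, hX2, σ, ?_⟩
  intro x hx hfix
  obtain ⟨hx0, q', hq', hxq⟩ := hX1 x hx
  rw [Finset.mem_singleton] at hq'
  subst hq'
  rw [Function.iterate_one] at hxq
  letI : Field (𝓞 L ⧸ P0.asIdeal) := Ideal.Quotient.field _
  letI : Field (𝓞 K ⧸ p0.asIdeal) := Ideal.Quotient.field _
  haveI : Finite (𝓞 K ⧸ p0.asIdeal) := Ideal.finiteQuotientOfFreeOfNeBot _ p0.ne_bot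
  set φ : 𝓞 L →+* 𝓞 L ⧸ P0.asIdeal := Ideal.Quotient.mk P0.asIdeal with hφdef
  set ψ : 𝓞 K →+* 𝓞 L ⧸ P0.asIdeal := φ.comp iL with hψ
  have hunder : P0.asIdeal.under (𝓞 K) = p0.asIdeal := congrArg HeightOneSpectrum.asIdeal hP0
  have hker : RingHom.ker ψ = p0.asIdeal := by
    rw [← hunder]
    ext r
    rw [RingHom.mem_ker, hψ, RingHom.comp_apply, hφdef, Ideal.Quotient.eq_zero_iff_mem]
    exact Iff.rfl
  obtain ⟨x', hx'par, k, hk⟩ := exists_primitive P0.asIdeal (Ideal.IsPrime.ne_top P0.isPrime) x hx0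
  have hx'0 : x' ≠ 0 := by
    rintro rfl
    exact hk (by simp)
  set u : ι → 𝓞 L ⧸ P0.asIdeal := fun i => φ (x' i) with hu
  have huk : u k ≠ 0 := by
    intro h0
    exact hk (Ideal.Quotient.eq_zero_iff_mem.1 h0)
  set e : 𝓞 K ⧸ p0.asIdeal →+* 𝓞 L ⧸ P0.asIdeal := Ideal.Quotient.lift p0.asIdeal ψ (by
    intro a ha
    rw [← hker] at ha
    exact ha) with he
  have he' : ∀ r, e (redK p0 r) = ψ r := fun r => rfl
  have hecomp : e.comp (redK p0) = ψ := RingHom.ext he'
  have hinj : Function.Injective e := e.injective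
  have hfrob : ∀ y : 𝓞 L, φ (σ • y) = φ y ^ (Nat.card (𝓞 K ⧸ p0.asIdeal)) := by
    intro y
    have h1 : σ • y - y ^ Nat.card (𝓞 K ⧸ P0.asIdeal.under (𝓞 K)) ∈ P0.asIdeal := hσ y
    rw [hunder] at h1
    rw [← map_pow]
    exact Ideal.Quotient.eq.2 h1
  have hfix' : Par (fun i => σ • x' i) x' :=
    ((sigma_par σ hx'par).trans hfix (sigma_ne_zero σ hx0)).trans hx'par.symm hx0
  have hpar : Par (fun i => u i ^ (Nat.card (𝓞 K ⧸ p0.asIdeal))) u := by
    have h1 := hfix'.map φ
    have h2 : (fun i => φ (σ • x' i)) = fun i => u i ^ (Nat.card (𝓞 K ⧸ p0.asIdeal)) := by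
      funext i
      exact hfrob (x' i)
    rwa [h2] at h1
  have hw : ∀ i, ∃ r : 𝓞 K ⧸ p0.asIdeal, e r = u i / u k := by
    intro i
    apply mem_range_of_pow
    rw [div_pow, div_eq_div_iff (pow_ne_zero _ huk) huk]
    have h1 := hpar i k
    simp only at h1
    rw [h1]
    ring
  choose v hv using hw
  have huv : u = u k • fun i => e (v i) := by
    funext i
    rw [Pi.smul_apply, smul_eq_mul, hv]
    field_simp
  have hv0 : v ≠ 0 := by
    intro h0
    have h1 := hv k
    rw [h0, Pi.zero_apply, map_zero, div_self huk] at h1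
    exact zero_ne_one h1
  apply hmiss v hv0
  apply Par.of_map e hinj
  have h1 : Par (pev iL G x') (fun i => iL (q' i)) :=
    (pev_par hG iL hx'par hx0).trans hxq (hNZL x hx0)
  have h2 := h1.map φ
  have h3 := pev_map iL φ G x'
  rw [h3] at h2
  change Par (pev ψ G u) (fun i => ψ (q' i)) at h2
  have h4 : (fun i => e (pev (redK p0) G v i)) = pev ψ G (fun i => e (v i)) := by
    have h5 := pev_map (redK p0) e G v
    rw [hecomp] at h5
    exact h5
  rw [h4]
  rw [huv, pev_smul hG] at h2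
  intro a b
  have h5 := h2 a b
  simp only [Pi.smul_apply, smul_eq_mul] at h5
  apply mul_left_cancel₀ (pow_ne_zero d huk)
  change u k ^ d * (pev ψ G (fun i => e (v i)) a * ψ (q' b)) = u k ^ d * (pev ψ G (fun i => e (v i)) b * ψ (q' a))
  linear_combination h5

end Missed

section PD

variable {K : Type u} [Field K] [NumberField K] {N d : ℕ}

/-- One prime modulo which the target has no preimage suffices. -/
theorem posDensity_of_missed (hd : 1 ≤ d) (Φ : Morph K N d) {c : K} {G : Fin (N + 1) → MvPolynomial (Fin (N + 1)) (𝓞 K)}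
    (hG : Model Φ c G) (γ : PN K N) (p0 : HeightOneSpectrum (𝓞 K)) (g : Fin (N + 1) → 𝓞 K) (hg : Rp γ g)
    (hmiss : ∀ u : Fin (N + 1) → 𝓞 K ⧸ p0.asIdeal, u ≠ 0 → ¬ Par (pev (redK p0) G u) (fun i => redK p0 (g i)))
    (γ₁ : PN K N) (H : ∀ m : ℕ, Φ.map^[m] γ₁ ≠ γ) : PosDensity (avoidSet Φ γ₁ γ) := by
  obtain ⟨L, hNF, hGal, X₀, hX2, σ, hσ⟩ := exists_nofix_missed G hd hG.homog hG.nz g hg.ne_zero p0 hmiss
  obtain ⟨g1, hg1⟩ := exists_Rp γ₁
  have hav : ∀ m, ∀ q ∈ ({g} : Finset (Fin (N + 1) → 𝓞 K)), ¬ Par ((pevO G)^[m] g1) q := by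
    intro m q hq hp
    rw [Finset.mem_singleton] at hq
    subst hq
    exact H m ((hG.rp_iter hg1 m).eq_of_par hg hp)
  refine ((coreB_of_nofix G hG.nz g1 hg1.ne_zero {g} hav 1 L X₀ hX2 σ hσ).mono ?_).posDensity
  intro p hp m hc
  exact hp m g (Finset.mem_singleton_self _) (hc.par (hG.rp_iter hg1 m) hg)

end PD

end Pool.Agent.Lib.MP_df4dfc_nt
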