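import Mathlib
import Pool.Agent.Lib.MP_df4dfc_nt.Generic4
import Pool.Agent.Lib.MP_df4dfc_nt.Generic5
import Pool.Agent.Lib.MP_df4dfc_nt.DefsGeneric

/-!
# Almost all morphisms
-/

set_option autoImplicit false
set_option linter.unusedSectionVars false
set_option linter.style.haveILetI false
set_option linter.unusedVariables false

namespace Pool.Agent.Lib.MP_df4dfc_nt

open MvPolynomial NumberField IsDedekindDomain Module

universe u

variable {K : Type u} [Field K] [NumberField K]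

/-- infinitely many primes of large norm -/
theorem exists_primes (k q0 : ℕ) : ∃ T : Finset (HeightOneSpectrum (𝓞 K)), T.card = k ∧
    ∀ p ∈ T, q0 ≤ Nat.card (𝓞 K ⧸ p.asIdeal) := by
  have h1 : {p : HeightOneSpectrum (𝓞 K) | Nat.card (𝓞 K ⧸ p.asIdeal) < q0}.Finite := by
    have h2 : ∀ p : HeightOneSpectrum (𝓞 K), Nat.card (𝓞 K ⧸ p.asIdeal) = Ideal.absNorm p.asIdeal := by
      intro p
      rw [Ideal.absNorm_apply, Submodule.cardQuot_apply]
    have h3 : {I : Ideal (𝓞 K) | Ideal.absNorm I ≤ q0}.Finite := Ideal.finite_setOfPred_absNorm_le q0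
    apply Set.Finite.of_finite_image (f := fun p : HeightOneSpectrum (𝓞 K) => p.asIdeal)
    · apply h3.subset
      rintro _ ⟨p, hp, rfl⟩
      rw [Set.mem_ofPred_eq, h2] at hp
      exact hp.le
    · intro p _ p' _ h
      exact HeightOneSpectrum.ext h
  have h2 := ((big_univ K).diff_finite h1).infinite
  obtain ⟨T, hT1, hT2⟩ := h2.exists_subset_card_eq k
  refine ⟨T, hT2, ?_⟩
  intro p hp
  have h3 := (hT1 hp).2
  rw [Set.mem_ofPred_eq] at h3
  omega

/-- the forms from coefficients indexed by pairs -/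
noncomputable def fr {N d : ℕ} (a : Fin (N + 1) × Mon (Fin (N + 1)) d → 𝓞 K) :
    Fin (N + 1) → MvPolynomial (Fin (N + 1)) (𝓞 K) := frm fun i m => a (i, m)

theorem fr_injective {N d : ℕ} : Function.Injective (fr (K := K) (N := N) (d := d)) := by
  intro a a' h
  funext im
  obtain ⟨i, m⟩ := im
  have h1 := congrFun h i
  have h2 := frm1_coeff (fun m => a (i, m)) m
  have h3 := frm1_coeff (fun m => a' (i, m)) m
  rw [← h2, ← h3]
  exact congrArg (coeff m.1) h1

theorem formBox_eq {N d : ℕ} {κ : Type*} (b : Basis κ ℤ (𝓞 K)) (B : ℕ) :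
    FormBox b N d B = fr '' {a : Fin (N + 1) × Mon (Fin (N + 1)) d → 𝓞 K | ∀ j k, |b.repr (a j) k| ≤ B} := by
  ext G
  constructor
  · rintro ⟨h1, h2⟩
    refine ⟨fun im => (G im.1).coeff im.2.1, fun im k => h2 _ _ _, ?_⟩
    funext i
    exact frm1_eq (h1 i)
  · rintro ⟨a, ha, rfl⟩
    refine ⟨fun i => frm1_homog _, ?_⟩
    intro i m k
    by_cases hm : m.degree = d
    · have h1 : (fr a i).coeff m = a (i, ⟨m, hm⟩) := frm1_coeff (fun m => a (i, m)) ⟨m, hm⟩
      rw [h1]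
      exact ha _ _
    · have h1 : (fr a i).coeff m = 0 := (frm1_homog _).coeff_eq_zero hm
      rw [h1, map_zero]
      simp

/-- a tuple of forms with nonvanishing determinant whose reduction misses the target modulo one prime
is good -/
theorem good_of {N d : ℕ} (hd : 1 ≤ d) {D : ℕ} (hD : Fintype.card (Fin (N + 1)) * (d - 1) + 1 ≤ D)
    (a : Fin (N + 1) × Mon (Fin (N + 1)) d → 𝓞 K) (hdet : eval a (genDet (𝓞 K) hD) ≠ 0) (γ : PN K N)
    (p : HeightOneSpectrum (𝓞 K)) (g : Fin (N + 1) → 𝓞 K) (hg : Rp γ g)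
    (hmiss : ∀ u : Fin (N + 1) → 𝓞 K ⧸ p.asIdeal, u ≠ 0 → ¬ Par (pev (redK p) (fr a) u) (fun i => redK p (g i))) :
    GoodMap d (fr a) γ := by
  have hinj : Function.Injective (algebraMap (𝓞 K) (AlgebraicClosure K)) :=
    FaithfulSMul.algebraMap_injective (𝓞 K) (AlgebraicClosure K)
  have hNZ : NZ (algebraMap (𝓞 K) (AlgebraicClosure K)) (fr a) := by
    apply nz_of_mac _ hD
    rw [genDet_eval] at hdet
    intro h0
    apply hdet
    apply hinj
    rw [h0, map_zero]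
  let Φ : Morph K N d :=
    { F := fun i => MvPolynomial.map (algebraMap (𝓞 K) K) (fr a i)
      homog := fun i => (frm1_homog _).map _
      noZero := by
        intro x hx
        by_contra hne
        apply hNZ x hne
        funext i
        have h1 := hx i
        rw [aeval_map_algebraMap] at h1
        exact h1 }
  refine ⟨Φ, fun i => rfl, ?_⟩
  intro γ₁ H
  have hG : Model Φ 1 (fr a) := ⟨one_ne_zero, fun i => by rw [map_one, one_mul]⟩
  exact posDensity_of_missed hd Φ hG γ p g hg hmiss γ₁ H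

/-- residue tuples that are bad for the point `y` -/
theorem exists_bad {N d : ℕ} (hN : 1 ≤ N) (hd : 2 ≤ d) (F : Type*) [Field F] [Fintype F] (hq : 11 ≤ Fintype.card F)
    (y : Fin (N + 1) → F) (hy : y ≠ 0) :
    ∃ Bad : Finset (Fin (N + 1) × Mon (Fin (N + 1)) d → F),
      6 * Bad.card ≤ 5 * Fintype.card (Fin (N + 1) × Mon (Fin (N + 1)) d → F) ∧
      ∀ a ∉ Bad, ∀ u : Fin (N + 1) → F, u ≠ 0 → ¬ Par (fun i => evf u (fun m => a (i, m))) y := by
  classical
  have h1 := many_miss (ι := Fin (N + 1)) hd (by rw [Fintype.card_fin]; omega) hq y hy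
  refine ⟨Finset.univ.filter fun a => nhit y (fun i m => a (i, m)) ≠ 0, ?_, ?_⟩
  · have h2 : (Finset.univ.filter fun a : Fin (N + 1) × Mon (Fin (N + 1)) d → F => nhit y (fun i m => a (i, m)) = 0).card
        = (Finset.univ.filter fun a : Fin (N + 1) → Mon (Fin (N + 1)) d → F => nhit y a = 0).card := by
      apply Finset.card_bij (fun a _ => fun i m => a (i, m))
      · intro a ha
        rw [Finset.mem_filter] at ha ⊢
        exact ⟨Finset.mem_univ _, ha.2⟩
      · intro a _ a' _ h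
        funext im
        exact congrFun (congrFun h im.1) im.2
      · intro a ha
        refine ⟨fun im => a im.1 im.2, ?_, rfl⟩
        rw [Finset.mem_filter] at ha ⊢
        exact ⟨Finset.mem_univ _, ha.2⟩
    have h3 : Fintype.card (Fin (N + 1) × Mon (Fin (N + 1)) d → F) = Fintype.card (Fin (N + 1) → Mon (Fin (N + 1)) d → F) :=
      Fintype.card_congr (Equiv.curry _ _ _)
    have h4 := Finset.card_filter_add_card_filter_not (s := (Finset.univ : Finset (Fin (N + 1) × Mon (Fin (N + 1)) d → F)))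
      (fun a => nhit y (fun i m => a (i, m)) = 0)
    rw [Finset.card_univ] at h4
    rw [← h2, ← h3] at h1
    simp only [ne_eq]
    generalize (Finset.univ.filter fun a : Fin (N + 1) × Mon (Fin (N + 1)) d → F => nhit y (fun i m => a (i, m)) = 0).card = A0 at h1 h4
    generalize (Finset.univ.filter fun a : Fin (N + 1) × Mon (Fin (N + 1)) d → F => ¬ (nhit y (fun i m => a (i, m)) = 0)).card = A1 at h4 ⊢
    generalize Fintype.card (Fin (N + 1) × Mon (Fin (N + 1)) d → F) = A2 at h1 h4 ⊢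
    omega
  · intro a ha u hu hpar
    apply ha
    rw [Finset.mem_filter]
    refine ⟨Finset.mem_univ _, ?_⟩
    unfold nhit
    rw [Finset.card_ne_zero]
    refine ⟨Projectivization.mk F u hu, ?_⟩
    rw [Finset.mem_filter]
    refine ⟨Finset.mem_univ _, ?_⟩
    have h5 : Par (Projectivization.mk F u hu).rep u := by
      obtain ⟨c, hc⟩ := Projectivization.exists_smul_eq_mk_rep F u hu
      rw [← hc]
      intro i j
      simp only [Pi.smul_apply]
      rw [Units.smul_def, Units.smul_def, smul_eq_mul, smul_eq_mul]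
      ring
    have h6 := pev_par (G := frm fun i m => a (i, m)) (fun i => frm_homog _ i) (RingHom.id F) h5 hu
    rw [pev_frm, pev_frm] at h6
    simp only [RingHom.id_apply] at h6
    by_cases h0 : (fun i => evf u (fun m => a (i, m))) = 0
    · -- then the value at the representative vanishes as well
      obtain ⟨c, hc⟩ := h5.exists_smul hu
      have h7 := pev_smul (G := frm fun i m => a (i, m)) (fun i => frm_homog _ i) (RingHom.id F) c u
      rw [pev_frm, pev_frm] at h7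
      simp only [RingHom.id_apply] at h7
      rw [h0, smul_zero] at h7
      rw [hc, h7]
      exact (Par.zero_right _).symm
    · exact h6.trans hpar h0

/-- **Almost all morphisms.** -/
theorem almost_all {κ : Type*} [Fintype κ] (b : Basis κ ℤ (𝓞 K)) {N d : ℕ} (hN : 1 ≤ N) (hd : 2 ≤ d)
    (ε : ℝ) (hε : 0 < ε) :
    ∃ B₀ : ℕ, ∀ B : ℕ, B₀ ≤ B → ∀ γ₂ : PN K N,
      (1 - ε) * ((FormBox b N d B).ncard : ℝ) ≤ (({G ∈ FormBox b N d B | GoodMap d G γ₂}.ncard : ℕ) : ℝ) := by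
  classical
  set J := Fin (N + 1) × Mon (Fin (N + 1)) d with hJ
  obtain ⟨D, hD⟩ : ∃ D, Fintype.card (Fin (N + 1)) * (d - 1) + 1 ≤ D := ⟨_, le_rfl⟩
  set n := Fintype.card J * Fintype.card κ with hn
  set td := (genDet (ι := Fin (N + 1)) (𝓞 K) hD).totalDegree with htd
  obtain ⟨t, ht⟩ : ∃ t : ℕ, (5 / 6 : ℝ) ^ t < ε / 4 := exists_pow_lt_of_lt_one (by positivity) (by norm_num)
  obtain ⟨T, hT1, hT2⟩ := exists_primes (K := K) t 11
  set m := ∏ p ∈ T, Ideal.absNorm p.asIdeal with hm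
  -- analysis
  have hX : Filter.Tendsto (fun B : ℕ => ((2 * B + 1 : ℕ) : ℝ)) Filter.atTop Filter.atTop := by
    apply Filter.tendsto_atTop_mono (f := fun B : ℕ => (B : ℝ)) _ tendsto_natCast_atTop_atTop
    intro B
    push_cast
    have : (0:ℝ) ≤ B := Nat.cast_nonneg B
    linarith
  have hinv := hX.inv_tendsto_atTop
  have ev1 : ∀ᶠ B : ℕ in Filter.atTop, (1 + (m : ℝ) * (((2 * B + 1 : ℕ) : ℝ))⁻¹) ^ n < 2 := by
    have h1 : Filter.Tendsto (fun B : ℕ => (1 + (m : ℝ) * (((2 * B + 1 : ℕ) : ℝ))⁻¹) ^ n) Filter.atTop (nhds ((1 + (m:ℝ) * 0) ^ n)) :=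
      ((hinv.const_mul (m:ℝ)).const_add 1).pow n
    rw [mul_zero, add_zero, one_pow] at h1
    exact h1.eventually_lt_const (by norm_num)
  have ev2 : ∀ᶠ B : ℕ in Filter.atTop, (td : ℝ) * (((2 * B + 1 : ℕ) : ℝ))⁻¹ < ε / 2 := by
    have h1 : Filter.Tendsto (fun B : ℕ => (td : ℝ) * (((2 * B + 1 : ℕ) : ℝ))⁻¹) Filter.atTop (nhds ((td:ℝ) * 0)) :=
      hinv.const_mul (td:ℝ)
    rw [mul_zero] at h1
    exact h1.eventually_lt_const (by positivity)
  obtain ⟨B₀, hB₀⟩ := Filter.eventually_atTop.1 (ev1.and ev2)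
  refine ⟨B₀, ?_⟩
  intro B hB γ₂
  obtain ⟨e1, e2⟩ := hB₀ B hB
  set X := 2 * B + 1 with hXd
  have hXpos : (0:ℝ) < (X : ℝ) := by positivity
  set Box : Set (J → 𝓞 K) := {a | ∀ j k, |b.repr (a j) k| ≤ B} with hBox
  have hBoxcard : Box.ncard = X ^ n := box_card b B
  have hBoxfin : Box.Finite := by
    apply Set.finite_of_ncard_ne_zero
    rw [hBoxcard]
    positivity
  -- local data
  have hloc : ∀ p : T, ∃ (g : Fin (N + 1) → 𝓞 K) (Bad : Finset (J → 𝓞 K ⧸ p.1.asIdeal)), Rp γ₂ g ∧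
      6 * Bad.card ≤ 5 * Fintype.card (J → 𝓞 K ⧸ p.1.asIdeal) ∧
      ∀ a ∉ Bad, ∀ u : Fin (N + 1) → 𝓞 K ⧸ p.1.asIdeal, u ≠ 0 →
        ¬ Par (fun i => evf u (fun m => a (i, m))) (fun i => redK p.1 (g i)) := by
    intro p
    obtain ⟨g, hg, k, hk⟩ := exists_Rp_prim p.1 γ₂
    haveI := p.1.isMaximal
    letI : Field (𝓞 K ⧸ p.1.asIdeal) := Ideal.Quotient.field _
    have hg0 : (fun i => redK p.1 (g i)) ≠ 0 := by
      intro h0
      exact hk (Ideal.Quotient.eq_zero_iff_mem.1 (congrFun h0 k))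
    obtain ⟨Bad, hBad1, hBad2⟩ := exists_bad (d := d) hN hd (𝓞 K ⧸ p.1.asIdeal) (by
      rw [← Nat.card_eq_fintype_card]
      exact hT2 p.1 p.2) (fun i => redK p.1 (g i)) hg0
    exact ⟨g, Bad, hg, hBad1, hBad2⟩
  choose g Bad hg hBad1 hBad2 using hloc
  set Bad1 : Set (J → 𝓞 K) := {a | (∀ j k, |b.repr (a j) k| ≤ B) ∧
    ∀ p : T, (fun j => Ideal.Quotient.mk p.1.asIdeal (a j)) ∈ Bad p} with hBad1d
  set Bad2 : Set (J → 𝓞 K) := {a | (∀ j k, |b.repr (a j) k| ≤ B) ∧ eval a (genDet (ι := Fin (N + 1)) (𝓞 K) hD) = 0} with hBad2d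
  have c1 := box_count_primes b T Bad B
  have c2 := zero_count b (genDet (ι := Fin (N + 1)) (𝓞 K) hD) (genDet_ne_zero (𝓞 K) hD) B
  rw [← hBad1d, ← hn, ← hm] at c1
  rw [← hBad2d, ← hn, ← htd] at c2
  -- bound on Bad1
  have c3 : (6:ℝ) ^ t * Bad1.ncard ≤ 5 ^ t * ((X + m : ℕ) : ℝ) ^ n := by
    have h1 : 6 ^ t * ∏ p : T, (Bad p).card ≤ 5 ^ t * ∏ p : T, Fintype.card (J → 𝓞 K ⧸ p.1.asIdeal) := by
      have h2 : ∏ p : T, (6 * (Bad p).card) ≤ ∏ p : T, (5 * Fintype.card (J → 𝓞 K ⧸ p.1.asIdeal)) :=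
        Finset.prod_le_prod' fun p _ => hBad1 p
      rw [Finset.prod_mul_distrib, Finset.prod_mul_distrib, Finset.prod_const, Finset.prod_const, Finset.card_univ,
        Fintype.card_coe, hT1] at h2
      exact h2
    set P := ∏ p : T, Fintype.card (J → 𝓞 K ⧸ p.1.asIdeal) with hP
    have hPpos : 0 < P := Finset.prod_pos fun p _ => Fintype.card_pos
    have h3 : (6 ^ t * Bad1.ncard) * P ≤ (5 ^ t * (X + m) ^ n) * P := by
      calc (6 ^ t * Bad1.ncard) * P = 6 ^ t * (Bad1.ncard * P) := by ring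
        _ ≤ 6 ^ t * ((∏ p : T, (Bad p).card) * (X + m) ^ n) := Nat.mul_le_mul_left _ c1
        _ = (6 ^ t * ∏ p : T, (Bad p).card) * (X + m) ^ n := by ring
        _ ≤ (5 ^ t * P) * (X + m) ^ n := Nat.mul_le_mul_right _ h1
        _ = _ := by ring
    have h4 := Nat.le_of_mul_le_mul_right h3 hPpos
    exact_mod_cast h4
  have c4 : (Bad1.ncard : ℝ) ≤ ε / 2 * (X:ℝ) ^ n := by
    have h1 : (Bad1.ncard : ℝ) ≤ (5 / 6 : ℝ) ^ t * ((X + m : ℕ) : ℝ) ^ n := by
      rw [div_pow, div_mul_eq_mul_div, le_div_iff₀ (by positivity)]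
      linarith
    have h2 : ((X + m : ℕ) : ℝ) ^ n ≤ 2 * (X:ℝ) ^ n := by
      have h3 : ((X + m : ℕ) : ℝ) = (1 + (m:ℝ) * (X:ℝ)⁻¹) * X := by
        push_cast
        field_simp
      rw [h3, mul_pow]
      exact mul_le_mul_of_nonneg_right e1.le (by positivity)
    calc (Bad1.ncard : ℝ) ≤ (5 / 6 : ℝ) ^ t * ((X + m : ℕ) : ℝ) ^ n := h1
      _ ≤ (ε / 4) * (2 * (X:ℝ) ^ n) := by
          apply mul_le_mul ht.le h2 (by positivity) (by positivity)
      _ = _ := by ring
  have c5 : (Bad2.ncard : ℝ) ≤ ε / 2 * (X:ℝ) ^ n := by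
    have h1 : (Bad2.ncard : ℝ) * X ≤ td * (X:ℝ) ^ n := by exact_mod_cast c2
    have h2 : (Bad2.ncard : ℝ) ≤ (td * (X:ℝ)⁻¹) * (X:ℝ) ^ n := by
      have h3 : (td * (X:ℝ)⁻¹) * (X:ℝ) ^ n = (td * (X:ℝ) ^ n) / X := by field_simp
      rw [h3, le_div_iff₀ hXpos]
      exact h1
    exact le_trans h2 (mul_le_mul_of_nonneg_right e2.le (by positivity))
  -- the good ones
  set Good : Set (J → 𝓞 K) := {a | a ∈ Box ∧ GoodMap d (fr a) γ₂} with hGood
  have hcover : Box ⊆ Good ∪ (Bad1 ∪ Bad2) := by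
    intro a ha
    by_cases h1 : a ∈ Bad1
    · exact Or.inr (Or.inl h1)
    by_cases h2 : a ∈ Bad2
    · exact Or.inr (Or.inr h2)
    left
    refine ⟨ha, ?_⟩
    have h3 : ∃ p : T, (fun j => Ideal.Quotient.mk p.1.asIdeal (a j)) ∉ Bad p := by
      by_contra hcon
      push Not at hcon
      exact h1 ⟨ha, hcon⟩
    obtain ⟨p, hp⟩ := h3
    have h4 : eval a (genDet (ι := Fin (N + 1)) (𝓞 K) hD) ≠ 0 := fun h0 => h2 ⟨ha, h0⟩
    apply good_of (by omega) hD a h4 γ₂ p.1 (g p) (hg p)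
    intro u hu hpar
    apply hBad2 p _ hp u hu
    have h5 : pev (redK p.1) (fr a) u = fun i => evf u (fun m => Ideal.Quotient.mk p.1.asIdeal (a (i, m))) :=
      pev_frm (redK p.1) (fun i m => a (i, m)) u
    rw [h5] at hpar
    exact hpar
  have hfinG : Good.Finite := hBoxfin.subset fun a ha => ha.1
  have hfinB : (Bad1 ∪ Bad2).Finite := hBoxfin.subset (by
    rintro a (ha | ha)
    · exact ha.1
    · exact ha.1)
  have hcount : Box.ncard ≤ Good.ncard + (Bad1.ncard + Bad2.ncard) :=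
    calc Box.ncard ≤ (Good ∪ (Bad1 ∪ Bad2)).ncard := Set.ncard_le_ncard hcover (hfinG.union hfinB)
      _ ≤ Good.ncard + (Bad1 ∪ Bad2).ncard := Set.ncard_union_le _ _
      _ ≤ _ := Nat.add_le_add_left (Set.ncard_union_le _ _) _
  have hF1 : (FormBox b N d B).ncard = X ^ n := by
    rw [formBox_eq, Set.ncard_image_of_injective _ fr_injective]
    exact hBoxcard
  have hF2 : {G ∈ FormBox b N d B | GoodMap d G γ₂}.ncard = Good.ncard := by
    have : {G ∈ FormBox b N d B | GoodMap d G γ₂} = fr '' Good := by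
      ext G
      rw [formBox_eq]
      constructor
      · rintro ⟨⟨a, ha, rfl⟩, h⟩
        exact ⟨a, ⟨ha, h⟩, rfl⟩
      · rintro ⟨a, ⟨ha, h⟩, rfl⟩
        exact ⟨⟨a, ha, rfl⟩, h⟩
    rw [this, Set.ncard_image_of_injective _ fr_injective]
  rw [hF1, hF2]
  have hcountR : ((X ^ n : ℕ) : ℝ) ≤ Good.ncard + (Bad1.ncard + Bad2.ncard) := by
    rw [← hBoxcard]
    exact_mod_cast hcount
  push_cast at hcountR ⊢
  linarith

end Pool.Agent.Lib.MP_df4dfc_nt
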