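import Mathlib
import Pool.Agent.Lib.MP_df4dfc_nt.Mn6

set_option autoImplicit false
set_option linter.unusedSectionVars false
set_option linter.style.haveILetI false
set_option linter.unusedVariables false

/-! Ideals of rational points and exponents of attraction along orbits. -/

namespace Pool.Agent.Lib.MP_df4dfc_nt

open MvPolynomial

attribute [local instance] MvPolynomial.gradedAlgebra

section PtI

variable {K : Type*} [Field K] {ι : Type*}

/-- the homogeneous ideal of a point -/
noncomputable def ptI (z : ι → K) : Ideal (MvPolynomial ι K) := Ideal.span {f | (∃ m : ℕ, f.IsHomogeneous m) ∧ eval z f = 0}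

theorem ptI_le_ker (z : ι → K) : ptI z ≤ RingHom.ker (eval z) := by
  unfold ptI
  rw [Ideal.span_le]
  intro f hf
  exact hf.2

theorem eval_of_mem_ptI {z : ι → K} {f : MvPolynomial ι K} (hf : f ∈ ptI z) : eval z f = 0 := ptI_le_ker z hf

theorem mem_ptI {z : ι → K} {f : MvPolynomial ι K} {m : ℕ} (hf : f.IsHomogeneous m) : f ∈ ptI z ↔ eval z f = 0 :=
  ⟨eval_of_mem_ptI, fun h => Ideal.subset_span ⟨⟨m, hf⟩, h⟩⟩

theorem ptI_homog (z : ι → K) : (ptI z).IsHomogeneous (homogeneousSubmodule ι K) :=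
  span_homog fun f hf => hf.1

theorem ptI_prime {z : ι → K} (hz : z ≠ 0) : (ptI z).IsPrime := by
  apply (ptI_homog z).isPrime_of_homogeneous_mem_or_mem
  · intro htop
    have h1 : (1 : MvPolynomial ι K) ∈ ptI z := by rw [htop]; exact Submodule.mem_top
    have := eval_of_mem_ptI h1
    simp at this
  · rintro f g ⟨a, ha⟩ ⟨b, hb⟩ hfg
    rw [mem_homogeneousSubmodule] at ha hb
    have h1 := eval_of_mem_ptI hfg
    rw [map_mul, mul_eq_zero] at h1
    rcases h1 with h1 | h1
    · exact Or.inl ((mem_ptI ha).2 h1)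
    · exact Or.inr ((mem_ptI hb).2 h1)

/-- two homogeneous ideals with the same forms are equal -/
theorem homog_ideal_ext {I J : Ideal (MvPolynomial ι K)} (hI : I.IsHomogeneous (homogeneousSubmodule ι K))
    (hJ : J.IsHomogeneous (homogeneousSubmodule ι K)) (h : ∀ (f : MvPolynomial ι K) (m : ℕ), f.IsHomogeneous m → (f ∈ I ↔ f ∈ J)) :
    I = J := by
  ext f
  rw [mem_iff_homogeneousComponent_mem hI, mem_iff_homogeneousComponent_mem hJ]
  constructor
  · intro h1 n
    exact (h _ n (homogeneousComponent_isHomogeneous n f)).1 (h1 n)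
  · intro h1 n
    exact (h _ n (homogeneousComponent_isHomogeneous n f)).2 (h1 n)

end PtI

section Exp

variable {K : Type*} [Field K] {ι : Type*} [Fintype ι] {F : ι → MvPolynomial ι K} {d : ℕ}

/-- exponents of attraction along the orbit of a point -/
def ExpT (F : ι → MvPolynomial ι K) (t : ℕ) (z : ι → K) (e : ℕ) : Prop :=
  ∃ s : MvPolynomial ι K, eval z s ≠ 0 ∧
    Ideal.span {s} * (ptI z) ^ e ≤ (ptI ((pev (RingHom.id K) F)^[t] z)).map (pullA F t)

theorem pullA_add (F : ι → MvPolynomial ι K) (s t : ℕ) (f : MvPolynomial ι K) :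
    pullA F (s + t) f = pullA F s (pullA F t f) := by
  rw [pullA_eq, pullA_eq, pullA_eq, Function.iterate_add_apply]

theorem ExpT.zero (F : ι → MvPolynomial ι K) (z : ι → K) : ExpT F 0 z 1 := by
  refine ⟨1, by simp, ?_⟩
  rw [Ideal.span_singleton_one, Ideal.top_mul, pow_one]
  intro f hf
  have h1 : pullA F 0 f = f := by rw [pullA_eq]; rfl
  rw [← h1]
  exact Ideal.mem_map_of_mem _ hf

theorem ExpT.mono {t : ℕ} {z : ι → K} {e e' : ℕ} (h : ExpT F t z e) (he : e ≤ e') : ExpT F t z e' := by
  obtain ⟨s, hs, h1⟩ := h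
  exact ⟨s, hs, (Ideal.mul_mono_right (Ideal.pow_le_pow_right he)).trans h1⟩

theorem ExpT.succ {t : ℕ} {z : ι → K} {e e' : ℕ} (h : ExpT F t z e)
    (h' : ExpT F 1 ((pev (RingHom.id K) F)^[t] z) e') : ExpT F (t + 1) z (e * e') := by
  obtain ⟨s, hs, h1⟩ := h
  obtain ⟨s1, hs1, h2⟩ := h'
  refine ⟨s ^ e' * pullA F t s1, ?_, ?_⟩
  · rw [map_mul, map_pow, eval_pullA]
    exact mul_ne_zero (pow_ne_zero _ hs) hs1
  · set zt := (pev (RingHom.id K) F)^[t] z with hzt
    have e1 : (pev (RingHom.id K) F)^[1] zt = (pev (RingHom.id K) F)^[t + 1] z := by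
      rw [hzt, Function.iterate_succ_apply' _ t z]
      rfl
    rw [e1] at h2
    calc Ideal.span {s ^ e' * pullA F t s1} * ptI z ^ (e * e')
        = (Ideal.span {s} * ptI z ^ e) ^ e' * Ideal.span {pullA F t s1} := by
          rw [← Ideal.span_singleton_mul_span_singleton, ← Ideal.span_singleton_pow, mul_pow, pow_mul]
          ring
      _ ≤ ((ptI zt).map (pullA F t)) ^ e' * Ideal.span {pullA F t s1} :=
          Ideal.mul_mono_left (Ideal.pow_right_mono h1 e')
      _ = (Ideal.span {s1} * (ptI zt) ^ e').map (pullA F t) := by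
          rw [Ideal.map_mul, Ideal.map_pow, Ideal.map_span, Set.image_singleton, mul_comm]
      _ ≤ ((ptI ((pev (RingHom.id K) F)^[t + 1] z)).map (pullA F 1)).map (pullA F t) := Ideal.map_mono h2
      _ ≤ (ptI ((pev (RingHom.id K) F)^[t + 1] z)).map (pullA F (t + 1)) := by
          rw [Ideal.map_le_iff_le_comap, Ideal.map_le_iff_le_comap]
          intro f hf
          rw [Ideal.mem_comap, Ideal.mem_comap]
          change pullA F t (pullA F 1 f) ∈ _
          rw [← pullA_add]
          exact Ideal.mem_map_of_mem _ hf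

end Exp

section Mild

universe u

variable {K : Type u} [Field K] {N d : ℕ}

/-- an irreducible periodic set that is a rational point with small exponent is not of maximal
attraction -/
theorem mild_of_exp (Φ : Morph K N d) {I : Ideal (MvPolynomial (Fin (N + 1)) K)} (hI : IsIrrIdeal I) {t : ℕ}
    (hfix : Φ.Fixes t I) {z : Fin (N + 1) → K} (hz : I = ptI z) {e : ℕ} (he : e < d ^ t) (hexp : ExpT Φ.F t z e) :
    Φ.Mild ∅ I := by
  obtain ⟨s, hs, h1⟩ := hexp
  have hpull : ∀ f, Φ.pull t f = pullA Φ.F t f := fun f => (pullA_eq Φ.F t f).symm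
  obtain ⟨T, hT, hTI⟩ := hI.2.1
  have hIh : I.IsHomogeneous (homogeneousSubmodule (Fin (N + 1)) K) := by
    rw [hTI]
    exact span_homog hT
  -- the endpoint has the same ideal
  have hend : ptI ((pev (RingHom.id K) Φ.F)^[t] z) = I := by
    apply homog_ideal_ext (ptI_homog _) hIh
    intro f m hf
    rw [mem_ptI hf, hfix f m hf, hpull, hz, mem_ptI (pullA_homog Φ.homog t hf), eval_pullA]
  refine ⟨t, e, he, ?_, s, ?_, ?_⟩
  · intro f hf
    have h2 : Ideal.span T ≤ I.comap (pullA Φ.F t) := by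
      rw [Ideal.span_le]
      intro p hp
      obtain ⟨m, hm⟩ := hT p hp
      have h3 := (hfix p m hm).1 (by rw [hTI]; exact Ideal.subset_span hp)
      rw [hpull] at h3
      exact h3
    rw [hpull]
    exact h2 (by rw [← hTI]; exact hf)
  · intro hcon
    rw [hz] at hcon
    exact hs (eval_of_mem_ptI hcon)
  · intro f hf
    rw [hend] at h1
    rw [hz] at hf
    have h2 := h1 (Ideal.mul_mem_mul (Ideal.mem_span_singleton_self s) hf)
    rw [Set.union_empty]
    have h3 : Φ.pull t '' (I : Set (MvPolynomial (Fin (N + 1)) K)) = (pullA Φ.F t) '' (I : Set (MvPolynomial (Fin (N + 1)) K)) :=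
      Set.image_congr fun f _ => hpull f
    rw [h3]
    exact h2

end Mild

end Pool.Agent.Lib.MP_df4dfc_nt
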