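import Mathlib
import Pool.Agent.Lib.MP_df4dfc_nt.L1
import Pool.Agent.Lib.MP_df4dfc_nt.Iv6
import Pool.Agent.Lib.MP_df4dfc_nt.DefsLine

set_option autoImplicit false
set_option linter.unusedSectionVars false
set_option linter.style.haveILetI false
set_option linter.unusedVariables false

/-! Maps of the plane preserving a line: exponents at the points of the line. -/

namespace Pool.Agent.Lib.MP_df4dfc_nt

open MvPolynomial

section Line

variable {K : Type*} [Field K]

/-- the linear form vanishing at a point of the line `X₀ = 0` -/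
noncomputable def ell (z : Fin 3 → K) : MvPolynomial (Fin 3) K := C (z 2) * X 1 - C (z 1) * X 2

theorem ell_homog (z : Fin 3 → K) : (ell z).IsHomogeneous 1 := by
  unfold ell
  exact ((isHomogeneous_X K 1).C_mul _).sub ((isHomogeneous_X K 2).C_mul _)

theorem eval_ell (z : Fin 3 → K) : eval z (ell z) = 0 := by
  unfold ell
  simp
  ring

/-- homogeneous polynomials evaluated at multiples of a point -/
theorem eval₂_const_mul {f : MvPolynomial (Fin 3) K} {m : ℕ} (hf : f.IsHomogeneous m) (z : Fin 3 → K) (k : Fin 3) :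
    eval₂ (C : K →+* MvPolynomial (Fin 3) K) (fun i => C (z i) * X k) f = X k ^ m * C (eval z f) := by
  have h1 : (fun i => C (z i) * X k : Fin 3 → MvPolynomial (Fin 3) K) = (X k : MvPolynomial (Fin 3) K) • (fun i => (C (z i) : MvPolynomial (Fin 3) K)) := by
    funext i
    rw [Pi.smul_apply, smul_eq_mul, mul_comm]
  rw [h1, eval₂_smul_of_homog hf]
  congr 1
  exact (eval₂_eval C z f).symm

theorem eval₂_mul_X {f : MvPolynomial (Fin 3) K} {m : ℕ} (hf : f.IsHomogeneous m) (c : K) :
    eval₂ (C : K →+* MvPolynomial (Fin 3) K) (fun i => C c * X i) f = C c ^ m * f := by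
  have h1 : (fun i => C c * X i : Fin 3 → MvPolynomial (Fin 3) K) = (C c : MvPolynomial (Fin 3) K) • (fun i => (X i : MvPolynomial (Fin 3) K)) := by
    funext i
    rw [Pi.smul_apply, smul_eq_mul]
  rw [h1, eval₂_smul_of_homog hf]
  congr 1
  exact eval₂_eta f

theorem ptI_line {z : Fin 3 → K} (hz0 : z 0 = 0) (hz : z ≠ 0) : ptI z = Ideal.span {X 0, ell z} := by
  apply le_antisymm
  · unfold ptI
    rw [Ideal.span_le]
    rintro f ⟨⟨m, hf⟩, hfz⟩
    obtain ⟨k, hk⟩ := Function.ne_iff.1 hz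
    rw [Pi.zero_apply] at hk
    set J : Ideal (MvPolynomial (Fin 3) K) := Ideal.span {X 0, ell z} with hJ
    have hX0 : (X 0 : MvPolynomial (Fin 3) K) ∈ J := Ideal.subset_span (Set.mem_insert _ _)
    have hell : ell z ∈ J := Ideal.subset_span (Set.mem_insert_of_mem _ rfl)
    have hcong : ∀ i, Ideal.Quotient.mk J (C (z k) * X i) = Ideal.Quotient.mk J (C (z i) * X k) := by
      intro i
      rw [Ideal.Quotient.eq]
      fin_cases k
      · exact absurd hz0 hk
      · fin_cases i
        · simp only [Fin.zero_eta, hz0, C_0, zero_mul, sub_zero]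
          exact Ideal.mul_mem_left _ _ hX0
        · simp
        · have : C (z 1) * X 2 - C (z 2) * X 1 = -(ell z) := by unfold ell; ring
          simp only [Fin.mk_one, Fin.reduceFinMk]
          rw [this]
          exact J.neg_mem hell
      · fin_cases i
        · simp only [Fin.zero_eta, hz0, C_0, zero_mul, sub_zero]
          exact Ideal.mul_mem_left _ _ hX0
        · simp only [Fin.mk_one, Fin.reduceFinMk]
          exact hell
        · simp
    have h1 : Ideal.Quotient.mk J (C (z k) ^ m * f) = 0 := by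
      rw [← eval₂_mul_X hf (z k), eval₂_comp_left]
      have h2 : (Ideal.Quotient.mk J) ∘ (fun i => C (z k) * X i) = (Ideal.Quotient.mk J) ∘ (fun i => C (z i) * X k) := by
        funext i
        exact hcong i
      rw [h2, ← eval₂_comp_left, eval₂_const_mul hf, hfz, C_0, mul_zero, map_zero]
    rw [Ideal.Quotient.eq_zero_iff_mem] at h1
    have h2 : C ((z k)⁻¹ ^ m) * (C (z k) ^ m * f) = f := by
      rw [← mul_assoc, ← C_pow, ← C_mul, ← mul_pow, inv_mul_cancel₀ hk, one_pow, C_1, one_mul]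
    rw [SetLike.mem_coe, ← h2]
    exact Ideal.mul_mem_left _ _ h1
  · rw [Ideal.span_le]
    rintro f (rfl | rfl)
    · exact (mem_ptI (isHomogeneous_X K 0)).2 (by rw [eval_X, hz0])
    · exact (mem_ptI (ell_homog z)).2 (eval_ell z)

/-- gradients of elements of the ideal of the point -/
theorem grad_of_mem {z : Fin 3 → K} (hz0 : z 0 = 0) (a b : MvPolynomial (Fin 3) K) :
    eval z (pderiv 0 (a * X 0 + b * ell z)) = eval z a ∧
    eval z (pderiv 1 (a * X 0 + b * ell z)) = eval z b * z 2 ∧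
    eval z (pderiv 2 (a * X 0 + b * ell z)) = -(eval z b * z 1) := by
  have h0 : pderiv 0 (ell z) = 0 := by
    unfold ell
    simp [pderiv_X]
  have h1 : pderiv 1 (ell z) = C (z 2) := by
    unfold ell
    simp [pderiv_X]
  have h2 : pderiv 2 (ell z) = -C (z 1) := by
    unfold ell
    simp [pderiv_X]
  have e := eval_ell z
  refine ⟨?_, ?_, ?_⟩
  · rw [map_add, pderiv_mul, pderiv_mul, h0, pderiv_X_self]
    simp [hz0, e]
  · rw [map_add, pderiv_mul, pderiv_mul, h1, pderiv_X_of_ne (show (0 : Fin 3) ≠ 1 by decide)]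
    simp [hz0, e]
  · rw [map_add, pderiv_mul, pderiv_mul, h2, pderiv_X_of_ne (show (0 : Fin 3) ≠ 2 by decide)]
    simp [hz0, e]

/-- multiplicity on the line -/
theorem mult_line {z : Fin 3 → K} (hz0 : z 0 = 0) (hz : z ≠ 0) : ∀ (n : ℕ) (f : MvPolynomial (Fin 3) K), f.IsHomogeneous n →
    f ∉ Ideal.span {(X 0 : MvPolynomial (Fin 3) K)} →
    ∃ (m : ℕ) (b r : MvPolynomial (Fin 3) K), m ≤ n ∧ f = b * X 0 + r * ell z ^ m ∧ eval z r ≠ 0 := by
  intro n
  induction n with
  | zero =>
    intro f hf hnot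
    refine ⟨0, 0, f, le_rfl, by simp, ?_⟩
    intro h0
    apply hnot
    have h1 := (mem_ptI hf).2 h0
    have h2 : f = C (coeff 0 f) := by
      have := homogeneousComponent_eq_self hf
      rw [homogeneousComponent_zero] at this
      exact this.symm
    rw [h2, eval_C] at h0
    rw [h2, h0, C_0]
    exact Ideal.zero_mem _
  | succ n ih =>
    intro f hf hnot
    by_cases h0 : eval z f = 0
    · have h1 := (mem_ptI hf).2 h0
      rw [ptI_line hz0 hz] at h1
      obtain ⟨a, g, hag⟩ := Ideal.mem_span_pair.1 h1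
      have h2 : f = homogeneousComponent n a * X 0 + homogeneousComponent n g * ell z := by
        have h3 := congrArg (homogeneousComponent (n + 1)) hag
        rw [map_add, hc_mul a _ (isHomogeneous_X K 0), hc_mul g _ (ell_homog z), homogeneousComponent_eq_self hf] at h3
        exact h3.symm
      obtain ⟨m, b, r, hm, hb, hr⟩ := ih (homogeneousComponent n g) (homogeneousComponent_isHomogeneous n g) (by
        intro hcon
        apply hnot
        rw [h2]
        apply Ideal.add_mem
        · exact Ideal.mul_mem_left _ _ (Ideal.mem_span_singleton_self _)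
        · exact Ideal.mul_mem_right _ _ hcon)
      refine ⟨m + 1, homogeneousComponent n a + b * ell z, r, by omega, ?_, hr⟩
      rw [pow_succ]
      calc f = homogeneousComponent n a * X 0 + homogeneousComponent n g * ell z := h2
        _ = homogeneousComponent n a * X 0 + (b * X 0 + r * ell z ^ m) * ell z := by rw [← hb]
        _ = _ := by ring
    · exact ⟨0, 0, f, Nat.zero_le _, by simp, h0⟩

variable {F : Fin 3 → MvPolynomial (Fin 3) K} {d : ℕ} {A : MvPolynomial (Fin 3) K}

/-- the pulled back linear form -/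
noncomputable def Qf (F : Fin 3 → MvPolynomial (Fin 3) K) (z : Fin 3 → K) : MvPolynomial (Fin 3) K :=
  C (eval z (F 2)) * F 1 - C (eval z (F 1)) * F 2

theorem Qf_homog (hF : ∀ i, (F i).IsHomogeneous d) (z : Fin 3 → K) : (Qf F z).IsHomogeneous d :=
  ((hF 1).C_mul _).sub ((hF 2).C_mul _)

theorem eval_Qf (z : Fin 3 → K) : eval z (Qf F z) = 0 := by
  unfold Qf
  simp
  ring

theorem pev_zero_coord (h0 : F 0 = X 0 * A) {z : Fin 3 → K} (hz0 : z 0 = 0) : pev (RingHom.id K) F z 0 = 0 := by
  change eval z (F 0) = 0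
  rw [h0, map_mul, eval_X, hz0, zero_mul]

theorem mem_map_target (hF : ∀ i, (F i).IsHomogeneous d) (h0 : F 0 = X 0 * A) {z : Fin 3 → K} (hz0 : z 0 = 0)
    (hz' : pev (RingHom.id K) F z ≠ 0) :
    X 0 * A ∈ (ptI ((pev (RingHom.id K) F)^[1] z)).map (pullA F 1) ∧
    Qf F z ∈ (ptI ((pev (RingHom.id K) F)^[1] z)).map (pullA F 1) := by
  have hp1 : ∀ i, pullA F 1 (X i) = F i := by
    intro i
    rw [pullA_eq]
    exact bind₁_X_right F i
  rw [Function.iterate_one, ptI_line (pev_zero_coord h0 hz0) hz']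
  constructor
  · have h1 := Ideal.mem_map_of_mem (pullA F 1) (Ideal.subset_span (Set.mem_insert _ _) :
      (X 0 : MvPolynomial (Fin 3) K) ∈ Ideal.span {X 0, ell (pev (RingHom.id K) F z)})
    rw [hp1, h0] at h1
    exact h1
  · have h1 := Ideal.mem_map_of_mem (pullA F 1) (Ideal.subset_span (Set.mem_insert_of_mem _ rfl) :
      ell (pev (RingHom.id K) F z) ∈ Ideal.span {X 0, ell (pev (RingHom.id K) F z)})
    have h2 : pullA F 1 (ell (pev (RingHom.id K) F z)) = Qf F z := by
      unfold ell Qf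
      rw [map_sub, map_mul, map_mul, hp1, hp1]
      have h3 : ∀ c : K, pullA F 1 (C c) = C c := fun c => by
        rw [← MvPolynomial.algebraMap_eq]
        exact (pullA F 1).commutes c
      rw [h3, h3]
      rfl
    rw [h2] at h1
    exact h1

/-- the restriction to the line is unramified at points where the Wronskian does not vanish -/
theorem unram (hF : ∀ i, (F i).IsHomogeneous d) (h0 : F 0 = X 0 * A) {z : Fin 3 → K} (hz0 : z 0 = 0) (hz : z ≠ 0)
    (hz' : pev (RingHom.id K) F z ≠ 0) (hwr : eval z (wr F) ≠ 0) :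
    ∃ b r : MvPolynomial (Fin 3) K, Qf F z = b * X 0 + r * ell z ∧ eval z r ≠ 0 := by
  have h1 := (mem_ptI (Qf_homog hF z)).2 (eval_Qf z)
  rw [ptI_line hz0 hz] at h1
  obtain ⟨b, r, hbr⟩ := Ideal.mem_span_pair.1 h1
  refine ⟨b, r, hbr.symm, ?_⟩
  intro hr
  apply hwr
  obtain ⟨-, g1, g2⟩ := grad_of_mem hz0 b r
  rw [hbr, hr] at g1 g2
  unfold Qf at g1 g2
  simp only [map_sub, pderiv_mul, pderiv_C, zero_mul, zero_add, map_mul, eval_C, neg_zero] at g1 g2
  have hne : eval z (F 1) ≠ 0 ∨ eval z (F 2) ≠ 0 := by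
    by_contra hcon
    push Not at hcon
    apply hz'
    funext i
    fin_cases i
    · exact pev_zero_coord h0 hz0
    · exact hcon.1
    · exact hcon.2
  unfold wr
  rw [map_sub, map_mul, map_mul]
  rcases hne with h | h
  · apply mul_left_cancel₀ h
    linear_combination (eval z (pderiv 2 (F 1))) * g1 - (eval z (pderiv 1 (F 1))) * g2
  · apply mul_left_cancel₀ h
    linear_combination (eval z (pderiv 2 (F 2))) * g1 - (eval z (pderiv 1 (F 2))) * g2

theorem exp_unram (hF : ∀ i, (F i).IsHomogeneous d) (h0 : F 0 = X 0 * A) {z : Fin 3 → K} (hz0 : z 0 = 0) (hz : z ≠ 0)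
    (hz' : pev (RingHom.id K) F z ≠ 0) (hwr : eval z (wr F) ≠ 0) (hA : eval z A ≠ 0) : ExpT F 1 z 1 := by
  obtain ⟨b, r, hbr, hr⟩ := unram hF h0 hz0 hz hz' hwr
  obtain ⟨m1, m2⟩ := mem_map_target hF h0 hz0 hz'
  refine ⟨A * r, by rw [map_mul]; exact mul_ne_zero hA hr, ?_⟩
  rw [pow_one, ptI_line hz0 hz, Ideal.span_mul_span', Ideal.span_le]
  rintro _ ⟨s, hs, g, hg, rfl⟩
  rw [Set.mem_singleton_iff] at hs
  subst hs
  simp only [SetLike.mem_coe]
  rcases hg with rfl | rfl
  · have : A * r * X 0 = r * (X 0 * A) := by ring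
    rw [this]
    exact Ideal.mul_mem_left _ _ m1
  · have : A * r * ell z = A * Qf F z - b * (X 0 * A) := by rw [hbr]; ring
    rw [this]
    exact Ideal.sub_mem _ (Ideal.mul_mem_left _ _ m2) (Ideal.mul_mem_left _ _ m1)

theorem exp_two (hF : ∀ i, (F i).IsHomogeneous d) (h0 : F 0 = X 0 * A) {n : ℕ} (hAh : A.IsHomogeneous n) {z : Fin 3 → K}
    (hz0 : z 0 = 0) (hz : z ≠ 0) (hz' : pev (RingHom.id K) F z ≠ 0) (hwr : eval z (wr F) ≠ 0)
    (hA : eval z A = 0) (hjac : eval z (jac A F) ≠ 0) : ExpT F 1 z 2 := by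
  obtain ⟨b, r, hbr, hr⟩ := unram hF h0 hz0 hz hz' hwr
  obtain ⟨m1, m2⟩ := mem_map_target hF h0 hz0 hz'
  have h1 := (mem_ptI hAh).2 hA
  rw [ptI_line hz0 hz] at h1
  obtain ⟨a', a'', haa⟩ := Ideal.mem_span_pair.1 h1
  have hΔ : eval z (a'' * b - a' * r) ≠ 0 := by
    intro hΔ0
    apply hjac
    rw [map_sub, map_mul, map_mul] at hΔ0
    obtain ⟨g0, g1, g2⟩ := grad_of_mem hz0 b r
    obtain ⟨k0, k1, k2⟩ := grad_of_mem hz0 a' a''
    rw [← hbr] at g0 g1 g2
    rw [haa] at k0 k1 k2
    unfold Qf at g0 g1 g2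
    simp only [map_sub, pderiv_mul, pderiv_C, zero_mul, zero_add, map_mul, eval_C] at g0 g1 g2
    unfold jac
    simp only [map_sub, map_add, map_mul]
    rw [k0, k1, k2]
    apply mul_left_cancel₀ hr
    -- r ∇A = a'' ∇Q
    set f0 := eval z (pderiv 0 (F 1)) with hf0
    set f1 := eval z (pderiv 1 (F 1)) with hf1
    set f2 := eval z (pderiv 2 (F 1)) with hf2
    set e0 := eval z (pderiv 0 (F 2)) with he0
    set e1 := eval z (pderiv 1 (F 2)) with he1
    set e2 := eval z (pderiv 2 (F 2)) with he2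
    set α := eval z a'' with hα
    set β := eval z a' with hβ
    set ρ := eval z r with hρ
    set τ := eval z b with hτ
    linear_combination (-(f1 * e2 - f2 * e1)) * hΔ0 - α * (f1 * e2 - f2 * e1) * g0 + α * (f0 * e2 - f2 * e0) * g1
      - α * (f0 * e1 - f1 * e0) * g2
  refine ⟨(a'' * b - a' * r) * r, by rw [map_mul]; exact mul_ne_zero hΔ hr, ?_⟩
  rw [sq, ptI_line hz0 hz, Ideal.span_mul_span', Ideal.span_mul_span', Ideal.span_le]
  rintro _ ⟨s, hs, _, ⟨g, hg, g', hg', rfl⟩, rfl⟩
  rw [Set.mem_singleton_iff] at hs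
  subst hs
  simp only [SetLike.mem_coe]
  have e1 : (a'' * b - a' * r) * X 0 = a'' * Qf F z - r * A := by rw [hbr, ← haa]; ring
  have e2 : (a'' * b - a' * r) * ell z = b * A - a' * Qf F z := by rw [hbr, ← haa]; ring
  have t0 : (a'' * b - a' * r) * r * (X 0 * X 0) ∈ (ptI ((pev (RingHom.id K) F)^[1] z)).map (pullA F 1) := by
    have : (a'' * b - a' * r) * r * (X 0 * X 0) = (r * a'' * X 0) * Qf F z - (r * r) * (X 0 * A) := by
      calc (a'' * b - a' * r) * r * (X 0 * X 0) = r * X 0 * ((a'' * b - a' * r) * X 0) := by ring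
        _ = _ := by rw [e1]; ring
    rw [this]
    exact Ideal.sub_mem _ (Ideal.mul_mem_left _ _ m2) (Ideal.mul_mem_left _ _ m1)
  have t1 : (a'' * b - a' * r) * r * (X 0 * ell z) ∈ (ptI ((pev (RingHom.id K) F)^[1] z)).map (pullA F 1) := by
    have : (a'' * b - a' * r) * r * (X 0 * ell z) = (r * b) * (X 0 * A) - (r * a' * X 0) * Qf F z := by
      calc (a'' * b - a' * r) * r * (X 0 * ell z) = r * X 0 * ((a'' * b - a' * r) * ell z) := by ring
        _ = _ := by rw [e2]; ring
    rw [this]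
    exact Ideal.sub_mem _ (Ideal.mul_mem_left _ _ m1) (Ideal.mul_mem_left _ _ m2)
  have t2 : (a'' * b - a' * r) * r * (ell z * ell z) ∈ (ptI ((pev (RingHom.id K) F)^[1] z)).map (pullA F 1) := by
    have : (a'' * b - a' * r) * r * (ell z * ell z) = ((a'' * b - a' * r) * ell z) * Qf F z
        - b * (b * (X 0 * A) - (a' * X 0) * Qf F z) := by
      calc (a'' * b - a' * r) * r * (ell z * ell z) = ((a'' * b - a' * r) * ell z) * (b * X 0 + r * ell z)
            - b * X 0 * ((a'' * b - a' * r) * ell z) := by ring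
        _ = ((a'' * b - a' * r) * ell z) * Qf F z - b * X 0 * (b * A - a' * Qf F z) := by rw [← hbr, e2]
        _ = _ := by rw [e2]; ring
    rw [this]
    exact Ideal.sub_mem _ (Ideal.mul_mem_left _ _ m2)
      (Ideal.mul_mem_left _ _ (Ideal.sub_mem _ (Ideal.mul_mem_left _ _ m1) (Ideal.mul_mem_left _ _ m2)))
  rcases hg with rfl | rfl <;> rcases hg' with rfl | rfl
  · exact t0
  · exact t1
  · have : (a'' * b - a' * r) * r * (ell z * X 0) = (a'' * b - a' * r) * r * (X 0 * ell z) := by ring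
    rw [this]
    exact t1
  · exact t2

theorem sup_pow_le (I J : Ideal (MvPolynomial (Fin 3) K)) (n : ℕ) : (I ⊔ J) ^ n ≤ I ⊔ J ^ n := by
  induction n with
  | zero => simp
  | succ n ih =>
    rw [pow_succ, pow_succ]
    refine (Ideal.mul_mono_left ih).trans ?_
    rw [Ideal.sup_mul, Ideal.mul_sup, Ideal.mul_sup]
    refine sup_le (sup_le ?_ ?_) (sup_le ?_ ?_)
    · exact Ideal.mul_le_left.trans le_sup_left
    · exact Ideal.mul_le_left.trans le_sup_left
    · exact Ideal.mul_le_right.trans le_sup_left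
    · exact le_sup_right

theorem exp_deg {Ω : Type*} [Field Ω] [Algebra K Ω] [IsAlgClosed Ω] (hd : 1 ≤ d) (hF : ∀ i, (F i).IsHomogeneous d)
    (hNZ : NZ (algebraMap K Ω) F) (h0 : F 0 = X 0 * A) {z : Fin 3 → K}
    (hz0 : z 0 = 0) (hz : z ≠ 0) (hz' : pev (RingHom.id K) F z ≠ 0) (hA : eval z A ≠ 0) : ExpT F 1 z d := by
  -- the pulled back form does not vanish on the line
  have hQ : Qf F z ∉ Ideal.span {(X 0 : MvPolynomial (Fin 3) K)} := by
    intro hcon
    rw [Ideal.mem_span_singleton'] at hcon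
    obtain ⟨u, hu⟩ := hcon
    have hline : ∀ y : Fin 3 → Ω, y 0 = 0 → eval₂ (algebraMap K Ω) y (Qf F z) = 0 := by
      intro y hy
      rw [← hu, eval₂_mul, eval₂_X, hy, mul_zero]
    have hzero : ∀ P : MvPolynomial (Fin 3) K, P.IsHomogeneous d → ∃ y : Fin 3 → Ω, y ≠ 0 ∧ y 0 = 0 ∧ eval₂ (algebraMap K Ω) y P = 0 := by
      intro P hP
      obtain ⟨y, hy, hy'⟩ := exists_common_zero (Ω := Ω) (![X 0 ^ d, MvPolynomial.map (algebraMap K Ω) P, 0] : Fin 3 → MvPolynomial (Fin 3) Ω)
        hd (by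
          intro i
          fin_cases i
          · have := (isHomogeneous_X Ω (0 : Fin 3)).pow d
            rw [one_mul] at this
            exact this
          · exact hP.map _
          · exact isHomogeneous_zero _ _ _) 2 rfl
      refine ⟨y, hy, ?_, ?_⟩
      · have h1 := hy' 0
        simp only [Matrix.cons_val_zero, map_pow, eval_X] at h1
        exact pow_eq_zero_iff (by omega) |>.1 h1
      · have h1 := hy' 1
        simp only [Matrix.cons_val_one, Matrix.cons_val_zero] at h1
        rw [eval_map] at h1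
        exact h1
    have hcontra : ∀ y : Fin 3 → Ω, y ≠ 0 → y 0 = 0 → eval₂ (algebraMap K Ω) y (F 1) = 0 → eval₂ (algebraMap K Ω) y (F 2) = 0 → False := by
      intro y hy hy0 h1 h2
      apply hNZ y hy
      funext i
      fin_cases i
      · change eval₂ (algebraMap K Ω) y (F 0) = 0
        rw [h0, eval₂_mul, eval₂_X, hy0, zero_mul]
      · exact h1
      · exact h2
    have hinj := (algebraMap K Ω).injective
    by_cases h1 : eval z (F 1) = 0
    · have h2 : eval z (F 2) ≠ 0 := by
        intro h2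
        apply hz'
        funext i
        fin_cases i
        · exact pev_zero_coord h0 hz0
        · exact h1
        · exact h2
      obtain ⟨y, hy, hy0, hy2⟩ := hzero (F 2) (hF 2)
      apply hcontra y hy hy0 _ hy2
      have h3 := hline y hy0
      unfold Qf at h3
      rw [h1, C_0, zero_mul, sub_zero, eval₂_mul, eval₂_C] at h3
      exact (mul_eq_zero.1 h3).resolve_left ((map_ne_zero _).2 h2)
    · obtain ⟨y, hy, hy0, hy1⟩ := hzero (F 1) (hF 1)
      apply hcontra y hy hy0 hy1
      have h3 := hline y hy0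
      unfold Qf at h3
      rw [eval₂_sub, eval₂_mul, eval₂_mul, eval₂_C, eval₂_C, hy1, mul_zero, zero_sub, neg_eq_zero] at h3
      exact (mul_eq_zero.1 h3).resolve_left ((map_ne_zero _).2 h1)
  obtain ⟨m, b, r, hm, hbr, hr⟩ := mult_line hz0 hz d (Qf F z) (Qf_homog hF z) hQ
  obtain ⟨m1, m2⟩ := mem_map_target hF h0 hz0 hz'
  refine ⟨A * r, by rw [map_mul]; exact mul_ne_zero hA hr, ?_⟩
  have h1 : ptI z ^ d ≤ Ideal.span {X 0} ⊔ Ideal.span {ell z ^ m} := by
    refine (Ideal.pow_le_pow_right hm).trans ?_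
    rw [ptI_line hz0 hz, Ideal.span_insert]
    refine (sup_pow_le _ _ m).trans ?_
    rw [Ideal.span_singleton_pow]
  refine (Ideal.mul_mono_right h1).trans ?_
  rw [Ideal.mul_sup, Ideal.span_singleton_mul_span_singleton, Ideal.span_singleton_mul_span_singleton]
  refine sup_le ?_ ?_
  · rw [Ideal.span_singleton_le_iff_mem]
    have : A * r * X 0 = r * (X 0 * A) := by ring
    rw [this]
    exact Ideal.mul_mem_left _ _ m1
  · rw [Ideal.span_singleton_le_iff_mem]
    have : A * r * ell z ^ m = A * Qf F z - b * (X 0 * A) := by rw [hbr]; ring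
    rw [this]
    exact Ideal.sub_mem _ (Ideal.mul_mem_left _ _ m2) (Ideal.mul_mem_left _ _ m1)

end Line

end Pool.Agent.Lib.MP_df4dfc_nt
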