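import Mathlib
import Pool.Agent.Lib.MP_df4dfc_nt.L2

set_option autoImplicit false
set_option linter.unusedSectionVars false
set_option linter.style.haveILetI false
set_option linter.unusedVariables false

/-! Maps of the plane preserving a line: no maximal attraction, if the zeros are rational. -/

namespace Pool.Agent.Lib.MP_df4dfc_nt

open MvPolynomial

universe u

section Line

variable {K : Type u} [Field K] {d : ℕ} {A : MvPolynomial (Fin 3) K}

theorem wr_homog {F : Fin 3 → MvPolynomial (Fin 3) K} (hF : ∀ i, (F i).IsHomogeneous d) :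
    (wr F).IsHomogeneous ((d - 1) + (d - 1)) := by
  unfold wr
  exact (((hF 1).pderiv).mul ((hF 2).pderiv)).sub (((hF 1).pderiv).mul ((hF 2).pderiv))

/-- a point of the line at which the Wronskian vanishes -/
theorem exists_wr_zero {Ω : Type*} [Field Ω] [Algebra K Ω] [IsAlgClosed Ω] (hd : 2 ≤ d) {F : Fin 3 → MvPolynomial (Fin 3) K}
    (hF : ∀ i, (F i).IsHomogeneous d) : ∃ y : Fin 3 → Ω, y ≠ 0 ∧ y 0 = 0 ∧ aeval y (wr F) = 0 := by
  obtain ⟨y, hy, hy'⟩ := exists_common_zero (Ω := Ω)
    (![X 0 ^ ((d - 1) + (d - 1)), MvPolynomial.map (algebraMap K Ω) (wr F), 0] : Fin 3 → MvPolynomial (Fin 3) Ω)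
    (d := (d - 1) + (d - 1)) (by omega) (by
      intro i
      fin_cases i
      · have := (isHomogeneous_X Ω (0 : Fin 3)).pow ((d - 1) + (d - 1))
        rw [one_mul] at this
        exact this
      · exact (wr_homog hF).map _
      · exact isHomogeneous_zero _ _ _) 2 rfl
  refine ⟨y, hy, ?_, ?_⟩
  · have h1 := hy' 0
    simp only [Matrix.cons_val_zero, map_pow, eval_X] at h1
    exact pow_eq_zero_iff (by omega) |>.1 h1
  · have h1 := hy' 1
    simp only [Matrix.cons_val_one, Matrix.cons_val_zero] at h1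
    rw [eval_map] at h1
    exact h1

theorem aeval_smul_homogL {Ω : Type*} [Field Ω] [Algebra K Ω] {f : MvPolynomial (Fin 3) K} {m : ℕ} (hf : f.IsHomogeneous m)
    (b : Ω) (y : Fin 3 → Ω) : aeval (b • y) f = b ^ m * aeval y f := by
  rw [aeval_def, aeval_def]
  exact eval₂_smul_of_homog hf (algebraMap K Ω) b y

theorem aeval_rat {Ω : Type*} [Field Ω] [Algebra K Ω] (f : MvPolynomial (Fin 3) K) (z : Fin 3 → K) :
    aeval (fun i => algebraMap K Ω (z i)) f = algebraMap K Ω (eval z f) := by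
  rw [← aeval_eq_eval, ← aeval_algebraMap_apply]
  rfl

theorem noMax_line (hd : 2 ≤ d) (Φ : Morph K 2 d) (hA : A.IsHomogeneous (d - 1)) (h0 : Φ.F 0 = X 0 * A)
    (hrat : ∀ y : Fin 3 → AlgebraicClosure K, y ≠ 0 → y 0 = 0 → aeval y A = 0 →
      ∃ (z : Fin 3 → K) (b : AlgebraicClosure K), z ≠ 0 ∧ y = b • (fun i => algebraMap K (AlgebraicClosure K) (z i)))
    (hgen : ∀ z : Fin 3 → K, z ≠ 0 → z 0 = 0 → eval z A = 0 → eval z (jac A Φ.F) ≠ 0 ∧ eval z (wr Φ.F) ≠ 0 ∧
      (3 ≤ d ∨ (eval (pev (RingHom.id K) Φ.F z) A ≠ 0 ∧ eval (pev (RingHom.id K) Φ.F z) (wr Φ.F) ≠ 0))) :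
    Φ.NoMaxIn ∅ A := by
  set Ω := AlgebraicClosure K with hΩ
  have hinj := (algebraMap K Ω).injective
  have hNZ : NZ (algebraMap K Ω) Φ.F := by
    intro z hz h0
    apply hz
    apply Φ.noZero
    intro i
    exact congrFun h0 i
  have hNZK : NZ (RingHom.id K) Φ.F := NZ.of_injective (ψ := algebraMap K Ω) (by rw [RingHom.comp_id]; exact hNZ) hinj
  -- the line is not contained in A = 0
  have hAX : A ∉ Ideal.span {(X 0 : MvPolynomial (Fin 3) K)} := by
    intro hcon
    rw [Ideal.mem_span_singleton'] at hcon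
    obtain ⟨u, hu⟩ := hcon
    obtain ⟨y, hy, hy0, hyw⟩ := exists_wr_zero (Ω := Ω) hd Φ.homog
    have hyA : aeval y A = 0 := by rw [← hu, map_mul, aeval_X, hy0, mul_zero]
    obtain ⟨z, b, hz, hyz⟩ := hrat y hy hy0 hyA
    have hb : b ≠ 0 := by
      rintro rfl
      rw [zero_smul] at hyz
      exact hy hyz
    have hz0 : z 0 = 0 := by
      have h1 := congrFun hyz 0
      rw [hy0, Pi.smul_apply, smul_eq_mul] at h1
      exact (map_eq_zero _).1 ((mul_eq_zero.1 h1.symm).resolve_left hb)
    have hev : ∀ (f : MvPolynomial (Fin 3) K) (m : ℕ), f.IsHomogeneous m → aeval y f = 0 → eval z f = 0 := by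
      intro f m hf h1
      rw [hyz, aeval_smul_homogL hf, aeval_rat] at h1
      exact (map_eq_zero _).1 ((mul_eq_zero.1 h1).resolve_left (pow_ne_zero _ hb))
    exact (hgen z hz hz0 (hev A _ hA hyA)).2.1 (hev _ _ (wr_homog Φ.homog) hyw)
  intro I hI _ hAI hfix
  obtain ⟨t, ht, hfix⟩ := hfix
  haveI hIp := hI.1
  obtain ⟨T, hT, hTI⟩ := id hI.2.1
  obtain ⟨i0, hi0⟩ := hI.2.2
  -- X₀ lies in the ideal
  have hpullX : ∀ n : ℕ, ∃ c, Φ.pull (n + 1) (X 0) = X 0 * A * c := by
    intro n
    induction n with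
    | zero =>
      refine ⟨1, ?_⟩
      unfold Morph.pull
      rw [zero_add, Function.iterate_one, bind₁_X_right, h0, mul_one]
    | succ n ih =>
      obtain ⟨c, hc⟩ := ih
      refine ⟨bind₁ Φ.F (A * c), ?_⟩
      unfold Morph.pull at hc ⊢
      rw [Function.iterate_succ_apply', hc, mul_assoc, map_mul, bind₁_X_right, h0]
  have hX0 : (X 0 : MvPolynomial (Fin 3) K) ∈ I := by
    rw [hfix (X 0) 1 (isHomogeneous_X K 0)]
    obtain ⟨c, hc⟩ := hpullX (t - 1)
    rw [show t - 1 + 1 = t by omega] at hc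
    rw [hc, mul_comm (X 0) A, mul_assoc]
    exact Ideal.mul_mem_right _ _ hAI
  -- a geometric point
  obtain ⟨y, hyI, hyi⟩ : ∃ y : Fin 3 → Ω, (∀ f ∈ I, aeval y f = 0) ∧ y i0 ≠ 0 := by
    by_contra hcon
    push Not at hcon
    apply hi0
    have h1 : (X i0 : MvPolynomial (Fin 3) K) ∈ I.radical := by
      rw [← vanishingIdeal_zeroLocus_eq_radical (K := Ω), mem_vanishingIdeal_iff]
      intro y hy
      rw [mem_zeroLocus_iff] at hy
      rw [aeval_X]
      exact hcon y hy
    rw [hIp.radical] at h1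
    exact h1
  have hy : y ≠ 0 := fun h => hyi (by rw [h]; rfl)
  have hy0 : y 0 = 0 := by
    have := hyI _ hX0
    rwa [aeval_X] at this
  have hyA := hyI _ hAI
  obtain ⟨z, b, hz, hyz⟩ := hrat y hy hy0 hyA
  have hb : b ≠ 0 := by
    rintro rfl
    rw [zero_smul] at hyz
    exact hy hyz
  have hev : ∀ (f : MvPolynomial (Fin 3) K) (m : ℕ), f.IsHomogeneous m → f ∈ I → eval z f = 0 := by
    intro f m hf h1
    have h2 := hyI f h1
    rw [hyz, aeval_smul_homogL hf, aeval_rat] at h2
    exact (map_eq_zero _).1 ((mul_eq_zero.1 h2).resolve_left (pow_ne_zero _ hb))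
  have hz0 : z 0 = 0 := by
    have := hev _ 1 (isHomogeneous_X K 0) hX0
    rwa [eval_X] at this
  have hzA : eval z A = 0 := hev A _ hA hAI
  -- the ideal is the ideal of the point
  have hle : I ≤ ptI z := by
    rw [hTI, Ideal.span_le]
    intro f hf
    obtain ⟨m, hm⟩ := hT f hf
    exact (mem_ptI hm).2 (hev f m hm (by rw [hTI]; exact Ideal.subset_span hf))
  have hell : ell z ∈ I := by
    obtain ⟨m, b', r, _, hbr, hr⟩ := mult_line hz0 hz _ A hA hAX
    have h1 : r * ell z ^ m ∈ I := by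
      have : r * ell z ^ m = A - b' * X 0 := by
        calc r * ell z ^ m = (b' * X 0 + r * ell z ^ m) - b' * X 0 := by ring
          _ = A - b' * X 0 := by rw [← hbr]
      rw [this]
      exact Ideal.sub_mem _ hAI (Ideal.mul_mem_left _ _ hX0)
    rcases hIp.mem_or_mem h1 with h2 | h2
    · exact absurd (eval_of_mem_ptI (hle h2)) hr
    · exact hIp.mem_of_pow_mem _ h2
  have hIz : I = ptI z := by
    apply le_antisymm hle
    rw [ptI_line hz0 hz, Ideal.span_le]
    rintro f (rfl | rfl)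
    · exact hX0
    · exact hell
  obtain ⟨hj, hw, halt⟩ := hgen z hz hz0 hzA
  -- the orbit of the point
  have hzn : ∀ n, (pev (RingHom.id K) Φ.F)^[n] z ≠ 0 := fun n => hNZK.iter n hz
  have hzn0 : ∀ n, (pev (RingHom.id K) Φ.F)^[n] z 0 = 0 := by
    intro n
    induction n with
    | zero => exact hz0
    | succ n ih =>
      rw [Function.iterate_succ_apply']
      exact pev_zero_coord h0 ih
  -- the exponent at any point of the line is at most `d`, if the point is allowed
  have hstep : ∀ n, ExpT Φ.F 1 ((pev (RingHom.id K) Φ.F)^[n] z) d := by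
    intro n
    have h1 : pev (RingHom.id K) Φ.F ((pev (RingHom.id K) Φ.F)^[n] z) ≠ 0 := hNZK _ (hzn n)
    by_cases hAn : eval ((pev (RingHom.id K) Φ.F)^[n] z) A = 0
    · obtain ⟨hj', hw', _⟩ := hgen _ (hzn n) (hzn0 n) hAn
      exact (exp_two Φ.homog h0 hA (hzn0 n) (hzn n) h1 hw' hAn hj').mono hd
    · exact exp_deg (Ω := Ω) (by omega) Φ.homog hNZ h0 (hzn0 n) (hzn n) h1 hAn
  have hfirst : ExpT Φ.F 1 z 2 := exp_two Φ.homog h0 hA hz0 hz (hNZK _ hz) hw hzA hj
  rcases halt with h3 | ⟨ha1, ha2⟩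
  · -- degree at least three
    have hexp : ∀ n, ExpT Φ.F (n + 1) z (2 * d ^ n) := by
      intro n
      induction n with
      | zero => simpa using hfirst
      | succ n ih =>
        have := ih.succ (hstep (n + 1))
        rw [pow_succ, ← mul_assoc]
        exact this
    refine mild_of_exp Φ hI hfix hIz (e := 2 * d ^ (t - 1)) ?_ ?_
    · have h1 : d ^ t = d * d ^ (t - 1) := by
        rw [← pow_succ']
        congr 1
        omega
      rw [h1]
      exact Nat.mul_lt_mul_of_pos_right (by omega) (pow_pos (by omega) _)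
    · have := hexp (t - 1)
      rw [show t - 1 + 1 = t by omega] at this
      exact this
  · -- the image point is allowed
    have ht2 : 2 ≤ t := by
      by_contra hcon
      have ht1 : t = 1 := by omega
      subst ht1
      have h1 := (hfix A _ hA).1 hAI
      have h2 : Φ.pull 1 A = pullA Φ.F 1 A := (pullA_eq Φ.F 1 A).symm
      rw [h2, hIz] at h1
      have h3 := eval_of_mem_ptI h1
      rw [eval_pullA] at h3
      exact ha1 h3
    have hsecond : ExpT Φ.F 1 ((pev (RingHom.id K) Φ.F)^[1] z) 1 :=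
      exp_unram Φ.homog h0 (hzn0 1) (hzn 1) (hNZK _ (hzn 1)) ha2 ha1
    have hexp : ∀ n, ExpT Φ.F (n + 2) z (2 * d ^ n) := by
      intro n
      induction n with
      | zero =>
        have := hfirst.succ hsecond
        simpa using this
      | succ n ih =>
        have := ih.succ (hstep (n + 2))
        rw [pow_succ, ← mul_assoc]
        exact this
    refine mild_of_exp Φ hI hfix hIz (e := 2 * d ^ (t - 2)) ?_ ?_
    · have h1 : d ^ t = d * d * d ^ (t - 2) := by
        rw [mul_assoc, ← pow_succ', ← pow_succ']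
        congr 1
        omega
      rw [h1]
      exact Nat.mul_lt_mul_of_pos_right (by nlinarith) (pow_pos (by omega) _)
    · have := hexp (t - 2)
      rw [show t - 2 + 2 = t by omega] at this
      exact this

end Line

end Pool.Agent.Lib.MP_df4dfc_nt
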