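import Mathlib
import Pool.Agent.Lib.MP_df4dfc_nt.L3
import Pool.Agent.Lib.MP_df4dfc_nt.Ext

set_option autoImplicit false
set_option linter.unusedSectionVars false
set_option linter.style.haveILetI false
set_option linter.unusedVariables false

/-! Maps of the plane preserving a line are towers, outside a proper closed set. -/

namespace Pool.Agent.Lib.MP_df4dfc_nt

open MvPolynomial

universe u

section Res

variable {K : Type u} [Field K] {N d : ℕ}

/-- restriction of a morphism to the invariant hyperplane `X₀ = 0` -/
theorem exists_res (Φ : Morph K (N + 1) d) {A : MvPolynomial (Fin (N + 2)) K} (h0 : Φ.F 0 = X 0 * A) :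
    ∃ Ψ : Morph K N d, ∀ y : Fin (N + 1) → AlgebraicClosure K,
      Φ.lift (Fin.cons 0 y : Fin (N + 2) → AlgebraicClosure K) = Fin.cons 0 (Ψ.lift y) := by
  set ψ : Fin (N + 2) → MvPolynomial (Fin (N + 1)) K := Fin.cons 0 (fun k => X k) with hψ
  have hval : ∀ (f : MvPolynomial (Fin (N + 2)) K) (y : Fin (N + 1) → AlgebraicClosure K),
      aeval y (bind₁ ψ f) = aeval (Fin.cons 0 y : Fin (N + 2) → AlgebraicClosure K) f := by
    intro f y
    rw [aeval_bind₁]
    congr 2
    funext k
    refine Fin.cases ?_ (fun k => ?_) k
    · simp [hψ]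
    · simp [hψ]
  refine ⟨{ F := fun i => bind₁ ψ (Φ.F i.succ), homog := ?_, noZero := ?_ }, ?_⟩
  · intro i
    have h1 := (Φ.homog i.succ).aeval ψ (n := 1) (by
      intro k
      refine Fin.cases ?_ (fun k => ?_) k
      · exact isHomogeneous_zero _ _ _
      · exact isHomogeneous_X _ _)
    rw [one_mul] at h1
    exact h1
  · intro x hx
    have h1 : (Fin.cons 0 x : Fin (N + 2) → AlgebraicClosure K) = 0 := by
      apply Φ.noZero
      intro i
      refine Fin.cases ?_ (fun i => ?_) i
      · rw [h0, map_mul, aeval_X, Fin.cons_zero, zero_mul]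
      · rw [← hval]
        exact hx i
    funext k
    have := congrFun h1 k.succ
    rwa [Fin.cons_succ] at this
  · intro y
    funext i
    refine Fin.cases ?_ (fun i => ?_) i
    · rw [Fin.cons_zero]
      change aeval _ (Φ.F 0) = 0
      rw [h0, map_mul, aeval_X, Fin.cons_zero, zero_mul]
    · rw [Fin.cons_succ]
      change aeval _ (Φ.F i.succ) = aeval y (bind₁ ψ (Φ.F i.succ))
      rw [hval]

end Res

section Line

variable {K : Type u} [Field K] {d : ℕ} {A : MvPolynomial (Fin 3) K}

theorem wr_map {K' : Type*} [Field K'] (φ : K →+* K') (F : Fin 3 → MvPolynomial (Fin 3) K) :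
    wr (fun i => MvPolynomial.map φ (F i)) = MvPolynomial.map φ (wr F) := by
  unfold wr
  simp only [map_sub, map_mul, pderiv_map]

theorem jac_map {K' : Type*} [Field K'] (φ : K →+* K') (A : MvPolynomial (Fin 3) K) (F : Fin 3 → MvPolynomial (Fin 3) K) :
    jac (MvPolynomial.map φ A) (fun i => MvPolynomial.map φ (F i)) = MvPolynomial.map φ (jac A F) := by
  unfold jac
  simp only [map_sub, map_add, map_mul, pderiv_map]

/-- **Maps of the plane preserving a line.** -/
theorem rigM_line [NumberField K] (hd : 2 ≤ d) (Φ : Morph K 2 d) (hA : A.IsHomogeneous (d - 1)) (h0 : Φ.F 0 = X 0 * A)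
    (hgen : ∀ y : Fin 3 → AlgebraicClosure K, y ≠ 0 → y 0 = 0 → aeval y A = 0 →
      aeval y (jac A Φ.F) ≠ 0 ∧ aeval y (wr Φ.F) ≠ 0 ∧
      (3 ≤ d ∨ (aeval (Φ.lift y) A ≠ 0 ∧ aeval (Φ.lift y) (wr Φ.F) ≠ 0))) :
    RigM Φ := by
  classical
  set Ω := AlgebraicClosure K with hΩ
  -- a point of the line off A = 0
  obtain ⟨y1, hy1, hy10, hy1w⟩ := exists_wr_zero (Ω := Ω) hd Φ.homog
  have hy1A : aeval y1 A ≠ 0 := fun h => (hgen y1 hy1 hy10 h).2.1 hy1w
  -- the affine equation of the zeros
  set p : Polynomial K := aeval (![0, 1, Polynomial.X] : Fin 3 → Polynomial K) A with hp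
  have hpev : ∀ τ : Ω, Polynomial.aeval τ p = aeval (![0, 1, τ] : Fin 3 → Ω) A := by
    intro τ
    rw [hp, MvPolynomial.comp_aeval_apply]
    congr 2
    funext i
    fin_cases i
    · simp
    · simp
    · simp
  have hp0 : p ≠ 0 := by
    intro hp0
    have hall : ∀ τ : Ω, aeval (![0, 1, τ] : Fin 3 → Ω) A = 0 := by
      intro τ
      rw [← hpev, hp0, map_zero]
    apply hy1A
    by_cases h1 : y1 1 = 0
    · -- the point (0,0,1): use infinitely many points
      set q : Polynomial Ω := aeval (![0, Polynomial.X, Polynomial.C (y1 2)] : Fin 3 → Polynomial Ω) A with hq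
      have hqev : ∀ s : Ω, Polynomial.eval s q = aeval (![0, s, y1 2] : Fin 3 → Ω) A := by
        intro s
        have h2 := (MvPolynomial.comp_aeval_apply ((Polynomial.aeval (R := Ω) s).restrictScalars K)
          (f := (![0, Polynomial.X, Polynomial.C (y1 2)] : Fin 3 → Polynomial Ω)) A).symm
        rw [← hq] at h2
        have h3 : ((Polynomial.aeval (R := Ω) s).restrictScalars K) q = Polynomial.eval s q := by
          change Polynomial.aeval s q = _
          rw [Polynomial.coe_aeval_eq_eval]
        rw [h3] at h2
        rw [← h2]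
        congr 2
        funext i
        fin_cases i
        · simp
        · simp
        · simp
      have hq0 : q = 0 := by
        apply Polynomial.eq_zero_of_infinite_isRoot
        have hinf : (Set.univ \ {(0 : Ω)}).Infinite := (Set.infinite_univ).sdiff (Set.finite_singleton 0)
        apply hinf.mono
        rintro s ⟨-, hs⟩
        rw [Set.mem_singleton_iff] at hs
        change Polynomial.eval s q = 0
        rw [hqev]
        have e : (![0, s, y1 2] : Fin 3 → Ω) = s • (![0, 1, y1 2 / s] : Fin 3 → Ω) := by
          funext i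
          fin_cases i
          · simp
          · simp
          · change y1 2 = s * (y1 2 / s)
            exact (mul_div_cancel₀ _ hs).symm
        rw [e, aeval_smul_homogL hA, hall, mul_zero]
      have h2 := hqev 0
      rw [hq0, Polynomial.eval_zero] at h2
      have e : y1 = (![0, 0, y1 2] : Fin 3 → Ω) := by
        funext i
        fin_cases i
        · exact hy10
        · exact h1
        · rfl
      rw [e]
      exact h2.symm
    · have e : y1 = y1 1 • (![0, 1, y1 2 / y1 1] : Fin 3 → Ω) := by
        funext i
        fin_cases i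
        · simp [hy10]
        · simp
        · change y1 2 = y1 1 * (y1 2 / y1 1)
          exact (mul_div_cancel₀ _ h1).symm
      rw [e, aeval_smul_homogL hA, hall, mul_zero]
  -- the splitting field
  set Rt : Set Ω := {τ | Polynomial.aeval τ p = 0} with hRt
  have hRtfin : Rt.Finite := by
    have h1 : Rt ⊆ {τ | (p.map (algebraMap K Ω)).IsRoot τ} := by
      intro τ hτ
      change Polynomial.eval τ (p.map (algebraMap K Ω)) = 0
      rw [Polynomial.eval_map_algebraMap]
      exact hτ
    apply Set.Finite.subset _ h1
    exact Polynomial.finite_setOfPred_isRoot ((Polynomial.map_ne_zero_iff (algebraMap K Ω).injective).2 hp0)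
  haveI := hRtfin.to_subtype
  set K' : IntermediateField K Ω := IntermediateField.adjoin K Rt with hK'
  haveI : FiniteDimensional K K' := IntermediateField.finiteDimensional_adjoin fun x _ =>
    (Algebra.IsAlgebraic.isAlgebraic x).isIntegral
  haveI : NumberField K' := numberField_of_finite K K'
  -- embed the algebraic closure of K' into Ω
  let e : AlgebraicClosure K' →ₐ[K'] Ω := IsAlgClosed.lift
  have heinj : Function.Injective e := e.toRingHom.injective
  have heK' : ∀ x : K', e (algebraMap K' (AlgebraicClosure K') x) = (x : Ω) := fun x => e.commutes x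
  have heval : ∀ (f : MvPolynomial (Fin 3) K) (y : Fin 3 → AlgebraicClosure K'),
      e (aeval y (MvPolynomial.map (algebraMap K K') f)) = aeval (fun i => e (y i)) f := by
    intro f y
    have h1 : aeval y (MvPolynomial.map (algebraMap K K') f) = eval₂ ((algebraMap K' (AlgebraicClosure K')).comp (algebraMap K K')) y f := by
      rw [aeval_def, eval₂_map]
    rw [h1]
    have h2 := eval₂_comp_left (e : AlgebraicClosure K' →+* Ω) ((algebraMap K' (AlgebraicClosure K')).comp (algebraMap K K')) y f
    refine h2.trans ?_
    rw [aeval_def]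
    congr 1
    apply RingHom.ext
    intro x
    change e (algebraMap K' (AlgebraicClosure K') (algebraMap K K' x)) = algebraMap K Ω x
    rw [heK']
    rfl
  let Ψ : Morph K' 2 d :=
    { F := fun i => MvPolynomial.map (algebraMap K K') (Φ.F i)
      homog := fun i => (Φ.homog i).map _
      noZero := by
        intro x hx
        have h1 : (fun i => e (x i)) = 0 := by
          apply Φ.noZero
          intro i
          rw [← heval, hx i, map_zero]
        funext i
        apply heinj
        rw [Pi.zero_apply, map_zero]
        exact congrFun h1 i }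
  have hΨF : ∀ i, Ψ.F i = MvPolynomial.map (algebraMap K K') (Φ.F i) := fun i => rfl
  refine rigM_ext Φ Ψ hΨF ?_
  set A' : MvPolynomial (Fin 3) K' := MvPolynomial.map (algebraMap K K') A with hA'
  have hA'h : A'.IsHomogeneous (d - 1) := hA.map _
  have h0' : Ψ.F 0 = X 0 * A' := by
    rw [hΨF, h0, map_mul, map_X]
  obtain ⟨Ψ₁, hΨ₁⟩ := exists_res Ψ h0'
  -- rational points
  have hKev : ∀ (f : MvPolynomial (Fin 3) K) (z : Fin 3 → K'), aeval (fun i => (z i : Ω)) f = ((eval z (MvPolynomial.map (algebraMap K K') f) : K') : Ω) := by
    intro f z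
    rw [eval_map]
    have h2 := eval₂_comp_left (algebraMap K' Ω) (algebraMap K K') z f
    refine Eq.trans ?_ h2.symm
    rw [aeval_def]
    congr 1
  have hKne : ∀ x : K', (x : Ω) ≠ 0 → x ≠ 0 := fun x hx h => hx (by rw [h]; rfl)
  have hnm : Ψ.NoMaxIn ∅ A' := by
    apply noMax_line hd Ψ hA'h h0'
    · intro y hy hy0 hyA
      have hyA2 : aeval (fun i => e (y i)) A = 0 := by rw [← heval, hyA, map_zero]
      have hey0 : e (y 0) = 0 := by rw [hy0, map_zero]
      by_cases h1 : y 1 = 0
      · have h2 : y 2 ≠ 0 := by
          intro h2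
          apply hy
          funext i
          fin_cases i
          · exact hy0
          · exact h1
          · exact h2
        refine ⟨![0, 0, 1], y 2, ?_, ?_⟩
        · intro h
          have := congrFun h 2
          simp at this
        · funext i
          fin_cases i
          · simp [hy0]
          · simp [h1]
          · simp
      · have he1 : e (y 1) ≠ 0 := fun h => h1 (heinj (by rw [h, map_zero]))
        have hroot : e (y 2) / e (y 1) ∈ Rt := by
          change Polynomial.aeval (e (y 2) / e (y 1)) p = 0
          rw [hpev]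
          have e' : (fun i => e (y i)) = e (y 1) • (![0, 1, e (y 2) / e (y 1)] : Fin 3 → Ω) := by
            funext i
            fin_cases i
            · simp [hy0]
            · simp
            · change e (y 2) = e (y 1) * (e (y 2) / e (y 1))
              exact (mul_div_cancel₀ _ he1).symm
          rw [e', aeval_smul_homogL hA] at hyA2
          exact (mul_eq_zero.1 hyA2).resolve_left (pow_ne_zero _ he1)
        set τ : K' := ⟨e (y 2) / e (y 1), IntermediateField.subset_adjoin K Rt hroot⟩ with hτ
        refine ⟨![0, 1, τ], y 1, ?_, ?_⟩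
        · intro h
          have := congrFun h 1
          simp at this
        · funext i
          fin_cases i
          · simp [hy0]
          · simp
          · change y 2 = y 1 * algebraMap K' (AlgebraicClosure K') τ
            apply heinj
            rw [map_mul, heK']
            change e (y 2) = e (y 1) * (e (y 2) / e (y 1))
            exact (mul_div_cancel₀ _ he1).symm
    · intro z hz hz0 hzA
      have hzΩ : (fun i => (z i : Ω)) ≠ 0 := by
        intro h
        apply hz
        funext i
        have := congrFun h i
        exact Subtype.ext this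
      obtain ⟨g1, g2, g3⟩ := hgen (fun i => (z i : Ω)) hzΩ (by rw [hz0]; rfl) (by rw [hKev, ← hA', hzA]; rfl)
      rw [hKev] at g1 g2
      have hlift : Φ.lift (fun i => (z i : Ω)) = fun i => ((pev (RingHom.id K') Ψ.F z i : K') : Ω) := by
        funext i
        exact hKev (Φ.F i) z
      have hj : jac A' Ψ.F = MvPolynomial.map (algebraMap K K') (jac A Φ.F) := jac_map _ _ _
      have hw : wr Ψ.F = MvPolynomial.map (algebraMap K K') (wr Φ.F) := wr_map _ _
      refine ⟨?_, ?_, ?_⟩
      · rw [hj]
        exact hKne _ g1
      · rw [hw]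
        exact hKne _ g2
      · rcases g3 with g3 | ⟨g3, g4⟩
        · exact Or.inl g3
        · right
          rw [hlift] at g3 g4
          rw [hKev] at g3 g4
          rw [hw]
          exact ⟨hKne _ g3, hKne _ g4⟩
  refine rigM_hyper hd Ψ Ψ₁ A' 1 hΨ₁ hA'h (by omega) ?_ hnm (rigM_base Ψ₁ le_rfl hd)
  intro y hy
  rw [Function.iterate_one]
  change aeval y (Ψ.F 0) = 0
  rw [h0', map_mul, hy, mul_zero]

end Line

end Pool.Agent.Lib.MP_df4dfc_nt
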