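import Mathlib
import Pool.Agent.Lib.MP_df4dfc_nt.Generic5
import Pool.Agent.Lib.MP_df4dfc_nt.Cc5

/-!
# Polynomial maps with a prime in the leading denominator

If the first form is `a X₀ ^ d` with `a` in a prime `𝔭` modulo which the forms have no nontrivial
rational zero, every Frobenius element above `𝔭` acts without fixed points on the deep fibres over
any point off the hyperplane `X₀ = 0`.
-/

set_option autoImplicit false
set_option linter.unusedSectionVars false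
set_option linter.style.haveILetI false
set_option linter.unusedVariables false

namespace Pool.Agent.Lib.MP_df4dfc_nt

open MvPolynomial NumberField IsDedekindDomain
open scoped Pointwise
open WithZero

universe u

section Step

variable {K L : Type u} [Field K] [NumberField K] [Field L] [NumberField L] [Algebra K L] [IsGalois K L]
  {N : ℕ}

theorem val_le_one_O (P : HeightOneSpectrum (𝓞 L)) (x : 𝓞 L) : P.valuation L (x : L) ≤ 1 :=
  P.valuation_le_one x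

theorem val_eq_one_iff_O (P : HeightOneSpectrum (𝓞 L)) (x : 𝓞 L) : P.valuation L (x : L) = 1 ↔ x ∉ P.asIdeal := by
  have h1 : P.valuation L (x : L) < 1 ↔ x ∈ P.asIdeal := P.valuation_lt_one_iff_mem x
  have h2 := val_le_one_O P x
  constructor
  · intro h hx
    exact (h1.2 hx).ne h
  · intro h
    by_contra hne
    exact h (h1.1 (lt_of_le_of_ne h2 hne))

/-- a primitive vector whose class is fixed by a Frobenius element is mapped to a primitive vector -/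
theorem prim_step (G : Fin (N + 1) → MvPolynomial (Fin (N + 1)) (𝓞 K)) {d : ℕ} (hG : ∀ i, (G i).IsHomogeneous d)
    (p0 : HeightOneSpectrum (𝓞 K)) (P0 : HeightOneSpectrum (𝓞 L)) (hP0 : bel K L P0 = p0) (σ : Gal(L/K))
    (hσ : ∀ y : 𝓞 L, σ • y - y ^ Nat.card (𝓞 K ⧸ P0.asIdeal.under (𝓞 K)) ∈ P0.asIdeal)
    (hz : ∀ u : Fin (N + 1) → 𝓞 K ⧸ p0.asIdeal, u ≠ 0 → pev (redK p0) G u ≠ 0)
    (x' : Fin (N + 1) → 𝓞 L) (k : Fin (N + 1)) (hk : x' k ∉ P0.asIdeal)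
    (hfix' : Par (fun i => σ • x' i) x') :
    ∃ l, pev (algebraMap (𝓞 K) (𝓞 L)) G x' l ∉ P0.asIdeal := by
  classical
  set iL := algebraMap (𝓞 K) (𝓞 L) with hiL
  haveI := P0.isPrime
  haveI := P0.isMaximal
  haveI := p0.isMaximal
  letI : Field (𝓞 L ⧸ P0.asIdeal) := Ideal.Quotient.field _
  letI : Field (𝓞 K ⧸ p0.asIdeal) := Ideal.Quotient.field _
  haveI : Finite (𝓞 K ⧸ p0.asIdeal) := Ideal.finiteQuotientOfFreeOfNeBot _ p0.ne_bot
  set φ : 𝓞 L →+* 𝓞 L ⧸ P0.asIdeal := Ideal.Quotient.mk P0.asIdeal with hφdef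
  set ψ : 𝓞 K →+* 𝓞 L ⧸ P0.asIdeal := φ.comp iL with hψ
  have hunder : P0.asIdeal.under (𝓞 K) = p0.asIdeal := congrArg HeightOneSpectrum.asIdeal hP0
  have hker : RingHom.ker ψ = p0.asIdeal := by
    rw [← hunder]
    ext r
    rw [RingHom.mem_ker, hψ, RingHom.comp_apply, hφdef, Ideal.Quotient.eq_zero_iff_mem]
    exact Iff.rfl
  set u : Fin (N + 1) → 𝓞 L ⧸ P0.asIdeal := fun i => φ (x' i) with hu
  have huk : u k ≠ 0 := by
    intro h0
    exact hk (Ideal.Quotient.eq_zero_iff_mem.1 h0)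
  set e : 𝓞 K ⧸ p0.asIdeal →+* 𝓞 L ⧸ P0.asIdeal := Ideal.Quotient.lift p0.asIdeal ψ (by
    intro a ha
    rw [← hker] at ha
    exact ha) with he
  have he' : ∀ r, e (redK p0 r) = ψ r := fun r => rfl
  have hecomp : e.comp (redK p0) = ψ := RingHom.ext he'
  have hfrob : ∀ y : 𝓞 L, φ (σ • y) = φ y ^ (Nat.card (𝓞 K ⧸ p0.asIdeal)) := by
    intro y
    have h1 : σ • y - y ^ Nat.card (𝓞 K ⧸ P0.asIdeal.under (𝓞 K)) ∈ P0.asIdeal := hσ y
    rw [hunder] at h1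
    rw [← map_pow]
    exact Ideal.Quotient.eq.2 h1
  have hpar : Par (fun i => u i ^ (Nat.card (𝓞 K ⧸ p0.asIdeal))) u := by
    have h1 := hfix'.map φ
    have h2 : (fun i => φ (σ • x' i)) = fun i => u i ^ (Nat.card (𝓞 K ⧸ p0.asIdeal)) := by
      funext i
      exact hfrob (x' i)
    rwa [h2] at h1
  have hw : ∀ i, ∃ r : 𝓞 K ⧸ p0.asIdeal, e r = u i / u k := by
    intro i
    apply mem_range_of_pow
    rw [div_pow, div_eq_div_iff (pow_ne_zero _ huk) huk]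
    have h1 := hpar i k
    simp only at h1
    rw [h1]
    ring
  choose v hv using hw
  have huv : u = u k • fun i => e (v i) := by
    funext i
    rw [Pi.smul_apply, smul_eq_mul, hv]
    field_simp
  have hv0 : v ≠ 0 := by
    intro h0
    have h1 := hv k
    rw [h0, Pi.zero_apply, map_zero, div_self huk] at h1
    exact zero_ne_one h1
  obtain ⟨l, hl⟩ := Function.ne_iff.1 (hz v hv0)
  rw [Pi.zero_apply] at hl
  refine ⟨l, ?_⟩
  intro hmem
  have h2 : φ (pev iL G x' l) = 0 := Ideal.Quotient.eq_zero_iff_mem.2 hmem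
  have h3 := congrFun (pev_map iL φ G x') l
  rw [h2] at h3
  change 0 = pev ψ G u l at h3
  have h4 : (fun i => e (pev (redK p0) G v i)) = pev ψ G (fun i => e (v i)) := by
    have h5 := pev_map (redK p0) e G v
    rw [hecomp] at h5
    exact h5
  rw [huv, pev_smul hG] at h3
  have h6 : pev ψ G (fun i => e (v i)) l = 0 := by
    have h7 : u k ^ d * pev ψ G (fun i => e (v i)) l = 0 := h3.symm
    exact (mul_eq_zero.1 h7).resolve_left (pow_ne_zero _ huk)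
  rw [← congrFun h4 l] at h6
  exact hl ((map_eq_zero e).1 h6)

/-- every primitive representative of the class of `y` has first coordinate of size at most `c` -/
def FirstLe (P0 : HeightOneSpectrum (𝓞 L)) (c : ℤᵐ⁰) (y : Fin (N + 1) → 𝓞 L) : Prop :=
  ∀ x' : Fin (N + 1) → 𝓞 L, Par x' y → (∃ k, x' k ∉ P0.asIdeal) → P0.valuation L ((x' 0 : 𝓞 L) : L) ≤ c

theorem FirstLe.par {P0 : HeightOneSpectrum (𝓞 L)} {c : ℤᵐ⁰} {y z : Fin (N + 1) → 𝓞 L} (h : FirstLe P0 c y)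
    (hz : z ≠ 0) (hp : Par z y) : FirstLe P0 c z := fun x' hx' hk => h x' (hx'.trans hp hz) hk

theorem step_first (G : Fin (N + 1) → MvPolynomial (Fin (N + 1)) (𝓞 K)) {d : ℕ} (hd : 1 ≤ d)
    (hG : ∀ i, (G i).IsHomogeneous d) (hNZL : NZ (algebraMap (𝓞 K) (𝓞 L)) G)
    (a : 𝓞 K) (h0 : G 0 = C a * X 0 ^ d)
    (p0 : HeightOneSpectrum (𝓞 K)) (P0 : HeightOneSpectrum (𝓞 L)) (hP0 : bel K L P0 = p0) (σ : Gal(L/K))
    (hσ : ∀ y : 𝓞 L, σ • y - y ^ Nat.card (𝓞 K ⧸ P0.asIdeal.under (𝓞 K)) ∈ P0.asIdeal)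
    (hz : ∀ u : Fin (N + 1) → 𝓞 K ⧸ p0.asIdeal, u ≠ 0 → pev (redK p0) G u ≠ 0)
    (y : Fin (N + 1) → 𝓞 L) (hy : y ≠ 0) (hfix : Par (fun i => σ • y i) y) (c : ℤᵐ⁰) (hc : c ≤ 1)
    (hyc : FirstLe P0 c y) :
    FirstLe P0 (P0.valuation L ((algebraMap (𝓞 K) (𝓞 L) a : 𝓞 L) : L) * c) (pev (algebraMap (𝓞 K) (𝓞 L)) G y) := by
  set iL := algebraMap (𝓞 K) (𝓞 L) with hiL
  obtain ⟨y', hy'par, k, hk⟩ := exists_primitive P0.asIdeal (Ideal.IsPrime.ne_top P0.isPrime) y hy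
  have hy'0 : y' ≠ 0 := by
    rintro rfl
    exact hk (by simp)
  have hs1 : Par (fun i => σ • y' i) (fun i => σ • y i) := sigma_par σ hy'par
  have hs2 : (fun i => σ • y i) ≠ 0 := sigma_ne_zero σ hy
  have hfix' : Par (fun i => σ • y' i) y' := (hs1.trans hfix hs2).trans hy'par.symm hy
  obtain ⟨l, hl⟩ := prim_step G hG p0 P0 hP0 σ hσ hz y' k hk hfix'
  intro x' hx' ⟨m, hm⟩
  have hpar : Par x' (pev iL G y') := hx'.trans (pev_par hG iL hy'par.symm hy'0) (hNZL y hy)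
  have h1 := congrArg (fun t : 𝓞 L => P0.valuation L (t : L)) (hpar 0 l)
  simp only [map_mul] at h1
  have e1 : P0.valuation L ((pev iL G y' l : 𝓞 L) : L) = 1 := (val_eq_one_iff_O P0 _).2 hl
  rw [e1, mul_one] at h1
  rw [h1]
  have e2 : pev iL G y' 0 = iL a * y' 0 ^ d := by
    unfold pev
    rw [h0, eval₂_mul, eval₂_C, eval₂_pow, eval₂_X]
  rw [e2]
  have e3 : P0.valuation L ((iL a * y' 0 ^ d : 𝓞 L) : L) = P0.valuation L ((iL a : 𝓞 L) : L) * P0.valuation L ((y' 0 : 𝓞 L) : L) ^ d := by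
    rw [← map_pow, ← map_mul]
    congr 1
  rw [e3]
  have e4 : P0.valuation L ((y' 0 : 𝓞 L) : L) ≤ c := hyc y' hy'par ⟨k, hk⟩
  have e5 : P0.valuation L ((y' 0 : 𝓞 L) : L) ^ d ≤ c := by
    obtain ⟨d', rfl⟩ : ∃ d', d = d' + 1 := ⟨d - 1, by omega⟩
    rw [pow_succ]
    calc P0.valuation L ((y' 0 : 𝓞 L) : L) ^ d' * P0.valuation L ((y' 0 : 𝓞 L) : L)
        ≤ 1 * c := mul_le_mul' (pow_le_one' (e4.trans hc) _) e4
      _ = c := one_mul c
  calc P0.valuation L ((x' l : 𝓞 L) : L) * (P0.valuation L ((iL a : 𝓞 L) : L) * P0.valuation L ((y' 0 : 𝓞 L) : L) ^ d)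
      ≤ 1 * (P0.valuation L ((iL a : 𝓞 L) : L) * c) := mul_le_mul' (val_le_one_O P0 _) (mul_le_mul' le_rfl e5)
    _ = _ := one_mul _

theorem iter_first (G : Fin (N + 1) → MvPolynomial (Fin (N + 1)) (𝓞 K)) {d : ℕ} (hd : 1 ≤ d)
    (hG : ∀ i, (G i).IsHomogeneous d) (hNZL : NZ (algebraMap (𝓞 K) (𝓞 L)) G)
    (a : 𝓞 K) (h0 : G 0 = C a * X 0 ^ d)
    (p0 : HeightOneSpectrum (𝓞 K)) (P0 : HeightOneSpectrum (𝓞 L)) (hP0 : bel K L P0 = p0) (σ : Gal(L/K))
    (hσ : ∀ y : 𝓞 L, σ • y - y ^ Nat.card (𝓞 K ⧸ P0.asIdeal.under (𝓞 K)) ∈ P0.asIdeal)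
    (hz : ∀ u : Fin (N + 1) → 𝓞 K ⧸ p0.asIdeal, u ≠ 0 → pev (redK p0) G u ≠ 0)
    (y : Fin (N + 1) → 𝓞 L) (hy : y ≠ 0) (hfix : Par (fun i => σ • y i) y) (n : ℕ) :
    Par (fun i => σ • (pev (algebraMap (𝓞 K) (𝓞 L)) G)^[n] y i) ((pev (algebraMap (𝓞 K) (𝓞 L)) G)^[n] y) ∧
    FirstLe P0 (P0.valuation L ((algebraMap (𝓞 K) (𝓞 L) a : 𝓞 L) : L) ^ n) ((pev (algebraMap (𝓞 K) (𝓞 L)) G)^[n] y) := by
  set iL := algebraMap (𝓞 K) (𝓞 L) with hiL
  induction n with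
  | zero =>
    refine ⟨hfix, ?_⟩
    intro x' _ _
    rw [pow_zero]
    exact val_le_one_O P0 _
  | succ n ih =>
    obtain ⟨ih1, ih2⟩ := ih
    have hn0 : (pev iL G)^[n] y ≠ 0 := hNZL.iter n hy
    constructor
    · rw [Function.iterate_succ_apply']
      set z := (pev iL G)^[n] y with hz'
      have h1 : (fun i => σ • pev iL G z i) = pev iL G (fun i => σ • z i) := by
        have h2 := pev_map iL (MulSemiringAction.toRingHom Gal(L/K) (𝓞 L) σ) G z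
        have h3 : (MulSemiringAction.toRingHom Gal(L/K) (𝓞 L) σ).comp iL = iL := by
          ext r
          simp only [RingHom.comp_apply]
          have h4 : σ • iL r = iL r := smul_algebraMap σ r
          rw [MulSemiringAction.toRingHom_apply, h4]
        rw [h3] at h2
        exact h2
      rw [h1]
      exact pev_par hG iL ih1 hn0
    · rw [Function.iterate_succ_apply', pow_succ']
      apply step_first G hd hG hNZL a h0 p0 P0 hP0 σ hσ hz _ hn0 ih1 _ _ ih2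
      exact pow_le_one' (val_le_one_O P0 _) _

end Step

section Main

variable {K : Type u} [Field K] [NumberField K] {N : ℕ}

/-- **Frobenius elements without fixed points.** -/
theorem exists_nofix_poly (G : Fin (N + 1) → MvPolynomial (Fin (N + 1)) (𝓞 K)) {d : ℕ} (hd : 1 ≤ d)
    (hG : ∀ i, (G i).IsHomogeneous d)
    (hNZ : NZ (algebraMap (𝓞 K) (AlgebraicClosure K)) G) (a : 𝓞 K) (h0 : G 0 = C a * X 0 ^ d)
    (p0 : HeightOneSpectrum (𝓞 K)) (ha : a ∈ p0.asIdeal)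
    (hz : ∀ u : Fin (N + 1) → 𝓞 K ⧸ p0.asIdeal, u ≠ 0 → pev (redK p0) G u ≠ 0)
    (q : Fin (N + 1) → 𝓞 K) (hq0 : q 0 ≠ 0) :
    ∃ (n : ℕ) (L : IntermediateField K (AlgebraicClosure K)) (_ : NumberField L) (_ : IsGalois K L),
      ∃ X₀ : Finset (Fin (N + 1) → 𝓞 L),
      (∀ q' ∈ ({q} : Finset (Fin (N + 1) → 𝓞 K)), ∀ y : Fin (N + 1) → AlgebraicClosure K, y ≠ 0 →
        Par ((pev (algebraMap (𝓞 K) (AlgebraicClosure K)) G)^[n] y) (fun i => algebraMap (𝓞 K) (AlgebraicClosure K) (q' i)) →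
        ∃ x ∈ X₀, Par y (fun i => algebraMap (𝓞 L) (AlgebraicClosure K) (x i))) ∧
      ∃ σ : Gal(L/K), ∀ x ∈ X₀, ¬ Par (fun i => σ • x i) x := by
  classical
  have hq : q ≠ 0 := by
    rintro rfl
    exact hq0 rfl
  -- the exponent
  have hv0 : p0.valuation K ((q 0 : 𝓞 K) : K) ≠ 0 := (Valuation.ne_zero_iff _).2 (coe_ne_zero'' hq0)
  obtain ⟨m, hm⟩ : ∃ m : ℕ, exp (-(m : ℤ)) ≤ p0.valuation K ((q 0 : 𝓞 K) : K) := by
    refine ⟨(log (p0.valuation K ((q 0 : 𝓞 K) : K))).natAbs, ?_⟩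
    conv_rhs => rw [← exp_log hv0]
    rw [exp_le_exp]
    have h3 := neg_abs_le (log (p0.valuation K ((q 0 : 𝓞 K) : K)))
    push_cast
    exact h3
  have hva : p0.valuation K ((a : 𝓞 K) : K) ≤ exp (-1 : ℤ) := by
    have h1 := (p0.intValuation_le_pow_iff_mem a 1).2 (by rwa [pow_one])
    have h2 : p0.valuation K ((a : 𝓞 K) : K) = p0.intValuation a := p0.valuation_of_algebraMap a
    rw [h2]
    exact_mod_cast h1
  have hlt : p0.valuation K ((a : 𝓞 K) : K) ^ (m + 1) < p0.valuation K ((q 0 : 𝓞 K) : K) := by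
    refine lt_of_lt_of_le ?_ hm
    calc p0.valuation K ((a : 𝓞 K) : K) ^ (m + 1) ≤ (exp (-1 : ℤ)) ^ (m + 1) := pow_le_pow_left' hva _
      _ = exp (-((m : ℤ) + 1)) := by
          rw [← exp_nsmul]
          congr 1
          simp
      _ < exp (-(m : ℤ)) := by
          rw [exp_lt_exp]
          linarith
  obtain ⟨L, hNF, hGal, X₀, hX1, hX2⟩ := exists_reps G hd hG hNZ {q} (by simpa using hq) (m + 1)
  set Ω := AlgebraicClosure K with hΩ
  set j := algebraMap (𝓞 K) Ω with hj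
  set jL := algebraMap (𝓞 L) Ω with hjL
  set iL := algebraMap (𝓞 K) (𝓞 L) with hiL
  have hcomp : jL.comp iL = j := by
    ext r
    rfl
  have hjLinj : Function.Injective jL := FaithfulSMul.algebraMap_injective (𝓞 L) Ω
  have hNZL : NZ iL G := NZ.of_injective (ψ := jL) (by rw [hcomp]; exact hNZ) hjLinj
  obtain ⟨P0, hP0⟩ := exists_of_nonempty K L p0
  rw [mem_above] at hP0
  haveI := P0.isPrime
  haveI := P0.isMaximal
  haveI := p0.isMaximal
  obtain ⟨σ, hσ⟩ := IsArithFrobAt.exists_of_isInvariant (𝓞 K) Gal(L/K) P0.asIdeal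
  refine ⟨m + 1, L, hNF, hGal, X₀, hX2, σ, ?_⟩
  intro x hx hfix
  obtain ⟨hx0, q', hq', hxq⟩ := hX1 x hx
  rw [Finset.mem_singleton] at hq'
  subst hq'
  obtain ⟨-, h1⟩ := iter_first G hd hG hNZL a h0 p0 P0 hP0 σ hσ hz x hx0 hfix (m + 1)
  have hiq0 : (fun i => iL (q' i)) ≠ 0 := by
    intro h
    have h2 := congrFun h 0
    simp only [Pi.zero_apply] at h2
    exact hq0 ((FaithfulSMul.algebraMap_injective (𝓞 K) (𝓞 L)) (by rw [map_zero]; exact h2))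
  have h2 := h1.par hiq0 hxq.symm
  obtain ⟨x', hx'par, k, hk⟩ := exists_primitive P0.asIdeal (Ideal.IsPrime.ne_top P0.isPrime) (fun i => iL (q' i)) hiq0
  have h3 := h2 x' hx'par ⟨k, hk⟩
  have h4 := congrArg (fun t : 𝓞 L => P0.valuation L (t : L)) (hx'par 0 k)
  simp only [map_mul] at h4
  have e1 : P0.valuation L ((x' k : 𝓞 L) : L) = 1 := (val_eq_one_iff_O P0 _).2 hk
  rw [e1, one_mul] at h4
  have h5 : P0.valuation L ((iL (q' 0) : 𝓞 L) : L) ≤ P0.valuation L ((iL a : 𝓞 L) : L) ^ (m + 1) := by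
    rw [← h4]
    calc P0.valuation L ((x' 0 : 𝓞 L) : L) * P0.valuation L ((iL (q' k) : 𝓞 L) : L)
        ≤ P0.valuation L ((iL a : 𝓞 L) : L) ^ (m + 1) * 1 := mul_le_mul' h3 (val_le_one_O P0 _)
      _ = _ := mul_one _
  obtain ⟨E, hE0, hE⟩ := val_base (K := K) P0
  have e2 : ∀ r : 𝓞 K, P0.valuation L ((iL r : 𝓞 L) : L) = p0.valuation K (r : K) ^ E := by
    intro r
    rw [← hP0]
    exact hE (r : K)
  rw [e2, e2, ← pow_mul, mul_comm E, pow_mul] at h5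
  exact absurd h5 (not_le_of_gt (pow_lt_pow_left₀ hlt zero_le hE0))

/-- the density statement -/
theorem posDensity_of_poly {d : ℕ} (hd : 1 ≤ d) (Φ : Morph K N d) {c : K}
    {G : Fin (N + 1) → MvPolynomial (Fin (N + 1)) (𝓞 K)}
    (hG : Model Φ c G) (a : 𝓞 K) (h0 : G 0 = C a * X 0 ^ d) (p0 : HeightOneSpectrum (𝓞 K)) (ha : a ∈ p0.asIdeal)
    (hz : ∀ u : Fin (N + 1) → 𝓞 K ⧸ p0.asIdeal, u ≠ 0 → pev (redK p0) G u ≠ 0)
    (γ : PN K N) (hγ : γ.rep 0 ≠ 0)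
    (γ₁ : PN K N) (H : ∀ m : ℕ, Φ.map^[m] γ₁ ≠ γ) : PosDensity (avoidSet Φ γ₁ γ) := by
  obtain ⟨g, hg⟩ := exists_Rp γ
  have hg0 : g 0 ≠ 0 := by
    intro h00
    obtain ⟨h1, h2⟩ := hg
    apply hγ
    have h3 := Projectivization.exists_smul_eq_mk_rep K (fun i => (g i : K)) h1
    obtain ⟨s, hs⟩ := h3
    rw [h2] at hs
    rw [← hs]
    simp [h00]
  obtain ⟨n, L, hNF, hGal, X₀, hX2, σ, hσ⟩ := exists_nofix_poly G hd hG.homog hG.nz a h0 p0 ha hz g hg0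
  obtain ⟨g1, hg1⟩ := exists_Rp γ₁
  have hav : ∀ m, ∀ q ∈ ({g} : Finset (Fin (N + 1) → 𝓞 K)), ¬ Par ((pevO G)^[m] g1) q := by
    intro m q hq hp
    rw [Finset.mem_singleton] at hq
    subst hq
    exact H m ((hG.rp_iter hg1 m).eq_of_par hg hp)
  refine ((coreB_of_nofix G hG.nz g1 hg1.ne_zero {g} hav n L X₀ hX2 σ hσ).mono ?_).posDensity
  intro p hp m hc
  exact hp m g (Finset.mem_singleton_self _) (hc.par (hG.rp_iter hg1 m) hg)

end Main

end Pool.Agent.Lib.MP_df4dfc_nt
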