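import Mathlib
import Pool.Agent.Lib.MP_df4dfc_nt.Generic6

/-!
# Counting tuples without rational zeros, and the divergence of the sum of inverse norms
-/

set_option autoImplicit false
set_option linter.unusedSectionVars false
set_option linter.style.haveILetI false
set_option linter.unusedVariables false

namespace Pool.Agent.Lib.MP_df4dfc_nt

open MvPolynomial NumberField IsDedekindDomain Module Finset

universe u

section FF

variable {F : Type*} [Field F] [Fintype F] {N d : ℕ}

/-- no common nontrivial rational zero -/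
def NoZ (c : Fin N × Mon (Fin (N + 1)) d → F) : Prop :=
  ∀ u : Fin (N + 1) → F, u ≠ 0 → ∃ i, evf u (fun m => c (i, m)) ≠ 0

open Classical in
theorem count_noz (hN : 1 ≤ N) (hd : 2 ≤ d) (hq : 11 ≤ Fintype.card F) :
    Fintype.card (Fin N × Mon (Fin (N + 1)) d → F)
      ≤ 6 * (univ.filter fun c : Fin N × Mon (Fin (N + 1)) d → F => NoZ c).card := by
  set y : Fin (N + 1) → F := Pi.single 0 1 with hy
  have hy0 : y ≠ 0 := by
    intro h
    have := congrFun h 0
    rw [hy, Pi.single_eq_same] at this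
    exact one_ne_zero this
  have h1 := many_miss (ι := Fin (N + 1)) hd (by rw [Fintype.card_fin]; omega) hq y hy0
  have h2 : (univ.filter fun a : Fin (N + 1) → Mon (Fin (N + 1)) d → F => nhit y a = 0).card
      ≤ ((univ : Finset (Mon (Fin (N + 1)) d → F)) ×ˢ
        (univ.filter fun c : Fin N × Mon (Fin (N + 1)) d → F => NoZ c)).card := by
    apply Finset.card_le_card_of_injOn (fun a => (a 0, fun im => a im.1.succ im.2))
    · intro a ha
      rw [Finset.mem_coe, Finset.mem_filter] at ha
      rw [Finset.mem_coe, Finset.mem_product]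
      refine ⟨Finset.mem_univ _, ?_⟩
      rw [Finset.mem_filter]
      refine ⟨Finset.mem_univ _, ?_⟩
      intro u hu
      by_contra hcon
      push Not at hcon
      have h3 := ha.2
      unfold nhit at h3
      rw [Finset.card_eq_zero] at h3
      have h4 : (Projectivization.mk F u hu) ∈ (univ.filter fun p : Projectivization F (Fin (N + 1) → F) =>
          Par (fun j => evf p.rep (a j)) y) := by
        rw [Finset.mem_filter]
        refine ⟨Finset.mem_univ _, ?_⟩
        obtain ⟨c, hc⟩ := Projectivization.exists_smul_eq_mk_rep F u hu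
        have h5 : ∀ j : Fin N, evf (Projectivization.mk F u hu).rep (a j.succ) = 0 := by
          intro j
          rw [← hc]
          have h6 : evf (c • u) (a j.succ) = (c : F) ^ d * evf u (a j.succ) := by
            change eval (c • u) (frm1 (a j.succ)) = (c : F) ^ d * eval u (frm1 (a j.succ))
            have h7 := eval₂_smul_of_homog (frm1_homog (a j.succ)) (RingHom.id F) (c : F) u
            exact h7
          rw [h6]
          have h8 : evf u (a j.succ) = 0 := hcon j
          rw [h8, mul_zero]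
        have h9 : ∀ i : Fin (N + 1), i ≠ 0 → evf (Projectivization.mk F u hu).rep (a i) = 0 := by
          intro i hi
          obtain ⟨j, rfl⟩ := Fin.exists_succ_eq.2 hi
          exact h5 j
        intro i j
        change evf (Projectivization.mk F u hu).rep (a i) * y j = evf (Projectivization.mk F u hu).rep (a j) * y i
        have hy1 : ∀ j, j ≠ 0 → y j = 0 := fun j hj => by rw [hy, Pi.single_eq_of_ne hj]
        by_cases hi : i = 0
        · by_cases hj : j = 0
          · rw [hi, hj]
          · rw [h9 j hj, zero_mul, hy1 j hj, mul_zero]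
        · rw [h9 i hi, zero_mul, hy1 i hi, mul_zero]
      rw [h3] at h4
      exact absurd h4 (Finset.notMem_empty _)
    · intro a _ a' _ h
      funext i
      rcases Fin.eq_zero_or_eq_succ i with rfl | ⟨j, rfl⟩
      · exact congrArg Prod.fst h
      · funext m
        exact congrFun (congrArg Prod.snd h) (j, m)
  rw [Finset.card_product, Finset.card_univ] at h2
  have h3 : Fintype.card (Fin (N + 1) → Mon (Fin (N + 1)) d → F)
      = Fintype.card (Mon (Fin (N + 1)) d → F) * Fintype.card (Fin N × Mon (Fin (N + 1)) d → F) := by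
    rw [← Fintype.card_prod]
    apply Fintype.card_congr
    exact ((Fin.consEquiv fun _ => (Mon (Fin (N + 1)) d → F)).symm).trans
      (Equiv.prodCongr (Equiv.refl _) (Equiv.curry _ _ _).symm)
  rw [h3] at h1
  have hpos : 0 < Fintype.card (Mon (Fin (N + 1)) d → F) := Fintype.card_pos
  apply Nat.le_of_mul_le_mul_left _ hpos
  calc Fintype.card (Mon (Fin (N + 1)) d → F) * Fintype.card (Fin N × Mon (Fin (N + 1)) d → F)
      ≤ 6 * (univ.filter fun a : Fin (N + 1) → Mon (Fin (N + 1)) d → F => nhit y a = 0).card := h1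
    _ ≤ 6 * (Fintype.card (Mon (Fin (N + 1)) d → F) *
        (univ.filter fun c : Fin N × Mon (Fin (N + 1)) d → F => NoZ c).card) := Nat.mul_le_mul_left _ h2
    _ = _ := by ring

/-- the residue tuples that do not satisfy the local condition -/
theorem exists_bad_poly (hN : 1 ≤ N) (hd : 2 ≤ d) (F : Type*) [Field F] [Fintype F] (hq : 11 ≤ Fintype.card F) :
    ∃ Bad : Finset (Option (Fin N × Mon (Fin (N + 1)) d) → F),
      (Bad.card : ℝ) ≤ (1 - 1 / (6 * (Fintype.card F : ℝ))) *
        (Fintype.card (Option (Fin N × Mon (Fin (N + 1)) d) → F) : ℝ) ∧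
      ∀ c ∉ Bad, c none = 0 ∧ NoZ (fun im => c (some im)) := by
  classical
  have h1 := count_noz (F := F) (N := N) (d := d) hN hd hq
  set J := Option (Fin N × Mon (Fin (N + 1)) d) with hJ
  refine ⟨univ.filter fun c : J → F => ¬ (c none = 0 ∧ NoZ (fun im => c (some im))), ?_, ?_⟩
  · have hJc : Fintype.card J = Fintype.card (Fin N × Mon (Fin (N + 1)) d) + 1 := Fintype.card_option
    have h2 := Finset.card_filter_add_card_filter_not (s := (Finset.univ : Finset (J → F)))
      (fun c => c none = 0 ∧ NoZ (fun im => c (some im)))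
    rw [Finset.card_univ] at h2
    have h3 : (univ.filter fun c : Fin N × Mon (Fin (N + 1)) d → F => NoZ c).card
        ≤ (univ.filter fun c : J → F => c none = 0 ∧ NoZ (fun im => c (some im))).card := by
      apply Finset.card_le_card_of_injOn (fun c => fun o => o.elim 0 c)
      · intro c hc
        rw [Finset.mem_coe, Finset.mem_filter] at hc ⊢
        exact ⟨Finset.mem_univ _, rfl, hc.2⟩
      · intro c _ c' _ h
        funext im
        exact congrFun h (some im)
    have h4 : Fintype.card (J → F) = Fintype.card F * Fintype.card (Fin N × Mon (Fin (N + 1)) d → F) := by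
      rw [Fintype.card_fun, Fintype.card_fun, hJc, pow_succ']
    set q := Fintype.card F with hqd
    set W := Fintype.card (Fin N × Mon (Fin (N + 1)) d → F) with hW
    set g0 := (univ.filter fun c : Fin N × Mon (Fin (N + 1)) d → F => NoZ c).card with hg0
    set gd := (univ.filter fun c : J → F => c none = 0 ∧ NoZ (fun im => c (some im))).card with hgd
    set bd := (univ.filter fun c : J → F => ¬ (c none = 0 ∧ NoZ (fun im => c (some im)))).card with hbd
    have hqR : (0:ℝ) < q := by exact_mod_cast (by omega : 0 < q)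
    have e1 : (W : ℝ) ≤ 6 * gd := by exact_mod_cast h1.trans (Nat.mul_le_mul_left _ h3)
    have e2 : (gd : ℝ) + bd = Fintype.card (J → F) := by exact_mod_cast h2
    have e3 : (Fintype.card (J → F) : ℝ) = q * W := by exact_mod_cast h4
    rw [e3] at e2 ⊢
    have e4 : (1 - 1 / (6 * (q : ℝ))) * (q * W) = q * W - W / 6 := by
      field_simp
    rw [e4]
    linarith
  · intro c hc
    by_contra hcon
    exact hc (Finset.mem_filter.2 ⟨Finset.mem_univ _, hcon⟩)

end FF

section Div

variable (K : Type u) [Field K] [NumberField K]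

open Classical in
/-- the sum of the inverse norms of the primes diverges -/
theorem exists_block (Y0 : ℕ) (hY0 : 1 ≤ Y0) : ∃ Y1 : ℕ, Y0 ≤ Y1 ∧
    (1 / 2 : ℝ) ≤ ∑ P ∈ primesLE K Y1 \ primesLE K Y0, 1 / (nrm P : ℝ) := by
  classical
  obtain ⟨C, hC, hM⟩ := mertens K
  obtain ⟨Y1, hY1⟩ := exists_nat_ge (Real.exp (2 * (Real.log Y0 + 2 * C) + 1))
  have hexp : (1:ℝ) ≤ Real.exp (2 * (Real.log Y0 + 2 * C) + 1) := by
    apply Real.one_le_exp
    have := Real.log_natCast_nonneg Y0
    linarith
  have hY1R : (1:ℝ) ≤ Y1 := hexp.trans hY1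
  have hY1N : 1 ≤ Y1 := by exact_mod_cast hY1R
  have hlog : 2 * (Real.log Y0 + 2 * C) + 1 ≤ Real.log Y1 := by
    have h1 := Real.log_le_log (Real.exp_pos _) hY1
    rwa [Real.log_exp] at h1
  have hlogY0 := Real.log_natCast_nonneg Y0
  have hle : Y0 ≤ Y1 := by
    have h1 : Real.log Y0 ≤ Real.log Y1 := by linarith
    have h2 : (Y0 : ℝ) ≤ Y1 := (Real.log_le_log_iff (by exact_mod_cast hY0) (by linarith)).1 h1
    exact_mod_cast h2
  refine ⟨Y1, hle, ?_⟩
  have h1 := abs_le.1 (hM Y0 hY0)
  have h2 := abs_le.1 (hM Y1 hY1N)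
  have hsub : primesLE K Y0 ⊆ primesLE K Y1 := by
    intro P hP
    rw [mem_primesLE] at hP ⊢
    omega
  have h3 : ∑ P ∈ primesLE K Y1 \ primesLE K Y0, Real.log (nrm P) / nrm P = mert K Y1 - mert K Y0 := by
    unfold mert
    rw [← Finset.sum_sdiff hsub]
    ring
  have hpos : 0 < Real.log Y1 := by linarith
  have h4 : ∑ P ∈ primesLE K Y1 \ primesLE K Y0, Real.log (nrm P) / nrm P
      ≤ Real.log Y1 * ∑ P ∈ primesLE K Y1 \ primesLE K Y0, 1 / (nrm P : ℝ) := by
    rw [Finset.mul_sum]
    apply Finset.sum_le_sum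
    intro P hP
    rw [Finset.mem_sdiff, mem_primesLE] at hP
    have hn0 : 0 < nrm P := Nat.pos_of_ne_zero (by
      unfold nrm
      rw [Ne, Ideal.absNorm_eq_zero_iff]
      exact P.ne_bot)
    have hnR : (0:ℝ) < nrm P := by exact_mod_cast hn0
    rw [mul_one_div]
    apply div_le_div_of_nonneg_right _ hnR.le
    apply Real.log_le_log hnR
    exact_mod_cast hP.1
  rw [h3] at h4
  have h5 : (1 / 2 : ℝ) * Real.log Y1 ≤ Real.log Y1 * ∑ P ∈ primesLE K Y1 \ primesLE K Y0, 1 / (nrm P : ℝ) := by
    linarith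
  rw [mul_comm] at h5
  exact le_of_mul_le_mul_left h5 hpos

theorem exists_heavy (Y0 : ℕ) (k : ℕ) : ∃ T : Finset (HeightOneSpectrum (𝓞 K)),
    (∀ P ∈ T, Y0 < nrm P) ∧ (k : ℝ) / 2 ≤ ∑ P ∈ T, 1 / (nrm P : ℝ) := by
  classical
  have key : ∀ k : ℕ, ∃ Y : ℕ, max Y0 1 ≤ Y ∧
      (k : ℝ) / 2 ≤ ∑ P ∈ primesLE K Y \ primesLE K (max Y0 1), 1 / (nrm P : ℝ) := by
    intro k
    induction k with
    | zero =>
      refine ⟨max Y0 1, le_rfl, ?_⟩
      simp
    | succ k ih =>
      obtain ⟨Y, hY, hs⟩ := ih
      obtain ⟨Y', hY', hs'⟩ := exists_block K Y ((le_max_right _ _).trans hY)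
      refine ⟨Y', hY.trans hY', ?_⟩
      have hsplit : primesLE K Y' \ primesLE K (max Y0 1)
          = (primesLE K Y \ primesLE K (max Y0 1)) ∪ (primesLE K Y' \ primesLE K Y) := by
        ext P
        simp only [Finset.mem_sdiff, Finset.mem_union, mem_primesLE]
        omega
      rw [hsplit, Finset.sum_union]
      · push_cast
        linarith
      · rw [Finset.disjoint_left]
        intro P hP hP'
        simp only [Finset.mem_sdiff, mem_primesLE] at hP hP'
        omega
  obtain ⟨Y, hY, hs⟩ := key k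
  refine ⟨_, ?_, hs⟩
  intro P hP
  rw [Finset.mem_sdiff, mem_primesLE, mem_primesLE] at hP
  have := le_max_left Y0 1
  omega

/-- a finite set of primes over which the product of `1 - 1 / (6 N)` is small -/
theorem exists_small_prod (ε : ℝ) (hε : 0 < ε) : ∃ T : Finset (HeightOneSpectrum (𝓞 K)),
    (∀ P ∈ T, 11 ≤ nrm P) ∧ ∏ P ∈ T, (1 - 1 / (6 * (nrm P : ℝ))) < ε := by
  classical
  obtain ⟨k, hk⟩ := exists_nat_gt (12 * (-Real.log ε))
  obtain ⟨T, hT1, hT2⟩ := exists_heavy K 11 k
  refine ⟨T, fun P hP => (hT1 P hP).le, ?_⟩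
  have h1 : ∏ P ∈ T, (1 - 1 / (6 * (nrm P : ℝ))) ≤ ∏ P ∈ T, Real.exp (-(1 / (6 * (nrm P : ℝ)))) := by
    apply Finset.prod_le_prod
    · intro P hP
      have h2 : (11:ℝ) ≤ nrm P := by exact_mod_cast (hT1 P hP).le
      have h3 : 1 / (6 * (nrm P : ℝ)) ≤ 1 := by
        rw [div_le_one (by linarith)]
        linarith
      linarith
    · intro P hP
      have := Real.add_one_le_exp (-(1 / (6 * (nrm P : ℝ))))
      linarith
  refine h1.trans_lt ?_
  rw [← Real.exp_sum, ← Real.lt_log_iff_exp_lt hε]
  have h4 : ∑ P ∈ T, -(1 / (6 * (nrm P : ℝ))) = -((1 / 6) * ∑ P ∈ T, 1 / (nrm P : ℝ)) := by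
    rw [Finset.sum_neg_distrib, Finset.mul_sum]
    congr 1
    apply Finset.sum_congr rfl
    intro P _
    rw [one_div_mul_one_div]
  rw [h4]
  have h5 : (k : ℝ) / 12 ≤ (1 / 6) * ∑ P ∈ T, 1 / (nrm P : ℝ) := by linarith
  linarith

end Div

end Pool.Agent.Lib.MP_df4dfc_nt
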