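import Mathlib
import Pool.Agent.Lib.MP_df4dfc_nt.Pl1
import Pool.Agent.Lib.MP_df4dfc_nt.Pl2
import Pool.Agent.Lib.MP_df4dfc_nt.DefsPoly

/-!
# Almost all polynomial endomorphisms, all affine targets
-/

set_option autoImplicit false
set_option linter.unusedSectionVars false
set_option linter.style.haveILetI false
set_option linter.unusedVariables false

namespace Pool.Agent.Lib.MP_df4dfc_nt

open MvPolynomial NumberField IsDedekindDomain Module

universe u

variable {K : Type u} [Field K] [NumberField K] {N d : ℕ}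

open Classical in
/-- the coefficients of the tuple from the free parameters -/
noncomputable def emb {R : Type*} [Zero R] (c : Option (Fin N × Mon (Fin (N + 1)) d) → R) :
    Fin (N + 1) × Mon (Fin (N + 1)) d → R :=
  fun im => Fin.cases (motive := fun _ => R) (if im.2.1 = Finsupp.single 0 d then c none else 0)
    (fun i => c (some (i, im.2))) im.1

open Classical in
theorem emb_zero {R : Type*} [Zero R] (c : Option (Fin N × Mon (Fin (N + 1)) d) → R) (m : Mon (Fin (N + 1)) d) :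
    emb c (0, m) = if m.1 = Finsupp.single 0 d then c none else 0 := rfl

theorem emb_succ {R : Type*} [Zero R] (c : Option (Fin N × Mon (Fin (N + 1)) d) → R) (i : Fin N) (m : Mon (Fin (N + 1)) d) :
    emb c (i.succ, m) = c (some (i, m)) := rfl

/-- the tuple -/
noncomputable def frp (c : Option (Fin N × Mon (Fin (N + 1)) d) → 𝓞 K) :
    Fin (N + 1) → MvPolynomial (Fin (N + 1)) (𝓞 K) := fr (emb c)

theorem frp_zero (c : Option (Fin N × Mon (Fin (N + 1)) d) → 𝓞 K) : frp c 0 = C (c none) * X 0 ^ d := by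
  classical
  change frm1 (fun m : Mon (Fin (N + 1)) d => emb c (0, m)) = _
  unfold frm1
  rw [Finset.sum_eq_single (⟨Finsupp.single 0 d, by rw [Finsupp.degree_single]⟩ : Mon (Fin (N + 1)) d)]
  · have h1 : emb c (0, (⟨Finsupp.single 0 d, by rw [Finsupp.degree_single]⟩ : Mon (Fin (N + 1)) d)) = c none := by
      rw [emb_zero, if_pos rfl]
    simp only [h1]
    rw [X_pow_eq_monomial, C_mul_monomial, mul_one]
  · intro m _ hm
    have h1 : emb c (0, m) = 0 := by
      rw [emb_zero, if_neg (fun h => hm (Subtype.ext h))]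
    simp only [h1, monomial_zero]
  · intro h
    exact absurd (Finset.mem_univ _) h

theorem emb_injective {R : Type*} [Zero R] : Function.Injective (emb (N := N) (d := d) (R := R)) := by
  classical
  intro c c' h
  funext o
  cases o with
  | none =>
    have h1 := congrFun h (0, ⟨Finsupp.single 0 d, by rw [Finsupp.degree_single]⟩)
    rw [emb_zero, emb_zero, if_pos rfl, if_pos rfl] at h1
    exact h1
  | some im => exact congrFun h (im.1.succ, im.2)

theorem frp_injective : Function.Injective (frp (K := K) (N := N) (d := d)) :=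
  fr_injective.comp emb_injective

theorem polyBox_eq {κ : Type*} (b : Basis κ ℤ (𝓞 K)) (B : ℕ) :
    PolyBox b N d B = frp '' {c : Option (Fin N × Mon (Fin (N + 1)) d) → 𝓞 K | ∀ j k, |b.repr (c j) k| ≤ B} := by
  classical
  ext G
  constructor
  · rintro ⟨⟨h1, h2⟩, a, ha⟩
    have hX : ∀ m : Fin (N + 1) →₀ ℕ, coeff m (G 0) = if m = Finsupp.single 0 d then a else 0 := by
      intro m
      rw [ha, X_pow_eq_monomial, C_mul_monomial, mul_one, coeff_monomial]
      by_cases h : Finsupp.single 0 d = m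
      · rw [if_pos h, if_pos h.symm]
      · rw [if_neg h, if_neg (fun h' => h h'.symm)]
    refine ⟨fun o => o.elim a (fun im => (G im.1.succ).coeff im.2.1), ?_, ?_⟩
    · intro j k
      cases j with
      | none =>
        have h3 := h2 0 (Finsupp.single 0 d) k
        rw [hX, if_pos rfl] at h3
        exact h3
      | some im => exact h2 _ _ _
    · funext i
      rcases Fin.eq_zero_or_eq_succ i with rfl | ⟨j, rfl⟩
      · rw [frp_zero]
        exact ha.symm
      · exact frm1_eq (h1 j.succ)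
  · rintro ⟨c, hc, rfl⟩
    refine ⟨⟨fun i => frm1_homog _, ?_⟩, c none, frp_zero c⟩
    intro i m k
    by_cases hm : m.degree = d
    · have h1 : (frp c i).coeff m = emb c (i, ⟨m, hm⟩) := frm1_coeff (fun m => emb c (i, m)) ⟨m, hm⟩
      rw [h1]
      rcases Fin.eq_zero_or_eq_succ i with rfl | ⟨j, rfl⟩
      · rw [emb_zero]
        split_ifs
        · exact hc _ _
        · simp
      · rw [emb_succ]
        exact hc _ _
    · have h1 : (frp c i).coeff m = 0 := (frm1_homog _).coeff_eq_zero hm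
      rw [h1, map_zero]
      simp

/-- the determinant as a polynomial in the free parameters -/
noncomputable def polDet (K : Type u) [Field K] [NumberField K] {N d D : ℕ}
    (hD : Fintype.card (Fin (N + 1)) * (d - 1) + 1 ≤ D) :
    MvPolynomial (Option (Fin N × Mon (Fin (N + 1)) d)) (𝓞 K) :=
  bind₁ (emb (fun o => (X o : MvPolynomial (Option (Fin N × Mon (Fin (N + 1)) d)) (𝓞 K)))) (genDet (ι := Fin (N + 1)) (𝓞 K) hD)

theorem polDet_eval {D : ℕ} (hD : Fintype.card (Fin (N + 1)) * (d - 1) + 1 ≤ D)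
    (c : Option (Fin N × Mon (Fin (N + 1)) d) → 𝓞 K) :
    eval c (polDet K hD) = eval (emb c) (genDet (ι := Fin (N + 1)) (𝓞 K) hD) := by
  classical
  unfold polDet
  have h1 := eval₂Hom_bind₁ (RingHom.id (𝓞 K)) c
    (emb (fun o => (X o : MvPolynomial (Option (Fin N × Mon (Fin (N + 1)) d)) (𝓞 K)))) (genDet (ι := Fin (N + 1)) (𝓞 K) hD)
  have h2 : (fun i => eval₂Hom (RingHom.id (𝓞 K)) c
      (emb (fun o => (X o : MvPolynomial (Option (Fin N × Mon (Fin (N + 1)) d)) (𝓞 K))) i)) = emb c := by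
    funext im
    obtain ⟨i, m⟩ := im
    rcases Fin.eq_zero_or_eq_succ i with rfl | ⟨j, rfl⟩
    · rw [emb_zero, emb_zero]
      split_ifs
      · rw [coe_eval₂Hom, eval₂_X]
      · rw [map_zero]
    · rw [emb_succ, emb_succ, coe_eval₂Hom, eval₂_X]
  rw [h2] at h1
  exact h1

theorem polDet_ne_zero {D : ℕ} (hD : Fintype.card (Fin (N + 1)) * (d - 1) + 1 ≤ D) :
    polDet (N := N) (d := d) K hD ≠ 0 := by
  classical
  intro h
  have h1 := polDet_eval (K := K) hD (fun o => o.elim 1 (fun im => if im.2.1 = Finsupp.single im.1.succ d then 1 else 0))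
  rw [h, map_zero] at h1
  have h2 : emb (fun o : Option (Fin N × Mon (Fin (N + 1)) d) =>
      o.elim (1 : 𝓞 K) (fun im => if im.2.1 = Finsupp.single im.1.succ d then 1 else 0))
      = fun im => if im.2.1 = Finsupp.single im.1 d then 1 else 0 := by
    funext im
    obtain ⟨i, m⟩ := im
    rcases Fin.eq_zero_or_eq_succ i with rfl | ⟨j, rfl⟩
    · rw [emb_zero]
      rfl
    · rw [emb_succ]
      rfl
  rw [h2, genDet_eval] at h1
  have h3 := mac_pow (ι := Fin (N + 1)) (S := 𝓞 K) hD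
  rw [h3, Matrix.det_one] at h1
  exact zero_ne_one h1

/-- a tuple satisfying the local condition at one prime is good -/
theorem good_poly_of (hd : 1 ≤ d) {D : ℕ} (hD : Fintype.card (Fin (N + 1)) * (d - 1) + 1 ≤ D)
    (c : Option (Fin N × Mon (Fin (N + 1)) d) → 𝓞 K) (hdet : eval c (polDet K hD) ≠ 0)
    (p : HeightOneSpectrum (𝓞 K)) (ha : c none ∈ p.asIdeal)
    (hnoz : ∀ u : Fin (N + 1) → 𝓞 K ⧸ p.asIdeal, u ≠ 0 →
      ∃ i : Fin N, evf u (fun m => Ideal.Quotient.mk p.asIdeal (c (some (i, m)))) ≠ 0) :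
    GoodForAffine d (frp c) := by
  have hinj : Function.Injective (algebraMap (𝓞 K) (AlgebraicClosure K)) :=
    FaithfulSMul.algebraMap_injective (𝓞 K) (AlgebraicClosure K)
  have hNZ : NZ (algebraMap (𝓞 K) (AlgebraicClosure K)) (frp c) := by
    apply nz_of_mac _ hD
    rw [polDet_eval, genDet_eval] at hdet
    intro h0
    apply hdet
    apply hinj
    rw [h0, map_zero]
  let Φ : Morph K N d :=
    { F := fun i => MvPolynomial.map (algebraMap (𝓞 K) K) (frp c i)
      homog := fun i => (frm1_homog _).map _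
      noZero := by
        intro x hx
        by_contra hne
        apply hNZ x hne
        funext i
        have h1 := hx i
        rw [aeval_map_algebraMap] at h1
        exact h1 }
  refine ⟨Φ, fun i => rfl, ?_⟩
  intro γ₁ γ₂ hγ H
  have hG : Model Φ 1 (frp c) := ⟨one_ne_zero, fun i => by rw [map_one, one_mul]⟩
  refine posDensity_of_poly hd Φ hG (c none) (frp_zero c) p ha ?_ γ₂ hγ γ₁ H
  intro u hu h0
  obtain ⟨i, hi⟩ := hnoz u hu
  apply hi
  have h5 : pev (redK p) (frp c) u = fun i => evf u (fun m => Ideal.Quotient.mk p.asIdeal (emb c (i, m))) :=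
    pev_frm (redK p) (fun i m => emb c (i, m)) u
  rw [h5] at h0
  exact congrFun h0 i.succ

/-- **Almost all polynomial endomorphisms.** -/
theorem almost_all_poly {κ : Type*} [Fintype κ] (b : Basis κ ℤ (𝓞 K)) (hN : 1 ≤ N) (hd : 2 ≤ d)
    (ε : ℝ) (hε : 0 < ε) :
    ∃ B₀ : ℕ, ∀ B : ℕ, B₀ ≤ B →
      (1 - ε) * ((PolyBox b N d B).ncard : ℝ) ≤ (({G ∈ PolyBox b N d B | GoodForAffine d G}.ncard : ℕ) : ℝ) := by
  classical
  set J := Option (Fin N × Mon (Fin (N + 1)) d) with hJ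
  obtain ⟨D, hD⟩ : ∃ D, Fintype.card (Fin (N + 1)) * (d - 1) + 1 ≤ D := ⟨_, le_rfl⟩
  set n := Fintype.card J * Fintype.card κ with hn
  set td := (polDet (N := N) (d := d) K hD).totalDegree with htd
  obtain ⟨T, hT1, hT2⟩ := exists_small_prod K (ε / 4) (by positivity)
  set m := ∏ p ∈ T, Ideal.absNorm p.asIdeal with hm
  have hnrm : ∀ p : HeightOneSpectrum (𝓞 K), Fintype.card (𝓞 K ⧸ p.asIdeal) = nrm p := by
    intro p
    unfold nrm
    rw [Ideal.absNorm_apply, Submodule.cardQuot_apply, Nat.card_eq_fintype_card]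
  -- analysis
  have hX : Filter.Tendsto (fun B : ℕ => ((2 * B + 1 : ℕ) : ℝ)) Filter.atTop Filter.atTop := by
    apply Filter.tendsto_atTop_mono (f := fun B : ℕ => (B : ℝ)) _ tendsto_natCast_atTop_atTop
    intro B
    push_cast
    have : (0:ℝ) ≤ B := Nat.cast_nonneg B
    linarith
  have hinv := hX.inv_tendsto_atTop
  have ev1 : ∀ᶠ B : ℕ in Filter.atTop, (1 + (m : ℝ) * (((2 * B + 1 : ℕ) : ℝ))⁻¹) ^ n < 2 := by
    have h1 : Filter.Tendsto (fun B : ℕ => (1 + (m : ℝ) * (((2 * B + 1 : ℕ) : ℝ))⁻¹) ^ n) Filter.atTop (nhds ((1 + (m:ℝ) * 0) ^ n)) :=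
      ((hinv.const_mul (m:ℝ)).const_add 1).pow n
    rw [mul_zero, add_zero, one_pow] at h1
    exact h1.eventually_lt_const (by norm_num)
  have ev2 : ∀ᶠ B : ℕ in Filter.atTop, (td : ℝ) * (((2 * B + 1 : ℕ) : ℝ))⁻¹ < ε / 2 := by
    have h1 : Filter.Tendsto (fun B : ℕ => (td : ℝ) * (((2 * B + 1 : ℕ) : ℝ))⁻¹) Filter.atTop (nhds ((td:ℝ) * 0)) :=
      hinv.const_mul (td:ℝ)
    rw [mul_zero] at h1
    exact h1.eventually_lt_const (by positivity)
  obtain ⟨B₀, hB₀⟩ := Filter.eventually_atTop.1 (ev1.and ev2)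
  refine ⟨B₀, ?_⟩
  intro B hB
  obtain ⟨e1, e2⟩ := hB₀ B hB
  set X := 2 * B + 1 with hXd
  have hXpos : (0:ℝ) < (X : ℝ) := by positivity
  set Box : Set (J → 𝓞 K) := {a | ∀ j k, |b.repr (a j) k| ≤ B} with hBox
  have hBoxcard : Box.ncard = X ^ n := box_card b B
  have hBoxfin : Box.Finite := by
    apply Set.finite_of_ncard_ne_zero
    rw [hBoxcard]
    positivity
  -- local data
  have hloc : ∀ p : T, ∃ (Bad : Finset (J → 𝓞 K ⧸ p.1.asIdeal)),
      (Bad.card : ℝ) ≤ (1 - 1 / (6 * (nrm p.1 : ℝ))) * (Fintype.card (J → 𝓞 K ⧸ p.1.asIdeal) : ℝ) ∧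
      ∀ c ∉ Bad, c none = 0 ∧ ∀ u : Fin (N + 1) → 𝓞 K ⧸ p.1.asIdeal, u ≠ 0 →
        ∃ i : Fin N, evf u (fun m => c (some (i, m))) ≠ 0 := by
    intro p
    haveI := p.1.isMaximal
    letI : Field (𝓞 K ⧸ p.1.asIdeal) := Ideal.Quotient.field _
    obtain ⟨Bad, hBad1, hBad2⟩ := exists_bad_poly (N := N) (d := d) hN hd (𝓞 K ⧸ p.1.asIdeal) (by
      rw [hnrm]
      exact hT1 p.1 p.2)
    refine ⟨Bad, ?_, hBad2⟩
    rw [hnrm] at hBad1
    exact hBad1
  choose Bad hBad1 hBad2 using hloc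
  set Bad1 : Set (J → 𝓞 K) := {a | (∀ j k, |b.repr (a j) k| ≤ B) ∧
    ∀ p : T, (fun j => Ideal.Quotient.mk p.1.asIdeal (a j)) ∈ Bad p} with hBad1d
  set Bad2 : Set (J → 𝓞 K) := {a | (∀ j k, |b.repr (a j) k| ≤ B) ∧ eval a (polDet (N := N) (d := d) K hD) = 0} with hBad2d
  have c1 := box_count_primes b T Bad B
  have c2 := zero_count b (polDet (N := N) (d := d) K hD) (polDet_ne_zero hD) B
  rw [← hBad1d, ← hn, ← hm] at c1
  rw [← hBad2d, ← hn, ← htd] at c2
  -- bound on Bad1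
  have c3 : (Bad1.ncard : ℝ) ≤ (∏ P ∈ T, (1 - 1 / (6 * (nrm P : ℝ)))) * ((X + m : ℕ) : ℝ) ^ n := by
    have h1 : (((∏ p : T, (Bad p).card : ℕ)) : ℝ) ≤ (∏ P ∈ T, (1 - 1 / (6 * (nrm P : ℝ)))) *
        ((∏ p : T, Fintype.card (J → 𝓞 K ⧸ p.1.asIdeal) : ℕ) : ℝ) := by
      rw [← Finset.prod_coe_sort T (fun P => 1 - 1 / (6 * (nrm P : ℝ)))]
      push_cast
      rw [← Finset.prod_mul_distrib]
      apply Finset.prod_le_prod
      · intro p _
        positivity
      · intro p _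
        have := hBad1 p
        push_cast at this
        exact this
    set P := ∏ p : T, Fintype.card (J → 𝓞 K ⧸ p.1.asIdeal) with hP
    have hPpos : 0 < P := Finset.prod_pos fun p _ => Fintype.card_pos
    have hPR : (0:ℝ) < P := by exact_mod_cast hPpos
    have h3 : (Bad1.ncard : ℝ) * P ≤ ((∏ P ∈ T, (1 - 1 / (6 * (nrm P : ℝ)))) * ((X + m : ℕ) : ℝ) ^ n) * P := by
      calc (Bad1.ncard : ℝ) * P ≤ ((∏ p : T, (Bad p).card : ℕ) : ℝ) * ((X + m : ℕ) : ℝ) ^ n := by exact_mod_cast c1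
        _ ≤ ((∏ P ∈ T, (1 - 1 / (6 * (nrm P : ℝ)))) * (P : ℝ)) * ((X + m : ℕ) : ℝ) ^ n :=
            mul_le_mul_of_nonneg_right h1 (by positivity)
        _ = _ := by ring
    exact le_of_mul_le_mul_right h3 hPR
  have hprod0 : 0 ≤ ∏ P ∈ T, (1 - 1 / (6 * (nrm P : ℝ))) := by
    apply Finset.prod_nonneg
    intro P hP
    have h2 : (11:ℝ) ≤ nrm P := by exact_mod_cast hT1 P hP
    have h3 : 1 / (6 * (nrm P : ℝ)) ≤ 1 := by
      rw [div_le_one (by linarith)]
      linarith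
    linarith
  have c4 : (Bad1.ncard : ℝ) ≤ ε / 2 * (X:ℝ) ^ n := by
    have h2 : ((X + m : ℕ) : ℝ) ^ n ≤ 2 * (X:ℝ) ^ n := by
      have h3 : ((X + m : ℕ) : ℝ) = (1 + (m:ℝ) * (X:ℝ)⁻¹) * X := by
        push_cast
        field_simp
      rw [h3, mul_pow]
      exact mul_le_mul_of_nonneg_right e1.le (by positivity)
    calc (Bad1.ncard : ℝ) ≤ (∏ P ∈ T, (1 - 1 / (6 * (nrm P : ℝ)))) * ((X + m : ℕ) : ℝ) ^ n := c3
      _ ≤ (ε / 4) * (2 * (X:ℝ) ^ n) := by
          apply mul_le_mul hT2.le h2 (by positivity) (by positivity)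
      _ = _ := by ring
  have c5 : (Bad2.ncard : ℝ) ≤ ε / 2 * (X:ℝ) ^ n := by
    have h1 : (Bad2.ncard : ℝ) * X ≤ td * (X:ℝ) ^ n := by exact_mod_cast c2
    have h2 : (Bad2.ncard : ℝ) ≤ (td * (X:ℝ)⁻¹) * (X:ℝ) ^ n := by
      have h3 : (td * (X:ℝ)⁻¹) * (X:ℝ) ^ n = (td * (X:ℝ) ^ n) / X := by field_simp
      rw [h3, le_div_iff₀ hXpos]
      exact h1
    exact le_trans h2 (mul_le_mul_of_nonneg_right e2.le (by positivity))
  -- the good ones
  set Good : Set (J → 𝓞 K) := {a | a ∈ Box ∧ GoodForAffine d (frp a)} with hGood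
  have hcover : Box ⊆ Good ∪ (Bad1 ∪ Bad2) := by
    intro a ha
    by_cases h1 : a ∈ Bad1
    · exact Or.inr (Or.inl h1)
    by_cases h2 : a ∈ Bad2
    · exact Or.inr (Or.inr h2)
    left
    refine ⟨ha, ?_⟩
    have h3 : ∃ p : T, (fun j => Ideal.Quotient.mk p.1.asIdeal (a j)) ∉ Bad p := by
      by_contra hcon
      push Not at hcon
      exact h1 ⟨ha, hcon⟩
    obtain ⟨p, hp⟩ := h3
    have h4 : eval a (polDet (N := N) (d := d) K hD) ≠ 0 := fun h0 => h2 ⟨ha, h0⟩
    obtain ⟨h5, h6⟩ := hBad2 p _ hp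
    exact good_poly_of (by omega) hD a h4 p.1 (Ideal.Quotient.eq_zero_iff_mem.1 h5) h6
  have hfinG : Good.Finite := hBoxfin.subset fun a ha => ha.1
  have hfinB : (Bad1 ∪ Bad2).Finite := hBoxfin.subset (by
    rintro a (ha | ha)
    · exact ha.1
    · exact ha.1)
  have hcount : Box.ncard ≤ Good.ncard + (Bad1.ncard + Bad2.ncard) :=
    calc Box.ncard ≤ (Good ∪ (Bad1 ∪ Bad2)).ncard := Set.ncard_le_ncard hcover (hfinG.union hfinB)
      _ ≤ Good.ncard + (Bad1 ∪ Bad2).ncard := Set.ncard_union_le _ _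
      _ ≤ _ := Nat.add_le_add_left (Set.ncard_union_le _ _) _
  have hF1 : (PolyBox b N d B).ncard = X ^ n := by
    rw [polyBox_eq, Set.ncard_image_of_injective _ frp_injective]
    exact hBoxcard
  have hF2 : {G ∈ PolyBox b N d B | GoodForAffine d G}.ncard = Good.ncard := by
    have : {G ∈ PolyBox b N d B | GoodForAffine d G} = frp '' Good := by
      ext G
      rw [polyBox_eq]
      constructor
      · rintro ⟨⟨a, ha, rfl⟩, h⟩
        exact ⟨a, ⟨ha, h⟩, rfl⟩
      · rintro ⟨a, ⟨ha, h⟩, rfl⟩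
        exact ⟨⟨a, ha, rfl⟩, h⟩
    rw [this, Set.ncard_image_of_injective _ frp_injective]
  rw [hF1, hF2]
  have hcountR : ((X ^ n : ℕ) : ℝ) ≤ Good.ncard + (Bad1.ncard + Bad2.ncard) := by
    rw [← hBoxcard]
    exact_mod_cast hcount
  push_cast at hcountR ⊢
  linarith

end Pool.Agent.Lib.MP_df4dfc_nt
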