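import Mathlib
import Pool.Agent.Lib.MP_df4dfc_nt.Pl3
import Pool.Agent.Lib.MP_df4dfc_nt.L4
import Pool.Agent.Lib.MP_df4dfc_nt.DefsPoly2

/-!
# Almost all polynomial endomorphisms: targets at infinity
-/

set_option autoImplicit false
set_option linter.unusedSectionVars false
set_option linter.style.haveILetI false
set_option linter.unusedVariables false

namespace Pool.Agent.Lib.MP_df4dfc_nt

open MvPolynomial NumberField IsDedekindDomain Module

universe u

variable {K : Type u} [Field K] [NumberField K] {N d : ℕ}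

/-- rigidity at the points of an invariant hyperplane -/
theorem rig_in_hyper (Φ : Morph K (N + 1) d) (Ψ : Morph K N d)
    (h : ∀ y : Fin (N + 1) → AlgebraicClosure K,
        Φ.lift (Fin.cons 0 y : Fin (N + 2) → AlgebraicClosure K) = Fin.cons 0 (Ψ.lift y))
    (hΨ : RigM Ψ) {c : K} {G : Fin (N + 2) → MvPolynomial (Fin (N + 2)) (𝓞 K)} (hG : Model Φ c G)
    (g : Fin (N + 2) → 𝓞 K) (hg : g ≠ 0) (hg0 : g 0 = 0) (hper : PerAE G g) :
    ∃ m n : ℕ, m < n ∧ Par ((pevO G)^[m] g) ((pevO G)^[n] g) := by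
  set j := algebraMap (𝓞 K) (AlgebraicClosure K) with hj
  have hmod : Model Ψ c (tailG G) := by
    apply model_of_lift hG.1
    intro y
    funext i
    rw [pev_tailG, hG.lift, h]
    rfl
  -- the first form vanishes on the hyperplane
  have hG0 : bind₁ (Fin.cons 0 (fun k => X k) : Fin (N + 2) → MvPolynomial (Fin (N + 1)) (𝓞 K)) (G 0) = 0 := by
    apply eq_of_values
    intro y
    rw [eval₂_zero]
    have h1 := eval₂Hom_bind₁ j y (Fin.cons 0 (fun k => X k) : Fin (N + 2) → MvPolynomial (Fin (N + 1)) (𝓞 K)) (G 0)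
    simp only [coe_eval₂Hom] at h1
    rw [h1]
    have h2 : (fun i => eval₂ j y ((Fin.cons 0 (fun k => X k) : Fin (N + 2) → MvPolynomial (Fin (N + 1)) (𝓞 K)) i))
        = (Fin.cons 0 y : Fin (N + 2) → AlgebraicClosure K) := by
      funext k
      refine Fin.cases ?_ (fun k => ?_) k
      · simp
      · simp
    rw [h2]
    have h3 := congrFun (hG.lift (Fin.cons 0 y)) 0
    rw [h] at h3
    change eval₂ j (Fin.cons 0 y) (G 0) = _ at h3
    rw [h3]
    simp
  have hcons : ∀ y : Fin (N + 1) → 𝓞 K, pevO G (Fin.cons 0 y : Fin (N + 2) → 𝓞 K) = Fin.cons 0 (pevO (tailG G) y) := by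
    intro y
    funext k
    refine Fin.cases ?_ (fun k => ?_) k
    · have h1 := eval₂Hom_bind₁ (RingHom.id (𝓞 K)) y (Fin.cons 0 (fun k => X k) : Fin (N + 2) → MvPolynomial (Fin (N + 1)) (𝓞 K)) (G 0)
      rw [hG0, map_zero] at h1
      simp only [coe_eval₂Hom] at h1
      have h2 : (fun i => eval₂ (RingHom.id (𝓞 K)) y ((Fin.cons 0 (fun k => X k) : Fin (N + 2) → MvPolynomial (Fin (N + 1)) (𝓞 K)) i))
          = (Fin.cons 0 y : Fin (N + 2) → 𝓞 K) := by
        funext k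
        refine Fin.cases ?_ (fun k => ?_) k
        · simp
        · simp
      rw [h2] at h1
      exact h1.symm
    · exact (pev_tailG (RingHom.id (𝓞 K)) G y k).symm
  have hit : ∀ n (y : Fin (N + 1) → 𝓞 K), (pevO G)^[n] (Fin.cons 0 y : Fin (N + 2) → 𝓞 K)
      = Fin.cons 0 ((pevO (tailG G))^[n] y) := by
    intro n
    induction n with
    | zero => intro y; rfl
    | succ n ih =>
      intro y
      rw [Function.iterate_succ_apply, hcons, ih, Function.iterate_succ_apply]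
  have hgt : g = Fin.cons 0 (Fin.tail g) := by
    rw [← hg0]
    exact (Fin.cons_self_tail g).symm
  have ht0 : Fin.tail g ≠ 0 := by
    intro h0
    apply hg
    rw [hgt, h0]
    funext k
    refine Fin.cases ?_ (fun k => ?_) k <;> rfl
  have hpert : PerAE (tailG G) (Fin.tail g) := by
    apply hper.subset
    intro p hp hcon
    apply hp
    obtain ⟨m, hm, hpar⟩ := hcon
    refine ⟨m, hm, ?_⟩
    rw [hgt, hit] at hpar
    exact par_tail hpar
  obtain ⟨m, n, hmn, hpar⟩ := hΨ c _ hmod _ ht0 hpert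
  refine ⟨m, n, hmn, ?_⟩
  rw [hgt, hit, hit]
  intro x y
  refine Fin.cases ?_ (fun x => ?_) x
  · refine Fin.cases ?_ (fun y => ?_) y
    · ring
    · simp
  · refine Fin.cases ?_ (fun y => ?_) y
    · simp
    · simp only [Fin.cons_succ]
      exact hpar x y

/-- the density statement for targets in an invariant hyperplane of dimension at most one -/
theorem posDensity_in_hyper (hd : 2 ≤ d) (hN : N ≤ 1) (Φ : Morph K (N + 1) d) {A : MvPolynomial (Fin (N + 2)) K}
    (h0 : Φ.F 0 = X 0 * A) (γ₁ γ₂ : PN K (N + 1)) (hγ : γ₂.rep 0 = 0)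
    (H : ∀ m : ℕ, Φ.map^[m] γ₁ ≠ γ₂) : PosDensity (avoidSet Φ γ₁ γ₂) := by
  obtain ⟨c, G, hG⟩ := exists_model Φ
  obtain ⟨Ψ, hΨ⟩ := exists_res Φ h0
  refine posDensity_of_rigid (by omega) Φ hG γ₂ ?_ γ₁ H
  intro g hg hper
  have hg0 : g 0 = 0 := by
    obtain ⟨h1, h2⟩ := hg
    obtain ⟨s, hs⟩ := Projectivization.exists_smul_eq_mk_rep K (fun i => (g i : K)) h1
    rw [h2] at hs
    have h3 := congrFun hs 0
    rw [hγ] at h3
    have h4 : (s : K) * (g 0 : K) = 0 := h3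
    have h5 := (mul_eq_zero.1 h4).resolve_left s.ne_zero
    apply inj_O
    rw [map_zero]
    exact h5
  exact rig_in_hyper Φ Ψ hΨ (rigM_base Ψ hN hd) hG g hg.ne_zero hg0 hper

theorem goodForPoly_of (hN : 1 ≤ N) (hd : 2 ≤ d) {G : Fin (N + 1) → MvPolynomial (Fin (N + 1)) (𝓞 K)}
    (h0 : ∃ a : 𝓞 K, G 0 = C a * X 0 ^ d) (h : GoodForAffine d G) : GoodForPoly d G := by
  obtain ⟨Φ, hΦ, hgood⟩ := h
  refine ⟨Φ, hΦ, ?_⟩
  intro γ₁ γ₂ hcase H
  by_cases hγ : γ₂.rep 0 = 0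
  · have hN2 : N ≤ 2 := hcase.resolve_right (fun h => h hγ)
    obtain ⟨M, rfl⟩ : ∃ M, N = M + 1 := ⟨N - 1, by omega⟩
    obtain ⟨a, ha⟩ := h0
    refine posDensity_in_hyper (A := C (a : K) * X 0 ^ (d - 1)) hd (by omega) Φ ?_ γ₁ γ₂ hγ H
    rw [hΦ, ha, map_mul, map_pow, map_C, map_X]
    obtain ⟨e, rfl⟩ : ∃ e, d = e + 1 := ⟨d - 1, by omega⟩
    rw [Nat.add_sub_cancel, pow_succ]
    ring
  · exact hgood γ₁ γ₂ hγ H

/-- **Almost all polynomial endomorphisms**, with the targets at infinity for `N ≤ 2`. -/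
theorem almost_all_poly' {κ : Type*} [Fintype κ] (b : Basis κ ℤ (𝓞 K)) (hN : 1 ≤ N) (hd : 2 ≤ d)
    (ε : ℝ) (hε : 0 < ε) :
    ∃ B₀ : ℕ, ∀ B : ℕ, B₀ ≤ B →
      (1 - ε) * ((PolyBox b N d B).ncard : ℝ) ≤ (({G ∈ PolyBox b N d B | GoodForPoly d G}.ncard : ℕ) : ℝ) := by
  classical
  obtain ⟨B₀, hB₀⟩ := almost_all_poly b hN hd ε hε
  refine ⟨B₀, fun B hB => (hB₀ B hB).trans ?_⟩
  have hfin : (PolyBox b N d B).Finite := by
    rw [polyBox_eq]
    apply Set.Finite.image
    apply Set.finite_of_ncard_ne_zero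
    haveI : Finite (Option (Fin N × Mon (Fin (N + 1)) d)) := inferInstance
    rw [box_card b B]
    positivity
  have hsub : {G ∈ PolyBox b N d B | GoodForAffine d G} ⊆ {G ∈ PolyBox b N d B | GoodForPoly d G} := by
    rintro G ⟨hG1, hG2⟩
    exact ⟨hG1, goodForPoly_of hN hd hG1.2 hG2⟩
  exact_mod_cast Set.ncard_le_ncard hsub (hfin.subset fun G hG => hG.1)

end Pool.Agent.Lib.MP_df4dfc_nt
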