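import Mathlib
import Pool.Agent.Lib.MP_df4dfc_nt.DefsSym
import Pool.Agent.Lib.MP_df4dfc_nt.Vec

set_option autoImplicit false
set_option linter.unusedSectionVars false
set_option linter.unusedVariables false

/-! Symmetric products of points of the line. -/

namespace Pool.Agent.Lib.MP_df4dfc_nt

open Polynomial

section Sym

variable {T T' : Type*} [CommRing T] [CommRing T']

/-- the linear polynomial of a vector -/
noncomputable def lin2 (w : Fin 2 → T) : T[X] := C (w 0) + C (w 1) * X

/-- the product of the linear polynomials -/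
noncomputable def prodP {N : ℕ} (u : Fin N → Fin 2 → T) : T[X] := ∏ j, lin2 (u j)

theorem symV_eq {N : ℕ} (u : Fin N → Fin 2 → T) (i : Fin (N + 1)) : symV u i = (prodP u).coeff i := rfl

theorem lin2_natDegree_le (w : Fin 2 → T) : (lin2 w).natDegree ≤ 1 := by
  unfold lin2
  compute_degree

theorem prodP_natDegree_le {N : ℕ} (u : Fin N → Fin 2 → T) : (prodP u).natDegree ≤ N := by
  unfold prodP
  refine (natDegree_prod_le _ _).trans ?_
  refine (Finset.sum_le_sum fun j _ => lin2_natDegree_le (u j)).trans ?_
  simp

theorem lin2_smul (c : T) (w : Fin 2 → T) : lin2 (c • w) = C c * lin2 w := by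
  unfold lin2
  simp only [Pi.smul_apply, smul_eq_mul, C_mul]
  ring

theorem prodP_smul {N : ℕ} (c : T) (u : Fin N → Fin 2 → T) : prodP (fun j => c • u j) = C (c ^ N) * prodP u := by
  unfold prodP
  simp only [lin2_smul]
  rw [Finset.prod_mul_distrib, Finset.prod_const, Finset.card_univ, Fintype.card_fin, ← C_pow]

theorem symV_smul {N : ℕ} (c : T) (u : Fin N → Fin 2 → T) : symV (fun j => c • u j) = c ^ N • symV u := by
  funext i
  rw [symV_eq, prodP_smul, coeff_C_mul]
  rfl

theorem lin2_map (φ : T →+* T') (w : Fin 2 → T) : (lin2 w).map φ = lin2 (fun a => φ (w a)) := by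
  unfold lin2
  simp

theorem symV_map {N : ℕ} (φ : T →+* T') (u : Fin N → Fin 2 → T) : (fun i => φ (symV u i)) = symV (fun j a => φ (u j a)) := by
  funext i
  rw [symV_eq, symV_eq, ← coeff_map]
  congr 1
  unfold prodP
  rw [Polynomial.map_prod]
  exact Finset.prod_congr rfl fun j _ => lin2_map φ (u j)

/-- polynomials of degree at most `N` with the same first coefficients are equal -/
theorem poly_eq_of_coeffs {N : ℕ} {p q : T[X]} (hp : p.natDegree ≤ N) (hq : q.natDegree ≤ N)
    (h : ∀ i : Fin (N + 1), p.coeff i = q.coeff i) : p = q := by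
  ext k
  by_cases hk : k < N + 1
  · exact h ⟨k, hk⟩
  · rw [coeff_eq_zero_of_natDegree_lt (by omega), coeff_eq_zero_of_natDegree_lt (by omega)]

section Dom

variable [IsDomain T]

theorem lin2_ne_zero {w : Fin 2 → T} (hw : w ≠ 0) : lin2 w ≠ 0 := by
  intro h
  apply hw
  have h0 := congrArg (fun p => p.coeff 0) h
  have h1 := congrArg (fun p => p.coeff 1) h
  simp [lin2] at h0 h1
  funext a
  fin_cases a
  · exact h0
  · exact h1

theorem prodP_ne_zero {N : ℕ} {u : Fin N → Fin 2 → T} (hu : ∀ j, u j ≠ 0) : prodP u ≠ 0 :=
  Finset.prod_ne_zero_iff.2 fun j _ => lin2_ne_zero (hu j)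

theorem symV_ne_zero {N : ℕ} {u : Fin N → Fin 2 → T} (hu : ∀ j, u j ≠ 0) : symV u ≠ 0 := by
  intro h
  apply prodP_ne_zero hu
  apply poly_eq_of_coeffs (prodP_natDegree_le u) (by simp)
  intro i
  rw [coeff_zero]
  exact congrFun h i

theorem par_symV {N : ℕ} {u v : Fin N → Fin 2 → T} (hv : ∀ j, v j ≠ 0) (h : ∀ j, Par (u j) (v j)) : Par (symV u) (symV v) := by
  -- scalars
  have h1 : ∀ j, ∃ a b : T, b ≠ 0 ∧ b • u j = a • v j := by
    intro j
    obtain ⟨k, hk⟩ := Function.ne_iff.1 (hv j)
    rw [Pi.zero_apply] at hk
    refine ⟨u j k, v j k, hk, ?_⟩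
    funext i
    simp only [Pi.smul_apply, smul_eq_mul]
    have := h j i k
    linear_combination this
  choose a b hb hab using h1
  have h2 : C (∏ j, b j) * prodP u = C (∏ j, a j) * prodP v := by
    unfold prodP
    rw [map_prod, map_prod, ← Finset.prod_mul_distrib, ← Finset.prod_mul_distrib]
    apply Finset.prod_congr rfl
    intro j _
    rw [← lin2_smul, ← lin2_smul, hab]
  have hB : (∏ j, b j) ≠ 0 := Finset.prod_ne_zero_iff.2 fun j _ => hb j
  intro i k
  have e1 := congrArg (fun p => p.coeff i) h2
  have e2 := congrArg (fun p => p.coeff k) h2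
  simp only [coeff_C_mul] at e1 e2
  rw [symV_eq, symV_eq, symV_eq, symV_eq]
  apply mul_left_cancel₀ hB
  linear_combination ((prodP v).coeff k) * e1 - ((prodP v).coeff i) * e2

end Dom

section Fld

variable {k : Type*} [Field k]

/-- **Unique factorization.** -/
theorem exists_matching : ∀ (N : ℕ) (u v : Fin N → Fin 2 → k), (∀ j, u j ≠ 0) → (∀ j, v j ≠ 0) →
    ∀ c : k, c ≠ 0 → prodP u = C c * prodP v →
    ∃ τ : Fin N → Fin N, Function.Injective τ ∧ ∀ j, Par (u j) (v (τ j)) := by
  intro N
  induction N with
  | zero =>
    intro u v _ _ c _ _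
    exact ⟨id, Function.injective_id, fun j => j.elim0⟩
  | succ N ih =>
    intro u v hu hv c hc h
    -- a factor on the right proportional to the first one
    obtain ⟨i, hi⟩ : ∃ i, Par (u 0) (v i) := by
      by_cases h1 : u 0 1 = 0
      · by_contra hcon
        push Not at hcon
        have hv1 : ∀ i, v i 1 ≠ 0 := by
          intro i h2
          apply hcon i
          intro a b
          fin_cases a
          · fin_cases b
            · rfl
            · simp only [Fin.zero_eta, Fin.mk_one]
              rw [h1, h2]
              ring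
          · fin_cases b
            · simp only [Fin.zero_eta, Fin.mk_one]
              rw [h1, h2]
              ring
            · rfl
        have hdeg : (C c * prodP v).natDegree = N + 1 := by
          rw [natDegree_C_mul hc]
          unfold prodP
          rw [natDegree_prod _ _ fun j _ => lin2_ne_zero (hv j)]
          rw [Finset.sum_congr rfl (g := fun _ => 1)]
          · simp
          · intro j _
            unfold lin2
            rw [add_comm]
            exact natDegree_linear (hv1 j)
        have hdeg2 : (prodP u).natDegree ≤ N := by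
          unfold prodP
          rw [Fin.prod_univ_succ]
          refine natDegree_mul_le.trans ?_
          have e1 : (lin2 (u 0)).natDegree = 0 := by
            unfold lin2
            rw [h1]
            simp
          rw [e1, zero_add]
          refine (natDegree_prod_le _ _).trans ?_
          refine (Finset.sum_le_sum fun j _ => lin2_natDegree_le (u j.succ)).trans ?_
          simp
        rw [h, hdeg] at hdeg2
        omega
      · have e1 : eval (-(u 0 0) / u 0 1) (prodP u) = 0 := by
          unfold prodP
          rw [Fin.prod_univ_succ, eval_mul]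
          have : eval (-(u 0 0) / u 0 1) (lin2 (u 0)) = 0 := by
            unfold lin2
            simp only [eval_add, eval_C, eval_mul, eval_X]
            field_simp
            ring
          rw [this, zero_mul]
        rw [h, eval_mul, eval_C] at e1
        have e2 := (mul_eq_zero.1 e1).resolve_left hc
        unfold prodP at e2
        rw [eval_prod, Finset.prod_eq_zero_iff] at e2
        obtain ⟨i, _, hi⟩ := e2
        refine ⟨i, ?_⟩
        unfold lin2 at hi
        simp only [eval_add, eval_C, eval_mul, eval_X] at hi
        have e3 : v i 0 * u 0 1 = v i 1 * u 0 0 := by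
          field_simp at hi
          linear_combination hi
        intro a b
        fin_cases a
        · fin_cases b
          · rfl
          · simp only [Fin.zero_eta, Fin.mk_one]
            linear_combination -e3
        · fin_cases b
          · simp only [Fin.zero_eta, Fin.mk_one]
            linear_combination e3
          · rfl
    obtain ⟨a, ha⟩ := hi.symm.exists_smul (hu 0)
    have ha0 : a ≠ 0 := by
      rintro rfl
      rw [zero_smul] at ha
      exact hv i ha
    have hl : lin2 (v i) = C a * lin2 (u 0) := by rw [ha, lin2_smul]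
    have h2 : prodP (fun j : Fin N => u j.succ) = C (c * a) * prodP (fun j : Fin N => v (i.succAbove j)) := by
      have h3 : prodP u = lin2 (u 0) * prodP (fun j : Fin N => u j.succ) := by
        unfold prodP
        rw [Fin.prod_univ_succ]
      have h4 : prodP v = lin2 (v i) * prodP (fun j : Fin N => v (i.succAbove j)) := by
        unfold prodP
        rw [Fin.prod_univ_succAbove _ i]
      rw [h3, h4, hl] at h
      apply mul_left_cancel₀ (lin2_ne_zero (hu 0))
      rw [h, C_mul]
      ring
    obtain ⟨τ, hτ, hτ'⟩ := ih _ _ (fun j => hu j.succ) (fun j => hv (i.succAbove j)) (c * a) (mul_ne_zero hc ha0) h2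
    refine ⟨Fin.cons i (fun j => i.succAbove (τ j)), ?_, ?_⟩
    · rw [Fin.cons_injective_iff]
      refine ⟨?_, (Fin.succAbove_right_injective).comp hτ⟩
      rintro ⟨j, hj⟩
      exact Fin.succAbove_ne i _ hj
    · intro j
      refine Fin.cases ?_ (fun j => ?_) j
      · exact hi
      · exact hτ' j

theorem exists_matching' {N : ℕ} {u v : Fin N → Fin 2 → k} (hu : ∀ j, u j ≠ 0) (hv : ∀ j, v j ≠ 0)
    (h : Par (symV u) (symV v)) : ∃ τ : Fin N → Fin N, Function.Injective τ ∧ ∀ j, Par (u j) (v (τ j)) := by
  obtain ⟨c, hc⟩ := h.exists_smul (symV_ne_zero hv)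
  have hc0 : c ≠ 0 := by
    rintro rfl
    rw [zero_smul] at hc
    exact symV_ne_zero hu hc
  apply exists_matching N u v hu hv c hc0
  apply poly_eq_of_coeffs (prodP_natDegree_le u) ((natDegree_C_mul_le _ _).trans (prodP_natDegree_le v))
  intro i
  rw [coeff_C_mul]
  exact congrFun hc i

/-- every binary form is a product of linear forms over an algebraically closed field -/
theorem exists_factors [IsAlgClosed k] : ∀ (N : ℕ) (p : k[X]), p ≠ 0 → p.natDegree ≤ N →
    ∃ (w : Fin N → Fin 2 → k) (c : k), (∀ j, w j ≠ 0) ∧ p = C c * prodP w := by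
  intro N
  induction N with
  | zero =>
    intro p hp hdeg
    refine ⟨fun j => j.elim0, p.coeff 0, fun j => j.elim0, ?_⟩
    unfold prodP
    rw [Finset.univ_eq_empty, Finset.prod_empty, mul_one]
    exact eq_C_of_natDegree_le_zero hdeg
  | succ N ih =>
    intro p hp hdeg
    by_cases h1 : p.natDegree ≤ N
    · obtain ⟨w, c, hw, hpw⟩ := ih p hp h1
      refine ⟨Fin.cons ![1, 0] w, c, ?_, ?_⟩
      · intro j
        refine Fin.cases ?_ (fun j => ?_) j
        · intro h
          have := congrFun h 0
          simp at this
        · exact hw j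
      · rw [hpw]
        congr 1
        unfold prodP
        rw [Fin.prod_univ_succ]
        simp [lin2]
    · have hd : p.degree ≠ 0 := by
        intro h
        have := natDegree_eq_zero_iff_degree_le_zero.2 h.le
        omega
      obtain ⟨a, ha⟩ := IsAlgClosed.exists_root p hd
      obtain ⟨q, hq⟩ := dvd_iff_isRoot.2 ha
      have hq0 : q ≠ 0 := by
        rintro rfl
        rw [mul_zero] at hq
        exact hp hq
      have hqd : q.natDegree ≤ N := by
        have := congrArg natDegree hq
        rw [natDegree_mul (X_sub_C_ne_zero a) hq0, natDegree_X_sub_C] at this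
        omega
      obtain ⟨w, c, hw, hqw⟩ := ih q hq0 hqd
      refine ⟨Fin.cons ![-a, 1] w, c, ?_, ?_⟩
      · intro j
        refine Fin.cases ?_ (fun j => ?_) j
        · intro h
          have := congrFun h 1
          simp at this
        · exact hw j
      · rw [hq, hqw]
        unfold prodP
        rw [Fin.prod_univ_succ]
        simp [lin2]
        ring

theorem exists_factors' [IsAlgClosed k] {N : ℕ} (v : Fin (N + 1) → k) (hv : v ≠ 0) :
    ∃ w : Fin N → Fin 2 → k, (∀ j, w j ≠ 0) ∧ Par v (symV w) := by
  set p : k[X] := ∑ i : Fin (N + 1), C (v i) * X ^ (i : ℕ) with hp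
  have hco : ∀ i : Fin (N + 1), p.coeff i = v i := by
    intro i
    rw [hp, finsetSum_coeff]
    simp only [coeff_C_mul, coeff_X_pow]
    rw [Finset.sum_eq_single i]
    · simp
    · intro b _ hb
      rw [if_neg, mul_zero]
      intro h
      exact hb (Fin.ext h.symm)
    · intro h
      exact absurd (Finset.mem_univ i) h
  have hp0 : p ≠ 0 := by
    intro h0
    apply hv
    funext i
    rw [← hco, h0, coeff_zero]
    rfl
  have hdeg : p.natDegree ≤ N := by
    rw [hp]
    apply natDegree_sum_le_of_forall_le
    intro i _
    refine (natDegree_C_mul_X_pow_le _ _).trans ?_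
    omega
  obtain ⟨w, c, hw, hpw⟩ := exists_factors N p hp0 hdeg
  refine ⟨w, hw, ?_⟩
  apply Par.of_eq_smul (c := c)
  funext i
  rw [← hco, hpw, coeff_C_mul]
  rfl

end Fld

end Sym

end Pool.Agent.Lib.MP_df4dfc_nt
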