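import Mathlib
import Pool.Agent.Lib.MP_df4dfc_nt.Sy1
import Pool.Agent.Lib.MP_df4dfc_nt.Ext
import Pool.Agent.Lib.MP_df4dfc_nt.Fb2

set_option autoImplicit false
set_option linter.unusedSectionVars false
set_option linter.style.haveILetI false
set_option linter.unusedVariables false

/-! Symmetric products of maps of the line. -/

namespace Pool.Agent.Lib.MP_df4dfc_nt

open MvPolynomial NumberField IsDedekindDomain

universe u

section It

variable {R : Type u} [CommRing R] {N d : ℕ}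

/-- iterating the relation -/
theorem sym_iter {G : Fin (N + 1) → MvPolynomial (Fin (N + 1)) R} {H : Fin 2 → MvPolynomial (Fin 2) R}
    (hG : ∀ i, (G i).IsHomogeneous d) {b1 b2 : R} {T : Type u} [CommRing T] (φ : R →+* T)
    (hrel : ∀ (u : Fin N → Fin 2 → T) (i : Fin (N + 1)),
      φ b1 * pev φ G (symV u) i = φ b2 * symV (fun j => pev φ H (u j)) i) (n : ℕ) (u : Fin N → Fin 2 → T) :
    ∃ e1 e2 : ℕ, φ b1 ^ e1 • (pev φ G)^[n] (symV u) = φ b2 ^ e2 • symV (fun j => (pev φ H)^[n] (u j)) := by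
  induction n with
  | zero => exact ⟨0, 0, by simp⟩
  | succ n ih =>
    obtain ⟨e1, e2, he⟩ := ih
    refine ⟨1 + e1 * d, 1 + e2 * d, ?_⟩
    have h1 : φ b1 • pev φ G (symV (fun j => (pev φ H)^[n] (u j))) = φ b2 • symV (fun j => (pev φ H)^[n + 1] (u j)) := by
      funext i
      simp only [Pi.smul_apply, smul_eq_mul, Function.iterate_succ_apply']
      exact hrel _ i
    have h2 : pev φ G (φ b1 ^ e1 • (pev φ G)^[n] (symV u)) = pev φ G (φ b2 ^ e2 • symV (fun j => (pev φ H)^[n] (u j))) := by rw [he]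
    rw [pev_smul hG, pev_smul hG, ← pow_mul, ← pow_mul] at h2
    rw [Function.iterate_succ_apply']
    calc φ b1 ^ (1 + e1 * d) • pev φ G ((pev φ G)^[n] (symV u))
        = φ b1 • (φ b1 ^ (e1 * d) • pev φ G ((pev φ G)^[n] (symV u))) := by rw [smul_smul, pow_add, pow_one]
      _ = φ b1 • (φ b2 ^ (e2 * d) • pev φ G (symV (fun j => (pev φ H)^[n] (u j)))) := by rw [h2]
      _ = φ b2 ^ (e2 * d) • (φ b1 • pev φ G (symV (fun j => (pev φ H)^[n] (u j)))) := smul_comm _ _ _
      _ = φ b2 ^ (e2 * d) • (φ b2 • symV (fun j => (pev φ H)^[n + 1] (u j))) := by rw [h1]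
      _ = _ := by rw [smul_smul, pow_add, pow_one, mul_comm]

end It

section Rel

variable {K : Type u} [Field K] [NumberField K] {N d : ℕ}

theorem sym_rel {Φ : Morph K N d} {f : Morph K 1 d} {c c' : K}
    {G : Fin (N + 1) → MvPolynomial (Fin (N + 1)) (𝓞 K)} {H : Fin 2 → MvPolynomial (Fin 2) (𝓞 K)}
    (hG : Model Φ c G) (hH : Model f c' H)
    (h : ∀ u : Fin N → Fin 2 → AlgebraicClosure K, Φ.lift (symV u) = symV (fun j => f.lift (u j))) :
    ∃ b1 b2 : 𝓞 K, b1 ≠ 0 ∧ b2 ≠ 0 ∧ ∀ (T : Type u) [CommRing T] (φ : 𝓞 K →+* T) (u : Fin N → Fin 2 → T) (i : Fin (N + 1)),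
      φ b1 * pev φ G (symV u) i = φ b2 * symV (fun j => pev φ H (u j)) i := by
  set U : Fin N → Fin 2 → MvPolynomial (Fin N × Fin 2) (𝓞 K) := fun j a => X (j, a) with hU
  have hv1 : ∀ {T : Type u} [CommRing T] (φ : 𝓞 K →+* T) (u : Fin N × Fin 2 → T) (i : Fin (N + 1)),
      eval₂ φ u (symV U i) = symV (fun j a => u (j, a)) i := by
    intro T _ φ u i
    have h1 := congrFun (symV_map (eval₂Hom φ u) U) i
    simp only [coe_eval₂Hom] at h1
    rw [h1]
    congr 1
    funext j a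
    rw [hU]
    exact eval₂_X _ _ _
  have hA : ∀ {T : Type u} [CommRing T] (φ : 𝓞 K →+* T) (u : Fin N × Fin 2 → T) (i : Fin (N + 1)),
      eval₂ φ u (bind₁ (symV U) (G i)) = pev φ G (symV (fun j a => u (j, a))) i := by
    intro T _ φ u i
    have h1 := eval₂Hom_bind₁ φ u (symV U) (G i)
    simp only [coe_eval₂Hom] at h1
    rw [h1]
    simp only [hv1]
    rfl
  have hB : ∀ {T : Type u} [CommRing T] (φ : 𝓞 K →+* T) (u : Fin N × Fin 2 → T) (i : Fin (N + 1)),
      eval₂ φ u (symV (fun j a => bind₁ (U j) (H a)) i) = symV (fun j => pev φ H (fun a => u (j, a))) i := by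
    intro T _ φ u i
    have h1 := congrFun (symV_map (eval₂Hom φ u) (fun j a => bind₁ (U j) (H a))) i
    simp only [coe_eval₂Hom] at h1
    rw [h1]
    congr 1
    funext j a
    have h2 := eval₂Hom_bind₁ φ u (U j) (H a)
    simp only [coe_eval₂Hom] at h2
    rw [h2]
    change eval₂ φ _ _ = eval₂ φ _ _
    congr 2
    funext b
    exact eval₂_X _ _ _
  obtain ⟨b1, b2, hb1, hb2, hrel⟩ := clear_scalars (fun i => bind₁ (symV U) (G i)) (fun i => symV (fun j a => bind₁ (U j) (H a)) i)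
    (α := c' ^ N) (β := c) (pow_ne_zero N hH.1) hG.1 (by
      intro u i
      rw [hA, hB, hG.lift, h]
      have h1 : symV (fun j => pev (algebraMap (𝓞 K) (AlgebraicClosure K)) H (fun a => u (j, a)))
          = algebraMap K (AlgebraicClosure K) c' ^ N • symV (fun j => f.lift (fun a => u (j, a))) := by
        rw [← symV_smul]
        congr 1
        funext j
        exact hH.lift _
      rw [h1, map_pow]
      simp only [Pi.smul_apply, smul_eq_mul]
      ring)
  refine ⟨b1, b2, hb1, hb2, ?_⟩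
  intro T _ φ u i
  have h1 := congrArg (eval₂ φ (fun x : Fin N × Fin 2 => u x.1 x.2)) (hrel i)
  rw [eval₂_mul, eval₂_mul, eval₂_C, eval₂_C, hA, hB] at h1
  exact h1

end Rel

end Pool.Agent.Lib.MP_df4dfc_nt
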