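import Mathlib
import Pool.Agent.Lib.MP_df4dfc_nt.Sy2

set_option autoImplicit false
set_option linter.unusedSectionVars false
set_option linter.style.haveILetI false
set_option linter.unusedVariables false

/-! Symmetric products: rigidity. -/

namespace Pool.Agent.Lib.MP_df4dfc_nt

open MvPolynomial NumberField IsDedekindDomain

universe u

section Match

variable {R : Type u} [CommRing R] {N d : ℕ} {k : Type u} [Field k]

/-- a permuted tuple is fixed by an iterate -/
theorem fixed_of_matching {H : Fin 2 → MvPolynomial (Fin 2) R} (hH : ∀ i, (H i).IsHomogeneous d) {φ : R →+* k}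
    (hNZ : NZ φ H) {u : Fin N → Fin 2 → k} (hu : ∀ j, u j ≠ 0) {m : ℕ} {τ : Fin N → Fin N} (hτ : Function.Injective τ)
    (h : ∀ j, Par ((pev φ H)^[m] (u j)) (u (τ j))) : ∃ o : ℕ, 1 ≤ o ∧ ∀ j, Par ((pev φ H)^[m * o] (u j)) (u j) := by
  have key : ∀ i j, Par ((pev φ H)^[m * i] (u j)) (u (τ^[i] j)) := by
    intro i
    induction i with
    | zero => intro j; exact Par.refl _
    | succ i ih =>
      intro j
      have h1 : m * (i + 1) = m + m * i := by ring
      rw [h1, Function.iterate_add_apply, Function.iterate_succ_apply']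
      exact (pev_iter_par hH hNZ m (ih j) (hu _)).trans (h _) (hNZ.iter m (hu _))
  let σ : Equiv.Perm (Fin N) := Equiv.ofBijective τ (Finite.injective_iff_bijective.1 hτ)
  have hσ : ∀ i j, (σ ^ i) j = τ^[i] j := by
    intro i
    induction i with
    | zero => intro j; rfl
    | succ i ih =>
      intro j
      rw [pow_succ', Equiv.Perm.mul_apply, ih, Function.iterate_succ_apply']
      rfl
  refine ⟨orderOf σ, orderOf_pos σ, fun j => ?_⟩
  have h1 := key (orderOf σ) j
  rw [← hσ, pow_orderOf_eq_one] at h1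
  exact h1

end Match

section Rig

variable {K : Type u} [Field K] [NumberField K] {N d : ℕ}

/-- **Symmetric products of maps of the line.** -/
theorem rigM_sym (hd : 2 ≤ d) (Φ : Morph K N d) (f : Morph K 1 d)
    (h : ∀ u : Fin N → Fin 2 → AlgebraicClosure K, Φ.lift (symV u) = symV (fun j => f.lift (u j))) : RigM Φ := by
  classical
  intro c G hG g hg hper
  set Ω := AlgebraicClosure K with hΩ
  set jΩ := algebraMap (𝓞 K) Ω with hjΩ
  have hjinj : Function.Injective jΩ := FaithfulSMul.algebraMap_injective (𝓞 K) (AlgebraicClosure K)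
  obtain ⟨c', H, hH⟩ := exists_model f
  obtain ⟨b1, b2, hb1, hb2, hrel⟩ := sym_rel hG hH h
  -- the factors of the form
  have hgΩ : (fun i => jΩ (g i)) ≠ 0 := by
    intro h0
    apply hg
    funext i
    apply hjinj
    rw [Pi.zero_apply, map_zero]
    exact congrFun h0 i
  obtain ⟨w, hw, hgw⟩ := exists_factors' (fun i => jΩ (g i)) hgΩ
  -- the field generated by the factors
  set S : Set Ω := Set.range (fun x : Fin N × Fin 2 => w x.1 x.2) with hS
  haveI : Finite S := (Set.finite_range _).to_subtype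
  set K' : IntermediateField K Ω := IntermediateField.adjoin K S with hK'
  haveI : FiniteDimensional K K' := IntermediateField.finiteDimensional_adjoin fun x _ =>
    (Algebra.IsAlgebraic.isAlgebraic x).isIntegral
  haveI : NumberField K' := numberField_of_finite K K'
  set w' : Fin N × Fin 2 → K' := fun x => ⟨w x.1 x.2, IntermediateField.subset_adjoin K S ⟨x, rfl⟩⟩ with hw'
  obtain ⟨y, hy⟩ := IsLocalization.exist_integer_multiples_of_finite (nonZeroDivisors (𝓞 K')) w'
  choose u hu using hy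
  set ψ : 𝓞 K' →+* Ω := (algebraMap K' Ω).comp (algebraMap (𝓞 K') K') with hψ
  have hψinj : Function.Injective ψ := (algebraMap K' Ω).injective.comp (inj_O (K := K'))
  set φ0 := algebraMap (𝓞 K) (𝓞 K') with hφ0
  have hψφ : ψ.comp φ0 = jΩ := by
    apply RingHom.ext
    intro x
    rfl
  have hφinj : Function.Injective φ0 := by
    intro a b hab
    apply hjinj
    rw [← hψφ]
    change ψ (φ0 a) = ψ (φ0 b)
    rw [hab]
  have hy0 : (y : 𝓞 K') ≠ 0 := nonZeroDivisors.coe_ne_zero y
  set v : Fin N → Fin 2 → 𝓞 K' := fun j a => u (j, a) with hv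
  have hvψ : ∀ j a, ψ (v j a) = ψ y * w j a := by
    intro j a
    change algebraMap K' Ω (algebraMap (𝓞 K') K' (u (j, a))) = _
    rw [hu, Algebra.smul_def, map_mul]
    rfl
  have hv0 : ∀ j, v j ≠ 0 := by
    intro j h0
    apply hw j
    funext a
    have h1 := hvψ j a
    rw [h0, Pi.zero_apply, map_zero] at h1
    exact (mul_eq_zero.1 h1.symm).resolve_left (fun h2 => hy0 (hψinj (by rw [h2, map_zero])))
  have hpar0 : Par (fun i => φ0 (g i)) (symV v) := by
    apply Par.of_map ψ hψinj
    rw [symV_map]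
    have h1 : (fun j a => ψ (v j a)) = fun j => ψ y • w j := by
      funext j a
      exact hvψ j a
    rw [h1, symV_smul]
    have h2 : (fun i => ψ (φ0 (g i))) = fun i => jΩ (g i) := by
      funext i
      rw [← hψφ]
      rfl
    rw [h2]
    exact (hgw.symm.smul_left _).symm
  have hg0 : (fun i => φ0 (g i)) ≠ 0 := by
    intro h0
    apply hg
    funext i
    apply hφinj
    rw [Pi.zero_apply, map_zero]
    exact congrFun h0 i
  have hs0 : symV v ≠ 0 := symV_ne_zero hv0
  -- non-vanishing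
  have hNZG : NZ φ0 G := NZ.of_injective (ψ := ψ) (by rw [hψφ]; exact hG.nz) hψinj
  have hNZH : NZ φ0 H := NZ.of_injective (ψ := ψ) (by rw [hψφ]; exact hH.nz) hψinj
  set H' : Fin 2 → MvPolynomial (Fin 2) (𝓞 K') := fun i => MvPolynomial.map φ0 (H i) with hH'
  have hH'h : ∀ i, (H' i).IsHomogeneous d := fun i => (hH.homog i).map _
  have hpevH : ∀ {T : Type u} [CommRing T] (φ : 𝓞 K' →+* T), pev φ H' = pev (φ.comp φ0) H := by
    intro T _ φ
    funext z i
    exact eval₂_map _ _ _ _
  have hNZH' : NZ (algebraMap (𝓞 K') (AlgebraicClosure K')) H' := by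
    let e : AlgebraicClosure K' →ₐ[K'] Ω := IsAlgClosed.lift
    have heinj : Function.Injective (e : AlgebraicClosure K' →+* Ω) := e.toRingHom.injective
    have h1 : NZ ((algebraMap (𝓞 K') (AlgebraicClosure K')).comp φ0) H := by
      apply NZ.of_injective (ψ := (e : AlgebraicClosure K' →+* Ω)) _ heinj
      have h2 : (e : AlgebraicClosure K' →+* Ω).comp ((algebraMap (𝓞 K') (AlgebraicClosure K')).comp φ0) = jΩ := by
        apply RingHom.ext
        intro x
        change e (algebraMap K' (AlgebraicClosure K') (algebraMap (𝓞 K') K' (φ0 x))) = _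
        rw [e.commutes]
        rfl
      rw [h2]
      exact hH.nz
    intro z hz
    rw [hpevH]
    exact h1 z hz
  -- periodicity modulo almost all primes
  obtain ⟨s0, hs0', hs0''⟩ := good_ae.{u} jΩ hjinj G hG.nz
  obtain ⟨s1, hs1', hs1''⟩ := good_ae.{u} jΩ hjinj H hH.nz
  obtain ⟨s, hs, hs'⟩ := exists_common _ hper
  obtain ⟨k0, hk0⟩ := Function.ne_iff.1 hg
  rw [Pi.zero_apply] at hk0
  have hex : ∀ j, ∃ a, v j a ≠ 0 := fun j => Function.ne_iff.1 (hv0 j)
  choose a ha using hex
  have hPer : ∀ j, PerAE H' (v j) := by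
    intro j0
    have hB : φ0 (s * s0 * s1 * b1 * b2 * g k0) * ∏ j, v j (a j) ≠ 0 := by
      apply mul_ne_zero
      · intro h0
        have h1 : s * s0 * s1 * b1 * b2 * g k0 = 0 := hφinj (by rw [h0, map_zero])
        simp only [mul_eq_zero] at h1
        tauto
      · exact Finset.prod_ne_zero_iff.2 fun j _ => ha j
    apply (finite_bad' _ hB).subset
    intro P hP
    by_contra hcon
    simp only [Set.mem_ofPred_eq] at hcon
    apply hP
    haveI := P.isMaximal
    letI : Field (𝓞 K' ⧸ P.asIdeal) := Ideal.Quotient.field _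
    have hcon' : redK P (φ0 (s * s0 * s1 * b1 * b2 * g k0) * ∏ j, v j (a j)) ≠ 0 := fun h => hcon (Ideal.Quotient.eq_zero_iff_mem.1 h)
    simp only [map_mul, mul_ne_zero_iff, map_prod, Finset.prod_ne_zero_iff] at hcon'
    obtain ⟨⟨⟨⟨⟨⟨e1, e2⟩, e3⟩, e4⟩, e5⟩, e6⟩, e7⟩ := hcon'
    set φP : 𝓞 K →+* 𝓞 K' ⧸ P.asIdeal := (redK P).comp φ0 with hφP
    have hNZGP : NZ φP G := hs0'' _ φP e2
    have hNZHP : NZ φP H := hs1'' _ φP e3
    obtain ⟨p, hp⟩ := exists_below (K := K) P
    have hpgood : ∃ m : ℕ, 1 ≤ m ∧ Par (fun i => redK p ((pevO G)^[m] g i)) (fun i => redK p (g i)) := by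
      by_contra hbad
      have h1 := hs' p hbad
      rw [hp, Ideal.mem_comap] at h1
      exact e1 (Ideal.Quotient.eq_zero_iff_mem.2 h1)
    obtain ⟨m, hm, hpar⟩ := hpgood
    have hparP : Par ((pev φP G)^[m] (fun i => φP (g i))) (fun i => φP (g i)) := by
      have h2 := pev_iter_map (RingHom.id (𝓞 K)) φP G m g
      rw [RingHom.comp_id] at h2
      rw [← h2]
      intro i k
      have h1 := hpar i k
      have h2 : (pevO G)^[m] g i * g k - (pevO G)^[m] g k * g i ∈ p.asIdeal := by
        rw [← Ideal.Quotient.eq_zero_iff_mem, map_sub, map_mul, map_mul, sub_eq_zero]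
        exact h1
      rw [hp, Ideal.mem_comap] at h2
      rw [map_sub, map_mul, map_mul] at h2
      have h3 := Ideal.Quotient.eq_zero_iff_mem.2 h2
      rw [map_sub, map_mul, map_mul, sub_eq_zero] at h3
      exact h3
    have hgP : (fun i => φP (g i)) ≠ 0 := fun h0 => e6 (congrFun h0 k0)
    set vP : Fin N → Fin 2 → 𝓞 K' ⧸ P.asIdeal := fun j a => redK P (v j a) with hvP
    have hvP0 : ∀ j, vP j ≠ 0 := fun j h0 => e7 j (Finset.mem_univ j) (congrFun h0 (a j))
    have hsP : symV vP ≠ 0 := symV_ne_zero hvP0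
    have hpP : Par (fun i => φP (g i)) (symV vP) := by
      have h1 := hpar0.map (redK P)
      rw [symV_map] at h1
      exact h1
    have h3 : Par ((pev φP G)^[m] (symV vP)) (symV vP) := by
      have h4 := pev_iter_par hG.homog hNZGP m hpP.symm hgP
      exact (h4.trans hparP (hNZGP.iter m hgP)).trans hpP hgP
    obtain ⟨f1, f2, hf⟩ := sym_iter hG.homog φP (fun u i => hrel _ φP u i) m vP
    have hNZu : ∀ j, (pev φP H)^[m] (vP j) ≠ 0 := fun j => hNZHP.iter m (hvP0 j)
    have h5 : Par (symV (fun j => (pev φP H)^[m] (vP j))) (symV vP) := by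
      have h6 : symV (fun j => (pev φP H)^[m] (vP j)) = ((φP b2 ^ f2)⁻¹ * φP b1 ^ f1) • (pev φP G)^[m] (symV vP) := by
        rw [mul_smul, hf, smul_smul, inv_mul_cancel₀ (pow_ne_zero _ (show φP b2 ≠ 0 from e5)), one_smul]
      rw [h6]
      exact h3.smul_left _
    obtain ⟨τ, hτ, hτ'⟩ := exists_matching' hNZu hvP0 h5
    obtain ⟨o, ho, ho'⟩ := fixed_of_matching hH.homog hNZHP hvP0 hτ hτ'
    refine ⟨m * o, Nat.mul_pos hm ho, ?_⟩
    have hitH : (fun i => redK P ((pevO H')^[m * o] (v j0) i)) = (pev φP H)^[m * o] (vP j0) := by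
      rw [pev_iter_map, RingHom.comp_id, hpevH]
    rw [hitH]
    exact ho' j0
  -- the factors are periodic
  have hl : ∀ j, ∃ l, 1 ≤ l ∧ Par ((pevO H')^[l] (v j)) (v j) := by
    intro j
    obtain ⟨m', n', hmn, hpar⟩ := good_P1 H' hd hH'h hNZH' (v j) (hv0 j) (hPer j)
    exact per_of_preper H' (by omega) hH'h hNZH' (v j) (hv0 j) (hPer j) m' n' hmn hpar
  choose l hl1 hl2 using hl
  have hNZ1 : NZ (RingHom.id (𝓞 K')) H' := NZ.of_injective (ψ := algebraMap (𝓞 K') (AlgebraicClosure K'))
    (by rw [RingHom.comp_id]; exact hNZH') (FaithfulSMul.algebraMap_injective (𝓞 K') (AlgebraicClosure K'))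
  set L := ∏ j, l j with hL
  have hL1 : 1 ≤ L := Finset.one_le_prod' fun j _ => hl1 j
  have hLj : ∀ j, Par ((pevO H')^[L] (v j)) (v j) := by
    intro j
    obtain ⟨q, hq⟩ := Finset.dvd_prod_of_mem l (Finset.mem_univ j)
    have h1 := iter_add_par hH'h hNZ1 (v j) (hv0 j) 0 (l j) (by
      rw [zero_add, Function.iterate_zero, id]
      exact hl2 j) 0 q le_rfl
    rw [zero_add, Function.iterate_zero, id] at h1
    have h2 : L = q * l j := by rw [hL, hq, mul_comm]
    rw [h2]
    exact h1
  have hsym : Par (symV (fun j => (pevO H')^[L] (v j))) (symV v) := par_symV hv0 hLj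
  obtain ⟨f1, f2, hf⟩ := sym_iter hG.homog φ0 (fun u i => hrel _ φ0 u i) L v
  have hpe : pevO H' = pev φ0 H := by
    have := hpevH (RingHom.id (𝓞 K'))
    rw [RingHom.id_comp] at this
    exact this
  rw [hpe] at hsym
  have hG1 : Par ((pev φ0 G)^[L] (symV v)) (symV v) := by
    have hbe : φ0 b1 ^ f1 ≠ 0 := pow_ne_zero _ fun h0 => hb1 (hφinj (by rw [h0, map_zero]))
    have h1 : Par (φ0 b1 ^ f1 • (pev φ0 G)^[L] (symV v)) (symV v) := by
      rw [hf]
      exact hsym.smul_left _
    intro i k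
    have h2 := h1 i k
    simp only [Pi.smul_apply, smul_eq_mul] at h2
    apply mul_left_cancel₀ hbe
    linear_combination h2
  have hG2 : Par ((pev φ0 G)^[L] (fun i => φ0 (g i))) (fun i => φ0 (g i)) := by
    have h1 := pev_iter_par hG.homog hNZG L hpar0 hs0
    exact (h1.trans hG1 (hNZG.iter L hs0)).trans hpar0.symm hs0
  refine ⟨0, L, hL1, ?_⟩
  rw [Function.iterate_zero, id]
  apply Par.symm
  apply Par.of_map φ0 hφinj
  have h2 := pev_iter_map (RingHom.id (𝓞 K)) φ0 G L g
  rw [RingHom.comp_id] at h2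
  rw [h2]
  exact hG2

end Rig

end Pool.Agent.Lib.MP_df4dfc_nt
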