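import Mathlib
import Pool.Agent.Lib.MP_df4dfc_nt.Cc5

/-!
# The structure of inertia groups: a generator modulo elements of `p`-power order
-/

set_option autoImplicit false
set_option linter.unusedSectionVars false
set_option linter.style.haveILetI false
set_option linter.unusedVariables false

namespace Pool.Agent.Lib.MP_df4dfc_nt

open NumberField IsDedekindDomain WithZero
open scoped Pointwise

universe u

section O1

variable {L Γ : Type*} [Field L] [LinearOrderedCommGroupWithZero Γ] (v : Valuation L Γ)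

theorem v_inv_one_of {a : L} (h : v (a - 1) < 1) : v (a⁻¹ - 1) < 1 := by
  have h1 := v_one_of v h
  have h0 : a ≠ 0 := by
    rintro rfl
    rw [map_zero] at h1
    exact zero_ne_one h1
  have h2 : a⁻¹ - 1 = -(a⁻¹ * (a - 1)) := by
    field_simp
    ring
  rw [h2, Valuation.map_neg, map_mul, map_inv₀, h1, inv_one, one_mul]
  exact h

theorem v_zpow_one_of {a : L} (h : v (a - 1) < 1) (k : ℤ) : v (a ^ k - 1) < 1 := by
  rcases k with k | k
  · rw [Int.ofNat_eq_natCast, zpow_natCast]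
    exact v_pow_one_of v h k
  · rw [zpow_negSucc]
    exact v_inv_one_of v (v_pow_one_of v h _)

end O1

section Wild

variable {K L : Type u} [Field K] [NumberField K] [Field L] [NumberField L] [Algebra K L] [IsGalois K L]

/-- inertia moves units by principal units -/
theorem inertia_unit_v (P : HeightOneSpectrum (𝓞 L)) (σ : Gal(L/K)) (hσ : σ ∈ P.asIdeal.inertia Gal(L/K))
    {Y : L} (h : P.valuation L Y = 1) : P.valuation L (σ Y - Y) < 1 := by
  set v := P.valuation L with hv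
  have hY0 : Y ≠ 0 := by
    rintro rfl
    rw [map_zero] at h
    exact zero_ne_one h
  have hod : od P Y = 0 := by
    unfold od
    rw [← hv, h, log_one, neg_zero]
  obtain ⟨a, b, ha, hb, hab⟩ := exists_unit_frac P hY0 hod
  have h1 : v ((σ • a - a : 𝓞 L) : L) < 1 := (P.valuation_lt_one_iff_mem (K := L) _).2 (hσ a)
  have h2 : v ((σ • b - b : 𝓞 L) : L) < 1 := (P.valuation_lt_one_iff_mem (K := L) _).2 (hσ b)
  have e2 : ((σ • a : 𝓞 L) : L) = σ (a : L) := rfl
  have e3 : ((σ • b : 𝓞 L) : L) = σ (b : L) := rfl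
  have h1' : v (σ (a : L) - (a : L)) < 1 := by
    have h3 : ((σ • a - a : 𝓞 L) : L) = σ (a : L) - (a : L) := map_sub (algebraMap (𝓞 L) L) (σ • a) a
    rw [h3] at h1
    exact h1
  have h2' : v (σ (b : L) - (b : L)) < 1 := by
    have h3 : ((σ • b - b : 𝓞 L) : L) = σ (b : L) - (b : L) := map_sub (algebraMap (𝓞 L) L) (σ • b) b
    rw [h3] at h2
    exact h2
  have hvb : v (b : L) = 1 := (P.valuation_eq_one_iff_notMem (K := L)).2 hb
  have hvσb : v (σ (b : L)) = 1 := by
    rw [hv, val_inertia P σ hσ]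
    exact hvb
  have key : (σ Y - Y) * σ (b : L) = (σ (a : L) - (a : L)) - Y * (σ (b : L) - (b : L)) := by
    have h3 : σ Y * σ (b : L) = σ (a : L) := by rw [← map_mul, hab]
    linear_combination h3 - hab
  have h4 : v ((σ Y - Y) * σ (b : L)) < 1 := by
    rw [key]
    apply v.map_sub_lt h1'
    rw [map_mul, h, one_mul]
    exact h2'
  rwa [map_mul, hvσb, mul_one] at h4

/-- wild elements move every element by a factor congruent to one -/
theorem wild_move (P : HeightOneSpectrum (𝓞 L)) (σ : Gal(L/K)) (hσ : σ ∈ P.asIdeal.inertia Gal(L/K))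
    (ω : L) (hω : P.valuation L ω = exp (-1 : ℤ)) (hw : P.valuation L (σ ω / ω - 1) < 1) (a : L) (ha : a ≠ 0) :
    P.valuation L (σ a - a) < P.valuation L a := by
  set v := P.valuation L with hv
  have hω0 : ω ≠ 0 := by
    rintro rfl
    rw [map_zero] at hω
    exact absurd hω.symm (by simp)
  have hva : v a ≠ 0 := (Valuation.ne_zero_iff v).2 ha
  set k : ℤ := - log (v a) with hk
  have hvk : v (ω ^ k) = v a := by
    rw [map_zpow₀, hω, ← exp_zsmul, hk, smul_eq_mul]
    rw [show -log (v a) * -1 = log (v a) by ring, exp_log hva]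
  set w := a / ω ^ k with hw'
  have hwv : v w = 1 := by
    rw [hw', map_div₀, hvk, div_self hva]
  have hωk0 : ω ^ k ≠ 0 := zpow_ne_zero _ hω0
  have haw : a = ω ^ k * w := by
    rw [hw']
    field_simp
  have h1 : v (σ w - w) < 1 := inertia_unit_v P σ hσ hwv
  have hw0 : w ≠ 0 := by
    intro h0
    rw [h0, map_zero] at hwv
    exact zero_ne_one hwv
  have h2 : v (σ w / w - 1) < 1 := by
    have h3 : σ w / w - 1 = (σ w - w) / w := by field_simp
    rw [h3, map_div₀, hwv, div_one]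
    exact h1
  have h4 := v_mul_one_of v (v_zpow_one_of v hw k) h2
  have h5 : σ a - a = ((σ ω / ω) ^ k * (σ w / w) - 1) * a := by
    have h6 : σ a = σ ω ^ k * σ w := by
      rw [haw, map_mul, map_zpow₀]
    rw [h6, haw, div_zpow]
    field_simp
  rw [h5, map_mul]
  calc v ((σ ω / ω) ^ k * (σ w / w) - 1) * v a < 1 * v a := mul_lt_mul_of_pos_right h4 (zero_lt_iff.2 hva)
    _ = v a := one_mul _

/-- a wild element of order prime to the residue characteristic is trivial -/
theorem wild_order (P : HeightOneSpectrum (𝓞 L)) (σ : Gal(L/K)) (hσ : σ ∈ P.asIdeal.inertia Gal(L/K))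
    (ω : L) (hω : P.valuation L ω = exp (-1 : ℤ)) (hw : P.valuation L (σ ω / ω - 1) < 1) (m : ℕ)
    (hm : P.valuation L (m : L) = 1) (hσm : σ ^ m = 1) : σ = 1 := by
  set v := P.valuation L with hv
  have h1 : ∀ (i : ℕ) (a : L), a ≠ 0 → v ((σ ^ i) a - a) < v a := by
    intro i
    induction i with
    | zero =>
      intro a ha
      rw [pow_zero, AlgEquiv.one_apply, sub_self, map_zero]
      exact zero_lt_iff.2 ((Valuation.ne_zero_iff v).2 ha)
    | succ i ih =>
      intro a ha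
      have h2 : (σ ^ (i + 1)) a - a = σ ((σ ^ i) a - a) + (σ a - a) := by
        rw [pow_succ', AlgEquiv.mul_apply, map_sub]
        ring
      rw [h2]
      apply v.map_add_lt
      · rw [hv, val_inertia P σ hσ]
        exact ih a ha
      · exact wild_move P σ hσ ω hω hw a ha
  have h3 : ∀ a : L, (∑ i ∈ Finset.range m, (σ ^ i) a) = 0 → a = 0 := by
    intro a hsum
    by_contra ha
    have hva : v a ≠ 0 := (Valuation.ne_zero_iff v).2 ha
    have h4 : v ((∑ i ∈ Finset.range m, (σ ^ i) a) - m * a) < v a := by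
      have h5 : (m : L) * a = ∑ i ∈ Finset.range m, a := by simp
      rw [h5, ← Finset.sum_sub_distrib]
      apply v.map_sum_lt hva
      intro i _
      exact h1 i a ha
    rw [hsum, zero_sub, Valuation.map_neg, map_mul, hm, one_mul] at h4
    exact lt_irrefl _ h4
  ext a
  rw [AlgEquiv.one_apply]
  have h4 : σ a - a = 0 := by
    apply h3
    have h5 : ∀ i ∈ Finset.range m, (σ ^ i) (σ a - a) = (σ ^ (i + 1)) a - (σ ^ i) a := by
      intro i _
      rw [map_sub, pow_succ, AlgEquiv.mul_apply]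
    rw [Finset.sum_congr rfl h5, Finset.sum_range_sub (fun i => (σ ^ i) a), hσm, pow_zero, sub_self]
  exact sub_eq_zero.1 h4

/-- **A generator of inertia modulo elements of `p`-power order.** -/
theorem exists_tame_gen (P : HeightOneSpectrum (𝓞 L)) (p : ℕ) (hp : p.Prime) (hpP : (p : 𝓞 L) ∈ P.asIdeal) :
    ∃ ρ : Gal(L/K), ρ ∈ P.asIdeal.inertia Gal(L/K) ∧ ∀ σ : Gal(L/K), σ ∈ P.asIdeal.inertia Gal(L/K) →
      ∃ (k : ℤ) (a : ℕ) (τ : Gal(L/K)), τ ∈ P.asIdeal.inertia Gal(L/K) ∧ τ ^ (p ^ a) = 1 ∧ σ = τ * ρ ^ k := by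
  classical
  set v := P.valuation L with hv
  obtain ⟨ω, hω⟩ := P.valuation_exists_uniformizer L
  have hωv : v ω ≠ 0 := by
    rw [hv, hω]
    simp
  have hω0 : ω ≠ 0 := (Valuation.ne_zero_iff v).1 hωv
  set O := v.valuationSubring with hO
  set res := IsLocalRing.residue O with hres
  have hres0 : ∀ a : O, res a = 0 ↔ v (a : L) < 1 := by
    intro a
    rw [hres, IsLocalRing.residue_eq_zero_iff, IsLocalRing.mem_maximalIdeal, mem_nonunits_iff]
    have h1 := (Valuation.valuationSubring.integers v).isUnit_iff_valuation_eq_one (x := a)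
    rw [h1]
    have h2 : v (a : L) ≤ 1 := a.2
    constructor
    · intro h3
      exact lt_of_le_of_ne h2 h3
    · intro h3
      exact h3.ne
  have hfrac : ∀ σ : Gal(L/K), σ ∈ P.asIdeal.inertia Gal(L/K) → v (σ ω / ω) = 1 := by
    intro σ hσ
    rw [map_div₀, hv, val_inertia P σ hσ, ← hv, div_self hωv]
  let θ : P.asIdeal.inertia Gal(L/K) →* IsLocalRing.ResidueField O :=
    { toFun := fun σ => res ⟨(σ : Gal(L/K)) ω / ω, (hfrac _ σ.2).le⟩
      map_one' := by
        have h1 : (⟨((1 : P.asIdeal.inertia Gal(L/K)) : Gal(L/K)) ω / ω, (hfrac _ (1 : P.asIdeal.inertia Gal(L/K)).2).le⟩ : O) = 1 := by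
          apply Subtype.ext
          change ω / ω = 1
          exact div_self hω0
        rw [h1, map_one]
      map_mul' := by
        intro σ τ
        rw [← map_mul, ← sub_eq_zero, ← map_sub, hres0]
        change v (((σ : Gal(L/K)) * (τ : Gal(L/K))) ω / ω - (σ : Gal(L/K)) ω / ω * ((τ : Gal(L/K)) ω / ω)) < 1
        have h1 := inertia_unit_v P (σ : Gal(L/K)) σ.2 (hfrac (τ : Gal(L/K)) τ.2)
        have h2 : ((σ : Gal(L/K)) * (τ : Gal(L/K))) ω / ω - (σ : Gal(L/K)) ω / ω * ((τ : Gal(L/K)) ω / ω)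
            = (σ : Gal(L/K)) ω / ω * ((σ : Gal(L/K)) ((τ : Gal(L/K)) ω / ω) - (τ : Gal(L/K)) ω / ω) := by
          have h3 : (σ : Gal(L/K)) ω ≠ 0 := (map_ne_zero _).2 hω0
          rw [AlgEquiv.mul_apply, map_div₀]
          field_simp
        rw [h2, map_mul, hfrac (σ : Gal(L/K)) σ.2, one_mul]
        exact h1 }
  set f := θ.toHomUnits with hf
  have hker : ∀ σ : P.asIdeal.inertia Gal(L/K), f σ = 1 → v ((σ : Gal(L/K)) ω / ω - 1) < 1 := by
    intro σ h1
    have h2 : θ σ = 1 := by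
      have h3 := congrArg (fun x : (IsLocalRing.ResidueField O)ˣ => (x : IsLocalRing.ResidueField O)) h1
      exact h3
    have h4 : res (⟨(σ : Gal(L/K)) ω / ω, (hfrac _ σ.2).le⟩ - 1) = 0 := by
      rw [map_sub, map_one, sub_eq_zero]
      exact h2
    exact (hres0 _).1 h4
  obtain ⟨⟨g, hg⟩, hgen⟩ := (inferInstance : IsCyclic f.range).exists_generator
  obtain ⟨ρ, rfl⟩ := hg
  refine ⟨ρ, ρ.2, ?_⟩
  intro σ hσ
  obtain ⟨k, hk⟩ := Subgroup.mem_zpowers_iff.1 (hgen ⟨f ⟨σ, hσ⟩, ⟨_, rfl⟩⟩)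
  have hk' : f ρ ^ k = f ⟨σ, hσ⟩ := congrArg Subtype.val hk
  set τ : P.asIdeal.inertia Gal(L/K) := ⟨σ, hσ⟩ * (ρ ^ k)⁻¹ with hτ
  have hfτ : f τ = 1 := by
    rw [hτ, map_mul, map_inv, map_zpow, hk', mul_inv_cancel]
  have hord0 : orderOf τ ≠ 0 := (orderOf_pos τ).ne'
  obtain ⟨a, m, hm, ham⟩ := Nat.exists_eq_pow_mul_and_not_dvd hord0 p hp.ne_one
  have h1 : (τ ^ p ^ a) ^ m = 1 := by
    rw [← pow_mul, ← ham]
    exact pow_orderOf_eq_one τ
  have hmv : v ((m : ℕ) : L) = 1 := by
    have h2 : ((m : ℕ) : 𝓞 L) ∉ P.asIdeal := by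
      intro h3
      have h4 : Nat.Coprime p m := (Nat.Prime.coprime_iff_not_dvd hp).2 hm
      have h5 := Nat.isCoprime_iff_coprime.2 h4
      obtain ⟨x, y, hxy⟩ := h5
      apply (Ideal.ne_top_iff_one _).1 (Ideal.IsPrime.ne_top P.isPrime)
      have h6 : (1 : 𝓞 L) = (x : 𝓞 L) * (p : 𝓞 L) + (y : 𝓞 L) * (m : 𝓞 L) := by
        have := congrArg (fun z : ℤ => (z : 𝓞 L)) hxy
        push_cast at this
        exact this.symm
      rw [h6]
      exact P.asIdeal.add_mem (P.asIdeal.mul_mem_left _ hpP) (P.asIdeal.mul_mem_left _ h3)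
    have h3 := (P.valuation_eq_one_iff_notMem (K := L)).2 h2
    rw [map_natCast] at h3
    exact h3
  have h2 : ((τ : Gal(L/K)) ^ p ^ a) = 1 := by
    apply wild_order P _ (pow_mem τ.2 _) ω hω _ m hmv
    · have h3 := congrArg Subtype.val h1
      exact h3
    · apply hker (τ ^ p ^ a)
      rw [map_pow, hfτ, one_pow]
  refine ⟨k, a, τ, τ.2, h2, ?_⟩
  rw [hτ]
  change σ = (σ * ((ρ : Gal(L/K)) ^ k)⁻¹) * (ρ : Gal(L/K)) ^ k
  rw [inv_mul_cancel_right]

end Wild

end Pool.Agent.Lib.MP_df4dfc_nt
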