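import Mathlib
import Pool.Agent.Lib.MP_df4dfc_nt.Vec
import Pool.Agent.Lib.MP_df4dfc_nt.Generic4

/-!
# A uniform bound for the number of points of a fibre
-/

set_option autoImplicit false
set_option linter.unusedSectionVars false
set_option linter.style.haveILetI false
set_option linter.unusedVariables false

namespace Pool.Agent.Lib.MP_df4dfc_nt

open MvPolynomial

section FibreBound

variable {ι : Type*} [Fintype ι] [DecidableEq ι] {Ω : Type*} [Field Ω]

/-- every monomial of degree `D` is in the ideal generated by the `G i`, with control of degrees -/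
def Full (G : ι → MvPolynomial ι Ω) (d D : ℕ) : Prop :=
  ∀ ν : ι →₀ ℕ, ν.degree = D → ∃ a : ι → MvPolynomial ι Ω, (∀ i, (a i).totalDegree + d ≤ D) ∧
    monomial ν (1 : Ω) = ∑ i, a i * G i

theorem exists_le_degree (m : ι →₀ ℕ) (D : ℕ) (h : D ≤ m.degree) : ∃ m' : ι →₀ ℕ, m' ≤ m ∧ m'.degree = D := by
  obtain ⟨k, hk⟩ := Nat.exists_eq_add_of_le h
  induction k generalizing m with
  | zero => exact ⟨m, le_rfl, by omega⟩
  | succ k ih =>
    have hne : m ≠ 0 := by
      rintro rfl
      simp at hk
    obtain ⟨i, hi⟩ := Finsupp.ne_iff.1 hne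
    rw [Finsupp.zero_apply] at hi
    have hle : Finsupp.single i 1 ≤ m := by
      rw [Finsupp.single_le_iff]
      omega
    have hsum : Finsupp.single i 1 + (m - Finsupp.single i 1) = m := add_tsub_cancel_of_le hle
    have hdeg : (m - Finsupp.single i 1).degree = D + k := by
      have h1 := congrArg Finsupp.degree hsum
      rw [map_add, Finsupp.degree_single] at h1
      omega
    obtain ⟨m', hm', hd⟩ := ih (m - Finsupp.single i 1) (by omega) hdeg
    exact ⟨m', hm'.trans tsub_le_self, hd⟩

/-- the bound -/
noncomputable def fibC (ι : Type*) [Fintype ι] [DecidableEq ι] (D : ℕ) : ℕ := Fintype.card (Σ k : Fin D, Mon ι k)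

theorem Full.ne_zero {G : ι → MvPolynomial ι Ω} {d D : ℕ} (hD : 1 ≤ D) (h : Full G d D) (x : ι → Ω)
    (hx : x ≠ 0) : pev (RingHom.id Ω) G x ≠ 0 := by
  intro h0
  apply hx
  funext i
  obtain ⟨a, _, ha⟩ := h (Finsupp.single i D) (by rw [Finsupp.degree_single])
  have h1 := congrArg (eval x) ha
  rw [eval_monomial, map_sum, one_mul] at h1
  have h2 : ∑ j, eval x (a j * G j) = 0 := by
    apply Finset.sum_eq_zero
    intro j _
    rw [map_mul]
    have h3 : eval x (G j) = 0 := congrFun h0 j
    rw [h3, mul_zero]
  rw [h2, Finsupp.prod_single_index (h := fun n e => x n ^ e) (pow_zero _)] at h1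
  exact (pow_eq_zero_iff (by omega)).1 h1

theorem fibre_bound_eq {G : ι → MvPolynomial ι Ω} {d D : ℕ} (hd : 1 ≤ d) (h : Full G d D) (y : ι → Ω)
    (s : ℕ) (x : Fin s → ι → Ω) (hinj : Function.Injective x) (hx : ∀ l, pev (RingHom.id Ω) G (x l) = y) :
    s ≤ fibC ι D := by
  classical
  set ev : MvPolynomial ι Ω →ₐ[Ω] (Fin s → Ω) := AlgHom.pi (fun l : Fin s => (aeval (x l) : MvPolynomial ι Ω →ₐ[Ω] Ω)) with hev
  have hevl : ∀ f l, ev f l = eval (x l) f := fun f l => by
    change aeval (x l) f = eval (x l) f
    rw [aeval_def, Algebra.algebraMap_self]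
    rfl
  set V : Submodule Ω (Fin s → Ω) := Submodule.span Ω
    (Set.range fun p : (Σ k : Fin D, Mon ι k) => ev (monomial p.2.1 1)) with hV
  have hG : ∀ i l, eval (x l) (G i) = y i := fun i l => congrFun (hx l) i
  have key : ∀ n : ℕ, ∀ f : MvPolynomial ι Ω, f.totalDegree < n → ev f ∈ V := by
    intro n
    induction n with
    | zero => intro f hf; omega
    | succ n ih =>
      intro f hf
      have hmon : ∀ m ∈ f.support, ev (monomial m (1 : Ω)) ∈ V := by
        intro m hm
        have hmdeg : m.degree ≤ f.totalDegree := by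
          have h1 := le_totalDegree hm
          rw [Finsupp.degree_eq_sum]
          rw [Finsupp.sum_fintype _ _ (fun _ => rfl)] at h1
          exact h1
        by_cases hlt : m.degree < D
        · apply Submodule.subset_span
          exact ⟨⟨⟨m.degree, hlt⟩, ⟨m, rfl⟩⟩, rfl⟩
        · push Not at hlt
          obtain ⟨m', hm', hdeg'⟩ := exists_le_degree m D hlt
          obtain ⟨a, ha1, ha2⟩ := h m' hdeg'
          have hsum : (m - m') + m' = m := tsub_add_cancel_of_le hm'
          have hdeg2 : (m - m').degree + D = m.degree := by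
            have h1 := congrArg Finsupp.degree hsum
            rw [map_add, hdeg'] at h1
            exact h1
          have h2 : monomial m (1 : Ω) = ∑ i, (monomial (m - m') 1 * a i) * G i := by
            have h3 : monomial m (1 : Ω) = monomial (m - m') 1 * monomial m' 1 := by
              rw [monomial_mul, hsum, one_mul]
            rw [h3, ha2, Finset.mul_sum]
            apply Finset.sum_congr rfl
            intro i _
            ring
          have h3 : ev (monomial m (1 : Ω)) = ∑ i, y i • ev (monomial (m - m') 1 * a i) := by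
            rw [h2, map_sum]
            apply Finset.sum_congr rfl
            intro i _
            funext l
            rw [map_mul, Pi.mul_apply, Pi.smul_apply, smul_eq_mul, hevl (G i), hG, mul_comm]
          rw [h3]
          apply Submodule.sum_mem
          intro i _
          apply Submodule.smul_mem
          apply ih
          have h4 : (monomial (m - m') (1 : Ω) * a i).totalDegree ≤ (m - m').degree + (a i).totalDegree := by
            refine (totalDegree_mul _ _).trans ?_
            apply Nat.add_le_add_right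
            rw [totalDegree_monomial _ one_ne_zero, Finsupp.degree_eq_sum, Finsupp.sum_fintype _ _ (fun _ => rfl)]
          have h5 := ha1 i
          omega
      have hfs : ev f = ev (∑ m ∈ f.support, monomial m (coeff m f)) := by
        conv_lhs => rw [f.as_sum]
      rw [hfs, map_sum]
      apply Submodule.sum_mem
      intro m hm
      have h1 : monomial m (coeff m f) = coeff m f • monomial m (1 : Ω) := by
        rw [smul_monomial, smul_eq_mul, mul_one]
      rw [h1, map_smul]
      exact Submodule.smul_mem _ _ (hmon m hm)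
  have htop : V = ⊤ := by
    rw [eq_top_iff]
    intro w _
    have hsep : ∀ l : Fin s, ∃ f : MvPolynomial ι Ω, eval (x l) f = 1 ∧ ∀ l', l' ≠ l → eval (x l') f = 0 := by
      intro l
      have hk : ∀ l' : Fin s, ∃ g : MvPolynomial ι Ω, eval (x l) g ≠ 0 ∧ (l' ≠ l → eval (x l') g = 0) := by
        intro l'
        by_cases h1 : l' = l
        · exact ⟨1, by rw [map_one]; exact one_ne_zero, fun h => absurd h1 h⟩
        · have h2 : x l ≠ x l' := fun h3 => h1 (hinj h3).symm
          obtain ⟨k, hk⟩ := Function.ne_iff.1 h2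
          refine ⟨X k - C (x l' k), ?_, ?_⟩
          · rw [map_sub, eval_X, eval_C]
            exact sub_ne_zero.2 hk
          · intro _
            rw [map_sub, eval_X, eval_C, sub_self]
      choose g hg1 hg2 using hk
      have h0 : eval (x l) (∏ l', g l') ≠ 0 := by
        rw [map_prod]
        exact Finset.prod_ne_zero_iff.2 fun l' _ => hg1 l'
      refine ⟨C ((eval (x l) (∏ l', g l'))⁻¹) * ∏ l', g l', ?_, ?_⟩
      · rw [map_mul, eval_C, inv_mul_cancel₀ h0]
      · intro l' hl'
        have h5 : eval (x l') (∏ l'', g l'') = 0 := by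
          rw [map_prod]
          exact Finset.prod_eq_zero (Finset.mem_univ l') (hg2 l' hl')
        rw [map_mul, h5, mul_zero]
    choose f hf1 hf2 using hsep
    have hw : w = ev (∑ l, C (w l) * f l) := by
      funext l
      rw [hevl, map_sum, Finset.sum_eq_single l]
      · rw [map_mul, eval_C, hf1, mul_one]
      · intro l' _ hl'
        rw [map_mul, hf2 l' l hl'.symm, mul_zero]
      · intro h1
        exact absurd (Finset.mem_univ _) h1
    rw [hw]
    exact key _ _ (Nat.lt_succ_self _)
  have h1 : Module.finrank Ω V ≤ fibC ι D := by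
    rw [hV]
    exact finrank_range_le_card _
  rw [htop, finrank_top, Module.finrank_fin_fun] at h1
  exact h1

/-- **the bound for pairwise non-proportional vectors** -/
theorem fibre_bound [IsAlgClosed Ω] {G : ι → MvPolynomial ι Ω} {d D : ℕ} (hd : 1 ≤ d) (hD : 1 ≤ D)
    (hG : ∀ i, (G i).IsHomogeneous d) (h : Full G d D) (y : ι → Ω) (hy : y ≠ 0)
    (s : ℕ) (x : Fin s → ι → Ω) (hx0 : ∀ l, x l ≠ 0) (hpar : ∀ l, Par (pev (RingHom.id Ω) G (x l)) y)
    (hdist : ∀ l l', l ≠ l' → ¬ Par (x l) (x l')) : s ≤ fibC ι D := by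
  have hscale : ∀ l, ∃ c : Ω, c ≠ 0 ∧ pev (RingHom.id Ω) G (c • x l) = y := by
    intro l
    obtain ⟨e, he⟩ := (hpar l).exists_smul hy
    have he0 : e ≠ 0 := by
      rintro rfl
      rw [zero_smul] at he
      exact h.ne_zero hD (x l) (hx0 l) he
    obtain ⟨c, hc⟩ := IsAlgClosed.exists_pow_nat_eq (e⁻¹) (n := d) (by omega)
    refine ⟨c, ?_, ?_⟩
    · rintro rfl
      rw [zero_pow (by omega)] at hc
      exact (inv_ne_zero he0) hc.symm
    · rw [pev_smul hG, hc, he, smul_smul, inv_mul_cancel₀ he0, one_smul]
  choose c hc0 hc using hscale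
  apply fibre_bound_eq hd h y s (fun l => c l • x l) _ hc
  intro l l' hll
  by_contra hne
  apply hdist l l' hne
  have h1 : c l • x l = c l' • x l' := hll
  have h2 : x l = ((c l)⁻¹ * c l') • x l' := by
    rw [mul_smul, ← h1, smul_smul, inv_mul_cancel₀ (hc0 l), one_smul]
  exact Par.of_eq_smul h2

/-- the condition from the Macaulay type determinant -/
theorem full_of_mac {G : ι → MvPolynomial ι Ω} {d D : ℕ} (hD : Fintype.card ι * (d - 1) + 1 ≤ D)
    (hG : ∀ i, (G i).IsHomogeneous d) (hdet : (mac hD (fun i m => coeff m.1 (G i))).det ≠ 0) : Full G d D := by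
  classical
  intro ν hν
  set M := mac hD (fun i m => coeff m.1 (G i)) with hM
  set ν' : Mon ι D := ⟨ν, hν⟩ with hν'
  have hcol : ∀ μ : Mon ι D, colPoly hD (fun i m => coeff m.1 (G i)) μ = monomial (shiftExp hD μ) 1 * G (pick hD μ) := by
    intro μ
    unfold colPoly
    rw [frm1_eq (hG _), mul_comm]
  have hexp : ∀ μ : Mon ι D, colPoly hD (fun i m => coeff m.1 (G i)) μ = ∑ κ : Mon ι D, C (M κ μ) * monomial κ.1 1 := by
    intro μ
    conv_lhs => rw [← frm1_eq (colPoly_homog hD (fun i m => coeff m.1 (G i)) μ)]
    unfold frm1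
    apply Finset.sum_congr rfl
    intro κ _
    rw [C_mul_monomial, mul_one]
    rfl
  have hinv : M * M⁻¹ = 1 := Matrix.mul_nonsing_inv M (isUnit_iff_ne_zero.2 hdet)
  have hsum : ∑ μ : Mon ι D, C (M⁻¹ μ ν') * colPoly hD (fun i m => coeff m.1 (G i)) μ = monomial ν 1 := by
    calc ∑ μ : Mon ι D, C (M⁻¹ μ ν') * colPoly hD (fun i m => coeff m.1 (G i)) μ
        = ∑ μ : Mon ι D, ∑ κ : Mon ι D, C (M κ μ * M⁻¹ μ ν') * monomial κ.1 1 := by
          apply Finset.sum_congr rfl
          intro μ _
          rw [hexp, Finset.mul_sum]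
          apply Finset.sum_congr rfl
          intro κ _
          rw [← mul_assoc, ← C_mul, mul_comm (M⁻¹ μ ν')]
      _ = ∑ κ : Mon ι D, ∑ μ : Mon ι D, C (M κ μ * M⁻¹ μ ν') * monomial κ.1 1 := Finset.sum_comm
      _ = ∑ κ : Mon ι D, C ((M * M⁻¹) κ ν') * monomial κ.1 1 := by
          apply Finset.sum_congr rfl
          intro κ _
          rw [← Finset.sum_mul, Matrix.mul_apply, map_sum]
      _ = monomial ν 1 := by
          rw [hinv, Finset.sum_eq_single ν']
          · rw [Matrix.one_apply_eq, C_1, one_mul]
          · intro κ _ hκ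
            rw [Matrix.one_apply_ne hκ, C_0, zero_mul]
          · intro h1
            exact absurd (Finset.mem_univ _) h1
  refine ⟨fun i => ∑ μ : Mon ι D, if pick hD μ = i then C (M⁻¹ μ ν') * monomial (shiftExp hD μ) 1 else 0, ?_, ?_⟩
  · intro i
    have h1 : (∑ μ : Mon ι D, if pick hD μ = i then C (M⁻¹ μ ν') * monomial (shiftExp hD μ) (1 : Ω) else 0).totalDegree ≤ D - d := by
      apply totalDegree_finsetSum_le
      intro μ _
      split_ifs with hμ
      · rw [C_mul_monomial, mul_one]
        refine (totalDegree_monomial_le _ _).trans ?_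
        have h2 := congrArg Finsupp.degree (single_add_shift hD μ)
        rw [map_add, Finsupp.degree_single, μ.2] at h2
        rw [Finsupp.degree_eq_sum] at h2
        rw [Finsupp.sum_fintype _ _ (fun _ => rfl)]
        simp only [id]
        omega
      · rw [totalDegree_zero]
        exact Nat.zero_le _
    have h3 : d ≤ D := by
      have h4 := pick_spec hD ν'
      have h5 : ν (pick hD ν') ≤ ν.degree := by
        rw [Finsupp.degree_eq_sum]
        exact Finset.single_le_sum (f := fun i => ν i) (fun _ _ => Nat.zero_le _) (Finset.mem_univ _)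
      rw [hν] at h5
      exact h4.trans h5
    exact (Nat.add_le_add_right h1 d).trans (by omega)
  · rw [← hsum]
    simp only [Finset.sum_mul]
    rw [Finset.sum_comm]
    apply Finset.sum_congr rfl
    intro μ _
    rw [Finset.sum_eq_single (pick hD μ)]
    · rw [if_pos rfl, hcol, mul_assoc]
    · intro i _ hi
      rw [if_neg hi.symm, zero_mul]
    · intro h1
      exact absurd (Finset.mem_univ _) h1

end FibreBound

end Pool.Agent.Lib.MP_df4dfc_nt
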