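import Mathlib
import Pool.Agent.Lib.MP_df4dfc_nt.Ti1
import Pool.Agent.Lib.MP_df4dfc_nt.Ti2

/-!
# Backward orbits fixed by an inertia group
-/

set_option autoImplicit false
set_option linter.unusedSectionVars false
set_option linter.style.haveILetI false
set_option linter.unusedVariables false

namespace Pool.Agent.Lib.MP_df4dfc_nt

open NumberField IsDedekindDomain MvPolynomial
open scoped Pointwise

universe u

variable {K : Type u} [Field K] [NumberField K] {ι : Type*} [Fintype ι]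

/-- the fibres of the map have at most `C` points -/
def FibBd (F : ι → MvPolynomial ι (𝓞 K)) (C : ℕ) : Prop :=
  ∀ (y : ι → AlgebraicClosure K), y ≠ 0 → ∀ (s : ℕ) (x : Fin s → ι → AlgebraicClosure K), (∀ l, x l ≠ 0) →
    (∀ l, Par (pev (algebraMap (𝓞 K) (AlgebraicClosure K)) F (x l)) y) →
    (∀ l l', l ≠ l' → ¬ Par (x l) (x l')) → s ≤ C

section Orb

variable {L : IntermediateField K (AlgebraicClosure K)} [NumberField L] [IsGalois K L]

theorem smul_pev (F : ι → MvPolynomial ι (𝓞 K)) (σ : Gal(L/K)) (x : ι → 𝓞 L) :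
    (fun i => σ • (pev (algebraMap (𝓞 K) (𝓞 L)) F x i)) = pev (algebraMap (𝓞 K) (𝓞 L)) F (fun i => σ • x i) := by
  have h1 := pev_map (algebraMap (𝓞 K) (𝓞 L)) (MulSemiringAction.toRingHom Gal(L/K) (𝓞 L) σ) F x
  have h2 : (MulSemiringAction.toRingHom Gal(L/K) (𝓞 L) σ).comp (algebraMap (𝓞 K) (𝓞 L)) = algebraMap (𝓞 K) (𝓞 L) := by
    ext r
    exact congrArg _ (smul_algebraMap σ r)
  rw [h2] at h1
  exact h1

theorem smul_pev_iter (F : ι → MvPolynomial ι (𝓞 K)) (σ : Gal(L/K)) (k : ℕ) (x : ι → 𝓞 L) :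
    (fun i => σ • ((pev (algebraMap (𝓞 K) (𝓞 L)) F)^[k] x i)) = (pev (algebraMap (𝓞 K) (𝓞 L)) F)^[k] (fun i => σ • x i) := by
  induction k generalizing x with
  | zero => rfl
  | succ k ih => rw [Function.iterate_succ_apply, Function.iterate_succ_apply, ih, smul_pev]

theorem par_pow_smul {σ : Gal(L/K)} {y : ι → 𝓞 L} (hy0 : y ≠ 0) (h : Par (fun i => σ • y i) y) (k : ℕ) :
    Par (fun i => σ ^ k • y i) y := by
  induction k with
  | zero => simpa using Par.refl y
  | succ k ih =>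
    have h1 : (fun i => σ ^ (k + 1) • y i) = fun i => σ • (σ ^ k • y i) := by
      funext i
      rw [pow_succ', mul_smul]
    rw [h1]
    exact (sigma_par σ ih).trans h (sigma_ne_zero σ hy0)

theorem par_inv_smul {σ : Gal(L/K)} {y : ι → 𝓞 L} (h : Par (fun i => σ • y i) y) :
    Par (fun i => σ⁻¹ • y i) y := by
  have h1 := sigma_par σ⁻¹ h
  have h2 : (fun i => σ⁻¹ • (σ • y i)) = y := by
    funext i
    rw [inv_smul_smul]
  rw [h2] at h1
  exact h1.symm

theorem par_zpow_smul {σ : Gal(L/K)} {y : ι → 𝓞 L} (hy0 : y ≠ 0) (h : Par (fun i => σ • y i) y) (k : ℤ) :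
    Par (fun i => σ ^ k • y i) y := by
  rcases k with k | k
  · rw [Int.ofNat_eq_natCast]
    simp only [zpow_natCast]
    exact par_pow_smul hy0 h k
  · simp only [zpow_negSucc]
    exact par_inv_smul (par_pow_smul hy0 h _)

/-- an element of `p`-power order fixing `Φ(x)` fixes `x` if the fibres have fewer than `p` points -/
theorem wild_fix (F : ι → MvPolynomial ι (𝓞 K)) (hNZ : NZ (algebraMap (𝓞 K) (AlgebraicClosure K)) F)
    (C : ℕ) (hC : FibBd F C) (p : ℕ) (hp : p.Prime) (hpC : C < p) (τ : Gal(L/K)) (a : ℕ) (hτ : τ ^ (p ^ a) = 1)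
    (x : ι → 𝓞 L) (hx : x ≠ 0)
    (hy : Par (fun i => τ • (pev (algebraMap (𝓞 K) (𝓞 L)) F x i)) (pev (algebraMap (𝓞 K) (𝓞 L)) F x)) :
    Par (fun i => τ • x i) x := by
  classical
  by_contra hne
  set jL := algebraMap (𝓞 L) (AlgebraicClosure K) with hjL
  set iL := algebraMap (𝓞 K) (𝓞 L) with hiL
  have hcomp : jL.comp iL = algebraMap (𝓞 K) (AlgebraicClosure K) := by
    ext r
    rfl
  have hjLinj : Function.Injective jL := FaithfulSMul.algebraMap_injective (𝓞 L) (AlgebraicClosure K)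
  have hNZL : NZ iL F := by
    apply NZ.of_injective (ψ := jL) _ hjLinj
    rw [hcomp]
    exact hNZ
  have hpow0 : ∃ k, 0 < k ∧ Par (fun i => τ ^ k • x i) x :=
    ⟨p ^ a, Nat.pow_pos hp.pos, by rw [hτ]; simpa using Par.refl x⟩
  set k := Nat.find hpow0 with hk
  obtain ⟨hkpos, hkpar⟩ := Nat.find_spec hpow0
  rw [← hk] at hkpos hkpar
  have hmin : ∀ l, 0 < l → l < k → ¬ Par (fun i => τ ^ l • x i) x := by
    intro l hl0 hl h
    exact Nat.find_min hpow0 hl ⟨hl0, h⟩
  -- `k` divides `p ^ a`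
  have hdvd : k ∣ p ^ a := by
    rw [Nat.dvd_iff_mod_eq_zero]
    by_contra hr
    have hrpos : 0 < p ^ a % k := Nat.pos_of_ne_zero hr
    apply hmin _ hrpos (Nat.mod_lt _ hkpos)
    have h1 : Par (fun i => (τ ^ k) ^ (p ^ a / k) • x i) x := par_pow_smul hx hkpar _
    have h2 : Par (fun i => τ ^ (p ^ a) • x i) x := by
      rw [hτ]
      simpa using Par.refl x
    have h3 : (fun i => τ ^ (p ^ a) • x i) = fun i => τ ^ (p ^ a % k) • ((τ ^ k) ^ (p ^ a / k) • x i) := by
      funext i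
      rw [← mul_smul, ← pow_mul, ← pow_add, Nat.mod_add_div]
    rw [h3] at h2
    have h4 := sigma_par (τ ^ (p ^ a % k)) h1
    exact h4.symm.trans h2 (sigma_ne_zero _ (sigma_ne_zero _ hx))
  have hk1 : k ≠ 1 := by
    intro h1
    rw [h1, pow_one] at hkpar
    exact hne hkpar
  have hpk : p ≤ k := by
    obtain ⟨b, _, hb⟩ := (Nat.dvd_prime_pow hp).1 hdvd
    rw [hb]
    have hb0 : b ≠ 0 := by
      rintro rfl
      rw [pow_zero] at hb
      exact hk1 hb
    exact Nat.le_self_pow hb0 p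
  -- the orbit
  set y := pev iL F x with hyd
  have hy0 : y ≠ 0 := hNZL x hx
  have hcard := hC (fun i => jL (y i)) (by
    intro h0
    apply hy0
    funext i
    apply hjLinj
    rw [Pi.zero_apply, map_zero]
    exact congrFun h0 i) p (fun l i => jL (τ ^ (l : ℕ) • x i)) (by
    intro l h0
    apply sigma_ne_zero (τ ^ (l : ℕ)) hx
    funext i
    apply hjLinj
    rw [Pi.zero_apply, map_zero]
    exact congrFun h0 i) (by
    intro l
    have h1 : pev (algebraMap (𝓞 K) (AlgebraicClosure K)) F (fun i => jL (τ ^ (l : ℕ) • x i))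
        = fun i => jL (τ ^ (l : ℕ) • y i) := by
      rw [← hcomp, ← pev_map, ← smul_pev]
    rw [h1]
    exact (par_pow_smul hy0 hy l).map jL) (by
    intro l l' hll hpar
    have h1 : Par (fun i => τ ^ (l : ℕ) • x i) (fun i => τ ^ (l' : ℕ) • x i) := Par.of_map jL hjLinj hpar
    have key : ∀ b c : ℕ, b < c → c < p → ¬ Par (fun i => τ ^ b • x i) (fun i => τ ^ c • x i) := by
      intro b c hbc hcp h2
      apply hmin (c - b) (by omega) (by omega)
      have h3 := sigma_par (τ ^ b)⁻¹ h2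
      have h4 : (fun i => (τ ^ b)⁻¹ • (τ ^ b • x i)) = x := by
        funext i
        rw [inv_smul_smul]
      have h5 : (fun i => (τ ^ b)⁻¹ • (τ ^ c • x i)) = fun i => τ ^ (c - b) • x i := by
        funext i
        rw [← mul_smul]
        congr 1
        rw [inv_mul_eq_iff_eq_mul, ← pow_add]
        congr 1
        omega
      rw [h4, h5] at h3
      exact h3.symm
    rcases lt_trichotomy (l : ℕ) (l' : ℕ) with h2 | h2 | h2
    · exact key _ _ h2 l'.2 h1
    · exact hll (Fin.ext h2)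
    · exact key _ _ h2 l.2 h1.symm)
  omega

end Orb

/-- **Backward orbits fixed by inertia.** -/
theorem inertia_fixed (F : ι → MvPolynomial ι (𝓞 K)) {d : ℕ} (hd : 1 ≤ d) (hF : ∀ i, (F i).IsHomogeneous d)
    (hNZ : NZ (algebraMap (𝓞 K) (AlgebraicClosure K)) F) (C : ℕ) (hC : FibBd F C)
    (g : ι → 𝓞 K) (hg0 : g ≠ 0)
    (hfix : ∀ (N0 : ℕ) (σ : Gal(AlgebraicClosure K/K)), ∃ y : ι → AlgebraicClosure K, y ≠ 0 ∧
      Par ((pev (algebraMap (𝓞 K) (AlgebraicClosure K)) F)^[N0] y)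
        (fun i => algebraMap (𝓞 K) (AlgebraicClosure K) (g i)) ∧ Par (fun i => σ (y i)) y)
    (𝔭 : HeightOneSpectrum (𝓞 K)) (p : ℕ) (hp : p.Prime) (hp𝔭 : (p : 𝓞 K) ∈ 𝔭.asIdeal) (hpC : C < p)
    (n : ℕ) (S : Set (AlgebraicClosure K)) (hS : S.Finite) :
    ∃ (L : IntermediateField K (AlgebraicClosure K)) (_ : NumberField L) (_ : IsGalois K L)
      (P : HeightOneSpectrum (𝓞 L)) (z : ι → 𝓞 L), S ⊆ (L : Set (AlgebraicClosure K)) ∧
      bel K L P = 𝔭 ∧ z ≠ 0 ∧
      Par ((pev (algebraMap (𝓞 K) (𝓞 L)) F)^[n] z) (fun i => algebraMap (𝓞 K) (𝓞 L) (g i)) ∧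
      ∀ σ : Gal(L/K), σ ∈ P.asIdeal.inertia Gal(L/K) → Par (fun i => σ • z i) z := by
  classical
  set j := algebraMap (𝓞 K) (AlgebraicClosure K) with hj
  obtain ⟨L, hNF, hGal, hSL, hL⟩ := exists_field F hd hF hNZ g hg0 n S hS
  set jL := algebraMap (𝓞 L) (AlgebraicClosure K) with hjL
  set iL := algebraMap (𝓞 K) (𝓞 L) with hiL
  have hcomp : jL.comp iL = j := by
    ext r
    rfl
  have hjLinj : Function.Injective jL := FaithfulSMul.algebraMap_injective (𝓞 L) (AlgebraicClosure K)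
  have hiLinj : Function.Injective iL := by
    intro a b hab
    have : j a = j b := by
      rw [← hcomp, RingHom.comp_apply, RingHom.comp_apply, hab]
    exact FaithfulSMul.algebraMap_injective (𝓞 K) (AlgebraicClosure K) this
  have hNZL : NZ iL F := by
    apply NZ.of_injective (ψ := jL) _ hjLinj
    rw [hcomp]
    exact hNZ
  obtain ⟨P, hP⟩ := exists_of_nonempty K L 𝔭
  rw [mem_above] at hP
  have hpP : ((p : ℕ) : 𝓞 L) ∈ P.asIdeal := by
    have h1 : (p : 𝓞 K) ∈ (bel K L P).asIdeal := by rw [hP]; exact hp𝔭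
    have h2 : algebraMap (𝓞 K) (𝓞 L) ((p : ℕ) : 𝓞 K) ∈ P.asIdeal := h1
    rwa [map_natCast] at h2
  obtain ⟨ρL, hρ1, hρ2⟩ := exists_tame_gen (K := K) P p hp hpP
  obtain ⟨ρ, hρL⟩ := AlgEquiv.restrictNormalHom_surjective (E := (AlgebraicClosure K)) (F := K) (K₁ := L) ρL
  obtain ⟨y, hy0, hypar, hyfix⟩ := hfix n ρ
  obtain ⟨x, hx0, hxg, hyx⟩ := hL y hy0 hypar
  refine ⟨L, hNF, hGal, P, x, hSL, hP, hx0, hxg, ?_⟩
  -- `ρ` fixes `x`
  have hfixΩ : Par (fun i => ρ (jL (x i))) (fun i => jL (x i)) := by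
    have h3 : Par (fun i => ρ (y i)) (fun i => ρ (jL (x i))) := hyx.map (ρ : (AlgebraicClosure K) →+* (AlgebraicClosure K))
    have h4 : (fun i => ρ (y i)) ≠ 0 := by
      intro h0
      apply hy0
      funext i
      have := congrFun h0 i
      exact (map_eq_zero ρ).1 this
    exact (h3.symm.trans hyfix h4).trans hyx hy0
  have hfixL : Par (fun i => ρL • x i) x := by
    apply Par.of_map jL hjLinj
    have h2 : (fun i => jL (ρL • x i)) = fun i => ρ (jL (x i)) := by
      funext i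
      rw [← hρL]
      exact restrict_compat L ρ (x i)
    rw [h2]
    exact hfixΩ
  -- elements of `p`-power order
  have hwild : ∀ (τ : Gal(L/K)) (a : ℕ), τ ^ (p ^ a) = 1 → Par (fun i => τ • x i) x := by
    intro τ a hτ
    have hgL0 : (fun i => iL (g i)) ≠ 0 := by
      intro h0
      apply hg0
      funext i
      apply hiLinj
      rw [Pi.zero_apply, map_zero]
      exact congrFun h0 i
    have hdown : ∀ k, k ≤ n → Par (fun i => τ • ((pev iL F)^[n - k] x i)) ((pev iL F)^[n - k] x) := by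
      intro k
      induction k with
      | zero =>
        intro _
        rw [Nat.sub_zero]
        have h1 := sigma_par τ hxg
        have h2 : (fun i => τ • iL (g i)) = fun i => iL (g i) := by
          funext i
          exact smul_algebraMap τ (g i)
        rw [h2] at h1
        exact h1.trans hxg.symm hgL0
      | succ k ih =>
        intro hk
        have h1 := ih (by omega)
        have h2 : n - k = (n - (k + 1)) + 1 := by omega
        rw [h2, Function.iterate_succ_apply'] at h1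
        exact wild_fix F hNZ C hC p hp hpC τ a hτ _ (hNZL.iter _ hx0) h1
    have := hdown n le_rfl
    rw [Nat.sub_self] at this
    exact this
  intro σ hσ
  obtain ⟨k, a, τ, hτ1, hτ2, rfl⟩ := hρ2 σ hσ
  have h1 := par_zpow_smul hx0 hfixL k
  have h2 := sigma_par τ h1
  have h3 : (fun i => (τ * ρL ^ k) • x i) = fun i => τ • (ρL ^ k • x i) := by
    funext i
    rw [mul_smul]
  rw [h3]
  exact h2.trans (hwild τ a hτ2) (sigma_ne_zero τ hx0)

end Pool.Agent.Lib.MP_df4dfc_nt
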