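import Mathlib
import Pool.Agent.Lib.MP_df4dfc_nt.Vec
import Pool.Agent.Lib.MP_df4dfc_nt.Cc2

/-!
# Twisted good reduction: a superattracting cycle of vertices
-/

set_option autoImplicit false
set_option linter.unusedSectionVars false
set_option linter.style.haveILetI false
set_option linter.unusedVariables false

namespace Pool.Agent.Lib.MP_df4dfc_nt

open MvPolynomial

section TwB

variable {R : Type*} [CommRing R]

/-- the model forms `(π X_N ^ d, X_0 ^ d, …, X_{N-1} ^ d)` -/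
noncomputable def twB (π : R) (d N : ℕ) : Fin (N + 1) → MvPolynomial (Fin (N + 1)) R :=
  fun k => C (if k = 0 then π else 1) * X (k - 1) ^ d

theorem twB_homog (π : R) (d N : ℕ) (k : Fin (N + 1)) : (twB π d N k).IsHomogeneous d := by
  unfold twB
  exact (isHomogeneous_X_pow _ _).C_mul _

theorem pev_twB {T : Type*} [CommRing T] (φ : R →+* T) (π : R) (d N : ℕ) (x : Fin (N + 1) → T) (k : Fin (N + 1)) :
    pev φ (twB π d N) x k = (if k = 0 then φ π else 1) * x (k - 1) ^ d := by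
  unfold pev twB
  rw [eval₂_mul, eval₂_C, eval₂_pow, eval₂_X]
  split_ifs <;> simp

end TwB

section Scale

variable {R L Γ : Type*} [CommRing R] [Field L] [LinearOrderedCommGroupWithZero Γ] (v : Valuation L Γ)
variable {N : ℕ}

/-- the weights -/
def wgt (d : ℕ) {N : ℕ} (k : Fin (N + 1)) : ℕ := d ^ (k : ℕ)

/-- twisted coordinates -/
def tw (ϖ : L) (d : ℕ) (x : Fin (N + 1) → L) : Fin (N + 1) → L := fun k => ϖ ^ wgt d k * x k

/-- original coordinates from twisted ones -/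
def utw (ϖ : L) (d : ℕ) (u : Fin (N + 1) → L) : Fin (N + 1) → L := fun k => (ϖ ^ wgt d k)⁻¹ * u k

theorem utw_tw {ϖ : L} (hϖ : ϖ ≠ 0) (d : ℕ) (x : Fin (N + 1) → L) : utw ϖ d (tw ϖ d x) = x := by
  funext k
  unfold utw tw
  rw [← mul_assoc, inv_mul_cancel₀ (pow_ne_zero _ hϖ), one_mul]

theorem tw_smul (ϖ : L) (d : ℕ) (c : L) (x : Fin (N + 1) → L) : tw ϖ d (c • x) = c • tw ϖ d x := by
  funext k
  unfold tw
  simp only [Pi.smul_apply, smul_eq_mul]
  ring

theorem utw_smul (ϖ : L) (d : ℕ) (c : L) (x : Fin (N + 1) → L) : utw ϖ d (c • x) = c • utw ϖ d x := by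
  funext k
  unfold utw
  simp only [Pi.smul_apply, smul_eq_mul]
  ring

/-- the scaled polynomial -/
noncomputable def scp (φ : R →+* L) (ϖ : L) (d a : ℕ) (p : MvPolynomial (Fin (N + 1)) R) :
    MvPolynomial (Fin (N + 1)) L :=
  ∑ m ∈ p.support, monomial m (ϖ ^ a * φ (coeff m p) * (∏ k, (ϖ ^ wgt d k) ^ m k)⁻¹)

theorem coeff_scp (φ : R →+* L) (ϖ : L) (d a : ℕ) (p : MvPolynomial (Fin (N + 1)) R) (m : Fin (N + 1) →₀ ℕ) :
    coeff m (scp φ ϖ d a p) = ϖ ^ a * φ (coeff m p) * (∏ k, (ϖ ^ wgt d k) ^ m k)⁻¹ := by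
  classical
  unfold scp
  rw [coeff_sum]
  by_cases hm : m ∈ p.support
  · rw [Finset.sum_eq_single m]
    · rw [coeff_monomial, if_pos rfl]
    · intro b _ hb
      rw [coeff_monomial, if_neg hb]
    · intro h
      exact absurd hm h
  · rw [Finset.sum_eq_zero]
    · rw [notMem_support_iff.1 hm, map_zero, mul_zero, zero_mul]
    · intro b hb
      rw [coeff_monomial, if_neg]
      rintro rfl
      exact hm hb

theorem eval_scp (φ : R →+* L) (ϖ : L) (d a : ℕ) (p : MvPolynomial (Fin (N + 1)) R) (u : Fin (N + 1) → L) :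
    eval₂ (RingHom.id L) u (scp φ ϖ d a p) = ϖ ^ a * eval₂ φ (utw ϖ d u) p := by
  rw [eval₂_eq' φ, Finset.mul_sum]
  unfold scp
  rw [eval₂_sum]
  apply Finset.sum_congr rfl
  intro m _
  rw [eval₂_monomial, RingHom.id_apply, Finsupp.prod_fintype _ _ (fun i => pow_zero _)]
  unfold utw
  simp only [mul_pow]
  rw [Finset.prod_mul_distrib]
  have h1 : ∏ k, ((ϖ ^ wgt d k)⁻¹) ^ m k = (∏ k, (ϖ ^ wgt d k) ^ m k)⁻¹ := by
    rw [← Finset.prod_inv_distrib]
    apply Finset.prod_congr rfl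
    intro k _
    rw [inv_pow]
  rw [h1]
  ring

/-- coefficients of the scaled error polynomial -/
theorem v_scp (φ : R →+* L) (ϖ : L) (hϖ0 : v ϖ ≠ 0) (hϖ1 : v ϖ < 1) (d E a : ℕ) (hE : E + 1 = d ^ (N + 1)) (ha : 1 ≤ a)
    (p : MvPolynomial (Fin (N + 1)) R) (hp : p.IsHomogeneous d) (hd : 1 ≤ d)
    (hc : ∀ m, v (φ (coeff m p)) ≤ v ϖ ^ (2 * E)) (m : Fin (N + 1) →₀ ℕ) :
    v (coeff m (scp φ ϖ d a p)) ≤ v ϖ ^ E := by
  rw [coeff_scp]
  by_cases h0 : coeff m p = 0
  · rw [h0, map_zero, mul_zero, zero_mul, map_zero]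
    exact zero_le
  · have hdeg : m.degree = d := by
      have h1 := hp h0
      rw [Finsupp.weight_apply, Finsupp.sum_fintype _ _ (fun _ => by simp)] at h1
      simp only [Pi.one_apply, smul_eq_mul, mul_one] at h1
      rw [Finsupp.degree_eq_sum]
      exact h1
    have h2 : ∏ k, (ϖ ^ wgt d k) ^ m k = ϖ ^ (∑ k, wgt d k * m k) := by
      rw [← Finset.prod_pow_eq_pow_sum]
      apply Finset.prod_congr rfl
      intro k _
      rw [← pow_mul]
    have h3 : ∑ k, wgt d k * m k ≤ E + 1 := by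
      calc ∑ k, wgt d k * m k ≤ ∑ k, d ^ N * m k := by
            apply Finset.sum_le_sum
            intro k _
            apply Nat.mul_le_mul_right
            unfold wgt
            exact Nat.pow_le_pow_right hd (by omega)
        _ = d ^ N * m.degree := by rw [Finsupp.degree_eq_sum, Finset.mul_sum]
        _ = E + 1 := by rw [hdeg, hE, pow_succ]
    rw [h2, map_mul, map_mul, map_inv₀, map_pow, map_pow]
    have hpos : 0 < v ϖ ^ (∑ k, wgt d k * m k) := zero_lt_iff.2 (pow_ne_zero _ hϖ0)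
    rw [mul_inv_le_iff₀ hpos]
    calc v ϖ ^ a * v (φ (coeff m p)) ≤ v ϖ ^ a * v ϖ ^ (2 * E) := mul_le_mul_right (hc m) _
      _ = v ϖ ^ (a + 2 * E) := (pow_add _ _ _).symm
      _ ≤ v ϖ ^ (E + ∑ k, wgt d k * m k) := pow_le_pow_right_of_le_one' hϖ1.le (by omega)
      _ = v ϖ ^ E * v ϖ ^ (∑ k, wgt d k * m k) := pow_add _ _ _

end Scale

section Dyn2

variable {R L Γ : Type*} [CommRing R] [Field L] [LinearOrderedCommGroupWithZero Γ] {v : Valuation L Γ}
variable {N : ℕ}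

/-- the twisted map -/
noncomputable def twT (φ : R →+* L) (ϖ : L) (d : ℕ) (F : Fin (N + 1) → MvPolynomial (Fin (N + 1)) R)
    (u : Fin (N + 1) → L) : Fin (N + 1) → L := tw ϖ d (pev φ F (utw ϖ d u))

/-- the data of the twisted situation -/
structure TwData (v : Valuation L Γ) (φ : R →+* L) (π : R) (ϖ : L) (d E : ℕ)
    (F : Fin (N + 1) → MvPolynomial (Fin (N + 1)) R) : Prop where
  ne : v ϖ ≠ 0
  lt : v ϖ < 1
  pow : ϖ ^ E = φ π
  hd : 2 ≤ d
  hE : E + 1 = d ^ (N + 1)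
  hE1 : 1 ≤ E
  homog : ∀ k, (F k).IsHomogeneous d
  small : ∀ k m, v (φ (coeff m (F k - twB π d N k))) ≤ v ϖ ^ (2 * E)

variable {φ : R →+* L} {π : R} {ϖ : L} {d E : ℕ} {F : Fin (N + 1) → MvPolynomial (Fin (N + 1)) R}

/-- the error polynomial of the twisted map -/
noncomputable def twE (φ : R →+* L) (π : R) (ϖ : L) (d : ℕ) (F : Fin (N + 1) → MvPolynomial (Fin (N + 1)) R)
    (k : Fin (N + 1)) : MvPolynomial (Fin (N + 1)) L := scp φ ϖ d (wgt d k) (F k - twB π d N k)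

theorem TwData.ϖ_ne (h : TwData v φ π ϖ d E F) : ϖ ≠ 0 := (Valuation.ne_zero_iff v).1 h.ne

theorem TwData.coeff_le (h : TwData v φ π ϖ d E F) (k : Fin (N + 1)) (m : Fin (N + 1) →₀ ℕ) :
    v ((RingHom.id L) (coeff m (twE φ π ϖ d F k))) ≤ v ϖ ^ E := by
  apply v_scp v φ ϖ h.ne h.lt d E _ h.hE
  · unfold wgt
    exact Nat.one_le_pow _ _ (by have := h.hd; omega)
  · exact (h.homog k).sub (twB_homog π d N k)
  · have := h.hd
    omega
  · exact h.small k

/-- the shape of the twisted map -/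
theorem TwData.form (h : TwData v φ π ϖ d E F) (u : Fin (N + 1) → L) (k : Fin (N + 1)) :
    twT φ ϖ d F u k = u (k - 1) ^ d + eval₂ (RingHom.id L) u (twE φ π ϖ d F k) := by
  unfold twE
  rw [eval_scp, eval₂_sub]
  have h1 : eval₂ φ (utw ϖ d u) (twB π d N k) = (if k = 0 then φ π else 1) * utw ϖ d u (k - 1) ^ d :=
    pev_twB φ π d N (utw ϖ d u) k
  rw [h1]
  have h2 : ϖ ^ wgt d k * ((if k = 0 then φ π else 1) * utw ϖ d u (k - 1) ^ d) = u (k - 1) ^ d := by
    unfold utw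
    rw [mul_pow, inv_pow, ← pow_mul]
    have hne : ϖ ^ (wgt d (k - 1) * d) ≠ 0 := pow_ne_zero _ h.ϖ_ne
    have h3 : ϖ ^ wgt d k * (if k = 0 then φ π else 1) = ϖ ^ (wgt d (k - 1) * d) := by
      by_cases hk : k = 0
      · subst hk
        rw [if_pos rfl, ← h.pow, ← pow_add]
        congr 1
        unfold wgt
        have h4 : ((0 : Fin (N + 1)) - 1).val = N := by
          have h5 : (0 : Fin (N + 1)) - 1 = Fin.last N := by
            rw [sub_eq_iff_eq_add]
            exact (Fin.last_add_one N).symm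
          rw [h5]
          rfl
        rw [h4, ← pow_succ, ← h.hE, Fin.val_zero, pow_zero]
        ring
      · rw [if_neg hk, mul_one]
        congr 1
        unfold wgt
        rw [Fin.val_sub_one_of_ne_zero hk, ← pow_succ]
        congr 1
        have : (k : ℕ) ≠ 0 := fun h0 => hk (Fin.ext h0)
        omega
    rw [← mul_assoc, ← mul_assoc, h3, mul_inv_cancel₀ hne, one_mul]
  have h3 : twT φ ϖ d F u k = ϖ ^ wgt d k * eval₂ φ (utw ϖ d u) (F k) := rfl
  rw [h3, mul_sub, h2]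
  ring

/-- the vector `u` is close to the vertex `i` -/
structure AtVertex (v : Valuation L Γ) (ϖ : L) (i : Fin (N + 1)) (u : Fin (N + 1) → L) : Prop where
  one : u i = 1
  le : ∀ k, k ≠ i → v (u k) ≤ v ϖ

theorem AtVertex.le_one {i : Fin (N + 1)} {u : Fin (N + 1) → L} (hlt : v ϖ < 1) (hu : AtVertex v ϖ i u) (k : Fin (N + 1)) :
    v (u k) ≤ 1 := by
  by_cases hk : k = i
  · rw [hk, hu.one, map_one]
  · exact (hu.le k hk).trans hlt.le

theorem shift_ne {i k : Fin (N + 1)} (h : k ≠ i + 1) : k - 1 ≠ i := by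
  intro h1
  apply h
  rw [← h1, sub_add_cancel]

theorem TwData.E_le (h : TwData v φ π ϖ d E F) : v ϖ ^ E ≤ v ϖ := by
  calc v ϖ ^ E ≤ v ϖ ^ 1 := pow_le_pow_right_of_le_one' h.lt.le h.hE1
    _ = v ϖ := pow_one _

theorem TwData.img_unit (h : TwData v φ π ϖ d E F) {i : Fin (N + 1)} {u : Fin (N + 1) → L} (hu : AtVertex v ϖ i u) :
    v (twT φ ϖ d F u (i + 1)) = 1 := by
  apply v_one_of
  rw [h.form, add_sub_cancel_right, hu.one, one_pow, add_sub_cancel_left]
  exact (v_eval₂_le v (RingHom.id L) _ _ (h.coeff_le (i + 1)) u (hu.le_one h.lt)).trans_lt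
    (h.E_le.trans_lt h.lt)

theorem TwData.img_le (h : TwData v φ π ϖ d E F) {i : Fin (N + 1)} {u : Fin (N + 1) → L} (hu : AtVertex v ϖ i u)
    (k : Fin (N + 1)) (hk : k ≠ i + 1) : v (twT φ ϖ d F u k) ≤ v ϖ := by
  rw [h.form]
  apply v.map_add_le
  · rw [map_pow]
    refine (pow_le_pow_left' (hu.le _ (shift_ne hk)) d).trans ?_
    calc v ϖ ^ d ≤ v ϖ ^ 1 := pow_le_pow_right_of_le_one' h.lt.le (by have := h.hd; omega)
      _ = v ϖ := pow_one _
  · exact (v_eval₂_le v (RingHom.id L) _ _ (h.coeff_le k) u (hu.le_one h.lt)).trans h.E_le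

/-- the normalised twisted map -/
noncomputable def twNorm (φ : R →+* L) (ϖ : L) (d : ℕ) (F : Fin (N + 1) → MvPolynomial (Fin (N + 1)) R)
    (i : Fin (N + 1)) (u : Fin (N + 1) → L) : Fin (N + 1) → L :=
  (twT φ ϖ d F u (i + 1))⁻¹ • twT φ ϖ d F u

theorem TwData.atVertex (h : TwData v φ π ϖ d E F) {i : Fin (N + 1)} {u : Fin (N + 1) → L} (hu : AtVertex v ϖ i u) :
    AtVertex v ϖ (i + 1) (twNorm φ ϖ d F i u) := by
  have h1 := h.img_unit hu
  have h0 : twT φ ϖ d F u (i + 1) ≠ 0 := by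
    intro h0
    rw [h0, map_zero] at h1
    exact zero_ne_one h1
  constructor
  · unfold twNorm
    simp only [Pi.smul_apply, smul_eq_mul]
    exact inv_mul_cancel₀ h0
  · intro k hk
    unfold twNorm
    simp only [Pi.smul_apply, smul_eq_mul]
    rw [map_mul, map_inv₀, h1, inv_one, one_mul]
    exact h.img_le hu k hk

/-- **contraction** -/
theorem TwData.contract (h : TwData v φ π ϖ d E F) {i : Fin (N + 1)} {u u' : Fin (N + 1) → L}
    (hu : AtVertex v ϖ i u) (hu' : AtVertex v ϖ i u') (δ : Γ) (hδ : ∀ k, v (u k - u' k) ≤ δ) (k : Fin (N + 1)) :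
    v (twNorm φ ϖ d F i u k - twNorm φ ϖ d F i u' k) ≤ v ϖ * δ := by
  have hdiff : ∀ k, v (twT φ ϖ d F u k - twT φ ϖ d F u' k) ≤ v ϖ * δ := by
    intro k
    rw [h.form, h.form]
    have e1 : ∀ a b c e : L, a + b - (c + e) = (a - c) + (b - e) := by intros; ring
    rw [e1]
    apply v.map_add_le
    · by_cases hk : k = i + 1
      · rw [hk, add_sub_cancel_right, hu.one, hu'.one, sub_self, map_zero]
        exact zero_le
      · have h2 := v_pow_sub' v h.lt.le (hu.le _ (shift_ne hk)) (hu'.le _ (shift_ne hk)) (hδ (k - 1)) d 1 (by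
          have := h.hd
          omega)
        rwa [pow_one] at h2
    · refine (v_eval₂_sub_le v (RingHom.id L) _ _ δ (h.coeff_le k) u u' (hu.le_one h.lt) (hu'.le_one h.lt) hδ).trans ?_
      exact mul_le_mul_left h.E_le δ
  have h1 := h.img_unit hu
  have h1' := h.img_unit hu'
  have h0 : twT φ ϖ d F u (i + 1) ≠ 0 := by
    intro h0
    rw [h0, map_zero] at h1
    exact zero_ne_one h1
  have h0' : twT φ ϖ d F u' (i + 1) ≠ 0 := by
    intro h0
    rw [h0, map_zero] at h1'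
    exact zero_ne_one h1'
  have hle : ∀ k, v (twT φ ϖ d F u' k) ≤ 1 := by
    intro k
    by_cases hk : k = i + 1
    · rw [hk, h1']
    · exact (h.img_le hu' k hk).trans h.lt.le
  unfold twNorm
  simp only [Pi.smul_apply, smul_eq_mul]
  have e2 : (twT φ ϖ d F u (i + 1))⁻¹ * twT φ ϖ d F u k - (twT φ ϖ d F u' (i + 1))⁻¹ * twT φ ϖ d F u' k
      = ((twT φ ϖ d F u k - twT φ ϖ d F u' k) * twT φ ϖ d F u' (i + 1)
        - twT φ ϖ d F u' k * (twT φ ϖ d F u (i + 1) - twT φ ϖ d F u' (i + 1)))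
        * ((twT φ ϖ d F u (i + 1))⁻¹ * (twT φ ϖ d F u' (i + 1))⁻¹) := by
    field_simp
    ring
  rw [e2, map_mul, map_mul v ((twT φ ϖ d F u (i + 1))⁻¹), map_inv₀, map_inv₀, h1, h1', inv_one, mul_one, mul_one]
  apply v.map_sub_le
  · rw [map_mul, h1', mul_one]
    exact hdiff k
  · rw [map_mul]
    calc v (twT φ ϖ d F u' k) * v (twT φ ϖ d F u (i + 1) - twT φ ϖ d F u' (i + 1)) ≤ 1 * (v ϖ * δ) :=
          mul_le_mul' (hle k) (hdiff _)
      _ = v ϖ * δ := one_mul _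

/-- normalised twisted coordinates of a vector at the vertex `i` -/
noncomputable def ntw (ϖ : L) (d : ℕ) (i : Fin (N + 1)) (x : Fin (N + 1) → L) : Fin (N + 1) → L :=
  (tw ϖ d x i)⁻¹ • tw ϖ d x

theorem TwData.ntw_pev (h : TwData v φ π ϖ d E F) (i : Fin (N + 1)) (x : Fin (N + 1) → L) (hx : x i ≠ 0)
    (hu : AtVertex v ϖ i (ntw ϖ d i x)) :
    pev φ F x (i + 1) ≠ 0 ∧ ntw ϖ d (i + 1) (pev φ F x) = twNorm φ ϖ d F i (ntw ϖ d i x) := by
  have ht0 : tw ϖ d x i ≠ 0 := mul_ne_zero (pow_ne_zero _ h.ϖ_ne) hx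
  have h1 : twT φ ϖ d F (ntw ϖ d i x) = ((tw ϖ d x i)⁻¹) ^ d • tw ϖ d (pev φ F x) := by
    unfold twT ntw
    rw [utw_smul, utw_tw h.ϖ_ne, pev_smul h.homog, tw_smul]
  have hc : ((tw ϖ d x i)⁻¹) ^ d ≠ 0 := pow_ne_zero _ (inv_ne_zero ht0)
  have h2 := h.img_unit hu
  have h3 : twT φ ϖ d F (ntw ϖ d i x) (i + 1) ≠ 0 := by
    intro h0
    rw [h0, map_zero] at h2
    exact zero_ne_one h2
  have h4 : tw ϖ d (pev φ F x) (i + 1) ≠ 0 := by
    intro h0
    apply h3
    rw [h1, Pi.smul_apply, h0, smul_zero]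
  constructor
  · intro h0
    apply h4
    unfold tw
    rw [h0, mul_zero]
  · unfold twNorm
    rw [h1]
    unfold ntw
    rw [smul_smul]
    congr 1
    rw [Pi.smul_apply, smul_eq_mul, mul_inv]
    field_simp

/-- the sequence of vertices -/
def vx (i : Fin (N + 1)) (j : ℕ) : Fin (N + 1) := (fun t => t + 1)^[j] i

theorem vx_succ (i : Fin (N + 1)) (j : ℕ) : vx i (j + 1) = vx i j + 1 := by
  unfold vx
  rw [Function.iterate_succ_apply']

theorem vx_add (i : Fin (N + 1)) (j : ℕ) : vx i (j + (N + 1)) = vx i j := by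
  unfold vx
  rw [Function.iterate_add_apply]
  congr 1
  have h1 : (fun t : Fin (N + 1) => t + 1)^[N + 1] = fun t => t + (N + 1) • (1 : Fin (N + 1)) := by
    exact add_right_iterate (1 : Fin (N + 1)) (N + 1)
  rw [h1]
  have h2 : (N + 1) • (1 : Fin (N + 1)) = 0 := by
    have h3 := card_nsmul_eq_zero (x := (1 : Fin (N + 1)))
    rwa [Fintype.card_fin] at h3
  simp only [h2, add_zero]

/-- iterates stay close to vertices -/
theorem TwData.iter (h : TwData v φ π ϖ d E F) (i : Fin (N + 1)) (x : Fin (N + 1) → L) (hx : x i ≠ 0)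
    (hu : AtVertex v ϖ i (ntw ϖ d i x)) (j : ℕ) :
    (pev φ F)^[j] x (vx i j) ≠ 0 ∧ AtVertex v ϖ (vx i j) (ntw ϖ d (vx i j) ((pev φ F)^[j] x)) := by
  induction j with
  | zero => exact ⟨hx, hu⟩
  | succ j ih =>
    have h1 := h.ntw_pev _ _ ih.1 ih.2
    rw [Function.iterate_succ_apply', vx_succ]
    refine ⟨h1.1, ?_⟩
    rw [h1.2]
    exact h.atVertex ih.2

/-- **comparison of an orbit with its shift by `N + 1`** -/
theorem TwData.compare (h : TwData v φ π ϖ d E F) (i : Fin (N + 1)) (x : Fin (N + 1) → L) (hx : x i ≠ 0)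
    (hu : AtVertex v ϖ i (ntw ϖ d i x)) (j : ℕ) (k : Fin (N + 1)) :
    v (ntw ϖ d (vx i j) ((pev φ F)^[j] x) k
      - ntw ϖ d (vx i j) ((pev φ F)^[j + (N + 1)] x) k) ≤ v ϖ ^ (j + 1) := by
  induction j generalizing k with
  | zero =>
    rw [zero_add, zero_add, pow_one]
    have h1 := h.iter i x hx hu (N + 1)
    have h2 : vx i (N + 1) = vx i 0 := by
      have := vx_add i 0
      rwa [zero_add] at this
    rw [h2] at h1
    by_cases hk : k = vx i 0
    · rw [hk, Function.iterate_zero, id, h1.2.one]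
      have h3 : vx i 0 = i := rfl
      rw [h3, hu.one, sub_self, map_zero]
      exact zero_le
    · exact v.map_sub_le (hu.le k hk) (h1.2.le k hk)
  | succ j ih =>
    have h1 := h.iter i x hx hu j
    have h2 := h.iter i x hx hu (j + (N + 1))
    rw [vx_add] at h2
    have h3 := h.ntw_pev _ _ h1.1 h1.2
    have h4 := h.ntw_pev _ _ h2.1 h2.2
    have h5 : j + 1 + (N + 1) = (j + (N + 1)) + 1 := by ring
    rw [h5, Function.iterate_succ_apply', Function.iterate_succ_apply', vx_succ, h3.2, h4.2, pow_succ']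
    exact h.contract h1.2 h2.2 _ ih k

end Dyn2

end Pool.Agent.Lib.MP_df4dfc_nt
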