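import Mathlib
import Pool.Agent.Lib.MP_df4dfc_nt.Ti3
import Pool.Agent.Lib.MP_df4dfc_nt.Ti4

/-!
# The twisted congruence class over a number field
-/

set_option autoImplicit false
set_option linter.unusedSectionVars false
set_option linter.style.haveILetI false
set_option linter.unusedVariables false

namespace Pool.Agent.Lib.MP_df4dfc_nt

open NumberField IsDedekindDomain MvPolynomial WithZero
open scoped Pointwise

universe u

section MacSmall

variable {ι : Type*} [Fintype ι] [DecidableEq ι]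

theorem frm1_add {S : Type*} [CommRing S] {d : ℕ} (a b : Mon ι d → S) :
    frm1 (fun m => a m + b m) = frm1 a + frm1 b := by
  unfold frm1
  rw [← Finset.sum_add_distrib]
  apply Finset.sum_congr rfl
  intro m _
  rw [map_add]

theorem mac_add {S : Type*} [CommRing S] {d D : ℕ} (hD : Fintype.card ι * (d - 1) + 1 ≤ D)
    (a b : ι → Mon ι d → S) : mac hD (fun i m => a i m + b i m) = mac hD a + mac hD b := by
  ext ν μ
  simp only [mac, Matrix.of_apply, Matrix.add_apply, colPoly]
  rw [frm1_add, add_mul, coeff_add]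

variable {L Γ : Type*} [Field L] [LinearOrderedCommGroupWithZero Γ] (v : Valuation L Γ)

theorem v_mac {d D : ℕ} (hD : Fintype.card ι * (d - 1) + 1 ≤ D) (b : ι → Mon ι d → L) (c : Γ)
    (hb : ∀ i m, v (b i m) ≤ c) (ν μ : Mon ι D) : v (mac hD b ν μ) ≤ c := by
  simp only [mac, Matrix.of_apply, colPoly]
  rw [coeff_mul_monomial']
  split_ifs with h
  · rw [mul_one]
    by_cases hm : (ν.1 - shiftExp hD μ).degree = d
    · have h1 := frm1_coeff (b (pick hD μ)) ⟨_, hm⟩
      rw [h1]
      exact hb _ _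
    · rw [(frm1_homog (b (pick hD μ))).coeff_eq_zero hm, map_zero]
      exact zero_le
  · rw [map_zero]
    exact zero_le

theorem det_one_add_ne_zero {J : Type*} [Fintype J] [DecidableEq J] [Nonempty J] (B : Matrix J J L) (hB : ∀ i j, v (B i j) < 1) :
    (1 + B).det ≠ 0 := by
  intro hdet
  obtain ⟨c, hc0, hc⟩ := Matrix.exists_mulVec_eq_zero_iff.2 hdet
  obtain ⟨i, hi⟩ := Finite.exists_max (fun i => v (c i))
  have hci : c i ≠ 0 := by
    intro h0
    apply hc0
    funext j
    have h1 := hi j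
    rw [h0, map_zero] at h1
    exact (Valuation.zero_iff v).1 (le_antisymm h1 zero_le)
  have hvi : v (c i) ≠ 0 := (Valuation.ne_zero_iff v).2 hci
  have h1 := congrFun hc i
  rw [Matrix.add_mulVec, Matrix.one_mulVec, Pi.add_apply, Pi.zero_apply] at h1
  have h2 : c i = - ∑ j, B i j * c j := by
    have h3 : (B.mulVec c) i = ∑ j, B i j * c j := rfl
    rw [h3] at h1
    linear_combination h1
  have h3 : v (∑ j, B i j * c j) < v (c i) := by
    apply v.map_sum_lt hvi
    intro j _
    rw [map_mul]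
    calc v (B i j) * v (c j) ≤ v (B i j) * v (c i) := mul_le_mul_right (hi j) _
      _ < 1 * v (c i) := mul_lt_mul_of_pos_right (hB i j) (zero_lt_iff.2 hvi)
      _ = v (c i) := one_mul _
  have h4 := congrArg v h2
  rw [Valuation.map_neg] at h4
  rw [← h4] at h3
  exact lt_irrefl _ h3

end MacSmall

section Nf

variable {K : Type u} [Field K] [NumberField K]

/-- the twisted data over a number field -/
theorem twData_of {L : Type u} [Field L] [NumberField L] [Algebra K L]
    (P : HeightOneSpectrum (𝓞 L)) (π : 𝓞 K) (hπ : od (bel K L P) (π : K) = 1) {N d E : ℕ} (hd : 2 ≤ d)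
    (hE : E + 1 = d ^ (N + 1)) (hE1 : 1 ≤ E) (ϖ : L) (hϖ : ϖ ^ E = algebraMap K L (π : K))
    (F : Fin (N + 1) → MvPolynomial (Fin (N + 1)) (𝓞 K)) (hF : ∀ i, (F i).IsHomogeneous d)
    (hFB : ∀ i m, coeff m (F i - twB π d N i) ∈ (bel K L P).asIdeal ^ 2) :
    TwData (P.valuation L) ((algebraMap K L).comp (algebraMap (𝓞 K) K)) π ϖ d E F := by
  obtain ⟨e, he0, he⟩ := val_base (K := K) P
  have hpi := val_pi (bel K L P) (π : K) hπ
  have hπ0 : (π : K) ≠ 0 := by
    intro h0
    rw [h0] at hπ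
    unfold od at hπ
    simp at hπ
  have hϖ0 : ϖ ≠ 0 := by
    rintro rfl
    rw [zero_pow (by omega)] at hϖ
    exact (map_ne_zero (algebraMap K L)).2 hπ0 hϖ.symm
  have hlt : P.valuation L (algebraMap K L (π : K)) < 1 := by
    rw [he, hpi]
    apply pow_lt_one' _ he0
    rw [← exp_zero, exp_lt_exp]
    norm_num
  refine ⟨(Valuation.ne_zero_iff _).2 hϖ0, ?_, hϖ, hd, hE, hE1, hF, ?_⟩
  · by_contra hcon
    push Not at hcon
    rw [← hϖ, map_pow] at hlt
    exact absurd (one_le_pow₀ hcon) (not_le.2 hlt)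
  · intro k m
    have h1 : ((algebraMap K L).comp (algebraMap (𝓞 K) K)) (coeff m (F k - twB π d N k))
        = algebraMap K L ((coeff m (F k - twB π d N k) : 𝓞 K) : K) := rfl
    rw [h1, mul_comm, pow_mul, ← map_pow, hϖ, he, he, ← pow_mul, mul_comm, pow_mul]
    exact pow_le_pow_left' (val_of_mem_pow _ _ hπ _ _ (hFB k m)) e

/-- the twisted forms generate all forms of large degree -/
theorem tw_full (𝔭 : HeightOneSpectrum (𝓞 K)) (π : 𝓞 K) (hπ : od 𝔭 (π : K) = 1) {N d : ℕ} (hd : 2 ≤ d)
    (F : Fin (N + 1) → MvPolynomial (Fin (N + 1)) (𝓞 K)) (hF : ∀ i, (F i).IsHomogeneous d)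
    (hFB : ∀ i m, coeff m (F i - twB π d N i) ∈ 𝔭.asIdeal ^ 2)
    {D : ℕ} (hD : Fintype.card (Fin (N + 1)) * (d - 1) + 1 ≤ D) :
    ∃ ϖ : AlgebraicClosure K, ϖ ≠ 0 ∧
      Full (fun k => scp (algebraMap (𝓞 K) (AlgebraicClosure K)) ϖ d (wgt d (k + 1)) (F (k + 1))) d D := by
  classical
  obtain ⟨E, hE⟩ : ∃ E, E + 1 = d ^ (N + 1) := ⟨d ^ (N + 1) - 1, by
    have := Nat.one_le_pow (N + 1) d (by omega)
    omega⟩
  have hE1 : 1 ≤ E := by
    have h1 : 2 ≤ d ^ (N + 1) := by
      calc 2 ≤ d := hd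
        _ = d ^ 1 := (pow_one d).symm
        _ ≤ d ^ (N + 1) := Nat.pow_le_pow_right (by omega) (by omega)
    omega
  obtain ⟨ϖ, hϖ⟩ := IsAlgClosed.exists_pow_nat_eq (algebraMap K (AlgebraicClosure K) (π : K)) (n := E) (by omega)
  obtain ⟨L, hL1, hL2, hL3⟩ := exists_gal (K := K) {ϖ} (Set.finite_singleton ϖ)
  haveI hNF : NumberField L := NumberField.of_module_finite K L
  have hϖL : ϖ ∈ L := hL3 rfl
  obtain ⟨P, hP⟩ := exists_of_nonempty K L 𝔭
  rw [mem_above] at hP
  have hϖ' : (⟨ϖ, hϖL⟩ : L) ^ E = algebraMap K L (π : K) := by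
    apply Subtype.ext
    exact hϖ
  have hT := twData_of P π (by rw [hP]; exact hπ) (N := N) hd hE hE1 (⟨ϖ, hϖL⟩ : L) hϖ' F hF (by rw [hP]; exact hFB)
  set v := P.valuation L with hv
  set φ := (algebraMap K L).comp (algebraMap (𝓞 K) K) with hφ
  have hϖ0 : ϖ ≠ 0 := by
    intro h0
    apply hT.ϖ_ne
    exact Subtype.ext h0
  refine ⟨ϖ, hϖ0, ?_⟩
  apply full_of_mac hD
  · intro k
    -- homogeneity of the scaled forms
    unfold scp
    apply IsHomogeneous.sum
    intro m hm
    apply isHomogeneous_monomial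
    have h1 := hF (k + 1) (mem_support_iff.1 hm)
    rw [Finsupp.weight_apply, Finsupp.sum_fintype _ _ (fun _ => by simp)] at h1
    simp only [Pi.one_apply, smul_eq_mul, mul_one] at h1
    rw [Finsupp.degree_eq_sum]
    exact h1
  · -- the determinant
    set A : Fin (N + 1) → Mon (Fin (N + 1)) d → L := fun i m =>
      coeff m.1 (scp φ (⟨ϖ, hϖL⟩ : L) d (wgt d (i + 1)) (F (i + 1))) with hA
    have hAΩ : (fun (i : Fin (N + 1)) (m : Mon (Fin (N + 1)) d) => coeff m.1 ((fun k => scp (algebraMap (𝓞 K) (AlgebraicClosure K)) ϖ d (wgt d (k + 1)) (F (k + 1))) i))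
        = fun i m => algebraMap L (AlgebraicClosure K) (A i m) := by
      funext i m
      rw [hA]
      simp only
      rw [coeff_scp, coeff_scp, map_mul, map_mul, map_pow, map_inv₀, map_prod]
      simp only [map_pow]
      rfl
    rw [hAΩ, ← mac_map hD (algebraMap L (AlgebraicClosure K)), ← RingHom.mapMatrix_apply, ← RingHom.map_det]
    intro h0
    have h1 : (mac hD A).det = 0 := (map_eq_zero _).1 h0
    have hdecomp : A = fun i m => (if m.1 = Finsupp.single i d then (1 : L) else 0)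
        + coeff m.1 (twE φ π (⟨ϖ, hϖL⟩ : L) d F (i + 1)) := by
      funext i m
      rw [hA]
      unfold twE
      simp only
      rw [coeff_scp, coeff_scp, coeff_sub, map_sub]
      have h2 : coeff m.1 (twB π d N (i + 1)) = (if i + 1 = 0 then π else 1) * (if m.1 = Finsupp.single i d then 1 else 0) := by
        unfold twB
        rw [coeff_C_mul, add_sub_cancel_right, coeff_X_pow]
        congr 1
        by_cases h3 : m.1 = Finsupp.single i d
        · rw [if_pos h3, if_pos h3.symm]
        · rw [if_neg h3, if_neg (fun h4 => h3 h4.symm)]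
      rw [h2]
      by_cases h3 : m.1 = Finsupp.single i d
      · rw [if_pos h3, if_pos h3, mul_one]
        have h5 : (⟨ϖ, hϖL⟩ : L) ^ wgt d (i + 1) * φ (if i + 1 = 0 then π else 1)
            * (∏ k, ((⟨ϖ, hϖL⟩ : L) ^ wgt d k) ^ m.1 k)⁻¹ = 1 := by
          have h6 := hT.form (N := N) (fun k => if k = i then (1 : L) else 0) (i + 1)
          have h7 : ∏ k, ((⟨ϖ, hϖL⟩ : L) ^ wgt d k) ^ m.1 k = ((⟨ϖ, hϖL⟩ : L) ^ wgt d i) ^ d := by
            rw [h3, Finset.prod_eq_single i]
            · rw [Finsupp.single_eq_same]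
            · intro k _ hk
              rw [Finsupp.single_eq_of_ne hk, pow_zero]
            · intro h8
              exact absurd (Finset.mem_univ _) h8
          rw [h7]
          have hne : ((⟨ϖ, hϖL⟩ : L) ^ wgt d i) ^ d ≠ 0 := pow_ne_zero _ (pow_ne_zero _ hT.ϖ_ne)
          rw [mul_inv_eq_one₀ hne, ← pow_mul]
          by_cases hk : i + 1 = 0
          · rw [if_pos hk, hk, ← hT.pow, ← pow_add]
            congr 1
            unfold wgt
            have h8 : i = Fin.last N := by
              have h9 : Fin.last N + 1 = 0 := Fin.last_add_one N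
              exact add_right_cancel (hk.trans h9.symm)
            rw [h8, Fin.val_last, ← pow_succ, ← hE, Fin.val_zero, pow_zero]
            ring
          · rw [if_neg hk, map_one, mul_one]
            congr 1
            unfold wgt
            rw [← pow_succ]
            congr 1
            have h8 := Fin.val_sub_one_of_ne_zero hk
            rw [add_sub_cancel_right] at h8
            have h9 : ((i + 1 : Fin (N + 1)) : ℕ) ≠ 0 := fun h0 => hk (Fin.ext h0)
            generalize ((i + 1 : Fin (N + 1)) : ℕ) = t at h8 h9 ⊢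
            omega
        rw [← h5]
        ring
      · rw [if_neg h3, if_neg h3, mul_zero, map_zero, sub_zero, zero_add]
    have h2 : mac hD A = 1 + mac hD (fun i m => coeff m.1 (twE φ π (⟨ϖ, hϖL⟩ : L) d F (i + 1))) := by
      rw [hdecomp, mac_add, mac_pow]
    rw [h2] at h1
    haveI : Nonempty (Mon (Fin (N + 1)) D) := ⟨⟨Finsupp.single 0 D, by rw [Finsupp.degree_single]⟩⟩
    refine det_one_add_ne_zero v _ ?_ h1
    intro ν μ
    exact (v_mac v hD _ (v (⟨ϖ, hϖL⟩ : L) ^ E) (fun i m => hT.coeff_le (i + 1) m.1) ν μ).trans_lt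
      (hT.E_le.trans_lt hT.lt)

/-- nonvanishing of the forms of the class -/
theorem tw_nz (𝔭 : HeightOneSpectrum (𝓞 K)) (π : 𝓞 K) (hπ : od 𝔭 (π : K) = 1) {N d : ℕ} (hd : 2 ≤ d)
    (F : Fin (N + 1) → MvPolynomial (Fin (N + 1)) (𝓞 K)) (hF : ∀ i, (F i).IsHomogeneous d)
    (hFB : ∀ i m, coeff m (F i - twB π d N i) ∈ 𝔭.asIdeal ^ 2) :
    NZ (algebraMap (𝓞 K) (AlgebraicClosure K)) F ∧
    FibBd F (fibC (Fin (N + 1)) (Fintype.card (Fin (N + 1)) * (d - 1) + 1)) := by
  classical
  obtain ⟨ϖ, hϖ0, hfull⟩ := tw_full 𝔭 π hπ hd F hF hFB (D := Fintype.card (Fin (N + 1)) * (d - 1) + 1) le_rfl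
  set j := algebraMap (𝓞 K) (AlgebraicClosure K) with hj
  set G := fun k => scp j ϖ d (wgt d (k + 1)) (F (k + 1)) with hG
  have hGhom : ∀ k, (G k).IsHomogeneous d := by
    intro k
    rw [hG]
    unfold scp
    apply IsHomogeneous.sum
    intro m hm
    apply isHomogeneous_monomial
    have h1 := hF (k + 1) (mem_support_iff.1 hm)
    rw [Finsupp.weight_apply, Finsupp.sum_fintype _ _ (fun _ => by simp)] at h1
    simp only [Pi.one_apply, smul_eq_mul, mul_one] at h1
    rw [Finsupp.degree_eq_sum]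
    exact h1
  have hrel : ∀ (x : Fin (N + 1) → AlgebraicClosure K) k, pev (RingHom.id (AlgebraicClosure K)) G (tw ϖ d x) k
      = ϖ ^ wgt d (k + 1) * pev j F x (k + 1) := by
    intro x k
    have h1 : pev (RingHom.id (AlgebraicClosure K)) G (tw ϖ d x) k
        = eval₂ (RingHom.id (AlgebraicClosure K)) (tw ϖ d x) (scp j ϖ d (wgt d (k + 1)) (F (k + 1))) := rfl
    rw [h1, eval_scp, utw_tw hϖ0]
    rfl
  have htw0 : ∀ x : Fin (N + 1) → AlgebraicClosure K, x ≠ 0 → tw ϖ d x ≠ 0 := by
    intro x hx h0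
    apply hx
    rw [← utw_tw hϖ0 d x, h0]
    funext k
    unfold utw
    simp
  constructor
  · intro x hx h0
    apply hfull.ne_zero (by omega) (tw ϖ d x) (htw0 x hx)
    funext k
    rw [hrel, h0]
    simp
  · intro y hy s x hx0 hpar hdist
    apply fibre_bound (by omega) (by omega) hGhom hfull (fun k => ϖ ^ wgt d (k + 1) * y (k + 1)) _ s (fun l => tw ϖ d (x l))
      (fun l => htw0 _ (hx0 l))
    · intro l a b
      rw [hrel, hrel]
      have := hpar l (a + 1) (b + 1)
      linear_combination (ϖ ^ wgt d (a + 1) * ϖ ^ wgt d (b + 1)) * this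
    · intro l l' hll hp
      apply hdist l l' hll
      intro a b
      have h1 := hp a b
      unfold tw at h1
      have h2 : ϖ ^ wgt d a * ϖ ^ wgt d b ≠ 0 := mul_ne_zero (pow_ne_zero _ hϖ0) (pow_ne_zero _ hϖ0)
      apply mul_left_cancel₀ h2
      linear_combination h1
    · intro h0
      apply hy
      funext k
      have h1 := congrFun h0 (k - 1)
      simp only [sub_add_cancel, Pi.zero_apply] at h1
      exact (mul_eq_zero.1 h1).resolve_left (pow_ne_zero _ hϖ0)

end Nf

end Pool.Agent.Lib.MP_df4dfc_nt
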