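import Mathlib
import Pool.Agent.Lib.MP_df4dfc_nt.Ti5

/-!
# Targets of maps in the twisted class are preperiodic or good
-/

set_option autoImplicit false
set_option linter.unusedSectionVars false
set_option linter.style.haveILetI false
set_option linter.unusedVariables false

namespace Pool.Agent.Lib.MP_df4dfc_nt

open NumberField IsDedekindDomain MvPolynomial WithZero
open scoped Pointwise

universe u

section Vertex

variable {K L : Type u} [Field K] [NumberField K] [Field L] [NumberField L] [Algebra K L] [IsGalois K L]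

theorem od_le_iff (P : HeightOneSpectrum (𝓞 L)) {a b : L} (ha : a ≠ 0) (hb : b ≠ 0) :
    P.valuation L a ≤ P.valuation L b ↔ od P b ≤ od P a := by
  unfold od
  rw [← log_le_log ((Valuation.ne_zero_iff _).2 ha) ((Valuation.ne_zero_iff _).2 hb)]
  constructor <;> intro h <;> linarith

/-- a point fixed by inertia is close to a vertex in the twisted coordinates -/
theorem exists_vertex (P : HeightOneSpectrum (𝓞 L)) (π : 𝓞 K) (hπ : od (bel K L P) (π : K) = 1) {N d E : ℕ}
    (hd : 2 ≤ d) (hE : E + 1 = d ^ (N + 1)) (hE1 : 1 ≤ E) (ϖ : L) (hϖ0 : ϖ ≠ 0) (hϖ : ϖ ^ E = algebraMap K L (π : K))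
    (z : Fin (N + 1) → 𝓞 L) (hz : z ≠ 0)
    (hI : ∀ σ : Gal(L/K), σ ∈ P.asIdeal.inertia Gal(L/K) → Par (fun i => σ • z i) z) :
    ∃ i, (z i : L) ≠ 0 ∧ AtVertex (P.valuation L) ϖ i (ntw ϖ d i (fun k => (z k : L))) := by
  set v := P.valuation L with hv
  set zL : Fin (N + 1) → L := fun k => (z k : L) with hzL
  obtain ⟨i, hi⟩ := Finite.exists_max (fun k => v (tw ϖ d zL k))
  have hzi : z i ≠ 0 := by
    intro h0
    apply hz
    funext k
    have h1 := hi k
    have h2 : tw ϖ d zL i = 0 := by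
      unfold tw
      rw [hzL]
      simp only [h0, map_zero, mul_zero]
    rw [h2, map_zero] at h1
    have h3 : tw ϖ d zL k = 0 := (Valuation.zero_iff v).1 (le_antisymm h1 zero_le)
    have h4 : zL k = 0 := (mul_eq_zero.1 h3).resolve_left (pow_ne_zero _ hϖ0)
    apply RingOfIntegers.coe_injective
    rw [Pi.zero_apply, map_zero]
    exact h4
  have hziL : (z i : L) ≠ 0 := coe_ne_zero'' hzi
  have htwi : tw ϖ d zL i ≠ 0 := mul_ne_zero (pow_ne_zero _ hϖ0) hziL
  refine ⟨i, hziL, ?_, ?_⟩
  · unfold ntw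
    simp only [Pi.smul_apply, smul_eq_mul]
    exact inv_mul_cancel₀ htwi
  · intro k hk
    unfold ntw
    simp only [Pi.smul_apply, smul_eq_mul]
    by_cases hzk : z k = 0
    · have h2 : tw ϖ d zL k = 0 := by
        unfold tw
        rw [hzL]
        simp only [hzk, map_zero, mul_zero]
      rw [h2, mul_zero, map_zero]
      exact zero_le
    · have hzkL : (z k : L) ≠ 0 := coe_ne_zero'' hzk
      have htwk : tw ϖ d zL k ≠ 0 := mul_ne_zero (pow_ne_zero _ hϖ0) hzkL
      -- the ratio is fixed by inertia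
      obtain ⟨t, ht⟩ := od_fixed P (P.asIdeal.inertia Gal(L/K)) le_rfl ((z k : L) / (z i : L)) (by
        intro σ hσ
        have h1 := hI σ hσ k i
        have h2 := congrArg (fun w : 𝓞 L => (w : L)) h1
        simp only [map_mul] at h2
        change σ (z k : L) * (z i : L) = σ (z i : L) * (z k : L) at h2
        have h4 : σ (z i : L) ≠ 0 := (map_ne_zero σ).2 hziL
        rw [map_div₀, div_eq_div_iff h4 hziL]
        linear_combination h2)
      have hbase := od_base P (π : K)
      rw [hπ, mul_one, ← hϖ, od_pow] at hbase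
      set w := od P ϖ with hw
      have hcard : (0 : ℤ) < Nat.card (P.asIdeal.inertia Gal(L/K)) := by exact_mod_cast Nat.card_pos
      rw [← hbase] at ht hcard
      have hE0 : (0 : ℤ) < E := by exact_mod_cast hE1
      have hwpos : 0 < w := by
        by_contra hcon
        push Not at hcon
        have := mul_nonpos_of_nonneg_of_nonpos hE0.le hcon
        linarith
      have hodk : od P (tw ϖ d zL k) = (wgt d k : ℤ) * w + od P (z k : L) := by
        unfold tw
        rw [od_mul P (pow_ne_zero _ hϖ0) hzkL, od_pow]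
      have hodi : od P (tw ϖ d zL i) = (wgt d i : ℤ) * w + od P (z i : L) := by
        unfold tw
        rw [od_mul P (pow_ne_zero _ hϖ0) hziL, od_pow]
      rw [od_div P hzkL hziL] at ht
      have hge := (od_le_iff P htwk htwi).1 (hi k)
      -- the exponent
      set s : ℤ := (wgt d k : ℤ) - (wgt d i : ℤ) + (E : ℤ) * t with hs
      have hdiff : od P (tw ϖ d zL k) - od P (tw ϖ d zL i) = s * w := by
        rw [hodk, hodi, hs]
        linear_combination ht
      have hs0 : 0 ≤ s := by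
        by_contra hcon
        push Not at hcon
        have := mul_neg_of_neg_of_pos hcon hwpos
        linarith
      have hwk : wgt d k ≤ d ^ N := by
        unfold wgt
        exact Nat.pow_le_pow_right (by omega) (by omega)
      have hwi : wgt d i ≤ d ^ N := by
        unfold wgt
        exact Nat.pow_le_pow_right (by omega) (by omega)
      have hwk1 : 1 ≤ wgt d k := by
        unfold wgt
        exact Nat.one_le_pow _ _ (by omega)
      have hwi1 : 1 ≤ wgt d i := by
        unfold wgt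
        exact Nat.one_le_pow _ _ (by omega)
      have hdN : d ^ N < E + 1 := by
        rw [hE]
        exact Nat.pow_lt_pow_right (by omega) (by omega)
      have hne : wgt d k ≠ wgt d i := by
        unfold wgt
        intro h0
        apply hk
        apply Fin.ext
        exact Nat.pow_right_injective hd h0
      have hs1 : s ≠ 0 := by
        intro h0
        have h1 : (E : ℤ) ∣ (wgt d k : ℤ) - (wgt d i : ℤ) := ⟨-t, by rw [hs] at h0; linarith⟩
        have h2 : |(wgt d k : ℤ) - (wgt d i : ℤ)| < E := by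
          rw [abs_lt]
          constructor <;> omega
        have h3 := Int.eq_zero_of_abs_lt_dvd h1 h2
        apply hne
        omega
      have hs2 : 1 ≤ s := by omega
      have hfin : v ((tw ϖ d zL i)⁻¹ * tw ϖ d zL k) ≤ v ϖ := by
        rw [hv, od_le_iff P (mul_ne_zero (inv_ne_zero htwi) htwk) hϖ0, od_mul P (inv_ne_zero htwi) htwk, od_inv P htwi]
        have h1 : 1 * w ≤ s * w := mul_le_mul_of_nonneg_right hs2 hwpos.le
        linarith
      exact hfin

end Vertex

section Main

variable {K : Type u} [Field K] [NumberField K]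

theorem ntw_smul {L : Type*} [Field L] {N : ℕ} (ϖ : L) (d : ℕ) (i : Fin (N + 1)) (c : L) (hc : c ≠ 0) (x : Fin (N + 1) → L) :
    ntw ϖ d i (c • x) = ntw ϖ d i x := by
  unfold ntw
  rw [tw_smul, smul_smul, Pi.smul_apply, smul_eq_mul, mul_inv]
  congr 1
  field_simp

/-- **Bad targets of maps in the class are periodic.** -/
theorem tw_periodic (𝔭 : HeightOneSpectrum (𝓞 K)) (π : 𝓞 K) (hπ : od 𝔭 (π : K) = 1) {N d : ℕ} (hd : 2 ≤ d)
    (p : ℕ) (hp : p.Prime) (hp𝔭 : (p : 𝓞 K) ∈ 𝔭.asIdeal)
    (hpC : fibC (Fin (N + 1)) (Fintype.card (Fin (N + 1)) * (d - 1) + 1) < p)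
    (F : Fin (N + 1) → MvPolynomial (Fin (N + 1)) (𝓞 K)) (hF : ∀ i, (F i).IsHomogeneous d)
    (hFB : ∀ i m, coeff m (F i - twB π d N i) ∈ 𝔭.asIdeal ^ 2) (g : Fin (N + 1) → 𝓞 K) (hg0 : g ≠ 0)
    (hfix : ∀ (N0 : ℕ) (σ : Gal(AlgebraicClosure K/K)), ∃ y : Fin (N + 1) → AlgebraicClosure K, y ≠ 0 ∧
      Par ((pev (algebraMap (𝓞 K) (AlgebraicClosure K)) F)^[N0] y)
        (fun i => algebraMap (𝓞 K) (AlgebraicClosure K) (g i)) ∧ Par (fun i => σ (y i)) y) :
    Par ((pevO F)^[N + 1] g) g := by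
  classical
  obtain ⟨hNZ, hC⟩ := tw_nz 𝔭 π hπ hd F hF hFB
  obtain ⟨E, hE⟩ : ∃ E, E + 1 = d ^ (N + 1) := ⟨d ^ (N + 1) - 1, by
    have := Nat.one_le_pow (N + 1) d (by omega)
    omega⟩
  have hE1 : 1 ≤ E := by
    have h1 : 2 ≤ d ^ (N + 1) := by
      calc 2 ≤ d := hd
        _ = d ^ 1 := (pow_one d).symm
        _ ≤ d ^ (N + 1) := Nat.pow_le_pow_right (by omega) (by omega)
    omega
  obtain ⟨ϖΩ, hϖΩ⟩ := IsAlgClosed.exists_pow_nat_eq (algebraMap K (AlgebraicClosure K) (π : K)) (n := E) (by omega)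
  set G := (pevO F)^[N + 1] g with hG
  have hπ0 : (π : K) ≠ 0 := by
    intro h0
    rw [h0] at hπ
    unfold od at hπ
    simp at hπ
  have hπ0' : π ≠ 0 := by
    rintro rfl
    exact hπ0 (by simp)
  have key : ∀ n : ℕ, ∃ i, g i ≠ 0 ∧ ∀ k, 𝔭.valuation K ((π ^ (d ^ N) * (g k * G i - G k * g i) ^ E : 𝓞 K) : K)
      ≤ 𝔭.valuation K (π : K) ^ (n + 1) := by
    intro n
    obtain ⟨L, hNF, hGal, P, z, hSL, hP, hz0, hzg, hzI⟩ :=
      inertia_fixed F (by omega) hF hNZ _ hC g hg0 hfix 𝔭 p hp hp𝔭 hpC n {ϖΩ} (Set.finite_singleton _)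
    subst hP
    have hϖL : ϖΩ ∈ L := hSL rfl
    set ϖ : L := ⟨ϖΩ, hϖL⟩ with hϖd
    have hϖ : ϖ ^ E = algebraMap K L (π : K) := by
      apply Subtype.ext
      exact hϖΩ
    have hT := twData_of P π hπ (N := N) hd hE hE1 ϖ hϖ F hF hFB
    set v := P.valuation L with hv
    set φ := (algebraMap K L).comp (algebraMap (𝓞 K) K) with hφ
    have hφinj : Function.Injective φ := (algebraMap K L).injective.comp inj_O
    obtain ⟨i0, hzi0, hvert⟩ := exists_vertex P π hπ hd hE hE1 ϖ hT.ϖ_ne hϖ z hz0 hzI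
    set zL : Fin (N + 1) → L := fun k => (z k : L) with hzL
    have hit1 := hT.iter i0 zL hzi0 hvert n
    have hit2 := hT.iter i0 zL hzi0 hvert (n + (N + 1))
    rw [vx_add] at hit2
    have hcmp := hT.compare i0 zL hzi0 hvert n
    set i := vx i0 n with hi
    set gL : Fin (N + 1) → L := fun k => φ (g k) with hgL
    have hgL0 : gL ≠ 0 := by
      intro h0
      apply hg0
      funext k
      apply hφinj
      rw [Pi.zero_apply, map_zero]
      exact congrFun h0 k
    have hpar : Par ((pev φ F)^[n] zL) gL := by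
      have h1 := hzg.map (algebraMap (𝓞 L) L)
      rw [pev_iter_map] at h1
      exact h1
    obtain ⟨c, hc⟩ := hpar.exists_smul hgL0
    have hc0 : c ≠ 0 := by
      rintro rfl
      rw [zero_smul] at hc
      apply hit1.1
      rw [hc, Pi.zero_apply]
    set hL : Fin (N + 1) → L := fun k => φ (G k) with hhL
    have hGL : (pev φ F)^[N + 1] gL = hL := by
      have h1 := pev_iter_map (RingHom.id (𝓞 K)) φ F (N + 1) g
      rw [RingHom.comp_id] at h1
      exact h1.symm
    have hc2 : (pev φ F)^[n + (N + 1)] zL = c ^ (d ^ (N + 1)) • hL := by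
      rw [add_comm n, Function.iterate_add_apply, hc, pev_iter_smul hF, hGL]
    have hcpow : c ^ (d ^ (N + 1)) ≠ 0 := pow_ne_zero _ hc0
    rw [hc] at hit1
    rw [hc2] at hit2
    have hgi : gL i ≠ 0 := by
      intro h0
      apply hit1.1
      rw [Pi.smul_apply, h0, smul_zero]
    have hhi : hL i ≠ 0 := by
      intro h0
      apply hit2.1
      rw [Pi.smul_apply, h0, smul_zero]
    refine ⟨i, ?_, ?_⟩
    · intro h0
      apply hgi
      rw [hgL]
      simp only [h0, map_zero]
    intro k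
    have h1 := hcmp k
    rw [hc2, hc, ntw_smul _ _ _ _ hc0, ntw_smul _ _ _ _ hcpow] at h1
    -- the identity
    have hid : ϖ ^ wgt d k * (gL k * hL i - hL k * gL i)
        = (ntw ϖ d i gL k - ntw ϖ d i hL k) * (ϖ ^ wgt d i * (gL i * hL i)) := by
      unfold ntw
      simp only [Pi.smul_apply, smul_eq_mul]
      unfold tw
      have hϖi : ϖ ^ wgt d i ≠ 0 := pow_ne_zero _ hT.ϖ_ne
      field_simp
    have hint : ∀ a : 𝓞 K, v (φ a) ≤ 1 := fun a => P.valuation_le_one (K := L) (algebraMap (𝓞 K) (𝓞 L) a)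
    have h2 : v (ϖ ^ wgt d k * (gL k * hL i - hL k * gL i)) ≤ v ϖ ^ (n + 1) := by
      rw [hid, map_mul]
      calc v (ntw ϖ d i gL k - ntw ϖ d i hL k) * v (ϖ ^ wgt d i * (gL i * hL i)) ≤ v ϖ ^ (n + 1) * 1 := by
            apply mul_le_mul' h1
            rw [map_mul, map_mul, map_pow]
            exact mul_le_one' (pow_le_one' hT.lt.le _) (mul_le_one' (hint _) (hint _))
        _ = v ϖ ^ (n + 1) := mul_one _
    have h3 : v (ϖ ^ (d ^ N) * (gL k * hL i - hL k * gL i)) ≤ v ϖ ^ (n + 1) := by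
      refine le_trans ?_ h2
      rw [map_mul, map_mul, map_pow, map_pow]
      apply mul_le_mul_left
      apply pow_le_pow_right_of_le_one' hT.lt.le
      unfold wgt
      exact Nat.pow_le_pow_right (by omega) (by omega)
    have h4 : v (φ (π ^ (d ^ N) * (g k * G i - G k * g i) ^ E)) ≤ v (φ π) ^ (n + 1) := by
      have e1 : φ (π ^ (d ^ N) * (g k * G i - G k * g i) ^ E) = (ϖ ^ (d ^ N) * (gL k * hL i - hL k * gL i)) ^ E := by
        rw [map_mul, map_pow, map_pow, map_sub, map_mul, map_mul, ← hT.pow, mul_pow, ← pow_mul, ← pow_mul, mul_comm E]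
      have e2 : v (φ π) ^ (n + 1) = (v ϖ ^ (n + 1)) ^ E := by
        rw [← hT.pow, map_pow, ← pow_mul, ← pow_mul, mul_comm]
      rw [e1, e2, map_pow]
      exact pow_le_pow_left' h3 E
    obtain ⟨e, he0, he⟩ := val_base (K := K) P
    have h5 : φ (π ^ (d ^ N) * (g k * G i - G k * g i) ^ E)
        = algebraMap K L ((π ^ (d ^ N) * (g k * G i - G k * g i) ^ E : 𝓞 K) : K) := rfl
    have h6 : φ π = algebraMap K L (π : K) := rfl
    rw [h5, h6, hv, he, he, ← pow_mul, mul_comm e, pow_mul] at h4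
    exact pow_le_imp he0 h4
  -- one vertex works for all levels
  have hone : ∃ i, ∀ n : ℕ, g i ≠ 0 ∧ ∀ k, 𝔭.valuation K ((π ^ (d ^ N) * (g k * G i - G k * g i) ^ E : 𝓞 K) : K)
      ≤ 𝔭.valuation K (π : K) ^ (n + 1) := by
    by_contra hcon
    push Not at hcon
    choose n hn using hcon
    obtain ⟨i, hi, hi'⟩ := key (Finset.univ.sup n)
    obtain ⟨k, hk⟩ := hn i hi
    have h1 := hi' k
    have hle : n i ≤ Finset.univ.sup n := Finset.le_sup (Finset.mem_univ i)
    have h2 : 𝔭.valuation K (π : K) ≤ 1 := 𝔭.valuation_le_one (K := K) π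
    exact absurd (h1.trans (pow_le_pow_right_of_le_one' h2 (by omega))) (not_le.2 hk)
  obtain ⟨i, hi⟩ := hone
  have hgi := (hi 0).1
  have hzero : ∀ k, g k * G i - G k * g i = 0 := by
    intro k
    have h1 := eq_zero_of_val 𝔭 (π : K) hπ _ (fun n => (hi n).2 k)
    rcases mul_eq_zero.1 h1 with h2 | h2
    · exact absurd h2 (pow_ne_zero _ hπ0')
    · exact (pow_eq_zero_iff (by omega)).1 h2
  intro a b
  apply mul_right_cancel₀ hgi
  have h1 := hzero a
  have h2 := hzero b
  linear_combination (g a) * h2 - (g b) * h1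

end Main

end Pool.Agent.Lib.MP_df4dfc_nt
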