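import Mathlib
import Pool.Agent.Lib.MP_df4dfc_nt.Ti6
import Pool.Agent.Lib.MP_df4dfc_nt.DefsAll
import Pool.Agent.Lib.MP_df4dfc_nt.Generic6

/-!
# A positive proportion of all morphisms
-/

set_option autoImplicit false
set_option linter.unusedSectionVars false
set_option linter.style.haveILetI false
set_option linter.unusedVariables false

namespace Pool.Agent.Lib.MP_df4dfc_nt

open NumberField IsDedekindDomain MvPolynomial WithZero Module
open scoped Pointwise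

universe u

variable {K : Type u} [Field K] [NumberField K]

/-- assembling the statement for all pairs of points -/
theorem goodForAll_of {N d : ℕ} (hd : 1 ≤ d) (F : Fin (N + 1) → MvPolynomial (Fin (N + 1)) (𝓞 K))
    (hF : ∀ i, (F i).IsHomogeneous d) (hNZ : NZ (algebraMap (𝓞 K) (AlgebraicClosure K)) F)
    (H : ∀ g : Fin (N + 1) → 𝓞 K, g ≠ 0 →
      (∀ (N0 : ℕ) (σ : Gal(AlgebraicClosure K/K)), ∃ y : Fin (N + 1) → AlgebraicClosure K, y ≠ 0 ∧
        Par ((pev (algebraMap (𝓞 K) (AlgebraicClosure K)) F)^[N0] y)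
        (fun i => algebraMap (𝓞 K) (AlgebraicClosure K) (g i)) ∧ Par (fun i => σ (y i)) y) →
      ∃ a b : ℕ, a < b ∧ Par ((pevO F)^[a] g) ((pevO F)^[b] g)) :
    GoodForAll d F := by
  let Φ : Morph K N d :=
    { F := fun i => MvPolynomial.map (algebraMap (𝓞 K) K) (F i)
      homog := fun i => (hF i).map _
      noZero := by
        intro x hx
        by_contra hne
        apply hNZ x hne
        funext i
        have h1 := hx i
        rw [aeval_map_algebraMap] at h1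
        exact h1 }
  refine ⟨Φ, fun i => rfl, ?_⟩
  intro γ₁ γ₂ hav
  have hG : Model Φ 1 F := ⟨one_ne_zero, fun i => by rw [map_one, one_mul]⟩
  by_cases hpre : ∃ a b : ℕ, a < b ∧ Φ.map^[a] γ₂ = Φ.map^[b] γ₂
  · obtain ⟨a, b, hab, h⟩ := hpre
    exact posDensity_of_preperiodic hd Φ γ₁ γ₂ hav a b hab h
  by_contra hnd
  apply hpre
  obtain ⟨g2, hg2⟩ := exists_Rp γ₂
  obtain ⟨a, b, hab, hpar⟩ := H g2 hg2.ne_zero (by
    intro N0 σ
    by_contra hcon
    push Not at hcon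
    apply hnd
    apply posDensity_of_nofix hd Φ γ₁ γ₂ hav N0 σ
    intro y hy hfix
    rw [inFibre_iff hG N0 hg2] at hy
    rw [fixesPoint_iff σ y hy.1] at hfix
    exact hcon y hy.1 hy.2 hfix)
  exact ⟨a, b, hab, (hG.rp_iter hg2 a).eq_of_par (hG.rp_iter hg2 b) hpar⟩

/-- a uniformizer has valuation one -/
theorem od_of_mem (𝔭 : HeightOneSpectrum (𝓞 K)) (π : 𝓞 K) (h1 : π ∈ 𝔭.asIdeal) (h2 : π ∉ 𝔭.asIdeal ^ 2) :
    od 𝔭 (π : K) = 1 := by
  have h0 : π ≠ 0 := by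
    rintro rfl
    exact h2 (Submodule.zero_mem _)
  have hv0 : 𝔭.intValuation π ≠ 0 := 𝔭.intValuation_ne_zero π h0
  have hle : 𝔭.intValuation π ≤ exp (-((1 : ℕ) : ℤ)) := by
    rw [𝔭.intValuation_le_pow_iff_mem, pow_one]
    exact h1
  have hnle : ¬ 𝔭.intValuation π ≤ exp (-((2 : ℕ) : ℤ)) := by
    rw [𝔭.intValuation_le_pow_iff_mem]
    exact h2
  rw [← exp_log hv0, exp_le_exp] at hle hnle
  push_cast at hle hnle
  unfold od
  have h3 : 𝔭.valuation K (π : K) = 𝔭.intValuation π := 𝔭.valuation_of_algebraMap π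
  rw [h3]
  omega

/-- **The twisted congruence class.** -/
theorem tw_good {N d : ℕ} (hd : 2 ≤ d) (𝔭 : HeightOneSpectrum (𝓞 K)) (p : ℕ) (hp : p.Prime)
    (hp𝔭 : (p : 𝓞 K) ∈ 𝔭.asIdeal)
    (hpC : fibC (Fin (N + 1)) (Fintype.card (Fin (N + 1)) * (d - 1) + 1) < p)
    (π : 𝓞 K) (h1 : π ∈ 𝔭.asIdeal) (h2 : π ∉ 𝔭.asIdeal ^ 2)
    (F : Fin (N + 1) → MvPolynomial (Fin (N + 1)) (𝓞 K)) (hF : ∀ i, (F i).IsHomogeneous d)
    (hFB : ∀ i m, coeff m (F i - shiftForms π d N i) ∈ 𝔭.asIdeal ^ 2) : GoodForAll d F := by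
  have hπ := od_of_mem 𝔭 π h1 h2
  have hFB' : ∀ i m, coeff m (F i - twB π d N i) ∈ 𝔭.asIdeal ^ 2 := hFB
  apply goodForAll_of (by omega) F hF (tw_nz 𝔭 π hπ hd F hF hFB').1
  intro g hg0 hfix
  exact ⟨0, N + 1, by omega, (tw_periodic 𝔭 π hπ hd p hp hp𝔭 hpC F hF hFB' g hg0 hfix).symm⟩

/-- existence of primes of large residue characteristic -/
theorem exists_large_prime (C : ℕ) : ∃ (𝔭 : HeightOneSpectrum (𝓞 K)) (p : ℕ), p.Prime ∧ C < p ∧ (p : 𝓞 K) ∈ 𝔭.asIdeal := by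
  obtain ⟨p, hpC, hp⟩ := Nat.exists_infinite_primes (C + 1)
  have hne : (Ideal.span {(p : 𝓞 K)}) ≠ ⊤ := by
    intro h
    rw [Ideal.span_singleton_eq_top] at h
    have h2 : (Algebra.norm ℤ (p : 𝓞 K)) = (p : ℤ) ^ Module.finrank ℤ (𝓞 K) := by
      have h1 := Algebra.norm_algebraMap (R := ℤ) (S := 𝓞 K) (p : ℤ)
      rw [← h1]
      congr 1
      simp
    have h3 : IsUnit (Algebra.norm ℤ (p : 𝓞 K)) := h.map (Algebra.norm ℤ)
    rw [h2] at h3
    have h4 : Module.finrank ℤ (𝓞 K) ≠ 0 := Module.finrank_pos.ne'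
    rw [isUnit_pow_iff h4] at h3
    have h5 := Int.isUnit_iff.1 h3
    have := hp.two_le
    omega
  obtain ⟨M, hM, hle⟩ := Ideal.exists_le_maximal _ hne
  have hmem : (p : 𝓞 K) ∈ M := hle (Ideal.mem_span_singleton_self _)
  have hbot : M ≠ ⊥ := by
    rintro rfl
    rw [Ideal.mem_bot] at hmem
    have : (p : ℕ) = 0 := by exact_mod_cast hmem
    exact hp.ne_zero this
  exact ⟨⟨M, hM.isPrime, hbot⟩, p, hp, by omega, hmem⟩

/-- **Counting a congruence class in boxes.** -/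
theorem proportion_of_class {κ : Type*} [Fintype κ] (b : Basis κ ℤ (𝓞 K)) {N d : ℕ}
    (A : Fin (N + 1) → MvPolynomial (Fin (N + 1)) (𝓞 K)) (hA : ∀ i, (A i).IsHomogeneous d) (m : ℕ) (hm : 0 < m)
    (hgood : ∀ F : Fin (N + 1) → MvPolynomial (Fin (N + 1)) (𝓞 K), (∀ i, (F i).IsHomogeneous d) →
      (∀ i μ, (m : 𝓞 K) ∣ coeff μ (F i - A i)) → GoodForAll d F) :
    ∃ c : ℝ, 0 < c ∧ ∃ B₀ : ℕ, ∀ B : ℕ, B₀ ≤ B →
      c * ((FormBox b N d B).ncard : ℝ) ≤ (({G ∈ FormBox b N d B | GoodForAll d G}.ncard : ℕ) : ℝ) := by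
  classical
  set J := Fin (N + 1) × Mon (Fin (N + 1)) d with hJ
  set n := Fintype.card J * Fintype.card κ with hn
  refine ⟨(((2 * m : ℕ) : ℝ) ^ n)⁻¹, by positivity, m, ?_⟩
  intro B hB
  set X := 2 * B + 1 with hX
  have hF1 : (FormBox b N d B).ncard = X ^ n := by
    rw [formBox_eq, Set.ncard_image_of_injective _ fr_injective]
    exact box_card b B
  have hfin : (FormBox b N d B).Finite := by
    apply Set.finite_of_ncard_ne_zero
    rw [hF1]
    positivity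
  set t := X / m with ht
  have ht1 : 1 ≤ t := (Nat.one_le_div_iff hm).2 (by omega)
  -- the residues
  have hbase : ∀ r : ℤ, ∃ s : ℤ, -(B : ℤ) ≤ s ∧ s < -(B : ℤ) + m ∧ (m : ℤ) ∣ s - r := by
    intro r
    refine ⟨-(B : ℤ) + (r + B) % m, ?_, ?_, ?_⟩
    · have := Int.emod_nonneg (r + B) (by omega : (m : ℤ) ≠ 0)
      omega
    · have := Int.emod_lt_of_pos (r + B) (by omega : (0 : ℤ) < m)
      omega
    · have h1 := Int.emod_add_mul_ediv (r + B) m
      refine ⟨-((r + B) / m), ?_⟩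
      linear_combination h1
  choose base hb1 hb2 hb3 using hbase
  set res : J → κ → ℤ := fun j k => b.repr ((A j.1).coeff j.2.1) k with hres
  -- the parametrisation
  let vec : (J → κ → Fin t) → (J → 𝓞 K) := fun f j => ∑ k, (base (res j k) + (m : ℤ) * ((f j k : ℕ) : ℤ)) • b k
  have hrepr : ∀ f j k, b.repr (vec f j) k = base (res j k) + (m : ℤ) * ((f j k : ℕ) : ℤ) := by
    intro f j k
    exact congrFun (b.repr_sum_self (fun k => base (res j k) + (m : ℤ) * ((f j k : ℕ) : ℤ))) k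
  have hinj : Function.Injective (fun f => fr (vec f)) := by
    intro f f' h
    have h1 : vec f = vec f' := fr_injective h
    funext j k
    have h2 := congrArg (fun x => b.repr (x j) k) h1
    simp only [hrepr] at h2
    have h3 : (m : ℤ) * ((f j k : ℕ) : ℤ) = (m : ℤ) * ((f' j k : ℕ) : ℤ) := by linarith
    have h4 := mul_left_cancel₀ (by omega : (m : ℤ) ≠ 0) h3
    apply Fin.ext
    exact_mod_cast h4
  have hsub : Set.range (fun f => fr (vec f)) ⊆ {G ∈ FormBox b N d B | GoodForAll d G} := by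
    rintro _ ⟨f, rfl⟩
    refine ⟨?_, ?_⟩
    · rw [formBox_eq]
      refine ⟨vec f, ?_, rfl⟩
      intro j k
      rw [hrepr, abs_le]
      have h1 := hb1 (res j k)
      have h2 := hb2 (res j k)
      have h3 : m * t ≤ X := Nat.mul_div_le X m
      have h4 : ((f j k : ℕ) : ℤ) ≤ t - 1 := by
        have := (f j k).2
        omega
      have h5 : (m : ℤ) * ((f j k : ℕ) : ℤ) ≤ (m : ℤ) * (t - 1) := mul_le_mul_of_nonneg_left h4 (by omega)
      have h6 : (m : ℤ) * t ≤ 2 * B + 1 := by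
        have : ((m * t : ℕ) : ℤ) ≤ ((X : ℕ) : ℤ) := by exact_mod_cast h3
        push_cast [hX] at this
        exact this
      have h7 : (0 : ℤ) ≤ (m : ℤ) * ((f j k : ℕ) : ℤ) := by positivity
      constructor
      · linarith
      · have : (m : ℤ) * (t - 1) = m * t - m := by ring
        linarith
    · apply hgood
      · intro i
        exact frm1_homog _
      · intro i μ
        rw [coeff_sub]
        by_cases hμ : μ.degree = d
        · have h1 : (fr (vec f) i).coeff μ = vec f (i, ⟨μ, hμ⟩) := frm1_coeff (fun m => vec f (i, m)) ⟨μ, hμ⟩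
          rw [h1]
          have h2 : (A i).coeff μ = ∑ k, (res (i, ⟨μ, hμ⟩) k) • b k := by
            rw [hres]
            exact (b.sum_repr _).symm
          have h3 : vec f (i, ⟨μ, hμ⟩) = ∑ k, (base (res (i, ⟨μ, hμ⟩) k) + (m : ℤ) * ((f (i, ⟨μ, hμ⟩) k : ℕ) : ℤ)) • b k := rfl
          rw [h3, h2, ← Finset.sum_sub_distrib]
          apply Finset.dvd_sum
          intro k _
          rw [← sub_smul]
          have h4 : (m : ℤ) ∣ base (res (i, ⟨μ, hμ⟩) k) + (m : ℤ) * ((f (i, ⟨μ, hμ⟩) k : ℕ) : ℤ) - res (i, ⟨μ, hμ⟩) k := by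
            have h5 : base (res (i, ⟨μ, hμ⟩) k) + (m : ℤ) * ((f (i, ⟨μ, hμ⟩) k : ℕ) : ℤ) - res (i, ⟨μ, hμ⟩) k
                = (base (res (i, ⟨μ, hμ⟩) k) - res (i, ⟨μ, hμ⟩) k) + (m : ℤ) * ((f (i, ⟨μ, hμ⟩) k : ℕ) : ℤ) := by ring
            rw [h5]
            exact dvd_add (hb3 _) (dvd_mul_right _ _)
          obtain ⟨w, hw⟩ := h4
          rw [hw]
          refine ⟨w • b k, ?_⟩
          rw [mul_smul, zsmul_eq_mul]
          push_cast
          ring
        · have h1 : (fr (vec f) i).coeff μ = 0 := (frm1_homog _).coeff_eq_zero hμ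
          change (m : 𝓞 K) ∣ (fr (vec f) i).coeff μ - coeff μ (A i)
          rw [h1, (hA i).coeff_eq_zero hμ, sub_zero]
          exact dvd_zero _
  have hcard : (Set.range (fun f => fr (vec f))).ncard = t ^ n := by
    rw [← Set.image_univ, Set.ncard_image_of_injective _ hinj, Set.ncard_univ, Nat.card_eq_fintype_card,
      Fintype.card_fun, Fintype.card_fun, Fintype.card_fin, ← pow_mul, hn, mul_comm (Fintype.card J)]
  have hcount : t ^ n ≤ {G ∈ FormBox b N d B | GoodForAll d G}.ncard := by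
    rw [← hcard]
    exact Set.ncard_le_ncard hsub (hfin.subset fun G hG => hG.1)
  rw [hF1]
  have h1 : X ≤ 2 * m * t := by
    have h2 : X < m * t + m := by
      have := Nat.lt_div_mul_add hm (a := X)
      rw [mul_comm] at this
      exact this
    have h3 : m ≤ m * t := Nat.le_mul_of_pos_right m (by omega)
    have h4 : 2 * m * t = m * t + m * t := by ring
    omega
  have h2 : X ^ n ≤ (2 * m) ^ n * t ^ n := by
    rw [← mul_pow]
    exact Nat.pow_le_pow_left h1 n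
  have h3 : ((X ^ n : ℕ) : ℝ) ≤ ((2 * m : ℕ) : ℝ) ^ n * ((t ^ n : ℕ) : ℝ) := by exact_mod_cast h2
  have hpos : (0 : ℝ) < ((2 * m : ℕ) : ℝ) ^ n := by positivity
  rw [inv_mul_le_iff₀ hpos]
  refine h3.trans ?_
  apply mul_le_mul_of_nonneg_left _ hpos.le
  exact_mod_cast hcount

/-- **A positive proportion of all morphisms.** -/
theorem positive_proportion {κ : Type*} [Fintype κ] (b : Basis κ ℤ (𝓞 K)) (N : ℕ) {d : ℕ} (hd : 2 ≤ d) :
    ∃ c : ℝ, 0 < c ∧ ∃ B₀ : ℕ, ∀ B : ℕ, B₀ ≤ B →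
      c * ((FormBox b N d B).ncard : ℝ) ≤ (({G ∈ FormBox b N d B | GoodForAll d G}.ncard : ℕ) : ℝ) := by
  obtain ⟨𝔭, p, hp, hpC, hp𝔭⟩ := exists_large_prime (K := K) (fibC (Fin (N + 1)) (Fintype.card (Fin (N + 1)) * (d - 1) + 1))
  obtain ⟨π, hπ1, hπ2⟩ : ∃ π : 𝓞 K, π ∈ 𝔭.asIdeal ∧ π ∉ 𝔭.asIdeal ^ 2 := by
    have hlt : 𝔭.asIdeal ^ 2 < 𝔭.asIdeal := by
      rw [← Ideal.dvdNotUnit_iff_lt]
      exact ⟨𝔭.ne_bot, 𝔭.asIdeal, Ideal.isUnit_iff.not.mpr 𝔭.isPrime.ne_top, sq 𝔭.asIdeal⟩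
    exact SetLike.exists_of_lt hlt
  apply proportion_of_class b (shiftForms π d N) (fun k => twB_homog π d N k) (p ^ 2) (pow_pos hp.pos 2)
  intro F hF hdvd
  apply tw_good hd 𝔭 p hp hp𝔭 hpC π hπ1 hπ2 F hF
  intro i μ
  obtain ⟨w, hw⟩ := hdvd i μ
  rw [hw]
  apply Ideal.mul_mem_right
  push_cast
  exact Ideal.pow_mem_pow hp𝔭 2

end Pool.Agent.Lib.MP_df4dfc_nt
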