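import Mathlib
import Pool.Agent.Lib.MP_df4dfc_nt.L4
import Pool.Agent.Lib.MP_df4dfc_nt.Cv2
import Pool.Agent.Lib.MP_df4dfc_nt.Sy3
import Pool.Agent.Lib.MP_df4dfc_nt.Em2

set_option autoImplicit false
set_option linter.unusedSectionVars false
set_option linter.style.haveILetI false
set_option linter.unusedVariables false

/-! Towers: the main theorem. -/

namespace Pool.Agent.Lib.MP_df4dfc_nt

open MvPolynomial NumberField IsDedekindDomain

universe u

theorem two_le_of_pow {d k : ℕ} (h : 2 ≤ d ^ k) : 2 ≤ d := by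
  by_contra hd
  have hd' := Nat.lt_succ_iff.1 (not_le.1 hd)
  have h2 := Nat.pow_le_pow_left hd' k
  rw [one_pow] at h2
  exact absurd (h.trans h2) (by norm_num)

theorem tower_rigid {K : Type u} [Field K] {N d : ℕ} {Φ : Morph K N d} (h : Tower Φ) :
    ∀ [NumberField K], 2 ≤ d ∧ RigM Φ := by
  induction h with
  | base Φ hN hd =>
    intro _
    exact ⟨hd, rigM_base Φ hN hd⟩
  | sym Φ f hd hf =>
    intro _
    exact ⟨hd, rigM_sym hd Φ f hf⟩
  | line Φ A hd hA h0 hgen =>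
    intro _
    exact ⟨hd, rigM_line hd Φ hA h0 hgen⟩
  | fib Φ Λ Ψ hΨ hΛ _ _ _ ihΛ ihΨ ihR =>
    intro _
    refine ⟨ihΨ.1, rigM_fib (le_trans one_le_two ihΨ.1) Φ Λ Ψ hΛ ?_ ihΛ.2 ihΨ.2 ?_⟩
    · intro x y i
      obtain ⟨x', hx'⟩ := hΨ x y
      rw [hx', joinV_right]
    · intro l b R hl hb hR
      exact (ihR l b R hl hb hR).2
  | ext Φ w v Dw D a m l q R p h hd hw hv hD hinv hpre hno hres hcov _ ih =>
    intro _
    choose b hb hrel using fun t => (hres t).2.2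
    exact ⟨hd, rigM_emb hd Φ w v hw hv hD hinv a hpre hno R p h b (fun t => (hres t).1) (fun t => (hres t).2.1) hb hrel hcov
      (fun t => (ih t).2)⟩
  | semi Φ Ψ p c hk hq hp hpNZ hc hrel _ ih =>
    intro _
    exact ⟨two_le_of_pow ih.1, rigM_semi hk hq Φ Ψ p hp hpNZ c hc hrel ih.2⟩
  | iter k Φ Ψ hk hl _ ih =>
    intro _
    exact ⟨le_trans ih.1 (Nat.le_self_pow (by omega) _), rigM_iter k hk (le_trans one_le_two ih.1) Φ Ψ hl ih.2⟩
  | descent Φ Ψ hl _ ih =>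
    intro _
    rename_i K K' _ _ _ _ _ _ _ _
    haveI := numberField_of_finite K K'
    exact ⟨ih.1, rigM_ext Φ Ψ hl ih.2⟩

/-- **Towers.** -/
theorem posDensity_tower {K : Type u} [Field K] [NumberField K] {N d : ℕ} {Φ : Morph K N d} (h : Tower Φ) (γ₁ γ₂ : PN K N)
    (H : ∀ m : ℕ, Φ.map^[m] γ₁ ≠ γ₂) : PosDensity (avoidSet Φ γ₁ γ₂) := by
  obtain ⟨c, G, hG⟩ := exists_model Φ
  obtain ⟨hd, hr⟩ := tower_rigid h
  exact posDensity_of_rigid (by omega) Φ hG γ₂ (fun g hg hper => hr c G hG g hg.ne_zero hper) γ₁ H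

end Pool.Agent.Lib.MP_df4dfc_nt
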